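import Pool.Agent.helper93.Circ.Data15

/-!
# Energy certificate: kernel check of the classes of 2 modulo 3
-/

namespace Pool.Agent.helper93.Circ

open Tr

theorem t15_chk_c : chk 1 48 t15 t15_c 1 2 = true := by decide +kernel

theorem t15_mx_c : t15_c.mx ≤ 425 := by decide +kernel

end Pool.Agent.helper93.Circ
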