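import Pool.Agent.helper93.Circ.Tree

/-!
# Energy certificate, data, part 2 of 4 (generated by a program)

Partition of the residues prime to `3` into 60898 classes modulo powers `3 ^ i`, `i ≤ 15`; energies
in units of `log 2 / 53`, at most `48` units lost per circuit.
-/

set_option maxRecDepth 100000

namespace Pool.Agent.helper93.Circ

open Tr

def t15_181 : Tr := (.nd 175 (.nd 175 (.nd 175 (.lf 175 2 3) (.lf 149 2 3) (.nd 149 (.lf 139 2 3) (.lf 141 2 3) (.lf 149 2 3))) (.nd 158 (.nd 158 (.nd 140 (.lf 93 2 3) (.nd 130 (.lf 115 2 3) (.lf 130 2 3) (.lf 116 1 3)) (.lf 140 2 3)) (.lf 144 2 3) (.lf 158 2 3)) (.lf 130 2 3) (.lf 154 2 3)) (.lf 167 2 3)) (.nd 146 (.nd 117 (.lf 117 2 3) (.lf 117 2 3) (.nd 88 (.lf 88 2 3) (.nd 86 (.lf 76 2 3) (.lf 49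 2 3) (.lf 86 2 3)) (.lf 79 2 3))) (.nd 146 (.lf 146 2 3) (.nd 137 (.nd 129 (.lf 129 2 3) (.lf 113 2 3) (.lf 83 2 3)) (.lf 115 2 3) (.lf 137 2 3)) (.lf 127 2 3)) (.nd 140 (.lf 89 2 3) (.lf 140 2 3) (.nd 118 (.lf 118 2 3) (.lf 91 2 3) (.nd 86 (.lf 86 2 3) (.nd 55 (.lf 49 2 3) (.lf 55 2 3) (.lf 49 2 3)) (.lf 56 2 3))))) (.nd 170 (.lf 118 2 3) (.lf 146 2 3) (.nd 170 (.nd 170 (.lf 146 2 3) (.lf 170 2 3) (.lf 139 2 3)) (.lf 155 2 3) (.lf 140 2 3))))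

def t15_182 : Tr := (.nd 204 (.nd 204 (.lf 171 5 2) (.nd 140 (.lf 140 5 2) (.lf 113 5 2) (.nd 108 (.lf 108 5 2) (.nd 56 (.lf 27 5 2) (.lf 56 5 2) (.nd 51 (.lf 51 5 2) (.lf 27 5 2) (.lf 0 5 2))) (.nd 103 (.lf 103 5 2) (.nd 55 (.nd 55 (.lf 30 5 2) (.lf 55 5 2) (.lf 33 5 2)) (.lf 25 5 2) (.lf 22 5 2)) (.lf 58 5 2)))) (.lf 204 5 2)) (.nd 151 (.nd 60 (.nd 50 (.lf 0 6 2) (.nd 29 (.lf 2 6 2) (.nd 29 (.nd 29 (.nd 29 (.lf 21 5 2) (.lf 18 5 2) (.nd 29 (.lf 29 5 2) (.lf 26 5 2) (.lf 28 6 2))) (.lf 21 6 2) (.lf 17 6 2)) (.lf 26 6 2) (.nd 26 (.lf 23 5 2) (.lf 17 6 2) (.lf 26 6 2))) (.lf 0 6 2)) (.lf 50 6 2)) (.nd 60 (.nd 56 (.lf 55 6 2) (.lf 56 5 2) (.lf 50 5 2)) (.nd 55 (.lf 46 5 2) (.lf 55 5 2) (.lf 24 5 2)) (.nd 60 (.lf 51 6 2) (.lf 56 6 2) (.nd 60 (.lf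 59 6 2) (.nd 60 (.lf 41 6 2) (.nd 60 (.nd 59 (.lf 59 6 2) (.lf 58 6 2) (.lf 56 5 2)) (.lf 59 6 2) (.lf 60 6 2)) (.lf 51 6 2)) (.nd 60 (.nd 56 (.lf 51 5 2) (.lf 42 6 2) (.lf 56 6 2)) (.nd 59 (.lf 58 6 2) (.nd 59 (.lf 59 6 2) (.lf 46 5 2) (.lf 19 5 2)) (.lf 47 5 2)) (.lf 60 5 2))))) (.nd 43 (.nd 43 (.nd 43 (.lf 19 6 2) (.lf 20 6 2) (.nd 43 (.lf 29 6 2) (.lf 28 6 2) (.nd 43 (.lf 43 5 2) (.lf 30 6 2) (.lf 29 5 2)))) (.lf 24 5 2) (.nd 25 (.lf 24 6 2) (.lf 19 5 2) (.lf 25 5 2))) (.lf 20 6 2) (.nd 42 (.nd 36 (.lf 36 6 2) (.lf 0 5 2) (.lf 21 6 2)) (.lf 42 6 2) (.lf 0 6 2)))) (.nd 151 (.nd 134 (.nd 81 (.lf 81 5 2) (.lf 51 5 2) (.lf 50 5 2)) (.lf 99 5 2) (.lf 134 6 2)) (.nd 151 (.nd 92 (.nd 92 (.nd 55 (.lf 47 6 2) (.lf 44 6 2) (.nd 55 (.lf 47 5 2) (.lf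 55 6 2) (.lf 52 6 2))) (.lf 80 6 2) (.lf 92 5 2)) (.nd 80 (.nd 74 (.lf 74 5 2) (.lf 50 5 2) (.lf 23 5 2)) (.lf 54 5 2) (.lf 80 5 2)) (.nd 78 (.nd 78 (.lf 70 6 2) (.lf 61 6 2) (.lf 78 6 2)) (.lf 52 5 2) (.lf 49 6 2))) (.lf 151 5 2) (.nd 109 (.lf 109 5 2) (.nd 105 (.nd 105 (.lf 86 5 2) (.lf 105 5 2) (.nd 63 (.lf 60 6 2) (.lf 61 5 2) (.lf 63 5 2))) (.lf 77 5 2) (.nd 78 (.lf 26 5 2) (.lf 73 5 2) (.lf 78 5 2))) (.lf 100 6 2))) (.nd 85 (.nd 53 (.lf 27 5 2) (.lf 47 5 2) (.nd 53 (.lf 44 5 2) (.lf 53 5 2) (.lf 36 5 2))) (.nd 85 (.lf 85 5 2) (.lf 74 5 2) (.nd 65 (.nd 60 (.lf 46 5 2) (.lf 60 5 2) (.nd 46 (.lf 42 5 2) (.lf 0 5 2) (.lf 46 5 2))) (.lf 48 5 2) (.lf 65 5 2))) (.lf 77 5 2))) (.nd 113 (.nd 113 (.nd 113 (.lf 81 6 2) (.nd 78 (.lf 78 6 2) (.nd 77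 (.nd 63 (.lf 30 6 2) (.lf 63 6 2) (.lf 55 6 2)) (.lf 49 6 2) (.lf 77 6 2)) (.lf 52 6 2)) (.lf 113 6 2)) (.lf 101 6 2) (.lf 86 6 2)) (.nd 87 (.lf 28 6 2) (.lf 87 6 2) (.nd 50 (.lf 23 6 2) (.lf 2 6 2) (.lf 50 6 2))) (.nd 54 (.nd 54 (.lf 32 6 2) (.nd 54 (.lf 51 6 2) (.nd 54 (.lf 38 6 2) (.lf 40 6 2) (.lf 54 6 2)) (.lf 45 6 2)) (.lf 42 6 2)) (.lf 23 6 2) (.lf 24 6 2)))) (.nd 204 (.nd 204 (.lf 142 7 2) (.nd 89 (.nd 51 (.lf 0 8 2) (.lf 51 8 2) (.lf 25 8 2)) (.nd 27 (.nd 21 (.lf 0 7 2) (.lf 21 8 2) (.nd 0 (.lf 0 7 2) (.lf 0 8 2) (.lf 0 7 2))) (.lf 27 8 2) (.lf 0 8 2)) (.lf 89 7 2)) (.nd 204 (.lf 204 9 2) (.nd 58 (.lf 20 9 2) (.lf 58 8 2) (.nd 27 (.lf 0 9 2) (.lf 0 9 2) (.lf 27 8 2))) (.lf 111 8 2))) (.nd 120 (.nd 36 (.nd 36 (.nd 36 (.lf 20 7 2) (.nd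 36 (.nd 36 (.lf 30 7 2) (.lf 29 6 2) (.nd 36 (.lf 27 7 2) (.lf 16 6 2) (.lf 36 6 2))) (.lf 35 7 2) (.lf 28 7 2)) (.lf 25 7 2)) (.lf 24 6 2) (.nd 25 (.lf 19 6 2) (.lf 25 6 2) (.lf 24 7 2))) (.lf 19 7 2) (.nd 36 (.nd 36 (.lf 0 6 2) (.lf 21 7 2) (.lf 36 7 2)) (.lf 27 7 2) (.lf 0 7 2))) (.nd 82 (.nd 56 (.lf 19 7 2) (.lf 56 7 2) (.lf 0 7 2)) (.lf 82 7 2) (.lf 23 7 2)) (.lf 120 6 2)) (.lf 173 6 2)))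

def t15_184 : Tr := (.nd 99 (.nd 99 (.nd 99 (.lf 80 2 1) (.nd 99 (.nd 99 (.nd 99 (.lf 97 2 1) (.nd 99 (.lf 80 2 1) (.lf 99 2 1) (.nd 99 (.lf 97 2 1) (.nd 99 (.lf 96 2 1) (.lf 99 2 1) (.lf 82 1 1)) (.lf 92 2 1))) (.lf 96 2 1)) (.lf 93 2 1) (.lf 94 2 1)) (.lf 83 2 1) (.lf 91 2 1)) (.nd 99 (.nd 99 (.lf 99 2 1) (.nd 99 (.lf 99 2 1) (.nd 93 (.lf 79 1 1) (.nd 93 (.lf 74 2 1) (.lf 93 1 1) (.lf 60 2 1)) (.lf 90 2 1)) (.nd 98 (.lf 78 1 1) (.nd 84 (.lf 79 1 1) (.lf 84 2 1) (.lf 50 1 1)) (.nd 98 (.lf 88 1 1) (.lf 98 1 1) (.nd 93 (.lf 93 2 1) (.lf 86 1 1) (.lf 85 1 1))))) (.lf 99 2 1)) (.lf 97 2 1) (.lf 88 2 1))) (.nd 90 (.nd 90 (.lf 90 2 1) (.nd 82 (.lf 80 2 1) (.lf 82 2 1) (.nd 82 (.nd 72 (.lf 58 1 1) (.lf 56 1 1) (.lf 72 2 1)) (.lf 73 2 1) (.lf 82 2 1)))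 (.nd 90 (.lf 87 2 1) (.lf 90 2 1) (.lf 82 2 1))) (.nd 86 (.lf 68 2 1) (.lf 67 1 1) (.lf 86 2 1)) (.nd 88 (.nd 88 (.nd 88 (.lf 88 2 1) (.nd 87 (.lf 87 2 1) (.lf 74 1 1) (.lf 75 2 1)) (.lf 85 2 1)) (.nd 72 (.nd 71 (.lf 53 1 1) (.nd 71 (.lf 61 2 1) (.lf 61 1 1) (.lf 71 2 1)) (.lf 51 1 1)) (.nd 72 (.lf 54 2 1) (.nd 72 (.lf 65 2 1) (.lf 66 2 1) (.lf 72 1 1)) (.lf 59 2 1)) (.nd 62 (.lf 62 2 1) (.lf 31 1 1) (.lf 61 2 1))) (.lf 88 2 1)) (.nd 51 (.lf 37 2 1) (.nd 51 (.lf 51 1 1) (.lf 49 2 1) (.lf 50 2 1)) (.lf 50 2 1)) (.nd 85 (.lf 51 1 1) (.lf 70 2 1) (.nd 85 (.lf 85 2 1) (.lf 60 1 1) (.nd 84 (.lf 84 1 1) (.lf 72 2 1) (.lf 84 1 1)))))) (.nd 90 (.nd 89 (.lf 82 2 1) (.nd 89 (.nd 74 (.nd 64 (.lf 60 2 1) (.lf 64 1 1) (.lf 52 2 1)) (.lf 74 2 1) (.lf 62 1 1))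 (.nd 89 (.lf 67 2 1) (.nd 89 (.lf 89 2 1) (.nd 84 (.lf 84 1 1) (.lf 81 2 1) (.lf 80 2 1)) (.lf 85 1 1)) (.lf 83 2 1)) (.lf 85 2 1)) (.nd 88 (.nd 88 (.nd 88 (.lf 81 2 1) (.lf 74 2 1) (.nd 88 (.nd 88 (.lf 76 2 1) (.lf 69 2 1) (.lf 88 1 1)) (.lf 88 2 1) (.lf 80 2 1))) (.lf 82 2 1) (.lf 79 2 1)) (.lf 47 2 1) (.lf 68 2 1))) (.nd 90 (.nd 61 (.lf 57 1 1) (.nd 61 (.lf 61 1 1) (.nd 53 (.lf 53 1 1) (.lf 46 2 1) (.lf 52 1 1)) (.lf 53 1 1)) (.lf 45 1 1)) (.nd 90 (.nd 80 (.lf 78 1 1) (.lf 80 2 1) (.lf 66 1 1)) (.lf 90 2 1) (.lf 87 1 1)) (.nd 73 (.nd 73 (.nd 73 (.lf 73 2 1) (.lf 63 1 1) (.lf 61 1 1)) (.lf 57 1 1) (.lf 72 1 1)) (.lf 64 1 1) (.lf 35 1 1))) (.nd 86 (.nd 86 (.lf 82 2 1) (.nd 86 (.lf 75 2 1) (.nd 86 (.lf 86 2 1) (.nd 86 (.lf 81 2 1) (.lf 83 2 1)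 (.lf 86 1 1)) (.lf 84 2 1)) (.lf 86 2 1)) (.lf 68 2 1)) (.nd 73 (.lf 73 2 1) (.lf 53 2 1) (.lf 60 1 1)) (.lf 71 2 1)))) (.nd 73 (.nd 73 (.lf 73 2 1) (.nd 51 (.lf 34 2 1) (.lf 51 2 1) (.lf 24 2 1)) (.nd 58 (.lf 26 2 1) (.lf 58 2 1) (.lf 43 2 1))) (.nd 43 (.nd 43 (.lf 13 2 1) (.lf 28 2 1) (.lf 43 2 1)) (.lf 38 2 1) (.lf 0 2 1)) (.nd 42 (.lf 11 2 1) (.lf 13 2 1) (.lf 42 2 1))) (.nd 76 (.lf 62 2 1) (.nd 76 (.lf 76 2 1) (.lf 76 2 1) (.nd 75 (.lf 71 2 1) (.lf 74 2 1) (.nd 75 (.lf 75 2 1) (.lf 40 1 1) (.lf 74 2 1)))) (.nd 32 (.lf 17 2 1) (.lf 16 2 1) (.nd 32 (.nd 31 (.nd 31 (.lf 5 2 1) (.nd 31 (.lf 31 1 1) (.lf 29 2 1) (.lf 25 2 1)) (.lf 31 2 1)) (.lf 27 2 1) (.nd 30 (.nd 30 (.lf 25 2 1) (.lf 30 1 1) (.lf 25 2 1)) (.lf 23 2 1) (.nd 29 (.nd 28 (.lf 25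 2 1) (.lf 28 1 1) (.lf 26 2 1)) (.lf 25 2 1) (.lf 29 2 1)))) (.lf 25 2 1) (.lf 32 2 1)))))

def t15_185 : Tr := (.nd 259 (.nd 237 (.nd 206 (.lf 176 1 2) (.lf 206 1 2) (.lf 173 1 2)) (.nd 237 (.nd 235 (.lf 235 1 2) (.lf 230 1 2) (.lf 212 1 2)) (.nd 237 (.lf 226 1 2) (.lf 229 1 2) (.nd 237 (.lf 230 1 2) (.lf 228 1 2) (.nd 237 (.lf 218 2 4) (.lf 237 1 2) (.nd 232 (.lf 224 1 2) (.lf 230 2 4) (.lf 232 1 2))))) (.lf 235 1 2)) (.nd 209 (.nd 209 (.lf 203 1 2) (.lf 196 1 2) (.nd 209 (.nd 209 (.lf 195 1 2) (.lf 204 1 2) (.lf 209 1 2)) (.lf 206 1 2) (.lf 186 1 2))) (.lf 180 1 2) (.lf 180 1 2))) (.nd 207 (.lf 178 1 2) (.lf 202 1 2) (.nd 207 (.nd 190 (.lf 190 1 2) (.lf 162 1 2) (.nd 186 (.lf 186 1 2) (.nd 171 (.lf 132 1 2) (.lf 171 1 2) (.lf 140 1 2)) (.lf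 172 1 2))) (.lf 199 1 2) (.nd 207 (.lf 181 1 2) (.lf 207 1 2) (.lf 181 1 2)))) (.nd 259 (.nd 259 (.lf 233 1 2) (.lf 259 1 2) (.nd 235 (.lf 235 1 2) (.nd 227 (.lf 227 1 2) (.lf 222 1 2) (.nd 201 (.lf 201 1 2) (.lf 172 1 2) (.lf 194 1 2))) (.lf 231 1 2))) (.lf 229 1 2) (.nd 244 (.lf 244 1 2) (.nd 221 (.lf 221 1 2) (.lf 203 1 2) (.lf 202 1 2)) (.lf 220 1 2))))

def t15_187 : Tr := (.nd 350 (.lf 350 2 5) (.nd 307 (.lf 298 1 5) (.lf 307 1 5) (.nd 278 (.lf 278 1 5) (.nd 268 (.lf 268 1 5) (.lf 258 1 5) (.lf 217 1 5)) (.lf 245 1 5))) (.lf 335 2 5))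

def t15_190 : Tr := (.nd 96 (.nd 90 (.nd 42 (.lf 12 1 1) (.lf 42 1 1) (.lf 11 1 1)) (.nd 90 (.nd 90 (.nd 90 (.lf 90 1 1) (.lf 61 1 1) (.lf 69 1 1)) (.lf 69 1 1) (.nd 65 (.lf 65 1 1) (.lf 40 1 1) (.lf 59 1 1))) (.nd 71 (.lf 71 1 1) (.lf 63 1 1) (.nd 68 (.lf 68 1 1) (.lf 59 1 1) (.lf 59 1 1))) (.nd 71 (.lf 49 1 1) (.lf 71 1 1) (.nd 66 (.lf 52 1 1) (.lf 66 1 1) (.lf 60 1 1)))) (.nd 47 (.nd 16 (.lf 0 1 1) (.lf 0 1 1) (.lf 16 1 1)) (.lf 47 1 1) (.lf 19 1 1))) (.nd 45 (.nd 38 (.lf 0 1 1) (.lf 14 1 1) (.lf 38 1 1)) (.nd 45 (.lf 26 1 1) (.nd 35 (.lf 12 1 1) (.nd 34 (.lf 34 1 1) (.lf 0 1 1) (.lf 12 1 1)) (.lf 35 1 1)) (.nd 45 (.lf 45 1 1) (.lf 22 1 1) (.lf 22 1 1))) (.nd 16 (.lf 16 1 1) (.lf 8 1 1) (.lf 0 1 1))) (.nd 96 (.nd 85 (.lf 57 1 1) (.lf 70 1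 1) (.nd 85 (.lf 63 1 1) (.lf 85 1 1) (.lf 70 1 1))) (.nd 96 (.lf 75 1 1) (.nd 96 (.nd 96 (.lf 96 1 1) (.lf 80 1 1) (.lf 72 1 1)) (.nd 94 (.lf 94 1 1) (.nd 93 (.lf 93 1 1) (.nd 86 (.lf 71 1 1) (.lf 41 1 1) (.lf 86 1 1)) (.lf 86 1 1)) (.nd 86 (.nd 86 (.lf 51 1 1) (.lf 86 1 1) (.lf 62 1 1)) (.lf 62 1 1) (.lf 79 1 1))) (.lf 86 1 1)) (.lf 76 1 1)) (.nd 70 (.lf 41 1 1) (.lf 70 1 1) (.nd 65 (.lf 13 1 1) (.lf 65 1 1) (.lf 43 1 1)))))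

def t15_191 : Tr := (.nd 275 (.nd 275 (.nd 259 (.lf 259 1 2) (.nd 220 (.nd 205 (.lf 176 1 2) (.lf 205 1 2) (.nd 181 (.lf 181 1 2) (.lf 153 1 2) (.lf 150 1 2))) (.nd 179 (.lf 150 1 2) (.nd 172 (.lf 172 1 2) (.lf 134 1 2) (.lf 148 1 2)) (.lf 179 1 2)) (.lf 220 1 2)) (.nd 228 (.nd 207 (.lf 207 1 2) (.lf 150 1 2) (.nd 181 (.lf 150 1 2) (.lf 181 1 2) (.lf 145 1 2))) (.lf 228 1 2) (.lf 204 1 2))) (.lf 260 1 2) (.lf 275 1 2)) (.nd 271 (.nd 254 (.lf 254 1 2) (.nd 223 (.nd 202 (.lf 188 1 2) (.lf 145 1 2) (.nd 202 (.lf 190 1 2) (.lf 202 1 2) (.lf 168 1 2))) (.nd 199 (.lf 171 1 2) (.nd 199 (.nd 180 (.lf 180 1 2) (.lf 163 1 2) (.lf 168 1 2)) (.lf 199 1 2) (.lf 199 1 2)) (.nd 177 (.lf 177 1 2) (.lf 144 1 2) (.lf 169 1 2))) (.lf 223 1 2)) (.nd 225 (.lf 225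 1 2) (.lf 174 1 2) (.nd 219 (.lf 219 1 2) (.lf 171 1 2) (.nd 176 (.lf 145 1 2) (.lf 148 1 2) (.lf 176 1 2))))) (.lf 271 1 2) (.nd 255 (.nd 250 (.nd 202 (.lf 172 1 2) (.lf 202 1 2) (.nd 169 (.lf 132 1 2) (.nd 169 (.nd 169 (.lf 156 1 2) (.lf 148 1 2) (.lf 169 1 2)) (.lf 149 1 2) (.nd 156 (.lf 136 1 2) (.lf 156 1 2) (.lf 141 1 2))) (.lf 140 1 2))) (.lf 250 1 2) (.lf 205 1 2)) (.nd 203 (.lf 203 1 2) (.nd 174 (.lf 145 1 2) (.lf 174 1 2) (.lf 168 1 2)) (.nd 198 (.nd 174 (.lf 145 1 2) (.lf 148 1 2) (.lf 174 1 2)) (.nd 198 (.nd 198 (.lf 167 1 2) (.lf 174 1 2) (.lf 198 1 2)) (.nd 183 (.lf 183 1 2) (.lf 159 1 2) (.lf 160 1 2)) (.lf 168 1 2)) (.lf 146 1 2))) (.lf 255 1 2))) (.nd 264 (.nd 264 (.lf 234 1 2) (.lf 264 1 2) (.nd 227 (.lf 202 1 2) (.lf 227 1 2)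 (.nd 204 (.nd 204 (.lf 193 1 2) (.lf 204 1 2) (.nd 178 (.lf 149 1 2) (.lf 178 1 2) (.nd 173 (.lf 151 1 2) (.lf 134 1 2) (.lf 173 1 2)))) (.nd 198 (.lf 198 1 2) (.lf 155 1 2) (.lf 150 1 2)) (.lf 153 1 2)))) (.lf 259 1 2) (.lf 238 1 2)))

def t15_193 : Tr := (.nd 153 (.nd 148 (.nd 103 (.nd 74 (.lf 48 1 1) (.lf 74 1 1) (.lf 51 1 1)) (.nd 74 (.lf 44 1 1) (.nd 74 (.lf 53 1 1) (.lf 52 1 1) (.lf 74 1 1)) (.lf 43 1 1)) (.nd 103 (.nd 103 (.lf 100 1 1) (.nd 80 (.lf 69 1 1) (.lf 62 1 1) (.lf 80 1 1)) (.lf 103 1 1)) (.lf 97 1 1) (.nd 90 (.lf 87 1 1) (.nd 73 (.lf 73 1 1) (.lf 72 1 1) (.lf 66 1 1)) (.lf 90 1 1)))) (.lf 100 1 1) (.nd 148 (.nd 129 (.nd 106 (.lf 106 1 1) (.lf 101 1 1) (.lf 88 1 1)) (.lf 129 1 1) (.lf 124 1 1)) (.nd 148 (.lf 123 1 1) (.nd 148 (.lf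 122 1 1) (.nd 148 (.nd 148 (.lf 118 1 1) (.lf 148 1 1) (.lf 126 1 1)) (.lf 147 1 1) (.lf 131 1 1)) (.lf 124 1 1)) (.lf 120 1 1)) (.lf 129 1 1))) (.nd 101 (.nd 96 (.nd 44 (.lf 39 1 1) (.lf 15 1 1) (.lf 44 1 1)) (.nd 72 (.nd 46 (.lf 17 1 1) (.lf 46 1 1) (.lf 17 1 1)) (.lf 72 1 1) (.lf 43 1 1)) (.nd 96 (.lf 81 1 1) (.lf 66 1 1) (.lf 96 1 1))) (.nd 101 (.nd 93 (.lf 70 1 1) (.nd 92 (.lf 40 1 1) (.lf 70 1 1) (.lf 92 1 1)) (.lf 93 1 1)) (.lf 101 1 1) (.lf 84 1 1)) (.nd 72 (.nd 43 (.lf 43 1 1) (.lf 43 1 1) (.lf 14 1 1)) (.lf 72 1 1) (.nd 66 (.nd 44 (.lf 12 1 1) (.lf 44 1 1) (.lf 17 1 1)) (.lf 15 1 1) (.lf 66 1 1)))) (.nd 153 (.nd 153 (.nd 127 (.lf 110 1 1) (.nd 127 (.nd 127 (.lf 127 1 1) (.lf 107 1 1) (.lf 119 1 1)) (.lf 101 1 1) (.lf 116 1 1)) (.nd 122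 (.nd 112 (.nd 112 (.lf 109 1 1) (.nd 112 (.lf 100 1 1) (.lf 90 1 1) (.lf 112 1 1)) (.lf 94 1 1)) (.lf 96 1 1) (.lf 69 1 1)) (.lf 93 1 1) (.lf 122 1 1))) (.nd 153 (.nd 152 (.lf 152 1 1) (.nd 151 (.lf 137 1 1) (.nd 151 (.lf 142 1 1) (.lf 146 1 1) (.lf 151 1 1)) (.lf 144 1 1)) (.lf 145 1 1)) (.lf 139 1 1) (.nd 153 (.nd 153 (.lf 131 1 1) (.nd 153 (.lf 153 1 1) (.lf 147 1 1) (.lf 133 1 1)) (.lf 127 1 1)) (.lf 138 1 1) (.lf 127 1 1))) (.nd 129 (.nd 129 (.lf 108 1 1) (.lf 124 1 1) (.lf 129 1 1)) (.nd 121 (.lf 95 1 1) (.lf 121 1 1) (.lf 116 1 1)) (.nd 125 (.nd 125 (.lf 125 1 1) (.lf 102 1 1) (.lf 115 1 1)) (.lf 102 1 1) (.lf 84 1 1)))) (.nd 123 (.lf 121 1 1) (.nd 123 (.nd 123 (.lf 93 1 1) (.lf 108 1 1) (.lf 123 1 1)) (.lf 101 1 1) (.lf 71 1 1)) (.lf 99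 1 1)) (.nd 138 (.nd 115 (.nd 115 (.lf 105 1 1) (.lf 98 1 1) (.lf 115 1 1)) (.lf 97 1 1) (.lf 96 1 1)) (.nd 114 (.lf 94 1 1) (.nd 114 (.lf 114 1 1) (.lf 101 1 1) (.lf 100 1 1)) (.lf 89 1 1)) (.nd 138 (.lf 121 1 1) (.nd 138 (.lf 128 1 1) (.nd 138 (.lf 126 1 1) (.nd 138 (.lf 136 1 1) (.lf 138 1 1) (.lf 135 1 1)) (.lf 134 1 1)) (.lf 129 1 1)) (.lf 127 1 1)))))

def t15_194 : Tr := (.nd 194 (.nd 194 (.nd 178 (.nd 167 (.lf 116 3 4) (.nd 131 (.nd 131 (.nd 131 (.lf 129 1 2) (.lf 120 3 4) (.nd 131 (.lf 131 3 4) (.lf 115 1 2) (.lf 123 3 4))) (.nd 130 (.nd 130 (.lf 111 1 2) (.lf 126 1 2) (.lf 130 3 4)) (.lf 117 1 2) (.lf 89 1 2)) (.lf 119 1 2)) (.lf 113 3 4) (.nd 118 (.nd 87 (.lf 71 3 4) (.lf 87 3 4) (.lf 71 3 4)) (.lf 90 3 4) (.lf 118 3 4))) (.lf 167 3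 4)) (.nd 178 (.nd 175 (.lf 161 3 4) (.lf 166 3 4) (.nd 175 (.lf 174 3 4) (.nd 175 (.lf 175 3 4) (.lf 175 3 4) (.nd 173 (.lf 166 1 2) (.lf 159 3 4) (.lf 173 3 4))) (.lf 175 3 4))) (.lf 174 3 4) (.nd 178 (.lf 173 3 4) (.nd 172 (.nd 157 (.lf 144 1 2) (.lf 157 3 4) (.lf 148 3 4)) (.lf 172 1 2) (.lf 158 3 4)) (.nd 178 (.nd 178 (.nd 178 (.lf 178 1 2) (.lf 174 3 4) (.lf 168 3 4)) (.nd 171 (.lf 164 1 2) (.lf 171 2 4) (.lf 164 1 2)) (.lf 177 3 4)) (.lf 174 3 4) (.lf 177 3 4)))) (.nd 158 (.lf 144 3 4) (.lf 141 3 4) (.nd 158 (.nd 158 (.nd 158 (.nd 158 (.lf 158 1 2) (.nd 158 (.lf 149 3 4) (.lf 143 3 4) (.lf 158 1 2)) (.lf 158 3 4)) (.lf 149 1 2) (.lf 149 3 4)) (.lf 157 3 4) (.lf 154 3 4)) (.lf 147 3 4) (.lf 150 3 4)))) (.nd 194 (.nd 194 (.nd 185 (.lf 163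 1 2) (.lf 170 1 2) (.nd 185 (.lf 185 1 2) (.lf 180 1 2) (.nd 180 (.lf 180 3 4) (.nd 180 (.lf 156 3 4) (.lf 180 3 4) (.lf 170 1 2)) (.lf 179 1 2)))) (.nd 194 (.nd 188 (.lf 186 1 2) (.nd 188 (.lf 185 1 2) (.nd 188 (.lf 188 3 4) (.lf 187 1 2) (.lf 188 1 2)) (.nd 187 (.lf 187 3 4) (.lf 162 1 2) (.lf 181 3 4))) (.lf 177 3 4)) (.lf 185 3 4) (.nd 194 (.lf 185 1 2) (.nd 194 (.nd 183 (.lf 159 3 4) (.lf 183 1 2) (.lf 182 1 2)) (.lf 186 3 4) (.lf 194 1 2)) (.lf 178 1 2))) (.nd 187 (.nd 187 (.nd 187 (.lf 179 1 2) (.lf 177 1 2) (.nd 187 (.lf 187 3 4) (.nd 187 (.lf 185 3 4) (.lf 187 1 2) (.lf 187 3 4)) (.lf 187 1 2))) (.lf 160 3 4) (.lf 174 3 4)) (.nd 183 (.lf 153 1 2) (.lf 150 1 2) (.nd 183 (.lf 179 1 2) (.lf 183 3 4) (.lf 179 1 2))) (.lf 151 1 2))) (.nd 181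 (.lf 172 1 2) (.nd 181 (.lf 181 1 2) (.lf 171 3 4) (.lf 172 3 4)) (.nd 179 (.lf 176 1 2) (.nd 179 (.lf 163 3 4) (.nd 179 (.lf 179 1 2) (.lf 179 1 2) (.nd 179 (.lf 179 1 2) (.lf 179 1 2) (.lf 179 1 2))) (.lf 177 1 2)) (.lf 177 1 2))) (.nd 186 (.nd 176 (.lf 176 3 4) (.nd 174 (.lf 174 3 4) (.lf 166 3 4) (.nd 174 (.lf 170 3 4) (.lf 174 1 2) (.lf 167 3 4))) (.lf 146 3 4)) (.nd 186 (.lf 167 1 2) (.lf 176 1 2) (.nd 186 (.lf 186 1 2) (.nd 185 (.nd 185 (.lf 161 3 4) (.lf 185 1 2) (.lf 175 3 4)) (.lf 182 3 4) (.lf 184 1 2)) (.lf 183 1 2))) (.nd 177 (.nd 177 (.lf 177 3 4) (.lf 152 1 2) (.lf 158 1 2)) (.lf 158 3 4) (.lf 156 1 2)))) (.nd 189 (.nd 173 (.lf 144 3 4) (.nd 173 (.nd 168 (.lf 164 3 4) (.lf 167 3 4) (.nd 168 (.lf 166 3 4) (.lf 167 1 2) (.lf 168 3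 4))) (.lf 173 3 4) (.lf 173 3 4)) (.lf 147 3 4)) (.lf 145 3 4) (.nd 189 (.nd 173 (.nd 173 (.nd 173 (.lf 161 1 2) (.lf 173 3 4) (.lf 172 3 4)) (.lf 171 3 4) (.lf 165 3 4)) (.lf 159 3 4) (.lf 158 3 4)) (.nd 189 (.lf 173 3 4) (.lf 171 3 4) (.nd 189 (.nd 175 (.lf 171 3 4) (.nd 175 (.lf 159 1 2) (.lf 156 1 2) (.lf 175 3 4)) (.lf 157 1 2)) (.lf 189 1 2) (.lf 183 3 4))) (.lf 167 3 4)))) (.nd 176 (.nd 153 (.lf 147 1 2) (.lf 132 1 2) (.nd 153 (.lf 145 3 4) (.lf 144 3 4) (.nd 153 (.nd 153 (.nd 153 (.lf 133 3 4) (.lf 153 1 2) (.lf 152 1 2)) (.lf 150 1 2) (.lf 142 1 2)) (.lf 139 1 2) (.nd 147 (.lf 145 3 4) (.lf 128 3 4) (.lf 147 1 2))))) (.nd 158 (.lf 127 1 2) (.lf 128 1 2) (.lf 158 1 2)) (.nd 176 (.nd 158 (.nd 158 (.lf 148 3 4) (.nd 158 (.lf 155 3 4) (.nd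 158 (.lf 158 1 2) (.lf 148 3 4) (.lf 151 3 4)) (.lf 147 3 4)) (.lf 155 3 4)) (.lf 139 3 4) (.lf 141 3 4)) (.nd 176 (.nd 165 (.nd 165 (.lf 141 1 2) (.lf 150 1 2) (.nd 165 (.nd 165 (.lf 156 3 4) (.lf 158 1 2) (.lf 165 3 4)) (.lf 157 1 2) (.lf 160 1 2))) (.nd 160 (.lf 132 3 4) (.lf 130 1 2) (.lf 160 1 2)) (.lf 154 3 4)) (.nd 176 (.lf 168 1 2) (.nd 168 (.nd 168 (.lf 152 1 2) (.lf 159 1 2) (.nd 168 (.nd 157 (.lf 157 1 2) (.lf 156 1 2) (.lf 133 3 4)) (.lf 160 3 4) (.lf 168 1 2))) (.nd 168 (.nd 168 (.nd 162 (.lf 162 3 4) (.lf 161 1 2) (.lf 162 1 2)) (.lf 168 1 2) (.lf 159 1 2)) (.lf 151 3 4) (.lf 160 1 2)) (.lf 159 3 4)) (.nd 176 (.nd 176 (.lf 176 1 2) (.lf 134 3 4) (.lf 148 3 4)) (.nd 157 (.lf 124 1 2) (.nd 157 (.lf 153 1 2) (.lf 153 1 2) (.lf 157 3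 4)) (.lf 127 1 2)) (.lf 125 1 2))) (.lf 165 1 2)) (.nd 171 (.nd 147 (.lf 121 3 4) (.lf 118 3 4) (.nd 147 (.nd 142 (.lf 138 3 4) (.lf 141 3 4) (.nd 142 (.lf 140 3 4) (.lf 141 1 2) (.lf 142 3 4))) (.lf 147 3 4) (.lf 147 3 4))) (.lf 119 3 4) (.nd 171 (.nd 171 (.lf 145 3 4) (.lf 171 3 4) (.lf 147 3 4)) (.lf 141 3 4) (.lf 156 3 4))))) (.nd 173 (.nd 173 (.nd 173 (.nd 173 (.nd 173 (.lf 166 1 2) (.lf 162 1 2) (.nd 173 (.lf 162 1 2) (.lf 163 1 2) (.nd 173 (.lf 173 1 2) (.lf 162 1 2) (.lf 159 3 4)))) (.lf 160 1 2) (.lf 170 1 2)) (.lf 164 1 2) (.nd 171 (.nd 171 (.nd 171 (.lf 167 1 2) (.nd 171 (.lf 165 3 4) (.lf 171 1 2) (.lf 164 3 4)) (.lf 167 1 2)) (.lf 162 1 2) (.lf 166 1 2)) (.lf 142 1 2) (.lf 168 1 2))) (.lf 169 1 2) (.lf 162 1 2)) (.nd 153 (.lf 153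 1 2) (.lf 124 1 2) (.lf 122 1 2)) (.nd 154 (.lf 102 1 2) (.nd 149 (.lf 149 1 2) (.lf 101 1 2) (.lf 104 1 2)) (.lf 154 1 2))))

def t15_196 : Tr := (.nd 321 (.lf 314 1 3) (.nd 315 (.lf 315 1 3) (.nd 307 (.nd 307 (.nd 281 (.lf 278 1 3) (.nd 259 (.lf 259 1 3) (.lf 233 1 3) (.nd 253 (.lf 229 1 3) (.lf 253 1 3) (.nd 202 (.lf 202 1 3) (.lf 195 1 3) (.lf 173 1 3)))) (.lf 281 1 3)) (.lf 287 1 3) (.lf 307 1 3)) (.lf 285 1 3) (.lf 261 1 3)) (.lf 296 1 3)) (.nd 321 (.lf 289 1 3) (.lf 321 1 3) (.nd 306 (.nd 286 (.lf 257 1 3) (.nd 286 (.lf 286 1 3) (.nd 271 (.lf 256 1 3) (.lf 271 1 3) (.nd 251 (.lf 235 1 3) (.lf 205 1 3) (.lf 251 1 3))) (.nd 264 (.nd 253 (.lf 217 1 3) (.lf 230 1 3) (.lf 253 1 3)) (.lf 264 1 3) (.lf 250 1 3))) (.nd 255 (.lf 255 1 3) (.nd 234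 (.lf 234 1 3) (.lf 220 1 3) (.lf 177 1 3)) (.nd 231 (.lf 231 1 3) (.lf 209 1 3) (.lf 203 1 3)))) (.nd 306 (.lf 306 1 3) (.nd 295 (.nd 268 (.lf 258 1 3) (.nd 255 (.lf 235 1 3) (.nd 236 (.lf 184 1 3) (.lf 231 1 3) (.lf 236 1 3)) (.lf 255 1 3)) (.lf 268 1 3)) (.lf 281 1 3) (.lf 295 1 3)) (.lf 302 1 3)) (.nd 287 (.nd 282 (.lf 282 1 3) (.nd 237 (.lf 237 1 3) (.lf 208 1 3) (.lf 208 1 3)) (.lf 234 1 3)) (.nd 235 (.nd 235 (.lf 218 1 3) (.nd 227 (.lf 227 1 3) (.lf 204 1 3) (.nd 226 (.lf 226 1 3) (.lf 174 1 3) (.lf 204 1 3))) (.lf 235 1 3)) (.lf 206 1 3) (.nd 230 (.lf 206 1 3) (.lf 230 1 3) (.nd 178 (.lf 149 1 3) (.lf 178 1 3) (.lf 173 1 3)))) (.lf 287 1 3)))))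

def t15_197 : Tr := (.nd 259 (.lf 259 1 4) (.nd 242 (.lf 214 1 4) (.nd 238 (.lf 238 1 4) (.lf 223 1 4) (.nd 224 (.lf 224 1 4) (.nd 172 (.nd 167 (.nd 167 (.lf 137 1 4) (.lf 152 1 4) (.lf 167 1 4)) (.lf 143 1 4) (.lf 133 1 4)) (.lf 143 1 4) (.nd 172 (.lf 164 1 4) (.lf 155 1 4) (.nd 172 (.lf 146 1 4) (.lf 146 1 4) (.lf 172 1 4)))) (.lf 219 1 4))) (.lf 242 1 4)) (.nd 251 (.lf 251 1 4) (.lf 228 1 4) (.nd 250 (.lf 250 1 4) (.lf 198 1 4) (.nd 228 (.lf 197 1 4) (.nd 200 (.nd 171 (.lf 171 1 4) (.lf 141 1 4) (.lf 140 1 4)) (.lf 171 1 4) (.lf 200 1 4)) (.lf 228 1 4)))))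

def t15_199 : Tr := (.nd 147 (.nd 147 (.nd 122 (.nd 122 (.lf 94 1 1) (.lf 108 1 1) (.lf 122 1 1)) (.nd 96 (.nd 79 (.lf 63 1 1) (.lf 66 1 1) (.lf 79 1 1)) (.nd 96 (.nd 95 (.lf 92 2 3) (.lf 95 1 1) (.lf 95 2 3)) (.lf 93 2 3) (.nd 96 (.lf 93 1 1) (.nd 96 (.nd 96 (.lf 76 2 3) (.lf 96 1 1) (.lf 93 2 3)) (.lf 91 2 3) (.lf 96 1 1)) (.lf 94 1 1))) (.nd 92 (.lf 70 1 1) (.lf 62 1 1) (.nd 92 (.lf 92 2 3) (.lf 89 2 3) (.lf 86 1 1)))) (.nd 97 (.lf 68 1 1) (.lf 97 1 1) (.lf 62 1 1))) (.nd 119 (.lf 108 1 1) (.lf 119 1 1) (.nd 108 (.lf 73 1 1) (.lf 94 1 1) (.lf 108 1 1))) (.nd 147 (.nd 147 (.nd 146 (.lf 118 1 1) (.lf 146 2 3) (.lf 145 1 1)) (.nd 147 (.lf 125 1 1) (.lf 147 1 1) (.lf 117 1 1)) (.lf 130 1 1)) (.nd 121 (.nd 119 (.nd 119 (.nd 119 (.lf 119 2 3) (.lf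 89 2 3) (.lf 117 1 1)) (.lf 117 2 3) (.lf 119 1 1)) (.lf 117 1 1) (.lf 117 1 1)) (.nd 121 (.nd 119 (.nd 113 (.lf 94 1 1) (.nd 113 (.lf 100 1 1) (.lf 113 2 3) (.lf 98 1 1)) (.lf 109 1 1)) (.lf 72 1 1) (.lf 119 1 1)) (.lf 121 2 3) (.lf 118 2 3)) (.lf 119 2 3)) (.nd 123 (.nd 123 (.lf 98 1 1) (.lf 122 1 1) (.nd 123 (.nd 118 (.lf 111 1 1) (.lf 112 1 1) (.nd 118 (.lf 103 2 3) (.lf 118 1 1) (.lf 113 2 3))) (.lf 118 1 1) (.lf 123 1 1))) (.nd 118 (.lf 115 2 3) (.nd 118 (.lf 117 1 1) (.nd 116 (.lf 114 1 1) (.lf 116 2 3) (.lf 116 1 1)) (.lf 118 2 3)) (.lf 118 2 3)) (.nd 116 (.lf 90 2 3) (.lf 116 2 3) (.lf 110 1 1))))) (.nd 128 (.nd 128 (.lf 104 1 1) (.lf 103 1 1) (.lf 128 1 1)) (.nd 105 (.lf 87 1 1) (.nd 100 (.lf 91 1 1) (.lf 92 1 1) (.nd 100 (.nd 100 (.lf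 100 1 1) (.nd 93 (.lf 91 2 3) (.lf 80 1 1) (.nd 93 (.lf 93 2 3) (.lf 83 1 1) (.lf 72 1 1))) (.lf 100 1 1)) (.lf 100 1 1) (.lf 94 1 1))) (.nd 105 (.lf 97 1 1) (.lf 96 1 1) (.lf 105 1 1))) (.nd 123 (.nd 123 (.lf 123 1 1) (.nd 119 (.lf 101 1 1) (.lf 98 1 1) (.lf 119 1 1)) (.lf 110 1 1)) (.nd 109 (.nd 109 (.lf 102 1 1) (.nd 109 (.nd 109 (.lf 98 1 1) (.lf 85 2 3) (.nd 109 (.lf 109 2 3) (.lf 98 1 1) (.lf 104 1 1))) (.lf 102 1 1) (.lf 94 1 1)) (.lf 95 1 1)) (.lf 85 1 1) (.lf 78 1 1)) (.lf 117 1 1))) (.nd 128 (.nd 119 (.lf 112 1 1) (.lf 94 1 1) (.nd 119 (.nd 119 (.lf 119 1 1) (.lf 88 1 1) (.lf 85 1 1)) (.lf 108 1 1) (.lf 107 1 1))) (.nd 128 (.lf 92 1 1) (.nd 111 (.lf 91 1 1) (.lf 96 1 1) (.lf 111 1 1)) (.nd 128 (.nd 114 (.lf 111 2 3) (.lf 114 2 3) (.lf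 113 1 1)) (.nd 128 (.lf 105 1 1) (.lf 106 1 1) (.lf 128 1 1)) (.lf 114 1 1))) (.nd 116 (.nd 116 (.nd 116 (.nd 116 (.lf 114 1 1) (.lf 106 2 3) (.nd 116 (.nd 116 (.lf 116 2 3) (.lf 106 1 1) (.lf 108 1 1)) (.lf 109 2 3) (.lf 110 2 3))) (.nd 115 (.nd 115 (.lf 115 1 1) (.lf 84 2 3) (.lf 112 2 3)) (.lf 98 1 1) (.nd 109 (.lf 109 1 1) (.lf 106 2 3) (.lf 104 2 3))) (.nd 115 (.lf 111 2 3) (.lf 100 1 1) (.lf 115 1 1))) (.nd 110 (.lf 110 1 1) (.lf 87 1 1) (.lf 87 2 3)) (.lf 115 2 3)) (.nd 116 (.lf 116 2 3) (.nd 113 (.lf 93 1 1) (.lf 113 1 1) (.lf 113 2 3)) (.nd 113 (.nd 112 (.lf 111 1 1) (.lf 112 2 3) (.lf 108 1 1)) (.lf 113 1 1) (.lf 104 1 1))) (.nd 116 (.lf 94 1 1) (.nd 116 (.nd 116 (.nd 94 (.nd 93 (.lf 80 2 3) (.lf 83 2 3) (.lf 93 1 1)) (.lf 91 1 1) (.lf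 94 1 1)) (.lf 116 1 1) (.lf 116 1 1)) (.lf 98 1 1) (.lf 114 1 1)) (.nd 112 (.lf 110 1 1) (.lf 97 1 1) (.nd 112 (.lf 110 2 3) (.lf 112 1 1) (.lf 112 1 1)))))))

def t15_200 : Tr := (.nd 162 (.nd 157 (.nd 157 (.nd 152 (.nd 152 (.lf 152 1 2) (.nd 152 (.nd 131 (.lf 116 2 2) (.lf 131 1 2) (.lf 116 2 2)) (.nd 152 (.lf 149 2 2) (.lf 146 1 2) (.nd 152 (.lf 152 1 2) (.lf 116 1 2) (.lf 146 1 2))) (.nd 134 (.lf 134 1 2) (.lf 121 2 2) (.lf 91 2 2))) (.nd 137 (.lf 130 1 2) (.lf 120 2 2) (.nd 137 (.lf 137 1 2) (.lf 119 2 2) (.lf 122 2 2)))) (.nd 138 (.nd 138 (.lf 138 1 2) (.lf 119 1 2) (.lf 128 1 2)) (.lf 114 1 2) (.lf 118 1 2)) (.nd 115 (.nd 115 (.nd 114 (.lf 94 2 2) (.nd 114 (.lf 93 2 2) (.lf 96 2 2) (.lf 114 1 2)) (.lf 106 1 2)) (.lf 112 1 2) (.lf 115 1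 2)) (.lf 112 1 2) (.lf 115 1 2))) (.nd 157 (.nd 157 (.nd 157 (.lf 135 1 2) (.lf 124 1 2) (.nd 157 (.lf 155 1 2) (.nd 157 (.lf 157 2 2) (.lf 134 1 2) (.lf 128 1 2)) (.lf 147 1 2))) (.nd 157 (.lf 156 1 2) (.nd 157 (.lf 157 1 2) (.lf 157 1 2) (.lf 157 2 2)) (.lf 152 1 2)) (.lf 132 1 2)) (.nd 152 (.nd 152 (.nd 150 (.lf 132 1 2) (.nd 134 (.lf 131 1 2) (.lf 134 1 2) (.lf 128 2 2)) (.lf 150 1 2)) (.lf 152 1 2) (.lf 152 1 2)) (.nd 152 (.lf 117 2 2) (.lf 152 1 2) (.lf 147 2 2)) (.nd 150 (.lf 131 1 2) (.lf 142 2 2) (.lf 150 1 2))) (.lf 154 1 2)) (.nd 152 (.lf 144 1 2) (.nd 152 (.nd 137 (.lf 129 1 2) (.lf 122 2 2) (.nd 137 (.lf 119 2 2) (.lf 124 2 2) (.lf 137 1 2))) (.nd 152 (.lf 142 1 2) (.lf 152 1 2) (.lf 150 1 2)) (.nd 139 (.lf 139 1 2) (.lf 138 2 2)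 (.lf 129 1 2))) (.lf 133 1 2))) (.nd 143 (.lf 112 1 2) (.lf 104 1 2) (.nd 143 (.lf 121 1 2) (.lf 128 1 2) (.nd 143 (.lf 120 1 2) (.nd 143 (.lf 121 1 2) (.nd 143 (.lf 143 1 2) (.lf 124 1 2) (.lf 130 1 2)) (.lf 124 1 2)) (.lf 128 1 2)))) (.nd 143 (.nd 92 (.lf 63 1 2) (.nd 92 (.lf 84 1 2) (.lf 75 1 2) (.lf 92 1 2)) (.nd 87 (.lf 35 1 2) (.nd 87 (.lf 72 1 2) (.lf 87 1 2) (.lf 57 1 2)) (.lf 63 1 2))) (.nd 139 (.lf 139 1 2) (.lf 91 1 2) (.nd 94 (.lf 65 1 2) (.nd 65 (.lf 65 1 2) (.lf 39 1 2) (.lf 42 1 2)) (.nd 94 (.lf 94 1 2) (.lf 81 1 2) (.lf 88 1 2)))) (.nd 143 (.nd 114 (.lf 90 1 2) (.nd 114 (.lf 62 1 2) (.lf 92 1 2) (.nd 114 (.lf 114 1 2) (.lf 99 1 2) (.lf 84 1 2))) (.nd 112 (.lf 105 1 2) (.lf 112 1 2) (.lf 102 1 2))) (.nd 143 (.lf 120 1 2) (.nd 143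 (.lf 143 1 2) (.nd 138 (.lf 118 1 2) (.lf 129 1 2) (.nd 138 (.nd 138 (.lf 124 1 2) (.lf 138 1 2) (.lf 125 2 2)) (.lf 122 1 2) (.lf 118 1 2))) (.lf 130 1 2)) (.lf 118 1 2)) (.lf 129 1 2)))) (.nd 162 (.nd 144 (.nd 143 (.nd 143 (.lf 123 2 2) (.nd 143 (.nd 143 (.lf 134 2 2) (.lf 123 2 2) (.nd 143 (.lf 123 2 2) (.lf 127 2 2) (.nd 143 (.lf 129 2 2) (.lf 137 1 2) (.lf 143 2 2)))) (.nd 142 (.nd 142 (.lf 140 2 2) (.lf 133 2 2) (.nd 142 (.lf 130 1 2) (.lf 138 2 2) (.lf 142 2 2))) (.lf 141 2 2) (.lf 131 1 2)) (.lf 135 2 2)) (.nd 125 (.lf 117 2 2) (.nd 121 (.lf 80 2 2) (.nd 121 (.lf 111 2 2) (.lf 121 2 2) (.lf 98 2 2)) (.lf 98 2 2)) (.lf 125 2 2))) (.nd 119 (.lf 95 2 2) (.lf 117 2 2) (.lf 119 2 2)) (.lf 134 2 2)) (.nd 144 (.nd 99 (.nd 99 (.nd 99 (.lf 96 2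 2) (.lf 76 2 2) (.lf 99 2 2)) (.lf 93 2 2) (.lf 86 2 2)) (.lf 70 2 2) (.lf 70 2 2)) (.lf 96 2 2) (.lf 144 2 2)) (.nd 97 (.lf 68 2 2) (.nd 92 (.lf 40 2 2) (.lf 68 2 2) (.lf 92 2 2)) (.lf 97 2 2))) (.nd 148 (.nd 119 (.nd 119 (.lf 108 2 2) (.lf 93 2 2) (.lf 119 2 2)) (.lf 68 2 2) (.nd 94 (.lf 70 2 2) (.nd 94 (.lf 94 2 2) (.nd 92 (.lf 92 2 2) (.lf 88 1 2) (.lf 88 2 2)) (.lf 94 2 2)) (.lf 65 2 2))) (.nd 148 (.nd 148 (.lf 133 2 2) (.nd 148 (.lf 148 2 2) (.lf 126 2 2) (.lf 129 2 2)) (.lf 125 2 2)) (.nd 133 (.lf 133 2 2) (.nd 113 (.lf 113 2 2) (.lf 97 2 2) (.lf 67 2 2)) (.lf 118 2 2)) (.nd 126 (.lf 126 2 2) (.lf 112 2 2) (.nd 115 (.nd 115 (.lf 115 2 2) (.lf 95 2 2) (.lf 105 2 2)) (.lf 79 2 2) (.lf 92 2 2)))) (.nd 117 (.nd 117 (.lf 99 2 2) (.nd 102 (.lf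 87 2 2) (.lf 88 2 2) (.lf 102 2 2)) (.nd 117 (.lf 109 2 2) (.lf 106 2 2) (.lf 117 2 2))) (.nd 96 (.lf 96 2 2) (.lf 82 2 2) (.lf 39 2 2)) (.nd 93 (.nd 93 (.lf 93 2 2) (.lf 74 2 2) (.lf 93 2 2)) (.lf 71 2 2) (.lf 65 2 2)))) (.nd 162 (.nd 162 (.nd 154 (.nd 146 (.lf 146 2 2) (.lf 141 1 2) (.lf 138 1 2)) (.lf 140 2 2) (.nd 154 (.lf 112 2 2) (.lf 126 2 2) (.lf 154 2 2))) (.nd 162 (.nd 162 (.lf 157 2 2) (.lf 162 1 2) (.lf 157 2 2)) (.lf 155 2 2) (.nd 157 (.lf 150 1 2) (.lf 157 2 2) (.nd 157 (.lf 142 2 2) (.lf 141 1 2) (.lf 157 2 2)))) (.nd 155 (.lf 137 1 2) (.nd 155 (.lf 155 1 2) (.lf 129 2 2) (.lf 140 2 2)) (.lf 137 2 2))) (.nd 157 (.nd 157 (.lf 157 2 2) (.nd 151 (.lf 135 2 2) (.lf 130 2 2) (.lf 151 2 2)) (.lf 157 2 2)) (.lf 130 2 2) (.lf 143 2 2))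 (.nd 157 (.lf 149 2 2) (.lf 132 2 2) (.nd 157 (.nd 157 (.lf 157 2 2) (.lf 154 2 2) (.nd 156 (.lf 154 1 2) (.lf 156 2 2) (.lf 142 2 2))) (.nd 145 (.nd 145 (.lf 145 2 2) (.lf 142 1 2) (.lf 142 2 2)) (.lf 140 2 2) (.lf 134 2 2)) (.nd 155 (.lf 134 2 2) (.nd 155 (.lf 139 1 2) (.lf 155 2 2) (.lf 154 1 2)) (.lf 142 2 2)))))) (.nd 145 (.nd 131 (.nd 123 (.lf 71 2 2) (.nd 123 (.lf 93 2 2) (.lf 108 2 2) (.nd 123 (.lf 123 2 2) (.nd 99 (.lf 91 2 2) (.lf 95 2 2) (.lf 99 2 2)) (.lf 97 2 2))) (.lf 118 2 2)) (.nd 122 (.lf 93 2 2) (.nd 122 (.lf 107 2 2) (.lf 100 2 2) (.lf 122 2 2)) (.lf 91 2 2)) (.nd 131 (.nd 131 (.lf 131 2 2) (.lf 104 2 2) (.lf 114 2 2)) (.nd 130 (.lf 106 2 2) (.nd 130 (.nd 129 (.nd 129 (.lf 129 2 2) (.lf 128 1 2) (.lf 113 1 2)) (.lf 107 2 2)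 (.lf 108 2 2)) (.nd 130 (.nd 129 (.lf 129 2 2) (.lf 127 1 2) (.lf 123 2 2)) (.lf 128 2 2) (.nd 130 (.lf 130 2 2) (.lf 116 2 2) (.lf 128 1 2))) (.nd 130 (.lf 114 2 2) (.nd 108 (.lf 108 2 2) (.lf 93 2 2) (.lf 89 2 2)) (.lf 130 2 2))) (.nd 103 (.lf 92 2 2) (.nd 103 (.lf 88 1 2) (.lf 102 2 2) (.lf 103 2 2)) (.lf 84 2 2))) (.nd 131 (.nd 120 (.nd 119 (.lf 100 2 2) (.nd 119 (.lf 116 1 2) (.lf 119 2 2) (.lf 111 2 2)) (.lf 86 2 2)) (.nd 120 (.lf 120 2 2) (.lf 115 1 2) (.lf 112 1 2)) (.lf 114 2 2)) (.nd 131 (.nd 131 (.lf 131 2 2) (.lf 131 2 2) (.nd 129 (.lf 121 1 2) (.lf 108 1 2) (.lf 129 2 2))) (.lf 129 2 2) (.nd 131 (.lf 131 2 2) (.nd 131 (.lf 116 2 2) (.lf 115 1 2) (.lf 131 2 2)) (.lf 124 1 2))) (.nd 129 (.nd 129 (.lf 114 2 2) (.lf 129 1 2) (.lf 103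 2 2)) (.nd 98 (.lf 90 2 2) (.nd 98 (.lf 93 1 2) (.lf 94 1 2) (.lf 98 2 2)) (.lf 86 2 2)) (.lf 106 1 2))))) (.nd 119 (.nd 101 (.lf 101 2 2) (.nd 85 (.lf 85 1 2) (.lf 70 1 2) (.lf 75 2 2)) (.lf 96 1 2)) (.nd 119 (.nd 119 (.lf 100 1 2) (.nd 119 (.lf 119 1 2) (.nd 113 (.lf 113 2 2) (.lf 98 1 2) (.lf 108 1 2)) (.lf 102 1 2)) (.lf 107 1 2)) (.lf 91 1 2) (.lf 92 1 2)) (.nd 113 (.nd 113 (.lf 105 2 2) (.lf 112 2 2) (.nd 113 (.lf 107 2 2) (.nd 113 (.lf 113 2 2) (.lf 103 2 2) (.nd 109 (.lf 109 2 2) (.lf 98 1 2) (.lf 105 2 2))) (.nd 111 (.lf 85 2 2) (.lf 85 1 2) (.lf 111 2 2)))) (.nd 97 (.lf 92 2 2) (.lf 45 2 2) (.nd 97 (.nd 82 (.lf 82 2 2) (.lf 59 2 2) (.lf 58 2 2)) (.lf 97 2 2) (.lf 67 2 2))) (.lf 96 2 2))) (.nd 145 (.nd 145 (.nd 126 (.nd 126 (.lf 126 1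 2) (.nd 120 (.nd 120 (.lf 93 2 2) (.lf 96 2 2) (.lf 120 1 2)) (.lf 99 1 2) (.lf 94 2 2)) (.nd 126 (.lf 84 1 2) (.lf 110 1 2) (.lf 126 1 2))) (.nd 109 (.lf 92 1 2) (.lf 109 1 2) (.lf 93 1 2)) (.lf 99 1 2)) (.nd 145 (.nd 126 (.nd 126 (.lf 126 1 2) (.lf 121 2 2) (.lf 91 2 2)) (.lf 124 1 2) (.nd 126 (.lf 126 1 2) (.lf 126 1 2) (.nd 124 (.lf 124 1 2) (.lf 106 1 2) (.nd 108 (.lf 102 2 2) (.lf 105 1 2) (.lf 108 1 2))))) (.nd 126 (.nd 126 (.lf 126 1 2) (.lf 119 2 2) (.lf 115 1 2)) (.lf 123 1 2) (.lf 109 1 2)) (.lf 145 1 2)) (.nd 133 (.lf 101 1 2) (.nd 98 (.lf 79 1 2) (.nd 98 (.lf 98 1 2) (.lf 97 1 2) (.nd 94 (.lf 94 1 2) (.lf 91 2 2) (.lf 94 2 2))) (.lf 87 1 2)) (.nd 133 (.nd 133 (.lf 133 1 2) (.lf 123 1 2) (.lf 126 1 2)) (.nd 105 (.lf 102 1 2) (.nd 105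 (.lf 98 2 2) (.lf 67 2 2) (.nd 105 (.lf 90 2 2) (.lf 105 1 2) (.lf 105 2 2))) (.lf 103 1 2)) (.lf 125 1 2)))) (.nd 117 (.lf 86 1 2) (.nd 117 (.lf 102 1 2) (.nd 117 (.lf 102 1 2) (.lf 94 1 2) (.nd 117 (.lf 117 1 2) (.lf 98 1 2) (.lf 95 1 2))) (.lf 95 1 2)) (.lf 88 1 2)) (.nd 118 (.nd 118 (.lf 88 1 2) (.nd 118 (.lf 92 1 2) (.lf 94 1 2) (.lf 118 1 2)) (.lf 103 1 2)) (.lf 66 1 2) (.nd 113 (.nd 113 (.lf 94 1 2) (.lf 113 1 2) (.lf 94 1 2)) (.lf 65 1 2) (.lf 68 1 2))))))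

def t15_202 : Tr := (.nd 125 (.nd 91 (.nd 86 (.nd 86 (.lf 56 3 1) (.lf 86 3 1) (.lf 71 3 1)) (.nd 34 (.lf 5 3 1) (.nd 34 (.lf 26 3 1) (.lf 17 3 1) (.lf 34 3 1)) (.lf 29 3 1)) (.nd 64 (.lf 36 3 1) (.lf 64 3 1) (.lf 33 3 1))) (.nd 91 (.nd 91 (.nd 91 (.nd 84 (.lf 81 3 1) (.nd 84 (.nd 84 (.lf 78 4 1) (.lf 84 3 1) (.lf 83 4 1)) (.lf 83 4 1) (.lf 82 3 1)) (.lf 76 3 1)) (.lf 90 3 1) (.lf 91 3 1)) (.lf 63 3 1) (.lf 64 3 1)) (.nd 74 (.nd 74 (.lf 74 3 1) (.lf 56 3 1) (.lf 60 3 1)) (.lf 57 3 1) (.lf 69 3 1)) (.lf 83 3 1)) (.nd 62 (.nd 36 (.nd 33 (.lf 0 3 1) (.lf 3 3 1) (.nd 33 (.lf 0 3 1) (.lf 33 3 1) (.lf 21 3 1))) (.lf 36 3 1) (.lf 2 3 1)) (.lf 62 3 1) (.nd 56 (.lf 5 3 1) (.lf 56 3 1) (.lf 32 3 1)))) (.nd 125 (.nd 104 (.nd 98 (.nd 98 (.lf 83 4 1) (.nd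 89 (.lf 89 4 1) (.lf 82 3 1) (.lf 88 4 1)) (.lf 98 4 1)) (.lf 58 4 1) (.nd 84 (.lf 55 4 1) (.lf 60 4 1) (.nd 84 (.lf 84 4 1) (.lf 83 3 1) (.lf 75 3 1)))) (.nd 103 (.nd 103 (.lf 95 3 1) (.lf 94 3 1) (.nd 103 (.lf 92 3 1) (.nd 103 (.lf 85 4 1) (.lf 92 4 1) (.lf 103 3 1)) (.lf 102 4 1))) (.lf 87 3 1) (.lf 86 3 1)) (.nd 104 (.lf 86 4 1) (.lf 92 3 1) (.nd 104 (.lf 99 3 1) (.nd 104 (.lf 101 4 1) (.nd 104 (.lf 89 3 1) (.lf 87 3 1) (.lf 104 4 1)) (.lf 104 3 1)) (.lf 95 3 1)))) (.nd 125 (.nd 117 (.nd 97 (.nd 97 (.nd 97 (.nd 97 (.lf 84 4 1) (.lf 97 3 1) (.lf 71 4 1)) (.lf 97 3 1) (.lf 84 4 1)) (.lf 95 4 1) (.lf 59 4 1)) (.nd 96 (.lf 87 3 1) (.lf 82 3 1) (.nd 96 (.lf 91 3 1) (.lf 93 3 1) (.lf 96 4 1))) (.lf 85 3 1)) (.nd 106 (.nd 106 (.lf 105 3 1) (.nd 106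 (.nd 101 (.lf 101 3 1) (.lf 96 3 1) (.lf 97 4 1)) (.nd 106 (.lf 106 4 1) (.nd 90 (.lf 90 3 1) (.lf 82 4 1) (.lf 89 3 1)) (.lf 92 3 1)) (.lf 101 3 1)) (.lf 105 3 1)) (.lf 88 4 1) (.lf 74 3 1)) (.nd 117 (.nd 98 (.lf 98 3 1) (.nd 60 (.nd 60 (.lf 60 4 1) (.lf 55 3 1) (.lf 58 3 1)) (.lf 59 3 1) (.lf 33 3 1)) (.lf 74 3 1)) (.lf 114 3 1) (.nd 117 (.lf 110 3 1) (.nd 117 (.nd 117 (.lf 112 3 1) (.lf 117 4 1) (.lf 103 4 1)) (.lf 116 3 1) (.lf 117 3 1)) (.lf 96 3 1)))) (.nd 111 (.nd 102 (.nd 101 (.nd 101 (.nd 95 (.lf 82 3 1) (.nd 91 (.lf 91 3 1) (.lf 91 4 1) (.lf 75 4 1)) (.lf 95 4 1)) (.lf 100 3 1) (.nd 101 (.lf 101 3 1) (.lf 100 3 1) (.lf 97 4 1))) (.lf 87 3 1) (.lf 87 3 1)) (.nd 102 (.nd 102 (.lf 102 4 1) (.lf 99 3 1) (.lf 99 4 1)) (.lf 97 3 1) (.lf 102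 4 1)) (.lf 91 3 1)) (.nd 111 (.lf 82 3 1) (.nd 111 (.lf 100 3 1) (.lf 98 3 1) (.nd 111 (.nd 111 (.lf 111 4 1) (.lf 97 3 1) (.lf 96 3 1)) (.lf 86 3 1) (.lf 88 3 1))) (.lf 107 3 1)) (.lf 97 3 1)) (.nd 125 (.nd 125 (.nd 125 (.lf 122 4 1) (.nd 125 (.nd 125 (.lf 102 4 1) (.lf 125 3 1) (.lf 125 4 1)) (.lf 120 3 1) (.lf 124 4 1)) (.nd 113 (.lf 98 4 1) (.lf 113 3 1) (.lf 97 4 1))) (.lf 113 4 1) (.nd 114 (.lf 62 4 1) (.nd 92 (.lf 64 4 1) (.nd 92 (.lf 90 4 1) (.lf 90 4 1) (.lf 92 3 1)) (.lf 61 4 1)) (.lf 114 4 1))) (.nd 118 (.nd 118 (.lf 109 3 1) (.nd 104 (.lf 82 3 1) (.lf 104 4 1) (.lf 82 4 1)) (.lf 118 4 1)) (.nd 118 (.nd 117 (.lf 92 3 1) (.nd 117 (.lf 117 4 1) (.lf 115 3 1) (.lf 109 3 1)) (.lf 104 3 1)) (.lf 118 3 1) (.nd 118 (.lf 114 3 1) (.lf 106 3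 1) (.nd 118 (.lf 109 4 1) (.lf 112 3 1) (.lf 118 4 1)))) (.nd 118 (.nd 118 (.nd 118 (.lf 114 3 1) (.lf 118 4 1) (.lf 96 3 1)) (.lf 106 3 1) (.lf 114 3 1)) (.lf 106 3 1) (.lf 98 3 1))) (.nd 116 (.nd 116 (.lf 98 3 1) (.lf 116 4 1) (.lf 101 3 1)) (.lf 113 4 1) (.nd 107 (.lf 88 4 1) (.lf 107 4 1) (.lf 87 4 1))))) (.nd 101 (.lf 87 4 1) (.lf 89 3 1) (.nd 101 (.lf 89 4 1) (.lf 86 4 1) (.lf 101 3 1)))) (.nd 113 (.nd 113 (.nd 94 (.lf 81 4 1) (.lf 83 4 1) (.nd 94 (.nd 91 (.lf 69 3 1) (.lf 76 3 1) (.nd 91 (.lf 86 3 1) (.lf 91 4 1) (.lf 90 4 1))) (.lf 90 4 1) (.nd 94 (.lf 89 4 1) (.lf 57 3 1) (.nd 94 (.lf 90 4 1) (.lf 79 3 1) (.lf 94 3 1))))) (.nd 113 (.nd 102 (.nd 82 (.lf 82 4 1) (.lf 59 3 1) (.lf 74 4 1)) (.nd 91 (.lf 64 3 1) (.nd 91 (.lf 82 4 1) (.nd 91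 (.lf 83 4 1) (.lf 86 4 1) (.lf 91 3 1)) (.lf 90 4 1)) (.lf 62 4 1)) (.nd 102 (.lf 102 3 1) (.nd 100 (.lf 98 4 1) (.lf 84 3 1) (.lf 100 3 1)) (.nd 101 (.nd 101 (.lf 101 3 1) (.nd 91 (.lf 86 3 1) (.lf 91 4 1) (.lf 77 4 1)) (.lf 98 4 1)) (.lf 91 3 1) (.lf 81 3 1)))) (.nd 102 (.nd 102 (.nd 102 (.lf 92 3 1) (.lf 100 4 1) (.nd 102 (.nd 99 (.lf 92 4 1) (.lf 99 4 1) (.lf 75 3 1)) (.lf 101 3 1) (.nd 102 (.lf 102 4 1) (.lf 80 4 1) (.lf 98 3 1)))) (.lf 99 3 1) (.lf 85 3 1)) (.lf 88 3 1) (.nd 91 (.nd 91 (.lf 76 4 1) (.lf 90 4 1) (.lf 91 3 1)) (.lf 70 3 1) (.lf 90 3 1))) (.nd 113 (.lf 94 4 1) (.lf 104 4 1) (.nd 113 (.nd 113 (.nd 106 (.lf 103 3 1) (.lf 103 4 1) (.lf 106 3 1)) (.nd 101 (.lf 100 3 1) (.nd 101 (.lf 97 4 1) (.lf 100 4 1) (.lf 101 3 1)) (.lf 100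 3 1)) (.lf 113 4 1)) (.nd 113 (.nd 113 (.lf 99 4 1) (.lf 113 4 1) (.lf 103 3 1)) (.lf 105 4 1) (.lf 79 4 1)) (.nd 109 (.lf 94 4 1) (.lf 109 3 1) (.lf 99 4 1))))) (.nd 95 (.nd 95 (.nd 81 (.lf 81 4 1) (.lf 53 3 1) (.lf 59 4 1)) (.nd 87 (.nd 87 (.lf 87 4 1) (.lf 81 4 1) (.lf 79 3 1)) (.lf 54 3 1) (.lf 74 4 1)) (.nd 95 (.lf 89 4 1) (.lf 87 4 1) (.nd 95 (.lf 80 3 1) (.lf 95 3 1) (.nd 92 (.lf 87 4 1) (.lf 80 3 1) (.lf 92 3 1))))) (.nd 89 (.lf 60 4 1) (.nd 89 (.nd 84 (.lf 83 4 1) (.nd 84 (.lf 84 4 1) (.lf 82 4 1) (.lf 53 3 1)) (.lf 80 4 1)) (.lf 85 3 1) (.lf 89 4 1)) (.lf 63 4 1)) (.lf 61 4 1))) (.nd 94 (.lf 67 3 1) (.lf 64 3 1) (.nd 94 (.lf 87 4 1) (.nd 73 (.nd 73 (.lf 64 4 1) (.lf 73 3 1) (.lf 67 3 1)) (.lf 55 4 1) (.lf 57 4 1)) (.lf 94 3 1))) (.nd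 87 (.lf 60 3 1) (.nd 87 (.lf 68 3 1) (.nd 87 (.nd 78 (.nd 78 (.lf 73 3 1) (.lf 68 3 1) (.nd 78 (.lf 68 3 1) (.lf 69 3 1) (.lf 78 4 1))) (.lf 66 3 1) (.lf 76 3 1)) (.lf 65 3 1) (.lf 87 3 1)) (.lf 67 3 1)) (.lf 59 3 1))))

def t15_203 : Tr := (.nd 235 (.lf 207 1 2) (.nd 210 (.nd 210 (.lf 207 1 2) (.nd 210 (.lf 177 1 2) (.lf 210 1 2) (.nd 193 (.lf 166 1 2) (.lf 176 1 2) (.lf 193 1 2))) (.nd 195 (.lf 195 1 2) (.nd 177 (.lf 151 1 2) (.lf 177 1 2) (.lf 157 1 2)) (.lf 173 1 2))) (.lf 202 1 2) (.nd 192 (.lf 192 1 2) (.nd 152 (.nd 152 (.lf 152 1 2) (.nd 142 (.lf 142 1 2) (.lf 141 1 2) (.lf 119 1 2)) (.lf 133 1 2)) (.lf 145 1 2) (.lf 123 1 2)) (.lf 185 1 2))) (.nd 235 (.nd 210 (.nd 208 (.nd 188 (.lf 172 1 4) (.nd 188 (.lf 180 1 4) (.nd 188 (.lf 184 1 2)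 (.nd 188 (.lf 178 1 4) (.lf 188 1 4) (.lf 188 1 2)) (.lf 177 1 4)) (.lf 177 1 4)) (.lf 169 1 4)) (.nd 208 (.lf 208 1 2) (.lf 156 1 2) (.nd 203 (.lf 155 1 2) (.lf 158 1 2) (.lf 203 1 2))) (.lf 205 1 4)) (.lf 203 1 4) (.lf 210 1 2)) (.nd 228 (.nd 202 (.nd 202 (.lf 188 1 4) (.lf 160 1 4) (.lf 202 1 4)) (.lf 199 1 4) (.nd 202 (.lf 201 1 2) (.nd 200 (.lf 200 1 4) (.lf 200 1 2) (.lf 198 1 2)) (.lf 202 1 4))) (.lf 217 1 2) (.lf 228 1 2)) (.lf 235 1 2)))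

def t15_205 : Tr := (.nd 234 (.nd 203 (.nd 188 (.lf 136 1 3) (.lf 169 1 3) (.lf 188 1 3)) (.nd 147 (.nd 147 (.lf 112 1 3) (.nd 147 (.lf 147 1 3) (.lf 136 1 3) (.lf 136 1 3)) (.lf 139 1 3)) (.lf 103 1 3) (.lf 140 1 3)) (.nd 203 (.nd 167 (.lf 167 1 3) (.nd 135 (.lf 83 1 3) (.nd 135 (.lf 135 1 3) (.lf 105 1 3) (.lf 120 1 3)) (.lf 130 1 3)) (.lf 140 1 3)) (.nd 182 (.lf 139 1 3) (.lf 165 1 3) (.lf 182 7 5)) (.nd 203 (.nd 178 (.lf 178 7 5) (.lf 178 7 5) (.lf 126 7 5)) (.lf 203 1 3) (.lf 203 1 3)))) (.nd 234 (.nd 234 (.nd 234 (.lf 209 1 3) (.lf 234 1 3) (.nd 199 (.lf 183 5 5) (.lf 199 1 3) (.nd 190 (.nd 190 (.lf 190 5 5) (.nd 181 (.lf 181 5 5) (.lf 174 5 5) (.lf 174 1 3)) (.lf 175 5 5)) (.lf 183 5 5) (.lf 153 5 5)))) (.nd 203 (.lf 157 6 5) (.nd 197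 (.nd 197 (.lf 168 1 3) (.lf 197 1 3) (.lf 185 6 5)) (.lf 179 6 5) (.lf 194 6 5)) (.nd 203 (.lf 161 6 5) (.lf 156 6 5) (.nd 203 (.lf 185 6 5) (.nd 181 (.lf 176 6 5) (.lf 180 6 5) (.nd 181 (.lf 177 5 5) (.lf 180 5 5) (.lf 181 1 3))) (.lf 203 6 5)))) (.nd 217 (.lf 217 6 5) (.lf 179 6 5) (.lf 216 1 3))) (.lf 229 1 3) (.nd 198 (.nd 171 (.lf 136 1 3) (.nd 134 (.lf 113 1 3) (.lf 134 1 3) (.lf 117 1 3)) (.lf 171 1 3)) (.lf 166 1 3) (.lf 198 1 3))) (.nd 174 (.lf 119 1 3) (.nd 174 (.nd 164 (.lf 143 1 3) (.nd 164 (.lf 157 1 3) (.lf 164 1 3) (.lf 157 1 3)) (.lf 139 1 3)) (.nd 174 (.lf 156 1 3) (.lf 150 1 3) (.nd 174 (.lf 165 1 3) (.lf 174 1 3) (.lf 174 1 3))) (.lf 143 1 3)) (.nd 164 (.lf 118 1 3) (.lf 112 1 3) (.lf 164 1 3))))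

def t15_208 : Tr := (.nd 198 (.nd 168 (.nd 168 (.nd 168 (.nd 168 (.nd 168 (.lf 168 2 3) (.nd 168 (.lf 168 2 3) (.lf 163 2 3) (.nd 168 (.lf 168 2 3) (.lf 151 1 3) (.lf 152 1 3))) (.lf 161 2 3)) (.nd 165 (.lf 155 2 3) (.lf 165 1 1) (.lf 147 2 3)) (.lf 161 2 3)) (.nd 150 (.lf 150 2 3) (.lf 133 2 3) (.lf 141 2 3)) (.lf 151 2 3)) (.nd 160 (.lf 145 2 3) (.lf 132 2 3) (.nd 160 (.lf 160 2 3) (.lf 138 2 3) (.nd 145 (.lf 135 2 3) (.lf 126 2 3) (.lf 145 2 3)))) (.nd 145 (.lf 116 2 3) (.lf 140 2 3) (.lf 145 2 3))) (.nd 120 (.nd 120 (.lf 120 2 3) (.nd 110 (.nd 109 (.lf 87 2 3) (.lf 57 2 3) (.lf 109 2 3)) (.lf 87 2 3) (.nd 110 (.lf 110 2 3) (.lf 105 2 3) (.lf 97 2 3))) (.nd 101 (.nd 101 (.lf 101 2 3) (.lf 87 2 3) (.nd 88 (.lf 88 2 3) (.lf 49 2 3) (.lf 76 2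 3))) (.lf 96 2 3) (.lf 87 2 3))) (.nd 113 (.lf 113 2 3) (.nd 89 (.lf 89 2 3) (.lf 65 2 3) (.lf 60 2 3)) (.lf 61 2 3)) (.nd 91 (.lf 83 2 3) (.lf 91 2 3) (.lf 63 2 3))) (.nd 150 (.nd 150 (.nd 150 (.lf 140 2 3) (.lf 144 2 3) (.lf 150 1 3)) (.nd 146 (.nd 146 (.lf 125 2 3) (.lf 121 2 3) (.lf 146 2 3)) (.lf 124 2 3) (.lf 141 2 3)) (.nd 141 (.lf 138 2 3) (.lf 141 1 1) (.nd 139 (.lf 134 2 3) (.lf 134 2 3) (.nd 139 (.lf 139 1 1) (.lf 128 2 3) (.lf 133 2 3))))) (.nd 117 (.lf 87 2 3) (.lf 86 2 3) (.lf 117 2 3)) (.nd 122 (.lf 94 2 3) (.lf 122 2 3) (.nd 91 (.lf 60 2 3) (.lf 91 2 3) (.lf 61 2 3))))) (.nd 198 (.nd 185 (.nd 165 (.lf 119 2 3) (.lf 165 2 3) (.nd 149 (.lf 121 2 3) (.lf 118 2 3) (.lf 149 2 3))) (.nd 170 (.lf 135 2 3) (.lf 170 2 3) (.lf 139 2 3))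 (.nd 185 (.lf 179 2 3) (.nd 178 (.lf 178 2 3) (.lf 150 2 3) (.nd 156 (.lf 120 2 3) (.lf 145 2 3) (.lf 156 2 3))) (.nd 185 (.lf 179 2 3) (.nd 185 (.lf 163 2 3) (.lf 177 2 3) (.lf 185 2 3)) (.lf 179 2 3)))) (.nd 178 (.nd 167 (.nd 131 (.lf 131 2 3) (.lf 119 2 3) (.nd 118 (.lf 87 2 3) (.lf 89 2 3) (.lf 118 2 3))) (.lf 144 2 3) (.nd 167 (.lf 167 2 3) (.nd 147 (.lf 130 2 3) (.lf 147 2 3) (.lf 132 2 3)) (.lf 157 2 3))) (.nd 178 (.lf 178 2 3) (.lf 168 2 3) (.lf 164 2 3)) (.nd 164 (.lf 164 2 3) (.lf 145 2 3) (.lf 144 2 3))) (.nd 198 (.nd 198 (.nd 178 (.nd 177 (.lf 174 2 3) (.lf 177 2 3) (.nd 173 (.lf 173 2 3) (.lf 139 2 3) (.lf 159 2 3))) (.lf 167 2 3) (.lf 178 2 3)) (.lf 181 2 3) (.nd 198 (.lf 181 2 3) (.nd 198 (.lf 178 2 3) (.lf 172 2 3) (.nd 198 (.lf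 189 2 3) (.lf 183 2 3) (.nd 198 (.lf 198 2 3) (.lf 191 2 3) (.nd 198 (.lf 198 2 3) (.lf 171 1 3) (.lf 174 1 3))))) (.lf 187 2 3))) (.nd 177 (.lf 159 2 3) (.lf 176 2 3) (.nd 177 (.lf 133 2 3) (.lf 177 2 3) (.lf 143 2 3))) (.nd 185 (.lf 185 2 3) (.lf 162 2 3) (.nd 179 (.lf 161 2 3) (.nd 152 (.lf 152 2 3) (.lf 135 2 3) (.lf 135 2 3)) (.nd 179 (.nd 179 (.lf 168 2 3) (.nd 179 (.lf 179 2 3) (.lf 163 1 1) (.lf 177 2 3)) (.lf 165 2 3)) (.lf 174 2 3) (.lf 167 1 1)))))) (.nd 161 (.lf 145 2 3) (.nd 161 (.nd 161 (.nd 153 (.lf 153 2 3) (.lf 153 1 3) (.lf 139 2 3)) (.nd 159 (.lf 153 2 3) (.nd 159 (.lf 150 1 3) (.lf 156 1 3) (.nd 159 (.lf 153 2 3) (.lf 147 2 3) (.lf 159 1 3))) (.nd 149 (.nd 148 (.lf 127 2 3) (.lf 134 1 3) (.nd 148 (.lf 126 2 3) (.lf 148 1 3)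 (.lf 129 2 3))) (.lf 149 2 3) (.lf 134 1 3))) (.nd 161 (.lf 161 2 3) (.lf 155 2 3) (.lf 131 2 3))) (.lf 151 2 3) (.lf 154 2 3)) (.nd 145 (.nd 145 (.lf 114 2 3) (.nd 125 (.lf 117 2 3) (.nd 125 (.nd 125 (.lf 103 1 1) (.lf 125 2 3) (.lf 125 2 3)) (.lf 117 2 3) (.lf 118 2 3)) (.lf 110 2 3)) (.nd 145 (.lf 124 2 3) (.nd 145 (.lf 140 2 3) (.lf 145 1 1) (.lf 134 2 3)) (.lf 127 2 3))) (.nd 134 (.lf 91 2 3) (.lf 86 2 3) (.nd 134 (.lf 115 2 3) (.nd 134 (.lf 113 2 3) (.lf 110 2 3) (.lf 134 2 3)) (.lf 122 2 3))) (.lf 91 2 3))))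

def t15_209 : Tr := (.nd 152 (.nd 152 (.nd 128 (.nd 128 (.nd 125 (.nd 107 (.lf 87 2 2) (.lf 90 2 2) (.nd 107 (.nd 107 (.lf 101 3 2) (.lf 104 2 2) (.lf 107 2 2)) (.lf 76 3 2) (.lf 102 3 2))) (.nd 125 (.lf 110 2 2) (.lf 121 3 2) (.lf 125 2 2)) (.lf 88 2 2)) (.lf 122 3 2) (.nd 128 (.lf 108 2 2) (.lf 100 2 2) (.lf 128 3 2))) (.nd 114 (.lf 108 3 2) (.lf 63 3 2) (.nd 114 (.lf 88 3 2) (.lf 103 3 2) (.lf 114 3 2))) (.lf 112 3 2)) (.nd 120 (.nd 120 (.nd 118 (.lf 105 3 2) (.lf 85 2 2) (.nd 118 (.lf 110 2 2) (.lf 112 3 2) (.lf 118 3 2))) (.nd 102 (.lf 82 2 2) (.nd 102 (.nd 102 (.lf 102 3 2) (.nd 71 (.lf 59 3 2) (.nd 57 (.lf 47 2 2) (.lf 48 2 2) (.lf 57 3 2)) (.lf 71 3 2)) (.lf 79 2 2)) (.lf 56 2 2) (.lf 83 2 2)) (.lf 90 3 2)) (.nd 120 (.nd 120 (.nd 107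 (.lf 107 2 2) (.lf 79 2 2) (.nd 107 (.lf 107 2 2) (.nd 107 (.lf 107 2 2) (.lf 105 2 2) (.lf 83 3 2)) (.lf 101 2 2))) (.lf 111 2 2) (.nd 120 (.nd 120 (.lf 118 3 2) (.lf 96 2 2) (.lf 120 2 2)) (.lf 118 3 2) (.nd 105 (.lf 91 3 2) (.lf 102 3 2) (.lf 105 2 2)))) (.lf 118 3 2) (.lf 120 3 2))) (.nd 92 (.lf 63 3 2) (.lf 92 3 2) (.lf 87 3 2)) (.nd 120 (.nd 120 (.lf 120 3 2) (.lf 120 3 2) (.nd 116 (.lf 111 3 2) (.nd 116 (.lf 116 3 2) (.lf 84 2 2) (.lf 113 3 2)) (.lf 114 3 2))) (.lf 91 3 2) (.lf 94 3 2))) (.nd 152 (.nd 152 (.nd 152 (.lf 152 3 2) (.nd 146 (.lf 146 3 2) (.lf 130 3 2) (.lf 130 3 2)) (.lf 152 3 2)) (.nd 138 (.lf 119 3 2) (.lf 118 3 2) (.lf 138 3 2)) (.nd 128 (.lf 112 3 2) (.lf 115 3 2) (.nd 128 (.lf 117 3 2) (.lf 128 3 2) (.nd 126 (.lf 120 3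 2) (.nd 126 (.lf 124 3 2) (.lf 126 3 2) (.lf 113 2 2)) (.lf 125 3 2))))) (.nd 152 (.nd 150 (.lf 138 2 2) (.lf 124 2 2) (.nd 150 (.lf 132 3 2) (.lf 126 3 2) (.lf 150 2 2))) (.nd 152 (.nd 152 (.lf 112 2 2) (.lf 139 2 2) (.lf 152 3 2)) (.nd 142 (.nd 141 (.lf 138 2 2) (.nd 134 (.lf 106 2 2) (.lf 134 2 2) (.lf 133 3 2)) (.nd 141 (.lf 141 3 2) (.lf 141 2 2) (.lf 111 3 2))) (.lf 132 3 2) (.nd 142 (.lf 142 2 2) (.lf 139 3 2) (.lf 136 2 2))) (.lf 140 2 2)) (.nd 144 (.lf 135 3 2) (.lf 144 2 2) (.nd 144 (.nd 144 (.lf 127 3 2) (.lf 134 3 2) (.nd 144 (.nd 144 (.lf 144 2 2) (.lf 132 3 2) (.lf 134 3 2)) (.lf 137 2 2) (.lf 136 2 2))) (.lf 121 3 2) (.lf 107 3 2)))) (.nd 152 (.nd 138 (.lf 138 2 2) (.lf 113 3 2) (.lf 109 3 2)) (.nd 152 (.nd 152 (.lf 149 2 2) (.lf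 151 3 2) (.lf 152 3 2)) (.nd 129 (.nd 129 (.lf 113 3 2) (.lf 129 3 2) (.lf 108 3 2)) (.nd 120 (.lf 117 2 2) (.lf 114 2 2) (.lf 120 3 2)) (.lf 115 2 2)) (.lf 152 3 2)) (.lf 134 3 2)))) (.nd 148 (.nd 148 (.nd 127 (.nd 110 (.lf 110 2 2) (.lf 92 2 2) (.nd 104 (.lf 87 2 2) (.lf 88 2 2) (.lf 104 2 2))) (.nd 127 (.nd 98 (.nd 98 (.nd 98 (.lf 86 3 2) (.lf 98 2 2) (.lf 89 3 2)) (.lf 91 2 2) (.lf 98 2 2)) (.lf 84 2 2) (.lf 82 2 2)) (.nd 114 (.lf 114 2 2) (.lf 62 2 2) (.lf 102 2 2)) (.nd 127 (.lf 122 2 2) (.lf 127 2 2) (.nd 117 (.lf 91 3 2) (.lf 94 2 2) (.lf 117 3 2)))) (.nd 125 (.nd 125 (.lf 118 2 2) (.lf 125 2 2) (.nd 114 (.lf 82 2 2) (.lf 103 2 2) (.lf 114 3 2))) (.lf 109 2 2) (.lf 108 2 2))) (.nd 148 (.lf 124 2 2) (.nd 116 (.lf 88 2 2) (.lf 116 2 2) (.nd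 116 (.lf 98 2 2) (.lf 116 2 2) (.nd 114 (.lf 101 2 2) (.lf 81 2 2) (.lf 114 2 2)))) (.nd 148 (.nd 134 (.lf 134 2 2) (.lf 124 2 2) (.nd 133 (.lf 119 3 2) (.lf 133 3 2) (.lf 88 3 2))) (.lf 148 2 2) (.lf 148 2 2))) (.nd 130 (.nd 113 (.lf 103 2 2) (.nd 113 (.lf 92 2 2) (.lf 109 2 2) (.nd 113 (.lf 90 2 2) (.lf 89 2 2) (.lf 113 2 2))) (.lf 82 2 2)) (.nd 126 (.nd 123 (.lf 106 2 2) (.nd 123 (.lf 94 2 2) (.lf 110 2 2) (.lf 123 2 2)) (.nd 110 (.lf 104 2 2) (.nd 110 (.lf 83 3 2) (.lf 78 3 2) (.lf 110 2 2)) (.lf 83 3 2))) (.nd 126 (.lf 126 3 2) (.lf 120 2 2) (.lf 112 2 2)) (.nd 122 (.nd 122 (.nd 122 (.lf 116 2 2) (.lf 108 2 2) (.lf 122 2 2)) (.lf 118 2 2) (.nd 119 (.lf 102 2 2) (.lf 119 2 2) (.lf 106 2 2))) (.nd 107 (.nd 107 (.lf 107 2 2) (.nd 107 (.lf 100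 2 2) (.lf 105 3 2) (.lf 107 2 2)) (.lf 101 2 2)) (.lf 107 2 2) (.lf 79 2 2)) (.nd 109 (.lf 99 2 2) (.lf 109 2 2) (.lf 78 2 2)))) (.nd 130 (.nd 130 (.nd 111 (.nd 111 (.lf 103 2 2) (.nd 111 (.lf 110 3 2) (.lf 111 2 2) (.lf 110 2 2)) (.lf 109 2 2)) (.lf 97 2 2) (.lf 96 2 2)) (.nd 130 (.lf 104 2 2) (.nd 130 (.lf 130 3 2) (.nd 128 (.lf 112 3 2) (.lf 108 3 2) (.lf 128 2 2)) (.lf 121 2 2)) (.lf 111 2 2)) (.lf 105 2 2)) (.lf 111 2 2) (.lf 83 2 2)))) (.nd 139 (.nd 115 (.nd 115 (.lf 106 2 2) (.lf 115 2 2) (.nd 115 (.nd 115 (.nd 115 (.nd 115 (.lf 111 3 2) (.lf 110 3 2) (.lf 115 2 2)) (.lf 115 2 2) (.lf 105 2 2)) (.lf 107 2 2) (.lf 110 2 2)) (.lf 106 2 2) (.lf 109 2 2))) (.nd 89 (.lf 60 2 2) (.lf 89 2 2) (.lf 60 2 2)) (.lf 86 2 2)) (.nd 87 (.lf 82 2 2) (.lf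 87 2 2) (.lf 58 2 2)) (.nd 139 (.nd 109 (.lf 107 2 2) (.lf 109 2 2) (.lf 85 2 2)) (.nd 124 (.lf 100 2 2) (.nd 124 (.lf 107 2 2) (.nd 124 (.lf 115 2 2) (.lf 114 2 2) (.lf 124 2 2)) (.lf 113 2 2)) (.lf 101 2 2)) (.nd 139 (.lf 108 2 2) (.nd 139 (.lf 125 2 2) (.lf 139 2 2) (.nd 137 (.nd 132 (.lf 123 2 2) (.nd 132 (.lf 89 3 2) (.lf 132 2 2) (.lf 132 3 2)) (.lf 130 2 2)) (.lf 131 2 2) (.lf 137 2 2))) (.lf 115 2 2)))) (.nd 117 (.nd 107 (.nd 107 (.nd 107 (.lf 88 2 2) (.lf 89 2 2) (.nd 107 (.lf 99 2 2) (.lf 107 2 2) (.nd 96 (.lf 93 2 2) (.nd 96 (.lf 74 3 2) (.lf 96 3 2) (.lf 87 2 2)) (.lf 85 2 2)))) (.lf 98 2 2) (.lf 83 2 2)) (.nd 58 (.lf 51 2 2) (.lf 29 2 2) (.nd 58 (.lf 48 2 2) (.lf 39 2 2) (.lf 58 2 2))) (.lf 86 2 2)) (.nd 117 (.lf 96 2 2) (.nd 113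 (.lf 84 2 2) (.nd 104 (.lf 82 2 2) (.nd 104 (.lf 89 2 2) (.lf 74 2 2) (.lf 104 2 2)) (.lf 52 2 2)) (.nd 113 (.lf 100 2 2) (.lf 113 2 2) (.lf 101 2 2))) (.nd 117 (.lf 94 2 2) (.lf 93 2 2) (.lf 117 2 2))) (.nd 86 (.nd 86 (.lf 86 2 2) (.lf 56 2 2) (.lf 29 2 2)) (.lf 61 2 2) (.lf 86 2 2)))) (.nd 133 (.nd 114 (.nd 114 (.nd 114 (.lf 102 2 2) (.nd 114 (.lf 97 2 2) (.nd 103 (.nd 95 (.lf 90 3 2) (.lf 95 2 2) (.lf 60 3 2)) (.lf 103 2 2) (.lf 93 2 2)) (.nd 114 (.lf 114 2 2) (.lf 101 2 2) (.lf 75 2 2))) (.nd 95 (.lf 68 2 2) (.nd 78 (.lf 61 2 2) (.lf 62 2 2) (.nd 78 (.lf 71 2 2) (.lf 70 2 2) (.lf 78 2 2))) (.nd 95 (.nd 89 (.lf 68 2 2) (.lf 89 2 2) (.lf 63 3 2)) (.nd 95 (.nd 74 (.lf 59 3 2) (.lf 59 3 2) (.lf 74 2 2)) (.lf 85 3 2) (.lf 95 2 2)) (.lf 95 2 2))))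 (.nd 87 (.nd 82 (.lf 82 2 2) (.lf 37 2 2) (.lf 34 2 2)) (.lf 35 2 2) (.lf 87 2 2)) (.nd 86 (.lf 55 2 2) (.lf 57 2 2) (.nd 86 (.lf 64 2 2) (.nd 86 (.lf 71 2 2) (.lf 86 2 2) (.lf 63 2 2)) (.lf 71 2 2)))) (.nd 96 (.nd 91 (.lf 61 2 2) (.lf 60 2 2) (.lf 91 2 2)) (.nd 70 (.lf 70 3 2) (.lf 65 2 2) (.nd 54 (.lf 44 3 2) (.lf 39 2 2) (.lf 54 2 2))) (.nd 96 (.lf 96 3 2) (.lf 65 3 2) (.lf 66 3 2))) (.nd 108 (.nd 108 (.nd 108 (.lf 102 3 2) (.lf 101 2 2) (.nd 108 (.lf 108 3 2) (.nd 104 (.lf 104 3 2) (.lf 100 3 2) (.lf 93 2 2)) (.lf 98 3 2))) (.lf 107 3 2) (.lf 100 3 2)) (.lf 91 3 2) (.lf 92 3 2))) (.nd 133 (.nd 118 (.nd 106 (.nd 106 (.lf 94 3 2) (.lf 94 3 2) (.nd 106 (.lf 88 3 2) (.lf 85 3 2) (.nd 106 (.lf 106 2 2) (.lf 87 3 2) (.lf 89 3 2)))) (.lf 65 3 2)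 (.lf 68 3 2)) (.nd 118 (.lf 118 3 2) (.nd 99 (.nd 99 (.nd 99 (.nd 99 (.lf 91 3 2) (.lf 99 3 2) (.lf 77 2 2)) (.lf 93 3 2) (.lf 94 3 2)) (.lf 86 3 2) (.lf 92 3 2)) (.lf 79 3 2) (.lf 80 3 2)) (.lf 88 3 2)) (.lf 66 3 2)) (.nd 133 (.nd 126 (.lf 112 3 2) (.lf 99 3 2) (.nd 126 (.lf 126 3 2) (.nd 120 (.lf 104 3 2) (.lf 120 3 2) (.lf 99 3 2)) (.lf 126 3 2))) (.nd 131 (.lf 128 3 2) (.nd 124 (.nd 124 (.lf 109 3 2) (.lf 98 3 2) (.lf 124 2 2)) (.lf 106 2 2) (.lf 106 3 2)) (.nd 131 (.nd 130 (.lf 130 3 2) (.lf 126 3 2) (.lf 119 2 2)) (.lf 124 3 2) (.nd 131 (.lf 131 2 2) (.lf 126 3 2) (.lf 126 3 2)))) (.nd 133 (.nd 98 (.lf 87 3 2) (.lf 79 3 2) (.nd 98 (.lf 83 2 2) (.lf 98 3 2) (.lf 97 3 2))) (.lf 133 3 2) (.lf 101 3 2))) (.nd 117 (.lf 86 3 2) (.nd 117 (.nd 117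 (.lf 117 3 2) (.lf 102 3 2) (.lf 94 3 2)) (.lf 95 3 2) (.lf 102 3 2)) (.lf 88 3 2))) (.nd 129 (.nd 112 (.lf 73 2 2) (.lf 81 2 2) (.nd 112 (.lf 90 2 2) (.nd 112 (.lf 112 2 2) (.lf 89 2 2) (.lf 97 2 2)) (.lf 97 2 2))) (.nd 129 (.lf 122 2 2) (.nd 129 (.nd 127 (.nd 126 (.lf 121 2 2) (.nd 126 (.lf 126 2 2) (.lf 126 2 2) (.lf 126 3 2)) (.lf 125 2 2)) (.lf 127 2 2) (.lf 101 2 2)) (.lf 123 2 2) (.nd 129 (.lf 119 2 2) (.nd 121 (.lf 86 3 2) (.lf 116 3 2) (.lf 121 2 2)) (.lf 129 2 2))) (.nd 121 (.lf 107 2 2) (.lf 121 2 2) (.lf 86 2 2))) (.nd 113 (.nd 113 (.nd 98 (.lf 74 2 2) (.lf 98 2 2) (.lf 75 2 2)) (.lf 113 2 2) (.lf 83 2 2)) (.lf 108 2 2) (.lf 61 2 2)))))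

def t15_211 : Tr := (.nd 124 (.nd 118 (.nd 118 (.lf 92 1 1) (.nd 107 (.lf 79 1 1) (.lf 92 1 1) (.nd 107 (.lf 92 1 1) (.lf 85 1 1) (.lf 107 1 1))) (.nd 118 (.nd 118 (.nd 118 (.lf 94 1 1) (.nd 118 (.lf 91 1 1) (.lf 96 1 1) (.lf 118 1 1)) (.lf 102 1 1)) (.lf 115 1 1) (.lf 108 1 1)) (.lf 98 1 1) (.lf 88 1 1))) (.nd 94 (.lf 94 1 1) (.lf 67 1 1) (.lf 64 1 1)) (.nd 67 (.nd 38 (.lf 10 1 1) (.nd 38 (.lf 38 1 1) (.lf 34 1 1) (.nd 17 (.lf 0 1 1) (.nd 17 (.lf 17 1 1) (.lf 3 1 1) (.lf 4 1 1)) (.nd 15 (.lf 15 1 1) (.lf 0 1 1) (.lf 0 1 1)))) (.nd 30 (.lf 30 1 1) (.lf 8 1 1) (.lf 0 1 1))) (.nd 60 (.lf 36 1 1) (.lf 60 1 1) (.lf 8 1 1)) (.lf 67 1 1))) (.nd 98 (.nd 98 (.lf 91 1 1) (.nd 98 (.lf 68 1 1) (.nd 98 (.lf 96 1 1) (.lf 98 1 1) (.nd 95 (.lf 95 1 1) (.lf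 61 1 1) (.lf 81 1 1))) (.nd 85 (.lf 82 1 1) (.lf 35 1 1) (.lf 85 1 1))) (.nd 91 (.nd 86 (.nd 55 (.lf 24 1 1) (.lf 55 1 1) (.lf 26 1 1)) (.nd 56 (.lf 4 1 1) (.lf 51 1 1) (.nd 56 (.lf 56 1 1) (.lf 41 1 1) (.lf 26 1 1))) (.lf 86 1 1)) (.nd 91 (.lf 61 1 1) (.nd 60 (.nd 29 (.lf 29 1 1) (.nd 8 (.lf 0 1 1) (.lf 8 1 1) (.lf 0 1 1)) (.lf 5 1 1)) (.lf 31 1 1) (.lf 60 1 1)) (.lf 91 1 1)) (.nd 57 (.lf 57 1 1) (.lf 49 1 1) (.lf 42 1 1)))) (.nd 64 (.nd 64 (.nd 64 (.lf 54 1 1) (.lf 64 1 1) (.lf 33 1 1)) (.lf 34 1 1) (.lf 9 1 1)) (.nd 57 (.lf 28 1 1) (.lf 37 1 1) (.nd 57 (.nd 57 (.lf 30 1 1) (.lf 57 1 1) (.lf 25 1 1)) (.lf 29 1 1) (.lf 37 1 1))) (.nd 64 (.lf 53 1 1) (.lf 64 1 1) (.lf 61 1 1))) (.nd 95 (.lf 95 1 1) (.nd 38 (.nd 29 (.lf 6 1 1) (.lf 0 1 1) (.lf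 29 1 1)) (.lf 8 1 1) (.lf 38 1 1)) (.nd 65 (.lf 33 1 1) (.lf 38 1 1) (.lf 65 1 1)))) (.nd 124 (.nd 124 (.nd 124 (.nd 124 (.nd 123 (.lf 114 1 1) (.nd 123 (.lf 86 1 1) (.lf 113 1 1) (.lf 123 1 1)) (.lf 123 1 1)) (.lf 123 1 1) (.nd 124 (.lf 124 1 1) (.lf 106 1 1) (.lf 110 1 1))) (.nd 122 (.lf 103 1 1) (.lf 104 1 1) (.nd 122 (.lf 109 1 1) (.lf 122 1 1) (.lf 113 1 1))) (.lf 122 1 1)) (.nd 94 (.lf 94 1 1) (.lf 82 1 1) (.nd 86 (.lf 69 1 1) (.lf 65 1 1) (.lf 86 1 1))) (.lf 99 1 1)) (.nd 115 (.lf 115 1 1) (.nd 107 (.nd 89 (.lf 60 1 1) (.lf 89 1 1) (.lf 65 1 1)) (.lf 61 1 1) (.lf 107 1 1)) (.lf 93 1 1)) (.nd 107 (.nd 107 (.nd 91 (.lf 91 1 1) (.lf 62 1 1) (.lf 60 1 1)) (.lf 92 1 1) (.lf 107 1 1)) (.lf 103 1 1) (.lf 91 1 1))))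

def t15_212 : Tr := (.nd 280 (.lf 280 2 4) (.nd 265 (.nd 242 (.lf 242 2 4) (.lf 223 2 4) (.nd 224 (.nd 172 (.lf 172 2 4) (.lf 167 2 4) (.lf 143 2 4)) (.nd 219 (.lf 219 2 4) (.lf 171 2 4) (.nd 174 (.lf 145 2 4) (.lf 174 2 4) (.lf 145 2 4))) (.lf 224 2 4))) (.lf 265 2 4) (.nd 241 (.nd 221 (.lf 221 2 4) (.lf 221 2 4) (.nd 202 (.lf 202 2 4) (.nd 171 (.lf 171 2 4) (.lf 142 2 4) (.lf 140 2 4)) (.lf 172 2 4))) (.nd 216 (.lf 197 2 4) (.nd 198 (.lf 193 2 4) (.lf 198 2 4) (.lf 146 2 4)) (.lf 216 2 4)) (.nd 241 (.nd 228 (.nd 219 (.lf 219 2 4) (.nd 198 (.lf 198 2 4) (.lf 165 2 4) (.lf 141 2 4)) (.lf 195 2 4)) (.lf 221 2 4) (.lf 228 2 4)) (.lf 241 2 4) (.lf 227 2 4)))) (.nd 250 (.nd 226 (.lf 200 2 4) (.nd 226 (.lf 209 2 4) (.lf 226 2 4) (.nd 217 (.lf 217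 2 4) (.nd 209 (.lf 209 2 4) (.nd 191 (.lf 191 2 4) (.lf 167 2 4) (.lf 162 2 4)) (.lf 163 2 4)) (.lf 195 2 4))) (.nd 220 (.lf 220 2 4) (.lf 196 2 4) (.lf 169 2 4))) (.lf 250 2 4) (.lf 248 2 4)))

def t15_214 : Tr := (.nd 311 (.nd 282 (.nd 276 (.lf 233 1 3) (.nd 228 (.nd 228 (.nd 206 (.lf 206 1 3) (.lf 192 1 3) (.lf 190 1 3)) (.lf 228 1 3) (.lf 206 1 3)) (.lf 197 1 3) (.lf 198 1 3)) (.lf 276 1 3)) (.lf 231 1 3) (.nd 282 (.lf 256 1 3) (.lf 271 1 3) (.nd 282 (.lf 261 1 3) (.lf 282 1 3) (.nd 262 (.nd 258 (.lf 221 1 3) (.lf 258 1 3) (.nd 235 (.lf 230 1 3) (.lf 220 1 3) (.lf 235 1 3))) (.nd 262 (.lf 262 1 3) (.nd 238 (.lf 220 1 3) (.lf 212 1 3) (.lf 238 1 3)) (.lf 252 1 3)) (.lf 250 1 3))))) (.nd 280 (.lf 280 1 3) (.nd 256 (.lf 256 1 3) (.nd 228 (.nd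 173 (.lf 173 1 3) (.lf 160 1 3) (.lf 162 1 3)) (.lf 228 1 3) (.lf 218 1 3)) (.nd 234 (.nd 201 (.lf 201 1 3) (.lf 160 1 3) (.lf 194 1 3)) (.lf 234 1 3) (.lf 226 1 3))) (.nd 247 (.nd 202 (.lf 172 1 3) (.lf 202 1 3) (.nd 193 (.lf 170 1 3) (.lf 160 1 3) (.nd 193 (.lf 163 1 3) (.lf 178 1 3) (.nd 193 (.lf 193 1 3) (.lf 169 1 3) (.lf 167 1 3))))) (.nd 245 (.nd 197 (.lf 166 1 3) (.nd 197 (.lf 176 1 3) (.lf 197 1 3) (.lf 175 1 3)) (.lf 167 1 3)) (.lf 202 1 3) (.lf 245 1 3)) (.nd 247 (.lf 247 1 3) (.lf 225 1 3) (.nd 247 (.lf 238 1 3) (.nd 247 (.lf 244 2 5) (.lf 245 1 3) (.lf 247 2 5)) (.lf 235 1 3))))) (.nd 311 (.nd 289 (.lf 289 1 3) (.nd 278 (.nd 242 (.lf 229 1 3) (.nd 230 (.lf 230 1 3) (.lf 178 1 3) (.nd 225 (.lf 180 1 3) (.lf 225 1 3) (.lf 177 1 3)))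 (.lf 242 1 3)) (.lf 278 1 3) (.lf 255 1 3)) (.lf 275 1 3)) (.nd 296 (.nd 275 (.lf 275 2 5) (.lf 246 1 3) (.lf 250 1 3)) (.nd 276 (.nd 276 (.lf 252 1 3) (.lf 276 1 3) (.lf 263 1 3)) (.lf 230 1 3) (.nd 260 (.lf 229 1 3) (.nd 232 (.lf 203 1 3) (.lf 232 1 3) (.lf 203 1 3)) (.lf 260 1 3))) (.lf 296 1 3)) (.lf 311 1 3)))

def t15_217 : Tr := (.nd 163 (.nd 162 (.lf 162 1 1) (.nd 153 (.nd 124 (.nd 73 (.lf 73 1 1) (.lf 44 1 1) (.lf 66 1 1)) (.lf 124 1 1) (.lf 99 1 1)) (.lf 122 1 1) (.nd 153 (.lf 131 1 1) (.lf 132 1 1) (.lf 153 1 1))) (.nd 154 (.nd 149 (.nd 101 (.nd 68 (.lf 39 1 1) (.lf 68 1 1) (.lf 31 1 1)) (.lf 101 1 1) (.lf 71 1 1)) (.lf 104 1 1) (.lf 149 1 1)) (.nd 154 (.lf 139 1 1) (.lf 124 1 1) (.lf 154 1 1)) (.lf 102 1 1))) (.nd 163 (.nd 163 (.nd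 151 (.nd 140 (.lf 140 1 1) (.lf 108 1 1) (.lf 124 1 1)) (.lf 151 1 1) (.lf 130 1 1)) (.nd 157 (.nd 157 (.lf 142 1 1) (.lf 143 1 1) (.nd 157 (.lf 151 1 1) (.nd 157 (.lf 149 1 1) (.lf 155 1 1) (.nd 157 (.lf 145 1 1) (.lf 157 1 1) (.lf 126 1 1))) (.lf 150 1 1))) (.lf 149 1 1) (.lf 132 1 1)) (.nd 163 (.nd 157 (.nd 154 (.lf 126 1 1) (.lf 154 1 1) (.lf 112 1 1)) (.nd 157 (.lf 157 1 1) (.lf 146 1 1) (.lf 150 1 1)) (.lf 140 1 1)) (.lf 157 1 1) (.lf 163 1 1))) (.nd 149 (.lf 97 1 1) (.lf 149 1 1) (.nd 144 (.lf 99 1 1) (.nd 96 (.lf 96 1 1) (.lf 63 1 1) (.lf 66 1 1)) (.lf 144 1 1))) (.nd 148 (.nd 117 (.lf 93 1 1) (.lf 117 1 1) (.nd 93 (.lf 39 1 1) (.lf 93 1 1) (.lf 82 1 1))) (.lf 119 1 1) (.nd 148 (.lf 148 1 1) (.lf 133 1 1) (.nd 126 (.lf 115 1 1) (.nd 126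 (.lf 112 1 1) (.lf 126 1 1) (.lf 116 1 1)) (.lf 112 1 1))))) (.nd 144 (.lf 144 1 1) (.nd 144 (.lf 144 1 1) (.nd 122 (.lf 71 1 1) (.lf 122 1 1) (.nd 118 (.nd 70 (.lf 70 1 1) (.lf 37 1 1) (.lf 40 1 1)) (.lf 118 1 1) (.lf 73 1 1))) (.lf 122 1 1)) (.lf 127 1 1)))

def t15_218 : Tr := (.nd 205 (.nd 174 (.nd 150 (.lf 150 1 2) (.nd 122 (.lf 122 1 2) (.nd 112 (.lf 60 1 2) (.lf 112 1 2) (.nd 66 (.nd 66 (.lf 60 1 2) (.lf 63 1 2) (.lf 66 1 2)) (.lf 56 1 2) (.lf 54 1 2))) (.nd 67 (.nd 56 (.nd 56 (.lf 56 1 2) (.lf 54 1 2) (.lf 54 1 2)) (.lf 54 1 2) (.lf 56 1 2)) (.nd 67 (.nd 67 (.lf 54 1 2) (.lf 67 1 2) (.lf 54 1 2)) (.nd 61 (.lf 54 1 2) (.lf 61 1 2) (.lf 54 1 2)) (.nd 61 (.lf 54 1 2) (.lf 54 1 2) (.lf 61 1 2))) (.lf 54 1 2))) (.lf 128 1 2)) (.nd 153 (.nd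 153 (.lf 153 1 2) (.lf 141 1 2) (.nd 119 (.lf 119 1 2) (.nd 90 (.lf 90 1 2) (.nd 84 (.lf 84 1 2) (.lf 60 1 2) (.lf 54 1 2)) (.lf 64 1 2)) (.lf 114 1 2))) (.nd 96 (.lf 87 1 2) (.nd 66 (.nd 66 (.lf 61 1 2) (.lf 66 1 2) (.lf 54 1 2)) (.lf 54 1 2) (.nd 57 (.nd 57 (.lf 54 1 2) (.lf 54 1 2) (.lf 57 1 2)) (.lf 54 1 2) (.lf 54 1 2))) (.lf 96 1 2)) (.nd 139 (.lf 96 1 2) (.nd 139 (.lf 127 1 2) (.nd 139 (.nd 115 (.lf 114 1 2) (.lf 115 1 2) (.lf 89 1 2)) (.nd 118 (.nd 118 (.lf 103 1 2) (.lf 115 1 2) (.lf 118 1 2)) (.lf 110 1 2) (.lf 100 1 2)) (.lf 139 1 2)) (.nd 120 (.lf 98 1 2) (.lf 120 1 2) (.lf 120 1 2))) (.nd 91 (.lf 61 1 2) (.lf 60 1 2) (.lf 91 1 2)))) (.lf 174 1 2)) (.nd 205 (.nd 183 (.lf 172 1 2) (.nd 169 (.nd 149 (.nd 118 (.lf 97 1 2) (.lf 118 1 2)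 (.lf 94 1 2)) (.lf 149 1 2) (.lf 120 1 2)) (.lf 150 1 2) (.lf 169 1 2)) (.lf 183 1 2)) (.nd 190 (.nd 175 (.nd 144 (.nd 114 (.lf 66 1 2) (.lf 114 1 2) (.lf 111 1 2)) (.lf 144 1 2) (.lf 127 1 2)) (.lf 175 1 2) (.lf 140 1 2)) (.nd 170 (.nd 124 (.lf 124 1 2) (.lf 119 1 2) (.nd 95 (.lf 89 1 2) (.lf 95 1 2) (.lf 66 1 2))) (.lf 154 1 2) (.lf 170 1 2)) (.lf 190 1 2)) (.nd 205 (.lf 182 1 2) (.lf 205 1 2) (.nd 190 (.lf 190 1 2) (.lf 190 1 2) (.nd 167 (.nd 138 (.lf 138 1 2) (.nd 132 (.lf 132 1 2) (.lf 110 1 2) (.lf 81 1 2)) (.lf 109 1 2)) (.lf 162 1 2) (.nd 167 (.lf 150 1 2) (.nd 159 (.lf 159 1 2) (.nd 136 (.lf 136 1 2) (.lf 117 1 2) (.lf 105 1 2)) (.lf 158 1 2)) (.lf 167 1 2)))))) (.nd 176 (.nd 170 (.lf 170 1 2) (.nd 127 (.nd 96 (.lf 96 1 2) (.lf 65 1 2)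 (.nd 66 (.lf 61 1 2) (.lf 66 1 2) (.lf 54 1 2))) (.lf 127 1 2) (.lf 99 1 2)) (.nd 122 (.nd 92 (.lf 92 1 2) (.lf 54 1 2) (.lf 87 1 2)) (.lf 122 1 2) (.nd 91 (.lf 54 1 2) (.lf 91 1 2) (.nd 62 (.lf 54 1 2) (.lf 62 1 2) (.lf 54 1 2))))) (.nd 125 (.nd 118 (.nd 66 (.lf 54 1 2) (.lf 66 1 2) (.nd 61 (.lf 54 1 2) (.lf 61 1 2) (.lf 54 1 2))) (.nd 94 (.lf 65 1 2) (.lf 70 1 2) (.nd 94 (.lf 94 1 2) (.lf 85 1 2) (.lf 94 1 2))) (.nd 118 (.lf 103 1 2) (.lf 88 1 2) (.nd 118 (.lf 118 1 2) (.lf 92 1 2) (.nd 94 (.lf 86 1 2) (.lf 94 1 2) (.lf 90 1 2))))) (.nd 125 (.lf 125 1 2) (.lf 106 1 2) (.nd 115 (.lf 114 1 2) (.lf 115 1 2) (.nd 92 (.lf 61 1 2) (.nd 92 (.lf 71 1 2) (.lf 92 1 2) (.lf 88 1 2)) (.lf 84 1 2)))) (.nd 96 (.lf 88 1 2) (.lf 68 1 2) (.nd 96 (.lf 75 1 2)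 (.lf 96 1 2) (.nd 92 (.lf 92 1 2) (.lf 83 1 2) (.lf 63 1 2))))) (.lf 176 1 2)))

def t15_220 : Tr := (.nd 254 (.nd 243 (.nd 243 (.nd 243 (.lf 216 1 5) (.lf 243 1 5) (.nd 215 (.lf 215 1 5) (.nd 193 (.lf 193 1 1) (.nd 165 (.lf 158 1 1) (.nd 165 (.lf 146 1 1) (.lf 155 1 1) (.lf 165 1 1)) (.lf 136 1 1)) (.lf 186 1 5)) (.lf 193 1 1))) (.nd 235 (.lf 235 1 5) (.nd 225 (.nd 225 (.nd 197 (.lf 189 1 1) (.lf 197 1 1) (.lf 178 1 1)) (.lf 225 1 1) (.lf 208 1 1)) (.lf 198 1 1) (.lf 199 1 1)) (.lf 230 1 5)) (.nd 236 (.lf 236 1 1) (.nd 221 (.lf 221 1 5) (.nd 188 (.nd 188 (.nd 186 (.lf 186 1 5) (.lf 169 1 1) (.lf 186 1 5)) (.lf 186 1 5) (.lf 188 1 5)) (.lf 188 1 5) (.lf 186 1 5)) (.nd 211 (.lf 211 1 5) (.lf 186 1 5) (.lf 210 1 5))) (.lf 221 1 1))) (.lf 228 1 1)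 (.lf 225 1 5)) (.nd 251 (.nd 251 (.lf 251 1 5) (.nd 223 (.lf 202 1 1) (.nd 206 (.lf 188 1 1) (.nd 171 (.lf 171 1 1) (.nd 116 (.lf 84 1 1) (.lf 116 1 1) (.lf 105 1 1)) (.lf 161 1 1)) (.lf 206 1 1)) (.lf 223 1 1)) (.nd 225 (.lf 225 1 1) (.nd 174 (.nd 145 (.lf 145 1 1) (.lf 117 1 1) (.lf 137 1 1)) (.lf 174 1 1) (.lf 167 1 1)) (.lf 219 1 1))) (.nd 226 (.lf 226 1 5) (.lf 219 1 5) (.nd 197 (.nd 186 (.lf 186 1 5) (.lf 186 1 5) (.nd 186 (.lf 173 1 1) (.nd 186 (.lf 171 1 1) (.lf 186 1 5) (.lf 161 1 1)) (.lf 186 1 5))) (.lf 189 1 5) (.lf 197 1 5))) (.nd 244 (.lf 223 1 5) (.nd 203 (.lf 203 1 1) (.nd 174 (.lf 168 1 1) (.lf 145 1 1) (.lf 174 1 1)) (.lf 198 1 1)) (.nd 244 (.nd 213 (.nd 213 (.lf 213 1 1) (.lf 194 1 1) (.lf 167 1 1)) (.lf 193 1 1) (.nd 201 (.lf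 201 1 1) (.lf 175 1 1) (.lf 195 1 1))) (.lf 240 1 1) (.lf 244 1 5)))) (.nd 254 (.nd 254 (.nd 223 (.nd 184 (.lf 184 1 1) (.lf 168 1 1) (.nd 171 (.lf 114 1 1) (.lf 157 1 1) (.lf 171 1 1))) (.lf 223 1 1) (.lf 192 1 1)) (.nd 224 (.lf 172 1 1) (.nd 219 (.nd 171 (.lf 141 1 1) (.lf 138 1 1) (.nd 171 (.lf 149 1 1) (.lf 146 1 1) (.lf 171 1 1))) (.nd 174 (.lf 145 1 1) (.lf 174 1 1) (.lf 145 1 1)) (.lf 219 1 1)) (.lf 224 1 1)) (.lf 254 1 1)) (.nd 232 (.nd 229 (.lf 229 1 1) (.nd 224 (.lf 179 1 1) (.lf 176 1 1) (.nd 224 (.nd 205 (.lf 200 1 1) (.nd 182 (.lf 182 1 1) (.lf 177 1 1) (.lf 164 1 1)) (.lf 205 1 1)) (.lf 224 1 1) (.lf 205 1 1))) (.lf 177 1 1)) (.nd 213 (.nd 197 (.lf 173 1 1) (.lf 197 1 1) (.lf 176 1 1)) (.nd 199 (.lf 193 1 1) (.lf 199 1 1) (.lf 148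 1 1)) (.nd 213 (.nd 213 (.lf 193 1 1) (.lf 198 1 1) (.nd 213 (.nd 206 (.lf 206 1 1) (.lf 178 1 1) (.lf 184 1 1)) (.lf 213 1 1) (.lf 207 1 1))) (.nd 186 (.lf 186 1 5) (.nd 186 (.lf 173 1 1) (.lf 172 1 1) (.lf 186 1 5)) (.lf 182 1 1)) (.nd 186 (.nd 186 (.lf 186 1 5) (.nd 186 (.lf 186 1 5) (.lf 186 1 5) (.lf 180 1 1)) (.lf 186 1 5)) (.nd 186 (.lf 164 1 1) (.lf 186 1 5) (.lf 172 1 1)) (.lf 186 1 5)))) (.nd 232 (.nd 222 (.nd 210 (.lf 182 1 1) (.lf 178 1 1) (.lf 210 1 1)) (.nd 219 (.lf 186 1 5) (.nd 219 (.lf 212 1 1) (.lf 219 1 5) (.lf 188 1 1)) (.nd 186 (.lf 166 1 1) (.lf 172 1 1) (.lf 186 1 5))) (.lf 222 1 1)) (.nd 232 (.lf 229 1 1) (.nd 187 (.nd 187 (.lf 183 1 1) (.lf 178 1 1) (.lf 187 1 1)) (.lf 178 1 1) (.lf 177 1 1)) (.nd 232 (.lf 208 1 1) (.lf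 232 1 1) (.nd 203 (.lf 172 1 1) (.lf 203 1 1) (.lf 173 1 1)))) (.nd 220 (.lf 215 1 5) (.nd 186 (.lf 186 1 5) (.nd 186 (.lf 186 1 5) (.lf 186 1 5) (.nd 186 (.lf 186 1 5) (.lf 186 1 5) (.lf 176 1 1))) (.lf 186 1 5)) (.lf 220 1 5)))) (.nd 219 (.lf 219 1 1) (.nd 219 (.lf 202 1 1) (.lf 219 1 1) (.nd 203 (.lf 198 1 1) (.lf 151 1 1) (.lf 203 1 1))) (.nd 210 (.lf 210 1 1) (.lf 202 1 1) (.nd 207 (.lf 207 1 1) (.lf 177 1 1) (.nd 176 (.lf 147 1 1) (.lf 176 1 1) (.lf 145 1 1)))))))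

def t15_221 : Tr := (.nd 152 (.nd 122 (.nd 122 (.nd 92 (.lf 90 1 2) (.nd 68 (.lf 68 1 2) (.nd 62 (.lf 62 1 2) (.lf 38 1 2) (.lf 27 1 2)) (.lf 42 1 2)) (.nd 92 (.lf 70 1 2) (.lf 92 1 2) (.lf 40 1 2))) (.nd 122 (.lf 122 1 2) (.lf 96 1 2) (.lf 98 1 2)) (.nd 107 (.lf 83 1 2) (.lf 84 1 2) (.lf 107 1 2))) (.nd 70 (.nd 41 (.lf 27 1 2) (.lf 35 1 2) (.nd 41 (.lf 27 1 2) (.lf 32 1 2) (.lf 41 1 2))) (.lf 70 1 2) (.lf 65 1 2)) (.nd 117 (.nd 72 (.nd 43 (.lf 27 1 2) (.lf 27 1 2) (.lf 43 1 2)) (.lf 43 1 2) (.lf 72 1 2)) (.nd 117 (.nd 117 (.lf 92 1 2) (.lf 89 1 2) (.nd 117 (.lf 91 1 2) (.lf 93 1 2) (.lf 117 1 2))) (.lf 98 1 2) (.nd 98 (.nd 89 (.lf 82 1 2) (.lf 64 1 2) (.lf 89 1 2)) (.lf 98 1 2) (.lf 86 1 2))) (.nd 69 (.lf 39 1 2) (.lf 36 1 2) (.nd 69 (.nd 69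 (.lf 44 1 2) (.nd 69 (.lf 45 1 2) (.lf 69 1 2) (.lf 55 1 2)) (.lf 66 1 2)) (.lf 47 1 2) (.lf 44 1 2))))) (.nd 152 (.nd 127 (.nd 127 (.lf 125 1 2) (.nd 127 (.lf 107 1 2) (.lf 98 1 2) (.lf 127 1 2)) (.nd 127 (.lf 127 1 2) (.lf 107 1 2) (.lf 113 1 2))) (.nd 111 (.lf 71 1 2) (.lf 111 1 2) (.lf 101 1 2)) (.lf 122 1 2)) (.nd 130 (.nd 109 (.nd 96 (.nd 59 (.lf 52 1 2) (.lf 59 1 2) (.lf 27 1 2)) (.lf 96 1 2) (.nd 65 (.nd 65 (.lf 47 1 2) (.lf 50 1 2) (.lf 65 1 2)) (.lf 37 1 2) (.lf 41 1 2))) (.lf 109 1 2) (.nd 92 (.lf 45 1 2) (.lf 80 1 2) (.lf 92 1 2))) (.nd 97 (.lf 90 1 2) (.nd 93 (.lf 93 1 2) (.lf 75 1 2) (.lf 70 1 2)) (.nd 97 (.lf 97 1 2) (.lf 95 1 2) (.lf 87 1 2))) (.nd 130 (.lf 130 1 2) (.nd 124 (.lf 99 1 2) (.lf 100 1 2) (.lf 124 1 2)) (.nd 130 (.lf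 130 1 2) (.lf 88 1 2) (.lf 114 1 2)))) (.nd 152 (.nd 149 (.nd 136 (.lf 136 1 2) (.lf 113 1 2) (.lf 102 1 2)) (.lf 149 1 2) (.lf 110 1 2)) (.nd 152 (.nd 128 (.lf 128 1 2) (.lf 109 1 2) (.lf 127 1 2)) (.nd 138 (.lf 130 1 2) (.nd 138 (.lf 128 1 2) (.lf 110 1 2) (.lf 138 1 2)) (.lf 130 1 2)) (.nd 152 (.lf 130 1 2) (.lf 152 1 2) (.lf 135 1 2))) (.nd 127 (.lf 113 1 2) (.nd 127 (.nd 127 (.lf 109 1 2) (.lf 111 1 2) (.lf 127 1 2)) (.lf 119 1 2) (.nd 127 (.lf 108 1 2) (.lf 127 1 2) (.lf 120 1 2))) (.lf 127 1 2)))) (.nd 119 (.nd 82 (.nd 69 (.nd 69 (.nd 69 (.lf 45 1 2) (.lf 48 1 2) (.lf 69 1 2)) (.lf 57 1 2) (.lf 35 1 2)) (.lf 27 1 2) (.lf 55 1 2)) (.nd 82 (.lf 69 1 2) (.nd 82 (.lf 67 1 2) (.lf 82 1 2) (.lf 80 1 2)) (.lf 75 1 2)) (.nd 66 (.lf 38 1 2) (.lf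 44 1 2) (.lf 66 1 2))) (.nd 119 (.nd 106 (.nd 91 (.lf 60 1 2) (.nd 91 (.lf 91 1 2) (.lf 70 1 2) (.lf 70 1 2)) (.lf 56 1 2)) (.nd 86 (.lf 40 1 2) (.lf 70 1 2) (.lf 86 1 2)) (.lf 106 1 2)) (.nd 119 (.nd 98 (.nd 98 (.lf 54 1 2) (.lf 64 1 2) (.lf 98 1 2)) (.lf 97 1 2) (.lf 80 1 2)) (.nd 119 (.lf 99 1 2) (.nd 119 (.lf 119 1 2) (.lf 102 1 2) (.lf 108 1 2)) (.lf 102 1 2)) (.lf 106 1 2)) (.nd 99 (.lf 85 1 2) (.lf 99 1 2) (.lf 88 1 2))) (.nd 90 (.lf 41 1 2) (.lf 90 1 2) (.nd 67 (.lf 43 1 2) (.lf 38 1 2) (.nd 67 (.lf 67 1 2) (.lf 65 1 2) (.lf 64 1 2))))))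

def t15_223 : Tr := (.nd 265 (.nd 265 (.nd 251 (.nd 228 (.lf 195 1 3) (.nd 228 (.lf 228 1 3) (.lf 213 1 3) (.nd 210 (.nd 203 (.lf 173 1 3) (.lf 172 1 3) (.nd 203 (.lf 203 1 3) (.lf 203 1 3) (.lf 173 1 3))) (.lf 206 1 3) (.lf 210 1 3))) (.lf 204 1 3)) (.nd 251 (.nd 238 (.lf 238 1 3) (.lf 208 1 3) (.nd 224 (.lf 178 1 3) (.nd 208 (.lf 177 1 3) (.lf 180 1 3) (.lf 208 1 3)) (.lf 224 1 3))) (.nd 251 (.lf 235 1 3) (.nd 236 (.lf 235 1 3) (.lf 216 1 3) (.nd 236 (.lf 236 1 3) (.lf 192 1 3) (.lf 202 1 3))) (.lf 251 1 3)) (.nd 235 (.nd 226 (.lf 190 1 3) (.lf 226 1 3) (.lf 203 1 3)) (.nd 223 (.lf 223 1 3) (.lf 203 1 3) (.lf 204 1 3)) (.lf 235 1 3))) (.nd 219 (.lf 179 1 3) (.lf 219 1 3) (.nd 205 (.lf 181 1 3) (.lf 176 1 3) (.lf 205 1 3)))) (.nd 260 (.lf 208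 1 3) (.nd 238 (.lf 238 1 3) (.nd 204 (.lf 174 1 3) (.lf 204 1 3) (.lf 177 1 3)) (.lf 210 1 3)) (.lf 260 1 3)) (.lf 265 1 3)) (.nd 265 (.nd 252 (.nd 222 (.lf 222 1 3) (.lf 174 1 3) (.nd 204 (.lf 171 1 3) (.lf 176 1 3) (.lf 204 1 3))) (.nd 252 (.lf 239 1 3) (.nd 232 (.lf 218 1 3) (.nd 221 (.lf 198 1 3) (.lf 221 1 3) (.lf 185 1 3)) (.lf 232 1 3)) (.lf 252 1 3)) (.lf 215 1 3)) (.nd 265 (.nd 257 (.lf 257 1 3) (.lf 230 1 3) (.nd 237 (.nd 214 (.nd 198 (.lf 198 1 3) (.lf 174 1 3) (.lf 170 1 3)) (.lf 214 1 3) (.lf 192 1 3)) (.lf 225 1 3) (.lf 237 1 3))) (.lf 256 1 3) (.lf 265 1 3)) (.nd 254 (.lf 254 1 3) (.nd 249 (.lf 249 1 3) (.lf 205 1 3) (.lf 202 1 3)) (.lf 203 1 3))) (.nd 243 (.nd 242 (.lf 233 1 3) (.nd 234 (.nd 229 (.lf 229 1 3) (.nd 181 (.lf 148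 1 3) (.lf 181 1 3) (.lf 151 1 3)) (.lf 184 1 3)) (.lf 234 1 3) (.lf 182 1 3)) (.lf 242 1 3)) (.nd 243 (.nd 243 (.nd 231 (.lf 231 1 3) (.lf 210 1 3) (.nd 220 (.lf 204 1 3) (.lf 220 1 3) (.lf 188 1 3))) (.lf 237 1 3) (.lf 243 1 3)) (.lf 229 1 3) (.nd 228 (.lf 199 1 3) (.nd 228 (.lf 228 1 3) (.lf 213 1 3) (.nd 206 (.nd 206 (.lf 206 1 3) (.lf 196 1 3) (.lf 192 1 3)) (.lf 192 1 3) (.lf 195 1 3))) (.lf 197 1 3))) (.lf 224 1 3)))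

def t15_224 : Tr := (.nd 258 (.nd 258 (.nd 224 (.lf 224 1 4) (.nd 219 (.lf 197 1 4) (.nd 167 (.lf 162 1 4) (.nd 167 (.lf 159 1 4) (.lf 167 1 4) (.lf 150 1 4)) (.lf 138 1 4)) (.lf 219 1 4)) (.nd 195 (.nd 169 (.lf 169 1 4) (.nd 166 (.lf 136 1 4) (.lf 133 1 4) (.nd 166 (.lf 166 1 4) (.lf 133 1 4) (.lf 154 1 4))) (.lf 135 1 4)) (.lf 189 1 4) (.lf 195 1 4))) (.lf 246 1 4) (.lf 258 1 4)) (.lf 255 1 4) (.nd 201 (.nd 171 (.nd 150 (.nd 150 (.lf 139 1 4) (.lf 135 1 4) (.nd 150 (.lf 133 1 4) (.lf 133 1 4) (.lf 150 1 4))) (.lf 133 1 4) (.lf 139 1 4)) (.nd 171 (.lf 158 1 4) (.nd 171 (.lf 171 1 4) (.lf 158 1 4) (.lf 157 1 4)) (.nd 166 (.lf 137 1 4) (.nd 166 (.lf 154 1 4) (.lf 166 1 4) (.lf 162 1 4)) (.lf 157 1 4))) (.nd 162 (.lf 133 1 4) (.nd 162 (.nd 162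 (.lf 162 1 4) (.lf 142 1 4) (.lf 141 1 4)) (.lf 136 1 4) (.lf 151 1 4)) (.lf 140 1 4))) (.nd 192 (.lf 169 1 4) (.nd 192 (.lf 162 1 4) (.lf 192 1 4) (.nd 177 (.lf 153 1 4) (.lf 154 1 4) (.lf 177 1 4))) (.lf 140 1 4)) (.nd 201 (.lf 201 1 4) (.nd 192 (.lf 183 1 4) (.lf 171 1 4) (.nd 192 (.nd 192 (.lf 170 1 4) (.lf 192 1 4) (.lf 171 1 4)) (.lf 161 1 4) (.lf 162 1 4))) (.lf 192 1 4))))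

def t15_226 : Tr := (.nd 179 (.nd 179 (.nd 179 (.nd 165 (.nd 160 (.lf 144 3 3) (.nd 160 (.nd 160 (.lf 153 3 3) (.lf 160 1 1) (.lf 159 3 3)) (.nd 153 (.lf 141 1 1) (.lf 147 3 3) (.nd 153 (.lf 136 1 1) (.lf 153 3 3) (.lf 141 1 1))) (.lf 150 3 3)) (.nd 156 (.lf 140 3 3) (.nd 156 (.lf 156 3 3) (.nd 155 (.lf 146 3 3) (.lf 155 3 3) (.nd 145 (.lf 143 3 3) (.lf 145 1 1) (.lf 144 3 3))) (.nd 153 (.lf 137 1 1) (.lf 136 1 1) (.lf 153 3 3))) (.lf 140 3 3))) (.lf 153 3 3) (.nd 165 (.lf 136 3 3) (.nd 155 (.lf 155 3 3) (.lf 112 3 3) (.lf 139 3 3)) (.nd 165 (.lf 152 3 3) (.lf 160 3 3) (.nd 165 (.lf 139 3 3) (.nd 165 (.nd 165 (.lf 157 3 3) (.lf 165 3 3) (.lf 139 3 3)) (.lf 149 3 3) (.lf 150 3 3)) (.lf 144 3 3))))) (.nd 165 (.nd 151 (.lf 127 3 3) (.lf 145 3 3)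 (.nd 151 (.nd 149 (.nd 149 (.lf 140 1 1) (.lf 149 3 3) (.lf 133 1 1)) (.lf 126 1 1) (.lf 124 1 1)) (.nd 151 (.lf 139 3 3) (.lf 104 1 1) (.lf 151 1 1)) (.lf 145 3 3))) (.nd 164 (.lf 164 3 3) (.lf 138 3 3) (.lf 159 3 3)) (.nd 165 (.lf 151 3 3) (.nd 165 (.nd 161 (.lf 161 3 3) (.nd 157 (.lf 154 2 3) (.lf 157 3 3) (.lf 146 3 3)) (.lf 140 3 3)) (.lf 152 3 3) (.nd 165 (.lf 165 3 3) (.nd 165 (.lf 165 3 3) (.nd 163 (.lf 163 1 1) (.lf 150 3 3) (.lf 153 3 3)) (.lf 165 3 3)) (.nd 158 (.nd 158 (.lf 147 3 3) (.lf 158 3 3) (.lf 155 1 1)) (.lf 154 3 3) (.nd 154 (.lf 153 2 3) (.lf 154 2 3) (.lf 153 3 3))))) (.nd 154 (.lf 115 3 3) (.nd 154 (.lf 137 3 3) (.lf 152 3 3) (.nd 154 (.lf 141 3 3) (.lf 154 2 3) (.lf 143 3 3))) (.lf 141 3 3)))) (.nd 179 (.nd 170 (.nd 167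 (.lf 151 3 3) (.lf 159 3 3) (.nd 167 (.lf 166 3 3) (.lf 167 1 1) (.lf 167 1 1))) (.nd 161 (.lf 160 1 1) (.lf 160 1 1) (.nd 161 (.nd 161 (.lf 160 1 1) (.lf 161 1 1) (.lf 160 3 3)) (.lf 158 3 3) (.lf 157 1 1))) (.nd 170 (.nd 170 (.lf 135 3 3) (.nd 170 (.lf 157 1 1) (.lf 156 1 1) (.lf 170 3 3)) (.lf 164 3 3)) (.lf 162 3 3) (.nd 170 (.lf 170 3 3) (.lf 168 3 3) (.nd 169 (.lf 145 1 1) (.lf 169 3 3) (.lf 151 1 1))))) (.nd 179 (.nd 179 (.lf 177 1 1) (.nd 173 (.lf 160 1 1) (.lf 173 3 3) (.lf 160 1 1)) (.nd 179 (.lf 175 3 3) (.nd 179 (.lf 178 1 1) (.lf 179 3 3) (.lf 178 3 3)) (.lf 177 1 1))) (.lf 169 1 1) (.lf 167 1 1)) (.nd 169 (.lf 156 1 1) (.nd 161 (.nd 161 (.lf 154 3 3) (.nd 161 (.lf 152 3 3) (.lf 161 1 1) (.lf 157 3 3)) (.lf 140 3 3)) (.lf 155 1 1)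 (.lf 158 1 1)) (.nd 169 (.lf 169 3 3) (.nd 162 (.lf 139 3 3) (.lf 162 3 3) (.lf 160 1 1)) (.lf 155 3 3))))) (.nd 160 (.nd 152 (.lf 132 3 3) (.nd 152 (.lf 144 3 3) (.nd 152 (.nd 150 (.lf 136 3 3) (.lf 150 3 3) (.lf 139 1 1)) (.lf 152 3 3) (.nd 152 (.lf 148 3 3) (.lf 142 3 3) (.nd 152 (.lf 152 3 3) (.lf 143 1 1) (.lf 150 1 1)))) (.lf 143 3 3)) (.lf 137 3 3)) (.nd 158 (.lf 140 3 3) (.nd 158 (.lf 148 3 3) (.nd 158 (.lf 145 3 3) (.lf 158 3 3) (.lf 158 3 3)) (.lf 141 3 3)) (.lf 139 3 3)) (.nd 160 (.nd 160 (.lf 149 3 3) (.lf 139 3 3) (.nd 160 (.nd 160 (.lf 160 1 1) (.lf 153 3 3) (.lf 137 3 3)) (.nd 154 (.lf 154 1 1) (.lf 149 3 3) (.lf 131 3 3)) (.lf 160 3 3))) (.nd 160 (.lf 160 1 1) (.nd 160 (.nd 160 (.nd 160 (.lf 160 1 1) (.lf 160 3 3) (.lf 160 1 1))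 (.lf 160 1 1) (.lf 160 1 1)) (.lf 157 3 3) (.nd 158 (.lf 144 3 3) (.nd 158 (.lf 157 1 1) (.lf 156 1 1) (.lf 158 3 3)) (.lf 142 3 3))) (.nd 160 (.lf 160 1 1) (.lf 160 1 1) (.nd 160 (.lf 159 3 3) (.nd 160 (.lf 160 3 3) (.lf 154 1 1) (.lf 160 1 1)) (.nd 160 (.lf 146 3 3) (.lf 159 1 1) (.nd 160 (.lf 160 1 1) (.lf 160 1 1) (.lf 137 3 3)))))) (.nd 160 (.nd 160 (.nd 160 (.lf 160 3 3) (.lf 160 3 3) (.nd 160 (.lf 146 3 3) (.lf 145 3 3) (.lf 160 1 1))) (.lf 143 3 3) (.lf 140 3 3)) (.lf 141 3 3) (.lf 160 3 3)))) (.nd 164 (.nd 164 (.nd 164 (.lf 164 3 3) (.lf 143 3 3) (.lf 140 3 3)) (.nd 149 (.lf 149 3 3) (.nd 149 (.lf 136 3 3) (.lf 132 3 3) (.nd 149 (.lf 144 1 1) (.lf 149 3 3) (.lf 149 3 3))) (.lf 137 3 3)) (.lf 157 3 3)) (.nd 141 (.lf 136 3 3) (.lf 116 3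 3) (.nd 141 (.nd 141 (.nd 141 (.nd 141 (.nd 135 (.lf 135 1 1) (.lf 124 3 3) (.lf 128 3 3)) (.lf 141 3 3) (.lf 141 3 3)) (.lf 140 3 3) (.lf 140 3 3)) (.lf 112 3 3) (.lf 117 3 3)) (.lf 133 3 3) (.lf 125 3 3))) (.nd 153 (.lf 144 3 3) (.nd 153 (.lf 136 3 3) (.nd 153 (.nd 153 (.nd 153 (.lf 142 1 1) (.nd 153 (.lf 153 2 3) (.lf 147 1 1) (.lf 150 1 1)) (.lf 139 1 1)) (.nd 151 (.lf 140 3 3) (.lf 151 3 3) (.nd 144 (.lf 144 3 3) (.lf 132 1 1) (.lf 139 1 1))) (.lf 152 3 3)) (.lf 140 3 3) (.lf 142 3 3)) (.lf 151 3 3)) (.lf 114 3 3)))) (.nd 140 (.lf 115 3 3) (.nd 140 (.lf 136 3 3) (.lf 127 3 3) (.nd 140 (.lf 118 3 3) (.lf 118 3 3) (.nd 140 (.nd 140 (.lf 140 3 3) (.nd 140 (.nd 140 (.nd 138 (.lf 138 1 1) (.lf 132 3 3) (.lf 131 3 3)) (.nd 140 (.lf 136 3 3) (.lf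 134 2 3) (.lf 140 2 3)) (.lf 140 3 3)) (.lf 135 3 3) (.lf 131 3 3)) (.lf 130 3 3)) (.nd 139 (.nd 139 (.nd 139 (.lf 139 3 3) (.lf 110 1 1) (.lf 137 1 1)) (.lf 135 3 3) (.lf 134 3 3)) (.lf 134 3 3) (.lf 129 3 3)) (.nd 140 (.lf 140 3 3) (.nd 139 (.lf 120 3 3) (.lf 139 1 1) (.lf 119 2 3)) (.lf 138 3 3))))) (.nd 119 (.nd 119 (.nd 119 (.nd 119 (.nd 119 (.lf 113 3 3) (.nd 119 (.lf 117 3 3) (.nd 119 (.lf 94 1 1) (.lf 95 1 1) (.lf 119 3 3)) (.lf 113 3 3)) (.nd 103 (.lf 86 3 3) (.lf 103 1 1) (.lf 97 3 3))) (.lf 97 1 1) (.lf 100 1 1)) (.lf 115 3 3) (.lf 98 1 1)) (.lf 109 3 3) (.nd 110 (.lf 101 3 3) (.lf 100 3 3) (.lf 110 1 1))) (.lf 115 3 3) (.lf 87 3 3))) (.nd 166 (.nd 143 (.nd 143 (.nd 121 (.lf 121 3 3) (.lf 88 3 3) (.lf 100 3 3)) (.lf 118 3 3) (.lf 143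 3 3)) (.nd 93 (.lf 61 3 3) (.nd 93 (.lf 83 3 3) (.nd 89 (.lf 75 3 3) (.lf 74 3 3) (.nd 89 (.lf 87 3 3) (.lf 81 3 3) (.nd 89 (.lf 83 1 1) (.lf 84 1 1) (.lf 89 3 3)))) (.lf 93 1 1)) (.nd 93 (.lf 60 3 3) (.nd 93 (.lf 89 3 3) (.lf 89 3 3) (.nd 93 (.lf 83 3 3) (.lf 93 1 1) (.lf 80 3 3))) (.lf 63 3 3))) (.nd 110 (.lf 73 3 3) (.lf 81 3 3) (.lf 110 3 3))) (.nd 132 (.nd 132 (.nd 121 (.lf 93 1 1) (.lf 120 3 3) (.lf 121 1 1)) (.lf 123 1 1) (.nd 132 (.nd 126 (.lf 119 1 1) (.lf 120 3 3) (.lf 126 3 3)) (.nd 132 (.lf 132 3 3) (.lf 128 1 1) (.lf 119 1 1)) (.lf 123 3 3))) (.nd 117 (.lf 117 3 3) (.lf 87 3 3) (.nd 74 (.nd 74 (.nd 74 (.lf 71 3 3) (.nd 74 (.lf 64 3 3) (.lf 67 3 3) (.lf 74 1 1)) (.lf 63 3 3)) (.lf 71 3 3) (.lf 64 3 3)) (.lf 55 3 3) (.lf 57 3 3))) (.lf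 117 3 3)) (.nd 166 (.nd 166 (.nd 142 (.lf 135 1 1) (.nd 142 (.lf 135 3 3) (.lf 126 3 3) (.nd 142 (.nd 142 (.lf 142 3 3) (.lf 121 1 1) (.lf 130 1 1)) (.lf 142 1 1) (.lf 142 3 3))) (.nd 142 (.nd 142 (.lf 138 3 3) (.lf 142 3 3) (.lf 142 1 1)) (.lf 138 1 1) (.lf 119 1 1))) (.nd 136 (.nd 123 (.lf 122 1 1) (.nd 119 (.nd 119 (.lf 113 2 3) (.lf 119 3 3) (.lf 118 3 3)) (.lf 109 3 3) (.lf 111 3 3)) (.lf 123 1 1)) (.lf 131 3 3) (.nd 136 (.lf 119 1 1) (.lf 135 3 3) (.lf 136 3 3))) (.nd 166 (.lf 159 3 3) (.lf 161 3 3) (.nd 166 (.lf 163 3 3) (.lf 154 3 3) (.nd 166 (.lf 163 3 3) (.lf 166 3 3) (.nd 161 (.nd 144 (.lf 125 3 3) (.lf 144 1 1) (.lf 139 3 3)) (.lf 153 3 3) (.lf 161 3 3)))))) (.nd 155 (.nd 143 (.nd 143 (.nd 143 (.nd 140 (.lf 126 1 1) (.lf 136 3 3) (.lf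 140 3 3)) (.nd 143 (.lf 124 2 3) (.nd 143 (.lf 143 3 3) (.lf 130 2 3) (.lf 133 3 3)) (.lf 108 3 3)) (.lf 137 2 3)) (.lf 112 2 3) (.lf 125 1 1)) (.nd 143 (.nd 143 (.nd 143 (.nd 143 (.lf 138 1 1) (.lf 140 2 3) (.lf 143 1 1)) (.lf 131 2 3) (.lf 132 2 3)) (.lf 142 3 3) (.lf 136 2 3)) (.lf 134 1 1) (.lf 138 3 3)) (.lf 140 2 3)) (.nd 152 (.lf 138 3 3) (.nd 152 (.nd 149 (.lf 132 3 3) (.lf 129 3 3) (.lf 149 1 1)) (.lf 152 3 3) (.lf 151 3 3)) (.nd 142 (.lf 107 3 3) (.nd 142 (.nd 142 (.lf 142 1 1) (.lf 119 3 3) (.lf 132 1 1)) (.nd 138 (.lf 134 1 1) (.lf 138 3 3) (.lf 128 3 3)) (.lf 132 3 3)) (.lf 137 3 3))) (.nd 155 (.nd 112 (.lf 112 2 3) (.nd 112 (.lf 107 3 3) (.lf 79 3 3) (.lf 112 2 3)) (.lf 107 3 3)) (.lf 155 3 3) (.nd 154 (.nd 154 (.lf 149 3 3) (.lf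 150 3 3) (.lf 154 2 3)) (.nd 134 (.lf 134 3 3) (.lf 114 2 3) (.lf 114 2 3)) (.lf 140 2 3)))) (.nd 163 (.nd 159 (.nd 159 (.nd 159 (.lf 154 2 3) (.lf 159 1 1) (.lf 142 2 3)) (.lf 150 1 1) (.lf 136 1 1)) (.nd 146 (.lf 115 2 3) (.lf 143 1 1) (.lf 146 1 1)) (.nd 151 (.lf 127 2 3) (.lf 135 2 3) (.nd 151 (.lf 144 2 3) (.nd 151 (.nd 147 (.lf 138 1 1) (.lf 144 2 3) (.lf 147 2 3)) (.lf 143 2 3) (.lf 151 2 3)) (.lf 142 3 3)))) (.nd 152 (.nd 152 (.lf 148 1 1) (.lf 138 3 3) (.lf 152 3 3)) (.lf 148 1 1) (.lf 141 3 3)) (.nd 163 (.lf 152 3 3) (.lf 152 3 3) (.lf 163 3 3))))))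

def t15_227 : Tr := (.nd 201 (.nd 179 (.nd 148 (.nd 148 (.lf 148 1 2) (.nd 123 (.lf 123 1 2) (.lf 107 1 2) (.lf 118 1 2)) (.nd 126 (.lf 126 1 2) (.lf 105 1 2) (.lf 93 1 2))) (.nd 115 (.lf 115 1 2) (.nd 86 (.lf 86 1 2) (.lf 63 1 2) (.lf 37 1 2)) (.lf 78 1 2)) (.nd 118 (.lf 66 1 2) (.nd 113 (.lf 68 1 2) (.lf 113 1 2) (.lf 65 1 2)) (.nd 118 (.lf 88 1 2) (.lf 118 1 2) (.lf 103 1 2)))) (.nd 179 (.lf 177 1 2) (.lf 179 1 2) (.nd 162 (.nd 162 (.nd 145 (.lf 145 1 2) (.nd 145 (.nd 145 (.lf 121 1 2) (.lf 145 1 2) (.lf 126 1 2)) (.lf 136 1 2) (.lf 140 1 2)) (.lf 116 1 2)) (.lf 159 1 2) (.lf 162 1 2)) (.nd 160 (.lf 159 1 2) (.lf 160 1 2) (.nd 136 (.lf 112 1 2) (.lf 136 1 2) (.lf 106 1 2))) (.lf 161 1 2))) (.nd 151 (.nd 122 (.nd 91 (.nd 60 (.lf 39 1 2) (.lf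 60 1 2) (.lf 36 1 2)) (.lf 91 1 2) (.lf 62 1 2)) (.lf 92 1 2) (.lf 122 1 2)) (.lf 151 1 2) (.lf 122 1 2))) (.nd 149 (.nd 149 (.nd 141 (.lf 141 1 2) (.nd 118 (.lf 118 1 2) (.lf 110 1 2) (.lf 87 1 2)) (.lf 140 1 2)) (.lf 149 1 2) (.lf 132 1 2)) (.nd 120 (.lf 91 1 2) (.nd 120 (.lf 120 1 2) (.lf 111 1 2) (.lf 101 1 2)) (.lf 112 1 2)) (.nd 144 (.lf 120 1 2) (.nd 144 (.lf 144 1 2) (.nd 129 (.lf 129 1 2) (.lf 105 1 2) (.lf 106 1 2)) (.nd 114 (.lf 90 1 2) (.nd 114 (.lf 114 1 2) (.lf 62 1 2) (.lf 92 1 2)) (.lf 112 1 2))) (.nd 92 (.lf 87 1 2) (.lf 63 1 2) (.nd 92 (.lf 84 1 2) (.lf 75 1 2) (.lf 92 1 2))))) (.nd 201 (.nd 171 (.nd 169 (.nd 162 (.nd 145 (.lf 114 1 2) (.lf 137 1 2) (.lf 145 1 2)) (.lf 162 1 2) (.lf 161 1 2)) (.lf 159 1 2) (.lf 169 1 2)) (.nd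 171 (.lf 119 1 2) (.lf 171 1 2) (.nd 149 (.lf 121 1 2) (.lf 118 1 2) (.nd 149 (.lf 149 1 2) (.lf 132 1 2) (.lf 147 1 2)))) (.nd 147 (.lf 141 1 2) (.lf 147 1 2) (.lf 121 1 2))) (.nd 186 (.nd 163 (.lf 144 1 2) (.nd 163 (.lf 146 1 2) (.nd 163 (.nd 163 (.lf 133 1 2) (.lf 163 1 2) (.lf 159 1 2)) (.lf 150 1 2) (.nd 163 (.lf 151 1 2) (.lf 163 1 2) (.lf 161 1 2))) (.nd 153 (.lf 116 1 2) (.lf 139 1 2) (.lf 153 1 2))) (.lf 145 1 2)) (.nd 162 (.lf 137 1 2) (.lf 142 1 2) (.lf 162 1 2)) (.lf 186 1 2)) (.nd 201 (.nd 201 (.lf 201 1 2) (.lf 199 1 2) (.nd 187 (.lf 182 1 2) (.lf 187 1 2) (.nd 185 (.nd 176 (.lf 176 1 2) (.lf 165 1 2) (.nd 163 (.lf 153 1 2) (.lf 116 1 2) (.lf 163 1 2))) (.lf 182 1 2) (.lf 185 1 2)))) (.nd 177 (.nd 173 (.lf 173 1 2) (.lf 150 1 2)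 (.nd 132 (.lf 114 1 2) (.lf 132 1 2) (.lf 114 1 2))) (.lf 177 1 2) (.lf 169 1 2)) (.nd 175 (.lf 158 1 2) (.nd 175 (.lf 149 1 2) (.nd 164 (.lf 164 1 2) (.lf 145 1 2) (.lf 145 1 2)) (.lf 175 1 2)) (.lf 170 1 2)))))

def t15_229 : Tr := (.nd 171 (.nd 171 (.nd 171 (.lf 150 2 1) (.nd 171 (.lf 119 1 1) (.lf 171 1 1) (.nd 153 (.lf 118 1 1) (.lf 153 2 1) (.lf 121 1 1))) (.lf 153 2 1)) (.nd 155 (.nd 153 (.nd 140 (.nd 140 (.lf 122 1 1) (.nd 140 (.lf 140 2 1) (.lf 121 1 1) (.nd 112 (.lf 110 2 1) (.lf 107 1 1) (.lf 112 2 1))) (.lf 120 2 1)) (.lf 113 1 1) (.lf 115 1 1)) (.nd 153 (.nd 137 (.nd 137 (.lf 86 2 1) (.lf 102 2 1) (.lf 137 2 1)) (.lf 114 2 1) (.lf 114 2 1)) (.nd 153 (.lf 151 2 1) (.lf 124 2 1) (.lf 153 1 1)) (.lf 142 2 1)) (.nd 137 (.lf 121 2 1) (.nd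 137 (.nd 137 (.nd 124 (.lf 124 2 1) (.lf 93 2 1) (.lf 96 2 1)) (.lf 137 2 1) (.lf 94 2 1)) (.lf 107 1 1) (.lf 107 1 1)) (.lf 107 1 1))) (.lf 155 2 1) (.lf 147 2 1)) (.nd 155 (.nd 155 (.lf 144 2 1) (.nd 142 (.nd 112 (.lf 94 2 1) (.lf 112 2 1) (.lf 64 2 1)) (.lf 142 2 1) (.lf 105 2 1)) (.nd 155 (.nd 146 (.lf 125 2 1) (.lf 128 2 1) (.nd 146 (.lf 127 2 1) (.lf 146 2 1) (.lf 138 2 1))) (.lf 155 2 1) (.nd 137 (.nd 127 (.lf 127 2 1) (.lf 104 2 1) (.lf 115 2 1)) (.nd 137 (.lf 136 2 1) (.lf 130 1 1) (.lf 137 2 1)) (.lf 120 2 1)))) (.lf 133 2 1) (.nd 155 (.lf 155 2 1) (.nd 141 (.nd 141 (.lf 125 2 1) (.lf 128 2 1) (.lf 141 2 1)) (.lf 109 2 1) (.lf 118 2 1)) (.nd 150 (.lf 150 2 1) (.lf 98 2 1) (.lf 128 2 1))))) (.nd 148 (.nd 100 (.nd 100 (.lf 78 2 1) (.nd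 100 (.nd 97 (.lf 84 2 1) (.lf 97 2 1) (.lf 58 2 1)) (.nd 100 (.nd 100 (.lf 82 2 1) (.lf 78 2 1) (.lf 100 2 1)) (.lf 76 2 1) (.lf 86 2 1)) (.lf 80 2 1)) (.lf 85 2 1)) (.nd 69 (.lf 38 2 1) (.lf 69 2 1) (.lf 40 2 1)) (.lf 70 2 1)) (.nd 148 (.nd 129 (.nd 129 (.lf 115 2 1) (.lf 124 2 1) (.lf 129 2 1)) (.nd 129 (.lf 118 2 1) (.nd 110 (.lf 79 2 1) (.lf 86 2 1) (.lf 110 2 1)) (.nd 129 (.lf 120 2 1) (.lf 129 2 1) (.lf 121 2 1))) (.lf 107 2 1)) (.lf 148 2 1) (.lf 129 2 1)) (.nd 103 (.nd 74 (.lf 74 2 1) (.nd 43 (.lf 12 2 1) (.lf 43 2 1) (.lf 14 2 1)) (.lf 44 2 1)) (.lf 103 2 1) (.lf 89 2 1))) (.nd 108 (.nd 108 (.nd 108 (.nd 108 (.lf 84 2 1) (.nd 107 (.lf 87 2 1) (.lf 76 2 1) (.nd 107 (.lf 99 2 1) (.lf 107 1 1) (.nd 107 (.lf 86 2 1) (.lf 80 2 1) (.lf 107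 1 1)))) (.nd 108 (.lf 108 2 1) (.nd 108 (.lf 107 1 1) (.lf 107 1 1) (.nd 108 (.lf 107 1 1) (.lf 95 2 1) (.lf 108 2 1))) (.lf 104 2 1))) (.nd 108 (.lf 102 2 1) (.nd 107 (.nd 107 (.lf 102 2 1) (.lf 84 2 1) (.lf 107 1 1)) (.lf 104 2 1) (.lf 104 2 1)) (.nd 108 (.nd 108 (.lf 108 2 1) (.lf 89 2 1) (.lf 104 2 1)) (.lf 104 2 1) (.nd 107 (.lf 107 1 1) (.lf 104 2 1) (.lf 105 2 1)))) (.lf 106 2 1)) (.nd 107 (.lf 96 2 1) (.nd 107 (.lf 105 2 1) (.lf 103 2 1) (.nd 107 (.lf 101 2 1) (.lf 104 2 1) (.lf 107 1 1))) (.lf 79 2 1)) (.nd 104 (.lf 87 2 1) (.lf 77 2 1) (.lf 104 2 1))) (.nd 95 (.nd 64 (.lf 64 2 1) (.lf 40 2 1) (.lf 43 2 1)) (.lf 95 2 1) (.lf 66 2 1)) (.nd 96 (.nd 91 (.lf 91 2 1) (.lf 43 2 1) (.lf 46 2 1)) (.lf 96 2 1) (.lf 44 2 1))))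

def t15_230 : Tr := (.nd 239 (.nd 239 (.lf 239 1 2) (.nd 238 (.lf 238 1 2) (.nd 214 (.lf 204 1 2) (.nd 201 (.lf 182 1 2) (.lf 201 1 2) (.lf 181 1 2)) (.lf 214 1 2)) (.nd 224 (.lf 224 1 2) (.nd 207 (.lf 176 1 2) (.lf 207 1 2) (.lf 170 1 2)) (.lf 208 1 2))) (.lf 238 1 2)) (.nd 233 (.nd 211 (.lf 183 1 2) (.nd 177 (.lf 150 1 2) (.nd 177 (.lf 177 1 2) (.lf 155 1 2) (.lf 158 1 2)) (.lf 147 1 2)) (.nd 211 (.lf 211 1 2) (.lf 209 1 2) (.nd 209 (.lf 186 1 2) (.nd 209 (.lf 184 1 2) (.lf 185 1 2) (.lf 209 1 2)) (.nd 204 (.nd 204 (.lf 204 1 2) (.lf 191 1 2) (.lf 200 1 2)) (.lf 198 1 2) (.lf 190 1 2))))) (.nd 181 (.lf 152 1 2) (.lf 176 1 2) (.nd 181 (.lf 173 1 2) (.nd 181 (.lf 155 1 2) (.lf 181 1 2) (.lf 155 1 2)) (.lf 164 1 2))) (.nd 233 (.lf 203 1 2) (.lf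 208 1 2) (.nd 233 (.nd 207 (.lf 205 1 2) (.nd 207 (.lf 188 1 2) (.nd 204 (.lf 204 1 2) (.lf 152 1 2) (.lf 175 1 2)) (.lf 207 1 2)) (.lf 201 1 2)) (.lf 207 1 2) (.lf 233 1 2)))) (.nd 224 (.nd 224 (.nd 224 (.lf 224 1 2) (.nd 209 (.lf 209 1 2) (.lf 189 1 2) (.lf 208 1 2)) (.lf 208 1 2)) (.nd 211 (.lf 197 1 2) (.lf 181 1 2) (.nd 211 (.nd 211 (.lf 211 1 2) (.lf 192 1 2) (.lf 197 1 2)) (.lf 208 1 2) (.nd 211 (.lf 211 1 2) (.lf 208 1 2) (.lf 211 1 2)))) (.nd 208 (.lf 196 1 2) (.lf 199 1 2) (.lf 208 1 2))) (.nd 201 (.lf 201 1 2) (.lf 168 1 2) (.lf 177 1 2)) (.nd 192 (.lf 152 1 2) (.nd 178 (.lf 178 1 2) (.lf 149 1 2) (.lf 154 1 2)) (.nd 192 (.lf 187 1 2) (.lf 192 1 2) (.nd 177 (.lf 148 1 2) (.lf 157 1 2) (.lf 177 1 2))))))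

def t15_232 : Tr := (.nd 257 (.nd 234 (.nd 234 (.nd 210 (.nd 210 (.lf 199 1 3) (.nd 204 (.lf 191 1 3) (.lf 190 1 3) (.nd 204 (.lf 204 1 3) (.lf 203 1 3) (.nd 192 (.lf 174 1 3) (.lf 189 1 3) (.nd 192 (.lf 192 2 5) (.lf 188 1 3) (.lf 172 1 3))))) (.nd 210 (.lf 203 1 3) (.lf 203 1 3) (.nd 210 (.lf 207 1 3) (.nd 210 (.lf 210 1 3) (.lf 203 1 3) (.lf 203 1 3)) (.lf 207 1 3)))) (.nd 207 (.lf 179 1 3) (.lf 173 1 3) (.lf 207 1 3)) (.lf 177 1 3)) (.nd 209 (.lf 197 1 3) (.lf 188 1 3) (.nd 209 (.nd 207 (.lf 193 1 3) (.lf 177 1 3) (.nd 207 (.lf 207 1 3) (.lf 204 1 3) (.lf 204 1 3))) (.lf 204 1 3) (.lf 209 1 3))) (.lf 234 1 3)) (.nd 212 (.nd 212 (.nd 197 (.lf 197 1 3) (.lf 168 1 3) (.lf 166 1 3)) (.nd 198 (.lf 198 1 3) (.lf 146 1 3) (.nd 193 (.lf 193 1 3)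 (.lf 145 1 3) (.lf 148 1 3))) (.nd 212 (.nd 200 (.nd 189 (.lf 157 1 3) (.lf 189 1 3) (.lf 173 1 3)) (.lf 179 1 3) (.lf 200 1 3)) (.lf 212 1 3) (.lf 206 1 3))) (.nd 211 (.nd 202 (.nd 173 (.lf 122 1 3) (.lf 148 1 3) (.lf 173 1 3)) (.lf 202 1 3) (.lf 171 1 3)) (.lf 211 1 3) (.nd 203 (.lf 198 1 3) (.nd 151 (.lf 122 1 3) (.lf 146 1 3) (.lf 151 1 3)) (.lf 203 1 3))) (.nd 193 (.nd 176 (.lf 176 1 3) (.lf 174 1 3) (.lf 150 1 3)) (.lf 193 1 3) (.lf 193 1 3))) (.nd 229 (.nd 223 (.lf 172 1 3) (.lf 218 1 3) (.nd 223 (.lf 194 1 3) (.nd 223 (.lf 200 1 3) (.lf 223 1 3) (.lf 198 1 3)) (.lf 209 1 3))) (.nd 229 (.nd 216 (.lf 206 1 3) (.lf 199 1 3) (.lf 216 1 3)) (.nd 229 (.nd 225 (.lf 225 1 3) (.lf 225 1 3) (.lf 209 1 3)) (.lf 228 1 3) (.lf 229 1 3)) (.nd 225 (.lf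 207 1 3) (.lf 204 1 3) (.nd 225 (.lf 217 1 3) (.nd 225 (.lf 208 1 3) (.lf 225 1 3) (.lf 209 1 3)) (.lf 206 1 3)))) (.nd 221 (.nd 221 (.nd 221 (.lf 221 1 3) (.lf 208 1 3) (.lf 200 1 3)) (.lf 201 1 3) (.nd 208 (.lf 208 1 3) (.lf 193 1 3) (.lf 188 1 3))) (.lf 191 1 3) (.lf 184 1 3)))) (.nd 241 (.nd 234 (.lf 198 1 3) (.lf 217 1 3) (.lf 234 1 3)) (.nd 241 (.nd 229 (.lf 222 2 5) (.nd 219 (.nd 219 (.lf 197 1 3) (.lf 213 1 3) (.nd 219 (.lf 219 1 3) (.nd 205 (.lf 188 2 5) (.lf 205 1 3) (.lf 203 1 3)) (.lf 214 1 3))) (.lf 219 2 5) (.lf 199 1 3)) (.lf 229 1 3)) (.nd 241 (.lf 222 1 3) (.nd 241 (.lf 203 1 3) (.lf 241 1 3) (.nd 216 (.lf 216 1 3) (.lf 203 1 3) (.lf 173 1 3))) (.lf 200 1 3)) (.nd 231 (.nd 231 (.nd 231 (.lf 231 2 5) (.lf 204 1 3) (.lf 226 2 5))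 (.nd 221 (.lf 206 1 3) (.lf 221 1 3) (.nd 217 (.lf 217 2 5) (.lf 199 2 5) (.nd 207 (.lf 182 2 5) (.lf 206 2 5) (.nd 207 (.lf 196 2 5) (.lf 182 2 5) (.lf 207 2 5))))) (.nd 229 (.nd 204 (.nd 204 (.lf 204 1 3) (.lf 182 2 5) (.nd 197 (.lf 197 1 3) (.lf 182 2 5) (.lf 196 1 3))) (.nd 189 (.lf 182 2 5) (.lf 189 1 3) (.lf 161 1 3)) (.lf 189 1 3)) (.nd 212 (.lf 204 2 5) (.nd 212 (.lf 185 2 5) (.lf 184 2 5) (.lf 212 2 5)) (.lf 197 2 5)) (.nd 229 (.lf 229 1 3) (.nd 201 (.lf 184 2 5) (.lf 201 1 3) (.lf 186 2 5)) (.nd 204 (.lf 204 2 5) (.lf 195 1 3) (.lf 182 2 5))))) (.nd 205 (.nd 184 (.lf 182 2 5) (.lf 184 2 5) (.nd 184 (.lf 184 2 5) (.nd 184 (.lf 183 2 5) (.lf 182 2 5) (.lf 184 1 3)) (.lf 184 2 5))) (.nd 205 (.lf 181 1 3) (.lf 165 1 3) (.nd 205 (.lf 190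 1 3) (.lf 205 1 3) (.nd 195 (.lf 184 2 5) (.lf 195 1 3) (.lf 185 2 5)))) (.lf 193 1 3)) (.nd 221 (.lf 221 2 5) (.lf 194 1 3) (.nd 209 (.lf 182 2 5) (.lf 196 1 3) (.nd 209 (.lf 209 2 5) (.lf 188 2 5) (.nd 201 (.lf 201 2 5) (.lf 200 1 3) (.lf 195 2 5))))))) (.nd 225 (.nd 218 (.nd 218 (.lf 218 1 3) (.lf 194 1 3) (.nd 209 (.lf 181 1 3) (.lf 194 1 3) (.nd 209 (.lf 209 1 3) (.lf 194 1 3) (.lf 187 1 3)))) (.lf 199 1 3) (.lf 169 1 3)) (.nd 200 (.lf 200 1 3) (.lf 168 1 3) (.nd 197 (.lf 197 1 3) (.lf 140 1 3) (.lf 167 1 3))) (.nd 225 (.lf 225 1 3) (.nd 214 (.nd 214 (.lf 214 1 3) (.lf 193 1 3) (.lf 163 1 3)) (.lf 195 1 3) (.nd 214 (.lf 202 1 3) (.nd 194 (.lf 186 1 3) (.nd 190 (.lf 189 1 3) (.lf 190 1 3) (.lf 182 2 5)) (.lf 194 1 3)) (.nd 214 (.lf 199 1 3)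 (.nd 214 (.lf 214 1 3) (.lf 201 1 3) (.lf 210 1 3)) (.lf 199 1 3)))) (.nd 213 (.nd 213 (.lf 188 1 3) (.lf 213 1 3) (.nd 189 (.lf 184 1 3) (.lf 137 1 3) (.lf 189 1 3))) (.nd 179 (.lf 179 1 3) (.lf 179 1 3) (.lf 164 1 3)) (.nd 210 (.nd 194 (.lf 142 1 3) (.lf 189 1 3) (.lf 194 1 3)) (.lf 210 1 3) (.lf 193 1 3)))))) (.nd 257 (.nd 228 (.nd 202 (.lf 185 1 3) (.nd 202 (.lf 199 2 5) (.nd 202 (.nd 202 (.nd 202 (.lf 182 2 5) (.lf 202 1 3) (.lf 199 2 5)) (.lf 197 2 5) (.lf 202 1 3)) (.lf 200 1 3) (.lf 199 1 3)) (.nd 201 (.lf 198 2 5) (.lf 201 1 3) (.lf 201 2 5))) (.nd 198 (.nd 198 (.lf 198 2 5) (.lf 195 2 5) (.lf 192 1 3)) (.lf 176 1 3) (.lf 168 1 3))) (.nd 203 (.lf 203 1 3) (.nd 168 (.lf 168 1 3) (.lf 145 1 3) (.lf 163 1 3)) (.lf 174 1 3)) (.nd 228 (.nd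 200 (.lf 200 1 3) (.nd 193 (.lf 193 1 3) (.lf 191 1 3) (.lf 165 1 3)) (.lf 192 1 3)) (.nd 214 (.lf 181 1 3) (.nd 206 (.lf 206 1 3) (.lf 172 1 3) (.lf 196 1 3)) (.lf 214 1 3)) (.lf 228 1 3))) (.lf 225 1 3) (.nd 257 (.lf 257 1 3) (.nd 232 (.lf 225 2 5) (.lf 232 1 3) (.nd 230 (.lf 230 1 3) (.lf 227 2 5) (.lf 224 2 5))) (.nd 230 (.nd 230 (.nd 228 (.lf 199 1 3) (.lf 228 1 3) (.nd 203 (.lf 173 1 3) (.lf 157 1 3) (.lf 203 1 3))) (.lf 230 1 3) (.lf 204 1 3)) (.nd 224 (.lf 224 2 5) (.lf 221 2 5) (.nd 224 (.lf 223 1 3) (.nd 222 (.lf 222 1 3) (.lf 220 1 3) (.lf 222 2 5)) (.lf 224 2 5))) (.nd 222 (.lf 196 2 5) (.lf 222 2 5) (.lf 216 1 3))))))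

def t15_235 : Tr := (.nd 205 (.nd 177 (.nd 169 (.nd 169 (.nd 169 (.nd 169 (.nd 169 (.nd 169 (.lf 154 1 3) (.nd 160 (.lf 140 1 1) (.lf 153 1 3) (.lf 160 1 3)) (.lf 169 1 3)) (.lf 132 1 3) (.lf 162 1 3)) (.nd 167 (.lf 157 1 1) (.lf 158 1 1) (.nd 167 (.lf 155 1 3) (.lf 167 1 1) (.lf 163 1 1))) (.lf 162 1 3)) (.lf 148 1 1) (.lf 153 1 1)) (.nd 158 (.lf 158 1 3) (.lf 150 1 3) (.lf 147 1 1)) (.lf 161 1 1)) (.nd 158 (.lf 148 1 1) (.lf 121 1 1) (.nd 158 (.nd 158 (.lf 152 1 1) (.lf 142 1 1) (.nd 158 (.nd 158 (.nd 158 (.lf 158 1 3) (.lf 145 1 1) (.lf 150 1 1)) (.lf 156 1 1) (.lf 148 1 1)) (.lf 156 1 3) (.lf 137 1 3))) (.lf 146 1 1) (.nd 146 (.nd 146 (.lf 139 1 1) (.lf 137 1 3) (.lf 146 1 1)) (.lf 112 1 3) (.lf 146 1 1)))) (.lf 152 1 1)) (.nd 170 (.nd 142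 (.lf 134 1 3) (.lf 121 1 1) (.nd 142 (.lf 142 1 1) (.lf 133 1 1) (.lf 135 1 3))) (.nd 168 (.nd 168 (.nd 168 (.nd 168 (.lf 168 1 3) (.lf 165 1 1) (.lf 167 1 1)) (.nd 154 (.lf 154 1 1) (.lf 153 1 1) (.lf 152 1 3)) (.lf 156 1 1)) (.lf 163 1 1) (.lf 151 1 3)) (.nd 149 (.nd 119 (.lf 67 1 1) (.lf 119 1 1) (.lf 114 1 1)) (.lf 116 1 1) (.nd 149 (.lf 136 1 3) (.lf 107 1 3) (.lf 149 1 1))) (.lf 152 1 1)) (.nd 170 (.nd 170 (.nd 170 (.lf 170 1 3) (.lf 152 1 3) (.lf 146 1 3)) (.lf 139 1 3) (.nd 155 (.nd 155 (.nd 155 (.lf 147 1 1) (.lf 121 1 1) (.lf 155 1 3)) (.lf 153 1 3) (.lf 153 1 3)) (.lf 135 1 3) (.lf 139 1 3))) (.lf 140 1 3) (.lf 115 1 3))) (.nd 177 (.lf 171 1 3) (.nd 177 (.nd 177 (.lf 172 1 1) (.lf 168 1 1) (.lf 177 1 3)) (.nd 158 (.lf 147 1 1) (.nd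 145 (.lf 136 1 3) (.lf 145 1 1) (.lf 135 1 3)) (.nd 158 (.nd 158 (.lf 137 1 3) (.nd 157 (.lf 132 1 1) (.lf 142 1 1) (.lf 157 1 3)) (.lf 158 1 1)) (.lf 151 1 1) (.lf 150 1 1))) (.lf 167 1 3)) (.lf 144 1 3))) (.nd 205 (.nd 205 (.nd 205 (.nd 190 (.lf 179 1 1) (.lf 190 1 1) (.nd 190 (.nd 190 (.lf 190 1 1) (.lf 172 1 3) (.lf 189 1 3)) (.lf 162 1 3) (.lf 185 1 3))) (.nd 205 (.nd 205 (.nd 175 (.nd 175 (.lf 141 1 3) (.lf 144 1 3) (.nd 175 (.lf 170 1 3) (.lf 170 1 3) (.lf 175 1 1))) (.lf 171 1 1) (.lf 142 1 3)) (.nd 205 (.nd 205 (.nd 205 (.lf 200 1 3) (.lf 200 1 3) (.lf 205 1 1)) (.lf 199 1 3) (.lf 193 1 1)) (.lf 193 1 1) (.lf 188 1 1)) (.lf 176 1 1)) (.nd 189 (.lf 178 1 1) (.lf 189 1 3) (.lf 173 1 3)) (.lf 184 1 3)) (.nd 192 (.nd 190 (.lf 188 1 3) (.lf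 175 1 1) (.lf 190 1 3)) (.nd 192 (.lf 175 1 1) (.lf 168 1 3) (.lf 192 1 3)) (.lf 191 1 1))) (.nd 195 (.nd 167 (.lf 162 1 3) (.lf 167 1 3) (.lf 138 1 3)) (.nd 195 (.nd 195 (.lf 171 1 1) (.lf 195 1 3) (.lf 193 1 3)) (.lf 189 1 3) (.lf 195 1 3)) (.nd 195 (.lf 166 1 3) (.lf 195 1 3) (.lf 171 1 3))) (.nd 193 (.nd 179 (.lf 179 1 3) (.nd 178 (.nd 169 (.lf 169 1 3) (.lf 152 1 1) (.lf 168 1 3)) (.lf 178 1 3) (.lf 163 1 3)) (.lf 138 1 3)) (.nd 193 (.lf 193 1 3) (.nd 188 (.lf 188 1 3) (.lf 178 1 1) (.lf 187 1 3)) (.lf 193 1 3)) (.lf 166 1 3))) (.nd 184 (.nd 184 (.nd 177 (.nd 177 (.lf 177 1 3) (.lf 170 1 3) (.nd 177 (.lf 174 1 1) (.lf 169 1 3) (.lf 177 1 3))) (.lf 161 1 3) (.lf 163 1 3)) (.nd 184 (.lf 176 1 1) (.nd 184 (.nd 179 (.lf 179 1 1) (.lf 167 1 3)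 (.lf 168 1 3)) (.nd 184 (.nd 184 (.lf 184 1 1) (.lf 179 1 3) (.lf 179 1 3)) (.nd 183 (.lf 180 1 1) (.lf 179 1 1) (.lf 183 1 3)) (.lf 182 1 1)) (.lf 168 1 3)) (.lf 176 1 1)) (.lf 180 1 1)) (.nd 184 (.nd 146 (.nd 146 (.lf 146 1 1) (.lf 115 1 3) (.lf 143 1 1)) (.nd 146 (.lf 146 1 1) (.lf 117 1 1) (.lf 137 1 3)) (.lf 145 1 1)) (.lf 174 1 1) (.lf 184 1 3)) (.nd 180 (.nd 175 (.lf 168 1 3) (.lf 148 1 1) (.lf 175 1 1)) (.nd 180 (.lf 146 1 3) (.nd 177 (.lf 148 1 3) (.nd 177 (.lf 174 1 3) (.lf 177 1 1) (.lf 174 1 3)) (.lf 145 1 3)) (.nd 180 (.lf 175 1 1) (.lf 168 1 3) (.lf 180 1 1))) (.lf 172 1 1))) (.nd 195 (.nd 195 (.nd 168 (.nd 168 (.nd 168 (.lf 144 1 3) (.lf 168 1 3) (.lf 159 1 1)) (.lf 151 1 1) (.lf 150 1 1)) (.lf 162 1 1) (.lf 162 1 1)) (.nd 195 (.nd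 195 (.lf 195 1 3) (.lf 195 1 1) (.lf 192 1 3)) (.nd 194 (.lf 175 1 1) (.lf 154 1 1) (.lf 194 1 1)) (.lf 181 1 1)) (.lf 163 1 1)) (.nd 195 (.nd 167 (.lf 167 1 1) (.lf 145 1 1) (.nd 164 (.lf 164 1 1) (.lf 155 1 1) (.nd 163 (.lf 163 1 3) (.lf 151 1 1) (.lf 151 1 1)))) (.lf 195 1 1) (.lf 188 1 3)) (.nd 195 (.lf 172 1 3) (.nd 195 (.lf 151 1 1) (.lf 195 1 3) (.lf 171 1 3)) (.nd 171 (.lf 163 1 1) (.lf 171 1 1) (.lf 170 1 3))))) (.nd 191 (.nd 191 (.nd 189 (.nd 179 (.lf 166 1 3) (.lf 179 1 1) (.lf 167 1 3)) (.lf 177 1 1) (.nd 189 (.lf 175 1 1) (.nd 181 (.lf 179 1 3) (.lf 170 1 1) (.lf 181 1 1)) (.nd 189 (.nd 189 (.nd 189 (.lf 187 1 3) (.lf 189 1 3) (.lf 189 1 1)) (.lf 167 1 3) (.lf 170 1 3)) (.nd 183 (.nd 183 (.lf 169 1 1) (.lf 179 1 1) (.lf 183 1 3))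 (.lf 182 1 3) (.lf 178 1 3)) (.lf 168 1 3)))) (.nd 191 (.nd 173 (.lf 148 1 1) (.nd 171 (.nd 171 (.lf 171 1 1) (.lf 142 1 3) (.lf 170 1 3)) (.lf 145 1 1) (.lf 150 1 1)) (.nd 173 (.lf 173 1 1) (.lf 165 1 3) (.nd 173 (.lf 173 1 1) (.lf 160 1 1) (.nd 173 (.lf 173 1 1) (.lf 171 1 3) (.lf 166 1 1))))) (.nd 191 (.lf 191 1 3) (.nd 185 (.lf 170 1 3) (.lf 185 1 1) (.lf 167 1 1)) (.lf 186 1 3)) (.nd 183 (.lf 173 1 1) (.nd 183 (.nd 183 (.lf 181 1 1) (.nd 181 (.lf 181 1 1) (.lf 179 1 3) (.lf 181 1 1)) (.lf 183 1 1)) (.lf 179 1 1) (.lf 182 1 1)) (.lf 164 1 1))) (.nd 182 (.nd 181 (.lf 181 1 3) (.nd 175 (.lf 175 1 1) (.lf 171 1 3) (.lf 170 1 3)) (.nd 180 (.lf 180 1 1) (.lf 167 1 3) (.lf 178 1 1))) (.nd 182 (.lf 171 1 3) (.lf 141 1 3) (.nd 182 (.lf 163 1 3) (.lf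 178 1 3) (.nd 182 (.lf 169 1 3) (.lf 167 1 3) (.lf 182 1 1)))) (.nd 160 (.nd 152 (.lf 112 1 3) (.lf 139 1 3) (.nd 152 (.nd 143 (.lf 126 1 1) (.lf 133 1 3) (.lf 143 1 3)) (.lf 152 1 3) (.lf 137 1 3))) (.nd 160 (.lf 160 1 3) (.nd 152 (.lf 144 1 3) (.lf 139 1 3) (.lf 152 1 1)) (.lf 152 1 3)) (.lf 143 1 3)))) (.nd 183 (.nd 149 (.lf 139 1 3) (.lf 140 1 3) (.lf 149 1 1)) (.nd 183 (.nd 183 (.nd 181 (.lf 172 1 1) (.lf 167 1 3) (.lf 181 1 3)) (.nd 181 (.lf 181 1 3) (.lf 164 1 1) (.lf 158 1 3)) (.nd 183 (.lf 183 1 3) (.lf 178 1 1) (.lf 165 1 3))) (.lf 179 1 1) (.lf 180 1 1)) (.lf 173 1 1)) (.nd 158 (.nd 144 (.nd 144 (.lf 144 1 3) (.lf 123 1 1) (.lf 123 1 3)) (.nd 136 (.lf 114 1 3) (.lf 85 1 3) (.lf 136 1 3)) (.lf 116 1 3)) (.nd 150 (.lf 114 1 3) (.lf 142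 1 3) (.nd 150 (.nd 150 (.lf 140 1 3) (.lf 142 1 3) (.lf 150 1 1)) (.lf 147 1 1) (.lf 136 1 3))) (.nd 158 (.lf 144 1 1) (.lf 136 1 1) (.nd 158 (.lf 140 1 3) (.lf 153 1 1) (.nd 158 (.lf 140 1 1) (.lf 158 1 3) (.lf 145 1 1)))))))

def t15_236 : Tr := (.nd 205 (.lf 205 2 2) (.nd 175 (.nd 170 (.nd 170 (.nd 170 (.lf 170 2 2) (.lf 142 2 2) (.nd 145 (.nd 120 (.lf 120 2 2) (.lf 91 2 2) (.lf 85 2 2)) (.lf 119 2 2) (.lf 145 2 2))) (.lf 151 2 2) (.lf 151 2 2)) (.nd 125 (.nd 96 (.lf 73 2 2) (.lf 70 2 2) (.nd 96 (.lf 96 2 2) (.nd 87 (.nd 86 (.lf 86 2 2) (.lf 79 2 2) (.lf 85 2 2)) (.lf 83 2 2) (.lf 87 2 2)) (.lf 87 2 2))) (.nd 96 (.lf 66 2 2) (.nd 96 (.lf 75 2 2) (.lf 74 2 2) (.nd 96 (.nd 93 (.lf 93 2 2) (.lf 54 2 2) (.lf 80 2 2)) (.lf 96 2 2) (.lf 76 2 2)))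 (.lf 65 2 2)) (.nd 125 (.nd 119 (.lf 119 2 2) (.nd 109 (.lf 109 2 2) (.lf 80 2 2) (.nd 89 (.lf 89 2 2) (.lf 76 2 2) (.lf 64 2 2))) (.lf 114 2 2)) (.lf 112 2 2) (.lf 125 2 2))) (.nd 122 (.lf 89 2 2) (.nd 92 (.lf 87 2 2) (.lf 92 2 2) (.lf 40 2 2)) (.lf 122 2 2))) (.lf 123 2 2) (.lf 175 2 2)) (.nd 174 (.nd 145 (.lf 145 2 2) (.lf 94 2 2) (.nd 139 (.nd 91 (.nd 60 (.lf 23 2 2) (.lf 31 2 2) (.lf 60 2 2)) (.lf 91 2 2) (.nd 61 (.nd 56 (.lf 23 2 2) (.lf 23 2 2) (.lf 56 2 2)) (.lf 23 2 2) (.lf 61 2 2))) (.lf 96 2 2) (.lf 139 2 2))) (.lf 174 2 2) (.nd 143 (.lf 122 2 2) (.nd 119 (.lf 97 2 2) (.nd 91 (.lf 91 2 2) (.lf 36 2 2) (.lf 81 2 2)) (.lf 119 2 2)) (.lf 143 2 2))))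

def t15_238 : Tr := (.nd 121 (.nd 91 (.nd 67 (.nd 61 (.lf 61 2 1) (.lf 10 2 1) (.lf 37 2 1)) (.lf 67 2 1) (.lf 41 2 1)) (.nd 89 (.nd 89 (.lf 65 2 1) (.lf 68 2 1) (.lf 89 2 1)) (.lf 82 2 1) (.lf 79 2 1)) (.nd 91 (.lf 39 2 1) (.lf 91 2 1) (.nd 69 (.lf 41 2 1) (.nd 38 (.lf 5 2 1) (.lf 8 2 1) (.lf 38 2 1)) (.lf 69 2 1)))) (.nd 106 (.nd 83 (.nd 64 (.lf 25 2 1) (.lf 33 2 1) (.lf 64 2 1)) (.nd 83 (.lf 66 2 1) (.lf 83 2 1) (.nd 73 (.nd 36 (.lf 35 2 1) (.lf 36 2 1) (.lf 33 2 1)) (.nd 59 (.lf 35 2 1) (.lf 59 2 1) (.lf 39 2 1)) (.lf 73 2 1))) (.nd 65 (.lf 65 2 1) (.lf 60 2 1) (.lf 13 2 1))) (.nd 82 (.lf 62 2 1) (.lf 82 2 1) (.lf 57 2 1)) (.nd 106 (.nd 106 (.lf 106 2 1) (.lf 97 2 1) (.lf 96 2 1)) (.nd 95 (.lf 74 2 1) (.lf 95 2 1) (.lf 64 2 1)) (.lf 89 2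 1))) (.nd 121 (.lf 97 2 1) (.nd 90 (.nd 78 (.lf 47 2 1) (.lf 78 2 1) (.lf 63 2 1)) (.nd 87 (.nd 87 (.lf 87 2 1) (.nd 87 (.lf 84 2 1) (.nd 87 (.lf 87 2 1) (.lf 86 1 1) (.nd 86 (.lf 72 1 1) (.lf 86 1 1) (.lf 85 2 1))) (.lf 78 2 1)) (.lf 75 2 1)) (.lf 69 2 1) (.lf 84 2 1)) (.lf 90 2 1)) (.nd 121 (.nd 107 (.lf 102 2 1) (.nd 107 (.lf 87 2 1) (.nd 107 (.lf 60 2 1) (.lf 89 2 1) (.lf 107 2 1)) (.lf 105 2 1)) (.lf 105 2 1)) (.nd 121 (.nd 95 (.nd 94 (.lf 64 2 1) (.lf 94 2 1) (.lf 94 2 1)) (.lf 80 2 1) (.lf 95 2 1)) (.nd 121 (.lf 99 2 1) (.nd 121 (.lf 101 2 1) (.lf 121 2 1) (.lf 115 2 1)) (.lf 95 2 1)) (.nd 106 (.lf 68 2 1) (.lf 106 2 1) (.lf 79 2 1))) (.lf 120 2 1))))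

def t15_239 : Tr := (.nd 233 (.lf 228 1 2) (.lf 233 1 2) (.nd 204 (.lf 204 1 2) (.nd 198 (.lf 198 1 2) (.nd 176 (.nd 149 (.lf 121 1 2) (.lf 118 1 2) (.lf 149 1 2)) (.lf 144 1 2) (.lf 176 1 2)) (.lf 147 1 2)) (.nd 175 (.lf 175 1 2) (.nd 175 (.lf 170 1 2) (.nd 175 (.lf 156 1 2) (.lf 151 1 2) (.lf 175 1 2)) (.lf 166 1 2)) (.nd 146 (.lf 146 1 2) (.lf 144 1 2) (.nd 137 (.lf 108 1 2) (.lf 117 1 2) (.lf 137 1 2))))))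

def t15_244 : Tr := (.nd 104 (.nd 73 (.lf 42 1 1) (.nd 73 (.nd 73 (.lf 73 1 1) (.lf 58 1 1) (.lf 50 1 1)) (.lf 51 1 1) (.nd 58 (.lf 58 1 1) (.nd 43 (.lf 43 1 1) (.lf 8 1 1) (.lf 12 1 1)) (.lf 38 1 1))) (.lf 44 1 1)) (.nd 74 (.lf 22 1 1) (.nd 69 (.nd 69 (.lf 50 1 1) (.lf 50 1 1) (.lf 69 1 1)) (.lf 21 1 1) (.lf 24 1 1)) (.lf 74 1 1)) (.nd 104 (.lf 82 1 1) (.nd 104 (.nd 104 (.nd 90 (.lf 82 1 1) (.lf 90 1 1) (.lf 82 1 1)) (.nd 104 (.lf 82 1 1) (.nd 104 (.lf 83 1 1) (.lf 104 1 1) (.lf 82 1 1)) (.lf 86 1 1)) (.lf 80 1 1)) (.lf 84 1 1) (.nd 101 (.lf 62 1 1) (.lf 88 1 1) (.nd 101 (.lf 82 1 1) (.lf 86 1 1) (.lf 101 1 1)))) (.nd 89 (.nd 74 (.lf 74 1 1) (.lf 43 1 1) (.lf 35 1 1)) (.lf 89 1 1) (.lf 57 1 1))))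

def t15_245 : Tr := (.nd 200 (.nd 200 (.lf 188 1 2) (.nd 191 (.nd 178 (.nd 133 (.lf 133 1 2) (.nd 119 (.lf 114 1 2) (.lf 67 1 2) (.lf 119 1 2)) (.lf 118 1 2)) (.lf 144 1 2) (.lf 178 1 2)) (.nd 191 (.nd 191 (.lf 191 1 2) (.nd 177 (.nd 177 (.lf 167 1 2) (.nd 137 (.lf 137 1 2) (.lf 108 1 2) (.lf 132 1 2)) (.lf 177 1 2)) (.lf 177 1 2) (.lf 177 1 2)) (.lf 182 1 2)) (.lf 187 1 2) (.lf 183 1 2)) (.lf 175 1 2)) (.nd 200 (.lf 200 1 2) (.lf 194 1 2) (.nd 192 (.lf 192 1 2) (.nd 162 (.nd 133 (.lf 104 1 2) (.nd 127 (.lf 127 1 2) (.lf 76 1 2) (.lf 105 1 2)) (.nd 133 (.lf 114 1 2) (.lf 124 1 2) (.nd 133 (.lf 133 1 2) (.lf 112 1 2) (.lf 111 1 2)))) (.lf 162 1 2) (.nd 157 (.lf 133 1 2) (.lf 105 1 2) (.nd 157 (.lf 157 1 2) (.lf 127 1 2) (.lf 119 1 2)))) (.lf 190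 1 2)))) (.nd 183 (.nd 165 (.nd 165 (.lf 160 1 2) (.nd 165 (.lf 165 1 2) (.nd 152 (.lf 152 1 2) (.lf 152 1 2) (.lf 100 1 2)) (.lf 158 1 2)) (.nd 141 (.nd 109 (.lf 104 1 2) (.lf 57 1 2) (.lf 109 1 2)) (.nd 114 (.lf 79 1 2) (.nd 114 (.lf 114 1 2) (.lf 93 1 2) (.lf 87 1 2)) (.lf 77 1 2)) (.nd 141 (.lf 124 1 2) (.lf 141 1 2) (.nd 117 (.lf 98 1 2) (.lf 103 1 2) (.lf 117 1 2))))) (.nd 162 (.nd 110 (.lf 110 1 2) (.lf 83 1 2) (.lf 77 1 2)) (.lf 143 1 2) (.lf 162 1 2)) (.nd 121 (.lf 77 1 2) (.lf 114 1 2) (.nd 121 (.lf 113 1 2) (.lf 86 1 2) (.nd 121 (.lf 110 1 2) (.lf 121 1 2) (.lf 110 1 2))))) (.nd 183 (.lf 183 1 2) (.nd 165 (.nd 144 (.nd 113 (.lf 113 1 2) (.lf 84 1 2) (.lf 82 1 2)) (.lf 114 1 2) (.lf 144 1 2)) (.lf 165 1 2) (.lf 161 1 2)) (.lf 172 1 2))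 (.nd 148 (.lf 148 1 2) (.nd 138 (.lf 92 1 2) (.nd 86 (.lf 56 1 2) (.lf 86 1 2) (.lf 55 1 2)) (.lf 138 1 2)) (.nd 93 (.lf 93 1 2) (.lf 61 1 2) (.lf 82 1 2)))) (.nd 179 (.nd 122 (.nd 122 (.lf 122 1 2) (.lf 113 1 2) (.nd 113 (.lf 104 1 2) (.lf 113 1 2) (.lf 92 1 2))) (.nd 113 (.nd 113 (.lf 98 1 2) (.nd 113 (.lf 113 1 2) (.lf 89 1 2) (.lf 87 1 2)) (.lf 83 1 2)) (.lf 90 1 2) (.lf 61 1 2)) (.nd 92 (.lf 83 1 2) (.nd 92 (.lf 79 1 2) (.lf 87 1 2) (.nd 92 (.lf 78 1 2) (.lf 79 1 2) (.lf 92 1 2))) (.nd 71 (.lf 54 1 2) (.lf 71 1 2) (.lf 60 1 2)))) (.nd 170 (.nd 170 (.lf 170 1 2) (.lf 146 1 2) (.nd 153 (.lf 138 1 2) (.lf 146 1 2) (.nd 153 (.lf 153 1 2) (.lf 141 1 2) (.nd 153 (.lf 112 1 2) (.lf 134 1 2) (.lf 153 1 2))))) (.nd 117 (.lf 87 1 2) (.lf 86 1 2) (.lf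 117 1 2)) (.lf 122 1 2)) (.nd 179 (.lf 167 1 2) (.nd 145 (.lf 116 1 2) (.nd 140 (.nd 118 (.lf 87 1 2) (.lf 90 1 2) (.lf 118 1 2)) (.lf 140 1 2) (.lf 88 1 2)) (.nd 145 (.lf 137 1 2) (.lf 145 1 2) (.nd 128 (.lf 111 1 2) (.lf 123 1 2) (.nd 128 (.lf 128 1 2) (.lf 110 1 2) (.lf 114 1 2))))) (.nd 179 (.lf 155 1 2) (.lf 158 1 2) (.nd 179 (.nd 171 (.lf 151 1 2) (.lf 160 1 2) (.nd 171 (.lf 168 1 2) (.lf 171 1 2) (.nd 152 (.lf 128 1 2) (.lf 152 1 2) (.lf 114 1 2)))) (.lf 165 1 2) (.lf 179 1 2))))))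

def t15_247 : Tr := (.nd 184 (.nd 184 (.nd 172 (.nd 172 (.lf 172 1 1) (.lf 166 1 1) (.lf 161 1 1)) (.nd 162 (.nd 162 (.lf 162 1 1) (.lf 136 1 1) (.lf 151 1 1)) (.lf 137 1 1) (.lf 111 1 1)) (.nd 148 (.nd 139 (.lf 139 1 1) (.lf 82 1 1) (.nd 136 (.lf 82 1 1) (.lf 136 1 1) (.lf 77 1 1))) (.lf 146 1 1) (.lf 148 1 1))) (.nd 180 (.lf 180 1 1) (.nd 140 (.lf 135 1 1) (.lf 111 1 1) (.nd 140 (.lf 123 1 1) (.nd 140 (.lf 114 1 1) (.lf 140 1 1) (.lf 114 1 1)) (.nd 132 (.lf 109 1 1) (.lf 132 1 1) (.lf 131 1 1)))) (.nd 168 (.lf 144 1 1) (.lf 168 1 1) (.lf 139 1 1))) (.nd 184 (.nd 156 (.lf 144 1 1) (.lf 156 1 1) (.nd 155 (.nd 155 (.lf 152 1 1) (.nd 155 (.lf 117 1 1) (.lf 114 1 1) (.lf 155 1 1)) (.lf 115 1 1)) (.lf 151 1 1) (.lf 152 1 1))) (.nd 176 (.lf 158 1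 1) (.nd 164 (.nd 164 (.lf 156 1 1) (.lf 158 1 1) (.lf 164 1 1)) (.lf 136 1 1) (.lf 163 1 1)) (.nd 176 (.lf 166 1 1) (.lf 151 1 1) (.lf 176 1 1))) (.nd 184 (.nd 184 (.lf 141 1 1) (.lf 178 1 1) (.lf 184 1 1)) (.nd 163 (.nd 156 (.lf 150 1 1) (.lf 156 1 1) (.lf 153 1 1)) (.lf 151 1 1) (.lf 163 1 1)) (.lf 178 1 1)))) (.nd 163 (.nd 148 (.nd 117 (.lf 96 1 1) (.lf 100 1 1) (.nd 117 (.lf 105 1 1) (.lf 117 1 1) (.lf 108 1 1))) (.lf 119 1 1) (.lf 148 1 1)) (.nd 163 (.nd 157 (.lf 134 1 1) (.lf 157 1 1) (.lf 135 1 1)) (.nd 163 (.nd 163 (.lf 157 1 1) (.nd 163 (.lf 137 1 1) (.lf 163 1 1) (.lf 131 1 1)) (.lf 141 1 1)) (.nd 157 (.lf 140 1 1) (.lf 154 1 1) (.lf 157 1 1)) (.lf 158 1 1)) (.nd 157 (.lf 143 1 1) (.nd 157 (.lf 151 1 1) (.lf 156 1 1) (.nd 157 (.lf 115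 1 1) (.nd 157 (.lf 152 1 1) (.lf 157 1 1) (.lf 137 1 1)) (.lf 143 1 1))) (.lf 138 1 1))) (.nd 149 (.nd 149 (.lf 130 1 1) (.nd 149 (.lf 149 1 1) (.lf 125 1 1) (.lf 123 1 1)) (.lf 119 1 1)) (.lf 127 1 1) (.lf 97 1 1))) (.nd 157 (.nd 147 (.nd 109 (.lf 97 1 1) (.lf 96 1 1) (.lf 109 1 1)) (.nd 130 (.lf 130 1 1) (.lf 101 1 1) (.lf 104 1 1)) (.nd 147 (.nd 140 (.lf 135 1 1) (.lf 140 1 1) (.lf 88 1 1)) (.lf 147 1 1) (.lf 139 1 1))) (.nd 157 (.nd 151 (.lf 114 1 1) (.lf 142 1 1) (.lf 151 1 1)) (.nd 157 (.nd 155 (.lf 155 1 1) (.lf 146 1 1) (.lf 155 1 1)) (.nd 148 (.lf 141 1 1) (.lf 141 1 1) (.lf 148 1 1)) (.nd 157 (.lf 156 1 1) (.lf 157 1 1) (.lf 150 1 1))) (.nd 146 (.lf 136 1 1) (.lf 134 1 1) (.nd 146 (.lf 146 1 1) (.lf 143 1 1) (.lf 143 1 1)))) (.nd 142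 (.lf 123 1 1) (.nd 122 (.lf 91 1 1) (.lf 93 1 1) (.lf 122 1 1)) (.nd 142 (.lf 142 1 1) (.lf 129 1 1) (.nd 138 (.lf 138 1 1) (.lf 123 1 1) (.lf 106 1 1))))))

def t15_248 : Tr := (.nd 124 (.nd 95 (.lf 95 1 2) (.nd 67 (.lf 64 1 2) (.nd 50 (.lf 47 1 2) (.lf 33 1 2) (.nd 50 (.lf 50 1 2) (.lf 48 1 2) (.lf 30 1 2))) (.nd 67 (.nd 60 (.lf 55 1 2) (.lf 29 1 2) (.lf 60 1 2)) (.nd 67 (.lf 67 1 2) (.lf 57 1 2) (.nd 54 (.lf 51 1 2) (.lf 54 1 2) (.lf 27 1 2))) (.lf 60 1 2))) (.lf 87 1 2)) (.lf 124 1 2) (.lf 117 1 2))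

def t15_250 : Tr := (.nd 180 (.lf 151 1 3) (.nd 180 (.nd 163 (.nd 159 (.lf 159 1 3) (.lf 145 1 3) (.nd 144 (.lf 144 1 3) (.lf 105 1 3) (.lf 113 1 3))) (.lf 135 1 3) (.lf 163 1 3)) (.nd 180 (.lf 180 1 3) (.lf 154 1 3) (.nd 154 (.lf 152 1 3) (.nd 154 (.lf 122 1 3) (.lf 154 1 3) (.lf 150 1 3)) (.lf 124 1 3))) (.lf 172 1 3)) (.nd 175 (.nd 151 (.nd 122 (.lf 92 1 3) (.lf 122 1 3) (.lf 89 1 3)) (.lf 151 1 3) (.lf 125 1 3)) (.lf 123 1 3) (.lf 175 1 3)))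

def t15_253 : Tr := (.nd 116 (.nd 68 (.nd 38 (.nd 33 (.lf 33 1 1) (.lf 0 1 1) (.lf 0 1 1)) (.lf 38 1 1) (.lf 0 1 1)) (.nd 68 (.lf 68 1 1) (.nd 46 (.lf 38 1 1) (.lf 46 1 1) (.lf 27 1 1)) (.nd 46 (.nd 46 (.lf 46 1 1) (.lf 40 1 1) (.lf 46 1 1)) (.lf 32 1 1) (.lf 30 1 1))) (.nd 37 (.nd 8 (.lf 8 1 1) (.lf 0 1 1) (.lf 0 1 1)) (.lf 0 1 1) (.lf 37 1 1))) (.nd 116 (.nd 97 (.lf 75 1 1) (.nd 97 (.lf 72 1 1) (.lf 76 1 1) (.nd 97 (.nd 97 (.lf 73 1 1) (.lf 97 1 1) (.lf 83 1 1)) (.nd 97 (.lf 97 1 1) (.nd 97 (.lf 85 1 1) (.lf 97 1 1) (.lf 83 1 1)) (.lf 83 1 1)) (.nd 92 (.lf 63 1 1) (.lf 92 1 1) (.lf 81 1 1)))) (.nd 92 (.nd 78 (.lf 54 1 1) (.nd 78 (.nd 78 (.lf 71 1 1) (.nd 78 (.lf 54 3 3) (.lf 67 1 1) (.nd 78 (.lf 73 1 1) (.lf 67 1 1) (.lf 78 3 3))) (.lf 63 1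 1)) (.lf 71 1 1) (.lf 64 1 1)) (.lf 47 1 1)) (.nd 92 (.lf 79 1 1) (.nd 88 (.lf 67 1 1) (.lf 70 1 1) (.lf 88 1 1)) (.nd 92 (.lf 92 1 1) (.lf 92 1 1) (.nd 91 (.lf 91 1 1) (.lf 80 1 1) (.lf 81 1 1)))) (.nd 86 (.nd 86 (.nd 86 (.lf 61 1 1) (.lf 86 1 1) (.lf 63 1 1)) (.lf 57 1 1) (.lf 72 1 1)) (.lf 81 1 1) (.lf 35 1 1)))) (.nd 116 (.nd 116 (.nd 116 (.nd 116 (.lf 95 1 1) (.lf 86 1 1) (.lf 116 1 1)) (.nd 107 (.nd 107 (.nd 103 (.lf 88 3 3) (.lf 103 1 1) (.lf 93 3 3)) (.nd 107 (.lf 105 3 3) (.lf 102 1 1) (.lf 107 1 1)) (.lf 106 1 1)) (.lf 87 1 1) (.nd 107 (.nd 107 (.lf 98 3 3) (.lf 107 1 1) (.lf 63 3 3)) (.lf 82 1 1) (.lf 107 1 1))) (.lf 99 1 1)) (.nd 87 (.nd 87 (.lf 84 3 3) (.nd 85 (.nd 85 (.lf 53 3 3) (.lf 85 1 1) (.lf 75 3 3)) (.lf 45 3 3) (.lf 73 3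 3)) (.nd 87 (.lf 87 3 3) (.nd 85 (.lf 85 3 3) (.lf 83 1 1) (.lf 85 1 1)) (.lf 86 1 1))) (.nd 87 (.lf 82 1 1) (.lf 67 1 1) (.lf 87 1 1)) (.nd 85 (.lf 85 3 3) (.lf 59 3 3) (.lf 79 1 1))) (.nd 95 (.lf 88 3 3) (.nd 93 (.lf 90 3 3) (.lf 93 1 1) (.lf 87 3 3)) (.lf 95 1 1))) (.nd 95 (.lf 95 1 1) (.lf 77 1 1) (.nd 87 (.nd 87 (.lf 74 1 1) (.lf 77 1 1) (.lf 87 1 1)) (.lf 63 1 1) (.lf 42 1 1))) (.nd 91 (.lf 66 1 1) (.nd 85 (.lf 68 1 1) (.nd 85 (.lf 62 3 3) (.nd 64 (.lf 64 3 3) (.lf 64 1 1) (.lf 61 3 3)) (.lf 85 1 1)) (.lf 48 1 1)) (.lf 91 1 1))) (.nd 97 (.nd 94 (.nd 94 (.nd 79 (.lf 79 1 1) (.lf 56 3 3) (.lf 56 1 1)) (.nd 94 (.nd 94 (.lf 67 1 1) (.lf 94 3 3) (.lf 89 3 3)) (.lf 93 1 1) (.nd 84 (.lf 84 1 1) (.lf 69 1 1) (.lf 80 3 3))) (.lf 84 3 3)) (.nd 85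 (.lf 85 1 1) (.lf 63 1 1) (.nd 81 (.lf 66 1 1) (.lf 79 1 1) (.nd 81 (.lf 81 1 1) (.lf 81 1 1) (.lf 79 3 3)))) (.nd 85 (.nd 82 (.nd 81 (.lf 81 3 3) (.lf 80 1 1) (.lf 77 1 1)) (.lf 73 1 1) (.lf 82 1 1)) (.nd 82 (.lf 82 1 1) (.lf 62 1 1) (.lf 82 3 3)) (.lf 85 3 3))) (.nd 97 (.nd 87 (.lf 65 1 1) (.lf 60 1 1) (.lf 87 1 1)) (.lf 61 1 1) (.nd 97 (.lf 83 1 1) (.lf 97 1 1) (.nd 87 (.lf 87 1 1) (.lf 83 3 3) (.lf 80 3 3)))) (.nd 89 (.nd 89 (.lf 85 1 1) (.nd 89 (.lf 57 1 1) (.lf 89 1 1) (.lf 54 1 1)) (.lf 76 1 1)) (.lf 63 1 1) (.lf 81 1 1)))) (.nd 73 (.nd 73 (.lf 62 1 1) (.nd 71 (.lf 68 1 1) (.lf 49 1 1) (.nd 71 (.lf 71 1 1) (.lf 57 1 1) (.lf 66 1 1))) (.lf 73 1 1)) (.lf 45 1 1) (.nd 42 (.lf 11 1 1) (.nd 12 (.lf 7 1 1) (.lf 12 1 1) (.lf 0 1 1)) (.lf 42 1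 1))))

def t15_254 : Tr := (.nd 210 (.nd 210 (.nd 210 (.lf 199 2 2) (.lf 198 2 2) (.nd 210 (.nd 202 (.nd 202 (.lf 160 2 2) (.lf 174 2 2) (.lf 202 2 2)) (.nd 196 (.lf 169 1 2) (.lf 196 2 2) (.nd 167 (.nd 164 (.lf 149 2 2) (.lf 146 2 2) (.lf 164 1 2)) (.lf 167 1 2) (.lf 156 1 2))) (.nd 167 (.lf 164 2 2) (.nd 164 (.lf 163 1 2) (.lf 156 1 2) (.nd 164 (.lf 154 2 2) (.lf 164 2 2) (.lf 160 1 2))) (.lf 167 2 2))) (.lf 201 2 2) (.lf 210 2 2))) (.nd 196 (.lf 145 2 2) (.nd 196 (.lf 196 2 2) (.lf 167 2 2) (.nd 182 (.lf 159 2 2) (.lf 158 2 2) (.nd 182 (.lf 165 2 2) (.lf 182 2 2) (.lf 171 2 2)))) (.nd 191 (.lf 147 2 2) (.lf 144 2 2) (.nd 191 (.nd 173 (.lf 161 2 2) (.lf 173 2 2) (.lf 164 2 2)) (.lf 173 2 2) (.lf 191 2 2)))) (.nd 194 (.lf 157 2 2) (.nd 164 (.lf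 164 2 2) (.lf 116 2 2) (.lf 146 2 2)) (.nd 194 (.nd 194 (.lf 173 2 2) (.nd 181 (.lf 181 2 2) (.lf 158 2 2) (.lf 175 2 2)) (.lf 194 2 2)) (.lf 181 2 2) (.lf 174 2 2)))) (.nd 185 (.nd 184 (.nd 176 (.lf 176 2 2) (.lf 124 2 2) (.nd 171 (.lf 126 2 2) (.lf 171 2 2) (.lf 123 2 2))) (.nd 184 (.nd 184 (.nd 159 (.lf 125 2 2) (.lf 159 2 2) (.lf 155 2 2)) (.lf 176 2 2) (.lf 184 2 2)) (.nd 184 (.nd 157 (.lf 147 2 2) (.nd 157 (.lf 149 2 2) (.lf 157 2 2) (.lf 157 2 2)) (.lf 144 2 2)) (.nd 184 (.lf 178 2 2) (.nd 184 (.lf 168 2 2) (.lf 184 2 2) (.lf 142 2 2)) (.lf 184 2 2)) (.lf 167 2 2)) (.nd 184 (.lf 184 2 2) (.lf 181 2 2) (.nd 182 (.lf 182 2 2) (.nd 164 (.nd 159 (.lf 151 2 2) (.lf 159 2 2) (.lf 156 2 2)) (.lf 164 2 2) (.lf 141 2 2)) (.lf 164 2 2)))) (.nd 175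 (.nd 144 (.lf 120 2 2) (.lf 123 2 2) (.lf 144 2 2)) (.nd 175 (.lf 153 2 2) (.nd 154 (.lf 140 2 2) (.lf 154 2 2) (.lf 124 2 2)) (.lf 175 2 2)) (.lf 146 2 2))) (.nd 185 (.lf 185 2 2) (.nd 171 (.lf 119 2 2) (.lf 171 2 2) (.nd 166 (.lf 118 2 2) (.lf 166 2 2) (.lf 121 2 2))) (.nd 170 (.lf 141 2 2) (.lf 170 2 2) (.nd 139 (.lf 115 2 2) (.lf 115 2 2) (.lf 139 2 2)))) (.nd 166 (.nd 166 (.lf 144 2 2) (.nd 166 (.lf 166 2 2) (.lf 153 2 2) (.nd 154 (.nd 128 (.lf 128 2 2) (.lf 94 2 2) (.lf 124 2 2)) (.lf 154 2 2) (.lf 145 2 2))) (.lf 144 2 2)) (.lf 149 2 2) (.lf 166 2 2))) (.nd 208 (.nd 193 (.lf 161 2 2) (.nd 170 (.lf 137 2 2) (.lf 170 2 2) (.nd 146 (.lf 124 2 2) (.lf 146 2 2) (.lf 118 2 2))) (.lf 193 2 2)) (.nd 202 (.nd 180 (.lf 146 2 2) (.nd 152 (.lf 123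 2 2) (.lf 152 2 2) (.lf 123 2 2)) (.nd 180 (.nd 180 (.lf 169 2 2) (.lf 180 2 2) (.nd 172 (.lf 146 2 2) (.lf 147 2 2) (.lf 172 2 2))) (.lf 178 2 2) (.lf 178 2 2))) (.nd 202 (.lf 177 2 2) (.lf 172 2 2) (.nd 202 (.lf 176 2 2) (.lf 202 2 2) (.nd 176 (.nd 176 (.lf 176 2 2) (.lf 165 2 2) (.lf 147 2 2)) (.lf 147 2 2) (.lf 171 2 2)))) (.lf 150 2 2)) (.lf 208 2 2)))

def t15_256 : Tr := (.nd 148 (.nd 127 (.nd 110 (.lf 89 3 1) (.nd 110 (.lf 101 3 1) (.nd 106 (.lf 106 2 1) (.lf 92 3 1) (.lf 92 3 1)) (.lf 110 3 1)) (.lf 92 2 1)) (.nd 127 (.nd 115 (.nd 115 (.nd 114 (.lf 114 3 1) (.nd 105 (.lf 101 3 1) (.lf 105 2 1) (.lf 100 3 1)) (.lf 104 3 1)) (.nd 115 (.nd 115 (.lf 100 3 1) (.nd 115 (.lf 111 3 1) (.lf 108 3 1) (.lf 115 2 1)) (.lf 94 3 1)) (.nd 106 (.lf 106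 3 1) (.lf 99 2 1) (.lf 102 2 1)) (.lf 97 3 1)) (.lf 107 3 1)) (.lf 91 3 1) (.lf 91 3 1)) (.nd 127 (.lf 115 2 1) (.nd 114 (.lf 98 2 1) (.lf 113 2 1) (.nd 114 (.lf 114 2 1) (.lf 110 2 1) (.lf 114 3 1))) (.nd 127 (.lf 110 2 1) (.nd 127 (.lf 125 2 1) (.nd 127 (.nd 127 (.lf 127 2 1) (.lf 119 3 1) (.lf 116 3 1)) (.nd 111 (.lf 107 2 1) (.lf 107 2 1) (.lf 111 3 1)) (.lf 124 2 1)) (.nd 115 (.lf 100 2 1) (.lf 96 3 1) (.nd 115 (.nd 112 (.lf 112 3 1) (.lf 105 2 1) (.lf 100 2 1)) (.lf 113 3 1) (.lf 115 2 1)))) (.lf 114 2 1))) (.nd 95 (.nd 95 (.lf 87 2 1) (.lf 95 3 1) (.lf 92 3 1)) (.lf 87 3 1) (.lf 84 3 1))) (.nd 118 (.nd 118 (.nd 118 (.lf 90 2 1) (.lf 95 2 1) (.nd 118 (.lf 118 2 1) (.lf 101 3 1) (.lf 118 2 1))) (.lf 111 2 1) (.lf 103 2 1)) (.lf 114 2 1) (.lf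 94 2 1))) (.nd 148 (.nd 146 (.nd 145 (.nd 138 (.lf 93 3 1) (.nd 138 (.lf 130 3 1) (.nd 138 (.lf 119 3 1) (.nd 138 (.lf 129 2 1) (.lf 131 3 1) (.nd 138 (.lf 130 3 1) (.lf 119 3 1) (.lf 138 2 1))) (.lf 121 3 1)) (.lf 115 3 1)) (.nd 123 (.lf 92 3 1) (.nd 123 (.lf 123 2 1) (.lf 121 3 1) (.lf 121 3 1)) (.lf 95 3 1))) (.nd 138 (.nd 138 (.lf 129 3 1) (.lf 122 3 1) (.nd 138 (.nd 138 (.nd 138 (.lf 125 3 1) (.lf 138 2 1) (.lf 131 3 1)) (.lf 122 3 1) (.lf 125 3 1)) (.lf 121 3 1) (.lf 129 3 1))) (.lf 113 3 1) (.lf 115 3 1)) (.nd 145 (.nd 145 (.nd 145 (.nd 145 (.lf 142 3 1) (.lf 143 2 1) (.nd 145 (.lf 143 3 1) (.lf 145 2 1) (.lf 129 2 1))) (.lf 136 3 1) (.nd 145 (.lf 122 3 1) (.nd 145 (.lf 133 3 1) (.lf 145 2 1) (.lf 141 3 1)) (.lf 108 3 1))) (.nd 145 (.lf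 145 2 1) (.nd 145 (.nd 145 (.lf 143 2 1) (.lf 133 3 1) (.lf 145 3 1)) (.lf 145 2 1) (.lf 145 2 1)) (.lf 145 2 1)) (.nd 145 (.nd 145 (.nd 145 (.lf 143 2 1) (.lf 145 3 1) (.lf 145 2 1)) (.lf 125 3 1) (.lf 136 3 1)) (.lf 133 3 1) (.nd 145 (.nd 145 (.lf 145 3 1) (.lf 145 2 1) (.lf 130 3 1)) (.nd 145 (.lf 145 3 1) (.lf 135 2 1) (.lf 135 2 1)) (.lf 142 3 1)))) (.nd 137 (.nd 136 (.lf 136 2 1) (.lf 119 3 1) (.lf 120 3 1)) (.lf 137 2 1) (.lf 126 3 1)) (.nd 144 (.lf 128 3 1) (.lf 144 2 1) (.lf 129 3 1)))) (.nd 138 (.nd 131 (.nd 131 (.lf 114 2 1) (.lf 114 2 1) (.nd 131 (.nd 111 (.lf 93 2 1) (.lf 96 2 1) (.lf 111 3 1)) (.nd 131 (.lf 116 2 1) (.lf 123 3 1) (.lf 131 2 1)) (.lf 94 2 1))) (.nd 131 (.lf 130 3 1) (.lf 130 3 1) (.nd 131 (.nd 129 (.nd 129 (.lf 125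 3 1) (.lf 129 3 1) (.lf 123 2 1)) (.lf 128 3 1) (.lf 125 3 1)) (.nd 131 (.lf 131 3 1) (.lf 126 3 1) (.lf 118 2 1)) (.lf 118 2 1))) (.lf 129 2 1)) (.nd 138 (.nd 114 (.lf 114 3 1) (.lf 67 3 1) (.nd 113 (.lf 104 3 1) (.lf 113 2 1) (.lf 89 3 1))) (.nd 103 (.nd 103 (.lf 96 3 1) (.lf 91 2 1) (.lf 103 3 1)) (.lf 87 3 1) (.lf 89 3 1)) (.lf 138 3 1)) (.nd 114 (.nd 108 (.nd 108 (.lf 101 3 1) (.lf 108 3 1) (.lf 84 2 1)) (.lf 93 3 1) (.lf 92 3 1)) (.nd 114 (.lf 97 3 1) (.lf 112 3 1) (.nd 114 (.lf 110 3 1) (.lf 114 2 1) (.lf 109 3 1))) (.nd 114 (.nd 114 (.lf 114 2 1) (.lf 114 2 1) (.lf 84 3 1)) (.lf 110 2 1) (.nd 114 (.lf 104 3 1) (.nd 114 (.lf 113 3 1) (.lf 111 2 1) (.lf 114 2 1)) (.lf 106 3 1))))) (.nd 146 (.nd 145 (.nd 145 (.lf 145 2 1) (.lf 137 2 1) (.nd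 145 (.nd 141 (.lf 141 2 1) (.lf 129 3 1) (.lf 124 3 1)) (.lf 145 2 1) (.lf 127 2 1))) (.lf 129 2 1) (.lf 137 2 1)) (.nd 146 (.nd 145 (.lf 145 2 1) (.nd 145 (.lf 140 3 1) (.nd 145 (.nd 145 (.lf 145 2 1) (.lf 141 3 1) (.lf 133 3 1)) (.lf 108 3 1) (.lf 133 2 1)) (.lf 143 2 1)) (.lf 137 2 1)) (.nd 138 (.lf 138 2 1) (.nd 132 (.lf 132 2 1) (.nd 124 (.lf 116 3 1) (.nd 124 (.lf 124 2 1) (.lf 115 3 1) (.lf 118 3 1)) (.lf 116 2 1)) (.lf 118 2 1)) (.lf 126 2 1)) (.nd 146 (.nd 146 (.lf 140 2 1) (.lf 146 2 1) (.nd 140 (.lf 140 2 1) (.lf 138 3 1) (.lf 138 3 1))) (.lf 123 2 1) (.lf 135 2 1))) (.nd 140 (.nd 135 (.lf 113 3 1) (.lf 135 3 1) (.lf 113 2 1)) (.nd 124 (.nd 124 (.nd 124 (.lf 122 2 1) (.lf 111 2 1) (.nd 124 (.lf 124 3 1) (.lf 121 2 1) (.lf 124 2 1)))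 (.lf 88 2 1) (.lf 115 2 1)) (.nd 122 (.nd 122 (.lf 122 3 1) (.lf 112 2 1) (.lf 117 2 1)) (.nd 113 (.lf 113 2 1) (.lf 106 3 1) (.nd 113 (.lf 113 2 1) (.lf 105 3 1) (.lf 108 3 1))) (.lf 117 2 1)) (.lf 114 2 1)) (.nd 140 (.lf 133 3 1) (.lf 107 3 1) (.nd 140 (.lf 140 3 1) (.nd 139 (.lf 138 3 1) (.lf 137 3 1) (.lf 139 2 1)) (.lf 132 3 1)))))) (.nd 138 (.lf 128 2 1) (.nd 138 (.nd 138 (.lf 138 2 1) (.lf 86 2 1) (.lf 115 2 1)) (.nd 131 (.nd 128 (.nd 128 (.lf 127 2 1) (.lf 128 2 1) (.nd 119 (.lf 116 3 1) (.nd 119 (.lf 119 2 1) (.lf 115 3 1) (.lf 118 3 1)) (.lf 117 2 1))) (.lf 119 2 1) (.nd 115 (.lf 109 2 1) (.lf 105 2 1) (.nd 115 (.lf 114 2 1) (.nd 102 (.lf 102 3 1) (.lf 100 3 1) (.lf 85 2 1)) (.lf 115 2 1)))) (.lf 129 2 1) (.lf 131 2 1)) (.lf 113 2 1))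 (.nd 132 (.nd 130 (.nd 114 (.nd 114 (.lf 89 2 1) (.nd 110 (.lf 110 3 1) (.lf 109 2 1) (.lf 110 3 1)) (.lf 114 3 1)) (.lf 104 3 1) (.lf 106 3 1)) (.lf 128 2 1) (.nd 130 (.lf 130 2 1) (.nd 127 (.lf 107 3 1) (.lf 94 2 1) (.lf 127 2 1)) (.lf 130 3 1))) (.nd 132 (.lf 118 2 1) (.nd 132 (.lf 131 2 1) (.nd 126 (.nd 122 (.lf 106 3 1) (.lf 122 3 1) (.lf 122 2 1)) (.lf 113 2 1) (.lf 126 3 1)) (.nd 132 (.lf 128 3 1) (.lf 131 2 1) (.lf 132 2 1))) (.lf 118 2 1)) (.lf 122 2 1))) (.nd 148 (.nd 132 (.lf 105 2 1) (.lf 119 3 1) (.nd 132 (.nd 132 (.lf 132 2 1) (.nd 132 (.lf 123 2 1) (.nd 121 (.lf 120 2 1) (.lf 113 3 1) (.lf 121 2 1)) (.nd 132 (.lf 102 3 1) (.lf 132 2 1) (.lf 120 3 1))) (.nd 132 (.lf 127 2 1) (.lf 132 2 1) (.lf 128 3 1))) (.nd 115 (.lf 111 2 1) (.lf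 110 2 1) (.nd 115 (.nd 115 (.lf 101 3 1) (.lf 101 2 1) (.nd 115 (.lf 102 2 1) (.lf 114 3 1) (.lf 115 2 1))) (.nd 115 (.lf 110 2 1) (.lf 112 3 1) (.nd 115 (.lf 107 3 1) (.lf 111 3 1) (.lf 115 2 1))) (.nd 115 (.lf 112 3 1) (.lf 115 2 1) (.lf 115 3 1)))) (.nd 115 (.nd 115 (.lf 107 3 1) (.lf 112 3 1) (.lf 115 2 1)) (.lf 110 2 1) (.lf 112 2 1)))) (.nd 124 (.nd 124 (.nd 124 (.lf 122 2 1) (.nd 121 (.nd 121 (.lf 119 3 1) (.lf 118 3 1) (.nd 121 (.lf 121 2 1) (.lf 114 2 1) (.lf 120 3 1))) (.lf 109 3 1) (.lf 110 3 1)) (.lf 124 2 1)) (.lf 113 2 1) (.lf 118 2 1)) (.nd 120 (.nd 120 (.lf 92 3 1) (.nd 120 (.lf 115 2 1) (.lf 112 2 1) (.nd 120 (.lf 114 3 1) (.lf 120 2 1) (.lf 111 3 1))) (.lf 87 3 1)) (.nd 120 (.nd 120 (.lf 109 2 1) (.lf 110 2 1) (.lf 120 3 1))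 (.nd 115 (.nd 115 (.lf 115 3 1) (.lf 111 2 1) (.lf 108 3 1)) (.lf 115 3 1) (.lf 102 3 1)) (.lf 115 3 1)) (.lf 90 3 1)) (.lf 116 2 1)) (.nd 148 (.nd 148 (.lf 141 2 1) (.lf 127 2 1) (.nd 148 (.lf 148 2 1) (.lf 147 2 1) (.nd 148 (.lf 148 3 1) (.lf 143 2 1) (.lf 134 3 1)))) (.nd 121 (.lf 121 2 1) (.lf 93 2 1) (.nd 121 (.lf 115 2 1) (.nd 119 (.lf 119 3 1) (.lf 107 2 1) (.lf 106 2 1)) (.nd 121 (.lf 120 3 1) (.lf 121 2 1) (.lf 119 2 1)))) (.nd 126 (.lf 113 2 1) (.nd 126 (.nd 126 (.lf 125 2 1) (.lf 117 2 1) (.nd 126 (.lf 106 2 1) (.lf 118 3 1) (.lf 126 2 1))) (.lf 120 3 1) (.lf 122 2 1)) (.lf 105 2 1))))) (.nd 128 (.nd 128 (.nd 104 (.nd 104 (.nd 104 (.lf 94 2 1) (.nd 104 (.lf 95 2 1) (.nd 104 (.lf 88 3 1) (.lf 104 2 1) (.lf 93 3 1)) (.lf 98 2 1)) (.lf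 102 2 1)) (.lf 95 2 1) (.lf 102 2 1)) (.lf 86 2 1) (.lf 78 2 1)) (.nd 118 (.lf 66 2 1) (.nd 94 (.lf 65 2 1) (.lf 68 2 1) (.nd 94 (.lf 94 2 1) (.lf 94 2 1) (.nd 92 (.lf 73 3 1) (.nd 92 (.lf 89 2 1) (.lf 92 3 1) (.lf 83 3 1)) (.lf 88 2 1)))) (.lf 118 2 1)) (.nd 128 (.nd 103 (.lf 103 2 1) (.lf 100 3 1) (.lf 101 2 1)) (.nd 124 (.lf 91 2 1) (.nd 124 (.lf 120 3 1) (.nd 124 (.lf 124 3 1) (.lf 113 2 1) (.lf 105 2 1)) (.lf 120 2 1)) (.lf 112 2 1)) (.nd 128 (.nd 128 (.lf 105 3 1) (.nd 121 (.lf 98 2 1) (.nd 121 (.lf 118 3 1) (.lf 121 2 1) (.lf 119 3 1)) (.lf 109 2 1)) (.lf 128 3 1)) (.nd 128 (.nd 128 (.nd 128 (.lf 106 2 1) (.nd 128 (.lf 105 2 1) (.lf 108 2 1) (.lf 128 3 1)) (.lf 124 2 1)) (.lf 126 2 1) (.lf 126 2 1)) (.lf 123 3 1) (.lf 116 3 1)) (.lf 123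 2 1)))) (.nd 116 (.lf 89 3 1) (.nd 116 (.nd 116 (.nd 110 (.lf 92 2 1) (.lf 92 2 1) (.lf 110 3 1)) (.lf 113 2 1) (.nd 116 (.lf 116 3 1) (.nd 116 (.lf 96 3 1) (.lf 110 3 1) (.nd 116 (.lf 95 3 1) (.lf 116 2 1) (.lf 115 2 1))) (.lf 108 3 1))) (.lf 114 3 1) (.nd 115 (.nd 115 (.lf 107 3 1) (.nd 115 (.nd 114 (.lf 114 3 1) (.lf 111 3 1) (.lf 111 2 1)) (.lf 115 3 1) (.lf 114 2 1)) (.lf 114 3 1)) (.lf 101 3 1) (.nd 95 (.lf 90 3 1) (.nd 95 (.lf 89 2 1) (.lf 83 2 1) (.lf 95 3 1)) (.lf 87 3 1)))) (.nd 115 (.nd 115 (.lf 115 3 1) (.lf 106 2 1) (.lf 114 2 1)) (.lf 91 3 1) (.lf 86 3 1))) (.nd 124 (.nd 124 (.nd 121 (.lf 93 2 1) (.lf 108 3 1) (.lf 121 2 1)) (.nd 121 (.nd 121 (.lf 121 3 1) (.nd 115 (.lf 115 3 1) (.lf 113 2 1) (.lf 89 2 1)) (.lf 109 2 1)) (.lf 113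 2 1) (.lf 115 2 1)) (.nd 124 (.nd 124 (.lf 124 3 1) (.lf 106 2 1) (.lf 100 3 1)) (.nd 124 (.nd 124 (.lf 118 3 1) (.lf 124 3 1) (.nd 117 (.lf 111 2 1) (.lf 117 3 1) (.lf 113 2 1))) (.lf 118 2 1) (.lf 120 2 1)) (.nd 123 (.lf 120 3 1) (.lf 106 3 1) (.lf 123 2 1)))) (.nd 101 (.lf 96 2 1) (.lf 86 3 1) (.lf 101 2 1)) (.nd 87 (.nd 87 (.nd 86 (.nd 86 (.lf 86 3 1) (.lf 66 2 1) (.lf 68 2 1)) (.lf 77 2 1) (.lf 62 2 1)) (.lf 40 2 1) (.lf 87 2 1)) (.lf 60 3 1) (.nd 60 (.lf 60 2 1) (.lf 55 3 1) (.lf 60 3 1))))))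

def t15_257 : Tr := (.nd 174 (.nd 129 (.nd 100 (.nd 74 (.lf 74 1 2) (.lf 43 1 2) (.lf 44 1 2)) (.nd 100 (.nd 91 (.nd 90 (.lf 90 1 2) (.lf 83 1 2) (.lf 89 1 2)) (.lf 87 1 2) (.nd 91 (.lf 91 1 2) (.lf 62 1 2) (.lf 74 1 2))) (.lf 91 1 2) (.lf 100 1 2)) (.nd 77 (.lf 63 1 2) (.lf 33 1 2) (.lf 77 1 2))) (.nd 100 (.nd 69 (.nd 38 (.lf 27 1 2) (.lf 27 1 2) (.nd 38 (.lf 38 1 2) (.lf 27 1 2) (.lf 27 1 2))) (.lf 69 1 2) (.lf 40 1 2)) (.nd 70 (.nd 70 (.lf 70 1 2) (.lf 55 1 2) (.nd 40 (.nd 40 (.lf 40 1 2) (.lf 27 1 2) (.lf 27 1 2)) (.lf 38 1 2) (.lf 27 1 2))) (.lf 27 1 2) (.lf 65 1 2)) (.nd 100 (.nd 100 (.lf 80 1 2) (.nd 97 (.nd 84 (.lf 84 1 2) (.lf 61 1 2) (.lf 50 1 2)) (.nd 97 (.lf 82 1 2) (.lf 97 1 2) (.lf 78 1 2)) (.nd 58 (.lf 58 1 2) (.lf 37 1 2) (.lf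 33 1 2))) (.lf 100 1 2)) (.nd 79 (.lf 70 1 2) (.nd 79 (.nd 77 (.lf 77 1 2) (.nd 55 (.lf 40 1 2) (.lf 55 1 2) (.lf 36 1 2)) (.lf 61 1 2)) (.lf 78 1 2) (.lf 79 1 2)) (.lf 53 1 2)) (.nd 78 (.lf 51 1 2) (.nd 78 (.lf 76 1 2) (.nd 72 (.lf 51 1 2) (.lf 56 1 2) (.lf 72 1 2)) (.nd 78 (.lf 62 1 2) (.lf 78 1 2) (.lf 36 1 2))) (.lf 61 1 2)))) (.nd 129 (.nd 123 (.lf 118 1 2) (.nd 123 (.nd 123 (.lf 112 1 2) (.nd 123 (.lf 95 1 2) (.lf 123 1 2) (.lf 94 1 2)) (.lf 119 1 2)) (.lf 109 1 2) (.lf 119 1 2)) (.nd 113 (.lf 113 1 2) (.nd 84 (.lf 63 1 2) (.lf 84 1 2) (.lf 69 1 2)) (.nd 93 (.lf 93 1 2) (.lf 80 1 2) (.lf 68 1 2)))) (.nd 116 (.nd 113 (.lf 113 1 2) (.nd 113 (.lf 108 1 2) (.lf 110 1 2) (.nd 113 (.lf 113 1 2) (.lf 78 1 2) (.lf 89 1 2))) (.lf 95 1 2)) (.nd 99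 (.nd 98 (.lf 98 1 2) (.lf 69 1 2) (.lf 98 1 2)) (.nd 92 (.lf 92 1 2) (.lf 68 1 2) (.lf 76 1 2)) (.lf 99 1 2)) (.lf 116 1 2)) (.nd 129 (.nd 126 (.lf 126 1 2) (.lf 109 1 2) (.nd 103 (.lf 72 1 2) (.lf 86 1 2) (.lf 103 1 2))) (.nd 106 (.lf 106 1 2) (.lf 95 1 2) (.lf 88 1 2)) (.nd 129 (.nd 115 (.lf 115 1 2) (.nd 83 (.lf 43 1 2) (.lf 83 1 2) (.lf 69 1 2)) (.lf 92 1 2)) (.lf 124 1 2) (.lf 129 1 2))))) (.nd 126 (.nd 96 (.nd 91 (.lf 91 1 2) (.lf 43 1 2) (.lf 46 1 2)) (.nd 96 (.nd 66 (.lf 66 1 2) (.lf 64 1 2) (.lf 42 1 2)) (.nd 96 (.lf 96 1 2) (.lf 70 1 2) (.nd 72 (.lf 72 1 2) (.nd 68 (.lf 68 1 2) (.lf 27 1 2) (.lf 45 1 2)) (.lf 64 1 2))) (.lf 81 1 2)) (.nd 44 (.nd 44 (.lf 27 1 2) (.nd 44 (.lf 27 1 2) (.lf 44 1 2) (.lf 27 1 2)) (.lf 36 1 2)) (.nd 39 (.nd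 39 (.lf 27 1 2) (.lf 27 1 2) (.nd 39 (.lf 27 1 2) (.lf 27 1 2) (.nd 39 (.lf 39 1 2) (.lf 38 1 2) (.lf 27 1 2)))) (.lf 27 1 2) (.lf 27 1 2)) (.lf 27 1 2))) (.nd 126 (.nd 101 (.lf 96 1 2) (.nd 101 (.lf 99 1 2) (.lf 101 1 2) (.lf 101 1 2)) (.lf 85 1 2)) (.nd 104 (.lf 83 1 2) (.lf 71 1 2) (.nd 104 (.nd 98 (.lf 98 1 2) (.lf 73 1 2) (.lf 74 1 2)) (.nd 104 (.lf 104 1 2) (.lf 62 1 2) (.lf 88 1 2)) (.lf 104 1 2))) (.nd 126 (.lf 126 1 2) (.nd 101 (.lf 87 1 2) (.lf 101 1 2) (.nd 101 (.lf 101 1 2) (.lf 73 1 2) (.lf 59 1 2))) (.lf 123 1 2))) (.nd 93 (.nd 93 (.lf 73 1 2) (.nd 80 (.lf 65 1 2) (.lf 60 1 2) (.lf 80 1 2)) (.lf 93 1 2)) (.lf 64 1 2) (.lf 56 1 2))) (.nd 174 (.nd 174 (.nd 174 (.nd 174 (.lf 173 1 2) (.lf 157 1 2) (.nd 174 (.lf 144 1 2) (.lf 174 1 2)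 (.lf 152 1 2))) (.lf 150 1 2) (.lf 148 1 2)) (.lf 146 1 2) (.nd 149 (.lf 149 1 2) (.nd 124 (.lf 124 1 2) (.lf 95 1 2) (.lf 89 1 2)) (.nd 123 (.lf 123 1 2) (.nd 106 (.lf 106 1 2) (.lf 93 1 2) (.lf 90 1 2)) (.lf 119 1 2)))) (.lf 155 1 2) (.nd 155 (.nd 132 (.lf 132 1 2) (.lf 127 1 2) (.lf 114 1 2)) (.lf 155 1 2) (.lf 150 1 2))))

def t15_259 : Tr := (.nd 254 (.nd 253 (.nd 253 (.nd 228 (.nd 227 (.lf 222 1 3) (.nd 227 (.nd 227 (.lf 222 1 3) (.nd 227 (.lf 225 1 3) (.lf 227 1 3) (.nd 223 (.lf 198 2 5) (.lf 223 1 3) (.lf 211 2 5))) (.lf 216 1 3)) (.lf 213 1 3) (.lf 225 1 3)) (.lf 207 1 3)) (.nd 228 (.lf 218 1 3) (.lf 199 1 3) (.nd 228 (.lf 215 1 3) (.nd 228 (.lf 207 1 3) (.nd 228 (.lf 213 1 3) (.lf 212 1 3) (.lf 228 1 3)) (.lf 202 1 3)) (.lf 223 1 3)))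 (.lf 216 1 3)) (.nd 253 (.nd 253 (.nd 233 (.nd 232 (.lf 202 1 3) (.lf 232 1 3) (.lf 232 1 3)) (.lf 218 1 3) (.nd 233 (.lf 202 1 3) (.lf 233 1 3) (.lf 225 1 3))) (.nd 253 (.lf 237 1 3) (.nd 253 (.lf 247 2 5) (.lf 253 1 3) (.lf 239 1 3)) (.lf 233 1 3)) (.lf 244 1 3)) (.nd 252 (.nd 252 (.lf 250 1 3) (.lf 243 1 3) (.nd 252 (.lf 252 1 3) (.lf 240 2 5) (.lf 248 1 3))) (.nd 250 (.nd 250 (.lf 215 1 3) (.lf 250 1 3) (.lf 226 1 3)) (.lf 226 1 3) (.lf 213 2 5)) (.lf 241 2 5)) (.nd 245 (.lf 245 1 3) (.nd 237 (.lf 213 2 5) (.nd 230 (.lf 225 2 5) (.nd 228 (.lf 216 2 5) (.lf 228 1 3) (.lf 216 2 5)) (.lf 230 1 3)) (.lf 237 2 5)) (.nd 240 (.lf 240 1 3) (.lf 222 1 3) (.lf 214 1 3)))) (.nd 230 (.nd 230 (.lf 214 1 3) (.nd 230 (.lf 178 1 3) (.lf 204 1 3) (.nd 230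 (.lf 215 1 3) (.lf 200 1 3) (.nd 230 (.lf 206 1 3) (.lf 230 1 3) (.lf 204 1 3)))) (.nd 227 (.lf 218 2 5) (.lf 227 2 5) (.lf 215 1 3))) (.nd 227 (.lf 227 1 3) (.lf 222 1 3) (.lf 201 1 3)) (.nd 225 (.lf 190 1 3) (.nd 225 (.lf 208 1 3) (.lf 221 1 3) (.nd 225 (.nd 223 (.nd 223 (.lf 223 1 3) (.lf 218 2 5) (.lf 216 2 5)) (.nd 206 (.lf 205 1 3) (.lf 206 1 3) (.lf 196 2 5)) (.lf 217 1 3)) (.lf 222 1 3) (.lf 225 1 3))) (.lf 208 1 3)))) (.nd 229 (.nd 229 (.lf 207 1 3) (.lf 177 1 3) (.lf 229 1 3)) (.nd 205 (.nd 199 (.lf 199 1 3) (.nd 148 (.lf 141 1 3) (.lf 119 1 3) (.lf 148 1 3)) (.lf 175 1 3)) (.lf 205 1 3) (.lf 179 1 3)) (.nd 227 (.nd 227 (.nd 200 (.nd 200 (.lf 200 1 3) (.lf 193 2 5) (.lf 192 2 5)) (.lf 178 1 3) (.lf 184 2 5)) (.lf 227 1 3) (.lf 203 1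 3)) (.nd 213 (.nd 213 (.lf 213 1 3) (.nd 202 (.lf 201 2 5) (.lf 189 2 5) (.lf 202 1 3)) (.lf 210 2 5)) (.lf 189 2 5) (.lf 203 1 3)) (.nd 217 (.lf 212 1 3) (.lf 200 1 3) (.nd 217 (.lf 217 1 3) (.lf 195 1 3) (.lf 199 1 3))))) (.nd 235 (.nd 235 (.nd 235 (.lf 235 1 3) (.lf 234 1 3) (.nd 232 (.lf 218 2 5) (.nd 231 (.lf 227 2 5) (.lf 231 1 3) (.lf 230 1 3)) (.lf 232 1 3))) (.nd 233 (.lf 233 1 3) (.lf 202 1 3) (.nd 212 (.nd 200 (.lf 172 1 3) (.lf 178 1 3) (.lf 200 1 3)) (.lf 191 1 3) (.lf 212 1 3))) (.lf 227 1 3)) (.lf 221 1 3) (.nd 220 (.lf 220 1 3) (.lf 195 1 3) (.lf 200 1 3)))) (.nd 254 (.nd 254 (.nd 235 (.nd 235 (.lf 235 1 3) (.lf 210 1 3) (.lf 211 1 3)) (.lf 230 1 3) (.lf 213 1 3)) (.lf 254 1 3) (.nd 235 (.lf 235 1 3) (.lf 226 1 3) (.lf 223 1 3)))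 (.nd 209 (.nd 209 (.lf 203 1 3) (.lf 193 1 3) (.lf 209 1 3)) (.lf 180 1 3) (.nd 180 (.lf 180 1 3) (.lf 149 1 3) (.lf 150 1 3))) (.nd 206 (.nd 206 (.lf 206 1 3) (.lf 181 1 3) (.nd 184 (.lf 163 1 3) (.lf 151 1 3) (.lf 184 1 3))) (.nd 173 (.lf 144 1 3) (.lf 136 1 3) (.nd 173 (.nd 173 (.lf 152 1 3) (.nd 173 (.lf 153 1 3) (.lf 173 1 3) (.lf 156 1 3)) (.lf 160 1 3)) (.lf 153 1 3) (.lf 160 1 3))) (.lf 176 1 3))) (.nd 207 (.nd 202 (.nd 178 (.nd 178 (.lf 178 1 3) (.lf 163 1 3) (.nd 178 (.lf 169 1 3) (.nd 178 (.lf 178 1 3) (.lf 155 1 3) (.lf 170 1 3)) (.lf 173 1 3))) (.lf 149 1 3) (.lf 152 1 3)) (.nd 202 (.lf 202 1 3) (.lf 187 1 3) (.lf 172 1 3)) (.lf 150 1 3)) (.nd 207 (.nd 190 (.nd 190 (.lf 177 1 3) (.lf 176 1 3) (.lf 190 1 3)) (.lf 162 1 3) (.lf 186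 1 3)) (.lf 199 1 3) (.lf 207 1 3)) (.nd 178 (.lf 149 1 3) (.nd 178 (.lf 169 1 3) (.lf 159 1 3) (.lf 178 1 3)) (.lf 172 1 3))))

def t15_262 : Tr := (.nd 177 (.nd 174 (.nd 174 (.nd 174 (.lf 153 2 3) (.nd 143 (.lf 138 2 3) (.lf 136 2 3) (.lf 143 1 1)) (.lf 174 2 3)) (.lf 140 2 3) (.nd 145 (.nd 145 (.nd 145 (.lf 129 1 1) (.nd 145 (.lf 129 1 1) (.lf 129 1 1) (.nd 145 (.lf 138 1 1) (.lf 145 1 1) (.lf 134 2 3))) (.nd 140 (.lf 140 2 3) (.lf 131 2 3) (.lf 137 1 1))) (.lf 143 2 3) (.lf 144 2 3)) (.nd 136 (.lf 108 2 3) (.lf 136 2 3) (.lf 109 2 3)) (.lf 143 2 3))) (.nd 144 (.lf 112 2 3) (.nd 144 (.nd 141 (.lf 133 2 3) (.lf 138 1 3) (.lf 141 2 3)) (.lf 141 2 3) (.nd 144 (.lf 139 2 3) (.lf 136 2 3) (.nd 144 (.lf 133 1 3) (.lf 136 1 3) (.nd 144 (.lf 144 1 3)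 (.lf 143 2 3) (.lf 141 1 3))))) (.lf 117 2 3)) (.lf 117 2 3)) (.nd 145 (.nd 145 (.nd 139 (.lf 139 2 3) (.nd 130 (.lf 130 1 3) (.lf 108 1 3) (.lf 113 2 3)) (.lf 134 1 3)) (.lf 140 1 3) (.nd 145 (.lf 135 2 3) (.lf 140 2 3) (.nd 145 (.nd 144 (.nd 144 (.lf 143 2 3) (.lf 144 2 3) (.nd 143 (.lf 143 1 3) (.lf 143 2 3) (.lf 142 2 3))) (.lf 135 2 3) (.lf 125 2 3)) (.nd 145 (.nd 143 (.nd 143 (.lf 130 1 3) (.lf 103 1 3) (.lf 143 2 3)) (.lf 134 1 3) (.lf 142 2 3)) (.nd 134 (.lf 129 1 3) (.lf 134 1 1) (.lf 127 2 3)) (.lf 145 2 3)) (.lf 143 2 3)))) (.nd 138 (.nd 136 (.lf 136 2 3) (.lf 116 1 3) (.nd 134 (.lf 103 1 3) (.lf 134 2 3) (.lf 108 2 3))) (.lf 116 2 3) (.nd 138 (.nd 131 (.lf 107 1 3) (.lf 105 2 3) (.lf 131 1 3)) (.lf 138 2 3) (.lf 105 2 3))) (.nd 143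 (.lf 133 2 3) (.lf 143 2 3) (.lf 88 2 3))) (.nd 177 (.nd 177 (.lf 166 2 3) (.nd 177 (.lf 174 2 3) (.nd 177 (.nd 174 (.lf 173 2 3) (.lf 165 1 3) (.nd 174 (.lf 174 2 3) (.lf 134 1 3) (.lf 161 1 3))) (.lf 176 2 3) (.lf 177 1 3)) (.lf 175 2 3)) (.lf 167 2 3)) (.nd 170 (.lf 141 1 3) (.nd 170 (.lf 170 1 3) (.nd 148 (.nd 148 (.nd 148 (.lf 134 1 3) (.lf 148 2 3) (.lf 142 1 3)) (.nd 144 (.lf 144 1 3) (.nd 138 (.lf 129 1 3) (.lf 101 1 3) (.nd 138 (.lf 123 1 3) (.lf 138 1 3) (.lf 133 2 3))) (.lf 131 1 3)) (.lf 147 1 3)) (.nd 142 (.lf 105 1 3) (.nd 142 (.lf 137 1 1) (.lf 127 1 3) (.lf 142 1 3)) (.lf 135 1 3)) (.lf 135 1 3)) (.lf 166 1 3)) (.lf 161 1 3)) (.nd 174 (.lf 174 2 3) (.lf 170 2 3) (.lf 165 1 3))))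

def t15_263 : Tr := (.nd 233 (.lf 233 3 2) (.lf 200 3 2) (.nd 174 (.nd 143 (.lf 112 3 2) (.lf 143 3 2) (.nd 114 (.lf 108 3 2) (.nd 63 (.lf 63 3 2) (.nd 34 (.lf 34 3 2) (.lf 26 3 2) (.lf 6 3 2)) (.lf 56 3 2)) (.lf 114 3 2))) (.nd 144 (.nd 139 (.nd 94 (.lf 94 3 2) (.nd 65 (.lf 65 3 2) (.lf 35 3 2) (.lf 34 3 2)) (.lf 65 3 2)) (.lf 139 3 2) (.lf 91 3 2)) (.lf 144 3 2) (.lf 92 3 2)) (.lf 174 3 2)))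

def t15_265 : Tr := (.nd 178 (.nd 149 (.nd 148 (.nd 120 (.lf 112 2 1) (.lf 120 2 1) (.nd 113 (.lf 113 2 1) (.lf 111 2 1) (.lf 85 2 1))) (.nd 134 (.lf 101 2 1) (.nd 126 (.lf 92 2 1) (.lf 116 2 1) (.lf 126 2 1)) (.lf 134 2 1)) (.nd 148 (.lf 138 2 1) (.lf 127 2 1) (.nd 148 (.lf 138 2 1) (.nd 148 (.lf 135 2 1) (.lf 148 2 1) (.lf 133 2 1)) (.lf 136 2 1)))) (.nd 149 (.nd 125 (.lf 96 2 1) (.lf 88 2 1) (.nd 125 (.lf 125 2 1) (.lf 123 2 1) (.lf 112 2 1))) (.nd 105 (.lf 89 2 1) (.lf 92 2 1) (.lf 105 2 1)) (.nd 149 (.nd 126 (.nd 119 (.nd 119 (.lf 114 1 1) (.nd 112 (.lf 96 2 1) (.lf 112 1 1) (.lf 103 1 1)) (.lf 119 2 1)) (.lf 117 2 1) (.lf 116 2 1)) (.nd 126 (.lf 120 2 1) (.lf 122 2 1) (.nd 126 (.lf 122 2 1) (.lf 122 2 1) (.lf 126 2 1))) (.nd 120 (.lf 115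 2 1) (.nd 120 (.lf 114 1 1) (.lf 120 2 1) (.lf 119 1 1)) (.lf 117 1 1))) (.nd 146 (.lf 129 2 1) (.lf 121 2 1) (.lf 146 2 1)) (.lf 149 2 1))) (.nd 123 (.lf 123 2 1) (.nd 88 (.lf 83 2 1) (.lf 88 2 1) (.lf 65 2 1)) (.nd 94 (.lf 54 2 1) (.lf 94 2 1) (.nd 94 (.nd 87 (.lf 87 2 1) (.lf 58 2 1) (.lf 87 2 1)) (.lf 94 2 1) (.lf 92 2 1))))) (.nd 145 (.nd 134 (.lf 99 2 1) (.nd 120 (.lf 120 2 1) (.nd 91 (.nd 81 (.lf 29 2 1) (.lf 35 2 1) (.lf 81 2 1)) (.lf 91 2 1) (.lf 36 2 1)) (.lf 120 2 1)) (.nd 134 (.lf 131 2 1) (.nd 134 (.lf 133 2 1) (.lf 126 2 1) (.nd 134 (.nd 131 (.lf 114 1 1) (.nd 131 (.lf 131 2 1) (.lf 122 2 1) (.nd 130 (.lf 120 1 1) (.lf 130 2 1) (.lf 127 2 1))) (.lf 114 1 1)) (.lf 132 2 1) (.nd 134 (.lf 121 2 1) (.nd 134 (.lf 127 2 1) (.lf 133 2 1)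 (.nd 134 (.lf 134 1 1) (.lf 134 2 1) (.lf 134 2 1))) (.lf 128 2 1)))) (.lf 134 2 1))) (.lf 134 2 1) (.nd 145 (.nd 145 (.nd 145 (.lf 142 1 1) (.lf 141 2 1) (.nd 145 (.lf 133 2 1) (.lf 132 2 1) (.nd 145 (.lf 145 2 1) (.lf 139 2 1) (.nd 145 (.nd 145 (.lf 144 2 1) (.lf 145 1 1) (.lf 145 2 1)) (.lf 139 1 1) (.lf 136 1 1))))) (.lf 135 2 1) (.lf 119 2 1)) (.nd 137 (.lf 137 2 1) (.nd 119 (.lf 99 2 1) (.lf 93 2 1) (.nd 119 (.lf 115 2 1) (.lf 93 2 1) (.lf 119 2 1))) (.lf 115 2 1)) (.nd 145 (.lf 126 2 1) (.lf 145 2 1) (.nd 116 (.nd 116 (.lf 116 2 1) (.lf 110 1 1) (.lf 113 2 1)) (.lf 104 2 1) (.lf 112 2 1))))) (.nd 178 (.nd 177 (.nd 169 (.lf 169 2 1) (.lf 149 2 1) (.nd 150 (.nd 150 (.lf 120 2 1) (.nd 150 (.lf 124 2 1) (.lf 126 2 1) (.lf 150 2 1)) (.lf 135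 2 1)) (.lf 98 2 1) (.nd 145 (.lf 97 2 1) (.lf 100 2 1) (.nd 145 (.lf 126 2 1) (.lf 145 2 1) (.lf 126 2 1))))) (.nd 177 (.lf 177 2 1) (.nd 176 (.lf 176 2 1) (.nd 176 (.nd 175 (.lf 169 2 1) (.nd 173 (.lf 155 2 1) (.lf 161 1 1) (.lf 173 2 1)) (.lf 175 2 1)) (.lf 176 2 1) (.lf 167 1 1)) (.lf 172 2 1)) (.lf 177 2 1)) (.nd 152 (.nd 152 (.nd 150 (.lf 150 2 1) (.lf 146 2 1) (.lf 143 2 1)) (.lf 152 2 1) (.lf 145 2 1)) (.nd 143 (.lf 128 2 1) (.lf 143 2 1) (.lf 131 2 1)) (.nd 143 (.lf 123 2 1) (.lf 124 2 1) (.lf 143 2 1)))) (.nd 178 (.nd 150 (.nd 150 (.nd 150 (.nd 150 (.lf 149 2 1) (.lf 144 2 1) (.lf 150 2 1)) (.lf 137 2 1) (.lf 138 2 1)) (.lf 144 2 1) (.nd 149 (.nd 149 (.lf 146 1 1) (.nd 144 (.lf 144 1 1) (.lf 135 2 1) (.lf 116 1 1)) (.lf 149 2 1)) (.lf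 144 2 1) (.lf 144 2 1))) (.lf 124 2 1) (.nd 148 (.nd 123 (.lf 77 2 1) (.lf 123 2 1) (.lf 93 2 1)) (.lf 119 2 1) (.lf 148 2 1))) (.nd 178 (.nd 166 (.nd 158 (.lf 158 2 1) (.lf 142 2 1) (.lf 140 2 1)) (.lf 166 2 1) (.lf 143 2 1)) (.lf 170 2 1) (.lf 178 2 1)) (.nd 159 (.lf 144 2 1) (.nd 159 (.lf 140 2 1) (.lf 154 2 1) (.nd 159 (.lf 139 2 1) (.lf 146 2 1) (.lf 159 2 1))) (.lf 136 2 1))) (.nd 177 (.nd 177 (.lf 144 2 1) (.lf 177 2 1) (.lf 171 2 1)) (.nd 173 (.lf 143 2 1) (.nd 151 (.nd 151 (.nd 151 (.lf 137 2 1) (.lf 151 2 1) (.lf 143 1 1)) (.lf 112 2 1) (.lf 141 2 1)) (.lf 149 2 1) (.lf 140 2 1)) (.nd 173 (.nd 169 (.lf 140 2 1) (.lf 169 2 1) (.lf 140 2 1)) (.lf 138 2 1) (.nd 173 (.lf 171 2 1) (.nd 152 (.lf 132 2 1) (.lf 152 2 1) (.lf 137 2 1)) (.lf 173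 2 1)))) (.nd 156 (.nd 156 (.lf 138 2 1) (.lf 141 2 1) (.nd 156 (.lf 151 2 1) (.lf 156 2 1) (.lf 156 2 1))) (.nd 154 (.lf 154 2 1) (.lf 154 2 1) (.nd 153 (.lf 127 2 1) (.lf 135 2 1) (.lf 153 2 1))) (.nd 156 (.lf 156 2 1) (.lf 135 2 1) (.lf 135 2 1))))))

def t15_266 : Tr := (.nd 244 (.nd 227 (.nd 196 (.nd 175 (.lf 118 2 4) (.lf 161 2 4) (.nd 175 (.lf 141 2 4) (.lf 175 2 4) (.lf 163 2 4))) (.lf 196 2 4) (.nd 172 (.lf 144 2 4) (.nd 150 (.lf 150 2 4) (.lf 142 2 4) (.lf 117 2 4)) (.nd 172 (.nd 153 (.lf 136 2 4) (.lf 153 2 4) (.lf 141 2 4)) (.lf 172 2 4) (.lf 172 2 4)))) (.nd 227 (.nd 227 (.nd 227 (.lf 208 2 4) (.lf 205 2 4) (.nd 227 (.lf 208 2 4) (.lf 214 2 4) (.lf 227 2 4))) (.lf 212 2 4) (.lf 204 2 4)) (.nd 205 (.lf 194 2 4) (.lf 191 2 4) (.lf 205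 2 4)) (.nd 212 (.lf 192 2 4) (.nd 212 (.nd 212 (.lf 206 2 4) (.lf 212 2 4) (.lf 206 2 4)) (.lf 205 2 4) (.lf 206 2 4)) (.lf 197 2 4))) (.nd 198 (.nd 192 (.lf 144 2 4) (.lf 192 2 4) (.nd 149 (.lf 121 2 4) (.nd 118 (.lf 102 2 4) (.lf 118 2 4) (.lf 102 2 4)) (.lf 149 2 4))) (.lf 147 2 4) (.lf 198 2 4))) (.nd 228 (.nd 223 (.nd 178 (.lf 149 2 4) (.lf 178 2 4) (.lf 149 2 4)) (.nd 223 (.lf 204 2 4) (.lf 223 2 4) (.nd 204 (.lf 199 2 4) (.nd 204 (.lf 180 2 4) (.lf 179 2 4) (.lf 204 2 4)) (.lf 181 2 4))) (.nd 175 (.lf 145 2 4) (.nd 142 (.lf 113 2 4) (.nd 142 (.lf 122 2 4) (.nd 142 (.lf 121 2 4) (.lf 129 2 4) (.lf 142 2 4)) (.nd 129 (.lf 109 2 4) (.lf 114 2 4) (.lf 129 2 4))) (.lf 105 2 4)) (.lf 175 2 4))) (.lf 228 2 4) (.nd 176 (.nd 147 (.lf 147 2 4) (.lf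 118 2 4) (.lf 141 2 4)) (.lf 176 2 4) (.nd 171 (.nd 147 (.lf 147 2 4) (.lf 121 2 4) (.lf 118 2 4)) (.nd 119 (.lf 102 2 4) (.lf 114 2 4) (.lf 119 2 4)) (.nd 171 (.nd 156 (.lf 132 2 4) (.lf 156 2 4) (.lf 133 2 4)) (.nd 171 (.lf 147 2 4) (.nd 140 (.lf 140 2 4) (.nd 128 (.lf 113 2 4) (.lf 102 2 4) (.lf 128 2 4)) (.lf 137 2 4)) (.lf 171 2 4)) (.lf 141 2 4))))) (.nd 244 (.nd 243 (.nd 211 (.lf 211 2 4) (.lf 207 2 4) (.lf 177 2 4)) (.nd 208 (.lf 197 2 4) (.lf 189 2 4) (.nd 208 (.lf 208 2 4) (.lf 207 2 4) (.nd 204 (.lf 204 2 4) (.lf 201 1 2) (.lf 204 1 2)))) (.nd 243 (.nd 222 (.lf 213 2 4) (.nd 209 (.lf 204 2 4) (.nd 209 (.nd 209 (.lf 199 1 2) (.lf 200 1 2) (.nd 209 (.lf 200 1 2) (.lf 209 2 4) (.lf 209 2 4))) (.lf 209 2 4) (.lf 209 2 4)) (.lf 203 2 4))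 (.lf 222 1 2)) (.lf 235 2 4) (.lf 243 2 4))) (.nd 236 (.lf 236 2 4) (.nd 219 (.nd 187 (.lf 165 2 4) (.nd 187 (.lf 187 2 4) (.lf 180 2 4) (.nd 187 (.lf 175 1 2) (.lf 178 1 2) (.lf 187 2 4))) (.lf 171 2 4)) (.lf 219 2 4) (.lf 203 2 4)) (.nd 209 (.lf 199 2 4) (.lf 209 2 4) (.lf 196 2 4))) (.nd 244 (.nd 242 (.lf 216 2 4) (.lf 242 2 4) (.nd 241 (.lf 240 2 4) (.nd 241 (.lf 241 2 4) (.lf 241 1 2) (.lf 241 2 4)) (.lf 236 2 4))) (.nd 244 (.lf 234 2 4) (.lf 244 2 4) (.nd 236 (.lf 201 1 2) (.lf 236 2 4) (.lf 231 1 2))) (.lf 238 2 4))))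

def t15_268 : Tr := (.nd 366 (.nd 332 (.lf 329 2 5) (.nd 332 (.nd 292 (.lf 280 2 5) (.lf 272 1 5) (.nd 292 (.lf 273 1 5) (.lf 292 2 5) (.nd 246 (.lf 216 1 5) (.lf 246 1 5) (.lf 237 1 5)))) (.lf 332 1 5) (.lf 319 2 5)) (.lf 282 2 5)) (.lf 366 2 5) (.lf 339 2 5))

def t15_271 : Tr := (.nd 74 (.nd 69 (.nd 45 (.lf 19 1 1) (.lf 16 1 1) (.lf 45 1 1)) (.nd 17 (.lf 12 1 1) (.lf 17 1 1) (.lf 0 1 1)) (.nd 69 (.nd 69 (.lf 45 1 1) (.nd 38 (.nd 26 (.lf 11 1 1) (.lf 0 1 1) (.lf 26 1 1)) (.lf 35 1 1) (.lf 38 1 1)) (.lf 69 1 1)) (.lf 39 1 1) (.nd 54 (.lf 54 1 1) (.lf 31 1 1) (.lf 30 1 1)))) (.nd 45 (.nd 16 (.lf 0 1 1) (.nd 16 (.nd 16 (.lf 16 1 1) (.lf 0 1 1) (.lf 0 1 1)) (.lf 11 1 1) (.nd 7 (.lf 0 1 1) (.lf 5 1 1) (.lf 7 1 1))) (.nd 16 (.lf 0 1 1) (.nd 16 (.lf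 16 1 1) (.lf 0 1 1) (.lf 4 1 1)) (.lf 0 1 1))) (.nd 39 (.lf 0 1 1) (.lf 17 1 1) (.lf 39 1 1)) (.lf 45 1 1)) (.nd 74 (.nd 66 (.lf 65 1 1) (.nd 43 (.nd 12 (.nd 9 (.lf 0 1 1) (.lf 0 1 1) (.lf 9 1 1)) (.lf 0 1 1) (.lf 12 1 1)) (.lf 35 1 1) (.lf 43 1 1)) (.lf 66 1 1)) (.lf 57 1 1) (.nd 74 (.lf 48 1 1) (.lf 74 1 1) (.lf 48 1 1))))

def t15_272 : Tr := (.nd 311 (.lf 311 1 2) (.nd 297 (.lf 293 1 2) (.nd 297 (.lf 273 1 2) (.nd 253 (.nd 246 (.lf 246 1 2) (.nd 194 (.nd 189 (.lf 160 1 2) (.nd 189 (.lf 174 1 2) (.lf 189 1 2) (.lf 160 1 2)) (.lf 165 1 2)) (.lf 165 1 2) (.lf 194 1 2)) (.lf 222 1 2)) (.lf 253 1 2) (.nd 224 (.lf 216 1 2) (.nd 196 (.lf 179 1 2) (.nd 193 (.lf 163 1 2) (.lf 193 1 2) (.lf 160 1 2)) (.lf 196 1 2)) (.lf 224 1 2))) (.lf 297 1 2)) (.lf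 280 1 2)) (.nd 260 (.lf 255 1 2) (.nd 231 (.nd 225 (.nd 203 (.nd 176 (.lf 148 1 2) (.lf 176 1 2) (.lf 145 1 2)) (.lf 203 1 2) (.lf 171 1 2)) (.lf 225 1 2) (.lf 174 1 2)) (.lf 231 1 2) (.nd 202 (.lf 202 1 2) (.lf 173 1 2) (.nd 202 (.nd 202 (.lf 202 1 2) (.lf 178 1 2) (.lf 183 1 2)) (.lf 197 1 2) (.lf 193 1 2)))) (.lf 260 1 2)))

def t15_274 : Tr := (.nd 179 (.nd 134 (.nd 105 (.lf 75 1 1) (.lf 74 1 1) (.lf 105 1 1)) (.nd 120 (.lf 94 1 1) (.lf 120 1 1) (.lf 79 1 1)) (.nd 134 (.nd 134 (.lf 112 1 1) (.nd 134 (.lf 115 1 1) (.lf 123 1 1) (.nd 134 (.lf 134 1 1) (.lf 125 1 1) (.lf 126 1 1))) (.nd 134 (.lf 134 1 1) (.lf 129 1 1) (.lf 120 1 1))) (.lf 134 1 1) (.lf 134 1 1))) (.nd 179 (.nd 160 (.lf 152 1 1) (.lf 160 1 1) (.nd 157 (.lf 148 1 1) (.lf 148 1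 1) (.nd 157 (.lf 140 1 1) (.nd 157 (.lf 131 1 1) (.lf 140 1 1) (.lf 157 1 1)) (.lf 138 1 1)))) (.nd 179 (.lf 155 1 1) (.nd 158 (.nd 158 (.nd 158 (.nd 141 (.lf 124 1 1) (.lf 141 1 1) (.lf 114 1 1)) (.lf 125 1 1) (.lf 158 1 1)) (.lf 143 1 1) (.lf 155 1 1)) (.lf 150 1 1) (.lf 140 1 1)) (.lf 179 1 1)) (.nd 160 (.nd 160 (.nd 160 (.nd 151 (.lf 130 1 1) (.nd 151 (.lf 141 1 1) (.nd 151 (.lf 151 1 1) (.lf 135 1 1) (.lf 134 1 1)) (.lf 132 1 1)) (.lf 133 1 1)) (.nd 152 (.nd 132 (.lf 120 1 1) (.lf 109 1 1) (.lf 132 1 1)) (.lf 125 1 1) (.nd 152 (.lf 141 1 1) (.lf 142 1 1) (.nd 152 (.lf 129 1 1) (.lf 130 1 1) (.lf 152 1 1)))) (.lf 160 1 1)) (.nd 141 (.lf 141 1 1) (.lf 117 1 1) (.lf 110 1 1)) (.nd 149 (.lf 149 1 1) (.lf 98 1 1) (.nd 144 (.nd 144 (.lf 126 1 1)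 (.lf 126 1 1) (.lf 144 1 1)) (.lf 97 1 1) (.lf 100 1 1)))) (.nd 160 (.nd 155 (.lf 155 1 1) (.lf 133 1 1) (.lf 103 1 1)) (.nd 146 (.lf 114 1 1) (.nd 146 (.lf 133 1 1) (.lf 130 1 1) (.nd 146 (.lf 131 1 1) (.lf 130 1 1) (.lf 146 1 1))) (.lf 123 1 1)) (.lf 160 1 1)) (.lf 138 1 1))) (.nd 131 (.nd 100 (.nd 71 (.lf 71 1 1) (.lf 20 1 1) (.nd 65 (.lf 22 1 1) (.lf 65 1 1) (.lf 17 1 1))) (.nd 100 (.lf 100 1 1) (.lf 85 1 1) (.lf 78 1 1)) (.nd 69 (.lf 69 1 1) (.lf 48 1 1) (.lf 45 1 1))) (.nd 131 (.nd 131 (.lf 111 1 1) (.nd 131 (.lf 117 1 1) (.lf 107 1 1) (.nd 131 (.lf 109 1 1) (.lf 113 1 1) (.lf 131 1 1))) (.nd 128 (.lf 128 1 1) (.lf 115 1 1) (.lf 89 1 1))) (.lf 109 1 1) (.lf 116 1 1)) (.nd 101 (.lf 96 1 1) (.lf 49 1 1) (.nd 101 (.lf 71 1 1) (.nd 86 (.lf 62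 1 1) (.lf 86 1 1) (.lf 63 1 1)) (.nd 101 (.lf 101 1 1) (.lf 77 1 1) (.lf 75 1 1))))))

def t15_275 : Tr := (.nd 205 (.nd 170 (.lf 125 1 2) (.nd 170 (.lf 165 1 2) (.nd 170 (.lf 155 1 2) (.nd 170 (.lf 166 1 2) (.nd 164 (.lf 160 1 2) (.lf 152 1 2) (.nd 164 (.lf 154 1 2) (.lf 164 3 4) (.lf 149 1 2))) (.nd 170 (.lf 168 3 4) (.nd 170 (.lf 166 1 2) (.lf 166 1 2) (.lf 170 3 4)) (.lf 166 1 2))) (.lf 156 1 2)) (.lf 150 1 2)) (.nd 161 (.lf 122 1 2) (.nd 161 (.lf 151 1 2) (.nd 161 (.nd 161 (.lf 149 1 2) (.nd 161 (.lf 161 1 2) (.lf 151 3 4) (.lf 161 3 4)) (.lf 156 1 2)) (.lf 149 1 2) (.lf 146 1 2)) (.lf 151 1 2)) (.lf 127 1 2))) (.nd 174 (.lf 174 1 2) (.nd 157 (.lf 139 1 2) (.nd 157 (.lf 157 1 2) (.lf 139 1 2) (.lf 146 1 2)) (.lf 122 1 2)) (.nd 144 (.lf 144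 1 2) (.nd 141 (.lf 141 1 2) (.lf 119 1 2) (.nd 141 (.lf 132 1 2) (.nd 141 (.lf 138 2 4) (.lf 139 1 2) (.lf 141 2 4)) (.lf 129 1 2))) (.lf 96 1 2))) (.nd 205 (.nd 205 (.nd 205 (.lf 183 1 2) (.nd 205 (.lf 205 1 2) (.lf 190 1 2) (.nd 205 (.lf 168 1 2) (.lf 186 2 4) (.lf 205 1 2))) (.nd 191 (.nd 190 (.lf 178 1 2) (.lf 190 2 4) (.lf 170 2 4)) (.lf 191 1 2) (.lf 185 1 2))) (.nd 181 (.lf 169 2 4) (.nd 181 (.lf 171 1 2) (.lf 166 1 2) (.lf 181 2 4)) (.lf 167 1 2)) (.nd 189 (.nd 188 (.lf 188 1 2) (.lf 167 2 4) (.lf 164 2 4)) (.lf 175 1 2) (.nd 189 (.lf 164 1 2) (.lf 189 1 2) (.lf 138 1 2)))) (.nd 184 (.nd 184 (.nd 184 (.lf 182 1 2) (.lf 184 1 2) (.nd 175 (.lf 175 1 2) (.lf 168 1 2) (.lf 168 1 2))) (.lf 178 1 2) (.nd 173 (.nd 173 (.lf 170 1 2) (.lf 173 1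 2) (.lf 170 1 2)) (.lf 161 1 2) (.lf 163 1 2))) (.nd 174 (.lf 157 1 2) (.lf 136 1 2) (.nd 174 (.lf 167 1 2) (.lf 166 1 2) (.lf 174 1 2))) (.lf 169 1 2)) (.nd 185 (.nd 185 (.lf 184 1 2) (.nd 185 (.nd 184 (.lf 180 2 4) (.lf 184 1 2) (.lf 168 1 2)) (.lf 185 1 2) (.lf 184 1 2)) (.nd 184 (.lf 161 1 2) (.lf 162 1 2) (.lf 184 1 2))) (.lf 175 1 2) (.nd 176 (.lf 154 1 2) (.nd 176 (.lf 146 1 2) (.lf 176 1 2) (.lf 157 1 2)) (.lf 124 1 2)))))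

def t15_277 : Tr := (.nd 283 (.nd 283 (.nd 279 (.nd 252 (.lf 252 1 3) (.nd 242 (.lf 242 1 3) (.lf 232 1 3) (.lf 191 1 3)) (.lf 219 1 3)) (.lf 272 1 3) (.lf 279 1 3)) (.lf 283 1 3) (.lf 270 1 3)) (.lf 257 1 3) (.nd 275 (.lf 256 1 3) (.lf 275 1 3) (.nd 226 (.nd 197 (.lf 169 1 3) (.nd 189 (.lf 138 1 3) (.nd 167 (.nd 167 (.lf 167 1 3) (.lf 164 1 3) (.lf 156 1 3)) (.lf 135 1 3) (.lf 140 1 3)) (.lf 189 1 3)) (.nd 197 (.nd 176 (.lf 174 1 3) (.lf 176 1 3) (.lf 159 1 3)) (.lf 193 1 3) (.lf 197 1 3))) (.nd 226 (.nd 216 (.nd 193 (.lf 193 1 3) (.nd 162 (.nd 162 (.lf 153 1 3) (.lf 162 1 3) (.lf 158 1 3)) (.lf 155 1 3) (.lf 137 1 3)) (.nd 185 (.lf 134 1 3) (.lf 162 1 3) (.lf 185 1 3))) (.lf 216 1 3) (.nd 215 (.lf 163 1 3) (.lf 215 1 3) (.nd 193 (.lf 165 1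 3) (.nd 162 (.lf 129 1 3) (.lf 132 1 3) (.lf 162 1 3)) (.lf 193 1 3)))) (.nd 207 (.lf 193 1 3) (.lf 207 1 3) (.nd 202 (.nd 189 (.lf 184 1 3) (.lf 137 1 3) (.lf 189 1 3)) (.nd 188 (.lf 149 1 3) (.lf 157 1 3) (.lf 188 1 3)) (.lf 202 1 3))) (.lf 226 1 3)) (.nd 219 (.nd 167 (.lf 138 1 3) (.lf 162 1 3) (.nd 167 (.lf 167 1 3) (.lf 150 1 3) (.lf 159 1 3))) (.nd 219 (.lf 204 1 3) (.lf 219 1 3) (.nd 189 (.nd 165 (.lf 165 1 3) (.lf 139 1 3) (.lf 159 1 3)) (.lf 187 1 3) (.lf 189 1 3))) (.nd 195 (.lf 171 1 3) (.nd 166 (.lf 166 1 3) (.lf 133 1 3) (.lf 136 1 3)) (.lf 195 1 3))))))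

def t15_278 : Tr := (.nd 311 (.lf 287 1 4) (.nd 285 (.lf 280 1 4) (.nd 268 (.lf 268 1 4) (.lf 253 1 4) (.nd 237 (.lf 237 1 4) (.lf 234 1 4) (.nd 224 (.nd 199 (.lf 199 1 4) (.lf 167 1 4) (.lf 167 1 4)) (.lf 195 1 4) (.lf 224 1 4)))) (.lf 285 1 4)) (.lf 311 1 4))

def t15_280 : Tr := (.nd 137 (.nd 137 (.nd 137 (.nd 127 (.lf 127 1 1) (.lf 127 1 1) (.lf 113 1 1)) (.nd 128 (.lf 124 1 1) (.lf 127 1 1) (.nd 128 (.lf 127 1 1) (.lf 115 1 1) (.nd 128 (.lf 128 1 1) (.lf 128 1 1) (.lf 116 1 1)))) (.nd 137 (.nd 133 (.lf 133 1 1) (.lf 123 1 1) (.lf 124 1 1)) (.nd 137 (.lf 137 1 1) (.lf 135 1 1) (.lf 134 1 1)) (.lf 125 1 1))) (.nd 120 (.nd 116 (.lf 111 1 1) (.lf 116 1 1) (.lf 95 1 1)) (.nd 120 (.nd 120 (.lf 116 1 1) (.lf 116 1 1) (.nd 120 (.lf 102 1 1) (.lf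 101 1 1) (.lf 120 1 1))) (.lf 99 1 1) (.lf 96 1 1)) (.lf 97 1 1)) (.nd 126 (.lf 95 1 1) (.nd 126 (.lf 116 1 1) (.nd 126 (.lf 109 1 1) (.lf 93 1 1) (.nd 126 (.lf 115 1 1) (.lf 126 1 1) (.lf 126 1 1))) (.nd 126 (.lf 87 1 1) (.lf 126 1 1) (.lf 105 1 1))) (.lf 105 1 1))) (.nd 113 (.lf 88 1 1) (.nd 113 (.lf 99 1 1) (.lf 100 1 1) (.lf 113 1 1)) (.lf 93 1 1)) (.nd 114 (.nd 114 (.nd 104 (.lf 67 1 1) (.lf 104 1 1) (.nd 90 (.lf 70 1 1) (.lf 90 1 1) (.lf 66 1 1))) (.nd 114 (.nd 101 (.lf 87 1 1) (.lf 97 1 1) (.lf 101 1 1)) (.lf 114 1 1) (.nd 114 (.nd 102 (.lf 94 1 1) (.nd 102 (.lf 85 1 1) (.lf 96 1 1) (.lf 102 1 1)) (.lf 77 1 1)) (.lf 112 1 1) (.lf 114 1 1))) (.lf 97 1 1)) (.nd 95 (.lf 64 1 1) (.nd 56 (.nd 43 (.lf 0 1 1) (.lf 29 1 1) (.lf 43 1 1)) (.lf 56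 1 1) (.lf 40 1 1)) (.lf 95 1 1)) (.nd 96 (.nd 44 (.lf 39 1 1) (.lf 15 1 1) (.lf 44 1 1)) (.nd 91 (.nd 46 (.lf 17 1 1) (.lf 46 1 1) (.lf 17 1 1)) (.lf 91 1 1) (.nd 43 (.lf 13 1 1) (.lf 10 1 1) (.lf 43 1 1))) (.nd 96 (.nd 81 (.lf 58 1 1) (.lf 81 1 1) (.lf 57 1 1)) (.lf 66 1 1) (.lf 96 1 1)))))

def t15_281 : Tr := (.nd 144 (.nd 144 (.nd 118 (.nd 118 (.nd 110 (.lf 107 2 2) (.lf 87 2 2) (.lf 110 2 2)) (.lf 101 2 2) (.nd 118 (.lf 118 2 2) (.lf 91 2 2) (.lf 90 2 2))) (.nd 113 (.nd 91 (.lf 91 2 2) (.lf 63 2 2) (.lf 60 2 2)) (.lf 61 2 2) (.nd 113 (.nd 113 (.lf 89 2 2) (.lf 87 2 2) (.lf 113 2 2)) (.lf 83 2 2) (.lf 98 2 2))) (.nd 89 (.nd 89 (.lf 72 2 2) (.lf 80 2 2) (.nd 89 (.lf 59 2 2) (.lf 89 2 2) (.lf 64 2 2))) (.lf 63 2 2) (.nd 83 (.nd 83 (.nd 83 (.lf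 63 2 2) (.lf 83 2 2) (.lf 53 2 2)) (.lf 72 2 2) (.lf 57 2 2)) (.lf 32 2 2) (.lf 59 2 2)))) (.nd 133 (.nd 133 (.nd 118 (.lf 99 2 2) (.lf 108 2 2) (.lf 118 2 2)) (.nd 111 (.nd 111 (.lf 98 2 2) (.nd 111 (.lf 105 2 2) (.lf 111 2 2) (.lf 103 2 2)) (.lf 102 2 2)) (.lf 88 2 2) (.nd 111 (.lf 90 2 2) (.nd 111 (.lf 111 2 2) (.lf 107 2 2) (.lf 109 2 2)) (.lf 87 2 2))) (.nd 133 (.lf 119 2 2) (.nd 133 (.lf 121 2 2) (.lf 133 2 2) (.nd 131 (.lf 114 2 2) (.lf 131 2 2) (.lf 115 2 2))) (.nd 130 (.nd 130 (.lf 130 2 2) (.lf 112 2 2) (.lf 124 2 2)) (.lf 118 2 2) (.lf 115 2 2)))) (.nd 105 (.lf 86 2 2) (.lf 105 2 2) (.lf 87 2 2)) (.lf 118 2 2)) (.nd 144 (.nd 124 (.nd 124 (.nd 114 (.lf 62 2 2) (.lf 90 2 2) (.lf 114 2 2)) (.lf 124 2 2) (.lf 100 2 2)) (.nd 112 (.lf 85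 2 2) (.nd 112 (.lf 110 2 2) (.nd 111 (.lf 97 2 2) (.lf 91 2 2) (.lf 111 2 2)) (.lf 112 2 2)) (.lf 111 2 2)) (.lf 120 2 2)) (.nd 114 (.lf 106 2 2) (.nd 111 (.lf 91 2 2) (.lf 111 2 2) (.nd 111 (.lf 110 2 2) (.nd 111 (.lf 106 2 2) (.nd 111 (.lf 111 2 2) (.lf 108 1 2) (.nd 108 (.lf 107 2 2) (.lf 94 1 2) (.lf 108 1 2))) (.lf 110 2 2)) (.lf 111 2 2))) (.nd 114 (.lf 110 2 2) (.lf 90 2 2) (.lf 114 2 2))) (.nd 144 (.nd 144 (.lf 120 2 2) (.nd 144 (.lf 144 2 2) (.lf 117 2 2) (.lf 122 2 2)) (.lf 128 2 2)) (.nd 141 (.nd 134 (.lf 127 2 2) (.nd 134 (.lf 110 2 2) (.lf 99 2 2) (.lf 134 2 2)) (.lf 110 2 2)) (.nd 141 (.lf 136 2 2) (.lf 141 2 2) (.nd 141 (.lf 134 2 2) (.nd 136 (.nd 136 (.lf 136 2 2) (.lf 128 1 2) (.lf 136 2 2)) (.lf 119 2 2) (.lf 131 2 2)) (.lf 141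 2 2))) (.nd 141 (.nd 141 (.lf 133 2 2) (.lf 140 2 2) (.lf 141 2 2)) (.lf 134 2 2) (.lf 134 2 2))) (.lf 134 2 2)))) (.nd 120 (.nd 90 (.lf 59 2 2) (.nd 60 (.lf 55 2 2) (.lf 60 2 2) (.lf 8 2 2)) (.lf 90 2 2)) (.nd 120 (.nd 119 (.nd 114 (.nd 114 (.lf 110 2 2) (.lf 114 2 2) (.nd 101 (.lf 101 2 2) (.lf 84 2 2) (.lf 91 2 2))) (.nd 108 (.lf 57 2 2) (.lf 108 2 2) (.lf 103 2 2)) (.nd 93 (.nd 93 (.lf 86 2 2) (.lf 83 1 2) (.lf 93 2 2)) (.lf 69 2 2) (.lf 76 2 2))) (.lf 97 2 2) (.nd 119 (.lf 98 2 2) (.lf 119 2 2) (.lf 94 2 2))) (.nd 120 (.nd 120 (.lf 114 1 2) (.nd 120 (.lf 119 1 2) (.nd 109 (.lf 89 1 2) (.lf 109 2 2) (.lf 101 1 2)) (.nd 120 (.lf 119 1 2) (.lf 119 2 2) (.nd 120 (.lf 106 2 2) (.lf 103 2 2) (.lf 120 1 2)))) (.lf 111 1 2)) (.lf 117 2 2) (.lf 114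 2 2)) (.nd 111 (.nd 109 (.nd 101 (.nd 101 (.lf 96 2 2) (.lf 101 1 2) (.lf 97 2 2)) (.lf 87 1 2) (.lf 90 1 2)) (.lf 109 2 2) (.nd 78 (.lf 78 2 2) (.lf 59 1 2) (.lf 54 2 2))) (.nd 111 (.lf 111 2 2) (.lf 85 2 2) (.lf 103 2 2)) (.nd 110 (.lf 110 1 2) (.lf 87 1 2) (.nd 101 (.nd 101 (.lf 99 1 2) (.lf 85 1 2) (.lf 101 2 2)) (.lf 97 1 2) (.lf 85 2 2))))) (.nd 93 (.lf 67 2 2) (.lf 64 2 2) (.nd 93 (.nd 91 (.lf 88 2 2) (.lf 87 1 2) (.nd 91 (.lf 83 2 2) (.lf 91 2 2) (.lf 73 2 2))) (.lf 84 2 2) (.nd 93 (.nd 93 (.lf 88 2 2) (.lf 93 2 2) (.lf 79 2 2)) (.lf 90 2 2) (.lf 71 2 2))))) (.nd 93 (.nd 86 (.nd 86 (.lf 71 2 2) (.lf 56 2 2) (.nd 86 (.lf 86 2 2) (.lf 60 2 2) (.lf 62 2 2))) (.nd 34 (.nd 29 (.lf 0 2 2) (.nd 29 (.lf 14 2 2) (.lf 29 2 2) (.lf 0 2 2)) (.lf 5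 2 2)) (.lf 5 2 2) (.lf 34 2 2)) (.lf 62 2 2)) (.nd 93 (.nd 93 (.lf 70 2 2) (.lf 93 2 2) (.nd 70 (.lf 35 2 2) (.nd 70 (.lf 55 2 2) (.lf 70 2 2) (.lf 57 2 2)) (.lf 59 2 2))) (.nd 74 (.lf 69 2 2) (.lf 74 2 2) (.nd 51 (.lf 51 2 2) (.lf 42 2 2) (.nd 45 (.nd 45 (.lf 33 1 2) (.lf 45 2 2) (.lf 38 2 2)) (.lf 29 2 2) (.lf 30 2 2)))) (.nd 83 (.nd 60 (.nd 52 (.lf 29 2 2) (.lf 1 2 2) (.lf 52 2 2)) (.lf 29 2 2) (.lf 60 2 2)) (.lf 82 2 2) (.nd 83 (.lf 70 2 2) (.lf 78 2 2) (.lf 83 2 2)))) (.nd 64 (.nd 36 (.lf 19 2 2) (.nd 33 (.lf 33 2 2) (.lf 0 2 2) (.lf 3 2 2)) (.lf 36 2 2)) (.nd 64 (.nd 43 (.lf 26 2 2) (.nd 43 (.lf 29 2 2) (.lf 30 2 2) (.lf 43 2 2)) (.nd 41 (.lf 41 2 2) (.lf 25 2 2) (.lf 24 2 2))) (.nd 64 (.lf 55 2 2) (.lf 56 2 2) (.lf 64 2 2)) (.lf 60 2 2))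 (.nd 56 (.lf 34 2 2) (.lf 5 2 2) (.lf 56 2 2)))))

def t15_283 : Tr := (.nd 149 (.nd 118 (.nd 85 (.lf 64 3 1) (.lf 68 3 1) (.lf 85 3 1)) (.nd 87 (.nd 87 (.nd 87 (.lf 67 3 1) (.nd 87 (.lf 87 3 1) (.lf 77 3 1) (.lf 85 3 1)) (.lf 66 3 1)) (.lf 76 3 1) (.lf 61 3 1)) (.lf 36 3 1) (.lf 81 3 1)) (.nd 118 (.nd 101 (.nd 87 (.lf 65 3 1) (.lf 35 3 1) (.lf 87 3 1)) (.lf 86 3 1) (.nd 101 (.lf 101 3 1) (.lf 95 3 1) (.lf 95 3 1))) (.nd 95 (.lf 85 3 1) (.nd 95 (.lf 89 3 1) (.lf 95 3 1) (.lf 84 3 1)) (.lf 80 3 1)) (.nd 118 (.nd 116 (.nd 116 (.lf 101 3 1) (.lf 116 3 1) (.nd 116 (.lf 116 3 1) (.lf 91 2 1) (.lf 79 3 1))) (.nd 94 (.lf 82 3 1) (.lf 94 3 1) (.lf 93 3 1)) (.lf 114 3 1)) (.nd 110 (.nd 100 (.lf 49 3 1) (.nd 100 (.lf 100 3 1) (.lf 74 3 1) (.lf 89 3 1))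 (.lf 75 3 1)) (.lf 86 3 1) (.nd 110 (.lf 99 3 1) (.lf 110 3 1) (.lf 104 3 1))) (.lf 118 3 1)))) (.nd 149 (.nd 149 (.nd 149 (.nd 149 (.nd 134 (.lf 125 3 1) (.lf 110 3 1) (.lf 134 3 1)) (.nd 149 (.lf 137 3 1) (.lf 149 3 1) (.lf 117 3 1)) (.lf 125 3 1)) (.nd 133 (.lf 133 3 1) (.lf 125 3 1) (.lf 125 3 1)) (.lf 124 3 1)) (.nd 147 (.nd 147 (.nd 134 (.lf 123 3 1) (.lf 122 3 1) (.nd 134 (.lf 125 3 1) (.lf 125 3 1) (.lf 134 3 1))) (.nd 147 (.lf 130 3 1) (.lf 147 3 1) (.lf 137 3 1)) (.lf 131 3 1)) (.nd 131 (.lf 131 3 1) (.lf 99 3 1) (.lf 105 3 1)) (.lf 109 3 1)) (.nd 127 (.lf 122 3 1) (.lf 127 3 1) (.lf 108 3 1))) (.nd 125 (.lf 111 3 1) (.lf 125 3 1) (.nd 106 (.lf 88 3 1) (.lf 85 3 1) (.nd 106 (.lf 90 3 1) (.nd 106 (.nd 91 (.lf 84 3 1) (.lf 90 2 1) (.lf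 91 3 1)) (.nd 98 (.lf 89 3 1) (.lf 88 3 1) (.lf 98 3 1)) (.nd 106 (.lf 99 3 1) (.lf 91 2 1) (.nd 106 (.lf 100 3 1) (.lf 97 3 1) (.lf 106 3 1)))) (.nd 93 (.lf 85 3 1) (.lf 57 3 1) (.nd 93 (.lf 85 3 1) (.nd 93 (.lf 83 3 1) (.lf 93 2 1) (.lf 85 3 1)) (.lf 79 3 1)))))) (.nd 126 (.nd 117 (.lf 86 3 1) (.lf 117 3 1) (.lf 82 3 1)) (.nd 107 (.lf 107 3 1) (.lf 66 3 1) (.lf 91 3 1)) (.nd 126 (.nd 125 (.lf 124 3 1) (.nd 124 (.lf 110 3 1) (.nd 121 (.lf 100 3 1) (.nd 121 (.nd 120 (.lf 110 3 1) (.lf 116 3 1) (.lf 120 2 1)) (.lf 121 3 1) (.lf 118 3 1)) (.lf 106 3 1)) (.lf 124 3 1)) (.lf 125 3 1)) (.nd 125 (.lf 102 3 1) (.lf 125 3 1) (.lf 108 3 1)) (.nd 126 (.lf 102 3 1) (.lf 126 3 1) (.lf 112 3 1))))) (.nd 117 (.nd 65 (.nd 36 (.lf 30 3 1) (.lf 7 3 1) (.nd 36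 (.lf 27 3 1) (.lf 17 3 1) (.lf 36 3 1))) (.nd 60 (.lf 8 3 1) (.lf 36 3 1) (.nd 60 (.lf 45 3 1) (.lf 30 3 1) (.nd 60 (.lf 60 3 1) (.lf 29 3 1) (.lf 36 3 1)))) (.lf 65 3 1)) (.nd 117 (.lf 102 3 1) (.nd 117 (.lf 91 3 1) (.nd 117 (.lf 116 3 1) (.lf 103 3 1) (.nd 117 (.lf 91 3 1) (.lf 117 3 1) (.lf 102 3 1))) (.lf 93 3 1)) (.nd 87 (.nd 85 (.lf 75 3 1) (.lf 85 3 1) (.lf 78 3 1)) (.lf 87 3 1) (.lf 63 3 1))) (.nd 112 (.nd 67 (.lf 38 3 1) (.nd 38 (.lf 8 3 1) (.lf 38 3 1) (.lf 7 3 1)) (.lf 67 3 1)) (.lf 64 3 1) (.nd 112 (.lf 93 3 1) (.nd 112 (.lf 87 3 1) (.nd 112 (.lf 89 3 1) (.lf 86 3 1) (.lf 112 3 1)) (.lf 84 3 1)) (.lf 93 3 1)))))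

def t15_284 : Tr := (.nd 153 (.nd 153 (.nd 138 (.lf 114 1 2) (.lf 138 1 2) (.lf 115 1 2)) (.nd 153 (.nd 129 (.lf 125 1 2) (.lf 129 1 2) (.lf 121 1 2)) (.lf 127 1 2) (.lf 153 1 2)) (.lf 123 1 2)) (.nd 148 (.lf 103 1 2) (.lf 100 1 2) (.nd 148 (.lf 129 1 2) (.lf 129 1 2) (.nd 148 (.lf 123 1 2) (.nd 148 (.lf 124 1 2) (.lf 122 1 2) (.lf 148 1 2)) (.lf 120 1 2)))) (.nd 101 (.nd 96 (.lf 96 1 2) (.nd 44 (.lf 39 1 2) (.lf 27 1 2) (.lf 44 1 2)) (.lf 72 1 2)) (.nd 101 (.lf 84 1 2) (.nd 93 (.nd 70 (.lf 62 1 2) (.nd 39 (.nd 36 (.lf 27 1 2) (.lf 27 1 2) (.lf 36 1 2)) (.lf 39 1 2) (.lf 27 1 2)) (.lf 70 1 2)) (.lf 92 1 2) (.lf 93 1 2)) (.lf 101 1 2)) (.nd 72 (.nd 66 (.lf 66 1 2) (.lf 44 1 2) (.lf 27 1 2)) (.nd 43 (.nd 43 (.nd 43 (.lf 43 1 2) (.lf 31 1 2) (.lf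 27 1 2)) (.lf 27 1 2) (.lf 27 1 2)) (.nd 43 (.lf 38 1 2) (.nd 43 (.lf 27 1 2) (.lf 43 1 2) (.lf 27 1 2)) (.nd 34 (.lf 27 1 2) (.lf 34 1 2) (.lf 32 1 2))) (.lf 27 1 2)) (.lf 72 1 2))))

def t15_286 : Tr := (.nd 260 (.nd 228 (.nd 228 (.nd 198 (.lf 196 1 3) (.nd 174 (.lf 148 1 3) (.lf 174 1 3) (.lf 168 1 3)) (.nd 198 (.nd 176 (.lf 148 1 3) (.lf 176 1 3) (.lf 145 1 3)) (.lf 198 1 3) (.lf 146 1 3))) (.nd 228 (.lf 202 1 3) (.nd 200 (.lf 200 1 3) (.lf 196 1 3) (.nd 199 (.lf 183 1 3) (.nd 196 (.lf 187 3 5) (.lf 184 1 3) (.lf 196 3 5)) (.lf 199 1 3))) (.lf 228 1 3)) (.nd 213 (.nd 213 (.lf 196 1 3) (.nd 202 (.nd 181 (.lf 181 1 3) (.lf 160 1 3) (.lf 169 1 3)) (.lf 171 1 3) (.lf 202 1 3)) (.lf 213 1 3)) (.nd 189 (.lf 169 1 3) (.lf 164 1 3) (.nd 189 (.lf 189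 1 3) (.lf 175 1 3) (.lf 176 1 3))) (.nd 190 (.lf 190 1 3) (.lf 171 1 3) (.lf 172 1 3)))) (.nd 176 (.nd 176 (.lf 176 1 3) (.lf 168 1 3) (.lf 159 1 3)) (.nd 171 (.lf 147 1 3) (.lf 119 1 3) (.lf 171 1 3)) (.nd 147 (.lf 118 1 3) (.nd 141 (.lf 119 1 3) (.lf 141 1 3) (.lf 90 1 3)) (.nd 147 (.nd 138 (.lf 116 1 3) (.lf 130 1 3) (.lf 138 1 3)) (.nd 147 (.lf 147 1 3) (.lf 126 1 3) (.lf 125 1 3)) (.lf 128 1 3)))) (.nd 223 (.nd 175 (.lf 145 1 3) (.nd 142 (.lf 142 1 3) (.lf 105 1 3) (.lf 113 1 3)) (.lf 175 1 3)) (.nd 178 (.nd 178 (.nd 178 (.lf 175 1 3) (.nd 178 (.lf 173 1 3) (.nd 164 (.lf 132 1 3) (.lf 164 1 3) (.lf 141 1 3)) (.lf 178 1 3)) (.lf 155 1 3)) (.nd 162 (.lf 161 1 3) (.lf 152 1 3) (.nd 162 (.lf 162 1 3) (.nd 162 (.lf 162 1 3) (.lf 143 1 3) (.lf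 113 1 3)) (.lf 144 1 3))) (.nd 172 (.nd 172 (.lf 158 1 3) (.lf 172 1 3) (.nd 168 (.lf 168 1 3) (.lf 123 1 3) (.lf 144 1 3))) (.lf 168 1 3) (.lf 162 1 3))) (.lf 149 1 3) (.lf 149 1 3)) (.nd 223 (.lf 223 1 3) (.nd 204 (.lf 204 1 3) (.lf 182 1 3) (.lf 199 1 3)) (.nd 204 (.lf 204 1 3) (.lf 192 1 3) (.nd 195 (.lf 170 1 3) (.lf 195 1 3) (.lf 188 1 3)))))) (.nd 260 (.nd 236 (.nd 222 (.nd 202 (.lf 202 1 3) (.lf 171 1 3) (.lf 167 1 3)) (.lf 222 1 3) (.nd 202 (.lf 151 1 3) (.nd 202 (.lf 173 1 3) (.nd 188 (.lf 164 1 3) (.lf 188 1 3) (.lf 165 1 3)) (.lf 202 1 3)) (.lf 198 1 3))) (.nd 211 (.nd 199 (.lf 181 1 3) (.lf 176 1 3) (.nd 199 (.lf 181 1 3) (.nd 181 (.lf 170 1 3) (.nd 181 (.nd 181 (.lf 181 4 5) (.lf 168 1 3) (.lf 170 1 3)) (.lf 179 1 3) (.lf 164 1 3))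 (.lf 142 1 3)) (.lf 199 1 3))) (.nd 211 (.lf 204 1 3) (.nd 211 (.lf 209 1 3) (.lf 202 1 3) (.nd 211 (.nd 211 (.lf 207 3 5) (.lf 208 1 3) (.lf 211 1 3)) (.lf 202 1 3) (.lf 204 1 3))) (.nd 201 (.lf 190 1 3) (.lf 181 1 3) (.lf 201 1 3))) (.lf 196 1 3)) (.nd 236 (.nd 236 (.lf 194 1 3) (.lf 222 1 3) (.nd 236 (.lf 216 1 3) (.nd 236 (.lf 236 1 3) (.lf 220 1 3) (.lf 220 1 3)) (.nd 231 (.lf 208 1 3) (.lf 231 1 3) (.lf 207 1 3)))) (.lf 235 1 3) (.nd 230 (.nd 214 (.lf 193 1 3) (.lf 214 1 3) (.lf 169 1 3)) (.nd 230 (.nd 230 (.lf 230 1 3) (.nd 230 (.lf 230 1 3) (.lf 206 1 3) (.lf 207 1 3)) (.lf 220 1 3)) (.lf 220 1 3) (.lf 230 1 3)) (.lf 214 1 3)))) (.nd 260 (.lf 260 1 3) (.nd 238 (.lf 238 1 3) (.nd 233 (.lf 205 1 3) (.lf 191 1 3) (.lf 233 1 3)) (.lf 219 1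 3)) (.lf 258 1 3)) (.nd 237 (.lf 237 1 3) (.lf 213 1 3) (.lf 214 1 3))) (.nd 227 (.nd 198 (.lf 147 1 3) (.nd 198 (.nd 187 (.lf 187 1 3) (.nd 159 (.nd 159 (.lf 148 1 3) (.lf 159 1 3) (.lf 149 1 3)) (.lf 141 1 3) (.lf 140 1 3)) (.lf 172 1 3)) (.lf 198 1 3) (.lf 172 1 3)) (.lf 192 1 3)) (.nd 196 (.nd 179 (.lf 144 1 3) (.lf 161 1 3) (.lf 179 1 3)) (.nd 175 (.nd 166 (.lf 166 1 3) (.lf 113 1 3) (.lf 118 1 3)) (.lf 175 1 3) (.lf 118 1 3)) (.lf 196 1 3)) (.lf 227 1 3)))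

def t15_289 : Tr := (.nd 188 (.nd 188 (.nd 188 (.lf 180 1 1) (.nd 188 (.lf 187 1 1) (.nd 188 (.lf 185 1 1) (.lf 188 1 1) (.nd 187 (.lf 173 1 1) (.lf 187 1 1) (.lf 185 2 3))) (.nd 186 (.lf 164 1 1) (.nd 186 (.lf 185 2 3) (.lf 186 1 1) (.lf 170 2 3)) (.lf 165 1 1))) (.nd 163 (.nd 129 (.lf 129 1 1) (.lf 100 1 1) (.lf 124 1 1)) (.lf 163 1 1) (.lf 159 1 1))) (.nd 188 (.lf 171 1 1) (.nd 161 (.nd 161 (.lf 153 1 1) (.lf 161 1 1) (.lf 161 1 1)) (.nd 148 (.lf 148 1 1) (.lf 129 1 1) (.lf 128 1 1)) (.lf 151 1 1)) (.nd 188 (.lf 188 1 1) (.lf 182 1 1) (.nd 188 (.lf 146 1 1) (.lf 172 1 1) (.lf 188 1 1)))) (.nd 188 (.nd 188 (.nd 188 (.nd 186 (.lf 165 2 3) (.nd 178 (.lf 163 2 3) (.nd 178 (.lf 176 1 3) (.lf 178 2 3) (.lf 162 2 3)) (.lf 138 2 3)) (.lf 186 1 1))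 (.lf 188 1 1) (.lf 188 1 1)) (.nd 188 (.nd 188 (.lf 173 1 1) (.lf 188 1 1) (.lf 172 2 3)) (.lf 188 1 1) (.lf 181 2 3)) (.lf 186 1 1)) (.nd 185 (.lf 185 1 1) (.lf 171 1 1) (.lf 185 2 3)) (.nd 186 (.nd 168 (.lf 145 2 3) (.nd 163 (.lf 155 2 3) (.lf 163 2 3) (.lf 160 2 3)) (.lf 168 2 3)) (.lf 168 1 1) (.nd 186 (.lf 160 1 1) (.lf 186 2 3) (.lf 171 1 1))))) (.nd 179 (.nd 179 (.lf 157 1 1) (.nd 158 (.nd 158 (.nd 158 (.lf 158 1 1) (.lf 158 1 1) (.nd 156 (.lf 154 2 3) (.lf 156 1 1) (.lf 142 1 1))) (.nd 157 (.lf 157 1 1) (.nd 135 (.lf 99 1 1) (.lf 135 1 1) (.lf 124 1 1)) (.lf 129 1 1)) (.nd 158 (.nd 139 (.lf 118 1 1) (.lf 121 1 1) (.lf 139 1 1)) (.lf 158 1 1) (.lf 144 1 1))) (.nd 128 (.lf 118 1 1) (.nd 128 (.lf 114 2 3) (.lf 128 1 1) (.lf 128 1 1)) (.lf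 114 1 1)) (.lf 144 1 1)) (.nd 179 (.lf 156 1 1) (.lf 179 1 1) (.lf 164 1 1))) (.nd 150 (.nd 99 (.lf 99 1 1) (.lf 70 1 1) (.lf 92 1 1)) (.lf 150 1 1) (.nd 125 (.nd 101 (.lf 73 1 1) (.lf 70 1 1) (.lf 101 1 1)) (.lf 96 1 1) (.nd 125 (.nd 123 (.lf 119 1 1) (.lf 119 2 3) (.lf 123 1 1)) (.lf 125 1 1) (.lf 125 1 1)))) (.nd 148 (.nd 124 (.lf 102 1 1) (.lf 124 1 1) (.nd 96 (.lf 86 1 1) (.lf 54 1 1) (.lf 96 1 1))) (.nd 127 (.lf 127 1 1) (.lf 70 1 1) (.lf 113 1 1)) (.nd 148 (.lf 148 1 1) (.lf 133 1 1) (.lf 130 1 1)))) (.nd 180 (.nd 180 (.lf 150 1 1) (.lf 180 1 1) (.lf 165 1 1)) (.nd 128 (.nd 128 (.lf 120 1 1) (.lf 111 1 1) (.lf 128 1 1)) (.lf 123 1 1) (.lf 99 1 1)) (.nd 175 (.nd 127 (.nd 94 (.lf 65 1 1) (.lf 94 1 1) (.lf 57 1 1)) (.nd 127 (.lf 102 1 1) (.lf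 127 1 1) (.nd 105 (.lf 84 1 1) (.lf 105 1 1) (.lf 72 1 1))) (.lf 97 1 1)) (.lf 130 1 1) (.nd 175 (.nd 156 (.nd 151 (.nd 151 (.nd 151 (.lf 151 1 1) (.lf 151 1 1) (.lf 151 1 1)) (.lf 147 1 1) (.lf 138 1 1)) (.lf 137 1 1) (.lf 145 1 1)) (.lf 156 1 1) (.lf 133 1 1)) (.lf 156 1 1) (.lf 175 1 1)))))

def t15_290 : Tr := (.nd 206 (.nd 194 (.nd 194 (.lf 194 3 2) (.nd 183 (.lf 183 3 2) (.lf 142 3 2) (.nd 164 (.nd 162 (.lf 157 3 2) (.lf 162 3 2) (.nd 110 (.lf 81 3 2) (.nd 110 (.lf 93 3 2) (.lf 110 3 2) (.lf 102 3 2)) (.lf 105 3 2))) (.lf 164 3 2) (.lf 146 3 2))) (.lf 188 3 2)) (.nd 168 (.nd 168 (.lf 155 3 2) (.lf 168 3 2) (.nd 164 (.lf 157 3 2) (.nd 137 (.nd 137 (.lf 131 3 2) (.lf 137 3 2) (.nd 123 (.lf 123 3 2) (.lf 121 3 2) (.lf 103 3 2))) (.lf 104 3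 2) (.lf 127 3 2)) (.nd 164 (.lf 153 3 2) (.nd 147 (.nd 128 (.lf 110 3 2) (.lf 122 3 2) (.lf 128 3 2)) (.lf 146 3 2) (.lf 147 2 2)) (.lf 164 3 2)))) (.nd 160 (.lf 111 3 2) (.nd 160 (.lf 151 3 2) (.lf 160 3 2) (.nd 136 (.nd 107 (.lf 101 3 2) (.lf 107 3 2) (.lf 81 3 2)) (.lf 136 3 2) (.lf 131 3 2))) (.lf 141 3 2)) (.lf 142 3 2)) (.lf 191 3 2)) (.nd 206 (.nd 171 (.nd 145 (.lf 110 3 2) (.lf 116 3 2) (.nd 145 (.lf 145 3 2) (.lf 128 3 2) (.nd 130 (.nd 114 (.lf 106 3 2) (.lf 83 3 2) (.lf 114 3 2)) (.lf 121 3 2) (.lf 130 3 2)))) (.nd 170 (.nd 142 (.nd 135 (.lf 133 3 2) (.lf 107 3 2) (.lf 135 3 2)) (.lf 134 3 2) (.lf 142 3 2)) (.nd 156 (.nd 123 (.lf 115 3 2) (.nd 109 (.nd 109 (.lf 88 3 2) (.lf 109 3 2) (.lf 88 3 2)) (.lf 81 3 2) (.nd 101 (.lf 50 3 2) (.lf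 79 3 2) (.lf 101 3 2))) (.lf 123 3 2)) (.nd 148 (.lf 114 3 2) (.lf 138 3 2) (.lf 148 3 2)) (.nd 156 (.nd 147 (.lf 125 3 2) (.lf 147 3 2) (.lf 146 3 2)) (.lf 156 3 2) (.lf 154 3 2))) (.lf 170 3 2)) (.nd 171 (.nd 127 (.lf 127 3 2) (.lf 111 3 2) (.lf 114 3 2)) (.lf 171 3 2) (.lf 147 3 2))) (.nd 174 (.lf 166 3 2) (.nd 156 (.nd 116 (.nd 87 (.lf 79 3 2) (.lf 87 3 2) (.lf 59 3 2)) (.lf 116 3 2) (.lf 109 3 2)) (.lf 149 3 2) (.lf 156 3 2)) (.nd 174 (.nd 159 (.lf 137 3 2) (.lf 159 3 2) (.nd 141 (.lf 115 3 2) (.lf 141 3 2) (.lf 121 3 2))) (.nd 171 (.nd 148 (.lf 127 3 2) (.lf 148 3 2) (.nd 147 (.lf 143 3 2) (.lf 127 3 2) (.lf 147 3 2))) (.lf 167 3 2) (.nd 171 (.lf 126 3 2) (.nd 134 (.lf 111 3 2) (.lf 134 3 2) (.lf 109 3 2)) (.lf 171 3 2))) (.nd 174 (.nd 141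 (.nd 127 (.lf 112 3 2) (.lf 127 3 2) (.lf 84 3 2)) (.nd 141 (.lf 124 3 2) (.lf 112 3 2) (.lf 141 3 2)) (.lf 112 3 2)) (.lf 174 3 2) (.lf 157 3 2)))) (.lf 206 3 2)) (.nd 179 (.nd 177 (.lf 177 3 2) (.lf 171 3 2) (.nd 162 (.lf 162 3 2) (.nd 139 (.nd 106 (.lf 61 3 2) (.lf 106 3 2) (.lf 92 3 2)) (.lf 115 3 2) (.lf 139 3 2)) (.lf 130 3 2))) (.lf 154 3 2) (.nd 179 (.nd 165 (.lf 165 3 2) (.nd 114 (.nd 114 (.lf 114 3 2) (.lf 106 3 2) (.nd 97 (.lf 69 3 2) (.lf 97 3 2) (.lf 93 3 2))) (.lf 109 3 2) (.lf 85 3 2)) (.lf 160 3 2)) (.lf 179 3 2) (.nd 163 (.nd 163 (.nd 143 (.nd 132 (.lf 109 3 2) (.lf 96 3 2) (.lf 132 3 2)) (.lf 129 3 2) (.lf 143 3 2)) (.lf 150 3 2) (.lf 163 3 2)) (.lf 133 3 2) (.lf 126 3 2)))))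

def t15_292 : Tr := (.nd 178 (.nd 178 (.nd 163 (.nd 163 (.nd 163 (.nd 163 (.lf 158 1 1) (.lf 159 2 1) (.lf 163 1 1)) (.nd 154 (.nd 153 (.lf 133 2 1) (.lf 151 2 1) (.nd 153 (.lf 153 1 1) (.lf 153 1 1) (.lf 151 2 1))) (.nd 152 (.lf 152 1 1) (.lf 144 2 1) (.lf 151 1 1)) (.lf 154 1 1)) (.nd 163 (.lf 161 1 1) (.lf 156 1 1) (.lf 163 1 1))) (.nd 146 (.nd 146 (.lf 146 1 1) (.lf 143 2 1) (.lf 138 2 1)) (.lf 143 1 1) (.nd 136 (.lf 135 1 1) (.lf 134 1 1) (.nd 136 (.lf 136 1 1) (.lf 135 1 1) (.nd 136 (.lf 121 1 1) (.nd 131 (.lf 131 1 1) (.lf 121 2 1) (.lf 86 1 1)) (.lf 136 1 1))))) (.nd 156 (.nd 156 (.lf 156 2 1) (.nd 146 (.lf 143 2 1) (.lf 146 2 1) (.lf 146 1 1)) (.nd 146 (.nd 146 (.lf 138 2 1) (.lf 146 1 1) (.lf 142 2 1)) (.lf 143 2 1) (.lf 141 1 1)))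 (.lf 141 1 1) (.lf 142 1 1))) (.nd 125 (.lf 121 2 1) (.nd 125 (.nd 120 (.lf 105 2 1) (.nd 120 (.lf 120 2 1) (.lf 120 1 1) (.lf 119 2 1)) (.lf 113 1 1)) (.lf 125 1 1) (.lf 89 1 1)) (.nd 121 (.lf 121 2 1) (.lf 93 2 1) (.lf 106 1 1))) (.nd 136 (.lf 118 1 1) (.lf 118 1 1) (.nd 136 (.lf 98 1 1) (.lf 136 1 1) (.lf 136 1 1)))) (.nd 178 (.nd 178 (.nd 178 (.nd 178 (.nd 178 (.lf 165 1 1) (.lf 162 1 1) (.nd 178 (.lf 177 1 1) (.lf 176 1 1) (.nd 178 (.lf 177 1 1) (.lf 178 2 1) (.lf 171 1 1)))) (.lf 163 1 1) (.nd 176 (.lf 156 1 1) (.lf 176 2 1) (.lf 167 1 1))) (.nd 174 (.nd 174 (.lf 167 2 1) (.lf 162 2 1) (.lf 174 1 1)) (.lf 165 2 1) (.lf 174 1 1)) (.lf 178 1 1)) (.lf 158 1 1) (.nd 172 (.lf 149 1 1) (.nd 172 (.lf 172 1 1) (.lf 155 1 1) (.lf 153 1 1)) (.lf 170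 1 1))) (.nd 156 (.nd 122 (.nd 122 (.lf 117 1 1) (.lf 120 1 1) (.lf 122 2 1)) (.lf 121 1 1) (.lf 95 1 1)) (.nd 136 (.lf 117 1 1) (.lf 123 1 1) (.nd 136 (.lf 129 1 1) (.lf 126 1 1) (.nd 136 (.lf 136 1 1) (.lf 134 1 1) (.lf 121 1 1)))) (.nd 156 (.nd 139 (.nd 120 (.lf 119 1 1) (.lf 106 1 1) (.lf 120 2 1)) (.lf 139 1 1) (.nd 139 (.lf 139 1 1) (.lf 124 2 1) (.lf 124 2 1))) (.nd 134 (.nd 131 (.lf 94 2 1) (.lf 114 1 1) (.nd 131 (.lf 124 1 1) (.lf 131 2 1) (.lf 116 2 1))) (.nd 134 (.lf 134 2 1) (.lf 94 1 1) (.lf 124 1 1)) (.lf 122 2 1)) (.nd 156 (.nd 139 (.lf 139 1 1) (.nd 137 (.lf 131 2 1) (.lf 137 1 1) (.nd 135 (.lf 135 1 1) (.lf 135 2 1) (.lf 133 1 1))) (.lf 134 1 1)) (.nd 156 (.lf 153 1 1) (.lf 151 1 1) (.lf 156 1 1)) (.nd 156 (.nd 156 (.lf 121 2 1)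 (.lf 156 1 1) (.lf 151 2 1)) (.lf 149 2 1) (.lf 137 1 1))))) (.nd 152 (.nd 152 (.lf 146 1 1) (.nd 152 (.lf 151 2 1) (.lf 150 1 1) (.lf 152 1 1)) (.nd 150 (.lf 137 1 1) (.lf 138 1 1) (.lf 150 2 1))) (.lf 124 1 1) (.lf 152 1 1))) (.nd 152 (.nd 137 (.nd 118 (.lf 90 1 1) (.lf 118 1 1) (.lf 110 1 1)) (.nd 125 (.lf 88 1 1) (.lf 116 1 1) (.nd 125 (.lf 125 1 1) (.lf 110 1 1) (.nd 116 (.lf 114 1 1) (.lf 116 1 1) (.lf 114 2 1)))) (.nd 137 (.lf 128 1 1) (.lf 137 1 1) (.nd 131 (.nd 131 (.lf 119 2 1) (.nd 131 (.lf 130 1 1) (.lf 128 2 1) (.lf 131 2 1)) (.lf 123 2 1)) (.lf 124 1 1) (.lf 124 1 1)))) (.nd 151 (.lf 121 2 1) (.nd 151 (.lf 146 2 1) (.nd 146 (.lf 133 2 1) (.lf 146 2 1) (.nd 146 (.lf 142 1 1) (.lf 146 2 1) (.lf 139 2 1))) (.nd 151 (.lf 141 1 1) (.lf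 140 1 1) (.lf 151 2 1))) (.nd 151 (.nd 151 (.nd 151 (.lf 145 2 1) (.lf 142 2 1) (.lf 151 1 1)) (.lf 143 1 1) (.lf 146 1 1)) (.lf 123 2 1) (.lf 118 2 1))) (.nd 152 (.lf 144 1 1) (.nd 152 (.nd 152 (.lf 141 2 1) (.lf 140 2 1) (.nd 152 (.lf 149 2 1) (.lf 150 2 1) (.nd 152 (.lf 151 2 1) (.lf 145 1 1) (.lf 152 1 1)))) (.nd 148 (.lf 148 2 1) (.lf 143 1 1) (.lf 119 1 1)) (.nd 152 (.lf 145 1 1) (.nd 152 (.lf 152 2 1) (.lf 140 2 1) (.lf 151 1 1)) (.lf 151 1 1))) (.nd 121 (.lf 121 1 1) (.lf 118 1 1) (.lf 118 2 1))))) (.nd 164 (.nd 162 (.nd 159 (.nd 149 (.nd 146 (.nd 146 (.lf 139 2 1) (.nd 141 (.lf 141 1 1) (.lf 108 2 1) (.lf 137 2 1)) (.nd 146 (.lf 133 1 1) (.lf 146 2 1) (.lf 140 1 1))) (.lf 145 1 1) (.lf 144 1 1)) (.nd 142 (.nd 142 (.lf 139 2 1) (.lf 139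 2 1) (.lf 142 1 1)) (.lf 131 2 1) (.lf 130 2 1)) (.nd 149 (.nd 149 (.lf 127 1 1) (.lf 124 1 1) (.lf 149 2 1)) (.lf 125 1 1) (.lf 138 2 1))) (.nd 159 (.lf 154 1 1) (.lf 159 1 1) (.lf 147 1 1)) (.nd 145 (.lf 135 2 1) (.nd 145 (.nd 141 (.lf 141 2 1) (.lf 140 1 1) (.lf 141 2 1)) (.lf 120 1 1) (.lf 145 2 1)) (.lf 137 2 1))) (.nd 153 (.nd 153 (.lf 153 1 1) (.lf 142 1 1) (.lf 145 1 1)) (.nd 140 (.lf 140 1 1) (.lf 93 1 1) (.lf 130 1 1)) (.lf 142 1 1)) (.nd 162 (.lf 149 1 1) (.nd 162 (.nd 162 (.lf 159 2 1) (.nd 160 (.lf 158 1 1) (.lf 159 1 1) (.nd 160 (.lf 160 1 1) (.lf 159 1 1) (.lf 153 2 1))) (.lf 162 1 1)) (.nd 157 (.lf 157 2 1) (.lf 144 1 1) (.nd 153 (.lf 153 2 1) (.lf 137 2 1) (.lf 153 1 1))) (.nd 152 (.lf 147 1 1) (.nd 152 (.lf 144 1 1) (.lf 150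 2 1) (.lf 152 2 1)) (.nd 149 (.lf 118 1 1) (.lf 146 1 1) (.nd 149 (.lf 142 2 1) (.lf 149 1 1) (.lf 146 1 1))))) (.lf 149 1 1))) (.nd 164 (.lf 144 1 1) (.nd 162 (.nd 162 (.nd 151 (.lf 143 1 1) (.lf 115 1 1) (.nd 151 (.nd 151 (.lf 141 1 1) (.lf 151 2 1) (.lf 143 1 1)) (.lf 137 1 1) (.lf 143 1 1))) (.lf 147 1 1) (.lf 162 1 1)) (.nd 152 (.lf 151 1 1) (.lf 145 1 1) (.nd 152 (.nd 152 (.lf 152 1 1) (.nd 146 (.lf 142 1 1) (.lf 115 1 1) (.lf 146 2 1)) (.lf 141 1 1)) (.lf 145 1 1) (.lf 146 1 1))) (.nd 150 (.lf 150 1 1) (.nd 150 (.nd 143 (.lf 141 1 1) (.lf 141 1 1) (.nd 143 (.nd 143 (.lf 143 2 1) (.lf 143 1 1) (.lf 140 1 1)) (.lf 118 2 1) (.lf 121 1 1))) (.nd 150 (.lf 137 2 1) (.nd 150 (.lf 148 1 1) (.nd 150 (.lf 150 2 1) (.lf 150 1 1) (.lf 136 1 1)) (.lf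 112 1 1)) (.lf 147 1 1)) (.nd 150 (.lf 148 1 1) (.nd 150 (.lf 149 2 1) (.lf 146 2 1) (.lf 150 1 1)) (.lf 147 2 1))) (.lf 148 1 1))) (.nd 164 (.lf 117 1 1) (.nd 164 (.lf 146 1 1) (.lf 152 1 1) (.nd 164 (.lf 152 1 1) (.lf 142 1 1) (.nd 164 (.nd 164 (.lf 159 2 1) (.lf 164 1 1) (.nd 148 (.lf 148 1 1) (.lf 135 2 1) (.lf 133 2 1))) (.lf 160 1 1) (.lf 156 1 1)))) (.lf 146 1 1))) (.nd 159 (.nd 159 (.lf 159 1 1) (.lf 159 1 1) (.lf 148 1 1)) (.lf 133 1 1) (.lf 141 1 1))) (.nd 177 (.nd 170 (.nd 145 (.nd 139 (.lf 123 2 1) (.lf 124 2 1) (.nd 139 (.lf 139 2 1) (.lf 132 2 1) (.lf 115 1 1))) (.nd 145 (.nd 145 (.lf 115 2 1) (.lf 145 1 1) (.lf 145 1 1)) (.nd 145 (.lf 135 2 1) (.lf 137 2 1) (.nd 145 (.lf 145 1 1) (.lf 142 1 1) (.lf 144 2 1))) (.lf 141 1 1)) (.nd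 145 (.nd 145 (.lf 141 2 1) (.lf 140 2 1) (.lf 145 1 1)) (.lf 143 2 1) (.lf 128 2 1))) (.nd 169 (.nd 169 (.lf 158 2 1) (.lf 169 2 1) (.lf 165 2 1)) (.nd 134 (.lf 120 2 1) (.lf 118 2 1) (.nd 134 (.lf 122 1 1) (.lf 127 2 1) (.lf 134 2 1))) (.nd 145 (.lf 98 2 1) (.lf 145 2 1) (.nd 144 (.lf 120 2 1) (.lf 144 1 1) (.lf 135 2 1)))) (.nd 170 (.nd 170 (.nd 170 (.lf 170 2 1) (.lf 149 1 1) (.lf 168 1 1)) (.lf 161 2 1) (.lf 161 2 1)) (.lf 163 1 1) (.lf 160 1 1))) (.nd 176 (.nd 162 (.lf 146 2 1) (.lf 144 2 1) (.nd 162 (.lf 153 2 1) (.lf 160 2 1) (.nd 162 (.lf 160 2 1) (.lf 152 2 1) (.nd 162 (.lf 153 2 1) (.nd 162 (.nd 160 (.lf 147 2 1) (.lf 153 2 1) (.lf 160 1 1)) (.lf 156 2 1) (.lf 162 2 1)) (.lf 156 2 1))))) (.nd 169 (.nd 169 (.lf 146 2 1) (.nd 169 (.lf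 152 2 1) (.nd 169 (.nd 169 (.lf 161 2 1) (.lf 169 1 1) (.lf 150 2 1)) (.lf 162 2 1) (.lf 160 1 1)) (.lf 150 2 1)) (.nd 152 (.nd 152 (.lf 144 2 1) (.lf 147 1 1) (.nd 152 (.lf 152 2 1) (.lf 139 1 1) (.lf 138 1 1))) (.lf 137 2 1) (.lf 125 1 1))) (.lf 124 2 1) (.nd 154 (.lf 126 2 1) (.nd 154 (.lf 152 2 1) (.lf 152 2 1) (.lf 154 1 1)) (.lf 123 2 1))) (.nd 176 (.nd 171 (.lf 159 2 1) (.lf 160 2 1) (.nd 171 (.lf 171 1 1) (.lf 171 1 1) (.nd 167 (.lf 161 2 1) (.lf 136 1 1) (.nd 167 (.lf 131 1 1) (.lf 136 1 1) (.nd 167 (.lf 160 1 1) (.lf 167 1 1) (.lf 143 2 1)))))) (.nd 167 (.lf 157 2 1) (.nd 160 (.nd 160 (.lf 150 1 1) (.lf 142 2 1) (.lf 160 1 1)) (.lf 159 1 1) (.lf 159 1 1)) (.nd 167 (.lf 150 2 1) (.lf 167 1 1) (.lf 151 2 1))) (.nd 176 (.nd 176 (.lf 176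 1 1) (.nd 176 (.lf 176 1 1) (.lf 176 1 1) (.nd 176 (.lf 164 2 1) (.lf 174 1 1) (.lf 176 2 1))) (.lf 176 1 1)) (.nd 176 (.lf 167 2 1) (.nd 176 (.lf 174 1 1) (.lf 173 2 1) (.nd 176 (.lf 160 1 1) (.lf 176 1 1) (.lf 174 2 1))) (.nd 176 (.lf 139 2 1) (.nd 176 (.lf 172 2 1) (.lf 176 1 1) (.lf 164 2 1)) (.lf 153 2 1))) (.nd 176 (.nd 176 (.nd 176 (.lf 161 2 1) (.lf 176 1 1) (.lf 176 2 1)) (.lf 173 2 1) (.nd 176 (.lf 166 1 1) (.lf 166 1 1) (.lf 176 2 1))) (.lf 164 2 1) (.nd 176 (.lf 156 2 1) (.nd 176 (.lf 176 2 1) (.lf 174 1 1) (.lf 176 1 1)) (.lf 167 2 1)))))) (.nd 177 (.nd 171 (.nd 166 (.lf 144 1 1) (.lf 166 2 1) (.lf 144 2 1)) (.nd 171 (.lf 164 2 1) (.nd 171 (.lf 171 2 1) (.lf 163 2 1) (.nd 170 (.lf 170 1 1) (.lf 168 2 1) (.lf 169 2 1))) (.lf 138 2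 1)) (.nd 155 (.lf 145 1 1) (.nd 153 (.lf 148 1 1) (.nd 144 (.nd 144 (.lf 144 1 1) (.lf 139 2 1) (.lf 136 2 1)) (.lf 137 2 1) (.lf 144 1 1)) (.nd 153 (.lf 143 1 1) (.lf 153 2 1) (.lf 148 1 1))) (.nd 155 (.lf 119 1 1) (.nd 155 (.lf 142 1 1) (.lf 153 1 1) (.nd 155 (.lf 155 1 1) (.lf 152 1 1) (.lf 155 2 1))) (.lf 146 1 1)))) (.nd 177 (.nd 177 (.nd 177 (.nd 171 (.lf 171 1 1) (.lf 169 2 1) (.lf 169 2 1)) (.lf 177 1 1) (.lf 171 1 1)) (.lf 166 1 1) (.lf 154 1 1)) (.nd 157 (.lf 157 1 1) (.nd 155 (.lf 149 1 1) (.nd 155 (.lf 147 1 1) (.nd 155 (.lf 149 2 1) (.lf 146 2 1) (.lf 155 1 1)) (.lf 147 2 1)) (.nd 149 (.lf 147 1 1) (.nd 149 (.lf 149 1 1) (.lf 118 2 1) (.lf 148 2 1)) (.lf 149 1 1))) (.nd 156 (.lf 140 1 1) (.lf 132 1 1) (.nd 156 (.lf 156 1 1) (.nd 156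 (.lf 156 1 1) (.lf 121 2 1) (.nd 149 (.lf 130 2 1) (.lf 135 2 1) (.lf 149 1 1))) (.lf 149 1 1)))) (.nd 172 (.nd 172 (.nd 172 (.lf 168 1 1) (.lf 172 2 1) (.lf 156 1 1)) (.nd 172 (.lf 164 1 1) (.lf 139 2 1) (.nd 172 (.lf 172 2 1) (.nd 170 (.lf 169 1 1) (.lf 170 2 1) (.lf 169 2 1)) (.lf 164 2 1))) (.lf 171 2 1)) (.nd 161 (.nd 154 (.lf 139 2 1) (.nd 154 (.lf 154 1 1) (.lf 151 2 1) (.lf 151 1 1)) (.nd 139 (.lf 136 1 1) (.lf 139 2 1) (.lf 111 2 1))) (.nd 159 (.lf 158 1 1) (.lf 159 2 1) (.lf 157 1 1)) (.nd 161 (.lf 161 1 1) (.nd 161 (.nd 160 (.lf 140 2 1) (.lf 160 1 1) (.lf 160 2 1)) (.lf 157 1 1) (.nd 161 (.lf 149 1 1) (.lf 151 1 1) (.lf 161 2 1))) (.lf 149 1 1))) (.nd 160 (.nd 160 (.lf 149 1 1) (.lf 147 1 1) (.nd 160 (.lf 159 2 1) (.nd 155 (.lf 153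 1 1) (.lf 155 1 1) (.lf 140 2 1)) (.lf 160 1 1))) (.nd 158 (.lf 134 1 1) (.nd 158 (.lf 158 1 1) (.lf 141 1 1) (.nd 154 (.lf 154 1 1) (.lf 143 2 1) (.lf 153 1 1))) (.lf 154 1 1)) (.lf 160 1 1)))) (.nd 176 (.lf 160 1 1) (.nd 176 (.lf 168 1 1) (.nd 167 (.lf 165 2 1) (.lf 165 1 1) (.nd 167 (.lf 137 2 1) (.nd 165 (.nd 165 (.lf 162 1 1) (.lf 165 2 1) (.lf 163 2 1)) (.lf 159 2 1) (.nd 155 (.lf 150 2 1) (.lf 155 1 1) (.lf 151 2 1))) (.lf 167 1 1))) (.nd 176 (.lf 158 1 1) (.lf 176 1 1) (.nd 172 (.lf 160 2 1) (.lf 172 1 1) (.lf 155 2 1)))) (.lf 168 1 1)))))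

def t15_293 : Tr := (.nd 285 (.nd 285 (.nd 281 (.lf 272 1 4) (.lf 281 1 4) (.nd 250 (.nd 240 (.nd 191 (.nd 191 (.lf 181 1 4) (.lf 191 1 4) (.lf 172 1 4)) (.lf 162 1 4) (.lf 184 1 4)) (.lf 240 1 4) (.lf 219 1 4)) (.lf 219 1 4) (.lf 250 1 4))) (.nd 285 (.lf 261 1 4) (.lf 285 1 4) (.nd 251 (.lf 225 1 4) (.nd 251 (.nd 223 (.lf 215 1 4) (.lf 223 1 4) (.nd 204 (.lf 189 1 2) (.lf 189 1 4) (.nd 204 (.lf 182 1 2) (.lf 204 1 4) (.lf 189 1 2)))) (.lf 251 1 4) (.lf 234 1 2)) (.lf 224 1 2))) (.nd 266 (.nd 266 (.nd 266 (.lf 266 1 4) (.lf 264 1 4) (.nd 256 (.nd 232 (.lf 232 1 4) (.lf 195 1 2) (.lf 232 1 4)) (.lf 245 1 4) (.lf 256 2 4))) (.lf 251 1 4) (.lf 250 1 4)) (.lf 247 1 4) (.lf 262 1 4))) (.nd 254 (.nd 223 (.lf 223 1 4) (.lf 198 1 4) (.nd 223 (.nd 223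 (.lf 211 1 4) (.nd 189 (.lf 184 1 4) (.lf 189 1 4) (.lf 160 1 4)) (.lf 223 1 4)) (.nd 166 (.lf 166 1 4) (.lf 157 1 4) (.lf 136 1 4)) (.lf 193 1 4))) (.lf 254 1 4) (.lf 246 1 4)) (.lf 276 1 4))

def t15_295 : Tr := (.nd 337 (.lf 325 2 5) (.lf 337 2 5) (.nd 315 (.nd 309 (.nd 281 (.nd 250 (.lf 226 2 5) (.nd 222 (.lf 215 2 5) (.lf 222 2 5) (.lf 172 2 5)) (.lf 250 2 5)) (.lf 281 2 5) (.lf 244 2 5)) (.lf 282 2 5) (.lf 309 2 5)) (.lf 315 2 5) (.lf 315 2 5)))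

def t15_298 : Tr := (.nd 183 (.nd 183 (.nd 183 (.nd 150 (.lf 150 1 1) (.lf 136 1 1) (.lf 121 1 1)) (.nd 166 (.lf 139 1 1) (.nd 166 (.lf 151 1 1) (.nd 166 (.nd 166 (.lf 148 1 1) (.lf 166 1 1) (.lf 166 1 1)) (.lf 162 1 1) (.lf 151 1 1)) (.lf 138 1 1)) (.lf 149 1 1)) (.nd 183 (.lf 172 1 1) (.lf 179 1 1) (.nd 183 (.nd 183 (.lf 176 1 1) (.nd 183 (.lf 183 1 1) (.lf 177 1 1) (.lf 178 1 1)) (.lf 170 1 1)) (.lf 163 1 1) (.lf 164 1 1)))) (.nd 180 (.nd 157 (.lf 136 1 1) (.lf 156 1 1) (.lf 157 1 1)) (.nd 180 (.nd 180 (.lf 144 1 1) (.lf 180 1 1) (.nd 147 (.lf 136 1 1) (.nd 147 (.lf 143 1 1) (.lf 141 1 1) (.lf 147 1 1)) (.lf 133 1 1))) (.lf 143 1 1) (.lf 135 1 1)) (.nd 176 (.nd 173 (.lf 173 1 1) (.lf 159 1 1) (.lf 152 1 1)) (.nd 176 (.lf 176 1 1) (.lf 175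 1 1) (.lf 173 1 1)) (.lf 167 1 1))) (.nd 168 (.lf 146 1 1) (.nd 150 (.lf 150 1 1) (.lf 124 1 1) (.lf 130 1 1)) (.lf 168 1 1))) (.nd 165 (.lf 165 1 1) (.nd 158 (.lf 158 1 1) (.nd 127 (.nd 99 (.lf 91 1 1) (.nd 70 (.lf 39 1 1) (.lf 40 1 1) (.lf 70 1 1)) (.lf 99 1 1)) (.lf 96 1 1) (.lf 127 1 1)) (.nd 122 (.lf 91 1 1) (.lf 92 1 1) (.lf 122 1 1))) (.nd 125 (.nd 118 (.nd 118 (.lf 88 1 1) (.nd 118 (.lf 92 1 1) (.lf 94 1 1) (.lf 118 1 1)) (.lf 103 1 1)) (.lf 66 1 1) (.lf 94 1 1)) (.nd 125 (.nd 115 (.lf 115 1 1) (.lf 92 1 1) (.lf 114 1 1)) (.lf 125 1 1) (.lf 106 1 1)) (.lf 96 1 1))) (.nd 175 (.nd 151 (.lf 151 1 1) (.nd 122 (.lf 67 1 1) (.lf 122 1 1) (.lf 112 1 1)) (.lf 151 1 1)) (.nd 130 (.lf 130 1 1) (.lf 96 1 1) (.lf 123 1 1)) (.nd 175 (.nd 165 (.lf 149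 1 1) (.lf 131 1 1) (.lf 165 1 1)) (.nd 175 (.nd 175 (.lf 171 1 1) (.nd 175 (.lf 152 1 1) (.lf 159 1 1) (.lf 175 1 1)) (.lf 163 1 1)) (.lf 157 1 1) (.lf 164 1 1)) (.lf 162 1 1))))

def t15_301 : Tr := (.nd 270 (.nd 251 (.nd 229 (.nd 200 (.lf 186 1 5) (.nd 200 (.lf 200 1 5) (.nd 191 (.lf 191 1 5) (.lf 186 1 5) (.lf 186 1 5)) (.nd 186 (.nd 186 (.lf 162 1 1) (.lf 186 1 5) (.lf 167 1 1)) (.lf 167 1 1) (.lf 186 1 5))) (.nd 194 (.nd 194 (.nd 194 (.lf 194 1 5) (.nd 194 (.lf 194 1 5) (.lf 171 1 1) (.lf 191 1 1)) (.lf 194 1 5)) (.nd 193 (.lf 163 1 1) (.lf 162 1 1) (.lf 193 1 1)) (.lf 194 1 5)) (.lf 194 1 5) (.lf 194 1 5))) (.lf 224 1 5) (.lf 229 1 5)) (.nd 251 (.nd 251 (.lf 227 1 5) (.nd 229 (.lf 219 1 1) (.nd 229 (.lf 228 1 5) (.nd 229 (.nd 220 (.lf 185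 1 1) (.lf 220 1 1) (.lf 189 1 1)) (.lf 229 1 1) (.lf 215 1 1)) (.nd 225 (.nd 217 (.lf 181 1 1) (.lf 194 1 1) (.lf 217 1 1)) (.lf 225 1 5) (.lf 214 1 1))) (.lf 219 1 1)) (.lf 251 1 5)) (.nd 233 (.lf 233 1 1) (.lf 215 1 1) (.nd 212 (.nd 182 (.lf 130 1 1) (.lf 177 1 1) (.lf 182 1 1)) (.lf 212 1 1) (.nd 181 (.nd 181 (.lf 166 1 1) (.lf 181 1 1) (.lf 159 1 1)) (.lf 152 1 1) (.lf 150 1 1)))) (.lf 227 1 1)) (.nd 234 (.nd 228 (.lf 195 1 5) (.nd 193 (.lf 193 1 5) (.lf 178 1 1) (.nd 181 (.lf 181 1 1) (.lf 124 1 1) (.lf 167 1 1))) (.nd 228 (.lf 203 1 5) (.nd 206 (.lf 186 1 5) (.lf 186 1 5) (.lf 206 1 5)) (.nd 228 (.nd 228 (.lf 214 1 5) (.lf 228 1 5) (.lf 204 1 5)) (.lf 203 1 5) (.lf 225 1 5)))) (.nd 234 (.lf 182 1 1) (.nd 229 (.lf 181 1 1) (.nd 184 (.lf 184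 1 1) (.lf 155 1 1) (.lf 155 1 1)) (.nd 229 (.lf 229 1 1) (.nd 210 (.lf 205 1 1) (.lf 210 1 1) (.nd 187 (.lf 169 1 1) (.lf 182 1 1) (.lf 187 1 1))) (.lf 210 1 1))) (.nd 234 (.lf 234 1 1) (.nd 219 (.lf 195 1 1) (.lf 186 1 1) (.lf 219 1 1)) (.lf 204 1 1))) (.nd 231 (.nd 202 (.lf 186 1 5) (.lf 186 1 5) (.nd 202 (.lf 193 1 5) (.lf 193 1 5) (.lf 202 1 5))) (.nd 202 (.nd 202 (.nd 202 (.lf 202 1 5) (.lf 186 1 5) (.nd 187 (.lf 187 1 1) (.lf 186 1 5) (.lf 186 1 5))) (.lf 186 1 5) (.lf 183 1 1)) (.lf 186 1 5) (.lf 186 1 5)) (.nd 231 (.lf 231 1 5) (.nd 228 (.lf 228 1 1) (.lf 209 1 1) (.nd 208 (.lf 171 1 1) (.lf 208 1 1) (.lf 177 1 1))) (.nd 215 (.lf 215 1 1) (.nd 202 (.lf 202 1 1) (.lf 183 1 1) (.lf 182 1 1)) (.lf 205 1 1)))))) (.nd 255 (.nd 241 (.nd 241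 (.nd 228 (.nd 227 (.lf 201 1 5) (.lf 186 1 5) (.lf 227 1 5)) (.nd 209 (.lf 204 1 1) (.lf 209 1 1) (.lf 180 1 1)) (.lf 228 1 5)) (.lf 234 1 5) (.lf 241 1 5)) (.nd 216 (.nd 216 (.nd 216 (.lf 216 1 5) (.nd 209 (.lf 157 1 1) (.lf 209 1 1) (.lf 204 1 1)) (.lf 208 1 1)) (.nd 213 (.lf 204 1 5) (.nd 213 (.lf 182 1 1) (.lf 213 1 1) (.lf 183 1 1)) (.lf 207 1 5)) (.nd 194 (.nd 194 (.lf 186 1 5) (.lf 194 1 5) (.lf 186 1 5)) (.nd 186 (.nd 186 (.lf 186 1 5) (.lf 186 1 1) (.lf 171 1 1)) (.lf 186 1 5) (.lf 186 1 5)) (.lf 186 1 5))) (.nd 214 (.lf 186 1 5) (.lf 186 1 5) (.nd 214 (.lf 214 1 5) (.nd 187 (.lf 180 1 1) (.nd 186 (.lf 186 1 5) (.lf 168 1 1) (.lf 176 1 1)) (.lf 187 1 5)) (.nd 195 (.lf 186 1 5) (.lf 185 1 1) (.nd 195 (.lf 186 1 5) (.lf 186 1 5) (.lf 195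 1 5))))) (.lf 186 1 5)) (.nd 225 (.nd 225 (.lf 225 1 5) (.nd 225 (.lf 220 1 5) (.lf 224 1 5) (.nd 225 (.lf 202 1 5) (.lf 186 1 5) (.lf 225 1 5))) (.lf 206 1 5)) (.lf 203 1 5) (.lf 197 1 5))) (.nd 227 (.lf 200 1 5) (.nd 226 (.lf 202 1 5) (.lf 226 1 5) (.nd 197 (.nd 197 (.lf 197 1 5) (.lf 197 1 5) (.nd 197 (.lf 197 1 5) (.lf 169 1 1) (.lf 176 1 1))) (.nd 197 (.lf 197 1 5) (.lf 194 1 1) (.lf 165 1 1)) (.lf 196 1 1))) (.lf 227 1 1)) (.lf 255 1 1)) (.nd 270 (.nd 265 (.lf 251 1 1) (.nd 247 (.nd 230 (.lf 230 1 5) (.nd 225 (.nd 173 (.nd 173 (.lf 161 1 1) (.lf 173 1 1) (.lf 173 1 1)) (.lf 173 1 1) (.lf 173 1 1)) (.lf 225 1 1) (.lf 220 1 1)) (.lf 222 1 1)) (.lf 224 1 1) (.lf 247 1 1)) (.lf 265 1 1)) (.nd 270 (.lf 270 1 1) (.nd 269 (.nd 236 (.lf 199 1 1)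 (.lf 236 1 1) (.nd 227 (.nd 198 (.lf 168 1 1) (.nd 198 (.lf 176 1 1) (.lf 198 1 1) (.lf 173 1 1)) (.lf 165 1 1)) (.nd 227 (.nd 187 (.lf 187 1 1) (.lf 158 1 1) (.lf 165 1 1)) (.lf 227 1 1) (.lf 227 1 1)) (.lf 201 1 1))) (.lf 248 1 1) (.lf 269 1 5)) (.lf 265 1 1)) (.nd 258 (.lf 256 1 5) (.nd 254 (.lf 251 1 5) (.lf 254 1 1) (.nd 224 (.nd 198 (.lf 170 1 1) (.lf 198 1 1) (.lf 190 1 1)) (.lf 218 1 5) (.lf 224 1 5))) (.lf 258 1 1))))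

def t15_302 : Tr := (.nd 124 (.nd 124 (.nd 105 (.nd 101 (.nd 87 (.lf 35 1 2) (.nd 87 (.lf 57 1 2) (.lf 72 1 2) (.lf 87 1 2)) (.nd 82 (.lf 82 1 2) (.lf 37 1 2) (.lf 34 1 2))) (.nd 86 (.lf 57 1 2) (.lf 86 1 2) (.nd 55 (.lf 31 1 2) (.lf 55 1 2) (.lf 34 1 2))) (.nd 101 (.lf 95 1 2) (.lf 96 1 2) (.nd 101 (.lf 97 1 2) (.lf 95 1 2) (.lf 101 1 2)))) (.nd 91 (.nd 73 (.lf 65 1 2) (.lf 73 1 2) (.lf 56 1 2)) (.lf 78 1 2) (.nd 91 (.lf 91 1 2) (.lf 61 1 2) (.lf 60 1 2))) (.nd 105 (.nd 91 (.lf 60 1 2) (.lf 91 1 2) (.lf 62 1 2)) (.nd 92 (.lf 40 1 2) (.lf 87 1 2) (.nd 92 (.lf 77 1 2) (.lf 62 1 2) (.lf 92 1 2))) (.nd 105 (.lf 98 1 2) (.lf 105 1 2) (.nd 101 (.lf 101 1 2) (.nd 75 (.lf 41 1 2) (.lf 75 1 2) (.lf 71 1 2)) (.lf 72 1 2))))) (.nd 124 (.lf 103 1 2) (.nd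 124 (.nd 124 (.lf 124 1 2) (.lf 123 1 2) (.nd 123 (.lf 109 1 2) (.lf 118 1 2) (.lf 123 1 2))) (.nd 124 (.lf 124 1 2) (.lf 103 1 2) (.lf 104 1 2)) (.nd 122 (.nd 122 (.lf 112 1 2) (.lf 122 1 2) (.lf 113 1 2)) (.lf 112 1 2) (.lf 107 1 2))) (.nd 102 (.lf 102 1 2) (.lf 88 1 2) (.nd 86 (.lf 86 1 2) (.lf 69 1 2) (.lf 65 1 2)))) (.nd 115 (.lf 93 1 2) (.nd 115 (.lf 109 1 2) (.nd 110 (.lf 110 1 2) (.lf 84 1 2) (.lf 102 1 2)) (.lf 115 1 2)) (.nd 107 (.lf 91 1 2) (.nd 61 (.lf 32 1 2) (.lf 56 1 2) (.lf 61 1 2)) (.nd 107 (.lf 83 1 2) (.lf 89 1 2) (.nd 107 (.lf 107 1 2) (.lf 89 1 2) (.lf 87 1 2)))))) (.nd 118 (.nd 118 (.nd 118 (.lf 88 1 2) (.nd 118 (.lf 108 1 2) (.nd 118 (.lf 94 1 2) (.nd 118 (.lf 118 1 2) (.lf 91 1 2) (.lf 96 1 2)) (.lf 102 1 2)) (.lf 116 1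 2)) (.lf 98 1 2)) (.nd 92 (.lf 92 1 2) (.nd 87 (.lf 65 1 2) (.lf 35 1 2) (.lf 87 1 2)) (.lf 63 1 2)) (.nd 107 (.lf 79 1 2) (.lf 92 1 2) (.nd 107 (.nd 107 (.lf 104 1 2) (.lf 93 1 2) (.lf 107 1 2)) (.lf 92 1 2) (.lf 85 1 2)))) (.nd 96 (.nd 64 (.lf 64 1 2) (.lf 33 1 2) (.lf 34 1 2)) (.nd 96 (.lf 93 1 2) (.nd 96 (.nd 96 (.nd 83 (.lf 56 1 2) (.nd 48 (.lf 35 1 2) (.lf 48 1 2) (.lf 32 1 2)) (.lf 83 1 2)) (.lf 83 1 2) (.lf 96 1 2)) (.lf 91 1 2) (.lf 88 1 2)) (.nd 85 (.nd 85 (.lf 77 1 2) (.lf 85 1 2) (.lf 59 1 2)) (.lf 84 1 2) (.nd 83 (.lf 33 1 2) (.lf 75 1 2) (.lf 83 1 2)))) (.lf 69 1 2)) (.nd 67 (.nd 67 (.lf 57 1 2) (.lf 67 1 2) (.nd 48 (.lf 48 1 2) (.lf 34 1 2) (.lf 43 1 2))) (.lf 38 1 2) (.nd 60 (.lf 36 1 2) (.nd 60 (.lf 30 1 2) (.nd 60 (.lf 60 1 2)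 (.lf 34 1 2) (.lf 36 1 2)) (.lf 45 1 2)) (.lf 27 1 2)))) (.nd 95 (.nd 95 (.nd 86 (.nd 57 (.nd 49 (.lf 35 1 2) (.lf 34 1 2) (.lf 49 1 2)) (.lf 42 1 2) (.nd 57 (.lf 29 1 2) (.lf 30 1 2) (.lf 57 1 2))) (.nd 86 (.lf 86 1 2) (.nd 55 (.lf 27 1 2) (.lf 55 1 2) (.lf 27 1 2)) (.nd 56 (.lf 27 1 2) (.lf 51 1 2) (.nd 56 (.lf 27 1 2) (.lf 56 1 2) (.lf 41 1 2)))) (.nd 84 (.nd 84 (.lf 84 1 2) (.nd 67 (.lf 42 1 2) (.lf 55 1 2) (.lf 67 1 2)) (.lf 76 1 2)) (.nd 61 (.lf 61 1 2) (.lf 49 1 2) (.lf 27 1 2)) (.nd 60 (.lf 29 1 2) (.lf 31 1 2) (.lf 60 1 2)))) (.nd 90 (.nd 90 (.lf 87 1 2) (.nd 87 (.nd 78 (.lf 56 1 2) (.lf 78 1 2) (.lf 27 1 2)) (.lf 87 1 2) (.lf 56 1 2)) (.lf 90 1 2)) (.nd 62 (.lf 44 1 2) (.nd 62 (.lf 48 1 2) (.lf 62 1 2) (.lf 56 1 2)) (.nd 52 (.nd 52 (.lf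 52 1 2) (.lf 27 1 2) (.lf 41 1 2)) (.lf 51 1 2) (.lf 27 1 2))) (.nd 82 (.lf 82 1 2) (.lf 30 1 2) (.lf 61 1 2))) (.nd 95 (.nd 71 (.lf 57 1 2) (.lf 71 1 2) (.lf 55 1 2)) (.nd 95 (.nd 95 (.lf 81 1 2) (.lf 95 1 2) (.lf 76 1 2)) (.lf 95 1 2) (.lf 95 1 2)) (.nd 76 (.lf 76 1 2) (.lf 63 1 2) (.lf 35 1 2)))) (.nd 66 (.nd 66 (.nd 61 (.lf 44 1 2) (.nd 61 (.lf 61 1 2) (.lf 56 1 2) (.lf 57 1 2)) (.lf 51 1 2)) (.nd 60 (.lf 60 1 2) (.lf 55 1 2) (.lf 51 1 2)) (.nd 66 (.lf 56 1 2) (.lf 66 1 2) (.lf 52 1 2))) (.nd 64 (.nd 64 (.lf 33 1 2) (.lf 54 1 2) (.nd 64 (.lf 64 1 2) (.lf 46 1 2) (.lf 40 1 2))) (.lf 54 1 2) (.lf 27 1 2)) (.lf 57 1 2)) (.nd 95 (.nd 64 (.lf 64 1 2) (.lf 33 1 2) (.lf 38 1 2)) (.nd 95 (.nd 83 (.lf 64 1 2) (.nd 57 (.lf 57 1 2) (.lf 29 1 2) (.lf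 30 1 2)) (.nd 83 (.lf 65 1 2) (.lf 64 1 2) (.lf 83 1 2))) (.nd 61 (.lf 32 1 2) (.nd 56 (.lf 56 1 2) (.lf 27 1 2) (.lf 34 1 2)) (.lf 61 1 2)) (.lf 95 1 2)) (.nd 38 (.lf 29 1 2) (.lf 27 1 2) (.nd 38 (.lf 29 1 2) (.lf 29 1 2) (.nd 38 (.lf 27 1 2) (.lf 28 1 2) (.lf 38 1 2)))))))

def t15_304 : Tr := (.nd 258 (.nd 239 (.nd 239 (.lf 228 1 3) (.nd 220 (.lf 189 1 3) (.lf 196 1 3) (.lf 220 1 3)) (.nd 239 (.nd 231 (.lf 231 1 3) (.lf 204 1 3) (.nd 211 (.lf 188 1 3) (.lf 199 1 3) (.lf 211 1 3))) (.lf 230 1 3) (.lf 239 1 3))) (.lf 217 1 3) (.nd 239 (.lf 239 1 3) (.nd 225 (.lf 202 1 3) (.nd 225 (.lf 225 1 3) (.nd 209 (.lf 209 1 3) (.nd 200 (.lf 200 1 3) (.lf 177 1 3) (.lf 164 1 3)) (.lf 197 1 3)) (.lf 212 1 3)) (.lf 193 1 3)) (.lf 234 1 3))) (.nd 258 (.nd 258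 (.lf 258 1 3) (.lf 255 1 3) (.nd 237 (.lf 230 1 3) (.nd 235 (.lf 229 1 3) (.lf 232 1 3) (.nd 235 (.nd 230 (.lf 182 1 3) (.lf 230 1 3) (.nd 185 (.lf 156 1 3) (.lf 185 1 3) (.lf 156 1 3))) (.lf 183 1 3) (.lf 235 1 3))) (.lf 237 1 3))) (.lf 237 1 3) (.lf 234 1 3)) (.lf 239 1 3))

def t15_305 : Tr := (.nd 280 (.nd 227 (.lf 227 1 4) (.nd 197 (.nd 192 (.lf 144 1 4) (.lf 192 1 4) (.lf 147 1 4)) (.lf 145 1 4) (.nd 197 (.lf 182 1 4) (.lf 197 1 4) (.lf 167 1 4))) (.nd 196 (.lf 196 1 4) (.nd 157 (.lf 144 1 4) (.lf 141 1 4) (.nd 157 (.lf 157 1 4) (.lf 147 1 4) (.lf 150 1 4))) (.lf 167 1 4))) (.nd 232 (.lf 232 1 4) (.nd 201 (.nd 170 (.nd 170 (.lf 148 1 4) (.nd 170 (.nd 155 (.lf 155 1 4) (.lf 133 1 4) (.lf 155 1 4)) (.lf 170 1 4) (.lf 147 1 4)) (.lf 155 1 4))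 (.lf 139 1 4) (.lf 141 1 4)) (.nd 201 (.lf 186 1 4) (.lf 201 1 4) (.lf 179 1 4)) (.nd 171 (.nd 166 (.lf 133 1 4) (.lf 133 1 4) (.lf 166 1 4)) (.lf 133 1 4) (.lf 171 1 4))) (.lf 204 1 4)) (.nd 280 (.lf 256 1 4) (.lf 274 1 4) (.nd 280 (.lf 254 1 4) (.lf 280 1 4) (.nd 251 (.lf 251 1 4) (.nd 225 (.lf 190 1 4) (.nd 196 (.lf 156 1 4) (.lf 196 1 4) (.lf 196 1 4)) (.lf 225 1 4)) (.lf 250 1 4)))))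

def t15_307 : Tr := (.nd 141 (.nd 101 (.nd 96 (.nd 44 (.lf 15 1 1) (.lf 44 1 1) (.lf 39 1 1)) (.nd 72 (.lf 72 1 1) (.lf 43 1 1) (.lf 46 1 1)) (.lf 96 1 1)) (.nd 101 (.nd 93 (.nd 92 (.lf 92 1 1) (.lf 40 1 1) (.lf 70 1 1)) (.nd 93 (.nd 93 (.lf 69 1 1) (.lf 77 1 1) (.lf 93 1 1)) (.lf 82 1 1) (.lf 86 1 1)) (.lf 70 1 1)) (.nd 101 (.lf 75 1 1) (.lf 101 1 1) (.lf 75 1 1)) (.lf 84 1 1)) (.nd 72 (.nd 43 (.nd 43 (.lf 38 1 1) (.lf 43 1 1) (.nd 34 (.lf 32 1 1) (.lf 5 1 1) (.lf 34 1 1))) (.nd 14 (.lf 14 1 1) (.nd 12 (.lf 2 1 1) (.lf 0 1 1) (.nd 12 (.lf 2 1 1) (.lf 12 1 1) (.lf 0 1 1))) (.lf 5 1 1)) (.nd 43 (.lf 0 1 1) (.lf 12 1 1) (.lf 43 1 1))) (.nd 72 (.lf 53 1 1) (.nd 72 (.lf 50 1 1) (.lf 51 1 1) (.nd 72 (.lf 72 1 1) (.lf 70 1 1) (.nd 72 (.lf 72 1 1) (.nd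 71 (.nd 71 (.lf 71 1 1) (.lf 71 1 1) (.lf 71 1 1)) (.lf 71 1 1) (.lf 71 1 1)) (.lf 71 1 1)))) (.lf 63 1 1)) (.nd 66 (.nd 15 (.lf 0 1 1) (.nd 8 (.lf 0 1 1) (.lf 8 1 1) (.lf 0 1 1)) (.lf 15 1 1)) (.lf 66 1 1) (.nd 44 (.lf 12 1 1) (.lf 44 1 1) (.lf 17 1 1))))) (.nd 141 (.nd 141 (.nd 122 (.nd 121 (.lf 116 1 1) (.nd 121 (.lf 119 1 1) (.nd 121 (.lf 116 1 1) (.nd 121 (.nd 117 (.lf 92 2 3) (.lf 117 1 1) (.lf 105 2 3)) (.lf 119 1 1) (.lf 121 1 1)) (.lf 110 1 1)) (.lf 107 1 1)) (.lf 101 1 1)) (.lf 122 1 1) (.lf 110 1 1)) (.nd 141 (.nd 134 (.nd 131 (.nd 127 (.nd 127 (.lf 121 1 1) (.nd 127 (.lf 127 1 1) (.lf 119 2 3) (.lf 117 1 1)) (.lf 127 1 1)) (.lf 92 1 1) (.lf 121 1 1)) (.nd 131 (.lf 125 1 1) (.lf 127 1 1) (.nd 131 (.lf 122 1 1) (.lf 126 1 1) (.lf 131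 2 3))) (.lf 119 1 1)) (.nd 127 (.nd 124 (.nd 122 (.lf 122 1 1) (.lf 110 2 3) (.lf 110 2 3)) (.lf 124 1 1) (.lf 119 2 3)) (.nd 127 (.nd 127 (.lf 101 2 3) (.lf 116 2 3) (.lf 127 1 1)) (.lf 107 2 3) (.lf 79 2 3)) (.lf 107 2 3)) (.lf 134 1 1)) (.nd 141 (.lf 127 1 1) (.nd 141 (.lf 127 1 1) (.lf 131 1 1) (.nd 141 (.lf 133 1 1) (.lf 141 2 3) (.nd 132 (.lf 124 1 1) (.lf 132 2 3) (.nd 132 (.lf 128 1 1) (.lf 130 1 1) (.lf 132 2 3))))) (.nd 131 (.nd 131 (.lf 131 1 1) (.lf 121 1 1) (.nd 131 (.lf 129 1 1) (.lf 131 2 3) (.lf 103 2 3))) (.lf 111 1 1) (.lf 100 1 1))) (.nd 135 (.lf 135 2 3) (.nd 135 (.nd 129 (.lf 99 1 1) (.nd 128 (.lf 121 1 1) (.lf 127 1 1) (.lf 128 2 3)) (.lf 129 1 1)) (.nd 135 (.nd 135 (.lf 135 1 1) (.lf 128 1 1) (.lf 101 2 3)) (.lf 119 1 1)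 (.lf 121 1 1)) (.nd 135 (.lf 134 2 3) (.nd 135 (.lf 135 1 1) (.lf 131 2 3) (.lf 132 2 3)) (.nd 135 (.lf 126 2 3) (.lf 135 1 1) (.lf 127 2 3)))) (.nd 133 (.lf 107 2 3) (.nd 133 (.lf 109 1 1) (.nd 133 (.lf 132 2 3) (.lf 133 1 1) (.lf 119 2 3)) (.lf 120 1 1)) (.lf 120 1 1)))) (.nd 125 (.lf 121 1 1) (.lf 125 1 1) (.nd 124 (.lf 108 1 1) (.lf 124 1 1) (.nd 121 (.lf 121 2 3) (.lf 109 1 1) (.lf 112 2 3))))) (.nd 121 (.nd 121 (.lf 121 1 1) (.lf 113 2 3) (.nd 111 (.nd 93 (.nd 93 (.lf 93 1 1) (.lf 79 2 3) (.lf 89 1 1)) (.lf 92 1 1) (.lf 92 1 1)) (.lf 94 1 1) (.lf 111 1 1))) (.nd 121 (.lf 101 1 1) (.lf 71 1 1) (.nd 121 (.lf 84 2 3) (.lf 108 1 1) (.nd 121 (.lf 99 1 1) (.lf 97 1 1) (.nd 121 (.lf 121 1 1) (.lf 109 1 1) (.lf 121 2 3))))) (.nd 99 (.lf 73 1 1)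 (.lf 93 1 1) (.lf 99 1 1))) (.nd 129 (.nd 105 (.lf 97 1 1) (.lf 96 1 1) (.nd 105 (.lf 105 1 1) (.lf 98 1 1) (.lf 83 2 3))) (.lf 114 1 1) (.nd 129 (.nd 129 (.lf 129 1 1) (.lf 128 1 1) (.nd 126 (.nd 125 (.lf 125 1 1) (.lf 124 1 1) (.lf 121 2 3)) (.lf 126 1 1) (.lf 112 2 3))) (.lf 127 1 1) (.lf 121 1 1)))) (.nd 131 (.nd 100 (.lf 100 1 1) (.lf 67 1 1) (.lf 70 1 1)) (.nd 131 (.nd 126 (.nd 126 (.nd 126 (.lf 117 2 3) (.lf 126 1 1) (.nd 117 (.lf 89 2 3) (.lf 115 1 1) (.lf 117 2 3))) (.lf 104 1 1) (.lf 105 1 1)) (.lf 124 1 1) (.lf 107 1 1)) (.nd 131 (.nd 131 (.lf 125 1 1) (.lf 122 1 1) (.nd 131 (.lf 131 1 1) (.nd 126 (.lf 126 1 1) (.lf 118 1 1) (.lf 124 2 3)) (.lf 112 2 3))) (.lf 120 1 1) (.nd 123 (.lf 123 1 1) (.lf 98 1 1) (.lf 101 1 1))) (.nd 129 (.lf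 120 1 1) (.lf 117 1 1) (.nd 129 (.lf 93 1 1) (.nd 129 (.lf 115 1 1) (.lf 129 1 1) (.lf 115 1 1)) (.lf 112 1 1)))) (.nd 103 (.nd 74 (.lf 74 1 1) (.nd 43 (.lf 14 1 1) (.lf 12 1 1) (.lf 43 1 1)) (.lf 44 1 1)) (.nd 103 (.lf 97 1 1) (.lf 87 1 1) (.lf 103 1 1)) (.nd 74 (.lf 51 1 1) (.lf 48 1 1) (.lf 74 1 1)))))

def t15_308 : Tr := (.nd 206 (.nd 180 (.nd 158 (.nd 142 (.lf 142 1 2) (.lf 101 1 2) (.lf 116 1 2)) (.nd 158 (.nd 158 (.nd 133 (.nd 119 (.lf 96 1 2) (.lf 119 2 2) (.lf 111 2 2)) (.lf 132 1 2) (.lf 133 2 2)) (.lf 158 2 2) (.lf 151 1 2)) (.nd 149 (.nd 149 (.lf 134 2 2) (.lf 149 2 2) (.lf 127 2 2)) (.lf 120 2 2) (.lf 118 2 2)) (.nd 150 (.lf 150 2 2) (.lf 98 2 2) (.nd 126 (.nd 126 (.lf 126 2 2) (.lf 108 1 2) (.lf 126 2 2)) (.lf 97 2 2) (.lf 100 2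 2)))) (.nd 127 (.lf 96 1 2) (.nd 127 (.nd 112 (.lf 80 1 2) (.lf 112 1 2) (.lf 97 1 2)) (.lf 127 1 2) (.lf 105 1 2)) (.lf 97 1 2))) (.nd 180 (.lf 175 2 2) (.nd 171 (.lf 166 1 2) (.lf 124 2 2) (.lf 171 2 2)) (.nd 180 (.nd 180 (.lf 180 1 2) (.nd 159 (.lf 159 2 2) (.lf 127 1 2) (.lf 125 2 2)) (.lf 162 1 2)) (.nd 167 (.nd 146 (.lf 137 1 2) (.lf 146 1 2) (.lf 125 1 2)) (.lf 157 2 2) (.lf 167 1 2)) (.lf 171 1 2))) (.nd 153 (.lf 122 1 2) (.nd 153 (.lf 153 1 2) (.lf 131 1 2) (.lf 138 1 2)) (.lf 123 1 2))) (.nd 206 (.nd 206 (.nd 192 (.lf 177 1 2) (.nd 163 (.nd 163 (.lf 160 1 2) (.nd 162 (.nd 146 (.lf 138 1 2) (.lf 115 1 2) (.lf 146 1 2)) (.lf 153 1 2) (.lf 162 1 2)) (.nd 163 (.lf 151 1 2) (.lf 163 1 2) (.lf 151 1 2))) (.lf 142 1 2) (.lf 148 1 2)) (.nd 192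 (.nd 186 (.lf 155 1 2) (.nd 180 (.lf 170 1 2) (.lf 180 1 2) (.lf 146 1 2)) (.nd 186 (.lf 179 1 2) (.lf 170 1 2) (.lf 186 1 2))) (.lf 192 1 2) (.lf 174 1 2))) (.nd 206 (.nd 171 (.nd 171 (.nd 124 (.lf 93 2 2) (.lf 114 1 2) (.lf 124 2 2)) (.nd 122 (.lf 119 2 2) (.lf 119 1 2) (.lf 122 1 2)) (.lf 171 2 2)) (.lf 163 2 2) (.nd 148 (.nd 126 (.nd 126 (.nd 117 (.lf 115 1 2) (.lf 115 2 2) (.lf 117 1 2)) (.lf 111 1 2) (.lf 126 1 2)) (.lf 117 1 2) (.lf 89 1 2)) (.lf 119 1 2) (.lf 148 1 2))) (.nd 206 (.lf 191 1 2) (.nd 199 (.lf 199 1 2) (.nd 167 (.nd 167 (.lf 167 1 2) (.lf 166 1 2) (.lf 162 1 2)) (.lf 158 1 2) (.lf 166 1 2)) (.lf 180 1 2)) (.lf 206 1 2)) (.nd 180 (.nd 180 (.nd 171 (.lf 171 2 2) (.lf 154 1 2) (.lf 171 2 2)) (.lf 179 2 2) (.nd 180 (.lf 175 2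 2) (.lf 172 2 2) (.lf 180 1 2))) (.lf 153 1 2) (.nd 146 (.lf 146 2 2) (.nd 145 (.lf 145 1 2) (.lf 90 1 2) (.lf 135 1 2)) (.lf 122 2 2)))) (.nd 206 (.nd 175 (.nd 150 (.lf 150 2 2) (.lf 122 1 2) (.lf 148 1 2)) (.nd 175 (.lf 175 2 2) (.lf 172 1 2) (.lf 173 1 2)) (.nd 151 (.lf 151 2 2) (.lf 150 1 2) (.lf 147 1 2))) (.nd 206 (.nd 206 (.lf 206 2 2) (.nd 191 (.lf 191 1 2) (.nd 189 (.lf 169 1 2) (.lf 189 2 2) (.lf 176 2 2)) (.lf 188 2 2)) (.lf 192 1 2)) (.nd 198 (.lf 178 1 2) (.nd 168 (.lf 143 2 2) (.lf 167 2 2) (.lf 168 1 2)) (.lf 198 1 2)) (.nd 206 (.nd 170 (.lf 167 2 2) (.lf 170 2 2) (.lf 152 1 2)) (.lf 206 1 2) (.lf 168 2 2))) (.nd 177 (.nd 153 (.lf 139 2 2) (.lf 153 1 2) (.lf 145 2 2)) (.lf 151 1 2) (.nd 177 (.lf 177 2 2) (.nd 149 (.lf 127 2 2) (.lf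 124 2 2) (.lf 149 1 2)) (.lf 125 2 2))))) (.nd 183 (.nd 183 (.nd 183 (.nd 183 (.lf 183 1 2) (.nd 168 (.lf 144 1 2) (.lf 168 1 2) (.lf 166 1 2)) (.lf 179 2 2)) (.nd 146 (.lf 117 1 2) (.lf 146 1 2) (.lf 141 1 2)) (.nd 170 (.nd 170 (.lf 170 1 2) (.lf 134 2 2) (.lf 144 2 2)) (.lf 145 1 2) (.nd 145 (.nd 145 (.nd 145 (.lf 125 1 2) (.lf 145 1 2) (.lf 130 2 2)) (.lf 135 1 2) (.lf 142 1 2)) (.lf 119 1 2) (.lf 119 1 2)))) (.nd 179 (.nd 165 (.lf 145 2 2) (.lf 146 2 2) (.lf 165 2 2)) (.lf 179 2 2) (.nd 168 (.lf 132 2 2) (.lf 168 2 2) (.lf 145 2 2))) (.nd 166 (.nd 140 (.lf 136 2 2) (.lf 140 2 2) (.lf 117 1 2)) (.lf 158 1 2) (.nd 166 (.nd 166 (.lf 166 2 2) (.nd 143 (.lf 117 1 2) (.lf 143 2 2) (.lf 142 1 2)) (.lf 145 1 2)) (.lf 165 1 2) (.nd 162 (.lf 151 2 2)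 (.lf 162 1 2) (.lf 157 2 2))))) (.nd 172 (.lf 121 2 2) (.nd 172 (.lf 172 2 2) (.nd 141 (.lf 122 1 2) (.lf 141 2 2) (.lf 117 2 2)) (.lf 161 2 2)) (.nd 166 (.lf 118 2 2) (.lf 166 2 2) (.nd 123 (.lf 123 2 2) (.lf 95 2 2) (.lf 92 2 2)))) (.nd 170 (.nd 137 (.nd 116 (.lf 87 2 2) (.lf 92 2 2) (.nd 116 (.lf 116 1 2) (.lf 116 2 2) (.lf 116 1 2))) (.nd 137 (.lf 115 2 2) (.nd 128 (.lf 122 1 2) (.lf 128 2 2) (.lf 119 1 2)) (.nd 137 (.lf 111 2 2) (.lf 137 2 2) (.lf 118 2 2))) (.lf 92 2 2)) (.nd 170 (.lf 170 2 2) (.lf 155 2 2) (.nd 152 (.nd 122 (.lf 122 2 2) (.lf 96 1 2) (.lf 103 2 2)) (.lf 152 2 2) (.lf 145 1 2))) (.nd 146 (.lf 118 2 2) (.lf 124 2 2) (.nd 146 (.lf 146 2 2) (.lf 127 2 2) (.nd 146 (.lf 145 2 2) (.nd 141 (.lf 141 2 2) (.lf 126 2 2) (.lf 101 2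 2)) (.lf 146 2 2)))))) (.nd 187 (.nd 150 (.lf 121 2 2) (.nd 150 (.lf 142 2 2) (.lf 133 2 2) (.lf 150 2 2)) (.lf 145 2 2)) (.nd 178 (.nd 145 (.lf 119 2 2) (.lf 116 2 2) (.nd 145 (.lf 145 1 2) (.lf 119 1 2) (.lf 124 2 2))) (.lf 152 2 2) (.nd 178 (.nd 169 (.lf 166 2 2) (.lf 169 2 2) (.nd 150 (.nd 142 (.lf 142 1 2) (.lf 141 2 2) (.lf 141 1 2)) (.lf 150 1 2) (.lf 142 2 2))) (.nd 159 (.nd 159 (.lf 159 1 2) (.lf 142 1 2) (.lf 142 1 2)) (.nd 153 (.lf 147 2 2) (.lf 153 1 2) (.lf 146 2 2)) (.nd 153 (.lf 141 1 2) (.nd 153 (.lf 123 2 2) (.lf 144 2 2) (.lf 153 1 2)) (.lf 153 1 2))) (.nd 178 (.nd 150 (.nd 147 (.lf 147 2 2) (.lf 146 1 2) (.lf 143 1 2)) (.lf 137 2 2) (.lf 150 2 2)) (.lf 173 2 2) (.lf 178 2 2)))) (.nd 187 (.lf 187 2 2) (.nd 148 (.nd 142 (.nd 140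 (.lf 130 1 2) (.lf 85 1 2) (.lf 140 1 2)) (.lf 120 2 2) (.nd 142 (.lf 122 2 2) (.lf 142 1 2) (.lf 119 2 2))) (.nd 143 (.lf 114 1 2) (.nd 141 (.lf 109 1 2) (.lf 114 1 2) (.lf 141 1 2)) (.lf 143 1 2)) (.nd 148 (.lf 148 2 2) (.nd 142 (.lf 91 2 2) (.lf 142 2 2) (.lf 118 2 2)) (.lf 122 2 2))) (.nd 178 (.lf 176 2 2) (.nd 178 (.nd 174 (.lf 133 2 2) (.lf 151 2 2) (.lf 174 2 2)) (.lf 170 2 2) (.lf 178 2 2)) (.nd 176 (.lf 173 1 2) (.lf 169 1 2) (.nd 176 (.lf 172 1 2) (.lf 176 2 2) (.lf 175 1 2))))))) (.nd 179 (.lf 179 1 2) (.nd 149 (.nd 144 (.nd 144 (.lf 125 1 2) (.nd 144 (.lf 144 1 2) (.lf 116 1 2) (.lf 119 1 2)) (.lf 125 1 2)) (.lf 99 1 2) (.lf 96 1 2)) (.lf 97 1 2) (.nd 149 (.nd 149 (.nd 149 (.lf 148 1 2) (.lf 135 1 2) (.lf 149 1 2)) (.lf 125 1 2) (.lf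 123 1 2)) (.lf 119 1 2) (.nd 134 (.lf 134 1 2) (.lf 111 1 2) (.lf 110 1 2)))) (.nd 148 (.lf 148 1 2) (.nd 117 (.lf 93 1 2) (.lf 117 1 2) (.nd 96 (.lf 82 1 2) (.lf 39 1 2) (.lf 96 1 2))) (.nd 119 (.lf 119 1 2) (.nd 68 (.lf 61 1 2) (.lf 39 1 2) (.lf 68 1 2)) (.nd 113 (.nd 113 (.nd 113 (.lf 88 1 2) (.lf 92 1 2) (.lf 113 1 2)) (.lf 94 1 2) (.lf 94 1 2)) (.lf 65 1 2) (.lf 70 1 2))))))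

def t15_310 : Tr := (.nd 180 (.nd 157 (.nd 134 (.lf 113 2 1) (.nd 134 (.nd 127 (.nd 127 (.lf 127 2 1) (.lf 124 1 1) (.nd 127 (.lf 119 1 1) (.lf 124 1 1) (.lf 127 2 1))) (.lf 119 2 1) (.lf 118 2 1)) (.lf 127 2 1) (.nd 134 (.nd 134 (.lf 134 2 1) (.nd 133 (.lf 127 1 1) (.lf 124 1 1) (.lf 133 2 1)) (.lf 126 2 1)) (.nd 124 (.lf 118 2 1) (.lf 124 1 1) (.nd 122 (.lf 107 2 1) (.lf 81 2 1) (.lf 122 1 1))) (.lf 124 2 1))) (.lf 117 2 1)) (.nd 157 (.nd 156 (.nd 156 (.nd 151 (.lf 144 2 1) (.nd 151 (.lf 146 2 1) (.lf 151 2 1) (.lf 151 2 1)) (.lf 145 2 1)) (.nd 156 (.nd 156 (.lf 154 2 1) (.lf 149 2 1) (.nd 156 (.lf 116 2 1) (.lf 156 2 1) (.lf 146 2 1))) (.lf 154 2 1) (.lf 137 2 1)) (.nd 154 (.nd 151 (.lf 142 2 1) (.lf 144 2 1) (.lf 151 2 1)) (.lf 149 2 1) (.lf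 154 2 1))) (.nd 155 (.nd 155 (.lf 152 2 1) (.lf 155 2 1) (.lf 139 2 1)) (.nd 152 (.lf 137 2 1) (.nd 152 (.lf 149 2 1) (.lf 152 2 1) (.nd 151 (.lf 147 2 1) (.lf 141 2 1) (.lf 151 1 1))) (.lf 131 2 1)) (.lf 141 2 1)) (.nd 155 (.lf 140 2 1) (.nd 154 (.lf 154 2 1) (.lf 112 2 1) (.lf 126 2 1)) (.nd 155 (.lf 146 2 1) (.lf 151 2 1) (.nd 155 (.lf 155 2 1) (.lf 149 2 1) (.lf 133 2 1))))) (.nd 157 (.lf 133 2 1) (.lf 143 2 1) (.nd 157 (.lf 151 2 1) (.nd 157 (.lf 149 2 1) (.lf 153 2 1) (.lf 157 2 1)) (.nd 157 (.lf 115 2 1) (.lf 157 2 1) (.lf 138 2 1)))) (.nd 153 (.nd 139 (.lf 98 2 1) (.lf 123 2 1) (.nd 139 (.lf 126 2 1) (.lf 120 2 1) (.lf 139 2 1))) (.nd 153 (.nd 153 (.lf 153 2 1) (.lf 153 2 1) (.nd 151 (.lf 149 2 1) (.lf 141 2 1) (.lf 151 1 1))) (.lf 153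 2 1) (.lf 148 2 1)) (.lf 133 2 1))) (.nd 133 (.lf 122 2 1) (.nd 97 (.nd 92 (.lf 40 2 1) (.lf 68 2 1) (.lf 92 2 1)) (.nd 97 (.lf 80 2 1) (.lf 89 2 1) (.lf 97 2 1)) (.lf 68 2 1)) (.nd 133 (.lf 125 2 1) (.nd 133 (.nd 133 (.lf 133 2 1) (.nd 127 (.lf 123 2 1) (.lf 124 1 1) (.lf 127 2 1)) (.lf 127 1 1)) (.lf 125 2 1) (.lf 123 2 1)) (.lf 119 2 1)))) (.nd 156 (.nd 137 (.nd 119 (.lf 96 2 1) (.nd 119 (.nd 114 (.lf 90 2 1) (.nd 114 (.lf 99 2 1) (.lf 84 2 1) (.nd 114 (.lf 88 2 1) (.lf 90 2 1) (.lf 114 2 1))) (.lf 62 2 1)) (.lf 119 2 1) (.lf 101 2 1)) (.lf 101 2 1)) (.nd 137 (.nd 121 (.lf 121 2 1) (.lf 110 2 1) (.lf 101 2 1)) (.nd 124 (.lf 116 2 1) (.nd 124 (.lf 116 2 1) (.lf 110 2 1) (.nd 124 (.lf 116 2 1) (.lf 124 1 1) (.lf 114 2 1))) (.lf 88 2 1)) (.nd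 137 (.nd 137 (.nd 124 (.lf 124 1 1) (.lf 94 2 1) (.lf 119 1 1)) (.nd 137 (.lf 131 2 1) (.lf 137 2 1) (.lf 128 2 1)) (.lf 122 1 1)) (.nd 129 (.lf 129 2 1) (.lf 119 2 1) (.lf 120 2 1)) (.nd 122 (.lf 121 1 1) (.lf 115 2 1) (.lf 122 2 1)))) (.nd 116 (.nd 97 (.lf 92 2 1) (.lf 45 2 1) (.lf 97 2 1)) (.nd 96 (.lf 67 2 1) (.lf 96 2 1) (.lf 65 2 1)) (.lf 116 2 1))) (.nd 156 (.nd 155 (.nd 155 (.lf 150 2 1) (.nd 152 (.lf 120 2 1) (.lf 152 2 1) (.nd 151 (.lf 143 2 1) (.lf 129 2 1) (.lf 151 1 1))) (.nd 155 (.nd 151 (.lf 151 1 1) (.lf 141 2 1) (.lf 146 2 1)) (.lf 155 2 1) (.lf 154 2 1))) (.lf 152 2 1) (.lf 148 2 1)) (.nd 150 (.nd 150 (.nd 150 (.lf 150 2 1) (.lf 135 2 1) (.lf 117 2 1)) (.nd 150 (.lf 150 2 1) (.nd 150 (.lf 150 2 1) (.lf 126 2 1) (.lf 127 2 1))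 (.lf 140 2 1)) (.lf 140 2 1)) (.lf 134 2 1) (.nd 134 (.lf 89 2 1) (.lf 113 2 1) (.lf 134 2 1))) (.nd 156 (.lf 114 2 1) (.nd 142 (.lf 142 2 1) (.lf 113 2 1) (.lf 116 2 1)) (.nd 156 (.nd 156 (.nd 156 (.lf 140 2 1) (.lf 152 2 1) (.lf 156 2 1)) (.lf 140 2 1) (.lf 140 2 1)) (.nd 151 (.nd 151 (.lf 140 2 1) (.lf 151 2 1) (.lf 134 2 1)) (.lf 127 2 1) (.lf 128 2 1)) (.lf 136 2 1)))) (.nd 142 (.nd 122 (.lf 122 2 1) (.lf 91 2 1) (.lf 87 2 1)) (.lf 142 2 1) (.nd 122 (.lf 118 2 1) (.lf 71 2 1) (.nd 122 (.nd 108 (.lf 108 2 1) (.lf 85 2 1) (.lf 84 2 1)) (.nd 122 (.lf 97 2 1) (.nd 122 (.lf 108 1 1) (.lf 122 2 1) (.lf 109 2 1)) (.lf 99 2 1)) (.lf 93 2 1))))) (.nd 180 (.nd 178 (.lf 140 2 1) (.nd 162 (.lf 136 2 1) (.lf 130 2 1) (.nd 162 (.lf 162 2 1) (.lf 151 2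 1) (.nd 159 (.nd 159 (.lf 148 2 1) (.lf 159 2 1) (.lf 148 2 1)) (.nd 155 (.lf 142 2 1) (.lf 147 2 1) (.lf 155 2 1)) (.lf 144 2 1)))) (.nd 178 (.nd 178 (.nd 168 (.lf 160 2 1) (.lf 168 2 1) (.lf 147 2 1)) (.nd 178 (.lf 178 2 1) (.lf 176 2 1) (.nd 166 (.lf 152 2 1) (.nd 154 (.lf 153 2 1) (.lf 151 2 1) (.lf 154 2 1)) (.lf 166 2 1))) (.nd 161 (.nd 156 (.lf 156 2 1) (.lf 152 2 1) (.lf 140 2 1)) (.lf 149 2 1) (.nd 161 (.lf 161 2 1) (.lf 132 2 1) (.lf 151 2 1)))) (.nd 165 (.lf 153 2 1) (.lf 154 2 1) (.nd 165 (.nd 165 (.nd 156 (.lf 150 2 1) (.lf 154 2 1) (.lf 156 2 1)) (.lf 165 2 1) (.lf 156 2 1)) (.nd 156 (.lf 156 2 1) (.lf 137 2 1) (.nd 156 (.lf 151 2 1) (.lf 156 2 1) (.lf 135 2 1))) (.nd 156 (.lf 145 2 1) (.lf 135 2 1) (.lf 156 2 1)))) (.nd 162 (.lf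 162 2 1) (.lf 160 2 1) (.lf 138 2 1)))) (.nd 180 (.nd 158 (.lf 156 2 1) (.nd 156 (.nd 156 (.lf 107 2 1) (.nd 156 (.nd 156 (.lf 138 2 1) (.lf 137 2 1) (.lf 156 2 1)) (.lf 132 2 1) (.lf 143 2 1)) (.lf 131 2 1)) (.lf 131 2 1) (.lf 156 2 1)) (.nd 158 (.nd 158 (.lf 150 2 1) (.lf 158 2 1) (.nd 157 (.lf 151 2 1) (.lf 157 2 1) (.lf 154 2 1))) (.lf 136 2 1) (.nd 156 (.lf 135 2 1) (.lf 138 2 1) (.nd 156 (.nd 151 (.nd 151 (.lf 151 1 1) (.lf 140 2 1) (.lf 139 2 1)) (.lf 142 2 1) (.lf 151 1 1)) (.lf 155 2 1) (.lf 156 2 1))))) (.nd 180 (.nd 180 (.lf 148 2 1) (.nd 180 (.lf 180 2 1) (.lf 180 2 1) (.nd 178 (.lf 167 2 1) (.lf 145 2 1) (.lf 178 2 1))) (.lf 168 2 1)) (.nd 165 (.lf 141 2 1) (.nd 156 (.lf 139 2 1) (.lf 147 2 1) (.nd 156 (.lf 149 2 1) (.nd 156 (.lf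 145 2 1) (.lf 156 2 1) (.lf 147 2 1)) (.lf 150 2 1))) (.nd 165 (.lf 143 2 1) (.lf 140 2 1) (.lf 165 2 1))) (.nd 156 (.nd 156 (.lf 137 2 1) (.nd 156 (.lf 142 2 1) (.lf 133 2 1) (.lf 156 2 1)) (.lf 150 2 1)) (.lf 144 2 1) (.lf 153 2 1))) (.nd 155 (.lf 136 2 1) (.nd 153 (.lf 153 2 1) (.lf 143 2 1) (.lf 153 2 1)) (.nd 155 (.nd 155 (.lf 145 2 1) (.nd 155 (.lf 117 2 1) (.lf 114 2 1) (.lf 155 2 1)) (.lf 115 2 1)) (.lf 148 2 1) (.nd 155 (.lf 155 2 1) (.lf 145 2 1) (.lf 137 2 1))))) (.nd 158 (.nd 139 (.lf 123 2 1) (.lf 131 2 1) (.lf 139 2 1)) (.nd 158 (.nd 158 (.nd 158 (.lf 156 2 1) (.nd 158 (.lf 153 2 1) (.lf 156 2 1) (.lf 158 2 1)) (.lf 149 2 1)) (.lf 158 2 1) (.lf 157 2 1)) (.nd 158 (.lf 137 2 1) (.nd 158 (.lf 153 2 1) (.lf 148 2 1) (.nd 158 (.lf 141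 2 1) (.lf 141 2 1) (.lf 158 2 1))) (.lf 157 2 1)) (.nd 145 (.lf 145 2 1) (.lf 135 2 1) (.lf 145 2 1))) (.nd 153 (.nd 153 (.lf 153 2 1) (.lf 131 2 1) (.lf 138 2 1)) (.lf 125 2 1) (.lf 111 2 1)))))

def t15_311 : Tr := (.nd 256 (.nd 245 (.nd 204 (.lf 204 1 2) (.nd 199 (.nd 198 (.lf 177 1 2) (.nd 176 (.lf 145 1 2) (.lf 147 1 2) (.lf 176 1 2)) (.lf 198 1 2)) (.lf 191 1 2) (.lf 199 1 2)) (.nd 204 (.lf 197 1 2) (.lf 198 1 2) (.nd 204 (.lf 198 1 2) (.nd 203 (.lf 189 1 2) (.lf 179 1 2) (.lf 203 1 2)) (.lf 204 1 2)))) (.nd 226 (.lf 226 1 2) (.lf 208 1 2) (.nd 224 (.lf 172 1 2) (.nd 219 (.lf 219 1 2) (.lf 171 1 2) (.lf 174 1 2)) (.lf 224 1 2))) (.nd 245 (.nd 245 (.nd 245 (.nd 245 (.lf 245 1 2) (.lf 235 1 2) (.nd 241 (.lf 221 1 2) (.lf 241 1 2) (.lf 195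 1 2))) (.nd 217 (.lf 217 1 2) (.lf 217 1 2) (.nd 217 (.lf 217 1 2) (.lf 209 1 2) (.lf 195 1 2))) (.lf 239 1 2)) (.nd 222 (.nd 222 (.lf 220 1 2) (.lf 177 1 2) (.lf 222 1 2)) (.lf 210 1 2) (.nd 221 (.lf 204 1 2) (.lf 221 1 2) (.lf 195 1 2))) (.nd 222 (.nd 222 (.nd 203 (.lf 203 1 2) (.lf 173 1 2) (.lf 172 1 2)) (.lf 208 1 2) (.lf 222 1 2)) (.lf 209 1 2) (.lf 187 1 2))) (.nd 220 (.lf 220 1 2) (.nd 207 (.lf 207 1 2) (.lf 179 1 2) (.lf 176 1 2)) (.lf 177 1 2)) (.nd 207 (.nd 197 (.lf 176 1 2) (.lf 173 1 2) (.lf 197 1 2)) (.lf 199 1 2) (.nd 207 (.nd 204 (.lf 204 1 2) (.lf 195 1 2) (.lf 201 1 2)) (.lf 207 1 2) (.lf 195 1 2))))) (.nd 250 (.nd 245 (.nd 238 (.nd 210 (.nd 199 (.lf 169 1 2) (.lf 199 1 2) (.lf 198 1 2)) (.nd 203 (.lf 177 1 2) (.lf 168 1 2) (.nd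 203 (.lf 203 1 2) (.lf 173 1 2) (.lf 172 1 2))) (.nd 210 (.lf 178 1 2) (.lf 194 1 2) (.nd 210 (.lf 197 1 2) (.lf 181 1 2) (.lf 210 1 2)))) (.nd 225 (.lf 189 1 2) (.lf 225 1 2) (.nd 204 (.lf 188 1 2) (.lf 180 1 2) (.lf 204 1 2))) (.nd 238 (.nd 225 (.lf 173 1 2) (.lf 225 1 2) (.lf 213 1 2)) (.lf 209 1 2) (.nd 238 (.lf 206 1 2) (.lf 205 1 2) (.lf 238 1 2)))) (.lf 234 1 2) (.lf 245 1 2)) (.nd 228 (.lf 197 1 2) (.nd 228 (.nd 207 (.lf 196 1 2) (.lf 207 1 2) (.lf 198 1 2)) (.lf 228 1 2) (.lf 202 1 2)) (.nd 220 (.lf 220 1 2) (.lf 185 1 2) (.lf 169 1 2))) (.nd 250 (.nd 250 (.lf 235 1 2) (.nd 220 (.lf 196 1 2) (.lf 220 1 2) (.lf 218 1 2)) (.lf 250 1 2)) (.lf 198 1 2) (.nd 228 (.lf 200 1 2) (.lf 228 1 2) (.nd 197 (.lf 167 1 2) (.lf 164 1 2) (.lf 197 1 2)))))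 (.nd 256 (.nd 233 (.lf 214 1 2) (.lf 233 1 2) (.nd 223 (.lf 202 1 2) (.nd 206 (.nd 206 (.lf 195 1 2) (.nd 188 (.lf 188 1 2) (.lf 146 1 2) (.lf 158 1 2)) (.lf 206 1 2)) (.lf 188 1 2) (.lf 171 1 2)) (.lf 223 1 2))) (.nd 256 (.nd 249 (.lf 249 1 2) (.nd 248 (.nd 203 (.lf 203 1 2) (.lf 173 1 2) (.lf 183 1 2)) (.lf 248 1 2) (.lf 246 1 2)) (.lf 244 1 2)) (.lf 250 1 2) (.lf 256 1 2)) (.nd 231 (.nd 223 (.lf 223 1 2) (.nd 201 (.lf 201 1 2) (.nd 200 (.nd 200 (.lf 200 1 2) (.lf 190 1 2) (.lf 196 1 2)) (.lf 194 1 2) (.lf 167 1 2)) (.lf 193 1 2)) (.nd 217 (.lf 217 1 2) (.lf 196 1 2) (.nd 216 (.lf 216 1 2) (.lf 191 1 2) (.lf 196 1 2)))) (.lf 231 1 2) (.lf 203 1 2))))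

def t15_313 : Tr := (.nd 228 (.nd 204 (.nd 204 (.nd 204 (.nd 204 (.nd 204 (.nd 203 (.lf 194 1 3) (.nd 203 (.lf 203 1 3) (.lf 166 1 3) (.lf 193 1 3)) (.lf 203 1 3)) (.lf 203 1 3) (.lf 204 1 3)) (.nd 202 (.nd 202 (.lf 202 1 3) (.lf 193 1 3) (.lf 189 1 3)) (.lf 183 1 3) (.lf 184 1 3)) (.lf 202 1 3)) (.nd 174 (.nd 166 (.lf 145 1 3) (.lf 166 1 3) (.lf 149 1 3)) (.lf 174 1 3) (.lf 162 1 3)) (.lf 179 1 3)) (.nd 195 (.lf 173 1 3) (.lf 195 1 3) (.lf 187 1 3)) (.nd 187 (.lf 183 1 3) (.lf 171 1 3) (.nd 187 (.lf 187 1 3) (.nd 171 (.lf 142 1 3) (.lf 140 1 3) (.lf 171 1 3)) (.lf 172 1 3)))) (.nd 198 (.nd 198 (.nd 198 (.nd 198 (.nd 198 (.lf 174 1 3) (.nd 198 (.lf 198 1 3) (.lf 171 1 3) (.lf 176 1 3)) (.lf 182 1 3)) (.lf 195 1 3) (.lf 188 1 3)) (.lf 178 1 3)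 (.lf 168 1 3)) (.lf 172 1 3) (.nd 187 (.nd 187 (.lf 172 1 3) (.lf 165 1 3) (.lf 187 1 3)) (.lf 159 1 3) (.lf 172 1 3))) (.nd 174 (.lf 147 1 3) (.lf 144 1 3) (.lf 174 1 3)) (.lf 147 1 3)) (.nd 178 (.nd 175 (.lf 175 1 3) (.lf 118 1 3) (.lf 145 1 3)) (.nd 178 (.lf 171 1 3) (.nd 178 (.lf 165 1 3) (.lf 148 1 3) (.nd 178 (.lf 178 1 3) (.nd 175 (.lf 175 1 3) (.lf 141 1 3) (.lf 161 1 3)) (.lf 176 1 3))) (.nd 171 (.lf 171 1 3) (.nd 137 (.lf 137 1 3) (.lf 129 1 3) (.lf 122 1 3)) (.nd 166 (.lf 135 1 3) (.lf 136 1 3) (.lf 166 1 3)))) (.nd 144 (.nd 144 (.lf 144 1 3) (.lf 141 1 3) (.lf 133 1 3)) (.lf 144 1 3) (.lf 137 1 3)))) (.nd 228 (.nd 228 (.nd 228 (.nd 204 (.nd 204 (.lf 204 1 3) (.nd 199 (.lf 173 1 3) (.lf 147 1 3) (.lf 199 1 3)) (.lf 183 1 3)) (.lf 200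 1 3) (.lf 196 1 3)) (.lf 228 1 3) (.lf 202 1 3)) (.lf 213 1 3) (.lf 198 1 3)) (.nd 176 (.lf 171 1 3) (.lf 147 1 3) (.nd 176 (.lf 159 1 3) (.lf 176 1 3) (.lf 168 1 3))) (.nd 206 (.nd 178 (.nd 149 (.lf 149 1 3) (.lf 119 1 3) (.lf 118 1 3)) (.lf 149 1 3) (.lf 178 1 3)) (.nd 206 (.nd 204 (.nd 199 (.lf 199 1 3) (.lf 191 1 3) (.lf 193 1 3)) (.nd 204 (.lf 204 1 3) (.lf 180 1 3) (.lf 179 1 3)) (.lf 182 1 3)) (.lf 189 1 3) (.lf 206 1 3)) (.nd 175 (.lf 175 1 3) (.nd 145 (.lf 93 1 3) (.lf 145 1 3) (.nd 140 (.lf 92 1 3) (.lf 140 1 3) (.lf 95 1 3))) (.nd 142 (.lf 142 1 3) (.lf 105 1 3) (.lf 113 1 3))))) (.nd 226 (.nd 216 (.nd 199 (.nd 199 (.lf 171 1 3) (.lf 172 1 3) (.lf 199 1 3)) (.nd 185 (.nd 185 (.lf 184 1 3) (.lf 185 1 3) (.nd 185 (.lf 185 1 3) (.lf 158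 1 3) (.lf 168 1 3))) (.lf 177 1 3) (.nd 176 (.lf 145 1 3) (.lf 147 1 3) (.lf 176 1 3))) (.lf 173 1 3)) (.lf 211 1 3) (.nd 216 (.lf 198 1 3) (.nd 194 (.lf 194 1 3) (.nd 171 (.lf 171 1 3) (.lf 150 1 3) (.lf 147 1 3)) (.nd 173 (.lf 122 1 3) (.lf 148 1 3) (.lf 173 1 3))) (.lf 216 1 3))) (.lf 219 1 3) (.lf 226 1 3)))

def t15_316 : Tr := (.nd 234 (.nd 230 (.nd 230 (.nd 195 (.nd 195 (.nd 195 (.nd 195 (.lf 194 1 3) (.lf 192 2 3) (.lf 195 1 1)) (.lf 168 1 1) (.lf 180 1 1)) (.nd 193 (.lf 165 2 3) (.lf 193 1 1) (.lf 182 1 1)) (.nd 190 (.lf 164 2 3) (.lf 190 2 3) (.nd 189 (.lf 189 2 3) (.nd 186 (.lf 170 2 3) (.lf 186 2 3) (.lf 174 1 1)) (.lf 184 2 3)))) (.nd 188 (.nd 188 (.lf 188 1 1) (.lf 143 1 1) (.lf 140 1 1)) (.lf 141 1 1) (.lf 173 1 1)) (.lf 190 1 1))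 (.nd 226 (.lf 197 1 1) (.lf 226 1 1) (.lf 197 1 1)) (.nd 230 (.nd 209 (.nd 194 (.lf 194 2 3) (.nd 194 (.lf 194 1 3) (.lf 194 1 3) (.lf 191 1 1)) (.lf 193 2 3)) (.lf 209 2 3) (.lf 189 2 3)) (.nd 228 (.lf 219 2 3) (.lf 220 2 3) (.nd 228 (.lf 228 1 1) (.lf 221 1 1) (.lf 228 2 3))) (.nd 230 (.nd 230 (.lf 230 2 3) (.nd 230 (.nd 230 (.nd 230 (.lf 230 2 3) (.lf 196 1 3) (.lf 226 2 3)) (.lf 225 1 1) (.lf 222 1 1)) (.nd 217 (.lf 213 2 3) (.lf 217 1 1) (.lf 213 2 3)) (.lf 230 2 3)) (.lf 226 1 1)) (.lf 225 2 3) (.lf 224 2 3)))) (.nd 209 (.nd 206 (.nd 198 (.lf 146 1 3) (.lf 193 1 3) (.lf 198 1 3)) (.nd 206 (.lf 203 2 3) (.nd 187 (.lf 187 1 3) (.lf 175 2 3) (.lf 180 2 3)) (.lf 206 1 3)) (.nd 195 (.lf 158 1 3) (.lf 195 1 3) (.lf 166 1 3))) (.nd 209 (.lf 169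 2 3) (.nd 209 (.lf 194 2 3) (.lf 209 2 3) (.nd 208 (.lf 200 2 3) (.lf 190 2 3) (.nd 208 (.lf 208 1 1) (.nd 204 (.lf 204 2 3) (.lf 195 1 1) (.lf 189 1 1)) (.lf 196 1 3)))) (.lf 198 2 3)) (.lf 197 2 3)) (.nd 200 (.lf 198 2 3) (.lf 195 1 1) (.lf 200 1 3))) (.nd 234 (.nd 228 (.nd 196 (.nd 193 (.lf 169 1 3) (.lf 141 1 3) (.lf 193 1 3)) (.lf 171 1 3) (.nd 196 (.nd 196 (.lf 170 2 3) (.lf 196 2 3) (.lf 177 1 3)) (.lf 190 1 3) (.lf 181 1 3))) (.nd 221 (.nd 221 (.nd 221 (.lf 221 1 3) (.lf 215 1 1) (.nd 218 (.lf 217 1 1) (.lf 218 1 3) (.lf 197 1 1))) (.nd 221 (.lf 221 1 3) (.nd 221 (.lf 221 2 3) (.lf 205 1 3) (.lf 201 1 3)) (.lf 204 1 3)) (.lf 218 1 3)) (.lf 197 1 3) (.lf 200 1 3)) (.nd 228 (.lf 228 1 1) (.nd 227 (.lf 212 1 3) (.nd 227 (.lf 218 1 3) (.lf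 221 1 1) (.nd 227 (.lf 226 1 1) (.lf 227 1 1) (.lf 226 1 3))) (.lf 196 1 1)) (.nd 221 (.lf 196 1 3) (.lf 220 1 3) (.lf 221 1 1)))) (.nd 234 (.nd 220 (.nd 220 (.lf 209 1 1) (.lf 199 1 3) (.lf 220 1 1)) (.lf 213 1 1) (.nd 220 (.lf 204 1 1) (.lf 220 1 1) (.nd 220 (.lf 198 1 1) (.lf 220 2 3) (.lf 200 1 1)))) (.nd 234 (.nd 217 (.nd 217 (.lf 203 1 1) (.lf 206 1 1) (.nd 217 (.lf 210 1 1) (.nd 217 (.lf 209 1 1) (.lf 217 2 3) (.lf 207 1 1)) (.lf 215 1 1))) (.lf 214 1 1) (.lf 204 1 1)) (.lf 224 1 3) (.nd 234 (.lf 220 1 3) (.nd 234 (.nd 234 (.lf 220 2 3) (.lf 234 1 3) (.lf 221 2 3)) (.lf 229 1 3) (.lf 228 1 3)) (.lf 219 1 3))) (.nd 229 (.nd 216 (.lf 216 1 3) (.lf 193 1 3) (.lf 209 1 1)) (.nd 221 (.lf 194 1 3) (.nd 205 (.lf 198 1 3) (.lf 205 1 1) (.lf 193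 1 3)) (.lf 221 1 1)) (.nd 229 (.nd 229 (.lf 198 1 1) (.lf 229 1 3) (.lf 201 1 1)) (.lf 199 1 1) (.lf 229 1 1)))) (.nd 201 (.nd 200 (.nd 198 (.lf 198 1 3) (.lf 171 1 3) (.lf 166 1 3)) (.lf 171 1 3) (.nd 200 (.nd 198 (.lf 197 1 3) (.nd 198 (.lf 197 1 3) (.lf 198 1 3) (.nd 194 (.lf 185 1 1) (.lf 184 1 1) (.nd 194 (.lf 191 1 3) (.lf 192 1 1) (.lf 194 1 3)))) (.lf 190 1 3)) (.nd 200 (.lf 193 1 1) (.lf 188 1 1) (.nd 200 (.nd 200 (.lf 174 1 1) (.lf 200 1 3) (.lf 197 1 1)) (.nd 200 (.lf 197 2 3) (.lf 171 2 3) (.lf 200 1 3)) (.nd 199 (.lf 194 1 1) (.lf 186 1 1) (.lf 199 2 3)))) (.lf 191 1 1))) (.nd 197 (.lf 190 1 3) (.nd 197 (.lf 142 1 3) (.lf 167 1 3) (.nd 197 (.lf 187 1 3) (.lf 166 1 3) (.lf 197 1 3))) (.nd 197 (.lf 186 1 3) (.lf 194 1 3) (.lf 197 1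 3))) (.nd 201 (.nd 201 (.lf 195 1 3) (.nd 201 (.lf 198 1 1) (.nd 198 (.nd 198 (.lf 198 2 3) (.lf 195 1 1) (.lf 194 1 1)) (.lf 196 1 1) (.lf 171 1 1)) (.nd 201 (.lf 189 1 3) (.nd 201 (.lf 184 1 1) (.lf 201 1 3) (.lf 164 1 1)) (.nd 197 (.lf 197 1 1) (.lf 189 1 3) (.lf 159 1 3)))) (.nd 200 (.lf 163 1 3) (.nd 200 (.lf 185 1 3) (.lf 200 1 3) (.lf 195 1 1)) (.lf 172 1 1))) (.nd 200 (.lf 190 1 3) (.nd 200 (.nd 200 (.nd 199 (.lf 185 2 3) (.lf 184 2 3) (.lf 199 1 3)) (.lf 186 2 3) (.lf 200 1 3)) (.nd 190 (.lf 164 1 3) (.lf 162 1 3) (.nd 190 (.lf 178 1 3) (.nd 190 (.lf 190 2 3) (.lf 178 1 3) (.lf 170 1 3)) (.lf 171 1 3))) (.lf 194 1 3)) (.nd 194 (.lf 167 2 3) (.lf 188 1 3) (.lf 194 2 3))) (.nd 201 (.lf 201 1 1) (.lf 201 1 3) (.lf 196 2 3))))) (.nd 213 (.nd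 211 (.nd 210 (.lf 192 2 3) (.lf 184 2 3) (.nd 210 (.lf 201 2 3) (.lf 208 2 3) (.nd 210 (.lf 200 2 3) (.nd 210 (.nd 210 (.lf 194 1 1) (.lf 210 2 3) (.lf 199 1 1)) (.lf 202 1 1) (.lf 201 2 3)) (.lf 208 2 3)))) (.nd 211 (.nd 209 (.lf 194 2 3) (.nd 198 (.lf 194 1 3) (.lf 198 2 3) (.lf 191 1 3)) (.lf 209 2 3)) (.lf 172 2 3) (.nd 211 (.lf 174 2 3) (.lf 211 1 1) (.lf 171 2 3))) (.nd 211 (.nd 189 (.nd 188 (.nd 175 (.lf 163 1 3) (.lf 162 1 3) (.lf 175 2 3)) (.lf 173 2 3) (.lf 188 1 1)) (.nd 185 (.nd 163 (.lf 163 1 1) (.lf 162 1 1) (.lf 160 2 3)) (.lf 185 2 3) (.lf 183 1 1)) (.nd 189 (.lf 189 1 3) (.lf 167 1 3) (.nd 186 (.lf 142 1 1) (.lf 186 1 3) (.lf 177 1 3)))) (.nd 211 (.lf 199 2 3) (.nd 211 (.nd 211 (.nd 211 (.lf 210 2 3) (.lf 164 1 3) (.lf 211 1 3))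 (.nd 211 (.nd 208 (.lf 183 1 1) (.lf 208 2 3) (.lf 197 1 1)) (.lf 211 1 1) (.nd 209 (.lf 209 1 1) (.lf 205 1 3) (.lf 196 1 3))) (.nd 208 (.lf 186 1 3) (.lf 184 1 3) (.lf 208 1 1))) (.nd 203 (.lf 203 1 1) (.lf 201 2 3) (.lf 202 2 3)) (.nd 207 (.nd 190 (.lf 189 2 3) (.lf 189 1 3) (.lf 190 1 3)) (.lf 207 1 3) (.lf 190 2 3))) (.lf 211 2 3)) (.nd 201 (.lf 199 1 1) (.nd 201 (.lf 167 1 3) (.nd 201 (.lf 201 1 3) (.lf 201 2 3) (.lf 187 2 3)) (.lf 194 1 3)) (.lf 199 1 3)))) (.nd 213 (.nd 213 (.nd 208 (.lf 191 1 1) (.nd 203 (.nd 203 (.lf 203 1 1) (.lf 203 1 1) (.nd 203 (.lf 203 1 1) (.nd 203 (.lf 203 1 1) (.lf 203 1 1) (.lf 203 1 1)) (.lf 203 1 1))) (.lf 199 1 3) (.lf 198 1 3)) (.lf 208 1 3)) (.nd 213 (.nd 196 (.lf 193 1 1) (.lf 196 1 1) (.lf 178 1 3)) (.nd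 213 (.nd 213 (.nd 213 (.lf 195 1 1) (.lf 192 1 1) (.lf 213 2 3)) (.nd 207 (.lf 199 1 1) (.nd 207 (.lf 193 1 3) (.lf 186 2 3) (.lf 207 1 3)) (.lf 199 1 1)) (.nd 213 (.lf 205 1 3) (.lf 211 1 1) (.lf 213 1 3))) (.nd 210 (.lf 210 1 3) (.lf 201 1 1) (.lf 210 1 1)) (.lf 213 1 1)) (.lf 207 1 1)) (.nd 213 (.nd 213 (.lf 213 1 1) (.nd 213 (.lf 206 1 3) (.lf 192 1 1) (.lf 213 1 1)) (.nd 212 (.nd 212 (.lf 212 1 3) (.lf 212 1 1) (.lf 212 1 1)) (.lf 205 1 3) (.lf 208 1 3))) (.nd 212 (.lf 173 1 3) (.nd 212 (.nd 212 (.lf 201 1 3) (.lf 199 1 3) (.lf 212 1 1)) (.lf 195 1 3) (.lf 187 1 1)) (.nd 199 (.lf 172 1 3) (.lf 199 1 1) (.lf 175 1 3))) (.nd 213 (.lf 195 1 3) (.nd 213 (.lf 209 1 3) (.lf 193 1 1) (.lf 213 1 1)) (.lf 193 1 3)))) (.nd 198 (.lf 192 1 1) (.nd 198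 (.nd 195 (.nd 195 (.nd 195 (.lf 171 2 3) (.lf 195 1 3) (.lf 194 1 3)) (.lf 193 1 1) (.lf 180 1 1)) (.nd 184 (.lf 178 1 3) (.nd 184 (.lf 184 1 1) (.lf 181 1 3) (.lf 175 1 1)) (.lf 172 1 3)) (.nd 194 (.lf 146 1 3) (.lf 189 1 3) (.nd 194 (.lf 159 1 1) (.lf 194 1 1) (.lf 171 2 3)))) (.lf 198 1 1) (.nd 177 (.nd 177 (.lf 167 1 1) (.lf 172 1 1) (.lf 177 1 3)) (.lf 175 1 3) (.lf 168 1 1))) (.lf 195 1 1)) (.nd 195 (.nd 168 (.lf 136 1 1) (.lf 164 1 1) (.nd 168 (.lf 164 1 1) (.lf 156 1 1) (.lf 168 1 1))) (.lf 195 1 1) (.lf 166 1 1))) (.nd 213 (.nd 192 (.lf 166 1 1) (.nd 166 (.lf 166 1 1) (.lf 166 2 3) (.lf 161 1 1)) (.nd 192 (.lf 146 2 3) (.nd 182 (.lf 145 2 3) (.lf 148 2 3) (.nd 182 (.lf 174 2 3) (.lf 174 2 3) (.lf 182 1 3))) (.nd 192 (.lf 185 1 1) (.lf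 192 1 1) (.nd 185 (.lf 185 1 1) (.lf 157 1 1) (.lf 158 1 1))))) (.nd 213 (.nd 213 (.nd 212 (.nd 204 (.lf 196 2 3) (.lf 204 2 3) (.lf 204 1 1)) (.nd 210 (.nd 210 (.lf 202 1 3) (.lf 210 1 1) (.lf 174 1 3)) (.lf 209 1 1) (.lf 202 1 3)) (.nd 212 (.nd 206 (.lf 194 2 3) (.lf 206 1 1) (.lf 199 2 3)) (.lf 197 2 3) (.nd 212 (.lf 209 1 1) (.nd 212 (.lf 203 1 1) (.lf 212 2 3) (.lf 193 2 3)) (.lf 207 1 1)))) (.lf 213 1 1) (.nd 193 (.lf 183 1 1) (.lf 181 1 1) (.nd 193 (.lf 191 2 3) (.lf 191 2 3) (.lf 193 1 1)))) (.nd 193 (.nd 193 (.lf 184 1 1) (.nd 193 (.lf 193 1 1) (.lf 192 1 1) (.nd 193 (.lf 193 1 1) (.lf 166 2 3) (.lf 190 2 3))) (.lf 168 1 1)) (.nd 191 (.lf 189 1 1) (.lf 188 1 1) (.nd 191 (.lf 191 1 1) (.nd 189 (.lf 172 1 1) (.lf 169 2 3) (.lf 189 1 1))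 (.nd 191 (.lf 171 1 1) (.lf 189 2 3) (.lf 191 2 3)))) (.lf 188 1 1)) (.nd 212 (.nd 212 (.lf 206 1 1) (.nd 212 (.nd 212 (.lf 210 2 3) (.lf 212 1 1) (.lf 205 1 1)) (.lf 211 1 1) (.lf 212 2 3)) (.lf 210 1 1)) (.lf 190 1 1) (.nd 195 (.lf 189 1 1) (.nd 195 (.lf 180 1 1) (.lf 191 2 3) (.lf 195 1 1)) (.lf 158 1 1)))) (.nd 192 (.nd 192 (.nd 192 (.nd 182 (.lf 182 1 1) (.lf 157 1 1) (.lf 161 1 1)) (.lf 192 1 1) (.lf 161 1 1)) (.lf 182 1 1) (.lf 137 1 1)) (.nd 191 (.lf 185 1 1) (.lf 191 2 3) (.lf 161 2 3)) (.nd 172 (.lf 172 2 3) (.nd 160 (.nd 153 (.lf 153 2 3) (.nd 153 (.lf 140 1 3) (.lf 111 1 3) (.lf 153 1 1)) (.lf 142 1 3)) (.lf 158 1 1) (.nd 160 (.lf 149 1 1) (.lf 155 2 3) (.lf 160 1 1))) (.lf 171 2 3))))))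

def t15_317 : Tr := (.nd 285 (.lf 270 2 2) (.lf 285 1 2) (.nd 266 (.nd 229 (.lf 229 2 2) (.nd 200 (.lf 200 2 2) (.lf 194 2 2) (.nd 171 (.lf 171 2 2) (.lf 171 2 2) (.nd 142 (.nd 133 (.lf 113 2 2) (.lf 133 2 2) (.lf 104 2 2)) (.lf 142 2 2) (.lf 140 2 2)))) (.lf 224 2 2)) (.lf 266 2 2) (.lf 259 1 2)))

def t15_319 : Tr := (.nd 68 (.nd 68 (.nd 68 (.nd 44 (.lf 28 2 1) (.nd 44 (.nd 43 (.nd 41 (.lf 41 1 1) (.lf 26 1 1) (.lf 37 2 1)) (.lf 4 1 1) (.nd 43 (.lf 3 1 1) (.lf 6 1 1) (.lf 43 2 1))) (.lf 38 2 1) (.lf 44 2 1)) (.lf 30 2 1)) (.nd 49 (.nd 36 (.lf 10 2 1) (.nd 36 (.lf 36 2 1) (.nd 32 (.lf 30 2 1) (.lf 27 2 1) (.nd 32 (.lf 32 2 1) (.lf 0 1 1) (.lf 29 2 1))) (.lf 36 2 1)) (.lf 7 2 1)) (.nd 49 (.lf 45 2 1) (.lf 30 2 1) (.nd 49 (.lf 34 2 1) (.lf 36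 2 1) (.lf 49 1 1))) (.lf 8 2 1)) (.nd 68 (.nd 68 (.lf 50 2 1) (.lf 60 2 1) (.nd 68 (.nd 55 (.lf 31 1 1) (.lf 45 2 1) (.lf 55 2 1)) (.lf 68 2 1) (.lf 68 2 1))) (.nd 68 (.lf 68 2 1) (.lf 54 2 1) (.lf 49 2 1)) (.nd 68 (.nd 66 (.lf 52 2 1) (.nd 66 (.lf 66 1 1) (.lf 48 2 1) (.lf 42 2 1)) (.lf 54 1 1)) (.nd 68 (.lf 67 2 1) (.lf 59 1 1) (.nd 68 (.lf 28 1 1) (.lf 55 1 1) (.lf 68 2 1))) (.nd 65 (.lf 60 1 1) (.lf 65 2 1) (.lf 51 2 1))))) (.nd 63 (.nd 63 (.nd 60 (.nd 51 (.lf 51 1 1) (.lf 29 1 1) (.lf 0 1 1)) (.lf 29 1 1) (.lf 60 1 1)) (.lf 60 1 1) (.nd 63 (.lf 61 1 1) (.lf 56 1 1) (.nd 63 (.nd 63 (.lf 57 1 1) (.lf 62 1 1) (.nd 63 (.lf 52 1 1) (.lf 56 2 1) (.lf 63 1 1))) (.nd 59 (.lf 59 2 1) (.lf 33 2 1) (.lf 56 1 1)) (.nd 50 (.lf 50 1 1) (.lf 45 1 1) (.lf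 49 2 1))))) (.nd 55 (.lf 55 1 1) (.lf 34 1 1) (.lf 3 1 1)) (.nd 35 (.nd 17 (.nd 17 (.lf 0 1 1) (.lf 2 1 1) (.nd 17 (.lf 0 1 1) (.lf 17 1 1) (.lf 0 1 1))) (.lf 2 1 1) (.lf 0 1 1)) (.nd 25 (.nd 25 (.lf 14 1 1) (.lf 0 1 1) (.lf 25 1 1)) (.lf 0 1 1) (.lf 24 1 1)) (.nd 35 (.nd 21 (.lf 21 1 1) (.nd 19 (.lf 0 1 1) (.nd 19 (.lf 14 1 1) (.lf 19 2 1) (.lf 5 1 1)) (.lf 0 1 1)) (.lf 1 1 1)) (.lf 29 1 1) (.lf 35 1 1)))) (.nd 59 (.nd 30 (.nd 22 (.lf 8 2 1) (.lf 22 2 1) (.lf 7 2 1)) (.nd 30 (.nd 30 (.nd 30 (.lf 30 1 1) (.lf 13 1 1) (.nd 24 (.lf 24 2 1) (.lf 19 1 1) (.lf 9 1 1))) (.lf 11 1 1) (.lf 18 1 1)) (.lf 3 1 1) (.lf 2 1 1)) (.nd 15 (.lf 7 1 1) (.lf 15 2 1) (.lf 12 2 1))) (.nd 57 (.nd 33 (.lf 4 2 1) (.lf 2 2 1) (.lf 33 2 1)) (.nd 34 (.nd 22 (.lf 0 2 1)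 (.lf 0 2 1) (.nd 22 (.lf 10 2 1) (.lf 10 2 1) (.nd 22 (.lf 4 2 1) (.lf 1 2 1) (.nd 22 (.lf 5 2 1) (.lf 22 1 1) (.lf 3 2 1))))) (.lf 34 2 1) (.lf 0 2 1)) (.nd 57 (.nd 40 (.lf 15 2 1) (.lf 40 2 1) (.lf 28 2 1)) (.nd 57 (.lf 57 1 1) (.nd 50 (.lf 50 2 1) (.nd 46 (.lf 46 2 1) (.lf 42 2 1) (.lf 35 1 1)) (.lf 40 2 1)) (.lf 44 2 1)) (.lf 49 2 1))) (.nd 59 (.nd 29 (.lf 0 1 1) (.nd 29 (.lf 29 1 1) (.lf 0 1 1) (.lf 14 1 1)) (.lf 24 1 1)) (.nd 28 (.lf 0 1 1) (.lf 0 1 1) (.lf 28 1 1)) (.lf 59 1 1)))) (.nd 68 (.nd 68 (.nd 68 (.lf 47 2 1) (.lf 44 2 1) (.lf 68 2 1)) (.nd 34 (.nd 29 (.lf 0 2 1) (.lf 29 2 1) (.lf 7 2 1)) (.lf 5 2 1) (.lf 34 2 1)) (.nd 56 (.nd 30 (.lf 30 2 1) (.lf 3 2 1) (.lf 2 2 1)) (.lf 37 2 1) (.nd 56 (.lf 56 2 1) (.lf 37 2 1) (.lf 38 2 1))))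 (.nd 37 (.lf 11 2 1) (.lf 6 2 1) (.nd 37 (.nd 37 (.lf 33 2 1) (.lf 30 2 1) (.nd 37 (.lf 27 1 1) (.lf 30 1 1) (.nd 37 (.nd 25 (.lf 17 1 1) (.lf 5 1 1) (.lf 25 2 1)) (.lf 37 2 1) (.lf 35 1 1)))) (.nd 35 (.lf 27 2 1) (.lf 32 1 1) (.lf 35 2 1)) (.lf 35 2 1))) (.nd 11 (.lf 0 2 1) (.lf 2 2 1) (.nd 11 (.lf 2 2 1) (.lf 2 2 1) (.nd 11 (.lf 1 2 1) (.lf 0 2 1) (.lf 11 2 1))))) (.nd 39 (.nd 37 (.lf 27 2 1) (.nd 37 (.lf 27 2 1) (.lf 6 2 1) (.nd 37 (.lf 13 2 1) (.lf 19 2 1) (.lf 37 2 1))) (.lf 0 2 1)) (.nd 39 (.nd 33 (.lf 33 2 1) (.nd 24 (.lf 7 2 1) (.lf 24 1 1) (.lf 2 1 1)) (.lf 28 1 1)) (.nd 34 (.lf 17 1 1) (.lf 24 1 1) (.nd 34 (.lf 30 1 1) (.lf 29 1 1) (.lf 34 1 1))) (.nd 39 (.nd 25 (.lf 0 2 1) (.lf 0 2 1) (.nd 25 (.lf 7 2 1) (.lf 25 1 1) (.lf 13 2 1)))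 (.nd 39 (.nd 38 (.lf 19 2 1) (.nd 38 (.lf 37 2 1) (.lf 38 2 1) (.nd 37 (.lf 37 2 1) (.lf 36 2 1) (.lf 37 1 1))) (.lf 29 2 1)) (.nd 39 (.nd 35 (.nd 35 (.lf 17 2 1) (.lf 35 1 1) (.lf 11 2 1)) (.lf 21 2 1) (.lf 23 1 1)) (.lf 39 2 1) (.nd 37 (.nd 37 (.lf 24 1 1) (.lf 0 1 1) (.lf 37 2 1)) (.lf 28 1 1) (.lf 36 2 1))) (.lf 37 2 1)) (.lf 29 2 1))) (.nd 30 (.nd 1 (.nd 1 (.nd 0 (.lf 0 1 1) (.lf 0 2 1) (.lf 0 1 1)) (.lf 1 1 1) (.lf 0 2 1)) (.nd 1 (.nd 1 (.lf 0 1 1) (.lf 0 2 1) (.lf 1 1 1)) (.lf 0 2 1) (.lf 1 2 1)) (.lf 0 2 1)) (.nd 30 (.lf 30 2 1) (.lf 10 1 1) (.nd 28 (.lf 28 2 1) (.lf 2 2 1) (.lf 0 1 1))) (.lf 10 2 1))))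

def t15_320 : Tr := (.nd 255 (.nd 204 (.nd 197 (.lf 173 1 2) (.lf 145 1 2) (.lf 197 1 2)) (.nd 175 (.lf 175 1 2) (.lf 147 1 2) (.nd 167 (.lf 167 1 2) (.lf 116 1 2) (.lf 145 1 2))) (.nd 204 (.nd 185 (.lf 185 1 2) (.lf 180 1 2) (.lf 171 1 2)) (.lf 204 1 2) (.nd 194 (.lf 171 1 2) (.lf 194 1 2) (.lf 193 1 2)))) (.nd 253 (.lf 201 1 2) (.nd 206 (.lf 206 1 2) (.nd 175 (.lf 144 1 2) (.nd 175 (.lf 160 1 2) (.lf 175 1 2) (.nd 153 (.lf 153 1 2) (.lf 126 1 2) (.lf 136 1 2))) (.lf 145 1 2)) (.lf 178 1 2)) (.lf 253 1 2)) (.nd 255 (.nd 229 (.nd 224 (.nd 202 (.nd 171 (.lf 141 1 2) (.lf 138 1 2) (.lf 171 1 2)) (.lf 174 1 2) (.lf 202 1 2)) (.lf 224 1 2) (.lf 172 1 2)) (.lf 229 1 2) (.lf 200 1 2)) (.lf 255 1 2) (.lf 244 1 2)))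

def t15_322 : Tr := (.nd 369 (.lf 334 1 3) (.lf 344 1 3) (.nd 369 (.nd 333 (.nd 333 (.nd 311 (.lf 282 1 5) (.nd 282 (.lf 252 1 5) (.lf 282 1 5) (.nd 251 (.lf 251 1 5) (.lf 222 1 5) (.lf 220 1 5))) (.lf 311 1 5)) (.lf 308 1 5) (.lf 333 1 3)) (.lf 309 1 5) (.lf 328 1 3)) (.lf 354 1 3) (.lf 369 1 3)))

def t15_325 : Tr := (.nd 99 (.nd 68 (.lf 68 1 1) (.nd 44 (.lf 16 1 1) (.lf 22 1 1) (.nd 44 (.lf 25 1 1) (.lf 44 1 1) (.lf 44 1 1))) (.nd 47 (.nd 47 (.lf 13 1 1) (.nd 47 (.lf 23 1 1) (.lf 26 1 1) (.nd 47 (.lf 39 1 1) (.lf 33 1 1) (.lf 47 1 1))) (.lf 35 1 1)) (.lf 0 1 1) (.nd 33 (.lf 0 1 1) (.nd 33 (.lf 14 1 1) (.lf 21 1 1) (.lf 33 1 1)) (.lf 0 1 1)))) (.nd 99 (.nd 84 (.nd 84 (.nd 77 (.lf 77 1 1) (.nd 55 (.lf 44 1 1) (.lf 19 1 1) (.lf 55 1 1)) (.lf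 49 1 1)) (.nd 78 (.lf 78 1 1) (.nd 64 (.lf 64 1 1) (.lf 44 1 1) (.lf 44 1 1)) (.nd 59 (.lf 38 1 1) (.lf 41 1 1) (.lf 59 1 1))) (.lf 84 1 1)) (.nd 69 (.lf 34 1 1) (.lf 38 1 1) (.nd 69 (.nd 48 (.lf 40 1 1) (.lf 48 1 1) (.lf 39 1 1)) (.lf 69 1 1) (.lf 48 1 1))) (.nd 64 (.nd 48 (.lf 20 1 1) (.lf 48 1 1) (.lf 17 1 1)) (.nd 64 (.lf 40 1 1) (.lf 64 1 1) (.lf 51 1 1)) (.lf 18 1 1))) (.nd 99 (.nd 99 (.lf 77 1 1) (.nd 99 (.lf 80 1 1) (.lf 86 1 1) (.lf 99 1 1)) (.lf 80 1 1)) (.lf 84 1 1) (.nd 76 (.lf 58 1 1) (.nd 76 (.lf 32 1 1) (.lf 42 1 1) (.lf 76 1 1)) (.lf 75 1 1))) (.nd 77 (.nd 63 (.lf 44 1 1) (.nd 63 (.lf 50 1 1) (.lf 63 1 1) (.nd 59 (.lf 44 1 1) (.lf 59 1 1) (.lf 27 1 1))) (.lf 43 1 1)) (.lf 77 1 1) (.nd 66 (.lf 66 1 1) (.lf 43 1 1) (.lf 30 1 1))))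 (.nd 70 (.nd 64 (.nd 64 (.nd 64 (.lf 64 1 1) (.lf 43 1 1) (.lf 39 1 1)) (.lf 45 1 1) (.lf 45 1 1)) (.lf 21 1 1) (.nd 16 (.lf 0 1 1) (.lf 16 1 1) (.lf 0 1 1))) (.nd 19 (.lf 0 1 1) (.lf 12 1 1) (.nd 19 (.lf 0 1 1) (.lf 9 1 1) (.lf 19 1 1))) (.nd 70 (.nd 59 (.lf 44 1 1) (.nd 59 (.lf 59 1 1) (.lf 44 1 1) (.lf 37 1 1)) (.lf 31 1 1)) (.lf 70 1 1) (.nd 44 (.lf 15 1 1) (.lf 44 1 1) (.nd 39 (.lf 0 1 1) (.lf 39 1 1) (.lf 17 1 1))))))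

def t15_326 : Tr := (.nd 232 (.nd 217 (.nd 194 (.lf 194 1 2) (.nd 175 (.lf 175 1 2) (.lf 144 1 2) (.nd 136 (.lf 123 1 2) (.lf 136 1 2) (.lf 120 1 2))) (.nd 176 (.lf 171 1 2) (.lf 176 1 2) (.nd 124 (.lf 124 1 2) (.lf 119 1 2) (.lf 95 1 2)))) (.lf 217 1 2) (.nd 193 (.lf 173 1 2) (.nd 168 (.nd 150 (.lf 98 1 2) (.lf 145 1 2) (.lf 150 1 2)) (.lf 168 1 2) (.nd 149 (.lf 118 1 2) (.nd 149 (.nd 127 (.lf 116 1 2) (.lf 113 1 2) (.lf 127 1 2)) (.nd 134 (.lf 114 1 2) (.lf 134 1 2) (.lf 119 1 2)) (.lf 149 1 2)) (.lf 120 1 2))) (.lf 193 1 2))) (.nd 202 (.nd 178 (.nd 152 (.lf 152 1 2) (.nd 118 (.nd 111 (.lf 91 1 2) (.nd 111 (.lf 91 1 2) (.nd 111 (.lf 79 1 2) (.lf 84 1 2) (.lf 111 1 2)) (.lf 83 1 2)) (.lf 82 1 2)) (.lf 118 1 2) (.nd 118 (.lf 63 1 2) (.lf 118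 1 2) (.lf 88 1 2))) (.nd 149 (.nd 92 (.lf 92 1 2) (.nd 83 (.lf 83 1 2) (.lf 60 1 2) (.lf 54 1 2)) (.lf 62 1 2)) (.nd 119 (.lf 119 1 2) (.lf 87 1 2) (.lf 92 1 2)) (.lf 149 1 2))) (.lf 178 1 2) (.nd 172 (.lf 148 1 2) (.nd 121 (.lf 92 1 2) (.nd 114 (.lf 90 1 2) (.lf 114 1 2) (.lf 62 1 2)) (.lf 121 1 2)) (.lf 172 1 2))) (.nd 202 (.nd 202 (.nd 172 (.lf 170 1 2) (.lf 148 1 2) (.nd 172 (.nd 150 (.nd 150 (.lf 150 1 2) (.lf 148 1 2) (.lf 133 1 2)) (.lf 119 1 2) (.lf 122 1 2)) (.nd 172 (.lf 172 1 2) (.lf 157 1 2) (.nd 142 (.lf 142 1 2) (.lf 140 1 2) (.lf 118 1 2))) (.lf 120 1 2))) (.lf 202 1 2) (.lf 187 1 2)) (.lf 150 1 2) (.nd 180 (.lf 180 1 2) (.nd 149 (.nd 149 (.lf 127 1 2) (.nd 124 (.lf 119 1 2) (.lf 108 1 2) (.lf 124 1 2)) (.lf 149 1 2)) (.lf 119 1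 2) (.lf 116 1 2)) (.lf 152 1 2))) (.nd 200 (.nd 193 (.lf 193 1 2) (.nd 176 (.lf 168 1 2) (.nd 145 (.lf 120 1 2) (.lf 142 1 2) (.lf 145 1 2)) (.lf 176 1 2)) (.lf 192 1 2)) (.nd 200 (.nd 179 (.lf 179 1 2) (.nd 151 (.nd 151 (.lf 143 1 2) (.nd 151 (.lf 151 1 2) (.lf 125 1 2) (.lf 125 1 2)) (.lf 134 1 2)) (.lf 122 1 2) (.lf 146 1 2)) (.lf 179 1 2)) (.nd 176 (.lf 176 1 2) (.nd 171 (.lf 171 1 2) (.lf 150 1 2) (.lf 154 1 2)) (.lf 173 1 2)) (.lf 200 1 2)) (.nd 190 (.nd 190 (.lf 190 1 2) (.lf 172 1 2) (.nd 168 (.lf 145 1 2) (.nd 147 (.lf 96 1 2) (.lf 122 1 2) (.lf 147 1 2)) (.lf 168 1 2))) (.lf 173 1 2) (.lf 185 1 2)))) (.lf 232 1 2))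

def t15_328 : Tr := (.nd 187 (.nd 173 (.nd 153 (.lf 118 1 1) (.lf 122 1 1) (.lf 153 1 1)) (.nd 154 (.nd 149 (.lf 101 1 1) (.lf 104 1 1) (.lf 149 1 1)) (.nd 154 (.lf 139 1 1) (.lf 124 1 1) (.nd 154 (.lf 130 1 1) (.nd 154 (.lf 140 1 1) (.lf 153 1 1) (.lf 154 1 1)) (.lf 128 1 1))) (.lf 102 1 1)) (.nd 173 (.lf 162 1 1) (.nd 173 (.nd 171 (.lf 171 1 1) (.lf 142 1 1) (.nd 168 (.lf 145 1 1) (.lf 134 1 1) (.nd 168 (.lf 157 1 1) (.lf 154 1 1) (.lf 168 1 1)))) (.lf 173 1 1) (.lf 164 1 1)) (.lf 169 1 1))) (.nd 187 (.nd 187 (.nd 145 (.lf 145 1 1) (.nd 116 (.lf 110 1 1) (.lf 87 1 1) (.nd 116 (.lf 116 1 1) (.lf 107 1 1) (.lf 97 1 1))) (.lf 140 1 1)) (.nd 187 (.nd 187 (.lf 171 1 1) (.lf 171 1 1) (.nd 187 (.lf 183 1 1) (.lf 171 1 1) (.nd 187 (.lf 177 1 1) (.lf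 179 1 1) (.nd 187 (.lf 187 1 1) (.lf 187 1 1) (.lf 179 1 1))))) (.lf 167 1 1) (.nd 182 (.lf 159 1 1) (.lf 158 1 1) (.nd 182 (.lf 182 1 1) (.lf 171 1 1) (.lf 165 1 1)))) (.nd 173 (.nd 147 (.lf 118 1 1) (.lf 147 1 1) (.nd 118 (.lf 95 1 1) (.lf 92 1 1) (.lf 118 1 1))) (.nd 144 (.lf 144 1 1) (.nd 111 (.lf 74 1 1) (.lf 111 1 1) (.lf 82 1 1)) (.lf 99 1 1)) (.nd 173 (.nd 173 (.nd 173 (.lf 137 1 1) (.lf 173 1 1) (.lf 156 1 1)) (.lf 164 1 1) (.lf 161 1 1)) (.lf 168 1 1) (.lf 168 1 1)))) (.nd 181 (.nd 165 (.lf 120 1 1) (.lf 165 1 1) (.lf 144 1 1)) (.lf 165 1 1) (.nd 181 (.nd 181 (.lf 171 1 1) (.lf 181 1 1) (.lf 181 1 1)) (.nd 181 (.lf 166 1 1) (.lf 181 1 1) (.lf 148 1 1)) (.lf 171 1 1))) (.nd 187 (.nd 183 (.nd 183 (.lf 167 1 1) (.lf 176 1 1) (.nd 183 (.lf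 174 1 1) (.nd 183 (.lf 172 1 1) (.lf 183 1 1) (.lf 156 1 1)) (.lf 182 1 1))) (.nd 177 (.lf 177 1 1) (.lf 158 1 1) (.lf 156 1 1)) (.lf 176 1 1)) (.nd 187 (.nd 187 (.lf 187 1 1) (.lf 183 1 1) (.nd 151 (.lf 151 1 1) (.lf 122 1 1) (.lf 146 1 1))) (.lf 181 1 1) (.nd 186 (.nd 185 (.lf 185 1 1) (.lf 160 1 1) (.lf 164 1 1)) (.lf 186 1 1) (.nd 185 (.lf 172 1 1) (.nd 185 (.lf 183 1 1) (.lf 185 1 1) (.lf 185 1 1)) (.lf 177 1 1)))) (.nd 179 (.nd 179 (.lf 176 1 1) (.nd 179 (.nd 179 (.lf 165 1 1) (.lf 160 1 1) (.lf 179 1 1)) (.lf 163 1 1) (.lf 179 1 1)) (.lf 172 1 1)) (.lf 172 1 1) (.nd 171 (.lf 171 1 1) (.nd 167 (.lf 143 1 1) (.lf 120 1 1) (.nd 167 (.lf 119 1 1) (.lf 122 1 1) (.lf 167 1 1))) (.lf 167 1 1))))) (.nd 168 (.nd 168 (.nd 168 (.nd 168 (.nd 159 (.lf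 137 1 1) (.lf 144 1 1) (.nd 159 (.lf 154 1 1) (.lf 159 1 1) (.lf 154 1 1))) (.nd 168 (.lf 159 1 1) (.lf 168 1 1) (.lf 162 1 1)) (.nd 161 (.lf 125 1 1) (.nd 161 (.lf 148 1 1) (.lf 161 1 1) (.lf 134 1 1)) (.lf 157 1 1))) (.lf 155 1 1) (.nd 160 (.lf 151 1 1) (.lf 150 1 1) (.nd 160 (.lf 141 1 1) (.lf 150 1 1) (.lf 160 1 1)))) (.nd 163 (.lf 119 1 1) (.lf 163 1 1) (.lf 147 1 1)) (.nd 152 (.nd 141 (.lf 105 1 1) (.lf 141 1 1) (.lf 90 1 1)) (.lf 152 1 1) (.lf 132 1 1))) (.nd 150 (.nd 150 (.lf 132 1 1) (.nd 150 (.nd 150 (.lf 142 1 1) (.lf 142 1 1) (.nd 150 (.lf 99 1 1) (.nd 150 (.lf 122 1 1) (.lf 150 1 1) (.lf 108 1 1)) (.lf 131 1 1))) (.lf 139 1 1) (.lf 139 1 1)) (.nd 145 (.nd 145 (.nd 145 (.lf 119 1 1) (.lf 145 1 1) (.lf 121 1 1)) (.lf 115 1 1) (.lf 130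 1 1)) (.lf 121 1 1) (.lf 93 1 1))) (.lf 127 1 1) (.nd 132 (.lf 101 1 1) (.lf 102 1 1) (.lf 132 1 1))) (.nd 147 (.nd 147 (.lf 143 1 1) (.lf 136 1 1) (.lf 147 1 1)) (.lf 127 1 1) (.nd 128 (.lf 76 1 1) (.nd 123 (.lf 78 1 1) (.lf 123 1 1) (.lf 75 1 1)) (.lf 128 1 1)))))

def t15_329 : Tr := (.nd 210 (.nd 198 (.nd 198 (.nd 198 (.nd 198 (.lf 193 1 2) (.nd 198 (.lf 198 1 2) (.lf 198 4 4) (.lf 168 1 2)) (.lf 197 4 4)) (.lf 187 4 4) (.lf 188 4 4)) (.lf 192 3 4) (.nd 187 (.nd 164 (.lf 164 3 4) (.lf 148 4 4) (.lf 161 3 4)) (.lf 174 1 2) (.lf 187 3 4))) (.nd 188 (.lf 137 4 4) (.nd 188 (.lf 188 4 4) (.lf 162 4 4) (.lf 177 4 4)) (.nd 163 (.nd 163 (.lf 163 4 4) (.lf 140 1 2) (.lf 162 1 2)) (.lf 139 4 4) (.lf 134 4 4))) (.nd 174 (.nd 172 (.nd 172 (.lf 157 4 4)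 (.lf 158 4 4) (.lf 172 1 2)) (.nd 165 (.lf 156 3 4) (.lf 161 4 4) (.lf 165 4 4)) (.lf 161 3 4)) (.lf 174 1 2) (.nd 165 (.lf 165 4 4) (.lf 108 4 4) (.nd 162 (.lf 162 4 4) (.lf 103 4 4) (.lf 108 4 4))))) (.nd 206 (.nd 194 (.lf 170 4 4) (.nd 194 (.nd 194 (.lf 185 4 4) (.lf 194 4 4) (.lf 191 3 4)) (.nd 190 (.lf 185 4 4) (.nd 190 (.lf 186 3 4) (.lf 190 1 2) (.lf 189 3 4)) (.lf 189 4 4)) (.lf 194 4 4)) (.lf 165 4 4)) (.nd 206 (.nd 206 (.lf 194 4 4) (.nd 206 (.lf 206 1 2) (.lf 179 1 2) (.lf 176 1 2)) (.lf 177 1 2)) (.lf 203 4 4) (.lf 188 4 4)) (.nd 166 (.nd 166 (.lf 149 4 4) (.nd 166 (.lf 166 4 4) (.lf 140 4 4) (.lf 140 4 4)) (.nd 158 (.lf 135 4 4) (.lf 158 4 4) (.lf 157 4 4))) (.lf 161 4 4) (.lf 137 4 4))) (.nd 210 (.nd 202 (.nd 190 (.lf 162 3 4) (.nd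 189 (.lf 161 3 4) (.lf 164 3 4) (.nd 189 (.nd 189 (.nd 189 (.lf 165 3 4) (.lf 189 1 2) (.lf 166 3 4)) (.lf 168 3 4) (.lf 185 3 4)) (.lf 181 3 4) (.nd 186 (.lf 186 1 2) (.lf 184 3 4) (.lf 181 3 4)))) (.nd 190 (.nd 182 (.lf 176 3 4) (.nd 182 (.lf 173 1 2) (.lf 157 1 2) (.lf 182 3 4)) (.lf 175 3 4)) (.lf 184 3 4) (.nd 190 (.lf 183 1 2) (.lf 183 3 4) (.lf 190 3 4)))) (.nd 202 (.lf 192 1 2) (.lf 177 1 2) (.lf 202 1 2)) (.nd 184 (.lf 184 3 4) (.lf 161 3 4) (.nd 184 (.lf 171 3 4) (.nd 184 (.lf 184 1 2) (.lf 168 3 4) (.lf 169 3 4)) (.lf 171 1 2)))) (.nd 210 (.nd 210 (.nd 210 (.lf 169 4 4) (.lf 166 4 4) (.nd 210 (.lf 195 4 4) (.nd 210 (.lf 186 4 4) (.lf 189 4 4) (.lf 210 3 4)) (.lf 195 4 4))) (.lf 167 4 4) (.nd 204 (.nd 195 (.lf 195 4 4) (.lf 193 4 4)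 (.lf 181 1 2)) (.lf 189 4 4) (.lf 204 4 4))) (.nd 189 (.lf 177 1 2) (.nd 189 (.nd 173 (.nd 173 (.lf 164 4 4) (.lf 173 1 2) (.lf 164 4 4)) (.lf 135 4 4) (.lf 140 4 4)) (.lf 189 4 4) (.lf 138 4 4)) (.nd 182 (.lf 176 1 2) (.nd 182 (.nd 182 (.nd 182 (.lf 178 3 4) (.lf 181 3 4) (.nd 182 (.lf 178 3 4) (.lf 180 4 4) (.lf 182 3 4))) (.lf 182 1 2) (.nd 179 (.lf 175 4 4) (.lf 174 4 4) (.lf 179 3 4))) (.lf 175 3 4) (.nd 159 (.lf 159 4 4) (.lf 134 3 4) (.lf 157 4 4))) (.lf 179 1 2))) (.nd 204 (.nd 204 (.nd 204 (.lf 193 1 2) (.lf 171 1 2) (.nd 204 (.lf 204 1 2) (.lf 184 3 4) (.nd 188 (.lf 188 1 2) (.lf 158 3 4) (.lf 185 3 4)))) (.nd 199 (.lf 199 3 4) (.lf 192 1 2) (.lf 195 1 2)) (.nd 204 (.lf 204 1 2) (.nd 202 (.nd 202 (.lf 202 1 2) (.lf 195 1 2) (.lf 202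 4 4)) (.lf 182 4 4) (.lf 196 4 4)) (.nd 195 (.lf 195 1 2) (.nd 179 (.lf 171 1 2) (.lf 161 1 2) (.lf 179 3 4)) (.lf 185 1 2)))) (.lf 197 1 2) (.lf 188 1 2))) (.nd 182 (.nd 170 (.nd 167 (.nd 167 (.nd 167 (.lf 149 1 2) (.lf 156 1 2) (.nd 167 (.lf 153 3 4) (.lf 148 1 2) (.lf 167 3 4))) (.lf 142 1 2) (.lf 140 1 2)) (.lf 161 3 4) (.lf 162 3 4)) (.nd 170 (.lf 167 4 4) (.lf 166 4 4) (.lf 170 1 2)) (.nd 166 (.nd 150 (.lf 141 4 4) (.lf 140 4 4) (.lf 150 1 2)) (.lf 155 1 2) (.lf 166 3 4))) (.nd 182 (.nd 178 (.nd 173 (.nd 164 (.lf 162 3 4) (.lf 164 3 4) (.lf 157 1 2)) (.lf 173 3 4) (.lf 158 3 4)) (.lf 136 3 4) (.lf 178 1 2)) (.lf 182 1 2) (.nd 172 (.lf 146 1 2) (.nd 172 (.lf 172 3 4) (.lf 145 1 2) (.lf 148 1 2)) (.lf 156 3 4))) (.nd 181 (.nd 177 (.nd 177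 (.lf 153 1 2) (.lf 150 1 2) (.lf 177 4 4)) (.lf 151 1 2) (.lf 163 4 4)) (.lf 178 1 2) (.nd 181 (.nd 178 (.nd 169 (.lf 162 1 2) (.lf 169 4 4) (.lf 167 4 4)) (.lf 163 4 4) (.lf 178 4 4)) (.nd 181 (.nd 181 (.lf 169 4 4) (.lf 169 4 4) (.nd 181 (.lf 163 4 4) (.nd 181 (.lf 181 3 4) (.lf 164 4 4) (.lf 162 4 4)) (.lf 160 4 4))) (.lf 143 4 4) (.lf 140 4 4)) (.lf 141 4 4))))))

def t15_331 : Tr := (.nd 247 (.nd 221 (.nd 211 (.lf 180 1 3) (.nd 211 (.nd 209 (.lf 197 1 3) (.nd 209 (.lf 192 1 3) (.lf 173 1 3) (.nd 209 (.lf 195 1 3) (.lf 209 1 3) (.lf 195 1 3))) (.lf 200 1 3)) (.lf 206 1 3) (.lf 211 1 3)) (.lf 183 1 3)) (.lf 181 1 3) (.nd 221 (.nd 209 (.lf 185 1 3) (.lf 194 1 3) (.nd 209 (.lf 201 1 3) (.nd 209 (.lf 209 1 3) (.lf 208 1 3) (.lf 206 1 3)) (.lf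 207 1 3))) (.nd 221 (.lf 202 1 3) (.nd 221 (.lf 215 1 3) (.nd 214 (.lf 214 1 3) (.nd 211 (.lf 199 1 3) (.lf 207 1 3) (.lf 211 1 3)) (.lf 207 1 3)) (.nd 221 (.lf 221 1 3) (.lf 211 1 3) (.lf 207 1 3))) (.lf 205 1 3)) (.lf 201 1 3))) (.nd 232 (.nd 232 (.nd 212 (.lf 202 1 3) (.nd 212 (.nd 212 (.lf 211 1 3) (.nd 212 (.lf 212 1 3) (.lf 212 1 3) (.nd 212 (.lf 191 1 3) (.lf 212 1 3) (.lf 189 1 3))) (.lf 211 1 3)) (.lf 211 1 3) (.nd 211 (.lf 189 1 3) (.lf 188 1 3) (.lf 211 1 3))) (.lf 203 1 3)) (.nd 211 (.lf 201 1 3) (.lf 211 1 3) (.lf 196 1 3)) (.lf 232 1 3)) (.nd 201 (.lf 168 1 3) (.lf 184 1 3) (.nd 201 (.lf 192 1 3) (.lf 189 1 3) (.nd 201 (.lf 195 1 3) (.lf 201 1 3) (.lf 193 1 3)))) (.lf 193 1 3)) (.nd 247 (.nd 241 (.nd 217 (.lf 201 1 3) (.nd 217 (.lf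 206 1 3) (.lf 216 1 3) (.lf 217 1 3)) (.lf 204 1 3)) (.nd 227 (.lf 207 1 3) (.lf 208 1 3) (.lf 227 1 3)) (.nd 241 (.nd 238 (.lf 238 1 3) (.lf 227 1 3) (.lf 199 1 3)) (.lf 235 1 3) (.nd 241 (.lf 241 1 3) (.lf 233 1 3) (.nd 237 (.lf 230 1 3) (.nd 237 (.lf 221 1 3) (.lf 230 1 3) (.lf 237 1 3)) (.lf 231 1 3))))) (.nd 239 (.nd 223 (.nd 223 (.lf 204 1 3) (.lf 223 1 3) (.lf 210 1 3)) (.lf 182 1 3) (.lf 207 1 3)) (.nd 239 (.lf 225 1 3) (.lf 239 1 3) (.lf 228 1 3)) (.lf 217 1 3)) (.nd 247 (.nd 247 (.lf 225 1 3) (.nd 239 (.lf 229 1 5) (.lf 230 1 5) (.nd 239 (.lf 239 1 3) (.lf 232 1 3) (.lf 237 1 3))) (.nd 247 (.lf 215 1 3) (.lf 213 1 3) (.lf 247 1 3))) (.nd 237 (.nd 237 (.lf 235 1 3) (.nd 237 (.nd 237 (.lf 234 1 3) (.lf 236 1 3) (.nd 237 (.lf 237 1 5) (.lf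 218 1 3) (.lf 231 1 3))) (.lf 233 1 3) (.lf 207 1 3)) (.lf 230 1 3)) (.nd 217 (.lf 208 1 3) (.nd 217 (.lf 213 1 5) (.lf 213 1 5) (.nd 217 (.lf 213 1 5) (.lf 217 1 3) (.lf 213 1 5))) (.lf 203 1 3)) (.nd 226 (.lf 210 1 3) (.nd 226 (.lf 216 1 3) (.lf 226 1 5) (.lf 223 1 3)) (.lf 196 1 3))) (.nd 240 (.nd 232 (.lf 229 1 3) (.lf 228 1 3) (.lf 232 1 3)) (.nd 240 (.lf 221 1 3) (.lf 240 1 3) (.lf 238 1 3)) (.nd 238 (.lf 238 1 3) (.nd 235 (.lf 228 1 3) (.nd 235 (.lf 224 1 3) (.nd 235 (.lf 234 1 3) (.lf 235 1 3) (.lf 234 1 3)) (.lf 232 1 3)) (.lf 226 1 3)) (.lf 233 1 3))))))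

def t15_334 : Tr := (.nd 99 (.nd 42 (.nd 12 (.nd 3 (.lf 0 1 1) (.lf 0 1 1) (.nd 3 (.lf 0 1 1) (.lf 3 1 1) (.lf 0 1 1))) (.nd 12 (.lf 0 1 1) (.lf 7 1 1) (.lf 12 1 1)) (.lf 0 1 1)) (.nd 42 (.lf 33 1 1) (.nd 42 (.lf 32 1 1) (.lf 42 1 1) (.lf 30 1 1)) (.lf 33 1 1)) (.nd 33 (.nd 33 (.nd 33 (.lf 33 1 1) (.lf 9 1 1) (.lf 7 1 1)) (.lf 3 1 1) (.lf 18 1 1)) (.nd 10 (.lf 0 1 1) (.nd 10 (.lf 10 1 1) (.lf 0 1 1) (.lf 9 1 1)) (.lf 0 1 1)) (.lf 0 1 1))) (.nd 85 (.nd 85 (.nd 85 (.nd 85 (.nd 82 (.lf 69 4 3) (.lf 71 1 1) (.lf 82 1 1)) (.nd 85 (.nd 84 (.lf 56 1 1) (.lf 84 4 3) (.lf 83 1 1)) (.lf 85 1 1) (.lf 68 1 1)) (.nd 81 (.lf 81 1 1) (.lf 57 4 3) (.lf 64 1 1))) (.nd 61 (.lf 61 1 1) (.lf 35 1 1) (.lf 60 1 1)) (.nd 64 (.lf 56 1 1) (.lf 46 1 1) (.nd 64 (.lf 64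 1 1) (.lf 49 1 1) (.lf 61 1 1)))) (.nd 66 (.nd 66 (.lf 45 1 1) (.nd 52 (.lf 52 1 1) (.lf 29 1 1) (.lf 20 1 1)) (.lf 66 1 1)) (.nd 44 (.lf 44 1 1) (.lf 43 1 1) (.nd 25 (.lf 25 1 1) (.lf 8 1 1) (.nd 25 (.lf 3 1 1) (.lf 25 1 1) (.lf 3 1 1)))) (.nd 66 (.lf 55 1 1) (.lf 66 1 1) (.lf 53 1 1))) (.nd 73 (.nd 66 (.lf 30 1 1) (.lf 56 1 1) (.lf 66 1 1)) (.nd 73 (.nd 61 (.lf 61 1 1) (.lf 54 4 3) (.lf 59 1 1)) (.nd 54 (.lf 32 1 1) (.lf 54 1 1) (.nd 50 (.nd 50 (.lf 50 1 1) (.lf 48 4 3) (.lf 50 1 1)) (.lf 48 1 1) (.lf 35 1 1))) (.nd 73 (.lf 53 4 3) (.lf 73 1 1) (.lf 56 1 1))) (.lf 58 1 1))) (.nd 37 (.lf 6 1 1) (.nd 37 (.lf 16 1 1) (.lf 37 1 1) (.lf 15 1 1)) (.nd 7 (.lf 0 1 1) (.lf 7 1 1) (.lf 2 1 1))) (.nd 42 (.nd 11 (.lf 0 1 1) (.lf 11 1 1) (.lf 0 1 1)) (.lf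 14 1 1) (.lf 42 1 1))) (.nd 99 (.nd 65 (.nd 65 (.lf 65 1 1) (.lf 48 1 1) (.lf 57 1 1)) (.nd 36 (.lf 36 1 1) (.nd 30 (.lf 30 1 1) (.lf 6 1 1) (.lf 0 1 1)) (.lf 10 1 1)) (.nd 60 (.nd 60 (.lf 60 1 1) (.lf 45 1 1) (.lf 30 1 1)) (.lf 8 1 1) (.lf 38 1 1))) (.nd 99 (.lf 75 1 1) (.nd 78 (.lf 78 1 1) (.lf 72 1 1) (.lf 77 1 1)) (.nd 99 (.nd 91 (.lf 80 1 1) (.lf 91 1 1) (.lf 71 1 1)) (.nd 85 (.lf 71 1 1) (.lf 76 1 1) (.nd 85 (.lf 56 1 1) (.lf 85 1 1) (.lf 81 1 1))) (.nd 99 (.nd 99 (.lf 87 1 1) (.nd 88 (.lf 66 1 1) (.lf 88 1 1) (.lf 36 1 1)) (.lf 99 1 1)) (.lf 92 1 1) (.nd 90 (.lf 90 1 1) (.lf 87 1 1) (.nd 81 (.lf 62 1 1) (.lf 81 1 1) (.lf 61 1 1)))))) (.nd 87 (.nd 87 (.nd 87 (.lf 76 1 1) (.lf 76 1 1) (.lf 87 1 1)) (.lf 69 1 1) (.lf 68 1 1)) (.lf 68 1 1)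 (.lf 61 1 1))))

def t15_335 : Tr := (.nd 152 (.nd 152 (.lf 137 2 2) (.lf 130 2 2) (.nd 152 (.nd 149 (.nd 149 (.lf 134 2 2) (.nd 149 (.nd 149 (.nd 149 (.lf 137 2 2) (.lf 149 2 2) (.lf 139 2 2)) (.lf 139 2 2) (.lf 140 2 2)) (.lf 135 2 2) (.lf 135 2 2)) (.lf 130 2 2)) (.lf 110 2 2) (.lf 136 2 2)) (.nd 152 (.lf 138 2 2) (.nd 152 (.lf 134 2 2) (.lf 130 2 2) (.nd 152 (.lf 131 2 2) (.lf 152 2 2) (.lf 130 2 2))) (.lf 128 2 2)) (.lf 132 2 2))) (.nd 121 (.nd 90 (.nd 69 (.lf 12 2 2) (.lf 55 2 2) (.lf 69 2 2)) (.lf 90 2 2) (.lf 66 2 2)) (.nd 121 (.nd 106 (.lf 86 2 2) (.lf 106 2 2) (.lf 91 2 2)) (.lf 121 2 2) (.nd 99 (.lf 99 2 2) (.lf 88 2 2) (.lf 85 2 2))) (.nd 92 (.nd 41 (.lf 41 2 2) (.nd 12 (.lf 12 2 2) (.lf 4 2 2) (.lf 0 2 2)) (.lf 34 2 2)) (.lf 92 2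 2) (.nd 86 (.lf 38 2 2) (.nd 86 (.lf 67 2 2) (.lf 67 2 2) (.nd 86 (.lf 61 2 2) (.lf 86 2 2) (.lf 65 2 2))) (.lf 43 2 2)))) (.nd 122 (.nd 70 (.nd 41 (.lf 35 2 2) (.lf 41 2 2) (.lf 12 2 2)) (.lf 70 2 2) (.nd 65 (.lf 41 2 2) (.lf 13 2 2) (.nd 65 (.lf 50 2 2) (.nd 65 (.lf 34 2 2) (.lf 65 2 2) (.lf 41 2 2)) (.lf 35 2 2)))) (.nd 117 (.lf 72 2 2) (.nd 117 (.nd 98 (.lf 93 2 2) (.lf 98 2 2) (.lf 75 2 2)) (.lf 98 2 2) (.nd 117 (.nd 92 (.lf 92 2 2) (.lf 66 2 2) (.lf 67 2 2)) (.lf 89 2 2) (.lf 117 2 2))) (.nd 69 (.lf 36 2 2) (.lf 69 2 2) (.lf 39 2 2))) (.nd 122 (.nd 122 (.nd 96 (.lf 91 2 2) (.lf 96 2 2) (.nd 79 (.lf 64 2 2) (.lf 79 2 2) (.lf 48 2 2))) (.lf 98 2 2) (.nd 122 (.lf 121 2 2) (.lf 122 2 2) (.lf 108 2 2))) (.nd 107 (.lf 84 2 2) (.lf 107 2 2) (.lf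 83 2 2)) (.lf 92 2 2))))

def t15_337 : Tr := (.nd 94 (.nd 64 (.nd 59 (.lf 59 3 1) (.lf 11 3 1) (.lf 14 3 1)) (.nd 64 (.lf 64 3 1) (.lf 49 3 1) (.lf 34 3 1)) (.nd 12 (.lf 0 3 1) (.nd 12 (.lf 4 3 1) (.lf 0 3 1) (.lf 12 3 1)) (.lf 7 3 1))) (.nd 94 (.nd 72 (.nd 72 (.lf 72 3 1) (.lf 72 3 1) (.lf 66 3 1)) (.nd 58 (.lf 39 3 1) (.lf 38 3 1) (.nd 58 (.lf 48 3 1) (.nd 58 (.lf 58 3 1) (.lf 39 2 1) (.lf 34 2 1)) (.lf 39 2 1))) (.nd 56 (.lf 35 3 1) (.nd 56 (.lf 37 3 1) (.lf 56 3 1) (.lf 39 2 1)) (.lf 32 3 1))) (.lf 94 3 1) (.nd 72 (.lf 53 3 1) (.lf 64 3 1) (.nd 72 (.nd 72 (.lf 72 3 1) (.lf 70 2 1) (.lf 70 2 1)) (.nd 71 (.lf 49 3 1) (.lf 59 3 1) (.nd 71 (.nd 71 (.lf 69 3 1) (.lf 71 2 1) (.lf 65 3 1)) (.lf 70 3 1) (.lf 67 3 1))) (.lf 71 3 1)))) (.nd 63 (.nd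 24 (.lf 11 3 1) (.nd 24 (.nd 24 (.nd 22 (.lf 16 3 1) (.nd 20 (.lf 0 2 1) (.lf 12 3 1) (.lf 20 3 1)) (.nd 22 (.lf 19 2 1) (.lf 13 2 1) (.nd 22 (.lf 16 3 1) (.lf 22 2 1) (.lf 10 3 1)))) (.lf 21 3 1) (.lf 24 3 1)) (.lf 17 3 1) (.lf 14 3 1)) (.lf 8 3 1)) (.lf 63 3 1) (.nd 34 (.lf 34 3 1) (.nd 13 (.nd 13 (.lf 9 3 1) (.nd 13 (.lf 13 2 1) (.lf 7 3 1) (.lf 3 3 1)) (.lf 9 3 1)) (.lf 0 3 1) (.lf 0 3 1)) (.lf 0 3 1))))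

def t15_338 : Tr := (.nd 178 (.nd 156 (.nd 142 (.nd 122 (.lf 122 1 2) (.nd 91 (.lf 70 1 2) (.lf 67 1 2) (.lf 91 1 2)) (.lf 93 1 2)) (.lf 142 1 2) (.lf 123 1 2)) (.nd 145 (.nd 145 (.lf 125 1 2) (.lf 135 1 2) (.lf 145 1 2)) (.lf 109 1 2) (.nd 122 (.lf 122 1 2) (.lf 101 1 2) (.nd 104 (.lf 90 1 2) (.lf 104 1 2) (.nd 75 (.nd 44 (.lf 44 1 2) (.lf 27 1 2) (.lf 27 1 2)) (.lf 75 1 2) (.lf 45 1 2))))) (.nd 156 (.lf 146 1 2) (.lf 142 1 2) (.lf 156 1 2))) (.nd 178 (.lf 155 1 2) (.nd 163 (.nd 163 (.lf 139 1 2) (.lf 130 1 2) (.nd 163 (.nd 163 (.lf 144 1 2) (.lf 159 1 2) (.lf 163 1 2)) (.nd 163 (.lf 146 1 2) (.lf 163 1 2) (.lf 143 1 2)) (.lf 152 1 2))) (.nd 163 (.lf 163 1 2) (.nd 154 (.lf 150 1 2) (.lf 140 1 2) (.lf 154 1 2)) (.nd 160 (.lf 138 1 2) (.lf 160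 1 2) (.nd 160 (.lf 145 1 2) (.lf 153 1 2) (.lf 160 1 2)))) (.nd 140 (.lf 135 1 2) (.nd 111 (.lf 82 1 2) (.nd 105 (.lf 105 1 2) (.lf 54 1 2) (.lf 83 1 2)) (.lf 111 1 2)) (.nd 140 (.nd 132 (.lf 131 1 2) (.nd 109 (.lf 90 1 2) (.lf 109 1 2) (.lf 78 1 2)) (.lf 132 1 2)) (.lf 123 1 2) (.lf 140 1 2)))) (.nd 178 (.nd 178 (.nd 178 (.lf 156 1 2) (.lf 150 1 2) (.lf 178 1 2)) (.lf 165 1 2) (.lf 159 1 2)) (.lf 156 1 2) (.lf 159 1 2))) (.nd 163 (.nd 148 (.lf 148 1 2) (.nd 117 (.nd 87 (.lf 39 1 2) (.lf 84 1 2) (.lf 87 1 2)) (.lf 100 1 2) (.lf 117 1 2)) (.lf 113 1 2)) (.nd 163 (.lf 157 1 2) (.nd 156 (.lf 134 1 2) (.lf 156 1 2) (.lf 128 1 2)) (.nd 163 (.nd 163 (.lf 141 1 2) (.lf 155 1 2) (.lf 163 1 2)) (.lf 157 1 2) (.lf 157 1 2))) (.nd 143 (.nd 97 (.lf 92 1 2)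 (.lf 97 1 2) (.nd 68 (.nd 39 (.lf 39 1 2) (.lf 39 1 2) (.lf 27 1 2)) (.lf 68 1 2) (.lf 62 1 2))) (.lf 143 1 2) (.lf 127 1 2))))

def t15_340 : Tr := (.nd 284 (.nd 284 (.nd 278 (.nd 255 (.nd 253 (.nd 245 (.nd 245 (.lf 245 3 5) (.lf 237 3 5) (.nd 218 (.lf 218 2 5) (.lf 217 3 5) (.lf 218 3 5))) (.lf 245 3 5) (.nd 223 (.lf 223 3 5) (.lf 197 3 5) (.lf 217 3 5))) (.lf 253 3 5) (.nd 249 (.lf 246 3 5) (.nd 248 (.lf 224 1 3) (.lf 230 1 3) (.lf 248 2 5)) (.lf 249 3 5))) (.nd 255 (.nd 216 (.nd 216 (.lf 216 2 5) (.lf 211 3 5) (.lf 209 2 5)) (.lf 198 3 5) (.lf 198 3 5)) (.lf 224 3 5) (.lf 255 3 5)) (.nd 225 (.nd 225 (.lf 217 3 5) (.lf 225 3 5) (.lf 208 3 5)) (.lf 196 3 5) (.nd 220 (.lf 168 3 5) (.lf 196 3 5) (.lf 220 3 5)))) (.nd 256 (.nd 228 (.lf 228 3 5)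 (.nd 227 (.lf 218 1 3) (.lf 227 1 3) (.nd 220 (.lf 209 1 3) (.lf 209 1 3) (.lf 220 3 5))) (.lf 206 1 3)) (.nd 237 (.lf 232 3 5) (.nd 237 (.nd 229 (.nd 229 (.lf 221 3 5) (.nd 229 (.lf 206 1 3) (.lf 229 1 3) (.lf 222 3 5)) (.lf 214 3 5)) (.lf 221 3 5) (.lf 208 3 5)) (.lf 221 3 5) (.nd 237 (.lf 227 3 5) (.lf 237 3 5) (.lf 226 3 5))) (.lf 196 3 5)) (.nd 256 (.lf 256 3 5) (.lf 237 1 3) (.nd 229 (.lf 201 1 3) (.lf 204 1 3) (.nd 229 (.lf 212 1 3) (.lf 229 3 5) (.lf 209 1 3))))) (.nd 278 (.nd 252 (.lf 231 1 3) (.nd 252 (.lf 226 2 5) (.lf 251 3 5) (.nd 252 (.lf 247 3 5) (.lf 252 3 5) (.lf 200 3 5))) (.lf 222 1 3)) (.nd 242 (.nd 242 (.nd 216 (.lf 202 1 3) (.lf 211 1 3) (.lf 216 3 5)) (.lf 241 1 3) (.nd 242 (.lf 242 3 5) (.lf 233 3 5) (.lf 197 3 5))) (.lf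 206 1 3) (.lf 232 1 3)) (.nd 278 (.lf 278 1 3) (.nd 265 (.lf 235 1 3) (.lf 265 1 3) (.lf 251 1 3)) (.nd 259 (.lf 253 1 3) (.lf 259 2 5) (.lf 250 1 3))))) (.nd 264 (.nd 264 (.nd 256 (.nd 251 (.lf 203 1 3) (.lf 206 1 3) (.lf 251 1 3)) (.lf 256 1 3) (.lf 204 1 3)) (.nd 264 (.lf 258 1 3) (.lf 242 3 5) (.nd 264 (.lf 239 1 3) (.lf 244 3 5) (.lf 264 1 3))) (.nd 255 (.lf 224 1 3) (.lf 255 1 3) (.nd 226 (.lf 175 1 3) (.lf 226 1 3) (.lf 205 1 3)))) (.nd 260 (.nd 250 (.nd 213 (.lf 206 3 5) (.lf 213 3 5) (.lf 170 3 5)) (.lf 250 3 5) (.lf 209 1 3)) (.nd 260 (.lf 260 1 3) (.nd 214 (.lf 208 1 3) (.lf 205 1 3) (.nd 214 (.lf 209 2 5) (.lf 214 1 3) (.lf 212 2 5))) (.lf 231 1 3)) (.nd 251 (.lf 246 3 5) (.lf 199 3 5) (.lf 251 3 5))) (.nd 244 (.lf 234 1 3) (.nd 239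 (.nd 229 (.nd 229 (.nd 192 (.lf 184 3 5) (.lf 192 1 3) (.lf 189 3 5)) (.lf 187 3 5) (.lf 229 1 3)) (.lf 178 1 3) (.nd 225 (.lf 177 1 3) (.lf 180 1 3) (.lf 225 1 3))) (.nd 239 (.nd 239 (.nd 199 (.lf 185 3 5) (.lf 179 1 3) (.nd 199 (.lf 199 1 3) (.lf 193 3 5) (.lf 190 3 5))) (.lf 205 3 5) (.lf 239 1 3)) (.lf 238 1 3) (.lf 216 3 5)) (.lf 229 1 3)) (.lf 244 3 5))) (.nd 284 (.nd 284 (.lf 264 3 5) (.nd 267 (.lf 265 1 3) (.lf 256 3 5) (.nd 267 (.nd 267 (.lf 266 1 3) (.lf 267 3 5) (.lf 267 1 3)) (.lf 264 1 3) (.nd 266 (.lf 241 1 3) (.lf 266 3 5) (.lf 260 3 5)))) (.lf 284 1 3)) (.nd 266 (.nd 236 (.nd 236 (.lf 235 1 3) (.lf 232 1 3) (.nd 236 (.nd 234 (.lf 234 1 3) (.lf 230 1 3) (.nd 231 (.lf 229 2 5) (.lf 226 2 5) (.lf 231 1 3))) (.lf 234 1 3) (.nd 236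 (.lf 212 1 3) (.lf 236 1 3) (.lf 214 3 5)))) (.lf 226 1 3) (.nd 226 (.nd 203 (.lf 167 1 3) (.lf 172 1 3) (.nd 203 (.nd 194 (.lf 191 1 3) (.lf 194 1 3) (.lf 190 3 5)) (.lf 196 1 3) (.lf 203 1 3))) (.nd 226 (.lf 206 1 3) (.lf 195 1 3) (.lf 226 1 3)) (.lf 172 1 3))) (.nd 266 (.lf 259 1 3) (.lf 266 1 3) (.nd 259 (.lf 258 1 3) (.nd 259 (.lf 259 3 5) (.lf 235 3 5) (.lf 259 1 3)) (.lf 259 3 5))) (.lf 249 1 3)) (.lf 281 1 3))) (.nd 275 (.nd 275 (.lf 275 3 5) (.nd 253 (.nd 242 (.nd 242 (.lf 242 3 5) (.lf 232 3 5) (.nd 212 (.lf 205 3 5) (.lf 207 3 5) (.nd 212 (.lf 212 3 5) (.nd 212 (.lf 200 1 3) (.lf 212 1 3) (.lf 212 3 5)) (.lf 212 3 5)))) (.lf 219 3 5) (.lf 206 3 5)) (.lf 239 3 5) (.lf 253 3 5)) (.nd 260 (.nd 240 (.lf 194 3 5) (.nd 224 (.lf 196 3 5) (.lf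 224 3 5) (.lf 193 3 5)) (.lf 240 3 5)) (.lf 260 3 5) (.nd 245 (.lf 214 3 5) (.lf 245 3 5) (.lf 210 3 5)))) (.nd 237 (.nd 221 (.nd 192 (.lf 161 3 5) (.lf 162 3 5) (.lf 192 3 5)) (.nd 221 (.lf 221 3 5) (.nd 198 (.lf 190 1 3) (.lf 170 1 3) (.lf 198 1 3)) (.lf 220 1 3)) (.lf 197 3 5)) (.lf 195 3 5) (.nd 237 (.nd 228 (.lf 220 3 5) (.nd 228 (.nd 228 (.lf 228 1 3) (.lf 221 3 5) (.lf 225 1 3)) (.lf 220 3 5) (.lf 213 3 5)) (.lf 207 3 5)) (.nd 237 (.nd 237 (.lf 220 1 3) (.nd 230 (.lf 192 1 3) (.lf 230 3 5) (.lf 222 3 5)) (.nd 237 (.nd 237 (.nd 226 (.lf 226 2 5) (.lf 211 1 3) (.lf 212 1 3)) (.lf 237 1 3) (.lf 219 1 3)) (.nd 237 (.lf 218 1 3) (.lf 237 1 3) (.lf 236 3 5)) (.lf 236 3 5))) (.lf 226 3 5) (.lf 225 3 5)) (.lf 220 3 5))) (.nd 244 (.nd 244 (.nd 229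 (.lf 229 3 5) (.nd 215 (.lf 163 3 5) (.lf 215 3 5) (.lf 210 3 5)) (.lf 214 3 5)) (.lf 226 3 5) (.lf 244 3 5)) (.nd 201 (.lf 192 3 5) (.lf 198 3 5) (.nd 201 (.lf 201 3 5) (.lf 198 1 3) (.nd 199 (.lf 170 1 3) (.lf 199 1 3) (.lf 191 3 5)))) (.nd 223 (.nd 209 (.lf 166 3 5) (.nd 209 (.lf 190 3 5) (.lf 197 3 5) (.lf 209 3 5)) (.lf 161 3 5)) (.lf 223 3 5) (.lf 166 3 5)))) (.nd 271 (.nd 266 (.nd 261 (.lf 238 3 5) (.nd 261 (.lf 261 3 5) (.lf 244 3 5) (.lf 250 3 5)) (.nd 237 (.lf 237 3 5) (.lf 217 3 5) (.lf 212 3 5))) (.nd 246 (.lf 244 3 5) (.lf 222 3 5) (.nd 246 (.lf 194 3 5) (.lf 224 3 5) (.nd 246 (.lf 216 3 5) (.nd 246 (.lf 222 3 5) (.lf 246 3 5) (.lf 220 3 5)) (.nd 231 (.lf 207 3 5) (.lf 208 3 5) (.lf 231 3 5))))) (.nd 266 (.lf 250 3 5) (.lf 252 3 5)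 (.nd 266 (.lf 266 1 3) (.nd 254 (.nd 254 (.lf 235 1 3) (.lf 238 1 3) (.lf 254 3 5)) (.lf 250 3 5) (.lf 236 1 3)) (.lf 262 3 5)))) (.nd 224 (.nd 195 (.lf 195 3 5) (.lf 166 3 5) (.lf 189 3 5)) (.nd 224 (.nd 224 (.lf 198 3 5) (.lf 224 3 5) (.lf 198 3 5)) (.lf 216 3 5) (.lf 207 3 5)) (.nd 219 (.lf 195 3 5) (.lf 167 3 5) (.nd 219 (.lf 204 3 5) (.lf 219 3 5) (.lf 189 3 5)))) (.nd 271 (.lf 271 3 5) (.lf 223 3 5) (.nd 226 (.lf 226 3 5) (.lf 197 3 5) (.lf 197 3 5)))))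

def t15_343 : Tr := (.nd 229 (.nd 206 (.nd 196 (.lf 175 2 3) (.nd 196 (.nd 179 (.lf 174 2 3) (.nd 179 (.lf 178 1 1) (.lf 179 2 3) (.nd 178 (.lf 178 2 3) (.lf 176 1 1) (.lf 173 2 3))) (.lf 171 2 3)) (.nd 196 (.lf 188 2 3) (.nd 196 (.lf 180 2 3) (.lf 193 2 3) (.lf 196 2 3)) (.nd 180 (.lf 178 2 3) (.lf 166 2 3) (.nd 180 (.lf 179 2 3) (.nd 180 (.lf 179 2 3) (.lf 180 2 3) (.lf 171 1 3)) (.lf 180 2 3)))) (.nd 180 (.nd 180 (.nd 180 (.lf 172 1 3) (.lf 180 2 3) (.lf 172 1 3)) (.lf 175 2 3) (.lf 176 2 3)) (.lf 167 2 3) (.lf 166 2 3))) (.nd 179 (.lf 161 2 3) (.nd 179 (.nd 161 (.lf 161 2 3) (.nd 131 (.lf 114 2 3) (.lf 91 1 3) (.lf 131 2 3)) (.nd 119 (.lf 110 2 3) (.lf 119 1 3) (.lf 109 2 3))) (.lf 168 2 3) (.lf 179 2 3)) (.lf 144 2 3))) (.nd 206 (.nd 194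 (.lf 172 1 3) (.nd 191 (.lf 171 1 3) (.lf 174 1 3) (.nd 191 (.lf 186 2 3) (.nd 191 (.lf 185 2 3) (.lf 188 1 3) (.lf 191 1 3)) (.lf 160 2 3))) (.nd 194 (.lf 194 1 3) (.lf 163 1 1) (.lf 171 1 1))) (.nd 191 (.lf 191 2 3) (.nd 186 (.nd 186 (.lf 185 1 1) (.lf 186 1 1) (.lf 163 2 3)) (.lf 177 1 1) (.lf 176 1 1)) (.nd 166 (.nd 166 (.lf 151 1 1) (.lf 150 1 1) (.nd 166 (.lf 166 1 1) (.lf 137 2 3) (.lf 159 1 1))) (.nd 153 (.lf 150 2 3) (.lf 140 1 1) (.lf 153 2 3)) (.lf 158 2 3))) (.nd 206 (.nd 206 (.lf 206 2 3) (.lf 201 1 3) (.lf 206 2 3)) (.lf 192 1 3) (.lf 184 1 3))) (.nd 187 (.nd 173 (.nd 173 (.lf 173 2 3) (.lf 173 2 3) (.nd 171 (.lf 167 1 3) (.lf 171 2 3) (.lf 168 2 3))) (.lf 149 2 3) (.lf 144 2 3)) (.lf 147 2 3) (.nd 187 (.nd 182 (.lf 177 2 3) (.nd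 182 (.nd 173 (.nd 170 (.nd 170 (.lf 153 2 3) (.lf 170 1 3) (.lf 164 2 3)) (.lf 164 2 3) (.lf 164 1 3)) (.lf 142 1 3) (.nd 173 (.nd 173 (.lf 170 1 3) (.lf 173 2 3) (.lf 143 2 3)) (.lf 141 1 3) (.lf 144 1 3))) (.nd 182 (.lf 178 2 3) (.nd 181 (.lf 181 1 3) (.lf 169 1 3) (.lf 163 2 3)) (.lf 182 2 3)) (.nd 182 (.lf 154 1 3) (.lf 182 2 3) (.lf 162 1 3))) (.lf 178 2 3)) (.lf 172 2 3) (.lf 187 2 3)))) (.nd 204 (.nd 204 (.lf 178 2 3) (.nd 204 (.nd 200 (.lf 198 2 3) (.lf 195 2 3) (.nd 200 (.lf 197 2 3) (.lf 200 2 3) (.lf 168 1 3))) (.lf 204 2 3) (.lf 204 2 3)) (.lf 175 2 3)) (.nd 196 (.nd 190 (.nd 190 (.nd 190 (.lf 190 1 3) (.lf 181 2 3) (.lf 171 2 3)) (.nd 189 (.nd 189 (.lf 186 1 3) (.lf 177 1 3) (.lf 189 2 3)) (.lf 189 1 3) (.lf 165 1 3)) (.nd 187 (.lf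 181 1 3) (.lf 173 2 3) (.nd 187 (.lf 187 1 3) (.lf 171 2 3) (.lf 187 2 3)))) (.nd 189 (.lf 164 2 3) (.lf 189 2 3) (.lf 169 2 3)) (.lf 169 1 3)) (.nd 174 (.nd 174 (.nd 174 (.lf 157 2 3) (.nd 174 (.lf 174 2 3) (.lf 144 2 3) (.lf 149 2 3)) (.lf 164 1 3)) (.lf 168 2 3) (.lf 148 2 3)) (.lf 166 1 3) (.nd 173 (.nd 173 (.lf 163 1 3) (.nd 173 (.lf 164 2 3) (.lf 173 1 3) (.lf 168 2 3)) (.lf 169 2 3)) (.lf 140 1 3) (.lf 167 1 3))) (.nd 196 (.nd 196 (.nd 191 (.lf 184 1 3) (.lf 170 2 3) (.lf 191 2 3)) (.nd 191 (.lf 191 1 3) (.lf 183 2 3) (.lf 168 1 3)) (.nd 196 (.nd 196 (.lf 190 2 3) (.lf 177 2 3) (.lf 196 1 3)) (.lf 159 2 3) (.lf 177 2 3))) (.nd 191 (.nd 191 (.nd 191 (.lf 185 1 3) (.lf 191 1 3) (.nd 191 (.lf 167 2 3) (.lf 191 1 3) (.lf 189 1 3))) (.lf 191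 1 3) (.lf 163 1 3)) (.nd 189 (.lf 185 1 3) (.nd 189 (.lf 189 1 3) (.lf 189 1 3) (.nd 184 (.lf 183 1 3) (.lf 184 1 3) (.lf 174 2 3))) (.lf 162 1 3)) (.nd 188 (.lf 180 1 1) (.nd 185 (.nd 185 (.lf 185 1 3) (.lf 169 1 3) (.lf 174 2 3)) (.lf 177 1 1) (.lf 182 1 1)) (.nd 188 (.nd 186 (.lf 184 1 3) (.lf 171 2 3) (.lf 186 1 3)) (.nd 188 (.lf 188 1 3) (.lf 171 2 3) (.lf 164 1 3)) (.lf 187 2 3)))) (.nd 191 (.nd 191 (.lf 188 1 3) (.lf 191 2 3) (.lf 176 2 3)) (.nd 180 (.lf 180 1 3) (.lf 154 2 3) (.lf 170 2 3)) (.nd 182 (.nd 182 (.nd 176 (.lf 176 2 3) (.lf 171 2 3) (.lf 164 1 3)) (.lf 142 1 3) (.nd 182 (.nd 182 (.lf 182 1 3) (.lf 182 1 3) (.lf 182 1 3)) (.lf 182 1 3) (.lf 182 1 3))) (.lf 168 2 3) (.nd 171 (.lf 144 2 3) (.lf 171 2 3) (.lf 164 1 3)))))) (.lf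 176 2 3)) (.nd 229 (.nd 223 (.lf 205 1 1) (.nd 198 (.lf 193 2 3) (.nd 198 (.lf 193 1 3) (.nd 198 (.nd 186 (.lf 147 2 3) (.nd 186 (.lf 186 1 1) (.lf 169 2 3) (.lf 180 2 3)) (.lf 177 2 3)) (.lf 198 2 3) (.nd 195 (.lf 195 1 1) (.lf 189 1 3) (.nd 194 (.lf 184 2 3) (.lf 194 1 1) (.lf 185 2 3)))) (.nd 192 (.lf 163 1 3) (.lf 192 2 3) (.lf 191 1 3))) (.lf 197 2 3)) (.nd 223 (.lf 207 1 1) (.lf 202 1 1) (.nd 223 (.lf 213 2 3) (.lf 223 2 3) (.lf 199 1 3)))) (.nd 222 (.nd 221 (.nd 176 (.lf 146 1 1) (.lf 176 1 1) (.nd 156 (.nd 156 (.lf 136 2 3) (.lf 152 1 1) (.nd 156 (.lf 141 1 1) (.lf 156 2 3) (.lf 143 1 1))) (.lf 144 1 1) (.lf 134 1 1))) (.lf 219 1 1) (.lf 221 1 1)) (.lf 222 2 3) (.lf 217 2 3)) (.nd 229 (.nd 222 (.nd 216 (.lf 216 1 1) (.lf 216 2 3) (.lf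 210 2 3)) (.lf 222 1 3) (.lf 208 1 3)) (.nd 226 (.lf 224 1 3) (.nd 223 (.lf 196 1 3) (.lf 223 1 3) (.lf 220 1 1)) (.nd 226 (.nd 226 (.nd 225 (.lf 195 2 3) (.lf 225 2 3) (.lf 225 1 3)) (.lf 222 1 3) (.lf 226 1 1)) (.lf 204 1 1) (.nd 223 (.lf 203 1 1) (.lf 206 1 1) (.lf 223 2 3)))) (.nd 229 (.nd 229 (.lf 191 2 3) (.nd 229 (.lf 229 1 3) (.lf 211 2 3) (.lf 218 2 3)) (.lf 205 2 3)) (.lf 219 2 3) (.lf 228 1 3)))))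

def t15_344 : Tr := (.nd 175 (.nd 122 (.nd 90 (.nd 60 (.lf 8 4 2) (.lf 55 4 2) (.lf 60 4 2)) (.nd 90 (.nd 90 (.lf 70 4 2) (.nd 87 (.lf 74 4 2) (.nd 87 (.nd 87 (.lf 73 4 2) (.lf 73 4 2) (.lf 87 4 2)) (.lf 68 4 2) (.lf 72 4 2)) (.lf 48 4 2)) (.nd 90 (.lf 76 4 2) (.nd 90 (.lf 68 4 2) (.lf 90 4 2) (.lf 72 4 2)) (.lf 66 4 2))) (.lf 75 4 2) (.lf 68 4 2)) (.nd 59 (.lf 28 4 2) (.lf 59 4 2) (.nd 30 (.lf 24 4 2) (.lf 0 4 2) (.nd 30 (.lf 30 4 2) (.lf 4 4 2) (.lf 19 4 2))))) (.nd 122 (.nd 122 (.nd 114 (.nd 88 (.lf 59 4 2) (.lf 53 4 2) (.lf 88 4 2)) (.lf 114 4 2) (.nd 113 (.lf 85 4 2) (.lf 113 4 2) (.nd 99 (.lf 99 4 2) (.nd 91 (.lf 81 4 2) (.lf 57 4 2) (.lf 91 4 2)) (.lf 66 4 2)))) (.nd 122 (.lf 114 3 2) (.nd 122 (.lf 119 3 2) (.lf 122 3 2) (.lf 121 4 2))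 (.lf 111 3 2)) (.lf 117 4 2)) (.nd 116 (.lf 116 3 2) (.nd 116 (.lf 116 3 2) (.lf 109 4 2) (.lf 83 4 2)) (.lf 111 4 2)) (.lf 119 4 2)) (.nd 93 (.nd 64 (.nd 64 (.lf 49 4 2) (.lf 42 4 2) (.nd 64 (.nd 64 (.lf 40 4 2) (.lf 50 4 2) (.lf 64 4 2)) (.lf 44 4 2) (.lf 61 4 2))) (.lf 33 4 2) (.lf 34 4 2)) (.nd 93 (.lf 93 4 2) (.nd 91 (.nd 87 (.nd 62 (.lf 62 4 2) (.lf 33 4 2) (.lf 27 4 2)) (.lf 82 3 2) (.nd 87 (.lf 87 4 2) (.nd 73 (.lf 73 4 2) (.lf 65 4 2) (.lf 40 4 2)) (.lf 59 4 2))) (.lf 87 3 2) (.lf 91 4 2)) (.lf 93 4 2)) (.nd 85 (.lf 38 4 2) (.lf 85 4 2) (.lf 53 4 2)))) (.nd 116 (.nd 86 (.nd 34 (.lf 34 4 2) (.lf 29 4 2) (.lf 5 4 2)) (.nd 81 (.lf 81 4 2) (.lf 33 4 2) (.lf 36 4 2)) (.nd 86 (.lf 71 4 2) (.lf 56 4 2) (.lf 86 4 2))) (.nd 116 (.nd 94 (.nd 61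 (.nd 61 (.nd 59 (.lf 26 4 2) (.lf 54 4 2) (.lf 59 3 2)) (.lf 61 3 2) (.lf 59 4 2)) (.lf 54 4 2) (.lf 57 4 2)) (.nd 94 (.lf 94 4 2) (.nd 94 (.lf 94 4 2) (.nd 90 (.lf 76 4 2) (.lf 90 4 2) (.lf 83 4 2)) (.lf 86 4 2)) (.nd 88 (.lf 72 4 2) (.lf 72 4 2) (.lf 88 4 2))) (.nd 88 (.lf 60 4 2) (.lf 88 4 2) (.lf 61 4 2))) (.nd 116 (.nd 116 (.nd 116 (.lf 99 4 2) (.lf 94 4 2) (.lf 116 4 2)) (.lf 100 4 2) (.nd 102 (.lf 94 4 2) (.nd 102 (.lf 74 4 2) (.nd 102 (.lf 76 4 2) (.lf 102 4 2) (.lf 73 4 2)) (.lf 92 4 2)) (.lf 94 4 2))) (.nd 96 (.lf 91 4 2) (.lf 77 4 2) (.nd 96 (.lf 96 4 2) (.lf 83 4 2) (.nd 91 (.lf 91 3 2) (.lf 84 4 2) (.lf 72 4 2)))) (.nd 113 (.lf 100 4 2) (.nd 113 (.nd 113 (.lf 99 4 2) (.lf 113 4 2) (.lf 99 4 2)) (.lf 94 4 2) (.lf 98 4 2)) (.lf 74 4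 2))) (.nd 95 (.nd 86 (.lf 55 4 2) (.lf 47 4 2) (.nd 86 (.lf 65 4 2) (.nd 86 (.lf 70 4 2) (.lf 62 4 2) (.lf 86 4 2)) (.lf 66 4 2))) (.nd 95 (.nd 94 (.lf 92 3 2) (.lf 94 4 2) (.lf 92 3 2)) (.lf 95 4 2) (.lf 93 4 2)) (.lf 75 4 2))) (.nd 85 (.nd 85 (.nd 85 (.lf 70 4 2) (.lf 62 4 2) (.lf 85 4 2)) (.nd 63 (.nd 52 (.lf 52 4 2) (.lf 29 4 2) (.lf 16 4 2)) (.lf 49 4 2) (.lf 63 4 2)) (.lf 70 4 2)) (.nd 56 (.lf 56 4 2) (.lf 50 4 2) (.lf 5 4 2)) (.nd 54 (.lf 30 4 2) (.lf 33 4 2) (.lf 54 4 2)))) (.nd 175 (.lf 148 4 2) (.nd 175 (.nd 140 (.nd 139 (.lf 139 4 2) (.nd 125 (.nd 117 (.lf 117 4 2) (.lf 107 4 2) (.lf 83 4 2)) (.lf 92 4 2) (.lf 125 4 2)) (.nd 111 (.lf 111 4 2) (.lf 103 4 2) (.lf 104 4 2))) (.nd 114 (.lf 79 4 2) (.nd 114 (.lf 97 4 2) (.lf 114 4 2) (.lf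 99 4 2)) (.lf 85 4 2)) (.nd 140 (.nd 96 (.lf 80 4 2) (.lf 96 4 2) (.lf 83 4 2)) (.lf 116 4 2) (.lf 140 4 2))) (.lf 175 4 2) (.nd 143 (.nd 143 (.lf 143 4 2) (.nd 140 (.lf 136 4 2) (.nd 117 (.lf 96 4 2) (.lf 116 4 2) (.lf 117 4 2)) (.lf 140 4 2)) (.lf 128 4 2)) (.nd 125 (.nd 85 (.lf 85 4 2) (.lf 56 4 2) (.lf 78 4 2)) (.lf 125 4 2) (.lf 118 4 2)) (.lf 135 4 2))) (.nd 163 (.lf 137 4 2) (.nd 163 (.lf 157 4 2) (.nd 152 (.lf 152 4 2) (.nd 133 (.lf 133 4 2) (.nd 131 (.lf 126 4 2) (.lf 79 4 2) (.lf 131 4 2)) (.lf 115 4 2)) (.lf 111 4 2)) (.lf 163 4 2)) (.lf 160 4 2))))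

def t15_346 : Tr := (.nd 125 (.nd 100 (.nd 84 (.lf 44 2 1) (.nd 74 (.lf 46 2 1) (.lf 74 2 1) (.lf 43 2 1)) (.nd 84 (.lf 72 2 1) (.lf 64 2 1) (.lf 84 2 1))) (.nd 100 (.nd 98 (.nd 93 (.lf 71 1 1) (.lf 70 1 1) (.nd 93 (.lf 93 2 1) (.lf 79 1 1) (.lf 80 1 1))) (.nd 92 (.lf 75 1 1) (.lf 78 1 1) (.nd 92 (.lf 78 2 1) (.lf 92 1 1) (.lf 76 2 1))) (.nd 98 (.nd 98 (.lf 98 2 1) (.nd 95 (.nd 95 (.lf 60 2 1) (.lf 95 2 1) (.nd 90 (.lf 79 1 1) (.lf 85 2 1) (.lf 90 1 1))) (.lf 90 2 1) (.lf 92 2 1)) (.lf 96 2 1)) (.nd 96 (.lf 84 2 1) (.nd 95 (.lf 85 1 1) (.lf 95 2 1) (.lf 94 1 1)) (.nd 96 (.nd 96 (.lf 63 2 1) (.lf 93 2 1) (.nd 96 (.lf 96 1 1) (.lf 65 2 1) (.lf 62 2 1))) (.lf 96 2 1) (.lf 93 2 1))) (.lf 95 2 1))) (.nd 100 (.lf 86 2 1) (.lf 80 2 1) (.nd 100 (.nd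 100 (.nd 100 (.lf 88 2 1) (.nd 91 (.lf 91 1 1) (.lf 60 2 1) (.lf 74 2 1)) (.lf 100 2 1)) (.nd 100 (.lf 96 1 1) (.lf 100 2 1) (.lf 90 1 1)) (.lf 100 2 1)) (.lf 88 2 1) (.lf 91 2 1))) (.nd 100 (.nd 100 (.nd 100 (.lf 96 2 1) (.nd 100 (.nd 100 (.lf 100 2 1) (.lf 60 1 1) (.lf 74 1 1)) (.lf 98 2 1) (.lf 88 1 1)) (.lf 100 2 1)) (.lf 98 2 1) (.nd 100 (.lf 62 2 1) (.lf 86 1 1) (.nd 100 (.lf 99 2 1) (.lf 84 2 1) (.lf 100 1 1)))) (.nd 71 (.lf 71 2 1) (.lf 70 2 1) (.lf 45 1 1)) (.lf 80 2 1))) (.nd 95 (.nd 64 (.lf 31 2 1) (.lf 64 2 1) (.lf 47 2 1)) (.nd 95 (.nd 95 (.lf 79 2 1) (.lf 95 2 1) (.lf 71 2 1)) (.nd 74 (.lf 74 2 1) (.lf 64 2 1) (.lf 59 2 1)) (.lf 75 2 1)) (.lf 56 2 1))) (.nd 125 (.nd 122 (.lf 83 2 1) (.nd 122 (.nd 122 (.lf 108 2 1) (.lf 108 2 1) (.lf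 122 2 1)) (.lf 107 2 1) (.lf 103 2 1)) (.nd 109 (.nd 109 (.lf 98 2 1) (.nd 109 (.lf 85 2 1) (.lf 109 2 1) (.lf 79 2 1)) (.lf 106 2 1)) (.lf 75 2 1) (.lf 86 2 1))) (.nd 100 (.nd 100 (.nd 100 (.lf 100 1 1) (.lf 81 2 1) (.lf 93 2 1)) (.lf 92 2 1) (.nd 100 (.lf 84 2 1) (.nd 82 (.nd 80 (.lf 74 2 1) (.lf 76 1 1) (.lf 80 2 1)) (.lf 52 2 1) (.lf 82 2 1)) (.nd 100 (.lf 95 1 1) (.lf 98 1 1) (.lf 100 2 1)))) (.lf 86 2 1) (.nd 100 (.lf 100 2 1) (.lf 58 2 1) (.lf 72 2 1))) (.nd 125 (.nd 111 (.nd 111 (.lf 83 2 1) (.lf 101 2 1) (.lf 111 2 1)) (.lf 103 2 1) (.lf 103 2 1)) (.nd 101 (.nd 82 (.nd 68 (.nd 68 (.nd 68 (.lf 68 1 1) (.lf 33 2 1) (.lf 30 2 1)) (.lf 31 2 1) (.lf 68 2 1)) (.lf 67 2 1) (.nd 68 (.lf 45 1 1) (.lf 63 2 1) (.lf 68 1 1))) (.lf 71 2 1) (.nd 82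 (.lf 72 2 1) (.lf 82 2 1) (.lf 72 2 1))) (.nd 101 (.lf 95 2 1) (.nd 84 (.lf 62 2 1) (.lf 74 1 1) (.lf 84 2 1)) (.lf 101 2 1)) (.lf 100 2 1)) (.nd 125 (.lf 103 2 1) (.lf 108 2 1) (.nd 125 (.lf 103 2 1) (.nd 125 (.lf 125 2 1) (.lf 125 2 1) (.lf 103 2 1)) (.lf 104 2 1))))) (.nd 103 (.nd 82 (.nd 82 (.lf 79 2 1) (.lf 70 1 1) (.nd 82 (.lf 65 1 1) (.lf 70 1 1) (.nd 82 (.lf 76 2 1) (.nd 78 (.lf 78 2 1) (.lf 78 2 1) (.nd 77 (.nd 77 (.lf 57 2 1) (.lf 60 2 1) (.lf 77 1 1)) (.lf 76 2 1) (.lf 58 2 1))) (.nd 82 (.lf 72 1 1) (.lf 82 2 1) (.lf 78 2 1))))) (.nd 69 (.nd 32 (.lf 25 2 1) (.lf 0 2 1) (.lf 32 2 1)) (.nd 38 (.lf 14 2 1) (.lf 10 2 1) (.nd 38 (.lf 23 2 1) (.lf 20 2 1) (.lf 38 2 1))) (.lf 69 2 1)) (.nd 65 (.lf 65 2 1) (.nd 53 (.lf 41 1 1) (.lf 53 2 1)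 (.lf 40 2 1)) (.lf 18 2 1))) (.nd 103 (.nd 103 (.nd 95 (.lf 81 2 1) (.lf 82 2 1) (.lf 95 2 1)) (.nd 99 (.lf 92 2 1) (.nd 99 (.lf 79 2 1) (.lf 89 2 1) (.lf 99 2 1)) (.lf 85 2 1)) (.nd 103 (.lf 101 2 1) (.lf 103 2 1) (.nd 97 (.lf 82 2 1) (.lf 97 2 1) (.lf 79 2 1)))) (.nd 103 (.lf 61 2 1) (.lf 103 2 1) (.nd 87 (.lf 87 2 1) (.lf 63 2 1) (.lf 60 2 1))) (.nd 97 (.nd 73 (.lf 60 2 1) (.lf 36 2 1) (.nd 73 (.nd 73 (.lf 73 2 1) (.lf 70 2 1) (.lf 40 1 1)) (.lf 63 2 1) (.lf 66 2 1))) (.nd 72 (.lf 42 2 1) (.nd 72 (.lf 69 1 1) (.lf 72 2 1) (.lf 57 2 1)) (.lf 32 2 1)) (.lf 97 2 1))) (.nd 70 (.lf 63 2 1) (.nd 70 (.lf 70 1 1) (.nd 60 (.nd 60 (.lf 24 2 1) (.lf 34 2 1) (.nd 60 (.nd 60 (.lf 60 1 1) (.lf 54 2 1) (.lf 51 2 1)) (.lf 58 2 1) (.lf 58 2 1))) (.lf 35 2 1)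 (.nd 59 (.lf 39 1 1) (.lf 44 1 1) (.nd 59 (.lf 48 2 1) (.lf 59 1 1) (.lf 49 2 1)))) (.lf 68 2 1)) (.nd 66 (.lf 66 2 1) (.lf 43 2 1) (.lf 48 2 1)))))

def t15_347 : Tr := (.nd 254 (.nd 254 (.nd 239 (.lf 239 2 4) (.lf 215 2 4) (.nd 216 (.nd 197 (.lf 197 2 4) (.lf 166 2 4) (.lf 158 2 4)) (.nd 198 (.nd 198 (.lf 198 2 4) (.nd 183 (.lf 183 2 4) (.lf 159 2 4) (.lf 160 2 4)) (.lf 168 2 4)) (.lf 146 2 4) (.nd 193 (.lf 148 2 4) (.lf 193 2 4) (.lf 145 2 4))) (.lf 216 2 4))) (.lf 224 2 4) (.nd 254 (.lf 254 2 4) (.lf 228 2 4) (.nd 230 (.lf 226 2 4) (.lf 222 2 4) (.nd 230 (.lf 209 2 4) (.lf 230 2 4) (.nd 225 (.lf 199 2 4) (.lf 173 2 4) (.lf 225 2 4)))))) (.nd 202 (.nd 197 (.nd 145 (.lf 116 2 4) (.lf 140 2 4) (.nd 145 (.lf 128 2 4) (.lf 137 2 4) (.lf 145 2 4)))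 (.nd 197 (.nd 167 (.lf 143 2 4) (.nd 165 (.nd 165 (.lf 165 2 4) (.lf 141 2 4) (.lf 144 2 4)) (.lf 158 2 4) (.lf 155 2 4)) (.nd 167 (.lf 167 2 4) (.lf 145 2 4) (.lf 115 2 4))) (.nd 182 (.nd 158 (.lf 138 2 4) (.lf 158 2 4) (.lf 133 2 4)) (.lf 182 2 4) (.lf 159 2 4)) (.lf 197 2 4)) (.nd 173 (.nd 144 (.lf 111 2 4) (.nd 114 (.lf 114 2 4) (.lf 102 2 4) (.lf 109 2 4)) (.nd 144 (.nd 122 (.lf 102 2 4) (.lf 122 2 4) (.lf 102 2 4)) (.lf 144 2 4) (.lf 119 2 4))) (.lf 173 2 4) (.lf 147 2 4))) (.nd 173 (.nd 144 (.lf 144 2 4) (.nd 144 (.nd 144 (.lf 144 2 4) (.lf 110 2 4) (.lf 132 2 4)) (.lf 113 2 4) (.lf 102 2 4)) (.lf 115 2 4)) (.nd 167 (.nd 116 (.nd 116 (.lf 106 2 4) (.lf 102 2 4) (.lf 116 2 4)) (.lf 109 2 4) (.lf 102 2 4)) (.lf 145 2 4) (.lf 167 2 4)) (.lf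 173 2 4)) (.nd 202 (.lf 202 2 4) (.nd 194 (.lf 194 2 4) (.nd 193 (.lf 193 2 4) (.lf 171 2 4) (.nd 141 (.lf 136 2 4) (.lf 141 2 4) (.lf 112 2 4))) (.lf 171 2 4)) (.lf 185 2 4))) (.nd 249 (.nd 201 (.nd 201 (.nd 179 (.lf 179 2 4) (.lf 146 2 4) (.lf 158 2 4)) (.lf 176 2 4) (.lf 201 2 4)) (.lf 171 2 4) (.nd 168 (.lf 168 2 4) (.lf 131 2 4) (.lf 139 2 4))) (.nd 204 (.nd 175 (.lf 175 2 4) (.lf 145 2 4) (.nd 144 (.lf 115 2 4) (.nd 144 (.lf 129 2 4) (.lf 122 2 4) (.lf 144 2 4)) (.lf 113 2 4))) (.lf 175 2 4) (.lf 204 2 4)) (.nd 249 (.lf 249 2 4) (.nd 230 (.nd 225 (.lf 211 2 4) (.lf 219 2 4) (.nd 225 (.lf 212 2 4) (.lf 225 2 4) (.lf 221 2 4))) (.nd 230 (.lf 230 2 4) (.lf 206 2 4) (.lf 205 2 4)) (.nd 207 (.lf 207 2 4) (.lf 189 2 4) (.lf 202 2 4))) (.lf 230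 2 4))))

def t15_349 : Tr := (.nd 333 (.nd 280 (.nd 250 (.lf 250 2 5) (.nd 198 (.lf 169 2 5) (.lf 198 2 5) (.lf 193 2 5)) (.lf 245 2 5)) (.lf 280 2 5) (.nd 247 (.lf 247 2 5) (.lf 218 2 5) (.nd 210 (.nd 197 (.lf 155 2 5) (.nd 183 (.nd 183 (.lf 164 2 5) (.lf 171 2 5) (.lf 183 2 5)) (.lf 155 2 5) (.lf 155 2 5)) (.nd 197 (.lf 185 2 5) (.lf 163 2 5) (.lf 197 2 5))) (.lf 210 2 5) (.lf 194 2 5)))) (.lf 333 2 5) (.lf 285 2 5))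

def t15_352 : Tr := (.nd 156 (.nd 156 (.nd 142 (.nd 134 (.nd 128 (.lf 120 1 1) (.lf 123 1 1) (.lf 128 1 1)) (.nd 134 (.lf 132 1 1) (.lf 134 1 1) (.lf 127 1 1)) (.lf 130 1 1)) (.nd 134 (.lf 109 1 1) (.nd 134 (.lf 123 1 1) (.lf 134 1 1) (.lf 123 1 1)) (.nd 134 (.lf 134 1 1) (.lf 109 1 1) (.lf 85 1 1))) (.nd 142 (.nd 132 (.lf 126 1 1) (.lf 124 1 1) (.lf 132 1 1)) (.lf 114 1 1) (.nd 142 (.lf 116 1 1) (.lf 142 1 1) (.lf 113 1 1)))) (.nd 156 (.lf 134 1 1) (.nd 156 (.lf 134 1 1) (.lf 135 1 1) (.nd 156 (.lf 134 1 1) (.lf 156 1 1) (.nd 145 (.lf 145 1 1) (.lf 123 1 1) (.nd 141 (.lf 141 1 3) (.lf 136 1 1) (.lf 140 1 1))))) (.nd 138 (.nd 134 (.nd 134 (.lf 128 1 1) (.nd 126 (.lf 126 1 3) (.lf 104 1 1) (.lf 126 1 1)) (.lf 134 1 1)) (.lf 117 1 1) (.lf 130 1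 1)) (.lf 138 1 1) (.lf 119 1 1))) (.nd 132 (.nd 131 (.lf 131 1 1) (.lf 124 1 1) (.lf 131 1 1)) (.nd 132 (.lf 132 1 1) (.nd 121 (.lf 115 1 1) (.nd 121 (.lf 92 1 1) (.nd 121 (.lf 121 1 1) (.lf 121 1 1) (.lf 107 1 3)) (.lf 95 1 1)) (.lf 93 1 1)) (.lf 126 1 1)) (.nd 113 (.lf 102 1 1) (.lf 109 1 1) (.lf 113 1 1)))) (.nd 136 (.nd 131 (.nd 131 (.lf 114 1 1) (.lf 122 1 1) (.nd 131 (.nd 131 (.lf 114 1 1) (.lf 116 1 1) (.lf 131 1 1)) (.lf 116 1 1) (.lf 119 1 1))) (.lf 103 1 1) (.lf 89 1 1)) (.lf 117 1 1) (.nd 136 (.lf 123 1 1) (.nd 134 (.lf 112 1 1) (.nd 134 (.nd 134 (.lf 134 1 1) (.lf 122 1 3) (.nd 131 (.lf 124 1 3) (.lf 131 1 1) (.lf 119 1 3))) (.lf 131 1 1) (.nd 134 (.lf 129 1 1) (.nd 134 (.lf 107 1 3) (.lf 134 1 1) (.lf 119 1 3)) (.lf 121 1 3))) (.lf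 124 1 1)) (.lf 136 1 1))) (.nd 153 (.nd 153 (.lf 134 1 1) (.nd 138 (.lf 115 1 1) (.nd 127 (.lf 127 1 1) (.lf 88 1 1) (.lf 118 1 1)) (.nd 138 (.lf 138 1 1) (.lf 123 1 1) (.lf 131 1 1))) (.nd 153 (.lf 139 1 1) (.nd 139 (.lf 139 1 1) (.lf 125 1 1) (.lf 138 1 1)) (.nd 153 (.lf 144 1 1) (.nd 153 (.lf 141 1 1) (.lf 153 1 1) (.lf 143 1 1)) (.lf 143 1 1)))) (.nd 114 (.lf 93 1 1) (.lf 89 1 1) (.nd 114 (.lf 110 1 1) (.lf 101 1 1) (.lf 114 1 1))) (.nd 140 (.lf 117 1 1) (.lf 106 1 1) (.nd 140 (.nd 140 (.lf 110 1 1) (.lf 140 1 1) (.lf 116 1 1)) (.nd 129 (.lf 129 1 1) (.lf 117 1 1) (.lf 126 1 1)) (.lf 137 1 1)))))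

def t15_353 : Tr := (.nd 307 (.lf 307 1 2) (.nd 286 (.nd 254 (.nd 221 (.nd 192 (.lf 192 1 2) (.nd 169 (.lf 169 1 2) (.lf 145 1 2) (.lf 140 1 2)) (.lf 143 1 2)) (.nd 184 (.nd 168 (.lf 140 1 2) (.nd 146 (.lf 129 1 2) (.lf 146 1 2) (.lf 138 1 2)) (.lf 168 1 2)) (.lf 171 1 2) (.lf 184 1 2)) (.lf 221 1 2)) (.lf 224 1 2) (.lf 254 1 2)) (.lf 286 1 2) (.lf 259 1 2)) (.lf 255 1 2))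

def t15_355 : Tr := (.nd 215 (.nd 190 (.nd 190 (.nd 190 (.lf 178 1 1) (.lf 190 1 1) (.nd 184 (.lf 159 1 1) (.lf 176 1 1) (.nd 184 (.lf 170 1 1) (.lf 169 1 1) (.nd 184 (.lf 184 1 1) (.lf 178 1 1) (.lf 177 1 1))))) (.nd 175 (.nd 175 (.nd 175 (.lf 152 1 1) (.nd 175 (.lf 153 1 1) (.nd 175 (.lf 175 1 1) (.lf 156 1 1) (.lf 162 1 1)) (.lf 156 1 1)) (.lf 160 1 1)) (.lf 153 1 1) (.lf 160 1 1)) (.nd 146 (.lf 146 1 1) (.lf 125 1 1) (.lf 95 1 1)) (.nd 144 (.lf 120 1 1) (.lf 120 1 1) (.lf 144 1 1))) (.nd 176 (.nd 171 (.lf 123 1 1) (.lf 126 1 1) (.nd 171 (.lf 171 1 1) (.lf 152 1 1) (.lf 152 1 1))) (.nd 176 (.lf 146 1 1) (.nd 176 (.lf 150 1 1) (.lf 152 1 1) (.lf 176 1 1)) (.lf 161 1 1)) (.lf 124 1 1))) (.nd 189 (.nd 189 (.nd 189 (.nd 162 (.lf 162 1 1) (.lf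 152 1 1) (.nd 149 (.lf 149 1 1) (.lf 129 1 1) (.lf 130 1 1))) (.lf 172 1 1) (.lf 189 1 1)) (.nd 189 (.lf 181 1 1) (.lf 164 1 1) (.nd 189 (.lf 189 1 1) (.lf 188 1 1) (.nd 187 (.lf 166 1 1) (.lf 187 1 1) (.lf 165 1 1)))) (.lf 189 1 1)) (.nd 181 (.nd 176 (.lf 131 1 1) (.lf 128 1 1) (.nd 176 (.lf 157 1 1) (.nd 157 (.lf 152 1 1) (.lf 134 1 1) (.lf 157 1 1)) (.lf 176 1 1))) (.nd 129 (.nd 129 (.lf 129 1 1) (.lf 112 1 1) (.lf 121 1 1)) (.lf 100 1 1) (.lf 124 1 1)) (.lf 181 1 1)) (.nd 180 (.lf 151 1 1) (.nd 180 (.lf 159 1 1) (.lf 158 1 1) (.lf 180 1 1)) (.nd 149 (.nd 149 (.lf 149 1 1) (.lf 131 1 1) (.lf 134 1 1)) (.lf 128 1 1) (.lf 125 1 1)))) (.nd 171 (.lf 154 1 1) (.nd 171 (.nd 149 (.nd 149 (.lf 149 1 1) (.nd 135 (.lf 111 1 1) (.lf 112 1 1) (.lf 135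 1 1)) (.lf 120 1 1)) (.lf 98 1 1) (.nd 145 (.lf 100 1 1) (.lf 145 1 1) (.lf 97 1 1))) (.nd 171 (.lf 158 1 1) (.lf 171 1 1) (.nd 159 (.lf 150 1 1) (.lf 159 1 1) (.nd 133 (.lf 129 1 1) (.lf 99 1 1) (.nd 133 (.lf 133 1 1) (.lf 119 1 1) (.lf 127 1 1))))) (.lf 149 1 1)) (.lf 171 1 1))) (.nd 215 (.nd 199 (.nd 162 (.nd 162 (.nd 162 (.lf 154 1 1) (.nd 162 (.lf 156 1 1) (.lf 162 1 1) (.lf 132 1 1)) (.nd 160 (.lf 154 1 1) (.lf 150 1 1) (.nd 160 (.lf 157 1 1) (.lf 151 1 1) (.lf 160 1 1)))) (.lf 155 1 1) (.lf 152 1 1)) (.lf 146 1 1) (.nd 146 (.nd 146 (.lf 126 1 1) (.lf 115 1 1) (.lf 146 1 1)) (.lf 92 1 1) (.nd 135 (.lf 87 1 1) (.lf 92 1 1) (.nd 135 (.lf 116 1 1) (.lf 123 1 1) (.nd 135 (.lf 111 1 1) (.lf 114 1 1) (.lf 135 1 1)))))) (.nd 199 (.nd 186 (.nd 171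 (.lf 171 1 1) (.lf 136 1 1) (.lf 140 1 1)) (.lf 166 1 1) (.nd 186 (.lf 179 1 1) (.lf 180 1 1) (.nd 186 (.lf 186 1 1) (.lf 180 1 1) (.lf 180 1 1)))) (.nd 199 (.lf 186 1 1) (.lf 178 1 1) (.nd 199 (.lf 199 1 1) (.lf 182 1 1) (.lf 179 1 1))) (.nd 179 (.lf 179 1 1) (.nd 168 (.lf 145 1 1) (.lf 132 1 1) (.lf 168 1 1)) (.nd 165 (.lf 145 1 1) (.lf 146 1 1) (.lf 165 1 1)))) (.nd 169 (.lf 151 1 1) (.lf 121 1 1) (.nd 169 (.lf 146 1 1) (.lf 161 1 1) (.nd 169 (.lf 151 1 1) (.nd 169 (.lf 169 1 1) (.lf 162 1 1) (.lf 166 1 1)) (.lf 152 1 1))))) (.nd 201 (.nd 201 (.lf 172 1 1) (.nd 201 (.lf 176 1 1) (.lf 178 1 1) (.nd 201 (.nd 196 (.lf 196 1 1) (.lf 176 1 1) (.lf 180 1 1)) (.nd 186 (.nd 186 (.lf 186 1 1) (.lf 176 1 1) (.lf 168 1 1)) (.lf 183 1 1) (.lf 186 1 1))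 (.nd 201 (.nd 195 (.lf 186 1 1) (.lf 178 1 1) (.lf 195 1 1)) (.lf 201 1 1) (.lf 194 1 1)))) (.nd 187 (.lf 163 1 1) (.nd 164 (.lf 146 1 1) (.nd 164 (.nd 154 (.lf 140 1 1) (.lf 117 1 1) (.lf 154 1 1)) (.lf 164 1 1) (.lf 147 1 1)) (.lf 145 1 1)) (.lf 187 1 1))) (.nd 150 (.lf 145 1 1) (.lf 121 1 1) (.lf 150 1 1)) (.nd 196 (.nd 196 (.lf 178 1 1) (.nd 196 (.lf 169 1 1) (.lf 196 1 1) (.lf 172 1 1)) (.lf 178 1 1)) (.lf 149 1 1) (.lf 152 1 1))) (.nd 215 (.lf 215 1 1) (.nd 203 (.nd 185 (.nd 185 (.lf 185 1 1) (.lf 171 1 1) (.lf 177 1 1)) (.lf 176 1 1) (.lf 151 1 1)) (.lf 182 1 1) (.nd 203 (.nd 203 (.nd 187 (.lf 182 1 1) (.nd 187 (.lf 187 1 1) (.lf 185 1 1) (.lf 183 1 1)) (.lf 185 1 1)) (.nd 186 (.lf 177 1 1) (.lf 178 1 1) (.nd 186 (.lf 184 1 1) (.lf 186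 1 1) (.lf 186 1 1))) (.nd 203 (.nd 203 (.lf 203 1 1) (.lf 185 1 1) (.lf 179 1 1)) (.nd 186 (.lf 184 1 1) (.lf 186 1 1) (.lf 186 1 1)) (.lf 202 1 1))) (.lf 184 1 1) (.nd 195 (.nd 195 (.nd 195 (.lf 193 1 1) (.lf 195 1 1) (.lf 182 1 1)) (.lf 177 1 1) (.lf 182 1 1)) (.lf 187 1 1) (.lf 161 1 1)))) (.nd 204 (.nd 184 (.lf 161 1 1) (.nd 184 (.lf 184 1 1) (.lf 168 1 1) (.lf 180 1 1)) (.lf 172 1 1)) (.lf 177 1 1) (.nd 204 (.nd 183 (.nd 183 (.lf 177 1 1) (.lf 180 1 1) (.nd 183 (.lf 171 1 1) (.nd 183 (.lf 172 5 7) (.lf 181 1 1) (.lf 183 1 1)) (.lf 177 1 1))) (.lf 179 1 1) (.lf 178 1 1)) (.nd 194 (.lf 168 1 1) (.nd 194 (.lf 170 1 1) (.nd 194 (.lf 191 1 1) (.lf 178 1 1) (.lf 194 1 1)) (.lf 167 1 1)) (.lf 194 1 1)) (.nd 204 (.lf 181 1 1) (.lf 182 1 1) (.lf 204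 1 1)))))) (.nd 213 (.nd 213 (.nd 212 (.lf 212 1 1) (.nd 188 (.nd 175 (.lf 156 1 1) (.lf 175 1 1) (.lf 155 1 1)) (.lf 188 1 1) (.lf 178 1 1)) (.nd 198 (.lf 182 1 1) (.lf 198 1 1) (.nd 181 (.lf 150 1 1) (.lf 181 1 1) (.lf 144 1 1)))) (.lf 212 1 1) (.lf 213 1 1)) (.nd 207 (.nd 207 (.lf 177 1 1) (.lf 182 1 1) (.nd 207 (.lf 207 1 1) (.nd 181 (.lf 175 1 1) (.lf 179 1 1) (.nd 181 (.lf 162 1 1) (.nd 178 (.lf 149 1 1) (.lf 178 1 1) (.lf 126 1 1)) (.lf 181 1 1))) (.lf 181 1 1))) (.nd 185 (.nd 185 (.lf 185 1 1) (.lf 183 1 1) (.nd 183 (.nd 178 (.nd 178 (.lf 178 1 1) (.lf 165 1 1) (.lf 174 1 1)) (.lf 172 1 1) (.lf 164 1 1)) (.lf 160 1 1) (.nd 183 (.lf 158 1 1) (.lf 159 1 1) (.lf 183 1 1)))) (.lf 157 1 1) (.nd 151 (.lf 124 1 1) (.nd 151 (.lf 132 1 1) (.lf 151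 1 1) (.lf 129 1 1)) (.lf 121 1 1))) (.nd 155 (.lf 126 1 1) (.lf 150 1 1) (.nd 155 (.lf 147 1 1) (.nd 155 (.lf 129 1 1) (.lf 129 1 1) (.lf 155 1 1)) (.lf 138 1 1)))) (.nd 198 (.nd 198 (.nd 185 (.lf 171 1 1) (.lf 155 1 1) (.nd 185 (.nd 185 (.lf 185 1 1) (.lf 182 1 1) (.lf 185 1 1)) (.nd 185 (.lf 171 1 1) (.lf 185 1 1) (.lf 166 1 1)) (.lf 182 1 1))) (.nd 182 (.lf 173 1 1) (.lf 182 1 1) (.lf 170 1 1)) (.nd 198 (.lf 198 1 1) (.nd 183 (.lf 182 1 1) (.lf 183 1 1) (.lf 163 1 1)) (.lf 182 1 1))) (.nd 175 (.lf 151 1 1) (.lf 175 1 1) (.lf 142 1 1)) (.nd 166 (.lf 126 1 1) (.nd 152 (.lf 128 1 1) (.lf 152 1 1) (.lf 123 1 1)) (.nd 166 (.lf 161 1 1) (.lf 166 1 1) (.nd 151 (.lf 122 1 1) (.lf 131 1 1) (.lf 151 1 1)))))))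

def t15_356 : Tr := (.nd 215 (.nd 215 (.nd 202 (.nd 192 (.lf 179 3 4) (.nd 174 (.lf 166 2 4) (.lf 171 3 4) (.lf 174 3 4)) (.lf 192 2 4)) (.nd 202 (.nd 202 (.nd 202 (.nd 202 (.lf 202 2 4) (.lf 194 1 2) (.lf 176 2 4)) (.nd 202 (.lf 195 3 4) (.lf 202 1 2) (.nd 196 (.lf 191 3 4) (.lf 161 3 4) (.lf 196 2 4))) (.lf 198 2 4)) (.lf 197 2 4) (.lf 196 2 4)) (.lf 187 2 4) (.lf 188 2 4)) (.nd 202 (.nd 202 (.nd 202 (.lf 193 3 4) (.lf 176 3 4) (.nd 202 (.lf 200 3 4) (.lf 202 3 4) (.nd 201 (.lf 198 3 4) (.nd 200 (.lf 200 3 4) (.lf 186 3 4) (.lf 198 2 4)) (.lf 201 3 4)))) (.nd 201 (.nd 198 (.lf 198 3 4) (.lf 198 2 4) (.lf 184 3 4)) (.nd 201 (.lf 199 3 4) (.nd 201 (.lf 194 2 4) (.lf 201 3 4) (.nd 201 (.lf 185 2 4) (.lf 201 3 4) (.lf 186 3 4))) (.nd 201 (.lf 198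 1 2) (.lf 188 1 2) (.lf 201 3 4))) (.nd 199 (.lf 181 2 4) (.nd 199 (.lf 184 3 4) (.lf 199 2 4) (.lf 173 3 4)) (.lf 181 3 4))) (.lf 199 3 4)) (.nd 193 (.lf 141 3 4) (.lf 193 3 4) (.lf 188 3 4)) (.nd 192 (.lf 192 3 4) (.lf 161 3 4) (.lf 163 3 4)))) (.nd 215 (.nd 215 (.nd 205 (.lf 204 2 4) (.lf 185 2 4) (.nd 205 (.lf 183 2 4) (.lf 184 2 4) (.nd 205 (.lf 192 2 4) (.nd 205 (.lf 205 1 2) (.lf 205 2 4) (.lf 194 2 4)) (.lf 193 2 4)))) (.nd 210 (.lf 188 2 4) (.nd 210 (.lf 210 2 4) (.lf 158 2 4) (.nd 181 (.lf 157 2 4) (.lf 160 2 4) (.nd 181 (.nd 181 (.lf 164 2 4) (.lf 181 2 4) (.lf 173 1 2)) (.lf 177 2 4) (.lf 163 1 2)))) (.nd 206 (.nd 188 (.lf 181 2 4) (.nd 188 (.nd 188 (.lf 188 2 4) (.lf 153 3 4) (.lf 158 3 4)) (.lf 179 2 4) (.lf 158 3 4)) (.nd 188 (.lf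 185 2 4) (.lf 184 2 4) (.lf 188 3 4))) (.lf 206 2 4) (.nd 201 (.lf 187 2 4) (.lf 195 2 4) (.lf 201 3 4)))) (.nd 215 (.lf 198 2 4) (.nd 215 (.lf 215 1 2) (.nd 209 (.lf 208 3 4) (.lf 204 2 4) (.lf 209 2 4)) (.nd 213 (.lf 195 2 4) (.lf 192 3 4) (.lf 213 1 2))) (.lf 198 2 4))) (.lf 194 2 4) (.lf 214 2 4)) (.nd 215 (.nd 215 (.nd 189 (.lf 138 3 4) (.nd 178 (.lf 140 3 4) (.lf 178 1 2) (.lf 135 3 4)) (.nd 189 (.lf 189 3 4) (.lf 178 3 4) (.lf 163 3 4))) (.nd 215 (.lf 197 3 4) (.lf 215 2 4) (.lf 203 3 4)) (.nd 179 (.nd 179 (.lf 178 3 4) (.lf 175 3 4) (.nd 179 (.lf 172 1 2) (.lf 179 3 4) (.lf 174 1 2))) (.lf 166 3 4) (.lf 170 3 4))) (.nd 215 (.nd 213 (.nd 190 (.lf 187 3 4) (.lf 175 1 2) (.lf 190 3 4)) (.nd 203 (.lf 193 3 4) (.lf 203 1 2) (.lf 193 3 4)) (.nd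 213 (.lf 213 1 2) (.nd 209 (.nd 199 (.lf 199 1 2) (.lf 187 3 4) (.lf 184 3 4)) (.lf 185 3 4) (.lf 209 1 2)) (.nd 211 (.lf 205 3 4) (.lf 205 3 4) (.nd 211 (.lf 211 2 4) (.nd 211 (.lf 211 1 2) (.lf 188 3 4) (.lf 206 3 4)) (.lf 211 3 4))))) (.nd 206 (.nd 206 (.lf 203 1 2) (.lf 206 1 2) (.nd 204 (.lf 204 3 4) (.lf 202 2 4) (.nd 197 (.nd 197 (.lf 191 1 2) (.lf 191 3 4) (.lf 197 3 4)) (.lf 194 3 4) (.lf 169 3 4)))) (.lf 205 3 4) (.lf 204 1 2)) (.nd 215 (.nd 215 (.lf 215 2 4) (.nd 215 (.lf 207 3 4) (.lf 213 1 2) (.nd 215 (.lf 214 3 4) (.lf 215 1 2) (.lf 211 2 4))) (.nd 209 (.lf 209 1 2) (.lf 187 2 4) (.lf 205 1 2))) (.nd 213 (.lf 213 1 2) (.lf 211 3 4) (.lf 207 2 4)) (.nd 210 (.nd 210 (.lf 204 1 2) (.lf 205 1 2) (.nd 210 (.lf 210 1 2) (.lf 206 3 4) (.lf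 205 1 2))) (.nd 210 (.lf 210 3 4) (.lf 202 3 4) (.lf 194 3 4)) (.nd 202 (.lf 182 3 4) (.lf 196 3 4) (.nd 202 (.lf 202 3 4) (.lf 199 1 2) (.lf 200 1 2)))))) (.nd 214 (.nd 204 (.lf 204 3 4) (.nd 198 (.lf 198 1 2) (.lf 195 3 4) (.lf 193 3 4)) (.lf 189 3 4)) (.lf 214 3 4) (.lf 167 3 4)))) (.nd 196 (.nd 196 (.lf 192 2 4) (.nd 196 (.lf 192 3 4) (.lf 187 2 4) (.lf 196 3 4)) (.nd 196 (.lf 188 3 4) (.nd 196 (.lf 196 3 4) (.nd 196 (.nd 194 (.nd 194 (.lf 170 3 4) (.lf 194 2 4) (.lf 176 3 4)) (.lf 182 2 4) (.lf 180 3 4)) (.nd 196 (.lf 195 3 4) (.lf 187 2 4) (.nd 196 (.lf 196 3 4) (.lf 156 2 4) (.lf 183 2 4))) (.nd 193 (.lf 179 3 4) (.lf 188 2 4) (.lf 193 3 4))) (.nd 196 (.lf 178 3 4) (.lf 188 3 4) (.nd 196 (.lf 196 3 4) (.lf 196 3 4) (.nd 183 (.lf 183 3 4)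 (.lf 159 2 4) (.lf 173 3 4))))) (.lf 189 3 4))) (.nd 188 (.nd 188 (.lf 162 3 4) (.nd 165 (.lf 165 3 4) (.lf 158 1 2) (.lf 158 3 4)) (.nd 188 (.lf 146 1 2) (.nd 188 (.lf 148 1 2) (.lf 188 3 4) (.lf 145 1 2)) (.lf 175 3 4))) (.nd 188 (.lf 139 3 4) (.lf 134 3 4) (.nd 188 (.lf 163 3 4) (.nd 188 (.lf 188 2 4) (.lf 161 3 4) (.lf 158 3 4)) (.lf 181 3 4))) (.lf 139 3 4)) (.nd 180 (.nd 179 (.lf 138 3 4) (.lf 179 3 4) (.nd 177 (.lf 138 2 4) (.lf 177 3 4) (.lf 158 3 4))) (.lf 165 3 4) (.nd 180 (.lf 162 2 4) (.nd 172 (.lf 157 3 4) (.lf 162 3 4) (.nd 172 (.lf 172 3 4) (.nd 167 (.lf 167 1 2) (.lf 137 1 2) (.lf 167 3 4)) (.lf 165 3 4))) (.nd 180 (.lf 156 2 4) (.lf 143 1 2) (.lf 180 3 4))))) (.nd 210 (.nd 182 (.nd 182 (.lf 171 1 2) (.nd 181 (.lf 181 1 2) (.lf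 172 3 4) (.nd 181 (.nd 178 (.lf 167 1 2) (.lf 132 3 4) (.lf 178 3 4)) (.lf 167 1 2) (.lf 181 3 4))) (.nd 182 (.lf 169 1 2) (.lf 141 1 2) (.nd 182 (.lf 162 2 4) (.lf 178 1 2) (.nd 182 (.lf 182 2 4) (.lf 160 3 4) (.lf 172 2 4))))) (.lf 165 3 4) (.lf 170 3 4)) (.nd 210 (.nd 195 (.lf 193 3 4) (.lf 180 3 4) (.nd 195 (.nd 195 (.nd 195 (.lf 172 1 2) (.lf 172 1 2) (.nd 195 (.lf 195 1 2) (.lf 185 1 2) (.lf 187 3 4))) (.lf 193 1 2) (.lf 194 3 4)) (.lf 186 3 4) (.lf 193 3 4))) (.nd 188 (.lf 164 3 4) (.lf 188 3 4) (.nd 185 (.lf 185 3 4) (.nd 181 (.lf 165 3 4) (.lf 166 3 4) (.nd 181 (.lf 181 3 4) (.lf 175 1 2) (.lf 172 1 2))) (.lf 176 3 4))) (.nd 210 (.nd 198 (.nd 198 (.lf 186 3 4) (.lf 166 3 4) (.lf 198 3 4)) (.lf 181 3 4) (.lf 189 3 4)) (.lf 199 3 4) (.nd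 210 (.nd 195 (.lf 195 3 4) (.lf 194 1 2) (.lf 165 1 2)) (.lf 193 1 2) (.nd 210 (.nd 210 (.lf 209 3 4) (.lf 210 1 2) (.lf 191 1 2)) (.nd 210 (.lf 192 1 2) (.lf 210 1 2) (.nd 194 (.nd 194 (.lf 194 3 4) (.lf 193 1 2) (.lf 194 1 2)) (.lf 185 1 2) (.lf 184 1 2))) (.nd 202 (.nd 185 (.lf 185 3 4) (.lf 164 1 2) (.lf 174 3 4)) (.lf 202 3 4) (.lf 185 3 4)))))) (.lf 168 3 4)))

def t15_358 : Tr := (.nd 294 (.nd 294 (.lf 294 1 3) (.nd 283 (.nd 263 (.nd 251 (.lf 204 1 3) (.nd 251 (.lf 203 1 3) (.lf 206 1 3) (.lf 251 1 3)) (.nd 239 (.lf 239 1 3) (.lf 226 1 3) (.lf 227 1 3))) (.nd 263 (.nd 259 (.nd 259 (.nd 235 (.lf 235 1 3) (.lf 207 1 3) (.lf 204 1 3)) (.lf 230 1 3) (.lf 259 1 3)) (.lf 233 1 3) (.lf 240 1 3)) (.nd 247 (.lf 247 1 3) (.lf 226 1 3) (.nd 237 (.lf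 224 1 3) (.lf 227 1 3) (.lf 237 1 3))) (.lf 263 1 3)) (.nd 240 (.lf 218 1 3) (.nd 224 (.lf 200 1 3) (.lf 196 1 3) (.lf 224 1 3)) (.nd 240 (.lf 240 1 3) (.lf 233 1 3) (.nd 240 (.lf 240 1 3) (.lf 225 1 3) (.lf 220 1 3))))) (.nd 283 (.nd 272 (.lf 257 1 3) (.nd 258 (.lf 228 1 3) (.lf 258 1 3) (.lf 218 1 3)) (.lf 272 1 3)) (.lf 283 1 3) (.lf 273 1 3)) (.nd 256 (.lf 252 1 3) (.nd 249 (.lf 214 1 3) (.nd 230 (.lf 230 1 3) (.lf 178 1 3) (.lf 225 1 3)) (.nd 249 (.lf 222 1 3) (.lf 221 1 3) (.lf 249 1 3))) (.lf 256 1 3))) (.nd 282 (.nd 282 (.lf 282 1 3) (.nd 274 (.lf 274 1 3) (.lf 240 1 3) (.lf 266 1 3)) (.lf 263 1 3)) (.lf 261 1 3) (.lf 264 1 3))) (.nd 280 (.nd 275 (.lf 275 1 3) (.nd 231 (.nd 202 (.nd 176 (.lf 146 1 3) (.lf 176 1 3) (.lf 145 1 3)) (.lf 202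 1 3) (.lf 179 1 3)) (.lf 202 1 3) (.lf 231 1 3)) (.nd 228 (.lf 198 1 3) (.nd 228 (.lf 206 1 3) (.lf 228 1 3) (.lf 203 1 3)) (.nd 195 (.lf 166 1 3) (.lf 158 1 3) (.nd 195 (.lf 182 1 3) (.lf 195 1 3) (.lf 175 1 3))))) (.nd 229 (.nd 229 (.nd 212 (.lf 212 1 3) (.lf 184 1 3) (.nd 208 (.lf 193 1 3) (.lf 194 1 3) (.lf 208 1 3))) (.lf 221 1 3) (.lf 229 1 3)) (.nd 200 (.lf 200 1 3) (.lf 194 1 3) (.lf 171 1 3)) (.nd 224 (.nd 200 (.nd 171 (.lf 171 1 3) (.lf 141 1 3) (.lf 138 1 3)) (.lf 174 1 3) (.lf 200 1 3)) (.lf 224 1 3) (.lf 172 1 3))) (.lf 280 1 3)) (.nd 278 (.nd 278 (.nd 258 (.lf 258 1 3) (.nd 244 (.lf 224 1 3) (.lf 244 1 3) (.lf 225 1 3)) (.nd 247 (.lf 247 1 3) (.nd 211 (.lf 211 1 3) (.lf 199 1 3) (.nd 198 (.lf 169 1 3) (.lf 198 1 3) (.lf 167 1 3)))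 (.lf 224 1 3))) (.nd 278 (.nd 278 (.lf 278 1 3) (.nd 258 (.nd 257 (.nd 253 (.lf 253 1 3) (.lf 219 1 3) (.lf 239 1 3)) (.lf 254 1 3) (.lf 257 1 3)) (.lf 247 1 3) (.lf 258 1 3)) (.lf 261 1 3)) (.nd 257 (.lf 256 1 3) (.nd 257 (.lf 257 1 3) (.lf 223 1 3) (.lf 213 1 3)) (.lf 239 1 3)) (.lf 265 1 3)) (.nd 265 (.lf 245 1 3) (.lf 250 1 3) (.nd 265 (.lf 265 1 3) (.lf 259 1 3) (.nd 258 (.lf 258 1 3) (.lf 230 1 3) (.nd 236 (.lf 200 1 3) (.lf 225 1 3) (.lf 236 1 3)))))) (.nd 241 (.lf 225 1 3) (.nd 241 (.lf 234 1 3) (.lf 241 1 3) (.lf 231 1 3)) (.nd 225 (.nd 214 (.lf 166 1 3) (.lf 214 1 3) (.lf 171 1 3)) (.lf 171 1 3) (.nd 225 (.lf 194 1 3) (.lf 205 1 3) (.nd 225 (.lf 204 1 3) (.lf 225 1 3) (.lf 207 1 3))))) (.nd 248 (.nd 248 (.nd 225 (.lf 220 1 3) (.lf 225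 1 3) (.lf 196 1 3)) (.nd 248 (.nd 230 (.lf 221 1 3) (.lf 230 1 3) (.lf 213 1 3)) (.lf 231 1 3) (.lf 248 1 3)) (.nd 240 (.lf 225 1 3) (.lf 212 1 3) (.nd 240 (.nd 225 (.lf 206 1 3) (.lf 225 1 3) (.lf 215 1 3)) (.lf 240 1 3) (.lf 218 1 3)))) (.lf 200 1 3) (.nd 230 (.nd 230 (.lf 221 1 3) (.lf 230 1 3) (.nd 226 (.nd 226 (.lf 201 1 3) (.lf 226 1 3) (.lf 205 1 3)) (.lf 204 1 3) (.lf 221 1 3))) (.nd 197 (.lf 166 1 3) (.lf 197 1 3) (.lf 167 1 3)) (.lf 202 1 3)))))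

def t15_359 : Tr := (.nd 263 (.lf 232 1 4) (.lf 232 1 4) (.lf 263 1 4))

def t15_361 : Tr := (.nd 95 (.nd 71 (.nd 45 (.lf 45 1 1) (.nd 16 (.lf 0 1 1) (.lf 0 1 1) (.lf 16 1 1)) (.lf 16 1 1)) (.nd 42 (.lf 9 1 1) (.nd 12 (.lf 0 1 1) (.lf 7 1 1) (.nd 12 (.lf 12 1 1) (.lf 0 1 1) (.lf 0 1 1))) (.nd 42 (.lf 42 1 1) (.lf 17 1 1) (.nd 20 (.lf 0 1 1) (.lf 20 1 1) (.lf 0 1 1)))) (.lf 71 1 1)) (.nd 43 (.lf 14 1 1) (.lf 38 1 1) (.nd 43 (.lf 43 1 1) (.lf 26 1 1) (.lf 35 1 1))) (.nd 95 (.nd 65 (.nd 63 (.nd 63 (.lf 39 1 1) (.lf 42 1 1) (.lf 63 1 1)) (.lf 56 1 1) (.lf 53 1 1)) (.nd 65 (.lf 65 1 1) (.lf 43 1 1) (.lf 13 1 1)) (.lf 41 1 1)) (.nd 80 (.nd 80 (.lf 80 1 1) (.nd 69 (.lf 69 1 1) (.lf 38 1 1) (.lf 48 1 1)) (.lf 63 1 1)) (.lf 57 1 1) (.nd 56 (.lf 36 1 1)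 (.lf 56 1 1) (.lf 31 1 1))) (.nd 95 (.lf 71 1 1) (.nd 64 (.lf 64 1 1) (.nd 52 (.lf 37 1 1) (.lf 21 1 1) (.lf 52 1 1)) (.lf 61 1 1)) (.nd 95 (.lf 81 1 1) (.nd 95 (.nd 80 (.lf 42 1 1) (.lf 80 1 1) (.lf 53 1 1)) (.lf 69 1 1) (.nd 95 (.lf 73 1 1) (.lf 95 1 1) (.lf 69 1 1))) (.lf 94 1 1)))))

def t15_362 : Tr := (.nd 122 (.nd 122 (.lf 122 2 2) (.nd 114 (.lf 114 2 2) (.lf 113 2 2) (.nd 91 (.lf 60 2 2) (.lf 83 2 2) (.lf 91 2 2))) (.nd 105 (.lf 105 2 2) (.lf 101 2 2) (.nd 77 (.nd 77 (.lf 77 2 2) (.nd 61 (.lf 9 2 2) (.lf 61 2 2) (.nd 56 (.lf 8 2 2) (.lf 56 2 2) (.lf 11 2 2))) (.nd 60 (.lf 60 2 2) (.lf 29 2 2) (.lf 31 2 2))) (.nd 56 (.lf 54 2 2) (.nd 56 (.lf 39 2 2) (.lf 35 2 2) (.lf 56 2 2)) (.nd 56 (.lf 35 2 2) (.lf 34 2 2) (.lf 56 2 2))) (.nd 76 (.nd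 66 (.nd 66 (.lf 66 2 2) (.lf 51 2 2) (.lf 36 2 2)) (.lf 14 2 2) (.lf 61 2 2)) (.nd 76 (.nd 50 (.lf 50 1 2) (.nd 50 (.lf 50 1 2) (.lf 41 2 2) (.lf 40 2 2)) (.lf 47 2 2)) (.lf 76 2 2) (.nd 50 (.lf 46 2 2) (.lf 50 1 2) (.lf 49 2 2))) (.lf 65 2 2))))) (.nd 117 (.lf 93 2 2) (.nd 65 (.nd 36 (.nd 36 (.lf 17 2 2) (.lf 36 2 2) (.lf 27 2 2)) (.lf 30 2 2) (.lf 7 2 2)) (.lf 60 2 2) (.nd 65 (.lf 48 2 2) (.lf 57 2 2) (.lf 65 2 2))) (.nd 117 (.nd 102 (.lf 78 2 2) (.lf 102 2 2) (.nd 79 (.nd 60 (.lf 29 2 2) (.lf 60 2 2) (.lf 21 2 2)) (.nd 79 (.lf 62 2 2) (.lf 79 2 2) (.nd 69 (.nd 55 (.lf 55 2 2) (.lf 35 2 2) (.lf 31 2 2)) (.lf 69 2 2) (.nd 32 (.lf 31 2 2) (.lf 32 2 2) (.lf 29 2 2)))) (.nd 61 (.lf 9 2 2) (.lf 61 2 2) (.lf 56 2 2)))) (.lf 117 2 2) (.nd 87 (.nd 63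 (.lf 37 2 2) (.nd 57 (.lf 6 2 2) (.lf 33 2 2) (.lf 57 2 2)) (.lf 63 2 2)) (.lf 85 2 2) (.nd 87 (.lf 35 2 2) (.lf 87 2 2) (.nd 65 (.lf 37 2 2) (.nd 34 (.lf 4 2 2) (.lf 34 2 2) (.lf 1 2 2)) (.lf 65 2 2)))))) (.nd 93 (.nd 64 (.lf 64 2 2) (.lf 35 2 2) (.lf 64 2 2)) (.nd 85 (.nd 85 (.lf 61 2 2) (.nd 85 (.lf 57 2 2) (.lf 67 2 2) (.nd 85 (.lf 85 2 2) (.nd 71 (.lf 63 2 2) (.lf 71 2 2) (.nd 68 (.lf 65 2 2) (.lf 60 2 2) (.lf 68 1 2))) (.lf 77 2 2))) (.lf 76 2 2)) (.lf 36 2 2) (.lf 65 2 2)) (.nd 93 (.lf 93 2 2) (.lf 74 2 2) (.nd 84 (.nd 76 (.nd 76 (.lf 52 2 2) (.nd 76 (.lf 56 2 2) (.lf 58 2 2) (.lf 76 2 2)) (.lf 58 2 2)) (.lf 30 2 2) (.lf 60 2 2)) (.nd 84 (.nd 78 (.lf 74 2 2) (.lf 56 2 2) (.lf 78 2 2)) (.lf 84 2 2) (.nd 79 (.lf 71 2 2) (.lf 53 2 2) (.lf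 79 2 2))) (.lf 62 2 2)))))

def t15_364 : Tr := (.nd 151 (.nd 151 (.nd 106 (.nd 59 (.nd 28 (.lf 0 5 1) (.lf 28 5 1) (.lf 0 5 1)) (.lf 59 5 1) (.nd 29 (.lf 24 5 1) (.lf 0 5 1) (.nd 29 (.lf 29 5 1) (.lf 0 5 1) (.lf 14 5 1)))) (.nd 85 (.lf 55 5 1) (.lf 85 5 1) (.lf 33 5 1)) (.nd 106 (.nd 86 (.lf 83 5 1) (.lf 86 5 1) (.lf 82 4 1)) (.lf 91 5 1) (.lf 106 5 1))) (.nd 151 (.nd 123 (.nd 123 (.lf 123 5 1) (.nd 109 (.lf 57 5 1) (.lf 109 5 1) (.lf 87 5 1)) (.lf 100 5 1)) (.lf 98 5 1) (.nd 122 (.nd 88 (.lf 72 5 1) (.lf 72 5 1) (.nd 88 (.lf 78 4 1) (.lf 81 5 1) (.lf 88 5 1))) (.lf 104 5 1) (.lf 122 5 1))) (.nd 123 (.nd 111 (.lf 111 4 1) (.lf 78 5 1) (.lf 109 5 1)) (.lf 111 4 1) (.lf 123 5 1)) (.lf 151 5 1)) (.nd 87 (.nd 87 (.lf 70 5 1) (.lf 87 5 1) (.nd 63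 (.lf 63 5 1) (.lf 44 5 1) (.lf 49 5 1))) (.nd 55 (.lf 3 5 1) (.nd 55 (.lf 40 5 1) (.lf 55 5 1) (.lf 25 5 1)) (.lf 50 5 1)) (.nd 60 (.nd 60 (.lf 60 5 1) (.lf 39 5 1) (.lf 33 5 1)) (.lf 23 5 1) (.lf 25 5 1)))) (.nd 108 (.nd 56 (.lf 29 7 1) (.nd 23 (.nd 23 (.lf 0 7 1) (.lf 23 7 1) (.lf 0 6 1)) (.lf 5 7 1) (.lf 0 7 1)) (.nd 56 (.nd 55 (.lf 55 6 1) (.lf 25 6 1) (.nd 54 (.lf 35 6 1) (.lf 32 6 1) (.nd 54 (.lf 54 7 1) (.lf 45 6 1) (.lf 40 7 1)))) (.lf 1 6 1) (.lf 56 6 1))) (.nd 89 (.nd 89 (.lf 25 7 1) (.lf 56 7 1) (.lf 89 7 1)) (.nd 58 (.nd 5 (.lf 5 8 1) (.lf 0 9 1) (.lf 0 9 1)) (.nd 58 (.lf 27 9 1) (.nd 58 (.lf 23 10 1) (.nd 58 (.lf 0 11 1) (.lf 58 12 1) (.lf 0 11 1)) (.lf 0 10 1)) (.lf 54 9 1)) (.lf 58 8 1)) (.nd 36 (.lf 0 8 1) (.lf 36 7 1) (.lf 27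 8 1))) (.nd 108 (.nd 87 (.lf 87 6 1) (.lf 54 6 1) (.lf 28 6 1)) (.lf 56 6 1) (.nd 108 (.lf 92 6 1) (.nd 108 (.lf 108 5 1) (.lf 93 6 1) (.lf 103 6 1)) (.nd 92 (.nd 80 (.lf 78 6 1) (.lf 47 6 1) (.lf 80 5 1)) (.lf 92 6 1) (.lf 80 5 1))))) (.nd 67 (.nd 23 (.lf 0 6 1) (.nd 14 (.lf 0 6 1) (.nd 14 (.lf 0 6 1) (.lf 14 6 1) (.lf 0 5 1)) (.lf 5 6 1)) (.nd 23 (.nd 3 (.lf 2 6 1) (.lf 0 5 1) (.lf 3 5 1)) (.nd 23 (.lf 3 6 1) (.lf 0 6 1) (.nd 23 (.nd 7 (.nd 7 (.lf 6 6 1) (.nd 6 (.lf 6 6 1) (.lf 3 5 1) (.lf 5 6 1)) (.lf 7 6 1)) (.lf 0 6 1) (.lf 0 6 1)) (.lf 6 6 1) (.nd 23 (.lf 23 5 1) (.lf 8 6 1) (.lf 7 5 1)))) (.lf 2 5 1))) (.lf 60 6 1) (.nd 67 (.nd 59 (.lf 28 5 1) (.nd 59 (.lf 50 6 1) (.nd 59 (.lf 55 5 1) (.lf 52 5 1) (.lf 59 6 1)) (.lf 51 6 1)) (.lf 46 5 1))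 (.lf 32 5 1) (.nd 67 (.nd 56 (.lf 56 5 1) (.nd 25 (.lf 0 5 1) (.lf 25 6 1) (.lf 0 6 1)) (.lf 27 5 1)) (.nd 56 (.lf 52 5 1) (.lf 56 5 1) (.lf 47 6 1)) (.nd 67 (.nd 67 (.nd 66 (.lf 51 6 1) (.lf 45 6 1) (.lf 66 5 1)) (.nd 67 (.nd 67 (.lf 67 6 1) (.lf 60 6 1) (.nd 66 (.lf 58 5 1) (.lf 62 6 1) (.lf 66 6 1))) (.lf 51 6 1) (.lf 52 6 1)) (.nd 63 (.lf 63 5 1) (.lf 62 5 1) (.nd 63 (.lf 56 6 1) (.lf 47 5 1) (.lf 63 6 1)))) (.lf 63 5 1) (.lf 66 5 1))))))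

end Pool.Agent.helper93.Circ
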