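import Pool.Agent.helper93.Circ.Tree

/-!
# Energy certificate, data, part 4 of 4 (generated by a program)

Partition of the residues prime to `3` into 60898 classes modulo powers `3 ^ i`, `i ≤ 15`; energies
in units of `log 2 / 53`, at most `48` units lost per circuit.
-/

set_option maxRecDepth 100000

namespace Pool.Agent.helper93.Circ

open Tr

def t15_563 : Tr := (.nd 274 (.nd 274 (.nd 274 (.lf 252 1 2) (.nd 248 (.lf 248 1 2) (.lf 220 1 2) (.nd 243 (.nd 222 (.lf 193 1 2) (.lf 222 1 2) (.nd 193 (.lf 163 1 2) (.lf 162 1 2) (.lf 193 1 2))) (.lf 243 1 2) (.lf 219 1 2))) (.nd 274 (.lf 274 1 2) (.lf 260 1 2) (.lf 272 1 4))) (.nd 259 (.nd 229 (.lf 177 1 2) (.nd 229 (.nd 214 (.lf 178 1 4) (.lf 214 1 2) (.lf 214 1 2)) (.lf 229 1 2) (.lf 199 1 2)) (.lf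 224 1 2)) (.nd 228 (.nd 228 (.lf 213 1 2) (.lf 206 1 2) (.nd 228 (.nd 213 (.lf 190 1 2) (.lf 213 1 2) (.nd 195 (.lf 195 1 2) (.lf 192 1 4) (.nd 190 (.lf 190 1 2) (.lf 190 1 4) (.lf 173 1 4)))) (.lf 228 1 2) (.lf 205 1 2))) (.nd 186 (.nd 186 (.lf 179 1 2) (.lf 182 1 2) (.nd 186 (.lf 178 1 4) (.lf 186 1 2) (.lf 172 1 4))) (.lf 176 1 2) (.lf 173 1 2)) (.lf 199 1 2)) (.lf 259 1 2)) (.nd 258 (.nd 258 (.lf 258 1 4) (.lf 231 1 2) (.nd 230 (.lf 194 1 2) (.lf 201 1 4) (.lf 230 1 4))) (.nd 215 (.lf 203 1 2) (.lf 202 1 2) (.nd 215 (.nd 211 (.lf 194 1 2) (.lf 211 1 2) (.lf 184 1 2)) (.nd 214 (.lf 214 1 2) (.lf 203 1 2) (.lf 186 1 2)) (.lf 215 1 2))) (.lf 236 1 2))) (.nd 268 (.nd 257 (.nd 228 (.lf 198 1 4) (.lf 228 1 4) (.lf 195 1 4)) (.nd 257 (.lf 217 1 2) (.lf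 257 1 4) (.nd 230 (.nd 230 (.lf 220 1 2) (.nd 216 (.lf 190 1 2) (.lf 216 1 4) (.lf 216 1 4)) (.lf 230 1 2)) (.lf 219 1 2) (.lf 214 1 2))) (.nd 220 (.nd 188 (.lf 172 1 4) (.lf 188 1 2) (.lf 171 1 4)) (.nd 220 (.lf 218 1 4) (.nd 211 (.lf 210 1 2) (.nd 211 (.lf 206 1 2) (.lf 211 1 4) (.lf 205 1 2)) (.lf 208 1 4)) (.nd 220 (.lf 220 1 4) (.lf 212 1 2) (.lf 215 1 4))) (.lf 202 1 4))) (.nd 229 (.lf 224 1 4) (.nd 229 (.nd 200 (.nd 199 (.lf 183 1 2) (.nd 199 (.lf 192 1 2) (.nd 192 (.lf 191 1 2) (.lf 164 1 4) (.lf 192 1 4)) (.lf 199 1 2)) (.lf 175 1 2)) (.lf 198 1 4) (.lf 200 1 2)) (.lf 229 1 4) (.nd 212 (.lf 208 1 4) (.lf 212 1 4) (.lf 184 1 4))) (.lf 200 1 4)) (.nd 268 (.lf 266 1 4) (.nd 268 (.lf 257 1 4) (.lf 255 1 4) (.lf 268 1 2)) (.lf 251 1 4))) (.nd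 264 (.nd 264 (.lf 264 1 2) (.lf 258 1 4) (.nd 263 (.lf 249 1 2) (.nd 263 (.lf 242 1 4) (.lf 263 1 2) (.nd 257 (.nd 241 (.lf 196 1 2) (.lf 241 1 2) (.lf 220 1 2)) (.lf 241 1 2) (.lf 257 1 2))) (.nd 238 (.nd 238 (.nd 228 (.lf 217 1 2) (.lf 228 1 2) (.lf 208 1 2)) (.lf 238 1 2) (.lf 231 1 2)) (.lf 226 1 2) (.lf 223 1 2)))) (.nd 241 (.nd 216 (.nd 190 (.nd 190 (.nd 190 (.lf 190 1 4) (.lf 182 1 2) (.nd 190 (.lf 185 1 4) (.nd 190 (.lf 190 1 4) (.lf 159 1 2) (.lf 168 1 2)) (.lf 175 1 4))) (.nd 189 (.lf 189 1 2) (.lf 187 1 4) (.nd 185 (.lf 185 1 2) (.nd 185 (.lf 150 1 2) (.lf 185 1 4) (.lf 171 1 2)) (.lf 183 1 4))) (.lf 189 1 2)) (.lf 171 1 4) (.lf 166 1 4)) (.lf 171 1 4) (.nd 216 (.lf 216 1 4) (.nd 209 (.lf 209 1 2) (.lf 207 1 4) (.lf 204 1 4)) (.lf 194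 1 4))) (.nd 187 (.nd 174 (.lf 146 1 2) (.lf 174 1 2) (.lf 170 1 4)) (.nd 187 (.lf 142 1 4) (.lf 187 1 4) (.lf 186 1 2)) (.lf 174 1 2)) (.nd 241 (.lf 241 1 4) (.nd 223 (.nd 196 (.lf 182 1 4) (.nd 196 (.lf 175 1 2) (.lf 172 1 2) (.lf 196 1 4)) (.lf 173 1 2)) (.nd 194 (.lf 194 1 4) (.lf 175 1 2) (.lf 193 1 4)) (.lf 223 1 2)) (.lf 234 1 4))) (.nd 225 (.nd 223 (.lf 223 1 2) (.nd 175 (.nd 175 (.lf 140 1 2) (.lf 175 1 4) (.lf 145 1 2)) (.lf 145 1 2) (.lf 166 1 4)) (.nd 174 (.lf 171 1 2) (.lf 171 1 4) (.lf 174 1 4))) (.lf 225 1 2) (.nd 200 (.lf 171 1 4) (.lf 200 1 4) (.lf 193 1 4)))))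

def t15_565 : Tr := (.nd 364 (.lf 346 1 3) (.lf 364 1 3) (.nd 332 (.nd 332 (.lf 332 1 3) (.nd 321 (.lf 321 1 3) (.nd 294 (.lf 294 1 3) (.lf 284 1 3) (.nd 281 (.lf 261 1 3) (.nd 262 (.lf 257 1 3) (.lf 262 1 3) (.lf 210 1 3)) (.lf 281 1 3))) (.lf 307 1 3)) (.lf 328 1 3)) (.nd 313 (.lf 313 1 3) (.nd 308 (.lf 308 1 3) (.nd 263 (.lf 234 1 3) (.lf 234 1 3) (.lf 263 1 3)) (.lf 260 1 3)) (.nd 261 (.lf 256 1 3) (.nd 261 (.lf 261 1 3) (.lf 244 1 3) (.nd 253 (.lf 253 1 3) (.lf 230 1 3) (.nd 252 (.lf 252 1 3) (.lf 200 1 3) (.lf 230 1 3)))) (.lf 232 1 3))) (.lf 312 1 3)))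

def t15_568 : Tr := (.nd 100 (.nd 100 (.nd 85 (.lf 61 1 1) (.lf 62 1 1) (.lf 85 1 1)) (.nd 70 (.lf 68 1 1) (.nd 46 (.lf 40 1 1) (.lf 20 1 1) (.nd 46 (.lf 37 1 1) (.lf 29 1 1) (.nd 46 (.lf 46 1 1) (.lf 16 1 1) (.lf 21 1 1)))) (.lf 70 1 1)) (.nd 100 (.lf 76 1 1) (.nd 100 (.lf 86 1 1) (.lf 99 1 1) (.nd 100 (.nd 100 (.nd 100 (.lf 100 1 1) (.lf 80 1 1) (.lf 94 1 1)) (.lf 78 1 1) (.lf 74 1 1)) (.lf 74 1 1) (.lf 85 1 1))) (.lf 74 1 1))) (.nd 48 (.lf 48 1 1) (.nd 43 (.lf 43 1 1) (.lf 19 1 1) (.lf 0 1 1)) (.lf 19 1 1)) (.nd 95 (.nd 50 (.lf 50 1 1) (.lf 21 1 1) (.lf 21 1 1)) (.nd 95 (.lf 76 1 1) (.lf 76 1 1) (.nd 95 (.nd 95 (.lf 69 1 1) (.lf 71 1 1) (.lf 95 1 1)) (.lf 70 1 1) (.lf 67 1 1))) (.nd 47 (.nd 17 (.lf 0 1 1) (.lf 17 1 1) (.lf 12 1 1)) (.lf 14 1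 1) (.lf 47 1 1))))

def t15_569 : Tr := (.nd 180 (.nd 180 (.lf 163 1 2) (.nd 180 (.nd 154 (.lf 154 1 2) (.nd 124 (.nd 89 (.lf 89 1 2) (.lf 86 1 2) (.lf 66 1 2)) (.lf 124 1 2) (.lf 119 1 2)) (.lf 152 1 2)) (.lf 180 1 2) (.lf 154 1 2)) (.nd 172 (.nd 172 (.nd 165 (.lf 158 1 2) (.nd 165 (.lf 165 1 2) (.lf 143 1 2) (.lf 115 1 2)) (.nd 145 (.lf 135 1 2) (.nd 145 (.lf 124 1 2) (.lf 132 1 2) (.nd 145 (.lf 145 1 2) (.lf 122 1 2) (.lf 121 1 2))) (.lf 114 1 2))) (.lf 161 1 2) (.nd 172 (.lf 156 1 2) (.nd 148 (.lf 148 1 2) (.lf 148 1 2) (.nd 120 (.lf 120 1 2) (.lf 115 1 2) (.lf 91 1 2))) (.lf 172 1 2))) (.nd 171 (.lf 119 1 2) (.lf 171 1 2) (.nd 149 (.lf 118 1 2) (.lf 149 1 2) (.lf 121 1 2))) (.lf 149 1 2))) (.nd 175 (.nd 151 (.lf 125 1 2) (.lf 122 1 2) (.nd 151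 (.lf 136 1 2) (.lf 151 1 2) (.lf 151 1 2))) (.nd 123 (.lf 123 1 2) (.lf 94 1 2) (.nd 118 (.lf 66 1 2) (.lf 94 1 2) (.lf 118 1 2))) (.nd 175 (.lf 160 1 2) (.nd 175 (.lf 151 1 2) (.lf 144 1 2) (.nd 175 (.nd 175 (.nd 149 (.nd 148 (.lf 148 1 2) (.lf 118 1 2) (.lf 148 1 2)) (.lf 134 1 2) (.lf 149 1 2)) (.lf 175 1 2) (.lf 160 1 2)) (.lf 174 1 2) (.lf 161 1 2))) (.lf 145 1 2))) (.nd 151 (.nd 145 (.nd 94 (.lf 94 1 2) (.lf 87 1 2) (.lf 65 1 2)) (.nd 123 (.lf 91 1 2) (.lf 96 1 2) (.lf 123 1 2)) (.nd 145 (.nd 145 (.lf 125 1 2) (.nd 145 (.lf 135 1 2) (.lf 143 1 2) (.nd 145 (.lf 121 1 2) (.lf 129 1 2) (.nd 145 (.lf 118 1 2) (.lf 145 1 2) (.lf 123 1 2)))) (.lf 115 1 2)) (.nd 134 (.lf 119 1 2) (.lf 106 1 2) (.nd 134 (.nd 134 (.lf 134 1 2) (.lf 120 1 2) (.lf 131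 1 2)) (.lf 112 1 2) (.lf 119 1 2))) (.nd 119 (.nd 114 (.lf 114 1 2) (.lf 62 1 2) (.lf 92 1 2)) (.lf 119 1 2) (.lf 90 1 2)))) (.nd 151 (.nd 142 (.nd 142 (.lf 136 1 2) (.lf 142 1 2) (.nd 137 (.lf 129 1 2) (.lf 111 1 2) (.lf 137 1 2))) (.lf 120 1 2) (.nd 134 (.nd 134 (.lf 116 1 2) (.lf 110 1 2) (.nd 134 (.lf 114 1 2) (.lf 116 1 2) (.lf 134 1 2))) (.lf 88 1 2) (.lf 118 1 2))) (.nd 151 (.lf 151 1 2) (.lf 130 1 2) (.nd 129 (.lf 129 1 2) (.nd 113 (.lf 96 1 2) (.lf 113 1 2) (.lf 92 1 2)) (.lf 115 1 2))) (.nd 132 (.nd 118 (.nd 118 (.lf 118 1 2) (.lf 87 1 2) (.lf 88 1 2)) (.lf 105 1 2) (.nd 100 (.lf 92 1 2) (.lf 83 1 2) (.lf 100 1 2))) (.nd 128 (.nd 128 (.lf 123 1 2) (.lf 122 1 2) (.nd 128 (.lf 128 1 2) (.lf 122 1 2) (.lf 124 1 2))) (.lf 113 1 2) (.nd 114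 (.nd 114 (.lf 114 1 2) (.lf 99 1 2) (.lf 84 1 2)) (.lf 62 1 2) (.nd 109 (.lf 64 1 2) (.lf 109 1 2) (.lf 61 1 2)))) (.nd 132 (.nd 119 (.nd 119 (.lf 104 1 2) (.lf 119 1 2) (.lf 89 1 2)) (.lf 114 1 2) (.lf 67 1 2)) (.nd 118 (.lf 89 1 2) (.lf 118 1 2) (.lf 87 1 2)) (.nd 132 (.lf 132 1 2) (.lf 125 1 2) (.nd 128 (.nd 102 (.lf 98 1 2) (.lf 102 1 2) (.lf 68 1 2)) (.lf 128 1 2) (.lf 99 1 2)))))) (.nd 122 (.lf 93 1 2) (.nd 122 (.nd 122 (.nd 122 (.nd 122 (.lf 108 1 2) (.lf 103 1 2) (.lf 122 1 2)) (.lf 122 1 2) (.lf 122 1 2)) (.lf 98 1 2) (.lf 103 1 2)) (.lf 117 1 2) (.lf 113 1 2)) (.nd 122 (.nd 122 (.lf 122 1 2) (.lf 88 1 2) (.nd 110 (.lf 91 1 2) (.nd 110 (.lf 91 1 2) (.lf 92 1 2) (.lf 110 1 2)) (.lf 84 1 2))) (.lf 91 1 2) (.lf 65 1 2)))))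

def t15_571 : Tr := (.nd 194 (.nd 194 (.nd 187 (.lf 170 1 1) (.lf 164 1 1) (.nd 187 (.nd 179 (.lf 175 1 1) (.nd 179 (.lf 170 1 1) (.lf 170 1 1) (.lf 179 1 1)) (.lf 165 1 1)) (.nd 184 (.lf 171 1 1) (.nd 184 (.nd 184 (.lf 166 1 1) (.nd 184 (.lf 184 1 1) (.lf 174 1 1) (.lf 172 1 1)) (.lf 172 1 1)) (.lf 171 1 1) (.lf 173 1 1)) (.lf 165 1 1)) (.nd 187 (.nd 184 (.lf 184 1 1) (.nd 184 (.lf 181 1 1) (.nd 184 (.lf 183 1 1) (.lf 184 1 1) (.lf 166 1 1)) (.lf 183 1 1)) (.lf 183 1 1)) (.lf 184 1 1) (.lf 187 1 1)))) (.nd 188 (.nd 188 (.lf 182 1 1) (.nd 188 (.lf 146 1 1) (.lf 169 1 1) (.nd 188 (.lf 168 1 1) (.lf 188 1 1) (.nd 183 (.lf 183 1 1) (.lf 159 1 1) (.lf 160 1 1)))) (.nd 188 (.lf 188 1 1) (.nd 184 (.nd 184 (.lf 168 1 1) (.lf 184 1 1) (.lf 177 1 1)) (.lf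 177 1 1) (.nd 178 (.lf 178 1 1) (.lf 157 1 1) (.lf 159 1 1))) (.lf 180 1 1))) (.nd 174 (.lf 154 1 1) (.nd 174 (.lf 163 1 1) (.lf 170 1 1) (.lf 174 1 1)) (.lf 155 1 1)) (.nd 164 (.lf 143 1 1) (.nd 164 (.nd 164 (.lf 120 1 1) (.lf 148 1 1) (.lf 164 1 1)) (.nd 163 (.nd 161 (.nd 161 (.lf 151 1 1) (.lf 142 1 1) (.lf 161 1 1)) (.lf 151 1 1) (.lf 152 1 1)) (.lf 156 1 1) (.nd 163 (.lf 155 1 1) (.lf 158 1 1) (.lf 163 1 1))) (.lf 153 1 1)) (.nd 148 (.lf 129 1 1) (.lf 128 1 1) (.lf 148 1 1)))) (.nd 194 (.nd 194 (.lf 172 1 1) (.nd 194 (.lf 162 1 1) (.nd 194 (.nd 194 (.lf 178 1 1) (.lf 194 1 1) (.lf 172 1 1)) (.lf 183 1 1) (.lf 180 1 1)) (.lf 168 1 1)) (.nd 186 (.nd 186 (.lf 179 1 1) (.lf 186 1 1) (.lf 184 1 1)) (.lf 183 1 1) (.lf 170 1 1))) (.nd 187 (.nd 187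 (.lf 168 1 1) (.nd 185 (.lf 179 1 1) (.nd 185 (.lf 185 1 1) (.lf 174 1 1) (.lf 172 1 1)) (.lf 175 1 1)) (.nd 187 (.lf 180 1 1) (.nd 185 (.lf 185 1 1) (.lf 177 1 1) (.lf 169 1 1)) (.nd 187 (.lf 177 1 1) (.lf 187 1 1) (.lf 147 1 1)))) (.lf 182 1 1) (.nd 185 (.nd 185 (.lf 182 1 1) (.lf 176 1 1) (.nd 185 (.lf 179 1 1) (.lf 185 1 1) (.lf 144 1 1))) (.lf 180 1 1) (.lf 182 1 1))) (.nd 186 (.nd 186 (.lf 177 1 1) (.nd 186 (.nd 186 (.nd 186 (.lf 165 1 1) (.lf 186 1 1) (.lf 178 1 1)) (.lf 183 1 1) (.lf 181 1 1)) (.lf 164 1 1) (.lf 180 1 1)) (.lf 182 1 1)) (.nd 185 (.lf 157 1 1) (.lf 143 1 1) (.nd 185 (.lf 163 1 1) (.lf 170 1 1) (.nd 185 (.lf 185 1 1) (.lf 174 1 1) (.lf 173 1 1)))) (.lf 171 1 1)))) (.nd 179 (.nd 179 (.nd 179 (.nd 179 (.lf 157 1 1) (.lf 179 1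 1) (.lf 165 1 1)) (.lf 155 1 1) (.lf 163 1 1)) (.nd 158 (.nd 148 (.lf 131 1 1) (.lf 110 1 1) (.nd 148 (.lf 148 1 1) (.lf 141 1 1) (.lf 140 1 1))) (.lf 143 1 1) (.nd 158 (.nd 158 (.lf 158 1 1) (.nd 149 (.lf 142 1 1) (.lf 142 1 1) (.lf 149 1 1)) (.lf 156 1 1)) (.lf 152 1 1) (.nd 147 (.nd 147 (.lf 147 1 1) (.lf 144 1 1) (.lf 144 1 1)) (.lf 135 1 1) (.lf 137 1 1)))) (.nd 159 (.nd 150 (.lf 128 1 1) (.nd 150 (.lf 150 1 1) (.lf 131 1 1) (.lf 120 1 1)) (.lf 98 1 1)) (.nd 159 (.nd 158 (.lf 135 1 1) (.lf 136 1 1) (.lf 158 1 1)) (.lf 158 1 1) (.lf 159 1 1)) (.lf 149 1 1))) (.nd 144 (.lf 135 1 1) (.lf 99 1 1) (.nd 144 (.lf 139 1 1) (.lf 144 1 1) (.lf 124 1 1))) (.nd 148 (.lf 148 1 1) (.nd 131 (.lf 96 1 1) (.lf 113 1 1) (.nd 131 (.lf 131 1 1) (.lf 113 1 1) (.lf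 120 1 1))) (.lf 118 1 1))) (.nd 169 (.nd 169 (.nd 156 (.nd 132 (.nd 124 (.lf 124 1 1) (.lf 112 1 1) (.lf 124 1 1)) (.lf 132 1 1) (.lf 108 1 1)) (.lf 156 1 1) (.lf 141 1 1)) (.nd 150 (.lf 148 1 1) (.lf 126 1 1) (.nd 150 (.lf 128 1 1) (.lf 150 1 1) (.lf 98 1 1))) (.lf 169 1 1)) (.nd 128 (.lf 99 1 1) (.nd 128 (.lf 128 1 1) (.lf 120 1 1) (.lf 111 1 1)) (.nd 123 (.lf 99 1 1) (.lf 71 1 1) (.nd 123 (.lf 123 1 1) (.lf 93 1 1) (.lf 108 1 1)))) (.nd 153 (.lf 153 1 1) (.nd 127 (.lf 97 1 1) (.lf 94 1 1) (.lf 127 1 1)) (.nd 130 (.lf 130 1 1) (.lf 101 1 1) (.lf 101 1 1)))))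

def t15_572 : Tr := (.nd 189 (.nd 175 (.nd 175 (.lf 145 1 2) (.nd 156 (.lf 136 1 2) (.nd 156 (.lf 143 1 2) (.nd 156 (.nd 156 (.lf 148 1 2) (.lf 134 3 4) (.lf 156 1 2)) (.lf 151 1 2) (.lf 150 1 2)) (.lf 149 1 2)) (.lf 137 1 2)) (.nd 175 (.lf 149 1 2) (.lf 175 1 2) (.lf 151 1 2))) (.nd 153 (.lf 125 1 2) (.lf 122 1 2) (.nd 153 (.lf 151 1 2) (.nd 153 (.nd 153 (.lf 144 1 2) (.nd 153 (.lf 134 3 4) (.lf 153 1 2) (.nd 148 (.lf 148 1 2) (.lf 140 1 2) (.lf 146 3 4))) (.lf 147 1 2)) (.lf 142 1 2) (.lf 145 1 2)) (.lf 151 1 2))) (.lf 123 1 2)) (.nd 174 (.nd 143 (.lf 122 1 2) (.lf 126 1 2) (.nd 143 (.lf 143 1 2) (.lf 134 1 2) (.lf 131 1 2))) (.lf 145 1 2) (.lf 174 1 2)) (.nd 189 (.nd 183 (.lf 169 1 2) (.nd 183 (.nd 182 (.lf 179 1 2) (.lf 182 1 2) (.lf 175 1 2))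 (.nd 183 (.lf 141 1 2) (.nd 183 (.nd 183 (.lf 167 1 2) (.lf 183 1 2) (.lf 167 1 2)) (.lf 163 1 2) (.lf 178 1 2)) (.lf 169 1 2)) (.lf 177 1 2)) (.lf 164 1 2)) (.nd 183 (.lf 160 1 2) (.nd 183 (.nd 180 (.lf 170 1 2) (.lf 160 1 2) (.nd 180 (.nd 177 (.lf 177 3 4) (.lf 142 1 2) (.lf 165 1 2)) (.nd 180 (.lf 180 1 2) (.lf 165 3 4) (.lf 137 3 4)) (.lf 165 3 4))) (.lf 183 1 2) (.lf 180 1 2)) (.lf 161 1 2)) (.nd 189 (.nd 184 (.nd 182 (.lf 163 1 2) (.nd 182 (.lf 182 1 2) (.lf 175 1 2) (.nd 182 (.lf 172 1 2) (.lf 142 1 2) (.lf 182 1 2))) (.lf 180 1 2)) (.nd 180 (.nd 175 (.nd 172 (.lf 160 3 4) (.nd 172 (.lf 154 3 4) (.lf 172 1 2) (.lf 169 3 4)) (.lf 132 3 4)) (.lf 175 1 2) (.lf 162 3 4)) (.nd 180 (.nd 177 (.nd 169 (.lf 169 1 2) (.lf 161 3 4) (.lf 160 1 2)) (.lf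 164 1 2) (.lf 177 1 2)) (.lf 180 1 2) (.lf 171 1 2)) (.nd 177 (.lf 168 1 2) (.nd 170 (.lf 158 3 4) (.lf 170 1 2) (.lf 157 3 4)) (.nd 177 (.lf 174 1 2) (.lf 166 1 2) (.nd 177 (.nd 176 (.lf 174 1 2) (.lf 176 3 4) (.lf 172 1 2)) (.lf 176 1 2) (.lf 177 1 2))))) (.nd 184 (.lf 183 1 2) (.nd 184 (.lf 163 1 2) (.nd 184 (.lf 177 3 4) (.lf 177 1 2) (.lf 184 1 2)) (.lf 183 1 2)) (.lf 183 1 2))) (.nd 189 (.nd 183 (.nd 183 (.lf 180 1 2) (.nd 183 (.lf 183 1 2) (.lf 183 1 2) (.nd 183 (.lf 183 1 2) (.lf 156 4 4) (.lf 180 4 4))) (.lf 160 4 4)) (.nd 183 (.nd 174 (.lf 149 3 4) (.lf 157 3 4) (.lf 174 1 2)) (.nd 183 (.lf 183 1 2) (.nd 176 (.lf 164 3 4) (.lf 176 3 4) (.lf 159 1 2)) (.lf 176 1 2)) (.nd 181 (.lf 137 3 4) (.nd 181 (.lf 181 1 2) (.lf 159 3 4) (.lf 174 3 4))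 (.nd 176 (.lf 136 3 4) (.lf 176 4 4) (.lf 139 3 4)))) (.nd 165 (.lf 165 1 2) (.nd 163 (.lf 131 4 4) (.lf 163 3 4) (.lf 157 4 4)) (.lf 159 4 4))) (.nd 189 (.lf 157 1 2) (.lf 163 1 2) (.lf 189 1 2)) (.lf 167 1 2)) (.nd 183 (.nd 183 (.lf 172 1 2) (.nd 180 (.lf 164 1 2) (.lf 163 4 4) (.nd 180 (.lf 180 1 2) (.nd 177 (.lf 168 1 2) (.lf 168 1 2) (.lf 177 4 4)) (.lf 175 1 2))) (.nd 183 (.nd 183 (.lf 176 1 2) (.nd 181 (.lf 180 1 2) (.lf 178 4 4) (.lf 181 4 4)) (.lf 183 1 2)) (.lf 175 4 4) (.lf 183 4 4))) (.lf 166 1 2) (.lf 180 1 2)))))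

def t15_574 : Tr := (.nd 240 (.nd 223 (.nd 206 (.nd 206 (.nd 206 (.nd 206 (.lf 206 1 3) (.lf 184 1 3) (.lf 187 1 3)) (.lf 183 1 3) (.lf 191 1 3)) (.nd 191 (.lf 176 1 3) (.lf 191 1 3) (.lf 171 1 3)) (.nd 184 (.lf 184 1 3) (.lf 170 1 3) (.lf 173 1 3))) (.lf 175 1 3) (.nd 169 (.lf 169 1 3) (.lf 126 1 3) (.nd 162 (.lf 162 1 3) (.lf 123 1 3) (.lf 128 1 3)))) (.nd 223 (.lf 216 1 3) (.nd 223 (.nd 221 (.nd 221 (.nd 221 (.lf 214 1 3) (.lf 210 1 3) (.lf 221 1 3)) (.lf 187 1 3) (.lf 198 1 3)) (.lf 195 1 3) (.nd 213 (.lf 213 1 5) (.lf 208 1 3) (.lf 213 1 5))) (.nd 215 (.nd 215 (.lf 215 1 5) (.lf 215 1 3) (.lf 204 1 3)) (.lf 198 1 3) (.lf 212 1 3)) (.nd 223 (.lf 213 1 3) (.nd 219 (.lf 219 1 3) (.nd 216 (.lf 216 1 3) (.lf 215 1 3) (.nd 216 (.lf 215 1 3) (.nd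 216 (.lf 216 1 5) (.lf 204 1 3) (.lf 216 1 5)) (.lf 212 1 3))) (.lf 215 1 3)) (.nd 223 (.nd 223 (.lf 195 1 3) (.lf 213 1 3) (.lf 223 1 3)) (.lf 215 1 3) (.lf 215 1 3)))) (.nd 215 (.lf 215 1 3) (.lf 188 1 3) (.nd 201 (.lf 201 1 3) (.lf 181 1 3) (.lf 182 1 3)))) (.nd 207 (.nd 202 (.lf 154 1 3) (.lf 202 1 3) (.lf 157 1 3)) (.lf 155 1 3) (.nd 207 (.lf 177 1 3) (.nd 190 (.lf 168 1 3) (.lf 190 1 3) (.lf 169 1 3)) (.lf 207 1 3)))) (.nd 213 (.nd 213 (.lf 205 1 3) (.nd 213 (.lf 172 1 3) (.lf 200 1 3) (.nd 213 (.nd 213 (.lf 200 1 3) (.lf 213 1 5) (.lf 198 1 3)) (.lf 200 1 3) (.lf 194 1 3))) (.nd 213 (.lf 208 1 3) (.nd 213 (.lf 212 1 3) (.nd 213 (.lf 178 1 3) (.lf 213 1 5) (.nd 213 (.lf 201 1 3) (.lf 187 1 3) (.lf 213 1 5))) (.lf 213 1 5)) (.nd 213 (.lf 204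 1 3) (.lf 213 1 5) (.lf 207 1 3)))) (.nd 200 (.nd 181 (.lf 181 1 3) (.lf 176 1 3) (.lf 129 1 3)) (.nd 180 (.lf 149 1 3) (.lf 151 1 3) (.nd 180 (.lf 158 1 3) (.lf 180 1 3) (.lf 165 1 3))) (.nd 200 (.nd 189 (.lf 172 1 3) (.lf 189 1 3) (.lf 162 1 3)) (.lf 196 1 3) (.lf 200 1 3))) (.nd 203 (.lf 203 1 3) (.nd 185 (.lf 154 1 3) (.lf 185 1 3) (.lf 155 1 3)) (.lf 180 1 3))) (.nd 240 (.nd 234 (.nd 234 (.nd 227 (.nd 227 (.lf 217 1 3) (.lf 227 1 3) (.lf 213 1 3)) (.lf 216 1 3) (.lf 213 1 3)) (.nd 225 (.lf 201 1 3) (.nd 225 (.lf 224 1 3) (.nd 225 (.lf 225 1 3) (.lf 215 1 3) (.lf 225 1 3)) (.nd 225 (.lf 205 1 3) (.lf 199 1 3) (.lf 225 1 3))) (.lf 207 1 3)) (.nd 234 (.nd 225 (.lf 207 1 3) (.lf 225 1 3) (.lf 208 1 3)) (.nd 234 (.lf 230 1 3) (.lf 227 1 3) (.nd 234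 (.lf 230 1 3) (.lf 217 1 3) (.lf 234 1 3))) (.lf 234 1 3))) (.nd 213 (.nd 213 (.lf 194 1 3) (.lf 209 1 3) (.nd 213 (.nd 213 (.lf 194 1 3) (.lf 204 1 3) (.lf 213 1 5)) (.lf 200 1 3) (.lf 199 1 3))) (.lf 179 1 3) (.lf 169 1 3)) (.nd 218 (.nd 218 (.lf 203 1 3) (.lf 200 1 3) (.nd 218 (.lf 218 1 3) (.lf 207 1 3) (.lf 210 1 3))) (.lf 173 1 3) (.lf 197 1 3))) (.nd 240 (.lf 198 1 3) (.nd 224 (.lf 200 1 3) (.nd 224 (.nd 221 (.lf 221 1 3) (.lf 206 1 3) (.lf 217 1 3)) (.nd 221 (.lf 203 1 3) (.lf 221 1 3) (.lf 211 1 3)) (.nd 224 (.lf 217 1 3) (.lf 224 1 3) (.lf 214 1 3))) (.lf 197 1 3)) (.nd 240 (.nd 218 (.lf 218 1 3) (.lf 196 1 3) (.nd 213 (.lf 168 1 3) (.lf 198 1 3) (.nd 213 (.lf 205 1 3) (.lf 190 1 3) (.nd 213 (.lf 213 1 5) (.lf 194 1 3) (.lf 196 1 3)))))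 (.nd 240 (.lf 226 1 3) (.nd 240 (.lf 236 1 3) (.nd 240 (.lf 240 1 3) (.lf 232 1 3) (.lf 230 1 3)) (.lf 228 1 3)) (.nd 224 (.lf 207 1 3) (.nd 219 (.lf 209 1 3) (.lf 219 1 3) (.lf 190 1 3)) (.lf 224 1 3))) (.nd 232 (.lf 212 1 3) (.nd 232 (.lf 232 1 3) (.lf 218 1 3) (.lf 214 1 3)) (.lf 211 1 3)))) (.nd 240 (.nd 236 (.nd 236 (.nd 236 (.lf 235 1 3) (.nd 236 (.lf 209 1 3) (.lf 236 1 3) (.lf 225 1 3)) (.lf 233 1 3)) (.lf 226 1 3) (.lf 216 1 3)) (.nd 229 (.lf 229 1 3) (.lf 199 1 3) (.nd 223 (.lf 219 1 3) (.lf 223 1 3) (.lf 219 1 3))) (.nd 222 (.nd 222 (.lf 211 1 3) (.lf 205 1 3) (.lf 222 1 3)) (.lf 209 1 3) (.lf 211 1 3))) (.nd 232 (.nd 232 (.lf 219 1 3) (.lf 232 1 3) (.lf 219 1 3)) (.lf 219 1 3) (.lf 218 1 3)) (.nd 240 (.nd 234 (.lf 216 1 3) (.lf 234 1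 3) (.lf 219 1 3)) (.nd 240 (.nd 240 (.lf 215 1 3) (.lf 213 1 3) (.nd 240 (.nd 240 (.lf 234 1 3) (.lf 234 1 3) (.lf 240 1 3)) (.lf 230 1 3) (.lf 232 1 3))) (.lf 204 1 3) (.lf 234 1 3)) (.nd 238 (.nd 238 (.lf 238 1 3) (.lf 217 1 3) (.lf 213 1 3)) (.nd 238 (.lf 225 1 3) (.lf 230 1 3) (.nd 238 (.lf 236 1 3) (.nd 238 (.lf 238 1 3) (.lf 238 1 3) (.lf 237 1 3)) (.lf 238 1 3))) (.nd 238 (.lf 238 1 3) (.lf 231 1 3) (.lf 237 1 3)))))))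

def t15_577 : Tr := (.nd 120 (.nd 120 (.nd 109 (.nd 90 (.lf 90 1 1) (.lf 81 5 3) (.nd 88 (.nd 81 (.lf 72 4 3) (.lf 77 5 3) (.lf 81 5 3)) (.lf 77 4 3) (.nd 88 (.lf 74 5 3) (.lf 88 1 1) (.lf 73 5 3)))) (.nd 109 (.nd 103 (.nd 80 (.lf 80 4 3) (.lf 64 5 3) (.lf 77 4 3)) (.lf 90 1 1) (.lf 103 4 3)) (.nd 109 (.lf 103 5 3) (.lf 104 5 3) (.nd 109 (.nd 109 (.lf 84 1 1) (.nd 94 (.lf 88 1 1) (.nd 94 (.lf 94 1 1) (.lf 90 1 1) (.lf 72 4 3)) (.lf 83 1 1)) (.nd 109 (.lf 104 4 3) (.lf 109 5 3) (.lf 95 5 3))) (.nd 109 (.lf 89 1 1) (.lf 90 5 3) (.nd 109 (.lf 91 1 1) (.lf 88 1 1) (.lf 109 5 3))) (.lf 109 1 1))) (.nd 104 (.lf 79 4 3) (.nd 104 (.nd 85 (.lf 85 1 1) (.lf 83 4 3) (.lf 83 4 3)) (.lf 104 4 3) (.lf 96 4 3)) (.lf 99 4 3))) (.nd 104 (.nd 85 (.lf 85 1 1) (.lf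 55 5 3) (.lf 50 5 3)) (.lf 53 5 3) (.nd 104 (.lf 78 5 3) (.lf 93 5 3) (.lf 104 5 3)))) (.nd 112 (.lf 82 5 3) (.nd 106 (.lf 81 5 3) (.lf 86 5 3) (.nd 106 (.nd 106 (.lf 101 5 3) (.nd 106 (.lf 105 4 3) (.lf 102 4 3) (.lf 106 1 1)) (.lf 105 5 3)) (.nd 105 (.lf 88 5 3) (.lf 105 5 3) (.nd 102 (.lf 73 1 1) (.lf 85 5 3) (.lf 102 1 1))) (.nd 101 (.nd 93 (.lf 74 5 3) (.lf 93 5 3) (.nd 92 (.lf 81 4 3) (.lf 78 4 3) (.nd 92 (.lf 87 5 3) (.lf 88 5 3) (.lf 92 4 3)))) (.nd 101 (.lf 78 4 3) (.lf 101 4 3) (.nd 98 (.lf 76 5 3) (.lf 88 4 3) (.lf 98 4 3))) (.lf 101 5 3)))) (.nd 112 (.lf 104 5 3) (.nd 112 (.nd 112 (.nd 112 (.lf 108 5 3) (.lf 94 1 1) (.nd 112 (.lf 93 1 1) (.lf 96 1 1) (.lf 112 5 3))) (.lf 95 1 1) (.lf 92 1 1)) (.lf 93 1 1) (.nd 110 (.lf 110 5 3) (.lf 106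 5 3) (.lf 102 5 3))) (.nd 105 (.lf 95 5 3) (.lf 96 5 3) (.lf 105 1 1)))) (.nd 120 (.nd 104 (.nd 104 (.lf 104 4 3) (.lf 98 1 1) (.lf 103 4 3)) (.nd 104 (.nd 93 (.nd 93 (.lf 93 5 3) (.lf 69 1 1) (.lf 66 1 1)) (.lf 67 1 1) (.lf 79 5 3)) (.lf 97 1 1) (.nd 104 (.nd 94 (.lf 94 5 3) (.nd 85 (.lf 83 5 3) (.lf 78 1 1) (.lf 85 5 3)) (.lf 79 5 3)) (.lf 104 5 3) (.lf 57 5 3))) (.nd 97 (.nd 86 (.lf 83 5 3) (.lf 82 5 3) (.lf 86 1 1)) (.lf 97 1 1) (.nd 87 (.lf 77 4 3) (.lf 78 4 3) (.lf 87 1 1)))) (.nd 117 (.nd 100 (.lf 100 4 3) (.lf 77 4 3) (.nd 100 (.lf 87 4 3) (.nd 100 (.lf 85 4 3) (.lf 100 1 1) (.lf 84 4 3)) (.lf 87 1 1))) (.nd 108 (.nd 108 (.lf 77 4 3) (.lf 80 4 3) (.lf 108 4 3)) (.nd 108 (.nd 108 (.lf 91 4 3) (.lf 92 4 3) (.lf 108 1 1)) (.lf 100 4 3) (.nd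 106 (.lf 106 4 3) (.lf 99 1 1) (.lf 99 4 3))) (.lf 78 4 3)) (.nd 117 (.lf 108 1 1) (.nd 117 (.lf 107 1 1) (.nd 117 (.lf 104 1 1) (.lf 117 4 3) (.lf 109 1 1)) (.lf 104 4 3)) (.lf 108 1 1))) (.nd 120 (.nd 120 (.nd 120 (.nd 120 (.nd 120 (.lf 100 4 3) (.nd 104 (.lf 104 1 1) (.lf 74 4 3) (.lf 101 4 3)) (.lf 120 1 1)) (.lf 109 1 1) (.lf 87 1 1)) (.nd 115 (.lf 111 1 1) (.lf 115 4 3) (.lf 108 1 1)) (.nd 120 (.nd 111 (.nd 95 (.lf 87 1 1) (.lf 77 1 1) (.lf 95 4 3)) (.lf 101 1 1) (.lf 111 1 1)) (.lf 120 1 1) (.nd 118 (.lf 112 5 3) (.nd 118 (.lf 111 1 1) (.lf 118 5 3) (.lf 118 1 1)) (.lf 98 5 3)))) (.nd 98 (.nd 98 (.nd 97 (.lf 97 1 1) (.nd 97 (.lf 97 1 1) (.lf 95 5 3) (.lf 80 5 3)) (.lf 58 5 3)) (.lf 95 1 1) (.lf 98 1 1)) (.lf 80 1 1) (.lf 89 1 1)) (.lf 104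 1 1)) (.nd 120 (.lf 83 5 3) (.nd 120 (.nd 119 (.lf 119 1 1) (.lf 111 5 3) (.lf 109 5 3)) (.lf 105 5 3) (.lf 120 5 3)) (.nd 111 (.lf 82 5 3) (.nd 111 (.lf 111 5 3) (.lf 111 5 3) (.nd 107 (.nd 107 (.lf 75 4 3) (.lf 107 5 3) (.lf 104 5 3)) (.lf 102 5 3) (.lf 105 5 3))) (.lf 85 5 3))) (.nd 113 (.lf 105 5 3) (.nd 113 (.lf 92 1 1) (.nd 113 (.lf 99 4 3) (.nd 113 (.lf 113 5 3) (.lf 108 4 3) (.lf 113 5 3)) (.lf 91 4 3)) (.lf 95 1 1)) (.lf 93 1 1))))) (.nd 105 (.nd 91 (.lf 39 1 1) (.lf 91 1 1) (.lf 86 1 1)) (.nd 90 (.nd 90 (.lf 75 1 1) (.lf 69 1 1) (.nd 90 (.lf 83 4 3) (.lf 90 1 1) (.nd 74 (.lf 74 1 1) (.lf 60 1 1) (.nd 73 (.lf 73 1 1) (.lf 49 4 3) (.lf 52 4 3))))) (.lf 59 1 1) (.lf 61 1 1)) (.nd 105 (.nd 105 (.nd 105 (.nd 105 (.nd 101 (.lf 76 5 3) (.lf 96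 1 1) (.nd 101 (.lf 101 5 3) (.lf 99 1 1) (.lf 99 1 1))) (.nd 105 (.lf 105 4 3) (.lf 102 4 3) (.lf 104 1 1)) (.lf 104 5 3)) (.lf 105 1 1) (.lf 83 1 1)) (.lf 101 1 1) (.nd 104 (.nd 104 (.nd 100 (.lf 78 4 3) (.lf 100 4 3) (.lf 91 1 1)) (.lf 99 1 1) (.nd 104 (.lf 99 1 1) (.lf 84 1 1) (.lf 104 4 3))) (.nd 104 (.lf 99 1 1) (.lf 104 4 3) (.lf 99 1 1)) (.lf 98 1 1))) (.nd 99 (.nd 74 (.lf 62 1 1) (.lf 59 1 1) (.nd 74 (.lf 67 1 1) (.lf 64 1 1) (.nd 74 (.lf 65 1 1) (.lf 72 1 1) (.nd 74 (.lf 73 1 1) (.lf 65 1 1) (.nd 74 (.lf 74 1 1) (.lf 71 1 1) (.lf 70 4 3)))))) (.lf 85 1 1) (.lf 99 1 1)) (.lf 100 1 1))) (.nd 102 (.nd 102 (.nd 88 (.nd 84 (.lf 58 5 3) (.nd 84 (.lf 84 5 3) (.lf 84 5 3) (.nd 79 (.nd 79 (.lf 78 1 1) (.lf 77 5 3) (.lf 79 5 3)) (.lf 78 5 3) (.lf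 75 5 3))) (.lf 55 5 3)) (.nd 88 (.nd 88 (.lf 69 5 3) (.lf 70 5 3) (.nd 88 (.lf 76 5 3) (.lf 82 5 3) (.lf 88 1 1))) (.lf 78 5 3) (.lf 83 1 1)) (.lf 56 5 3)) (.nd 102 (.nd 97 (.lf 97 5 3) (.nd 97 (.lf 97 1 1) (.lf 67 1 1) (.lf 69 5 3)) (.nd 97 (.nd 97 (.nd 95 (.lf 83 4 3) (.lf 84 4 3) (.lf 95 1 1)) (.lf 97 1 1) (.lf 94 1 1)) (.lf 87 1 1) (.lf 78 1 1))) (.nd 102 (.lf 102 1 1) (.lf 101 1 1) (.lf 83 1 1)) (.nd 99 (.nd 99 (.nd 97 (.nd 97 (.lf 97 5 3) (.lf 94 1 1) (.lf 91 1 1)) (.lf 96 1 1) (.lf 89 1 1)) (.lf 96 5 3) (.nd 99 (.lf 88 5 3) (.nd 99 (.lf 96 1 1) (.nd 98 (.lf 98 5 3) (.lf 92 5 3) (.lf 73 1 1)) (.nd 99 (.lf 99 1 1) (.lf 98 1 1) (.lf 99 5 3))) (.lf 97 1 1))) (.nd 98 (.lf 81 1 1) (.lf 67 1 1) (.nd 98 (.lf 98 1 1) (.nd 91 (.nd 91 (.lf 67 5 3) (.lf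 91 1 1) (.lf 91 5 3)) (.lf 91 5 3) (.lf 90 1 1)) (.lf 91 1 1))) (.nd 98 (.lf 62 1 1) (.nd 94 (.lf 64 1 1) (.nd 94 (.lf 94 5 3) (.lf 90 1 1) (.lf 90 1 1)) (.lf 61 1 1)) (.nd 98 (.lf 85 5 3) (.lf 71 5 3) (.nd 98 (.nd 98 (.lf 98 5 3) (.lf 98 1 1) (.lf 98 1 1)) (.lf 88 1 1) (.lf 90 1 1)))))) (.nd 99 (.nd 99 (.nd 99 (.lf 84 5 3) (.nd 99 (.lf 85 5 3) (.lf 99 1 1) (.lf 88 5 3)) (.lf 92 5 3)) (.lf 85 5 3) (.lf 92 5 3)) (.lf 78 5 3) (.lf 76 5 3))) (.nd 95 (.nd 95 (.lf 71 1 1) (.nd 80 (.lf 80 1 1) (.lf 65 1 1) (.lf 48 1 1)) (.nd 95 (.nd 75 (.lf 56 1 1) (.lf 70 1 1) (.lf 75 1 1)) (.lf 95 1 1) (.lf 92 1 1))) (.nd 65 (.lf 13 1 1) (.lf 65 1 1) (.lf 60 1 1)) (.nd 64 (.lf 33 1 1) (.lf 35 1 1) (.nd 64 (.lf 64 1 1) (.lf 49 1 1) (.lf 42 1 1)))) (.nd 98 (.nd 98 (.nd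 67 (.lf 52 5 3) (.lf 50 5 3) (.nd 67 (.nd 67 (.lf 66 5 3) (.lf 58 5 3) (.nd 67 (.lf 67 1 1) (.lf 62 5 3) (.lf 59 5 3))) (.lf 59 5 3) (.lf 66 5 3))) (.nd 67 (.nd 64 (.lf 64 1 1) (.lf 29 5 3) (.lf 32 5 3)) (.nd 67 (.nd 61 (.lf 56 5 3) (.lf 58 5 3) (.lf 61 1 1)) (.lf 67 5 3) (.lf 52 5 3)) (.lf 30 5 3)) (.lf 98 1 1)) (.nd 53 (.lf 53 1 1) (.lf 39 1 1) (.lf 38 1 1)) (.nd 72 (.lf 43 1 1) (.lf 46 1 1) (.nd 72 (.lf 72 1 1) (.lf 55 5 3) (.lf 56 5 3))))))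

def t15_578 : Tr := (.nd 196 (.nd 182 (.nd 179 (.nd 161 (.lf 161 2 2) (.nd 154 (.nd 118 (.lf 88 2 2) (.lf 118 2 2) (.lf 87 2 2)) (.lf 154 2 2) (.nd 123 (.nd 95 (.nd 66 (.lf 36 2 2) (.lf 66 2 2) (.lf 35 2 2)) (.lf 95 2 2) (.lf 87 2 2)) (.lf 92 2 2) (.lf 123 2 2))) (.nd 121 (.lf 121 2 2) (.lf 92 2 2) (.nd 114 (.lf 90 2 2) (.nd 114 (.nd 114 (.lf 88 2 2) (.lf 90 2 2) (.lf 114 2 2)) (.lf 99 2 2) (.lf 84 2 2)) (.lf 62 2 2)))) (.nd 171 (.nd 171 (.nd 171 (.lf 171 2 2) (.lf 153 2 2) (.lf 160 2 2)) (.lf 158 2 2) (.nd 161 (.lf 161 2 2) (.lf 145 2 2) (.lf 127 2 2))) (.nd 147 (.nd 118 (.lf 108 2 2) (.lf 63 2 2) (.lf 118 2 2)) (.lf 147 2 2) (.lf 147 2 2)) (.nd 126 (.lf 126 2 2) (.lf 92 2 2) (.lf 119 2 2))) (.nd 179 (.lf 164 2 2) (.nd 179 (.lf 146 2 2) (.lf 162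 2 2) (.lf 179 2 2)) (.nd 172 (.nd 172 (.lf 172 2 2) (.lf 163 2 2) (.nd 169 (.lf 169 2 2) (.lf 155 2 2) (.lf 148 2 2))) (.lf 153 2 2) (.nd 140 (.nd 140 (.nd 139 (.nd 139 (.lf 139 2 2) (.lf 137 2 2) (.lf 139 1 2)) (.lf 129 2 2) (.lf 132 2 2)) (.lf 140 2 2) (.lf 135 1 2)) (.lf 139 2 2) (.lf 131 2 2))))) (.nd 165 (.nd 150 (.lf 149 1 2) (.lf 150 1 2) (.lf 132 2 2)) (.nd 165 (.lf 147 2 2) (.nd 165 (.lf 154 2 2) (.nd 165 (.lf 165 2 2) (.nd 152 (.lf 152 1 2) (.lf 141 2 2) (.lf 142 2 2)) (.lf 165 2 2)) (.nd 162 (.nd 154 (.lf 136 2 2) (.lf 149 2 2) (.lf 154 1 2)) (.nd 162 (.lf 160 2 2) (.nd 159 (.lf 159 2 2) (.lf 154 2 2) (.nd 159 (.lf 145 2 2) (.lf 159 1 2) (.lf 146 2 2))) (.lf 162 2 2)) (.nd 159 (.lf 137 2 2) (.nd 159 (.lf 151 1 2) (.lf 146 1 2) (.lf 159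 2 2)) (.lf 149 1 2)))) (.nd 159 (.nd 153 (.lf 143 2 2) (.lf 119 2 2) (.lf 153 2 2)) (.lf 128 2 2) (.nd 159 (.lf 159 2 2) (.nd 143 (.lf 143 1 2) (.lf 143 2 2) (.lf 143 1 2)) (.lf 152 2 2)))) (.nd 136 (.lf 121 2 2) (.nd 115 (.lf 92 2 2) (.lf 115 2 2) (.lf 110 2 2)) (.nd 136 (.lf 133 2 2) (.nd 136 (.lf 124 2 2) (.nd 136 (.lf 132 1 2) (.lf 136 2 2) (.lf 135 2 2)) (.lf 124 2 2)) (.nd 135 (.lf 135 2 2) (.lf 126 2 2) (.nd 119 (.lf 111 2 2) (.lf 119 2 2) (.lf 88 2 2)))))) (.nd 182 (.nd 171 (.lf 124 1 2) (.nd 171 (.lf 123 1 2) (.lf 126 1 2) (.lf 171 1 2)) (.nd 170 (.nd 146 (.lf 122 1 2) (.lf 146 1 2) (.lf 144 1 2)) (.lf 170 2 2) (.lf 161 1 2))) (.nd 182 (.nd 171 (.nd 163 (.lf 163 1 2) (.lf 146 1 2) (.nd 141 (.lf 119 1 2) (.lf 113 1 2) (.lf 141 2 2))) (.lf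 151 1 2) (.nd 171 (.nd 167 (.lf 153 1 2) (.lf 154 1 2) (.nd 167 (.lf 167 2 2) (.lf 156 2 2) (.lf 164 2 2))) (.nd 171 (.lf 171 2 2) (.lf 142 1 2) (.lf 168 1 2)) (.nd 170 (.lf 141 2 2) (.lf 170 2 2) (.nd 168 (.lf 136 2 2) (.lf 168 2 2) (.lf 141 2 2))))) (.nd 182 (.nd 181 (.lf 164 1 2) (.lf 180 2 2) (.nd 181 (.lf 142 2 2) (.lf 181 2 2) (.lf 179 2 2))) (.nd 182 (.lf 165 2 2) (.lf 182 1 2) (.nd 165 (.lf 165 2 2) (.lf 162 2 2) (.nd 165 (.lf 165 2 2) (.lf 164 1 2) (.lf 147 2 2)))) (.nd 165 (.lf 162 2 2) (.lf 162 2 2) (.nd 165 (.nd 165 (.lf 163 2 2) (.lf 163 1 2) (.lf 165 1 2)) (.lf 163 2 2) (.nd 165 (.lf 165 2 2) (.lf 162 1 2) (.lf 160 2 2))))) (.nd 179 (.nd 165 (.lf 125 1 2) (.lf 165 1 2) (.lf 155 1 2)) (.lf 170 2 2) (.nd 179 (.nd 167 (.lf 167 2 2) (.lf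 161 1 2) (.lf 152 1 2)) (.nd 179 (.lf 167 1 2) (.nd 179 (.lf 159 2 2) (.lf 164 2 2) (.lf 179 2 2)) (.lf 161 1 2)) (.lf 165 2 2)))) (.nd 173 (.nd 173 (.lf 173 1 2) (.nd 146 (.lf 139 1 2) (.lf 146 2 2) (.lf 142 1 2)) (.nd 145 (.lf 140 1 2) (.lf 122 2 2) (.lf 145 1 2))) (.nd 144 (.lf 144 1 2) (.nd 121 (.lf 92 1 2) (.lf 121 1 2) (.lf 97 1 2)) (.lf 95 1 2)) (.nd 136 (.lf 120 1 2) (.lf 123 1 2) (.lf 136 1 2))))) (.nd 196 (.lf 196 2 2) (.nd 173 (.nd 147 (.nd 147 (.lf 147 2 2) (.nd 140 (.nd 140 (.lf 118 2 2) (.lf 136 2 2) (.lf 140 2 2)) (.lf 131 2 2) (.lf 111 2 2)) (.lf 144 2 2)) (.nd 116 (.nd 114 (.lf 87 2 2) (.lf 82 2 2) (.lf 114 2 2)) (.lf 87 2 2) (.nd 116 (.lf 116 1 2) (.lf 110 2 2) (.lf 115 2 2))) (.nd 115 (.lf 108 2 2) (.nd 113 (.lf 103 2 2) (.lf 113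 2 2) (.lf 58 2 2)) (.lf 115 2 2))) (.nd 165 (.lf 116 2 2) (.lf 146 2 2) (.nd 165 (.lf 165 2 2) (.lf 156 2 2) (.lf 141 2 2))) (.nd 173 (.lf 173 2 2) (.lf 160 2 2) (.nd 169 (.lf 142 2 2) (.lf 146 1 2) (.nd 169 (.lf 169 2 2) (.lf 145 1 2) (.lf 148 1 2))))) (.nd 172 (.nd 172 (.lf 172 1 2) (.lf 150 1 2) (.nd 121 (.lf 121 1 2) (.lf 92 1 2) (.lf 114 1 2))) (.nd 149 (.lf 149 1 2) (.lf 120 1 2) (.nd 149 (.lf 149 1 2) (.lf 92 1 2) (.lf 118 1 2))) (.nd 163 (.nd 147 (.nd 142 (.nd 142 (.lf 114 2 2) (.lf 142 2 2) (.lf 115 2 2)) (.lf 134 2 2) (.nd 123 (.lf 119 1 2) (.lf 120 2 2) (.lf 123 1 2))) (.lf 147 2 2) (.lf 147 2 2)) (.nd 163 (.lf 161 1 2) (.nd 147 (.lf 147 1 2) (.lf 142 2 2) (.nd 140 (.lf 140 2 2) (.lf 116 2 2) (.lf 119 2 2))) (.nd 163 (.lf 120 2 2) (.lf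 150 2 2) (.lf 163 2 2))) (.nd 155 (.nd 155 (.nd 126 (.nd 126 (.lf 116 2 2) (.lf 111 1 2) (.lf 126 1 2)) (.nd 126 (.lf 88 1 2) (.lf 126 2 2) (.lf 91 1 2)) (.lf 89 1 2)) (.lf 140 1 2) (.lf 155 1 2)) (.nd 132 (.lf 115 2 2) (.lf 132 1 2) (.nd 115 (.lf 114 1 2) (.lf 114 2 2) (.lf 115 1 2))) (.nd 151 (.nd 114 (.lf 114 1 2) (.lf 114 2 2) (.lf 111 2 2)) (.nd 126 (.lf 86 2 2) (.lf 116 2 2) (.nd 126 (.lf 126 2 2) (.lf 111 2 2) (.lf 116 1 2))) (.nd 151 (.lf 151 2 2) (.lf 144 2 2) (.nd 126 (.lf 126 2 2) (.nd 125 (.lf 95 1 2) (.lf 99 2 2) (.lf 125 1 2)) (.lf 126 1 2)))))))) (.nd 181 (.nd 181 (.lf 181 2 2) (.nd 161 (.nd 161 (.nd 156 (.nd 156 (.lf 156 2 2) (.lf 145 2 2) (.lf 139 2 2)) (.lf 133 2 2) (.lf 132 2 2)) (.nd 161 (.lf 145 2 2) (.nd 161 (.nd 161 (.lf 146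 1 2) (.nd 161 (.lf 161 2 2) (.lf 160 1 2) (.lf 159 2 2)) (.lf 149 1 2)) (.lf 147 1 2) (.nd 149 (.lf 145 2 2) (.nd 149 (.lf 145 2 2) (.lf 149 2 2) (.lf 145 1 2)) (.lf 149 2 2))) (.lf 147 2 2)) (.nd 141 (.lf 139 2 2) (.lf 141 2 2) (.lf 117 2 2))) (.nd 151 (.nd 121 (.lf 92 2 2) (.nd 121 (.lf 115 2 2) (.lf 108 2 2) (.nd 121 (.lf 98 2 2) (.lf 121 2 2) (.lf 118 2 2))) (.lf 92 2 2)) (.lf 118 2 2) (.nd 151 (.nd 151 (.lf 141 2 2) (.lf 151 1 2) (.lf 138 2 2)) (.lf 143 1 2) (.lf 146 1 2))) (.nd 119 (.lf 114 2 2) (.lf 119 2 2) (.lf 90 2 2))) (.nd 155 (.nd 155 (.nd 138 (.lf 119 1 2) (.lf 137 2 2) (.nd 138 (.lf 119 1 2) (.lf 114 1 2) (.lf 138 2 2))) (.nd 145 (.nd 118 (.nd 118 (.lf 118 1 2) (.lf 110 1 2) (.nd 106 (.lf 105 2 2) (.lf 105 2 2) (.lf 106 1 2))) (.lf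 118 1 2) (.lf 109 1 2)) (.nd 145 (.lf 90 1 2) (.lf 115 1 2) (.lf 145 1 2)) (.lf 145 1 2)) (.nd 155 (.lf 135 2 2) (.lf 140 2 2) (.lf 155 2 2))) (.lf 131 2 2) (.nd 138 (.lf 120 2 2) (.lf 138 2 2) (.lf 90 2 2)))) (.nd 159 (.nd 159 (.lf 159 2 2) (.nd 145 (.lf 93 2 2) (.lf 145 2 2) (.nd 140 (.lf 95 2 2) (.lf 92 2 2) (.lf 140 2 2))) (.nd 144 (.lf 144 2 2) (.nd 113 (.lf 89 2 2) (.lf 113 2 2) (.lf 89 2 2)) (.lf 115 2 2))) (.lf 140 2 2) (.nd 158 (.lf 150 2 2) (.lf 158 2 2) (.nd 149 (.nd 120 (.lf 95 2 2) (.lf 69 2 2) (.lf 120 2 2)) (.lf 118 2 2) (.lf 149 2 2)))) (.nd 181 (.lf 181 2 2) (.lf 167 2 2) (.nd 176 (.lf 154 2 2) (.lf 176 2 2) (.nd 124 (.lf 95 2 2) (.lf 124 2 2) (.lf 119 2 2))))))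

def t15_580 : Tr := (.nd 147 (.nd 141 (.nd 141 (.nd 141 (.nd 118 (.lf 108 3 1) (.nd 118 (.lf 118 3 1) (.lf 106 3 1) (.lf 103 3 1)) (.lf 99 3 1)) (.nd 116 (.lf 88 3 1) (.lf 116 3 1) (.lf 108 3 1)) (.lf 141 3 1)) (.nd 135 (.nd 113 (.nd 105 (.nd 105 (.lf 79 3 1) (.lf 105 3 1) (.lf 94 3 1)) (.lf 54 3 1) (.lf 70 3 1)) (.lf 113 3 1) (.lf 82 3 1)) (.nd 130 (.nd 123 (.lf 110 3 1) (.lf 95 3 1) (.lf 123 3 1)) (.nd 130 (.lf 93 3 1) (.lf 130 3 1) (.lf 120 3 1)) (.lf 119 3 1)) (.lf 135 3 1)) (.nd 130 (.nd 130 (.lf 92 3 1) (.lf 105 3 1) (.nd 130 (.lf 107 3 1) (.lf 107 3 1) (.lf 130 3 1))) (.nd 111 (.lf 111 3 1) (.lf 109 3 1) (.lf 93 3 1)) (.lf 89 3 1))) (.nd 138 (.nd 87 (.nd 82 (.lf 30 3 1) (.lf 58 3 1) (.lf 82 3 1)) (.lf 87 3 1) (.lf 58 3 1)) (.nd 138 (.lf 109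 3 1) (.nd 123 (.lf 100 3 1) (.lf 123 3 1) (.lf 101 3 1)) (.nd 138 (.lf 113 3 1) (.lf 138 3 1) (.lf 115 3 1))) (.nd 113 (.lf 91 3 1) (.lf 86 3 1) (.lf 113 3 1))) (.nd 115 (.nd 115 (.lf 102 3 1) (.lf 111 3 1) (.nd 115 (.lf 80 3 1) (.lf 83 3 1) (.lf 115 3 1))) (.lf 89 3 1) (.lf 107 3 1))) (.nd 123 (.nd 101 (.nd 82 (.nd 82 (.lf 60 3 1) (.lf 60 3 1) (.lf 82 3 1)) (.lf 65 3 1) (.lf 82 3 1)) (.lf 100 3 1) (.nd 101 (.lf 87 3 1) (.lf 86 3 1) (.lf 101 3 1))) (.nd 123 (.nd 123 (.nd 123 (.lf 109 3 1) (.lf 99 3 1) (.lf 123 3 1)) (.nd 123 (.nd 123 (.lf 123 3 1) (.lf 109 3 1) (.lf 111 3 1)) (.nd 109 (.lf 106 3 1) (.nd 109 (.lf 98 3 1) (.nd 96 (.lf 88 2 1) (.lf 96 3 1) (.lf 91 2 1)) (.lf 109 3 1)) (.lf 106 3 1)) (.lf 123 3 1)) (.nd 118 (.lf 89 3 1) (.nd 118 (.lf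 117 2 1) (.lf 114 3 1) (.nd 118 (.lf 117 2 1) (.lf 89 2 1) (.nd 118 (.lf 118 3 1) (.nd 110 (.lf 85 3 1) (.lf 107 3 1) (.lf 110 2 1)) (.lf 111 2 1)))) (.lf 107 3 1))) (.nd 98 (.lf 86 3 1) (.nd 98 (.nd 98 (.lf 94 3 1) (.nd 98 (.lf 95 3 1) (.nd 98 (.lf 98 3 1) (.lf 93 2 1) (.lf 96 2 1)) (.lf 98 3 1)) (.lf 93 3 1)) (.lf 93 3 1) (.lf 96 3 1)) (.lf 77 3 1)) (.nd 102 (.nd 102 (.nd 102 (.lf 92 3 1) (.nd 102 (.lf 96 2 1) (.nd 96 (.lf 96 3 1) (.lf 93 2 1) (.lf 92 3 1)) (.lf 102 3 1)) (.lf 92 3 1)) (.lf 93 3 1) (.lf 88 3 1)) (.lf 66 3 1) (.lf 96 3 1))) (.nd 118 (.nd 118 (.nd 114 (.lf 96 3 1) (.lf 114 3 1) (.lf 93 3 1)) (.nd 118 (.nd 118 (.lf 101 3 1) (.nd 118 (.nd 117 (.nd 110 (.lf 85 2 1) (.lf 104 3 1) (.lf 110 3 1)) (.lf 113 2 1) (.lf 117 3 1)) (.lf 118 3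 1) (.lf 113 3 1)) (.nd 114 (.lf 114 2 1) (.lf 93 3 1) (.lf 104 3 1))) (.lf 118 3 1) (.nd 117 (.lf 117 3 1) (.nd 106 (.lf 100 3 1) (.lf 100 3 1) (.nd 106 (.lf 102 3 1) (.nd 106 (.lf 106 2 1) (.lf 92 3 1) (.lf 82 2 1)) (.lf 102 3 1))) (.lf 107 3 1))) (.nd 105 (.lf 95 3 1) (.nd 105 (.lf 105 3 1) (.lf 104 3 1) (.nd 99 (.lf 92 3 1) (.nd 99 (.lf 85 2 1) (.nd 99 (.lf 92 2 1) (.lf 85 3 1) (.lf 99 2 1)) (.lf 83 2 1)) (.lf 93 3 1))) (.lf 88 3 1))) (.nd 112 (.nd 112 (.lf 98 3 1) (.nd 112 (.lf 87 3 1) (.lf 112 3 1) (.lf 89 3 1)) (.lf 83 3 1)) (.lf 107 3 1) (.lf 61 3 1)) (.nd 110 (.lf 80 3 1) (.nd 110 (.lf 90 3 1) (.nd 110 (.lf 97 3 1) (.nd 110 (.nd 110 (.lf 99 3 1) (.lf 93 3 1) (.lf 110 3 1)) (.lf 90 3 1) (.lf 93 3 1)) (.lf 89 3 1)) (.lf 97 3 1)) (.lf 73 3 1))))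 (.nd 147 (.nd 118 (.nd 92 (.lf 57 3 1) (.lf 92 3 1) (.nd 63 (.lf 63 3 1) (.lf 63 3 1) (.lf 23 3 1))) (.nd 118 (.nd 118 (.nd 115 (.lf 90 3 1) (.lf 98 3 1) (.lf 115 3 1)) (.lf 111 3 1) (.lf 118 3 1)) (.lf 74 3 1) (.lf 94 3 1)) (.nd 117 (.lf 89 3 1) (.lf 117 3 1) (.lf 103 3 1))) (.nd 147 (.nd 146 (.nd 142 (.lf 121 3 1) (.lf 112 3 1) (.lf 142 3 1)) (.nd 146 (.nd 140 (.nd 140 (.lf 140 3 1) (.lf 139 3 1) (.lf 133 3 1)) (.lf 108 3 1) (.lf 133 3 1)) (.nd 146 (.nd 146 (.lf 146 3 1) (.lf 129 3 1) (.lf 136 3 1)) (.nd 141 (.lf 133 3 1) (.lf 141 3 1) (.lf 128 3 1)) (.lf 132 3 1)) (.lf 113 3 1)) (.nd 125 (.lf 125 3 1) (.lf 123 3 1) (.nd 125 (.lf 107 3 1) (.lf 125 3 1) (.lf 110 3 1)))) (.nd 147 (.nd 128 (.lf 128 3 1) (.lf 113 3 1) (.lf 105 3 1)) (.nd 147 (.lf 147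 3 1) (.nd 139 (.lf 115 3 1) (.nd 134 (.lf 134 3 1) (.lf 111 3 1) (.lf 113 3 1)) (.lf 139 3 1)) (.nd 135 (.nd 127 (.lf 109 3 1) (.lf 111 3 1) (.lf 127 3 1)) (.lf 112 3 1) (.lf 135 3 1))) (.nd 113 (.nd 113 (.nd 113 (.lf 113 3 1) (.nd 113 (.lf 112 1 1) (.nd 113 (.lf 85 2 1) (.lf 104 3 1) (.lf 113 2 1)) (.nd 112 (.lf 87 2 1) (.lf 107 2 1) (.lf 112 3 1))) (.lf 113 3 1)) (.lf 113 3 1) (.nd 109 (.nd 109 (.nd 109 (.lf 98 3 1) (.lf 109 1 1) (.lf 88 3 1)) (.lf 107 1 1) (.lf 109 1 1)) (.lf 107 3 1) (.lf 106 3 1))) (.nd 108 (.nd 108 (.lf 89 3 1) (.nd 108 (.lf 107 1 1) (.lf 107 1 1) (.lf 108 3 1)) (.lf 107 1 1)) (.lf 88 3 1) (.lf 92 3 1)) (.lf 93 3 1))) (.nd 146 (.nd 138 (.lf 119 3 1) (.lf 118 3 1) (.lf 138 3 1)) (.nd 121 (.nd 112 (.lf 93 3 1) (.lf 92 3 1) (.lf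 112 3 1)) (.nd 112 (.lf 100 3 1) (.lf 112 3 1) (.lf 97 3 1)) (.lf 121 3 1)) (.nd 146 (.lf 146 3 1) (.lf 146 3 1) (.nd 145 (.lf 145 3 1) (.lf 141 3 1) (.nd 145 (.lf 119 1 1) (.lf 121 1 1) (.lf 145 3 1)))))) (.nd 121 (.nd 113 (.nd 113 (.lf 113 3 1) (.lf 100 3 1) (.lf 103 3 1)) (.lf 89 3 1) (.lf 68 3 1)) (.lf 121 3 1) (.nd 103 (.lf 63 3 1) (.lf 103 3 1) (.lf 96 3 1)))))

def t15_581 : Tr := (.nd 147 (.nd 123 (.nd 123 (.lf 104 1 2) (.lf 123 1 2) (.lf 123 1 2)) (.lf 101 1 2) (.nd 95 (.nd 40 (.nd 29 (.lf 29 1 2) (.lf 27 1 2) (.nd 29 (.lf 29 1 2) (.lf 27 1 2) (.lf 27 1 2))) (.lf 27 1 2) (.nd 40 (.nd 34 (.lf 34 1 2) (.lf 27 1 2) (.lf 27 1 2)) (.nd 40 (.lf 40 1 2) (.lf 27 1 2) (.lf 27 1 2)) (.nd 34 (.lf 27 1 2) (.lf 34 1 2) (.lf 27 1 2)))) (.nd 85 (.lf 33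 1 2) (.nd 39 (.nd 39 (.lf 39 1 2) (.lf 36 1 2) (.lf 33 1 2)) (.lf 27 1 2) (.lf 29 1 2)) (.lf 85 1 2)) (.lf 95 1 2))) (.nd 147 (.nd 132 (.lf 117 1 2) (.lf 118 1 2) (.lf 132 1 2)) (.nd 147 (.lf 139 1 2) (.lf 136 1 2) (.lf 147 1 2)) (.lf 129 1 2)) (.nd 126 (.nd 112 (.nd 69 (.nd 38 (.lf 27 1 2) (.lf 27 1 2) (.lf 38 1 2)) (.lf 69 1 2) (.lf 41 1 2)) (.nd 64 (.lf 33 1 2) (.nd 34 (.lf 27 1 2) (.lf 29 1 2) (.lf 34 1 2)) (.lf 64 1 2)) (.nd 112 (.nd 112 (.nd 91 (.lf 83 1 2) (.nd 91 (.lf 88 1 2) (.lf 76 1 2) (.lf 91 1 2)) (.lf 73 1 2)) (.nd 88 (.lf 88 1 2) (.lf 87 1 2) (.lf 62 1 2)) (.lf 112 1 2)) (.lf 100 1 2) (.nd 93 (.nd 71 (.nd 52 (.lf 52 1 2) (.nd 52 (.lf 30 1 2) (.lf 52 1 2) (.lf 30 1 2)) (.lf 35 1 2)) (.lf 70 1 2) (.lf 71 1 2)) (.lf 93 1 2) (.lf 93 1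 2)))) (.nd 69 (.nd 60 (.nd 37 (.lf 27 1 2) (.lf 27 1 2) (.nd 37 (.lf 36 1 2) (.lf 27 1 2) (.lf 37 1 2))) (.lf 60 1 2) (.lf 27 1 2)) (.lf 69 1 2) (.nd 39 (.nd 39 (.lf 39 1 2) (.lf 34 1 2) (.lf 27 1 2)) (.nd 30 (.nd 30 (.lf 30 1 2) (.lf 27 1 2) (.lf 27 1 2)) (.lf 27 1 2) (.lf 27 1 2)) (.lf 27 1 2))) (.nd 126 (.nd 126 (.nd 126 (.lf 118 1 2) (.nd 126 (.lf 117 1 2) (.lf 119 1 2) (.nd 126 (.lf 114 1 2) (.lf 126 1 2) (.lf 115 1 2))) (.lf 112 1 2)) (.lf 105 1 2) (.lf 102 1 2)) (.nd 92 (.lf 87 1 2) (.nd 63 (.nd 57 (.lf 33 1 2) (.lf 57 1 2) (.lf 27 1 2)) (.lf 63 1 2) (.lf 37 1 2)) (.lf 92 1 2)) (.lf 114 1 2))))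

def t15_583 : Tr := (.nd 252 (.nd 233 (.nd 181 (.nd 181 (.nd 173 (.lf 150 1 3) (.nd 172 (.lf 172 1 3) (.lf 120 1 3) (.lf 150 1 3)) (.lf 173 1 3)) (.lf 181 1 3) (.lf 164 1 3)) (.lf 152 1 3) (.nd 176 (.lf 176 1 3) (.nd 124 (.lf 119 1 3) (.lf 95 1 3) (.lf 124 1 3)) (.lf 152 1 3))) (.nd 233 (.nd 233 (.nd 209 (.nd 209 (.lf 188 1 3) (.lf 204 1 3) (.lf 209 1 3)) (.lf 201 1 3) (.lf 205 1 3)) (.lf 207 1 3) (.nd 233 (.nd 233 (.lf 233 1 3) (.lf 218 1 3) (.lf 207 1 3)) (.lf 232 1 3) (.lf 219 1 3))) (.lf 203 1 3) (.nd 218 (.nd 195 (.lf 177 1 3) (.lf 176 1 3) (.nd 195 (.lf 185 1 3) (.lf 178 1 3) (.lf 195 1 3))) (.lf 194 1 3) (.nd 218 (.lf 207 1 3) (.lf 201 1 3) (.nd 218 (.lf 208 1 3) (.lf 218 1 3) (.lf 209 1 3))))) (.nd 228 (.nd 183 (.lf 154 1 3) (.lf 183 1 3)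 (.lf 154 1 3)) (.lf 180 1 3) (.nd 228 (.lf 209 1 3) (.nd 209 (.lf 209 1 3) (.lf 204 1 3) (.nd 186 (.lf 168 1 3) (.lf 186 1 3) (.lf 181 1 3))) (.lf 228 1 3)))) (.nd 232 (.nd 201 (.nd 177 (.lf 155 1 3) (.lf 149 1 3) (.lf 177 1 3)) (.lf 201 1 3) (.nd 180 (.lf 123 1 3) (.lf 180 1 3) (.lf 166 1 3))) (.nd 203 (.lf 203 1 3) (.lf 152 1 3) (.lf 197 1 3)) (.nd 232 (.nd 232 (.lf 209 1 3) (.lf 217 1 3) (.nd 232 (.nd 232 (.lf 219 1 3) (.lf 213 1 3) (.nd 232 (.lf 210 1 3) (.lf 204 1 3) (.lf 232 1 3))) (.lf 210 1 3) (.lf 213 1 3))) (.nd 217 (.lf 202 1 3) (.lf 217 1 3) (.nd 197 (.lf 197 1 3) (.lf 181 1 3) (.lf 151 1 3))) (.nd 210 (.nd 199 (.lf 176 1 3) (.lf 199 1 3) (.lf 163 1 3)) (.lf 210 1 3) (.lf 196 1 3)))) (.nd 252 (.nd 248 (.nd 248 (.nd 240 (.nd 218 (.nd 203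 (.lf 186 1 3) (.lf 203 1 3) (.lf 173 1 3)) (.nd 199 (.lf 190 1 3) (.lf 199 1 3) (.lf 154 1 3)) (.nd 218 (.lf 214 1 3) (.lf 199 1 3) (.lf 218 1 3))) (.lf 240 1 3) (.lf 224 1 3)) (.nd 242 (.lf 226 1 3) (.lf 218 1 3) (.nd 242 (.lf 242 1 3) (.lf 236 1 3) (.nd 239 (.lf 228 1 3) (.lf 239 1 3) (.lf 200 1 3)))) (.lf 248 1 3)) (.nd 217 (.nd 217 (.lf 213 1 3) (.nd 217 (.nd 216 (.lf 216 3 5) (.lf 187 3 5) (.lf 211 1 3)) (.lf 209 1 3) (.lf 217 1 3)) (.lf 212 1 3)) (.lf 194 1 3) (.lf 202 1 3)) (.nd 216 (.nd 216 (.nd 210 (.lf 195 1 3) (.lf 186 1 3) (.lf 210 1 3)) (.lf 202 1 3) (.lf 216 1 3)) (.lf 182 1 3) (.lf 212 1 3))) (.nd 252 (.nd 243 (.nd 238 (.nd 238 (.lf 221 1 3) (.lf 238 1 3) (.lf 229 1 3)) (.lf 196 1 3) (.lf 210 1 3)) (.nd 243 (.lf 230 1 3) (.lf 243 1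 3) (.nd 241 (.lf 219 1 3) (.lf 231 1 3) (.lf 241 1 3))) (.lf 224 1 3)) (.nd 252 (.nd 252 (.lf 245 1 3) (.nd 252 (.nd 252 (.lf 238 3 5) (.lf 241 1 3) (.lf 252 1 3)) (.lf 242 1 3) (.lf 241 1 3)) (.lf 241 1 3)) (.nd 249 (.lf 241 1 3) (.nd 249 (.lf 221 1 3) (.nd 233 (.lf 231 1 3) (.lf 233 1 3) (.nd 232 (.nd 226 (.lf 226 1 3) (.lf 191 3 5) (.lf 220 1 3)) (.lf 229 1 3) (.nd 232 (.lf 231 3 5) (.lf 232 1 3) (.lf 230 1 3)))) (.lf 249 1 3)) (.lf 241 1 3)) (.lf 239 1 3)) (.nd 247 (.lf 221 1 3) (.nd 244 (.nd 244 (.nd 244 (.nd 243 (.nd 243 (.lf 243 3 5) (.lf 236 1 3) (.lf 243 1 3)) (.lf 242 1 3) (.lf 237 1 3)) (.lf 244 3 5) (.lf 243 3 5)) (.nd 233 (.nd 232 (.lf 230 3 5) (.lf 217 3 5) (.lf 232 1 3)) (.nd 233 (.lf 214 3 5) (.lf 219 1 3) (.lf 233 3 5)) (.lf 232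 1 3)) (.nd 243 (.nd 243 (.lf 243 3 5) (.lf 236 1 3) (.lf 217 1 3)) (.lf 234 1 3) (.lf 241 1 3))) (.nd 230 (.lf 222 1 3) (.nd 230 (.lf 189 3 5) (.lf 230 1 3) (.lf 215 3 5)) (.lf 217 3 5)) (.nd 241 (.lf 218 3 5) (.lf 233 1 3) (.lf 241 1 3))) (.nd 247 (.nd 247 (.lf 236 1 3) (.lf 247 1 3) (.nd 233 (.nd 233 (.lf 229 3 5) (.lf 233 1 3) (.lf 233 1 3)) (.lf 233 1 3) (.nd 232 (.lf 232 1 3) (.lf 227 1 3) (.lf 217 3 5)))) (.lf 213 1 3) (.lf 224 1 3)))) (.nd 241 (.nd 241 (.lf 241 1 3) (.nd 241 (.lf 199 1 3) (.lf 241 1 3) (.lf 225 1 3)) (.lf 235 1 3)) (.nd 214 (.nd 201 (.lf 201 1 3) (.lf 181 1 3) (.nd 182 (.lf 177 1 3) (.lf 182 1 3) (.lf 130 1 3))) (.lf 214 1 3) (.lf 204 1 3)) (.nd 227 (.nd 207 (.lf 207 1 3) (.lf 170 1 3) (.lf 176 1 3)) (.lf 208 1 3) (.lf 227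 1 3)))))

def t15_586 : Tr := (.nd 223 (.nd 218 (.nd 207 (.nd 204 (.nd 195 (.lf 195 1 3) (.lf 169 1 3) (.lf 166 1 3)) (.lf 167 1 3) (.nd 204 (.lf 204 1 3) (.nd 195 (.lf 195 1 1) (.lf 188 1 3) (.lf 193 1 1)) (.lf 189 1 3))) (.nd 197 (.lf 166 1 3) (.nd 187 (.lf 138 1 3) (.lf 166 1 3) (.lf 187 1 3)) (.nd 197 (.lf 176 1 3) (.nd 181 (.lf 164 1 3) (.nd 181 (.lf 132 1 3) (.lf 162 1 3) (.nd 181 (.lf 154 1 3) (.lf 181 2 3) (.lf 169 1 3))) (.nd 180 (.lf 162 2 3) (.lf 154 2 3) (.lf 180 1 3))) (.nd 197 (.lf 197 1 3) (.lf 174 1 3) (.lf 173 1 3)))) (.nd 207 (.nd 206 (.nd 189 (.nd 189 (.lf 172 1 3) (.lf 189 1 3) (.nd 174 (.lf 169 1 3) (.lf 174 1 1) (.lf 170 1 3))) (.lf 162 1 3) (.lf 183 1 3)) (.nd 206 (.lf 203 1 3) (.lf 206 1 3) (.nd 189 (.nd 188 (.lf 171 1 1)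 (.nd 186 (.lf 182 1 3) (.lf 183 1 1) (.lf 186 1 3)) (.nd 188 (.lf 143 1 1) (.lf 188 1 3) (.lf 171 1 1))) (.lf 187 1 3) (.lf 189 1 3))) (.nd 191 (.lf 163 1 3) (.nd 191 (.lf 191 1 3) (.nd 191 (.lf 191 1 3) (.lf 184 1 3) (.lf 189 2 3)) (.lf 185 1 3)) (.lf 191 1 3))) (.nd 207 (.nd 172 (.lf 170 1 1) (.lf 172 1 3) (.nd 168 (.lf 138 2 3) (.lf 167 1 3) (.lf 168 1 3))) (.lf 207 1 3) (.lf 205 1 3)) (.nd 207 (.nd 207 (.lf 189 1 1) (.lf 198 2 3) (.nd 207 (.lf 207 1 1) (.lf 204 1 3) (.nd 206 (.lf 168 1 3) (.lf 199 1 3) (.lf 206 2 3)))) (.lf 204 1 3) (.nd 178 (.lf 168 1 3) (.lf 167 2 3) (.nd 178 (.lf 178 1 3) (.lf 177 2 3) (.nd 173 (.lf 173 2 3) (.lf 161 1 3) (.lf 173 2 3))))))) (.nd 211 (.nd 183 (.nd 172 (.lf 142 1 1) (.lf 171 1 3) (.lf 172 1 3)) (.nd 183 (.nd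 183 (.nd 154 (.lf 148 1 3) (.nd 151 (.nd 151 (.lf 147 1 1) (.lf 140 1 1) (.lf 151 1 3)) (.lf 131 1 1) (.lf 133 1 1)) (.nd 154 (.nd 154 (.lf 154 1 3) (.lf 125 2 3) (.lf 125 2 3)) (.lf 125 2 3) (.nd 148 (.lf 143 1 3) (.lf 148 1 3) (.lf 146 1 1)))) (.nd 170 (.lf 144 2 3) (.lf 167 1 1) (.lf 170 1 1)) (.nd 183 (.nd 183 (.lf 183 1 1) (.lf 181 1 3) (.lf 154 1 1)) (.lf 177 1 3) (.lf 183 1 3))) (.lf 167 1 3) (.nd 151 (.lf 135 1 3) (.lf 137 1 3) (.nd 151 (.lf 151 1 3) (.lf 144 1 3) (.nd 151 (.lf 151 1 3) (.lf 139 2 3) (.lf 142 2 3))))) (.nd 176 (.nd 176 (.lf 176 1 3) (.lf 145 1 3) (.lf 146 1 3)) (.nd 141 (.lf 141 1 3) (.lf 140 1 3) (.lf 129 1 1)) (.lf 150 1 3))) (.nd 211 (.nd 211 (.nd 178 (.lf 178 1 3) (.nd 172 (.lf 167 1 1) (.lf 168 1 1) (.lf 172 2 3)) (.lf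 175 2 3)) (.nd 179 (.nd 178 (.nd 178 (.lf 176 2 3) (.lf 171 1 1) (.lf 178 1 1)) (.lf 164 1 1) (.lf 162 1 1)) (.nd 179 (.nd 179 (.lf 179 1 3) (.nd 179 (.lf 179 1 3) (.lf 179 1 3) (.lf 179 1 3)) (.lf 179 1 3)) (.lf 179 1 3) (.lf 142 1 1)) (.nd 179 (.lf 177 2 3) (.nd 179 (.lf 169 2 3) (.lf 177 1 1) (.lf 179 1 3)) (.lf 146 2 3))) (.lf 211 1 3)) (.nd 182 (.nd 182 (.lf 182 1 3) (.nd 182 (.lf 170 2 3) (.lf 182 1 3) (.lf 173 2 3)) (.lf 175 1 3)) (.lf 168 1 3) (.lf 166 1 3)) (.nd 198 (.nd 198 (.lf 179 1 3) (.lf 168 1 3) (.lf 198 1 3)) (.lf 146 1 3) (.lf 186 1 3))) (.nd 198 (.nd 177 (.lf 161 1 3) (.nd 177 (.lf 170 1 3) (.nd 177 (.lf 168 2 3) (.lf 177 1 3) (.lf 165 2 3)) (.lf 177 1 3)) (.lf 153 1 3)) (.nd 198 (.lf 171 1 1) (.lf 166 1 1) (.nd 198 (.lf 198 2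 3) (.lf 166 1 3) (.lf 187 1 3))) (.nd 162 (.lf 141 1 3) (.nd 162 (.lf 162 1 1) (.lf 162 1 1) (.nd 159 (.lf 155 1 3) (.lf 154 1 3) (.lf 159 1 1))) (.lf 141 1 1)))) (.nd 218 (.nd 208 (.lf 194 1 3) (.lf 192 1 3) (.lf 208 1 3)) (.nd 181 (.nd 181 (.nd 177 (.lf 165 1 3) (.lf 177 1 1) (.lf 177 1 1)) (.nd 170 (.lf 162 1 3) (.lf 167 1 1) (.lf 170 1 3)) (.lf 181 1 1)) (.lf 172 1 3) (.lf 171 1 1)) (.nd 218 (.nd 198 (.nd 198 (.nd 195 (.nd 193 (.lf 193 1 3) (.lf 186 1 1) (.lf 188 1 3)) (.lf 178 1 1) (.lf 195 1 3)) (.lf 191 1 1) (.lf 198 2 3)) (.lf 171 1 1) (.lf 174 1 1)) (.nd 218 (.lf 218 1 3) (.lf 208 1 3) (.lf 217 2 3)) (.lf 197 1 1)))) (.nd 223 (.nd 223 (.nd 223 (.lf 223 1 3) (.nd 199 (.lf 191 1 3) (.lf 195 1 3) (.lf 199 1 3)) (.lf 192 1 3)) (.nd 193 (.lf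 169 1 3) (.lf 191 1 3) (.lf 193 1 3)) (.nd 208 (.lf 185 1 3) (.lf 184 1 3) (.lf 208 1 3))) (.nd 201 (.nd 201 (.lf 201 1 3) (.lf 190 1 3) (.nd 199 (.lf 177 1 3) (.lf 199 1 3) (.lf 194 1 3))) (.lf 173 1 3) (.nd 170 (.lf 137 1 3) (.lf 140 1 3) (.lf 170 1 3))) (.lf 171 1 3)) (.nd 201 (.nd 170 (.nd 170 (.lf 161 1 3) (.nd 170 (.nd 147 (.lf 138 1 3) (.lf 147 1 3) (.nd 110 (.lf 110 1 3) (.lf 94 1 3) (.lf 81 1 3))) (.lf 170 1 3) (.lf 163 1 3)) (.lf 166 1 3)) (.lf 170 1 3) (.lf 145 1 3)) (.nd 193 (.nd 193 (.lf 167 1 3) (.nd 193 (.lf 172 1 3) (.lf 173 1 3) (.lf 193 1 3)) (.nd 182 (.lf 182 1 3) (.lf 167 1 3) (.lf 154 1 3))) (.nd 142 (.nd 142 (.lf 142 1 3) (.nd 132 (.lf 132 1 3) (.lf 131 1 3) (.lf 109 1 3)) (.lf 123 1 3)) (.lf 135 1 3) (.lf 113 1 3)) (.nd 158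 (.lf 139 1 3) (.lf 144 1 3) (.nd 158 (.nd 158 (.nd 158 (.nd 158 (.lf 146 1 1) (.lf 146 1 1) (.lf 158 1 3)) (.nd 142 (.lf 111 1 3) (.lf 139 1 1) (.lf 142 1 1)) (.lf 158 1 3)) (.nd 158 (.lf 137 1 3) (.nd 158 (.lf 148 1 3) (.lf 158 2 3) (.lf 134 1 3)) (.lf 144 1 1)) (.nd 158 (.lf 148 1 3) (.lf 134 2 3) (.lf 158 1 3))) (.nd 158 (.nd 158 (.nd 158 (.lf 158 1 1) (.lf 129 1 1) (.nd 152 (.lf 152 1 3) (.lf 145 2 3) (.lf 134 1 3))) (.lf 147 1 3) (.lf 143 1 3)) (.lf 146 1 3) (.nd 158 (.lf 155 1 3) (.lf 157 1 3) (.nd 158 (.nd 141 (.lf 138 1 3) (.lf 130 2 3) (.lf 141 1 3)) (.lf 150 1 3) (.lf 158 2 3)))) (.nd 158 (.nd 158 (.lf 132 1 3) (.lf 158 1 3) (.lf 134 2 3)) (.lf 156 1 3) (.nd 152 (.lf 152 1 3) (.lf 134 1 3) (.nd 147 (.lf 132 2 3) (.lf 147 1 3) (.lf 129 2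 3))))))) (.nd 201 (.nd 180 (.lf 180 1 3) (.lf 169 1 3) (.nd 171 (.lf 162 1 3) (.lf 171 1 1) (.lf 161 1 3))) (.nd 175 (.nd 175 (.lf 158 1 1) (.nd 175 (.lf 175 1 3) (.lf 162 1 3) (.lf 175 1 1)) (.lf 166 1 1)) (.lf 168 1 3) (.nd 173 (.lf 166 1 3) (.nd 173 (.nd 172 (.lf 162 1 3) (.lf 164 1 3) (.lf 172 1 1)) (.lf 173 1 1) (.lf 158 1 3)) (.lf 136 1 3))) (.nd 201 (.lf 201 1 3) (.lf 178 1 3) (.nd 177 (.lf 163 1 3) (.lf 177 1 3) (.lf 161 1 3))))))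

def t15_587 : Tr := (.nd 121 (.nd 121 (.nd 117 (.nd 86 (.nd 78 (.lf 55 3 2) (.lf 27 3 2) (.lf 78 3 2)) (.nd 55 (.lf 55 3 2) (.lf 30 3 2) (.lf 55 3 2)) (.nd 86 (.lf 65 3 2) (.lf 86 3 2) (.lf 82 3 2))) (.nd 108 (.lf 56 3 2) (.nd 86 (.nd 86 (.nd 84 (.lf 79 3 2) (.lf 84 3 2) (.lf 62 3 2)) (.lf 75 3 2) (.lf 86 3 2)) (.lf 55 3 2) (.lf 58 3 2)) (.nd 108 (.lf 78 3 2) (.lf 108 3 2) (.lf 93 3 2))) (.nd 117 (.nd 104 (.nd 104 (.nd 104 (.lf 74 3 2) (.lf 104 3 2) (.lf 89 3 2)) (.lf 52 3 2) (.lf 80 3 2)) (.nd 95 (.nd 95 (.lf 81 3 2) (.lf 89 3 2) (.lf 95 4 2)) (.lf 92 3 2) (.lf 95 3 2)) (.lf 82 3 2)) (.nd 117 (.lf 93 3 2) (.nd 117 (.lf 117 3 2) (.nd 103 (.nd 103 (.lf 103 3 2) (.lf 83 3 2) (.lf 84 3 2)) (.nd 95 (.nd 95 (.lf 80 4 2) (.lf 95 3 2) (.lf 95 4 2)) (.lf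 88 4 2) (.lf 57 4 2)) (.lf 93 3 2)) (.lf 117 3 2)) (.lf 85 3 2)) (.nd 98 (.nd 98 (.lf 83 3 2) (.lf 82 3 2) (.lf 98 3 2)) (.lf 79 3 2) (.nd 94 (.lf 77 3 2) (.lf 78 3 2) (.nd 94 (.lf 94 3 2) (.lf 87 3 2) (.lf 86 3 2)))))) (.nd 121 (.nd 96 (.lf 83 4 2) (.nd 96 (.nd 96 (.nd 94 (.lf 94 3 2) (.lf 90 4 2) (.lf 79 3 2)) (.nd 96 (.lf 56 3 2) (.lf 96 4 2) (.lf 59 3 2)) (.lf 57 3 2)) (.nd 91 (.lf 69 3 2) (.lf 77 3 2) (.nd 91 (.lf 86 3 2) (.lf 91 4 2) (.lf 91 4 2))) (.lf 91 4 2)) (.lf 81 4 2)) (.nd 121 (.nd 121 (.nd 114 (.lf 104 4 2) (.nd 114 (.lf 76 4 2) (.lf 90 4 2) (.nd 114 (.lf 114 3 2) (.lf 103 4 2) (.lf 96 4 2))) (.lf 113 3 2)) (.nd 121 (.nd 111 (.nd 111 (.lf 111 3 2) (.lf 105 3 2) (.lf 108 4 2)) (.lf 101 4 2) (.nd 110 (.nd 110 (.lf 80 4 2) (.lf 110 3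 2) (.lf 110 4 2)) (.nd 103 (.lf 75 3 2) (.lf 102 4 2) (.lf 103 3 2)) (.lf 107 3 2))) (.nd 121 (.lf 81 3 2) (.lf 121 4 2) (.lf 108 3 2)) (.lf 109 3 2)) (.nd 119 (.nd 119 (.lf 119 3 2) (.lf 95 4 2) (.lf 101 4 2)) (.lf 93 3 2) (.lf 107 3 2))) (.nd 121 (.lf 121 4 2) (.lf 102 4 2) (.lf 107 4 2)) (.nd 121 (.nd 93 (.lf 82 4 2) (.nd 93 (.lf 78 3 2) (.lf 92 4 2) (.lf 93 4 2)) (.lf 78 4 2)) (.lf 103 4 2) (.nd 121 (.lf 121 4 2) (.nd 98 (.lf 98 4 2) (.lf 84 3 2) (.nd 89 (.lf 89 4 2) (.lf 83 3 2) (.lf 86 3 2))) (.nd 121 (.lf 120 4 2) (.lf 118 3 2) (.lf 121 4 2))))) (.nd 96 (.nd 85 (.lf 63 4 2) (.lf 60 4 2) (.nd 85 (.nd 85 (.lf 83 4 2) (.nd 85 (.lf 53 3 2) (.lf 85 4 2) (.lf 82 4 2)) (.lf 80 4 2)) (.nd 80 (.lf 77 4 2) (.lf 80 3 2) (.lf 80 4 2)) (.nd 84 (.lf 84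 4 2) (.lf 67 4 2) (.nd 65 (.lf 65 4 2) (.lf 58 3 2) (.lf 64 4 2))))) (.lf 61 4 2) (.nd 96 (.lf 83 4 2) (.nd 87 (.nd 87 (.lf 87 4 2) (.lf 81 4 2) (.lf 79 3 2)) (.lf 54 3 2) (.lf 74 4 2)) (.nd 96 (.lf 89 4 2) (.lf 87 4 2) (.nd 96 (.lf 80 3 2) (.lf 94 3 2) (.nd 96 (.lf 96 3 2) (.lf 87 4 2) (.lf 91 3 2))))))) (.nd 109 (.nd 83 (.nd 65 (.lf 65 4 2) (.nd 49 (.lf 34 3 2) (.lf 39 4 2) (.lf 49 3 2)) (.lf 60 3 2)) (.nd 83 (.nd 83 (.nd 83 (.nd 83 (.lf 83 3 2) (.lf 44 3 2) (.lf 70 3 2)) (.nd 77 (.lf 72 3 2) (.lf 77 4 2) (.lf 62 3 2)) (.lf 66 3 2)) (.nd 71 (.lf 39 3 2) (.lf 56 3 2) (.nd 71 (.lf 71 3 2) (.nd 50 (.lf 50 4 2) (.lf 41 3 2) (.lf 40 3 2)) (.lf 63 3 2))) (.lf 64 3 2)) (.lf 55 3 2) (.lf 56 3 2)) (.nd 77 (.nd 77 (.lf 76 4 2) (.nd 77 (.lf 71 4 2) (.nd 77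 (.nd 73 (.lf 62 3 2) (.lf 69 4 2) (.lf 73 4 2)) (.lf 77 4 2) (.lf 67 4 2)) (.lf 70 3 2)) (.lf 69 4 2)) (.lf 61 4 2) (.lf 60 4 2))) (.nd 109 (.nd 109 (.lf 90 3 2) (.nd 109 (.lf 92 3 2) (.nd 109 (.lf 109 3 2) (.lf 70 3 2) (.lf 96 3 2)) (.nd 103 (.lf 88 3 2) (.lf 98 3 2) (.lf 103 4 2))) (.lf 91 3 2)) (.nd 81 (.lf 42 3 2) (.nd 81 (.nd 81 (.lf 66 3 2) (.lf 58 3 2) (.lf 81 3 2)) (.lf 59 3 2) (.lf 66 3 2)) (.lf 50 3 2)) (.lf 82 3 2)) (.nd 102 (.lf 86 4 2) (.nd 102 (.lf 95 4 2) (.nd 102 (.lf 102 4 2) (.lf 87 4 2) (.lf 70 4 2)) (.nd 101 (.nd 100 (.nd 100 (.lf 100 3 2) (.lf 95 4 2) (.lf 95 4 2)) (.lf 93 4 2) (.nd 99 (.lf 88 3 2) (.lf 95 4 2) (.lf 99 4 2))) (.nd 101 (.lf 101 4 2) (.lf 75 4 2) (.lf 75 3 2)) (.nd 92 (.lf 92 3 2) (.lf 78 4 2) (.lf 92 4 2)))) (.nd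 87 (.lf 87 4 2) (.nd 82 (.lf 37 4 2) (.lf 34 4 2) (.nd 82 (.lf 63 4 2) (.lf 63 4 2) (.lf 82 4 2))) (.lf 35 4 2))))) (.nd 92 (.nd 92 (.nd 92 (.nd 92 (.lf 90 4 2) (.nd 92 (.lf 91 3 2) (.nd 90 (.nd 90 (.lf 50 3 2) (.lf 77 3 2) (.lf 90 4 2)) (.lf 89 4 2) (.lf 78 3 2)) (.lf 92 4 2)) (.lf 91 4 2)) (.nd 81 (.lf 50 4 2) (.lf 81 4 2) (.lf 52 4 2)) (.nd 80 (.lf 80 3 2) (.lf 30 4 2) (.lf 77 4 2))) (.nd 86 (.nd 86 (.nd 86 (.nd 86 (.nd 84 (.lf 79 3 2) (.lf 84 3 2) (.nd 78 (.lf 76 3 2) (.lf 74 3 2) (.lf 78 4 2))) (.lf 86 3 2) (.lf 86 3 2)) (.lf 61 3 2) (.lf 61 3 2)) (.lf 82 3 2) (.lf 74 3 2)) (.nd 77 (.nd 77 (.lf 77 3 2) (.lf 47 3 2) (.lf 62 3 2)) (.lf 55 3 2) (.lf 25 3 2)) (.lf 57 3 2)) (.nd 86 (.nd 86 (.nd 86 (.lf 71 4 2) (.lf 62 4 2) (.lf 86 4 2)) (.lf 55 4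 2) (.lf 56 4 2)) (.nd 78 (.lf 51 3 2) (.lf 50 3 2) (.nd 78 (.lf 59 3 2) (.lf 60 3 2) (.nd 78 (.nd 72 (.lf 58 4 2) (.lf 72 4 2) (.lf 67 3 2)) (.lf 78 3 2) (.lf 61 3 2)))) (.nd 58 (.lf 58 3 2) (.lf 42 4 2) (.lf 55 3 2)))) (.nd 82 (.nd 72 (.nd 72 (.nd 72 (.lf 72 4 2) (.lf 49 4 2) (.nd 48 (.lf 25 3 2) (.nd 45 (.lf 23 4 2) (.lf 45 3 2) (.lf 35 3 2)) (.lf 48 3 2))) (.lf 57 4 2) (.nd 60 (.nd 60 (.lf 52 3 2) (.nd 60 (.lf 59 4 2) (.lf 57 3 2) (.lf 60 3 2)) (.lf 49 3 2)) (.lf 55 4 2) (.lf 52 4 2))) (.lf 33 4 2) (.lf 28 4 2)) (.nd 31 (.lf 2 4 2) (.nd 24 (.lf 0 4 2) (.lf 0 4 2) (.nd 24 (.lf 0 4 2) (.lf 24 4 2) (.lf 9 4 2))) (.lf 31 4 2)) (.nd 82 (.nd 71 (.lf 71 4 2) (.lf 43 4 2) (.lf 56 4 2)) (.nd 82 (.lf 61 4 2) (.lf 82 4 2) (.lf 62 4 2)) (.lf 56 4 2))) (.nd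 59 (.nd 52 (.lf 28 4 2) (.nd 23 (.nd 21 (.nd 19 (.lf 0 4 2) (.lf 19 4 2) (.lf 0 3 2)) (.lf 1 3 2) (.lf 21 4 2)) (.nd 23 (.lf 0 4 2) (.lf 23 4 2) (.nd 16 (.lf 0 4 2) (.lf 0 3 2) (.lf 16 3 2))) (.lf 1 4 2)) (.nd 52 (.lf 25 3 2) (.nd 24 (.lf 24 4 2) (.lf 19 3 2) (.nd 15 (.lf 0 3 2) (.lf 15 3 2) (.lf 0 4 2))) (.lf 52 4 2))) (.nd 59 (.nd 59 (.nd 59 (.nd 59 (.lf 45 4 2) (.nd 59 (.lf 59 4 2) (.lf 52 4 2) (.lf 50 4 2)) (.lf 51 4 2)) (.lf 35 4 2) (.lf 38 4 2)) (.lf 47 4 2) (.lf 25 4 2)) (.lf 2 4 2) (.nd 29 (.nd 29 (.nd 29 (.nd 29 (.lf 21 3 2) (.lf 18 3 2) (.nd 29 (.lf 29 3 2) (.lf 26 3 2) (.lf 28 4 2))) (.lf 21 4 2) (.lf 24 4 2)) (.lf 26 4 2) (.nd 26 (.lf 23 3 2) (.lf 18 4 2) (.lf 26 4 2))) (.lf 0 4 2) (.lf 2 4 2))) (.nd 59 (.nd 59 (.lf 51 4 2) (.lf 52 4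 2) (.nd 59 (.lf 59 4 2) (.nd 59 (.lf 41 4 2) (.nd 59 (.lf 59 4 2) (.lf 59 4 2) (.nd 46 (.lf 46 4 2) (.lf 36 4 2) (.lf 22 3 2))) (.lf 51 4 2)) (.nd 59 (.nd 56 (.lf 51 3 2) (.lf 42 4 2) (.lf 56 4 2)) (.nd 59 (.lf 58 4 2) (.nd 59 (.lf 59 4 2) (.lf 46 3 2) (.lf 19 3 2)) (.lf 50 3 2)) (.nd 57 (.lf 43 4 2) (.lf 45 3 2) (.nd 57 (.lf 57 3 2) (.lf 33 4 2) (.lf 39 4 2)))))) (.nd 59 (.lf 59 4 2) (.lf 50 3 2) (.lf 55 4 2)) (.nd 55 (.nd 55 (.lf 51 3 2) (.lf 51 3 2) (.lf 55 3 2)) (.lf 26 3 2) (.lf 46 3 2))))) (.nd 112 (.nd 60 (.nd 60 (.lf 52 4 2) (.lf 43 4 2) (.nd 60 (.lf 34 4 2) (.lf 60 4 2) (.lf 34 4 2))) (.nd 55 (.nd 55 (.lf 25 4 2) (.lf 40 4 2) (.lf 55 4 2)) (.lf 31 4 2) (.lf 3 4 2)) (.nd 31 (.lf 2 4 2) (.lf 25 4 2) (.nd 31 (.lf 22 4 2) (.nd 31 (.lf 31 4 2)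 (.lf 10 4 2) (.lf 9 4 2)) (.lf 12 4 2)))) (.nd 90 (.lf 64 4 2) (.nd 90 (.lf 88 4 2) (.nd 88 (.lf 79 4 2) (.lf 88 4 2) (.lf 85 3 2)) (.nd 90 (.lf 83 4 2) (.lf 79 4 2) (.nd 90 (.lf 83 3 2) (.lf 80 3 2) (.nd 90 (.nd 90 (.lf 88 3 2) (.lf 90 4 2) (.lf 88 4 2)) (.nd 78 (.lf 78 4 2) (.lf 58 3 2) (.lf 70 3 2)) (.lf 88 3 2))))) (.nd 59 (.nd 29 (.lf 29 4 2) (.lf 24 4 2) (.lf 0 4 2)) (.lf 26 4 2) (.lf 59 4 2))) (.nd 112 (.nd 82 (.nd 80 (.lf 70 4 2) (.lf 73 4 2) (.lf 80 4 2)) (.lf 58 4 2) (.lf 82 4 2)) (.nd 112 (.nd 88 (.lf 80 4 2) (.lf 88 4 2) (.nd 84 (.lf 61 4 2) (.lf 84 4 2) (.lf 43 4 2))) (.nd 112 (.nd 111 (.nd 111 (.lf 105 4 2) (.nd 111 (.lf 91 4 2) (.lf 106 4 2) (.lf 111 4 2)) (.lf 110 4 2)) (.lf 104 4 2) (.lf 110 4 2)) (.nd 112 (.lf 97 4 2) (.nd 112 (.lf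 86 4 2) (.nd 112 (.lf 106 4 2) (.lf 112 4 2) (.lf 92 4 2)) (.lf 90 4 2)) (.lf 86 4 2)) (.lf 98 4 2)) (.lf 86 4 2)) (.nd 97 (.nd 74 (.lf 74 4 2) (.lf 55 4 2) (.lf 56 4 2)) (.nd 97 (.nd 97 (.lf 97 4 2) (.lf 87 4 2) (.lf 88 4 2)) (.lf 80 4 2) (.lf 86 4 2)) (.lf 73 4 2)))))

def t15_589 : Tr := (.nd 95 (.nd 95 (.nd 65 (.nd 63 (.lf 53 2 1) (.nd 63 (.lf 63 2 1) (.lf 39 2 1) (.lf 42 2 1)) (.nd 56 (.lf 39 2 1) (.lf 56 2 1) (.lf 55 2 1))) (.nd 65 (.lf 13 2 1) (.lf 65 2 1) (.nd 43 (.lf 15 2 1) (.lf 12 2 1) (.lf 43 2 1))) (.nd 41 (.lf 15 2 1) (.nd 35 (.lf 35 2 1) (.lf 0 2 1) (.lf 11 2 1)) (.lf 41 2 1))) (.nd 80 (.nd 80 (.lf 63 2 1) (.nd 80 (.lf 70 2 1) (.lf 80 2 1) (.lf 71 2 1)) (.lf 69 2 1)) (.nd 57 (.lf 57 2 1) (.lf 39 2 1) (.lf 38 2 1)) (.lf 56 2 1)) (.nd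 95 (.nd 71 (.lf 63 2 1) (.nd 67 (.lf 26 2 1) (.lf 67 2 1) (.lf 44 2 1)) (.lf 71 2 1)) (.lf 69 2 1) (.lf 95 2 1))) (.nd 90 (.nd 42 (.lf 9 2 1) (.nd 12 (.lf 12 2 1) (.lf 0 2 1) (.lf 7 2 1)) (.nd 42 (.nd 20 (.lf 20 2 1) (.lf 0 2 1) (.lf 0 2 1)) (.nd 42 (.lf 39 2 1) (.nd 42 (.lf 18 2 1) (.lf 28 2 1) (.lf 42 2 1)) (.lf 17 2 1)) (.lf 17 2 1))) (.nd 90 (.nd 71 (.lf 48 2 1) (.lf 71 2 1) (.lf 66 2 1)) (.nd 90 (.lf 62 2 1) (.nd 65 (.lf 39 2 1) (.lf 65 2 1) (.nd 40 (.lf 11 2 1) (.lf 5 2 1) (.lf 40 2 1))) (.nd 90 (.lf 90 2 1) (.lf 66 2 1) (.lf 64 2 1))) (.nd 71 (.nd 62 (.nd 62 (.nd 62 (.lf 62 2 1) (.lf 28 2 1) (.lf 31 2 1)) (.lf 50 2 1) (.lf 51 2 1)) (.lf 37 2 1) (.lf 55 2 1)) (.lf 59 2 1) (.lf 71 2 1))) (.nd 45 (.nd 16 (.nd 16 (.lf 16 2 1) (.lf 7 2 1) (.lf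 7 2 1)) (.lf 0 2 1) (.lf 0 2 1)) (.nd 16 (.lf 0 2 1) (.nd 16 (.lf 0 2 1) (.nd 16 (.nd 13 (.lf 0 2 1) (.lf 0 2 1) (.lf 13 2 1)) (.lf 16 2 1) (.lf 0 2 1)) (.lf 0 2 1)) (.lf 0 2 1)) (.lf 45 2 1))) (.nd 43 (.nd 38 (.nd 38 (.lf 8 2 1) (.nd 38 (.nd 38 (.lf 24 2 1) (.lf 37 2 1) (.lf 38 2 1)) (.lf 7 2 1) (.lf 14 2 1)) (.lf 23 2 1)) (.lf 0 2 1) (.lf 14 2 1)) (.nd 43 (.nd 43 (.lf 43 2 1) (.lf 17 2 1) (.lf 17 2 1)) (.lf 26 2 1) (.lf 35 2 1)) (.nd 14 (.lf 0 2 1) (.nd 14 (.lf 14 2 1) (.nd 5 (.lf 0 2 1) (.lf 5 2 1) (.lf 0 2 1)) (.lf 0 2 1)) (.lf 8 2 1))))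

def t15_590 : Tr := (.nd 272 (.nd 272 (.lf 254 2 4) (.nd 272 (.lf 272 2 4) (.nd 248 (.nd 248 (.lf 248 1 2) (.lf 234 1 2) (.nd 203 (.lf 203 1 2) (.lf 173 1 2) (.lf 194 1 2))) (.lf 239 2 4) (.nd 216 (.nd 216 (.nd 216 (.nd 216 (.nd 216 (.lf 205 1 4) (.lf 216 2 4) (.lf 187 1 4)) (.lf 204 2 4) (.lf 206 2 4)) (.lf 215 2 4) (.lf 200 2 4)) (.lf 178 2 4) (.nd 202 (.lf 202 1 4) (.lf 177 2 4) (.lf 180 2 4))) (.lf 204 1 4) (.nd 206 (.lf 198 2 4) (.lf 206 1 4) (.lf 194 2 4)))) (.nd 247 (.lf 232 1 2) (.nd 247 (.nd 247 (.lf 245 2 4) (.lf 247 2 4) (.nd 240 (.lf 240 2 4) (.nd 218 (.lf 205 2 4) (.lf 204 2 4) (.lf 218 1 2)) (.lf 219 2 4))) (.lf 229 1 2) (.lf 234 1 2)) (.lf 239 2 4))) (.lf 243 2 4)) (.nd 262 (.nd 262 (.lf 262 2 4) (.nd 262 (.nd 241 (.nd 241 (.lf 232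 1 2) (.lf 241 2 4) (.nd 228 (.lf 228 2 4) (.lf 197 2 4) (.nd 191 (.lf 189 1 2) (.lf 191 1 2) (.lf 166 2 4)))) (.lf 226 1 2) (.lf 226 1 2)) (.lf 262 2 4) (.lf 252 1 2)) (.nd 247 (.nd 247 (.lf 229 1 2) (.nd 232 (.nd 232 (.lf 232 1 2) (.nd 202 (.lf 202 1 2) (.lf 186 2 4) (.lf 184 2 4)) (.lf 216 2 4)) (.lf 203 1 2) (.lf 203 1 2)) (.nd 247 (.lf 223 2 4) (.lf 247 2 4) (.nd 229 (.lf 229 2 4) (.lf 206 2 4) (.lf 202 2 4)))) (.nd 240 (.lf 240 2 4) (.lf 201 2 4) (.lf 191 2 4)) (.lf 230 1 2))) (.nd 256 (.nd 213 (.nd 197 (.lf 173 2 4) (.lf 197 2 4) (.lf 169 2 4)) (.lf 191 2 4) (.nd 213 (.nd 213 (.lf 213 2 4) (.lf 193 2 4) (.lf 198 2 4)) (.lf 206 2 4) (.nd 210 (.lf 204 1 2) (.nd 210 (.lf 209 1 2) (.nd 210 (.lf 191 1 2) (.lf 179 1 2) (.lf 210 2 4)) (.lf 190 2 4))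 (.lf 201 1 2)))) (.nd 256 (.nd 220 (.nd 210 (.lf 210 2 4) (.lf 200 2 4) (.nd 178 (.lf 177 2 4) (.lf 178 2 4) (.lf 161 1 2))) (.nd 187 (.nd 187 (.lf 166 2 4) (.lf 172 2 4) (.lf 187 1 4)) (.nd 187 (.lf 152 2 4) (.lf 187 1 4) (.nd 187 (.lf 187 2 4) (.lf 174 2 4) (.lf 187 1 4))) (.lf 187 1 4)) (.lf 220 1 4)) (.lf 238 2 4) (.lf 256 2 4)) (.nd 224 (.nd 224 (.lf 179 2 4) (.lf 176 2 4) (.lf 224 2 4)) (.lf 177 2 4) (.nd 212 (.nd 212 (.lf 212 2 4) (.lf 191 2 4) (.lf 190 2 4)) (.lf 200 1 4) (.lf 199 2 4)))) (.nd 246 (.nd 222 (.nd 187 (.lf 173 2 4) (.nd 187 (.nd 187 (.lf 175 1 2) (.lf 178 1 2) (.lf 187 2 4)) (.lf 187 2 4) (.lf 180 2 4)) (.lf 171 2 4)) (.nd 222 (.lf 222 2 4) (.nd 194 (.lf 184 2 4) (.lf 194 2 4) (.lf 187 1 4)) (.nd 195 (.lf 186 2 4) (.lf 187 1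 4) (.lf 195 1 4))) (.nd 203 (.nd 187 (.nd 187 (.lf 187 1 4) (.lf 179 2 4) (.lf 179 2 4)) (.lf 153 2 4) (.lf 150 2 4)) (.lf 151 2 4) (.lf 203 2 4))) (.nd 225 (.lf 202 2 4) (.lf 225 2 4) (.nd 207 (.nd 207 (.lf 192 2 4) (.lf 207 2 4) (.lf 185 2 4)) (.lf 177 2 4) (.lf 176 2 4))) (.nd 246 (.lf 246 2 4) (.lf 229 1 4) (.nd 224 (.lf 216 2 4) (.lf 204 1 2) (.nd 224 (.nd 224 (.lf 210 2 4) (.lf 224 2 4) (.lf 203 2 4)) (.lf 203 1 2) (.nd 204 (.nd 204 (.lf 190 2 4) (.lf 204 1 4) (.lf 189 2 4)) (.lf 177 1 2) (.lf 177 1 2))))))) (.nd 270 (.nd 259 (.lf 259 2 4) (.lf 245 2 4) (.nd 259 (.nd 259 (.lf 252 2 4) (.lf 240 2 4) (.lf 259 1 4)) (.lf 255 1 2) (.lf 251 2 4))) (.nd 268 (.lf 268 2 4) (.nd 267 (.lf 266 2 4) (.nd 267 (.lf 267 2 4) (.lf 267 2 4) (.lf 267 1 2)) (.lf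 262 2 4)) (.lf 242 2 4)) (.nd 270 (.lf 268 1 2) (.lf 270 2 4) (.nd 262 (.lf 227 1 2) (.lf 262 2 4) (.lf 257 1 2)))))

def t15_592 : Tr := (.nd 281 (.lf 281 2 5) (.nd 252 (.lf 246 2 5) (.lf 223 2 5) (.nd 252 (.lf 252 2 5) (.nd 243 (.lf 243 2 5) (.nd 235 (.nd 189 (.lf 160 2 5) (.lf 184 2 5) (.lf 189 2 5)) (.lf 235 2 5) (.lf 219 2 5)) (.lf 221 2 5)) (.lf 233 2 5))) (.lf 276 2 5))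

def t15_595 : Tr := (.nd 141 (.nd 141 (.nd 135 (.nd 135 (.lf 132 1 1) (.nd 129 (.lf 129 1 1) (.lf 113 1 1) (.lf 113 1 1)) (.lf 135 1 1)) (.lf 111 1 1) (.nd 110 (.nd 110 (.nd 110 (.nd 110 (.lf 107 1 3) (.lf 110 1 1) (.lf 107 1 3)) (.lf 110 1 1) (.lf 107 1 3)) (.nd 107 (.nd 107 (.nd 107 (.lf 93 1 1) (.lf 82 1 1) (.nd 107 (.lf 102 1 1) (.lf 107 1 3) (.lf 105 1 1))) (.lf 107 1 3) (.lf 90 1 1)) (.lf 107 1 3) (.lf 107 1 3)) (.lf 107 1 3)) (.lf 101 1 1) (.lf 102 1 1))) (.nd 133 (.nd 133 (.lf 133 1 1) (.lf 122 1 1) (.lf 119 1 1)) (.nd 111 (.lf 92 1 1) (.lf 96 1 1) (.lf 111 1 1)) (.lf 117 1 1)) (.nd 141 (.nd 141 (.nd 141 (.lf 109 1 1) (.lf 107 1 1) (.nd 141 (.lf 128 1 1) (.nd 141 (.lf 119 1 1) (.lf 141 1 1) (.lf 125 1 1)) (.lf 134 1 1))) (.lf 119 1 1) (.nd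 133 (.lf 133 1 1) (.lf 123 1 3) (.lf 124 1 3))) (.nd 131 (.nd 111 (.nd 111 (.lf 107 1 3) (.nd 111 (.lf 107 1 3) (.lf 111 1 1) (.lf 107 1 3)) (.lf 107 1 3)) (.lf 97 1 1) (.lf 102 1 1)) (.nd 120 (.lf 104 1 1) (.nd 120 (.lf 120 1 3) (.lf 117 1 1) (.lf 110 1 1)) (.lf 90 1 1)) (.nd 131 (.nd 127 (.nd 127 (.lf 127 1 1) (.lf 110 1 1) (.nd 120 (.lf 120 1 1) (.lf 120 1 1) (.nd 116 (.lf 116 1 3) (.lf 111 1 1) (.lf 110 1 1)))) (.lf 116 1 1) (.lf 115 1 1)) (.nd 131 (.lf 101 1 1) (.nd 131 (.lf 128 1 1) (.lf 130 1 1) (.nd 131 (.lf 112 1 1) (.lf 125 1 1) (.lf 131 1 3))) (.lf 127 1 1)) (.lf 124 1 1))) (.nd 134 (.lf 126 1 1) (.nd 134 (.lf 134 1 1) (.nd 132 (.lf 132 1 1) (.lf 126 1 1) (.lf 122 1 1)) (.lf 115 1 1)) (.lf 132 1 1)))) (.nd 109 (.nd 105 (.lf 74 1 1) (.lf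 105 1 1) (.nd 77 (.lf 48 1 1) (.nd 48 (.lf 18 1 1) (.lf 48 1 1) (.lf 17 1 1)) (.lf 77 1 1))) (.nd 75 (.lf 46 1 1) (.nd 70 (.lf 70 1 1) (.lf 18 1 1) (.lf 46 1 1)) (.lf 75 1 1)) (.nd 109 (.nd 109 (.nd 109 (.lf 108 1 1) (.nd 107 (.nd 107 (.lf 101 1 1) (.lf 105 1 1) (.nd 107 (.lf 106 1 1) (.lf 107 1 1) (.lf 107 1 3))) (.lf 105 1 1) (.lf 101 1 1)) (.lf 109 1 1)) (.lf 99 1 1) (.lf 96 1 1)) (.lf 95 1 1) (.lf 103 1 1))) (.nd 126 (.nd 87 (.lf 82 1 1) (.nd 87 (.lf 71 1 1) (.lf 87 1 1) (.lf 86 1 1)) (.lf 46 1 1)) (.nd 126 (.lf 106 1 1) (.nd 105 (.nd 90 (.lf 90 1 1) (.lf 71 1 1) (.nd 70 (.lf 70 1 1) (.lf 39 1 1) (.lf 41 1 1))) (.lf 95 1 1) (.lf 105 1 1)) (.nd 126 (.lf 126 1 1) (.lf 110 1 1) (.lf 102 1 1))) (.nd 95 (.lf 95 1 1) (.nd 62 (.lf 17 1 1) (.lf 62 1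 1) (.lf 48 1 1)) (.nd 78 (.nd 60 (.lf 57 1 1) (.lf 60 1 1) (.nd 16 (.lf 9 1 1) (.lf 0 1 1) (.lf 16 1 1))) (.lf 43 1 1) (.lf 78 1 1)))))

def t15_596 : Tr := (.nd 300 (.nd 299 (.nd 299 (.lf 280 1 2) (.nd 223 (.lf 168 1 2) (.nd 213 (.lf 213 1 2) (.nd 161 (.lf 161 1 2) (.lf 131 1 2) (.lf 130 1 2)) (.nd 167 (.nd 167 (.lf 164 1 2) (.nd 161 (.lf 152 1 2) (.lf 156 1 2) (.lf 161 1 2)) (.lf 167 1 2)) (.lf 135 1 2) (.lf 157 1 2))) (.nd 223 (.lf 223 1 2) (.nd 213 (.lf 188 1 2) (.lf 213 1 2) (.nd 192 (.nd 192 (.lf 192 1 2) (.lf 185 1 2) (.lf 171 1 2)) (.lf 165 1 2) (.lf 162 1 2))) (.lf 192 1 2))) (.lf 299 1 2)) (.lf 293 1 2) (.nd 254 (.lf 254 1 2) (.nd 251 (.nd 192 (.nd 162 (.lf 129 1 2) (.lf 157 1 2) (.lf 162 1 2)) (.lf 192 1 2) (.lf 161 1 2)) (.lf 251 1 2)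 (.nd 197 (.nd 166 (.lf 136 1 2) (.lf 166 1 2) (.lf 135 1 2)) (.lf 197 1 2) (.lf 169 1 2))) (.nd 197 (.nd 188 (.lf 165 1 2) (.lf 188 1 2) (.lf 136 1 2)) (.lf 197 1 2) (.lf 167 1 2)))) (.nd 277 (.lf 276 1 2) (.lf 277 1 2) (.nd 226 (.nd 219 (.lf 219 1 2) (.nd 195 (.nd 171 (.lf 140 1 2) (.lf 140 1 2) (.nd 171 (.nd 169 (.lf 146 1 2) (.lf 169 1 2) (.lf 166 1 2)) (.lf 171 1 2) (.lf 157 1 2))) (.lf 166 1 2) (.nd 195 (.lf 195 1 2) (.nd 195 (.lf 186 1 2) (.nd 189 (.lf 160 1 2) (.lf 189 1 2) (.lf 164 1 2)) (.lf 195 1 2)) (.lf 186 1 2))) (.lf 167 1 2)) (.lf 197 1 2) (.lf 226 1 2))) (.lf 300 1 2))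

def t15_598 : Tr := (.nd 230 (.nd 226 (.lf 202 1 1) (.lf 226 1 1) (.nd 176 (.lf 176 1 1) (.lf 171 1 1) (.nd 147 (.nd 141 (.lf 90 1 1) (.lf 119 1 1) (.lf 141 1 1)) (.nd 147 (.lf 128 1 1) (.nd 138 (.lf 138 1 1) (.lf 116 1 1) (.nd 130 (.lf 130 1 1) (.lf 84 1 1) (.lf 114 1 1))) (.lf 147 1 1)) (.lf 118 1 1)))) (.nd 230 (.nd 230 (.nd 207 (.lf 188 1 1) (.lf 207 1 1) (.nd 197 (.lf 197 1 1) (.lf 176 1 1) (.nd 180 (.nd 180 (.nd 162 (.lf 162 1 1) (.lf 120 1 1) (.lf 132 1 1)) (.lf 180 1 1) (.lf 169 1 1)) (.lf 162 1 1) (.lf 145 1 1)))) (.lf 230 1 1) (.nd 205 (.lf 177 1 1) (.nd 197 (.nd 191 (.lf 191 1 1) (.lf 170 1 1) (.nd 190 (.lf 170 1 1) (.lf 190 1 1) (.lf 165 1 1))) (.lf 197 1 1) (.nd 175 (.lf 175 1 1) (.nd 174 (.lf 141 1 1) (.nd 174 (.lf 170 1 1) (.lf 174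 1 1) (.lf 164 1 1)) (.lf 168 1 1)) (.lf 167 1 1))) (.lf 205 1 1))) (.nd 219 (.nd 219 (.nd 219 (.nd 219 (.nd 219 (.lf 219 1 1) (.lf 209 1 1) (.nd 215 (.lf 169 1 1) (.lf 195 1 1) (.lf 215 1 1))) (.nd 191 (.lf 191 1 1) (.nd 191 (.lf 183 1 1) (.lf 169 1 1) (.lf 191 1 1)) (.lf 191 1 1)) (.lf 213 1 1)) (.nd 196 (.lf 184 1 1) (.nd 195 (.lf 195 1 1) (.lf 169 1 1) (.lf 178 1 1)) (.nd 196 (.lf 194 1 1) (.lf 151 1 1) (.lf 196 1 1))) (.nd 196 (.lf 161 1 1) (.nd 196 (.lf 196 1 1) (.nd 177 (.lf 146 1 1) (.lf 177 1 1) (.lf 147 1 1)) (.lf 182 1 1)) (.lf 183 1 1))) (.nd 194 (.nd 181 (.lf 181 1 1) (.lf 153 1 1) (.lf 150 1 1)) (.lf 151 1 1) (.lf 194 1 1)) (.nd 181 (.nd 181 (.nd 178 (.lf 178 1 1) (.lf 169 1 1) (.lf 175 1 1)) (.lf 181 1 1) (.lf 169 1 1)) (.lf 171 1 1)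 (.lf 173 1 1))) (.nd 178 (.nd 178 (.lf 171 1 1) (.lf 172 1 1) (.nd 178 (.lf 178 1 1) (.lf 172 1 1) (.nd 177 (.lf 163 1 1) (.lf 153 1 1) (.lf 177 1 1)))) (.lf 178 1 1) (.nd 173 (.nd 172 (.nd 150 (.lf 119 1 1) (.lf 121 1 1) (.lf 150 1 1)) (.lf 172 1 1) (.lf 151 1 1)) (.lf 165 1 1) (.lf 173 1 1))) (.nd 200 (.lf 200 1 1) (.lf 182 1 1) (.nd 198 (.lf 146 1 1) (.nd 193 (.lf 148 1 1) (.lf 193 1 1) (.lf 145 1 1)) (.lf 198 1 1)))) (.nd 224 (.nd 219 (.lf 208 1 1) (.lf 219 1 1) (.nd 199 (.lf 184 1 1) (.nd 194 (.nd 178 (.lf 162 1 1) (.lf 154 1 1) (.lf 178 1 1)) (.lf 163 1 1) (.lf 194 1 5)) (.nd 199 (.lf 199 1 1) (.lf 183 1 1) (.nd 196 (.lf 180 1 1) (.lf 179 1 1) (.lf 196 1 5))))) (.nd 202 (.nd 194 (.lf 194 1 1) (.lf 159 1 1) (.lf 143 1 1)) (.lf 171 1 1) (.lf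 202 1 1)) (.nd 224 (.nd 224 (.nd 194 (.lf 170 1 1) (.lf 194 1 1) (.lf 192 1 1)) (.lf 224 1 1) (.lf 209 1 1)) (.lf 172 1 1) (.nd 202 (.lf 174 1 1) (.lf 202 1 1) (.nd 171 (.lf 141 1 1) (.lf 138 1 1) (.lf 171 1 1)))))) (.nd 204 (.nd 204 (.lf 191 1 1) (.nd 204 (.lf 204 1 1) (.lf 172 1 1) (.nd 169 (.nd 169 (.lf 169 1 1) (.lf 145 1 1) (.lf 148 1 1)) (.lf 161 1 1) (.lf 146 1 1))) (.nd 187 (.nd 173 (.lf 140 1 1) (.nd 163 (.lf 112 1 1) (.lf 153 1 1) (.lf 163 1 1)) (.nd 173 (.nd 167 (.lf 138 1 1) (.lf 157 1 1) (.lf 167 1 1)) (.lf 173 1 1) (.nd 159 (.nd 159 (.lf 132 1 1) (.lf 159 1 1) (.lf 131 1 1)) (.lf 157 1 1) (.lf 139 1 1)))) (.lf 186 1 5) (.lf 187 1 5))) (.nd 196 (.nd 147 (.nd 147 (.nd 128 (.lf 128 1 1) (.lf 114 1 1) (.lf 123 1 1)) (.nd 137 (.nd 136 (.lf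 136 1 1) (.lf 84 1 1) (.lf 114 1 1)) (.lf 137 1 1) (.lf 114 1 1)) (.lf 147 1 1)) (.nd 118 (.lf 118 1 1) (.lf 110 1 1) (.lf 90 1 1)) (.nd 140 (.lf 116 1 1) (.nd 140 (.lf 110 1 1) (.nd 140 (.lf 140 1 1) (.lf 114 1 1) (.lf 116 1 1)) (.lf 125 1 1)) (.lf 88 1 1))) (.lf 196 1 1) (.lf 177 1 1)) (.lf 178 1 1)))

def t15_599 : Tr := (.nd 237 (.nd 237 (.nd 222 (.nd 213 (.nd 204 (.nd 197 (.lf 186 3 4) (.nd 197 (.lf 197 3 4) (.lf 183 1 2) (.lf 182 1 2)) (.lf 191 3 4)) (.lf 191 2 4) (.nd 204 (.nd 204 (.lf 193 3 4) (.lf 204 1 2) (.lf 157 1 2)) (.nd 193 (.lf 179 1 2) (.nd 193 (.lf 186 1 2) (.lf 159 2 4) (.lf 193 1 2)) (.lf 177 1 2)) (.nd 203 (.lf 195 3 4) (.nd 200 (.lf 190 1 2) (.lf 200 1 2) (.lf 193 3 4)) (.lf 203 2 4)))) (.nd 196 (.nd 195 (.nd 195 (.nd 195 (.lf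 186 3 4) (.lf 195 2 4) (.lf 190 3 4)) (.lf 191 3 4) (.lf 185 2 4)) (.lf 162 2 4) (.lf 189 2 4)) (.lf 196 3 4) (.lf 188 2 4)) (.nd 213 (.nd 206 (.nd 205 (.lf 205 3 4) (.lf 185 1 2) (.lf 182 1 2)) (.lf 183 1 2) (.nd 206 (.lf 192 3 4) (.nd 197 (.lf 194 3 4) (.lf 197 1 2) (.lf 189 3 4)) (.lf 206 2 4))) (.nd 207 (.lf 197 1 2) (.nd 207 (.nd 207 (.lf 199 1 2) (.lf 204 1 2) (.lf 207 2 4)) (.nd 205 (.lf 205 3 4) (.lf 198 1 2) (.lf 201 1 2)) (.lf 185 2 4)) (.lf 203 1 2)) (.nd 213 (.nd 213 (.lf 198 3 4) (.lf 210 2 4) (.lf 213 3 4)) (.nd 202 (.lf 202 2 4) (.lf 176 3 4) (.lf 192 3 4)) (.nd 204 (.lf 190 3 4) (.nd 193 (.lf 186 2 4) (.lf 166 3 4) (.lf 193 3 4)) (.nd 204 (.lf 164 2 4) (.lf 204 2 4) (.nd 198 (.lf 186 2 4) (.lf 198 3 4) (.lf 193 3 4))))))) (.nd 198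 (.lf 198 3 4) (.lf 193 3 4) (.lf 169 3 4)) (.nd 222 (.lf 200 3 4) (.nd 222 (.nd 222 (.lf 217 3 4) (.nd 222 (.lf 190 2 4) (.lf 219 3 4) (.lf 222 3 4)) (.lf 220 3 4)) (.nd 221 (.nd 202 (.lf 201 3 4) (.lf 195 2 4) (.lf 202 3 4)) (.lf 204 3 4) (.lf 221 3 4)) (.nd 217 (.lf 214 3 4) (.lf 217 3 4) (.lf 217 2 4))) (.nd 197 (.lf 197 3 4) (.lf 167 3 4) (.lf 164 3 4)))) (.nd 237 (.nd 237 (.lf 237 1 2) (.nd 235 (.lf 224 1 2) (.nd 235 (.lf 235 1 2) (.nd 219 (.lf 219 1 2) (.lf 216 2 4) (.lf 189 2 4)) (.lf 215 2 4)) (.lf 202 1 2)) (.nd 237 (.nd 237 (.lf 237 1 2) (.lf 227 3 4) (.lf 213 3 4)) (.lf 235 1 2) (.lf 236 1 2))) (.nd 205 (.lf 205 1 2) (.lf 179 1 2) (.nd 205 (.nd 205 (.nd 203 (.lf 198 1 2) (.nd 203 (.nd 203 (.lf 180 2 4) (.lf 203 2 4) (.lf 203 1 2)) (.lf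 183 1 2) (.lf 169 1 2)) (.nd 199 (.lf 169 3 4) (.lf 186 1 2) (.lf 199 3 4))) (.lf 200 1 2) (.nd 205 (.lf 187 2 4) (.nd 186 (.lf 186 1 2) (.lf 156 2 4) (.lf 185 2 4)) (.lf 205 1 2))) (.lf 204 1 2) (.nd 204 (.lf 204 1 2) (.nd 204 (.lf 204 1 2) (.lf 197 1 2) (.lf 195 3 4)) (.lf 170 3 4)))) (.nd 225 (.lf 195 1 2) (.nd 225 (.lf 210 1 2) (.nd 225 (.lf 173 3 4) (.lf 225 3 4) (.lf 212 1 2)) (.lf 213 1 2)) (.lf 204 1 2))) (.nd 213 (.nd 213 (.nd 207 (.lf 181 1 2) (.lf 181 1 2) (.nd 207 (.lf 193 3 4) (.lf 194 3 4) (.nd 207 (.lf 207 1 2) (.nd 196 (.lf 177 3 4) (.lf 194 3 4) (.lf 196 1 2)) (.lf 187 1 2)))) (.nd 213 (.nd 199 (.lf 168 3 4) (.lf 193 2 4) (.nd 199 (.nd 196 (.lf 191 2 4) (.lf 194 3 4) (.lf 196 3 4)) (.lf 199 2 4) (.lf 190 3 4))) (.nd 213 (.nd 210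 (.lf 206 3 4) (.lf 210 2 4) (.lf 205 3 4)) (.lf 213 1 2) (.nd 213 (.lf 212 2 4) (.lf 209 2 4) (.nd 213 (.lf 211 3 4) (.lf 209 2 4) (.lf 213 2 4)))) (.nd 190 (.lf 190 3 4) (.lf 188 3 4) (.lf 165 2 4))) (.nd 194 (.lf 177 1 2) (.lf 174 1 2) (.lf 194 2 4))) (.nd 210 (.nd 210 (.lf 194 3 4) (.lf 209 3 4) (.nd 210 (.lf 199 3 4) (.nd 210 (.nd 210 (.lf 164 2 4) (.nd 210 (.lf 166 2 4) (.lf 210 3 4) (.lf 163 2 4)) (.lf 210 3 4)) (.lf 210 3 4) (.nd 204 (.lf 176 2 4) (.lf 204 3 4) (.lf 184 2 4))) (.lf 200 3 4))) (.nd 204 (.nd 204 (.lf 195 3 4) (.lf 204 1 2) (.lf 195 3 4)) (.lf 171 3 4) (.lf 166 3 4)) (.lf 169 3 4)) (.nd 201 (.nd 200 (.lf 191 1 2) (.nd 193 (.lf 193 3 4) (.lf 182 1 2) (.lf 182 1 2)) (.lf 200 1 2)) (.lf 201 3 4) (.lf 179 1 2)))) (.nd 221 (.nd 213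 (.nd 213 (.nd 213 (.nd 213 (.lf 194 2 4) (.lf 195 2 4) (.nd 213 (.nd 209 (.lf 199 2 4) (.lf 209 3 4) (.lf 191 2 4)) (.lf 205 2 4) (.lf 213 2 4))) (.nd 200 (.lf 189 2 4) (.lf 176 2 4) (.nd 200 (.lf 189 2 4) (.nd 200 (.lf 200 1 2) (.lf 190 2 4) (.lf 174 1 2)) (.lf 182 2 4))) (.lf 189 2 4)) (.lf 164 2 4) (.nd 188 (.lf 161 2 4) (.lf 166 2 4) (.nd 188 (.nd 188 (.lf 188 2 4) (.nd 180 (.lf 180 2 4) (.lf 149 1 2) (.lf 146 1 2)) (.lf 147 1 2)) (.nd 185 (.lf 159 1 2) (.lf 167 1 2) (.lf 185 2 4)) (.lf 187 2 4)))) (.nd 213 (.lf 202 1 2) (.nd 213 (.nd 199 (.lf 185 2 4) (.lf 199 2 4) (.lf 183 2 4)) (.nd 213 (.lf 213 1 2) (.lf 208 1 2) (.nd 206 (.lf 206 1 2) (.lf 201 2 4) (.lf 200 2 4))) (.lf 200 2 4)) (.lf 202 2 4)) (.nd 188 (.nd 188 (.lf 188 2 4) (.lf 183 2 4)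 (.lf 186 1 2)) (.lf 174 1 2) (.lf 167 2 4))) (.nd 213 (.nd 213 (.nd 213 (.nd 209 (.lf 160 2 4) (.lf 188 2 4) (.lf 209 2 4)) (.nd 213 (.nd 213 (.lf 206 2 4) (.lf 213 3 4) (.lf 186 2 4)) (.nd 197 (.lf 195 2 4) (.lf 197 1 2) (.lf 187 1 2)) (.lf 198 2 4)) (.lf 188 2 4)) (.nd 213 (.nd 203 (.lf 193 1 2) (.lf 189 1 2) (.nd 203 (.lf 190 2 4) (.lf 189 3 4) (.lf 203 1 2))) (.nd 213 (.nd 213 (.nd 213 (.lf 213 2 4) (.nd 213 (.lf 211 3 4) (.lf 213 2 4) (.lf 206 2 4)) (.lf 207 2 4)) (.lf 213 2 4) (.lf 185 2 4)) (.nd 201 (.nd 199 (.lf 199 1 2) (.lf 199 1 2) (.lf 194 2 4)) (.lf 184 2 4) (.lf 201 1 2)) (.nd 213 (.lf 204 1 2) (.nd 202 (.nd 202 (.lf 201 2 4) (.lf 202 1 2) (.lf 180 2 4)) (.lf 174 1 2) (.lf 199 1 2)) (.nd 213 (.lf 208 2 4) (.nd 213 (.lf 213 1 2) (.lf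 196 2 4) (.lf 212 2 4)) (.lf 212 2 4)))) (.nd 204 (.lf 173 1 2) (.nd 204 (.lf 195 1 2) (.lf 200 2 4) (.nd 204 (.lf 164 2 4) (.lf 204 2 4) (.lf 201 1 2))) (.lf 203 1 2))) (.nd 211 (.lf 189 2 4) (.nd 211 (.lf 211 2 4) (.lf 199 1 2) (.lf 198 1 2)) (.nd 191 (.lf 191 2 4) (.lf 188 2 4) (.lf 185 1 2)))) (.nd 207 (.lf 202 1 2) (.lf 199 1 2) (.nd 207 (.nd 203 (.lf 190 2 4) (.lf 188 2 4) (.nd 203 (.lf 202 1 2) (.lf 197 2 4) (.lf 203 1 2))) (.nd 207 (.lf 207 1 2) (.nd 207 (.lf 201 2 4) (.lf 190 2 4) (.lf 207 1 2)) (.lf 168 2 4)) (.lf 202 1 2))) (.nd 209 (.nd 209 (.nd 209 (.nd 209 (.lf 190 2 4) (.lf 209 2 4) (.lf 209 1 2)) (.lf 204 1 2) (.nd 202 (.lf 201 1 2) (.lf 193 1 2) (.lf 202 2 4))) (.nd 199 (.lf 199 1 2) (.lf 165 2 4) (.nd 199 (.lf 190 2 4) (.lf 192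 1 2) (.lf 199 1 2))) (.lf 199 1 2)) (.lf 174 1 2) (.lf 188 1 2))) (.nd 221 (.nd 221 (.lf 195 2 4) (.lf 192 2 4) (.nd 221 (.nd 212 (.lf 212 2 4) (.lf 204 2 4) (.nd 212 (.lf 212 2 4) (.lf 187 2 4) (.lf 205 2 4))) (.nd 221 (.lf 216 2 4) (.lf 199 2 4) (.nd 221 (.lf 221 2 4) (.lf 196 2 4) (.lf 197 2 4))) (.nd 213 (.nd 213 (.lf 213 2 4) (.lf 207 1 2) (.lf 205 1 2)) (.lf 212 2 4) (.nd 204 (.lf 190 2 4) (.lf 190 2 4) (.lf 204 1 2))))) (.nd 193 (.lf 164 2 4) (.lf 188 2 4) (.nd 193 (.lf 193 2 4) (.lf 176 2 4) (.lf 185 2 4))) (.nd 215 (.nd 215 (.lf 215 2 4) (.nd 191 (.lf 185 2 4) (.lf 191 2 4) (.lf 165 2 4)) (.lf 213 2 4)) (.nd 207 (.nd 207 (.lf 188 2 4) (.lf 207 2 4) (.lf 189 2 4)) (.nd 188 (.nd 188 (.lf 177 1 2) (.lf 178 1 2) (.nd 188 (.lf 186 1 2) (.lf 164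 2 4) (.lf 188 2 4))) (.lf 181 2 4) (.lf 186 2 4)) (.nd 196 (.nd 196 (.lf 190 2 4) (.lf 196 1 2) (.lf 195 1 2)) (.lf 188 1 2) (.nd 188 (.lf 188 1 2) (.lf 188 2 4) (.lf 152 1 2)))) (.nd 214 (.nd 211 (.lf 211 2 4) (.nd 188 (.lf 185 2 4) (.lf 188 1 2) (.nd 188 (.lf 179 1 2) (.lf 188 2 4) (.lf 161 2 4))) (.lf 202 2 4)) (.nd 214 (.nd 198 (.lf 198 1 2) (.lf 174 1 2) (.lf 170 1 2)) (.lf 214 1 2) (.lf 192 1 2)) (.nd 208 (.lf 178 1 2) (.nd 200 (.lf 180 1 2) (.lf 200 2 4) (.lf 177 1 2)) (.nd 208 (.lf 201 1 2) (.lf 208 2 4) (.lf 187 2 4))))))) (.nd 212 (.nd 193 (.nd 186 (.nd 176 (.lf 167 2 4) (.lf 166 2 4) (.lf 176 1 2)) (.lf 186 1 2) (.nd 181 (.lf 172 3 4) (.lf 181 1 2) (.lf 171 3 4))) (.nd 193 (.nd 182 (.lf 168 3 4) (.lf 156 1 2) (.nd 182 (.lf 182 3 4) (.lf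 155 1 2) (.lf 158 1 2))) (.nd 193 (.lf 146 3 4) (.lf 193 3 4) (.nd 192 (.lf 183 3 4) (.lf 168 3 4) (.lf 192 1 2))) (.nd 192 (.nd 192 (.lf 185 1 2) (.lf 192 1 2) (.nd 189 (.lf 189 3 4) (.lf 184 1 2) (.nd 185 (.lf 161 3 4) (.lf 185 1 2) (.lf 175 3 4)))) (.lf 178 1 2) (.lf 176 1 2))) (.nd 193 (.nd 187 (.nd 187 (.nd 184 (.lf 184 2 4) (.nd 180 (.lf 180 1 2) (.lf 156 2 4) (.lf 170 2 4)) (.lf 179 1 2)) (.lf 187 1 2) (.lf 180 1 2)) (.lf 171 1 2) (.lf 173 1 2)) (.lf 193 2 4) (.lf 192 2 4))) (.nd 212 (.nd 205 (.lf 182 1 2) (.nd 205 (.lf 184 1 2) (.nd 205 (.lf 188 3 4) (.nd 205 (.lf 201 3 4) (.lf 187 1 2) (.lf 205 1 2)) (.lf 193 3 4)) (.lf 181 1 2)) (.lf 194 3 4)) (.nd 212 (.lf 172 3 4) (.nd 212 (.lf 174 3 4) (.nd 212 (.nd 212 (.lf 194 3 4) (.lf 191 3 4) (.nd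 212 (.lf 195 3 4) (.lf 212 2 4) (.lf 193 3 4))) (.lf 200 3 4) (.lf 200 3 4)) (.lf 171 3 4)) (.nd 202 (.nd 200 (.lf 198 3 4) (.lf 200 3 4) (.lf 193 1 2)) (.nd 202 (.lf 186 3 4) (.lf 202 1 2) (.lf 185 3 4)) (.lf 194 3 4))) (.nd 212 (.lf 202 1 2) (.nd 212 (.lf 212 1 2) (.nd 211 (.nd 211 (.lf 187 3 4) (.lf 211 1 2) (.lf 201 3 4)) (.lf 209 1 2) (.lf 210 1 2)) (.nd 201 (.lf 200 1 2) (.lf 197 1 2) (.nd 201 (.lf 191 3 4) (.lf 187 3 4) (.lf 201 1 2)))) (.lf 194 1 2))) (.nd 210 (.nd 200 (.lf 187 2 4) (.nd 200 (.lf 176 1 2) (.nd 200 (.lf 188 2 4) (.nd 200 (.lf 200 1 2) (.lf 182 1 2) (.lf 196 2 4)) (.lf 183 2 4)) (.lf 179 1 2)) (.lf 177 1 2)) (.nd 210 (.lf 197 1 2) (.lf 199 1 2) (.nd 210 (.lf 206 1 2) (.nd 210 (.lf 205 1 2) (.lf 210 2 4) (.nd 206 (.lf 206 1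 2) (.lf 182 2 4) (.lf 196 2 4))) (.nd 209 (.lf 193 1 2) (.lf 198 1 2) (.nd 209 (.lf 206 1 2) (.nd 209 (.lf 207 1 2) (.lf 207 1 2) (.nd 209 (.lf 206 2 4) (.lf 203 3 4) (.lf 209 2 4))) (.lf 207 1 2))))) (.nd 210 (.nd 204 (.nd 195 (.lf 188 1 2) (.lf 195 2 4) (.lf 193 2 4)) (.lf 189 2 4) (.lf 204 2 4)) (.nd 210 (.lf 166 2 4) (.nd 210 (.lf 195 2 4) (.lf 195 2 4) (.nd 210 (.lf 186 2 4) (.lf 189 2 4) (.lf 210 1 2))) (.lf 169 2 4)) (.lf 167 2 4)))))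

def t15_601 : Tr := (.nd 269 (.nd 268 (.nd 259 (.nd 230 (.lf 179 1 3) (.lf 230 1 3) (.nd 205 (.lf 176 1 3) (.lf 205 1 3) (.nd 181 (.lf 181 1 3) (.lf 153 1 3) (.lf 150 1 3)))) (.nd 228 (.lf 228 1 3) (.nd 204 (.lf 204 1 3) (.nd 176 (.lf 134 1 3) (.lf 176 1 3) (.lf 166 1 3)) (.lf 182 1 3)) (.lf 207 1 3)) (.nd 259 (.lf 259 1 3) (.lf 237 1 3) (.nd 238 (.lf 224 1 3) (.nd 238 (.nd 237 (.lf 237 1 3) (.nd 215 (.lf 179 1 3) (.lf 215 1 3) (.lf 204 1 3)) (.lf 209 1 3)) (.nd 238 (.lf 224 1 3) (.nd 219 (.lf 219 1 3) (.lf 198 1 3) (.lf 201 1 3)) (.lf 238 1 3)) (.lf 238 1 3)) (.lf 208 1 3)))) (.nd 260 (.lf 260 1 3) (.lf 208 1 3) (.nd 255 (.nd 207 (.nd 207 (.lf 207 1 3) (.nd 185 (.lf 152 1 3) (.lf 164 1 3) (.lf 185 1 3)) (.lf 182 1 3)) (.lf 177 1 3) (.lf 174 1 3))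 (.lf 210 1 3) (.lf 255 1 3))) (.lf 268 1 3)) (.nd 269 (.nd 254 (.nd 223 (.lf 199 1 3) (.nd 223 (.lf 205 1 3) (.nd 208 (.nd 193 (.lf 164 1 3) (.lf 162 1 3) (.lf 193 1 3)) (.lf 194 1 3) (.lf 208 1 3)) (.nd 223 (.nd 212 (.lf 207 1 3) (.lf 212 1 3) (.lf 193 1 3)) (.lf 223 1 3) (.lf 215 1 3))) (.nd 199 (.lf 188 1 3) (.lf 145 1 3) (.lf 199 1 3))) (.nd 225 (.lf 174 1 3) (.nd 204 (.lf 176 1 3) (.lf 204 1 3) (.lf 171 1 3)) (.nd 225 (.nd 225 (.lf 225 1 3) (.lf 204 1 3) (.lf 205 1 3)) (.lf 214 1 3) (.lf 199 1 3))) (.nd 254 (.nd 232 (.lf 221 1 3) (.nd 232 (.lf 232 1 3) (.lf 222 1 3) (.lf 218 1 3)) (.lf 218 1 3)) (.nd 254 (.nd 254 (.lf 235 1 3) (.lf 254 1 3) (.nd 232 (.nd 231 (.lf 228 1 3) (.lf 231 1 3) (.lf 227 1 3)) (.lf 221 1 3) (.lf 232 1 3))) (.lf 231 1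 3) (.lf 239 1 3)) (.lf 239 1 3))) (.nd 269 (.lf 269 1 3) (.nd 257 (.nd 236 (.nd 223 (.lf 204 1 3) (.lf 223 1 3) (.lf 203 1 3)) (.lf 236 1 3) (.lf 226 1 3)) (.nd 246 (.nd 230 (.lf 230 1 3) (.lf 178 1 3) (.nd 225 (.lf 177 1 3) (.lf 180 1 3) (.lf 225 1 3))) (.lf 246 1 3) (.lf 214 1 3)) (.lf 257 1 3)) (.lf 263 1 3)) (.nd 255 (.lf 203 1 3) (.lf 255 1 3) (.nd 250 (.nd 205 (.nd 205 (.nd 192 (.lf 175 1 3) (.lf 192 1 3) (.lf 189 1 3)) (.lf 205 1 3) (.lf 199 1 3)) (.lf 176 1 3) (.lf 176 1 3)) (.lf 202 1 3) (.nd 250 (.lf 231 1 3) (.nd 231 (.nd 226 (.lf 212 1 3) (.nd 226 (.lf 213 1 3) (.lf 222 1 3) (.lf 226 1 3)) (.lf 220 1 3)) (.lf 208 1 3) (.nd 231 (.lf 231 1 3) (.lf 206 1 3) (.lf 207 1 3))) (.lf 250 1 3))))) (.nd 250 (.nd 250 (.lf 250 1 3) (.lf 233 1 3) (.nd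 234 (.lf 234 1 3) (.lf 182 1 3) (.nd 229 (.lf 184 1 3) (.lf 229 1 3) (.nd 181 (.lf 148 1 3) (.lf 181 1 3) (.lf 151 1 3))))) (.nd 250 (.lf 228 1 3) (.lf 250 1 3) (.nd 228 (.lf 177 1 3) (.lf 228 1 3) (.nd 224 (.nd 176 (.lf 143 1 3) (.lf 146 1 3) (.lf 176 1 3)) (.lf 224 1 3) (.nd 179 (.lf 150 1 3) (.lf 179 1 3) (.lf 150 1 3))))) (.lf 233 1 3)))

def t15_602 : Tr := (.nd 258 (.nd 228 (.lf 176 1 4) (.nd 223 (.nd 223 (.nd 223 (.lf 198 1 4) (.lf 195 1 4) (.nd 223 (.lf 223 1 4) (.lf 197 1 4) (.lf 199 1 4))) (.lf 204 1 4) (.nd 204 (.lf 192 1 4) (.nd 195 (.nd 195 (.nd 195 (.lf 164 1 4) (.lf 161 1 4) (.lf 195 1 4)) (.lf 184 1 4) (.lf 183 1 4)) (.lf 188 1 4) (.lf 170 1 4)) (.lf 204 1 4))) (.nd 175 (.lf 142 1 4) (.nd 175 (.lf 153 1 4) (.lf 150 1 4) (.nd 175 (.lf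 150 1 4) (.lf 175 1 4) (.lf 172 1 4))) (.lf 145 1 4)) (.lf 178 1 4)) (.nd 228 (.nd 198 (.lf 174 1 4) (.lf 198 1 4) (.nd 196 (.lf 186 1 4) (.nd 189 (.lf 172 1 4) (.lf 188 1 4) (.lf 189 1 4)) (.nd 196 (.lf 175 1 4) (.lf 172 1 4) (.lf 196 1 4)))) (.lf 228 1 4) (.nd 213 (.lf 189 1 4) (.nd 190 (.lf 171 1 4) (.lf 172 1 4) (.lf 190 1 4)) (.lf 213 1 4)))) (.nd 258 (.nd 258 (.nd 255 (.lf 242 1 4) (.lf 255 1 4) (.lf 216 1 4)) (.nd 258 (.lf 244 1 4) (.lf 258 1 4) (.lf 234 1 4)) (.lf 233 1 4)) (.lf 233 1 4) (.lf 236 1 4)) (.nd 225 (.nd 188 (.nd 188 (.lf 175 1 4) (.lf 188 1 4) (.lf 181 1 4)) (.lf 172 1 4) (.nd 175 (.lf 175 1 4) (.lf 133 1 4) (.lf 161 1 4))) (.lf 225 1 4) (.nd 196 (.lf 147 1 4) (.lf 196 1 4) (.nd 173 (.lf 149 1 4) (.lf 144 1 4) (.lf 173 1 4)))))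

def t15_604 : Tr := (.nd 71 (.nd 71 (.nd 52 (.lf 48 1 1) (.lf 52 1 1) (.lf 38 1 1)) (.nd 62 (.lf 62 1 1) (.lf 40 1 1) (.lf 54 1 1)) (.nd 71 (.lf 50 1 1) (.nd 49 (.lf 35 1 1) (.lf 49 1 1) (.lf 33 1 1)) (.lf 71 1 1))) (.nd 42 (.lf 13 1 1) (.nd 42 (.nd 33 (.lf 4 1 1) (.lf 31 1 1) (.lf 33 1 1)) (.nd 42 (.lf 42 1 1) (.lf 18 1 1) (.lf 23 1 1)) (.lf 37 1 1)) (.nd 42 (.nd 42 (.lf 8 1 1) (.lf 30 1 1) (.lf 42 1 1)) (.lf 11 1 1) (.lf 0 1 1))) (.nd 65 (.lf 65 1 1) (.nd 14 (.lf 0 1 1) (.nd 14 (.lf 4 1 1) (.lf 0 1 1) (.lf 14 1 1)) (.lf 7 1 1)) (.nd 43 (.lf 11 1 1) (.lf 16 1 1) (.lf 43 1 1))))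

def t15_605 : Tr := (.nd 152 (.nd 121 (.nd 121 (.lf 121 2 2) (.nd 99 (.lf 66 2 2) (.lf 78 2 2) (.lf 99 2 2)) (.nd 96 (.lf 91 2 2) (.lf 80 2 2) (.lf 96 2 2))) (.nd 91 (.nd 91 (.lf 91 2 2) (.lf 61 2 2) (.nd 76 (.lf 52 2 2) (.lf 76 2 2) (.lf 53 2 2))) (.nd 86 (.lf 86 2 2) (.lf 41 2 2) (.lf 38 2 2)) (.nd 39 (.nd 34 (.lf 0 2 2) (.lf 10 2 2) (.lf 34 2 2)) (.lf 39 2 2) (.lf 10 2 2))) (.nd 88 (.nd 51 (.lf 51 2 2) (.nd 38 (.nd 38 (.lf 26 2 2) (.nd 38 (.lf 14 2 2) (.lf 38 2 2) (.lf 17 2 2)) (.lf 4 2 2)) (.lf 24 2 2) (.lf 0 2 2)) (.lf 35 2 2)) (.nd 59 (.nd 59 (.lf 59 2 2) (.nd 50 (.lf 50 2 2) (.lf 35 2 2) (.lf 22 2 2)) (.lf 35 2 2)) (.lf 10 2 2) (.lf 36 2 2)) (.nd 88 (.nd 68 (.lf 57 2 2) (.nd 68 (.lf 54 2 2) (.lf 68 2 2) (.lf 58 2 2)) (.lf 54 2 2)) (.nd 88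 (.lf 67 2 2) (.nd 75 (.lf 75 2 2) (.lf 75 2 2) (.lf 52 2 2)) (.lf 88 2 2)) (.nd 75 (.lf 55 2 2) (.lf 60 2 2) (.lf 75 2 2))))) (.nd 124 (.lf 95 2 2) (.nd 124 (.lf 124 2 2) (.lf 112 2 2) (.nd 118 (.lf 118 1 2) (.lf 108 2 2) (.lf 118 2 2))) (.nd 95 (.nd 65 (.lf 13 2 2) (.lf 65 2 2) (.nd 60 (.lf 60 2 2) (.lf 15 2 2) (.lf 12 2 2))) (.nd 64 (.nd 33 (.lf 12 2 2) (.lf 9 2 2) (.lf 33 2 2)) (.lf 35 2 2) (.lf 64 2 2)) (.lf 95 2 2))) (.nd 152 (.nd 135 (.nd 135 (.nd 135 (.lf 119 1 2) (.nd 135 (.lf 126 2 2) (.lf 115 1 2) (.lf 135 2 2)) (.lf 90 1 2)) (.nd 132 (.nd 132 (.lf 116 1 2) (.lf 130 1 2) (.lf 132 2 2)) (.lf 116 2 2) (.lf 128 1 2)) (.nd 118 (.lf 118 1 2) (.lf 89 1 2) (.nd 118 (.lf 113 1 2) (.lf 109 1 2) (.nd 118 (.lf 94 1 2) (.lf 99 1 2) (.lf 118 1 2)))))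 (.nd 134 (.lf 134 2 2) (.lf 116 2 2) (.nd 134 (.lf 130 2 2) (.lf 129 2 2) (.nd 134 (.lf 107 2 2) (.nd 134 (.nd 133 (.lf 110 1 2) (.lf 131 1 2) (.nd 133 (.lf 120 1 2) (.lf 128 1 2) (.lf 133 2 2))) (.lf 134 2 2) (.nd 130 (.lf 109 2 2) (.lf 111 1 2) (.lf 130 2 2))) (.lf 110 2 2)))) (.nd 133 (.lf 133 2 2) (.nd 132 (.lf 118 1 2) (.nd 132 (.lf 127 2 2) (.lf 128 2 2) (.lf 132 1 2)) (.lf 121 1 2)) (.nd 109 (.lf 85 2 2) (.nd 79 (.nd 79 (.nd 79 (.lf 79 2 2) (.lf 73 1 2) (.lf 59 1 2)) (.lf 71 1 2) (.lf 69 2 2)) (.nd 78 (.lf 62 1 2) (.lf 50 1 2) (.nd 78 (.lf 78 2 2) (.lf 58 1 2) (.lf 73 1 2))) (.lf 61 1 2)) (.lf 109 2 2)))) (.nd 152 (.lf 141 2 2) (.nd 152 (.nd 152 (.lf 152 2 2) (.nd 140 (.lf 140 2 2) (.lf 120 1 2) (.lf 132 1 2)) (.lf 150 1 2)) (.lf 145 1 2)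 (.lf 142 1 2)) (.lf 145 2 2)) (.nd 150 (.nd 145 (.lf 139 2 2) (.lf 145 2 2) (.lf 137 2 2)) (.nd 150 (.lf 125 2 2) (.lf 150 2 2) (.lf 126 2 2)) (.lf 128 2 2))))

def t15_607 : Tr := (.nd 170 (.nd 170 (.nd 170 (.lf 165 4 1) (.nd 170 (.lf 137 3 1) (.nd 140 (.nd 117 (.lf 90 3 1) (.nd 117 (.nd 117 (.nd 117 (.lf 117 4 1) (.lf 109 3 1) (.lf 111 3 1)) (.lf 91 4 1) (.lf 88 4 1)) (.lf 89 4 1) (.lf 116 3 1)) (.lf 87 3 1)) (.lf 140 3 1) (.lf 88 3 1)) (.lf 170 3 1)) (.nd 155 (.lf 136 4 1) (.lf 148 4 1) (.nd 155 (.nd 149 (.nd 138 (.lf 109 4 1) (.lf 101 4 1) (.lf 138 4 1)) (.lf 149 4 1) (.lf 110 4 1)) (.lf 155 4 1) (.nd 145 (.lf 145 4 1) (.lf 106 4 1) (.nd 122 (.lf 68 4 1) (.lf 97 4 1) (.lf 122 4 1)))))) (.nd 154 (.nd 154 (.lf 154 4 1) (.lf 153 4 1) (.nd 130 (.lf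 130 4 1) (.lf 126 3 1) (.lf 80 4 1))) (.nd 136 (.nd 128 (.lf 126 4 1) (.nd 128 (.lf 111 3 1) (.nd 128 (.lf 84 4 1) (.lf 127 3 1) (.lf 128 3 1)) (.lf 125 3 1)) (.lf 123 3 1)) (.lf 136 3 1) (.lf 113 3 1)) (.nd 140 (.nd 85 (.nd 80 (.nd 80 (.lf 80 4 1) (.lf 59 3 1) (.lf 56 3 1)) (.lf 52 4 1) (.lf 80 4 1)) (.lf 85 3 1) (.lf 80 4 1)) (.nd 127 (.nd 127 (.lf 123 4 1) (.lf 122 4 1) (.lf 127 3 1)) (.nd 113 (.lf 113 3 1) (.lf 83 3 1) (.lf 80 3 1)) (.lf 116 3 1)) (.lf 140 4 1))) (.nd 154 (.nd 129 (.nd 129 (.lf 114 4 1) (.lf 129 4 1) (.lf 113 4 1)) (.nd 125 (.lf 109 4 1) (.lf 108 4 1) (.lf 125 4 1)) (.lf 118 4 1)) (.nd 154 (.nd 140 (.lf 118 4 1) (.lf 140 4 1) (.lf 88 4 1)) (.lf 154 4 1) (.nd 131 (.lf 99 4 1) (.lf 108 4 1) (.nd 131 (.lf 118 4 1) (.nd 131 (.lf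 116 4 1) (.nd 131 (.lf 120 4 1) (.lf 117 4 1) (.lf 131 4 1)) (.lf 115 4 1)) (.lf 117 4 1)))) (.nd 153 (.nd 153 (.lf 153 4 1) (.lf 151 4 1) (.nd 143 (.lf 143 4 1) (.lf 127 4 1) (.nd 137 (.lf 105 4 1) (.lf 137 4 1) (.lf 94 4 1)))) (.lf 135 4 1) (.nd 119 (.lf 103 4 1) (.lf 103 4 1) (.nd 119 (.lf 119 4 1) (.lf 112 4 1) (.lf 109 3 1)))))) (.nd 149 (.nd 109 (.lf 64 4 1) (.nd 109 (.nd 109 (.lf 91 4 1) (.lf 88 4 1) (.lf 109 3 1)) (.lf 100 4 1) (.lf 93 4 1)) (.nd 86 (.nd 86 (.lf 67 4 1) (.lf 67 4 1) (.lf 86 4 1)) (.lf 41 4 1) (.lf 38 4 1))) (.nd 90 (.nd 90 (.nd 75 (.lf 75 4 1) (.lf 43 4 1) (.lf 60 4 1)) (.lf 68 4 1) (.nd 90 (.lf 70 4 1) (.lf 87 4 1) (.nd 90 (.nd 90 (.lf 90 4 1) (.lf 72 4 1) (.lf 68 4 1)) (.lf 66 4 1) (.lf 76 4 1)))) (.nd 59 (.nd 59 (.lf 44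 4 1) (.lf 59 4 1) (.lf 37 4 1)) (.lf 30 4 1) (.lf 28 4 1)) (.nd 60 (.nd 60 (.lf 60 4 1) (.nd 45 (.lf 21 4 1) (.nd 22 (.lf 3 4 1) (.lf 4 4 1) (.lf 22 4 1)) (.lf 45 4 1)) (.nd 30 (.nd 30 (.lf 30 4 1) (.lf 0 4 1) (.lf 8 4 1)) (.lf 28 4 1) (.lf 6 4 1))) (.lf 8 4 1) (.nd 55 (.lf 10 4 1) (.nd 55 (.lf 36 4 1) (.lf 36 4 1) (.lf 55 4 1)) (.lf 7 4 1)))) (.nd 149 (.lf 137 4 1) (.nd 122 (.lf 97 4 1) (.nd 120 (.lf 105 4 1) (.lf 114 4 1) (.lf 120 4 1)) (.nd 122 (.nd 122 (.lf 122 4 1) (.lf 111 4 1) (.lf 110 4 1)) (.lf 108 4 1) (.nd 106 (.lf 69 4 1) (.lf 76 4 1) (.lf 106 4 1)))) (.lf 149 4 1))) (.nd 118 (.nd 91 (.nd 91 (.lf 64 4 1) (.lf 70 4 1) (.lf 91 4 1)) (.lf 56 4 1) (.nd 54 (.lf 33 4 1) (.lf 54 4 1) (.lf 37 4 1))) (.nd 86 (.nd 81 (.lf 33 4 1) (.nd 36 (.nd 36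 (.lf 30 4 1) (.lf 36 4 1) (.lf 20 4 1)) (.lf 7 4 1) (.lf 7 4 1)) (.nd 81 (.lf 62 4 1) (.nd 81 (.lf 53 4 1) (.nd 81 (.lf 81 4 1) (.lf 55 4 1) (.lf 58 4 1)) (.lf 56 4 1)) (.lf 62 4 1))) (.nd 86 (.lf 56 4 1) (.nd 86 (.lf 62 4 1) (.lf 86 4 1) (.lf 60 4 1)) (.lf 71 4 1)) (.lf 34 4 1)) (.nd 118 (.nd 118 (.nd 96 (.lf 96 4 1) (.lf 91 4 1) (.lf 77 4 1)) (.nd 116 (.lf 78 4 1) (.nd 100 (.lf 74 4 1) (.lf 68 4 1) (.lf 100 4 1)) (.nd 116 (.lf 103 4 1) (.lf 100 4 1) (.nd 116 (.lf 99 4 1) (.lf 106 4 1) (.lf 116 4 1)))) (.nd 118 (.nd 118 (.lf 94 4 1) (.lf 118 4 1) (.lf 103 4 1)) (.lf 93 4 1) (.lf 102 4 1))) (.nd 101 (.nd 101 (.lf 94 4 1) (.nd 101 (.lf 94 4 1) (.lf 101 4 1) (.lf 93 4 1)) (.nd 95 (.lf 81 4 1) (.lf 95 4 1) (.lf 71 4 1))) (.lf 76 4 1) (.lf 86 4 1)) (.lf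 94 4 1))))

def t15_608 : Tr := (.nd 205 (.nd 186 (.nd 186 (.nd 175 (.lf 175 1 2) (.lf 124 1 2) (.nd 170 (.nd 170 (.lf 170 1 2) (.lf 152 1 2) (.lf 152 1 2)) (.lf 123 1 2) (.lf 126 1 2))) (.nd 186 (.nd 177 (.lf 156 1 2) (.nd 177 (.lf 158 1 2) (.lf 167 1 2) (.nd 177 (.lf 160 1 2) (.lf 177 1 2) (.lf 161 1 2))) (.lf 159 1 2)) (.nd 178 (.nd 178 (.lf 167 1 2) (.lf 168 1 2) (.nd 178 (.lf 155 1 2) (.lf 156 1 2) (.lf 178 1 2))) (.nd 158 (.lf 146 1 2) (.lf 135 1 2) (.lf 158 1 2)) (.lf 151 1 2)) (.lf 186 1 2)) (.nd 167 (.lf 136 1 2) (.lf 167 1 2) (.lf 143 1 2))) (.nd 186 (.nd 172 (.nd 172 (.lf 156 1 2) (.nd 172 (.lf 157 1 2) (.lf 156 1 2) (.lf 172 1 2)) (.lf 159 1 2)) (.lf 149 1 2) (.lf 140 1 2)) (.lf 186 1 2) (.nd 181 (.lf 181 1 2) (.lf 159 1 2) (.lf 129 1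 2))) (.lf 164 1 2)) (.nd 186 (.lf 178 1 2) (.lf 186 1 2) (.nd 183 (.lf 174 1 2) (.nd 183 (.lf 166 1 2) (.nd 183 (.lf 166 1 2) (.lf 183 1 2) (.lf 157 1 2)) (.lf 164 1 2)) (.lf 174 1 2))) (.nd 205 (.lf 205 1 2) (.lf 181 1 2) (.nd 184 (.lf 166 1 2) (.nd 184 (.nd 184 (.nd 167 (.lf 150 1 2) (.lf 167 1 2) (.lf 140 1 2)) (.lf 151 1 2) (.lf 184 1 2)) (.lf 169 1 2) (.lf 181 1 2)) (.lf 176 1 2))))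

def t15_610 : Tr := (.nd 226 (.nd 174 (.nd 174 (.lf 174 1 3) (.lf 152 1 3) (.nd 152 (.lf 136 1 3) (.lf 152 1 3) (.lf 138 1 3))) (.lf 143 1 3) (.lf 144 1 3)) (.nd 226 (.nd 210 (.nd 210 (.nd 210 (.nd 181 (.nd 181 (.nd 181 (.lf 159 1 3) (.lf 181 3 5) (.lf 174 1 3)) (.lf 134 1 3) (.lf 150 1 3)) (.lf 162 3 5) (.lf 162 1 3)) (.lf 210 1 3) (.lf 190 3 5)) (.nd 191 (.lf 169 1 3) (.nd 187 (.lf 185 1 3) (.nd 187 (.lf 187 1 3) (.lf 185 3 5) (.lf 187 1 3)) (.lf 172 1 3)) (.nd 191 (.lf 191 1 3) (.lf 189 1 3) (.lf 173 1 3))) (.nd 198 (.lf 191 3 5) (.lf 198 1 3) (.lf 196 1 3))) (.nd 203 (.lf 167 1 3) (.nd 203 (.lf 203 1 3) (.nd 193 (.lf 189 3 5) (.lf 186 3 5) (.lf 193 1 3)) (.lf 189 1 3)) (.lf 193 1 3)) (.lf 195 1 3)) (.nd 203 (.nd 198 (.lf 190 1 3) (.nd 198 (.nd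 194 (.lf 173 1 3) (.lf 176 1 3) (.lf 194 1 3)) (.lf 198 1 3) (.nd 185 (.lf 175 1 3) (.lf 185 1 3) (.lf 168 1 3))) (.lf 192 1 3)) (.lf 181 1 3) (.nd 203 (.lf 178 1 3) (.lf 182 1 3) (.nd 203 (.nd 203 (.lf 203 1 3) (.lf 189 1 3) (.lf 179 1 3)) (.lf 203 1 3) (.lf 198 1 3)))) (.nd 226 (.nd 226 (.nd 208 (.lf 206 3 5) (.lf 193 1 3) (.lf 208 1 3)) (.lf 226 1 3) (.lf 226 1 3)) (.nd 201 (.nd 193 (.lf 193 1 3) (.lf 169 1 3) (.lf 148 1 3)) (.lf 201 1 3) (.lf 183 1 3)) (.lf 198 1 3))) (.nd 179 (.lf 179 1 3) (.nd 151 (.nd 122 (.lf 91 1 3) (.lf 92 1 3) (.lf 122 1 3)) (.lf 151 1 3) (.lf 143 1 3)) (.nd 148 (.lf 117 1 3) (.lf 118 1 3) (.nd 148 (.lf 133 1 3) (.nd 126 (.lf 126 1 3) (.lf 109 1 3) (.lf 99 1 3)) (.lf 148 1 3)))))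

def t15_613 : Tr := (.nd 212 (.nd 212 (.nd 211 (.lf 197 1 1) (.nd 199 (.lf 198 2 3) (.nd 199 (.nd 198 (.nd 198 (.lf 189 2 3) (.lf 189 2 3) (.lf 198 1 1)) (.lf 189 1 1) (.lf 188 1 1)) (.lf 196 1 1) (.nd 199 (.nd 199 (.nd 199 (.lf 198 2 3) (.lf 199 1 1) (.lf 195 2 3)) (.nd 177 (.lf 175 2 3) (.lf 176 2 3) (.lf 177 1 1)) (.nd 188 (.lf 164 2 3) (.lf 188 1 1) (.lf 175 1 1))) (.lf 185 2 3) (.lf 173 2 3))) (.lf 195 2 3)) (.nd 211 (.lf 169 1 1) (.lf 211 1 1) (.lf 183 1 1))) (.nd 212 (.lf 194 2 3) (.lf 194 1 1) (.nd 212 (.lf 197 1 1) (.lf 186 1 1) (.nd 212 (.lf 208 2 3) (.nd 212 (.lf 212 2 3) (.lf 199 2 3) (.lf 198 2 3)) (.lf 184 2 3)))) (.nd 211 (.nd 208 (.nd 201 (.lf 193 2 3) (.nd 201 (.lf 165 1 1) (.nd 201 (.lf 201 1 1) (.lf 194 2 3) (.lf 190 1 1)) (.lf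 189 1 1)) (.lf 189 1 1)) (.nd 204 (.nd 201 (.lf 198 2 3) (.nd 200 (.lf 193 1 1) (.lf 200 2 3) (.lf 197 1 1)) (.lf 201 2 3)) (.lf 191 2 3) (.nd 204 (.lf 189 2 3) (.nd 204 (.lf 188 2 3) (.nd 201 (.lf 195 2 3) (.lf 201 2 3) (.lf 200 1 1)) (.lf 204 2 3)) (.lf 164 2 3))) (.nd 208 (.lf 208 1 1) (.lf 201 2 3) (.lf 207 2 3))) (.nd 211 (.nd 211 (.lf 211 1 1) (.nd 211 (.lf 195 1 1) (.lf 209 2 3) (.lf 211 1 1)) (.lf 202 1 1)) (.lf 207 2 3) (.nd 211 (.lf 198 2 3) (.lf 199 1 1) (.nd 211 (.nd 211 (.nd 211 (.lf 208 1 1) (.lf 207 2 3) (.lf 211 1 1)) (.lf 208 1 1) (.lf 206 1 1)) (.lf 197 1 1) (.lf 210 1 1)))) (.nd 211 (.lf 193 1 1) (.nd 211 (.lf 204 1 1) (.nd 198 (.lf 198 1 1) (.lf 168 1 1) (.lf 195 2 3)) (.lf 211 1 1)) (.nd 211 (.nd 211 (.lf 185 1 1) (.nd 211 (.lf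 187 2 3) (.lf 202 1 1) (.lf 211 2 3)) (.lf 192 1 1)) (.lf 201 1 1) (.lf 195 1 1))))) (.nd 211 (.nd 211 (.nd 208 (.lf 191 1 1) (.lf 201 1 1) (.nd 208 (.nd 205 (.lf 168 2 3) (.lf 196 2 3) (.nd 205 (.lf 205 1 1) (.lf 190 2 3) (.nd 196 (.lf 195 1 1) (.lf 189 2 3) (.lf 196 2 3)))) (.nd 208 (.lf 173 1 1) (.lf 208 2 3) (.lf 196 2 3)) (.lf 196 2 3))) (.nd 202 (.nd 202 (.lf 199 1 1) (.lf 199 2 3) (.lf 202 1 1)) (.lf 191 1 1) (.lf 197 1 1)) (.nd 211 (.nd 210 (.nd 206 (.lf 203 1 1) (.lf 202 1 1) (.lf 206 1 1)) (.nd 210 (.nd 210 (.lf 172 2 3) (.nd 210 (.lf 210 2 3) (.lf 201 2 3) (.lf 201 2 3)) (.lf 175 2 3)) (.lf 173 2 3) (.lf 195 1 1)) (.nd 208 (.lf 193 2 3) (.lf 195 2 3) (.nd 208 (.lf 202 1 1) (.nd 208 (.lf 201 2 3) (.lf 198 1 1) (.nd 208 (.lf 202 2 3) (.lf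 205 2 3) (.lf 208 1 1))) (.lf 200 1 1)))) (.nd 206 (.nd 199 (.lf 189 1 1) (.lf 187 1 1) (.lf 199 2 3)) (.lf 199 1 1) (.nd 206 (.lf 203 1 1) (.lf 204 1 1) (.nd 206 (.lf 197 2 3) (.lf 206 1 1) (.lf 190 2 3)))) (.nd 211 (.lf 211 1 1) (.lf 191 1 1) (.lf 200 1 1)))) (.nd 195 (.nd 195 (.nd 181 (.lf 159 1 1) (.lf 168 1 1) (.nd 181 (.lf 181 1 1) (.lf 175 1 1) (.nd 180 (.lf 171 2 3) (.lf 167 2 3) (.lf 180 1 1)))) (.nd 195 (.nd 195 (.lf 189 1 1) (.nd 188 (.nd 181 (.lf 153 2 3) (.lf 181 1 1) (.lf 178 2 3)) (.lf 181 1 1) (.lf 188 1 1)) (.nd 195 (.lf 181 1 1) (.lf 195 1 1) (.lf 185 1 1))) (.lf 179 1 1) (.lf 176 1 1)) (.lf 175 1 1)) (.nd 180 (.lf 157 1 1) (.lf 154 1 1) (.nd 180 (.nd 176 (.nd 176 (.lf 166 1 1) (.lf 147 1 1) (.nd 176 (.lf 169 1 1) (.lf 169 1 1)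 (.lf 176 2 3))) (.lf 174 1 1) (.lf 171 1 1)) (.lf 180 1 1) (.lf 170 2 3))) (.lf 155 1 1)) (.nd 177 (.nd 177 (.nd 170 (.lf 169 2 3) (.lf 141 2 3) (.lf 170 1 1)) (.lf 171 2 3) (.nd 177 (.lf 176 1 1) (.nd 177 (.nd 177 (.lf 163 1 1) (.lf 162 1 1) (.lf 177 2 3)) (.nd 174 (.lf 167 2 3) (.lf 137 2 3) (.nd 174 (.lf 159 2 3) (.lf 174 2 3) (.nd 165 (.lf 165 1 1) (.lf 158 2 3) (.lf 163 1 1)))) (.lf 167 2 3)) (.lf 177 1 1))) (.lf 175 1 1) (.lf 167 1 1))) (.nd 211 (.nd 197 (.lf 197 1 1) (.lf 181 1 1) (.nd 180 (.nd 180 (.lf 165 1 1) (.lf 158 1 1) (.nd 180 (.nd 180 (.lf 158 1 1) (.lf 161 1 1) (.lf 180 1 1)) (.lf 157 1 1) (.lf 165 1 1))) (.lf 149 1 1) (.lf 143 1 1))) (.nd 187 (.lf 177 1 1) (.lf 187 1 1) (.nd 174 (.lf 155 1 1) (.lf 154 1 1) (.lf 174 1 1))) (.nd 211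 (.lf 208 1 1) (.nd 206 (.nd 206 (.lf 192 1 1) (.nd 206 (.nd 206 (.lf 190 2 3) (.nd 206 (.lf 206 1 1) (.lf 189 2 3) (.lf 192 2 3)) (.lf 202 1 1)) (.lf 198 1 1) (.lf 200 1 1)) (.lf 206 1 1)) (.lf 172 1 1) (.lf 198 1 1)) (.nd 211 (.nd 207 (.lf 203 1 1) (.lf 196 1 1) (.nd 207 (.nd 207 (.nd 205 (.lf 183 1 1) (.lf 205 2 3) (.lf 199 1 1)) (.lf 207 1 1) (.lf 185 2 3)) (.lf 200 1 1) (.lf 190 1 1))) (.lf 206 1 1) (.nd 211 (.lf 208 1 1) (.nd 208 (.lf 208 1 1) (.nd 208 (.nd 208 (.nd 208 (.lf 206 2 3) (.lf 208 1 1) (.lf 207 2 3)) (.lf 204 1 1) (.lf 206 1 1)) (.lf 189 1 1) (.lf 187 1 1)) (.lf 178 1 1)) (.nd 211 (.nd 210 (.lf 191 1 1) (.lf 187 1 1) (.lf 210 2 3)) (.nd 211 (.nd 211 (.lf 210 1 1) (.nd 211 (.lf 206 2 3) (.lf 211 1 1) (.lf 210 2 3)) (.lf 210 2 3))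 (.lf 186 2 3) (.lf 204 1 1)) (.nd 211 (.lf 209 2 3) (.lf 205 1 1) (.lf 211 1 1))))))))

def t15_614 : Tr := (.nd 178 (.nd 170 (.lf 118 2 2) (.nd 148 (.nd 117 (.nd 84 (.lf 47 2 2) (.lf 55 2 2) (.nd 84 (.nd 84 (.lf 63 2 2) (.nd 71 (.lf 71 2 2) (.lf 71 2 2) (.lf 48 2 2)) (.lf 84 2 2)) (.nd 71 (.lf 71 2 2) (.lf 51 2 2) (.lf 56 2 2)) (.nd 64 (.lf 50 2 2) (.lf 53 2 2) (.nd 64 (.lf 50 2 2) (.lf 64 2 2) (.lf 54 2 2))))) (.lf 117 2 2) (.lf 87 2 2)) (.lf 120 2 2) (.lf 148 2 2)) (.lf 170 2 2)) (.nd 178 (.nd 158 (.nd 153 (.lf 139 2 2) (.nd 139 (.nd 139 (.lf 139 2 2) (.lf 125 2 2) (.lf 110 2 2)) (.lf 88 2 2) (.nd 135 (.lf 135 2 2) (.lf 87 2 2) (.lf 90 2 2))) (.nd 153 (.lf 148 2 2) (.nd 148 (.lf 148 2 2) (.lf 134 2 2) (.lf 111 2 2)) (.lf 153 2 2))) (.nd 158 (.nd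 140 (.lf 93 2 2) (.lf 139 2 2) (.lf 140 2 2)) (.lf 144 2 2) (.lf 158 2 2)) (.nd 141 (.lf 141 2 2) (.lf 127 2 2) (.lf 115 2 2))) (.lf 167 2 2) (.lf 178 2 2)) (.nd 146 (.nd 146 (.nd 129 (.nd 125 (.lf 125 2 2) (.lf 109 2 2) (.lf 108 2 2)) (.nd 113 (.lf 95 2 2) (.lf 100 2 2) (.lf 113 2 2)) (.nd 129 (.nd 114 (.lf 62 2 2) (.lf 102 2 2) (.nd 114 (.lf 84 2 2) (.lf 114 2 2) (.lf 99 2 2))) (.lf 129 2 2) (.nd 113 (.lf 82 2 2) (.lf 113 2 2) (.lf 84 2 2)))) (.nd 146 (.nd 146 (.nd 144 (.lf 116 2 2) (.lf 144 2 2) (.lf 134 2 2)) (.lf 146 2 2) (.lf 144 2 2)) (.nd 116 (.lf 116 2 2) (.lf 104 2 2) (.lf 108 2 2)) (.nd 121 (.lf 111 2 2) (.lf 121 2 2) (.lf 88 2 2))) (.nd 137 (.nd 129 (.nd 129 (.nd 129 (.lf 111 2 2) (.lf 109 2 2) (.lf 129 2 2)) (.lf 105 2 2) (.lf 111 2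 2)) (.lf 111 2 2) (.lf 83 2 2)) (.nd 115 (.nd 115 (.lf 109 2 2) (.nd 115 (.lf 115 2 2) (.lf 103 2 2) (.lf 104 2 2)) (.lf 109 2 2)) (.lf 82 2 2) (.lf 105 2 2)) (.nd 137 (.nd 137 (.nd 119 (.lf 119 2 2) (.lf 106 2 2) (.lf 104 2 2)) (.nd 119 (.lf 84 2 2) (.lf 108 2 2) (.lf 119 2 2)) (.lf 137 2 2)) (.nd 131 (.lf 131 2 2) (.lf 109 2 2) (.lf 118 2 2)) (.nd 126 (.nd 126 (.lf 105 2 2) (.lf 89 2 2) (.lf 126 2 2)) (.lf 100 2 2) (.lf 124 2 2))))) (.nd 140 (.lf 116 2 2) (.lf 89 2 2) (.nd 140 (.nd 140 (.lf 110 2 2) (.lf 140 2 2) (.lf 120 2 2)) (.nd 114 (.nd 109 (.lf 87 2 2) (.lf 57 2 2) (.lf 109 2 2)) (.lf 85 2 2) (.nd 114 (.lf 114 2 2) (.lf 106 2 2) (.lf 97 2 2))) (.nd 129 (.nd 129 (.lf 129 2 2) (.lf 114 2 2) (.lf 107 2 2)) (.lf 101 2 2) (.lf 114 2 2)))) (.nd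 120 (.nd 117 (.lf 87 2 2) (.nd 117 (.nd 105 (.lf 86 2 2) (.nd 79 (.lf 79 2 2) (.lf 51 2 2) (.lf 52 2 2)) (.lf 105 2 2)) (.lf 83 2 2) (.nd 117 (.lf 117 2 2) (.lf 93 2 2) (.lf 96 2 2))) (.nd 60 (.lf 30 2 2) (.lf 60 2 2) (.lf 51 2 2))) (.nd 120 (.lf 120 2 2) (.lf 113 2 2) (.nd 113 (.lf 104 2 2) (.lf 113 2 2) (.nd 84 (.lf 66 2 2) (.lf 84 2 2) (.lf 74 2 2)))) (.lf 86 2 2))))

def t15_616 : Tr := (.nd 139 (.nd 119 (.lf 119 1 1) (.nd 100 (.lf 100 1 1) (.nd 69 (.lf 38 1 1) (.lf 69 1 1) (.lf 40 1 1)) (.lf 70 1 1)) (.nd 119 (.nd 118 (.nd 93 (.lf 42 2 1) (.nd 68 (.lf 44 2 1) (.nd 68 (.lf 68 1 1) (.lf 59 1 1) (.lf 68 2 1)) (.lf 39 2 1)) (.lf 93 2 1)) (.nd 118 (.lf 100 2 1) (.lf 118 1 1) (.lf 107 2 1)) (.lf 91 2 1)) (.nd 119 (.lf 117 1 1) (.nd 119 (.nd 119 (.nd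 108 (.lf 94 1 1) (.lf 107 2 1) (.lf 108 2 1)) (.lf 119 1 1) (.lf 112 1 1)) (.lf 109 1 1) (.lf 106 2 1)) (.lf 118 1 1)) (.nd 118 (.nd 108 (.lf 108 2 1) (.lf 94 1 1) (.nd 66 (.lf 63 1 1) (.nd 66 (.lf 63 2 1) (.nd 66 (.lf 52 2 1) (.lf 59 1 1) (.nd 66 (.lf 44 2 1) (.lf 39 2 1) (.lf 66 1 1))) (.lf 43 2 1)) (.lf 62 1 1))) (.lf 118 2 1) (.lf 71 2 1)))) (.nd 114 (.nd 96 (.nd 44 (.lf 15 1 1) (.lf 44 1 1) (.nd 39 (.nd 39 (.lf 24 1 1) (.nd 39 (.lf 39 1 1) (.lf 15 1 1) (.lf 8 1 1)) (.lf 9 1 1)) (.lf 15 1 1) (.lf 0 1 1))) (.nd 91 (.lf 91 1 1) (.lf 43 1 1) (.lf 46 1 1)) (.lf 96 1 1)) (.nd 114 (.nd 114 (.nd 114 (.nd 114 (.lf 108 1 1) (.nd 114 (.lf 109 1 1) (.lf 109 1 1) (.nd 114 (.nd 113 (.lf 113 2 1) (.lf 113 1 1) (.lf 111 1 1)) (.lf 113 1 1) (.lf 114 1 1))) (.lf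 104 1 1)) (.lf 84 1 1) (.lf 110 1 1)) (.nd 114 (.nd 114 (.lf 108 1 1) (.lf 104 1 1) (.nd 114 (.lf 104 1 1) (.lf 105 1 1) (.lf 114 2 1))) (.lf 102 1 1) (.lf 112 1 1)) (.lf 106 1 1)) (.lf 111 1 1) (.lf 104 1 1)) (.nd 95 (.lf 64 1 1) (.nd 95 (.nd 73 (.lf 73 1 1) (.lf 62 1 1) (.lf 59 1 1)) (.nd 80 (.lf 65 1 1) (.lf 60 1 1) (.lf 80 1 1)) (.lf 95 1 1)) (.nd 66 (.lf 15 1 1) (.lf 66 1 1) (.nd 60 (.lf 12 1 1) (.lf 60 1 1) (.lf 17 1 1))))) (.nd 139 (.nd 139 (.nd 134 (.lf 124 1 1) (.nd 134 (.nd 134 (.lf 128 1 1) (.nd 132 (.lf 126 1 1) (.lf 132 2 1) (.lf 125 2 1)) (.nd 134 (.lf 133 1 1) (.lf 128 1 1) (.nd 134 (.lf 134 1 1) (.lf 133 1 1) (.lf 116 2 1)))) (.lf 133 1 1) (.lf 121 1 1)) (.lf 110 1 1)) (.nd 139 (.nd 139 (.nd 134 (.nd 115 (.lf 114 2 1) (.lf 90 2 1)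 (.lf 115 1 1)) (.lf 125 1 1) (.nd 134 (.nd 134 (.lf 115 1 1) (.lf 133 2 1) (.nd 134 (.lf 115 1 1) (.lf 110 1 1) (.lf 134 2 1))) (.nd 130 (.nd 130 (.lf 125 2 1) (.lf 130 1 1) (.lf 124 2 1)) (.lf 127 1 1) (.lf 128 1 1)) (.nd 124 (.lf 124 2 1) (.lf 116 1 1) (.lf 118 2 1)))) (.nd 139 (.nd 139 (.lf 139 1 1) (.lf 139 2 1) (.lf 139 1 1)) (.lf 139 1 1) (.nd 138 (.lf 138 1 1) (.lf 135 2 1) (.lf 136 2 1))) (.nd 139 (.nd 139 (.lf 137 2 1) (.nd 135 (.nd 135 (.lf 133 1 1) (.lf 131 2 1) (.lf 135 2 1)) (.lf 129 2 1) (.lf 128 2 1)) (.lf 139 1 1)) (.lf 139 1 1) (.lf 115 2 1))) (.lf 130 2 1) (.nd 124 (.lf 98 1 1) (.lf 123 2 1) (.lf 124 2 1))) (.nd 138 (.nd 118 (.lf 118 2 1) (.lf 95 1 1) (.lf 110 2 1)) (.lf 132 2 1) (.nd 138 (.lf 138 1 1) (.nd 134 (.lf 134 2 1) (.lf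 120 1 1) (.lf 133 2 1)) (.nd 137 (.nd 137 (.lf 137 1 1) (.nd 127 (.lf 113 2 1) (.lf 122 1 1) (.lf 127 2 1)) (.lf 134 2 1)) (.lf 127 1 1) (.lf 114 1 1))))) (.nd 125 (.nd 121 (.nd 95 (.lf 70 2 1) (.lf 70 2 1) (.nd 95 (.lf 88 1 1) (.lf 95 1 1) (.lf 66 1 1))) (.nd 96 (.lf 66 2 1) (.lf 96 2 1) (.lf 63 2 1)) (.nd 121 (.nd 119 (.lf 119 2 1) (.lf 106 1 1) (.lf 116 2 1)) (.lf 121 1 1) (.nd 120 (.lf 120 2 1) (.lf 102 2 1) (.nd 101 (.lf 94 1 1) (.lf 100 2 1) (.lf 101 2 1))))) (.lf 97 2 1) (.nd 125 (.nd 92 (.lf 90 1 1) (.lf 89 1 1) (.nd 92 (.lf 89 2 1) (.nd 92 (.lf 85 1 1) (.nd 92 (.lf 65 2 1) (.lf 92 1 1) (.lf 70 2 1)) (.lf 78 2 1)) (.lf 69 2 1))) (.nd 123 (.nd 123 (.lf 123 2 1) (.lf 117 2 1) (.lf 115 1 1)) (.lf 90 1 1) (.lf 110 2 1)) (.nd 125 (.lf 125 2 1)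 (.lf 123 2 1) (.nd 123 (.lf 116 1 1) (.lf 120 1 1) (.nd 123 (.lf 123 2 1) (.lf 119 1 1) (.lf 122 1 1)))))) (.nd 126 (.nd 126 (.nd 126 (.nd 126 (.nd 126 (.nd 126 (.lf 126 2 1) (.lf 119 1 1) (.lf 113 1 1)) (.lf 107 1 1) (.lf 106 1 1)) (.lf 126 2 1) (.lf 115 1 1)) (.lf 125 1 1) (.lf 93 1 1)) (.nd 126 (.lf 105 1 1) (.lf 112 1 1) (.nd 126 (.lf 112 1 1) (.lf 119 1 1) (.lf 126 2 1))) (.lf 126 2 1)) (.nd 117 (.lf 117 2 1) (.nd 96 (.nd 63 (.lf 34 2 1) (.nd 63 (.lf 63 2 1) (.lf 63 1 1) (.lf 63 1 1)) (.lf 39 2 1)) (.lf 39 2 1) (.lf 96 2 1)) (.lf 93 2 1)) (.nd 119 (.lf 68 2 1) (.nd 113 (.lf 113 2 1) (.lf 65 2 1) (.nd 70 (.lf 42 2 1) (.lf 70 2 1) (.lf 39 2 1))) (.lf 119 2 1)))))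

def t15_617 : Tr := (.nd 250 (.nd 250 (.lf 239 2 4) (.lf 250 2 4) (.nd 224 (.lf 224 2 4) (.nd 219 (.lf 219 2 4) (.lf 197 2 4) (.nd 167 (.lf 167 2 4) (.lf 138 2 4) (.lf 162 2 4))) (.lf 195 2 4))) (.lf 249 2 4) (.nd 199 (.nd 192 (.nd 140 (.lf 135 2 4) (.lf 111 2 4) (.lf 140 2 4)) (.nd 168 (.nd 144 (.lf 113 2 4) (.lf 113 2 4) (.nd 144 (.lf 130 2 4) (.lf 144 2 4) (.nd 142 (.lf 142 2 4) (.lf 119 2 4) (.lf 139 2 4)))) (.nd 168 (.lf 168 2 4) (.lf 159 2 4) (.nd 168 (.nd 162 (.lf 162 2 4) (.lf 133 2 4) (.lf 137 2 4)) (.lf 159 2 4) (.lf 168 2 4))) (.nd 139 (.lf 139 2 4) (.lf 109 2 4) (.lf 106 2 4))) (.nd 192 (.lf 177 2 4) (.nd 162 (.lf 162 2 4) (.nd 160 (.lf 160 2 4) (.lf 150 2 4) (.lf 153 2 4)) (.lf 138 2 4)) (.lf 192 2 4))) (.nd 199 (.nd 189 (.nd 166 (.nd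 158 (.lf 135 2 4) (.lf 107 2 4) (.lf 158 2 4)) (.lf 135 2 4) (.lf 166 2 4)) (.nd 188 (.nd 188 (.lf 188 2 4) (.lf 173 2 4) (.lf 158 2 4)) (.lf 136 2 4) (.lf 166 2 4)) (.nd 189 (.lf 189 2 4) (.lf 176 2 4) (.nd 184 (.lf 162 2 4) (.lf 184 2 4) (.lf 175 2 4)))) (.nd 199 (.nd 176 (.lf 141 2 4) (.lf 176 2 4) (.lf 165 2 4)) (.nd 176 (.lf 176 2 4) (.nd 161 (.lf 131 2 4) (.lf 144 2 4) (.lf 161 2 4)) (.lf 163 2 4)) (.lf 199 2 4)) (.nd 180 (.nd 175 (.lf 175 2 4) (.nd 161 (.lf 122 2 4) (.lf 161 2 4) (.lf 130 2 4)) (.lf 162 2 4)) (.lf 180 2 4) (.lf 166 2 4))) (.nd 170 (.nd 142 (.nd 139 (.nd 139 (.nd 139 (.lf 118 2 4) (.lf 139 2 4) (.lf 115 2 4)) (.lf 127 2 4) (.lf 105 2 4)) (.lf 102 2 4) (.lf 109 2 4)) (.nd 142 (.lf 135 2 4) (.lf 142 2 4) (.lf 135 2 4)) (.lf 125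 2 4)) (.nd 170 (.lf 166 2 4) (.lf 149 2 4) (.lf 170 2 4)) (.nd 162 (.nd 140 (.lf 113 2 4) (.lf 108 2 4) (.lf 140 2 4)) (.lf 111 2 4) (.lf 162 2 4)))))

def t15_619 : Tr := (.nd 316 (.nd 316 (.nd 294 (.nd 277 (.lf 277 1 3) (.lf 261 1 3) (.nd 260 (.nd 223 (.lf 180 1 3) (.lf 216 1 3) (.lf 223 1 3)) (.lf 260 1 3) (.nd 229 (.nd 229 (.lf 229 1 3) (.lf 211 1 3) (.lf 214 1 3)) (.lf 201 1 3) (.lf 205 1 3)))) (.nd 267 (.nd 254 (.lf 254 1 3) (.lf 235 1 3) (.nd 234 (.lf 234 1 3) (.lf 203 1 3) (.lf 205 1 3))) (.lf 257 1 3) (.lf 267 1 3)) (.lf 294 1 3)) (.lf 316 1 3) (.lf 301 1 3)) (.nd 285 (.nd 254 (.nd 230 (.nd 208 (.lf 208 1 3) (.lf 200 1 3) (.lf 175 1 3)) (.lf 230 1 3) (.nd 202 (.lf 202 1 3) (.lf 192 1 3) (.lf 160 1 3))) (.nd 221 (.nd 176 (.lf 167 1 3) (.lf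 160 1 3) (.lf 176 1 3)) (.lf 219 1 3) (.nd 221 (.lf 199 1 3) (.nd 221 (.nd 221 (.lf 218 2 5) (.lf 219 1 3) (.lf 221 2 5)) (.lf 209 1 3) (.lf 212 1 3)) (.lf 221 1 3))) (.nd 254 (.nd 236 (.lf 229 1 3) (.nd 228 (.lf 187 1 3) (.lf 206 1 3) (.lf 228 2 5)) (.nd 236 (.lf 236 1 3) (.nd 233 (.lf 210 1 3) (.lf 233 1 3) (.lf 212 1 3)) (.lf 222 1 3))) (.lf 254 1 3) (.nd 239 (.lf 239 1 3) (.lf 239 1 3) (.nd 239 (.lf 239 1 3) (.nd 239 (.nd 223 (.lf 223 2 5) (.lf 194 2 5) (.lf 186 2 5)) (.lf 226 2 5) (.lf 239 1 3)) (.lf 239 1 3))))) (.nd 285 (.lf 285 1 3) (.nd 263 (.nd 252 (.lf 229 1 3) (.lf 216 1 3) (.nd 252 (.lf 242 1 3) (.nd 232 (.nd 215 (.lf 191 1 3) (.lf 215 1 3) (.lf 194 1 3)) (.lf 217 1 3) (.lf 232 1 3)) (.lf 252 1 3))) (.lf 249 1 3) (.lf 263 1 3)) (.nd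 270 (.lf 270 1 3) (.nd 249 (.nd 220 (.lf 211 1 3) (.lf 175 1 3) (.lf 220 1 3)) (.nd 224 (.nd 190 (.lf 172 1 3) (.lf 189 1 3) (.nd 190 (.lf 190 2 5) (.lf 189 1 3) (.lf 189 2 5))) (.lf 194 1 3) (.nd 224 (.nd 212 (.lf 194 1 3) (.lf 212 1 3) (.lf 195 1 3)) (.lf 215 1 3) (.lf 224 1 3))) (.lf 249 2 5)) (.lf 250 1 3))) (.nd 256 (.nd 205 (.lf 176 1 3) (.lf 198 1 3) (.nd 205 (.lf 186 1 3) (.nd 195 (.lf 172 1 3) (.nd 194 (.lf 194 1 3) (.lf 160 1 3) (.lf 172 1 3)) (.lf 195 1 3)) (.nd 205 (.lf 182 1 3) (.lf 182 1 3) (.lf 205 1 3)))) (.lf 256 1 3) (.nd 231 (.lf 207 1 3) (.nd 202 (.lf 171 1 3) (.lf 172 1 3) (.lf 202 1 3)) (.nd 231 (.nd 229 (.nd 221 (.lf 221 1 3) (.lf 195 2 5) (.lf 216 2 5)) (.lf 229 1 3) (.nd 225 (.lf 225 1 3) (.lf 200 1 3) (.lf 219 1 3))) (.lf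 231 1 3) (.lf 231 1 3))))) (.nd 286 (.lf 286 1 3) (.lf 234 1 3) (.nd 281 (.nd 233 (.nd 233 (.nd 208 (.lf 203 1 3) (.lf 192 1 3) (.nd 208 (.nd 208 (.lf 188 1 3) (.lf 208 1 3) (.lf 179 1 3)) (.lf 206 1 3) (.nd 208 (.lf 194 1 3) (.lf 188 1 3) (.lf 208 1 3)))) (.lf 233 1 3) (.lf 211 1 3)) (.lf 203 1 3) (.nd 200 (.lf 171 1 3) (.lf 200 1 3) (.lf 163 1 3))) (.nd 236 (.lf 236 1 3) (.nd 207 (.lf 176 1 3) (.lf 207 1 3) (.lf 177 1 3)) (.nd 207 (.lf 207 1 3) (.lf 181 1 3) (.lf 184 1 3))) (.lf 281 1 3))))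

def t15_622 : Tr := (.nd 203 (.nd 192 (.nd 151 (.lf 151 1 1) (.nd 151 (.lf 145 1 1) (.lf 144 1 1) (.nd 151 (.nd 150 (.lf 126 1 1) (.lf 136 1 1) (.lf 150 1 1)) (.lf 145 1 1) (.lf 151 1 1))) (.nd 146 (.nd 145 (.lf 124 1 1) (.lf 145 1 1) (.lf 123 1 1)) (.nd 146 (.lf 118 1 1) (.lf 146 1 1) (.lf 119 1 1)) (.lf 138 1 1))) (.nd 192 (.nd 167 (.nd 154 (.lf 126 1 1) (.lf 154 1 1) (.lf 123 1 1)) (.nd 167 (.lf 167 1 1) (.lf 152 1 1) (.lf 146 1 1)) (.lf 124 1 1)) (.nd 192 (.lf 192 1 1) (.nd 169 (.lf 156 1 1) (.nd 169 (.lf 150 1 1) (.lf 169 1 1) (.lf 155 1 1)) (.lf 134 1 1)) (.lf 169 1 1)) (.nd 154 (.lf 146 1 1) (.nd 144 (.lf 123 1 1) (.lf 144 1 1) (.lf 120 1 1)) (.lf 154 1 1))) (.nd 173 (.nd 173 (.lf 166 1 1) (.lf 173 1 1) (.nd 173 (.lf 173 1 1) (.nd 144 (.lf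 120 1 1) (.lf 144 1 1) (.lf 142 1 1)) (.nd 165 (.lf 130 1 1) (.lf 165 1 1) (.lf 145 1 1)))) (.nd 171 (.nd 166 (.lf 118 1 1) (.lf 166 1 1) (.lf 121 1 1)) (.nd 119 (.lf 119 1 1) (.lf 90 1 1) (.lf 114 1 1)) (.lf 171 1 1)) (.nd 155 (.nd 131 (.lf 118 1 1) (.lf 115 1 1) (.lf 131 1 1)) (.nd 139 (.nd 139 (.lf 115 1 1) (.lf 139 1 1) (.lf 130 1 1)) (.lf 90 1 1) (.lf 120 1 1)) (.nd 155 (.lf 155 1 1) (.lf 148 1 1) (.nd 155 (.lf 130 1 1) (.nd 146 (.lf 141 1 1) (.lf 146 1 1) (.lf 103 1 1)) (.lf 155 1 1)))))) (.nd 203 (.lf 203 1 1) (.nd 180 (.nd 161 (.lf 147 1 1) (.lf 121 1 1) (.nd 161 (.lf 161 1 1) (.nd 156 (.lf 152 1 1) (.lf 151 1 1) (.lf 156 1 1)) (.lf 146 1 1))) (.nd 170 (.lf 153 1 1) (.lf 149 1 1) (.nd 170 (.lf 153 1 1) (.nd 170 (.lf 154 1 1) (.lf 162 1 1)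 (.nd 170 (.lf 154 1 1) (.lf 167 1 1) (.lf 170 1 1))) (.lf 154 1 1))) (.nd 180 (.lf 168 1 1) (.nd 165 (.lf 140 1 1) (.lf 165 1 1) (.lf 160 1 1)) (.lf 180 1 1))) (.nd 178 (.nd 178 (.lf 178 1 1) (.lf 149 1 1) (.lf 152 1 1)) (.nd 170 (.nd 170 (.nd 170 (.lf 165 1 1) (.lf 165 1 1) (.lf 170 1 1)) (.lf 165 1 1) (.lf 165 1 1)) (.lf 164 1 1) (.nd 148 (.nd 148 (.lf 142 1 1) (.lf 122 1 1) (.nd 148 (.lf 131 1 1) (.nd 148 (.lf 123 1 1) (.lf 148 1 1) (.lf 118 1 1)) (.lf 138 1 1))) (.lf 140 1 1) (.lf 147 1 1))) (.lf 150 1 1))) (.nd 197 (.nd 192 (.nd 185 (.nd 157 (.lf 146 1 1) (.nd 157 (.lf 141 1 1) (.lf 125 1 1) (.nd 157 (.lf 128 1 1) (.lf 144 1 1) (.lf 157 1 1))) (.lf 150 1 1)) (.nd 185 (.nd 156 (.lf 156 1 1) (.lf 142 1 1) (.lf 140 1 1)) (.nd 172 (.lf 120 1 1)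 (.lf 160 1 1) (.nd 172 (.lf 153 1 1) (.lf 142 1 1) (.lf 172 1 1))) (.lf 185 1 1)) (.nd 172 (.lf 136 1 1) (.lf 151 1 1) (.lf 172 1 1))) (.nd 192 (.nd 155 (.nd 155 (.lf 151 1 1) (.lf 144 1 1) (.lf 155 1 1)) (.lf 146 1 1) (.lf 145 1 1)) (.lf 192 1 1) (.lf 182 1 1)) (.nd 181 (.nd 178 (.lf 141 1 1) (.lf 178 1 1) (.nd 169 (.lf 169 1 1) (.lf 143 1 1) (.lf 140 1 1))) (.nd 171 (.lf 171 1 1) (.lf 140 1 1) (.lf 161 1 1)) (.nd 181 (.nd 180 (.nd 180 (.lf 177 1 1) (.lf 180 1 1) (.lf 163 1 1)) (.lf 165 1 1) (.lf 163 1 1)) (.nd 181 (.lf 179 1 1) (.lf 146 1 1) (.lf 181 1 1)) (.nd 181 (.lf 181 1 1) (.lf 178 1 1) (.lf 152 1 1))))) (.nd 197 (.lf 145 1 1) (.nd 197 (.nd 182 (.lf 159 1 1) (.lf 158 1 1) (.lf 182 1 1)) (.nd 197 (.lf 166 1 1) (.lf 197 1 1) (.nd 173 (.lf 165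 1 1) (.lf 169 1 1) (.lf 173 1 1))) (.nd 167 (.lf 143 1 1) (.lf 165 1 1) (.lf 167 1 1))) (.nd 175 (.nd 175 (.lf 164 1 1) (.nd 173 (.lf 173 1 1) (.lf 168 1 1) (.lf 151 1 1)) (.lf 175 1 1)) (.lf 147 1 1) (.lf 144 1 1))) (.nd 175 (.lf 144 1 1) (.nd 167 (.lf 132 1 1) (.nd 167 (.nd 156 (.lf 156 1 1) (.lf 141 1 1) (.lf 128 1 1)) (.lf 141 1 1) (.lf 167 1 1)) (.lf 116 1 1)) (.lf 175 1 1))))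

def t15_623 : Tr := (.nd 262 (.lf 262 1 2) (.lf 246 1 2) (.nd 239 (.nd 217 (.nd 198 (.lf 198 1 2) (.nd 198 (.lf 176 1 2) (.lf 198 1 2) (.nd 176 (.nd 172 (.lf 172 1 2) (.lf 127 1 2) (.nd 124 (.lf 124 1 2) (.lf 91 1 2) (.lf 94 1 2))) (.lf 125 1 2) (.lf 176 1 2))) (.lf 181 1 2)) (.lf 216 1 2) (.lf 217 1 2)) (.lf 239 1 2) (.lf 239 1 2)))

def t15_625 : Tr := (.nd 246 (.nd 227 (.nd 196 (.nd 172 (.nd 172 (.nd 172 (.lf 143 1 1) (.lf 140 1 1) (.lf 172 1 1)) (.lf 153 1 1) (.nd 171 (.lf 171 1 1) (.lf 167 1 1) (.nd 169 (.lf 133 1 1) (.lf 130 1 1) (.lf 169 1 1)))) (.nd 144 (.lf 144 1 1) (.lf 134 1 1) (.lf 89 1 1)) (.nd 150 (.lf 150 1 1) (.lf 142 1 1) (.lf 117 1 1))) (.nd 175 (.lf 118 1 1) (.nd 161 (.lf 118 1 1) (.lf 161 1 1) (.lf 113 1 1)) (.nd 175 (.lf 141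 1 1) (.lf 175 1 1) (.lf 163 1 1))) (.nd 196 (.nd 181 (.nd 181 (.lf 175 1 1) (.lf 176 1 1) (.lf 181 1 1)) (.lf 167 1 1) (.lf 166 1 1)) (.lf 175 1 1) (.nd 196 (.nd 196 (.lf 193 1 1) (.lf 196 1 1) (.lf 180 1 1)) (.nd 180 (.lf 166 1 1) (.lf 180 1 1) (.lf 161 1 1)) (.lf 188 1 1)))) (.nd 227 (.nd 212 (.nd 197 (.lf 162 1 1) (.lf 166 1 1) (.nd 197 (.lf 176 1 1) (.lf 197 1 1) (.lf 176 1 1))) (.nd 192 (.lf 146 1 1) (.lf 176 1 1) (.nd 192 (.lf 179 1 1) (.lf 168 1 1) (.nd 192 (.lf 172 1 1) (.lf 174 1 1) (.lf 192 1 1)))) (.nd 212 (.lf 212 1 1) (.nd 205 (.lf 177 1 1) (.nd 205 (.nd 191 (.lf 191 1 5) (.lf 183 1 1) (.nd 186 (.lf 173 1 1) (.lf 186 1 5) (.lf 148 1 1))) (.lf 205 1 1) (.lf 203 1 1)) (.nd 183 (.lf 147 1 1) (.nd 183 (.lf 175 1 1) (.lf 183 1 1) (.lf 169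 1 1)) (.lf 172 1 1))) (.nd 206 (.nd 192 (.lf 172 1 1) (.lf 172 1 1) (.lf 192 1 1)) (.lf 174 1 1) (.lf 206 1 1)))) (.nd 227 (.nd 227 (.lf 208 1 1) (.nd 195 (.nd 195 (.lf 195 1 5) (.lf 195 1 5) (.nd 195 (.lf 186 1 1) (.lf 166 1 1) (.lf 195 1 5))) (.lf 195 1 5) (.lf 194 1 1)) (.lf 227 1 1)) (.lf 212 1 1) (.nd 204 (.lf 186 1 1) (.nd 204 (.lf 204 1 1) (.lf 160 1 1) (.lf 170 1 1)) (.lf 203 1 1))) (.nd 205 (.nd 194 (.lf 194 1 1) (.nd 171 (.lf 171 1 1) (.lf 153 1 1) (.lf 150 1 1)) (.lf 158 1 1)) (.nd 191 (.lf 172 1 1) (.lf 191 1 1) (.nd 171 (.lf 171 1 1) (.lf 142 1 1) (.lf 140 1 1))) (.lf 205 1 1))) (.nd 196 (.nd 196 (.lf 172 1 1) (.nd 187 (.lf 172 1 1) (.nd 187 (.lf 187 1 1) (.lf 172 1 1) (.lf 165 1 1)) (.lf 159 1 1)) (.nd 196 (.nd 196 (.lf 188 1 1) (.lf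 182 1 1) (.lf 196 1 1)) (.nd 178 (.lf 178 1 1) (.lf 166 1 1) (.lf 174 1 1)) (.lf 177 1 1))) (.nd 161 (.lf 144 1 1) (.nd 161 (.lf 161 1 1) (.nd 161 (.lf 157 1 1) (.lf 161 1 1) (.lf 161 1 1)) (.lf 161 1 1)) (.lf 149 1 1)) (.nd 147 (.lf 140 1 1) (.nd 147 (.lf 128 1 1) (.lf 137 1 1) (.nd 147 (.lf 147 1 1) (.lf 124 1 1) (.lf 124 1 1))) (.lf 118 1 1)))) (.nd 228 (.nd 223 (.nd 175 (.nd 175 (.nd 153 (.lf 153 1 1) (.lf 120 1 1) (.lf 132 1 1)) (.lf 150 1 1) (.lf 175 1 1)) (.lf 145 1 1) (.nd 142 (.lf 113 1 1) (.lf 142 1 1) (.lf 105 1 1))) (.lf 178 1 1) (.nd 223 (.lf 204 1 1) (.lf 223 1 1) (.nd 204 (.nd 186 (.lf 186 1 5) (.nd 186 (.lf 186 1 5) (.lf 186 1 5) (.lf 186 1 1)) (.lf 185 1 1)) (.nd 204 (.lf 179 1 1) (.lf 204 1 1) (.lf 180 1 1)) (.lf 181 1 1)))) (.nd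 228 (.nd 228 (.lf 228 1 1) (.lf 202 1 1) (.nd 204 (.nd 204 (.lf 183 1 1) (.lf 204 1 1) (.nd 199 (.lf 199 1 1) (.lf 173 1 1) (.lf 147 1 1))) (.lf 200 1 1) (.lf 196 1 1))) (.nd 213 (.nd 190 (.nd 171 (.lf 171 1 1) (.lf 140 1 1) (.lf 132 1 1)) (.nd 172 (.lf 120 1 1) (.nd 167 (.lf 167 1 1) (.lf 119 1 1) (.lf 122 1 1)) (.nd 172 (.lf 172 1 1) (.nd 157 (.lf 134 1 1) (.lf 157 1 1) (.lf 133 1 1)) (.lf 142 1 1))) (.lf 190 1 1)) (.lf 213 1 1) (.lf 189 1 1)) (.lf 198 1 1)) (.nd 176 (.lf 171 1 1) (.lf 147 1 1) (.nd 176 (.lf 176 1 1) (.lf 168 1 1) (.lf 159 1 1)))) (.nd 246 (.nd 246 (.nd 246 (.lf 246 1 1) (.nd 222 (.lf 213 1 1) (.nd 190 (.lf 178 1 1) (.lf 180 1 1) (.lf 190 1 1)) (.nd 222 (.lf 222 1 1) (.lf 208 1 1) (.nd 177 (.lf 177 1 1) (.lf 147 1 1) (.lf 168 1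 1)))) (.lf 221 1 1)) (.lf 217 1 1) (.lf 228 1 1)) (.nd 236 (.nd 220 (.nd 196 (.nd 161 (.lf 147 1 1) (.lf 161 1 1) (.lf 145 1 1)) (.nd 196 (.lf 168 1 1) (.lf 169 1 1) (.lf 196 1 1)) (.nd 177 (.lf 177 1 1) (.lf 161 1 1) (.lf 125 1 1))) (.nd 199 (.lf 199 1 1) (.nd 181 (.lf 151 1 1) (.lf 150 1 1) (.nd 181 (.lf 166 1 1) (.lf 181 1 1) (.lf 159 1 1))) (.lf 176 1 1)) (.nd 220 (.nd 198 (.lf 190 1 1) (.lf 178 1 1) (.nd 198 (.lf 178 1 1) (.nd 198 (.lf 177 1 1) (.lf 184 1 1) (.lf 198 1 1)) (.lf 177 1 1))) (.lf 220 1 1) (.lf 203 1 1))) (.nd 236 (.nd 221 (.nd 221 (.lf 203 1 1) (.nd 206 (.lf 177 1 1) (.lf 177 1 1) (.nd 206 (.lf 206 1 1) (.lf 176 1 1) (.lf 190 1 1))) (.nd 221 (.nd 203 (.lf 203 1 1) (.lf 180 1 1) (.lf 176 1 1)) (.lf 197 1 1) (.lf 221 1 1))) (.nd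 214 (.lf 175 1 1) (.lf 165 1 1) (.lf 214 1 1)) (.lf 204 1 1)) (.lf 236 1 1) (.nd 236 (.nd 215 (.lf 200 1 1) (.lf 200 1 1) (.nd 215 (.lf 206 1 1) (.lf 215 1 1) (.nd 202 (.lf 202 1 1) (.lf 171 1 1) (.lf 165 1 1)))) (.lf 236 1 1) (.lf 226 1 1))) (.nd 230 (.nd 187 (.lf 165 1 1) (.nd 187 (.lf 180 1 1) (.lf 184 1 1) (.nd 187 (.lf 187 1 1) (.lf 167 1 1) (.lf 172 1 1))) (.nd 171 (.lf 147 1 1) (.lf 171 1 1) (.lf 143 1 1))) (.nd 230 (.lf 230 1 1) (.nd 194 (.lf 194 1 1) (.nd 184 (.lf 152 1 1) (.lf 184 1 1) (.lf 174 1 1)) (.lf 161 1 1)) (.lf 212 1 1)) (.nd 198 (.nd 198 (.lf 150 1 1) (.lf 198 1 1) (.lf 153 1 1)) (.lf 151 1 1) (.nd 186 (.nd 186 (.lf 165 1 1) (.lf 164 1 1) (.lf 186 1 1)) (.lf 174 1 1) (.lf 173 1 1))))) (.lf 244 1 1)))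

def t15_626 : Tr := (.nd 175 (.nd 151 (.nd 151 (.nd 151 (.lf 151 1 2) (.lf 126 1 2) (.lf 121 1 2)) (.lf 134 1 2) (.nd 142 (.lf 120 1 2) (.lf 134 1 2) (.lf 142 1 2))) (.nd 125 (.nd 125 (.lf 125 1 2) (.lf 118 1 2) (.nd 118 (.lf 84 1 2) (.lf 118 1 2) (.nd 113 (.lf 83 1 2) (.nd 82 (.lf 53 1 2) (.lf 82 1 2) (.lf 51 1 2)) (.lf 113 1 2)))) (.nd 122 (.lf 122 1 2) (.nd 92 (.lf 60 1 2) (.lf 92 1 2) (.lf 65 1 2)) (.nd 65 (.nd 56 (.lf 56 1 2) (.lf 27 1 2) (.lf 33 1 2)) (.lf 65 1 2) (.lf 35 1 2))) (.nd 91 (.nd 91 (.lf 36 1 2) (.lf 61 1 2) (.nd 91 (.lf 81 1 2) (.lf 60 1 2) (.lf 91 1 2))) (.lf 91 1 2) (.nd 84 (.lf 64 1 2) (.lf 55 1 2) (.nd 84 (.lf 56 1 2) (.nd 84 (.lf 52 1 2) (.lf 84 1 2) (.lf 57 1 2)) (.lf 64 1 2))))) (.nd 145 (.lf 145 1 2) (.nd 94 (.nd 87 (.lf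 87 1 2) (.lf 63 1 2) (.lf 35 1 2)) (.lf 65 1 2) (.lf 94 1 2)) (.lf 121 1 2))) (.nd 173 (.nd 166 (.lf 165 1 2) (.nd 149 (.lf 141 1 2) (.lf 149 1 2) (.nd 118 (.lf 93 1 2) (.lf 118 1 2) (.lf 115 1 2))) (.nd 166 (.lf 159 1 2) (.nd 166 (.lf 148 1 2) (.lf 166 1 2) (.lf 156 1 2)) (.lf 162 1 2))) (.nd 163 (.nd 146 (.nd 146 (.lf 118 1 2) (.lf 146 1 2) (.lf 119 1 2)) (.lf 120 1 2) (.lf 132 1 2)) (.nd 163 (.nd 141 (.lf 118 1 2) (.lf 141 1 2) (.nd 120 (.lf 95 1 2) (.lf 69 1 2) (.lf 120 1 2))) (.lf 145 1 2) (.lf 163 1 2)) (.nd 158 (.nd 158 (.lf 141 1 2) (.lf 145 1 2) (.lf 158 1 2)) (.nd 144 (.nd 140 (.lf 140 1 2) (.nd 95 (.lf 66 1 2) (.lf 95 1 2) (.nd 66 (.lf 40 1 2) (.lf 66 1 2) (.lf 43 1 2))) (.lf 92 1 2)) (.lf 93 1 2) (.lf 144 1 2)) (.lf 144 1 2))) (.nd 173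 (.nd 149 (.nd 144 (.lf 123 1 2) (.lf 144 1 2) (.lf 127 1 2)) (.lf 149 1 2) (.lf 146 1 2)) (.nd 152 (.nd 124 (.nd 124 (.nd 124 (.lf 124 1 2) (.lf 98 1 2) (.lf 98 1 2)) (.lf 116 1 2) (.lf 107 1 2)) (.lf 119 1 2) (.lf 95 1 2)) (.lf 152 1 2) (.nd 152 (.lf 150 1 2) (.lf 146 1 2) (.lf 152 1 2))) (.lf 173 1 2))) (.nd 175 (.nd 175 (.nd 175 (.lf 151 1 2) (.lf 149 1 2) (.nd 175 (.lf 173 1 2) (.lf 161 1 2) (.lf 175 1 2))) (.nd 145 (.lf 143 1 2) (.nd 145 (.lf 93 1 2) (.nd 145 (.lf 130 1 2) (.lf 145 1 2) (.nd 115 (.lf 115 1 2) (.lf 91 1 2) (.lf 113 1 2))) (.nd 123 (.lf 92 1 2) (.nd 123 (.lf 123 1 2) (.lf 106 1 2) (.lf 121 1 2)) (.nd 95 (.lf 66 1 2) (.nd 66 (.lf 66 1 2) (.lf 35 1 2) (.lf 36 1 2)) (.lf 95 1 2)))) (.lf 121 1 2)) (.lf 160 1 2)) (.nd 153 (.lf 153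 1 2) (.lf 125 1 2) (.nd 122 (.lf 92 1 2) (.nd 122 (.nd 97 (.lf 92 1 2) (.lf 97 1 2) (.lf 81 1 2)) (.lf 100 1 2) (.lf 122 1 2)) (.lf 89 1 2))) (.lf 123 1 2)))

def t15_628 : Tr := (.nd 205 (.nd 174 (.nd 150 (.nd 122 (.lf 112 1 3) (.lf 80 1 3) (.lf 122 1 3)) (.nd 128 (.lf 128 1 3) (.lf 120 1 3) (.lf 95 1 3)) (.nd 150 (.lf 150 1 3) (.lf 131 1 3) (.nd 150 (.lf 149 1 3) (.nd 145 (.lf 105 1 3) (.lf 145 1 3) (.lf 130 1 3)) (.lf 150 1 3)))) (.nd 153 (.nd 96 (.lf 80 1 3) (.lf 96 1 3) (.lf 87 1 3)) (.nd 139 (.nd 139 (.lf 120 1 3) (.lf 127 1 3) (.nd 139 (.lf 115 1 3) (.lf 118 1 3) (.lf 139 1 3))) (.lf 91 1 3) (.lf 96 1 3)) (.nd 153 (.lf 119 1 3) (.nd 153 (.nd 153 (.lf 145 1 3) (.lf 139 1 3) (.lf 153 1 3)) (.lf 129 1 3) (.lf 132 1 3)) (.nd 141 (.lf 115 1 3)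 (.lf 141 1 3) (.lf 122 1 3)))) (.nd 174 (.nd 174 (.lf 166 1 3) (.nd 174 (.lf 174 1 3) (.lf 158 1 3) (.lf 171 1 3)) (.lf 163 1 3)) (.lf 159 1 3) (.nd 156 (.lf 149 1 3) (.nd 152 (.lf 107 1 3) (.lf 126 1 3) (.nd 152 (.lf 152 1 3) (.lf 121 1 3) (.lf 121 1 3))) (.nd 156 (.nd 153 (.lf 130 1 3) (.lf 153 1 3) (.lf 132 1 3)) (.lf 142 1 3) (.lf 156 1 3))))) (.nd 205 (.nd 183 (.nd 169 (.lf 150 1 3) (.lf 169 1 3) (.lf 149 1 3)) (.nd 183 (.lf 169 1 3) (.lf 173 1 3) (.lf 183 1 3)) (.nd 172 (.lf 136 1 3) (.nd 172 (.nd 152 (.nd 135 (.lf 111 1 3) (.lf 135 1 3) (.lf 114 1 3)) (.lf 137 1 3) (.lf 152 1 3)) (.lf 172 1 3) (.lf 162 1 3)) (.lf 149 1 3))) (.nd 190 (.lf 170 1 3) (.nd 190 (.nd 190 (.nd 184 (.lf 183 1 3) (.nd 184 (.lf 184 1 3) (.lf 171 1 3) (.lf 179 1 3)) (.lf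 181 1 3)) (.lf 184 1 3) (.nd 190 (.lf 182 1 3) (.lf 168 1 3) (.lf 190 1 3))) (.nd 183 (.lf 155 1 3) (.nd 183 (.lf 181 1 3) (.lf 183 1 3) (.lf 181 1 3)) (.nd 161 (.lf 150 1 3) (.lf 125 1 3) (.lf 161 1 3))) (.nd 184 (.lf 184 1 3) (.lf 170 1 3) (.nd 165 (.lf 144 1 3) (.lf 147 1 3) (.lf 165 1 3)))) (.nd 175 (.nd 140 (.lf 131 1 3) (.lf 95 1 3) (.lf 140 1 3)) (.nd 144 (.lf 114 1 3) (.nd 144 (.lf 144 1 3) (.nd 132 (.lf 115 1 3) (.lf 114 1 3) (.lf 132 1 3)) (.lf 135 1 3)) (.nd 127 (.lf 109 1 3) (.nd 127 (.lf 109 1 3) (.lf 116 1 3) (.lf 127 1 3)) (.lf 92 1 3))) (.nd 175 (.lf 154 1 3) (.lf 175 1 3) (.lf 154 1 3)))) (.nd 205 (.nd 205 (.nd 205 (.nd 186 (.lf 183 1 3) (.lf 186 1 3) (.lf 178 1 3)) (.lf 192 1 3) (.lf 205 1 3)) (.lf 186 1 3) (.lf 183 1 3)) (.nd 190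 (.nd 190 (.lf 166 1 3) (.lf 190 1 3) (.lf 157 1 3)) (.lf 167 1 3) (.lf 190 1 3)) (.nd 182 (.nd 164 (.lf 163 1 3) (.lf 164 1 3) (.nd 162 (.lf 162 1 3) (.nd 162 (.lf 134 1 3) (.lf 162 1 3) (.lf 157 1 3)) (.lf 159 1 3))) (.nd 182 (.lf 182 1 3) (.lf 138 1 3) (.lf 148 1 3)) (.lf 181 1 3)))) (.nd 176 (.nd 170 (.nd 127 (.lf 127 1 3) (.lf 99 1 3) (.lf 96 1 3)) (.nd 122 (.lf 122 1 3) (.lf 91 1 3) (.lf 92 1 3)) (.nd 170 (.nd 170 (.lf 149 1 3) (.nd 145 (.lf 145 1 3) (.lf 120 1 3) (.lf 139 1 3)) (.nd 170 (.lf 170 1 3) (.lf 141 1 3) (.lf 149 1 3))) (.lf 151 1 3) (.lf 151 1 3))) (.nd 125 (.nd 125 (.lf 106 1 3) (.nd 115 (.lf 92 1 3) (.nd 114 (.lf 80 1 3) (.lf 92 1 3) (.lf 114 1 3)) (.lf 115 1 3)) (.nd 125 (.lf 102 1 3) (.lf 125 1 3) (.lf 102 1 3))) (.lf 96 1 3)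 (.nd 118 (.lf 118 1 3) (.lf 80 1 3) (.lf 94 1 3))) (.nd 176 (.nd 165 (.nd 165 (.lf 165 1 3) (.lf 150 1 3) (.lf 143 1 3)) (.lf 137 1 3) (.lf 150 1 3)) (.nd 176 (.nd 176 (.nd 176 (.lf 160 1 3) (.lf 152 1 3) (.lf 176 1 3)) (.nd 174 (.lf 174 1 3) (.nd 173 (.nd 166 (.lf 166 1 3) (.lf 151 1 3) (.lf 121 1 3)) (.lf 166 1 3) (.lf 173 1 3)) (.nd 166 (.nd 166 (.lf 166 1 3) (.lf 142 1 3) (.lf 131 1 3)) (.lf 142 1 3) (.lf 159 1 3))) (.lf 166 1 3)) (.lf 156 1 3) (.lf 155 1 3)) (.nd 150 (.lf 121 1 3) (.lf 150 1 3) (.lf 145 1 3)))))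

def t15_629 : Tr := (.nd 349 (.nd 332 (.lf 294 4 6) (.nd 332 (.nd 280 (.lf 275 1 4) (.nd 240 (.nd 185 (.lf 153 4 6) (.lf 174 4 6) (.lf 185 4 6)) (.lf 240 4 6) (.lf 230 4 6)) (.lf 280 1 4)) (.nd 271 (.lf 214 4 6) (.nd 268 (.nd 209 (.lf 209 4 6) (.lf 179 4 6) (.nd 178 (.lf 149 4 6) (.lf 178 4 6) (.lf 147 4 6))) (.lf 214 4 6) (.lf 268 4 6)) (.lf 271 4 6)) (.lf 332 4 6)) (.lf 331 1 4)) (.lf 324 4 6) (.lf 349 1 4))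

def t15_631 : Tr := (.nd 160 (.nd 160 (.nd 160 (.nd 160 (.nd 144 (.nd 139 (.lf 110 3 3) (.lf 129 3 3) (.lf 139 3 3)) (.lf 144 3 3) (.lf 127 3 3)) (.nd 146 (.lf 142 3 3) (.lf 138 3 3) (.nd 146 (.lf 125 3 3) (.lf 146 3 3) (.lf 141 3 3))) (.nd 160 (.nd 160 (.lf 152 1 1) (.lf 150 1 1) (.lf 160 1 1)) (.nd 148 (.lf 144 3 3) (.lf 130 1 1) (.nd 148 (.lf 129 1 1) (.lf 132 1 1) (.lf 148 3 3))) (.lf 156 3 3))) (.nd 152 (.lf 132 3 3) (.nd 152 (.nd 134 (.lf 113 3 3) (.nd 134 (.lf 134 3 3) (.nd 133 (.nd 133 (.lf 133 3 3) (.lf 123 1 1) (.lf 126 1 1)) (.lf 127 3 3) (.lf 111 3 3)) (.nd 128 (.lf 123 3 3) (.lf 105 3 3) (.lf 128 1 1))) (.lf 123 3 3)) (.nd 152 (.lf 146 3 3) (.nd 152 (.nd 152 (.lf 151 1 1) (.lf 152 3 3) (.lf 151 1 1)) (.lf 143 3 3) (.lf 151 3 3)) (.lf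 145 3 3)) (.lf 138 3 3)) (.lf 131 3 3)) (.nd 140 (.nd 140 (.lf 88 3 3) (.lf 118 3 3) (.nd 140 (.lf 110 3 3) (.nd 140 (.lf 140 3 3) (.lf 114 3 3) (.lf 116 3 3)) (.lf 125 3 3))) (.lf 138 3 3) (.lf 116 3 3))) (.nd 118 (.nd 118 (.lf 110 3 3) (.nd 97 (.lf 73 3 3) (.nd 94 (.lf 88 3 3) (.nd 94 (.lf 91 1 1) (.lf 93 3 3) (.lf 94 3 3)) (.lf 87 3 3)) (.lf 97 3 3)) (.lf 118 3 3)) (.nd 94 (.lf 89 3 3) (.lf 61 3 3) (.nd 94 (.nd 75 (.lf 74 3 3) (.nd 71 (.lf 71 1 1) (.nd 71 (.lf 71 1 1) (.lf 56 3 3) (.lf 66 3 3)) (.lf 68 1 1)) (.lf 75 3 3)) (.nd 94 (.nd 94 (.lf 74 1 1) (.nd 94 (.lf 87 3 3) (.nd 94 (.lf 87 3 3) (.lf 91 3 3) (.lf 94 1 1)) (.nd 77 (.lf 60 3 3) (.lf 77 1 1) (.lf 71 3 3))) (.lf 71 1 1)) (.lf 89 3 3) (.lf 72 1 1)) (.lf 83 3 3))) (.nd 89 (.lf 89 3 3) (.lf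 60 3 3) (.lf 83 3 3))) (.nd 144 (.nd 144 (.nd 141 (.lf 141 3 3) (.nd 131 (.lf 131 1 1) (.lf 122 3 3) (.lf 121 3 3)) (.lf 123 3 3)) (.nd 144 (.lf 134 3 3) (.lf 137 3 3) (.nd 144 (.lf 110 3 3) (.lf 129 3 3) (.nd 144 (.lf 132 3 3) (.lf 132 3 3) (.nd 144 (.lf 144 1 1) (.lf 123 3 3) (.lf 124 3 3))))) (.nd 141 (.nd 126 (.lf 114 3 3) (.lf 115 3 3) (.nd 126 (.lf 112 3 3) (.lf 126 3 3) (.lf 122 1 1))) (.lf 137 3 3) (.nd 141 (.lf 139 3 3) (.lf 141 3 3) (.lf 140 1 1)))) (.nd 117 (.nd 84 (.lf 84 3 3) (.lf 47 3 3) (.lf 55 3 3)) (.lf 117 3 3) (.lf 87 3 3)) (.lf 120 3 3))) (.nd 160 (.nd 156 (.nd 149 (.nd 143 (.lf 139 3 3) (.nd 139 (.lf 123 3 3) (.lf 132 3 3) (.nd 139 (.lf 130 1 1) (.lf 139 3 3) (.lf 129 1 1))) (.nd 143 (.nd 142 (.lf 124 1 1) (.lf 142 2 3) (.lf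 118 1 1)) (.lf 143 3 3) (.lf 140 3 3))) (.lf 149 3 3) (.lf 119 3 3)) (.nd 142 (.nd 142 (.nd 142 (.lf 141 3 3) (.lf 140 3 3) (.nd 142 (.nd 132 (.lf 132 1 1) (.lf 127 3 3) (.lf 126 3 3)) (.nd 142 (.lf 115 2 3) (.nd 139 (.lf 133 3 3) (.lf 133 3 3) (.lf 139 1 1)) (.lf 142 2 3)) (.lf 134 1 1))) (.lf 131 1 1) (.lf 125 1 1)) (.lf 129 1 1) (.lf 131 3 3)) (.nd 156 (.nd 136 (.lf 100 1 1) (.lf 126 1 1) (.nd 136 (.lf 125 1 1) (.lf 135 1 1) (.lf 136 3 3))) (.nd 156 (.nd 155 (.lf 146 2 3) (.nd 155 (.lf 154 2 3) (.lf 137 1 1) (.lf 155 2 3)) (.lf 145 2 3)) (.nd 156 (.nd 156 (.nd 156 (.lf 154 3 3) (.lf 156 1 1) (.lf 150 3 3)) (.nd 154 (.lf 154 3 3) (.lf 140 1 1) (.lf 145 1 1)) (.lf 156 1 1)) (.lf 145 1 1) (.lf 129 1 1)) (.nd 153 (.lf 147 1 1) (.lf 153 2 3) (.lf 144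 1 1))) (.nd 146 (.lf 125 1 1) (.nd 146 (.lf 146 3 3) (.lf 120 2 3) (.lf 145 3 3)) (.lf 116 1 1)))) (.nd 152 (.nd 138 (.lf 128 1 1) (.nd 133 (.nd 133 (.lf 132 1 1) (.lf 110 3 3) (.lf 133 1 1)) (.lf 123 1 1) (.lf 123 1 1)) (.lf 138 3 3)) (.nd 152 (.nd 139 (.nd 139 (.lf 97 1 1) (.lf 100 1 1) (.nd 139 (.lf 126 1 1) (.lf 139 3 3) (.lf 126 1 1))) (.nd 138 (.nd 138 (.lf 124 1 1) (.lf 126 1 1) (.nd 138 (.lf 138 3 3) (.lf 137 3 3) (.lf 115 2 3))) (.lf 117 3 3) (.lf 107 3 3)) (.lf 98 1 1)) (.nd 152 (.nd 152 (.lf 133 1 1) (.lf 138 3 3) (.nd 152 (.nd 152 (.lf 152 3 3) (.lf 152 1 1) (.lf 151 1 1)) (.lf 144 1 1) (.lf 143 1 1))) (.lf 152 1 1) (.lf 136 3 3)) (.nd 139 (.nd 139 (.lf 127 1 1) (.lf 134 1 1) (.nd 139 (.lf 126 1 1) (.nd 139 (.lf 130 1 1) (.lf 127 1 1)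 (.nd 139 (.lf 139 3 3) (.lf 130 1 1) (.lf 136 1 1))) (.lf 134 1 1))) (.lf 120 1 1) (.lf 118 1 1))) (.nd 139 (.nd 139 (.nd 139 (.lf 95 3 3) (.lf 92 3 3) (.nd 139 (.nd 139 (.lf 112 3 3) (.lf 115 3 3) (.lf 139 1 1)) (.lf 121 3 3) (.lf 121 3 3))) (.lf 93 3 3) (.nd 128 (.lf 128 3 3) (.lf 116 2 3) (.lf 115 3 3))) (.nd 126 (.nd 107 (.lf 100 3 3) (.lf 107 3 3) (.lf 64 3 3)) (.nd 126 (.nd 126 (.lf 114 3 3) (.nd 126 (.lf 108 1 1) (.lf 122 3 3) (.lf 126 1 1)) (.lf 109 3 3)) (.lf 105 1 1) (.lf 102 1 1)) (.nd 95 (.nd 95 (.lf 86 1 1) (.lf 95 1 1) (.lf 95 3 3)) (.lf 74 1 1) (.lf 89 3 3))) (.nd 136 (.lf 125 1 1) (.nd 136 (.nd 136 (.lf 110 2 3) (.lf 136 3 3) (.lf 109 2 3)) (.lf 133 1 1) (.lf 132 1 1)) (.lf 123 1 1)))) (.nd 160 (.nd 154 (.nd 154 (.nd 154 (.lf 145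 1 1) (.lf 140 1 1) (.nd 154 (.nd 154 (.lf 153 3 3) (.lf 154 1 1) (.lf 154 1 1)) (.lf 153 1 1) (.lf 154 1 1))) (.nd 153 (.lf 152 1 1) (.nd 153 (.lf 129 3 3) (.lf 153 1 1) (.lf 153 3 3)) (.lf 153 3 3)) (.lf 153 1 1)) (.nd 139 (.lf 95 1 1) (.nd 139 (.lf 135 1 1) (.nd 139 (.nd 139 (.lf 123 2 3) (.lf 136 1 1) (.lf 139 3 3)) (.lf 126 1 1) (.lf 125 1 1)) (.lf 120 1 1)) (.lf 125 1 1)) (.lf 136 1 1)) (.nd 160 (.nd 154 (.nd 154 (.lf 152 1 1) (.nd 154 (.nd 154 (.lf 154 3 3) (.lf 149 2 3) (.lf 146 2 3)) (.lf 132 3 3) (.lf 143 1 1)) (.lf 152 1 1)) (.lf 123 1 1) (.lf 126 1 1)) (.nd 160 (.nd 135 (.lf 130 3 3) (.nd 121 (.nd 121 (.nd 119 (.lf 114 1 1) (.lf 91 1 1) (.lf 119 3 3)) (.lf 106 3 3) (.lf 121 1 1)) (.lf 119 1 1) (.lf 120 1 1)) (.lf 135 3 3)) (.lf 133 3 3)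 (.nd 160 (.lf 150 1 1) (.lf 152 1 1) (.nd 160 (.nd 154 (.lf 150 1 1) (.lf 154 1 1) (.lf 152 3 3)) (.nd 154 (.lf 146 3 3) (.nd 151 (.lf 131 3 3) (.lf 151 3 3) (.lf 150 1 1)) (.lf 154 3 3)) (.nd 160 (.nd 160 (.lf 152 1 1) (.lf 160 3 3) (.lf 160 1 1)) (.lf 158 3 3) (.lf 160 3 3))))) (.lf 124 1 1)) (.nd 158 (.nd 158 (.lf 137 3 3) (.lf 133 3 3) (.lf 158 3 3)) (.nd 158 (.nd 158 (.nd 158 (.nd 157 (.lf 156 1 1) (.nd 157 (.lf 125 3 3) (.lf 157 1 1) (.lf 155 3 3)) (.lf 156 3 3)) (.nd 158 (.lf 152 1 1) (.nd 158 (.lf 152 3 3) (.lf 158 3 3) (.lf 158 1 1)) (.lf 130 3 3)) (.nd 158 (.lf 158 3 3) (.nd 153 (.lf 153 1 1) (.lf 130 3 3) (.lf 143 3 3)) (.nd 158 (.lf 158 1 1) (.lf 152 3 3) (.lf 156 3 3)))) (.lf 158 1 1) (.nd 156 (.lf 135 1 1) (.nd 156 (.lf 156 1 1) (.nd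 156 (.lf 156 1 1) (.lf 156 3 3) (.lf 137 3 3)) (.lf 151 1 1)) (.lf 154 3 3))) (.nd 145 (.lf 125 1 1) (.nd 145 (.lf 139 3 3) (.lf 136 3 3) (.lf 145 1 1)) (.lf 111 3 3)) (.nd 150 (.lf 135 3 3) (.lf 150 3 3) (.lf 135 3 3))) (.nd 158 (.nd 158 (.nd 158 (.lf 158 1 1) (.lf 142 1 1) (.lf 154 1 1)) (.lf 146 1 1) (.lf 135 1 1)) (.lf 151 1 1) (.nd 157 (.lf 157 1 1) (.nd 154 (.lf 154 3 3) (.lf 134 3 3) (.nd 152 (.lf 143 3 3) (.nd 152 (.lf 130 3 3) (.lf 135 3 3) (.lf 152 1 1)) (.lf 141 1 1))) (.nd 156 (.lf 155 1 1) (.lf 156 1 1) (.lf 132 3 3))))))) (.nd 154 (.nd 138 (.nd 138 (.nd 138 (.lf 138 3 3) (.lf 127 3 3) (.lf 130 3 3)) (.lf 123 3 3) (.lf 120 3 3)) (.nd 93 (.lf 92 3 3) (.nd 93 (.nd 93 (.lf 78 3 3) (.nd 93 (.lf 86 3 3) (.nd 88 (.lf 58 1 1) (.lf 88 1 1) (.lf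 88 3 3)) (.lf 93 3 3)) (.lf 83 3 3)) (.lf 92 1 1) (.nd 93 (.lf 64 1 1) (.lf 93 1 1) (.lf 85 3 3))) (.lf 86 3 3)) (.nd 117 (.nd 103 (.lf 55 3 3) (.lf 60 3 3) (.nd 103 (.lf 103 3 3) (.lf 84 3 3) (.lf 91 3 3))) (.lf 117 3 3) (.lf 60 3 3))) (.nd 154 (.nd 154 (.nd 154 (.lf 150 3 3) (.lf 147 3 3) (.nd 154 (.nd 154 (.lf 141 3 3) (.lf 147 3 3) (.nd 154 (.lf 152 3 3) (.lf 154 1 1) (.lf 153 1 1))) (.lf 150 3 3) (.nd 137 (.nd 134 (.lf 128 1 1) (.lf 131 3 3) (.lf 134 3 3)) (.lf 137 1 1) (.lf 132 3 3)))) (.lf 154 3 3) (.nd 145 (.nd 127 (.lf 102 3 3) (.lf 112 3 3) (.nd 127 (.lf 127 3 3) (.lf 115 1 1) (.lf 112 1 1))) (.lf 145 3 3) (.lf 128 3 3))) (.nd 147 (.nd 147 (.lf 137 3 3) (.lf 147 3 3) (.lf 133 3 3)) (.lf 136 3 3) (.nd 133 (.nd 113 (.lf 113 3 3) (.lf 84 3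 3) (.lf 82 3 3)) (.lf 114 3 3) (.lf 133 3 3))) (.nd 145 (.nd 145 (.nd 145 (.nd 145 (.lf 145 3 3) (.lf 127 1 1) (.lf 124 1 1)) (.lf 125 1 1) (.lf 119 3 3)) (.nd 144 (.lf 134 3 3) (.lf 129 3 3) (.nd 144 (.nd 144 (.lf 143 1 1) (.lf 144 3 3) (.lf 140 3 3)) (.lf 142 3 3) (.lf 143 1 1))) (.nd 145 (.nd 145 (.nd 145 (.lf 145 3 3) (.nd 145 (.lf 143 1 1) (.lf 145 3 3) (.lf 125 3 3)) (.lf 130 3 3)) (.lf 132 3 3) (.nd 143 (.lf 128 3 3) (.lf 122 3 3) (.nd 143 (.lf 143 1 1) (.lf 143 3 3) (.lf 140 3 3)))) (.nd 145 (.nd 143 (.lf 143 3 3) (.lf 125 1 1) (.lf 135 3 3)) (.lf 145 3 3) (.nd 145 (.lf 145 3 3) (.lf 143 1 1) (.lf 128 3 3))) (.nd 135 (.lf 135 1 1) (.nd 123 (.lf 117 3 3) (.lf 103 3 3) (.nd 123 (.lf 120 1 1) (.lf 123 3 3) (.lf 121 1 1))) (.lf 131 3 3)))) (.nd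 127 (.nd 100 (.nd 100 (.nd 100 (.lf 93 1 1) (.lf 95 1 1) (.lf 100 3 3)) (.lf 96 3 3) (.lf 99 3 3)) (.lf 91 3 3) (.lf 78 3 3)) (.nd 127 (.nd 127 (.lf 115 3 3) (.lf 123 3 3) (.nd 127 (.lf 125 3 3) (.lf 116 3 3) (.lf 127 1 1))) (.lf 118 3 3) (.lf 118 3 3)) (.lf 104 3 3)) (.nd 121 (.lf 88 3 3) (.lf 118 3 3) (.nd 121 (.lf 110 3 3) (.nd 119 (.lf 119 1 1) (.lf 114 3 3) (.lf 116 3 3)) (.lf 121 3 3))))) (.nd 138 (.nd 138 (.lf 129 3 3) (.nd 138 (.lf 120 3 3) (.lf 119 3 3) (.nd 138 (.lf 114 1 1) (.nd 124 (.lf 116 3 3) (.lf 86 1 1) (.lf 124 3 3)) (.lf 138 3 3))) (.lf 114 3 3)) (.nd 99 (.lf 86 3 3) (.nd 99 (.nd 99 (.lf 90 1 1) (.nd 99 (.nd 99 (.lf 99 3 3) (.lf 88 1 1) (.lf 81 3 3)) (.lf 99 1 1) (.lf 84 1 1)) (.lf 62 1 1)) (.nd 99 (.lf 93 3 3) (.nd 97 (.lf 97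 1 1) (.lf 90 3 3) (.lf 88 1 1)) (.nd 99 (.nd 99 (.lf 53 3 3) (.lf 88 1 1) (.lf 99 3 3)) (.lf 96 3 3) (.lf 88 1 1))) (.lf 92 1 1)) (.lf 91 3 3)) (.lf 89 3 3))))

def t15_632 : Tr := (.nd 216 (.nd 185 (.nd 185 (.nd 174 (.nd 171 (.nd 171 (.lf 150 2 2) (.lf 167 2 2) (.lf 171 2 2)) (.lf 140 2 2) (.lf 163 2 2)) (.nd 174 (.lf 148 1 2) (.lf 174 1 2) (.lf 168 1 2)) (.nd 171 (.nd 159 (.lf 145 1 2) (.lf 148 1 2) (.nd 159 (.lf 154 2 2) (.lf 159 1 2) (.lf 155 2 2))) (.nd 171 (.lf 171 2 2) (.lf 143 2 2) (.lf 140 2 2)) (.lf 141 2 2))) (.nd 185 (.nd 175 (.lf 167 2 2) (.lf 166 2 2) (.nd 175 (.lf 175 2 2) (.nd 175 (.lf 172 1 2) (.lf 175 2 2) (.lf 172 1 2)) (.lf 175 2 2))) (.nd 157 (.lf 157 2 2) (.lf 136 2 2) (.lf 156 2 2)) (.nd 185 (.lf 172 2 2) (.lf 185 2 2) (.lf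 171 2 2))) (.nd 185 (.nd 176 (.lf 168 2 2) (.lf 166 2 2) (.nd 176 (.lf 175 2 2) (.nd 174 (.lf 161 2 2) (.lf 174 2 2) (.lf 166 2 2)) (.nd 176 (.lf 176 2 2) (.lf 162 2 2) (.lf 154 2 2)))) (.nd 176 (.lf 169 1 2) (.lf 164 1 2) (.lf 176 2 2)) (.nd 185 (.nd 185 (.nd 180 (.lf 143 1 2) (.lf 180 1 2) (.lf 166 1 2)) (.nd 185 (.nd 185 (.lf 185 2 2) (.lf 160 1 2) (.lf 183 2 2)) (.nd 178 (.lf 178 1 2) (.lf 175 2 2) (.lf 161 2 2)) (.lf 177 1 2)) (.lf 173 1 2)) (.lf 171 1 2) (.lf 172 1 2)))) (.nd 159 (.nd 159 (.nd 147 (.nd 147 (.nd 147 (.nd 144 (.lf 144 2 2) (.lf 127 2 2) (.lf 121 2 2)) (.lf 124 2 2) (.lf 147 2 2)) (.nd 141 (.lf 141 2 2) (.lf 131 2 2) (.lf 132 2 2)) (.lf 131 2 2)) (.lf 118 2 2) (.lf 118 2 2)) (.nd 122 (.lf 111 2 2) (.lf 114 2 2) (.nd 122 (.lf 122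 2 2) (.lf 114 1 2) (.lf 119 2 2))) (.lf 159 1 2)) (.nd 145 (.lf 116 2 2) (.lf 119 1 2) (.nd 145 (.lf 128 2 2) (.nd 119 (.nd 119 (.lf 84 2 2) (.lf 114 2 2) (.lf 119 1 2)) (.lf 117 1 2) (.lf 114 2 2)) (.lf 145 2 2))) (.nd 147 (.lf 118 1 2) (.lf 139 1 2) (.lf 147 1 2))) (.nd 167 (.nd 154 (.lf 145 1 2) (.nd 142 (.lf 142 1 2) (.lf 105 1 2) (.nd 113 (.lf 113 1 2) (.lf 64 1 2) (.lf 90 1 2))) (.lf 154 2 2)) (.lf 144 2 2) (.nd 167 (.lf 116 2 2) (.lf 145 2 2) (.lf 167 2 2)))) (.nd 216 (.nd 216 (.nd 216 (.nd 187 (.nd 187 (.nd 187 (.lf 187 1 2) (.lf 164 2 2) (.lf 162 2 2)) (.nd 187 (.nd 187 (.lf 141 2 2) (.lf 144 2 2) (.lf 187 1 2)) (.nd 167 (.lf 151 1 2) (.lf 121 1 2) (.lf 167 1 2)) (.lf 142 2 2)) (.nd 180 (.lf 180 1 2) (.lf 166 1 2) (.nd 159 (.lf 146 1 2)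 (.nd 159 (.lf 149 1 2) (.lf 159 1 2) (.lf 153 2 2)) (.lf 133 1 2)))) (.nd 171 (.nd 171 (.lf 147 2 2) (.nd 171 (.lf 171 1 2) (.lf 163 1 2) (.lf 160 1 2)) (.lf 153 1 2)) (.lf 150 1 2) (.lf 147 1 2)) (.nd 170 (.lf 122 1 2) (.lf 148 1 2) (.nd 170 (.lf 146 2 2) (.lf 147 1 2) (.lf 170 2 2)))) (.nd 216 (.lf 211 1 2) (.nd 209 (.lf 186 1 2) (.lf 209 1 2) (.lf 168 2 2)) (.lf 216 1 2)) (.nd 197 (.lf 151 1 2) (.lf 197 1 2) (.nd 184 (.lf 153 1 2) (.lf 150 1 2) (.lf 184 2 2)))) (.nd 185 (.nd 173 (.lf 167 1 2) (.lf 155 1 2) (.lf 173 1 2)) (.nd 180 (.lf 172 1 2) (.nd 180 (.nd 180 (.lf 180 1 2) (.lf 180 2 2) (.lf 180 1 2)) (.lf 179 1 2) (.lf 180 1 2)) (.lf 171 1 2)) (.nd 185 (.lf 177 1 2) (.nd 163 (.lf 145 1 2) (.lf 147 1 2) (.nd 163 (.lf 136 2 2) (.lf 163 2 2) (.lf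 161 1 2))) (.nd 185 (.nd 175 (.lf 175 2 2) (.nd 168 (.nd 168 (.lf 168 1 2) (.lf 138 2 2) (.lf 157 1 2)) (.lf 152 1 2) (.lf 160 1 2)) (.lf 174 1 2)) (.lf 185 1 2) (.lf 184 1 2)))) (.nd 198 (.nd 197 (.lf 146 1 2) (.nd 193 (.lf 148 1 2) (.lf 193 1 2) (.lf 145 1 2)) (.nd 197 (.lf 183 1 2) (.nd 166 (.nd 153 (.lf 116 1 2) (.lf 146 1 2) (.nd 153 (.lf 153 1 2) (.lf 138 1 2) (.lf 153 2 2))) (.nd 166 (.lf 159 1 2) (.lf 166 1 2) (.lf 156 1 2)) (.lf 144 1 2)) (.lf 197 1 2))) (.nd 198 (.lf 198 2 2) (.nd 196 (.lf 170 2 2) (.lf 196 1 2) (.nd 164 (.lf 141 2 2) (.lf 159 2 2) (.lf 164 2 2))) (.lf 194 1 2)) (.lf 182 1 2))) (.nd 179 (.nd 168 (.lf 139 2 2) (.nd 168 (.nd 155 (.lf 135 2 2) (.lf 140 2 2) (.nd 155 (.lf 155 2 2) (.lf 149 2 2) (.lf 148 2 2))) (.lf 148 2 2)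 (.nd 168 (.nd 168 (.lf 151 2 2) (.lf 168 2 2) (.lf 148 2 2)) (.lf 147 2 2) (.nd 155 (.lf 132 2 2) (.lf 139 1 2) (.lf 155 2 2)))) (.lf 131 2 2)) (.nd 179 (.nd 179 (.nd 179 (.lf 173 2 2) (.lf 179 1 2) (.nd 154 (.lf 154 1 2) (.nd 137 (.lf 136 2 2) (.lf 137 1 2) (.lf 136 1 2)) (.lf 137 2 2))) (.lf 146 2 2) (.lf 158 2 2)) (.nd 168 (.nd 160 (.lf 140 1 2) (.nd 160 (.lf 148 2 2) (.lf 140 2 2) (.lf 160 2 2)) (.lf 120 2 2)) (.lf 143 1 2) (.nd 168 (.lf 140 2 2) (.nd 168 (.nd 168 (.lf 168 1 2) (.lf 147 2 2) (.lf 155 2 2)) (.nd 140 (.lf 135 2 2) (.lf 111 1 2) (.lf 140 2 2)) (.lf 139 1 2)) (.lf 132 2 2))) (.nd 171 (.nd 148 (.nd 148 (.lf 148 2 2) (.lf 148 1 2) (.lf 134 2 2)) (.lf 114 1 2) (.lf 141 1 2)) (.nd 171 (.lf 162 1 2) (.nd 158 (.lf 158 1 2) (.nd 148 (.nd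 148 (.lf 137 1 2) (.lf 148 2 2) (.lf 148 2 2)) (.lf 144 2 2) (.lf 147 2 2)) (.lf 138 1 2)) (.nd 171 (.lf 164 1 2) (.lf 171 1 2) (.lf 148 1 2))) (.lf 146 1 2))) (.nd 166 (.nd 156 (.nd 141 (.lf 139 2 2) (.lf 141 2 2) (.lf 117 2 2)) (.lf 156 2 2) (.nd 145 (.lf 141 1 2) (.lf 138 1 2) (.lf 145 2 2))) (.nd 166 (.nd 166 (.lf 166 2 2) (.lf 147 2 2) (.lf 147 2 2)) (.lf 121 2 2) (.lf 118 2 2)) (.nd 119 (.lf 90 2 2) (.nd 99 (.lf 76 2 2) (.lf 90 2 2) (.nd 99 (.nd 84 (.lf 84 1 2) (.lf 83 2 2) (.lf 81 1 2)) (.lf 99 2 2) (.lf 84 2 2))) (.lf 119 2 2)))) (.nd 199 (.nd 199 (.nd 199 (.nd 170 (.nd 170 (.lf 151 2 2) (.lf 168 1 2) (.lf 170 2 2)) (.lf 163 2 2) (.lf 170 2 2)) (.nd 199 (.nd 199 (.lf 199 1 2) (.nd 195 (.lf 174 2 2) (.lf 195 2 2) (.lf 169 2 2)) (.lf 192 2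 2)) (.lf 178 2 2) (.nd 179 (.nd 179 (.lf 164 2 2) (.lf 170 1 2) (.lf 179 2 2)) (.lf 142 2 2) (.lf 169 2 2))) (.nd 190 (.nd 183 (.lf 177 1 2) (.lf 182 1 2) (.nd 183 (.lf 182 1 2) (.lf 183 1 2) (.lf 170 2 2))) (.lf 186 1 2) (.lf 190 2 2))) (.nd 188 (.nd 173 (.lf 167 2 2) (.lf 173 2 2) (.nd 173 (.lf 173 1 2) (.lf 149 1 2) (.lf 170 2 2))) (.nd 188 (.lf 188 2 2) (.nd 188 (.lf 169 2 2) (.lf 139 2 2) (.lf 188 2 2)) (.lf 170 2 2)) (.nd 186 (.lf 144 2 2) (.nd 172 (.lf 167 2 2) (.lf 172 2 2) (.lf 164 1 2)) (.nd 186 (.lf 186 2 2) (.lf 175 2 2) (.lf 172 2 2)))) (.nd 198 (.nd 198 (.nd 194 (.nd 194 (.nd 168 (.lf 150 2 2) (.lf 168 2 2) (.lf 158 1 2)) (.lf 181 2 2) (.lf 194 1 2)) (.lf 149 2 2) (.lf 170 2 2)) (.lf 184 2 2) (.nd 198 (.lf 198 2 2) (.nd 169 (.lf 169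 2 2) (.lf 165 2 2) (.lf 168 1 2)) (.nd 194 (.lf 176 2 2) (.lf 194 2 2) (.lf 166 2 2)))) (.nd 189 (.nd 189 (.lf 186 1 2) (.lf 185 2 2) (.lf 189 1 2)) (.lf 184 2 2) (.lf 185 2 2)) (.nd 188 (.nd 159 (.lf 138 2 2) (.lf 144 2 2) (.lf 159 2 2)) (.lf 188 2 2) (.lf 168 2 2)))) (.nd 175 (.nd 175 (.lf 153 2 2) (.lf 154 2 2) (.lf 175 2 2)) (.lf 145 2 2) (.nd 144 (.lf 115 2 2) (.lf 144 2 2) (.lf 113 2 2))) (.nd 175 (.nd 152 (.lf 138 2 2) (.lf 152 2 2) (.lf 108 2 2)) (.nd 175 (.nd 165 (.nd 156 (.lf 137 2 2) (.nd 156 (.lf 147 1 2) (.lf 146 1 2) (.lf 156 2 2)) (.lf 149 2 2)) (.lf 162 2 2) (.lf 165 2 2)) (.lf 175 2 2) (.nd 166 (.lf 162 2 2) (.nd 148 (.lf 127 2 2) (.lf 144 1 2) (.nd 148 (.lf 141 1 2) (.lf 146 1 2) (.lf 148 2 2))) (.lf 166 2 2))) (.nd 146 (.nd 146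 (.lf 146 1 2) (.lf 119 1 2) (.lf 134 2 2)) (.lf 119 2 2) (.lf 118 2 2))))) (.nd 202 (.nd 195 (.nd 143 (.lf 140 1 2) (.nd 143 (.nd 137 (.lf 136 1 2) (.lf 137 1 2) (.lf 114 1 2)) (.nd 143 (.nd 109 (.lf 89 1 2) (.nd 109 (.lf 109 1 2) (.lf 98 2 2) (.lf 107 2 2)) (.lf 88 2 2)) (.lf 124 1 2) (.lf 143 2 2)) (.nd 128 (.lf 105 1 2) (.lf 123 1 2) (.lf 128 1 2))) (.lf 118 1 2)) (.nd 195 (.nd 178 (.nd 178 (.lf 172 1 2) (.lf 165 1 2) (.nd 178 (.nd 175 (.nd 169 (.lf 167 2 2) (.lf 169 1 2) (.lf 140 2 2)) (.lf 175 1 2) (.lf 171 2 2)) (.nd 178 (.lf 163 2 2) (.nd 178 (.lf 178 2 2) (.lf 166 1 2) (.lf 178 1 2)) (.lf 172 1 2)) (.lf 173 1 2))) (.lf 159 1 2) (.lf 172 1 2)) (.nd 195 (.lf 178 1 2) (.lf 168 1 2) (.nd 195 (.nd 195 (.nd 195 (.lf 174 2 2) (.lf 195 1 2) (.lf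 188 1 2)) (.lf 188 1 2) (.nd 190 (.lf 190 1 2) (.lf 173 2 2) (.nd 190 (.lf 190 1 2) (.lf 187 2 2) (.lf 188 1 2)))) (.lf 186 2 2) (.nd 182 (.lf 173 2 2) (.lf 167 2 2) (.lf 182 1 2)))) (.lf 172 1 2)) (.nd 172 (.nd 172 (.nd 172 (.lf 168 1 2) (.nd 172 (.lf 165 1 2) (.lf 168 1 2) (.lf 172 2 2)) (.lf 171 1 2)) (.lf 165 1 2) (.nd 168 (.nd 147 (.nd 142 (.lf 142 2 2) (.lf 111 1 2) (.lf 139 2 2)) (.lf 147 1 2) (.nd 146 (.lf 146 2 2) (.lf 146 2 2) (.nd 145 (.lf 138 1 2) (.lf 145 1 2) (.lf 142 2 2)))) (.lf 151 1 2) (.nd 168 (.lf 168 2 2) (.lf 148 1 2) (.lf 152 1 2)))) (.lf 147 1 2) (.lf 144 1 2))) (.nd 170 (.lf 144 1 2) (.nd 167 (.lf 145 1 2) (.nd 167 (.nd 167 (.lf 151 1 2) (.lf 154 1 2) (.nd 167 (.lf 167 1 2) (.lf 161 1 2) (.lf 167 2 2))) (.nd 152 (.lf 144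 1 2) (.lf 137 1 2) (.nd 152 (.lf 144 1 2) (.nd 152 (.lf 141 2 2) (.lf 143 2 2) (.lf 152 1 2)) (.lf 145 1 2))) (.lf 141 1 2)) (.lf 118 1 2)) (.nd 170 (.nd 147 (.nd 147 (.lf 140 1 2) (.nd 147 (.nd 146 (.lf 132 2 2) (.lf 146 1 2) (.lf 131 2 2)) (.lf 147 1 2) (.lf 133 2 2)) (.lf 141 1 2)) (.lf 137 1 2) (.nd 141 (.lf 135 1 2) (.lf 114 2 2) (.lf 141 2 2))) (.nd 170 (.lf 142 1 2) (.nd 147 (.nd 147 (.lf 147 1 2) (.lf 132 1 2) (.nd 138 (.lf 136 1 2) (.lf 138 1 2) (.lf 136 2 2))) (.lf 110 1 2) (.lf 141 1 2)) (.nd 170 (.lf 167 1 2) (.lf 167 1 2) (.lf 170 2 2))) (.nd 170 (.lf 148 1 2) (.nd 170 (.lf 140 2 2) (.lf 170 2 2) (.lf 143 2 2)) (.lf 143 2 2)))) (.nd 202 (.nd 202 (.nd 176 (.lf 169 1 2) (.nd 176 (.lf 144 1 2) (.nd 176 (.lf 172 1 2) (.lf 166 2 2) (.nd 176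 (.lf 175 2 2) (.lf 165 1 2) (.lf 176 1 2))) (.lf 172 1 2)) (.lf 146 1 2)) (.nd 202 (.nd 184 (.nd 184 (.nd 184 (.lf 176 2 2) (.lf 162 2 2) (.lf 184 2 2)) (.lf 138 2 2) (.lf 174 2 2)) (.nd 173 (.lf 147 1 2) (.lf 173 2 2) (.lf 172 1 2)) (.lf 184 1 2)) (.nd 202 (.lf 174 1 2) (.nd 202 (.lf 197 2 2) (.lf 176 2 2) (.lf 202 1 2)) (.lf 192 1 2)) (.nd 185 (.lf 167 2 2) (.lf 167 2 2) (.nd 185 (.lf 185 2 2) (.lf 147 2 2) (.nd 185 (.lf 185 2 2) (.lf 169 2 2) (.lf 166 2 2))))) (.nd 174 (.nd 174 (.nd 174 (.lf 142 1 2) (.lf 170 1 2) (.lf 174 1 2)) (.lf 171 1 2) (.lf 172 1 2)) (.lf 162 1 2) (.lf 166 1 2))) (.nd 188 (.nd 187 (.lf 169 1 2) (.lf 141 1 2) (.nd 187 (.lf 163 1 2) (.lf 169 1 2) (.nd 187 (.lf 167 1 2) (.lf 187 1 2) (.lf 169 1 2)))) (.lf 173 1 2) (.nd 188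 (.nd 188 (.nd 188 (.lf 179 1 2) (.lf 188 1 2) (.nd 188 (.lf 186 2 2) (.lf 166 2 2) (.lf 188 1 2))) (.lf 177 1 2) (.lf 177 1 2)) (.nd 176 (.nd 174 (.nd 174 (.lf 174 1 2) (.lf 174 2 2) (.lf 159 1 2)) (.lf 167 1 2) (.lf 137 1 2)) (.lf 167 1 2) (.lf 176 1 2)) (.lf 184 1 2))) (.nd 186 (.nd 186 (.nd 186 (.lf 167 2 2) (.lf 178 1 2) (.nd 186 (.lf 186 1 2) (.lf 168 2 2) (.lf 141 2 2))) (.lf 171 1 2) (.lf 172 1 2)) (.nd 177 (.nd 177 (.lf 176 1 2) (.nd 177 (.lf 167 2 2) (.lf 168 2 2) (.nd 177 (.lf 155 1 2) (.lf 177 2 2) (.lf 176 2 2))) (.lf 175 1 2)) (.lf 167 1 2) (.lf 166 1 2)) (.lf 171 1 2)))))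

def t15_634 : Tr := (.nd 217 (.nd 217 (.nd 217 (.nd 217 (.lf 217 2 1) (.nd 201 (.lf 179 2 1) (.lf 158 2 1) (.nd 201 (.lf 201 2 1) (.nd 173 (.lf 144 2 1) (.lf 137 2 1) (.lf 173 2 1)) (.lf 174 2 1))) (.nd 202 (.lf 202 2 1) (.nd 171 (.lf 129 2 1) (.lf 171 2 1) (.lf 142 2 1)) (.nd 172 (.nd 172 (.lf 142 2 1) (.lf 172 2 1) (.nd 157 (.lf 121 2 1) (.lf 157 2 1) (.lf 157 2 1))) (.lf 120 2 1) (.lf 167 2 1)))) (.nd 207 (.lf 168 2 1) (.nd 184 (.nd 159 (.lf 114 2 1) (.lf 133 2 1) (.nd 159 (.lf 137 2 1) (.lf 152 2 1) (.lf 159 2 1))) (.lf 184 2 1) (.lf 130 2 1)) (.lf 207 2 1)) (.nd 211 (.lf 211 2 1) (.nd 172 (.nd 172 (.lf 172 2 1) (.lf 143 2 1) (.nd 155 (.lf 127 2 1) (.lf 155 2 1) (.lf 151 2 1))) (.lf 167 2 1) (.lf 143 2 1)) (.nd 200 (.lf 200 2 1) (.lf 171 2 1)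 (.nd 163 (.lf 163 2 1) (.nd 131 (.lf 114 2 1) (.lf 131 2 1) (.lf 115 2 1)) (.lf 145 2 1))))) (.nd 198 (.nd 147 (.lf 118 2 1) (.lf 140 2 1) (.nd 147 (.nd 137 (.lf 137 2 1) (.lf 114 2 1) (.lf 136 2 1)) (.lf 147 2 1) (.lf 128 2 1))) (.lf 198 2 1) (.lf 196 2 1)) (.nd 210 (.lf 202 2 1) (.nd 175 (.nd 118 (.lf 109 2 1) (.lf 88 2 1) (.lf 118 2 1)) (.lf 166 2 1) (.nd 175 (.lf 175 2 1) (.lf 163 2 1) (.nd 136 (.lf 112 2 1) (.lf 136 2 1) (.nd 117 (.lf 111 2 1) (.lf 117 2 1) (.lf 88 2 1))))) (.lf 210 2 1))) (.nd 213 (.nd 213 (.nd 196 (.nd 166 (.lf 146 2 1) (.lf 166 2 1) (.nd 166 (.lf 136 2 1) (.nd 111 (.lf 111 2 1) (.lf 79 2 1) (.lf 100 2 1)) (.lf 166 2 1))) (.lf 196 2 1) (.lf 174 2 1)) (.lf 209 2 1) (.lf 213 2 1)) (.lf 176 2 1) (.lf 206 1 1)) (.nd 216 (.nd 196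 (.nd 179 (.nd 179 (.nd 179 (.nd 153 (.lf 124 2 1) (.lf 153 2 1) (.lf 124 2 1)) (.lf 150 2 1) (.nd 179 (.lf 173 1 1) (.nd 179 (.lf 156 2 1) (.lf 179 2 1) (.lf 174 2 1)) (.lf 171 1 1))) (.lf 151 2 1) (.nd 173 (.lf 173 2 1) (.nd 166 (.lf 166 1 1) (.lf 155 2 1) (.lf 164 2 1)) (.nd 162 (.nd 158 (.lf 158 1 1) (.lf 157 1 1) (.nd 158 (.lf 138 1 1) (.lf 135 1 1) (.lf 158 2 1))) (.lf 162 1 1) (.lf 144 1 1)))) (.nd 149 (.nd 149 (.lf 127 1 1) (.lf 124 1 1) (.nd 149 (.lf 146 1 1) (.lf 124 1 1) (.lf 149 1 1))) (.lf 119 1 1) (.lf 116 1 1)) (.lf 152 1 1)) (.nd 196 (.lf 196 2 1) (.nd 184 (.nd 150 (.lf 145 1 1) (.lf 146 1 1) (.lf 150 2 1)) (.lf 184 2 1) (.lf 163 1 1)) (.nd 172 (.lf 148 1 1) (.lf 172 1 1) (.nd 170 (.lf 160 1 1) (.nd 162 (.lf 145 2 1) (.lf 146 1 1)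 (.lf 162 1 1)) (.nd 170 (.lf 149 1 1) (.lf 146 1 1) (.lf 170 1 1))))) (.lf 150 1 1)) (.nd 216 (.nd 210 (.nd 210 (.lf 210 1 1) (.lf 210 1 1) (.nd 196 (.lf 196 2 1) (.lf 189 2 1) (.nd 167 (.lf 139 2 1) (.lf 159 2 1) (.lf 167 2 1)))) (.lf 210 1 1) (.lf 210 1 1)) (.nd 216 (.lf 207 1 1) (.nd 216 (.lf 190 1 1) (.lf 216 1 1) (.nd 205 (.lf 168 2 1) (.nd 196 (.lf 170 2 1) (.nd 196 (.lf 196 2 1) (.lf 196 2 1) (.lf 156 2 1)) (.lf 167 2 1)) (.lf 205 2 1))) (.nd 208 (.lf 205 2 1) (.lf 191 2 1) (.lf 208 1 1))) (.lf 207 1 1)) (.nd 199 (.nd 162 (.lf 146 1 1) (.nd 149 (.lf 107 1 1) (.lf 135 1 1) (.lf 149 1 1)) (.nd 162 (.lf 149 1 1) (.lf 162 1 1) (.lf 155 1 1))) (.lf 199 1 1) (.nd 170 (.lf 121 1 1) (.lf 170 1 1) (.nd 147 (.lf 123 1 1) (.lf 118 1 1) (.lf 147 1 1))))))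

def t15_635 : Tr := (.nd 233 (.nd 232 (.nd 218 (.lf 218 1 2) (.nd 185 (.lf 185 1 2) (.lf 177 1 2) (.nd 171 (.lf 171 1 2) (.lf 143 1 2) (.lf 163 1 2))) (.lf 210 1 2)) (.lf 232 1 2) (.lf 204 1 2)) (.nd 233 (.nd 189 (.lf 189 1 2) (.nd 173 (.lf 173 1 2) (.lf 144 1 2) (.nd 136 (.lf 123 1 2) (.nd 136 (.lf 129 1 2) (.lf 123 1 2) (.lf 136 1 2)) (.lf 120 1 2))) (.nd 176 (.nd 171 (.lf 126 1 2) (.nd 171 (.lf 152 1 2) (.nd 171 (.lf 146 1 2) (.lf 143 1 2) (.lf 171 1 2)) (.nd 152 (.lf 152 1 2) (.lf 129 1 2) (.lf 147 1 2))) (.lf 123 1 2)) (.lf 176 1 2) (.lf 124 1 2))) (.lf 233 1 2) (.lf 209 1 2)) (.nd 207 (.lf 172 1 2) (.nd 178 (.lf 178 1 2) (.lf 138 1 2) (.nd 178 (.nd 178 (.lf 178 1 2) (.lf 178 1 2) (.lf 157 1 2)) (.lf 149 1 2) (.lf 152 1 2))) (.lf 207 1 2)))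

def t15_637 : Tr := (.nd 201 (.nd 177 (.nd 148 (.lf 115 1 3) (.lf 118 1 3) (.nd 148 (.lf 126 1 3) (.lf 148 1 3) (.lf 123 1 3))) (.nd 177 (.lf 177 1 3) (.nd 162 (.nd 160 (.lf 117 1 3) (.nd 159 (.lf 159 1 3) (.lf 145 1 3) (.lf 148 1 3)) (.nd 160 (.lf 140 1 3) (.lf 160 1 3) (.lf 145 1 3))) (.nd 161 (.nd 161 (.lf 161 1 3) (.lf 156 1 3) (.lf 157 1 3)) (.lf 143 1 3) (.nd 158 (.nd 158 (.lf 137 1 3) (.lf 158 1 3) (.lf 152 1 3)) (.lf 112 1 3) (.lf 142 1 3))) (.nd 162 (.lf 145 1 3) (.nd 157 (.nd 157 (.lf 143 1 3) (.lf 146 1 3) (.lf 157 1 3)) (.lf 155 1 3) (.lf 143 1 3)) (.nd 162 (.lf 146 1 3) (.lf 117 1 3) (.lf 162 1 3)))) (.lf 177 1 3)) (.nd 151 (.nd 151 (.nd 151 (.nd 148 (.lf 148 1 3) (.lf 131 1 3) (.lf 125 1 3)) (.lf 128 1 3) (.lf 151 1 3)) (.nd 145 (.lf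 135 1 3) (.lf 136 1 3) (.lf 145 1 3)) (.lf 135 1 3)) (.lf 122 1 3) (.lf 122 1 3))) (.nd 149 (.nd 149 (.nd 149 (.lf 123 1 3) (.lf 123 1 3) (.nd 149 (.nd 149 (.lf 149 1 3) (.lf 134 1 3) (.lf 120 1 3)) (.nd 148 (.lf 148 1 3) (.lf 145 1 3) (.lf 135 1 3)) (.nd 142 (.lf 137 1 3) (.lf 132 1 3) (.nd 142 (.nd 141 (.lf 113 1 3) (.lf 141 1 3) (.lf 136 1 3)) (.lf 137 1 3) (.nd 142 (.lf 142 1 3) (.lf 137 1 3) (.lf 133 1 3)))))) (.lf 132 1 3) (.nd 141 (.nd 140 (.lf 88 1 3) (.lf 118 1 3) (.nd 140 (.lf 125 1 3) (.lf 110 1 3) (.nd 140 (.lf 140 1 3) (.lf 109 1 3) (.lf 116 1 3)))) (.nd 141 (.lf 130 1 3) (.lf 134 1 3) (.nd 141 (.lf 141 1 3) (.lf 117 1 3) (.lf 125 1 3))) (.lf 118 1 3))) (.lf 120 1 3) (.nd 144 (.nd 144 (.lf 129 1 3) (.lf 114 1 3) (.nd 144 (.lf 113 1 3)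 (.lf 120 1 3) (.lf 144 1 3))) (.lf 92 1 3) (.nd 120 (.lf 120 1 3) (.lf 91 1 3) (.lf 94 1 3)))) (.nd 201 (.lf 171 1 3) (.nd 186 (.lf 162 1 3) (.nd 186 (.lf 169 1 3) (.lf 186 1 3) (.lf 175 1 3)) (.lf 163 1 3)) (.nd 201 (.lf 177 1 3) (.lf 170 1 3) (.nd 201 (.nd 187 (.lf 185 1 3) (.lf 182 1 3) (.nd 187 (.lf 167 1 3) (.nd 187 (.lf 140 1 3) (.lf 169 1 3) (.lf 187 1 3)) (.lf 185 1 3))) (.nd 201 (.nd 201 (.lf 179 1 3) (.lf 201 1 3) (.lf 175 1 3)) (.nd 186 (.lf 159 1 3) (.lf 148 1 3) (.lf 186 1 3)) (.lf 175 1 3)) (.lf 200 1 3)))))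

def t15_640 : Tr := (.nd 191 (.nd 151 (.nd 144 (.lf 120 1 1) (.nd 144 (.lf 114 1 1) (.nd 144 (.lf 144 1 1) (.lf 118 1 1) (.lf 120 1 1)) (.lf 129 1 1)) (.lf 92 1 1)) (.nd 151 (.lf 151 1 1) (.lf 132 1 1) (.nd 141 (.nd 141 (.lf 141 1 1) (.lf 128 1 1) (.lf 136 1 1)) (.lf 118 1 1) (.nd 140 (.lf 88 1 1) (.lf 118 1 1) (.nd 140 (.nd 140 (.lf 116 1 1) (.lf 140 1 1) (.lf 109 1 1)) (.lf 125 1 1) (.lf 110 1 1))))) (.nd 122 (.lf 122 1 1) (.nd 114 (.lf 63 1 1) (.lf 114 1 1) (.lf 92 1 1)) (.lf 94 1 1))) (.nd 191 (.nd 186 (.nd 186 (.nd 186 (.nd 185 (.lf 185 2 3) (.lf 173 2 3) (.lf 167 1 1)) (.lf 186 1 1) (.lf 182 1 1)) (.nd 186 (.lf 166 2 3) (.lf 158 2 3) (.lf 186 1 1)) (.nd 177 (.lf 146 2 3) (.nd 177 (.nd 177 (.lf 147 1 1) (.lf 174 2 3) (.lf 177 1 1)) (.lf 145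 2 3) (.lf 148 2 3)) (.nd 174 (.lf 168 2 3) (.nd 174 (.lf 157 1 1) (.lf 174 2 3) (.lf 168 1 1)) (.lf 168 1 1)))) (.lf 182 1 1) (.lf 181 1 1)) (.lf 176 1 1) (.lf 191 1 1)) (.nd 184 (.nd 148 (.lf 117 1 1) (.lf 118 1 1) (.lf 148 1 1)) (.nd 184 (.nd 175 (.lf 171 2 3) (.lf 175 1 1) (.lf 172 1 1)) (.nd 184 (.lf 169 1 1) (.lf 184 1 1) (.lf 177 1 1)) (.lf 177 1 1)) (.nd 153 (.lf 153 1 1) (.nd 125 (.lf 117 1 1) (.nd 96 (.lf 96 1 1) (.lf 65 1 1) (.lf 66 1 1)) (.lf 125 1 1)) (.lf 122 1 1))))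

def t15_641 : Tr := (.nd 206 (.nd 169 (.nd 152 (.nd 117 (.lf 117 2 2) (.lf 62 2 2) (.lf 107 2 2)) (.lf 152 2 2) (.nd 134 (.nd 90 (.nd 90 (.lf 82 2 2) (.nd 90 (.lf 79 2 2) (.lf 90 2 2) (.lf 79 2 2)) (.lf 55 2 2)) (.lf 83 2 2) (.lf 46 2 2)) (.lf 131 2 2) (.lf 134 2 2))) (.lf 169 2 2) (.nd 148 (.nd 91 (.lf 82 2 2) (.lf 91 2 2) (.lf 61 2 2)) (.lf 148 2 2) (.lf 139 2 2))) (.nd 171 (.lf 120 2 2) (.nd 165 (.nd 122 (.nd 91 (.nd 61 (.lf 56 2 2) (.lf 23 2 2) (.lf 61 2 2)) (.nd 60 (.lf 31 2 2) (.lf 60 2 2) (.lf 29 2 2)) (.lf 91 2 2)) (.lf 94 2 2) (.lf 122 2 2)) (.lf 165 2 2) (.lf 117 2 2)) (.lf 171 2 2)) (.lf 206 2 2))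

def t15_643 : Tr := (.nd 126 (.nd 126 (.nd 125 (.nd 125 (.nd 113 (.lf 113 2 1) (.lf 105 1 1) (.lf 107 2 1)) (.nd 125 (.nd 125 (.nd 125 (.lf 112 1 1) (.lf 125 2 1) (.nd 125 (.lf 123 2 1) (.lf 107 2 1) (.lf 125 1 1))) (.lf 114 2 1) (.nd 113 (.nd 113 (.lf 113 2 1) (.lf 106 2 1) (.lf 103 1 1)) (.lf 86 2 1) (.lf 100 2 1))) (.nd 125 (.lf 118 1 1) (.nd 125 (.lf 111 1 1) (.lf 125 2 1) (.lf 109 1 1)) (.lf 125 2 1)) (.nd 122 (.lf 115 2 1) (.lf 122 1 1) (.nd 115 (.lf 115 1 1) (.lf 105 2 1) (.lf 111 2 1)))) (.nd 117 (.lf 107 2 1) (.lf 117 2 1) (.lf 93 1 1))) (.lf 112 2 1) (.lf 122 2 1)) (.nd 126 (.nd 116 (.lf 97 2 1) (.lf 96 2 1) (.lf 116 2 1)) (.lf 111 2 1) (.nd 126 (.nd 116 (.lf 116 2 1) (.nd 115 (.nd 115 (.lf 114 2 1) (.lf 114 2 1) (.nd 115 (.lf 115 1 1)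 (.lf 114 2 1) (.lf 106 1 1))) (.nd 114 (.lf 102 2 1) (.nd 114 (.lf 106 1 1) (.lf 108 2 1) (.lf 114 2 1)) (.lf 101 2 1)) (.lf 110 2 1)) (.lf 88 2 1)) (.nd 126 (.nd 126 (.lf 124 2 1) (.lf 123 1 1) (.nd 126 (.nd 126 (.nd 126 (.lf 126 2 1) (.lf 126 1 1) (.lf 126 1 1)) (.lf 102 1 1) (.lf 120 2 1)) (.lf 116 1 1) (.lf 122 1 1))) (.nd 121 (.lf 120 2 1) (.nd 121 (.lf 119 2 1) (.lf 110 2 1) (.nd 121 (.lf 117 2 1) (.lf 101 1 1) (.nd 121 (.lf 121 1 1) (.lf 115 2 1) (.lf 99 2 1)))) (.lf 119 2 1)) (.lf 122 2 1)) (.nd 117 (.lf 108 2 1) (.lf 108 2 1) (.nd 117 (.nd 117 (.lf 91 2 1) (.lf 117 1 1) (.lf 109 2 1)) (.lf 114 1 1) (.lf 114 2 1))))) (.nd 126 (.nd 126 (.lf 102 1 1) (.nd 126 (.nd 126 (.lf 124 1 1) (.nd 126 (.lf 114 2 1) (.lf 114 1 1) (.nd 126 (.nd 126 (.lf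 121 1 1) (.lf 120 1 1) (.lf 126 2 1)) (.lf 116 2 1) (.lf 120 1 1))) (.lf 100 1 1)) (.lf 110 2 1) (.lf 104 2 1)) (.lf 116 1 1)) (.nd 120 (.nd 118 (.nd 113 (.lf 87 1 1) (.lf 87 1 1) (.nd 113 (.lf 113 2 1) (.lf 111 1 1) (.lf 108 1 1))) (.nd 118 (.lf 115 1 1) (.lf 118 2 1) (.nd 117 (.lf 102 1 1) (.nd 117 (.lf 108 1 1) (.lf 111 2 1) (.nd 117 (.lf 116 2 1) (.lf 117 2 1) (.lf 116 1 1))) (.lf 86 2 1))) (.lf 90 1 1)) (.nd 120 (.nd 119 (.nd 112 (.lf 84 1 1) (.lf 112 1 1) (.lf 111 2 1)) (.nd 119 (.lf 89 2 1) (.lf 119 2 1) (.lf 119 1 1)) (.lf 116 1 1)) (.lf 110 2 1) (.nd 120 (.lf 114 1 1) (.nd 120 (.lf 109 1 1) (.lf 110 1 1) (.lf 120 1 1)) (.lf 117 2 1))) (.nd 114 (.nd 106 (.nd 106 (.lf 106 1 1) (.lf 105 2 1) (.lf 81 2 1)) (.lf 88 1 1) (.lf 61 1 1)) (.lf 87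 1 1) (.lf 114 1 1))) (.nd 122 (.nd 122 (.lf 99 2 1) (.lf 85 2 1) (.nd 122 (.lf 112 2 1) (.nd 122 (.nd 103 (.nd 103 (.lf 99 1 1) (.lf 83 2 1) (.lf 103 2 1)) (.lf 83 1 1) (.lf 85 1 1)) (.nd 122 (.lf 110 2 1) (.lf 112 2 1) (.lf 122 1 1)) (.lf 115 1 1)) (.lf 105 2 1))) (.nd 113 (.lf 97 2 1) (.lf 105 2 1) (.nd 113 (.lf 113 2 1) (.lf 109 2 1) (.nd 113 (.lf 105 2 1) (.lf 106 2 1) (.lf 113 2 1)))) (.nd 118 (.lf 109 1 1) (.nd 118 (.lf 109 2 1) (.nd 118 (.lf 101 1 1) (.lf 89 1 1) (.nd 118 (.nd 93 (.lf 91 1 1) (.lf 92 1 1) (.lf 93 2 1)) (.lf 113 1 1) (.lf 118 2 1))) (.nd 111 (.lf 104 2 1) (.lf 111 1 1) (.lf 89 1 1))) (.nd 107 (.nd 107 (.lf 98 1 1) (.nd 107 (.lf 98 1 1) (.lf 90 1 1) (.lf 107 2 1)) (.lf 91 1 1)) (.lf 82 1 1) (.lf 74 1 1)))))) (.nd 100 (.lf 90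 2 1) (.nd 100 (.nd 100 (.nd 100 (.lf 100 2 1) (.lf 100 2 1) (.lf 95 1 1)) (.lf 86 1 1) (.lf 78 1 1)) (.nd 99 (.lf 66 1 1) (.nd 94 (.nd 94 (.lf 80 2 1) (.lf 94 1 1) (.lf 54 2 1)) (.lf 65 1 1) (.lf 68 1 1)) (.nd 99 (.lf 99 2 1) (.nd 99 (.nd 99 (.lf 92 1 1) (.lf 99 2 1) (.lf 86 1 1)) (.lf 79 1 1) (.lf 80 1 1)) (.lf 88 1 1))) (.nd 98 (.lf 90 2 1) (.lf 85 2 1) (.nd 98 (.nd 98 (.nd 94 (.lf 94 1 1) (.lf 93 2 1) (.lf 92 1 1)) (.lf 91 2 1) (.lf 98 2 1)) (.lf 94 2 1) (.lf 89 2 1)))) (.lf 92 2 1)) (.nd 100 (.nd 70 (.nd 35 (.nd 32 (.nd 30 (.lf 20 2 1) (.lf 19 2 1) (.nd 30 (.nd 28 (.lf 24 1 1) (.lf 27 1 1) (.nd 28 (.lf 28 1 1) (.lf 24 1 1) (.lf 26 2 1))) (.nd 30 (.lf 24 2 1) (.lf 29 2 1) (.nd 30 (.lf 29 2 1) (.lf 30 2 1) (.lf 22 1 1))) (.nd 25 (.lf 20 2 1) (.lf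 25 1 1) (.lf 21 2 1)))) (.lf 22 2 1) (.lf 32 2 1)) (.lf 12 2 1) (.lf 35 2 1)) (.lf 70 2 1) (.lf 65 2 1)) (.nd 98 (.lf 72 2 1) (.nd 98 (.lf 98 2 1) (.nd 94 (.lf 92 2 1) (.lf 89 2 1) (.nd 94 (.lf 94 2 1) (.lf 62 1 1) (.lf 91 2 1))) (.lf 98 2 1)) (.lf 69 2 1)) (.nd 100 (.nd 100 (.lf 98 2 1) (.nd 100 (.lf 89 1 1) (.nd 100 (.nd 83 (.lf 80 2 1) (.lf 83 1 1) (.lf 69 2 1)) (.lf 100 1 1) (.lf 96 2 1)) (.nd 85 (.nd 85 (.lf 79 1 1) (.lf 85 1 1) (.nd 85 (.lf 85 1 1) (.lf 83 1 1) (.lf 61 2 1))) (.lf 85 1 1) (.lf 57 1 1))) (.lf 96 2 1)) (.nd 96 (.nd 96 (.lf 96 2 1) (.lf 88 1 1) (.lf 90 2 1)) (.lf 83 2 1) (.lf 63 1 1)) (.nd 68 (.nd 67 (.nd 67 (.lf 63 2 1) (.lf 57 1 1) (.nd 67 (.lf 62 2 1) (.lf 58 2 1) (.lf 67 1 1))) (.lf 34 1 1) (.lf 61 1 1)) (.lf 68 2 1) (.lf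 60 1 1)))))

def t15_644 : Tr := (.nd 299 (.lf 281 1 2) (.nd 299 (.nd 276 (.nd 276 (.lf 260 1 2) (.nd 235 (.lf 206 1 2) (.lf 230 1 2) (.lf 235 1 2)) (.lf 276 1 2)) (.lf 276 1 4) (.lf 268 1 4)) (.nd 280 (.lf 280 1 2) (.nd 275 (.nd 254 (.lf 254 1 2) (.nd 235 (.lf 230 1 2) (.lf 183 1 2) (.lf 235 1 2)) (.lf 234 1 2)) (.nd 257 (.lf 234 1 2) (.lf 257 1 2) (.nd 239 (.lf 209 1 2) (.lf 208 1 2) (.lf 239 1 2))) (.nd 275 (.nd 259 (.lf 239 1 2) (.lf 259 1 2) (.nd 248 (.lf 248 1 2) (.lf 212 1 2) (.lf 197 1 2))) (.lf 254 1 4) (.lf 275 1 2))) (.nd 252 (.nd 252 (.lf 252 1 2) (.nd 248 (.nd 225 (.lf 194 1 4) (.nd 202 (.lf 202 1 2) (.lf 166 1 4) (.lf 194 1 4)) (.lf 225 1 4)) (.lf 248 1 4) (.nd 206 (.nd 197 (.lf 197 1 4) (.lf 181 1 2) (.lf 189 1 2)) (.lf 195 1 4) (.lf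 206 1 2))) (.nd 239 (.lf 235 1 4) (.lf 211 1 4) (.lf 239 1 4))) (.lf 251 1 4) (.lf 227 1 4))) (.nd 299 (.lf 296 1 2) (.nd 291 (.lf 278 1 2) (.lf 290 2 4) (.lf 291 1 4)) (.lf 299 1 2))) (.nd 270 (.lf 253 1 2) (.lf 254 1 2) (.nd 270 (.nd 250 (.nd 250 (.nd 229 (.lf 229 2 4) (.nd 195 (.lf 189 1 2) (.lf 189 1 2) (.nd 195 (.lf 182 1 2) (.lf 182 2 4) (.nd 195 (.lf 182 1 2) (.lf 195 2 4) (.lf 182 1 2)))) (.nd 202 (.lf 197 2 4) (.lf 202 2 4) (.nd 194 (.lf 194 1 2) (.lf 185 2 4) (.lf 184 2 4)))) (.lf 250 2 4) (.lf 246 2 4)) (.nd 242 (.lf 220 2 4) (.lf 191 2 4) (.lf 242 2 4)) (.lf 222 2 4)) (.lf 264 1 2) (.lf 270 1 2))))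

def t15_646 : Tr := (.nd 344 (.nd 334 (.nd 321 (.lf 281 1 5) (.nd 284 (.nd 241 (.nd 225 (.lf 186 1 5) (.nd 225 (.lf 225 1 5) (.lf 195 1 5) (.lf 210 1 5)) (.lf 220 1 5)) (.nd 224 (.lf 195 1 5) (.lf 224 1 5) (.lf 193 1 5)) (.nd 241 (.lf 241 1 3) (.lf 211 1 3) (.lf 232 1 3))) (.nd 246 (.lf 232 1 5) (.nd 246 (.lf 246 1 5) (.nd 246 (.lf 242 1 5) (.lf 245 1 5) (.nd 246 (.lf 246 1 5) (.lf 229 1 5) (.lf 217 1 5))) (.lf 212 1 3)) (.lf 229 1 5)) (.lf 284 1 5)) (.lf 321 1 3)) (.lf 334 1 5) (.nd 282 (.nd 282 (.nd 265 (.lf 265 1 3) (.nd 251 (.lf 248 1 3) (.nd 251 (.lf 251 1 5) (.lf 223 1 5) (.lf 220 1 5)) (.lf 216 1 3)) (.lf 251 1 5)) (.lf 265 1 5) (.lf 282 1 5)) (.lf 277 1 5) (.lf 253 1 5))) (.lf 344 1 3) (.nd 333 (.nd 294 (.nd 281 (.nd 258 (.nd 258 (.lf 258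 1 3) (.nd 232 (.nd 227 (.nd 223 (.lf 202 1 5) (.lf 223 1 3) (.lf 193 1 3)) (.lf 224 1 3) (.lf 227 1 5)) (.lf 226 1 5) (.lf 232 1 3)) (.lf 252 1 3)) (.lf 219 1 5) (.lf 224 1 5)) (.lf 281 1 5) (.nd 215 (.lf 215 1 5) (.lf 194 1 5) (.nd 215 (.lf 193 1 3) (.lf 215 1 5) (.lf 185 1 3)))) (.lf 294 1 5) (.lf 256 1 3)) (.lf 333 1 5) (.lf 302 1 5)))

def t15_649 : Tr := (.nd 159 (.nd 159 (.nd 159 (.lf 145 1 1) (.nd 159 (.nd 159 (.nd 149 (.lf 118 1 1) (.lf 128 1 1) (.lf 149 1 1)) (.lf 143 1 1) (.lf 159 1 1)) (.nd 137 (.lf 119 1 1) (.lf 118 1 1) (.lf 137 1 1)) (.nd 136 (.lf 111 1 1) (.lf 116 1 1) (.nd 136 (.lf 122 1 1) (.lf 136 1 1) (.lf 123 1 1)))) (.nd 149 (.lf 145 1 3) (.lf 142 1 3) (.nd 149 (.lf 132 1 1) (.lf 149 1 1) (.lf 144 1 1)))) (.nd 149 (.lf 127 1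 1) (.lf 122 1 1) (.nd 149 (.lf 142 1 1) (.lf 142 1 1) (.nd 149 (.lf 129 1 1) (.lf 149 1 1) (.lf 146 1 1)))) (.nd 115 (.nd 115 (.lf 106 1 1) (.lf 115 1 1) (.nd 107 (.lf 107 1 3) (.lf 97 1 1) (.lf 97 1 1))) (.lf 94 1 1) (.nd 107 (.nd 107 (.lf 103 1 1) (.lf 88 1 1) (.nd 107 (.lf 94 1 1) (.lf 107 1 3) (.lf 87 1 1))) (.lf 66 1 1) (.lf 94 1 1)))) (.nd 151 (.nd 125 (.nd 122 (.lf 92 1 1) (.lf 65 1 1) (.lf 122 1 1)) (.lf 93 1 1) (.nd 125 (.lf 122 1 1) (.lf 125 1 1) (.nd 118 (.lf 109 1 1) (.lf 89 1 1) (.nd 118 (.lf 118 1 1) (.lf 96 1 1) (.lf 114 1 1))))) (.lf 143 1 1) (.lf 151 1 1)) (.nd 156 (.nd 147 (.nd 143 (.lf 141 1 1) (.nd 143 (.lf 143 1 1) (.lf 143 1 1) (.lf 141 1 3)) (.lf 128 1 1)) (.lf 147 1 1) (.lf 125 1 1)) (.nd 147 (.nd 139 (.nd 126 (.lf 113 1 3)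 (.lf 114 1 3) (.lf 126 1 1)) (.nd 139 (.lf 138 1 1) (.lf 122 1 1) (.nd 139 (.nd 139 (.lf 139 1 1) (.lf 139 1 3) (.lf 139 1 1)) (.lf 139 1 1) (.lf 139 1 1))) (.lf 124 1 1)) (.lf 147 1 3) (.nd 144 (.lf 135 1 1) (.lf 144 1 1) (.nd 143 (.lf 142 1 1) (.lf 139 1 1) (.lf 143 1 3)))) (.nd 156 (.nd 156 (.nd 156 (.lf 129 1 1) (.lf 156 1 3) (.lf 151 1 3)) (.nd 139 (.nd 136 (.lf 136 1 3) (.lf 114 1 1) (.lf 135 1 1)) (.nd 139 (.nd 129 (.lf 107 1 3) (.lf 120 1 1) (.lf 129 1 3)) (.nd 126 (.lf 111 1 3) (.lf 126 1 1) (.lf 109 1 3)) (.nd 139 (.nd 137 (.lf 135 1 3) (.lf 137 1 1) (.lf 122 1 3)) (.lf 139 1 1) (.lf 137 1 1))) (.lf 137 1 3)) (.nd 130 (.nd 124 (.nd 118 (.lf 115 1 1) (.lf 99 1 1) (.nd 118 (.lf 107 1 3) (.lf 102 1 1) (.lf 118 1 1))) (.lf 124 1 1) (.lf 120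 1 1)) (.nd 130 (.lf 124 1 3) (.lf 130 1 1) (.nd 127 (.lf 94 1 1) (.lf 107 1 3) (.nd 127 (.lf 127 1 1) (.lf 107 1 3) (.lf 121 1 3)))) (.nd 125 (.lf 110 1 1) (.lf 125 1 1) (.lf 110 1 3)))) (.nd 139 (.nd 134 (.nd 134 (.lf 134 1 3) (.nd 126 (.lf 120 1 3) (.lf 125 1 1) (.lf 126 1 3)) (.lf 113 1 3)) (.lf 121 1 1) (.lf 107 1 3)) (.lf 119 1 1) (.nd 139 (.nd 133 (.lf 132 1 1) (.lf 132 1 3) (.lf 133 1 1)) (.nd 139 (.nd 139 (.lf 139 1 1) (.lf 136 1 3) (.lf 137 1 3)) (.lf 131 1 3) (.lf 124 1 3)) (.nd 135 (.lf 117 1 1) (.lf 135 1 3) (.lf 131 1 3)))) (.nd 137 (.lf 118 1 1) (.nd 137 (.lf 90 1 1) (.lf 106 1 1) (.nd 137 (.lf 130 1 1) (.lf 115 1 1) (.lf 137 1 3))) (.lf 118 1 3)))))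

def t15_650 : Tr := (.nd 247 (.lf 232 1 2) (.lf 247 1 2) (.nd 222 (.lf 181 1 2) (.lf 222 1 2) (.nd 206 (.nd 180 (.lf 150 1 2) (.lf 180 1 2) (.nd 147 (.lf 110 1 2) (.lf 147 1 2) (.nd 118 (.lf 95 1 2) (.lf 69 1 2) (.lf 118 1 2)))) (.lf 206 1 2) (.lf 183 1 2))))

def t15_652 : Tr := (.nd 179 (.nd 164 (.nd 141 (.nd 141 (.lf 131 1 1) (.lf 124 1 1) (.lf 141 1 1)) (.lf 123 1 1) (.nd 122 (.nd 122 (.lf 100 1 1) (.nd 122 (.nd 122 (.lf 103 1 1) (.lf 122 1 1) (.lf 100 1 1)) (.lf 99 1 1) (.lf 107 1 1)) (.lf 107 1 1)) (.lf 83 1 1) (.lf 91 1 1))) (.nd 140 (.lf 115 1 1) (.lf 120 1 1) (.nd 140 (.lf 126 1 1) (.lf 140 1 1) (.lf 127 1 1))) (.nd 164 (.nd 164 (.nd 164 (.nd 160 (.lf 160 1 1) (.lf 151 1 1) (.lf 150 1 1)) (.lf 152 1 1) (.lf 164 1 1)) (.lf 155 1 1) (.nd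 154 (.lf 154 1 1) (.lf 140 1 1) (.lf 154 1 1))) (.nd 153 (.lf 153 1 1) (.lf 122 1 1) (.nd 132 (.nd 120 (.lf 120 1 1) (.lf 92 1 1) (.lf 98 1 1)) (.lf 111 1 1) (.lf 132 1 1))) (.nd 147 (.lf 147 1 1) (.nd 143 (.lf 122 1 1) (.lf 143 1 1) (.lf 138 1 1)) (.lf 124 1 1)))) (.nd 179 (.nd 153 (.nd 153 (.lf 142 1 1) (.nd 153 (.lf 133 1 1) (.lf 145 1 1) (.nd 153 (.lf 136 1 1) (.lf 142 1 1) (.nd 153 (.lf 147 1 1) (.nd 153 (.lf 153 1 1) (.lf 143 1 1) (.lf 153 1 1)) (.lf 145 1 1)))) (.lf 127 1 1)) (.nd 148 (.lf 119 1 1) (.nd 148 (.lf 135 1 1) (.nd 148 (.lf 127 1 1) (.nd 148 (.lf 132 1 1) (.lf 148 1 1) (.lf 133 1 1)) (.lf 122 1 1)) (.lf 143 1 1)) (.nd 138 (.lf 122 1 1) (.lf 95 1 1) (.lf 138 1 1))) (.nd 136 (.lf 121 1 1) (.lf 105 1 1) (.lf 136 1 1))) (.nd 179 (.nd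 178 (.lf 178 1 1) (.nd 177 (.nd 163 (.lf 145 1 1) (.lf 147 1 1) (.nd 163 (.lf 161 1 1) (.lf 154 1 1) (.lf 163 1 1))) (.nd 177 (.lf 177 1 1) (.nd 168 (.lf 158 1 1) (.lf 168 1 1) (.lf 161 1 1)) (.nd 172 (.lf 172 1 1) (.lf 161 1 1) (.lf 160 1 1))) (.nd 170 (.lf 125 1 1) (.nd 170 (.lf 170 1 1) (.lf 147 1 1) (.lf 153 1 1)) (.lf 155 1 1))) (.nd 171 (.lf 171 1 1) (.nd 170 (.nd 170 (.lf 159 1 1) (.lf 166 1 1) (.lf 170 1 1)) (.lf 146 1 1) (.lf 135 1 1)) (.lf 146 1 1))) (.nd 165 (.nd 165 (.nd 165 (.nd 165 (.lf 147 1 1) (.nd 165 (.lf 143 1 1) (.lf 153 1 1) (.lf 165 1 1)) (.lf 153 1 1)) (.lf 118 1 1) (.lf 147 1 1)) (.nd 163 (.nd 163 (.lf 148 1 1) (.lf 152 1 1) (.lf 163 1 1)) (.lf 151 1 1) (.lf 153 1 1)) (.lf 145 1 1)) (.nd 163 (.lf 154 1 1) (.nd 160 (.nd 160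 (.lf 148 1 1) (.lf 160 1 1) (.lf 155 1 1)) (.lf 150 1 1) (.lf 146 1 1)) (.nd 163 (.lf 150 1 1) (.nd 163 (.lf 158 1 1) (.lf 163 1 1) (.lf 153 1 1)) (.lf 150 1 1))) (.nd 160 (.lf 142 1 1) (.lf 134 1 1) (.lf 160 1 1))) (.nd 179 (.nd 164 (.nd 164 (.nd 164 (.lf 155 1 1) (.lf 164 1 1) (.lf 164 1 1)) (.lf 157 1 1) (.lf 147 1 1)) (.lf 137 1 1) (.lf 126 1 1)) (.nd 153 (.nd 152 (.lf 122 1 1) (.lf 152 1 1) (.lf 152 1 1)) (.lf 138 1 1) (.nd 153 (.lf 145 1 1) (.lf 122 1 1) (.lf 153 1 1))) (.nd 179 (.nd 179 (.lf 159 1 1) (.lf 179 1 1) (.nd 173 (.lf 150 1 1) (.lf 171 1 1) (.nd 173 (.lf 154 1 1) (.lf 156 1 1) (.lf 173 1 1)))) (.nd 153 (.lf 153 1 1) (.lf 125 1 1) (.lf 153 1 1)) (.lf 157 1 1)))) (.nd 155 (.nd 151 (.nd 151 (.nd 151 (.lf 142 1 1) (.lf 145 1 1) (.nd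 151 (.lf 137 1 1) (.nd 151 (.lf 149 1 1) (.lf 143 1 1) (.lf 151 1 1)) (.nd 150 (.lf 125 1 1) (.lf 126 1 1) (.lf 150 1 1)))) (.lf 128 1 1) (.lf 141 1 1)) (.lf 128 1 1) (.lf 110 1 1)) (.nd 155 (.lf 134 1 1) (.nd 150 (.lf 98 1 1) (.lf 124 1 1) (.nd 150 (.lf 135 1 1) (.lf 120 1 1) (.nd 150 (.lf 150 1 1) (.lf 124 1 1) (.lf 126 1 1)))) (.nd 155 (.lf 153 1 1) (.lf 135 1 1) (.lf 155 1 1))) (.nd 147 (.nd 142 (.lf 118 1 1) (.lf 142 1 1) (.lf 123 1 1)) (.lf 121 1 1) (.lf 147 1 1)))) (.nd 149 (.nd 125 (.lf 99 1 1) (.nd 119 (.nd 68 (.lf 61 1 1) (.lf 39 1 1) (.lf 68 1 1)) (.lf 95 1 1) (.lf 119 1 1)) (.nd 125 (.nd 125 (.lf 100 1 1) (.lf 95 1 1) (.lf 125 1 1)) (.lf 108 1 1) (.nd 116 (.lf 94 1 1) (.lf 108 1 1) (.lf 116 1 1)))) (.nd 147 (.nd 147 (.lf 123 1 1) (.nd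 126 (.lf 126 1 1) (.nd 126 (.lf 120 1 1) (.lf 126 1 1) (.lf 124 1 1)) (.lf 98 1 1)) (.lf 147 1 1)) (.nd 140 (.nd 140 (.lf 133 1 1) (.nd 140 (.lf 140 1 1) (.lf 130 1 1) (.lf 122 1 1)) (.lf 136 1 1)) (.lf 139 1 1) (.lf 123 1 1)) (.nd 137 (.nd 120 (.lf 94 1 1) (.lf 106 1 1) (.nd 120 (.lf 92 1 1) (.lf 120 1 1) (.lf 93 1 1))) (.nd 137 (.lf 137 1 1) (.lf 115 1 1) (.lf 119 1 1)) (.nd 132 (.nd 132 (.lf 119 1 1) (.lf 132 1 1) (.lf 115 1 1)) (.lf 118 1 1) (.lf 118 1 1)))) (.nd 149 (.nd 149 (.lf 119 1 1) (.lf 134 1 1) (.nd 149 (.lf 125 1 1) (.lf 123 1 1) (.nd 149 (.lf 147 1 1) (.lf 135 1 1) (.lf 149 1 1)))) (.lf 127 1 1) (.lf 97 1 1))))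

def t15_653 : Tr := (.nd 173 (.nd 161 (.nd 144 (.lf 92 1 2) (.nd 139 (.lf 139 1 2) (.lf 91 1 2) (.lf 94 1 2)) (.lf 144 1 2)) (.nd 161 (.nd 161 (.nd 161 (.nd 161 (.lf 161 1 2) (.lf 157 5 4) (.nd 158 (.lf 155 4 4) (.lf 158 4 4) (.lf 157 1 2))) (.lf 136 1 2) (.lf 158 1 2)) (.nd 157 (.nd 157 (.nd 153 (.lf 131 4 4) (.lf 144 1 2) (.lf 153 4 4)) (.nd 157 (.lf 152 1 2) (.lf 157 4 4) (.lf 137 1 2)) (.lf 152 1 2)) (.lf 151 1 2) (.nd 157 (.lf 157 4 4) (.lf 152 1 2) (.lf 152 1 2))) (.lf 154 1 2)) (.lf 153 1 2) (.lf 152 1 2)) (.nd 143 (.lf 112 1 2) (.nd 143 (.lf 122 1 2) (.lf 128 1 2) (.nd 143 (.lf 143 1 2) (.lf 136 4 4) (.lf 137 1 2))) (.lf 114 1 2))) (.nd 173 (.nd 165 (.nd 135 (.nd 130 (.lf 78 5 4) (.lf 106 5 4) (.nd 130 (.lf 100 5 4) (.lf 130 5 4) (.nd 92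 (.lf 92 5 4) (.nd 88 (.nd 88 (.lf 73 5 4) (.lf 88 1 2) (.lf 83 5 4)) (.lf 88 1 2) (.lf 85 1 2)) (.lf 91 5 4)))) (.lf 135 5 4) (.nd 106 (.nd 100 (.lf 100 5 4) (.lf 78 5 4) (.lf 49 5 4)) (.lf 77 5 4) (.nd 106 (.nd 106 (.lf 85 5 4) (.lf 106 5 4) (.lf 84 5 4)) (.lf 97 5 4) (.lf 87 5 4)))) (.nd 165 (.lf 157 5 4) (.nd 158 (.lf 148 5 4) (.lf 158 1 2) (.lf 149 5 4)) (.nd 165 (.lf 146 1 2) (.nd 165 (.lf 148 1 2) (.nd 165 (.lf 147 1 2) (.lf 161 5 4) (.nd 165 (.lf 149 1 2) (.lf 146 1 2) (.lf 165 5 4))) (.lf 145 1 2)) (.lf 163 5 4))) (.nd 163 (.lf 139 5 4) (.lf 134 5 4) (.nd 163 (.lf 163 5 4) (.nd 159 (.nd 159 (.lf 158 4 4) (.lf 159 1 2) (.lf 155 4 4)) (.lf 154 5 4) (.lf 158 5 4)) (.nd 163 (.lf 160 4 4) (.lf 163 5 4) (.lf 154 5 4))))) (.nd 167 (.nd 167 (.nd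 156 (.nd 133 (.lf 133 4 4) (.lf 130 4 4) (.lf 117 5 4)) (.lf 156 4 4) (.lf 143 1 2)) (.nd 157 (.lf 132 4 4) (.lf 152 4 4) (.nd 157 (.lf 157 4 4) (.nd 138 (.lf 136 4 4) (.lf 138 1 2) (.lf 136 4 4)) (.lf 149 4 4))) (.nd 167 (.lf 157 5 4) (.lf 156 5 4) (.nd 167 (.lf 166 5 4) (.nd 167 (.lf 167 1 2) (.lf 137 1 2) (.lf 167 5 4)) (.lf 162 1 2)))) (.nd 143 (.lf 134 5 4) (.lf 143 1 2) (.nd 141 (.lf 130 4 4) (.nd 134 (.lf 130 5 4) (.lf 125 4 4) (.lf 134 5 4)) (.nd 141 (.lf 141 1 2) (.lf 127 5 4) (.lf 126 5 4)))) (.nd 155 (.lf 106 5 4) (.nd 138 (.lf 108 5 4) (.lf 138 1 2) (.lf 103 5 4)) (.nd 155 (.lf 146 5 4) (.lf 131 5 4) (.nd 155 (.lf 137 5 4) (.nd 155 (.lf 154 1 2) (.lf 131 1 2) (.lf 155 5 4)) (.lf 136 5 4))))) (.nd 173 (.nd 170 (.lf 161 4 4) (.nd 170 (.lf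 161 1 2) (.lf 161 1 2) (.nd 170 (.nd 170 (.lf 157 1 2) (.lf 162 1 2) (.lf 170 4 4)) (.lf 160 1 2) (.lf 157 4 4))) (.nd 168 (.nd 168 (.lf 168 4 4) (.nd 159 (.lf 159 4 4) (.lf 152 4 4) (.lf 152 1 2)) (.lf 153 4 4)) (.lf 161 4 4) (.lf 131 4 4))) (.nd 157 (.nd 157 (.nd 146 (.nd 146 (.lf 146 5 4) (.lf 119 1 2) (.lf 122 1 2)) (.lf 132 5 4) (.lf 120 1 2)) (.nd 157 (.nd 147 (.lf 147 5 4) (.lf 132 5 4) (.nd 138 (.lf 131 1 2) (.lf 136 5 4) (.lf 138 5 4))) (.lf 110 5 4) (.lf 157 5 4)) (.lf 150 1 2)) (.nd 157 (.lf 151 1 2) (.lf 157 4 4) (.lf 156 4 4)) (.nd 150 (.lf 150 1 2) (.nd 139 (.lf 135 5 4) (.lf 136 5 4) (.lf 139 1 2)) (.nd 140 (.lf 131 4 4) (.lf 130 4 4) (.lf 140 1 2)))) (.nd 173 (.nd 173 (.lf 136 5 4) (.nd 164 (.lf 135 5 4) (.lf 138 5 4) (.nd 164 (.lf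 164 5 4) (.lf 164 5 4) (.nd 160 (.lf 155 5 4) (.nd 160 (.lf 160 5 4) (.lf 128 4 4) (.lf 157 5 4)) (.lf 158 5 4)))) (.nd 173 (.lf 158 5 4) (.nd 172 (.lf 164 5 4) (.lf 172 1 2) (.lf 162 5 4)) (.lf 173 5 4))) (.nd 173 (.lf 166 1 2) (.nd 173 (.nd 168 (.lf 164 1 2) (.lf 161 1 2) (.lf 168 4 4)) (.nd 173 (.lf 162 1 2) (.nd 173 (.nd 157 (.lf 157 1 2) (.lf 154 4 4) (.lf 127 4 4)) (.lf 153 4 4) (.lf 173 1 2)) (.lf 140 1 2)) (.nd 173 (.lf 173 1 2) (.nd 164 (.lf 154 1 2) (.nd 148 (.lf 130 1 2) (.lf 140 1 2) (.lf 148 4 4)) (.lf 164 1 2)) (.nd 171 (.nd 171 (.lf 164 1 2) (.lf 171 1 2) (.lf 171 5 4)) (.lf 165 5 4) (.lf 151 5 4)))) (.lf 157 1 2)) (.nd 172 (.nd 172 (.lf 145 1 2) (.lf 148 1 2) (.lf 172 5 4)) (.lf 158 5 4) (.lf 146 1 2))))) (.nd 164 (.nd 148 (.lf 148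 1 2) (.lf 117 1 2) (.lf 118 1 2)) (.nd 164 (.nd 164 (.nd 150 (.nd 150 (.nd 110 (.lf 110 5 4) (.lf 105 5 4) (.lf 81 5 4)) (.lf 140 5 4) (.lf 150 5 4)) (.nd 150 (.nd 150 (.nd 148 (.lf 136 4 4) (.lf 148 1 2) (.lf 137 4 4)) (.lf 147 1 2) (.lf 150 1 2)) (.lf 131 1 2) (.lf 140 1 2)) (.nd 150 (.lf 120 1 2) (.lf 150 1 2) (.lf 122 5 4))) (.nd 164 (.nd 162 (.lf 159 1 2) (.lf 162 1 2) (.lf 149 5 4)) (.lf 161 1 2) (.lf 164 1 2)) (.lf 155 1 2)) (.nd 156 (.nd 146 (.lf 146 5 4) (.lf 136 1 2) (.lf 131 5 4)) (.lf 156 5 4) (.lf 109 5 4)) (.lf 160 5 4)) (.nd 151 (.nd 106 (.lf 106 1 2) (.lf 91 1 2) (.nd 92 (.lf 92 1 2) (.lf 40 1 2) (.lf 87 1 2))) (.nd 151 (.nd 120 (.nd 117 (.lf 117 1 2) (.lf 85 5 4) (.lf 82 5 4)) (.lf 83 5 4) (.nd 120 (.lf 120 5 4) (.nd 114 (.lf 111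 5 4) (.lf 109 5 4) (.lf 114 1 2)) (.lf 105 5 4))) (.nd 120 (.lf 103 5 4) (.lf 105 5 4) (.nd 120 (.lf 112 5 4) (.nd 120 (.lf 111 5 4) (.lf 119 5 4) (.nd 120 (.lf 115 5 4) (.lf 120 1 2) (.lf 112 5 4))) (.lf 119 5 4))) (.lf 151 1 2)) (.nd 117 (.lf 99 1 2) (.lf 96 1 2) (.nd 117 (.lf 108 5 4) (.nd 117 (.nd 111 (.lf 92 5 4) (.lf 111 1 2) (.lf 109 5 4)) (.nd 117 (.lf 106 1 2) (.nd 117 (.lf 116 1 2) (.lf 97 5 4) (.lf 117 1 2)) (.lf 114 1 2)) (.lf 103 1 2)) (.lf 109 5 4))))))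

def t15_655 : Tr := (.nd 200 (.nd 200 (.lf 185 1 3) (.nd 182 (.nd 182 (.lf 179 1 3) (.nd 168 (.lf 164 1 3) (.lf 168 1 3) (.lf 136 1 3)) (.lf 182 1 3)) (.nd 175 (.lf 145 1 3) (.lf 144 1 3) (.lf 175 1 3)) (.lf 178 1 3)) (.nd 200 (.nd 189 (.nd 189 (.nd 189 (.lf 183 1 3) (.lf 184 1 3) (.lf 189 1 3)) (.lf 184 1 3) (.lf 183 1 3)) (.lf 184 1 3) (.lf 170 1 3)) (.nd 192 (.lf 162 1 3) (.nd 186 (.lf 186 1 3) (.lf 161 1 3) (.lf 166 1 3)) (.nd 192 (.nd 192 (.lf 173 1 3) (.nd 190 (.lf 190 1 3) (.lf 186 1 3) (.lf 182 1 3)) (.lf 192 1 3)) (.lf 185 1 3) (.lf 184 1 3))) (.nd 200 (.nd 200 (.lf 200 1 3) (.lf 193 1 3) (.nd 200 (.lf 200 1 3) (.lf 178 1 3) (.lf 184 1 3))) (.lf 184 1 3) (.nd 197 (.lf 180 1 3) (.lf 188 1 3) (.nd 197 (.lf 188 1 3) (.lf 197 1 3) (.lf 188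 1 3)))))) (.nd 176 (.nd 154 (.lf 146 1 3) (.nd 121 (.lf 114 1 3) (.lf 121 1 3) (.lf 80 1 3)) (.lf 154 1 3)) (.nd 176 (.nd 176 (.lf 176 1 3) (.lf 147 1 3) (.lf 144 1 3)) (.lf 157 1 3) (.nd 176 (.nd 171 (.lf 131 1 3) (.lf 171 1 3) (.lf 156 1 3)) (.nd 176 (.lf 153 1 3) (.nd 176 (.lf 158 1 3) (.lf 157 1 3) (.lf 176 1 3)) (.lf 137 1 3)) (.lf 175 1 3))) (.nd 148 (.lf 138 1 3) (.nd 93 (.lf 80 1 3) (.lf 82 1 3) (.nd 93 (.lf 93 1 3) (.lf 87 1 3) (.lf 87 1 3))) (.nd 148 (.nd 148 (.lf 130 1 3) (.lf 124 1 3) (.lf 148 1 3)) (.lf 117 1 3) (.lf 138 1 3)))) (.nd 179 (.nd 122 (.nd 113 (.lf 90 1 3) (.lf 80 1 3) (.nd 113 (.lf 98 1 3) (.nd 113 (.lf 113 1 3) (.lf 89 1 3) (.lf 87 1 3)) (.lf 83 1 3))) (.lf 92 1 3) (.lf 122 1 3)) (.nd 165 (.nd 117 (.lf 86 1 3) (.nd 117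 (.lf 96 1 3) (.lf 117 1 3) (.lf 95 1 3)) (.lf 87 1 3)) (.lf 122 1 3) (.nd 165 (.lf 153 1 3) (.nd 165 (.lf 141 1 3) (.lf 144 1 3) (.lf 165 1 3)) (.lf 146 1 3))) (.nd 179 (.lf 145 1 3) (.nd 179 (.nd 158 (.lf 158 1 3) (.lf 152 1 3) (.lf 157 1 3)) (.nd 179 (.nd 179 (.nd 170 (.lf 170 1 3) (.lf 167 1 3) (.nd 161 (.lf 161 1 3) (.lf 141 1 3) (.lf 142 1 3))) (.nd 179 (.lf 167 1 3) (.nd 168 (.lf 168 1 3) (.lf 116 1 3) (.lf 146 1 3)) (.lf 179 1 3)) (.lf 172 1 3)) (.nd 171 (.lf 151 1 3) (.lf 160 1 3) (.lf 171 1 3)) (.nd 165 (.lf 156 1 3) (.nd 165 (.lf 136 1 3) (.lf 165 1 3) (.lf 161 1 3)) (.lf 151 1 3))) (.lf 155 1 3)) (.lf 167 1 3))))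

def t15_656 : Tr := (.nd 316 (.nd 285 (.lf 254 1 4) (.lf 285 1 4) (.nd 256 (.lf 205 1 4) (.lf 256 1 4) (.nd 250 (.lf 207 1 4) (.nd 202 (.nd 171 (.lf 171 1 4) (.lf 142 1 4) (.lf 134 1 4)) (.lf 172 1 4) (.lf 202 1 4)) (.lf 250 1 4)))) (.nd 286 (.lf 286 1 4) (.nd 234 (.nd 205 (.nd 199 (.lf 148 1 4) (.nd 177 (.lf 150 1 4) (.lf 177 1 4) (.lf 145 1 4)) (.lf 199 1 4)) (.lf 205 1 4) (.nd 176 (.lf 147 1 4) (.lf 176 1 4) (.lf 176 1 4))) (.lf 234 1 4) (.nd 229 (.lf 177 1 4) (.lf 229 1 4) (.nd 205 (.nd 179 (.lf 179 1 4) (.lf 150 1 4) (.lf 150 1 4)) (.lf 176 1 4) (.lf 205 1 4)))) (.lf 281 1 4)) (.nd 316 (.lf 316 1 4) (.nd 301 (.nd 286 (.lf 286 1 4) (.nd 255 (.nd 222 (.lf 222 1 4) (.lf 208 1 4) (.lf 177 1 4)) (.lf 238 1 4) (.lf 255 1 4)) (.nd 247 (.lf 242 1 4)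 (.lf 247 1 4) (.nd 206 (.lf 177 1 4) (.lf 206 1 4) (.lf 199 1 4)))) (.lf 301 1 4) (.lf 269 1 4)) (.lf 294 1 4)))

def t15_658 : Tr := (.nd 151 (.nd 128 (.nd 127 (.nd 126 (.nd 126 (.nd 124 (.lf 124 4 3) (.nd 119 (.lf 109 4 3) (.lf 109 4 3) (.lf 119 1 1)) (.lf 114 1 1)) (.nd 126 (.nd 126 (.nd 126 (.lf 118 3 3) (.lf 126 4 3) (.lf 120 4 3)) (.lf 119 1 1) (.lf 122 1 1)) (.lf 121 4 3) (.lf 120 1 1)) (.nd 126 (.nd 125 (.nd 125 (.lf 103 3 3) (.lf 121 1 1) (.lf 125 1 1)) (.lf 119 1 1) (.lf 114 1 1)) (.lf 115 1 1) (.nd 126 (.nd 118 (.lf 112 4 3) (.nd 118 (.lf 118 4 3) (.lf 115 1 1) (.lf 116 1 1)) (.lf 98 4 3)) (.lf 126 1 1) (.lf 126 4 3)))) (.nd 120 (.nd 120 (.lf 120 4 3) (.lf 115 1 1) (.lf 105 4 3)) (.nd 114 (.lf 85 4 3) (.lf 82 4 3) (.lf 114 1 1)) (.lf 83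 4 3)) (.nd 126 (.nd 126 (.lf 113 4 3) (.nd 126 (.lf 79 3 3) (.nd 116 (.lf 101 3 3) (.lf 116 3 3) (.lf 111 4 3)) (.lf 126 3 3)) (.lf 119 4 3)) (.lf 103 4 3) (.lf 105 4 3))) (.nd 124 (.nd 109 (.lf 92 1 1) (.lf 109 4 3) (.lf 108 4 3)) (.nd 111 (.lf 111 3 3) (.lf 108 3 3) (.lf 95 4 3)) (.nd 124 (.lf 103 3 3) (.lf 104 3 3) (.nd 124 (.lf 113 3 3) (.lf 112 3 3) (.nd 124 (.nd 118 (.lf 92 3 3) (.lf 118 3 3) (.lf 110 1 1)) (.lf 124 1 1) (.lf 114 3 3))))) (.nd 127 (.nd 108 (.lf 92 1 1) (.lf 78 3 3) (.lf 108 3 3)) (.nd 127 (.nd 126 (.lf 104 3 3) (.lf 126 3 3) (.nd 122 (.lf 115 1 1) (.lf 114 1 1) (.lf 122 3 3))) (.nd 116 (.lf 114 3 3) (.lf 116 1 1) (.lf 114 3 3)) (.lf 127 3 3)) (.lf 110 3 3))) (.nd 110 (.nd 110 (.lf 81 4 3) (.nd 110 (.nd 74 (.lf 58 1 1) (.lf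 68 3 3) (.nd 74 (.lf 74 3 3) (.lf 73 3 3) (.nd 74 (.lf 69 3 3) (.lf 74 3 3) (.lf 54 1 1)))) (.lf 105 4 3) (.lf 110 1 1)) (.nd 88 (.lf 88 1 1) (.nd 74 (.lf 54 3 3) (.nd 72 (.lf 72 4 3) (.lf 46 4 3) (.lf 41 3 3)) (.lf 74 4 3)) (.lf 54 4 3))) (.nd 108 (.nd 105 (.lf 104 4 3) (.nd 104 (.nd 93 (.lf 81 1 1) (.lf 81 1 1) (.lf 93 4 3)) (.lf 81 1 1) (.nd 104 (.lf 89 1 1) (.lf 94 4 3) (.lf 104 4 3))) (.lf 105 4 3)) (.lf 108 3 3) (.nd 108 (.lf 103 3 3) (.nd 80 (.lf 80 3 3) (.lf 66 4 3) (.lf 77 3 3)) (.lf 108 4 3))) (.nd 109 (.lf 55 4 3) (.nd 109 (.lf 100 4 3) (.nd 109 (.lf 62 1 1) (.lf 109 1 1) (.lf 91 4 3)) (.lf 78 4 3)) (.nd 109 (.lf 50 4 3) (.lf 109 4 3) (.lf 55 4 3)))) (.nd 128 (.lf 84 4 3) (.nd 94 (.nd 86 (.lf 58 4 3) (.lf 86 4 3) (.lf 55 4 3)) (.nd 94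 (.nd 94 (.nd 92 (.lf 85 4 3) (.lf 92 1 1) (.lf 83 1 1)) (.lf 88 4 3) (.nd 94 (.nd 94 (.lf 67 4 3) (.lf 60 4 3) (.lf 94 1 1)) (.lf 90 1 1) (.lf 83 1 1))) (.nd 94 (.lf 85 1 1) (.lf 57 1 1) (.nd 94 (.nd 92 (.lf 76 4 3) (.lf 88 3 3) (.nd 92 (.lf 92 4 3) (.lf 76 3 3) (.lf 90 3 3))) (.lf 78 3 3) (.lf 94 1 1))) (.lf 87 1 1)) (.lf 81 4 3)) (.nd 128 (.nd 128 (.lf 114 4 3) (.lf 115 4 3) (.nd 128 (.nd 111 (.lf 81 1 1) (.lf 111 4 3) (.lf 110 1 1)) (.lf 109 1 1) (.nd 128 (.lf 125 4 3) (.nd 126 (.lf 107 1 1) (.lf 125 4 3) (.lf 126 1 1)) (.lf 128 1 1)))) (.nd 111 (.lf 96 4 3) (.nd 111 (.nd 111 (.lf 110 4 3) (.nd 111 (.nd 111 (.lf 111 1 1) (.lf 101 1 1) (.lf 103 4 3)) (.lf 88 1 1) (.lf 88 1 1)) (.lf 109 1 1)) (.lf 102 4 3) (.lf 109 4 3)) (.lf 109 4 3)) (.lf 109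 4 3)))) (.nd 151 (.nd 151 (.nd 132 (.nd 132 (.nd 132 (.lf 110 4 3) (.lf 125 4 3) (.nd 132 (.lf 116 4 3) (.lf 115 4 3) (.nd 132 (.lf 129 3 3) (.lf 132 3 3) (.lf 126 4 3)))) (.nd 111 (.nd 111 (.lf 111 4 3) (.lf 111 4 3) (.nd 109 (.lf 109 4 3) (.lf 106 4 3) (.lf 105 3 3))) (.lf 87 4 3) (.lf 82 4 3)) (.lf 85 4 3)) (.lf 124 1 1) (.nd 129 (.nd 129 (.lf 122 3 3) (.nd 129 (.nd 129 (.lf 125 3 3) (.nd 129 (.lf 127 4 3) (.lf 125 3 3) (.lf 129 3 3)) (.lf 128 3 3)) (.nd 126 (.lf 121 4 3) (.lf 122 4 3) (.lf 126 3 3)) (.lf 129 1 1)) (.nd 106 (.lf 81 3 3) (.lf 106 4 3) (.lf 104 4 3))) (.lf 123 1 1) (.lf 126 1 1))) (.nd 138 (.nd 138 (.lf 116 4 3) (.nd 138 (.nd 138 (.lf 136 4 3) (.lf 133 4 3) (.nd 138 (.lf 138 4 3) (.lf 106 3 3) (.lf 135 4 3))) (.nd 137 (.lf 137 4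 3) (.nd 118 (.lf 118 4 3) (.lf 117 4 3) (.lf 111 3 3)) (.lf 120 4 3)) (.nd 133 (.lf 133 3 3) (.lf 130 4 3) (.lf 133 4 3))) (.lf 113 4 3)) (.nd 138 (.lf 136 4 3) (.nd 138 (.nd 138 (.lf 134 3 3) (.nd 129 (.lf 129 3 3) (.lf 121 4 3) (.lf 106 3 3)) (.lf 138 4 3)) (.lf 128 1 1) (.nd 135 (.lf 135 4 3) (.nd 129 (.lf 129 4 3) (.lf 114 4 3) (.lf 126 3 3)) (.lf 123 4 3))) (.nd 134 (.lf 107 3 3) (.nd 134 (.lf 134 4 3) (.lf 125 1 1) (.lf 124 1 1)) (.lf 127 4 3))) (.lf 114 4 3)) (.nd 151 (.nd 129 (.lf 111 1 1) (.nd 129 (.lf 126 1 1) (.nd 128 (.lf 128 1 1) (.lf 89 4 3) (.nd 128 (.lf 126 4 3) (.lf 128 1 1) (.lf 111 4 3))) (.lf 129 1 1)) (.lf 120 1 1)) (.nd 151 (.nd 140 (.lf 140 1 1) (.nd 140 (.lf 131 3 3) (.nd 140 (.nd 140 (.lf 138 1 1) (.lf 140 1 1) (.lf 129 3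 3)) (.lf 131 1 1) (.lf 125 1 1)) (.nd 135 (.lf 105 3 3) (.lf 135 1 1) (.lf 132 3 3))) (.lf 118 1 1)) (.nd 151 (.nd 149 (.lf 129 4 3) (.nd 149 (.lf 149 1 1) (.lf 149 4 3) (.lf 142 1 1)) (.lf 143 4 3)) (.nd 151 (.lf 141 4 3) (.lf 149 4 3) (.lf 151 1 1)) (.nd 142 (.nd 126 (.lf 108 1 1) (.lf 118 1 1) (.lf 126 3 3)) (.lf 142 1 1) (.lf 132 1 1))) (.nd 134 (.nd 134 (.lf 124 3 3) (.lf 129 4 3) (.lf 134 3 3)) (.nd 127 (.lf 119 1 1) (.lf 106 1 1) (.nd 127 (.lf 122 1 1) (.lf 127 4 3) (.lf 124 4 3))) (.nd 131 (.lf 120 1 1) (.lf 131 3 3) (.lf 119 1 1)))) (.nd 123 (.lf 95 1 1) (.nd 123 (.nd 123 (.nd 123 (.nd 123 (.lf 123 3 3) (.lf 72 3 3) (.lf 101 3 3)) (.lf 121 1 1) (.lf 103 3 3)) (.nd 122 (.nd 115 (.lf 85 4 3) (.lf 102 1 1) (.lf 115 4 3)) (.lf 114 1 1) (.lf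 122 1 1)) (.lf 116 1 1)) (.lf 120 1 1) (.nd 120 (.lf 86 4 3) (.lf 120 1 1) (.nd 120 (.lf 111 4 3) (.lf 120 1 1) (.lf 113 1 1)))) (.lf 121 1 1)))) (.nd 132 (.nd 132 (.nd 109 (.lf 80 3 3) (.lf 104 3 3) (.nd 109 (.lf 109 3 3) (.lf 92 3 3) (.lf 101 3 3))) (.nd 131 (.lf 131 3 3) (.nd 129 (.lf 123 3 3) (.lf 122 3 3) (.nd 129 (.lf 120 1 1) (.lf 129 3 3) (.lf 104 1 1))) (.nd 130 (.lf 130 3 3) (.lf 130 1 1) (.nd 129 (.lf 129 1 1) (.lf 94 1 1) (.nd 116 (.lf 93 1 1) (.lf 96 1 1) (.lf 116 3 3))))) (.nd 132 (.lf 108 3 3) (.nd 132 (.lf 128 3 3) (.nd 132 (.nd 128 (.lf 112 3 3) (.lf 113 3 3) (.nd 128 (.lf 128 3 3) (.lf 120 1 1) (.lf 120 1 1))) (.lf 132 3 3) (.lf 115 3 3)) (.nd 131 (.lf 131 3 3) (.nd 129 (.lf 121 1 1) (.lf 129 3 3) (.lf 123 1 1)) (.lf 128 3 3)))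 (.lf 111 3 3))) (.nd 131 (.lf 108 3 3) (.nd 131 (.lf 80 3 3) (.lf 108 3 3) (.lf 131 3 3)) (.nd 124 (.nd 124 (.lf 115 3 3) (.nd 124 (.nd 117 (.lf 117 3 3) (.lf 116 3 3) (.lf 116 1 1)) (.lf 94 1 1) (.lf 124 1 1)) (.lf 116 3 3)) (.lf 118 3 3) (.lf 118 1 1))) (.nd 132 (.nd 130 (.nd 130 (.nd 125 (.lf 121 1 1) (.nd 125 (.lf 125 1 1) (.lf 106 3 3) (.lf 125 3 3)) (.lf 120 1 1)) (.lf 130 1 1) (.lf 115 1 1)) (.lf 90 1 1) (.lf 104 1 1)) (.nd 132 (.nd 132 (.nd 119 (.nd 119 (.lf 105 4 3) (.lf 119 1 1) (.lf 106 3 3)) (.lf 109 1 1) (.lf 105 1 1)) (.nd 132 (.nd 128 (.lf 126 1 1) (.nd 128 (.lf 112 1 1) (.lf 110 1 1) (.lf 128 3 3)) (.lf 120 1 1)) (.nd 132 (.lf 101 3 3) (.lf 132 1 1) (.lf 129 3 3)) (.lf 131 3 3)) (.lf 122 1 1)) (.nd 115 (.lf 105 3 3) (.lf 115 1 1)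 (.nd 107 (.lf 101 1 1) (.lf 107 3 3) (.lf 104 3 3))) (.nd 131 (.nd 131 (.lf 114 3 3) (.lf 131 3 3) (.nd 113 (.lf 103 1 1) (.lf 111 3 3) (.lf 113 1 1))) (.lf 104 3 3) (.lf 125 3 3))) (.lf 124 1 1))) (.nd 129 (.nd 129 (.lf 129 1 1) (.nd 125 (.nd 120 (.nd 111 (.lf 109 3 3) (.lf 104 1 1) (.lf 111 3 3)) (.lf 105 3 3) (.lf 120 3 3)) (.lf 125 1 1) (.lf 83 3 3)) (.nd 119 (.nd 119 (.lf 92 1 1) (.lf 119 3 3) (.lf 95 1 1)) (.lf 93 1 1) (.lf 103 3 3))) (.nd 118 (.nd 118 (.lf 118 1 1) (.lf 109 3 3) (.lf 108 3 3)) (.nd 118 (.lf 102 1 1) (.lf 118 4 3) (.lf 113 3 3)) (.nd 117 (.lf 114 4 3) (.lf 117 1 1) (.lf 113 4 3))) (.nd 128 (.lf 125 1 1) (.nd 124 (.nd 124 (.lf 100 1 1) (.lf 124 4 3) (.lf 97 1 1)) (.lf 110 4 3) (.nd 90 (.lf 69 1 1) (.nd 90 (.lf 81 1 1) (.lf 90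 4 3) (.lf 90 1 1)) (.lf 84 4 3))) (.nd 128 (.nd 128 (.lf 90 4 3) (.nd 128 (.lf 116 4 3) (.nd 128 (.nd 128 (.lf 111 4 3) (.lf 128 3 3) (.lf 109 4 3)) (.lf 110 4 3) (.lf 107 4 3)) (.lf 116 4 3)) (.lf 87 4 3)) (.nd 125 (.nd 116 (.lf 109 1 1) (.lf 114 4 3) (.lf 116 4 3)) (.lf 125 4 3) (.lf 110 4 3)) (.lf 88 4 3))))) (.nd 136 (.nd 136 (.nd 103 (.nd 103 (.lf 92 1 1) (.lf 103 4 3) (.nd 102 (.lf 102 1 1) (.nd 95 (.lf 95 4 3) (.lf 89 4 3) (.lf 88 1 1)) (.lf 92 4 3))) (.lf 86 4 3) (.lf 86 4 3)) (.lf 112 4 3) (.nd 136 (.nd 125 (.nd 125 (.lf 107 4 3) (.lf 125 4 3) (.nd 121 (.lf 120 4 3) (.lf 121 4 3) (.nd 118 (.lf 118 1 1) (.lf 98 4 3) (.lf 101 4 3)))) (.nd 117 (.nd 115 (.lf 103 1 1) (.nd 115 (.lf 111 4 3) (.lf 115 3 3) (.lf 105 3 3)) (.lf 107 4 3)) (.nd 117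 (.lf 94 1 1) (.lf 81 3 3) (.nd 117 (.lf 106 3 3) (.lf 117 4 3) (.nd 109 (.lf 95 1 1) (.lf 109 4 3) (.lf 105 4 3)))) (.lf 109 3 3)) (.nd 124 (.lf 124 4 3) (.lf 105 4 3) (.nd 123 (.lf 109 3 3) (.lf 112 3 3) (.nd 123 (.lf 123 3 3) (.lf 119 4 3) (.lf 118 4 3))))) (.nd 136 (.nd 136 (.lf 128 4 3) (.lf 136 4 3) (.lf 130 4 3)) (.lf 119 4 3) (.nd 116 (.nd 111 (.lf 107 1 1) (.nd 111 (.lf 111 4 3) (.lf 107 4 3) (.lf 111 1 1)) (.lf 88 1 1)) (.lf 116 4 3) (.lf 104 1 1))) (.nd 136 (.lf 132 4 3) (.nd 117 (.lf 117 1 1) (.nd 117 (.nd 113 (.lf 101 1 1) (.lf 113 4 3) (.lf 88 4 3)) (.lf 107 4 3) (.lf 117 1 1)) (.lf 110 4 3)) (.nd 136 (.lf 133 3 3) (.lf 136 3 3) (.nd 131 (.nd 131 (.lf 131 4 3) (.lf 123 3 3) (.lf 111 3 3)) (.lf 105 1 1) (.lf 119 1 1)))))) (.nd 113 (.lf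 108 4 3) (.nd 113 (.lf 96 4 3) (.nd 105 (.lf 105 4 3) (.nd 82 (.nd 63 (.lf 23 4 3) (.nd 63 (.lf 53 1 1) (.lf 48 4 3) (.lf 63 4 3)) (.lf 51 4 3)) (.lf 51 4 3) (.lf 82 4 3)) (.lf 104 4 3)) (.lf 113 4 3)) (.nd 84 (.nd 78 (.lf 27 4 3) (.lf 78 4 3) (.lf 56 4 3)) (.lf 55 4 3) (.lf 84 4 3))) (.nd 136 (.nd 136 (.nd 136 (.lf 133 4 3) (.nd 124 (.lf 114 4 3) (.lf 96 4 3) (.lf 124 1 1)) (.nd 136 (.nd 136 (.lf 121 4 3) (.lf 136 1 1) (.nd 135 (.lf 135 4 3) (.lf 123 1 1) (.lf 120 1 1))) (.lf 120 4 3) (.lf 136 4 3))) (.lf 124 1 1) (.nd 132 (.nd 132 (.lf 125 1 1) (.nd 132 (.nd 131 (.lf 108 4 3) (.lf 129 1 1) (.lf 131 4 3)) (.nd 132 (.lf 108 4 3) (.lf 118 1 1) (.lf 132 1 1)) (.lf 124 4 3)) (.nd 130 (.lf 127 1 1) (.lf 124 1 1) (.nd 130 (.lf 109 4 3) (.nd 130 (.lf 126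 4 3) (.lf 130 1 1) (.lf 121 4 3)) (.lf 123 4 3)))) (.lf 123 1 1) (.lf 126 1 1))) (.nd 133 (.lf 111 4 3) (.nd 133 (.lf 126 4 3) (.nd 118 (.nd 118 (.lf 101 4 3) (.lf 105 4 3) (.nd 118 (.lf 118 4 3) (.lf 113 1 1) (.lf 118 4 3))) (.lf 118 4 3) (.lf 106 4 3)) (.nd 133 (.lf 109 4 3) (.lf 112 4 3) (.lf 133 4 3))) (.nd 133 (.lf 83 4 3) (.nd 133 (.nd 133 (.lf 109 4 3) (.nd 133 (.nd 130 (.lf 120 4 3) (.lf 109 4 3) (.lf 130 1 1)) (.lf 133 4 3) (.lf 121 4 3)) (.lf 111 4 3)) (.lf 105 4 3) (.lf 120 4 3)) (.lf 113 4 3))) (.nd 127 (.nd 123 (.lf 123 1 1) (.nd 123 (.lf 108 4 3) (.lf 118 4 3) (.lf 123 1 1)) (.lf 120 1 1)) (.lf 127 4 3) (.nd 113 (.lf 95 1 1) (.lf 106 4 3) (.nd 113 (.lf 97 1 1) (.lf 92 1 1) (.lf 113 4 3)))))))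

def t15_659 : Tr := (.nd 148 (.nd 143 (.nd 95 (.lf 62 2 2) (.lf 95 2 2) (.lf 65 2 2)) (.nd 98 (.nd 69 (.nd 69 (.lf 69 2 2) (.lf 60 2 2) (.nd 60 (.nd 60 (.lf 43 2 2) (.lf 31 2 2) (.lf 60 2 2)) (.lf 56 2 2) (.lf 59 2 2))) (.nd 43 (.lf 43 2 2) (.lf 13 2 2) (.lf 12 2 2)) (.lf 46 2 2)) (.nd 98 (.lf 85 2 2) (.nd 92 (.nd 87 (.lf 78 2 2) (.lf 79 2 2) (.nd 87 (.lf 87 2 2) (.lf 84 2 2) (.lf 79 2 2))) (.lf 82 2 2) (.lf 92 2 2)) (.nd 98 (.nd 95 (.lf 78 2 2) (.lf 95 2 2) (.lf 72 2 2)) (.lf 98 2 2) (.lf 75 2 2))) (.nd 69 (.lf 69 2 2) (.nd 39 (.nd 39 (.lf 24 2 2) (.lf 39 2 2) (.lf 9 2 2)) (.nd 34 (.lf 0 2 2) (.lf 0 2 2) (.lf 34 2 2)) (.lf 0 2 2)) (.nd 38 (.lf 38 2 2) (.lf 7 2 2) (.lf 9 2 2)))) (.nd 143 (.nd 143 (.lf 115 2 2) (.nd 143 (.lf 143 2 2) (.lf 117 2 2)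 (.lf 119 2 2)) (.lf 118 2 2)) (.nd 124 (.nd 124 (.lf 100 2 2) (.lf 99 2 2) (.lf 124 2 2)) (.nd 101 (.lf 101 2 2) (.lf 83 2 2) (.lf 96 2 2)) (.lf 119 2 2)) (.nd 124 (.nd 112 (.lf 112 2 2) (.nd 112 (.lf 90 2 2) (.nd 112 (.lf 94 2 2) (.lf 110 2 2) (.nd 112 (.lf 112 2 2) (.lf 112 2 2) (.lf 90 2 2))) (.nd 108 (.lf 106 2 2) (.lf 93 2 2) (.lf 108 2 2))) (.lf 112 2 2)) (.nd 115 (.lf 90 2 2) (.nd 115 (.lf 103 2 2) (.lf 115 2 2) (.lf 104 2 2)) (.lf 108 2 2)) (.nd 124 (.lf 88 2 2) (.nd 107 (.lf 92 2 2) (.lf 107 2 2) (.lf 87 2 2)) (.nd 124 (.lf 110 2 2) (.lf 124 2 2) (.lf 110 2 2)))))) (.nd 148 (.nd 133 (.nd 133 (.lf 116 2 2) (.lf 122 2 2) (.nd 133 (.nd 133 (.lf 129 2 2) (.lf 133 2 2) (.lf 121 2 2)) (.lf 123 2 2) (.lf 124 2 2))) (.nd 109 (.lf 84 2 2) (.lf 109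 2 2) (.lf 89 2 2)) (.lf 110 2 2)) (.nd 118 (.nd 118 (.nd 66 (.lf 66 2 2) (.lf 61 2 2) (.lf 37 2 2)) (.nd 96 (.lf 68 2 2) (.lf 96 2 2) (.nd 65 (.lf 65 2 2) (.lf 35 2 2) (.lf 32 2 2))) (.nd 118 (.lf 88 2 2) (.nd 118 (.lf 94 2 2) (.lf 118 2 2) (.lf 92 2 2)) (.lf 103 2 2))) (.lf 116 2 2) (.nd 94 (.lf 88 2 2) (.lf 68 2 2) (.lf 94 2 2))) (.nd 148 (.lf 122 2 2) (.lf 124 2 2) (.nd 148 (.lf 134 2 2) (.lf 147 2 2) (.nd 148 (.nd 133 (.lf 133 2 2) (.lf 95 2 2) (.lf 106 2 2)) (.lf 148 2 2) (.lf 122 2 2))))) (.nd 96 (.nd 96 (.nd 96 (.lf 96 2 2) (.lf 70 2 2) (.lf 70 2 2)) (.nd 88 (.nd 87 (.nd 65 (.lf 37 2 2) (.lf 34 2 2) (.lf 65 2 2)) (.lf 35 2 2) (.lf 87 2 2)) (.nd 65 (.lf 34 2 2) (.nd 57 (.lf 34 2 2) (.lf 57 2 2) (.lf 6 2 2)) (.lf 65 2 2)) (.nd 88 (.nd 81 (.lf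 74 2 2) (.nd 81 (.lf 59 2 2) (.lf 31 2 2) (.lf 81 2 2)) (.lf 61 2 2)) (.lf 77 2 2) (.lf 88 2 2))) (.nd 79 (.lf 51 2 2) (.nd 79 (.lf 79 2 2) (.lf 65 2 2) (.lf 66 2 2)) (.lf 75 2 2))) (.nd 91 (.lf 39 2 2) (.nd 91 (.nd 91 (.nd 91 (.lf 77 2 2) (.lf 91 2 2) (.lf 90 2 2)) (.lf 67 2 2) (.lf 60 2 2)) (.nd 61 (.lf 37 2 2) (.lf 59 2 2) (.lf 61 2 2)) (.nd 76 (.lf 53 2 2) (.lf 52 2 2) (.lf 76 2 2))) (.lf 67 2 2)) (.nd 67 (.lf 67 2 2) (.lf 38 2 2) (.lf 61 2 2))))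

def t15_661 : Tr := (.nd 68 (.nd 68 (.nd 64 (.lf 64 2 1) (.lf 55 2 1) (.lf 35 2 1)) (.nd 47 (.nd 30 (.lf 20 3 1) (.nd 30 (.lf 3 2 1) (.lf 2 2 1) (.nd 30 (.nd 30 (.nd 24 (.lf 19 2 1) (.lf 9 2 1) (.lf 24 3 1)) (.lf 30 2 1) (.lf 13 2 1)) (.lf 11 2 1) (.lf 18 2 1))) (.nd 15 (.lf 15 3 1) (.lf 12 3 1) (.lf 7 2 1))) (.nd 47 (.lf 33 3 1) (.lf 34 3 1) (.nd 47 (.nd 47 (.lf 44 3 1) (.nd 40 (.lf 22 2 1) (.lf 22 3 1) (.nd 40 (.lf 40 2 1) (.lf 25 3 1) (.lf 14 3 1))) (.nd 47 (.lf 40 3 1) (.nd 47 (.lf 42 3 1) (.lf 42 3 1) (.lf 47 2 1)) (.nd 46 (.lf 35 2 1) (.lf 46 3 1) (.lf 42 3 1)))) (.nd 43 (.lf 34 3 1) (.nd 43 (.nd 42 (.nd 41 (.lf 39 2 1) (.lf 27 3 1) (.lf 41 3 1)) (.lf 39 3 1) (.lf 42 3 1)) (.lf 43 3 1) (.lf 41 3 1)) (.lf 17 3 1)) (.lf 40 3 1))) (.nd 45 (.lf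 29 2 1) (.nd 28 (.lf 0 2 1) (.nd 28 (.lf 6 2 1) (.lf 28 2 1) (.lf 13 2 1)) (.lf 0 2 1)) (.nd 45 (.nd 45 (.nd 43 (.lf 43 2 1) (.lf 17 2 1) (.nd 42 (.lf 41 2 1) (.lf 37 2 1) (.nd 42 (.lf 42 3 1) (.lf 42 2 1) (.lf 42 2 1)))) (.lf 39 2 1) (.nd 45 (.nd 37 (.lf 32 3 1) (.lf 37 2 1) (.lf 2 3 1)) (.lf 45 2 1) (.lf 36 3 1))) (.lf 37 2 1) (.lf 38 2 1)))) (.nd 68 (.lf 60 3 1) (.nd 68 (.nd 68 (.lf 46 3 1) (.nd 68 (.lf 68 3 1) (.nd 55 (.lf 55 3 1) (.lf 31 2 1) (.lf 45 3 1)) (.lf 65 3 1)) (.lf 45 3 1)) (.lf 68 3 1) (.nd 68 (.nd 68 (.nd 68 (.lf 55 2 1) (.lf 68 3 1) (.lf 28 2 1)) (.lf 67 3 1) (.lf 56 2 1)) (.nd 65 (.lf 51 3 1) (.lf 60 2 1) (.lf 65 3 1)) (.nd 66 (.lf 52 3 1) (.nd 66 (.lf 42 3 1) (.lf 66 2 1) (.lf 48 3 1)) (.lf 48 2 1)))) (.lf 59 3 1))) (.nd 60 (.nd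 38 (.lf 11 3 1) (.lf 6 3 1) (.nd 38 (.nd 38 (.lf 30 3 1) (.nd 38 (.nd 38 (.lf 37 3 1) (.lf 35 2 1) (.lf 38 2 1)) (.lf 27 2 1) (.lf 30 2 1)) (.lf 33 3 1)) (.nd 27 (.nd 26 (.lf 26 2 1) (.lf 3 2 1) (.nd 23 (.lf 1 3 1) (.lf 23 2 1) (.lf 13 2 1))) (.nd 25 (.lf 25 3 1) (.lf 0 3 1) (.nd 17 (.nd 17 (.lf 17 2 1) (.lf 13 3 1) (.lf 12 3 1)) (.lf 3 2 1) (.lf 6 2 1))) (.lf 27 3 1)) (.lf 35 3 1))) (.nd 9 (.lf 0 3 1) (.nd 2 (.lf 0 3 1) (.lf 0 3 1) (.lf 2 3 1)) (.lf 9 3 1)) (.lf 60 3 1)) (.nd 40 (.nd 40 (.nd 33 (.lf 33 3 1) (.nd 2 (.nd 0 (.lf 0 2 1) (.lf 0 2 1) (.lf 0 3 1)) (.lf 2 2 1) (.lf 0 3 1)) (.lf 28 2 1)) (.lf 33 2 1) (.nd 40 (.lf 30 3 1) (.nd 40 (.nd 40 (.nd 37 (.lf 28 2 1) (.lf 36 3 1) (.nd 37 (.lf 37 3 1) (.lf 24 2 1) (.lf 0 2 1))) (.lf 40 2 1) (.lf 39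 3 1)) (.lf 37 3 1) (.lf 38 3 1)) (.nd 27 (.lf 24 3 1) (.lf 0 3 1) (.lf 27 2 1)))) (.nd 23 (.nd 20 (.nd 18 (.lf 0 2 1) (.lf 0 3 1) (.lf 18 3 1)) (.lf 20 3 1) (.lf 0 3 1)) (.nd 23 (.nd 23 (.nd 23 (.nd 23 (.lf 8 3 1) (.lf 21 2 1) (.lf 23 2 1)) (.lf 13 3 1) (.lf 6 3 1)) (.lf 3 3 1) (.lf 0 3 1)) (.nd 3 (.nd 3 (.lf 0 2 1) (.lf 0 2 1) (.lf 3 2 1)) (.lf 0 2 1) (.lf 0 2 1)) (.nd 21 (.lf 2 3 1) (.lf 0 2 1) (.lf 21 3 1))) (.nd 6 (.lf 0 3 1) (.lf 0 3 1) (.nd 6 (.lf 0 3 1) (.nd 6 (.lf 6 3 1) (.lf 0 3 1) (.lf 0 3 1)) (.lf 0 3 1)))) (.nd 37 (.nd 37 (.lf 25 3 1) (.lf 3 3 1) (.nd 37 (.lf 16 3 1) (.lf 37 3 1) (.lf 13 3 1))) (.lf 0 3 1) (.nd 7 (.lf 0 3 1) (.nd 7 (.lf 4 3 1) (.nd 4 (.lf 4 3 1) (.lf 1 2 1) (.lf 0 3 1)) (.nd 7 (.lf 2 3 1) (.nd 7 (.nd 7 (.lf 6 3 1) (.lf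 7 2 1) (.lf 4 2 1)) (.lf 0 2 1) (.lf 0 2 1)) (.lf 0 3 1))) (.lf 0 3 1)))))

def t15_662 : Tr := (.nd 194 (.nd 162 (.nd 158 (.nd 127 (.lf 127 1 2) (.lf 97 1 2) (.lf 94 1 2)) (.nd 130 (.nd 101 (.lf 78 1 2) (.lf 101 1 2) (.lf 75 1 2)) (.lf 130 1 2) (.lf 101 1 2)) (.lf 158 1 2)) (.nd 162 (.nd 162 (.nd 162 (.lf 161 1 2) (.lf 162 1 2) (.nd 160 (.lf 158 1 2) (.nd 160 (.lf 158 1 2) (.lf 154 1 2) (.nd 160 (.lf 160 1 2) (.lf 159 1 2) (.lf 160 1 4))) (.lf 154 1 2))) (.lf 149 1 2) (.lf 152 1 2)) (.nd 156 (.lf 132 1 2) (.lf 156 1 2) (.lf 141 1 2)) (.nd 148 (.lf 148 1 2) (.lf 126 1 2) (.nd 148 (.lf 98 1 2) (.lf 128 1 2) (.lf 148 1 2)))) (.nd 128 (.nd 123 (.lf 123 1 2) (.nd 99 (.lf 99 1 2) (.lf 73 1 2) (.lf 70 1 2)) (.lf 71 1 2)) (.nd 99 (.nd 99 (.lf 99 1 2) (.lf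 80 1 2) (.lf 90 1 2)) (.nd 70 (.lf 41 1 2) (.lf 70 1 2) (.nd 70 (.lf 27 1 2) (.lf 70 1 2) (.lf 39 1 2))) (.nd 93 (.lf 42 1 2) (.nd 71 (.lf 71 1 2) (.lf 39 1 2) (.lf 44 1 2)) (.lf 93 1 2))) (.lf 128 1 2))) (.nd 194 (.nd 186 (.nd 186 (.lf 186 1 2) (.lf 172 1 2) (.lf 175 1 2)) (.lf 170 1 2) (.nd 164 (.nd 149 (.lf 132 1 2) (.lf 149 1 2) (.lf 119 1 2)) (.nd 145 (.lf 136 1 2) (.lf 145 1 2) (.lf 100 1 2)) (.nd 164 (.lf 160 1 2) (.lf 145 1 2) (.lf 164 1 2)))) (.nd 188 (.lf 164 1 2) (.nd 188 (.lf 182 1 2) (.nd 185 (.lf 185 1 2) (.lf 146 1 2) (.lf 174 1 2)) (.lf 188 1 2)) (.nd 172 (.lf 154 1 2) (.nd 172 (.lf 172 1 4) (.lf 163 1 2) (.lf 160 1 4)) (.lf 155 1 2))) (.nd 194 (.nd 184 (.lf 171 1 2) (.nd 184 (.lf 182 1 2) (.lf 177 1 2) (.nd 184 (.nd 184 (.lf 181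 1 2) (.nd 184 (.lf 165 1 2) (.lf 184 1 4) (.lf 178 1 2)) (.lf 183 1 2)) (.lf 154 1 2) (.lf 180 1 2))) (.nd 173 (.nd 173 (.lf 173 1 4) (.lf 163 1 2) (.lf 170 1 2)) (.lf 157 1 2) (.lf 143 1 2))) (.nd 194 (.lf 172 1 2) (.nd 194 (.lf 160 1 2) (.lf 162 1 2) (.nd 194 (.nd 194 (.lf 172 1 2) (.lf 178 1 2) (.lf 194 1 2)) (.lf 181 1 2) (.lf 187 1 2))) (.nd 186 (.lf 176 1 4) (.lf 186 1 2) (.lf 177 1 4))) (.nd 187 (.lf 187 1 2) (.lf 179 1 2) (.nd 185 (.lf 182 1 2) (.lf 185 1 2) (.lf 180 1 2))))) (.nd 179 (.nd 179 (.lf 159 1 2) (.nd 179 (.nd 179 (.lf 164 1 2) (.lf 157 1 2) (.lf 179 1 2)) (.lf 155 1 2) (.lf 163 1 2)) (.lf 158 1 2)) (.nd 140 (.nd 140 (.lf 124 1 2) (.lf 139 1 2) (.lf 140 1 2)) (.lf 135 1 2) (.nd 99 (.lf 92 1 2) (.lf 99 1 2) (.lf 70 1 2))) (.nd 148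 (.nd 115 (.nd 70 (.lf 70 1 2) (.lf 61 1 2) (.lf 40 1 2)) (.lf 101 1 2) (.lf 115 1 2)) (.lf 148 1 2) (.nd 131 (.lf 96 1 2) (.nd 113 (.lf 113 1 2) (.lf 110 1 2) (.lf 69 1 2)) (.lf 131 1 2)))))

def t15_664 : Tr := (.nd 304 (.nd 303 (.nd 276 (.nd 268 (.nd 268 (.lf 268 2 5) (.lf 242 2 5) (.nd 257 (.nd 229 (.lf 211 2 5) (.lf 210 2 5) (.nd 229 (.lf 219 2 5) (.lf 218 2 5) (.lf 229 2 5))) (.lf 242 2 5) (.lf 257 2 5))) (.nd 245 (.lf 214 2 5) (.nd 245 (.nd 245 (.nd 223 (.lf 223 2 5) (.nd 214 (.lf 206 3 5) (.lf 214 1 3) (.lf 211 3 5)) (.lf 209 3 5)) (.lf 200 1 3) (.lf 245 2 5)) (.lf 240 2 5) (.nd 238 (.lf 220 1 3) (.lf 212 1 3) (.lf 238 2 5))) (.lf 219 2 5)) (.lf 217 2 5)) (.lf 245 2 5) (.lf 276 2 5)) (.lf 298 2 5) (.nd 303 (.nd 276 (.nd 255 (.lf 241 1 3) (.nd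 255 (.lf 236 2 5) (.lf 221 1 3) (.lf 255 1 3)) (.lf 198 1 3)) (.lf 276 1 3) (.nd 252 (.nd 252 (.lf 233 1 3) (.nd 242 (.lf 242 2 5) (.lf 190 2 5) (.nd 210 (.lf 192 2 5) (.lf 210 1 3) (.lf 189 2 5))) (.nd 252 (.lf 223 1 3) (.lf 220 1 3) (.lf 252 1 3))) (.lf 224 1 3) (.nd 230 (.lf 197 1 3) (.nd 230 (.lf 230 1 3) (.lf 221 2 5) (.lf 220 2 5)) (.lf 222 1 3)))) (.lf 303 2 5) (.nd 276 (.lf 227 1 3) (.lf 276 1 3) (.lf 241 1 3)))) (.nd 304 (.lf 304 1 3) (.nd 301 (.lf 251 3 5) (.nd 301 (.nd 271 (.lf 271 3 5) (.lf 241 2 5) (.nd 249 (.lf 249 3 5) (.lf 223 3 5) (.lf 243 3 5))) (.lf 288 3 5) (.lf 301 2 5)) (.lf 298 3 5)) (.nd 287 (.nd 273 (.nd 273 (.lf 247 3 5) (.nd 273 (.lf 252 3 5) (.lf 253 3 5) (.lf 273 3 5)) (.lf 262 3 5)) (.lf 222 3 5) (.lf 267 3 5)) (.nd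 287 (.lf 287 3 5) (.lf 263 1 3) (.nd 247 (.lf 227 1 3) (.lf 230 1 3) (.lf 247 2 5))) (.nd 254 (.lf 254 3 5) (.nd 253 (.nd 246 (.lf 246 3 5) (.lf 235 1 3) (.lf 235 1 3)) (.nd 244 (.nd 226 (.lf 226 1 3) (.lf 190 3 5) (.nd 192 (.lf 189 3 5) (.lf 192 3 5) (.lf 186 1 3))) (.lf 244 1 3) (.lf 216 1 3)) (.lf 253 1 3)) (.lf 232 1 3)))) (.nd 286 (.nd 286 (.nd 276 (.lf 235 1 3) (.lf 247 3 5) (.lf 276 3 5)) (.nd 286 (.nd 255 (.lf 231 1 3) (.lf 255 1 3) (.lf 234 1 3)) (.nd 247 (.lf 247 1 3) (.lf 206 1 3) (.nd 232 (.lf 208 1 3) (.lf 232 1 3) (.lf 203 1 3))) (.lf 286 1 3)) (.nd 272 (.nd 272 (.lf 227 3 5) (.lf 224 3 5) (.lf 272 3 5)) (.lf 225 3 5) (.nd 255 (.nd 255 (.lf 239 3 5) (.lf 238 3 5) (.lf 255 1 3)) (.nd 253 (.lf 253 3 5) (.lf 251 3 5) (.lf 246 1 3)) (.lf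 247 3 5)))) (.nd 255 (.nd 254 (.nd 235 (.lf 221 3 5) (.nd 235 (.lf 235 3 5) (.lf 211 1 3) (.lf 208 1 3)) (.lf 209 1 3)) (.lf 254 1 3) (.nd 246 (.lf 246 3 5) (.lf 199 3 5) (.nd 245 (.lf 221 3 5) (.lf 236 3 5) (.lf 245 1 3)))) (.nd 239 (.lf 239 1 3) (.nd 229 (.nd 219 (.lf 219 2 5) (.lf 190 2 5) (.lf 188 2 5)) (.lf 220 2 5) (.lf 229 1 3)) (.nd 234 (.lf 234 1 3) (.lf 225 3 5) (.lf 224 3 5))) (.nd 255 (.nd 246 (.nd 246 (.nd 231 (.lf 231 2 5) (.lf 207 2 5) (.lf 208 2 5)) (.lf 216 2 5) (.lf 246 2 5)) (.lf 194 2 5) (.lf 241 2 5)) (.nd 255 (.lf 224 1 3) (.lf 255 1 3) (.nd 226 (.lf 220 1 3) (.lf 175 1 3) (.nd 226 (.lf 200 1 3) (.nd 200 (.nd 200 (.lf 191 2 5) (.lf 200 1 3) (.lf 193 1 3)) (.lf 166 2 5) (.lf 200 1 3)) (.lf 226 1 3)))) (.nd 230 (.lf 216 2 5) (.lf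 204 1 3) (.nd 230 (.lf 203 1 3) (.lf 206 1 3) (.lf 230 2 5))))) (.nd 281 (.lf 281 1 3) (.nd 253 (.nd 253 (.lf 229 1 3) (.nd 232 (.lf 203 1 3) (.lf 203 1 3) (.lf 232 1 3)) (.nd 253 (.nd 253 (.lf 253 1 3) (.nd 233 (.lf 227 2 5) (.lf 221 2 5) (.lf 233 1 3)) (.lf 235 1 3)) (.lf 241 2 5) (.lf 236 2 5))) (.lf 240 2 5) (.lf 230 1 3)) (.lf 272 2 5))))

def t15_667 : Tr := (.nd 201 (.lf 179 2 3) (.nd 174 (.nd 144 (.lf 144 2 3) (.lf 92 2 3) (.nd 139 (.lf 94 2 3) (.lf 139 2 3) (.lf 91 2 3))) (.lf 174 2 3) (.nd 141 (.lf 112 2 3) (.nd 104 (.nd 91 (.lf 91 2 3) (.lf 49 2 3) (.lf 77 2 3)) (.lf 104 2 3) (.lf 88 2 3)) (.lf 141 2 3))) (.nd 201 (.nd 194 (.lf 194 2 3) (.nd 194 (.lf 172 2 3) (.nd 172 (.lf 171 1 3) (.lf 172 1 3) (.lf 154 2 3)) (.nd 194 (.nd 194 (.nd 194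 (.lf 185 2 3) (.nd 194 (.lf 182 2 3) (.lf 194 1 1) (.lf 184 2 3)) (.lf 187 2 3)) (.lf 176 2 3) (.lf 187 2 3)) (.lf 183 2 3) (.lf 169 2 3))) (.nd 193 (.nd 193 (.nd 192 (.lf 192 2 3) (.lf 183 1 3) (.lf 168 1 3)) (.lf 146 1 3) (.lf 193 1 3)) (.nd 193 (.nd 193 (.lf 193 2 3) (.lf 185 1 3) (.lf 173 1 3)) (.nd 190 (.nd 186 (.nd 184 (.lf 184 2 3) (.lf 176 2 3) (.lf 178 1 3)) (.lf 185 1 1) (.lf 186 1 3)) (.nd 190 (.lf 190 2 3) (.lf 160 1 1) (.nd 185 (.lf 185 1 3) (.lf 169 1 1) (.lf 184 1 1))) (.nd 184 (.lf 169 1 1) (.lf 184 2 3) (.lf 167 1 1))) (.nd 192 (.lf 192 2 3) (.nd 191 (.lf 186 1 1) (.nd 189 (.lf 183 1 3) (.lf 174 1 3) (.lf 189 2 3)) (.nd 191 (.lf 183 1 3) (.lf 189 1 3) (.nd 191 (.lf 181 2 3) (.lf 186 2 3) (.lf 191 1 1)))) (.lf 187 1 3))) (.nd 193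 (.lf 166 1 3) (.lf 158 1 3) (.nd 193 (.lf 173 2 3) (.nd 193 (.lf 174 1 3) (.nd 193 (.lf 175 1 3) (.lf 193 2 3) (.lf 178 1 3)) (.lf 182 1 3)) (.lf 175 1 3))))) (.nd 194 (.lf 194 2 3) (.nd 194 (.nd 191 (.lf 191 1 3) (.lf 181 1 3) (.lf 169 2 3)) (.lf 194 1 3) (.lf 171 1 3)) (.nd 186 (.nd 185 (.lf 171 1 3) (.lf 174 1 3) (.nd 185 (.lf 181 2 3) (.lf 180 2 3) (.lf 185 1 3))) (.lf 186 2 3) (.lf 167 2 3))) (.nd 201 (.nd 201 (.lf 178 2 3) (.lf 179 2 3) (.nd 201 (.nd 201 (.lf 193 1 1) (.lf 189 2 3) (.nd 201 (.lf 193 2 3) (.nd 201 (.lf 169 1 3) (.lf 201 1 1) (.lf 200 1 1)) (.lf 193 2 3))) (.lf 194 2 3) (.lf 189 1 1))) (.nd 198 (.nd 198 (.nd 198 (.lf 194 2 3) (.lf 198 2 3) (.lf 197 2 3)) (.lf 185 2 3) (.lf 194 2 3)) (.lf 192 2 3) (.lf 190 2 3)) (.lf 181 2 3))))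

def t15_668 : Tr := (.nd 235 (.lf 202 4 2) (.lf 235 4 2) (.nd 171 (.nd 139 (.nd 134 (.nd 86 (.lf 53 4 2) (.lf 56 4 2) (.nd 86 (.nd 64 (.lf 64 4 2) (.lf 43 4 2) (.lf 31 4 2)) (.lf 86 4 2) (.lf 61 4 2))) (.lf 134 4 2) (.lf 89 4 2)) (.nd 87 (.lf 58 4 2) (.lf 82 4 2) (.lf 87 4 2)) (.lf 139 4 2)) (.lf 144 4 2) (.lf 171 4 2)))

def t15_670 : Tr := (.nd 99 (.nd 99 (.nd 78 (.nd 78 (.lf 78 2 1) (.nd 77 (.lf 77 2 1) (.lf 74 2 1) (.nd 77 (.nd 77 (.nd 77 (.lf 71 2 1) (.lf 77 2 1) (.nd 72 (.lf 68 2 1) (.lf 72 1 1) (.lf 62 2 1))) (.lf 50 2 1) (.lf 52 2 1)) (.lf 76 2 1) (.lf 62 2 1))) (.nd 76 (.lf 60 2 1) (.nd 54 (.lf 39 2 1) (.lf 35 2 1) (.lf 54 2 1)) (.lf 76 2 1))) (.lf 69 2 1) (.lf 52 2 1)) (.nd 99 (.nd 99 (.nd 99 (.lf 77 2 1) (.lf 81 2 1) (.nd 99 (.lf 99 2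 1) (.lf 78 2 1) (.lf 77 2 1))) (.lf 85 2 1) (.lf 75 2 1)) (.nd 96 (.nd 96 (.lf 81 2 1) (.lf 77 2 1) (.nd 96 (.lf 96 2 1) (.lf 82 2 1) (.lf 82 2 1))) (.nd 83 (.lf 60 2 1) (.lf 83 2 1) (.lf 49 2 1)) (.nd 57 (.lf 36 2 1) (.lf 57 2 1) (.lf 32 2 1))) (.lf 79 2 1)) (.nd 77 (.lf 60 2 1) (.nd 77 (.nd 77 (.lf 77 2 1) (.lf 61 2 1) (.lf 35 2 1)) (.nd 71 (.lf 71 2 1) (.lf 55 2 1) (.lf 50 2 1)) (.nd 75 (.lf 73 2 1) (.nd 75 (.nd 72 (.lf 71 2 1) (.lf 41 2 1) (.nd 72 (.lf 72 1 1) (.lf 50 2 1) (.lf 52 2 1))) (.lf 71 2 1) (.lf 75 2 1)) (.lf 69 2 1))) (.lf 50 2 1))) (.nd 69 (.nd 64 (.nd 64 (.lf 45 2 1) (.lf 45 2 1) (.lf 64 2 1)) (.lf 19 2 1) (.lf 16 2 1)) (.lf 17 2 1) (.nd 69 (.lf 54 2 1) (.nd 69 (.lf 43 2 1) (.lf 69 2 1) (.lf 45 2 1)) (.nd 39 (.lf 37 2 1) (.nd 39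 (.lf 0 2 1) (.lf 39 2 1) (.lf 17 2 1)) (.lf 15 2 1)))) (.nd 68 (.nd 37 (.lf 16 2 1) (.lf 13 2 1) (.nd 37 (.lf 37 2 1) (.lf 19 2 1) (.lf 22 2 1))) (.lf 39 2 1) (.nd 68 (.lf 53 2 1) (.lf 46 2 1) (.nd 68 (.nd 68 (.lf 49 2 1) (.lf 68 2 1) (.lf 46 2 1)) (.lf 45 2 1) (.lf 53 2 1)))))

def t15_671 : Tr := (.nd 273 (.nd 268 (.nd 268 (.lf 268 1 2) (.nd 267 (.lf 267 1 2) (.lf 264 1 2) (.nd 266 (.lf 252 1 2) (.lf 264 2 4) (.lf 266 1 2))) (.lf 266 1 2)) (.lf 259 1 2) (.lf 248 1 2)) (.nd 273 (.nd 273 (.lf 247 2 4) (.lf 273 1 2) (.lf 247 1 2)) (.nd 264 (.lf 264 2 4) (.lf 250 1 2) (.lf 264 1 2)) (.nd 272 (.nd 271 (.lf 267 1 2) (.lf 271 1 2) (.lf 260 2 4)) (.nd 272 (.lf 272 2 4) (.lf 267 1 2) (.lf 267 1 2)) (.lf 265 1 2))) (.nd 267 (.nd 240 (.nd 230 (.lf 230 1 2)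 (.lf 207 1 2) (.nd 212 (.lf 182 1 2) (.lf 212 1 2) (.lf 181 1 2))) (.nd 227 (.nd 208 (.lf 203 1 2) (.lf 208 1 2) (.lf 156 1 2)) (.nd 227 (.nd 216 (.lf 216 1 2) (.lf 199 1 2) (.lf 189 1 2)) (.lf 227 1 2) (.lf 223 1 2)) (.nd 207 (.lf 176 1 2) (.nd 207 (.lf 207 1 2) (.lf 185 1 2) (.lf 192 1 2)) (.lf 178 1 2))) (.lf 240 1 2)) (.nd 250 (.nd 234 (.lf 182 1 2) (.nd 229 (.lf 181 1 2) (.lf 184 1 2) (.lf 229 1 2)) (.nd 234 (.lf 234 1 2) (.nd 217 (.lf 217 1 2) (.lf 195 1 2) (.lf 196 1 2)) (.lf 204 1 2))) (.nd 250 (.lf 250 1 2) (.lf 243 1 2) (.nd 242 (.lf 242 1 2) (.nd 228 (.lf 208 1 2) (.lf 228 1 2) (.lf 209 1 2)) (.lf 215 1 2))) (.nd 233 (.lf 202 1 2) (.nd 233 (.nd 211 (.lf 197 1 2) (.lf 211 1 2) (.lf 200 1 2)) (.nd 218 (.lf 218 1 2) (.lf 203 1 2) (.lf 198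 1 2)) (.lf 233 1 2)) (.lf 196 1 2))) (.lf 267 1 2)))

def t15_673 : Tr := (.nd 303 (.lf 302 2 5) (.lf 303 2 5) (.nd 252 (.lf 252 2 5) (.nd 245 (.nd 221 (.lf 197 2 5) (.nd 192 (.lf 192 2 5) (.lf 159 2 5) (.lf 162 2 5)) (.lf 221 2 5)) (.nd 193 (.lf 164 2 5) (.lf 188 2 5) (.nd 193 (.lf 193 2 5) (.lf 176 2 5) (.lf 185 2 5))) (.lf 245 2 5)) (.nd 223 (.nd 223 (.lf 219 2 5) (.lf 223 2 5) (.lf 202 2 5)) (.lf 195 2 5) (.lf 215 2 5))))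

def t15_676 : Tr := (.nd 125 (.nd 103 (.nd 89 (.lf 69 1 1) (.lf 70 1 1) (.nd 89 (.nd 85 (.lf 70 1 1) (.lf 85 1 1) (.lf 53 1 1)) (.lf 76 1 1) (.lf 89 1 1))) (.nd 103 (.lf 89 1 1) (.lf 93 1 1) (.nd 103 (.lf 101 1 1) (.lf 100 1 1) (.lf 103 1 1))) (.nd 92 (.nd 92 (.nd 72 (.nd 55 (.lf 34 1 1) (.lf 31 1 1) (.lf 55 1 1)) (.lf 57 1 1) (.lf 72 1 1)) (.lf 92 1 1) (.lf 82 1 1)) (.lf 69 1 1) (.lf 56 1 1))) (.nd 110 (.nd 110 (.nd 103 (.nd 103 (.lf 103 1 1) (.lf 101 1 1) (.lf 101 1 1)) (.nd 81 (.lf 81 1 1) (.lf 70 1 1) (.lf 45 1 1)) (.lf 75 1 1)) (.nd 104 (.nd 85 (.lf 64 1 1) (.lf 67 1 1) (.lf 85 1 1)) (.lf 104 1 1) (.nd 90 (.lf 70 1 1) (.lf 90 1 1) (.lf 70 1 1))) (.nd 110 (.lf 104 1 1) (.nd 110 (.lf 88 1 1) (.lf 110 1 1) (.lf 102 1 1)) (.nd 104 (.lf 103 1 1)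 (.nd 104 (.lf 91 1 1) (.lf 99 1 1) (.lf 104 1 1)) (.lf 101 1 1)))) (.nd 95 (.nd 95 (.nd 74 (.lf 65 1 1) (.lf 66 1 1) (.lf 74 1 1)) (.nd 95 (.nd 95 (.lf 95 1 1) (.lf 81 1 1) (.lf 72 1 1)) (.lf 71 1 1) (.lf 79 1 1)) (.lf 74 1 1)) (.nd 60 (.lf 60 1 1) (.lf 51 1 1) (.lf 15 1 1)) (.nd 64 (.lf 34 1 1) (.nd 64 (.nd 52 (.lf 34 1 1) (.lf 52 1 1) (.lf 35 1 1)) (.lf 55 1 1) (.lf 64 1 1)) (.nd 47 (.lf 12 1 1) (.lf 29 1 1) (.nd 47 (.lf 29 1 1) (.lf 36 1 1) (.lf 47 1 1))))) (.nd 90 (.nd 90 (.lf 90 1 1) (.lf 77 1 1) (.lf 66 1 1)) (.lf 44 1 1) (.nd 74 (.lf 46 1 1) (.lf 74 1 1) (.lf 43 1 1)))) (.nd 125 (.nd 102 (.nd 84 (.lf 84 1 1) (.nd 82 (.lf 82 1 1) (.nd 82 (.lf 54 1 1) (.lf 82 1 1) (.lf 77 1 1)) (.lf 79 1 1)) (.lf 83 1 1)) (.nd 102 (.lf 68 1 1) (.lf 102 1 1)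 (.lf 58 1 1)) (.lf 101 1 1)) (.nd 125 (.nd 103 (.lf 103 1 1) (.lf 92 1 1) (.nd 102 (.lf 102 1 1) (.lf 99 1 1) (.nd 98 (.lf 98 1 1) (.lf 84 1 1) (.lf 64 1 1)))) (.nd 125 (.nd 125 (.lf 103 1 1) (.lf 125 1 1) (.lf 97 1 1)) (.nd 106 (.lf 103 1 1) (.lf 106 1 1) (.lf 98 1 1)) (.lf 112 1 1)) (.nd 106 (.lf 106 1 1) (.nd 105 (.lf 98 1 1) (.lf 82 1 1) (.lf 105 1 1)) (.lf 106 1 1))) (.nd 110 (.nd 110 (.lf 86 1 1) (.lf 110 1 1) (.lf 77 1 1)) (.lf 87 1 1) (.lf 110 1 1))))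

def t15_677 : Tr := (.nd 299 (.nd 281 (.nd 276 (.lf 228 1 2) (.lf 276 1 2) (.nd 231 (.lf 231 1 2) (.lf 202 1 2) (.nd 202 (.lf 172 1 2) (.lf 202 1 2) (.nd 171 (.nd 171 (.lf 171 1 2) (.lf 149 1 2) (.lf 156 1 2)) (.lf 142 1 2) (.lf 140 1 2))))) (.nd 229 (.nd 224 (.nd 224 (.nd 194 (.lf 170 1 2) (.nd 194 (.lf 142 1 2) (.lf 172 1 2) (.lf 194 1 2)) (.nd 192 (.lf 182 1 2) (.lf 185 1 2) (.nd 192 (.lf 168 1 2) (.lf 192 1 2) (.lf 171 1 2)))) (.lf 224 1 2) (.nd 209 (.lf 186 1 2) (.lf 209 1 2) (.nd 185 (.lf 185 1 2) (.lf 165 1 2) (.lf 160 1 2)))) (.nd 172 (.lf 143 1 2) (.nd 172 (.lf 155 1 2) (.lf 172 1 2) (.lf 164 1 2)) (.lf 167 1 2)) (.nd 200 (.lf 174 1 2) (.lf 200 1 2) (.lf 171 1 2))) (.nd 229 (.lf 229 1 2) (.lf 212 1 2) (.nd 221 (.lf 221 1 2) (.lf 198 1 2)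 (.nd 220 (.lf 198 1 2) (.lf 220 1 2) (.nd 168 (.lf 168 1 2) (.lf 163 1 2) (.lf 139 1 2))))) (.nd 200 (.nd 171 (.lf 142 1 2) (.nd 171 (.nd 171 (.lf 137 1 2) (.lf 171 1 2) (.lf 159 1 2)) (.lf 129 1 2) (.lf 140 1 2)) (.lf 171 1 2)) (.lf 200 1 2) (.nd 194 (.lf 172 1 2) (.nd 143 (.lf 129 1 2) (.lf 136 1 2) (.nd 143 (.lf 129 1 2) (.lf 133 1 2) (.lf 143 1 2))) (.lf 194 1 2)))) (.lf 281 1 2)) (.lf 280 1 2) (.lf 299 1 2))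

def t15_679 : Tr := (.nd 183 (.nd 183 (.nd 180 (.nd 180 (.nd 161 (.lf 153 1 1) (.lf 161 1 1) (.lf 159 1 1)) (.nd 180 (.nd 180 (.lf 171 1 1) (.nd 170 (.nd 170 (.lf 170 1 1) (.lf 156 1 1) (.lf 163 1 1)) (.lf 162 1 1) (.lf 157 1 1)) (.lf 180 1 1)) (.nd 166 (.nd 166 (.lf 166 1 1) (.lf 152 1 1) (.lf 155 1 1)) (.nd 165 (.lf 165 1 1) (.lf 160 1 1) (.lf 139 1 1)) (.lf 152 1 1)) (.nd 166 (.lf 154 1 1) (.lf 161 1 1) (.nd 166 (.lf 166 1 1) (.lf 156 1 1) (.lf 137 1 1)))) (.nd 165 (.nd 165 (.lf 150 1 1) (.lf 165 1 1) (.lf 158 1 1)) (.lf 154 1 1) (.lf 142 1 1))) (.nd 167 (.nd 167 (.lf 167 1 1) (.nd 164 (.nd 164 (.lf 153 1 1) (.lf 164 1 1) (.lf 153 1 1)) (.lf 153 1 1) (.nd 160 (.lf 147 1 1) (.lf 160 1 1) (.lf 152 1 1))) (.lf 156 1 1)) (.lf 133 1 1) (.nd 144 (.lf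 94 1 1) (.nd 144 (.lf 119 1 1) (.nd 122 (.lf 101 1 1) (.lf 89 1 1) (.lf 122 1 1)) (.lf 144 1 1)) (.lf 111 1 1))) (.nd 141 (.lf 141 1 1) (.lf 116 1 1) (.lf 120 1 1))) (.nd 163 (.nd 158 (.lf 130 1 1) (.nd 158 (.lf 141 1 1) (.lf 158 1 1) (.lf 149 1 1)) (.lf 116 1 1)) (.nd 163 (.lf 150 1 1) (.lf 163 1 1) (.nd 161 (.lf 139 1 1) (.lf 151 1 1) (.lf 161 1 1))) (.lf 144 1 1)) (.nd 183 (.nd 169 (.nd 169 (.nd 159 (.lf 153 1 1) (.nd 159 (.nd 159 (.lf 159 1 1) (.lf 152 1 1) (.lf 150 1 1)) (.nd 159 (.lf 140 1 1) (.lf 146 1 1) (.lf 159 1 1)) (.lf 149 1 1)) (.lf 151 1 1)) (.nd 169 (.lf 140 1 1) (.lf 169 1 1) (.lf 143 1 1)) (.lf 141 1 1)) (.nd 161 (.lf 136 1 1) (.nd 161 (.lf 161 1 1) (.lf 112 1 1) (.lf 136 1 1)) (.lf 161 1 1)) (.nd 161 (.lf 155 1 1) (.lf 157 1 1)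 (.nd 161 (.lf 161 1 1) (.lf 159 1 1) (.lf 154 1 1)))) (.lf 159 1 1) (.nd 183 (.nd 183 (.nd 183 (.lf 161 1 1) (.nd 172 (.lf 168 1 1) (.lf 150 1 1) (.lf 172 1 1)) (.lf 183 1 1)) (.lf 162 1 1) (.nd 161 (.lf 161 1 1) (.nd 152 (.lf 130 1 1) (.lf 152 1 1) (.lf 114 1 1)) (.lf 143 1 1))) (.nd 161 (.lf 149 1 1) (.nd 161 (.lf 161 1 1) (.lf 142 1 1) (.lf 158 1 1)) (.lf 158 1 1)) (.nd 165 (.lf 165 1 1) (.lf 161 1 1) (.lf 146 1 1))))) (.nd 161 (.nd 161 (.nd 161 (.lf 145 1 1) (.lf 119 1 1) (.nd 161 (.lf 153 1 1) (.lf 161 1 1) (.lf 141 1 1))) (.nd 155 (.lf 139 1 1) (.lf 134 1 1) (.lf 155 1 1)) (.lf 161 1 1)) (.nd 134 (.nd 124 (.lf 106 1 1) (.lf 124 1 1) (.lf 101 1 1)) (.nd 121 (.lf 121 1 1) (.lf 101 1 1) (.nd 102 (.lf 102 1 1) (.lf 50 1 1) (.lf 97 1 1))) (.lf 134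 1 1)) (.nd 147 (.nd 127 (.nd 90 (.lf 47 1 1) (.lf 90 1 1) (.lf 83 1 1)) (.lf 96 1 1) (.nd 127 (.nd 127 (.lf 112 1 1) (.lf 104 1 1) (.nd 127 (.lf 127 1 1) (.lf 108 1 1) (.lf 105 1 1))) (.lf 105 1 1) (.lf 112 1 1))) (.nd 128 (.nd 128 (.lf 111 1 1) (.lf 98 1 1) (.lf 128 1 1)) (.lf 76 1 1) (.lf 123 1 1)) (.nd 147 (.nd 137 (.lf 137 1 1) (.lf 111 1 1) (.lf 112 1 1)) (.lf 136 1 1) (.nd 147 (.lf 145 1 1) (.nd 147 (.lf 144 1 1) (.lf 147 1 1) (.lf 134 1 1)) (.lf 138 1 1))))) (.nd 168 (.nd 136 (.nd 136 (.lf 136 1 1) (.nd 130 (.lf 130 1 1) (.lf 115 1 1) (.lf 106 1 1)) (.nd 122 (.nd 122 (.lf 72 1 1) (.lf 102 1 1) (.lf 122 1 1)) (.lf 122 1 1) (.lf 100 1 1))) (.lf 102 1 1) (.lf 132 1 1)) (.nd 168 (.nd 168 (.lf 158 1 1) (.nd 168 (.nd 168 (.lf 134 1 1) (.lf 136 1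 1) (.nd 168 (.lf 161 1 1) (.nd 168 (.lf 168 1 1) (.lf 146 1 1) (.lf 152 1 1)) (.lf 155 1 1))) (.nd 160 (.lf 160 1 1) (.lf 151 1 1) (.lf 150 1 1)) (.lf 146 1 1)) (.nd 161 (.nd 159 (.lf 156 1 1) (.lf 159 1 1) (.lf 154 1 1)) (.lf 161 1 1) (.lf 153 1 1))) (.nd 160 (.nd 138 (.nd 123 (.lf 106 1 1) (.lf 123 1 1) (.lf 93 1 1)) (.nd 119 (.lf 119 1 1) (.lf 74 1 1) (.lf 110 1 1)) (.nd 138 (.lf 138 1 1) (.lf 134 1 1) (.lf 119 1 1))) (.nd 160 (.lf 149 1 1) (.lf 160 1 1) (.lf 146 1 1)) (.lf 144 1 1)) (.nd 162 (.lf 138 1 1) (.nd 162 (.lf 162 1 1) (.lf 156 1 1) (.nd 159 (.lf 159 1 1) (.lf 120 1 1) (.lf 148 1 1))) (.lf 146 1 1))) (.nd 153 (.nd 153 (.nd 153 (.nd 153 (.lf 138 1 1) (.lf 131 1 1) (.lf 153 1 1)) (.lf 129 1 1) (.lf 137 1 1)) (.lf 132 1 1) (.lf 133 1 1))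 (.nd 114 (.nd 73 (.lf 66 1 1) (.lf 73 1 1) (.lf 44 1 1)) (.nd 114 (.lf 114 1 1) (.lf 98 1 1) (.lf 113 1 1)) (.lf 109 1 1)) (.nd 122 (.nd 89 (.lf 75 1 1) (.lf 89 1 1) (.nd 44 (.lf 44 1 1) (.lf 35 1 1) (.lf 14 1 1))) (.lf 122 1 1) (.nd 105 (.lf 70 1 1) (.lf 87 1 1) (.lf 105 1 1))))))

def t15_680 : Tr := (.nd 213 (.nd 213 (.nd 209 (.nd 202 (.nd 200 (.lf 192 3 4) (.nd 196 (.nd 195 (.lf 177 1 2) (.lf 171 1 2) (.lf 195 2 4)) (.lf 193 3 4) (.lf 196 3 4)) (.lf 200 3 4)) (.lf 172 3 4) (.lf 202 3 4)) (.nd 209 (.lf 193 1 2) (.lf 202 1 2) (.nd 209 (.nd 209 (.nd 209 (.nd 209 (.lf 207 3 4) (.lf 203 3 4) (.lf 209 1 2)) (.lf 209 1 2) (.nd 207 (.lf 193 1 2) (.lf 207 3 4) (.lf 198 1 2))) (.lf 182 1 2) (.lf 198 1 2)) (.nd 208 (.nd 208 (.lf 207 2 4) (.lf 208 2 4) (.lf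 190 1 2)) (.lf 199 2 4) (.lf 198 2 4)) (.nd 200 (.nd 192 (.lf 187 3 4) (.lf 162 2 4) (.lf 192 2 4)) (.lf 200 1 2) (.lf 197 1 2)))) (.nd 203 (.lf 182 1 2) (.nd 203 (.lf 184 1 2) (.lf 203 3 4) (.lf 178 1 2)) (.lf 184 3 4))) (.nd 213 (.nd 207 (.nd 207 (.nd 207 (.lf 198 1 2) (.nd 207 (.nd 207 (.lf 206 3 4) (.lf 207 1 2) (.lf 207 1 2)) (.lf 207 1 2) (.lf 206 1 2)) (.lf 193 1 2)) (.lf 206 1 2) (.nd 206 (.nd 206 (.lf 182 3 4) (.lf 206 3 4) (.lf 206 1 2)) (.lf 205 1 2) (.lf 206 3 4))) (.lf 189 1 2) (.lf 196 1 2)) (.nd 212 (.nd 211 (.lf 190 3 4) (.lf 211 3 4) (.lf 186 3 4)) (.nd 212 (.lf 211 1 2) (.nd 212 (.lf 210 1 2) (.nd 209 (.lf 208 1 2) (.lf 185 3 4) (.lf 209 1 2)) (.lf 212 3 4)) (.lf 204 1 2)) (.nd 211 (.nd 198 (.lf 178 1 2) (.lf 164 3 4) (.nd 198 (.lf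 189 3 4) (.lf 192 3 4) (.lf 198 1 2))) (.nd 211 (.lf 211 1 2) (.nd 211 (.nd 211 (.lf 205 1 2) (.lf 183 3 4) (.nd 211 (.lf 211 3 4) (.lf 205 3 4) (.lf 211 1 2))) (.nd 210 (.nd 210 (.lf 178 3 4) (.lf 208 3 4) (.lf 210 1 2)) (.lf 209 1 2) (.lf 209 3 4)) (.nd 211 (.nd 206 (.lf 206 1 2) (.lf 196 3 4) (.lf 183 3 4)) (.lf 211 3 4) (.nd 211 (.lf 205 3 4) (.lf 211 1 2) (.lf 209 3 4)))) (.nd 209 (.nd 209 (.lf 209 1 2) (.lf 204 1 2) (.nd 209 (.lf 209 3 4) (.lf 209 1 2) (.lf 190 3 4))) (.lf 188 1 2) (.lf 207 3 4))) (.lf 203 3 4))) (.nd 213 (.nd 213 (.lf 200 3 4) (.nd 213 (.lf 203 1 2) (.nd 213 (.lf 213 3 4) (.nd 213 (.nd 213 (.lf 205 1 2) (.lf 213 1 2) (.lf 213 3 4)) (.lf 213 3 4) (.lf 211 3 4)) (.lf 213 1 2)) (.lf 205 1 2)) (.lf 186 3 4)) (.nd 209 (.lf 176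 1 2) (.nd 209 (.lf 209 3 4) (.lf 205 1 2) (.lf 205 1 2)) (.lf 179 1 2)) (.nd 177 (.lf 148 1 2) (.lf 172 1 2) (.lf 177 1 2)))) (.nd 205 (.nd 205 (.nd 198 (.lf 198 1 2) (.lf 151 1 2) (.nd 197 (.lf 170 3 4) (.nd 197 (.lf 179 1 2) (.lf 177 1 2) (.lf 197 2 4)) (.lf 160 3 4))) (.lf 202 1 2) (.nd 205 (.lf 205 1 2) (.nd 205 (.lf 191 3 4) (.lf 186 1 2) (.nd 205 (.lf 197 1 2) (.nd 205 (.lf 205 1 2) (.lf 205 3 4) (.lf 204 1 2)) (.lf 196 1 2))) (.lf 189 3 4))) (.lf 198 1 2) (.nd 197 (.lf 197 3 4) (.nd 193 (.lf 146 3 4) (.nd 193 (.lf 145 3 4) (.lf 148 3 4) (.lf 193 3 4)) (.nd 169 (.lf 169 2 4) (.nd 166 (.nd 166 (.lf 156 1 2) (.lf 166 3 4) (.lf 157 1 2)) (.lf 159 3 4) (.lf 160 3 4)) (.lf 168 3 4))) (.nd 193 (.nd 193 (.lf 193 2 4) (.lf 185 1 2) (.lf 186 1 2)) (.lf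 178 1 2) (.lf 176 1 2))))) (.nd 213 (.nd 171 (.lf 171 3 4) (.nd 142 (.nd 142 (.lf 142 3 4) (.lf 133 3 4) (.lf 123 3 4)) (.lf 136 3 4) (.lf 113 3 4)) (.lf 166 3 4)) (.nd 213 (.nd 208 (.lf 185 3 4) (.lf 184 3 4) (.nd 208 (.lf 208 3 4) (.lf 197 3 4) (.lf 191 3 4))) (.nd 213 (.nd 197 (.lf 195 3 4) (.nd 197 (.lf 178 3 4) (.lf 194 3 4) (.nd 197 (.lf 179 3 4) (.nd 196 (.lf 188 3 4) (.lf 167 3 4) (.lf 196 1 2)) (.lf 197 3 4))) (.lf 191 3 4)) (.lf 197 3 4) (.nd 213 (.nd 197 (.lf 197 3 4) (.nd 188 (.lf 182 1 2) (.nd 188 (.lf 167 3 4) (.nd 188 (.lf 188 1 2) (.lf 179 3 4) (.lf 184 3 4)) (.lf 181 3 4)) (.lf 185 1 2)) (.lf 183 1 2)) (.nd 213 (.lf 203 1 2) (.lf 205 1 2) (.nd 213 (.lf 213 1 2) (.lf 213 1 2) (.nd 205 (.lf 205 3 4) (.lf 198 1 2) (.lf 201 1 2)))) (.lf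 209 3 4))) (.lf 193 3 4)) (.nd 199 (.nd 170 (.nd 137 (.lf 137 3 4) (.lf 108 3 4) (.lf 100 3 4)) (.nd 125 (.nd 120 (.nd 120 (.lf 116 3 4) (.lf 116 3 4) (.nd 120 (.lf 110 3 4) (.lf 107 3 4) (.lf 120 1 2))) (.lf 87 3 4) (.lf 90 3 4)) (.nd 125 (.lf 125 3 4) (.lf 110 3 4) (.lf 120 1 2)) (.lf 88 3 4)) (.lf 170 3 4)) (.nd 199 (.nd 199 (.lf 187 3 4) (.nd 199 (.lf 163 3 4) (.lf 199 3 4) (.lf 182 3 4)) (.lf 190 3 4)) (.nd 194 (.nd 184 (.lf 184 1 2) (.lf 174 3 4) (.lf 175 3 4)) (.lf 194 3 4) (.lf 176 3 4)) (.nd 194 (.lf 190 3 4) (.lf 193 3 4) (.nd 194 (.lf 194 3 4) (.lf 192 3 4) (.lf 193 1 2)))) (.nd 173 (.lf 144 3 4) (.lf 173 3 4) (.nd 144 (.lf 118 3 4) (.lf 144 3 4) (.lf 121 3 4))))) (.nd 207 (.nd 207 (.nd 207 (.nd 207 (.lf 203 3 4) (.nd 207 (.nd 207 (.lf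 194 3 4) (.nd 207 (.lf 205 3 4) (.lf 206 1 2) (.lf 207 1 2)) (.lf 200 3 4)) (.nd 205 (.lf 205 1 2) (.lf 185 3 4) (.lf 190 1 2)) (.lf 203 3 4)) (.lf 200 3 4)) (.nd 197 (.nd 180 (.lf 155 3 4) (.nd 180 (.lf 180 3 4) (.lf 165 1 2) (.lf 168 1 2)) (.lf 165 3 4)) (.lf 181 3 4) (.nd 197 (.nd 197 (.lf 179 3 4) (.lf 181 3 4) (.lf 197 1 2)) (.lf 195 3 4) (.lf 197 3 4))) (.nd 207 (.lf 207 3 4) (.lf 184 3 4) (.nd 183 (.lf 183 3 4) (.lf 174 3 4) (.lf 170 1 2)))) (.nd 207 (.lf 207 3 4) (.nd 174 (.lf 141 3 4) (.nd 174 (.lf 163 3 4) (.lf 174 3 4) (.nd 172 (.lf 167 3 4) (.lf 172 1 2) (.lf 169 3 4))) (.lf 171 3 4)) (.lf 192 3 4)) (.nd 197 (.lf 189 3 4) (.nd 197 (.nd 197 (.lf 197 3 4) (.nd 192 (.lf 185 3 4) (.nd 192 (.lf 190 3 4) (.lf 192 1 2) (.lf 189 3 4)) (.lf 185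 3 4)) (.nd 195 (.lf 194 1 2) (.nd 195 (.nd 191 (.lf 185 3 4) (.lf 190 3 4) (.lf 191 1 2)) (.lf 168 1 2) (.lf 195 1 2)) (.lf 194 3 4))) (.lf 190 3 4) (.lf 186 3 4)) (.lf 186 3 4))) (.nd 191 (.nd 146 (.lf 145 3 4) (.lf 139 3 4) (.nd 146 (.lf 145 1 2) (.nd 146 (.nd 146 (.lf 139 3 4) (.lf 146 3 4) (.nd 141 (.lf 141 1 2) (.lf 111 1 2) (.lf 141 3 4))) (.lf 131 3 4) (.lf 136 3 4)) (.nd 146 (.lf 146 1 2) (.lf 117 1 2) (.lf 138 3 4)))) (.lf 191 3 4) (.lf 170 3 4)) (.nd 191 (.lf 187 3 4) (.nd 191 (.nd 191 (.lf 173 3 4) (.nd 191 (.lf 167 1 2) (.lf 191 3 4) (.lf 190 1 2)) (.lf 172 3 4)) (.lf 182 3 4) (.lf 167 3 4)) (.lf 142 3 4))))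

def t15_683 : Tr := (.nd 254 (.nd 202 (.lf 202 1 4) (.nd 197 (.lf 197 1 4) (.nd 173 (.lf 173 1 4) (.lf 147 1 4) (.lf 144 1 4)) (.nd 145 (.lf 145 1 4) (.lf 133 1 4) (.nd 140 (.lf 133 1 4) (.lf 133 1 4) (.lf 140 1 4)))) (.lf 173 1 4)) (.nd 230 (.nd 230 (.lf 230 1 4) (.lf 230 1 4) (.lf 215 1 4)) (.nd 201 (.nd 171 (.nd 166 (.lf 133 1 4) (.lf 166 1 4) (.lf 133 1 4)) (.lf 133 1 4) (.nd 171 (.lf 141 1 4) (.lf 156 1 4) (.lf 171 1 4))) (.lf 168 1 4) (.lf 201 1 4)) (.lf 204 1 4)) (.lf 254 1 4))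

def t15_685 : Tr := (.nd 102 (.nd 73 (.nd 47 (.nd 47 (.lf 47 1 1) (.lf 25 1 1) (.lf 32 1 1)) (.lf 17 1 1) (.lf 16 1 1)) (.nd 50 (.lf 50 1 1) (.lf 6 1 1) (.lf 36 1 1)) (.nd 73 (.lf 73 1 1) (.lf 64 1 1) (.nd 64 (.nd 63 (.lf 63 1 1) (.lf 62 1 1) (.lf 56 1 1)) (.nd 64 (.lf 47 1 1) (.lf 35 1 1) (.lf 64 1 1)) (.lf 60 1 1)))) (.nd 102 (.nd 102 (.nd 79 (.lf 61 1 1) (.lf 68 1 1) (.lf 79 1 1)) (.nd 99 (.nd 76 (.lf 45 1 1) (.lf 76 1 1) (.lf 59 1 1)) (.lf 82 1 1) (.lf 99 1 1)) (.nd 102 (.lf 97 1 1) (.nd 88 (.lf 65 1 1) (.nd 56 (.lf 16 1 1) (.lf 42 1 1) (.lf 56 1 1)) (.lf 88 1 1)) (.lf 102 1 1))) (.nd 89 (.nd 72 (.nd 65 (.lf 41 1 1) (.lf 65 1 1) (.lf 49 1 1)) (.nd 71 (.lf 42 1 1) (.lf 71 1 1) (.lf 71 1 1)) (.nd 72 (.nd 72 (.lf 66 1 1) (.nd 72 (.nd 72 (.nd 72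 (.lf 67 2 3) (.lf 70 1 1) (.lf 72 1 1)) (.lf 71 1 1) (.lf 70 1 1)) (.lf 61 1 1) (.lf 62 1 1)) (.lf 72 1 1)) (.lf 72 1 1) (.lf 68 1 1))) (.nd 86 (.nd 86 (.lf 81 1 1) (.nd 86 (.lf 86 1 1) (.lf 62 1 1) (.lf 51 1 1)) (.lf 83 2 3)) (.lf 86 1 1) (.lf 68 1 1)) (.lf 89 1 1)) (.nd 96 (.nd 96 (.nd 96 (.nd 96 (.lf 68 1 1) (.lf 67 1 1) (.lf 96 1 1)) (.lf 85 1 1) (.lf 92 1 1)) (.lf 92 1 1) (.lf 82 1 1)) (.nd 91 (.lf 83 1 1) (.nd 91 (.nd 88 (.lf 87 2 3) (.lf 82 2 3) (.nd 88 (.lf 86 1 1) (.nd 88 (.lf 82 1 1) (.nd 87 (.lf 87 2 3) (.lf 85 1 1) (.lf 80 1 1)) (.lf 88 1 1)) (.lf 88 1 1))) (.lf 83 2 3) (.nd 91 (.lf 84 1 1) (.nd 91 (.lf 91 1 1) (.lf 81 2 3) (.lf 88 1 1)) (.lf 72 1 1))) (.lf 82 1 1)) (.nd 86 (.nd 66 (.lf 53 1 1) (.lf 66 1 1) (.lf 41 1 1)) (.nd 57 (.lf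 57 1 1) (.lf 36 1 1) (.lf 42 1 1)) (.lf 86 1 1)))) (.nd 73 (.nd 73 (.nd 73 (.lf 73 1 1) (.nd 70 (.nd 57 (.lf 34 1 1) (.lf 57 1 1) (.lf 23 1 1)) (.nd 31 (.lf 31 1 1) (.lf 6 1 1) (.lf 10 1 1)) (.nd 70 (.lf 55 1 1) (.lf 51 1 1) (.lf 70 1 1))) (.lf 53 1 1)) (.nd 51 (.nd 51 (.nd 51 (.lf 51 1 1) (.lf 35 1 1) (.lf 9 1 1)) (.nd 45 (.lf 29 1 1) (.lf 24 1 1) (.lf 45 1 1)) (.lf 49 1 1)) (.lf 24 1 1) (.lf 34 1 1)) (.nd 52 (.nd 52 (.lf 51 1 1) (.nd 50 (.nd 28 (.lf 13 1 1) (.lf 9 1 1) (.lf 28 1 1)) (.lf 50 1 1) (.lf 34 1 1)) (.lf 52 1 1)) (.lf 43 1 1) (.lf 26 1 1))) (.nd 43 (.nd 43 (.lf 28 1 1) (.lf 43 1 1) (.nd 13 (.lf 0 1 1) (.lf 11 1 1) (.nd 13 (.lf 0 1 1) (.lf 13 1 1) (.lf 0 1 1)))) (.nd 38 (.lf 0 1 1) (.lf 38 1 1) (.lf 0 1 1)) (.lf 0 1 1)) (.nd 42 (.nd 11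 (.lf 0 1 1) (.nd 11 (.lf 0 1 1) (.lf 0 1 1) (.lf 11 1 1)) (.lf 0 1 1)) (.lf 13 1 1) (.nd 42 (.lf 27 1 1) (.lf 20 1 1) (.lf 42 1 1)))))

def t15_686 : Tr := (.nd 182 (.nd 152 (.nd 143 (.nd 122 (.nd 92 (.lf 60 2 2) (.nd 92 (.lf 89 2 2) (.lf 92 1 2) (.lf 89 1 2)) (.lf 65 2 2)) (.nd 65 (.nd 56 (.lf 4 2 2) (.lf 33 2 2) (.lf 56 2 2)) (.lf 65 2 2) (.lf 35 2 2)) (.lf 122 2 2)) (.lf 126 2 2) (.lf 143 2 2)) (.lf 145 2 2) (.nd 152 (.nd 152 (.lf 119 1 2) (.nd 152 (.nd 148 (.nd 148 (.nd 148 (.lf 148 2 2) (.nd 118 (.lf 118 1 2) (.lf 113 2 2) (.lf 110 2 2)) (.lf 111 2 2)) (.lf 147 2 2) (.lf 148 2 2)) (.lf 140 2 2) (.lf 145 1 2)) (.lf 141 1 2) (.nd 152 (.lf 132 1 2) (.nd 152 (.nd 152 (.lf 146 2 2) (.lf 152 2 2) (.lf 149 2 2)) (.lf 145 1 2) (.lf 139 1 2)) (.lf 133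 1 2))) (.nd 147 (.lf 118 1 2) (.nd 147 (.lf 147 1 2) (.lf 133 2 2) (.lf 107 2 2)) (.lf 121 1 2))) (.nd 148 (.nd 115 (.nd 113 (.lf 92 1 2) (.lf 113 2 2) (.lf 87 1 2)) (.lf 115 2 2) (.lf 90 1 2)) (.nd 148 (.nd 148 (.lf 134 2 2) (.lf 139 2 2) (.nd 148 (.nd 148 (.lf 111 2 2) (.nd 148 (.lf 148 2 2) (.lf 144 1 2) (.lf 133 2 2)) (.lf 131 1 2)) (.lf 147 2 2) (.lf 132 1 2))) (.nd 135 (.lf 131 2 2) (.lf 130 2 2) (.lf 135 1 2)) (.lf 148 1 2)) (.lf 131 1 2)) (.nd 148 (.lf 138 2 2) (.nd 143 (.lf 126 2 2) (.lf 143 2 2) (.nd 105 (.lf 105 2 2) (.lf 93 2 2) (.lf 92 2 2))) (.nd 148 (.lf 147 2 2) (.nd 148 (.lf 144 2 2) (.nd 147 (.lf 146 2 2) (.lf 147 1 2) (.lf 145 1 2)) (.nd 148 (.lf 134 1 2) (.lf 148 1 2) (.lf 142 2 2))) (.lf 142 2 2))))) (.nd 182 (.nd 182 (.nd 169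 (.lf 150 2 2) (.lf 169 2 2) (.nd 149 (.lf 149 2 2) (.lf 114 2 2) (.lf 118 2 2))) (.nd 182 (.nd 178 (.lf 169 2 2) (.lf 141 2 2) (.nd 178 (.lf 178 2 2) (.nd 168 (.lf 167 2 2) (.lf 167 2 2) (.nd 168 (.lf 167 2 2) (.lf 168 1 2) (.lf 159 1 2))) (.lf 163 2 2))) (.nd 170 (.lf 161 2 2) (.nd 170 (.nd 170 (.lf 144 2 2) (.lf 162 2 2) (.lf 170 1 2)) (.lf 167 2 2) (.lf 167 1 2)) (.nd 161 (.lf 161 2 2) (.lf 140 2 2) (.lf 116 2 2))) (.nd 182 (.lf 179 2 2) (.nd 182 (.nd 176 (.lf 168 1 2) (.lf 176 1 2) (.nd 138 (.lf 138 1 2) (.lf 136 1 2) (.lf 118 2 2))) (.lf 177 2 2) (.lf 182 2 2)) (.nd 172 (.nd 167 (.nd 140 (.lf 116 2 2) (.nd 140 (.lf 140 1 2) (.lf 115 2 2) (.lf 118 2 2)) (.lf 139 2 2)) (.lf 142 1 2) (.lf 167 2 2)) (.nd 172 (.nd 166 (.nd 161 (.lf 156 2 2) (.lf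 143 1 2) (.lf 161 2 2)) (.lf 159 2 2) (.lf 166 1 2)) (.lf 168 2 2) (.lf 172 2 2)) (.lf 168 2 2)))) (.nd 164 (.nd 143 (.nd 143 (.lf 132 2 2) (.lf 143 2 2) (.lf 139 2 2)) (.lf 123 2 2) (.lf 124 2 2)) (.lf 164 2 2) (.nd 146 (.lf 128 2 2) (.nd 146 (.lf 146 2 2) (.nd 126 (.lf 89 2 2) (.nd 126 (.lf 126 2 2) (.lf 112 1 2) (.lf 111 2 2)) (.lf 117 2 2)) (.lf 128 2 2)) (.lf 123 2 2)))) (.nd 178 (.nd 165 (.lf 149 2 2) (.lf 165 2 2) (.nd 124 (.nd 119 (.lf 95 2 2) (.lf 67 2 2) (.lf 119 2 2)) (.lf 95 2 2) (.lf 124 2 2))) (.nd 178 (.nd 178 (.nd 178 (.nd 178 (.lf 165 1 2) (.nd 178 (.lf 176 2 2) (.lf 178 1 2) (.lf 160 2 2)) (.lf 178 2 2)) (.nd 166 (.nd 166 (.lf 166 2 2) (.lf 156 1 2) (.lf 159 2 2)) (.lf 153 2 2) (.lf 139 2 2)) (.lf 167 2 2)) (.nd 175 (.lf 168 2 2)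 (.nd 168 (.lf 168 1 2) (.lf 164 2 2) (.lf 158 2 2)) (.lf 175 1 2)) (.nd 178 (.nd 178 (.lf 164 1 2) (.lf 162 1 2) (.lf 178 2 2)) (.lf 171 1 2) (.lf 178 2 2))) (.nd 166 (.lf 158 1 2) (.lf 166 2 2) (.lf 160 2 2)) (.nd 160 (.nd 151 (.lf 148 1 2) (.lf 151 2 2) (.lf 145 1 2)) (.lf 160 2 2) (.lf 146 1 2))) (.nd 155 (.lf 140 2 2) (.nd 144 (.lf 144 2 2) (.nd 110 (.nd 110 (.lf 109 1 2) (.lf 110 1 2) (.lf 109 2 2)) (.lf 92 2 2) (.lf 109 2 2)) (.lf 114 2 2)) (.nd 155 (.lf 140 1 2) (.lf 154 2 2) (.lf 155 2 2)))) (.nd 179 (.nd 173 (.nd 171 (.nd 170 (.lf 140 1 2) (.lf 170 1 2) (.lf 140 1 2)) (.nd 143 (.lf 114 1 2) (.lf 136 1 2) (.lf 143 1 2)) (.nd 171 (.lf 171 2 2) (.lf 168 1 2) (.nd 170 (.nd 170 (.lf 161 1 2) (.nd 170 (.lf 169 2 2) (.lf 169 1 2) (.lf 170 2 2))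 (.lf 164 2 2)) (.lf 155 1 2) (.lf 139 2 2)))) (.nd 171 (.lf 171 1 2) (.lf 167 1 2) (.nd 140 (.lf 140 1 2) (.nd 133 (.lf 113 1 2) (.lf 133 1 2) (.lf 104 1 2)) (.lf 140 1 2))) (.nd 173 (.lf 163 2 2) (.nd 172 (.nd 172 (.lf 142 2 2) (.nd 172 (.nd 172 (.lf 172 1 2) (.lf 172 1 2) (.lf 172 1 2)) (.lf 141 2 2) (.lf 144 2 2)) (.lf 172 2 2)) (.nd 165 (.lf 165 1 2) (.lf 137 1 2) (.lf 164 2 2)) (.lf 169 1 2)) (.nd 173 (.nd 173 (.lf 162 1 2) (.nd 173 (.lf 172 1 2) (.lf 173 1 2) (.lf 171 1 2)) (.lf 163 1 2)) (.lf 167 1 2) (.lf 170 2 2)))) (.nd 179 (.nd 179 (.nd 179 (.nd 171 (.lf 162 1 2) (.lf 171 2 2) (.lf 163 1 2)) (.lf 153 1 2) (.nd 179 (.lf 167 1 2) (.lf 167 2 2) (.nd 179 (.lf 169 2 2) (.nd 179 (.lf 173 1 2) (.lf 174 1 2) (.lf 179 2 2)) (.lf 173 1 2)))) (.lf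 157 2 2) (.lf 163 2 2)) (.nd 135 (.nd 132 (.lf 132 2 2) (.lf 109 2 2) (.lf 118 1 2)) (.lf 133 1 2) (.nd 135 (.lf 114 1 2) (.lf 135 1 2) (.nd 134 (.lf 134 1 2) (.lf 122 2 2) (.lf 124 1 2)))) (.lf 169 1 2)) (.nd 172 (.lf 166 2 2) (.nd 172 (.lf 138 2 2) (.lf 152 2 2) (.nd 172 (.nd 172 (.lf 167 1 2) (.lf 168 1 2) (.nd 172 (.lf 165 2 2) (.lf 163 2 2) (.nd 172 (.lf 148 1 2) (.lf 172 2 2) (.lf 151 1 2)))) (.lf 165 2 2) (.lf 158 2 2))) (.nd 171 (.nd 171 (.lf 162 2 2) (.lf 167 1 2) (.nd 171 (.lf 142 1 2) (.lf 154 1 2) (.nd 171 (.lf 166 1 2) (.lf 169 1 2) (.lf 171 2 2)))) (.lf 162 1 2) (.lf 164 1 2))))) (.nd 151 (.nd 151 (.nd 125 (.nd 125 (.nd 109 (.lf 109 2 2) (.lf 99 2 2) (.nd 108 (.lf 108 2 2) (.lf 65 2 2) (.lf 107 2 2))) (.lf 125 2 2) (.lf 119 2 2)) (.nd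 96 (.lf 96 2 2) (.lf 73 2 2) (.nd 70 (.lf 39 2 2) (.lf 40 2 2) (.nd 70 (.lf 55 2 2) (.lf 48 2 2) (.lf 70 2 2)))) (.lf 96 2 2)) (.lf 122 2 2) (.nd 151 (.nd 147 (.lf 145 2 2) (.nd 147 (.lf 147 2 2) (.lf 144 2 2) (.lf 115 1 2)) (.lf 142 2 2)) (.lf 151 2 2) (.lf 151 2 2))) (.nd 123 (.nd 123 (.lf 106 2 2) (.lf 115 2 2) (.nd 123 (.lf 123 2 2) (.lf 97 2 2) (.lf 97 2 2))) (.nd 94 (.lf 65 2 2) (.nd 94 (.lf 75 2 2) (.lf 94 2 2) (.lf 85 2 2)) (.lf 88 2 2)) (.lf 118 2 2)) (.nd 151 (.nd 149 (.nd 149 (.lf 149 2 2) (.lf 143 2 2) (.lf 141 1 2)) (.lf 116 1 2) (.lf 136 2 2)) (.nd 151 (.nd 151 (.lf 142 1 2) (.nd 138 (.nd 138 (.lf 132 1 2) (.nd 138 (.lf 138 1 2) (.lf 114 2 2) (.lf 136 1 2)) (.lf 138 1 2)) (.lf 110 1 2) (.lf 138 1 2)) (.nd 151 (.nd 151 (.lf 127 1 2)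 (.lf 149 2 2) (.lf 151 1 2)) (.nd 136 (.lf 136 1 2) (.lf 133 2 2) (.lf 122 2 2)) (.lf 149 2 2))) (.lf 151 2 2) (.lf 149 2 2)) (.lf 145 2 2))))

def t15_688 : Tr := (.nd 122 (.nd 68 (.nd 37 (.lf 7 4 1) (.lf 6 4 1) (.nd 37 (.lf 37 4 1) (.lf 15 4 1) (.lf 22 4 1))) (.nd 40 (.nd 40 (.nd 38 (.lf 34 3 1) (.lf 35 4 1) (.lf 38 4 1)) (.lf 40 4 1) (.lf 40 4 1)) (.lf 11 4 1) (.lf 32 4 1)) (.nd 68 (.nd 68 (.lf 61 4 1) (.lf 64 4 1) (.nd 68 (.lf 61 3 1) (.lf 58 3 1) (.nd 68 (.lf 66 3 1) (.lf 68 4 1) (.nd 56 (.lf 36 3 1) (.lf 48 3 1) (.lf 56 4 1))))) (.nd 66 (.lf 44 4 1) (.nd 66 (.lf 66 4 1) (.nd 40 (.lf 16 4 1) (.nd 40 (.lf 33 4 1) (.lf 40 4 1) (.lf 30 3 1)) (.lf 23 4 1)) (.lf 55 4 1)) (.lf 66 4 1)) (.nd 63 (.lf 63 3 1) (.lf 58 4 1) (.nd 63 (.lf 63 3 1) (.lf 30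 4 1) (.lf 56 4 1))))) (.nd 122 (.nd 122 (.nd 122 (.nd 116 (.lf 116 4 1) (.lf 97 4 1) (.lf 108 4 1)) (.nd 115 (.lf 94 4 1) (.nd 115 (.lf 82 4 1) (.lf 115 4 1) (.lf 109 4 1)) (.lf 111 4 1)) (.nd 122 (.lf 122 4 1) (.lf 90 4 1) (.lf 107 4 1))) (.nd 87 (.lf 86 4 1) (.lf 87 4 1) (.lf 61 4 1)) (.nd 90 (.lf 72 4 1) (.nd 90 (.lf 90 4 1) (.lf 75 4 1) (.lf 87 4 1)) (.lf 82 4 1))) (.nd 92 (.nd 92 (.lf 81 4 1) (.nd 92 (.lf 84 4 1) (.nd 92 (.lf 86 4 1) (.lf 87 4 1) (.nd 92 (.lf 70 4 1) (.nd 83 (.lf 73 4 1) (.lf 62 4 1) (.lf 83 3 1)) (.lf 92 4 1))) (.lf 83 4 1)) (.lf 79 4 1)) (.nd 92 (.nd 71 (.lf 35 4 1) (.nd 71 (.lf 57 4 1) (.lf 62 4 1) (.nd 71 (.lf 61 4 1) (.lf 61 4 1) (.nd 71 (.lf 65 3 1) (.lf 71 4 1) (.nd 65 (.lf 65 4 1) (.lf 61 4 1) (.lf 62 3 1))))) (.lf 65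 4 1)) (.nd 78 (.lf 46 4 1) (.lf 78 4 1) (.lf 55 4 1)) (.nd 92 (.lf 92 4 1) (.lf 92 4 1) (.nd 92 (.lf 92 4 1) (.lf 92 4 1) (.nd 88 (.lf 75 4 1) (.lf 75 4 1) (.nd 88 (.lf 67 4 1) (.lf 78 4 1) (.lf 88 3 1)))))) (.nd 70 (.nd 51 (.lf 51 4 1) (.lf 34 4 1) (.nd 51 (.lf 29 4 1) (.lf 51 4 1) (.lf 29 4 1))) (.lf 70 4 1) (.lf 69 4 1))) (.nd 110 (.nd 110 (.nd 99 (.lf 80 4 1) (.nd 99 (.nd 99 (.lf 76 4 1) (.lf 76 4 1) (.lf 99 4 1)) (.lf 74 4 1) (.lf 61 4 1)) (.lf 58 4 1)) (.nd 104 (.lf 104 4 1) (.lf 99 4 1) (.lf 82 4 1)) (.nd 110 (.lf 87 4 1) (.lf 110 4 1) (.lf 85 4 1))) (.lf 84 4 1) (.nd 92 (.lf 56 4 1) (.lf 82 4 1) (.nd 92 (.lf 78 4 1) (.nd 92 (.lf 84 4 1) (.nd 92 (.nd 90 (.lf 86 4 1) (.nd 90 (.lf 82 4 1) (.lf 90 3 1) (.lf 86 4 1)) (.lf 82 4 1)) (.lf 92 4 1)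 (.lf 85 3 1)) (.lf 82 4 1)) (.lf 92 4 1))))) (.nd 63 (.nd 33 (.lf 0 4 1) (.lf 33 4 1) (.lf 28 4 1)) (.nd 32 (.lf 3 4 1) (.lf 32 4 1) (.lf 1 4 1)) (.nd 63 (.lf 41 4 1) (.nd 42 (.nd 42 (.lf 42 4 1) (.nd 41 (.lf 39 3 1) (.lf 39 3 1) (.lf 41 4 1)) (.lf 40 4 1)) (.lf 33 4 1) (.lf 22 4 1)) (.lf 63 4 1))))

def t15_689 : Tr := (.nd 219 (.nd 204 (.lf 178 1 2) (.nd 204 (.nd 200 (.lf 193 1 2) (.nd 173 (.lf 173 1 2) (.lf 140 1 2) (.lf 163 1 2)) (.lf 200 1 2)) (.lf 191 1 2) (.lf 204 1 2)) (.nd 196 (.lf 177 1 2) (.nd 147 (.nd 147 (.lf 147 1 2) (.lf 128 1 2) (.nd 137 (.lf 136 1 2) (.lf 137 1 2) (.lf 114 1 2))) (.lf 118 1 2) (.nd 140 (.lf 88 1 2) (.lf 116 1 2) (.nd 140 (.lf 110 1 2) (.lf 140 1 2) (.lf 125 1 2)))) (.lf 196 1 2))) (.nd 212 (.nd 202 (.lf 180 1 2)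 (.lf 202 1 2) (.nd 175 (.lf 142 1 2) (.lf 175 1 2) (.nd 145 (.lf 140 1 2) (.lf 93 1 2) (.lf 145 1 2)))) (.nd 212 (.lf 212 1 2) (.nd 198 (.nd 174 (.nd 174 (.nd 165 (.lf 157 1 2) (.lf 143 1 2) (.lf 165 1 2)) (.lf 157 1 2) (.lf 174 1 2)) (.lf 168 1 2) (.lf 148 1 2)) (.lf 198 1 2) (.lf 196 1 2)) (.nd 202 (.lf 195 1 4) (.lf 198 1 4) (.lf 202 1 2))) (.nd 176 (.nd 147 (.lf 118 1 2) (.nd 141 (.lf 141 1 2) (.lf 90 1 2) (.lf 119 1 2)) (.lf 147 1 2)) (.lf 176 1 2) (.lf 171 1 2))) (.nd 219 (.nd 207 (.nd 197 (.lf 197 1 4) (.lf 177 1 2) (.nd 197 (.nd 174 (.lf 167 1 2) (.nd 169 (.lf 169 1 2) (.nd 168 (.lf 158 1 2) (.lf 165 1 2) (.nd 168 (.lf 150 1 2) (.lf 145 1 2) (.lf 168 1 4))) (.lf 149 1 2)) (.lf 174 1 2)) (.lf 191 1 2) (.lf 197 1 2))) (.lf 207 1 2) (.lf 200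 1 4)) (.nd 200 (.lf 200 1 2) (.nd 196 (.nd 196 (.lf 196 1 2) (.nd 194 (.lf 165 1 4) (.lf 194 1 4) (.lf 189 1 4)) (.lf 196 1 2)) (.nd 194 (.lf 194 1 2) (.nd 181 (.lf 181 1 2) (.lf 153 1 2) (.lf 150 1 2)) (.lf 151 1 2)) (.lf 181 1 2)) (.nd 178 (.nd 178 (.nd 178 (.nd 177 (.lf 153 1 2) (.lf 177 1 2) (.lf 163 1 2)) (.lf 178 1 2) (.lf 172 1 2)) (.lf 171 1 2) (.lf 172 1 2)) (.lf 178 1 2) (.lf 173 1 2))) (.nd 219 (.lf 199 1 4) (.nd 219 (.nd 208 (.lf 198 1 2) (.nd 190 (.lf 168 1 2) (.nd 168 (.lf 168 1 4) (.lf 167 1 2) (.lf 167 1 4)) (.lf 190 1 4)) (.lf 208 1 2)) (.lf 219 1 2) (.nd 181 (.nd 181 (.lf 177 1 4) (.nd 180 (.lf 147 1 2) (.nd 180 (.lf 180 1 2) (.lf 174 1 4) (.lf 160 1 4)) (.lf 160 1 4)) (.nd 181 (.lf 181 1 4) (.lf 167 1 2) (.lf 169 1 2))) (.nd 177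 (.lf 177 1 2) (.nd 171 (.lf 152 1 2) (.lf 168 1 2) (.nd 171 (.lf 155 1 2) (.lf 160 1 4) (.lf 171 1 2))) (.lf 173 1 2)) (.nd 178 (.lf 178 1 2) (.lf 163 1 2) (.lf 163 1 4)))) (.nd 194 (.nd 194 (.lf 143 1 2) (.lf 194 1 2) (.lf 159 1 2)) (.lf 171 1 2) (.lf 171 1 4)))))

def t15_691 : Tr := (.nd 240 (.nd 240 (.nd 240 (.lf 188 5 5) (.nd 212 (.lf 192 5 5) (.nd 212 (.nd 211 (.lf 194 5 5) (.lf 211 5 5) (.nd 208 (.lf 208 1 3) (.lf 179 1 3) (.lf 191 5 5))) (.nd 207 (.nd 207 (.lf 184 4 5) (.lf 207 4 5) (.nd 204 (.lf 204 4 5) (.lf 182 5 5) (.lf 194 4 5))) (.nd 200 (.nd 196 (.lf 196 5 5) (.lf 195 5 5) (.nd 193 (.lf 193 1 3) (.lf 176 5 5) (.lf 173 5 5))) (.lf 200 5 5) (.lf 182 5 5)) (.nd 199 (.lf 180 5 5) (.lf 199 5 5) (.nd 198 (.lf 187 4 5) (.lf 184 4 5) (.nd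 198 (.lf 193 5 5) (.lf 194 5 5) (.lf 198 4 5))))) (.nd 212 (.lf 207 5 5) (.nd 212 (.lf 212 1 3) (.lf 211 4 5) (.lf 208 4 5)) (.nd 196 (.lf 185 5 5) (.nd 196 (.lf 192 1 3) (.lf 182 5 5) (.lf 196 5 5)) (.lf 192 1 3)))) (.lf 187 5 5)) (.nd 240 (.nd 211 (.lf 201 5 5) (.nd 202 (.lf 183 5 5) (.lf 184 5 5) (.lf 202 5 5)) (.lf 211 1 3)) (.lf 210 5 5) (.nd 240 (.lf 240 5 5) (.lf 199 1 3) (.lf 216 5 5)))) (.nd 239 (.nd 223 (.nd 206 (.nd 206 (.lf 155 4 5) (.lf 206 4 5) (.lf 183 4 5)) (.lf 183 4 5) (.nd 193 (.lf 193 1 3) (.lf 193 4 5) (.nd 192 (.lf 191 4 5) (.nd 192 (.lf 181 1 3) (.lf 169 1 3) (.nd 192 (.lf 191 1 3) (.lf 191 4 5) (.lf 192 4 5))) (.lf 190 4 5)))) (.nd 212 (.nd 206 (.nd 204 (.lf 197 4 5) (.lf 198 4 5) (.nd 204 (.lf 179 1 3) (.lf 204 4 5) (.lf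 195 1 3))) (.lf 206 4 5) (.nd 205 (.lf 205 4 5) (.nd 204 (.lf 169 1 3) (.lf 204 1 3) (.nd 191 (.lf 171 1 3) (.lf 168 1 3) (.lf 191 4 5))) (.lf 205 1 3))) (.lf 184 4 5) (.nd 212 (.lf 183 4 5) (.lf 186 4 5) (.nd 212 (.nd 208 (.lf 203 4 5) (.lf 208 1 3) (.lf 206 4 5)) (.lf 212 4 5) (.lf 203 4 5)))) (.nd 223 (.nd 205 (.lf 179 1 3) (.lf 165 1 3) (.nd 205 (.lf 205 1 3) (.nd 200 (.lf 195 1 3) (.nd 200 (.lf 200 4 5) (.lf 181 4 5) (.lf 200 1 3)) (.lf 196 1 3)) (.lf 190 1 3))) (.lf 214 1 3) (.nd 223 (.lf 213 1 3) (.nd 223 (.lf 215 1 3) (.lf 210 1 3) (.lf 223 4 5)) (.lf 210 4 5)))) (.nd 239 (.nd 239 (.lf 189 5 5) (.lf 239 4 5) (.lf 236 5 5)) (.nd 225 (.nd 225 (.lf 198 1 3) (.lf 225 5 5) (.lf 201 1 3)) (.lf 199 1 3) (.lf 211 5 5)) (.nd 229 (.nd 229 (.nd 217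 (.lf 217 1 3) (.nd 209 (.lf 199 4 5) (.lf 209 4 5) (.lf 204 5 5)) (.lf 214 1 3)) (.nd 227 (.lf 226 1 3) (.nd 224 (.nd 224 (.lf 217 1 3) (.lf 224 5 5) (.lf 224 1 3)) (.lf 204 5 5) (.lf 218 5 5)) (.lf 227 1 3)) (.nd 229 (.lf 229 1 3) (.lf 215 1 3) (.lf 193 1 3))) (.nd 216 (.lf 195 1 3) (.nd 216 (.lf 204 1 3) (.lf 216 5 5) (.lf 201 1 3)) (.lf 186 1 3)) (.lf 210 1 3))) (.nd 215 (.nd 210 (.lf 204 1 3) (.nd 209 (.lf 209 4 5) (.nd 178 (.lf 129 4 5) (.lf 178 4 5) (.lf 159 4 5)) (.lf 170 4 5)) (.lf 210 4 5)) (.nd 215 (.lf 215 5 5) (.lf 214 5 5) (.lf 203 1 3)) (.nd 193 (.nd 192 (.lf 188 5 5) (.lf 192 1 3) (.lf 189 5 5)) (.nd 177 (.nd 167 (.lf 158 4 5) (.lf 167 1 3) (.lf 157 4 5)) (.nd 172 (.lf 162 5 5) (.lf 172 1 3) (.lf 163 5 5)) (.lf 177 1 3)) (.nd 193 (.lf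 183 4 5) (.lf 184 4 5) (.lf 193 1 3))))) (.nd 220 (.nd 194 (.nd 187 (.lf 187 5 5) (.lf 130 5 5) (.nd 184 (.lf 130 5 5) (.nd 184 (.nd 154 (.lf 151 4 5) (.lf 146 5 5) (.lf 154 5 5)) (.lf 184 5 5) (.lf 154 5 5)) (.lf 125 5 5))) (.nd 194 (.lf 183 4 5) (.nd 194 (.lf 194 1 3) (.lf 179 5 5) (.lf 180 5 5)) (.nd 187 (.lf 178 4 5) (.lf 183 5 5) (.lf 187 5 5))) (.nd 191 (.lf 191 1 3) (.lf 156 5 5) (.nd 156 (.nd 149 (.lf 129 4 5) (.lf 149 5 5) (.nd 147 (.lf 147 5 5) (.lf 116 4 5) (.lf 121 5 5))) (.lf 156 1 3) (.lf 129 5 5)))) (.nd 220 (.nd 214 (.lf 185 4 5) (.lf 214 4 5) (.lf 205 4 5)) (.nd 209 (.nd 209 (.lf 179 4 5) (.lf 178 4 5) (.lf 209 4 5)) (.nd 186 (.lf 183 4 5) (.lf 186 4 5) (.lf 170 5 5)) (.nd 184 (.lf 184 5 5) (.lf 167 1 3) (.lf 183 5 5))) (.nd 220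 (.lf 209 5 5) (.nd 208 (.lf 158 5 5) (.lf 205 5 5) (.lf 208 4 5)) (.nd 220 (.nd 220 (.lf 220 1 3) (.lf 220 5 5) (.lf 190 1 3)) (.lf 219 5 5) (.lf 215 1 3)))) (.nd 208 (.nd 191 (.nd 161 (.lf 161 5 5) (.lf 133 5 5) (.lf 130 5 5)) (.nd 156 (.lf 125 5 5) (.lf 126 5 5) (.lf 156 5 5)) (.lf 191 1 3)) (.lf 159 5 5) (.nd 208 (.lf 184 5 5) (.nd 192 (.lf 184 5 5) (.nd 192 (.lf 184 5 5) (.lf 177 5 5) (.nd 192 (.lf 192 1 3) (.lf 185 5 5) (.lf 184 1 3))) (.lf 171 5 5)) (.nd 208 (.nd 208 (.nd 186 (.lf 186 5 5) (.lf 156 1 3) (.lf 185 1 3)) (.lf 208 5 5) (.lf 184 1 3)) (.lf 190 5 5) (.lf 189 5 5)))))) (.nd 227 (.nd 227 (.nd 227 (.lf 227 1 3) (.lf 207 1 3) (.nd 214 (.lf 204 1 3) (.nd 214 (.lf 214 1 3) (.lf 213 4 5) (.lf 205 1 3)) (.lf 213 1 3))) (.lf 205 1 3) (.nd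 206 (.nd 206 (.lf 205 1 3) (.nd 205 (.lf 182 1 3) (.lf 205 1 3) (.lf 188 1 3)) (.lf 206 1 3)) (.nd 197 (.lf 166 1 3) (.lf 197 1 3) (.lf 162 1 3)) (.nd 187 (.lf 171 1 3) (.lf 187 1 3) (.lf 146 1 3)))) (.nd 197 (.lf 192 1 3) (.lf 145 1 3) (.nd 197 (.lf 197 1 3) (.lf 167 1 3) (.lf 182 1 3))) (.nd 196 (.nd 196 (.nd 175 (.nd 175 (.lf 169 1 3) (.lf 175 1 3) (.lf 164 1 3)) (.lf 160 1 3) (.lf 165 1 3)) (.nd 196 (.lf 196 1 3) (.nd 188 (.lf 166 1 3) (.lf 188 4 5) (.lf 180 1 3)) (.lf 189 4 5)) (.nd 181 (.nd 167 (.lf 115 1 3) (.lf 167 1 3) (.lf 145 1 3)) (.lf 166 1 3) (.lf 181 1 3))) (.nd 165 (.lf 148 1 3) (.lf 165 1 3) (.lf 144 1 3)) (.nd 167 (.nd 167 (.lf 141 1 3) (.nd 167 (.lf 167 1 3) (.lf 146 1 3) (.lf 147 1 3)) (.lf 156 1 3)) (.lf 116 1 3) (.lf 161 1 3))))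 (.nd 217 (.nd 217 (.nd 217 (.nd 203 (.nd 193 (.lf 163 5 5) (.nd 191 (.nd 187 (.lf 181 1 3) (.lf 187 5 5) (.lf 184 5 5)) (.lf 183 5 5) (.lf 191 5 5)) (.lf 193 5 5)) (.nd 194 (.lf 173 1 3) (.lf 175 5 5) (.nd 194 (.lf 194 5 5) (.lf 175 1 3) (.lf 169 1 3))) (.nd 203 (.lf 184 1 3) (.nd 203 (.lf 200 1 3) (.nd 201 (.lf 201 1 3) (.lf 189 4 5) (.lf 190 4 5)) (.lf 203 1 3)) (.lf 193 1 3))) (.nd 208 (.lf 207 1 3) (.nd 189 (.lf 172 1 3) (.lf 189 1 3) (.lf 182 5 5)) (.lf 208 1 3)) (.nd 217 (.lf 214 1 3) (.nd 215 (.lf 215 1 3) (.lf 212 1 3) (.lf 202 5 5)) (.lf 217 1 3))) (.nd 213 (.lf 184 5 5) (.lf 182 5 5) (.nd 213 (.lf 213 5 5) (.nd 191 (.nd 176 (.nd 176 (.lf 173 5 5) (.lf 164 5 5) (.lf 176 1 3)) (.lf 157 5 5) (.lf 158 5 5)) (.lf 191 5 5) (.lf 180 5 5)) (.lf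 198 5 5))) (.nd 209 (.nd 209 (.lf 209 5 5) (.lf 161 5 5) (.lf 164 5 5)) (.nd 199 (.nd 181 (.nd 181 (.nd 181 (.lf 180 1 3) (.nd 181 (.lf 181 5 5) (.lf 177 1 3) (.lf 145 1 3)) (.lf 160 1 3)) (.lf 181 1 3) (.lf 181 1 3)) (.lf 173 1 3) (.lf 174 1 3)) (.lf 199 5 5) (.lf 184 5 5)) (.lf 162 5 5))) (.nd 201 (.nd 170 (.lf 139 1 3) (.lf 141 1 3) (.nd 170 (.lf 148 1 3) (.lf 170 1 3) (.lf 155 1 3))) (.nd 201 (.lf 201 1 3) (.lf 177 1 3) (.nd 186 (.lf 186 1 3) (.nd 171 (.lf 132 1 3) (.lf 140 1 3) (.lf 171 1 3)) (.lf 154 1 3))) (.nd 171 (.lf 119 1 3) (.lf 171 1 3) (.nd 166 (.lf 121 1 3) (.lf 118 1 3) (.nd 166 (.nd 166 (.lf 166 1 3) (.lf 138 1 3) (.lf 141 1 3)) (.lf 147 1 3) (.lf 147 1 3))))) (.nd 204 (.nd 204 (.nd 188 (.lf 183 5 5) (.lf 188 5 5) (.lf 136 5 5))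 (.lf 204 1 3) (.nd 173 (.lf 158 5 5) (.lf 156 5 5) (.nd 173 (.nd 173 (.lf 164 5 5) (.nd 173 (.lf 168 5 5) (.lf 165 5 5) (.lf 173 1 3)) (.lf 172 5 5)) (.lf 165 5 5) (.lf 172 5 5)))) (.nd 159 (.nd 144 (.lf 115 1 3) (.lf 144 1 3) (.lf 113 1 3)) (.lf 159 1 3) (.lf 145 1 3)) (.nd 178 (.lf 149 1 3) (.lf 152 1 3) (.nd 178 (.lf 178 1 3) (.lf 161 5 5) (.lf 162 5 5))))))

def t15_694 : Tr := (.nd 200 (.nd 200 (.nd 186 (.nd 186 (.lf 169 2 3) (.lf 186 2 3) (.lf 175 2 3)) (.nd 163 (.lf 145 2 3) (.lf 144 2 3) (.nd 163 (.nd 163 (.nd 163 (.lf 163 2 3) (.lf 161 2 3) (.nd 147 (.nd 147 (.lf 145 2 3) (.lf 134 2 3) (.lf 147 1 1)) (.lf 143 2 3) (.lf 126 2 3))) (.lf 163 2 3) (.nd 150 (.lf 136 2 3) (.lf 150 2 3) (.lf 146 2 3))) (.nd 153 (.lf 153 2 3) (.lf 116 2 3) (.lf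 139 2 3)) (.lf 146 2 3))) (.lf 162 2 3)) (.nd 200 (.lf 175 2 3) (.nd 200 (.nd 185 (.lf 182 2 3) (.nd 185 (.lf 185 2 3) (.lf 167 2 3) (.nd 175 (.lf 169 2 3) (.nd 175 (.lf 175 2 3) (.lf 169 2 3) (.nd 175 (.lf 158 1 1) (.lf 165 2 3) (.lf 175 2 3))) (.lf 140 2 3))) (.lf 185 2 3)) (.nd 195 (.nd 179 (.nd 179 (.lf 169 2 3) (.nd 179 (.lf 178 1 1) (.nd 179 (.lf 148 1 1) (.lf 178 1 1) (.lf 179 2 3)) (.lf 177 2 3)) (.lf 179 2 3)) (.lf 159 2 3) (.nd 148 (.nd 129 (.lf 123 1 1) (.lf 129 2 3) (.lf 116 2 3)) (.lf 148 2 3) (.lf 144 2 3))) (.lf 175 2 3) (.nd 195 (.lf 179 2 3) (.nd 195 (.lf 182 1 1) (.lf 195 2 3) (.lf 181 2 3)) (.lf 175 2 3))) (.nd 200 (.lf 193 2 3) (.nd 200 (.nd 191 (.nd 191 (.lf 191 1 1) (.lf 190 2 3) (.lf 191 2 3)) (.lf 183 2 3) (.lf 191 2 3)) (.lf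 200 2 3) (.nd 189 (.lf 189 2 3) (.lf 178 2 3) (.nd 187 (.lf 161 2 3) (.lf 179 1 1) (.lf 187 2 3)))) (.nd 194 (.lf 185 2 3) (.nd 194 (.lf 151 1 1) (.lf 194 2 3) (.lf 194 1 1)) (.nd 177 (.lf 177 2 3) (.lf 147 2 3) (.lf 177 1 1))))) (.lf 177 2 3)) (.nd 171 (.lf 169 2 3) (.lf 171 2 3) (.lf 147 2 3))) (.nd 195 (.nd 151 (.nd 122 (.lf 122 2 3) (.lf 99 2 3) (.nd 96 (.lf 66 2 3) (.lf 96 2 3) (.lf 65 2 3))) (.nd 122 (.lf 122 2 3) (.nd 91 (.lf 91 2 3) (.lf 62 2 3) (.lf 60 2 3)) (.lf 92 2 3)) (.nd 151 (.lf 145 2 3) (.lf 138 2 3) (.nd 151 (.lf 151 2 3) (.lf 148 2 3) (.lf 128 2 3)))) (.nd 148 (.nd 148 (.lf 126 2 3) (.nd 148 (.lf 148 2 3) (.lf 123 2 3) (.lf 145 2 3)) (.lf 123 2 3)) (.nd 115 (.lf 78 2 3) (.nd 115 (.lf 102 2 3) (.lf 115 2 3) (.lf 95 2 3)) (.lf 86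 2 3)) (.lf 118 2 3)) (.nd 195 (.lf 177 2 3) (.nd 195 (.nd 195 (.nd 195 (.lf 179 2 3) (.lf 194 1 1) (.lf 195 2 3)) (.lf 172 2 3) (.lf 170 2 3)) (.lf 168 2 3) (.lf 171 2 3)) (.nd 177 (.lf 168 2 3) (.lf 165 2 3) (.lf 177 2 3)))) (.nd 149 (.nd 144 (.lf 92 2 3) (.nd 120 (.lf 120 2 3) (.nd 91 (.lf 58 2 3) (.lf 91 2 3) (.lf 61 2 3)) (.lf 94 2 3)) (.lf 144 2 3)) (.nd 149 (.lf 141 2 3) (.lf 149 2 3) (.nd 132 (.lf 132 2 3) (.lf 104 2 3) (.nd 128 (.lf 128 2 3) (.lf 113 2 3) (.lf 114 2 3)))) (.nd 120 (.nd 91 (.lf 91 2 3) (.lf 62 2 3) (.nd 91 (.lf 91 2 3) (.lf 49 2 3) (.lf 60 2 3))) (.lf 120 2 3) (.lf 114 2 3))))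

def t15_695 : Tr := (.nd 121 (.nd 113 (.nd 90 (.lf 64 3 2) (.nd 90 (.nd 90 (.nd 83 (.lf 83 3 2) (.lf 57 3 2) (.nd 82 (.lf 54 3 2) (.lf 68 3 2) (.lf 82 3 2))) (.nd 86 (.lf 68 3 2) (.lf 86 3 2) (.lf 78 3 2)) (.nd 90 (.nd 78 (.lf 43 2 2) (.lf 51 2 2) (.lf 78 3 2)) (.nd 90 (.lf 88 2 2) (.lf 90 3 2) (.nd 78 (.lf 70 2 2) (.lf 78 3 2) (.lf 58 2 2))) (.nd 83 (.lf 83 2 2) (.lf 78 2 2) (.lf 31 2 2)))) (.nd 88 (.nd 83 (.lf 77 3 2) (.nd 83 (.nd 79 (.lf 79 3 2) (.lf 61 3 2) (.lf 58 3 2)) (.lf 70 3 2) (.lf 83 3 2)) (.lf 75 3 2)) (.nd 88 (.nd 88 (.nd 83 (.lf 83 3 2) (.lf 54 3 2) (.lf 72 3 2)) (.lf 88 3 2) (.lf 88 3 2)) (.lf 67 3 2) (.lf 63 3 2)) (.lf 66 3 2)) (.nd 85 (.nd 85 (.lf 78 3 2) (.lf 85 2 2) (.lf 52 3 2)) (.nd 76 (.lf 56 2 2) (.nd 73 (.lf 28 2 2) (.lf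 57 2 2) (.nd 73 (.lf 73 3 2) (.lf 64 3 2) (.lf 53 2 2))) (.nd 76 (.lf 76 2 2) (.lf 54 3 2) (.lf 66 2 2))) (.nd 80 (.lf 72 3 2) (.lf 54 3 2) (.nd 80 (.lf 76 3 2) (.lf 67 3 2) (.lf 80 3 2))))) (.nd 59 (.lf 59 3 2) (.lf 29 3 2) (.lf 28 3 2))) (.nd 113 (.nd 87 (.nd 82 (.lf 82 3 2) (.lf 30 3 2) (.lf 60 3 2)) (.lf 87 3 2) (.lf 58 3 2)) (.nd 113 (.lf 92 3 2) (.lf 93 3 2) (.nd 113 (.nd 113 (.nd 113 (.lf 91 3 2) (.lf 86 3 2) (.lf 113 3 2)) (.lf 89 3 2) (.lf 97 3 2)) (.lf 103 3 2) (.lf 111 3 2))) (.nd 102 (.lf 87 3 2) (.nd 74 (.lf 55 3 2) (.lf 56 3 2) (.nd 74 (.lf 63 3 2) (.lf 64 3 2) (.lf 74 3 2))) (.nd 102 (.lf 80 3 2) (.lf 87 3 2) (.nd 102 (.lf 99 3 2) (.lf 102 3 2) (.lf 88 3 2))))) (.nd 62 (.lf 55 3 2) (.lf 33 3 2) (.nd 62 (.nd 52 (.lf 52 3 2) (.lf 51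 3 2) (.lf 29 3 2)) (.lf 43 3 2) (.lf 62 3 2)))) (.nd 121 (.nd 100 (.nd 89 (.lf 73 3 2) (.lf 89 2 2) (.nd 86 (.lf 55 2 2) (.lf 56 2 2) (.lf 86 2 2))) (.nd 98 (.nd 82 (.lf 82 2 2) (.lf 30 2 2) (.lf 77 2 2)) (.nd 98 (.nd 98 (.nd 96 (.lf 96 2 2) (.nd 95 (.lf 94 2 2) (.nd 95 (.lf 95 3 2) (.lf 95 2 2) (.lf 95 2 2)) (.lf 90 2 2)) (.lf 70 2 2)) (.nd 98 (.nd 90 (.lf 85 3 2) (.lf 55 3 2) (.lf 90 2 2)) (.lf 89 3 2) (.lf 98 2 2)) (.lf 92 2 2)) (.nd 91 (.lf 91 2 2) (.lf 71 2 2) (.nd 62 (.lf 43 2 2) (.nd 62 (.lf 61 2 2) (.nd 58 (.lf 55 3 2) (.lf 58 3 2) (.lf 58 2 2)) (.lf 62 2 2)) (.lf 51 2 2))) (.lf 90 2 2)) (.nd 81 (.lf 81 2 2) (.lf 52 2 2) (.nd 50 (.lf 50 2 2) (.lf 26 2 2) (.lf 29 2 2)))) (.nd 100 (.lf 87 3 2) (.lf 86 3 2) (.nd 100 (.nd 96 (.lf 87 3 2) (.lf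 70 3 2) (.nd 96 (.lf 96 3 2) (.nd 95 (.lf 92 3 2) (.nd 94 (.lf 80 3 2) (.lf 92 2 2) (.lf 94 3 2)) (.lf 95 3 2)) (.lf 94 3 2))) (.nd 100 (.nd 93 (.lf 75 2 2) (.nd 93 (.lf 93 2 2) (.lf 67 3 2) (.lf 78 3 2)) (.lf 75 3 2)) (.lf 97 3 2) (.nd 100 (.nd 100 (.lf 95 3 2) (.lf 100 2 2) (.lf 95 3 2)) (.lf 93 3 2) (.nd 99 (.lf 99 3 2) (.lf 88 2 2) (.lf 95 3 2)))) (.lf 93 3 2)))) (.nd 117 (.nd 108 (.nd 108 (.lf 78 2 2) (.nd 108 (.lf 82 2 2) (.lf 84 2 2) (.lf 108 2 2)) (.lf 93 2 2)) (.lf 56 2 2) (.lf 86 2 2)) (.nd 117 (.lf 105 2 2) (.nd 104 (.nd 95 (.lf 94 2 2) (.nd 91 (.nd 85 (.lf 76 2 2) (.nd 85 (.lf 70 2 2) (.lf 80 3 2) (.lf 85 2 2)) (.lf 48 2 2)) (.lf 91 2 2) (.lf 78 2 2)) (.nd 95 (.lf 81 2 2) (.lf 89 2 2) (.lf 95 3 2))) (.lf 82 2 2) (.lf 104 2 2)) (.lf 117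 2 2)) (.lf 88 2 2)) (.nd 121 (.nd 121 (.nd 121 (.lf 99 3 2) (.lf 98 3 2) (.nd 121 (.nd 108 (.lf 108 3 2) (.lf 98 3 2) (.lf 84 2 2)) (.lf 121 3 2) (.lf 118 3 2))) (.nd 121 (.nd 121 (.nd 121 (.lf 108 2 2) (.lf 81 2 2) (.lf 121 3 2)) (.lf 109 2 2) (.lf 120 3 2)) (.nd 119 (.lf 105 3 2) (.lf 101 2 2) (.nd 119 (.lf 119 2 2) (.lf 95 3 2) (.lf 101 3 2))) (.nd 118 (.lf 113 2 2) (.lf 104 3 2) (.lf 118 3 2))) (.lf 121 3 2)) (.nd 98 (.nd 98 (.lf 83 3 2) (.lf 98 3 2) (.nd 96 (.lf 87 3 2) (.nd 96 (.nd 96 (.lf 87 3 2) (.lf 91 2 2) (.lf 96 2 2)) (.lf 80 2 2) (.lf 94 2 2)) (.lf 89 3 2))) (.nd 89 (.lf 60 3 2) (.nd 89 (.lf 89 3 2) (.lf 89 3 2) (.nd 85 (.lf 83 3 2) (.nd 85 (.lf 82 3 2) (.lf 53 2 2) (.lf 85 3 2)) (.lf 80 3 2))) (.lf 63 3 2)) (.lf 61 3 2)) (.nd 97 (.lf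 83 3 2) (.nd 97 (.lf 97 3 2) (.lf 91 3 2) (.nd 96 (.lf 57 2 2) (.nd 94 (.lf 94 2 2) (.lf 89 3 2) (.lf 79 2 2)) (.nd 96 (.lf 56 2 2) (.lf 96 3 2) (.lf 59 2 2)))) (.lf 81 3 2)))) (.nd 90 (.nd 65 (.nd 54 (.nd 52 (.lf 32 2 2) (.nd 50 (.lf 19 2 2) (.lf 50 3 2) (.lf 24 3 2)) (.lf 52 3 2)) (.lf 32 3 2) (.nd 54 (.lf 54 3 2) (.lf 21 3 2) (.nd 47 (.lf 21 3 2) (.lf 47 2 2) (.lf 23 2 2)))) (.nd 59 (.lf 49 3 2) (.nd 59 (.lf 49 3 2) (.lf 28 3 2) (.nd 59 (.lf 41 3 2) (.lf 59 3 2) (.lf 35 3 2))) (.lf 4 3 2)) (.nd 65 (.nd 56 (.lf 56 2 2) (.lf 39 2 2) (.lf 46 2 2)) (.nd 65 (.lf 56 3 2) (.nd 65 (.nd 60 (.lf 51 3 2) (.lf 41 3 2) (.nd 60 (.lf 60 3 2) (.nd 59 (.lf 59 3 2) (.lf 58 3 2) (.lf 59 2 2)) (.lf 59 3 2))) (.nd 65 (.nd 65 (.lf 45 2 2) (.lf 65 3 2) (.lf 43 3 2))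 (.lf 61 3 2) (.nd 59 (.lf 50 2 2) (.lf 58 3 2) (.nd 59 (.lf 59 3 2) (.lf 46 2 2) (.lf 19 2 2)))) (.lf 59 3 2)) (.lf 51 3 2)) (.nd 55 (.lf 50 2 2) (.lf 55 3 2) (.nd 46 (.lf 24 2 2) (.lf 29 3 2) (.lf 46 2 2))))) (.nd 90 (.nd 86 (.lf 57 2 2) (.nd 86 (.lf 82 2 2) (.nd 82 (.lf 56 2 2) (.lf 82 2 2) (.lf 77 2 2)) (.lf 86 2 2)) (.lf 77 2 2)) (.nd 81 (.nd 55 (.nd 37 (.lf 37 3 2) (.lf 34 3 2) (.lf 29 2 2)) (.lf 44 3 2) (.lf 55 2 2)) (.nd 79 (.lf 55 3 2) (.lf 56 3 2) (.nd 79 (.nd 79 (.lf 66 3 2) (.lf 79 2 2) (.nd 72 (.nd 68 (.lf 57 2 2) (.lf 68 3 2) (.lf 64 3 2)) (.lf 62 3 2) (.lf 72 3 2))) (.lf 71 3 2) (.lf 62 3 2))) (.lf 81 2 2)) (.nd 90 (.nd 90 (.nd 90 (.nd 90 (.lf 81 2 2) (.nd 90 (.lf 90 3 2) (.lf 50 2 2) (.lf 77 2 2)) (.lf 89 3 2)) (.nd 87 (.lf 73 3 2)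 (.lf 82 2 2) (.lf 87 3 2)) (.nd 88 (.nd 88 (.lf 64 3 2) (.lf 88 2 2) (.lf 70 3 2)) (.lf 76 2 2) (.lf 74 3 2))) (.nd 90 (.lf 72 3 2) (.lf 82 3 2) (.nd 90 (.lf 90 3 2) (.lf 90 3 2) (.nd 77 (.lf 77 3 2) (.lf 53 2 2) (.lf 67 3 2)))) (.lf 90 3 2)) (.lf 83 3 2) (.nd 67 (.nd 30 (.nd 14 (.lf 0 3 2) (.nd 14 (.nd 14 (.lf 14 2 2) (.lf 1 3 2) (.lf 0 3 2)) (.lf 0 2 2) (.lf 10 3 2)) (.lf 1 3 2)) (.lf 1 3 2) (.lf 30 3 2)) (.nd 58 (.nd 58 (.lf 58 3 2) (.lf 58 3 2) (.nd 54 (.lf 49 3 2) (.nd 54 (.lf 54 3 2) (.lf 22 2 2) (.lf 51 3 2)) (.lf 52 3 2))) (.lf 29 3 2) (.lf 32 3 2)) (.nd 67 (.nd 65 (.nd 65 (.lf 49 2 2) (.nd 65 (.lf 65 2 2) (.lf 60 2 2) (.lf 56 3 2)) (.lf 63 2 2)) (.lf 56 3 2) (.lf 58 3 2)) (.lf 67 3 2) (.lf 52 3 2))))) (.nd 90 (.nd 33 (.lf 33 3 2) (.lf 3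 3 2) (.lf 24 3 2)) (.nd 90 (.nd 56 (.lf 56 3 2) (.lf 51 3 2) (.lf 27 3 2)) (.nd 78 (.lf 52 3 2) (.lf 59 3 2) (.nd 78 (.lf 59 3 2) (.lf 60 3 2) (.nd 78 (.lf 67 3 2) (.lf 78 3 2) (.lf 67 3 2)))) (.nd 90 (.nd 90 (.lf 82 3 2) (.nd 90 (.lf 83 3 2) (.lf 90 3 2) (.lf 81 3 2)) (.lf 76 3 2)) (.lf 69 3 2) (.lf 66 3 2))) (.nd 60 (.nd 60 (.lf 57 3 2) (.nd 60 (.lf 55 3 2) (.lf 52 3 2) (.nd 60 (.lf 52 2 2) (.nd 60 (.lf 60 2 2) (.lf 59 3 2) (.lf 57 2 2)) (.lf 49 2 2))) (.nd 57 (.lf 54 2 2) (.lf 57 3 2) (.lf 49 3 2))) (.lf 33 3 2) (.lf 28 3 2)))))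

def t15_697 : Tr := (.nd 146 (.nd 136 (.nd 136 (.lf 118 1 1) (.nd 114 (.nd 114 (.nd 114 (.lf 107 1 1) (.nd 114 (.lf 100 1 1) (.lf 103 1 1) (.lf 114 2 1)) (.lf 99 1 1)) (.lf 107 1 1) (.lf 100 1 1)) (.nd 91 (.lf 70 1 1) (.lf 67 1 1) (.lf 91 1 1)) (.nd 93 (.lf 93 1 1) (.lf 42 1 1) (.lf 68 1 1))) (.nd 136 (.lf 131 1 1) (.lf 136 1 1) (.lf 131 1 1))) (.nd 119 (.lf 93 1 1) (.nd 119 (.lf 91 1 1) (.lf 92 1 1) (.lf 119 1 1)) (.nd 105 (.lf 97 1 1) (.nd 96 (.lf 65 1 1) (.lf 67 1 1) (.lf 96 1 1)) (.nd 105 (.nd 105 (.lf 78 1 1) (.lf 88 1 1) (.lf 105 1 1)) (.lf 104 1 1) (.lf 105 1 1)))) (.nd 131 (.nd 131 (.lf 131 1 1) (.nd 118 (.nd 116 (.lf 111 1 1) (.nd 116 (.lf 109 2 1) (.lf 110 2 1) (.lf 116 1 1)) (.lf 113 1 1)) (.lf 107 1 1) (.lf 118 1 1)) (.nd 114 (.nd 114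 (.nd 109 (.lf 105 1 1) (.lf 109 2 1) (.lf 108 1 1)) (.lf 111 1 1) (.lf 114 2 1)) (.lf 112 1 1) (.lf 89 1 1))) (.lf 117 1 1) (.nd 117 (.lf 66 1 1) (.nd 113 (.nd 68 (.lf 39 1 1) (.nd 39 (.lf 13 1 1) (.lf 16 1 1) (.lf 39 1 1)) (.nd 68 (.lf 62 1 1) (.lf 68 1 1) (.lf 55 1 1))) (.lf 113 1 1) (.lf 65 1 1)) (.lf 117 1 1)))) (.nd 139 (.nd 122 (.lf 114 1 1) (.nd 91 (.lf 66 1 1) (.lf 88 1 1) (.lf 91 1 1)) (.lf 122 1 1)) (.nd 138 (.lf 92 1 1) (.lf 122 1 1) (.nd 138 (.nd 138 (.lf 113 1 1) (.lf 120 1 1) (.nd 138 (.nd 138 (.lf 137 1 1) (.nd 138 (.lf 138 1 1) (.lf 115 2 1) (.lf 137 1 1)) (.lf 136 1 1)) (.lf 138 1 1) (.lf 130 1 1))) (.lf 129 1 1) (.lf 114 1 1))) (.nd 139 (.lf 135 1 1) (.nd 139 (.nd 139 (.lf 139 1 1) (.lf 139 1 1) (.nd 139 (.nd 139 (.nd 139 (.lf 128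 2 1) (.nd 139 (.lf 138 1 1) (.lf 138 2 1) (.lf 139 1 1)) (.lf 130 2 1)) (.lf 136 1 1) (.nd 136 (.lf 108 1 1) (.lf 122 1 1) (.lf 136 2 1))) (.lf 135 2 1) (.lf 136 2 1))) (.lf 121 1 1) (.lf 129 1 1)) (.lf 132 1 1))) (.nd 146 (.nd 122 (.lf 119 1 1) (.nd 122 (.lf 122 1 1) (.lf 122 1 1) (.nd 122 (.lf 93 1 1) (.nd 122 (.nd 122 (.lf 103 2 1) (.nd 122 (.lf 116 2 1) (.lf 113 1 1) (.nd 122 (.lf 120 1 1) (.lf 122 2 1) (.lf 121 2 1))) (.lf 107 1 1)) (.lf 122 1 1) (.lf 115 1 1)) (.lf 121 1 1))) (.nd 117 (.lf 96 1 1) (.lf 100 1 1) (.lf 117 1 1))) (.nd 146 (.nd 146 (.nd 146 (.lf 145 1 1) (.lf 145 1 1) (.nd 146 (.nd 146 (.nd 146 (.lf 136 1 1) (.nd 146 (.lf 146 2 1) (.lf 145 1 1) (.lf 146 1 1)) (.lf 137 1 1)) (.lf 141 1 1) (.lf 144 1 1)) (.lf 137 1 1) (.lf 146 1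 1))) (.nd 145 (.lf 109 1 1) (.lf 143 1 1) (.nd 145 (.nd 145 (.lf 127 1 1) (.nd 143 (.lf 141 1 1) (.nd 143 (.lf 123 2 1) (.lf 120 2 1) (.lf 143 1 1)) (.lf 121 2 1)) (.lf 145 1 1)) (.lf 131 1 1) (.lf 137 1 1))) (.lf 146 1 1)) (.nd 146 (.lf 138 1 1) (.lf 143 1 1) (.nd 146 (.lf 145 2 1) (.lf 144 1 1) (.nd 146 (.lf 145 2 1) (.lf 140 2 1) (.lf 146 1 1)))) (.nd 141 (.lf 139 1 1) (.nd 141 (.lf 134 1 1) (.nd 141 (.lf 140 2 1) (.nd 141 (.lf 141 1 1) (.nd 139 (.lf 135 2 1) (.lf 139 1 1) (.lf 133 2 1)) (.lf 140 1 1)) (.lf 141 2 1)) (.lf 140 1 1)) (.lf 129 1 1))) (.nd 125 (.lf 125 1 1) (.nd 97 (.lf 92 1 1) (.nd 97 (.nd 97 (.lf 97 1 1) (.lf 71 1 1) (.lf 71 1 1)) (.lf 80 1 1) (.lf 89 1 1)) (.lf 68 1 1)) (.nd 125 (.lf 123 1 1) (.lf 125 1 1) (.lf 119 1 1)))))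

def t15_698 : Tr := (.nd 259 (.nd 227 (.nd 197 (.lf 197 2 4) (.nd 192 (.lf 147 2 4) (.nd 144 (.lf 144 2 4) (.lf 111 2 4) (.lf 114 2 4)) (.nd 192 (.lf 173 2 4) (.lf 173 2 4) (.nd 192 (.lf 192 2 4) (.lf 164 2 4) (.lf 167 2 4)))) (.nd 145 (.lf 116 2 4) (.nd 140 (.lf 140 2 4) (.lf 102 2 4) (.lf 116 2 4)) (.lf 145 2 4))) (.nd 194 (.nd 165 (.lf 165 2 4) (.lf 116 2 4) (.nd 142 (.lf 113 2 4) (.lf 118 2 4) (.lf 142 2 4))) (.lf 194 2 4) (.nd 157 (.lf 157 2 4) (.nd 144 (.lf 102 2 4) (.lf 144 2 4) (.lf 130 2 4)) (.nd 141 (.lf 113 2 4) (.lf 141 2 4) (.nd 119 (.lf 111 2 4) (.lf 119 2 4) (.lf 102 2 4))))) (.lf 227 2 4)) (.lf 232 2 4) (.nd 259 (.nd 256 (.lf 247 2 4) (.lf 256 2 4) (.lf 253 1 4)) (.nd 259 (.lf 251 2 4) (.lf 247 2 4) (.nd 259 (.nd 259 (.lf 259 1 4)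 (.lf 256 1 4) (.lf 258 2 4)) (.lf 251 1 4) (.lf 248 1 4))) (.lf 256 2 4)))

def t15_700 : Tr := (.nd 342 (.lf 342 1 3) (.lf 327 1 3) (.nd 320 (.nd 303 (.lf 287 1 3) (.nd 286 (.lf 255 1 3) (.nd 249 (.lf 206 1 3) (.nd 242 (.lf 203 1 3) (.lf 208 1 3) (.lf 242 1 3)) (.lf 249 1 3)) (.lf 286 1 3)) (.lf 303 1 3)) (.lf 293 1 3) (.lf 320 1 3)))

def t15_703 : Tr := (.nd 185 (.nd 172 (.nd 172 (.nd 159 (.nd 139 (.lf 93 1 1) (.lf 139 1 1) (.lf 123 1 1)) (.lf 144 1 1) (.nd 159 (.nd 159 (.lf 153 1 1) (.nd 159 (.lf 151 1 1) (.lf 159 1 1) (.lf 137 1 1)) (.lf 153 1 1)) (.lf 153 1 1) (.lf 152 1 1))) (.nd 152 (.nd 152 (.lf 152 1 1) (.lf 142 1 1) (.lf 138 1 1)) (.lf 138 1 1) (.nd 141 (.lf 105 1 1) (.lf 118 1 1) (.lf 141 1 1))) (.nd 172 (.nd 159 (.lf 159 1 1) (.lf 136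 1 1) (.nd 153 (.lf 153 1 1) (.lf 135 1 1) (.nd 126 (.lf 126 1 1) (.lf 109 1 1) (.lf 109 1 1)))) (.nd 172 (.nd 172 (.lf 155 1 1) (.lf 172 1 1) (.lf 161 1 1)) (.lf 152 1 1) (.lf 155 1 1)) (.lf 151 1 1))) (.nd 135 (.nd 135 (.nd 135 (.lf 127 1 1) (.lf 133 1 1) (.lf 135 1 1)) (.lf 125 1 1) (.lf 128 1 1)) (.lf 119 1 1) (.lf 119 1 1)) (.nd 142 (.lf 142 1 1) (.nd 94 (.lf 65 1 1) (.lf 94 1 1) (.lf 87 1 1)) (.nd 124 (.lf 124 1 1) (.lf 91 1 1) (.nd 96 (.lf 68 1 1) (.lf 96 1 1) (.nd 65 (.lf 34 1 1) (.lf 65 1 1) (.lf 35 1 1)))))) (.nd 185 (.nd 185 (.nd 185 (.nd 185 (.nd 185 (.lf 182 1 1) (.lf 179 1 1) (.lf 185 1 1)) (.lf 180 1 1) (.lf 175 1 1)) (.nd 182 (.lf 166 1 1) (.nd 182 (.nd 182 (.lf 159 1 1) (.lf 165 1 1) (.lf 182 1 3)) (.nd 182 (.lf 175 1 1) (.lf 182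 1 1) (.nd 182 (.lf 175 1 1) (.lf 182 1 3) (.lf 175 1 1))) (.lf 178 1 1)) (.lf 155 1 1)) (.lf 163 1 1)) (.nd 180 (.lf 174 1 1) (.lf 166 1 1) (.nd 180 (.nd 180 (.lf 171 1 1) (.lf 163 1 1) (.nd 180 (.lf 165 1 1) (.lf 180 1 1) (.lf 168 1 1))) (.lf 138 1 1) (.lf 152 1 1))) (.lf 179 1 1)) (.nd 177 (.lf 150 1 1) (.nd 157 (.lf 145 1 1) (.lf 157 1 1) (.nd 134 (.nd 118 (.lf 90 1 1) (.lf 118 1 1) (.lf 94 1 1)) (.lf 134 1 1) (.lf 112 1 1))) (.nd 177 (.lf 167 1 1) (.lf 166 1 1) (.nd 177 (.lf 155 1 1) (.lf 154 1 1) (.lf 177 1 1)))) (.nd 176 (.lf 155 1 1) (.nd 158 (.lf 149 1 1) (.nd 158 (.nd 158 (.lf 148 1 1) (.lf 158 1 1) (.lf 145 1 1)) (.lf 150 1 1) (.lf 144 1 1)) (.lf 124 1 1)) (.nd 176 (.nd 176 (.lf 176 1 1) (.lf 159 1 1) (.lf 160 1 1)) (.nd 168 (.lf 160 1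 1) (.nd 168 (.lf 155 1 1) (.lf 150 1 1) (.nd 168 (.lf 166 1 1) (.lf 155 1 1) (.nd 168 (.lf 151 1 1) (.lf 152 1 1) (.lf 168 1 1)))) (.lf 134 1 1)) (.lf 157 1 1)))) (.nd 174 (.nd 174 (.nd 174 (.lf 149 1 1) (.nd 174 (.nd 169 (.lf 153 1 1) (.lf 149 1 1) (.nd 169 (.lf 149 1 1) (.lf 153 1 1) (.lf 169 1 1))) (.nd 174 (.nd 174 (.lf 165 1 1) (.lf 174 1 1) (.lf 163 1 1)) (.nd 168 (.nd 168 (.lf 125 1 1) (.lf 168 1 1) (.lf 168 1 1)) (.lf 151 1 1) (.lf 159 1 1)) (.lf 167 1 1)) (.lf 159 1 1)) (.lf 151 1 1)) (.nd 145 (.lf 145 1 1) (.lf 121 1 1) (.lf 143 1 1)) (.nd 160 (.nd 160 (.lf 160 1 1) (.lf 149 1 1) (.lf 143 1 1)) (.lf 137 1 1) (.lf 136 1 1))) (.nd 169 (.nd 169 (.lf 151 1 1) (.nd 169 (.lf 142 1 1) (.lf 145 1 1) (.nd 169 (.lf 169 1 1) (.lf 146 1 1) (.lf 144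 1 1))) (.lf 151 1 1)) (.nd 125 (.nd 125 (.lf 119 1 1) (.lf 112 1 1) (.nd 125 (.lf 102 1 1) (.lf 125 1 1) (.lf 122 1 1))) (.lf 96 1 1) (.lf 96 1 1)) (.lf 122 1 1)) (.nd 123 (.lf 118 1 1) (.nd 123 (.lf 106 1 1) (.lf 115 1 1) (.lf 123 1 1)) (.lf 94 1 1))))

def t15_704 : Tr := (.nd 236 (.nd 214 (.nd 214 (.nd 214 (.nd 198 (.lf 198 1 2) (.nd 171 (.nd 138 (.lf 101 1 2) (.lf 109 1 2) (.lf 138 1 2)) (.lf 171 1 2) (.lf 141 1 2)) (.lf 174 1 2)) (.lf 214 1 2) (.nd 172 (.nd 148 (.nd 148 (.lf 148 1 2) (.lf 137 1 2) (.nd 129 (.lf 129 1 2) (.lf 128 1 2) (.lf 125 1 2))) (.lf 143 1 2) (.lf 115 1 2)) (.nd 143 (.lf 137 1 2) (.lf 143 1 2) (.lf 114 1 2)) (.lf 172 1 2))) (.lf 214 1 2) (.lf 208 1 2)) (.nd 200 (.nd 180 (.nd 143 (.lf 100 1 2) (.nd 136 (.nd 102 (.lf 102 1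 2) (.lf 71 1 2) (.lf 74 1 2)) (.lf 136 1 2) (.lf 97 1 2)) (.lf 143 1 2)) (.lf 180 1 2) (.nd 149 (.lf 125 1 2) (.lf 149 1 2) (.nd 121 (.lf 121 1 2) (.lf 114 1 2) (.lf 71 1 2)))) (.lf 200 1 2) (.nd 181 (.nd 129 (.nd 124 (.nd 124 (.lf 94 1 2) (.lf 124 1 2) (.lf 109 1 2)) (.lf 72 1 2) (.lf 100 1 2)) (.lf 129 1 2) (.nd 100 (.lf 100 1 2) (.lf 94 1 2) (.lf 71 1 2))) (.lf 181 1 2) (.nd 176 (.nd 131 (.lf 131 1 2) (.lf 102 1 2) (.lf 102 1 2)) (.lf 128 1 2) (.lf 176 1 2)))) (.nd 187 (.nd 174 (.lf 174 1 2) (.lf 155 1 2) (.nd 154 (.nd 125 (.lf 119 1 2) (.lf 125 1 2) (.lf 74 1 2)) (.lf 154 1 2) (.nd 123 (.lf 99 1 2) (.lf 123 1 2) (.lf 102 1 2)))) (.lf 177 1 2) (.lf 187 1 2))) (.nd 236 (.lf 216 1 2) (.nd 233 (.nd 220 (.lf 220 1 2) (.lf 197 1 2) (.nd 186 (.nd 171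 (.lf 171 1 2) (.lf 141 1 2) (.nd 128 (.lf 111 1 2) (.lf 128 1 2) (.lf 109 1 2))) (.lf 171 1 2) (.lf 186 1 2))) (.lf 233 1 2) (.lf 194 1 2)) (.lf 236 1 2)) (.nd 221 (.lf 221 1 2) (.nd 189 (.nd 155 (.nd 126 (.nd 126 (.lf 126 1 2) (.lf 117 1 2) (.lf 107 1 2)) (.lf 120 1 2) (.lf 97 1 2)) (.nd 150 (.lf 150 1 2) (.lf 98 1 2) (.nd 126 (.lf 126 1 2) (.lf 97 1 2) (.lf 100 1 2))) (.lf 155 1 2)) (.lf 189 1 2) (.nd 185 (.nd 157 (.lf 128 1 2) (.lf 157 1 2) (.nd 128 (.lf 105 1 2) (.lf 102 1 2) (.lf 128 1 2))) (.nd 154 (.lf 121 1 2) (.lf 124 1 2) (.lf 154 1 2)) (.lf 185 1 2))) (.nd 206 (.lf 167 1 2) (.lf 206 1 2) (.nd 175 (.lf 175 1 2) (.lf 142 1 2) (.nd 158 (.nd 140 (.lf 96 1 2) (.lf 137 1 2) (.lf 140 1 2)) (.lf 123 1 2) (.lf 158 1 2))))))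

def t15_706 : Tr := (.nd 254 (.nd 254 (.nd 239 (.nd 216 (.lf 216 1 1) (.lf 197 1 1) (.nd 198 (.lf 198 1 1) (.nd 146 (.lf 117 1 1) (.lf 146 1 1) (.lf 141 1 1)) (.nd 193 (.lf 193 1 1) (.lf 145 1 1) (.nd 148 (.lf 119 1 1) (.lf 148 1 1) (.lf 119 1 1))))) (.lf 239 1 1) (.nd 215 (.nd 215 (.nd 202 (.nd 193 (.lf 193 1 1) (.nd 172 (.lf 139 1 1) (.lf 115 1 1) (.lf 172 1 1)) (.lf 169 1 1)) (.lf 195 1 1) (.lf 202 1 1)) (.lf 215 1 1) (.lf 201 1 1)) (.nd 195 (.nd 176 (.lf 176 1 1) (.nd 145 (.lf 116 1 1) (.lf 114 1 1) (.lf 145 1 1)) (.lf 146 1 1)) (.lf 195 1 1) (.lf 195 1 1)) (.nd 190 (.lf 171 1 1) (.nd 172 (.lf 120 1 1) (.lf 167 1 1) (.lf 172 1 1)) (.lf 190 1 1)))) (.nd 224 (.lf 224 1 1) (.lf 222 1 1) (.nd 200 (.lf 174 1 1) (.nd 200 (.nd 191 (.lf 191 1 1) (.nd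 183 (.nd 165 (.lf 165 1 1) (.lf 141 1 1) (.lf 136 1 1)) (.lf 137 1 1) (.lf 183 1 1)) (.lf 169 1 1)) (.lf 183 1 1) (.lf 200 1 1)) (.nd 194 (.lf 194 1 1) (.lf 170 1 1) (.lf 143 1 1)))) (.lf 254 1 1)) (.nd 202 (.lf 197 1 1) (.nd 173 (.nd 173 (.nd 164 (.nd 156 (.lf 156 1 1) (.nd 110 (.lf 110 1 1) (.lf 105 1 1) (.lf 81 1 1)) (.lf 140 1 1)) (.lf 164 1 1) (.lf 142 1 1)) (.lf 173 1 1) (.lf 154 1 1)) (.nd 144 (.lf 144 1 1) (.nd 144 (.lf 144 1 1) (.lf 113 1 1) (.lf 87 1 1)) (.nd 115 (.lf 115 1 1) (.lf 106 1 1) (.lf 113 1 1))) (.nd 167 (.nd 116 (.lf 116 1 1) (.lf 109 1 1) (.lf 87 1 1)) (.lf 145 1 1) (.lf 167 1 1))) (.lf 202 1 1)) (.nd 233 (.nd 201 (.nd 168 (.lf 139 1 1) (.lf 168 1 1) (.nd 131 (.lf 115 1 1) (.lf 131 1 1) (.nd 118 (.lf 76 1 1) (.lf 118 1 1) (.lf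 104 1 1)))) (.lf 201 1 1) (.nd 171 (.lf 171 1 1) (.nd 166 (.nd 166 (.lf 147 1 1) (.lf 147 1 1) (.nd 166 (.lf 141 1 1) (.lf 166 1 1) (.lf 138 1 1))) (.lf 121 1 1) (.nd 118 (.lf 118 1 1) (.lf 85 1 1) (.lf 88 1 1))) (.lf 119 1 1))) (.lf 206 1 1) (.lf 233 1 1)))

def t15_707 : Tr := (.nd 155 (.nd 155 (.nd 155 (.lf 132 1 2) (.nd 155 (.lf 150 1 2) (.lf 155 1 2) (.nd 141 (.nd 109 (.lf 69 1 2) (.lf 109 1 2) (.lf 95 1 2)) (.lf 118 1 2) (.lf 141 1 2))) (.lf 152 1 2)) (.nd 149 (.nd 149 (.nd 149 (.lf 149 1 2) (.nd 145 (.nd 117 (.lf 113 1 2) (.lf 105 1 2) (.lf 117 1 2)) (.lf 145 1 2) (.lf 127 1 2)) (.lf 138 1 2)) (.nd 135 (.lf 135 1 2) (.nd 128 (.lf 92 1 2) (.lf 128 1 2) (.lf 97 1 2)) (.lf 95 1 2)) (.nd 145 (.lf 121 1 2) (.lf 100 1 2) (.lf 145 1 2))) (.lf 139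 1 2) (.nd 145 (.nd 145 (.nd 141 (.lf 140 2 4) (.nd 141 (.lf 139 1 2) (.lf 141 1 2) (.nd 141 (.nd 140 (.lf 140 2 4) (.lf 133 1 2) (.lf 138 1 2)) (.lf 135 1 2) (.lf 141 1 2))) (.lf 135 2 4)) (.lf 145 1 2) (.lf 136 2 4)) (.lf 136 1 2) (.nd 135 (.lf 135 1 2) (.lf 98 1 2) (.lf 127 1 2)))) (.nd 139 (.nd 139 (.nd 139 (.lf 134 1 2) (.lf 136 2 4) (.lf 139 1 2)) (.nd 121 (.lf 121 1 2) (.lf 89 1 2) (.lf 89 1 2)) (.nd 139 (.lf 120 1 2) (.lf 139 1 2) (.lf 90 1 2))) (.lf 129 1 2) (.nd 138 (.nd 138 (.lf 123 1 2) (.lf 118 1 2) (.nd 138 (.lf 138 1 2) (.nd 138 (.lf 138 1 2) (.nd 138 (.nd 138 (.lf 129 2 4) (.lf 129 1 2) (.lf 138 1 2)) (.lf 136 1 2) (.lf 134 1 2)) (.lf 125 1 2)) (.lf 138 1 2))) (.lf 95 1 2) (.lf 137 1 2)))) (.nd 126 (.nd 103 (.lf 103 1 2) (.lf 89 1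 2) (.nd 59 (.lf 59 1 2) (.lf 43 1 2) (.lf 44 1 2))) (.nd 100 (.nd 70 (.lf 65 1 2) (.nd 70 (.lf 40 1 2) (.lf 70 1 2) (.lf 55 1 2)) (.lf 27 1 2)) (.nd 100 (.lf 78 1 2) (.lf 100 1 2) (.lf 85 1 2)) (.nd 69 (.lf 38 1 2) (.lf 69 1 2) (.lf 40 1 2))) (.nd 126 (.nd 117 (.nd 115 (.lf 115 1 2) (.lf 112 1 2) (.lf 78 1 2)) (.lf 113 1 2) (.lf 117 1 2)) (.lf 126 1 2) (.lf 117 1 2))) (.nd 126 (.nd 96 (.nd 96 (.lf 81 1 2) (.nd 66 (.lf 42 1 2) (.nd 66 (.lf 27 1 2) (.lf 44 1 2) (.lf 66 1 2)) (.lf 64 1 2)) (.nd 96 (.lf 72 1 2) (.lf 96 1 2) (.lf 70 1 2))) (.lf 44 1 2) (.nd 91 (.lf 91 1 2) (.lf 43 1 2) (.lf 46 1 2))) (.lf 126 1 2) (.nd 95 (.lf 66 1 2) (.nd 64 (.lf 64 1 2) (.lf 40 1 2) (.lf 43 1 2)) (.lf 95 1 2))))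

def t15_709 : Tr := (.nd 283 (.nd 280 (.nd 255 (.lf 233 1 3) (.nd 228 (.lf 195 1 3) (.nd 198 (.nd 193 (.lf 148 1 3) (.lf 193 1 3) (.lf 145 1 3)) (.lf 198 1 3) (.lf 146 1 3)) (.lf 228 1 3)) (.lf 255 1 3)) (.lf 229 1 3) (.lf 280 1 3)) (.nd 257 (.lf 257 1 3) (.lf 231 1 3) (.nd 249 (.nd 200 (.lf 200 1 3) (.lf 193 1 3) (.nd 171 (.nd 171 (.lf 167 1 3) (.lf 171 1 3) (.lf 150 1 3)) (.lf 143 1 3) (.lf 163 1 3))) (.lf 230 1 3) (.lf 249 1 3))) (.lf 283 1 3))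

def t15_710 : Tr := (.nd 318 (.nd 282 (.lf 282 1 4) (.lf 251 1 4) (.nd 250 (.nd 198 (.lf 198 1 4) (.lf 193 1 4) (.nd 169 (.lf 163 1 4) (.nd 169 (.lf 160 1 4) (.lf 169 1 4) (.lf 150 1 4)) (.lf 140 1 4))) (.nd 245 (.nd 200 (.lf 171 1 4) (.lf 200 1 4) (.nd 171 (.lf 140 1 4) (.lf 171 1 4) (.lf 141 1 4))) (.lf 245 1 4) (.lf 197 1 4)) (.lf 250 1 4))) (.nd 318 (.lf 318 1 4) (.nd 293 (.nd 293 (.lf 245 5 6) (.nd 240 (.lf 240 5 6) (.lf 207 5 6) (.nd 210 (.lf 158 5 6) (.lf 205 5 6) (.lf 210 5 6))) (.lf 293 5 6)) (.lf 241 5 6) (.lf 293 5 6)) (.lf 318 1 4)) (.nd 286 (.nd 254 (.nd 223 (.nd 192 (.nd 168 (.lf 168 1 4) (.lf 140 1 4) (.lf 146 1 4)) (.lf 171 1 4) (.lf 192 1 4)) (.lf 223 1 4) (.lf 194 1 4)) (.lf 224 1 4) (.lf 254 1 4)) (.nd 286 (.nd 266 (.lf 237 5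 6) (.lf 266 5 6) (.nd 235 (.lf 214 5 6) (.nd 192 (.lf 183 5 6) (.nd 192 (.lf 189 1 4) (.nd 192 (.lf 175 5 6) (.lf 180 5 6) (.lf 192 5 6)) (.nd 190 (.lf 190 1 4) (.lf 161 1 4) (.lf 182 5 6))) (.lf 189 5 6)) (.lf 235 5 6))) (.lf 286 1 4) (.nd 267 (.lf 267 5 6) (.lf 262 5 6) (.nd 215 (.lf 215 5 6) (.nd 186 (.lf 157 5 6) (.lf 186 5 6) (.lf 180 5 6)) (.nd 210 (.lf 186 5 6) (.lf 210 5 6) (.lf 158 5 6))))) (.nd 258 (.nd 212 (.lf 197 1 4) (.lf 198 1 4) (.nd 212 (.lf 212 1 4) (.nd 209 (.nd 198 (.lf 198 1 4) (.lf 167 1 4) (.lf 159 1 4)) (.lf 209 1 4) (.nd 181 (.lf 181 1 4) (.lf 177 1 4) (.lf 147 1 4))) (.lf 206 1 4))) (.lf 258 1 4) (.lf 250 1 4))))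

def t15_712 : Tr := (.nd 173 (.nd 173 (.nd 149 (.nd 142 (.lf 126 3 3) (.nd 139 (.lf 108 2 3) (.lf 139 2 3) (.lf 109 2 3)) (.lf 142 2 3)) (.nd 149 (.lf 140 3 3) (.nd 149 (.nd 149 (.lf 140 3 3) (.nd 149 (.lf 149 3 3) (.lf 147 3 3) (.nd 148 (.nd 147 (.lf 133 3 3) (.lf 147 3 3) (.lf 145 2 3)) (.lf 145 3 3) (.lf 148 3 3))) (.lf 123 3 3)) (.nd 146 (.lf 146 3 3) (.lf 134 3 3) (.lf 121 3 3)) (.nd 148 (.nd 145 (.lf 145 3 3) (.lf 131 3 3) (.lf 145 2 3)) (.nd 146 (.nd 146 (.lf 146 2 3) (.lf 131 3 3) (.lf 120 3 3)) (.lf 128 2 3) (.lf 128 3 3)) (.nd 148 (.lf 146 3 3) (.nd 148 (.lf 135 1 1) (.lf 145 1 1) (.lf 148 3 3)) (.nd 148 (.lf 141 2 3) (.nd 148 (.lf 148 3 3) (.lf 132 2 3) (.lf 133 3 3)) (.lf 148 3 3))))) (.lf 139 3 3)) (.nd 149 (.nd 149 (.nd 149 (.nd 149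 (.lf 149 2 3) (.lf 123 2 3) (.lf 141 1 1)) (.lf 145 2 3) (.nd 149 (.lf 142 3 3) (.nd 143 (.lf 108 3 3) (.lf 138 3 3) (.lf 143 2 3)) (.lf 149 1 1))) (.lf 143 2 3) (.lf 144 2 3)) (.lf 135 2 3) (.lf 134 2 3))) (.nd 173 (.nd 173 (.nd 157 (.nd 145 (.nd 145 (.lf 145 3 3) (.lf 145 3 3) (.lf 131 2 3)) (.lf 135 3 3) (.lf 131 3 3)) (.nd 157 (.lf 150 1 1) (.nd 157 (.lf 149 2 3) (.lf 151 3 3) (.lf 157 3 3)) (.lf 153 1 1)) (.lf 151 1 1)) (.nd 168 (.lf 155 3 3) (.nd 168 (.lf 160 1 1) (.lf 160 1 1) (.lf 168 3 3)) (.lf 160 3 3)) (.nd 173 (.nd 160 (.lf 158 3 3) (.lf 160 1 1) (.lf 154 2 3)) (.nd 173 (.lf 162 2 3) (.nd 156 (.lf 134 2 3) (.lf 156 1 1) (.lf 152 1 1)) (.lf 173 3 3)) (.nd 171 (.lf 157 3 3) (.lf 161 1 1) (.lf 171 3 3)))) (.nd 150 (.lf 136 3 3) (.lf 134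 3 3) (.nd 150 (.lf 144 3 3) (.lf 150 3 3) (.nd 149 (.nd 147 (.lf 147 2 3) (.lf 132 2 3) (.lf 142 3 3)) (.lf 110 2 3) (.nd 149 (.lf 149 3 3) (.lf 109 2 3) (.lf 112 2 3))))) (.nd 138 (.nd 137 (.lf 113 3 3) (.lf 116 3 3) (.nd 137 (.nd 137 (.nd 118 (.lf 111 2 3) (.lf 118 3 3) (.lf 117 3 3)) (.lf 120 3 3) (.lf 137 3 3)) (.nd 133 (.lf 130 3 3) (.lf 133 3 3) (.lf 133 2 3)) (.nd 133 (.lf 88 1 1) (.lf 131 1 1) (.lf 133 3 3)))) (.nd 138 (.nd 134 (.lf 107 2 3) (.nd 134 (.nd 128 (.lf 128 2 3) (.lf 119 3 3) (.lf 109 3 3)) (.lf 132 2 3) (.lf 134 3 3)) (.lf 127 3 3)) (.lf 136 3 3) (.nd 138 (.nd 123 (.lf 112 1 1) (.nd 123 (.lf 120 1 1) (.lf 101 2 3) (.lf 123 1 1)) (.lf 115 1 1)) (.nd 135 (.lf 119 1 1) (.lf 119 1 1) (.lf 135 3 3)) (.nd 138 (.lf 138 3 3) (.lf 134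 2 3) (.nd 129 (.lf 129 2 3) (.lf 121 3 3) (.lf 106 2 3))))) (.lf 114 3 3))) (.nd 162 (.nd 162 (.lf 158 2 3) (.nd 162 (.nd 162 (.nd 156 (.lf 151 2 3) (.lf 155 3 3) (.lf 156 2 3)) (.lf 162 1 1) (.nd 160 (.lf 139 3 3) (.lf 142 2 3) (.lf 160 1 1))) (.lf 145 2 3) (.lf 145 2 3)) (.nd 157 (.lf 135 2 3) (.nd 153 (.lf 153 2 3) (.lf 147 2 3) (.nd 148 (.lf 142 2 3) (.lf 134 2 3) (.lf 148 3 3))) (.lf 157 2 3))) (.nd 161 (.lf 109 2 3) (.nd 161 (.lf 161 2 3) (.lf 131 2 3) (.nd 137 (.lf 122 2 3) (.nd 137 (.lf 129 2 3) (.nd 137 (.lf 137 2 3) (.lf 136 2 3) (.lf 125 3 3)) (.lf 135 2 3)) (.lf 123 2 3))) (.lf 139 2 3)) (.lf 141 2 3))) (.nd 157 (.nd 157 (.lf 140 3 3) (.nd 148 (.lf 140 3 3) (.nd 148 (.lf 133 3 3) (.nd 148 (.lf 148 1 1) (.lf 141 3 3) (.lf 140 1 1)) (.lf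 140 3 3)) (.lf 127 3 3)) (.nd 157 (.nd 142 (.nd 142 (.nd 142 (.lf 142 3 3) (.lf 136 1 1) (.lf 121 3 3)) (.lf 122 3 3) (.lf 136 3 3)) (.lf 134 3 3) (.lf 142 3 3)) (.nd 145 (.nd 145 (.lf 133 3 3) (.lf 145 3 3) (.lf 113 3 3)) (.lf 136 3 3) (.lf 128 3 3)) (.nd 157 (.lf 140 1 1) (.nd 142 (.lf 142 3 3) (.lf 112 1 1) (.lf 141 1 1)) (.nd 157 (.nd 142 (.nd 142 (.lf 136 1 1) (.lf 142 3 3) (.lf 137 1 1)) (.lf 139 1 1) (.nd 141 (.lf 132 1 1) (.nd 141 (.lf 141 3 3) (.lf 141 1 1) (.lf 140 1 1)) (.lf 131 1 1))) (.nd 157 (.lf 156 3 3) (.lf 138 1 1) (.lf 157 1 1)) (.lf 156 3 3))))) (.nd 129 (.nd 129 (.lf 118 1 1) (.nd 129 (.lf 88 1 1) (.lf 116 1 1) (.nd 129 (.lf 125 1 1) (.nd 101 (.lf 80 2 3) (.nd 101 (.lf 101 1 1) (.lf 100 3 3) (.lf 98 1 1)) (.lf 86 1 1)) (.nd 129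 (.lf 107 3 3) (.lf 129 2 3) (.lf 119 2 3)))) (.nd 128 (.lf 128 1 1) (.nd 128 (.lf 114 1 1) (.nd 125 (.lf 114 1 1) (.lf 125 3 3) (.lf 79 3 3)) (.lf 128 3 3)) (.lf 119 3 3))) (.lf 117 3 3) (.lf 112 3 3)) (.lf 115 3 3)) (.nd 143 (.nd 143 (.lf 139 2 3) (.nd 143 (.nd 143 (.nd 143 (.nd 143 (.lf 134 2 3) (.lf 142 3 3) (.nd 143 (.lf 103 2 3) (.lf 143 3 3) (.lf 130 2 3))) (.nd 141 (.nd 141 (.lf 117 3 3) (.lf 123 3 3) (.lf 141 2 3)) (.lf 127 3 3) (.lf 129 2 3)) (.nd 140 (.lf 135 2 3) (.lf 126 3 3) (.lf 140 3 3))) (.lf 143 3 3) (.nd 143 (.lf 135 3 3) (.lf 125 3 3) (.nd 143 (.lf 143 3 3) (.lf 143 3 3) (.nd 130 (.lf 106 2 3) (.lf 130 3 3) (.lf 120 3 3))))) (.nd 133 (.lf 83 3 3) (.lf 133 2 3) (.lf 130 3 3)) (.lf 136 3 3)) (.nd 143 (.nd 124 (.lf 108 3 3) (.nd 124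 (.lf 120 1 1) (.lf 115 3 3) (.lf 124 3 3)) (.lf 109 3 3)) (.lf 143 3 3) (.lf 134 2 3))) (.nd 126 (.nd 112 (.lf 102 3 3) (.lf 57 3 3) (.nd 112 (.lf 81 3 3) (.lf 102 3 3) (.lf 112 3 3))) (.nd 126 (.lf 85 3 3) (.nd 124 (.lf 124 3 3) (.lf 85 2 3) (.lf 105 3 3)) (.lf 126 3 3)) (.nd 119 (.nd 119 (.lf 109 3 3) (.lf 104 3 3) (.nd 119 (.nd 114 (.lf 84 1 1) (.lf 114 1 1) (.lf 114 3 3)) (.lf 119 3 3) (.lf 112 3 3))) (.lf 109 2 3) (.nd 103 (.nd 78 (.lf 78 3 3) (.lf 61 1 1) (.lf 77 3 3)) (.lf 103 2 3) (.nd 99 (.lf 82 3 3) (.lf 77 2 3) (.lf 99 2 3))))) (.nd 140 (.nd 122 (.lf 109 3 3) (.nd 122 (.nd 121 (.nd 121 (.lf 115 3 3) (.lf 121 1 1) (.nd 116 (.lf 112 1 1) (.lf 115 1 1) (.lf 116 3 3))) (.lf 95 1 1) (.lf 92 1 1)) (.lf 93 1 1) (.lf 122 3 3)) (.nd 112 (.lf 112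 3 3) (.lf 105 3 3) (.lf 105 1 1))) (.lf 86 3 3) (.nd 140 (.lf 86 3 3) (.nd 140 (.lf 140 3 3) (.lf 110 3 3) (.lf 128 3 3)) (.lf 81 3 3)))))

def t15_713 : Tr := (.nd 206 (.nd 198 (.nd 175 (.nd 167 (.nd 116 (.lf 109 1 2) (.lf 87 1 2) (.nd 116 (.lf 106 1 2) (.lf 97 1 2) (.lf 116 1 2))) (.nd 144 (.lf 144 1 2) (.nd 113 (.lf 83 1 2) (.lf 82 1 2) (.lf 113 1 2)) (.lf 118 1 2)) (.nd 167 (.lf 167 1 2) (.lf 156 1 2) (.nd 141 (.nd 136 (.lf 84 1 2) (.lf 114 1 2) (.lf 136 1 2)) (.lf 141 1 2) (.lf 112 1 2)))) (.nd 175 (.lf 175 1 2) (.nd 154 (.lf 154 1 2) (.nd 143 (.lf 143 1 2) (.nd 140 (.lf 110 1 2) (.lf 140 1 2) (.lf 109 1 2)) (.lf 127 1 2)) (.nd 152 (.nd 152 (.lf 144 1 2) (.lf 152 1 2) (.nd 145 (.lf 145 1 2) (.lf 125 1 2) (.lf 116 1 2))) (.nd 135 (.lf 104 1 2)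 (.lf 135 1 2) (.lf 106 1 2)) (.nd 136 (.lf 136 1 2) (.lf 84 1 2) (.lf 131 1 2)))) (.lf 171 1 2)) (.nd 144 (.nd 141 (.lf 114 1 2) (.lf 87 1 2) (.nd 141 (.lf 141 1 2) (.lf 110 1 2) (.lf 121 1 2))) (.lf 119 1 2) (.nd 144 (.nd 140 (.nd 140 (.lf 136 1 2) (.nd 136 (.lf 131 1 2) (.lf 110 1 2) (.lf 136 1 2)) (.lf 140 1 2)) (.lf 131 1 2) (.lf 111 1 2)) (.lf 135 1 2) (.nd 144 (.lf 137 1 2) (.lf 121 1 2) (.lf 144 1 2))))) (.nd 198 (.nd 188 (.lf 184 1 2) (.nd 188 (.lf 169 1 2) (.nd 141 (.lf 112 1 2) (.lf 136 1 2) (.lf 141 1 2)) (.lf 188 1 2)) (.nd 171 (.lf 161 1 2) (.lf 171 1 2) (.nd 140 (.nd 140 (.lf 110 1 2) (.lf 83 1 2) (.lf 140 1 2)) (.lf 115 1 2) (.lf 140 1 2)))) (.lf 185 1 2) (.lf 198 1 2)) (.nd 195 (.nd 175 (.nd 144 (.lf 114 1 2) (.lf 144 1 2) (.lf 111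 1 2)) (.lf 175 1 2) (.nd 147 (.lf 118 1 2) (.lf 147 1 2) (.nd 118 (.nd 92 (.lf 61 1 2) (.lf 62 1 2) (.lf 92 1 2)) (.lf 118 1 2) (.lf 95 1 2)))) (.nd 145 (.nd 140 (.nd 116 (.lf 116 1 2) (.nd 87 (.lf 54 1 2) (.lf 87 1 2) (.lf 57 1 2)) (.lf 90 1 2)) (.lf 140 1 2) (.lf 88 1 2)) (.lf 145 1 2) (.lf 116 1 2)) (.lf 195 1 2))) (.nd 189 (.nd 172 (.nd 146 (.lf 128 1 2) (.lf 140 1 2) (.nd 146 (.lf 119 1 2) (.lf 118 1 2) (.nd 146 (.nd 146 (.nd 129 (.lf 129 1 2) (.lf 129 1 2) (.lf 129 1 2)) (.lf 140 1 2) (.lf 146 1 2)) (.lf 127 1 2) (.lf 134 1 2)))) (.nd 158 (.nd 150 (.lf 150 1 2) (.lf 98 1 2) (.lf 145 1 2)) (.nd 158 (.lf 158 1 2) (.nd 158 (.nd 147 (.lf 147 1 2) (.nd 146 (.lf 127 1 2) (.lf 113 1 2) (.lf 146 1 2)) (.lf 141 1 2)) (.nd 156 (.nd 156 (.lf 156 1 2)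 (.lf 141 1 2) (.lf 130 1 2)) (.lf 133 1 2) (.lf 125 1 2)) (.lf 158 1 2)) (.nd 157 (.lf 133 1 2) (.lf 130 1 2) (.lf 157 1 2))) (.nd 149 (.lf 120 1 2) (.lf 118 1 2) (.nd 149 (.lf 127 1 2) (.lf 134 1 2) (.lf 149 1 2)))) (.nd 172 (.nd 145 (.lf 93 1 2) (.nd 145 (.lf 115 1 2) (.lf 130 1 2) (.nd 145 (.lf 119 1 2) (.lf 145 1 2) (.lf 121 1 2))) (.nd 140 (.lf 95 1 2) (.lf 92 1 2) (.lf 140 1 2))) (.nd 144 (.nd 144 (.lf 144 1 2) (.lf 129 1 2) (.lf 122 1 2)) (.lf 113 1 2) (.lf 115 1 2)) (.nd 172 (.nd 172 (.lf 172 1 2) (.lf 153 1 2) (.lf 153 1 2)) (.nd 153 (.lf 126 1 2) (.lf 136 1 2) (.lf 153 1 2)) (.nd 152 (.lf 125 1 2) (.lf 128 1 2) (.nd 152 (.lf 132 1 2) (.nd 151 (.lf 151 2 2) (.lf 150 1 2) (.lf 151 2 2)) (.lf 152 1 2)))))) (.nd 189 (.nd 167 (.nd 167 (.nd 167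 (.lf 160 1 2) (.lf 152 1 2) (.nd 167 (.lf 156 1 2) (.lf 153 1 2) (.lf 167 2 2))) (.nd 153 (.nd 142 (.nd 142 (.lf 142 1 2) (.lf 132 1 2) (.lf 122 1 2)) (.lf 119 1 2) (.lf 106 1 2)) (.lf 139 1 2) (.lf 153 1 2)) (.nd 160 (.lf 145 1 2) (.nd 140 (.lf 124 1 2) (.lf 140 1 2) (.lf 94 1 2)) (.lf 160 1 2))) (.nd 146 (.nd 146 (.lf 120 1 2) (.lf 135 1 2) (.lf 146 1 2)) (.nd 121 (.lf 97 1 2) (.lf 92 1 2) (.lf 121 1 2)) (.lf 95 1 2)) (.nd 144 (.nd 120 (.lf 98 1 2) (.nd 120 (.lf 120 1 2) (.lf 120 1 2) (.lf 101 1 2)) (.lf 92 1 2)) (.nd 123 (.lf 109 1 2) (.lf 123 1 2) (.lf 66 1 2)) (.nd 144 (.nd 129 (.lf 129 1 2) (.lf 115 1 2) (.lf 114 1 2)) (.lf 126 1 2) (.nd 144 (.lf 133 1 2) (.lf 136 1 2) (.lf 144 1 2))))) (.nd 171 (.nd 171 (.lf 123 1 2) (.lf 126 1 2) (.lf 171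 1 2)) (.nd 170 (.lf 146 1 2) (.nd 170 (.nd 170 (.lf 169 1 2) (.nd 170 (.lf 161 1 2) (.lf 170 1 2) (.lf 150 1 2)) (.lf 162 1 2)) (.lf 150 1 2) (.lf 152 1 2)) (.lf 161 1 2)) (.lf 124 1 2)) (.nd 189 (.nd 189 (.nd 182 (.lf 164 1 2) (.lf 164 1 2) (.lf 182 1 2)) (.nd 189 (.lf 189 1 2) (.nd 184 (.lf 177 1 2) (.lf 184 1 2) (.nd 184 (.lf 171 2 2) (.lf 184 1 2) (.lf 184 1 2))) (.lf 182 1 2)) (.nd 181 (.lf 173 1 2) (.nd 181 (.lf 153 1 2) (.lf 139 1 2) (.lf 181 1 2)) (.lf 167 1 2))) (.nd 182 (.lf 159 1 2) (.lf 176 1 2) (.nd 182 (.nd 181 (.lf 168 2 2) (.lf 181 1 2) (.lf 167 2 2)) (.lf 182 1 2) (.lf 172 1 2))) (.nd 184 (.lf 157 1 2) (.nd 184 (.lf 184 1 2) (.nd 178 (.lf 157 1 2) (.lf 162 1 2) (.lf 178 1 2)) (.nd 172 (.lf 172 2 2) (.lf 163 2 2) (.lf 156 2 2))) (.lf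 170 1 2)))) (.nd 184 (.nd 155 (.nd 155 (.lf 148 1 2) (.nd 155 (.lf 155 1 2) (.nd 151 (.lf 148 1 2) (.lf 151 1 2) (.nd 151 (.lf 151 2 2) (.lf 151 2 2) (.lf 151 1 2))) (.lf 147 1 2)) (.lf 155 1 2)) (.lf 131 1 2) (.lf 139 1 2)) (.nd 184 (.nd 171 (.nd 169 (.lf 164 1 2) (.lf 166 1 2) (.nd 169 (.lf 163 2 2) (.lf 162 2 2) (.lf 169 1 2))) (.lf 171 1 2) (.lf 160 1 2)) (.nd 184 (.nd 179 (.lf 179 1 2) (.lf 179 1 2) (.nd 177 (.lf 177 1 2) (.lf 169 1 2) (.lf 158 1 2))) (.lf 184 1 2) (.lf 181 1 2)) (.nd 167 (.nd 165 (.lf 145 1 2) (.lf 141 1 2) (.nd 165 (.lf 165 1 2) (.lf 155 1 2) (.lf 146 1 2))) (.nd 167 (.nd 164 (.lf 147 1 2) (.lf 157 1 2) (.lf 164 1 2)) (.nd 161 (.nd 151 (.lf 151 2 2) (.lf 151 2 2) (.nd 151 (.lf 151 2 2) (.lf 143 1 2) (.lf 151 2 2))) (.lf 158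 1 2) (.lf 161 1 2)) (.lf 167 2 2)) (.lf 142 1 2))) (.nd 170 (.nd 166 (.lf 121 1 2) (.lf 118 1 2) (.lf 166 1 2)) (.lf 119 1 2) (.nd 170 (.lf 170 1 2) (.nd 141 (.nd 139 (.lf 139 1 2) (.lf 132 1 2) (.lf 129 1 2)) (.nd 141 (.lf 119 1 2) (.lf 89 1 2) (.nd 141 (.lf 141 1 2) (.lf 111 1 2) (.lf 126 1 2))) (.lf 117 1 2)) (.lf 156 1 2))))) (.nd 206 (.nd 206 (.nd 206 (.nd 200 (.nd 198 (.nd 197 (.lf 167 1 2) (.lf 167 1 2) (.lf 197 1 2)) (.lf 198 1 2) (.nd 170 (.lf 170 1 2) (.lf 163 1 2) (.lf 141 1 2))) (.lf 200 1 2) (.nd 198 (.nd 167 (.nd 160 (.lf 140 1 2) (.lf 131 1 2) (.lf 160 1 2)) (.lf 167 1 2) (.lf 167 1 2)) (.lf 194 1 2) (.lf 198 1 2))) (.lf 199 1 2) (.nd 206 (.lf 196 1 2) (.nd 162 (.lf 160 1 2) (.lf 159 1 2) (.lf 162 1 2)) (.lf 206 1 2))) (.nd 205 (.nd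 192 (.lf 192 1 2) (.lf 176 1 2) (.nd 151 (.lf 151 1 2) (.lf 122 1 2) (.nd 146 (.lf 94 1 2) (.lf 122 1 2) (.lf 146 1 2)))) (.nd 182 (.lf 167 1 2) (.lf 182 1 2) (.nd 171 (.lf 171 1 2) (.lf 141 1 2) (.lf 137 1 2))) (.lf 205 1 2)) (.nd 199 (.nd 196 (.nd 176 (.lf 176 1 2) (.lf 145 1 2) (.lf 141 1 2)) (.lf 196 1 2) (.lf 177 1 2)) (.nd 191 (.lf 191 1 2) (.nd 159 (.lf 150 1 2) (.nd 159 (.lf 158 2 2) (.lf 159 1 2) (.lf 156 2 2)) (.lf 151 1 2)) (.nd 156 (.lf 155 1 2) (.lf 150 1 2) (.nd 156 (.lf 153 1 2) (.lf 156 2 2) (.lf 155 1 2)))) (.nd 199 (.nd 197 (.nd 188 (.lf 188 1 2) (.lf 143 1 2) (.lf 167 1 2)) (.lf 197 1 2) (.lf 188 1 2)) (.lf 198 2 2) (.nd 199 (.nd 172 (.lf 163 2 2) (.lf 162 2 2) (.nd 172 (.lf 172 2 2) (.lf 165 1 2) (.lf 171 2 2))) (.lf 198 2 2)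 (.nd 199 (.lf 199 1 2) (.nd 194 (.lf 194 1 2) (.lf 169 1 2) (.lf 167 1 2)) (.lf 195 1 2)))))) (.nd 179 (.nd 179 (.nd 175 (.nd 142 (.nd 140 (.lf 119 1 2) (.lf 114 1 2) (.lf 140 1 2)) (.lf 117 1 2) (.lf 142 1 2)) (.lf 158 1 2) (.lf 175 1 2)) (.lf 179 1 2) (.nd 175 (.lf 175 1 2) (.nd 170 (.lf 170 1 2) (.lf 153 1 2) (.nd 132 (.lf 132 1 2) (.lf 119 1 2) (.lf 120 1 2))) (.lf 165 1 2))) (.lf 172 1 2) (.nd 170 (.lf 153 1 2) (.nd 149 (.lf 149 1 2) (.nd 92 (.lf 92 1 2) (.nd 83 (.lf 60 1 2) (.lf 31 1 2) (.lf 83 1 2)) (.lf 62 1 2)) (.lf 119 1 2)) (.lf 170 1 2))) (.nd 178 (.nd 150 (.lf 145 1 2) (.nd 121 (.lf 92 1 2) (.lf 115 1 2) (.nd 121 (.lf 102 1 2) (.lf 112 1 2) (.lf 121 1 2))) (.lf 150 1 2)) (.lf 178 1 2) (.lf 178 1 2))))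

def t15_715 : Tr := (.nd 195 (.nd 179 (.lf 176 2 1) (.nd 175 (.nd 166 (.lf 143 1 1) (.nd 166 (.lf 166 1 1) (.nd 151 (.lf 128 1 1) (.lf 151 1 1) (.lf 127 1 1)) (.lf 136 1 1)) (.lf 114 1 1)) (.nd 175 (.nd 166 (.lf 157 1 1) (.lf 145 1 1) (.nd 166 (.lf 136 1 1) (.lf 166 1 1) (.lf 135 1 1))) (.lf 166 1 1) (.lf 175 1 1)) (.nd 140 (.nd 124 (.lf 107 1 1) (.lf 113 1 1) (.nd 124 (.lf 113 1 1) (.lf 109 1 1) (.nd 124 (.lf 107 1 1) (.lf 107 1 1) (.lf 124 1 1)))) (.nd 140 (.lf 140 1 1) (.lf 132 1 1) (.nd 132 (.lf 125 2 1) (.lf 132 1 1) (.lf 131 1 1))) (.nd 136 (.lf 107 1 1) (.lf 136 1 1) (.lf 114 1 1)))) (.nd 179 (.nd 179 (.nd 171 (.lf 171 1 1) (.nd 137 (.nd 137 (.lf 133 1 1) (.lf 137 2 1) (.lf 124 1 1)) (.lf 112 1 1) (.lf 136 1 1)) (.nd 153 (.lf 153 2 1) (.lf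 132 2 1) (.nd 152 (.lf 152 2 1) (.nd 132 (.lf 111 2 1) (.lf 132 2 1) (.lf 118 2 1)) (.lf 148 2 1)))) (.nd 146 (.lf 142 2 1) (.nd 146 (.lf 120 2 1) (.lf 126 2 1) (.lf 146 2 1)) (.nd 143 (.lf 143 1 1) (.nd 140 (.nd 140 (.lf 140 1 1) (.lf 107 1 1) (.lf 128 1 1)) (.lf 110 1 1) (.lf 107 1 1)) (.lf 109 1 1))) (.nd 179 (.nd 146 (.lf 132 2 1) (.lf 117 2 1) (.nd 146 (.lf 146 2 1) (.lf 117 2 1) (.lf 129 2 1))) (.nd 162 (.lf 135 2 1) (.lf 162 2 1) (.lf 145 2 1)) (.lf 179 2 1))) (.lf 161 2 1) (.lf 171 2 1))) (.nd 195 (.nd 165 (.nd 165 (.lf 165 2 1) (.nd 109 (.nd 109 (.lf 109 2 1) (.lf 85 2 1) (.lf 57 2 1)) (.lf 87 2 1) (.nd 107 (.lf 97 2 1) (.nd 107 (.lf 107 1 1) (.lf 93 2 1) (.lf 93 2 1)) (.lf 106 2 1))) (.lf 146 2 1)) (.nd 146 (.lf 114 1 1) (.lf 146 1 1) (.lf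 135 1 1)) (.lf 147 2 1)) (.nd 193 (.nd 193 (.nd 171 (.lf 140 2 1) (.nd 163 (.lf 112 2 1) (.lf 128 2 1) (.lf 163 2 1)) (.nd 171 (.lf 145 2 1) (.lf 171 2 1) (.nd 141 (.lf 129 1 1) (.lf 139 2 1) (.lf 141 2 1)))) (.nd 177 (.nd 162 (.lf 115 1 1) (.nd 142 (.nd 142 (.lf 142 2 1) (.lf 112 2 1) (.lf 141 2 1)) (.nd 124 (.lf 121 2 1) (.nd 124 (.lf 115 1 1) (.lf 107 1 1) (.lf 124 2 1)) (.lf 113 1 1)) (.nd 120 (.lf 120 2 1) (.nd 115 (.lf 111 1 1) (.lf 110 1 1) (.lf 115 2 1)) (.lf 111 2 1))) (.nd 162 (.lf 117 1 1) (.lf 114 1 1) (.lf 162 1 1))) (.lf 166 1 1) (.lf 177 2 1)) (.nd 193 (.nd 171 (.lf 171 2 1) (.lf 143 2 1) (.nd 140 (.lf 140 2 1) (.lf 107 2 1) (.lf 110 2 1))) (.lf 141 2 1) (.lf 193 2 1))) (.nd 182 (.nd 169 (.lf 151 2 1) (.lf 169 2 1) (.nd 167 (.lf 167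 2 1) (.nd 162 (.lf 114 2 1) (.lf 162 2 1) (.lf 117 2 1)) (.lf 115 2 1))) (.lf 147 2 1) (.nd 182 (.nd 182 (.nd 165 (.lf 165 2 1) (.lf 130 2 1) (.lf 152 2 1)) (.nd 165 (.nd 165 (.lf 120 2 1) (.lf 163 2 1) (.lf 165 2 1)) (.lf 164 2 1) (.lf 153 2 1)) (.nd 182 (.nd 142 (.nd 142 (.lf 142 1 1) (.lf 138 2 1) (.lf 121 1 1)) (.lf 142 1 1) (.lf 97 1 1)) (.lf 182 2 1) (.lf 160 2 1))) (.nd 150 (.lf 142 2 1) (.nd 140 (.lf 116 2 1) (.lf 119 2 1) (.lf 140 2 1)) (.nd 150 (.lf 147 2 1) (.lf 138 2 1) (.lf 150 2 1))) (.lf 163 2 1))) (.nd 193 (.lf 176 2 1) (.lf 174 2 1) (.lf 193 1 1))) (.nd 195 (.lf 171 2 1) (.lf 145 2 1) (.nd 195 (.nd 167 (.lf 165 2 1) (.lf 167 2 1) (.nd 131 (.nd 113 (.lf 107 1 1) (.lf 86 2 1) (.lf 113 2 1)) (.nd 131 (.lf 131 1 1) (.nd 118 (.lf 107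 1 1) (.lf 118 2 1) (.lf 113 2 1)) (.lf 107 1 1)) (.lf 117 2 1))) (.lf 181 2 1) (.lf 195 2 1)))) (.nd 184 (.nd 159 (.nd 140 (.nd 140 (.nd 140 (.lf 140 2 1) (.lf 127 2 1) (.lf 128 2 1)) (.lf 118 2 1) (.lf 118 2 1)) (.lf 123 2 1) (.nd 140 (.lf 123 2 1) (.lf 124 2 1) (.lf 140 2 1))) (.nd 158 (.nd 128 (.nd 128 (.lf 127 2 1) (.lf 128 2 1) (.nd 126 (.lf 115 1 1) (.lf 114 1 1) (.lf 126 2 1))) (.lf 120 2 1) (.lf 118 2 1)) (.nd 150 (.lf 150 2 1) (.lf 98 2 1) (.nd 145 (.lf 100 2 1) (.lf 145 2 1) (.lf 97 2 1))) (.nd 158 (.lf 158 2 1) (.lf 158 2 1) (.nd 143 (.lf 137 1 1) (.nd 143 (.lf 124 1 1) (.lf 134 1 1) (.lf 143 1 1)) (.lf 114 1 1)))) (.nd 159 (.nd 159 (.nd 153 (.lf 145 2 1) (.lf 128 2 1) (.nd 153 (.nd 153 (.lf 147 2 1) (.lf 153 2 1) (.lf 146 2 1)) (.lf 138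 2 1) (.lf 139 2 1))) (.lf 159 2 1) (.lf 147 2 1)) (.lf 145 2 1) (.nd 144 (.lf 144 2 1) (.lf 113 2 1) (.nd 115 (.lf 115 2 1) (.lf 64 2 1) (.lf 94 2 1))))) (.nd 182 (.nd 167 (.lf 144 2 1) (.nd 167 (.nd 167 (.lf 152 2 1) (.lf 167 2 1) (.lf 151 2 1)) (.lf 151 2 1) (.nd 154 (.lf 140 2 1) (.nd 154 (.lf 151 2 1) (.nd 154 (.lf 135 2 1) (.lf 154 2 1) (.lf 140 2 1)) (.nd 154 (.lf 154 2 1) (.lf 154 2 1) (.lf 151 2 1))) (.lf 124 2 1))) (.lf 135 2 1)) (.nd 176 (.lf 124 2 1) (.nd 154 (.nd 120 (.lf 120 2 1) (.lf 93 2 1) (.lf 90 2 1)) (.lf 126 2 1) (.lf 154 2 1)) (.lf 176 2 1)) (.nd 182 (.nd 181 (.nd 167 (.lf 167 2 1) (.lf 151 2 1) (.nd 132 (.lf 113 2 1) (.lf 132 1 1) (.lf 119 2 1))) (.lf 157 2 1) (.lf 181 2 1)) (.lf 182 2 1) (.lf 181 2 1))) (.nd 184 (.nd 168 (.nd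 138 (.lf 90 2 1) (.lf 120 2 1) (.lf 138 2 1)) (.nd 168 (.nd 148 (.nd 137 (.lf 101 2 1) (.lf 114 2 1) (.lf 137 2 1)) (.lf 148 2 1) (.lf 134 2 1)) (.nd 168 (.nd 168 (.lf 151 2 1) (.lf 168 2 1) (.lf 148 2 1)) (.lf 147 2 1) (.lf 155 2 1)) (.nd 155 (.lf 140 2 1) (.nd 155 (.nd 155 (.lf 149 2 1) (.lf 155 2 1) (.lf 149 2 1)) (.lf 149 2 1) (.lf 148 2 1)) (.lf 135 2 1))) (.nd 124 (.nd 124 (.lf 121 2 1) (.lf 124 2 1) (.nd 123 (.lf 123 2 1) (.lf 114 1 1) (.lf 120 1 1))) (.lf 115 2 1) (.lf 115 2 1))) (.nd 184 (.nd 163 (.lf 146 2 1) (.nd 153 (.lf 141 2 1) (.lf 153 2 1) (.lf 130 2 1)) (.nd 163 (.nd 151 (.lf 151 2 1) (.lf 150 2 1) (.lf 132 1 1)) (.lf 163 2 1) (.nd 148 (.lf 131 1 1) (.lf 147 2 1) (.lf 148 2 1)))) (.nd 164 (.nd 164 (.lf 153 2 1) (.nd 156 (.nd 155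 (.lf 155 2 1) (.nd 154 (.lf 148 2 1) (.lf 154 2 1) (.lf 149 1 1)) (.nd 155 (.lf 155 2 1) (.lf 155 2 1) (.lf 135 1 1))) (.lf 155 2 1) (.nd 156 (.lf 151 2 1) (.lf 154 2 1) (.lf 156 2 1))) (.nd 164 (.lf 130 2 1) (.lf 156 2 1) (.lf 164 2 1))) (.lf 151 2 1) (.nd 154 (.nd 154 (.lf 146 2 1) (.lf 140 2 1) (.lf 154 2 1)) (.lf 120 2 1) (.lf 145 2 1))) (.lf 184 2 1)) (.nd 165 (.nd 165 (.lf 156 2 1) (.nd 165 (.nd 165 (.nd 152 (.lf 152 2 1) (.lf 141 1 1) (.lf 133 1 1)) (.nd 165 (.lf 149 2 1) (.lf 145 2 1) (.lf 165 2 1)) (.nd 155 (.lf 121 1 1) (.lf 155 1 1) (.lf 151 1 1))) (.lf 147 2 1) (.lf 145 2 1)) (.lf 141 2 1)) (.nd 165 (.lf 121 2 1) (.lf 118 2 1) (.nd 165 (.lf 147 2 1) (.lf 147 2 1) (.lf 165 2 1))) (.lf 119 2 1)))))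

def t15_716 : Tr := (.nd 241 (.nd 241 (.lf 241 1 2) (.nd 229 (.lf 208 1 2) (.nd 229 (.nd 229 (.nd 229 (.nd 229 (.lf 205 1 2) (.lf 229 1 2) (.lf 211 1 2)) (.nd 212 (.lf 212 1 2) (.lf 212 1 2) (.lf 210 1 2)) (.nd 228 (.lf 228 1 2) (.lf 212 1 2) (.lf 212 1 2))) (.nd 213 (.lf 208 1 2) (.nd 213 (.lf 209 1 2) (.lf 213 1 2) (.lf 211 1 2)) (.lf 211 1 2)) (.nd 212 (.nd 212 (.lf 210 1 2) (.lf 212 1 2) (.lf 212 1 2)) (.lf 203 1 2) (.lf 204 1 2))) (.lf 210 1 2) (.nd 221 (.nd 221 (.lf 208 1 2) (.nd 221 (.lf 219 1 2) (.lf 221 1 2) (.lf 208 1 2)) (.lf 203 1 2)) (.lf 213 1 2) (.lf 187 1 2))) (.nd 211 (.nd 211 (.lf 211 1 2) (.lf 197 1 2) (.lf 203 1 2)) (.lf 202 1 2) (.lf 177 1 2))) (.nd 230 (.nd 210 (.lf 198 1 2) (.lf 187 1 2) (.nd 210 (.lf 206 1 2) (.lf 210 1 2)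 (.lf 194 1 2))) (.lf 203 1 2) (.nd 230 (.nd 219 (.lf 204 1 2) (.nd 219 (.lf 203 1 2) (.lf 206 1 2) (.nd 219 (.nd 219 (.lf 207 1 2) (.lf 209 1 2) (.nd 219 (.lf 213 1 2) (.lf 211 1 2) (.lf 219 1 2))) (.lf 203 1 2) (.lf 197 1 2))) (.lf 205 1 2)) (.nd 220 (.nd 220 (.nd 220 (.lf 204 1 2) (.lf 220 1 2) (.lf 217 1 2)) (.lf 193 1 2) (.lf 196 1 2)) (.lf 220 1 2) (.lf 194 1 2)) (.nd 230 (.lf 207 1 2) (.lf 208 1 2) (.lf 230 1 2))))) (.nd 225 (.nd 188 (.nd 188 (.nd 188 (.lf 180 1 2) (.nd 188 (.lf 158 1 2) (.lf 182 1 2) (.lf 188 1 2)) (.nd 186 (.lf 176 1 2) (.nd 186 (.lf 183 1 2) (.lf 177 1 2) (.lf 186 1 2)) (.lf 180 1 2))) (.lf 181 1 2) (.lf 178 1 2)) (.lf 172 1 2) (.nd 172 (.lf 118 1 2) (.nd 161 (.lf 113 1 2) (.lf 118 1 2) (.nd 161 (.lf 142 1 2) (.lf 149 1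 2) (.nd 161 (.lf 137 1 2) (.lf 140 1 2) (.lf 161 1 2)))) (.nd 172 (.lf 152 1 2) (.lf 141 1 2) (.lf 172 1 2)))) (.nd 225 (.nd 205 (.lf 205 1 2) (.nd 194 (.lf 158 1 2) (.lf 194 1 2) (.lf 171 1 2)) (.nd 191 (.lf 171 1 2) (.lf 172 1 2) (.lf 191 1 2))) (.nd 212 (.nd 197 (.lf 197 1 2) (.lf 162 1 2) (.lf 166 1 2)) (.lf 192 1 2) (.nd 212 (.lf 206 1 2) (.nd 212 (.lf 212 1 2) (.lf 206 1 2) (.lf 206 1 2)) (.lf 205 1 2))) (.nd 225 (.nd 225 (.lf 225 1 2) (.lf 208 1 2) (.lf 205 1 2)) (.lf 212 1 2) (.lf 204 1 2))) (.nd 195 (.lf 147 1 2) (.nd 195 (.lf 172 1 2) (.lf 187 1 2) (.nd 195 (.lf 177 1 2) (.nd 195 (.lf 188 1 2) (.lf 192 1 2) (.lf 195 1 2)) (.lf 178 1 2))) (.lf 177 1 2))) (.nd 227 (.nd 222 (.nd 222 (.lf 204 1 2) (.lf 204 1 2) (.nd 222 (.lf 198 1 2) (.lf 195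 1 2) (.lf 222 1 2))) (.lf 175 1 2) (.lf 178 1 2)) (.nd 227 (.lf 198 1 2) (.nd 227 (.nd 227 (.nd 222 (.lf 206 1 2) (.lf 222 1 2) (.lf 202 1 2)) (.nd 212 (.lf 209 1 2) (.lf 212 1 2) (.nd 212 (.lf 212 1 2) (.lf 202 1 2) (.lf 194 1 2))) (.nd 227 (.nd 221 (.lf 221 1 2) (.lf 212 1 2) (.lf 204 1 2)) (.lf 227 1 2) (.lf 220 1 2))) (.lf 202 1 2) (.lf 204 1 2)) (.nd 213 (.nd 190 (.nd 190 (.lf 190 1 2) (.lf 173 1 2) (.nd 180 (.lf 166 1 2) (.lf 143 1 2) (.lf 180 1 2))) (.lf 171 1 2) (.lf 172 1 2)) (.lf 213 1 2) (.lf 189 1 2))) (.nd 176 (.lf 176 1 2) (.lf 171 1 2) (.lf 147 1 2))))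

def t15_718 : Tr := (.nd 208 (.nd 179 (.nd 156 (.lf 156 1 3) (.lf 112 1 3) (.lf 142 1 3)) (.nd 179 (.nd 170 (.nd 168 (.nd 168 (.lf 168 1 3) (.lf 152 1 3) (.lf 168 1 3)) (.lf 131 1 3) (.lf 165 1 3)) (.lf 170 1 3) (.lf 166 1 3)) (.nd 170 (.nd 170 (.lf 153 1 3) (.lf 141 1 3) (.nd 170 (.lf 167 1 3) (.lf 160 1 3) (.lf 170 1 3))) (.lf 166 1 3) (.lf 169 1 3)) (.lf 179 1 3)) (.nd 153 (.nd 153 (.nd 131 (.lf 131 1 3) (.lf 104 1 3) (.lf 114 1 3)) (.nd 138 (.lf 106 1 3) (.lf 138 1 3) (.lf 123 1 3)) (.lf 153 1 3)) (.lf 123 1 3) (.lf 122 1 3))) (.nd 208 (.nd 206 (.nd 202 (.nd 202 (.nd 202 (.lf 174 1 3) (.lf 173 1 3) (.lf 202 1 3)) (.nd 191 (.lf 173 1 3) (.lf 169 1 3) (.lf 191 1 3)) (.nd 198 (.lf 198 1 3) (.lf 170 1 3) (.lf 180 1 3))) (.nd 198 (.lf 174 1 3) (.nd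 198 (.nd 188 (.lf 154 1 3) (.lf 172 1 3) (.lf 188 1 3)) (.lf 185 1 3) (.lf 198 1 3)) (.lf 153 1 3)) (.lf 188 1 3)) (.nd 206 (.nd 206 (.lf 206 1 3) (.lf 189 2 5) (.lf 198 1 3)) (.lf 188 1 3) (.nd 189 (.lf 171 1 3) (.nd 189 (.lf 189 1 3) (.lf 161 1 3) (.lf 180 1 3)) (.lf 163 1 3))) (.nd 192 (.lf 192 1 3) (.lf 172 1 3) (.nd 163 (.lf 163 1 3) (.lf 142 1 3) (.lf 148 1 3)))) (.nd 208 (.nd 208 (.lf 203 1 3) (.lf 194 1 3) (.nd 208 (.lf 208 1 3) (.lf 208 1 3) (.nd 205 (.lf 205 1 3) (.lf 174 1 3) (.lf 192 1 3)))) (.nd 185 (.nd 185 (.lf 155 1 3) (.lf 185 1 3) (.lf 174 1 3)) (.lf 167 1 3) (.nd 174 (.nd 171 (.lf 171 1 3) (.lf 142 1 3) (.lf 140 1 3)) (.nd 172 (.lf 120 1 3) (.lf 167 1 3) (.lf 172 1 3)) (.lf 174 1 3))) (.nd 205 (.lf 182 1 3) (.nd 188 (.nd 188 (.lf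 183 1 3) (.lf 168 1 3) (.lf 188 1 3)) (.nd 146 (.lf 117 1 3) (.lf 146 1 3) (.lf 141 1 3)) (.lf 173 1 3)) (.nd 205 (.lf 196 1 3) (.nd 205 (.lf 202 1 3) (.lf 197 1 3) (.lf 205 1 3)) (.nd 199 (.nd 199 (.lf 180 1 3) (.lf 191 1 3) (.lf 199 1 3)) (.lf 173 1 3) (.lf 178 1 3))))) (.nd 195 (.nd 182 (.nd 177 (.lf 148 1 3) (.nd 177 (.lf 177 1 3) (.lf 145 1 3) (.lf 150 1 3)) (.nd 177 (.nd 173 (.lf 144 1 3) (.lf 163 1 3) (.lf 173 1 3)) (.lf 177 1 3) (.lf 175 1 3))) (.nd 182 (.lf 178 1 3) (.lf 174 1 3) (.lf 182 1 3)) (.nd 171 (.lf 147 1 3) (.lf 171 1 3) (.lf 155 1 3))) (.nd 192 (.nd 174 (.lf 174 1 3) (.lf 142 1 3) (.lf 142 1 3)) (.nd 192 (.lf 189 2 5) (.lf 187 1 3) (.lf 192 1 3)) (.nd 192 (.lf 192 1 3) (.lf 173 1 3) (.lf 143 1 3))) (.nd 195 (.lf 148 1 3) (.nd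 195 (.lf 171 1 3) (.lf 176 1 3) (.lf 195 1 3)) (.nd 190 (.lf 179 1 3) (.lf 176 1 3) (.lf 190 1 3))))) (.nd 179 (.nd 179 (.lf 157 1 3) (.lf 158 1 3) (.nd 179 (.nd 179 (.lf 165 1 3) (.lf 155 1 3) (.nd 179 (.lf 157 1 3) (.lf 161 1 3) (.nd 179 (.lf 157 1 3) (.lf 179 1 3) (.lf 158 1 3)))) (.nd 176 (.nd 176 (.lf 161 1 3) (.lf 157 1 3) (.nd 176 (.lf 162 1 3) (.lf 176 1 3) (.lf 162 1 3))) (.lf 163 1 3) (.lf 137 1 3)) (.lf 159 1 3))) (.nd 149 (.lf 97 1 3) (.lf 149 1 3) (.nd 144 (.lf 96 1 3) (.nd 144 (.lf 125 1 3) (.lf 144 1 3) (.lf 125 1 3)) (.lf 99 1 3))) (.nd 148 (.nd 117 (.lf 117 1 3) (.lf 96 1 3) (.lf 93 1 3)) (.lf 119 1 3) (.lf 148 1 3))))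

def t15_721 : Tr := (.nd 206 (.nd 206 (.nd 199 (.nd 193 (.lf 172 1 1) (.lf 191 1 1) (.nd 193 (.lf 177 1 3) (.lf 176 1 3) (.lf 193 1 3))) (.nd 183 (.nd 177 (.lf 146 1 3) (.nd 177 (.lf 148 1 3) (.nd 177 (.lf 177 1 1) (.lf 147 1 1) (.lf 174 1 3)) (.lf 145 1 3)) (.lf 174 1 1)) (.nd 183 (.lf 179 1 1) (.nd 183 (.lf 168 1 1) (.lf 183 1 1) (.lf 181 1 3)) (.nd 179 (.nd 178 (.lf 178 1 1) (.lf 173 1 3) (.lf 172 1 3)) (.lf 179 1 3) (.nd 178 (.lf 178 1 1) (.nd 176 (.lf 171 1 1) (.lf 174 1 3) (.nd 176 (.lf 159 1 1) (.lf 158 1 1) (.lf 176 1 3))) (.nd 178 (.lf 164 1 3) (.lf 175 1 1) (.lf 178 1 1))))) (.nd 179 (.lf 166 1 3) (.nd 179 (.lf 173 1 1) (.nd 179 (.nd 179 (.lf 175 1 3) (.lf 179 1 1) (.lf 178 1 3)) (.lf 171 1 1) (.lf 174 1 3)) (.lf 175 1 3)) (.lf 168 1 3)))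 (.nd 199 (.nd 199 (.lf 199 1 1) (.nd 176 (.lf 169 1 1) (.nd 176 (.lf 168 1 1) (.nd 175 (.nd 175 (.lf 169 1 3) (.lf 175 1 1) (.lf 173 1 3)) (.lf 173 1 1) (.lf 173 1 1)) (.lf 176 1 1)) (.nd 172 (.lf 172 1 3) (.lf 167 1 1) (.lf 137 1 1))) (.nd 187 (.lf 184 1 1) (.lf 187 1 1) (.lf 153 1 1))) (.nd 173 (.lf 143 1 1) (.nd 173 (.nd 171 (.lf 155 1 1) (.lf 168 1 1) (.nd 171 (.lf 161 1 1) (.lf 171 1 3) (.lf 168 1 1))) (.lf 173 1 3) (.lf 168 1 1)) (.lf 173 1 1)) (.lf 174 1 1))) (.nd 206 (.lf 199 1 1) (.nd 206 (.lf 206 1 1) (.lf 204 1 1) (.lf 172 1 3)) (.lf 202 1 1)) (.nd 203 (.nd 178 (.nd 178 (.lf 171 1 1) (.lf 162 1 1) (.nd 178 (.lf 150 1 3) (.nd 178 (.nd 178 (.lf 176 1 3) (.lf 156 1 3) (.lf 178 1 1)) (.lf 167 1 1) (.lf 151 1 1)) (.lf 150 1 3))) (.lf 177 1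 3) (.nd 178 (.nd 178 (.lf 178 1 1) (.nd 178 (.lf 177 1 1) (.nd 178 (.nd 178 (.lf 178 1 3) (.lf 177 1 1) (.lf 177 1 1)) (.lf 178 1 3) (.lf 160 1 3)) (.lf 177 1 1)) (.lf 173 1 1)) (.nd 175 (.lf 175 1 3) (.lf 153 1 1) (.lf 147 1 1)) (.lf 151 1 1))) (.lf 186 1 1) (.lf 203 1 1))) (.nd 162 (.nd 146 (.lf 146 1 1) (.nd 109 (.lf 96 1 1) (.lf 93 1 1) (.nd 109 (.lf 96 1 1) (.lf 102 1 1) (.lf 109 1 1))) (.lf 117 1 1)) (.nd 162 (.nd 157 (.lf 124 1 1) (.lf 136 1 1) (.nd 157 (.nd 157 (.lf 115 1 1) (.lf 157 1 1) (.lf 141 1 1)) (.nd 151 (.lf 127 1 1) (.lf 126 1 1) (.lf 151 1 1)) (.nd 157 (.nd 146 (.nd 136 (.lf 133 1 1) (.lf 136 1 3) (.lf 133 1 3)) (.lf 139 1 1) (.lf 146 1 1)) (.lf 157 1 1) (.lf 149 1 1)))) (.lf 154 1 1) (.nd 162 (.nd 162 (.lf 137 1 1) (.nd 162 (.nd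 162 (.lf 162 1 1) (.lf 153 1 3) (.lf 146 1 3)) (.lf 161 1 1) (.lf 157 1 1)) (.nd 152 (.nd 152 (.nd 142 (.lf 133 1 1) (.lf 139 1 1) (.lf 142 1 3)) (.lf 135 1 3) (.lf 152 1 1)) (.lf 129 1 1) (.lf 111 1 3))) (.nd 154 (.lf 140 1 3) (.lf 140 1 1) (.lf 154 1 1)) (.nd 162 (.nd 162 (.lf 157 1 1) (.lf 162 1 3) (.lf 157 1 1)) (.lf 155 1 1) (.nd 162 (.nd 158 (.lf 158 1 1) (.lf 157 1 1) (.lf 137 1 3)) (.lf 157 1 1) (.lf 162 1 1))))) (.nd 149 (.lf 97 1 1) (.lf 149 1 1) (.nd 144 (.nd 144 (.lf 125 1 1) (.nd 125 (.lf 125 1 1) (.lf 120 1 1) (.lf 102 1 1)) (.nd 144 (.lf 119 1 1) (.lf 144 1 1) (.lf 116 1 1))) (.lf 99 1 1) (.lf 96 1 1)))) (.nd 182 (.lf 153 1 1) (.nd 182 (.lf 169 1 1) (.lf 180 1 1) (.lf 182 1 1)) (.nd 145 (.nd 145 (.lf 132 1 1) (.nd 145 (.nd 137 (.nd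 136 (.lf 119 1 3) (.lf 120 1 3) (.nd 136 (.lf 128 1 3) (.lf 136 1 1) (.lf 135 1 3))) (.lf 137 1 1) (.lf 111 1 1)) (.lf 133 1 1) (.nd 145 (.lf 139 1 1) (.lf 129 1 1) (.nd 145 (.lf 131 1 1) (.lf 135 1 1) (.nd 145 (.lf 131 1 1) (.lf 145 1 3) (.lf 132 1 1))))) (.lf 131 1 1)) (.lf 123 1 1) (.lf 122 1 1))))

def t15_724 : Tr := (.nd 69 (.nd 69 (.nd 69 (.nd 69 (.nd 68 (.lf 68 2 1) (.lf 65 2 1) (.lf 55 2 1)) (.nd 62 (.nd 52 (.lf 40 1 1) (.nd 52 (.lf 48 1 1) (.nd 52 (.lf 52 2 1) (.lf 50 1 1) (.nd 44 (.lf 44 2 1) (.lf 28 1 1) (.lf 32 2 1))) (.lf 49 1 1)) (.lf 39 1 1)) (.nd 62 (.nd 61 (.lf 61 2 1) (.lf 56 2 1) (.lf 33 2 1)) (.lf 57 2 1) (.nd 62 (.lf 62 2 1) (.nd 57 (.nd 53 (.lf 53 2 1) (.lf 50 1 1) (.lf 38 1 1)) (.lf 57 2 1) (.lf 54 1 1)) (.lf 53 2 1))) (.nd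 57 (.lf 45 2 1) (.lf 44 1 1) (.nd 57 (.lf 53 2 1) (.nd 57 (.lf 43 2 1) (.nd 57 (.lf 57 2 1) (.lf 57 2 1) (.lf 53 1 1)) (.lf 57 1 1)) (.lf 47 2 1)))) (.nd 69 (.lf 69 2 1) (.lf 54 2 1) (.nd 40 (.lf 39 2 1) (.lf 40 2 1) (.lf 14 1 1)))) (.lf 43 2 1) (.lf 43 2 1)) (.lf 52 2 1) (.nd 61 (.nd 61 (.lf 50 2 1) (.lf 54 2 1) (.nd 61 (.lf 45 2 1) (.lf 61 2 1) (.lf 37 2 1))) (.lf 38 2 1) (.nd 60 (.lf 8 2 1) (.lf 38 2 1) (.nd 60 (.lf 30 2 1) (.nd 60 (.lf 29 2 1) (.lf 36 2 1) (.lf 60 2 1)) (.lf 45 2 1))))) (.nd 40 (.nd 34 (.lf 0 2 1) (.nd 34 (.lf 8 2 1) (.lf 23 2 1) (.lf 34 2 1)) (.lf 12 2 1)) (.lf 11 2 1) (.nd 40 (.lf 21 2 1) (.lf 40 2 1) (.nd 31 (.lf 31 2 1) (.lf 23 2 1) (.lf 9 2 1)))) (.nd 64 (.nd 40 (.lf 40 2 1) (.nd 11 (.lf 11 2 1) (.lf 0 2 1) (.lf 0 2 1))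 (.lf 14 2 1)) (.nd 64 (.nd 64 (.lf 33 2 1) (.lf 40 2 1) (.lf 64 2 1)) (.lf 49 2 1) (.lf 34 2 1)) (.nd 12 (.lf 0 2 1) (.lf 12 2 1) (.nd 7 (.lf 7 2 1) (.lf 0 2 1) (.lf 0 2 1)))))

def t15_725 : Tr := (.nd 284 (.nd 232 (.nd 199 (.lf 199 1 2) (.lf 170 1 2) (.nd 162 (.lf 146 1 2) (.lf 149 1 2) (.nd 162 (.lf 155 1 2) (.lf 149 1 2) (.lf 162 1 2)))) (.nd 202 (.lf 150 1 2) (.nd 197 (.nd 197 (.lf 178 1 2) (.nd 197 (.nd 172 (.lf 172 1 2) (.lf 146 1 2) (.lf 147 1 2)) (.lf 169 1 2) (.lf 197 1 2)) (.nd 178 (.lf 173 1 2) (.lf 178 1 2) (.lf 155 1 2))) (.lf 149 1 2) (.lf 152 1 2)) (.lf 202 1 2)) (.lf 232 1 2)) (.lf 284 1 2) (.lf 235 1 2))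

def t15_727 : Tr := (.nd 337 (.lf 337 1 3) (.nd 285 (.lf 255 1 3) (.nd 252 (.lf 223 1 3) (.lf 252 1 3) (.nd 215 (.nd 202 (.lf 202 1 3) (.lf 188 1 3) (.lf 160 1 3)) (.lf 199 1 3) (.lf 215 1 3))) (.lf 285 1 3)) (.lf 288 1 3))

end Pool.Agent.helper93.Circ
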