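import Pool.Agent.helper93.Circ.Data15A
import Pool.Agent.helper93.Circ.Data15B
import Pool.Agent.helper93.Circ.Data15C
import Pool.Agent.helper93.Circ.Data15D

/-!
# Energy certificate: the two trees
-/

set_option maxRecDepth 100000

namespace Pool.Agent.helper93.Circ

open Tr

def t15_b : Tr := (.nd 384 (.nd 241 (.nd 215 (.nd 178 (.nd 151 t15_1 t15_244 t15_487) (.nd 130 t15_82 t15_325 t15_568) (.nd 178 t15_163 t15_406 t15_649)) (.nd 156 (.nd 126 t15_28 t15_271 t15_514) (.nd 156 t15_109 t15_352 t15_595) (.nd 125 t15_190 t15_433 t15_676)) (.nd 215 (.nd 215 t15_55 t15_298 t15_541) (.nd 203 t15_136 t15_379 t15_622) (.nd 185 t15_217 t15_460 t15_703))) (.nd 182 (.nd 151 (.nd 122 t15_10 t15_253 t15_496) (.nd 120 t15_91 t15_334 t15_577) (.nd 151 t15_172 t15_415 t15_658)) (.nd 152 (.nd 152 t15_37 t15_280 t15_523) (.nd 100 t15_118 t15_361 t15_604) (.nd 147 t15_199 t15_442 t15_685))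 (.nd 182 (.nd 170 t15_64 t15_307 t15_550) (.nd 160 t15_145 t15_388 t15_631) (.nd 182 t15_226 t15_469 t15_712))) (.nd 241 (.nd 229 (.nd 203 t15_19 t15_262 t15_505) (.nd 229 t15_100 t15_343 t15_586) (.nd 226 t15_181 t15_424 t15_667)) (.nd 214 (.nd 189 t15_46 t15_289 t15_532) (.nd 212 t15_127 t15_370 t15_613) (.nd 214 t15_208 t15_451 t15_694)) (.nd 241 (.nd 241 t15_73 t15_316 t15_559) (.nd 209 t15_154 t15_397 t15_640) (.nd 206 t15_235 t15_478 t15_721)))) (.nd 270 (.nd 270 (.nd 211 (.nd 184 t15_4 t15_247 t15_490) (.nd 211 t15_85 t15_328 t15_571) (.nd 179 t15_166 t15_409 t15_652)) (.nd 235 (.nd 202 t15_31 t15_274 t15_517) (.nd 235 t15_112 t15_355 t15_598) (.nd 183 t15_193 t15_436 t15_679)) (.nd 270 (.nd 270 t15_58 t15_301 t15_544) (.nd 247 t15_139 t15_382 t15_625) (.nd 254 t15_220 t15_463 t15_706))) (.nd 217 (.nd 148 (.nd 148 t15_13 t15_256 t15_499) (.nd 147 t15_94 t15_337 t15_580)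 (.nd 97 t15_175 t15_418 t15_661)) (.nd 186 (.nd 186 t15_40 t15_283 t15_526) (.nd 170 t15_121 t15_364 t15_607) (.nd 125 t15_202 t15_445 t15_688)) (.nd 217 (.nd 180 t15_67 t15_310 t15_553) (.nd 217 t15_148 t15_391 t15_634) (.nd 195 t15_229 t15_472 t15_715))) (.nd 178 (.nd 178 (.nd 178 t15_22 t15_265 t15_508) (.nd 125 t15_103 t15_346 t15_589) (.nd 130 t15_184 t15_427 t15_670)) (.nd 178 (.nd 178 t15_49 t15_292 t15_535) (.nd 163 t15_130 t15_373 t15_616) (.nd 148 t15_211 t15_454 t15_697)) (.nd 126 (.nd 97 t15_76 t15_319 t15_562) (.nd 126 t15_157 t15_400 t15_643) (.nd 121 t15_238 t15_481 t15_724)))) (.nd 384 (.nd 321 (.nd 262 (.nd 232 t15_7 t15_250 t15_493) (.nd 262 t15_88 t15_331 t15_574) (.nd 231 t15_169 t15_412 t15_655)) (.nd 321 (.nd 309 t15_34 t15_277 t15_520) (.nd 294 t15_115 t15_358 t15_601) (.nd 321 t15_196 t15_439 (.lf 286 1 3))) (.nd 295 (.nd 258 t15_61 t15_304 t15_547)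 (.nd 236 t15_142 t15_385 t15_628) (.nd 295 t15_223 (.lf 295 1 3) t15_709))) (.nd 304 (.nd 304 (.nd 289 t15_16 t15_259 t15_502) (.nd 284 t15_97 t15_340 t15_583) (.nd 304 t15_178 t15_421 t15_664)) (.nd 278 (.nd 278 t15_43 t15_286 t15_529) (.nd 228 t15_124 t15_367 t15_610) (.nd 240 t15_205 t15_448 t15_691)) (.nd 258 (.nd 258 t15_70 t15_313 t15_556) (.nd 206 t15_151 t15_394 t15_637) (.nd 257 t15_232 t15_475 t15_718))) (.nd 384 (.nd 366 (.nd 366 t15_25 t15_268 (.lf 338 1 5)) (.nd 333 t15_106 t15_349 t15_592) (.nd 350 t15_187 (.lf 341 2 5) t15_673)) (.nd 342 (.nd 337 t15_52 t15_295 t15_538) (.nd 316 t15_133 t15_376 t15_619) (.nd 342 t15_214 t15_457 t15_700)) (.nd 384 (.nd 384 (.lf 384 1 3) t15_322 t15_565) (.nd 344 (.lf 308 1 3) (.lf 320 1 3) t15_646) (.nd 337 (.lf 336 1 5) (.lf 286 1 3) t15_727)))))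

def t15_c : Tr := (.nd 425 (.nd 328 (.nd 328 (.nd 264 (.nd 237 t15_2 t15_245 (.lf 237 1 2)) (.nd 232 t15_83 t15_326 t15_569) (.nd 264 t15_164 (.lf 264 1 2) t15_650)) (.nd 328 (.nd 328 t15_29 t15_272 (.lf 328 1 2)) (.nd 307 t15_110 t15_353 t15_596) (.nd 300 t15_191 (.lf 300 1 2) t15_677)) (.nd 295 (.lf 295 1 2) (.nd 262 t15_137 t15_380 t15_623) (.nd 236 t15_218 t15_461 t15_704))) (.nd 248 (.nd 237 (.nd 237 t15_11 t15_254 t15_497) (.nd 196 t15_92 t15_335 t15_578) (.nd 178 t15_173 t15_416 t15_659)) (.nd 182 (.nd 150 t15_38 t15_281 t15_524) (.nd 174 t15_119 t15_362 t15_605) (.nd 182 t15_200 t15_443 t15_686)) (.nd 248 (.nd 236 t15_65 t15_308 t15_551) (.nd 248 t15_146 t15_389 t15_632) (.nd 206 t15_227 t15_470 t15_713))) (.nd 285 (.nd 266 (.nd 266 t15_20 t15_263 t15_506) (.nd 213 t15_101 t15_344 t15_587) (.nd 235 t15_182 t15_425 t15_668)) (.nd 217 (.nd 206 t15_47 t15_290 t15_533)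 (.nd 217 t15_128 t15_371 t15_614) (.nd 152 t15_209 t15_452 t15_695)) (.nd 285 (.nd 285 t15_74 t15_317 (.lf 269 2 2)) (.nd 233 (.lf 233 2 2) t15_398 t15_641) (.nd 264 t15_236 t15_479 (.lf 264 2 2))))) (.nd 301 (.nd 237 (.nd 210 (.nd 175 t15_5 t15_248 t15_491) (.nd 210 t15_86 t15_329 t15_572) (.nd 173 t15_167 t15_410 t15_653)) (.nd 237 (.nd 220 t15_32 t15_275 t15_518) (.nd 237 t15_113 t15_356 t15_599) (.nd 213 t15_194 t15_437 t15_680)) (.nd 205 (.nd 153 t15_59 t15_302 t15_545) (.nd 205 t15_140 t15_383 t15_626) (.nd 200 t15_221 t15_464 t15_707))) (.nd 268 (.nd 209 (.nd 179 t15_14 t15_257 t15_500) (.nd 178 t15_95 t15_338 t15_581) (.nd 209 t15_176 t15_419 t15_662)) (.nd 235 (.nd 183 t15_41 t15_284 t15_527) (.nd 205 t15_122 t15_365 t15_608) (.nd 235 t15_203 t15_446 t15_689)) (.nd 268 (.nd 256 t15_68 t15_311 t15_554) (.nd 268 t15_149 t15_392 t15_635) (.nd 241 t15_230 t15_473 t15_716)))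 (.nd 301 (.nd 273 (.nd 248 t15_23 t15_266 t15_509) (.nd 272 t15_104 t15_347 t15_590) (.nd 273 t15_185 t15_428 t15_671)) (.nd 297 (.nd 297 t15_50 t15_293 t15_536) (.nd 273 t15_131 t15_374 t15_617) (.nd 280 t15_212 t15_455 t15_698)) (.nd 301 (.nd 274 t15_77 t15_320 t15_563) (.nd 301 t15_158 t15_401 t15_644) (.nd 284 t15_239 t15_482 t15_725)))) (.nd 425 (.nd 403 (.nd 403 (.nd 344 (.lf 344 1 4) (.lf 317 1 4) t15_494) (.lf 403 1 4) (.nd 348 t15_170 t15_413 t15_656)) (.nd 311 (.nd 311 t15_35 t15_278 t15_521) (.nd 311 (.lf 311 1 4) t15_359 t15_602) (.nd 259 t15_197 t15_440 t15_683)) (.nd 349 (.nd 281 t15_62 t15_305 (.lf 281 1 4)) (.nd 349 (.lf 313 1 4) (.lf 328 1 4) t15_629) (.nd 318 t15_224 t15_467 t15_710))) (.nd 374 (.lf 374 1 4) (.nd 315 (.nd 315 (.lf 315 1 4) (.lf 293 1 4) t15_530) (.lf 285 1 4) (.lf 284 1 4)) (.lf 348 1 4)) (.nd 425 (.nd 423 (.lf 390 2 6) (.lf 395 1 4) (.lf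 423 2 6)) (.nd 425 (.lf 386 2 6) (.nd 419 (.lf 419 2 6) t15_377 (.lf 391 1 6)) (.lf 425 2 6)) (.nd 422 (.lf 411 1 4) (.nd 422 (.lf 422 1 4) t15_404 (.lf 417 1 4)) (.lf 391 1 4)))))

def t15 : Tr := .nd 425 (.lf 0 0 0) t15_b t15_c

end Pool.Agent.helper93.Circ
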