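import Pool.Agent.helper93.Circ.Tree

/-!
# Energy certificate, data, part 1 of 4 (generated by a program)

Partition of the residues prime to `3` into 60898 classes modulo powers `3 ^ i`, `i ≤ 15`; energies
in units of `log 2 / 53`, at most `48` units lost per circuit.
-/

set_option maxRecDepth 100000

namespace Pool.Agent.helper93.Circ

open Tr

def t15_1 : Tr := (.nd 119 (.nd 93 (.lf 67 1 1) (.lf 52 1 1) (.lf 93 1 1)) (.nd 78 (.lf 48 1 1) (.nd 78 (.nd 78 (.nd 78 (.lf 64 1 1) (.nd 78 (.lf 78 1 1) (.lf 60 1 1) (.lf 56 1 1)) (.lf 54 1 1)) (.lf 58 1 1) (.lf 75 1 1)) (.lf 63 1 1) (.lf 56 1 1)) (.lf 47 1 1)) (.nd 119 (.nd 119 (.nd 102 (.nd 101 (.lf 73 1 1) (.lf 101 1 1) (.nd 87 (.lf 79 1 1) (.lf 54 1 1) (.lf 87 1 1))) (.lf 76 1 1) (.lf 102 1 1)) (.nd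 119 (.lf 106 1 1) (.lf 105 1 1) (.lf 119 1 3)) (.lf 105 1 1)) (.lf 107 1 1) (.lf 107 1 1)))

def t15_2 : Tr := (.nd 202 (.lf 202 1 2) (.nd 196 (.nd 153 (.lf 125 1 2) (.nd 122 (.lf 122 1 2) (.lf 91 1 2) (.nd 92 (.lf 87 1 2) (.lf 92 1 2) (.lf 54 1 2))) (.lf 153 1 2)) (.nd 148 (.lf 148 1 2) (.nd 117 (.lf 78 1 2) (.lf 117 1 2) (.lf 88 1 2)) (.nd 118 (.lf 118 1 2) (.lf 66 1 2) (.lf 113 1 2))) (.lf 196 1 2)) (.nd 151 (.lf 144 1 2) (.lf 151 1 2) (.nd 122 (.nd 94 (.nd 94 (.nd 87 (.lf 82 1 2) (.lf 87 1 2) (.lf 56 1 2)) (.lf 87 1 2) (.nd 94 (.nd 81 (.lf 81 1 2) (.lf 78 1 2) (.lf 54 1 2)) (.lf 84 1 2) (.lf 94 1 2))) (.nd 77 (.lf 74 1 2) (.nd 77 (.lf 77 1 2) (.lf 57 1 2) (.lf 75 1 2)) (.lf 60 1 2)) (.lf 91 1 2)) (.lf 122 1 2) (.lf 114 1 2))))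

def t15_4 : Tr := (.nd 149 (.nd 149 (.nd 138 (.nd 138 (.lf 116 1 1) (.lf 123 1 1) (.nd 138 (.lf 138 1 1) (.lf 124 1 1) (.lf 135 1 1))) (.nd 123 (.lf 96 1 1) (.nd 123 (.lf 105 1 1) (.lf 123 1 1) (.lf 104 1 1)) (.lf 99 1 1)) (.lf 110 1 1)) (.lf 123 1 1) (.nd 149 (.lf 128 1 1) (.lf 129 1 1) (.nd 149 (.nd 139 (.lf 129 1 1) (.lf 133 1 1) (.nd 139 (.lf 139 1 1) (.lf 114 1 1) (.lf 132 1 1))) (.nd 147 (.nd 147 (.nd 146 (.lf 138 1 1) (.lf 130 1 1) (.lf 146 1 1)) (.lf 141 1 1) (.lf 147 1 1)) (.nd 139 (.lf 115 1 1) (.nd 139 (.lf 104 1 1) (.lf 115 1 1) (.lf 139 1 1)) (.lf 132 1 1)) (.nd 146 (.lf 139 1 1) (.nd 139 (.lf 124 1 1) (.lf 139 1 1) (.lf 94 1 1)) (.nd 146 (.lf 146 1 1) (.lf 145 1 1) (.lf 138 1 1)))) (.nd 149 (.lf 133 1 1) (.nd 149 (.lf 127 1 1) (.lf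 122 1 1) (.lf 149 1 1)) (.lf 125 1 1))))) (.nd 98 (.lf 98 1 1) (.lf 91 1 1) (.nd 69 (.lf 69 1 1) (.lf 41 1 1) (.lf 61 1 1))) (.nd 143 (.lf 100 1 1) (.nd 143 (.nd 143 (.lf 122 1 1) (.nd 143 (.nd 143 (.lf 134 1 1) (.lf 143 1 1) (.lf 126 1 1)) (.lf 122 1 1) (.lf 129 1 1)) (.lf 119 1 1)) (.lf 124 1 1) (.lf 124 1 1)) (.lf 95 1 1)))

def t15_5 : Tr := (.nd 175 (.nd 164 (.nd 164 (.lf 142 1 2) (.lf 149 1 2) (.nd 164 (.lf 150 1 2) (.lf 161 1 2) (.lf 164 1 2))) (.nd 149 (.lf 125 1 2) (.lf 122 1 2) (.nd 149 (.lf 130 1 2) (.lf 131 1 2) (.lf 149 1 2))) (.nd 136 (.nd 136 (.lf 136 1 2) (.lf 125 1 2) (.lf 126 1 2)) (.lf 117 1 2) (.lf 118 1 2))) (.lf 149 1 2) (.nd 175 (.lf 155 1 2) (.nd 175 (.nd 165 (.nd 165 (.lf 165 1 2) (.lf 140 1 2) (.lf 158 1 2)) (.lf 155 1 2)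 (.lf 159 1 2)) (.nd 173 (.nd 165 (.nd 165 (.lf 141 1 2) (.lf 165 1 2) (.lf 130 1 2)) (.lf 158 1 2) (.lf 141 1 2)) (.nd 172 (.lf 165 1 2) (.nd 165 (.lf 165 1 2) (.lf 120 1 2) (.lf 150 1 2)) (.nd 172 (.lf 172 1 2) (.lf 171 1 2) (.lf 164 1 2))) (.nd 173 (.nd 172 (.lf 164 1 2) (.lf 156 1 2) (.lf 172 1 2)) (.lf 167 1 2) (.lf 173 1 2))) (.nd 175 (.lf 159 1 2) (.nd 175 (.lf 148 1 2) (.lf 175 1 2) (.lf 153 1 2)) (.lf 151 1 2))) (.lf 154 1 2)))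

def t15_7 : Tr := (.nd 232 (.nd 232 (.nd 208 (.nd 208 (.nd 208 (.lf 188 1 3) (.lf 206 1 3) (.lf 208 1 3)) (.nd 203 (.lf 203 1 3) (.nd 177 (.lf 153 1 3) (.lf 150 1 3) (.nd 177 (.lf 177 1 3) (.lf 170 1 3) (.lf 174 1 3))) (.lf 151 1 3)) (.nd 187 (.lf 171 1 3) (.lf 187 1 3) (.lf 163 1 3))) (.nd 204 (.nd 204 (.lf 194 1 3) (.lf 181 1 3) (.lf 204 1 3)) (.lf 163 1 3) (.nd 181 (.lf 162 1 3) (.nd 181 (.lf 181 1 3) (.lf 151 1 3) (.lf 150 1 3)) (.lf 162 1 3))) (.nd 200 (.lf 195 1 3) (.lf 200 1 3) (.nd 174 (.lf 174 1 3) (.lf 167 1 3) (.lf 145 1 3)))) (.nd 232 (.nd 232 (.lf 232 1 3) (.nd 206 (.nd 206 (.lf 206 1 3) (.lf 175 1 3) (.lf 198 1 3)) (.lf 191 1 3) (.nd 205 (.lf 205 1 3) (.lf 175 1 3) (.lf 205 1 3))) (.nd 217 (.nd 217 (.nd 217 (.lf 217 1 3) (.lf 217 1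 3) (.lf 208 1 3)) (.lf 200 1 3) (.lf 210 1 3)) (.lf 179 1 3) (.lf 190 1 3))) (.nd 218 (.nd 218 (.lf 198 1 3) (.nd 216 (.lf 216 1 3) (.lf 206 1 3) (.lf 204 1 3)) (.nd 218 (.lf 171 1 3) (.nd 218 (.lf 200 1 3) (.lf 206 1 3) (.nd 218 (.lf 206 1 3) (.lf 196 1 3) (.lf 218 1 3))) (.lf 200 1 3))) (.lf 213 1 3) (.nd 216 (.lf 207 1 3) (.nd 216 (.lf 203 1 3) (.lf 203 1 3) (.nd 216 (.lf 211 1 3) (.lf 206 1 3) (.lf 216 1 3))) (.nd 213 (.lf 203 1 3) (.nd 213 (.lf 201 1 3) (.lf 208 1 3) (.lf 213 1 3)) (.lf 199 1 3)))) (.lf 231 1 3)) (.nd 206 (.nd 206 (.lf 195 1 3) (.nd 180 (.lf 172 1 3) (.nd 180 (.lf 177 1 3) (.lf 180 1 3) (.lf 172 1 3)) (.lf 169 1 3)) (.lf 206 1 3)) (.nd 189 (.lf 174 1 3) (.nd 189 (.lf 175 1 3) (.nd 189 (.nd 189 (.lf 189 1 3) (.lf 173 1 3) (.lf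 172 1 3)) (.lf 177 1 3) (.lf 177 1 3)) (.nd 186 (.lf 158 1 3) (.lf 182 1 3) (.nd 186 (.lf 186 1 3) (.lf 173 1 3) (.lf 172 1 3)))) (.lf 158 1 3)) (.nd 201 (.nd 201 (.lf 196 1 3) (.nd 201 (.lf 180 1 3) (.lf 175 1 3) (.lf 201 1 3)) (.lf 188 1 3)) (.lf 172 1 3) (.lf 191 1 3)))) (.nd 217 (.nd 194 (.lf 175 1 3) (.lf 176 1 3) (.nd 194 (.lf 177 1 3) (.nd 184 (.lf 147 1 3) (.lf 184 1 3) (.nd 170 (.lf 170 1 3) (.lf 146 1 3) (.lf 150 1 3))) (.lf 194 1 3))) (.nd 217 (.nd 200 (.lf 177 1 3) (.nd 196 (.lf 191 1 3) (.lf 196 1 3) (.lf 175 1 3)) (.nd 200 (.lf 176 1 3) (.nd 200 (.lf 196 1 3) (.lf 196 1 3) (.nd 200 (.lf 181 1 3) (.lf 200 1 3) (.lf 182 1 3))) (.lf 179 1 3))) (.nd 206 (.lf 206 1 3) (.lf 185 1 3) (.lf 175 1 3)) (.nd 217 (.nd 208 (.lf 207 1 3) (.nd 208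 (.lf 207 1 3) (.lf 195 1 3) (.nd 208 (.lf 208 1 3) (.lf 208 1 3) (.lf 196 1 3))) (.lf 204 1 3)) (.nd 217 (.nd 213 (.lf 213 1 3) (.lf 203 1 3) (.lf 204 1 3)) (.lf 217 1 3) (.lf 205 1 3)) (.nd 207 (.lf 207 1 3) (.lf 207 1 3) (.lf 193 1 3)))) (.nd 193 (.lf 168 1 3) (.nd 193 (.lf 179 1 3) (.lf 180 1 3) (.lf 193 1 3)) (.lf 173 1 3))) (.nd 202 (.nd 178 (.lf 178 1 3) (.nd 172 (.lf 121 1 3) (.lf 172 1 3) (.lf 148 1 3)) (.lf 152 1 3)) (.lf 202 1 3) (.nd 200 (.lf 200 1 3) (.nd 190 (.nd 173 (.nd 173 (.lf 146 1 3) (.lf 173 1 3) (.lf 145 1 3)) (.lf 159 1 3) (.lf 147 1 3)) (.lf 185 1 3) (.nd 190 (.lf 190 1 3) (.lf 172 1 3) (.lf 168 1 3))) (.lf 193 1 3))))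

def t15_10 : Tr := (.nd 122 (.nd 111 (.nd 111 (.lf 89 1 1) (.nd 111 (.nd 108 (.lf 96 1 1) (.lf 93 1 1) (.lf 108 1 1)) (.lf 97 1 1) (.lf 111 1 1)) (.nd 96 (.lf 96 1 1) (.lf 77 1 1) (.lf 86 1 1))) (.lf 83 1 1) (.lf 96 1 1)) (.nd 122 (.nd 122 (.nd 120 (.nd 119 (.nd 112 (.lf 67 1 1) (.lf 112 1 1) (.lf 97 1 1)) (.lf 112 1 1) (.nd 119 (.lf 118 1 1) (.lf 119 1 1) (.lf 111 1 1))) (.nd 112 (.nd 112 (.lf 88 1 1) (.lf 77 1 1) (.lf 112 1 1)) (.lf 88 1 1) (.lf 105 1 1)) (.nd 120 (.lf 114 1 1) (.lf 119 1 1) (.nd 120 (.lf 119 1 1) (.lf 112 1 1) (.lf 120 1 1)))) (.nd 112 (.nd 112 (.lf 112 1 1) (.lf 105 1 1) (.lf 87 1 1)) (.lf 106 1 1) (.lf 102 1 1)) (.nd 122 (.nd 122 (.lf 122 1 1) (.lf 95 1 1) (.lf 100 1 1)) (.lf 106 1 1) (.lf 98 1 1))) (.nd 102 (.lf 90 1 1) (.nd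 98 (.nd 75 (.lf 70 1 1) (.lf 60 1 1) (.lf 75 1 1)) (.lf 61 1 1) (.nd 98 (.lf 95 1 1) (.lf 95 1 1) (.lf 98 1 1))) (.nd 102 (.nd 78 (.lf 60 1 1) (.lf 52 1 1) (.lf 78 1 1)) (.lf 92 1 1) (.nd 102 (.lf 77 1 1) (.lf 98 1 1) (.lf 102 1 1)))) (.nd 101 (.lf 84 1 1) (.nd 101 (.lf 69 1 1) (.lf 89 1 1) (.lf 101 1 1)) (.lf 92 1 1))) (.nd 96 (.lf 67 1 1) (.lf 96 1 1) (.nd 91 (.lf 39 1 1) (.nd 91 (.lf 76 1 1) (.nd 91 (.lf 65 1 1) (.lf 91 1 1) (.lf 67 1 1)) (.lf 61 1 1)) (.lf 69 1 1))))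

def t15_11 : Tr := (.nd 225 (.nd 199 (.nd 199 (.nd 199 (.nd 164 (.nd 141 (.lf 141 2 2) (.lf 112 2 2) (.lf 136 2 2)) (.nd 156 (.lf 155 2 2) (.lf 156 2 2) (.lf 151 2 2)) (.lf 164 2 2)) (.nd 167 (.lf 167 2 2) (.lf 161 2 2) (.lf 163 2 2)) (.nd 199 (.lf 199 2 2) (.nd 197 (.lf 187 2 2) (.lf 197 2 2) (.lf 166 2 2)) (.lf 191 2 2))) (.nd 186 (.nd 186 (.lf 186 2 2) (.lf 161 2 2) (.nd 162 (.lf 110 2 2) (.lf 157 2 2) (.lf 162 2 2))) (.nd 183 (.nd 167 (.lf 162 2 2) (.lf 115 2 2) (.nd 167 (.lf 152 2 2) (.lf 167 2 2) (.lf 137 2 2))) (.lf 166 2 2) (.lf 183 2 2)) (.nd 152 (.nd 152 (.lf 152 2 2) (.lf 141 2 2) (.lf 140 2 2)) (.lf 137 2 2) (.lf 152 2 2))) (.nd 195 (.nd 183 (.nd 183 (.lf 158 2 2) (.nd 183 (.nd 183 (.lf 183 1 2) (.lf 176 1 2) (.lf 174 2 2)) (.lf 162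 2 2) (.lf 164 2 2)) (.lf 164 2 2)) (.lf 136 2 2) (.lf 166 2 2)) (.nd 195 (.nd 195 (.nd 172 (.lf 161 2 2) (.lf 137 2 2) (.lf 172 2 2)) (.nd 172 (.lf 157 2 2) (.lf 159 2 2) (.lf 172 2 2)) (.lf 195 2 2)) (.nd 168 (.lf 159 2 2) (.nd 167 (.lf 167 1 2) (.lf 157 2 2) (.lf 158 2 2)) (.nd 168 (.nd 168 (.nd 168 (.lf 168 2 2) (.lf 161 1 2) (.lf 161 1 2)) (.lf 166 1 2) (.lf 166 2 2)) (.lf 163 2 2) (.lf 162 2 2))) (.nd 180 (.lf 180 2 2) (.lf 162 2 2) (.lf 168 1 2))) (.lf 168 2 2))) (.nd 173 (.lf 173 2 2) (.nd 170 (.lf 140 2 2) (.lf 113 2 2) (.nd 170 (.lf 136 2 2) (.nd 141 (.lf 141 2 2) (.nd 132 (.lf 105 2 2) (.lf 104 2 2) (.lf 132 2 2)) (.lf 139 2 2)) (.nd 170 (.lf 149 2 2) (.lf 139 2 2) (.lf 170 2 2)))) (.lf 141 2 2)) (.nd 191 (.nd 191 (.nd 182 (.lf 167 2 2)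 (.lf 154 2 2) (.nd 182 (.lf 160 2 2) (.lf 167 2 2) (.lf 182 2 2))) (.nd 167 (.lf 162 2 2) (.nd 167 (.lf 159 2 2) (.lf 167 2 2) (.lf 150 2 2)) (.lf 138 2 2)) (.nd 191 (.lf 191 2 2) (.lf 163 2 2) (.lf 173 2 2))) (.nd 142 (.lf 113 2 2) (.lf 142 2 2) (.nd 135 (.nd 135 (.lf 120 2 2) (.nd 135 (.lf 109 2 2) (.lf 135 2 2) (.lf 111 2 2)) (.lf 105 2 2)) (.lf 111 2 2) (.lf 83 2 2))) (.nd 172 (.nd 172 (.lf 168 2 2) (.lf 153 2 2) (.lf 172 2 2)) (.lf 139 2 2) (.lf 144 2 2)))) (.nd 225 (.nd 219 (.lf 219 2 2) (.nd 197 (.lf 197 2 2) (.nd 166 (.lf 166 2 2) (.lf 141 2 2) (.nd 166 (.nd 166 (.lf 166 2 2) (.lf 159 2 2) (.lf 143 2 2)) (.lf 162 2 2) (.lf 157 2 2))) (.lf 189 2 2)) (.lf 214 2 2)) (.nd 214 (.nd 173 (.lf 168 2 2) (.lf 173 2 2) (.lf 173 2 2)) (.nd 214 (.nd 189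 (.lf 146 2 2) (.lf 176 2 2) (.lf 189 2 2)) (.lf 214 2 2) (.lf 176 2 2)) (.nd 195 (.nd 193 (.nd 193 (.lf 178 2 2) (.lf 193 2 2) (.lf 163 2 2)) (.nd 188 (.lf 140 2 2) (.lf 188 2 2) (.lf 143 2 2)) (.lf 141 2 2)) (.lf 177 2 2) (.nd 195 (.nd 195 (.lf 187 2 2) (.lf 195 2 2) (.lf 166 2 2)) (.lf 188 2 2) (.lf 195 2 2)))) (.lf 225 2 2)) (.lf 222 2 2))

def t15_13 : Tr := (.nd 137 (.nd 137 (.nd 115 (.nd 115 (.nd 115 (.nd 109 (.lf 107 2 1) (.nd 109 (.lf 93 3 1) (.nd 109 (.lf 93 3 1) (.lf 109 2 1) (.lf 106 3 1)) (.lf 75 3 1)) (.nd 107 (.lf 106 2 1) (.lf 86 3 1) (.lf 107 3 1))) (.nd 115 (.lf 111 2 1) (.nd 115 (.nd 115 (.lf 115 2 1) (.lf 115 2 1) (.lf 103 3 1)) (.nd 105 (.lf 91 3 1) (.lf 102 3 1) (.lf 105 2 1)) (.lf 111 2 1)) (.nd 109 (.nd 107 (.lf 107 2 1) (.nd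 107 (.lf 83 3 1) (.lf 107 2 1) (.lf 105 2 1)) (.lf 101 2 1)) (.lf 109 2 1) (.lf 79 2 1))) (.nd 107 (.lf 95 2 1) (.nd 105 (.lf 103 3 1) (.nd 105 (.lf 58 2 1) (.lf 105 2 1) (.nd 92 (.lf 87 3 1) (.lf 80 2 1) (.lf 92 3 1))) (.lf 84 3 1)) (.nd 107 (.lf 104 2 1) (.lf 107 3 1) (.lf 92 3 1)))) (.nd 106 (.lf 105 3 1) (.lf 85 2 1) (.nd 106 (.nd 103 (.nd 103 (.lf 103 2 1) (.lf 87 3 1) (.lf 103 3 1)) (.lf 97 2 1) (.lf 89 3 1)) (.nd 106 (.lf 106 2 1) (.lf 97 3 1) (.lf 87 3 1)) (.nd 105 (.nd 105 (.lf 93 2 1) (.lf 105 3 1) (.lf 102 2 1)) (.lf 105 2 1) (.lf 81 2 1)))) (.nd 102 (.lf 84 2 1) (.nd 102 (.lf 56 2 1) (.lf 83 2 1) (.lf 102 3 1)) (.lf 90 3 1))) (.lf 92 3 1) (.nd 115 (.lf 94 3 1) (.nd 115 (.nd 115 (.lf 115 3 1) (.nd 96 (.lf 89 2 1) (.lf 96 3 1) (.lf 95 3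 1)) (.lf 97 3 1)) (.nd 111 (.lf 111 3 1) (.lf 111 2 1) (.lf 108 3 1)) (.nd 113 (.nd 113 (.lf 84 2 1) (.lf 113 3 1) (.nd 110 (.lf 108 3 1) (.lf 106 2 1) (.lf 110 3 1))) (.nd 109 (.lf 89 3 1) (.nd 109 (.lf 86 3 1) (.lf 100 3 1) (.lf 109 2 1)) (.lf 88 3 1)) (.lf 111 3 1))) (.lf 91 3 1))) (.nd 137 (.nd 137 (.lf 125 3 1) (.nd 137 (.nd 137 (.nd 131 (.nd 131 (.lf 131 3 1) (.lf 128 2 1) (.lf 131 3 1)) (.lf 131 3 1) (.lf 130 3 1)) (.nd 132 (.lf 131 2 1) (.nd 132 (.lf 132 2 1) (.lf 131 3 1) (.lf 128 3 1)) (.lf 131 2 1)) (.nd 137 (.lf 134 3 1) (.lf 134 2 1) (.lf 137 2 1))) (.nd 137 (.lf 125 3 1) (.lf 130 3 1) (.nd 137 (.lf 137 3 1) (.lf 136 2 1) (.nd 137 (.lf 137 2 1) (.lf 128 3 1) (.lf 110 2 1)))) (.nd 136 (.lf 110 3 1) (.lf 136 3 1) (.nd 134 (.nd 130 (.nd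 130 (.lf 130 3 1) (.lf 126 3 1) (.lf 128 2 1)) (.lf 123 3 1) (.lf 124 3 1)) (.lf 130 3 1) (.lf 134 2 1)))) (.nd 135 (.lf 119 3 1) (.lf 118 3 1) (.lf 135 3 1))) (.nd 134 (.nd 122 (.nd 122 (.lf 122 2 1) (.lf 121 3 1) (.lf 107 3 1)) (.lf 121 2 1) (.lf 101 2 1)) (.lf 119 2 1) (.nd 134 (.nd 128 (.lf 122 2 1) (.nd 128 (.lf 128 2 1) (.lf 121 2 1) (.nd 122 (.lf 118 3 1) (.lf 112 2 1) (.lf 122 2 1))) (.lf 97 2 1)) (.nd 134 (.lf 131 3 1) (.lf 123 2 1) (.nd 134 (.nd 133 (.lf 133 3 1) (.lf 129 2 1) (.lf 111 3 1)) (.lf 132 2 1) (.lf 134 2 1))) (.lf 116 2 1))) (.nd 123 (.nd 122 (.lf 93 3 1) (.nd 122 (.lf 121 3 1) (.nd 122 (.lf 122 2 1) (.lf 117 3 1) (.lf 114 3 1)) (.lf 113 3 1)) (.lf 95 2 1)) (.nd 113 (.lf 90 2 1) (.lf 113 3 1) (.lf 105 3 1)) (.nd 123 (.nd 122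 (.nd 122 (.nd 121 (.lf 120 3 1) (.lf 121 2 1) (.lf 115 3 1)) (.nd 122 (.lf 108 3 1) (.lf 122 3 1) (.lf 117 2 1)) (.nd 121 (.lf 106 2 1) (.lf 106 2 1) (.nd 121 (.lf 119 3 1) (.lf 121 2 1) (.lf 108 2 1)))) (.lf 112 2 1) (.lf 122 2 1)) (.nd 123 (.nd 120 (.lf 114 2 1) (.lf 120 3 1) (.lf 104 2 1)) (.lf 115 2 1) (.nd 123 (.lf 116 3 1) (.lf 113 3 1) (.lf 123 2 1))) (.nd 122 (.nd 122 (.lf 119 3 1) (.nd 122 (.lf 122 2 1) (.lf 122 3 1) (.lf 116 3 1)) (.lf 94 3 1)) (.lf 115 2 1) (.lf 111 2 1))))) (.nd 122 (.nd 103 (.nd 103 (.nd 94 (.lf 89 2 1) (.lf 94 3 1) (.lf 93 3 1)) (.lf 88 3 1) (.lf 103 3 1)) (.nd 89 (.lf 65 3 1) (.lf 60 3 1) (.nd 89 (.lf 80 2 1) (.lf 89 2 1) (.lf 89 3 1))) (.lf 63 3 1)) (.lf 112 3 1) (.nd 122 (.nd 121 (.lf 120 3 1) (.nd 121 (.lf 121 3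 1) (.nd 121 (.lf 102 2 1) (.nd 121 (.lf 108 2 1) (.lf 114 2 1) (.lf 121 3 1)) (.lf 101 2 1)) (.lf 110 2 1)) (.lf 88 2 1)) (.lf 121 3 1) (.nd 122 (.lf 107 2 1) (.lf 100 2 1) (.nd 122 (.lf 121 3 1) (.lf 122 3 1) (.lf 117 2 1)))))) (.nd 109 (.nd 91 (.nd 86 (.lf 38 2 1) (.lf 86 2 1) (.lf 41 2 1)) (.lf 39 2 1) (.lf 91 2 1)) (.nd 90 (.lf 59 2 1) (.nd 90 (.lf 75 2 1) (.lf 68 2 1) (.lf 90 2 1)) (.lf 51 2 1)) (.nd 109 (.lf 98 2 1) (.nd 109 (.nd 109 (.lf 79 2 1) (.nd 109 (.nd 109 (.nd 109 (.lf 108 2 1) (.nd 108 (.lf 106 2 1) (.lf 108 2 1) (.lf 108 3 1)) (.lf 109 2 1)) (.lf 104 2 1) (.lf 104 2 1)) (.lf 103 2 1) (.lf 99 2 1)) (.lf 105 2 1)) (.lf 96 2 1) (.nd 109 (.lf 97 2 1) (.nd 109 (.lf 99 2 1) (.lf 104 2 1) (.nd 109 (.lf 109 3 1) (.lf 100 2 1) (.lf 99 2 1)))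 (.lf 107 2 1))) (.lf 99 2 1))) (.nd 122 (.nd 122 (.nd 103 (.lf 66 3 1) (.nd 98 (.nd 98 (.lf 90 2 1) (.lf 98 2 1) (.lf 94 3 1)) (.lf 65 3 1) (.lf 68 3 1)) (.nd 103 (.nd 94 (.lf 92 3 1) (.lf 94 3 1) (.nd 92 (.nd 92 (.lf 88 2 1) (.lf 92 3 1) (.lf 91 2 1)) (.lf 89 2 1) (.lf 85 2 1))) (.lf 103 3 1) (.lf 88 3 1))) (.nd 122 (.lf 122 2 1) (.nd 122 (.lf 109 3 1) (.lf 99 3 1) (.nd 122 (.lf 114 2 1) (.lf 122 2 1) (.nd 122 (.lf 122 3 1) (.lf 118 3 1) (.lf 108 2 1)))) (.lf 108 2 1)) (.nd 104 (.lf 88 3 1) (.lf 86 3 1) (.nd 104 (.lf 104 2 1) (.lf 95 3 1) (.lf 98 2 1)))) (.lf 95 2 1) (.lf 98 2 1)))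

def t15_14 : Tr := (.nd 179 (.nd 179 (.nd 155 (.nd 155 (.lf 155 1 2) (.lf 134 1 2) (.lf 150 1 2)) (.nd 147 (.lf 147 1 2) (.lf 142 1 2) (.lf 121 1 2)) (.nd 151 (.nd 151 (.lf 141 1 2) (.lf 151 1 2) (.lf 128 1 2)) (.lf 128 1 2) (.lf 110 1 2))) (.nd 153 (.lf 136 1 2) (.nd 153 (.lf 142 1 2) (.nd 153 (.lf 153 1 2) (.lf 133 1 2) (.lf 145 1 2)) (.lf 127 1 2)) (.nd 148 (.lf 119 1 2) (.lf 148 1 2) (.nd 138 (.nd 138 (.lf 135 1 2) (.nd 138 (.lf 138 1 2) (.lf 126 1 2) (.lf 116 1 2)) (.lf 120 1 2)) (.lf 122 1 2) (.lf 95 1 2)))) (.nd 179 (.nd 179 (.nd 179 (.lf 153 1 2) (.lf 157 1 2) (.nd 179 (.lf 159 1 2) (.lf 179 1 2) (.lf 173 1 2))) (.lf 164 1 2) (.lf 153 1 2)) (.nd 178 (.lf 178 1 2) (.nd 177 (.lf 170 1 2) (.lf 163 1 2) (.nd 177 (.lf 177 1 2) (.lf 168 1 2) (.lf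 172 1 2))) (.lf 171 1 2)) (.lf 165 1 2))) (.nd 149 (.nd 149 (.lf 127 1 2) (.lf 97 1 2) (.nd 149 (.lf 119 1 2) (.lf 134 1 2) (.lf 149 1 2))) (.nd 125 (.lf 125 1 2) (.nd 99 (.lf 99 1 2) (.nd 96 (.lf 96 1 2) (.lf 66 1 2) (.lf 39 1 2)) (.lf 65 1 2)) (.lf 119 1 2)) (.lf 147 1 2)) (.nd 164 (.nd 141 (.lf 122 1 2) (.nd 141 (.lf 131 1 2) (.lf 124 1 2) (.lf 141 1 2)) (.lf 123 1 2)) (.nd 140 (.nd 140 (.lf 127 1 2) (.lf 126 1 2) (.lf 140 1 2)) (.lf 115 1 2) (.lf 120 1 2)) (.nd 164 (.lf 147 1 2) (.nd 164 (.nd 164 (.nd 164 (.lf 164 1 2) (.lf 161 1 2) (.lf 162 1 2)) (.lf 160 1 2) (.lf 152 1 2)) (.lf 155 1 2) (.lf 154 1 2)) (.lf 153 1 2))))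

def t15_16 : Tr := (.nd 289 (.nd 289 (.nd 289 (.lf 289 1 3) (.nd 273 (.lf 247 1 3) (.lf 273 1 3) (.lf 241 1 3)) (.lf 251 1 3)) (.nd 269 (.nd 269 (.nd 261 (.lf 247 3 5) (.nd 261 (.nd 245 (.nd 235 (.lf 235 1 3) (.nd 217 (.lf 216 3 5) (.lf 217 2 5) (.lf 216 2 5)) (.lf 212 1 3)) (.lf 245 3 5) (.lf 242 1 3)) (.nd 261 (.lf 261 3 5) (.lf 252 1 3) (.lf 252 1 3)) (.lf 259 1 3)) (.lf 248 1 3)) (.nd 269 (.lf 259 3 5) (.nd 233 (.lf 233 1 3) (.nd 232 (.lf 232 1 3) (.nd 232 (.lf 232 1 3) (.lf 217 1 3) (.lf 230 3 5)) (.lf 192 1 3)) (.lf 218 3 5)) (.lf 269 1 3)) (.lf 256 1 3)) (.lf 250 1 3) (.nd 264 (.nd 264 (.lf 242 1 3) (.lf 264 1 3) (.lf 249 1 3)) (.lf 222 1 3) (.nd 236 (.lf 224 1 3) (.lf 236 1 3) (.lf 219 1 3)))) (.nd 272 (.nd 272 (.lf 267 1 3) (.nd 272 (.lf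 272 2 5) (.lf 267 1 3) (.lf 252 1 3)) (.nd 268 (.lf 246 2 5) (.lf 268 2 5) (.lf 259 1 3))) (.nd 272 (.lf 272 2 5) (.nd 254 (.nd 254 (.lf 242 1 3) (.nd 254 (.lf 254 1 3) (.lf 243 1 3) (.nd 248 (.lf 248 1 3) (.lf 237 2 5) (.lf 238 2 5))) (.lf 218 1 3)) (.lf 246 2 5) (.lf 242 1 3)) (.lf 267 1 3)) (.lf 266 1 3))) (.nd 267 (.nd 248 (.nd 230 (.nd 230 (.lf 212 1 3) (.lf 230 1 3) (.lf 225 1 3)) (.lf 207 1 3) (.nd 212 (.lf 182 1 3) (.lf 212 1 3) (.lf 181 1 3))) (.nd 227 (.nd 208 (.lf 203 1 3) (.lf 208 1 3) (.lf 156 1 3)) (.lf 227 1 3) (.lf 207 1 3)) (.nd 248 (.nd 232 (.nd 221 (.lf 221 1 3) (.lf 170 1 3) (.lf 185 1 3)) (.lf 232 1 3) (.lf 212 1 3)) (.lf 248 1 3) (.lf 243 1 3))) (.lf 253 1 3) (.nd 267 (.nd 267 (.lf 267 1 3) (.nd 253 (.nd 227 (.nd 198 (.lf 175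 1 3) (.lf 172 1 3) (.lf 198 1 3)) (.lf 198 1 3) (.lf 227 1 3)) (.nd 224 (.nd 191 (.lf 162 1 3) (.lf 154 1 3) (.lf 191 1 3)) (.lf 179 1 3) (.lf 224 1 3)) (.lf 253 1 3)) (.lf 225 1 3)) (.lf 261 1 3) (.lf 267 1 3))) (.nd 274 (.nd 259 (.lf 259 1 3) (.nd 224 (.lf 215 1 3) (.lf 179 1 3) (.lf 224 1 3)) (.lf 228 1 3)) (.nd 249 (.nd 233 (.nd 210 (.lf 210 1 3) (.lf 181 1 3) (.lf 181 1 3)) (.lf 233 1 3) (.nd 207 (.lf 207 1 3) (.lf 177 1 3) (.lf 174 1 3))) (.nd 249 (.lf 249 1 3) (.nd 236 (.lf 221 1 3) (.nd 212 (.lf 188 1 3) (.nd 204 (.lf 204 1 3) (.lf 204 1 3) (.lf 192 1 3)) (.lf 212 1 3)) (.lf 236 1 3)) (.nd 230 (.lf 206 1 3) (.nd 230 (.lf 208 1 3) (.lf 230 1 3) (.lf 178 1 3)) (.lf 228 1 3))) (.nd 208 (.nd 208 (.lf 200 1 3) (.lf 191 1 3) (.lf 208 1 3)) (.nd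 203 (.lf 179 1 3) (.lf 151 1 3) (.nd 203 (.lf 173 1 3) (.lf 188 1 3) (.lf 203 1 3))) (.lf 179 1 3))) (.nd 274 (.lf 274 1 3) (.lf 267 1 3) (.nd 268 (.lf 268 1 3) (.lf 254 1 3) (.nd 244 (.lf 223 1 3) (.lf 244 1 3) (.lf 228 1 3))))))

def t15_19 : Tr := (.nd 203 (.nd 203 (.nd 168 (.nd 145 (.lf 145 2 3) (.lf 116 2 3) (.lf 140 2 3)) (.nd 160 (.nd 160 (.nd 160 (.nd 160 (.lf 128 2 3) (.nd 160 (.lf 159 2 3) (.nd 160 (.lf 160 2 3) (.lf 160 1 3) (.lf 157 1 3)) (.lf 146 2 3)) (.lf 146 2 3)) (.nd 160 (.lf 137 1 3) (.lf 152 2 3) (.lf 160 1 3)) (.nd 160 (.lf 153 1 3) (.lf 160 2 3) (.lf 139 2 3))) (.nd 160 (.nd 156 (.lf 137 2 3) (.nd 151 (.nd 145 (.lf 145 2 3) (.lf 133 1 3) (.lf 140 2 3)) (.lf 151 1 3) (.lf 111 1 3)) (.lf 156 2 3)) (.lf 154 2 3) (.nd 160 (.lf 157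 1 3) (.lf 145 2 3) (.lf 160 2 3))) (.nd 160 (.nd 160 (.lf 132 1 3) (.lf 160 1 3) (.nd 160 (.lf 160 1 3) (.lf 154 1 3) (.nd 160 (.lf 160 1 3) (.lf 136 2 3) (.lf 158 1 3)))) (.nd 160 (.nd 160 (.lf 156 2 3) (.lf 160 1 1) (.nd 155 (.lf 140 2 3) (.lf 153 1 3) (.lf 155 1 3))) (.lf 160 1 1) (.nd 158 (.lf 144 2 3) (.lf 158 1 3) (.lf 155 2 3))) (.nd 158 (.lf 154 1 3) (.lf 131 1 3) (.nd 158 (.lf 158 1 3) (.lf 158 1 3) (.nd 153 (.lf 153 1 3) (.lf 152 1 3) (.lf 143 2 3)))))) (.nd 155 (.lf 135 1 3) (.lf 143 2 3) (.nd 155 (.lf 155 2 3) (.lf 136 1 3) (.lf 109 1 3))) (.nd 159 (.lf 138 1 3) (.lf 158 2 3) (.nd 159 (.nd 158 (.lf 134 1 3) (.lf 158 1 3) (.nd 158 (.lf 146 1 3) (.lf 155 1 3) (.lf 158 2 3))) (.nd 159 (.lf 159 1 3) (.lf 140 2 3) (.lf 150 2 3)) (.nd 156 (.lf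 150 1 3) (.nd 156 (.lf 156 1 3) (.lf 156 2 3) (.lf 140 2 3)) (.lf 142 2 3))))) (.nd 168 (.lf 147 2 3) (.nd 144 (.lf 144 2 3) (.nd 111 (.lf 74 2 3) (.lf 111 2 3) (.lf 82 2 3)) (.lf 114 2 3)) (.nd 168 (.nd 160 (.nd 158 (.lf 158 1 3) (.lf 156 2 3) (.lf 137 2 3)) (.nd 160 (.lf 160 1 1) (.lf 139 2 3) (.lf 157 2 3)) (.nd 160 (.lf 160 2 3) (.lf 160 2 3) (.nd 157 (.lf 139 2 3) (.lf 157 2 3) (.lf 111 1 3)))) (.nd 168 (.lf 151 2 3) (.nd 149 (.lf 142 1 3) (.lf 148 2 3) (.lf 149 2 3)) (.lf 168 2 3)) (.nd 160 (.nd 153 (.lf 153 2 3) (.lf 149 1 3) (.lf 153 2 3)) (.nd 160 (.lf 142 2 3) (.lf 145 2 3) (.nd 160 (.lf 139 2 3) (.lf 160 1 3) (.lf 153 2 3))) (.nd 160 (.lf 160 1 1) (.lf 137 1 3) (.nd 160 (.lf 159 2 3) (.lf 160 1 1) (.lf 159 1 3))))))) (.nd 171 (.lf 165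 2 3) (.lf 167 2 3) (.nd 171 (.nd 171 (.nd 169 (.nd 169 (.lf 169 1 3) (.lf 155 2 3) (.lf 129 2 3)) (.lf 143 1 3) (.lf 140 1 3)) (.lf 141 1 3) (.nd 171 (.lf 163 1 3) (.nd 171 (.lf 155 1 3) (.lf 154 1 3) (.lf 171 2 3)) (.nd 171 (.lf 162 2 3) (.lf 171 2 3) (.nd 170 (.nd 170 (.lf 160 1 1) (.lf 133 2 3) (.lf 170 2 3)) (.lf 169 2 3) (.lf 170 2 3))))) (.nd 171 (.lf 161 1 3) (.nd 171 (.lf 171 2 3) (.nd 157 (.lf 157 1 3) (.lf 153 2 3) (.lf 152 2 3)) (.lf 170 1 3)) (.lf 153 1 3)) (.nd 170 (.lf 165 2 3) (.nd 170 (.lf 169 2 3) (.nd 170 (.nd 170 (.lf 164 2 3) (.lf 156 1 3) (.lf 170 1 3)) (.lf 166 2 3) (.nd 169 (.lf 167 1 3) (.lf 168 2 3) (.lf 169 1 3))) (.lf 164 2 3)) (.lf 160 2 3)))) (.nd 203 (.nd 195 (.nd 195 (.nd 188 (.lf 188 2 3) (.lf 182 2 3) (.lf 180 1 3))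 (.nd 192 (.lf 168 1 3) (.lf 192 2 3) (.lf 182 2 3)) (.nd 195 (.nd 190 (.nd 190 (.lf 180 2 3) (.lf 190 1 3) (.lf 186 2 3)) (.lf 177 1 1) (.lf 180 1 1)) (.nd 195 (.nd 195 (.lf 193 2 3) (.lf 194 2 3) (.nd 195 (.lf 191 1 1) (.lf 186 1 3) (.lf 195 2 3))) (.nd 195 (.lf 184 1 3) (.nd 195 (.lf 193 2 3) (.lf 191 2 3) (.lf 195 1 1)) (.lf 186 1 3)) (.lf 193 1 3)) (.nd 195 (.lf 173 1 1) (.lf 172 1 1) (.nd 195 (.lf 195 2 3) (.lf 181 1 1) (.lf 182 1 1))))) (.lf 183 2 3) (.lf 182 2 3)) (.nd 203 (.nd 202 (.lf 202 2 3) (.lf 197 1 3) (.lf 188 2 3)) (.nd 202 (.nd 202 (.nd 202 (.lf 193 2 3) (.lf 190 1 3) (.lf 202 2 3)) (.lf 192 1 3) (.lf 165 1 3)) (.lf 193 1 3) (.nd 202 (.nd 194 (.nd 187 (.lf 186 2 3) (.lf 187 1 3) (.lf 159 1 3)) (.lf 191 1 3) (.nd 194 (.lf 194 2 3)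 (.lf 164 2 3) (.lf 176 1 1))) (.lf 202 2 3) (.lf 185 2 3))) (.nd 203 (.lf 189 2 3) (.lf 185 1 3) (.nd 203 (.lf 185 2 3) (.lf 203 1 3) (.lf 179 2 3)))) (.nd 201 (.nd 201 (.nd 201 (.nd 201 (.lf 201 2 3) (.lf 199 2 3) (.nd 200 (.lf 200 2 3) (.lf 197 1 3) (.lf 191 1 3))) (.lf 197 2 3) (.lf 201 2 3)) (.nd 200 (.lf 191 2 3) (.lf 163 2 3) (.nd 200 (.lf 200 2 3) (.nd 190 (.lf 189 2 3) (.nd 190 (.lf 190 1 3) (.lf 181 1 3) (.lf 189 2 3)) (.lf 189 2 3)) (.lf 185 2 3))) (.lf 199 2 3)) (.nd 170 (.lf 165 2 3) (.nd 170 (.nd 168 (.nd 168 (.lf 164 2 3) (.lf 168 1 1) (.lf 151 1 1)) (.lf 164 1 1) (.lf 144 1 1)) (.nd 170 (.lf 170 1 1) (.lf 165 2 3) (.lf 137 2 3)) (.lf 170 2 3)) (.lf 168 2 3)) (.lf 191 2 3)))) (.nd 190 (.nd 187 (.nd 187 (.nd 187 (.nd 187 (.lf 177 2 3)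 (.nd 183 (.lf 179 2 3) (.lf 183 2 3) (.lf 172 1 3)) (.lf 187 2 3)) (.nd 185 (.lf 159 2 3) (.lf 159 1 3) (.lf 185 2 3)) (.lf 181 2 3)) (.lf 177 2 3) (.lf 186 2 3)) (.nd 171 (.lf 119 2 3) (.nd 171 (.lf 171 2 3) (.lf 141 2 3) (.lf 156 2 3)) (.lf 166 2 3)) (.nd 170 (.nd 141 (.lf 135 2 3) (.lf 141 2 3) (.nd 90 (.lf 83 2 3) (.lf 61 2 3) (.lf 90 2 3))) (.lf 170 2 3) (.lf 139 2 3))) (.nd 156 (.nd 156 (.nd 144 (.lf 144 2 3) (.nd 113 (.lf 92 2 3) (.lf 89 2 3) (.lf 113 2 3)) (.lf 115 2 3)) (.nd 156 (.nd 156 (.nd 156 (.lf 156 2 3) (.lf 151 2 3) (.nd 153 (.nd 153 (.lf 138 2 3) (.lf 137 1 3) (.lf 153 2 3)) (.lf 146 1 3) (.lf 153 2 3))) (.nd 156 (.lf 133 2 3) (.lf 133 1 3) (.lf 156 2 3)) (.lf 155 2 3)) (.lf 153 2 3) (.lf 156 2 3)) (.nd 145 (.lf 145 2 3) (.nd 140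 (.lf 140 2 3) (.lf 95 2 3) (.lf 92 2 3)) (.lf 93 2 3))) (.nd 141 (.nd 135 (.lf 119 2 3) (.lf 118 2 3) (.nd 135 (.lf 134 2 3) (.nd 135 (.nd 133 (.lf 133 2 3) (.lf 107 2 3) (.lf 107 1 3)) (.lf 129 2 3) (.nd 135 (.nd 131 (.lf 131 2 3) (.lf 120 1 3) (.lf 127 2 3)) (.lf 135 2 3) (.lf 125 2 3))) (.lf 127 2 3))) (.nd 133 (.lf 123 2 3) (.lf 133 1 3) (.lf 118 1 3)) (.nd 141 (.lf 113 1 3) (.lf 114 1 3) (.nd 141 (.lf 129 1 3) (.lf 122 1 3) (.nd 141 (.nd 135 (.lf 135 2 3) (.lf 120 1 3) (.lf 130 1 3)) (.lf 124 1 3) (.lf 141 1 3))))) (.nd 156 (.nd 156 (.lf 155 1 3) (.lf 148 1 3) (.nd 156 (.lf 150 1 3) (.nd 154 (.lf 154 1 3) (.nd 153 (.lf 152 1 3) (.nd 153 (.lf 153 2 3) (.lf 153 1 3) (.lf 153 1 3)) (.lf 148 1 3)) (.lf 128 1 3)) (.nd 156 (.lf 146 1 3) (.lf 156 1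 3) (.nd 148 (.lf 148 1 3) (.lf 143 2 3) (.lf 113 2 3))))) (.lf 139 1 3) (.lf 140 1 3))) (.nd 190 (.nd 166 (.lf 161 1 3) (.lf 166 1 3) (.nd 114 (.lf 114 1 3) (.lf 109 1 3) (.lf 85 1 3))) (.nd 190 (.lf 174 1 3) (.nd 190 (.nd 190 (.lf 154 1 3) (.lf 180 1 3) (.nd 190 (.lf 178 1 3) (.lf 190 1 1) (.lf 174 1 3))) (.nd 187 (.lf 182 1 3) (.lf 187 2 3) (.lf 173 2 3)) (.lf 176 1 3)) (.lf 175 1 3)) (.lf 165 1 3))) (.nd 199 (.nd 172 (.nd 172 (.nd 166 (.lf 166 1 3) (.nd 156 (.lf 105 1 3) (.nd 156 (.lf 127 1 3) (.lf 142 1 3) (.lf 156 2 3)) (.lf 135 1 3)) (.lf 137 1 3)) (.nd 158 (.lf 138 1 3) (.nd 156 (.lf 135 1 3) (.lf 136 1 3) (.nd 156 (.lf 142 1 3) (.lf 156 2 3) (.lf 151 1 3))) (.nd 158 (.lf 131 1 3) (.lf 130 1 3) (.lf 158 1 3))) (.lf 172 1 3)) (.nd 162 (.lf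 152 1 3) (.lf 111 1 3) (.lf 162 1 3)) (.lf 139 1 3)) (.nd 192 (.nd 192 (.nd 168 (.lf 154 1 3) (.nd 168 (.lf 166 1 3) (.nd 168 (.lf 167 1 3) (.lf 168 1 3) (.lf 156 2 3)) (.lf 160 1 3)) (.lf 153 1 3)) (.lf 162 1 3) (.nd 192 (.lf 166 1 3) (.nd 168 (.lf 160 1 3) (.lf 168 1 3) (.nd 164 (.lf 164 1 3) (.lf 123 1 3) (.lf 141 1 3))) (.nd 192 (.lf 178 1 3) (.lf 191 1 3) (.lf 192 1 3)))) (.nd 140 (.lf 111 1 3) (.nd 140 (.nd 140 (.lf 114 1 3) (.lf 114 1 3) (.lf 140 1 3)) (.lf 132 1 3) (.lf 123 1 3)) (.nd 135 (.lf 111 1 3) (.lf 83 1 3) (.nd 135 (.lf 105 1 3) (.lf 120 1 3) (.lf 135 1 3)))) (.lf 170 1 3)) (.nd 199 (.nd 189 (.nd 189 (.lf 161 1 3) (.lf 162 1 3) (.lf 189 1 3)) (.nd 181 (.lf 166 1 3) (.nd 181 (.nd 170 (.lf 144 2 3) (.lf 170 2 3) (.lf 167 1 3)) (.nd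 181 (.lf 181 1 3) (.lf 172 1 3) (.lf 180 1 3)) (.lf 175 1 3)) (.lf 167 1 3)) (.nd 163 (.lf 145 1 3) (.lf 163 1 3) (.lf 157 1 3))) (.nd 188 (.lf 188 1 3) (.nd 184 (.lf 178 1 3) (.lf 184 1 3) (.nd 179 (.lf 179 2 3) (.lf 165 1 3) (.lf 173 1 3))) (.nd 166 (.lf 166 1 3) (.nd 158 (.lf 107 1 3) (.lf 158 1 3) (.lf 135 1 3)) (.lf 135 1 3))) (.nd 199 (.nd 176 (.lf 161 1 3) (.lf 163 1 3) (.lf 176 1 3)) (.nd 199 (.nd 187 (.lf 186 2 3) (.lf 182 1 3) (.lf 187 1 3)) (.nd 178 (.nd 178 (.lf 167 2 3) (.lf 172 2 3) (.lf 178 1 3)) (.lf 173 1 3) (.lf 170 2 3)) (.nd 199 (.lf 199 1 3) (.lf 194 1 3) (.nd 191 (.lf 191 1 3) (.nd 188 (.lf 185 2 3) (.lf 188 1 3) (.lf 161 1 3)) (.lf 189 1 3)))) (.nd 176 (.lf 165 1 3) (.lf 141 1 3) (.lf 176 1 3))))))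

def t15_20 : Tr := (.nd 266 (.lf 238 3 2) (.lf 266 3 2) (.nd 238 (.nd 226 (.nd 197 (.lf 168 2 2) (.nd 197 (.lf 197 2 2) (.lf 140 2 2) (.nd 166 (.lf 163 3 2) (.lf 166 2 2) (.nd 166 (.lf 158 3 2) (.nd 131 (.lf 101 3 2) (.lf 122 3 2) (.lf 131 3 2)) (.lf 166 2 2)))) (.lf 197 2 2)) (.lf 226 2 2) (.lf 220 2 2)) (.nd 226 (.nd 224 (.lf 224 3 2) (.lf 197 3 2) (.nd 192 (.lf 192 3 2) (.lf 159 3 2) (.nd 162 (.nd 110 (.lf 81 3 2) (.lf 110 3 2) (.nd 105 (.lf 105 3 2) (.lf 81 3 2) (.lf 67 3 2))) (.lf 157 3 2) (.lf 162 3 2)))) (.lf 193 3 2) (.lf 226 2 2)) (.lf 238 3 2)))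

def t15_22 : Tr := (.nd 172 (.nd 145 (.nd 145 (.nd 145 (.lf 111 2 1) (.nd 145 (.nd 144 (.lf 144 2 1) (.lf 134 2 1) (.lf 113 2 1)) (.nd 145 (.lf 145 2 1) (.nd 145 (.lf 132 2 1) (.nd 145 (.lf 128 2 1) (.lf 122 2 1) (.lf 145 1 1)) (.lf 128 2 1)) (.nd 145 (.lf 145 2 1) (.nd 137 (.lf 134 1 1) (.lf 137 2 1) (.lf 128 2 1)) (.lf 136 2 1))) (.lf 138 2 1)) (.lf 114 2 1)) (.nd 134 (.nd 134 (.nd 124 (.nd 114 (.lf 104 2 1) (.lf 114 1 1) (.lf 105 2 1)) (.lf 106 2 1) (.nd 124 (.lf 110 2 1) (.lf 124 2 1) (.lf 109 2 1))) (.nd 134 (.lf 119 2 1) (.nd 134 (.lf 130 2 1) (.nd 134 (.lf 133 1 1) (.lf 134 2 1) (.lf 110 1 1)) (.lf 121 2 1)) (.lf 119 2 1)) (.nd 122 (.lf 109 2 1) (.nd 122 (.lf 119 1 1) (.lf 114 1 1) (.lf 122 2 1)) (.lf 115 1 1))) (.nd 134 (.nd 134 (.lf 105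 2 1) (.lf 111 2 1) (.lf 134 1 1)) (.lf 113 2 1) (.lf 83 2 1)) (.lf 115 2 1)) (.nd 133 (.nd 133 (.lf 133 2 1) (.nd 109 (.lf 104 2 1) (.lf 57 2 1) (.lf 109 2 1)) (.lf 108 2 1)) (.nd 99 (.lf 84 2 1) (.lf 99 2 1) (.lf 99 2 1)) (.nd 130 (.nd 114 (.lf 109 2 1) (.lf 114 2 1) (.lf 62 2 1)) (.lf 130 2 1) (.lf 113 2 1)))) (.nd 138 (.lf 89 2 1) (.nd 138 (.nd 129 (.lf 114 2 1) (.nd 129 (.lf 114 2 1) (.lf 107 2 1) (.lf 129 2 1)) (.lf 101 2 1)) (.nd 138 (.lf 110 2 1) (.lf 138 2 1) (.lf 120 2 1)) (.lf 114 2 1)) (.lf 119 2 1)) (.nd 120 (.lf 120 2 1) (.lf 88 2 1) (.nd 117 (.lf 87 2 1) (.lf 117 2 1) (.lf 60 2 1)))) (.nd 154 (.nd 137 (.lf 122 2 1) (.nd 137 (.nd 137 (.nd 137 (.lf 121 2 1) (.nd 137 (.lf 132 2 1) (.lf 137 2 1) (.nd 136 (.lf 134 1 1) (.nd 136 (.lf 134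 1 1) (.lf 136 2 1) (.lf 136 2 1)) (.lf 132 2 1))) (.lf 122 2 1)) (.lf 124 2 1) (.nd 137 (.lf 133 2 1) (.lf 135 2 1) (.nd 137 (.lf 128 2 1) (.nd 137 (.lf 134 1 1) (.lf 137 1 1) (.lf 137 2 1)) (.nd 137 (.lf 137 2 1) (.lf 137 2 1) (.nd 137 (.lf 137 2 1) (.lf 137 2 1) (.lf 137 2 1)))))) (.lf 137 2 1) (.lf 137 2 1)) (.lf 117 2 1)) (.nd 154 (.nd 154 (.nd 139 (.nd 133 (.nd 124 (.lf 122 1 1) (.lf 124 2 1) (.lf 119 1 1)) (.lf 133 2 1) (.lf 118 2 1)) (.lf 127 2 1) (.lf 139 2 1)) (.lf 146 2 1) (.nd 154 (.nd 152 (.nd 152 (.lf 144 2 1) (.lf 152 1 1) (.lf 148 2 1)) (.lf 144 2 1) (.lf 148 2 1)) (.lf 154 2 1) (.lf 147 1 1))) (.nd 154 (.lf 132 2 1) (.nd 154 (.lf 154 2 1) (.lf 138 2 1) (.lf 144 2 1)) (.lf 131 2 1)) (.nd 140 (.lf 140 2 1) (.lf 138 2 1) (.lf 116 2 1)))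 (.nd 118 (.nd 118 (.lf 110 2 1) (.nd 101 (.nd 101 (.lf 87 2 1) (.lf 83 2 1) (.lf 101 2 1)) (.lf 97 2 1) (.lf 73 2 1)) (.nd 118 (.lf 118 2 1) (.nd 92 (.lf 84 2 1) (.lf 82 2 1) (.lf 92 2 1)) (.lf 92 2 1))) (.nd 113 (.lf 89 2 1) (.lf 61 2 1) (.lf 113 2 1)) (.lf 89 2 1))) (.nd 172 (.nd 166 (.nd 166 (.lf 166 2 1) (.lf 114 2 1) (.nd 144 (.lf 113 2 1) (.lf 116 2 1) (.nd 144 (.lf 133 2 1) (.lf 144 2 1) (.nd 142 (.lf 142 2 1) (.lf 120 2 1) (.lf 137 2 1))))) (.nd 161 (.nd 150 (.nd 140 (.lf 109 2 1) (.nd 140 (.nd 140 (.lf 140 2 1) (.lf 116 2 1) (.lf 117 2 1)) (.lf 124 2 1) (.lf 119 2 1)) (.nd 130 (.lf 130 2 1) (.lf 109 2 1) (.lf 81 2 1))) (.lf 147 2 1) (.nd 150 (.nd 150 (.lf 147 2 1) (.lf 150 2 1) (.lf 121 2 1)) (.nd 150 (.lf 150 2 1) (.lf 115 2 1) (.lf 148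 2 1)) (.nd 149 (.nd 149 (.lf 132 2 1) (.lf 149 2 1) (.lf 146 2 1)) (.lf 132 2 1) (.lf 134 2 1)))) (.nd 161 (.nd 151 (.lf 135 2 1) (.lf 137 2 1) (.lf 151 2 1)) (.nd 161 (.lf 141 2 1) (.lf 140 2 1) (.lf 161 2 1)) (.lf 124 2 1)) (.nd 154 (.lf 126 2 1) (.lf 141 2 1) (.lf 154 2 1))) (.nd 144 (.nd 144 (.lf 118 2 1) (.lf 123 2 1) (.nd 144 (.nd 120 (.lf 120 2 1) (.lf 106 2 1) (.lf 104 2 1)) (.lf 121 2 1) (.lf 144 2 1))) (.nd 136 (.lf 85 2 1) (.nd 136 (.nd 136 (.lf 116 2 1) (.lf 115 2 1) (.lf 136 2 1)) (.lf 110 2 1) (.lf 125 2 1)) (.lf 101 2 1)) (.lf 113 2 1))) (.nd 172 (.nd 147 (.nd 139 (.lf 133 2 1) (.nd 139 (.nd 134 (.lf 134 2 1) (.lf 125 2 1) (.lf 123 2 1)) (.lf 134 2 1) (.lf 139 2 1)) (.lf 117 2 1)) (.lf 147 2 1) (.lf 119 2 1)) (.nd 149 (.nd 149 (.lf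 134 2 1) (.lf 137 2 1) (.lf 149 2 1)) (.nd 139 (.lf 139 2 1) (.lf 118 2 1) (.lf 122 2 1)) (.nd 130 (.lf 116 2 1) (.nd 130 (.lf 115 2 1) (.lf 125 2 1) (.lf 130 2 1)) (.lf 90 2 1))) (.nd 172 (.nd 166 (.lf 166 2 1) (.lf 141 2 1) (.lf 148 2 1)) (.lf 172 2 1) (.lf 165 2 1))) (.nd 161 (.lf 120 2 1) (.nd 142 (.lf 124 2 1) (.lf 140 2 1) (.nd 142 (.nd 135 (.nd 135 (.lf 114 2 1) (.lf 135 2 1) (.lf 119 2 1)) (.lf 117 2 1) (.lf 120 2 1)) (.lf 142 2 1) (.lf 142 2 1))) (.nd 161 (.nd 136 (.lf 93 2 1) (.nd 136 (.lf 115 2 1) (.lf 121 2 1) (.lf 136 2 1)) (.lf 123 2 1)) (.lf 123 2 1) (.nd 161 (.lf 161 2 1) (.lf 138 2 1) (.lf 138 2 1))))))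

def t15_23 : Tr := (.nd 237 (.nd 237 (.nd 200 (.lf 175 1 2) (.nd 177 (.nd 171 (.lf 123 1 2) (.lf 128 1 2) (.lf 171 1 2)) (.nd 177 (.nd 151 (.lf 122 1 2) (.nd 146 (.lf 107 1 2) (.lf 124 1 2) (.lf 146 1 2)) (.lf 151 1 2)) (.lf 177 1 2) (.lf 166 1 2)) (.lf 126 1 2)) (.nd 200 (.nd 200 (.lf 191 1 2) (.nd 200 (.nd 200 (.lf 200 1 4) (.lf 193 1 2) (.lf 187 1 2)) (.lf 184 1 2) (.lf 187 1 2)) (.lf 183 1 2)) (.lf 191 1 2) (.lf 184 1 2))) (.nd 237 (.lf 237 1 2) (.nd 215 (.nd 191 (.lf 181 1 2) (.lf 182 1 2) (.nd 191 (.lf 190 1 2) (.lf 187 1 4) (.lf 191 1 2))) (.lf 215 1 2) (.nd 188 (.lf 175 1 2) (.lf 188 1 2) (.lf 178 1 2))) (.lf 222 1 2)) (.nd 207 (.lf 155 1 2) (.lf 207 1 2) (.nd 202 (.lf 154 1 2) (.lf 202 1 2) (.lf 157 1 2)))) (.nd 211 (.nd 206 (.lf 176 2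 4) (.lf 206 2 4) (.nd 175 (.lf 144 2 4) (.nd 175 (.nd 175 (.lf 175 2 4) (.lf 160 2 4) (.lf 152 2 4)) (.lf 153 2 4) (.lf 160 2 4)) (.lf 146 2 4))) (.nd 211 (.lf 180 1 2) (.lf 211 1 2) (.lf 181 1 2)) (.nd 185 (.nd 185 (.lf 155 1 2) (.lf 154 1 2) (.lf 185 1 2)) (.nd 169 (.lf 159 1 2) (.lf 169 2 4) (.lf 154 2 4)) (.lf 180 2 4))) (.nd 232 (.nd 201 (.nd 172 (.lf 121 2 4) (.nd 172 (.lf 172 2 4) (.lf 146 2 4) (.nd 161 (.lf 133 2 4) (.lf 146 2 4) (.nd 161 (.lf 139 2 4) (.lf 161 2 4) (.lf 146 2 4)))) (.nd 166 (.lf 118 2 4) (.lf 166 2 4) (.lf 123 2 4))) (.nd 170 (.nd 149 (.nd 135 (.lf 102 2 4) (.lf 102 2 4) (.lf 135 2 4)) (.lf 149 2 4) (.lf 102 2 4)) (.lf 170 2 4) (.lf 146 2 4)) (.nd 201 (.nd 179 (.lf 165 2 4) (.lf 179 2 4) (.lf 168 2 4)) (.lf 186 2 4) (.nd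 201 (.lf 186 2 4) (.lf 178 2 4) (.nd 201 (.lf 182 2 4) (.lf 179 2 4) (.lf 201 2 4))))) (.nd 202 (.nd 197 (.nd 149 (.lf 119 2 4) (.lf 116 2 4) (.lf 149 2 4)) (.lf 152 2 4) (.lf 197 2 4)) (.lf 202 2 4) (.lf 150 2 4)) (.nd 232 (.nd 210 (.lf 183 2 4) (.lf 210 2 4) (.nd 193 (.lf 176 2 4) (.lf 193 2 4) (.lf 177 2 4))) (.lf 232 2 4) (.lf 217 2 4))))

def t15_25 : Tr := (.nd 338 (.nd 333 (.lf 333 1 5) (.nd 303 (.lf 303 1 5) (.nd 298 (.lf 298 1 5) (.lf 253 1 5) (.nd 250 (.nd 217 (.lf 186 1 5) (.lf 217 1 5) (.nd 188 (.lf 186 1 5) (.lf 186 1 5) (.lf 188 1 5))) (.lf 220 1 5) (.lf 250 1 5))) (.lf 251 1 5)) (.nd 302 (.lf 302 1 5) (.nd 263 (.nd 247 (.lf 247 1 5) (.lf 225 1 5) (.nd 219 (.lf 219 1 5) (.lf 186 1 5) (.lf 209 1 5))) (.lf 263 1 5) (.nd 250 (.lf 250 1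 5) (.lf 236 1 5) (.nd 193 (.lf 186 1 5) (.lf 186 1 5) (.nd 193 (.lf 193 1 5) (.lf 186 1 5) (.lf 186 1 5))))) (.lf 271 1 5))) (.nd 312 (.nd 307 (.nd 307 (.nd 282 (.lf 282 1 3) (.lf 258 1 5) (.nd 268 (.lf 252 1 5) (.lf 268 1 5) (.nd 251 (.nd 214 (.lf 207 1 5) (.lf 186 1 5) (.lf 214 1 5)) (.lf 220 1 5) (.lf 251 1 5)))) (.lf 292 1 5) (.lf 307 1 5)) (.lf 277 1 5) (.lf 276 1 5)) (.lf 310 1 5) (.lf 312 2 5)) (.nd 338 (.nd 338 (.nd 302 (.lf 301 1 3) (.nd 302 (.nd 282 (.nd 245 (.lf 238 2 5) (.lf 245 2 5) (.lf 202 2 5)) (.lf 282 2 5) (.lf 251 2 5)) (.lf 302 2 5) (.lf 283 2 5)) (.lf 289 2 5)) (.lf 338 2 5) (.lf 323 2 5)) (.nd 307 (.lf 307 2 5) (.nd 278 (.nd 227 (.nd 220 (.lf 220 2 5) (.lf 168 2 5) (.lf 196 2 5)) (.lf 227 2 5) (.nd 198 (.nd 198 (.lf 198 2 5)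 (.lf 194 2 5) (.lf 177 2 5)) (.lf 190 2 5) (.lf 170 2 5))) (.lf 278 2 5) (.lf 272 2 5)) (.lf 276 2 5)) (.nd 308 (.nd 303 (.lf 303 2 5) (.lf 255 2 5) (.nd 258 (.nd 258 (.nd 245 (.nd 228 (.lf 228 2 5) (.lf 221 2 5) (.lf 227 2 5)) (.lf 242 2 5) (.lf 245 2 5)) (.lf 252 2 5) (.nd 258 (.lf 255 2 5) (.lf 258 2 5) (.nd 235 (.lf 224 2 5) (.lf 235 2 5) (.lf 217 2 5)))) (.nd 229 (.lf 199 2 5) (.lf 198 2 5) (.nd 229 (.lf 229 2 5) (.lf 207 2 5) (.lf 208 2 5))) (.nd 229 (.lf 229 2 5) (.lf 203 2 5) (.lf 206 2 5)))) (.lf 308 2 5) (.lf 256 2 5))))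

def t15_28 : Tr := (.nd 126 (.nd 126 (.nd 102 (.nd 102 (.lf 102 1 1) (.lf 97 1 1) (.lf 81 1 1)) (.nd 98 (.lf 75 1 1) (.lf 98 1 1) (.lf 57 1 1)) (.lf 94 1 1)) (.nd 126 (.lf 125 1 1) (.nd 126 (.nd 126 (.lf 100 1 1) (.nd 126 (.lf 126 1 1) (.lf 106 1 1) (.lf 120 1 1)) (.lf 104 1 1)) (.lf 100 1 1) (.lf 111 1 1)) (.lf 112 1 1)) (.nd 100 (.nd 83 (.lf 83 1 1) (.lf 52 1 1) (.lf 68 1 1)) (.lf 95 1 1) (.lf 100 1 1))) (.nd 111 (.lf 87 1 1) (.lf 88 1 1) (.nd 111 (.nd 111 (.lf 102 1 1) (.lf 111 1 1) (.lf 101 1 1)) (.lf 94 1 1) (.lf 100 1 1))) (.nd 96 (.nd 96 (.nd 74 (.lf 46 1 1) (.lf 74 1 1) (.lf 43 1 1)) (.lf 96 1 1) (.lf 44 1 1)) (.lf 94 1 1) (.nd 72 (.nd 72 (.lf 63 1 1) (.lf 55 1 1) (.nd 72 (.lf 72 1 1) (.lf 42 1 1) (.lf 47 1 1))) (.nd 66 (.lf 42 1 1) (.lf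 15 1 1) (.lf 66 1 1)) (.lf 46 1 1))))

def t15_29 : Tr := (.nd 301 (.nd 294 (.nd 286 (.lf 257 1 2) (.nd 286 (.lf 286 1 2) (.lf 255 1 2) (.nd 251 (.nd 204 (.lf 204 1 2) (.nd 199 (.lf 199 1 2) (.lf 175 1 2) (.lf 160 1 2)) (.lf 175 1 2)) (.lf 251 1 2) (.nd 225 (.lf 225 1 2) (.lf 190 1 2) (.nd 188 (.lf 171 1 2) (.lf 167 1 2) (.lf 188 1 2))))) (.lf 228 1 2)) (.nd 259 (.lf 259 1 2) (.nd 202 (.nd 172 (.nd 151 (.lf 151 1 2) (.lf 140 1 2) (.lf 134 1 2)) (.lf 163 1 2) (.nd 172 (.nd 159 (.lf 153 1 2) (.lf 139 1 2) (.nd 159 (.lf 159 1 2) (.lf 134 1 2) (.lf 134 1 2))) (.lf 167 1 2) (.lf 172 1 2))) (.nd 202 (.lf 193 1 2) (.lf 202 1 2) (.nd 193 (.lf 193 1 2) (.lf 189 1 2) (.nd 167 (.lf 136 1 2) (.lf 159 1 2) (.lf 167 1 2)))) (.nd 193 (.nd 170 (.lf 140 1 2) (.lf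 170 1 2) (.lf 145 1 2)) (.lf 141 1 2) (.lf 193 1 2))) (.nd 250 (.lf 197 1 2) (.nd 202 (.lf 174 1 2) (.lf 202 1 2) (.nd 160 (.lf 141 1 2) (.lf 140 1 2) (.nd 160 (.lf 156 1 2) (.lf 160 1 2) (.lf 149 1 2)))) (.lf 250 1 2))) (.lf 294 1 2)) (.lf 301 1 2) (.lf 282 1 2))

def t15_31 : Tr := (.nd 157 (.nd 157 (.nd 135 (.nd 118 (.lf 102 1 1) (.lf 118 1 1) (.lf 101 1 1)) (.lf 135 1 1) (.lf 108 1 1)) (.nd 142 (.lf 110 1 1) (.nd 142 (.nd 142 (.lf 132 1 1) (.nd 142 (.lf 142 1 1) (.lf 134 1 1) (.lf 120 1 1)) (.nd 135 (.lf 135 1 1) (.lf 127 1 1) (.lf 133 1 1))) (.nd 134 (.lf 134 1 1) (.lf 118 1 1) (.nd 112 (.lf 112 1 1) (.lf 97 1 1) (.lf 93 1 1))) (.nd 136 (.lf 111 1 1) (.lf 112 1 1) (.nd 136 (.lf 133 1 1) (.lf 136 1 1) (.lf 130 1 1)))) (.nd 127 (.lf 88 1 1) (.lf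 96 1 1) (.nd 127 (.lf 127 1 1) (.lf 106 1 1) (.lf 107 1 1)))) (.nd 157 (.nd 157 (.nd 157 (.nd 139 (.nd 135 (.lf 135 1 1) (.lf 131 1 1) (.lf 118 1 1)) (.lf 120 1 1) (.lf 139 1 1)) (.nd 157 (.nd 157 (.lf 135 1 1) (.lf 146 1 1) (.lf 157 1 1)) (.lf 136 1 1) (.lf 135 1 1)) (.lf 135 1 1)) (.nd 143 (.nd 135 (.lf 135 1 1) (.lf 110 1 1) (.nd 135 (.lf 110 1 1) (.lf 135 1 1) (.lf 86 1 1))) (.nd 135 (.nd 129 (.lf 129 1 1) (.lf 124 1 1) (.lf 121 1 1)) (.lf 131 1 1) (.lf 135 1 1)) (.nd 143 (.lf 115 1 1) (.nd 133 (.lf 125 1 1) (.lf 127 1 1) (.lf 133 1 1)) (.lf 143 1 1))) (.nd 133 (.lf 114 1 1) (.nd 133 (.lf 133 1 1) (.lf 127 1 1) (.lf 122 1 1)) (.nd 132 (.lf 132 1 1) (.lf 125 1 1) (.lf 132 1 1)))) (.nd 154 (.nd 141 (.lf 141 1 1) (.lf 107 1 1) (.lf 118 1 1)) (.nd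 115 (.lf 90 1 1) (.lf 94 1 1) (.nd 115 (.lf 115 1 1) (.lf 102 1 1) (.lf 111 1 1))) (.nd 154 (.lf 135 1 1) (.nd 154 (.lf 140 1 1) (.lf 140 1 1) (.nd 154 (.lf 145 1 1) (.lf 144 1 1) (.lf 154 1 1))) (.lf 139 1 1))) (.nd 137 (.lf 118 1 1) (.nd 132 (.lf 90 1 1) (.lf 104 1 1) (.nd 132 (.lf 123 1 1) (.lf 115 1 1) (.lf 132 1 1))) (.nd 137 (.lf 124 1 1) (.lf 137 1 1) (.lf 135 1 1))))) (.nd 127 (.nd 122 (.lf 77 1 1) (.lf 74 1 1) (.nd 122 (.nd 122 (.lf 97 1 1) (.nd 122 (.lf 96 1 1) (.lf 122 1 1) (.lf 98 1 1)) (.lf 94 1 1)) (.lf 103 1 1) (.lf 103 1 1))) (.nd 75 (.lf 75 1 1) (.lf 46 1 1) (.nd 70 (.lf 70 1 1) (.lf 18 1 1) (.lf 46 1 1))) (.nd 127 (.nd 112 (.lf 112 1 1) (.lf 89 1 1) (.lf 88 1 1)) (.nd 127 (.lf 127 1 1) (.nd 103 (.lf 95 1 1) (.lf 99 1 1) (.lf 103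 1 1)) (.lf 101 1 1)) (.lf 97 1 1))) (.nd 126 (.nd 97 (.nd 46 (.lf 17 1 1) (.lf 46 1 1) (.nd 39 (.lf 15 1 1) (.lf 1 1 1) (.lf 39 1 1))) (.nd 91 (.lf 91 1 1) (.lf 43 1 1) (.nd 48 (.lf 48 1 1) (.lf 17 1 1) (.lf 20 1 1))) (.lf 97 1 1)) (.nd 126 (.nd 126 (.lf 111 1 1) (.lf 126 1 1) (.lf 103 1 1)) (.lf 111 1 1) (.lf 104 1 1)) (.nd 95 (.lf 71 1 1) (.lf 95 1 1) (.nd 74 (.lf 17 1 1) (.lf 74 1 1) (.nd 60 (.lf 60 1 1) (.lf 17 1 1) (.lf 12 1 1))))))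

def t15_32 : Tr := (.nd 220 (.nd 220 (.nd 220 (.nd 212 (.nd 212 (.nd 210 (.nd 210 (.lf 198 1 2) (.lf 210 3 4) (.lf 210 1 2)) (.lf 207 1 2) (.nd 207 (.lf 190 1 2) (.lf 207 2 4) (.lf 195 2 4))) (.nd 205 (.lf 205 1 2) (.lf 188 2 4) (.lf 180 2 4)) (.nd 212 (.lf 168 2 4) (.nd 207 (.lf 167 2 4) (.lf 170 2 4) (.lf 207 3 4)) (.nd 212 (.lf 205 2 4) (.lf 190 2 4) (.lf 212 1 2)))) (.nd 209 (.nd 209 (.nd 209 (.lf 197 1 2) (.lf 198 1 2) (.lf 209 3 4)) (.lf 191 1 2) (.lf 186 1 2)) (.lf 191 3 4) (.nd 209 (.nd 208 (.nd 208 (.lf 208 3 4) (.lf 199 3 4) (.lf 208 1 2)) (.nd 208 (.lf 208 2 4) (.lf 189 3 4) (.lf 159 3 4)) (.lf 187 3 4)) (.nd 209 (.lf 195 1 2) (.nd 209 (.lf 193 1 2) (.lf 209 1 2) (.lf 209 3 4)) (.lf 203 3 4)) (.nd 209 (.nd 209 (.lf 208 1 2) (.lf 204 3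 4) (.lf 209 3 4)) (.lf 203 1 2) (.lf 193 1 2)))) (.nd 196 (.nd 194 (.lf 162 3 4) (.lf 188 3 4) (.lf 194 2 4)) (.lf 196 1 2) (.lf 190 3 4))) (.lf 198 1 2) (.nd 220 (.lf 194 1 2) (.lf 188 1 2) (.nd 220 (.nd 206 (.nd 205 (.lf 190 3 4) (.lf 200 1 2) (.lf 205 1 2)) (.lf 202 1 2) (.nd 206 (.lf 206 1 2) (.lf 206 1 2) (.lf 202 3 4))) (.nd 220 (.lf 204 1 2) (.lf 220 1 2) (.lf 198 1 2)) (.lf 209 1 2)))) (.nd 213 (.nd 208 (.nd 201 (.lf 193 2 4) (.nd 201 (.lf 189 1 2) (.lf 165 1 2) (.nd 201 (.lf 201 1 2) (.nd 195 (.lf 184 2 4) (.lf 195 1 2) (.lf 185 2 4)) (.lf 190 1 2))) (.lf 189 1 2)) (.nd 202 (.nd 200 (.nd 192 (.lf 192 1 2) (.lf 189 2 4) (.nd 189 (.lf 180 2 4) (.lf 189 3 4) (.lf 179 2 4))) (.nd 199 (.nd 184 (.lf 179 1 2) (.lf 184 3 4) (.lf 176 3 4)) (.lf 199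 2 4) (.nd 189 (.lf 189 1 2) (.lf 156 2 4) (.lf 185 2 4))) (.nd 200 (.lf 189 1 2) (.lf 200 2 4) (.lf 197 1 2))) (.lf 194 1 2) (.nd 202 (.lf 164 2 4) (.lf 189 2 4) (.nd 202 (.lf 188 2 4) (.nd 201 (.lf 201 2 4) (.lf 200 1 2) (.lf 195 2 4)) (.nd 202 (.lf 188 2 4) (.lf 184 2 4) (.nd 202 (.lf 188 1 2) (.lf 202 2 4) (.lf 202 2 4)))))) (.nd 208 (.lf 208 1 2) (.nd 208 (.nd 189 (.nd 189 (.lf 181 2 4) (.lf 189 1 2) (.lf 161 1 2)) (.lf 189 1 2) (.lf 189 3 4)) (.nd 204 (.nd 204 (.lf 185 2 4) (.lf 184 2 4) (.lf 204 3 4)) (.lf 197 2 4) (.lf 204 2 4)) (.nd 208 (.lf 204 1 2) (.lf 205 1 2) (.nd 208 (.lf 208 3 4) (.nd 205 (.lf 197 2 4) (.lf 203 1 2) (.lf 205 1 2)) (.lf 202 1 2)))) (.nd 203 (.lf 175 1 2) (.nd 203 (.lf 200 1 2) (.lf 200 1 2) (.nd 203 (.lf 193 2 4) (.lf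 189 2 4) (.lf 203 1 2))) (.lf 189 1 2)))) (.nd 211 (.nd 211 (.nd 211 (.lf 205 1 2) (.lf 211 1 2) (.lf 170 1 2)) (.nd 208 (.lf 208 1 2) (.lf 195 1 2) (.nd 200 (.lf 192 2 4) (.lf 200 1 2) (.lf 191 1 2))) (.lf 202 1 2)) (.nd 206 (.nd 203 (.lf 163 2 4) (.nd 203 (.lf 200 2 4) (.lf 203 1 2) (.lf 185 2 4)) (.lf 191 2 4)) (.lf 193 2 4) (.lf 206 1 2)) (.nd 208 (.nd 201 (.lf 189 2 4) (.lf 188 2 4) (.lf 201 1 2)) (.nd 199 (.lf 194 1 2) (.nd 199 (.lf 199 1 2) (.nd 199 (.lf 199 1 2) (.nd 199 (.lf 199 1 2) (.lf 199 1 2) (.lf 199 1 2)) (.lf 199 1 2)) (.lf 199 1 2)) (.lf 170 1 2)) (.nd 208 (.lf 205 1 2) (.nd 208 (.nd 207 (.lf 207 2 4) (.lf 205 1 2) (.lf 203 1 2)) (.lf 208 1 2) (.lf 207 1 2)) (.lf 197 1 2)))) (.nd 213 (.lf 194 1 2) (.nd 211 (.lf 201 1 2) (.nd 205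 (.nd 196 (.lf 170 1 2) (.nd 196 (.lf 196 1 2) (.lf 164 2 4) (.lf 196 1 2)) (.lf 167 1 2)) (.lf 205 1 2) (.lf 168 1 2)) (.nd 211 (.lf 198 1 2) (.lf 211 1 2) (.lf 200 1 2))) (.nd 213 (.nd 211 (.lf 203 1 2) (.lf 195 1 2) (.nd 211 (.lf 187 2 4) (.lf 202 1 2) (.lf 211 2 4))) (.nd 213 (.lf 203 1 2) (.lf 213 1 2) (.lf 173 1 2)) (.lf 206 1 2)))) (.nd 212 (.nd 212 (.nd 208 (.lf 194 3 4) (.lf 195 1 2) (.nd 208 (.nd 194 (.nd 194 (.lf 182 1 2) (.lf 159 1 2) (.lf 194 2 4)) (.lf 189 1 2) (.lf 192 3 4)) (.lf 206 1 2) (.nd 208 (.lf 208 3 4) (.lf 199 1 2) (.lf 199 1 2)))) (.lf 203 1 2) (.nd 212 (.lf 206 3 4) (.nd 212 (.nd 212 (.lf 191 1 2) (.nd 212 (.lf 207 3 4) (.lf 212 1 2) (.lf 210 1 2)) (.lf 204 1 2)) (.nd 209 (.nd 208 (.lf 208 1 2) (.lf 189 3 4) (.lf 176 3 4))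 (.lf 209 3 4) (.nd 209 (.lf 203 1 2) (.nd 203 (.lf 203 1 2) (.lf 185 2 4) (.lf 195 1 2)) (.lf 209 3 4))) (.lf 207 1 2)) (.nd 190 (.lf 180 1 2) (.lf 165 3 4) (.lf 190 1 2)))) (.nd 211 (.lf 169 1 2) (.nd 211 (.lf 189 1 2) (.lf 196 1 2) (.nd 211 (.lf 211 1 2) (.lf 200 1 2) (.lf 199 1 2))) (.lf 183 1 2)) (.lf 197 1 2))) (.nd 213 (.nd 196 (.nd 196 (.lf 183 1 2) (.lf 196 1 2) (.lf 177 1 2)) (.lf 180 1 2) (.lf 155 1 2)) (.nd 190 (.nd 190 (.lf 185 1 2) (.nd 190 (.nd 189 (.lf 189 3 4) (.lf 184 1 2) (.lf 160 3 4)) (.lf 190 1 2) (.lf 182 1 2)) (.lf 186 1 2)) (.lf 175 1 2) (.lf 171 1 2)) (.nd 213 (.nd 210 (.nd 210 (.nd 197 (.lf 167 2 4) (.lf 192 1 2) (.nd 197 (.lf 167 2 4) (.lf 162 2 4) (.lf 197 1 2))) (.nd 199 (.lf 199 2 4) (.lf 193 2 4) (.nd 199 (.nd 190 (.lf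 190 3 4) (.lf 161 3 4) (.lf 190 2 4)) (.lf 189 3 4) (.nd 199 (.nd 197 (.lf 193 1 2) (.lf 196 3 4) (.lf 197 3 4)) (.nd 198 (.lf 182 2 4) (.lf 187 3 4) (.lf 198 2 4)) (.nd 199 (.lf 199 3 4) (.lf 199 3 4) (.lf 199 3 4))))) (.nd 210 (.lf 192 1 2) (.nd 210 (.lf 198 1 2) (.nd 210 (.lf 210 2 4) (.lf 193 1 2) (.lf 199 1 2)) (.lf 200 1 2)) (.lf 198 1 2))) (.lf 191 1 2) (.lf 197 1 2)) (.nd 213 (.nd 210 (.lf 209 1 2) (.nd 210 (.lf 195 1 2) (.nd 210 (.lf 207 1 2) (.nd 210 (.lf 204 1 2) (.lf 174 1 2) (.lf 210 2 4)) (.nd 204 (.lf 194 3 4) (.lf 194 3 4) (.lf 204 1 2))) (.nd 206 (.lf 206 1 2) (.lf 192 3 4) (.nd 201 (.lf 201 1 2) (.lf 164 3 4) (.lf 192 3 4)))) (.nd 210 (.lf 209 1 2) (.lf 207 1 2) (.nd 210 (.lf 192 3 4) (.lf 209 1 2) (.nd 210 (.lf 210 2 4) (.lf 206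 1 2) (.lf 171 1 2))))) (.nd 210 (.nd 210 (.nd 210 (.nd 199 (.lf 194 3 4) (.lf 199 1 2) (.lf 197 3 4)) (.lf 195 3 4) (.lf 210 1 2)) (.lf 189 1 2) (.lf 195 1 2)) (.lf 199 1 2) (.nd 210 (.nd 209 (.nd 209 (.lf 169 2 4) (.lf 209 3 4) (.lf 197 2 4)) (.lf 197 2 4) (.lf 206 1 2)) (.lf 197 1 2) (.lf 210 1 2))) (.nd 213 (.lf 213 1 2) (.lf 198 1 2) (.nd 206 (.lf 170 1 2) (.lf 184 1 2) (.nd 206 (.lf 197 1 2) (.lf 190 1 2) (.nd 206 (.lf 201 1 2) (.lf 206 3 4) (.lf 200 1 2)))))) (.nd 205 (.lf 201 1 2) (.nd 205 (.nd 205 (.nd 205 (.nd 196 (.lf 195 1 2) (.lf 189 2 4) (.lf 196 2 4)) (.lf 205 1 2) (.lf 190 2 4)) (.lf 168 2 4) (.lf 196 2 4)) (.nd 196 (.lf 196 1 2) (.lf 173 1 2) (.nd 195 (.lf 195 1 2) (.nd 195 (.lf 186 1 2) (.lf 195 2 4) (.lf 187 1 2)) (.lf 180 2 4)))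 (.lf 196 2 4)) (.lf 191 1 2)))) (.nd 214 (.nd 190 (.nd 169 (.nd 169 (.lf 159 1 2) (.nd 159 (.lf 120 1 2) (.lf 148 1 2) (.nd 159 (.nd 159 (.lf 148 1 2) (.lf 159 3 4) (.lf 146 1 2)) (.lf 157 1 2) (.lf 142 1 2))) (.nd 169 (.lf 166 1 2) (.lf 166 1 2) (.nd 169 (.lf 169 1 2) (.lf 169 1 2) (.nd 158 (.nd 155 (.lf 135 1 2) (.lf 155 3 4) (.lf 149 1 2)) (.lf 126 1 2) (.lf 158 1 2))))) (.lf 159 1 2) (.lf 154 1 2)) (.nd 190 (.nd 189 (.lf 182 1 2) (.nd 189 (.nd 181 (.lf 171 1 2) (.lf 164 1 2) (.nd 181 (.lf 181 1 2) (.lf 168 2 4) (.lf 181 1 2))) (.nd 184 (.lf 152 1 2) (.lf 184 1 2) (.nd 181 (.lf 175 1 2) (.lf 161 1 2) (.lf 181 2 4))) (.nd 189 (.lf 186 1 2) (.lf 189 1 2) (.lf 185 2 4))) (.nd 187 (.nd 187 (.lf 177 1 2) (.lf 168 1 2) (.lf 187 1 2)) (.lf 177 1 2) (.lf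 178 1 2))) (.lf 179 1 2) (.nd 190 (.lf 146 1 2) (.lf 174 1 2) (.lf 190 1 2))) (.nd 174 (.lf 155 1 2) (.lf 154 1 2) (.lf 174 1 2))) (.nd 214 (.lf 208 1 2) (.nd 214 (.nd 214 (.lf 194 1 2) (.lf 214 1 2) (.nd 209 (.lf 209 1 2) (.lf 185 1 2) (.lf 186 1 2))) (.lf 172 1 2) (.nd 195 (.lf 174 1 2) (.nd 195 (.lf 195 1 2) (.nd 192 (.lf 191 1 2) (.nd 192 (.lf 192 2 4) (.lf 164 1 2) (.lf 166 2 4)) (.lf 188 1 2)) (.lf 195 1 2)) (.lf 171 1 2))) (.nd 214 (.nd 210 (.lf 203 1 2) (.nd 204 (.lf 204 1 2) (.lf 183 1 2) (.lf 185 1 2)) (.nd 210 (.lf 194 1 2) (.lf 210 1 2) (.lf 203 1 2))) (.lf 206 1 2) (.lf 214 1 2))) (.nd 200 (.lf 181 1 2) (.lf 180 1 2) (.nd 200 (.lf 200 1 2) (.lf 189 1 2) (.lf 196 1 2)))))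

def t15_34 : Tr := (.nd 306 (.nd 255 (.lf 255 1 3) (.nd 226 (.nd 220 (.lf 220 1 3) (.nd 198 (.nd 166 (.nd 135 (.lf 129 1 3) (.lf 135 1 3) (.lf 129 1 3)) (.lf 136 1 3) (.lf 166 1 3)) (.lf 198 1 3) (.lf 171 1 3)) (.lf 169 1 3)) (.nd 197 (.lf 197 1 3) (.nd 168 (.nd 166 (.lf 166 1 3) (.lf 156 1 3) (.lf 129 1 3)) (.lf 159 1 3) (.lf 168 1 3)) (.lf 197 1 3)) (.lf 226 1 3)) (.lf 250 1 3)) (.nd 306 (.nd 291 (.lf 268 1 3) (.lf 291 1 3) (.nd 269 (.lf 250 1 3) (.lf 269 1 3) (.nd 251 (.lf 251 1 3) (.lf 246 1 3) (.nd 199 (.lf 199 1 3) (.nd 170 (.lf 141 1 3) (.lf 170 1 3) (.lf 164 1 3)) (.lf 194 1 3))))) (.lf 306 1 3) (.lf 277 1 3)) (.nd 281 (.nd 254 (.nd 224 (.lf 172 1 3) (.nd 219 (.lf 171 1 3) (.lf 174 1 3) (.lf 219 1 3)) (.lf 224 1 3)) (.lf 254 1 3) (.nd 221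 (.lf 221 1 3) (.lf 192 1 3) (.nd 184 (.lf 168 1 3) (.nd 171 (.lf 129 1 3) (.lf 157 1 3) (.lf 171 1 3)) (.lf 184 1 3)))) (.lf 281 1 3) (.lf 259 1 3)))

def t15_35 : Tr := (.nd 296 (.lf 296 1 4) (.nd 273 (.nd 255 (.nd 203 (.nd 198 (.lf 198 1 4) (.lf 146 1 4) (.lf 174 1 4)) (.nd 203 (.lf 186 1 4) (.lf 195 1 4) (.nd 203 (.lf 177 1 4) (.lf 203 1 4) (.lf 177 1 4))) (.lf 174 1 4)) (.lf 255 1 4) (.lf 250 1 4)) (.lf 254 1 4) (.lf 273 1 4)) (.nd 272 (.lf 252 1 4) (.nd 272 (.nd 259 (.nd 252 (.nd 246 (.lf 246 1 4) (.nd 203 (.lf 203 1 4) (.lf 175 1 4) (.lf 172 1 4)) (.lf 198 1 4)) (.lf 201 1 4) (.lf 252 1 4)) (.lf 250 1 4) (.lf 259 1 4)) (.lf 258 1 4) (.lf 272 1 4)) (.nd 247 (.lf 247 1 4) (.nd 229 (.lf 229 1 4) (.nd 224 (.lf 179 1 4) (.lf 176 1 4) (.lf 224 1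 4)) (.lf 177 1 4)) (.lf 228 1 4))))

def t15_37 : Tr := (.nd 152 (.nd 128 (.nd 128 (.nd 128 (.lf 108 1 1) (.lf 126 1 1) (.nd 128 (.lf 96 1 1) (.lf 117 1 1) (.lf 128 1 1))) (.nd 123 (.nd 97 (.nd 97 (.lf 94 1 1) (.lf 97 1 1) (.lf 90 1 1)) (.lf 73 1 1) (.lf 70 1 1)) (.lf 71 1 1) (.lf 123 1 1)) (.nd 107 (.lf 83 1 1) (.lf 91 1 1) (.lf 107 1 1))) (.nd 124 (.lf 83 1 1) (.nd 101 (.lf 82 1 1) (.nd 101 (.lf 101 1 1) (.lf 71 1 1) (.lf 70 1 1)) (.lf 82 1 1)) (.nd 124 (.lf 124 1 1) (.lf 114 1 1) (.lf 101 1 1))) (.nd 120 (.nd 94 (.lf 87 1 1) (.lf 65 1 1) (.lf 94 1 1)) (.lf 115 1 1) (.lf 120 1 1))) (.nd 152 (.nd 138 (.nd 136 (.nd 133 (.lf 123 1 1) (.nd 133 (.lf 133 1 1) (.lf 121 1 1) (.lf 128 1 1)) (.lf 119 1 1)) (.lf 127 1 1) (.nd 136 (.lf 123 1 1) (.lf 123 1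 1) (.nd 136 (.lf 136 1 1) (.lf 131 1 1) (.lf 126 1 1)))) (.nd 138 (.nd 136 (.lf 136 1 1) (.lf 126 1 1) (.lf 124 1 1)) (.nd 138 (.nd 138 (.lf 120 1 1) (.lf 126 1 1) (.nd 138 (.lf 138 1 1) (.lf 126 1 1) (.lf 116 1 1))) (.lf 120 1 1) (.lf 91 1 1)) (.lf 118 1 1)) (.lf 133 1 1)) (.nd 151 (.nd 150 (.lf 136 1 1) (.nd 143 (.lf 98 1 1) (.lf 128 1 1) (.lf 143 1 1)) (.nd 150 (.lf 150 1 1) (.lf 145 1 1) (.lf 141 1 1))) (.nd 151 (.lf 151 1 1) (.nd 150 (.nd 150 (.lf 142 1 1) (.lf 141 1 1) (.lf 150 1 1)) (.lf 142 1 1) (.lf 134 1 1)) (.nd 145 (.lf 140 1 1) (.nd 145 (.lf 112 1 1) (.lf 138 1 1) (.lf 145 1 1)) (.lf 129 1 1))) (.nd 144 (.lf 119 1 1) (.lf 143 1 1) (.lf 144 1 1))) (.nd 152 (.nd 137 (.nd 99 (.lf 95 1 1) (.lf 99 1 1) (.nd 95 (.lf 80 1 1) (.lf 95 1 1) (.lf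 67 1 1))) (.lf 110 1 1) (.nd 137 (.nd 137 (.lf 128 1 1) (.nd 137 (.lf 130 1 1) (.lf 137 1 1) (.lf 135 1 1)) (.lf 137 1 1)) (.lf 120 1 1) (.lf 130 1 1))) (.nd 152 (.lf 126 1 1) (.nd 152 (.lf 146 1 1) (.lf 152 1 1) (.lf 132 1 1)) (.nd 130 (.lf 96 1 1) (.lf 110 1 1) (.nd 130 (.lf 113 1 1) (.lf 108 1 1) (.lf 130 1 1)))) (.nd 126 (.lf 111 1 1) (.nd 125 (.lf 125 1 1) (.lf 95 1 1) (.lf 125 1 1)) (.nd 126 (.lf 118 1 1) (.lf 126 1 1) (.lf 95 1 1))))) (.nd 126 (.nd 121 (.lf 92 1 1) (.nd 111 (.lf 95 1 1) (.nd 111 (.lf 93 1 1) (.nd 111 (.lf 111 1 1) (.lf 89 1 1) (.lf 99 1 1)) (.lf 108 1 1)) (.lf 68 1 1)) (.nd 121 (.lf 108 1 1) (.lf 116 1 1) (.nd 121 (.lf 100 1 1) (.lf 95 1 1) (.lf 121 1 1)))) (.nd 126 (.lf 115 1 1) (.nd 100 (.lf 92 1 1) (.nd 100 (.lf 92 1 1)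 (.lf 97 1 1) (.lf 100 1 1)) (.lf 89 1 1)) (.nd 126 (.lf 126 1 1) (.lf 118 1 1) (.lf 106 1 1))) (.nd 109 (.nd 109 (.nd 109 (.lf 97 1 1) (.lf 97 1 1) (.nd 109 (.lf 93 1 1) (.lf 92 1 1) (.lf 109 1 1))) (.nd 106 (.nd 106 (.lf 106 1 1) (.lf 93 1 1) (.lf 92 1 1)) (.lf 78 1 1) (.lf 102 1 1)) (.lf 95 1 1)) (.lf 78 1 1) (.lf 94 1 1))))

def t15_38 : Tr := (.nd 150 (.nd 150 (.nd 125 (.nd 92 (.lf 92 2 2) (.nd 72 (.lf 35 2 2) (.nd 72 (.nd 71 (.lf 56 2 2) (.nd 71 (.nd 71 (.lf 71 1 2) (.lf 70 1 2) (.lf 61 2 2)) (.lf 54 1 2) (.lf 68 1 2)) (.lf 63 2 2)) (.lf 56 1 2) (.lf 72 2 2)) (.lf 63 2 2)) (.lf 63 2 2)) (.nd 115 (.lf 91 2 2) (.lf 94 2 2) (.nd 115 (.nd 115 (.nd 96 (.lf 95 2 2) (.lf 89 1 2) (.lf 96 2 2)) (.lf 98 2 2) (.lf 115 2 2)) (.nd 111 (.lf 111 1 2) (.lf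 108 2 2) (.lf 111 2 2)) (.nd 114 (.lf 114 2 2) (.lf 111 2 2) (.nd 113 (.lf 84 1 2) (.lf 113 2 2) (.nd 110 (.lf 110 2 2) (.lf 106 2 2) (.lf 106 1 2)))))) (.nd 125 (.nd 125 (.lf 120 2 2) (.nd 125 (.nd 122 (.lf 122 1 2) (.lf 118 2 2) (.nd 105 (.lf 105 1 2) (.lf 91 2 2) (.lf 102 2 2))) (.lf 125 1 2) (.lf 111 1 2)) (.lf 118 2 2)) (.nd 118 (.lf 105 2 2) (.lf 85 1 2) (.nd 118 (.lf 118 2 2) (.lf 110 1 2) (.lf 112 2 2))) (.nd 90 (.lf 82 1 2) (.nd 89 (.lf 83 1 2) (.nd 89 (.lf 85 2 2) (.lf 79 1 2) (.nd 89 (.lf 80 2 2) (.lf 89 1 2) (.lf 84 2 2))) (.lf 56 1 2)) (.lf 90 2 2)))) (.nd 150 (.nd 150 (.nd 149 (.lf 140 1 2) (.nd 149 (.nd 149 (.lf 140 2 2) (.lf 149 2 2) (.lf 137 1 2)) (.lf 112 1 2) (.lf 139 1 2)) (.nd 149 (.lf 149 2 2) (.nd 141 (.nd 134 (.lf 133 2 2)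 (.lf 106 1 2) (.lf 134 1 2)) (.nd 141 (.lf 111 2 2) (.lf 141 2 2) (.nd 141 (.lf 110 2 2) (.lf 141 1 2) (.lf 113 2 2))) (.lf 138 1 2)) (.lf 132 2 2))) (.nd 149 (.lf 149 2 2) (.lf 135 2 2) (.lf 144 1 2)) (.nd 150 (.lf 132 1 2) (.lf 136 2 2) (.nd 150 (.lf 150 1 2) (.lf 132 2 2) (.lf 126 2 2)))) (.nd 148 (.nd 148 (.nd 135 (.lf 135 2 2) (.lf 127 1 2) (.lf 129 2 2)) (.nd 148 (.nd 147 (.nd 147 (.lf 147 2 2) (.lf 131 1 2) (.lf 133 1 2)) (.lf 147 2 2) (.lf 140 1 2)) (.nd 148 (.lf 148 2 2) (.lf 137 2 2) (.nd 148 (.lf 116 1 2) (.lf 135 2 2) (.lf 148 2 2))) (.nd 148 (.lf 136 2 2) (.nd 148 (.lf 148 1 2) (.lf 108 2 2) (.lf 122 2 2)) (.nd 147 (.nd 147 (.lf 145 2 2) (.lf 129 2 2) (.lf 147 1 2)) (.lf 142 2 2) (.lf 147 2 2)))) (.nd 139 (.lf 115 1 2) (.lf 129 2 2)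 (.lf 139 2 2))) (.nd 129 (.nd 93 (.lf 64 2 2) (.lf 88 2 2) (.lf 93 2 2)) (.lf 129 2 2) (.lf 118 2 2)) (.lf 130 2 2)) (.nd 148 (.nd 120 (.nd 120 (.lf 120 2 2) (.nd 120 (.lf 118 2 2) (.nd 120 (.lf 113 1 2) (.lf 118 2 2) (.lf 120 2 2)) (.nd 116 (.lf 116 1 2) (.lf 115 2 2) (.lf 116 2 2))) (.lf 117 2 2)) (.nd 112 (.nd 93 (.lf 93 2 2) (.lf 88 2 2) (.lf 41 2 2)) (.nd 92 (.lf 92 2 2) (.lf 61 2 2) (.lf 63 2 2)) (.lf 112 2 2)) (.lf 115 2 2)) (.nd 148 (.nd 148 (.nd 148 (.lf 148 2 2) (.nd 147 (.lf 144 1 2) (.lf 147 2 2) (.lf 138 1 2)) (.lf 146 2 2)) (.lf 148 2 2) (.lf 144 2 2)) (.lf 146 2 2) (.nd 147 (.lf 138 2 2) (.nd 147 (.nd 137 (.nd 137 (.lf 128 1 2) (.lf 137 1 2) (.lf 136 2 2)) (.lf 136 2 2) (.lf 136 2 2)) (.lf 147 2 2) (.lf 132 2 2)) (.lf 110 2 2))) (.lf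 138 2 2))) (.nd 120 (.nd 112 (.lf 95 2 2) (.lf 91 2 2) (.nd 112 (.lf 112 2 2) (.nd 100 (.lf 82 2 2) (.lf 100 2 2) (.lf 83 2 2)) (.lf 103 2 2))) (.nd 120 (.nd 118 (.nd 118 (.nd 104 (.lf 100 2 2) (.lf 104 1 2) (.lf 99 2 2)) (.lf 118 2 2) (.lf 117 1 2)) (.lf 108 1 2) (.lf 100 1 2)) (.nd 120 (.nd 116 (.nd 116 (.lf 116 1 2) (.lf 76 2 2) (.lf 102 2 2)) (.lf 87 1 2) (.lf 90 1 2)) (.nd 120 (.nd 118 (.lf 101 1 2) (.lf 102 1 2) (.lf 118 2 2)) (.lf 110 1 2) (.lf 120 2 2)) (.lf 88 1 2)) (.nd 117 (.nd 117 (.nd 117 (.lf 113 2 2) (.nd 117 (.lf 111 2 2) (.lf 117 1 2) (.lf 103 1 2)) (.nd 116 (.lf 115 2 2) (.lf 114 1 2) (.lf 116 1 2))) (.lf 116 2 2) (.lf 111 2 2)) (.lf 112 2 2) (.lf 107 2 2))) (.nd 108 (.nd 107 (.nd 107 (.lf 94 2 2) (.lf 93 2 2) (.nd 107 (.lf 107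 1 2) (.nd 105 (.lf 104 2 2) (.lf 58 1 2) (.lf 105 1 2)) (.lf 104 2 2))) (.lf 88 2 2) (.lf 103 2 2)) (.lf 108 2 2) (.lf 63 2 2)))) (.nd 141 (.nd 133 (.nd 87 (.nd 87 (.lf 79 1 2) (.nd 87 (.lf 61 1 2) (.lf 87 1 2) (.lf 61 1 2)) (.lf 70 1 2)) (.lf 58 1 2) (.nd 82 (.lf 30 1 2) (.lf 58 1 2) (.nd 82 (.lf 67 1 2) (.lf 52 1 2) (.lf 82 1 2)))) (.nd 133 (.nd 115 (.nd 101 (.lf 101 1 2) (.lf 83 1 2) (.lf 82 1 2)) (.lf 100 1 2) (.nd 115 (.lf 113 1 2) (.lf 107 1 2) (.nd 115 (.lf 114 1 2) (.lf 103 2 2) (.lf 115 1 2)))) (.nd 133 (.nd 115 (.lf 115 1 2) (.lf 107 1 2) (.nd 111 (.lf 70 1 2) (.lf 111 1 2) (.lf 88 1 2))) (.lf 113 1 2) (.nd 133 (.nd 133 (.lf 115 2 2) (.lf 112 2 2) (.nd 133 (.lf 123 2 2) (.lf 120 2 2) (.nd 133 (.lf 133 1 2) (.lf 118 1 2) (.lf 120 2 2))))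 (.lf 125 1 2) (.nd 133 (.nd 133 (.lf 117 1 2) (.nd 133 (.lf 133 1 2) (.lf 119 1 2) (.lf 120 2 2)) (.lf 113 1 2)) (.lf 124 1 2) (.lf 113 1 2)))) (.lf 109 1 2)) (.nd 115 (.lf 86 1 2) (.nd 115 (.lf 115 1 2) (.lf 115 1 2) (.nd 115 (.lf 110 1 2) (.nd 115 (.lf 107 1 2) (.lf 110 1 2) (.nd 115 (.nd 115 (.lf 115 1 2) (.lf 111 2 2) (.lf 110 2 2)) (.lf 115 1 2) (.lf 105 1 2))) (.lf 106 1 2))) (.lf 91 1 2))) (.nd 119 (.nd 119 (.nd 113 (.lf 113 1 2) (.lf 84 1 2) (.nd 104 (.lf 52 1 2) (.lf 82 1 2) (.lf 104 1 2))) (.nd 119 (.lf 119 1 2) (.lf 107 1 2) (.nd 108 (.lf 77 1 2) (.lf 79 1 2) (.lf 108 1 2))) (.nd 113 (.lf 85 1 2) (.nd 105 (.lf 77 1 2) (.lf 78 1 2) (.lf 105 1 2)) (.nd 113 (.lf 82 1 2) (.lf 113 1 2) (.lf 83 1 2)))) (.nd 86 (.lf 79 1 2) (.lf 86 1 2) (.nd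 86 (.lf 86 1 2) (.lf 56 1 2) (.lf 29 1 2))) (.nd 109 (.lf 99 1 2) (.nd 109 (.nd 109 (.lf 109 1 2) (.lf 88 1 2) (.lf 89 1 2)) (.nd 98 (.lf 70 1 2) (.lf 98 1 2) (.lf 83 1 2)) (.lf 83 1 2)) (.lf 58 1 2))) (.nd 141 (.nd 135 (.nd 122 (.nd 122 (.nd 116 (.nd 116 (.lf 101 1 2) (.lf 116 1 2) (.lf 111 2 2)) (.lf 107 1 2) (.lf 79 1 2)) (.lf 109 1 2) (.lf 122 1 2)) (.nd 121 (.lf 121 1 2) (.lf 106 1 2) (.nd 113 (.lf 110 1 2) (.lf 113 2 2) (.lf 109 1 2))) (.nd 122 (.lf 112 1 2) (.nd 122 (.nd 122 (.lf 122 1 2) (.nd 122 (.lf 122 2 2) (.lf 111 1 2) (.lf 110 1 2)) (.lf 120 1 2)) (.lf 109 2 2) (.lf 114 2 2)) (.lf 120 1 2))) (.nd 135 (.lf 83 1 2) (.nd 135 (.lf 105 1 2) (.lf 120 1 2) (.lf 135 1 2)) (.lf 113 1 2)) (.nd 113 (.nd 105 (.lf 105 1 2) (.lf 54 1 2) (.lf 82 1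 2)) (.nd 113 (.lf 113 1 2) (.lf 92 1 2) (.lf 109 1 2)) (.nd 82 (.lf 57 1 2) (.lf 82 1 2) (.lf 82 1 2)))) (.nd 130 (.nd 130 (.nd 93 (.lf 69 1 2) (.lf 77 1 2) (.nd 93 (.lf 93 1 2) (.lf 86 1 2) (.nd 93 (.lf 84 2 2) (.lf 93 1 2) (.lf 81 2 2)))) (.nd 130 (.lf 117 1 2) (.lf 118 1 2) (.nd 130 (.lf 119 1 2) (.lf 130 1 2) (.nd 130 (.lf 97 1 2) (.lf 130 2 2) (.lf 123 1 2)))) (.lf 109 1 2)) (.nd 104 (.nd 104 (.lf 82 1 2) (.nd 104 (.nd 104 (.lf 104 1 2) (.nd 104 (.lf 104 2 2) (.lf 97 1 2) (.lf 71 1 2)) (.lf 93 1 2)) (.lf 91 1 2) (.nd 83 (.lf 60 2 2) (.nd 77 (.lf 77 1 2) (.lf 57 2 2) (.lf 62 2 2)) (.lf 83 1 2))) (.lf 83 1 2)) (.lf 92 1 2) (.lf 104 1 2)) (.nd 128 (.lf 113 1 2) (.nd 114 (.nd 109 (.lf 61 1 2) (.lf 64 1 2) (.nd 109 (.lf 109 1 2) (.lf 90 1 2) (.lf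 90 1 2))) (.lf 114 1 2) (.lf 62 1 2)) (.nd 128 (.nd 117 (.lf 91 2 2) (.lf 114 1 2) (.lf 117 2 2)) (.lf 122 1 2) (.nd 128 (.lf 128 1 2) (.nd 127 (.lf 120 2 2) (.lf 120 1 2) (.lf 127 1 2)) (.lf 119 1 2))))) (.nd 141 (.nd 141 (.nd 125 (.lf 120 1 2) (.nd 125 (.lf 114 2 2) (.lf 125 1 2) (.lf 119 2 2)) (.lf 117 2 2)) (.nd 134 (.lf 133 2 2) (.lf 134 1 2) (.lf 129 1 2)) (.nd 141 (.lf 141 1 2) (.nd 134 (.lf 120 1 2) (.nd 128 (.lf 122 1 2) (.lf 128 2 2) (.lf 128 1 2)) (.lf 134 1 2)) (.nd 140 (.lf 140 2 2) (.lf 138 1 2) (.lf 136 1 2)))) (.nd 123 (.lf 108 1 2) (.lf 123 1 2) (.lf 110 1 2)) (.nd 123 (.lf 88 1 2) (.lf 112 1 2) (.lf 123 1 2))))) (.nd 133 (.nd 133 (.nd 133 (.nd 132 (.nd 131 (.lf 124 2 2) (.nd 131 (.lf 131 1 2) (.lf 126 2 2) (.lf 126 2 2)) (.nd 130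 (.lf 126 2 2) (.lf 119 1 2) (.lf 130 2 2))) (.lf 128 2 2) (.nd 132 (.lf 106 2 2) (.lf 132 2 2) (.lf 106 1 2))) (.lf 133 2 2) (.lf 124 2 2)) (.nd 117 (.lf 117 2 2) (.lf 88 2 2) (.lf 86 2 2)) (.nd 118 (.lf 66 2 2) (.nd 106 (.nd 106 (.nd 106 (.lf 88 2 2) (.lf 85 2 2) (.nd 106 (.lf 89 2 2) (.lf 106 1 2) (.lf 87 2 2))) (.lf 94 2 2) (.lf 94 2 2)) (.lf 65 2 2) (.lf 68 2 2)) (.nd 118 (.lf 118 2 2) (.lf 103 2 2) (.lf 88 2 2)))) (.nd 129 (.nd 129 (.nd 129 (.nd 129 (.nd 121 (.lf 86 2 2) (.lf 116 2 2) (.lf 121 1 2)) (.lf 129 1 2) (.lf 120 2 2)) (.nd 127 (.lf 101 1 2) (.nd 126 (.nd 126 (.lf 126 2 2) (.lf 126 1 2) (.lf 126 1 2)) (.lf 125 1 2) (.lf 121 1 2)) (.lf 127 1 2)) (.lf 123 1 2)) (.nd 121 (.lf 88 1 2) (.nd 115 (.lf 87 1 2) (.lf 88 1 2) (.lf 115 1 2)) (.nd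 121 (.lf 121 1 2) (.nd 115 (.lf 99 1 2) (.lf 99 1 2) (.lf 115 1 2)) (.nd 121 (.nd 103 (.lf 60 2 2) (.lf 90 2 2) (.lf 103 1 2)) (.lf 121 1 2) (.lf 109 2 2)))) (.lf 122 1 2)) (.lf 113 1 2) (.nd 112 (.nd 112 (.lf 97 1 2) (.nd 90 (.nd 79 (.lf 56 1 2) (.lf 79 1 2) (.lf 43 1 2)) (.lf 90 1 2) (.lf 76 1 2)) (.nd 112 (.lf 97 1 2) (.lf 112 1 2) (.lf 89 1 2))) (.lf 81 1 2) (.lf 83 1 2))) (.nd 117 (.lf 104 2 2) (.nd 117 (.nd 86 (.lf 86 1 2) (.lf 55 1 2) (.lf 57 1 2)) (.lf 117 1 2) (.nd 87 (.lf 82 1 2) (.lf 35 1 2) (.lf 87 1 2))) (.nd 99 (.lf 96 2 2) (.lf 91 1 2) (.lf 99 2 2)))))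

def t15_40 : Tr := (.nd 186 (.nd 185 (.nd 160 (.nd 149 (.nd 149 (.lf 112 3 1) (.lf 149 3 1) (.lf 119 3 1)) (.nd 123 (.lf 97 3 1) (.nd 118 (.lf 118 3 1) (.lf 87 3 1) (.lf 88 3 1)) (.nd 123 (.lf 92 3 1) (.lf 123 3 1) (.lf 93 3 1))) (.nd 144 (.lf 114 3 1) (.lf 144 3 1) (.lf 113 3 1))) (.nd 156 (.lf 156 3 1) (.nd 124 (.nd 124 (.lf 124 3 1) (.nd 124 (.nd 120 (.nd 120 (.lf 120 3 1) (.lf 115 2 1) (.lf 118 2 1)) (.lf 120 3 1) (.lf 117 3 1)) (.lf 124 3 1) (.lf 116 3 1)) (.lf 117 3 1)) (.lf 110 3 1) (.lf 108 3 1)) (.lf 140 3 1)) (.nd 160 (.nd 160 (.nd 153 (.lf 153 3 1) (.lf 126 3 1) (.nd 136 (.lf 120 3 1) (.lf 136 3 1) (.lf 104 3 1))) (.lf 160 3 1) (.lf 159 3 1)) (.nd 145 (.nd 140 (.lf 140 3 1) (.lf 95 3 1) (.lf 92 3 1)) (.lf 93 3 1) (.lf 145 3 1)) (.nd 123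 (.lf 105 3 1) (.nd 123 (.lf 117 2 1) (.lf 123 3 1) (.lf 122 3 1)) (.lf 113 3 1)))) (.nd 184 (.nd 184 (.nd 174 (.lf 174 3 1) (.nd 168 (.nd 136 (.lf 89 3 1) (.lf 124 3 1) (.nd 136 (.lf 136 3 1) (.lf 91 3 1) (.lf 88 3 1))) (.lf 125 3 1) (.lf 168 3 1)) (.nd 158 (.lf 137 3 1) (.lf 158 3 1) (.nd 134 (.lf 115 3 1) (.lf 99 3 1) (.lf 134 3 1)))) (.lf 182 3 1) (.nd 184 (.lf 155 3 1) (.lf 166 3 1) (.nd 184 (.lf 159 3 1) (.lf 184 3 1) (.nd 160 (.lf 160 3 1) (.lf 151 3 1) (.lf 128 3 1))))) (.nd 150 (.lf 134 3 1) (.nd 150 (.nd 150 (.lf 150 3 1) (.lf 135 3 1) (.lf 130 3 1)) (.lf 140 2 1) (.nd 133 (.nd 110 (.lf 84 2 1) (.lf 110 3 1) (.lf 105 2 1)) (.nd 133 (.lf 133 3 1) (.lf 109 2 1) (.lf 114 2 1)) (.lf 132 3 1))) (.nd 134 (.lf 99 3 1) (.lf 85 3 1) (.nd 134 (.nd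 134 (.lf 115 3 1) (.nd 134 (.lf 126 3 1) (.lf 120 3 1) (.lf 134 3 1)) (.lf 116 3 1)) (.lf 110 3 1) (.lf 125 3 1)))) (.nd 166 (.lf 166 3 1) (.lf 114 3 1) (.nd 161 (.nd 161 (.nd 126 (.nd 126 (.lf 126 2 1) (.lf 118 3 1) (.lf 111 2 1)) (.nd 101 (.lf 91 2 1) (.lf 88 2 1) (.lf 101 3 1)) (.lf 89 2 1)) (.lf 138 2 1) (.lf 161 3 1)) (.lf 113 3 1) (.lf 116 3 1)))) (.nd 185 (.nd 162 (.nd 130 (.lf 130 3 1) (.lf 90 3 1) (.lf 116 3 1)) (.nd 162 (.nd 149 (.nd 149 (.lf 149 3 1) (.nd 149 (.lf 149 3 1) (.lf 130 3 1) (.lf 135 3 1)) (.lf 146 3 1)) (.lf 135 3 1) (.lf 113 3 1)) (.nd 148 (.lf 134 3 1) (.lf 137 3 1) (.lf 148 3 1)) (.nd 162 (.lf 146 3 1) (.nd 162 (.lf 162 3 1) (.nd 148 (.lf 148 3 1) (.lf 144 3 1) (.lf 137 3 1)) (.lf 151 3 1)) (.nd 147 (.nd 147 (.lf 113 3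 1) (.lf 103 3 1) (.lf 147 3 1)) (.lf 127 3 1) (.lf 137 3 1)))) (.nd 139 (.lf 115 3 1) (.nd 139 (.nd 139 (.lf 123 3 1) (.nd 139 (.lf 136 3 1) (.lf 123 3 1) (.lf 139 3 1)) (.lf 131 3 1)) (.lf 121 3 1) (.lf 124 3 1)) (.lf 106 3 1))) (.nd 185 (.nd 179 (.lf 179 3 1) (.lf 152 3 1) (.nd 162 (.lf 145 3 1) (.lf 146 3 1) (.lf 162 3 1))) (.lf 180 3 1) (.lf 185 3 1)) (.nd 171 (.lf 171 3 1) (.nd 149 (.lf 149 3 1) (.lf 121 3 1) (.lf 118 3 1)) (.lf 119 3 1)))) (.nd 185 (.nd 173 (.nd 116 (.lf 111 3 1) (.lf 116 2 1) (.nd 116 (.nd 76 (.lf 76 2 1) (.lf 54 3 1) (.nd 76 (.lf 54 3 1) (.lf 76 2 1) (.lf 26 3 1))) (.lf 116 2 1) (.lf 111 3 1))) (.lf 171 3 1) (.nd 173 (.lf 147 2 1) (.nd 144 (.lf 111 2 1) (.lf 114 2 1) (.lf 144 2 1)) (.lf 173 2 1))) (.nd 167 (.nd 144 (.lf 115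 2 1) (.nd 144 (.lf 135 2 1) (.lf 144 2 1) (.nd 139 (.lf 111 2 1) (.lf 139 2 1) (.lf 131 2 1))) (.lf 144 2 1)) (.nd 167 (.lf 167 2 1) (.nd 116 (.lf 116 2 1) (.lf 109 2 1) (.nd 87 (.lf 79 2 1) (.lf 87 2 1) (.lf 76 2 1))) (.lf 145 2 1)) (.nd 159 (.nd 159 (.nd 156 (.lf 156 2 1) (.lf 110 2 1) (.nd 140 (.lf 109 2 1) (.lf 114 2 1) (.nd 140 (.lf 140 2 1) (.lf 120 3 1) (.lf 116 3 1)))) (.nd 159 (.lf 159 2 1) (.nd 158 (.lf 117 3 1) (.lf 114 3 1) (.lf 158 2 1)) (.lf 115 3 1)) (.nd 135 (.lf 132 2 1) (.lf 109 2 1) (.lf 135 3 1))) (.lf 157 3 1) (.lf 154 2 1))) (.nd 185 (.lf 184 3 1) (.nd 185 (.lf 167 3 1) (.nd 185 (.lf 185 3 1) (.lf 161 3 1) (.nd 160 (.lf 110 3 1) (.nd 157 (.lf 104 3 1) (.lf 112 3 1) (.lf 157 3 1)) (.lf 160 3 1))) (.nd 166 (.nd 137 (.lf 137 3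 1) (.lf 104 3 1) (.nd 127 (.lf 105 3 1) (.lf 127 3 1) (.lf 76 3 1))) (.lf 166 3 1) (.lf 141 2 1))) (.nd 161 (.lf 111 3 1) (.lf 157 2 1) (.lf 161 3 1)))) (.nd 186 (.nd 185 (.nd 185 (.nd 185 (.nd 185 (.lf 185 2 1) (.lf 159 2 1) (.lf 174 3 1)) (.lf 176 2 1) (.nd 177 (.lf 177 2 1) (.lf 160 3 1) (.lf 174 3 1))) (.lf 179 2 1) (.lf 176 2 1)) (.nd 171 (.lf 119 2 1) (.lf 171 2 1) (.nd 166 (.nd 166 (.lf 147 2 1) (.lf 120 3 1) (.nd 166 (.lf 122 3 1) (.lf 166 2 1) (.lf 119 3 1))) (.lf 121 2 1) (.lf 118 2 1))) (.nd 168 (.lf 139 2 1) (.lf 168 2 1) (.lf 131 2 1))) (.nd 182 (.nd 175 (.lf 147 3 1) (.nd 144 (.nd 111 (.nd 74 (.lf 58 3 1) (.lf 61 3 1) (.nd 74 (.lf 61 3 1) (.lf 74 3 1) (.lf 67 3 1))) (.lf 111 3 1) (.lf 82 3 1)) (.lf 114 3 1) (.lf 144 3 1)) (.lf 175 2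 1)) (.lf 145 3 1) (.lf 182 3 1)) (.nd 186 (.nd 186 (.nd 180 (.nd 141 (.lf 136 3 1) (.nd 141 (.lf 124 3 1) (.lf 112 3 1) (.lf 141 3 1)) (.lf 112 3 1)) (.lf 180 3 1) (.nd 169 (.lf 132 3 1) (.lf 140 3 1) (.lf 169 3 1))) (.nd 176 (.lf 176 3 1) (.nd 153 (.lf 99 3 1) (.lf 153 3 1) (.lf 128 3 1)) (.lf 137 3 1)) (.nd 186 (.lf 186 3 1) (.lf 171 3 1) (.nd 170 (.lf 148 3 1) (.nd 170 (.lf 143 3 1) (.nd 142 (.lf 142 3 1) (.lf 106 3 1) (.lf 113 3 1)) (.lf 170 3 1)) (.lf 127 3 1)))) (.lf 179 3 1) (.lf 167 3 1))))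

def t15_41 : Tr := (.nd 183 (.nd 161 (.nd 144 (.lf 128 1 2) (.lf 144 1 2) (.lf 127 1 2)) (.lf 161 1 2) (.lf 134 1 2)) (.nd 168 (.nd 153 (.lf 114 1 2) (.lf 122 1 2) (.nd 153 (.lf 153 1 2) (.lf 132 1 2) (.lf 133 1 2))) (.nd 136 (.nd 132 (.lf 132 1 2) (.lf 101 1 2) (.nd 104 (.lf 104 1 2) (.nd 75 (.lf 75 1 2) (.lf 45 1 2) (.lf 44 1 2)) (.lf 75 1 2))) (.lf 136 1 2) (.nd 102 (.lf 73 1 2) (.lf 102 1 2) (.nd 97 (.lf 45 1 2) (.lf 97 1 2) (.lf 73 1 2)))) (.nd 168 (.nd 162 (.lf 137 1 2) (.lf 138 1 2) (.nd 162 (.lf 159 1 2) (.lf 162 1 2) (.lf 156 1 2))) (.nd 168 (.lf 158 1 2) (.nd 168 (.lf 146 1 2) (.lf 168 1 2) (.lf 160 1 2)) (.nd 161 (.lf 153 1 2) (.lf 159 1 2) (.lf 161 1 2))) (.nd 160 (.nd 138 (.lf 138 1 2) (.lf 123 1 2) (.lf 119 1 2)) (.lf 160 1 2) (.lf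 144 1 2)))) (.nd 183 (.nd 180 (.nd 141 (.lf 120 1 2) (.nd 141 (.lf 141 1 2) (.lf 128 1 2) (.lf 137 1 2)) (.lf 116 1 2)) (.nd 180 (.lf 161 1 2) (.nd 180 (.lf 166 1 2) (.nd 180 (.lf 171 1 2) (.lf 170 1 2) (.lf 180 1 2)) (.nd 166 (.lf 166 1 2) (.lf 165 1 2) (.lf 152 1 2))) (.lf 165 1 2)) (.nd 167 (.nd 167 (.lf 156 1 2) (.nd 167 (.lf 137 1 2) (.lf 143 1 2) (.lf 167 1 2)) (.lf 164 1 2)) (.lf 133 1 2) (.lf 144 1 2))) (.nd 163 (.lf 144 1 2) (.nd 158 (.lf 130 1 2) (.nd 158 (.lf 149 1 2) (.lf 141 1 2) (.lf 158 1 2)) (.lf 116 1 2)) (.nd 163 (.lf 150 1 2) (.lf 163 1 2) (.lf 161 1 2))) (.nd 183 (.nd 183 (.nd 165 (.nd 161 (.lf 161 1 2) (.lf 157 1 2) (.lf 144 1 2)) (.lf 146 1 2) (.lf 165 1 2)) (.nd 183 (.lf 161 1 2) (.nd 183 (.lf 161 1 2) (.lf 172 1 2) (.lf 183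 1 2)) (.lf 162 1 2)) (.lf 161 1 2)) (.nd 169 (.nd 169 (.lf 141 1 2) (.nd 159 (.lf 153 1 2) (.lf 159 1 2) (.lf 151 1 2)) (.lf 169 1 2)) (.nd 161 (.lf 161 1 2) (.lf 136 1 2) (.nd 161 (.lf 161 1 2) (.lf 112 1 2) (.lf 136 1 2))) (.nd 161 (.lf 161 1 2) (.nd 155 (.lf 155 1 2) (.lf 150 1 2) (.lf 147 1 2)) (.lf 157 1 2))) (.nd 159 (.nd 159 (.lf 153 1 2) (.lf 148 1 2) (.lf 159 1 2)) (.nd 158 (.lf 158 1 2) (.lf 151 1 2) (.lf 158 1 2)) (.lf 140 1 2)))))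

def t15_43 : Tr := (.nd 264 (.nd 235 (.nd 235 (.nd 214 (.nd 167 (.lf 162 4 5) (.lf 167 4 5) (.lf 138 4 5)) (.nd 204 (.nd 198 (.nd 195 (.lf 191 4 5) (.nd 195 (.lf 195 4 5) (.lf 174 4 5) (.lf 190 4 5)) (.lf 187 4 5)) (.lf 193 4 5) (.lf 198 1 3)) (.nd 189 (.lf 165 4 5) (.lf 187 4 5) (.lf 189 4 5)) (.lf 204 4 5)) (.lf 214 4 5)) (.nd 204 (.nd 189 (.lf 183 4 5) (.lf 189 4 5) (.lf 138 4 5)) (.nd 204 (.nd 204 (.lf 195 4 5) (.lf 203 4 5) (.nd 204 (.lf 196 4 5) (.lf 199 4 5) (.lf 204 1 3))) (.lf 203 4 5) (.lf 196 4 5)) (.lf 187 4 5)) (.nd 235 (.lf 213 1 3) (.nd 221 (.nd 208 (.lf 208 1 3) (.lf 180 4 5) (.lf 178 1 3)) (.lf 202 4 5) (.nd 221 (.lf 189 1 3) (.lf 198 1 3) (.nd 221 (.lf 205 1 3) (.lf 208 1 3) (.lf 221 1 3)))) (.lf 235 1 3))) (.nd 209 (.lf 183 1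 3) (.lf 180 1 3) (.nd 209 (.lf 209 1 3) (.lf 193 4 5) (.lf 192 4 5))) (.nd 188 (.lf 175 1 3) (.nd 176 (.lf 124 1 3) (.nd 171 (.lf 126 1 3) (.lf 171 1 3) (.lf 123 1 3)) (.lf 176 1 3)) (.nd 188 (.nd 184 (.lf 157 1 3) (.lf 184 1 3) (.lf 167 1 3)) (.lf 188 1 3) (.nd 187 (.lf 176 1 3) (.lf 187 1 3) (.lf 159 1 3))))) (.nd 232 (.nd 202 (.nd 202 (.lf 187 1 3) (.lf 172 1 3) (.nd 202 (.lf 178 1 3) (.lf 202 1 3) (.lf 176 1 3))) (.nd 150 (.lf 150 1 3) (.nd 145 (.lf 121 1 3) (.lf 93 1 3) (.lf 145 1 3)) (.lf 121 1 3)) (.nd 197 (.nd 152 (.lf 123 1 3) (.lf 152 1 3) (.lf 123 1 3)) (.nd 197 (.lf 197 1 3) (.lf 178 1 3) (.lf 178 1 3)) (.lf 149 1 3))) (.nd 232 (.nd 232 (.lf 229 1 3) (.lf 232 1 3) (.nd 212 (.nd 207 (.lf 179 1 3) (.lf 165 1 3) (.lf 207 1 3)) (.lf 193 1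 3) (.nd 212 (.lf 199 1 3) (.nd 210 (.lf 188 1 3) (.lf 210 1 3) (.lf 200 1 3)) (.nd 212 (.lf 190 4 5) (.lf 191 1 3) (.lf 212 1 3))))) (.nd 217 (.nd 217 (.lf 217 1 3) (.nd 211 (.nd 211 (.nd 208 (.lf 197 1 3) (.lf 169 1 3) (.lf 208 1 3)) (.lf 205 1 3) (.lf 211 1 3)) (.lf 187 1 3) (.lf 195 1 3)) (.nd 209 (.lf 187 1 3) (.lf 193 1 3) (.nd 209 (.lf 198 1 3) (.lf 195 1 3) (.lf 209 1 3)))) (.lf 185 1 3) (.nd 202 (.nd 202 (.lf 181 1 3) (.lf 202 1 3) (.lf 182 1 3)) (.lf 171 1 3) (.lf 163 1 3))) (.nd 208 (.nd 208 (.lf 204 1 3) (.nd 207 (.lf 194 1 3) (.nd 207 (.lf 207 1 3) (.lf 202 1 3) (.lf 190 1 3)) (.lf 168 1 3)) (.lf 208 1 3)) (.nd 196 (.lf 196 1 3) (.lf 177 1 3) (.lf 176 1 3)) (.lf 183 1 3))) (.nd 201 (.nd 201 (.lf 179 1 3) (.lf 186 1 3) (.nd 201 (.lf 178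 1 3) (.nd 201 (.lf 182 1 3) (.lf 179 1 3) (.nd 201 (.lf 182 1 3) (.lf 188 1 3) (.lf 201 1 3))) (.nd 186 (.lf 186 1 3) (.lf 163 1 3) (.nd 186 (.nd 177 (.lf 177 1 3) (.lf 163 1 3) (.lf 173 1 3)) (.lf 186 1 3) (.nd 168 (.lf 161 1 3) (.nd 168 (.lf 168 1 3) (.lf 153 4 5) (.lf 142 4 5)) (.lf 155 4 5)))))) (.nd 172 (.nd 172 (.nd 146 (.lf 146 1 3) (.lf 141 1 3) (.lf 117 1 3)) (.lf 161 1 3) (.lf 172 1 3)) (.nd 166 (.lf 166 1 3) (.lf 123 1 3) (.lf 118 1 3)) (.lf 121 1 3)) (.nd 170 (.nd 170 (.lf 155 1 3) (.lf 152 1 3) (.nd 170 (.lf 170 1 3) (.lf 159 1 3) (.lf 162 1 3))) (.lf 146 1 3) (.lf 149 1 3)))) (.nd 264 (.nd 225 (.nd 204 (.nd 204 (.lf 194 1 3) (.lf 204 4 5) (.lf 189 4 5)) (.nd 164 (.lf 135 4 5) (.lf 164 4 5) (.lf 157 4 5)) (.nd 187 (.lf 161 4 5) (.lf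 166 4 5) (.nd 187 (.lf 187 1 3) (.nd 187 (.lf 165 1 3) (.lf 137 1 3) (.lf 187 4 5)) (.lf 167 1 3)))) (.nd 225 (.nd 225 (.nd 220 (.nd 202 (.lf 187 4 5) (.lf 177 4 5) (.nd 202 (.lf 187 1 3) (.lf 190 1 3) (.lf 202 4 5))) (.lf 203 4 5) (.lf 220 4 5)) (.nd 225 (.lf 206 4 5) (.nd 205 (.lf 205 4 5) (.lf 196 4 5) (.lf 192 1 3)) (.nd 225 (.lf 225 1 3) (.lf 220 4 5) (.lf 221 1 3))) (.nd 225 (.lf 225 4 5) (.nd 216 (.lf 195 1 3) (.nd 204 (.lf 200 1 3) (.nd 204 (.lf 178 4 5) (.lf 204 4 5) (.lf 192 1 3)) (.lf 204 1 3)) (.nd 216 (.lf 194 1 3) (.lf 216 4 5) (.lf 197 1 3))) (.lf 222 4 5))) (.nd 223 (.lf 214 4 5) (.nd 223 (.nd 223 (.lf 223 4 5) (.lf 204 4 5) (.nd 199 (.lf 189 4 5) (.lf 189 4 5) (.lf 199 1 3))) (.nd 222 (.lf 194 4 5) (.lf 200 4 5) (.lf 222 4 5)) (.nd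 223 (.lf 223 4 5) (.nd 222 (.lf 222 1 3) (.lf 207 4 5) (.lf 221 4 5)) (.lf 223 4 5))) (.nd 196 (.lf 163 4 5) (.nd 196 (.lf 196 4 5) (.nd 194 (.lf 189 4 5) (.lf 194 1 3) (.lf 191 4 5)) (.lf 185 4 5)) (.lf 193 4 5))) (.nd 222 (.nd 211 (.lf 175 4 5) (.lf 188 4 5) (.lf 211 4 5)) (.lf 222 4 5) (.nd 208 (.lf 189 4 5) (.lf 188 4 5) (.lf 208 4 5)))) (.nd 211 (.nd 211 (.nd 211 (.lf 202 4 5) (.lf 211 1 3) (.lf 205 4 5)) (.lf 195 4 5) (.lf 198 4 5)) (.lf 192 4 5) (.lf 189 4 5))) (.nd 264 (.nd 264 (.nd 245 (.lf 245 1 3) (.lf 245 1 3) (.lf 199 1 3)) (.nd 235 (.lf 218 1 3) (.nd 235 (.nd 228 (.lf 228 4 5) (.nd 228 (.lf 204 4 5) (.lf 228 4 5) (.lf 228 1 3)) (.lf 227 1 3)) (.lf 235 1 3) (.lf 228 1 3)) (.lf 204 1 3)) (.lf 264 1 3)) (.nd 233 (.nd 233 (.lf 224 1 3)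 (.nd 233 (.lf 233 1 3) (.lf 211 4 5) (.lf 227 1 3)) (.lf 225 1 3)) (.nd 208 (.nd 203 (.lf 194 4 5) (.lf 203 1 3) (.lf 193 4 5)) (.nd 208 (.lf 198 1 3) (.nd 208 (.lf 208 1 3) (.lf 185 4 5) (.lf 207 1 3)) (.lf 198 1 3)) (.lf 203 1 3)) (.nd 208 (.nd 204 (.lf 178 1 3) (.nd 204 (.lf 180 1 3) (.lf 204 4 5) (.lf 177 1 3)) (.lf 182 4 5)) (.nd 204 (.nd 203 (.lf 190 4 5) (.lf 191 3 5) (.lf 203 4 5)) (.lf 168 4 5) (.nd 204 (.nd 204 (.lf 196 4 5) (.lf 196 4 5) (.lf 204 1 3)) (.lf 167 4 5) (.lf 170 4 5))) (.lf 208 1 3))) (.nd 247 (.nd 225 (.nd 225 (.lf 206 1 3) (.lf 225 4 5) (.lf 200 1 3)) (.lf 206 4 5) (.lf 204 1 3)) (.nd 224 (.nd 222 (.nd 218 (.lf 218 4 5) (.lf 212 1 3) (.lf 215 4 5)) (.lf 222 4 5) (.lf 214 4 5)) (.lf 194 4 5) (.lf 224 4 5)) (.lf 247 1 3)))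 (.nd 221 (.nd 216 (.nd 195 (.nd 166 (.lf 136 4 5) (.lf 166 4 5) (.lf 135 4 5)) (.lf 195 4 5) (.lf 166 4 5)) (.lf 192 4 5) (.nd 216 (.nd 209 (.nd 207 (.lf 192 1 3) (.lf 185 4 5) (.nd 207 (.lf 204 1 3) (.lf 207 4 5) (.lf 207 4 5))) (.nd 205 (.lf 187 4 5) (.lf 205 4 5) (.nd 201 (.lf 201 4 5) (.nd 198 (.lf 178 4 5) (.lf 181 4 5) (.lf 198 1 3)) (.lf 200 4 5))) (.lf 209 4 5)) (.nd 206 (.lf 198 4 5) (.nd 206 (.lf 196 4 5) (.lf 197 4 5) (.lf 206 1 3)) (.nd 202 (.nd 194 (.lf 190 1 3) (.lf 187 1 3) (.nd 194 (.lf 194 4 5) (.lf 187 1 3) (.lf 191 4 5))) (.lf 189 1 3) (.lf 202 4 5))) (.nd 216 (.nd 212 (.lf 212 4 5) (.lf 201 4 5) (.lf 201 4 5)) (.nd 201 (.lf 189 4 5) (.nd 201 (.lf 201 4 5) (.lf 187 4 5) (.lf 197 1 3)) (.lf 190 4 5)) (.nd 216 (.lf 215 1 3) (.lf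 216 4 5) (.lf 214 4 5))))) (.nd 193 (.lf 164 4 5) (.lf 188 4 5) (.lf 193 4 5)) (.nd 221 (.nd 208 (.lf 194 1 3) (.lf 191 4 5) (.nd 208 (.lf 203 4 5) (.nd 208 (.lf 208 1 3) (.lf 189 4 5) (.lf 192 4 5)) (.lf 206 4 5))) (.nd 221 (.lf 207 4 5) (.lf 206 4 5) (.nd 221 (.nd 221 (.lf 221 4 5) (.lf 215 1 3) (.lf 216 1 3)) (.lf 219 4 5) (.lf 213 4 5))) (.nd 220 (.nd 193 (.nd 189 (.lf 189 1 3) (.nd 188 (.lf 188 4 5) (.lf 161 4 5) (.lf 187 1 3)) (.lf 185 4 5)) (.lf 187 1 3) (.lf 193 1 3)) (.lf 220 1 3) (.nd 213 (.lf 187 1 3) (.lf 213 4 5) (.lf 194 1 3)))))))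

def t15_46 : Tr := (.nd 170 (.nd 170 (.lf 153 1 1) (.nd 154 (.lf 154 1 1) (.lf 102 1 1) (.nd 149 (.lf 149 1 1) (.nd 101 (.lf 68 1 1) (.lf 101 1 1) (.lf 71 1 1)) (.lf 104 1 1))) (.nd 170 (.nd 170 (.nd 170 (.nd 166 (.lf 162 1 1) (.lf 155 2 3) (.lf 166 1 1)) (.lf 160 1 1) (.lf 170 1 1)) (.lf 164 1 1) (.nd 168 (.lf 142 2 3) (.lf 142 1 1) (.lf 168 1 1))) (.lf 169 1 1) (.lf 162 1 1))) (.nd 170 (.nd 148 (.nd 148 (.lf 119 2 3) (.nd 134 (.lf 134 2 3) (.lf 111 2 3) (.lf 110 2 3)) (.nd 148 (.lf 125 2 3) (.lf 123 2 3) (.nd 148 (.lf 148 2 3) (.lf 135 2 3) (.nd 143 (.nd 143 (.lf 127 2 3) (.nd 143 (.lf 143 2 3) (.lf 129 2 3) (.lf 130 1 1)) (.lf 123 2 3)) (.lf 134 2 3) (.lf 123 2 3))))) (.nd 144 (.nd 96 (.lf 66 2 3) (.lf 96 2 3) (.lf 63 2 3)) (.lf 144 2 3) (.nd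 99 (.lf 70 2 3) (.lf 99 2 3) (.lf 70 2 3))) (.lf 97 2 3)) (.lf 148 2 3) (.nd 170 (.nd 170 (.nd 170 (.lf 155 2 3) (.lf 170 1 1) (.lf 165 2 3)) (.nd 163 (.lf 163 2 3) (.lf 137 2 3) (.nd 162 (.lf 161 2 3) (.lf 157 2 3) (.nd 162 (.lf 162 1 1) (.lf 162 2 3) (.lf 162 2 3)))) (.lf 159 2 3)) (.lf 157 2 3) (.nd 158 (.nd 132 (.lf 128 2 3) (.nd 132 (.lf 118 2 3) (.lf 132 2 3) (.lf 126 2 3)) (.lf 98 2 3)) (.nd 158 (.lf 156 2 3) (.lf 158 2 3) (.nd 157 (.lf 154 2 3) (.nd 156 (.lf 156 2 3) (.lf 142 2 3) (.nd 138 (.lf 130 2 3) (.lf 132 2 3) (.lf 138 1 1))) (.lf 157 2 3))) (.lf 149 2 3)))) (.nd 153 (.lf 153 2 3) (.nd 127 (.nd 116 (.lf 116 2 3) (.lf 106 1 1) (.lf 101 2 3)) (.nd 125 (.lf 102 1 1) (.nd 125 (.lf 110 1 1) (.nd 125 (.lf 125 2 3) (.nd 118 (.lf 108 1 1)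 (.lf 118 1 1) (.nd 114 (.lf 110 1 1) (.lf 103 2 3) (.lf 114 1 1))) (.lf 112 1 1)) (.lf 117 1 1)) (.lf 101 1 1)) (.lf 127 2 3)) (.nd 151 (.lf 127 1 1) (.lf 128 1 1) (.nd 151 (.nd 151 (.lf 151 2 3) (.nd 144 (.nd 140 (.lf 136 1 1) (.lf 129 2 3) (.lf 140 1 1)) (.lf 134 1 1) (.lf 144 1 1)) (.lf 138 1 1)) (.lf 143 1 1) (.lf 136 1 1)))))

def t15_47 : Tr := (.nd 153 (.nd 153 (.nd 153 (.nd 153 (.lf 145 2 2) (.lf 142 2 2) (.nd 153 (.lf 153 2 2) (.lf 150 2 2) (.lf 152 3 2))) (.nd 144 (.nd 144 (.nd 130 (.nd 122 (.lf 122 3 2) (.lf 88 3 2) (.lf 112 3 2)) (.lf 130 3 2) (.lf 97 3 2)) (.lf 144 3 2) (.nd 116 (.nd 108 (.nd 108 (.lf 97 3 2) (.lf 108 3 2) (.lf 100 3 2)) (.lf 91 3 2) (.lf 97 3 2)) (.nd 116 (.lf 110 3 2) (.lf 83 3 2) (.nd 116 (.lf 97 3 2) (.lf 116 3 2)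 (.lf 106 3 2))) (.nd 107 (.nd 107 (.lf 91 3 2) (.lf 88 3 2) (.lf 107 3 2)) (.lf 81 3 2) (.nd 94 (.nd 94 (.lf 94 3 2) (.lf 78 3 2) (.lf 92 2 2)) (.lf 54 3 2) (.lf 79 3 2))))) (.nd 119 (.lf 118 2 2) (.nd 101 (.lf 101 3 2) (.lf 85 3 2) (.lf 88 3 2)) (.nd 119 (.lf 114 2 2) (.lf 67 2 2) (.nd 119 (.lf 104 2 2) (.lf 119 2 2) (.lf 89 2 2)))) (.nd 105 (.nd 90 (.lf 90 3 2) (.nd 82 (.lf 67 2 2) (.lf 66 2 2) (.lf 82 2 2)) (.lf 90 3 2)) (.nd 105 (.nd 105 (.lf 93 3 2) (.nd 105 (.lf 105 3 2) (.lf 101 2 2) (.lf 104 3 2)) (.lf 93 3 2)) (.lf 102 3 2) (.lf 104 3 2)) (.nd 79 (.lf 79 3 2) (.nd 73 (.nd 73 (.lf 63 2 2) (.lf 58 3 2) (.lf 73 3 2)) (.lf 62 3 2) (.lf 33 3 2)) (.lf 61 3 2)))) (.nd 148 (.nd 148 (.nd 144 (.lf 141 3 2) (.nd 144 (.lf 100 3 2) (.lf 108 3 2) (.lf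 144 2 2)) (.nd 122 (.lf 121 3 2) (.lf 101 3 2) (.lf 122 3 2))) (.nd 148 (.lf 131 3 2) (.nd 115 (.lf 115 3 2) (.lf 86 3 2) (.lf 101 3 2)) (.lf 148 3 2)) (.lf 133 3 2)) (.lf 140 3 2) (.nd 130 (.lf 123 3 2) (.lf 130 3 2) (.nd 90 (.lf 83 3 2) (.lf 61 3 2) (.lf 90 3 2))))) (.lf 150 3 2) (.nd 147 (.nd 147 (.lf 147 2 2) (.lf 114 3 2) (.lf 140 3 2)) (.nd 141 (.lf 118 2 2) (.lf 141 2 2) (.nd 138 (.lf 116 3 2) (.nd 124 (.nd 114 (.lf 114 2 2) (.lf 101 2 2) (.nd 79 (.lf 79 3 2) (.lf 55 3 2) (.lf 79 2 2))) (.lf 124 2 2) (.lf 120 3 2)) (.lf 138 2 2))) (.lf 142 3 2))) (.nd 121 (.nd 90 (.lf 61 3 2) (.nd 90 (.nd 90 (.lf 67 3 2) (.lf 75 3 2) (.nd 90 (.lf 90 3 2) (.lf 68 3 2) (.lf 71 3 2))) (.lf 75 3 2) (.lf 68 3 2)) (.lf 59 3 2)) (.nd 121 (.nd 106 (.lf 74 3 2) (.nd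 106 (.nd 100 (.lf 76 3 2) (.nd 100 (.lf 97 3 2) (.lf 100 3 2) (.nd 94 (.lf 78 3 2) (.lf 94 3 2) (.lf 78 3 2))) (.lf 75 3 2)) (.nd 106 (.lf 99 3 2) (.lf 96 3 2) (.lf 106 3 2)) (.lf 98 3 2)) (.nd 91 (.nd 91 (.lf 70 3 2) (.lf 71 3 2) (.nd 91 (.lf 67 3 2) (.lf 75 3 2) (.lf 91 3 2))) (.nd 52 (.lf 47 3 2) (.lf 11 3 2) (.nd 52 (.lf 36 3 2) (.lf 51 3 2) (.lf 52 3 2))) (.lf 60 3 2))) (.nd 121 (.nd 121 (.lf 97 3 2) (.nd 121 (.lf 99 3 2) (.lf 103 3 2) (.lf 121 3 2)) (.nd 107 (.nd 107 (.lf 79 3 2) (.lf 97 3 2) (.nd 107 (.lf 78 3 2) (.lf 107 3 2) (.lf 81 3 2))) (.nd 99 (.lf 74 3 2) (.nd 99 (.lf 74 3 2) (.lf 99 3 2) (.lf 50 3 2)) (.nd 99 (.lf 88 3 2) (.lf 88 3 2) (.lf 99 3 2))) (.nd 99 (.lf 95 3 2) (.nd 99 (.lf 92 3 2) (.lf 99 3 2) (.lf 97 3 2)) (.lf 93 3 2))))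 (.nd 118 (.nd 118 (.nd 118 (.lf 104 3 2) (.lf 104 3 2) (.lf 118 3 2)) (.nd 103 (.lf 80 3 2) (.nd 103 (.lf 96 3 2) (.lf 88 3 2) (.lf 103 3 2)) (.lf 92 3 2)) (.lf 99 3 2)) (.nd 105 (.lf 82 3 2) (.lf 105 3 2) (.lf 71 3 2)) (.lf 79 3 2)) (.nd 101 (.nd 101 (.lf 101 3 2) (.nd 99 (.lf 99 3 2) (.lf 77 3 2) (.lf 89 3 2)) (.lf 88 3 2)) (.lf 82 3 2) (.nd 96 (.lf 96 3 2) (.lf 54 3 2) (.lf 68 3 2)))) (.nd 99 (.nd 99 (.nd 99 (.lf 99 3 2) (.nd 91 (.lf 91 3 2) (.lf 77 3 2) (.lf 78 3 2)) (.lf 95 3 2)) (.nd 99 (.lf 99 3 2) (.lf 83 3 2) (.lf 57 3 2)) (.nd 93 (.lf 77 3 2) (.lf 72 3 2) (.lf 93 3 2))) (.lf 72 3 2) (.nd 82 (.lf 66 3 2) (.nd 82 (.lf 82 3 2) (.lf 75 3 2) (.lf 74 3 2)) (.nd 65 (.lf 34 3 2) (.lf 65 3 2) (.nd 28 (.lf 21 3 2) (.lf 0 3 2) (.lf 28 3 2)))))) (.nd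 91 (.lf 39 3 2) (.nd 91 (.nd 76 (.lf 52 3 2) (.lf 76 3 2) (.lf 53 3 2)) (.nd 91 (.lf 65 3 2) (.lf 91 3 2) (.lf 67 3 2)) (.lf 61 3 2)) (.nd 86 (.lf 38 3 2) (.nd 86 (.lf 67 3 2) (.lf 86 3 2) (.lf 67 3 2)) (.lf 41 3 2)))) (.nd 124 (.nd 95 (.nd 64 (.lf 35 3 2) (.lf 64 3 2) (.lf 33 3 2)) (.nd 95 (.nd 95 (.nd 92 (.lf 79 3 2) (.lf 53 3 2) (.nd 92 (.lf 73 3 2) (.nd 92 (.lf 92 3 2) (.lf 78 3 2) (.lf 78 3 2)) (.lf 77 3 2))) (.nd 75 (.lf 70 3 2) (.lf 75 3 2) (.lf 56 3 2)) (.nd 95 (.lf 95 3 2) (.lf 81 3 2) (.lf 71 3 2))) (.lf 73 3 2) (.lf 80 3 2)) (.lf 65 3 2)) (.nd 116 (.nd 84 (.lf 58 3 2) (.lf 84 3 2) (.lf 43 3 2)) (.lf 116 3 2) (.lf 69 3 2)) (.nd 124 (.nd 122 (.nd 118 (.lf 113 2 2) (.nd 93 (.lf 58 3 2) (.lf 64 3 2) (.lf 93 3 2)) (.nd 118 (.lf 118 3 2) (.lf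 90 3 2) (.nd 104 (.lf 96 3 2) (.lf 104 3 2) (.lf 71 3 2)))) (.lf 122 3 2) (.lf 118 2 2)) (.lf 124 3 2) (.nd 124 (.lf 124 3 2) (.lf 121 3 2) (.nd 108 (.lf 108 3 2) (.lf 90 3 2) (.nd 89 (.lf 89 2 2) (.lf 57 2 2) (.lf 78 2 2)))))))

def t15_49 : Tr := (.nd 154 (.nd 154 (.nd 154 (.nd 134 (.lf 132 1 1) (.lf 131 2 1) (.lf 134 1 1)) (.nd 152 (.nd 152 (.nd 152 (.lf 138 2 1) (.nd 152 (.nd 152 (.nd 152 (.lf 152 1 1) (.lf 133 1 1) (.lf 144 2 1)) (.lf 150 1 1) (.lf 144 2 1)) (.lf 149 2 1) (.lf 152 2 1)) (.lf 135 2 1)) (.nd 152 (.lf 140 1 1) (.nd 152 (.lf 150 2 1) (.lf 152 1 1) (.lf 149 2 1)) (.lf 129 1 1)) (.lf 136 2 1)) (.nd 147 (.lf 140 1 1) (.nd 147 (.nd 147 (.lf 145 1 1) (.lf 137 1 1) (.lf 147 2 1)) (.lf 112 1 1) (.lf 126 1 1)) (.nd 147 (.lf 146 1 1) (.nd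 147 (.lf 147 2 1) (.lf 138 1 1) (.lf 136 1 1)) (.nd 146 (.nd 145 (.lf 125 1 1) (.lf 145 1 1) (.lf 141 2 1)) (.lf 135 1 1) (.lf 146 2 1)))) (.nd 148 (.lf 147 2 1) (.nd 148 (.lf 135 2 1) (.nd 148 (.lf 138 2 1) (.nd 148 (.lf 137 1 1) (.lf 136 1 1) (.lf 148 2 1)) (.lf 141 2 1)) (.lf 132 2 1)) (.nd 147 (.nd 147 (.lf 139 2 1) (.nd 147 (.nd 142 (.lf 132 1 1) (.lf 133 1 1) (.lf 142 2 1)) (.lf 145 1 1) (.nd 147 (.lf 137 2 1) (.lf 147 1 1) (.lf 143 2 1))) (.lf 147 1 1)) (.nd 147 (.nd 147 (.nd 147 (.lf 138 2 1) (.lf 145 1 1) (.lf 147 2 1)) (.lf 139 1 1) (.lf 136 1 1)) (.lf 137 1 1) (.nd 147 (.lf 146 2 1) (.lf 145 2 1) (.lf 147 1 1))) (.nd 146 (.lf 132 1 1) (.nd 132 (.lf 132 1 1) (.lf 131 2 1) (.lf 108 1 1)) (.nd 146 (.lf 131 2 1) (.lf 132 2 1) (.lf 146 1 1))))))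 (.nd 154 (.lf 143 1 1) (.nd 154 (.nd 128 (.lf 128 2 1) (.lf 127 1 1) (.lf 126 1 1)) (.nd 154 (.lf 136 1 1) (.lf 144 1 1) (.nd 154 (.lf 150 2 1) (.nd 154 (.lf 153 2 1) (.lf 142 2 1) (.lf 154 1 1)) (.lf 136 2 1))) (.nd 139 (.lf 115 1 1) (.lf 126 2 1) (.lf 139 2 1))) (.lf 122 1 1))) (.nd 149 (.nd 149 (.lf 134 1 1) (.nd 149 (.lf 149 1 1) (.lf 125 1 1) (.lf 123 1 1)) (.lf 119 1 1)) (.nd 123 (.nd 123 (.nd 120 (.lf 102 1 1) (.nd 104 (.lf 104 2 1) (.lf 100 1 1) (.lf 101 1 1)) (.lf 120 1 1)) (.nd 123 (.lf 104 2 1) (.lf 119 1 1) (.nd 123 (.lf 114 2 1) (.lf 123 2 1) (.lf 120 1 1))) (.nd 116 (.lf 116 1 1) (.lf 113 1 1) (.nd 111 (.lf 108 1 1) (.lf 89 1 1) (.nd 111 (.lf 111 1 1) (.lf 111 1 1) (.lf 103 2 1))))) (.lf 99 1 1) (.lf 96 1 1)) (.lf 97 1 1)) (.nd 133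 (.lf 117 1 1) (.nd 133 (.lf 126 1 1) (.nd 133 (.nd 129 (.lf 129 1 1) (.nd 124 (.lf 124 2 1) (.nd 124 (.lf 124 2 1) (.lf 111 1 1) (.lf 124 2 1)) (.lf 119 2 1)) (.lf 126 1 1)) (.lf 125 1 1) (.lf 133 1 1)) (.lf 133 1 1)) (.nd 109 (.nd 90 (.lf 90 2 1) (.lf 71 1 1) (.nd 65 (.lf 55 1 1) (.lf 65 1 1) (.lf 10 1 1))) (.nd 109 (.lf 102 1 1) (.lf 109 1 1) (.lf 99 1 1)) (.lf 96 1 1)))) (.nd 150 (.nd 150 (.nd 150 (.nd 144 (.lf 131 2 1) (.lf 137 1 1) (.nd 144 (.lf 130 2 1) (.nd 144 (.nd 144 (.lf 143 2 1) (.lf 144 1 1) (.lf 142 2 1)) (.lf 129 1 1) (.nd 144 (.lf 144 1 1) (.lf 139 2 1) (.lf 120 1 1))) (.lf 135 2 1))) (.nd 141 (.nd 141 (.lf 134 2 1) (.nd 141 (.lf 141 1 1) (.lf 135 2 1) (.lf 127 2 1)) (.lf 102 2 1)) (.nd 129 (.lf 127 1 1) (.lf 120 1 1) (.nd 129 (.nd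 128 (.lf 128 1 1) (.lf 121 2 1) (.lf 122 2 1)) (.lf 127 2 1) (.lf 129 2 1))) (.lf 137 2 1)) (.nd 150 (.nd 136 (.lf 127 1 1) (.lf 125 1 1) (.lf 136 2 1)) (.nd 149 (.lf 125 1 1) (.lf 124 1 1) (.lf 149 1 1)) (.nd 150 (.nd 150 (.nd 150 (.lf 126 2 1) (.nd 150 (.lf 146 2 1) (.lf 150 1 1) (.lf 143 1 1)) (.lf 129 2 1)) (.lf 127 2 1) (.lf 149 2 1)) (.nd 142 (.lf 136 2 1) (.lf 126 2 1) (.lf 142 1 1)) (.nd 148 (.lf 144 1 1) (.lf 148 2 1) (.lf 142 1 1))))) (.nd 140 (.nd 121 (.lf 95 1 1) (.lf 121 2 1) (.lf 102 2 1)) (.nd 100 (.nd 98 (.lf 84 2 1) (.lf 82 2 1) (.nd 98 (.lf 98 2 1) (.lf 96 1 1) (.lf 91 2 1))) (.nd 100 (.lf 62 2 1) (.nd 100 (.lf 64 2 1) (.nd 100 (.nd 100 (.lf 81 2 1) (.lf 100 1 1) (.lf 75 1 1)) (.lf 90 2 1) (.lf 90 2 1)) (.lf 61 2 1)) (.lf 92 1 1))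 (.nd 97 (.lf 90 1 1) (.nd 97 (.nd 92 (.lf 83 2 1) (.lf 75 2 1) (.lf 92 1 1)) (.lf 89 1 1) (.lf 97 2 1)) (.lf 66 1 1))) (.nd 140 (.nd 140 (.lf 120 1 1) (.nd 119 (.lf 119 1 1) (.lf 119 1 1) (.nd 118 (.lf 115 2 1) (.lf 108 1 1) (.lf 118 1 1))) (.nd 140 (.lf 136 2 1) (.nd 140 (.lf 140 1 1) (.lf 118 1 1) (.lf 136 2 1)) (.lf 137 2 1))) (.nd 124 (.nd 124 (.lf 106 1 1) (.lf 124 2 1) (.lf 119 1 1)) (.nd 119 (.lf 104 2 1) (.lf 119 1 1) (.lf 107 2 1)) (.lf 105 2 1)) (.lf 140 1 1))) (.nd 127 (.nd 122 (.lf 108 2 1) (.lf 122 1 1) (.lf 110 2 1)) (.lf 124 1 1) (.nd 127 (.lf 119 1 1) (.lf 126 1 1) (.nd 127 (.nd 124 (.lf 105 2 1) (.lf 124 1 1) (.lf 109 2 1)) (.nd 127 (.lf 127 1 1) (.nd 125 (.lf 116 1 1) (.lf 125 2 1) (.lf 116 1 1)) (.lf 127 1 1)) (.nd 124 (.lf 124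 1 1) (.lf 114 2 1) (.lf 89 2 1)))))) (.nd 109 (.nd 109 (.nd 109 (.nd 109 (.lf 99 1 1) (.nd 109 (.lf 90 1 1) (.lf 93 1 1) (.lf 109 2 1)) (.lf 99 1 1)) (.lf 73 1 1) (.lf 70 1 1)) (.lf 71 1 1) (.nd 109 (.nd 90 (.lf 90 2 1) (.lf 85 1 1) (.lf 84 1 1)) (.nd 109 (.lf 97 1 1) (.nd 109 (.lf 106 2 1) (.lf 104 2 1) (.lf 109 1 1)) (.lf 99 1 1)) (.lf 93 1 1))) (.nd 91 (.lf 91 1 1) (.lf 91 2 1) (.lf 86 2 1)) (.lf 91 2 1)) (.nd 127 (.nd 108 (.nd 108 (.nd 107 (.lf 107 1 1) (.lf 83 2 1) (.lf 78 2 1)) (.nd 108 (.lf 94 1 1) (.lf 92 1 1) (.nd 108 (.lf 108 1 1) (.lf 69 2 1) (.lf 101 1 1))) (.nd 108 (.lf 100 1 1) (.lf 108 2 1) (.lf 72 1 1))) (.lf 90 2 1) (.nd 90 (.lf 79 2 1) (.lf 75 1 1) (.lf 90 1 1))) (.nd 108 (.nd 108 (.nd 108 (.lf 99 2 1) (.nd 108 (.lf 101 1 1) (.lf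 99 1 1) (.lf 108 2 1)) (.lf 93 2 1)) (.nd 100 (.lf 86 2 1) (.lf 82 2 1) (.nd 100 (.lf 100 2 1) (.lf 100 2 1) (.lf 99 1 1))) (.lf 86 2 1)) (.lf 62 2 1) (.nd 98 (.lf 61 2 1) (.lf 98 1 1) (.lf 55 2 1))) (.nd 127 (.lf 96 1 1) (.nd 127 (.lf 112 1 1) (.lf 127 1 1) (.lf 105 1 1)) (.lf 97 1 1)))) (.nd 146 (.nd 141 (.nd 141 (.nd 134 (.nd 134 (.nd 124 (.lf 124 2 1) (.lf 117 1 1) (.lf 114 1 1)) (.lf 127 1 1) (.lf 134 2 1)) (.lf 118 1 1) (.lf 124 1 1)) (.lf 137 1 1) (.nd 141 (.nd 141 (.lf 125 2 1) (.lf 121 2 1) (.nd 141 (.lf 141 2 1) (.lf 132 1 1) (.nd 136 (.lf 131 1 1) (.lf 136 1 1) (.lf 122 2 1)))) (.lf 124 2 1) (.lf 141 2 1))) (.lf 117 2 1) (.lf 122 2 1)) (.nd 146 (.nd 146 (.nd 146 (.lf 145 2 1) (.nd 146 (.lf 145 1 1) (.lf 146 2 1) (.nd 145 (.lf 142 2 1)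 (.lf 145 2 1) (.lf 142 1 1))) (.lf 138 2 1)) (.lf 145 2 1) (.lf 132 2 1)) (.lf 145 2 1) (.nd 146 (.lf 144 1 1) (.nd 141 (.lf 123 1 1) (.lf 123 1 1) (.lf 141 2 1)) (.nd 146 (.lf 139 2 1) (.nd 146 (.nd 146 (.lf 126 2 1) (.lf 146 1 1) (.nd 118 (.lf 118 1 1) (.lf 114 2 1) (.lf 112 1 1))) (.lf 141 2 1) (.lf 127 2 1)) (.nd 144 (.lf 110 2 1) (.lf 124 2 1) (.nd 144 (.lf 144 2 1) (.lf 144 2 1) (.lf 137 1 1)))))) (.nd 120 (.lf 113 2 1) (.lf 91 2 1) (.nd 120 (.nd 120 (.lf 97 2 1) (.lf 120 2 1) (.lf 97 2 1)) (.lf 110 2 1) (.lf 101 2 1)))))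

def t15_50 : Tr := (.nd 280 (.nd 280 (.lf 280 1 4) (.nd 249 (.nd 210 (.lf 210 1 4) (.lf 194 1 4) (.nd 197 (.lf 183 1 4) (.lf 197 1 4) (.lf 140 1 4))) (.lf 249 1 4) (.lf 218 1 4)) (.nd 250 (.lf 250 1 4) (.lf 198 1 4) (.nd 245 (.lf 245 1 4) (.nd 197 (.lf 167 1 4) (.lf 164 1 4) (.nd 197 (.lf 172 1 4) (.lf 197 1 4) (.lf 175 1 4))) (.nd 200 (.lf 171 1 4) (.lf 171 1 4) (.lf 200 1 4))))) (.nd 278 (.nd 239 (.nd 225 (.lf 225 2 4) (.nd 174 (.nd 167 (.lf 167 2 4) (.lf 143 2 4) (.lf 115 2 4)) (.nd 145 (.lf 137 2 4) (.lf 145 2 4) (.lf 117 2 4)) (.lf 174 2 4)) (.lf 219 2 4)) (.nd 239 (.nd 239 (.nd 239 (.nd 232 (.lf 210 2 4) (.lf 232 2 4) (.lf 204 2 4)) (.lf 239 2 4) (.lf 233 2 4)) (.lf 219 2 4) (.lf 224 2 4)) (.nd 232 (.nd 218 (.lf 198 2 4) (.lf 218 2 4) (.lf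 199 2 4)) (.nd 208 (.lf 185 2 4) (.lf 198 2 4) (.lf 208 1 2)) (.lf 232 2 4)) (.nd 230 (.nd 230 (.lf 218 1 4) (.lf 216 2 4) (.nd 230 (.lf 206 2 4) (.lf 230 1 4) (.lf 215 2 4))) (.nd 227 (.lf 227 1 2) (.lf 198 1 2) (.lf 190 1 2)) (.lf 230 1 2))) (.nd 223 (.lf 199 2 4) (.lf 223 2 4) (.lf 202 2 4))) (.nd 278 (.nd 249 (.lf 248 1 2) (.nd 236 (.nd 208 (.lf 203 2 4) (.lf 208 2 4) (.lf 202 1 2)) (.nd 204 (.lf 204 2 4) (.lf 187 1 2) (.lf 203 2 4)) (.lf 236 2 4)) (.nd 249 (.nd 229 (.lf 192 2 4) (.lf 198 2 4) (.lf 229 2 4)) (.lf 230 2 4) (.nd 249 (.nd 214 (.lf 213 2 4) (.lf 214 2 4) (.lf 214 1 2)) (.lf 238 2 4) (.lf 249 2 4)))) (.nd 258 (.nd 213 (.lf 204 2 4) (.lf 203 1 2) (.nd 213 (.nd 209 (.lf 209 1 2) (.lf 209 1 2) (.lf 208 2 4)) (.nd 204 (.nd 204 (.lf 174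 2 4) (.lf 204 2 4) (.lf 199 1 2)) (.lf 199 1 2) (.lf 202 2 4)) (.lf 213 1 2))) (.nd 258 (.lf 234 1 2) (.lf 258 1 2) (.nd 229 (.lf 198 1 2) (.lf 229 1 2) (.lf 199 1 2))) (.lf 255 2 4)) (.nd 278 (.lf 265 2 4) (.nd 271 (.nd 267 (.lf 251 1 2) (.nd 247 (.lf 238 1 2) (.lf 247 1 2) (.lf 202 1 2)) (.lf 267 2 4)) (.lf 271 2 4) (.lf 261 2 4)) (.lf 278 1 4))) (.nd 255 (.lf 255 2 4) (.nd 250 (.nd 250 (.nd 231 (.lf 231 2 4) (.lf 226 2 4) (.nd 208 (.lf 190 2 4) (.lf 208 2 4) (.lf 203 2 4))) (.lf 250 2 4) (.lf 231 2 4)) (.lf 205 2 4) (.lf 202 2 4)) (.lf 203 2 4))) (.nd 245 (.nd 245 (.nd 245 (.lf 232 1 4) (.nd 245 (.lf 234 1 4) (.nd 245 (.lf 212 1 4) (.lf 238 1 4) (.lf 245 1 2)) (.nd 245 (.lf 245 2 4) (.lf 230 1 4) (.lf 240 1 4))) (.lf 239 1 4)) (.lf 223 1 4) (.lf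 224 1 4)) (.nd 245 (.nd 245 (.lf 237 2 4) (.lf 244 2 4) (.nd 245 (.lf 238 1 4) (.lf 239 2 4) (.nd 245 (.lf 245 2 4) (.lf 235 2 4) (.lf 235 1 2)))) (.nd 229 (.lf 224 2 4) (.lf 177 2 4) (.lf 229 2 4)) (.lf 228 2 4)) (.nd 236 (.lf 236 2 4) (.lf 228 1 4) (.nd 233 (.lf 233 2 4) (.lf 203 2 4) (.nd 202 (.lf 173 2 4) (.lf 202 2 4) (.lf 171 2 4))))))

def t15_52 : Tr := (.nd 306 (.nd 277 (.lf 277 2 5) (.nd 226 (.lf 219 2 5) (.lf 197 2 5) (.nd 226 (.nd 226 (.lf 226 2 5) (.lf 203 2 5) (.lf 203 2 5)) (.nd 216 (.lf 216 2 5) (.lf 215 2 5) (.nd 193 (.nd 185 (.lf 185 2 5) (.lf 155 2 5) (.lf 162 2 5)) (.lf 193 2 5) (.lf 162 2 5))) (.lf 207 2 5))) (.nd 271 (.nd 228 (.lf 200 2 5) (.nd 228 (.nd 226 (.nd 226 (.lf 221 2 5) (.lf 212 2 5) (.lf 226 2 5)) (.lf 204 2 5) (.lf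 223 2 5)) (.lf 217 2 5) (.lf 228 2 5)) (.lf 197 2 5)) (.lf 271 2 5) (.nd 223 (.lf 193 2 5) (.lf 192 2 5) (.nd 223 (.lf 223 2 5) (.nd 201 (.lf 185 2 5) (.lf 187 2 5) (.nd 201 (.lf 201 2 5) (.lf 195 2 5) (.lf 201 2 5))) (.nd 201 (.lf 193 2 5) (.lf 182 2 5) (.lf 201 2 5)))))) (.nd 306 (.nd 284 (.lf 273 2 5) (.lf 284 2 5) (.nd 270 (.nd 250 (.lf 250 2 5) (.lf 219 2 5) (.lf 221 2 5)) (.lf 270 2 5) (.lf 251 2 5))) (.lf 306 2 5) (.nd 291 (.nd 271 (.lf 271 2 5) (.lf 255 2 5) (.nd 225 (.lf 196 2 5) (.lf 220 2 5) (.lf 225 2 5))) (.nd 276 (.nd 245 (.nd 245 (.lf 233 2 5) (.lf 245 2 5) (.lf 236 2 5)) (.lf 215 2 5) (.lf 228 2 5)) (.lf 241 2 5) (.lf 276 2 5)) (.nd 291 (.nd 285 (.nd 271 (.lf 271 2 5) (.lf 251 2 5) (.nd 251 (.lf 200 2 5) (.lf 247 2 5) (.lf 251 2 5)))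 (.lf 285 2 5) (.lf 266 2 5)) (.nd 284 (.nd 262 (.nd 226 (.nd 221 (.lf 169 2 5) (.lf 221 2 5) (.lf 197 2 5)) (.lf 197 2 5) (.nd 226 (.lf 226 2 5) (.lf 218 2 5) (.lf 209 2 5))) (.lf 251 2 5) (.lf 262 2 5)) (.lf 284 2 5) (.lf 256 2 5)) (.lf 291 2 5)))) (.nd 275 (.nd 254 (.lf 254 2 5) (.nd 240 (.lf 192 2 5) (.lf 240 2 5) (.lf 197 2 5)) (.nd 197 (.lf 188 2 5) (.nd 197 (.lf 188 2 5) (.nd 197 (.lf 197 2 5) (.lf 187 2 5) (.lf 185 2 5)) (.lf 188 2 5)) (.lf 167 2 5))) (.nd 251 (.nd 223 (.lf 168 2 5) (.lf 213 2 5) (.lf 223 2 5)) (.nd 251 (.lf 232 2 5) (.nd 251 (.nd 219 (.lf 189 2 5) (.nd 188 (.lf 159 2 5) (.nd 188 (.lf 173 2 5) (.lf 166 2 5) (.lf 188 2 5)) (.lf 157 2 5)) (.nd 219 (.lf 197 2 5) (.nd 204 (.lf 204 2 5) (.lf 189 2 5) (.lf 172 2 5)) (.lf 219 2 5)))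 (.nd 222 (.lf 196 2 5) (.lf 222 2 5) (.lf 193 2 5)) (.nd 251 (.lf 251 2 5) (.lf 231 2 5) (.nd 216 (.nd 209 (.lf 182 2 5) (.lf 209 1 3) (.lf 179 2 5)) (.lf 216 1 3) (.lf 180 2 5)))) (.lf 251 2 5)) (.nd 229 (.nd 196 (.lf 189 2 5) (.lf 155 2 5) (.lf 196 2 5)) (.lf 221 2 5) (.lf 229 2 5))) (.nd 275 (.lf 275 2 5) (.nd 257 (.nd 253 (.lf 227 2 5) (.nd 208 (.lf 208 2 5) (.lf 193 2 5) (.lf 194 2 5)) (.lf 253 2 5)) (.nd 250 (.nd 250 (.lf 250 2 5) (.nd 235 (.lf 203 2 5) (.lf 220 2 5) (.lf 235 2 5)) (.lf 226 2 5)) (.nd 219 (.nd 219 (.lf 219 2 5) (.lf 197 2 5) (.lf 204 2 5)) (.lf 190 2 5) (.lf 188 2 5)) (.nd 220 (.lf 168 2 5) (.lf 215 2 5) (.lf 220 2 5))) (.lf 257 2 5)) (.lf 260 2 5))))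

def t15_55 : Tr := (.nd 215 (.nd 215 (.nd 183 (.lf 183 1 1) (.nd 174 (.lf 154 1 1) (.lf 174 1 1) (.lf 155 1 1)) (.lf 174 1 1)) (.lf 215 1 1) (.nd 200 (.nd 180 (.lf 149 1 1) (.lf 151 1 1) (.nd 180 (.lf 158 1 1) (.nd 180 (.lf 157 1 1) (.lf 165 1 1) (.nd 180 (.lf 158 1 1) (.lf 161 1 1) (.lf 180 1 1))) (.lf 165 1 1))) (.lf 200 1 1) (.nd 181 (.nd 176 (.lf 128 1 1) (.nd 176 (.lf 157 1 1) (.lf 157 1 1) (.lf 176 1 1)) (.nd 131 (.lf 102 1 1) (.lf 131 1 1) (.lf 102 1 1))) (.lf 129 1 1) (.lf 181 1 1)))) (.nd 208 (.nd 208 (.nd 202 (.nd 170 (.nd 167 (.lf 143 1 1) (.lf 115 1 1) (.lf 167 1 1)) (.lf 145 1 1) (.nd 170 (.lf 155 1 1) (.nd 170 (.lf 151 1 1) (.lf 144 1 1) (.lf 170 1 1)) (.lf 164 1 1))) (.lf 195 1 1) (.lf 202 1 1)) (.lf 208 1 1) (.nd 175 (.lf 175 1 1)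 (.nd 174 (.lf 174 1 1) (.nd 172 (.lf 140 1 1) (.lf 172 1 1) (.lf 145 1 1)) (.lf 145 1 1)) (.nd 171 (.lf 164 1 1) (.lf 171 1 1) (.nd 171 (.lf 160 1 1) (.lf 168 1 1) (.lf 171 1 1))))) (.nd 187 (.nd 187 (.lf 187 1 1) (.nd 172 (.nd 172 (.lf 169 1 1) (.lf 172 1 1) (.lf 151 1 1)) (.lf 169 1 1) (.lf 166 1 1)) (.lf 169 1 1)) (.nd 187 (.nd 187 (.nd 187 (.lf 186 1 1) (.lf 187 1 1) (.lf 167 1 1)) (.lf 167 1 1) (.nd 186 (.lf 169 1 1) (.lf 186 1 1) (.lf 164 1 1))) (.lf 166 1 1) (.lf 166 1 1)) (.nd 185 (.lf 184 1 1) (.nd 185 (.lf 185 1 1) (.lf 183 1 1) (.lf 146 1 1)) (.lf 185 1 1))) (.nd 204 (.nd 204 (.nd 200 (.lf 171 1 1) (.lf 200 1 1) (.lf 171 1 1)) (.nd 204 (.lf 202 1 1) (.lf 204 1 1) (.nd 183 (.lf 168 1 1) (.lf 183 1 1) (.lf 163 1 1))) (.lf 169 1 1)) (.lf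 183 1 1) (.lf 174 1 1))) (.nd 209 (.nd 190 (.lf 175 1 1) (.lf 167 1 1) (.lf 190 1 1)) (.nd 209 (.lf 209 1 1) (.nd 201 (.lf 177 1 1) (.nd 196 (.lf 196 1 1) (.nd 173 (.lf 160 1 1) (.lf 173 1 1) (.lf 155 1 1)) (.lf 175 1 1)) (.lf 201 1 1)) (.nd 197 (.lf 197 1 1) (.nd 189 (.lf 173 1 1) (.lf 189 1 1) (.lf 171 1 1)) (.lf 174 1 1))) (.nd 201 (.nd 155 (.nd 155 (.lf 142 1 1) (.lf 155 1 1) (.lf 138 1 1)) (.lf 126 1 1) (.nd 150 (.lf 126 1 1) (.nd 150 (.lf 150 1 1) (.lf 135 1 1) (.lf 120 1 1)) (.lf 98 1 1))) (.nd 201 (.lf 175 1 1) (.lf 181 1 1) (.nd 201 (.lf 175 1 1) (.nd 175 (.lf 171 1 1) (.lf 164 1 1) (.lf 175 1 1)) (.lf 201 1 1))) (.nd 179 (.lf 179 1 1) (.lf 150 1 1) (.lf 154 1 1)))))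

def t15_58 : Tr := (.nd 248 (.nd 241 (.lf 233 1 1) (.nd 241 (.lf 228 1 1) (.lf 241 1 1) (.nd 218 (.lf 218 1 1) (.lf 205 1 1) (.nd 202 (.nd 172 (.lf 120 1 1) (.nd 167 (.lf 119 1 1) (.lf 122 1 1) (.lf 167 1 1)) (.lf 172 1 1)) (.lf 202 1 1) (.lf 171 1 1)))) (.nd 206 (.nd 206 (.lf 206 1 1) (.nd 167 (.lf 143 1 1) (.nd 148 (.lf 142 1 1) (.lf 119 1 1) (.lf 148 1 1)) (.lf 167 1 1)) (.lf 194 1 1)) (.lf 197 1 1) (.nd 149 (.lf 119 1 1) (.lf 140 1 1) (.nd 149 (.nd 140 (.lf 131 1 1) (.lf 119 1 1) (.nd 140 (.lf 109 1 1) (.lf 110 1 1) (.lf 140 1 1))) (.lf 140 1 1) (.lf 149 1 1))))) (.nd 229 (.nd 227 (.lf 175 1 1) (.nd 180 (.nd 149 (.lf 118 1 1) (.nd 149 (.lf 149 1 1) (.nd 127 (.lf 100 1 1) (.lf 110 1 1) (.lf 127 1 1)) (.lf 134 1 1)) (.lf 119 1 1)) (.lf 152 1 1)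 (.lf 180 1 1)) (.lf 227 1 1)) (.nd 229 (.lf 229 1 1) (.lf 218 1 1) (.nd 203 (.nd 198 (.lf 198 1 1) (.lf 146 1 1) (.nd 176 (.nd 145 (.lf 112 1 1) (.lf 145 1 1) (.lf 115 1 1)) (.lf 148 1 1) (.lf 176 1 1))) (.lf 203 1 1) (.lf 174 1 1))) (.nd 178 (.nd 171 (.lf 119 1 1) (.lf 171 1 1) (.lf 147 1 1)) (.nd 149 (.nd 141 (.lf 141 1 1) (.lf 90 1 1) (.lf 119 1 1)) (.lf 149 1 1) (.lf 121 1 1)) (.nd 178 (.nd 159 (.lf 154 1 1) (.lf 145 1 1) (.lf 159 1 1)) (.lf 178 1 1) (.nd 168 (.lf 145 1 1) (.lf 168 1 1) (.lf 167 1 1))))) (.nd 248 (.nd 238 (.nd 238 (.lf 238 1 1) (.lf 232 1 1) (.nd 237 (.nd 212 (.nd 212 (.nd 202 (.lf 191 1 1) (.lf 202 1 1) (.lf 182 1 1)) (.lf 212 1 1) (.lf 205 1 1)) (.lf 200 1 1) (.lf 197 1 1)) (.lf 223 1 1) (.nd 237 (.lf 216 1 1) (.lf 237 1 1)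 (.nd 231 (.nd 215 (.lf 215 1 1) (.lf 194 1 1) (.lf 170 1 1)) (.lf 215 1 1) (.lf 231 1 1))))) (.nd 215 (.lf 161 1 1) (.nd 215 (.nd 197 (.nd 170 (.lf 156 1 1) (.lf 170 1 1) (.lf 147 1 1)) (.lf 168 1 1) (.lf 197 1 1)) (.lf 208 1 1) (.lf 215 1 1)) (.nd 190 (.lf 164 1 1) (.lf 145 1 1) (.nd 190 (.lf 190 1 1) (.lf 183 1 1) (.lf 168 1 1)))) (.nd 199 (.nd 174 (.lf 145 1 1) (.lf 174 1 1) (.lf 167 1 1)) (.nd 197 (.lf 148 1 1) (.lf 197 1 1) (.lf 149 1 1)) (.lf 199 1 1))) (.nd 248 (.nd 232 (.nd 232 (.lf 232 1 1) (.lf 205 1 1) (.nd 204 (.lf 204 1 1) (.lf 168 1 1) (.lf 175 1 1))) (.nd 189 (.lf 176 1 1) (.nd 189 (.nd 188 (.lf 188 1 1) (.lf 177 1 1) (.lf 160 1 1)) (.lf 189 1 1) (.nd 185 (.lf 168 1 1) (.lf 185 1 1) (.lf 158 1 1))) (.lf 177 1 1)) (.lf 210 1 1)) (.nd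 248 (.lf 248 1 1) (.lf 226 1 1) (.nd 222 (.lf 222 1 1) (.lf 194 1 1) (.nd 217 (.nd 196 (.lf 196 1 1) (.nd 167 (.lf 136 1 1) (.lf 167 1 1) (.lf 137 1 1)) (.lf 167 1 1)) (.lf 217 1 1) (.lf 193 1 1)))) (.nd 233 (.nd 203 (.nd 203 (.nd 188 (.lf 152 1 1) (.lf 188 1 1) (.lf 188 1 1)) (.lf 203 1 1) (.lf 173 1 1)) (.lf 198 1 1) (.lf 151 1 1)) (.nd 202 (.lf 173 1 1) (.nd 202 (.nd 202 (.nd 187 (.lf 164 1 1) (.lf 187 1 1) (.lf 169 1 1)) (.lf 202 1 1) (.lf 179 1 1)) (.lf 187 1 1) (.lf 180 1 1)) (.lf 160 1 1)) (.lf 233 1 1))) (.nd 242 (.nd 231 (.nd 231 (.lf 191 1 1) (.lf 231 1 1) (.nd 204 (.lf 188 1 1) (.nd 204 (.lf 204 1 1) (.lf 194 1 1) (.nd 190 (.lf 164 1 1) (.lf 190 1 1) (.lf 190 1 1))) (.lf 193 1 1))) (.nd 194 (.nd 194 (.lf 192 1 1) (.lf 185 1 1) (.lf 194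 1 1)) (.lf 176 1 1) (.nd 162 (.lf 146 1 1) (.lf 162 1 1) (.lf 145 1 1))) (.nd 202 (.lf 172 1 1) (.lf 202 1 1) (.lf 169 1 1))) (.nd 203 (.lf 174 1 1) (.lf 198 1 1) (.nd 203 (.lf 174 1 1) (.lf 203 1 1) (.nd 186 (.lf 182 1 1) (.lf 186 1 1) (.lf 158 1 1)))) (.lf 242 1 1))))

def t15_59 : Tr := (.nd 153 (.nd 145 (.nd 145 (.nd 145 (.lf 129 1 2) (.lf 145 1 2) (.nd 121 (.lf 121 1 2) (.lf 121 1 2) (.nd 93 (.lf 93 1 2) (.lf 64 1 2) (.lf 88 1 2)))) (.lf 134 1 2) (.nd 138 (.lf 131 1 2) (.nd 118 (.lf 87 1 2) (.nd 118 (.lf 105 1 2) (.lf 97 1 2) (.nd 118 (.lf 118 1 2) (.lf 94 1 2) (.lf 95 1 2))) (.lf 108 1 2)) (.nd 138 (.lf 88 1 2) (.lf 116 1 2) (.lf 138 1 2)))) (.lf 122 1 2) (.nd 144 (.lf 144 1 2) (.lf 92 1 2) (.nd 122 (.nd 91 (.lf 91 1 2) (.nd 61 (.lf 56 1 2)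 (.lf 27 1 2) (.lf 61 1 2)) (.lf 58 1 2)) (.lf 94 1 2) (.lf 122 1 2)))) (.nd 153 (.nd 127 (.nd 97 (.nd 62 (.lf 59 1 2) (.lf 62 1 2) (.lf 39 1 2)) (.lf 92 1 2) (.lf 97 1 2)) (.lf 127 1 2) (.lf 125 1 2)) (.lf 127 1 2) (.lf 153 1 2)) (.nd 136 (.nd 136 (.lf 136 1 2) (.lf 123 1 2) (.lf 122 1 2)) (.lf 108 1 2) (.lf 132 1 2)))

def t15_61 : Tr := (.nd 210 (.nd 179 (.nd 148 (.lf 148 1 3) (.lf 124 1 3) (.nd 127 (.lf 80 1 3) (.lf 113 1 3) (.nd 127 (.lf 115 1 3) (.lf 93 1 3) (.nd 127 (.lf 103 1 3) (.lf 106 1 3) (.nd 127 (.lf 119 1 3) (.lf 113 1 3) (.lf 127 1 3)))))) (.nd 179 (.nd 157 (.lf 157 1 3) (.nd 146 (.lf 110 1 3) (.lf 146 1 3) (.lf 123 1 3)) (.lf 143 1 3)) (.nd 164 (.nd 149 (.nd 149 (.nd 128 (.lf 120 1 3) (.lf 128 1 3) (.lf 119 1 3)) (.lf 149 1 3) (.lf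 128 1 3)) (.lf 114 1 3) (.lf 118 1 3)) (.nd 144 (.nd 144 (.lf 131 1 3) (.lf 120 1 3) (.lf 144 1 3)) (.lf 98 1 3) (.nd 128 (.lf 128 1 3) (.lf 97 1 3) (.lf 100 1 3))) (.lf 164 1 3)) (.nd 179 (.nd 179 (.nd 179 (.lf 166 1 3) (.lf 179 1 3) (.lf 160 1 3)) (.lf 160 1 3) (.lf 157 1 3)) (.lf 164 1 3) (.lf 156 1 3))) (.nd 150 (.lf 99 1 3) (.nd 150 (.nd 124 (.nd 119 (.lf 80 1 3) (.lf 119 1 3) (.lf 97 1 3)) (.lf 95 1 3) (.lf 124 1 3)) (.lf 139 1 3) (.lf 150 1 3)) (.nd 144 (.lf 96 1 3) (.nd 144 (.lf 125 1 3) (.lf 125 1 3) (.nd 144 (.lf 119 1 3) (.lf 144 1 3) (.lf 123 1 3))) (.lf 101 1 3)))) (.nd 180 (.nd 175 (.lf 175 1 3) (.nd 127 (.lf 127 1 3) (.lf 97 1 3) (.lf 94 1 3)) (.lf 130 1 3)) (.nd 180 (.nd 150 (.lf 150 1 3) (.lf 148 1 3) (.nd 126 (.nd 126 (.lf 117 1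 3) (.lf 109 1 3) (.nd 126 (.lf 101 1 3) (.lf 126 1 3) (.lf 96 1 3))) (.lf 120 1 3) (.lf 100 1 3))) (.lf 180 1 3) (.lf 165 1 3)) (.lf 128 1 3)) (.nd 210 (.nd 195 (.lf 180 1 3) (.nd 195 (.lf 195 1 3) (.nd 189 (.lf 189 1 3) (.lf 165 1 3) (.lf 164 1 3)) (.lf 187 1 3)) (.nd 163 (.lf 163 1 3) (.lf 159 1 3) (.lf 129 1 3))) (.nd 188 (.nd 171 (.lf 155 1 3) (.lf 154 1 3) (.nd 171 (.lf 164 1 3) (.lf 171 1 3) (.lf 163 1 3))) (.nd 161 (.lf 148 1 3) (.lf 151 1 3) (.lf 161 1 3)) (.lf 188 1 3)) (.nd 210 (.nd 210 (.nd 210 (.lf 188 1 3) (.lf 210 1 3) (.lf 192 1 3)) (.lf 186 1 3) (.lf 196 1 3)) (.lf 190 1 3) (.nd 207 (.lf 168 1 3) (.lf 194 1 3) (.lf 207 1 3)))))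

def t15_62 : Tr := (.nd 230 (.nd 201 (.lf 201 1 4) (.nd 173 (.nd 156 (.lf 153 1 4) (.nd 139 (.nd 139 (.lf 133 1 4) (.lf 133 1 4) (.nd 139 (.lf 133 1 4) (.lf 139 1 4) (.lf 133 1 4))) (.lf 133 1 4) (.lf 133 1 4)) (.nd 156 (.nd 136 (.lf 133 1 4) (.nd 136 (.lf 133 1 4) (.lf 133 1 4) (.lf 136 1 4)) (.lf 133 1 4)) (.lf 156 1 4) (.lf 154 1 4))) (.nd 173 (.nd 173 (.lf 173 1 4) (.lf 163 1 4) (.nd 160 (.lf 133 1 4) (.lf 157 1 4) (.lf 160 1 4))) (.lf 166 1 4) (.nd 166 (.lf 161 1 4) (.nd 135 (.lf 135 1 4) (.lf 133 1 4) (.lf 133 1 4)) (.lf 166 1 4))) (.lf 170 1 4)) (.nd 193 (.lf 171 1 4) (.lf 193 1 4) (.nd 142 (.nd 135 (.lf 133 1 4) (.lf 135 1 4) (.lf 133 1 4)) (.lf 133 1 4) (.lf 142 1 4)))) (.lf 230 1 4) (.lf 223 1 4))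

def t15_64 : Tr := (.nd 170 (.nd 170 (.nd 170 (.nd 170 (.nd 159 (.nd 157 (.nd 157 (.lf 145 1 1) (.lf 157 1 1) (.lf 157 3 3)) (.nd 154 (.lf 154 2 3) (.lf 137 1 1) (.lf 142 2 3)) (.lf 154 1 1)) (.nd 159 (.nd 154 (.lf 117 2 3) (.lf 114 2 3) (.lf 154 3 3)) (.lf 115 2 3) (.nd 159 (.lf 137 2 3) (.lf 152 2 3) (.lf 159 1 1))) (.nd 152 (.lf 152 1 1) (.lf 127 2 3) (.lf 135 2 3))) (.lf 166 3 3) (.lf 170 1 1)) (.nd 167 (.lf 135 1 1) (.nd 133 (.lf 111 1 1) (.lf 114 1 1) (.nd 133 (.nd 133 (.lf 119 1 1) (.lf 133 3 3) (.lf 130 1 1)) (.lf 119 1 1) (.lf 122 1 1))) (.nd 167 (.nd 167 (.lf 167 1 1) (.lf 151 1 1) (.lf 145 1 1)) (.nd 160 (.lf 160 1 1) (.nd 153 (.lf 153 1 1) (.lf 153 1 1) (.lf 149 3 3)) (.lf 149 1 1)) (.nd 154 (.nd 137 (.lf 137 1 1) (.nd 137 (.lf 135 1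 1) (.lf 137 3 3) (.lf 137 1 1)) (.nd 137 (.lf 137 3 3) (.lf 136 3 3) (.lf 136 1 1))) (.lf 154 1 1) (.lf 151 1 1)))) (.nd 145 (.lf 116 1 1) (.lf 140 1 1) (.lf 145 1 1))) (.nd 161 (.nd 158 (.nd 158 (.lf 143 1 1) (.lf 136 1 1) (.lf 158 1 1)) (.lf 116 1 1) (.lf 130 1 1)) (.nd 161 (.nd 155 (.lf 141 3 3) (.nd 155 (.lf 153 1 1) (.nd 136 (.nd 129 (.lf 129 1 1) (.nd 111 (.lf 110 2 3) (.lf 110 3 3) (.lf 111 2 3)) (.lf 106 1 1)) (.nd 136 (.lf 113 3 3) (.lf 133 3 3) (.lf 136 1 1)) (.lf 136 1 1)) (.nd 155 (.lf 146 1 1) (.nd 155 (.lf 155 3 3) (.lf 137 3 3) (.lf 136 3 3)) (.lf 146 1 1))) (.lf 142 1 1)) (.nd 161 (.nd 161 (.nd 156 (.lf 156 3 3) (.nd 155 (.lf 155 1 1) (.lf 123 3 3) (.lf 136 3 3)) (.nd 156 (.nd 150 (.lf 132 2 3) (.lf 150 1 1) (.lf 142 1 1)) (.lf 150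 1 1) (.lf 156 3 3))) (.nd 161 (.lf 138 1 1) (.lf 151 1 1) (.lf 161 1 1)) (.lf 154 1 1)) (.lf 153 3 3) (.nd 127 (.lf 112 3 3) (.lf 127 1 1) (.nd 126 (.lf 86 1 1) (.lf 126 1 1) (.nd 126 (.lf 124 3 3) (.lf 126 1 1) (.lf 111 1 1))))) (.nd 150 (.nd 150 (.lf 135 1 1) (.lf 136 1 1) (.lf 150 1 1)) (.nd 150 (.lf 150 1 1) (.nd 141 (.lf 136 1 1) (.lf 89 1 1) (.lf 141 1 1)) (.nd 140 (.lf 109 1 1) (.lf 111 1 1) (.lf 140 1 1))) (.nd 140 (.lf 127 1 1) (.lf 122 1 1) (.lf 140 1 1)))) (.nd 144 (.nd 144 (.lf 144 1 1) (.nd 144 (.lf 136 1 1) (.lf 144 1 1) (.lf 137 1 1)) (.lf 140 1 1)) (.nd 123 (.nd 123 (.lf 110 1 1) (.lf 113 1 1) (.nd 123 (.lf 123 1 1) (.lf 94 1 1) (.lf 114 3 3))) (.nd 114 (.nd 114 (.lf 111 3 3) (.lf 111 1 1) (.lf 114 3 3)) (.lf 87 1 1) (.lf 82 1 1))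 (.lf 87 1 1)) (.lf 128 1 1))) (.nd 160 (.nd 152 (.nd 148 (.nd 131 (.lf 110 2 3) (.nd 131 (.lf 131 2 3) (.nd 131 (.lf 130 2 3) (.lf 131 1 1) (.lf 128 2 3)) (.lf 131 2 3)) (.lf 131 2 3)) (.lf 136 1 1) (.nd 148 (.lf 136 1 1) (.nd 148 (.nd 142 (.lf 142 1 1) (.lf 131 2 3) (.lf 132 2 3)) (.lf 148 1 1) (.lf 137 1 1)) (.lf 112 1 1))) (.nd 152 (.nd 152 (.nd 151 (.lf 144 2 3) (.nd 151 (.lf 132 2 3) (.lf 151 3 3) (.lf 131 2 3)) (.lf 151 2 3)) (.nd 136 (.nd 136 (.lf 128 2 3) (.lf 108 1 1) (.lf 136 1 1)) (.lf 136 3 3) (.lf 136 1 1)) (.nd 152 (.lf 152 1 1) (.lf 151 1 1) (.nd 152 (.nd 152 (.lf 150 1 1) (.lf 144 2 3) (.lf 152 1 1)) (.nd 147 (.lf 147 3 3) (.lf 140 3 3) (.lf 146 2 3)) (.lf 149 1 1)))) (.nd 151 (.lf 147 1 1) (.nd 151 (.nd 149 (.lf 116 1 1) (.lf 103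 2 3) (.nd 149 (.lf 143 2 3) (.lf 149 1 1) (.lf 128 2 3))) (.lf 146 2 3) (.lf 151 1 1)) (.lf 150 1 1)) (.nd 150 (.nd 150 (.lf 147 1 1) (.lf 147 1 1) (.nd 150 (.lf 136 2 3) (.lf 140 2 3) (.lf 150 1 1))) (.lf 122 1 1) (.lf 136 1 1))) (.nd 149 (.nd 136 (.nd 136 (.nd 132 (.lf 131 2 3) (.lf 132 2 3) (.lf 113 1 1)) (.nd 136 (.lf 136 3 3) (.lf 127 2 3) (.lf 126 2 3)) (.lf 136 2 3)) (.nd 136 (.nd 136 (.lf 134 2 3) (.lf 136 1 1) (.lf 106 2 3)) (.lf 136 1 1) (.nd 136 (.lf 128 2 3) (.lf 126 2 3) (.lf 136 1 1))) (.nd 136 (.nd 131 (.lf 126 1 1) (.lf 123 3 3) (.lf 131 3 3)) (.nd 136 (.lf 103 2 3) (.lf 136 1 1) (.lf 132 2 3)) (.nd 123 (.lf 123 2 3) (.nd 122 (.lf 122 1 1) (.lf 113 3 3) (.lf 110 3 3)) (.lf 111 3 3)))) (.nd 149 (.lf 136 2 3) (.lf 111 2 3) (.nd 149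 (.nd 148 (.lf 147 1 1) (.lf 148 2 3) (.lf 142 2 3)) (.lf 135 2 3) (.nd 149 (.lf 131 2 3) (.lf 135 2 3) (.nd 149 (.lf 149 2 3) (.lf 135 1 1) (.lf 149 2 3))))) (.nd 132 (.nd 132 (.lf 124 1 1) (.lf 95 2 3) (.lf 132 2 3)) (.lf 112 1 1) (.lf 130 2 3)))) (.nd 160 (.nd 158 (.nd 152 (.lf 152 1 1) (.nd 143 (.lf 117 1 1) (.lf 114 1 1) (.nd 143 (.lf 143 1 1) (.lf 143 1 1) (.lf 111 2 3))) (.lf 115 1 1)) (.nd 148 (.lf 135 1 1) (.lf 148 1 1) (.lf 125 1 1)) (.lf 158 1 1)) (.lf 141 1 1) (.nd 160 (.nd 160 (.nd 160 (.lf 160 1 1) (.lf 119 1 1) (.lf 122 1 1)) (.lf 150 1 1) (.lf 120 1 1)) (.nd 150 (.lf 150 1 1) (.nd 149 (.lf 149 1 1) (.lf 134 2 3) (.nd 143 (.lf 106 2 3) (.lf 134 2 3) (.nd 143 (.lf 135 1 1) (.lf 143 2 3) (.lf 128 2 3)))) (.lf 142 1 1)) (.lf 153 1 1)))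 (.nd 158 (.nd 158 (.nd 158 (.lf 152 1 1) (.lf 117 1 1) (.nd 158 (.lf 158 1 1) (.lf 142 1 1) (.lf 157 1 1))) (.lf 149 1 1) (.nd 147 (.nd 142 (.lf 129 1 1) (.nd 142 (.lf 136 2 3) (.lf 142 1 1) (.lf 139 2 3)) (.lf 129 1 1)) (.nd 147 (.lf 147 1 1) (.lf 139 2 3) (.lf 138 1 1)) (.lf 142 1 1))) (.nd 155 (.nd 146 (.lf 146 1 1) (.lf 141 1 1) (.lf 117 1 1)) (.nd 148 (.nd 115 (.lf 112 1 1) (.lf 84 2 3) (.lf 115 1 1)) (.lf 148 1 1) (.lf 135 2 3)) (.nd 155 (.nd 155 (.lf 155 1 1) (.nd 154 (.lf 154 2 3) (.lf 150 1 1) (.lf 152 1 1)) (.lf 154 1 1)) (.lf 152 1 1) (.lf 144 1 1))) (.nd 153 (.nd 150 (.lf 110 2 3) (.lf 138 2 3) (.nd 150 (.lf 147 2 3) (.lf 132 2 3) (.lf 150 1 1))) (.lf 153 1 1) (.nd 136 (.lf 112 2 3) (.nd 136 (.nd 132 (.lf 121 1 1) (.lf 131 2 3) (.lf 132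 2 3)) (.lf 136 2 3) (.lf 119 2 3)) (.lf 132 2 3)))))) (.nd 161 (.nd 161 (.nd 158 (.lf 119 1 1) (.nd 158 (.lf 141 1 1) (.lf 156 1 1) (.nd 158 (.lf 145 1 1) (.lf 145 1 1) (.nd 158 (.lf 157 1 1) (.lf 145 1 1) (.nd 158 (.lf 151 1 1) (.lf 153 1 1) (.nd 158 (.lf 158 3 3) (.lf 158 3 3) (.lf 153 1 1)))))) (.lf 147 1 1)) (.nd 155 (.lf 139 1 1) (.nd 155 (.nd 155 (.lf 140 1 1) (.lf 155 1 1) (.lf 122 1 1)) (.lf 145 1 1) (.nd 155 (.lf 145 1 1) (.lf 155 1 1) (.lf 155 1 1))) (.lf 139 1 1)) (.nd 161 (.lf 153 1 1) (.nd 157 (.lf 150 1 1) (.nd 157 (.lf 157 1 1) (.lf 141 1 1) (.lf 150 1 1)) (.lf 151 1 1)) (.nd 161 (.lf 161 1 1) (.lf 155 1 1) (.nd 160 (.nd 157 (.lf 134 1 1) (.lf 138 1 1) (.lf 157 2 3)) (.lf 160 1 1) (.lf 159 1 1))))) (.nd 137 (.lf 124 1 1) (.lf 121 1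 1) (.nd 137 (.nd 136 (.lf 129 1 1) (.lf 134 1 1) (.nd 136 (.lf 133 1 1) (.nd 136 (.lf 136 1 1) (.lf 133 1 1) (.lf 132 2 3)) (.lf 135 1 1))) (.nd 137 (.lf 121 1 1) (.lf 93 1 1) (.lf 137 1 1)) (.lf 126 1 1))) (.nd 147 (.nd 127 (.lf 96 1 1) (.lf 127 1 1) (.lf 92 1 1)) (.nd 128 (.lf 76 1 1) (.nd 123 (.lf 123 1 1) (.lf 75 1 1) (.lf 78 1 1)) (.nd 128 (.lf 113 1 1) (.lf 98 1 1) (.nd 128 (.lf 104 1 1) (.nd 128 (.lf 128 1 1) (.lf 114 1 1) (.lf 127 1 1)) (.lf 102 1 1)))) (.nd 147 (.lf 136 1 1) (.nd 147 (.lf 138 1 1) (.nd 145 (.nd 142 (.lf 119 1 1) (.lf 108 1 1) (.nd 142 (.lf 142 1 1) (.lf 131 1 1) (.lf 128 1 1))) (.lf 145 1 1) (.lf 116 1 1)) (.lf 147 1 1)) (.lf 143 1 1)))) (.nd 159 (.nd 143 (.nd 143 (.nd 130 (.lf 106 1 1) (.lf 130 1 1) (.lf 115 1 1)) (.nd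 124 (.lf 100 1 1) (.nd 124 (.lf 124 1 1) (.lf 72 1 1) (.lf 102 1 1)) (.lf 122 1 1)) (.lf 143 1 1)) (.lf 102 1 1) (.lf 127 1 1)) (.nd 159 (.nd 159 (.nd 157 (.lf 146 1 1) (.nd 157 (.nd 157 (.nd 146 (.lf 141 3 3) (.lf 144 3 3) (.lf 146 1 1)) (.lf 157 1 1) (.lf 142 3 3)) (.lf 142 1 1) (.lf 136 1 1)) (.nd 157 (.lf 144 1 1) (.nd 156 (.nd 156 (.lf 116 2 3) (.lf 144 2 3) (.lf 156 3 3)) (.lf 153 1 1) (.lf 144 2 3)) (.lf 157 1 1))) (.nd 159 (.lf 156 1 1) (.lf 159 1 1) (.nd 157 (.lf 142 1 1) (.nd 153 (.lf 139 3 3) (.lf 153 1 1) (.nd 148 (.lf 111 3 3) (.lf 148 1 1) (.lf 139 3 3))) (.nd 157 (.lf 154 1 1) (.nd 151 (.lf 141 3 3) (.lf 141 3 3) (.lf 151 1 1)) (.nd 157 (.lf 151 1 1) (.lf 157 2 3) (.lf 121 1 1))))) (.nd 159 (.lf 145 1 1) (.nd 157 (.lf 156 1 1) (.lf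 151 1 1) (.nd 157 (.nd 157 (.lf 157 1 1) (.lf 155 1 1) (.nd 152 (.lf 139 1 1) (.lf 146 2 3) (.lf 152 1 1))) (.lf 138 1 1) (.lf 154 1 1))) (.nd 159 (.lf 131 1 1) (.lf 117 1 1) (.lf 159 1 1)))) (.nd 148 (.nd 148 (.nd 144 (.lf 114 2 3) (.nd 144 (.lf 109 2 3) (.lf 114 2 3) (.lf 144 1 1)) (.lf 139 1 1)) (.nd 148 (.nd 148 (.nd 148 (.lf 140 1 1) (.nd 148 (.lf 148 1 1) (.lf 146 1 1) (.lf 125 2 3)) (.lf 146 1 1)) (.lf 145 1 1) (.lf 147 1 1)) (.lf 139 1 1) (.lf 145 1 1)) (.nd 146 (.lf 146 2 3) (.nd 146 (.lf 136 3 3) (.nd 137 (.lf 137 3 3) (.lf 137 2 3) (.lf 108 3 3)) (.nd 146 (.nd 145 (.lf 134 3 3) (.lf 129 2 3) (.lf 145 2 3)) (.nd 144 (.lf 140 1 1) (.lf 144 3 3) (.lf 143 3 3)) (.lf 146 3 3))) (.lf 140 2 3))) (.lf 144 1 1) (.lf 138 1 1)) (.nd 145 (.nd 143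 (.nd 143 (.lf 120 1 1) (.lf 143 1 1) (.nd 142 (.nd 142 (.lf 142 2 3) (.lf 133 1 1) (.lf 134 1 1)) (.lf 142 1 1) (.lf 127 2 3))) (.nd 143 (.nd 143 (.nd 143 (.lf 142 1 1) (.lf 143 2 3) (.lf 136 2 3)) (.lf 137 2 3) (.nd 133 (.lf 133 1 1) (.lf 129 2 3) (.lf 128 2 3))) (.lf 143 2 3) (.lf 115 2 3)) (.lf 143 2 3)) (.nd 145 (.lf 129 1 1) (.lf 128 1 1) (.nd 145 (.lf 137 1 1) (.lf 144 1 1) (.lf 145 2 3))) (.nd 138 (.lf 117 1 1) (.nd 138 (.lf 127 1 1) (.nd 138 (.lf 138 1 1) (.lf 94 1 1) (.lf 122 1 1)) (.nd 132 (.nd 126 (.lf 125 1 1) (.lf 126 1 1) (.nd 125 (.lf 125 1 1) (.lf 111 2 3) (.lf 108 2 3))) (.lf 130 1 1) (.nd 132 (.lf 129 1 1) (.lf 132 1 1) (.lf 113 2 3)))) (.nd 122 (.lf 103 1 1) (.lf 102 1 1) (.lf 122 1 1))))) (.nd 137 (.nd 137 (.nd 118 (.nd 114 (.lf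 105 1 1) (.lf 84 1 1) (.nd 114 (.lf 114 1 1) (.lf 105 3 3) (.lf 102 3 3))) (.lf 117 1 1) (.nd 118 (.nd 118 (.nd 118 (.lf 105 3 3) (.lf 118 1 1) (.lf 118 1 1)) (.lf 109 1 1) (.lf 111 1 1)) (.nd 116 (.lf 107 3 3) (.lf 98 3 3) (.nd 116 (.lf 116 1 1) (.lf 116 1 1) (.lf 101 3 3))) (.lf 107 3 3))) (.lf 133 1 1) (.nd 137 (.nd 136 (.lf 136 3 3) (.lf 107 3 3) (.lf 131 1 1)) (.lf 129 1 1) (.lf 137 1 1))) (.nd 118 (.lf 118 1 1) (.lf 109 1 1) (.lf 73 1 1)) (.nd 122 (.lf 122 1 1) (.lf 105 1 1) (.lf 92 1 1)))))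

def t15_65 : Tr := (.nd 202 (.nd 202 (.nd 182 (.nd 158 (.nd 124 (.nd 119 (.lf 67 1 2) (.lf 119 1 2) (.lf 95 1 2)) (.lf 95 1 2) (.lf 124 1 2)) (.lf 152 1 2) (.nd 158 (.lf 144 1 2) (.nd 158 (.lf 148 1 2) (.lf 158 1 2) (.lf 145 1 2)) (.lf 152 1 2))) (.nd 182 (.lf 182 1 2) (.nd 176 (.lf 172 1 2) (.lf 176 1 2) (.nd 173 (.lf 150 1 2) (.nd 173 (.lf 173 1 2) (.lf 159 1 2) (.nd 160 (.lf 160 1 2) (.lf 160 1 2) (.lf 160 1 2))) (.lf 151 1 2))) (.lf 182 1 2)) (.nd 160 (.nd 160 (.nd 160 (.nd 160 (.lf 153 1 2) (.nd 160 (.lf 130 2 2) (.lf 144 2 2) (.lf 160 1 2)) (.lf 160 1 2)) (.lf 151 1 2) (.lf 159 1 2)) (.lf 154 1 2) (.lf 155 1 2)) (.lf 136 1 2) (.lf 144 1 2))) (.nd 202 (.nd 193 (.nd 181 (.lf 156 1 2) (.lf 181 1 2) (.lf 180 1 2)) (.nd 193 (.nd 193 (.nd 193 (.lf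 162 2 2) (.lf 193 2 2) (.lf 163 2 2)) (.lf 184 1 2) (.lf 183 1 2)) (.lf 183 1 2) (.lf 188 1 2)) (.nd 191 (.nd 183 (.lf 173 1 2) (.lf 179 1 2) (.nd 183 (.nd 183 (.lf 174 1 2) (.lf 173 1 2) (.lf 183 1 2)) (.nd 181 (.lf 158 1 2) (.lf 159 1 2) (.lf 181 1 2)) (.lf 171 1 2))) (.nd 191 (.lf 163 1 2) (.nd 181 (.lf 175 1 2) (.lf 181 1 2) (.lf 173 1 2)) (.nd 191 (.nd 191 (.lf 191 1 2) (.nd 171 (.lf 165 2 2) (.lf 171 1 2) (.lf 163 2 2)) (.lf 182 1 2)) (.lf 165 1 2) (.lf 162 1 2))) (.nd 183 (.lf 158 1 2) (.nd 183 (.lf 183 1 2) (.lf 134 1 2) (.lf 158 1 2)) (.nd 183 (.lf 172 1 2) (.lf 183 1 2) (.lf 172 1 2))))) (.nd 202 (.nd 202 (.lf 183 1 2) (.nd 202 (.nd 188 (.lf 187 1 2) (.lf 174 1 2) (.lf 188 1 2)) (.nd 188 (.nd 188 (.lf 178 1 2) (.lf 159 1 2) (.lf 188 1 2))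 (.lf 176 1 2) (.lf 183 1 2)) (.lf 202 1 2)) (.lf 187 1 2)) (.nd 189 (.nd 155 (.lf 140 1 2) (.nd 140 (.lf 110 1 2) (.lf 140 1 2) (.lf 97 1 2)) (.lf 155 1 2)) (.lf 166 1 2) (.nd 189 (.lf 189 1 2) (.lf 186 1 2) (.lf 178 1 2))) (.nd 163 (.lf 142 1 2) (.lf 163 1 2) (.lf 138 1 2))) (.nd 180 (.nd 180 (.lf 172 1 2) (.nd 180 (.lf 164 1 2) (.lf 162 1 2) (.lf 180 1 2)) (.nd 174 (.nd 174 (.lf 174 1 2) (.lf 151 1 2) (.lf 171 1 2)) (.lf 161 1 2) (.lf 173 1 2))) (.lf 166 1 2) (.nd 180 (.lf 152 1 2) (.nd 180 (.lf 171 1 2) (.lf 163 1 2) (.lf 180 1 2)) (.lf 138 1 2)))) (.nd 183 (.nd 183 (.nd 183 (.nd 170 (.lf 170 2 2) (.nd 169 (.lf 167 2 2) (.lf 159 1 2) (.lf 169 1 2)) (.lf 165 1 2)) (.nd 183 (.nd 177 (.lf 177 1 2) (.lf 159 1 2) (.lf 162 1 2)) (.nd 181 (.lf 181 1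 2) (.nd 180 (.lf 174 1 2) (.lf 171 1 2) (.lf 180 1 2)) (.nd 181 (.lf 158 1 2) (.lf 163 1 2) (.lf 181 1 2))) (.lf 183 1 2)) (.nd 162 (.nd 162 (.lf 162 1 2) (.lf 141 2 2) (.lf 162 1 2)) (.lf 161 1 2) (.lf 162 1 2))) (.nd 183 (.lf 141 1 2) (.lf 183 1 2) (.nd 167 (.lf 167 1 2) (.lf 143 1 2) (.lf 140 1 2))) (.nd 177 (.lf 177 1 2) (.lf 153 1 2) (.lf 152 1 2))) (.nd 148 (.lf 146 1 2) (.lf 143 1 2) (.nd 148 (.nd 143 (.lf 108 1 2) (.lf 143 1 2) (.lf 143 1 2)) (.lf 148 1 2) (.lf 142 1 2))) (.nd 169 (.nd 145 (.nd 133 (.nd 133 (.lf 111 1 2) (.lf 112 1 2) (.lf 133 1 2)) (.lf 114 1 2) (.lf 108 1 2)) (.lf 98 1 2) (.nd 145 (.lf 145 1 2) (.lf 97 1 2) (.lf 100 1 2))) (.nd 169 (.lf 150 1 2) (.lf 169 1 2) (.nd 159 (.nd 159 (.lf 159 1 2) (.lf 144 1 2) (.lf 158 1 2))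 (.lf 133 1 2) (.lf 134 1 2))) (.lf 149 1 2)))) (.nd 175 (.nd 123 (.nd 123 (.lf 123 1 2) (.nd 106 (.lf 102 1 2) (.nd 106 (.lf 106 1 2) (.lf 93 1 2) (.lf 92 1 2)) (.lf 78 1 2)) (.nd 115 (.lf 115 1 2) (.nd 92 (.nd 84 (.lf 84 1 2) (.lf 61 1 2) (.lf 33 1 2)) (.lf 61 1 2) (.lf 92 1 2)) (.nd 114 (.lf 62 1 2) (.nd 92 (.lf 92 1 2) (.lf 61 1 2) (.lf 64 1 2)) (.lf 114 1 2)))) (.lf 94 1 2) (.nd 118 (.lf 94 1 2) (.nd 118 (.lf 88 1 2) (.nd 118 (.lf 94 1 2) (.lf 118 1 2) (.lf 87 1 2)) (.nd 103 (.lf 80 1 2) (.lf 103 1 2) (.lf 79 1 2))) (.lf 66 1 2))) (.nd 175 (.nd 160 (.nd 136 (.lf 111 1 2) (.lf 116 1 2) (.lf 136 1 2)) (.lf 160 1 2) (.lf 137 1 2)) (.nd 175 (.lf 149 1 2) (.lf 175 1 2) (.lf 151 1 2)) (.nd 145 (.nd 145 (.lf 145 1 2) (.nd 123 (.lf 95 1 2) (.nd 92 (.lf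 92 1 2) (.lf 59 1 2) (.lf 62 1 2)) (.lf 123 1 2)) (.nd 93 (.lf 93 1 2) (.lf 64 1 2) (.lf 88 1 2))) (.lf 121 1 2) (.lf 143 1 2))) (.nd 170 (.lf 122 1 2) (.nd 170 (.nd 151 (.lf 128 1 2) (.nd 151 (.lf 127 1 2) (.lf 151 1 2) (.lf 126 1 2)) (.lf 146 1 2)) (.nd 170 (.nd 170 (.lf 144 1 2) (.lf 170 1 2) (.lf 146 1 2)) (.lf 142 1 2) (.lf 145 1 2)) (.nd 151 (.lf 139 1 2) (.nd 151 (.lf 134 1 2) (.lf 115 1 2) (.nd 151 (.lf 137 1 2) (.lf 137 1 2) (.lf 151 1 2))) (.lf 142 1 2))) (.nd 125 (.lf 125 1 2) (.lf 96 1 2) (.nd 96 (.lf 66 1 2) (.lf 96 1 2) (.nd 65 (.lf 34 1 2) (.lf 65 1 2) (.lf 36 1 2)))))) (.nd 174 (.nd 174 (.nd 174 (.nd 151 (.nd 150 (.nd 147 (.lf 132 1 2) (.lf 147 1 2) (.lf 134 1 2)) (.lf 149 1 2) (.lf 150 1 2)) (.nd 151 (.lf 117 1 2) (.lf 107 1 2) (.nd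 151 (.nd 151 (.lf 137 1 2) (.lf 151 1 2) (.lf 138 1 2)) (.lf 132 1 2) (.lf 134 1 2))) (.lf 133 1 2)) (.nd 159 (.lf 159 1 2) (.nd 159 (.nd 159 (.lf 147 1 2) (.lf 159 1 2) (.lf 155 1 2)) (.lf 150 1 2) (.lf 156 1 2)) (.lf 136 1 2)) (.nd 174 (.lf 155 1 2) (.nd 174 (.lf 155 1 2) (.lf 174 1 2) (.nd 161 (.lf 161 1 2) (.lf 161 1 2) (.lf 137 1 2))) (.lf 152 1 2))) (.nd 159 (.nd 139 (.lf 123 1 2) (.lf 93 1 2) (.lf 139 1 2)) (.nd 144 (.lf 109 1 2) (.nd 144 (.lf 123 1 2) (.lf 144 1 2) (.lf 123 1 2)) (.lf 113 1 2)) (.lf 159 1 2)) (.nd 152 (.nd 152 (.lf 138 1 2) (.lf 152 1 2) (.lf 142 1 2)) (.lf 138 1 2) (.nd 141 (.lf 141 1 2) (.lf 105 1 2) (.lf 118 1 2)))) (.nd 135 (.nd 119 (.nd 91 (.lf 81 1 2) (.lf 91 1 2) (.lf 36 1 2)) (.nd 119 (.lf 119 1 2) (.nd 119 (.nd 119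 (.lf 119 1 2) (.lf 96 1 2) (.lf 80 1 2)) (.lf 114 1 2) (.lf 118 1 2)) (.nd 100 (.lf 88 1 2) (.lf 100 1 2) (.lf 83 1 2))) (.lf 97 1 2)) (.nd 135 (.nd 135 (.lf 135 1 2) (.nd 120 (.nd 108 (.lf 76 1 2) (.lf 108 1 2) (.lf 108 1 2)) (.lf 120 1 2) (.lf 113 1 2)) (.lf 133 1 2)) (.lf 125 1 2) (.lf 128 1 2)) (.nd 122 (.nd 108 (.lf 108 1 2) (.lf 65 1 2) (.lf 60 1 2)) (.lf 65 1 2) (.nd 122 (.lf 122 1 2) (.lf 88 1 2) (.lf 110 1 2)))) (.nd 143 (.lf 120 1 2) (.nd 143 (.nd 134 (.nd 134 (.lf 112 1 2) (.lf 119 1 2) (.nd 134 (.lf 120 1 2) (.nd 131 (.lf 119 1 2) (.lf 131 1 2) (.lf 116 1 2)) (.lf 134 1 2))) (.lf 119 1 2) (.lf 106 1 2)) (.lf 119 1 2) (.lf 143 1 2)) (.lf 94 1 2))))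

def t15_67 : Tr := (.nd 148 (.nd 96 (.nd 96 (.lf 88 2 1) (.lf 79 2 1) (.lf 96 2 1)) (.nd 91 (.nd 91 (.lf 76 2 1) (.nd 91 (.nd 91 (.nd 91 (.lf 76 2 1) (.lf 65 2 1) (.lf 91 2 1)) (.lf 90 2 1) (.lf 77 2 1)) (.lf 67 2 1) (.lf 60 2 1)) (.lf 61 2 1)) (.lf 67 2 1) (.lf 39 2 1)) (.nd 67 (.nd 38 (.lf 9 2 1) (.lf 38 2 1) (.lf 38 2 1)) (.nd 61 (.lf 39 2 1) (.lf 61 2 1) (.lf 10 2 1)) (.nd 67 (.nd 67 (.lf 45 2 1) (.lf 67 2 1) (.lf 46 2 1)) (.lf 48 2 1) (.nd 58 (.lf 58 2 1) (.lf 36 2 1) (.lf 50 2 1))))) (.nd 143 (.nd 98 (.nd 98 (.nd 98 (.lf 75 2 1) (.lf 95 2 1) (.nd 98 (.nd 84 (.lf 61 2 1) (.lf 52 2 1) (.lf 84 2 1)) (.lf 98 2 1) (.lf 93 2 1))) (.nd 82 (.lf 81 2 1) (.lf 72 2 1) (.nd 82 (.lf 82 2 1) (.nd 82 (.lf 82 2 1) (.lf 63 2 1) (.lf 33 2 1)) (.lf 64 2 1)))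 (.nd 92 (.lf 88 2 1) (.lf 82 2 1) (.nd 92 (.lf 78 2 1) (.lf 92 2 1) (.nd 88 (.lf 43 2 1) (.lf 64 2 1) (.lf 88 2 1))))) (.lf 69 2 1) (.lf 69 2 1)) (.nd 143 (.nd 124 (.lf 119 2 1) (.nd 124 (.lf 100 2 1) (.lf 99 2 1) (.lf 124 2 1)) (.lf 102 2 1)) (.nd 124 (.nd 124 (.lf 124 2 1) (.lf 88 2 1) (.lf 107 2 1)) (.nd 112 (.lf 111 2 1) (.nd 112 (.lf 112 2 1) (.lf 108 2 1) (.lf 90 2 1)) (.lf 111 2 1)) (.nd 115 (.lf 90 2 1) (.lf 115 2 1) (.lf 108 2 1))) (.nd 143 (.nd 115 (.lf 115 2 1) (.lf 104 2 1) (.lf 104 2 1)) (.nd 143 (.nd 143 (.lf 142 2 1) (.nd 143 (.lf 121 2 1) (.lf 143 2 1) (.lf 113 2 1)) (.lf 126 2 1)) (.lf 117 2 1) (.nd 120 (.lf 114 2 1) (.lf 110 2 1) (.lf 120 2 1))) (.nd 118 (.nd 118 (.lf 118 2 1) (.lf 90 2 1) (.lf 104 2 1)) (.lf 96 2 1) (.lf 93 2 1))))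 (.nd 95 (.lf 65 2 1) (.nd 62 (.lf 62 2 1) (.lf 25 2 1) (.lf 33 2 1)) (.nd 95 (.lf 73 2 1) (.lf 70 2 1) (.nd 95 (.nd 95 (.nd 95 (.lf 73 2 1) (.lf 78 2 1) (.lf 95 2 1)) (.lf 81 2 1) (.lf 71 2 1)) (.lf 92 2 1) (.lf 70 2 1))))) (.nd 148 (.nd 118 (.nd 116 (.lf 109 2 1) (.lf 116 2 1) (.nd 106 (.lf 101 2 1) (.nd 106 (.lf 88 2 1) (.lf 84 2 1) (.lf 106 2 1)) (.lf 89 2 1))) (.nd 94 (.lf 94 2 1) (.lf 88 2 1) (.lf 68 2 1)) (.nd 118 (.lf 66 2 1) (.nd 96 (.lf 68 2 1) (.lf 96 2 1) (.lf 65 2 1)) (.lf 118 2 1))) (.nd 148 (.nd 124 (.nd 124 (.lf 119 2 1) (.lf 103 2 1) (.nd 124 (.lf 124 2 1) (.lf 104 2 1) (.lf 122 2 1))) (.nd 120 (.lf 79 2 1) (.lf 97 2 1) (.nd 120 (.nd 120 (.lf 120 2 1) (.lf 114 2 1) (.lf 111 2 1)) (.lf 110 2 1) (.lf 97 2 1))) (.nd 116 (.lf 116 2 1)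 (.lf 90 2 1) (.lf 111 2 1))) (.nd 148 (.nd 148 (.nd 122 (.lf 107 2 1) (.nd 121 (.lf 121 2 1) (.lf 121 2 1) (.lf 91 2 1)) (.lf 122 2 1)) (.nd 133 (.lf 95 2 1) (.lf 106 2 1) (.lf 133 2 1)) (.nd 148 (.lf 126 2 1) (.lf 122 2 1) (.nd 148 (.lf 128 2 1) (.lf 142 2 1) (.lf 148 2 1)))) (.nd 134 (.lf 129 2 1) (.lf 132 2 1) (.nd 134 (.nd 134 (.lf 116 2 1) (.lf 87 2 1) (.lf 134 2 1)) (.lf 114 2 1) (.lf 132 2 1))) (.nd 147 (.lf 147 2 1) (.lf 140 2 1) (.nd 146 (.lf 132 2 1) (.nd 139 (.lf 124 2 1) (.lf 139 2 1) (.lf 94 2 1)) (.nd 146 (.lf 146 2 1) (.lf 141 2 1) (.lf 137 2 1))))) (.nd 122 (.nd 122 (.lf 96 2 1) (.lf 122 2 1) (.lf 111 2 1)) (.lf 105 2 1) (.nd 117 (.lf 88 2 1) (.lf 107 2 1) (.nd 117 (.lf 104 2 1) (.lf 112 2 1) (.nd 117 (.lf 96 2 1) (.lf 91 2 1) (.lf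 117 2 1)))))) (.nd 133 (.nd 110 (.lf 91 2 1) (.lf 92 2 1) (.lf 110 2 1)) (.nd 133 (.nd 116 (.nd 112 (.lf 112 2 1) (.lf 91 2 1) (.lf 107 2 1)) (.lf 116 2 1) (.lf 93 2 1)) (.nd 122 (.nd 101 (.lf 80 2 1) (.lf 89 2 1) (.lf 101 2 1)) (.lf 91 2 1) (.lf 122 2 1)) (.nd 133 (.nd 133 (.lf 133 2 1) (.lf 121 2 1) (.lf 129 2 1)) (.nd 123 (.lf 123 2 1) (.lf 109 2 1) (.lf 123 2 1)) (.lf 124 2 1))) (.nd 109 (.lf 84 2 1) (.nd 109 (.lf 96 2 1) (.lf 109 2 1) (.lf 95 2 1)) (.lf 89 2 1)))))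

def t15_68 : Tr := (.nd 252 (.nd 202 (.lf 202 1 2) (.lf 197 1 2) (.nd 173 (.nd 167 (.lf 167 1 2) (.lf 116 1 2) (.lf 145 1 2)) (.nd 173 (.nd 164 (.lf 142 1 2) (.nd 156 (.lf 156 1 2) (.lf 110 1 2) (.lf 140 1 2)) (.lf 164 1 2)) (.lf 173 1 2) (.lf 154 1 2)) (.lf 144 1 2))) (.lf 228 1 2) (.nd 252 (.lf 238 1 2) (.nd 224 (.nd 200 (.nd 194 (.lf 170 1 2) (.lf 143 1 2) (.lf 194 1 2)) (.lf 174 1 2) (.nd 200 (.nd 200 (.lf 175 1 2) (.lf 200 1 2) (.lf 170 1 2)) (.lf 191 1 2) (.lf 183 1 2))) (.lf 224 1 2) (.lf 222 1 2)) (.nd 252 (.lf 228 1 2) (.lf 230 1 2) (.nd 252 (.lf 238 1 2) (.nd 252 (.nd 252 (.lf 241 1 4) (.lf 252 1 2) (.lf 247 1 2)) (.lf 246 1 2) (.lf 252 1 2)) (.lf 248 1 2)))))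

def t15_70 : Tr := (.nd 243 (.nd 243 (.nd 243 (.nd 233 (.nd 233 (.lf 206 1 3) (.lf 233 1 3) (.lf 204 1 3)) (.lf 233 1 3) (.nd 219 (.lf 219 1 3) (.lf 201 1 3) (.lf 216 1 3))) (.nd 234 (.lf 233 1 3) (.nd 234 (.lf 221 1 3) (.lf 234 1 3) (.nd 233 (.lf 233 1 3) (.lf 233 1 3) (.lf 208 1 3))) (.lf 230 1 3)) (.nd 243 (.nd 231 (.nd 223 (.nd 204 (.lf 204 1 3) (.lf 152 1 3) (.lf 199 1 3)) (.lf 223 1 3) (.lf 203 1 3)) (.lf 231 1 3) (.lf 226 1 3)) (.nd 239 (.nd 230 (.lf 230 1 3) (.lf 178 1 3) (.lf 225 1 3)) (.lf 239 1 3) (.lf 229 1 3)) (.lf 243 1 3))) (.nd 226 (.nd 226 (.lf 226 1 3) (.lf 205 1 3) (.lf 202 1 3)) (.lf 203 1 3) (.nd 222 (.nd 217 (.lf 196 1 3) (.lf 207 1 3) (.lf 217 1 3)) (.nd 222 (.nd 222 (.lf 220 1 3) (.nd 222 (.lf 222 1 3) (.lf 216 1 3) (.lf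 215 1 3)) (.lf 222 1 3)) (.nd 221 (.lf 221 1 3) (.lf 220 1 3) (.nd 218 (.lf 195 1 3) (.lf 205 1 3) (.lf 218 1 3))) (.lf 221 1 3)) (.nd 201 (.lf 195 1 3) (.nd 201 (.nd 195 (.lf 144 1 3) (.lf 171 1 3) (.lf 195 1 3)) (.lf 201 1 3) (.lf 175 1 3)) (.nd 195 (.nd 195 (.lf 195 1 3) (.lf 190 1 3) (.lf 182 1 3)) (.lf 194 1 3) (.lf 167 1 3))))) (.nd 232 (.nd 211 (.nd 199 (.lf 177 1 3) (.lf 171 1 3) (.lf 199 1 3)) (.nd 211 (.nd 205 (.lf 200 1 3) (.lf 177 1 3) (.nd 205 (.lf 191 1 3) (.lf 202 1 3) (.lf 205 1 3))) (.nd 208 (.lf 208 1 3) (.lf 178 1 3) (.nd 208 (.lf 208 1 3) (.lf 177 1 3) (.lf 180 1 3))) (.nd 211 (.lf 207 1 3) (.nd 211 (.lf 207 1 3) (.lf 207 1 3) (.lf 211 1 3)) (.lf 209 1 3))) (.lf 190 1 3)) (.nd 201 (.lf 174 1 3) (.nd 200 (.lf 176 1 3) (.nd 200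 (.lf 197 1 3) (.lf 191 1 3) (.lf 200 1 3)) (.lf 171 1 3)) (.nd 201 (.lf 201 1 3) (.nd 201 (.lf 199 1 3) (.lf 186 1 3) (.nd 201 (.lf 199 1 3) (.lf 201 1 3) (.lf 192 1 3))) (.lf 199 1 3))) (.nd 232 (.lf 222 1 3) (.lf 232 1 3) (.nd 232 (.lf 193 1 3) (.lf 232 1 3) (.lf 211 1 3))))) (.nd 219 (.nd 219 (.nd 205 (.nd 201 (.nd 175 (.lf 150 1 3) (.lf 150 1 3) (.nd 175 (.lf 175 1 3) (.lf 146 1 3) (.lf 168 1 3))) (.nd 176 (.lf 143 1 3) (.lf 146 1 3) (.lf 176 1 3)) (.lf 201 1 3)) (.lf 177 1 3) (.nd 205 (.lf 203 1 3) (.lf 205 1 3) (.lf 172 1 3))) (.nd 206 (.lf 199 1 3) (.lf 206 1 3) (.nd 197 (.lf 197 1 3) (.lf 176 1 3) (.lf 173 1 3))) (.nd 219 (.nd 218 (.lf 198 1 3) (.lf 212 1 3) (.lf 218 1 3)) (.nd 214 (.lf 204 1 3) (.lf 214 1 3) (.lf 190 1 3)) (.nd 219 (.lf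 204 1 3) (.lf 219 1 3) (.lf 210 1 3)))) (.nd 199 (.lf 180 1 3) (.nd 199 (.lf 199 1 3) (.nd 198 (.lf 198 1 3) (.lf 151 1 3) (.nd 188 (.lf 174 1 3) (.lf 146 1 3) (.lf 188 1 3))) (.nd 198 (.lf 198 1 3) (.lf 171 1 3) (.nd 173 (.lf 122 1 3) (.lf 148 1 3) (.lf 173 1 3)))) (.lf 199 1 3)) (.nd 194 (.lf 176 1 3) (.lf 194 1 3) (.lf 175 1 3))) (.nd 220 (.nd 202 (.lf 150 1 3) (.nd 197 (.lf 197 1 3) (.lf 149 1 3) (.lf 152 1 3)) (.lf 202 1 3)) (.nd 220 (.lf 203 1 3) (.nd 210 (.nd 196 (.lf 176 1 3) (.lf 196 1 3) (.lf 172 1 3)) (.lf 173 1 3) (.lf 210 1 3)) (.lf 220 1 3)) (.nd 201 (.nd 170 (.lf 147 1 3) (.nd 121 (.nd 121 (.lf 121 1 3) (.lf 102 1 3) (.lf 111 1 3)) (.lf 92 1 3) (.lf 114 1 3)) (.lf 170 1 3)) (.lf 162 1 3) (.nd 201 (.lf 201 1 3) (.lf 179 1 3) (.nd 186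 (.lf 166 1 3) (.lf 186 1 3) (.lf 171 1 3))))))

def t15_73 : Tr := (.nd 241 (.nd 209 (.nd 209 (.nd 202 (.lf 192 1 1) (.nd 192 (.lf 192 1 1) (.lf 149 1 1) (.lf 168 1 1)) (.nd 202 (.nd 202 (.lf 199 1 1) (.lf 200 1 1) (.nd 202 (.nd 196 (.lf 191 1 3) (.lf 196 1 1) (.lf 189 1 3)) (.lf 201 1 1) (.nd 202 (.lf 199 1 3) (.lf 202 1 3) (.lf 201 1 1)))) (.lf 201 1 1) (.lf 202 1 1))) (.nd 209 (.nd 209 (.lf 209 1 1) (.lf 194 1 1) (.lf 195 1 3)) (.lf 172 1 1) (.nd 208 (.lf 171 1 1) (.lf 174 1 1) (.nd 208 (.lf 200 1 1) (.lf 208 2 3) (.lf 200 1 1)))) (.nd 207 (.nd 207 (.lf 204 1 3) (.lf 207 1 1) (.lf 204 1 1)) (.nd 200 (.lf 194 1 3) (.lf 199 1 1) (.nd 200 (.lf 163 1 3) (.nd 200 (.lf 200 2 3) (.lf 152 1 1) (.lf 199 1 1)) (.lf 192 1 3))) (.nd 203 (.lf 201 1 3) (.nd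 203 (.lf 203 1 3) (.lf 197 1 1) (.lf 190 1 1)) (.nd 198 (.lf 189 1 3) (.lf 188 1 3) (.lf 198 2 3))))) (.nd 200 (.nd 181 (.lf 129 1 1) (.lf 181 1 1) (.lf 176 1 1)) (.lf 180 1 1) (.lf 200 1 1)) (.nd 200 (.nd 200 (.nd 200 (.lf 200 1 1) (.lf 192 1 1) (.nd 198 (.lf 193 2 3) (.lf 198 2 3) (.lf 195 1 1))) (.lf 197 1 1) (.lf 198 1 1)) (.lf 185 1 1) (.lf 188 1 1))) (.nd 241 (.nd 234 (.nd 234 (.lf 224 1 3) (.lf 227 1 1) (.lf 234 1 1)) (.lf 211 1 1) (.lf 218 1 1)) (.nd 234 (.lf 198 1 1) (.nd 234 (.lf 197 1 1) (.lf 200 1 1) (.lf 234 1 3)) (.nd 228 (.nd 224 (.nd 224 (.lf 216 1 3) (.lf 218 1 1) (.lf 224 1 1)) (.lf 211 1 1) (.lf 212 1 1)) (.lf 220 1 1) (.nd 228 (.lf 224 1 1) (.lf 226 1 1) (.nd 228 (.nd 225 (.lf 218 2 3) (.lf 225 1 3) (.lf 215 2 3)) (.lf 228 1 1)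 (.lf 216 2 3))))) (.nd 241 (.nd 233 (.lf 230 1 1) (.nd 233 (.nd 216 (.lf 216 1 1) (.lf 180 1 1) (.lf 206 1 1)) (.nd 233 (.nd 231 (.lf 209 1 1) (.lf 231 2 3) (.lf 225 1 1)) (.lf 233 1 1) (.lf 211 2 3)) (.lf 226 1 1)) (.lf 229 1 1)) (.nd 229 (.lf 218 1 1) (.nd 229 (.lf 229 1 1) (.nd 226 (.lf 178 1 1) (.lf 225 1 1) (.lf 226 1 3)) (.nd 223 (.lf 223 1 3) (.lf 216 1 1) (.nd 218 (.lf 213 1 1) (.lf 218 1 1) (.lf 200 1 3)))) (.nd 225 (.lf 224 1 1) (.nd 188 (.lf 170 1 3) (.lf 179 1 3) (.lf 188 1 1)) (.lf 225 1 1))) (.nd 241 (.nd 241 (.nd 241 (.lf 212 2 3) (.lf 230 1 1) (.lf 241 1 1)) (.lf 226 1 3) (.lf 232 1 3)) (.lf 240 1 1) (.nd 233 (.nd 233 (.lf 232 2 3) (.lf 233 1 3) (.lf 211 2 3)) (.lf 225 1 3) (.lf 224 1 3))))) (.nd 226 (.nd 226 (.lf 222 1 1) (.lf 226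 1 1) (.nd 215 (.lf 201 1 1) (.lf 215 1 1) (.nd 188 (.nd 175 (.lf 155 1 1) (.nd 156 (.lf 156 1 1) (.lf 104 1 1) (.lf 151 1 1)) (.lf 175 1 1)) (.lf 188 1 1) (.lf 178 1 1)))) (.nd 207 (.nd 202 (.nd 157 (.lf 128 1 1) (.lf 157 1 1) (.lf 128 1 1)) (.lf 154 1 1) (.nd 202 (.lf 202 1 1) (.lf 183 1 1) (.nd 183 (.lf 183 1 1) (.lf 178 1 1) (.lf 160 1 1)))) (.nd 155 (.nd 150 (.lf 150 1 1) (.nd 98 (.lf 69 1 1) (.lf 98 1 1) (.lf 93 1 1)) (.lf 126 1 1)) (.nd 155 (.lf 138 1 1) (.nd 147 (.lf 147 1 1) (.lf 124 1 1) (.nd 146 (.lf 146 1 1) (.lf 94 1 1) (.lf 124 1 1))) (.lf 155 1 1)) (.lf 126 1 1)) (.nd 207 (.nd 207 (.lf 181 1 1) (.lf 207 1 1) (.lf 183 1 1)) (.lf 177 1 1) (.lf 192 1 1))) (.nd 206 (.nd 175 (.lf 175 1 1) (.nd 154 (.lf 154 1 1) (.lf 140 1 1) (.lf 97 1 1))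 (.nd 151 (.lf 129 1 1) (.lf 123 1 1) (.lf 151 1 1))) (.nd 177 (.lf 171 1 1) (.lf 177 1 1) (.lf 126 1 1)) (.nd 206 (.nd 206 (.lf 191 1 1) (.nd 206 (.lf 184 1 1) (.lf 187 1 1) (.lf 206 1 1)) (.lf 183 1 1)) (.nd 191 (.nd 171 (.lf 171 1 1) (.lf 155 1 1) (.lf 125 1 1)) (.lf 176 1 1) (.lf 191 1 1)) (.nd 184 (.nd 173 (.lf 173 1 1) (.lf 137 1 1) (.lf 150 1 1)) (.lf 184 1 1) (.lf 170 1 1))))))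

def t15_74 : Tr := (.nd 269 (.nd 269 (.nd 268 (.nd 223 (.lf 223 2 2) (.nd 166 (.lf 136 2 2) (.lf 166 2 2) (.nd 157 (.lf 105 2 2) (.lf 157 2 2) (.lf 134 2 2))) (.nd 220 (.lf 161 2 2) (.nd 166 (.lf 166 2 2) (.nd 135 (.lf 105 2 2) (.lf 104 2 2) (.lf 135 2 2)) (.lf 138 2 2)) (.lf 220 2 2))) (.lf 262 2 2) (.nd 268 (.lf 268 2 2) (.nd 192 (.nd 137 (.lf 105 2 2) (.lf 126 2 2) (.lf 137 2 2)) (.lf 192 2 2) (.lf 182 2 2)) (.lf 249 2 2))) (.lf 269 2 2) (.lf 246 2 2)) (.nd 257 (.nd 255 (.lf 228 2 2) (.lf 255 2 2) (.nd 223 (.lf 223 2 2) (.nd 193 (.lf 193 2 2) (.lf 188 2 2) (.nd 141 (.nd 136 (.lf 98 2 2) (.lf 112 2 2) (.lf 136 2 2)) (.lf 141 2 2) (.lf 112 2 2))) (.lf 190 2 2))) (.lf 257 1 2) (.lf 224 2 2)) (.nd 257 (.lf 251 1 2) (.lf 257 1 2) (.nd 228 (.lf 199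 1 2) (.lf 228 1 2) (.nd 228 (.nd 197 (.nd 197 (.nd 162 (.lf 162 2 2) (.lf 153 2 2) (.lf 132 2 2)) (.lf 189 2 2) (.lf 197 1 2)) (.lf 197 1 2) (.lf 194 2 2)) (.lf 171 1 2) (.lf 228 1 2)))))

def t15_76 : Tr := (.nd 97 (.nd 97 (.nd 76 (.lf 39 2 1) (.nd 76 (.lf 76 2 1) (.nd 74 (.lf 67 2 1) (.lf 65 2 1) (.nd 74 (.nd 74 (.lf 69 1 1) (.lf 74 1 1) (.lf 65 2 1)) (.lf 58 1 1) (.lf 72 1 1))) (.lf 61 2 1)) (.nd 67 (.lf 38 2 1) (.nd 67 (.lf 67 2 1) (.nd 67 (.lf 67 2 1) (.lf 62 2 1) (.lf 45 2 1)) (.nd 63 (.lf 58 2 1) (.lf 61 2 1) (.nd 63 (.lf 60 2 1) (.lf 31 1 1) (.lf 63 2 1)))) (.lf 41 2 1))) (.nd 75 (.nd 75 (.nd 74 (.nd 72 (.lf 57 1 1) (.lf 72 1 1) (.lf 67 2 1)) (.nd 74 (.lf 74 2 1) (.lf 37 1 1) (.lf 34 1 1)) (.lf 35 1 1)) (.lf 75 2 1) (.lf 69 2 1)) (.nd 59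 (.lf 42 2 1) (.lf 59 2 1) (.lf 38 2 1)) (.nd 61 (.lf 55 2 1) (.nd 61 (.lf 61 2 1) (.lf 50 2 1) (.lf 35 2 1)) (.lf 10 2 1))) (.nd 97 (.nd 97 (.nd 96 (.lf 87 1 1) (.nd 96 (.nd 88 (.nd 88 (.lf 88 2 1) (.lf 58 2 1) (.nd 88 (.lf 88 1 1) (.lf 57 2 1) (.lf 60 2 1))) (.nd 81 (.lf 80 2 1) (.lf 81 1 1) (.lf 53 1 1)) (.lf 85 1 1)) (.lf 96 2 1) (.lf 79 2 1)) (.nd 96 (.nd 96 (.lf 87 2 1) (.lf 84 1 1) (.lf 96 2 1)) (.lf 86 1 1) (.lf 59 1 1))) (.nd 97 (.lf 83 2 1) (.lf 79 1 1) (.nd 97 (.lf 79 2 1) (.lf 97 1 1) (.lf 73 2 1))) (.nd 96 (.lf 96 2 1) (.lf 91 1 1) (.lf 82 2 1))) (.nd 95 (.nd 95 (.nd 86 (.nd 86 (.nd 86 (.lf 86 1 1) (.lf 60 2 1) (.lf 78 2 1)) (.lf 83 2 1) (.lf 83 1 1)) (.lf 77 2 1) (.lf 77 2 1)) (.nd 95 (.nd 95 (.lf 95 2 1) (.lf 93 2 1) (.nd 94 (.lf 91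 1 1) (.lf 85 1 1) (.lf 94 2 1))) (.lf 91 2 1) (.lf 95 2 1)) (.nd 85 (.nd 84 (.nd 83 (.nd 83 (.lf 83 2 1) (.lf 77 2 1) (.lf 75 1 1)) (.lf 71 2 1) (.lf 70 2 1)) (.nd 84 (.nd 84 (.lf 75 1 1) (.lf 83 2 1) (.lf 84 1 1)) (.lf 83 2 1) (.lf 83 2 1)) (.lf 79 2 1)) (.lf 85 2 1) (.lf 57 2 1))) (.lf 80 2 1) (.lf 85 2 1)) (.nd 97 (.nd 97 (.lf 96 2 1) (.nd 86 (.lf 76 2 1) (.lf 62 1 1) (.lf 86 2 1)) (.nd 97 (.nd 97 (.lf 97 2 1) (.lf 87 1 1) (.lf 94 2 1)) (.nd 97 (.lf 97 2 1) (.lf 83 2 1) (.nd 94 (.lf 89 2 1) (.nd 94 (.lf 92 2 1) (.lf 94 1 1) (.lf 76 2 1)) (.lf 94 2 1))) (.lf 97 1 1))) (.lf 77 2 1) (.lf 76 2 1)))) (.nd 78 (.nd 74 (.nd 60 (.lf 8 1 1) (.nd 55 (.lf 7 1 1) (.lf 10 1 1) (.lf 55 1 1)) (.nd 60 (.lf 60 1 1) (.lf 45 1 1) (.lf 30 1 1))) (.nd 74 (.nd 74 (.nd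 68 (.nd 68 (.lf 33 2 1) (.lf 68 1 1) (.lf 63 2 1)) (.lf 67 2 1) (.nd 68 (.lf 68 1 1) (.lf 68 1 1) (.nd 66 (.lf 48 1 1) (.nd 50 (.lf 47 1 1) (.lf 50 1 1) (.lf 44 2 1)) (.lf 66 1 1)))) (.lf 70 1 1) (.nd 74 (.lf 48 1 1) (.lf 74 1 1) (.nd 73 (.nd 73 (.lf 73 2 1) (.lf 73 1 1) (.lf 73 1 1)) (.lf 68 1 1) (.lf 72 1 1)))) (.lf 69 1 1) (.lf 68 1 1)) (.nd 59 (.nd 28 (.lf 4 1 1) (.lf 7 1 1) (.lf 28 1 1)) (.lf 59 1 1) (.lf 30 1 1))) (.nd 78 (.nd 78 (.nd 78 (.nd 78 (.lf 71 2 1) (.nd 77 (.lf 66 1 1) (.lf 73 2 1) (.lf 77 2 1)) (.nd 78 (.lf 78 1 1) (.lf 73 2 1) (.lf 73 2 1))) (.nd 71 (.nd 71 (.lf 71 1 1) (.lf 45 2 1) (.lf 56 2 1)) (.lf 53 2 1) (.lf 53 1 1)) (.lf 75 2 1)) (.lf 71 2 1) (.nd 74 (.nd 48 (.lf 44 2 1) (.lf 48 2 1) (.lf 14 2 1)) (.nd 74 (.lf 72 2 1) (.lf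 74 2 1) (.nd 73 (.lf 70 2 1) (.nd 72 (.lf 58 2 1) (.lf 70 1 1) (.lf 72 2 1)) (.lf 73 2 1))) (.nd 45 (.nd 45 (.lf 30 1 1) (.lf 44 2 1) (.lf 45 2 1)) (.lf 26 2 1) (.lf 34 2 1)))) (.nd 65 (.lf 60 2 1) (.lf 13 2 1) (.nd 65 (.lf 50 2 1) (.lf 65 2 1) (.lf 35 2 1))) (.nd 64 (.lf 64 2 1) (.lf 33 2 1) (.lf 35 2 1))) (.nd 64 (.nd 64 (.lf 64 1 1) (.lf 33 1 1) (.lf 34 1 1)) (.lf 51 2 1) (.nd 46 (.lf 38 1 1) (.nd 29 (.lf 13 2 1) (.lf 12 2 1) (.nd 29 (.nd 29 (.lf 23 2 1) (.nd 29 (.nd 25 (.lf 21 2 1) (.lf 25 2 1) (.lf 14 1 1)) (.lf 29 2 1) (.lf 19 2 1)) (.nd 27 (.lf 27 2 1) (.lf 1 2 1) (.lf 1 1 1))) (.lf 21 2 1) (.lf 28 2 1))) (.lf 46 2 1)))) (.nd 88 (.nd 80 (.nd 34 (.lf 34 1 1) (.lf 29 1 1) (.nd 5 (.nd 5 (.lf 0 1 1) (.nd 5 (.lf 0 1 1) (.lf 0 1 1) (.lf 5 1 1))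 (.lf 0 1 1)) (.lf 0 1 1) (.lf 0 1 1))) (.nd 64 (.lf 64 1 1) (.nd 33 (.lf 0 1 1) (.lf 33 1 1) (.nd 3 (.lf 3 1 1) (.lf 0 1 1) (.lf 0 1 1))) (.lf 38 1 1)) (.nd 80 (.nd 62 (.lf 48 1 1) (.nd 62 (.lf 54 1 1) (.lf 60 1 1) (.nd 62 (.lf 50 2 1) (.lf 61 1 1) (.lf 62 1 1))) (.lf 47 1 1)) (.nd 56 (.lf 56 1 1) (.nd 54 (.lf 54 1 1) (.lf 44 1 1) (.lf 47 1 1)) (.lf 32 1 1)) (.nd 80 (.lf 62 1 1) (.nd 80 (.lf 72 1 1) (.nd 80 (.lf 62 2 1) (.nd 80 (.lf 67 2 1) (.lf 70 2 1) (.nd 80 (.lf 65 1 1) (.lf 80 1 1) (.lf 67 2 1))) (.lf 59 2 1)) (.nd 80 (.lf 71 1 1) (.nd 80 (.lf 64 1 1) (.lf 60 1 1) (.nd 80 (.lf 80 1 1) (.lf 67 2 1) (.lf 66 1 1))) (.lf 60 1 1))) (.lf 60 1 1)))) (.nd 88 (.nd 83 (.lf 57 1 1) (.lf 83 1 1) (.nd 75 (.lf 61 1 1) (.lf 60 1 1) (.nd 75 (.lf 69 1 1) (.nd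 64 (.lf 38 2 1) (.lf 64 2 1) (.lf 61 1 1)) (.lf 75 1 1)))) (.nd 82 (.nd 78 (.lf 78 1 1) (.nd 73 (.lf 73 2 1) (.lf 59 1 1) (.lf 67 1 1)) (.lf 72 1 1)) (.lf 60 1 1) (.lf 82 1 1)) (.nd 88 (.nd 65 (.nd 65 (.nd 62 (.lf 59 2 1) (.lf 62 2 1) (.lf 31 1 1)) (.lf 65 1 1) (.lf 65 1 1)) (.lf 55 1 1) (.lf 57 1 1)) (.nd 88 (.nd 72 (.lf 67 1 1) (.lf 64 2 1) (.nd 72 (.lf 61 2 1) (.lf 66 2 1) (.lf 72 1 1))) (.nd 88 (.nd 81 (.nd 75 (.lf 75 2 1) (.lf 69 1 1) (.lf 75 1 1)) (.lf 67 1 1) (.lf 81 1 1)) (.lf 88 1 1) (.nd 87 (.lf 85 1 1) (.lf 87 2 1) (.lf 83 1 1))) (.nd 81 (.lf 80 2 1) (.lf 76 1 1) (.lf 81 1 1))) (.lf 70 1 1))) (.nd 66 (.lf 66 1 1) (.lf 56 1 1) (.nd 33 (.nd 26 (.lf 0 1 1) (.nd 26 (.lf 0 1 1) (.lf 26 1 1) (.lf 0 1 1)) (.lf 2 1 1)) (.nd 33 (.nd 3 (.nd 3 (.lf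 3 1 1) (.lf 0 1 1) (.lf 0 1 1)) (.lf 0 1 1) (.lf 0 1 1)) (.nd 33 (.lf 0 1 1) (.lf 33 1 1) (.lf 21 1 1)) (.lf 0 1 1)) (.lf 33 1 1)))))

def t15_77 : Tr := (.nd 267 (.nd 259 (.lf 230 1 2) (.lf 201 1 2) (.nd 259 (.nd 224 (.nd 177 (.lf 148 1 4) (.nd 172 (.lf 172 1 4) (.lf 133 1 4) (.lf 148 1 4)) (.lf 177 1 4)) (.nd 198 (.lf 163 1 2) (.lf 198 1 2) (.nd 161 (.lf 140 1 2) (.lf 144 1 2) (.lf 161 1 2))) (.lf 224 1 4)) (.lf 228 1 4) (.lf 259 1 4))) (.nd 267 (.nd 244 (.lf 244 1 2) (.lf 231 1 2) (.nd 228 (.nd 198 (.lf 198 1 2) (.lf 146 1 2) (.nd 193 (.lf 193 1 2) (.lf 145 1 2) (.lf 148 1 2))) (.lf 228 1 2) (.lf 197 1 2))) (.lf 254 1 2) (.lf 267 1 2)) (.nd 232 (.nd 223 (.lf 170 1 2) (.lf 223 1 4) (.nd 175 (.lf 175 1 2) (.lf 147 1 2) (.nd 133 (.lf 114 1 2) (.nd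 133 (.lf 133 1 4) (.lf 129 1 2) (.lf 122 1 2)) (.lf 113 1 2)))) (.nd 175 (.nd 145 (.lf 136 1 2) (.nd 124 (.lf 124 1 2) (.lf 107 1 2) (.lf 113 1 2)) (.nd 145 (.lf 145 1 2) (.lf 140 1 2) (.nd 132 (.lf 112 1 2) (.lf 126 1 2) (.nd 132 (.lf 107 1 2) (.lf 107 1 2) (.lf 132 1 2))))) (.nd 166 (.nd 143 (.lf 118 1 2) (.lf 143 1 2) (.lf 113 1 2)) (.lf 166 1 2) (.lf 114 1 2)) (.nd 175 (.nd 166 (.nd 166 (.lf 135 1 2) (.lf 136 1 2) (.lf 166 1 2)) (.lf 157 1 2) (.lf 145 1 2)) (.nd 166 (.lf 166 1 2) (.nd 140 (.lf 132 1 2) (.lf 109 1 2) (.lf 140 1 2)) (.lf 162 1 2)) (.lf 175 1 2))) (.nd 232 (.lf 232 1 2) (.nd 193 (.lf 193 1 2) (.lf 169 1 2) (.nd 174 (.lf 174 1 4) (.lf 168 1 4) (.lf 145 1 4))) (.lf 220 1 2))))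

def t15_82 : Tr := (.nd 130 (.nd 108 (.nd 91 (.lf 75 1 1) (.lf 74 1 1) (.nd 91 (.lf 91 1 1) (.lf 83 1 1) (.lf 84 1 1))) (.nd 81 (.lf 71 1 1) (.lf 81 1 1) (.lf 68 1 1)) (.lf 108 1 1)) (.nd 130 (.nd 110 (.nd 105 (.lf 105 1 1) (.lf 77 1 1) (.lf 63 1 1)) (.lf 91 1 1) (.nd 110 (.lf 110 1 1) (.lf 97 1 1) (.nd 108 (.lf 86 1 1) (.lf 108 1 1) (.lf 98 1 1)))) (.nd 127 (.lf 88 1 1) (.nd 114 (.lf 80 1 1) (.nd 114 (.nd 103 (.lf 103 1 1) (.lf 91 1 1) (.lf 100 1 1)) (.lf 111 1 1) (.lf 114 1 1)) (.lf 91 1 1)) (.nd 127 (.lf 108 1 1) (.nd 112 (.lf 112 1 1) (.lf 89 1 1) (.nd 101 (.lf 101 1 1) (.lf 62 1 1) (.lf 92 1 1))) (.nd 127 (.lf 113 1 1) (.lf 113 1 1) (.lf 127 1 1)))) (.nd 130 (.nd 116 (.lf 108 1 1) (.lf 116 1 1) (.lf 108 1 1)) (.nd 130 (.lf 112 1 1) (.lf 108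 1 1) (.nd 130 (.lf 108 1 1) (.lf 109 1 1) (.lf 130 1 1))) (.lf 106 1 1))) (.nd 115 (.nd 100 (.lf 61 1 1) (.lf 100 1 1) (.lf 69 1 1)) (.nd 115 (.nd 115 (.nd 115 (.nd 115 (.lf 83 1 1) (.lf 81 1 1) (.lf 115 1 1)) (.lf 93 1 1) (.lf 107 1 1)) (.nd 105 (.lf 94 1 1) (.lf 105 1 1) (.lf 85 1 1)) (.lf 108 1 1)) (.nd 109 (.lf 84 1 1) (.lf 109 1 1) (.lf 85 1 1)) (.lf 107 1 1)) (.nd 83 (.lf 79 1 1) (.lf 49 1 1) (.nd 83 (.lf 83 1 1) (.lf 69 1 1) (.lf 77 1 1)))))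

def t15_83 : Tr := (.nd 227 (.nd 179 (.nd 149 (.nd 149 (.nd 119 (.lf 117 1 2) (.lf 119 1 2) (.nd 95 (.lf 69 1 2) (.nd 89 (.lf 65 1 2) (.lf 89 1 2) (.lf 54 1 2)) (.lf 95 1 2))) (.lf 134 1 2) (.nd 149 (.lf 125 1 2) (.lf 123 1 2) (.lf 149 1 2))) (.nd 144 (.lf 96 1 2) (.nd 144 (.nd 144 (.lf 116 1 2) (.lf 119 1 2) (.nd 144 (.lf 144 1 2) (.lf 120 1 2) (.lf 118 1 2))) (.lf 125 1 2) (.lf 125 1 2)) (.nd 99 (.nd 70 (.lf 70 1 2) (.lf 54 1 2) (.lf 54 1 2)) (.lf 99 1 2) (.lf 70 1 2))) (.nd 97 (.lf 92 1 2) (.lf 97 1 2) (.nd 68 (.lf 62 1 2) (.lf 54 1 2) (.nd 68 (.lf 59 1 2) (.lf 54 1 2) (.lf 68 1 2))))) (.nd 146 (.nd 117 (.lf 68 1 2) (.nd 94 (.lf 94 1 2) (.lf 65 1 2) (.lf 70 1 2)) (.lf 117 1 2)) (.nd 146 (.nd 133 (.nd 113 (.lf 67 1 2) (.lf 113 1 2) (.lf 97 1 2))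 (.nd 118 (.lf 87 1 2) (.lf 83 1 2) (.nd 118 (.lf 118 1 2) (.lf 97 1 2) (.lf 97 1 2))) (.lf 133 1 2)) (.nd 126 (.lf 112 1 2) (.lf 115 1 2) (.lf 126 1 2)) (.nd 146 (.lf 125 1 2) (.lf 133 1 2) (.nd 146 (.nd 146 (.lf 135 1 2) (.lf 129 1 2) (.lf 146 1 2)) (.lf 126 1 2) (.lf 129 1 2)))) (.nd 109 (.lf 96 1 2) (.lf 93 1 2) (.lf 109 1 2))) (.nd 179 (.nd 179 (.nd 179 (.lf 155 1 2) (.lf 179 1 2) (.nd 165 (.lf 157 1 2) (.nd 165 (.lf 137 1 2) (.lf 155 1 2) (.lf 165 1 2)) (.lf 157 1 2))) (.nd 176 (.lf 163 1 2) (.lf 137 1 2) (.lf 176 1 2)) (.nd 154 (.lf 154 1 2) (.nd 154 (.lf 146 1 2) (.nd 154 (.lf 138 1 2) (.lf 136 1 2) (.lf 154 1 2)) (.nd 154 (.lf 135 1 2) (.lf 147 1 2) (.lf 154 1 2))) (.lf 140 1 2))) (.nd 157 (.lf 124 1 2) (.nd 136 (.lf 136 1 2) (.nd 123 (.lf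 123 1 2) (.lf 86 1 2) (.lf 92 1 2)) (.lf 119 1 2)) (.nd 157 (.lf 157 1 2) (.nd 157 (.lf 115 1 2) (.lf 157 1 2) (.lf 141 1 2)) (.nd 151 (.lf 127 1 2) (.lf 126 1 2) (.lf 151 1 2)))) (.nd 154 (.nd 138 (.lf 128 1 2) (.lf 138 1 2) (.lf 98 1 2)) (.nd 154 (.nd 154 (.lf 134 1 2) (.lf 154 1 2) (.lf 140 1 2)) (.nd 154 (.lf 125 1 2) (.lf 134 1 2) (.lf 154 1 2)) (.lf 152 1 2)) (.lf 149 1 2)))) (.nd 182 (.nd 153 (.nd 123 (.nd 123 (.lf 108 1 2) (.nd 123 (.lf 97 1 2) (.lf 123 1 2) (.lf 99 1 2)) (.lf 93 1 2)) (.lf 118 1 2) (.lf 71 1 2)) (.nd 122 (.lf 122 1 2) (.lf 91 1 2) (.lf 93 1 2)) (.lf 153 1 2)) (.nd 153 (.nd 130 (.lf 116 1 2) (.lf 130 1 2) (.nd 86 (.lf 71 1 2) (.lf 70 1 2) (.lf 86 1 2))) (.nd 153 (.nd 144 (.lf 140 1 2) (.nd 142 (.lf 142 1 2) (.lf 105 1 2)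 (.lf 139 1 2)) (.lf 144 1 2)) (.lf 144 1 2) (.lf 153 1 2)) (.nd 127 (.nd 97 (.lf 54 1 2) (.nd 97 (.lf 67 1 2) (.lf 82 1 2) (.lf 97 1 2)) (.lf 92 1 2)) (.lf 96 1 2) (.lf 127 1 2))) (.nd 182 (.nd 182 (.lf 179 1 2) (.nd 182 (.lf 177 1 2) (.nd 168 (.nd 136 (.lf 136 1 2) (.lf 96 1 2) (.lf 122 1 2)) (.lf 168 1 2) (.lf 145 1 2)) (.lf 182 1 2)) (.lf 159 1 2)) (.nd 166 (.lf 156 1 2) (.nd 166 (.nd 148 (.lf 116 1 2) (.lf 148 1 2) (.lf 116 1 2)) (.lf 166 1 2) (.lf 166 1 2)) (.lf 165 1 2)) (.nd 176 (.lf 166 1 2) (.nd 176 (.nd 172 (.lf 127 1 2) (.lf 148 1 2) (.lf 172 1 2)) (.nd 162 (.nd 155 (.lf 155 1 2) (.lf 119 1 2) (.lf 124 1 2)) (.lf 162 1 2) (.lf 122 1 2)) (.nd 176 (.nd 172 (.lf 154 1 2) (.lf 172 1 2) (.nd 144 (.lf 140 1 2) (.lf 144 1 2) (.lf 132 1 2))) (.lf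 176 1 2) (.lf 165 1 2))) (.nd 172 (.lf 163 1 2) (.lf 172 1 2) (.nd 162 (.lf 125 1 2) (.lf 162 1 2) (.lf 154 1 2)))))) (.nd 227 (.lf 208 1 2) (.nd 227 (.nd 202 (.lf 202 1 2) (.nd 180 (.lf 159 1 2) (.lf 180 1 2) (.nd 179 (.lf 150 1 2) (.lf 142 1 2) (.lf 179 1 2))) (.nd 177 (.lf 142 1 2) (.nd 148 (.lf 108 1 2) (.lf 148 1 2) (.nd 148 (.nd 141 (.lf 141 1 2) (.lf 112 1 2) (.lf 141 1 2)) (.lf 148 1 2) (.lf 146 1 2))) (.lf 177 1 2))) (.nd 199 (.nd 188 (.lf 188 1 2) (.lf 153 1 2) (.nd 174 (.nd 145 (.nd 135 (.lf 135 1 2) (.lf 83 1 2) (.lf 89 1 2)) (.lf 145 1 2) (.lf 90 1 2)) (.lf 174 1 2) (.lf 174 1 2))) (.lf 188 1 2) (.nd 199 (.lf 199 1 2) (.lf 199 1 2) (.nd 191 (.lf 191 1 2) (.nd 173 (.nd 173 (.lf 147 1 2) (.lf 173 1 2) (.lf 169 1 2)) (.lf 153 1 2) (.lf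 147 1 2)) (.lf 169 1 2)))) (.lf 227 1 2)) (.lf 208 1 2)))

def t15_85 : Tr := (.nd 211 (.nd 209 (.nd 209 (.nd 209 (.nd 192 (.nd 187 (.lf 171 1 1) (.lf 183 1 1) (.lf 187 1 1)) (.nd 192 (.lf 192 1 1) (.lf 182 1 1) (.lf 163 1 1)) (.lf 180 1 1)) (.nd 209 (.nd 197 (.lf 183 1 1) (.lf 197 1 1) (.lf 185 1 1)) (.lf 207 1 1) (.lf 209 1 1)) (.nd 199 (.lf 199 1 1) (.lf 191 1 1) (.lf 178 1 1))) (.nd 193 (.lf 193 1 1) (.lf 169 1 1) (.lf 191 1 1)) (.nd 196 (.nd 196 (.nd 196 (.lf 187 1 1) (.lf 196 1 1) (.nd 187 (.lf 185 1 1) (.lf 181 1 1) (.lf 187 1 1))) (.nd 187 (.lf 176 1 1) (.nd 187 (.lf 187 1 1) (.lf 187 1 1) (.lf 181 1 1)) (.lf 166 1 1)) (.nd 187 (.nd 187 (.lf 182 1 1) (.lf 166 1 1) (.lf 187 1 1)) (.lf 168 1 1) (.lf 187 1 1))) (.lf 185 1 1) (.nd 184 (.nd 184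 (.lf 170 1 1) (.lf 184 1 1) (.lf 171 1 1)) (.lf 159 1 1) (.lf 164 1 1)))) (.nd 193 (.nd 193 (.nd 193 (.lf 171 1 1) (.nd 193 (.nd 193 (.lf 183 1 1) (.lf 193 1 1) (.lf 181 1 1)) (.lf 188 1 1) (.lf 173 1 1)) (.lf 177 1 1)) (.nd 190 (.nd 190 (.lf 179 1 1) (.lf 190 1 1) (.lf 179 1 1)) (.lf 175 1 1) (.nd 186 (.lf 186 1 1) (.lf 178 1 1) (.lf 173 1 1))) (.nd 182 (.nd 182 (.nd 182 (.lf 182 1 1) (.lf 167 1 1) (.lf 162 1 1)) (.lf 163 1 1) (.nd 181 (.lf 163 1 1) (.lf 161 1 1) (.lf 181 1 1))) (.lf 180 1 1) (.lf 177 1 1))) (.lf 161 1 1) (.nd 167 (.nd 167 (.nd 167 (.lf 156 1 1) (.lf 145 1 1) (.lf 167 1 1)) (.lf 145 1 1) (.lf 148 1 1)) (.lf 137 1 1) (.lf 140 1 1))) (.nd 171 (.lf 166 1 1) (.nd 171 (.nd 154 (.lf 154 1 1) (.lf 126 1 1) (.lf 150 1 1)) (.lf 163 1 1)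 (.lf 171 1 1)) (.nd 142 (.lf 113 1 1) (.lf 142 1 1) (.lf 136 1 1)))) (.nd 189 (.nd 170 (.nd 170 (.lf 166 1 1) (.lf 170 1 1) (.nd 170 (.lf 163 1 1) (.lf 162 1 1) (.lf 170 1 1))) (.nd 162 (.nd 162 (.lf 113 1 1) (.lf 108 1 1) (.nd 162 (.lf 155 1 1) (.lf 137 1 1) (.lf 162 1 1))) (.lf 113 1 1) (.nd 162 (.lf 136 1 1) (.lf 139 1 1) (.nd 162 (.lf 120 1 1) (.lf 162 1 1) (.lf 149 1 1)))) (.lf 154 1 1)) (.nd 184 (.nd 184 (.lf 169 1 1) (.lf 162 1 1) (.nd 184 (.nd 184 (.lf 169 1 1) (.lf 167 1 1) (.nd 184 (.lf 176 1 1) (.lf 184 1 1) (.lf 184 1 1))) (.nd 172 (.lf 163 1 1) (.nd 172 (.lf 172 1 1) (.lf 160 1 1) (.lf 140 1 1)) (.lf 155 1 1)) (.lf 173 1 1))) (.lf 142 1 1) (.nd 156 (.lf 156 1 1) (.lf 139 1 1) (.lf 144 1 1))) (.nd 189 (.nd 176 (.nd 176 (.lf 176 1 1) (.lf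 161 1 1) (.lf 162 1 1)) (.nd 176 (.nd 167 (.lf 115 1 1) (.lf 167 1 1) (.lf 162 1 1)) (.nd 166 (.lf 135 1 1) (.lf 137 1 1) (.lf 166 1 1)) (.nd 176 (.nd 176 (.lf 150 1 1) (.lf 176 1 1) (.lf 167 1 1)) (.lf 175 1 1) (.lf 173 1 1))) (.nd 166 (.lf 153 1 1) (.lf 148 1 1) (.lf 166 1 1))) (.nd 189 (.lf 188 1 1) (.nd 189 (.nd 189 (.lf 172 1 1) (.lf 189 1 1) (.lf 172 1 1)) (.lf 179 1 1) (.nd 184 (.lf 162 1 1) (.nd 184 (.lf 155 1 1) (.lf 184 1 1) (.lf 132 1 1)) (.nd 180 (.lf 162 1 1) (.lf 180 1 1) (.lf 175 1 1)))) (.lf 168 1 1)) (.nd 189 (.nd 189 (.lf 189 1 1) (.lf 153 1 1) (.nd 163 (.lf 112 1 1) (.lf 152 1 1) (.nd 163 (.lf 163 1 1) (.lf 152 1 1) (.lf 137 1 1)))) (.nd 189 (.nd 189 (.lf 189 1 1) (.nd 187 (.lf 185 1 1) (.lf 181 1 1) (.lf 187 1 1)) (.nd 184 (.lf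 176 1 1) (.lf 184 1 1) (.nd 184 (.lf 184 1 1) (.lf 176 1 1) (.lf 168 1 1)))) (.nd 187 (.nd 187 (.lf 187 1 1) (.lf 183 1 1) (.lf 185 1 1)) (.lf 164 1 1) (.lf 177 1 1)) (.lf 180 1 1)) (.lf 188 1 1)))) (.nd 211 (.nd 186 (.lf 167 1 1) (.nd 186 (.nd 186 (.lf 146 1 1) (.nd 186 (.lf 186 1 1) (.lf 145 1 1) (.lf 148 1 1)) (.lf 176 1 1)) (.nd 186 (.nd 186 (.lf 186 1 1) (.nd 185 (.lf 183 1 1) (.lf 184 1 1) (.nd 185 (.lf 161 1 1) (.lf 185 1 1) (.lf 175 1 1))) (.lf 175 1 1)) (.lf 168 1 1) (.lf 176 1 1)) (.lf 179 1 1)) (.nd 184 (.nd 184 (.lf 178 1 1) (.nd 184 (.nd 184 (.lf 169 1 1) (.lf 169 1 1) (.lf 184 1 1)) (.lf 143 1 1) (.lf 140 1 1)) (.lf 141 1 1)) (.nd 174 (.lf 151 1 1) (.lf 161 1 1) (.lf 174 1 1)) (.nd 184 (.lf 171 1 1) (.lf 173 1 1) (.lf 184 1 1)))) (.nd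 211 (.nd 187 (.nd 187 (.nd 181 (.lf 155 1 1) (.lf 155 1 1) (.nd 181 (.lf 181 1 1) (.lf 167 1 1) (.lf 168 1 1))) (.nd 187 (.lf 187 1 1) (.lf 164 1 1) (.lf 173 1 1)) (.lf 168 1 1)) (.nd 184 (.lf 178 1 1) (.lf 143 1 1) (.nd 184 (.lf 168 1 1) (.lf 183 1 1) (.nd 184 (.lf 173 1 1) (.lf 184 1 1) (.lf 174 1 1)))) (.lf 175 1 1)) (.nd 196 (.nd 196 (.lf 174 1 1) (.lf 196 1 1) (.nd 171 (.lf 138 1 1) (.lf 171 1 1) (.lf 141 1 1))) (.nd 187 (.nd 187 (.lf 180 1 1) (.lf 181 1 1) (.nd 187 (.lf 178 1 1) (.lf 187 1 1) (.lf 176 1 1))) (.lf 178 1 1) (.lf 170 1 1)) (.nd 172 (.lf 172 1 1) (.lf 167 1 1) (.lf 143 1 1))) (.nd 211 (.nd 211 (.nd 209 (.lf 198 1 1) (.lf 209 1 1) (.lf 176 1 1)) (.lf 211 1 1) (.lf 211 1 1)) (.lf 179 1 1) (.nd 199 (.lf 169 1 1) (.nd 199 (.lf 187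 1 1) (.lf 184 1 1) (.nd 199 (.lf 147 1 1) (.lf 199 1 1) (.lf 186 1 1))) (.lf 178 1 1)))) (.nd 195 (.nd 187 (.nd 187 (.lf 176 1 1) (.nd 187 (.lf 187 1 1) (.lf 174 1 1) (.nd 173 (.lf 159 1 1) (.lf 173 1 1) (.lf 157 1 1))) (.lf 176 1 1)) (.lf 162 1 1) (.nd 187 (.nd 187 (.lf 174 1 1) (.lf 163 1 1) (.nd 187 (.lf 168 1 1) (.lf 169 1 1) (.lf 187 1 1))) (.lf 138 1 1) (.lf 162 1 1))) (.nd 187 (.nd 183 (.nd 183 (.nd 183 (.lf 183 1 1) (.lf 178 1 1) (.lf 176 1 1)) (.lf 173 1 1) (.lf 173 1 1)) (.lf 148 1 1) (.lf 162 1 1)) (.nd 187 (.lf 185 1 1) (.nd 187 (.lf 162 1 1) (.nd 183 (.lf 183 1 1) (.lf 134 1 1) (.lf 162 1 1)) (.lf 187 1 1)) (.nd 187 (.lf 177 1 1) (.nd 187 (.nd 187 (.lf 178 1 1) (.lf 176 1 1) (.lf 187 1 1)) (.lf 187 1 1) (.lf 175 1 1)) (.lf 178 1 1)))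 (.nd 181 (.lf 176 1 1) (.lf 173 1 1) (.nd 181 (.lf 177 1 1) (.nd 181 (.lf 142 1 1) (.lf 181 1 1) (.nd 181 (.lf 175 1 1) (.lf 164 1 1) (.lf 181 1 1))) (.lf 176 1 1)))) (.nd 195 (.nd 195 (.lf 166 1 1) (.nd 195 (.nd 195 (.lf 190 1 1) (.lf 173 1 1) (.lf 195 1 1)) (.lf 187 1 1) (.nd 186 (.lf 186 1 1) (.lf 178 1 1) (.nd 186 (.lf 186 1 1) (.lf 161 1 1) (.lf 179 1 1)))) (.lf 169 1 1)) (.nd 167 (.nd 167 (.lf 167 1 1) (.lf 150 1 1) (.lf 159 1 1)) (.lf 138 1 1) (.lf 162 1 1)) (.nd 189 (.nd 189 (.nd 165 (.lf 159 1 1) (.lf 165 1 1) (.lf 139 1 1)) (.lf 187 1 1) (.lf 189 1 1)) (.nd 181 (.nd 170 (.lf 170 1 1) (.lf 162 1 1) (.lf 162 1 1)) (.nd 181 (.lf 163 1 1) (.lf 162 1 1) (.lf 181 1 1)) (.lf 162 1 1)) (.nd 188 (.nd 185 (.lf 162 1 1) (.lf 176 1 1) (.lf 185 1 1))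 (.nd 188 (.lf 166 1 1) (.nd 172 (.lf 144 1 1) (.lf 172 1 1) (.lf 148 1 1)) (.lf 188 1 1)) (.nd 182 (.lf 152 1 1) (.lf 174 1 1) (.lf 182 1 1))))))))

def t15_86 : Tr := (.nd 183 (.nd 173 (.nd 173 (.nd 166 (.lf 114 4 4) (.lf 161 4 4) (.lf 166 4 4)) (.nd 173 (.nd 168 (.lf 149 4 4) (.lf 166 4 4) (.lf 168 1 2)) (.lf 160 1 2) (.nd 173 (.lf 171 1 2) (.nd 173 (.lf 154 4 4) (.lf 173 1 2) (.lf 164 1 2)) (.lf 169 1 2))) (.lf 165 4 4)) (.nd 135 (.lf 123 1 2) (.lf 122 1 2) (.lf 135 1 2)) (.nd 156 (.lf 130 1 2) (.nd 156 (.lf 140 4 4) (.lf 156 1 2) (.lf 139 4 4)) (.lf 127 1 2))) (.nd 183 (.nd 183 (.nd 174 (.lf 167 1 2) (.nd 174 (.lf 171 1 2) (.lf 172 1 2) (.nd 174 (.nd 174 (.nd 174 (.nd 174 (.lf 174 1 2) (.lf 173 1 2) (.lf 174 4 4)) (.lf 166 1 2) (.lf 165 1 2))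 (.lf 155 1 2) (.lf 160 4 4)) (.lf 174 1 2) (.lf 158 4 4))) (.nd 167 (.lf 167 4 4) (.lf 166 4 4) (.lf 155 1 2))) (.nd 183 (.nd 182 (.nd 182 (.lf 169 4 4) (.lf 155 4 4) (.nd 182 (.lf 172 1 2) (.lf 174 1 2) (.nd 182 (.lf 182 4 4) (.lf 179 1 2) (.lf 182 1 2)))) (.lf 146 1 2) (.nd 178 (.nd 178 (.lf 174 1 2) (.lf 174 1 2) (.lf 178 4 4)) (.lf 145 1 2) (.lf 148 1 2))) (.nd 183 (.nd 181 (.lf 180 1 2) (.lf 173 1 2) (.nd 181 (.lf 175 1 2) (.lf 181 4 4) (.lf 178 1 2))) (.lf 180 4 4) (.nd 183 (.nd 183 (.nd 182 (.lf 157 1 2) (.lf 182 4 4) (.lf 176 4 4)) (.lf 183 1 2) (.lf 180 1 2)) (.lf 181 1 2) (.lf 172 4 4))) (.nd 176 (.lf 165 1 2) (.lf 151 1 2) (.nd 176 (.nd 175 (.lf 175 4 4) (.lf 174 1 2) (.nd 175 (.lf 151 4 4) (.lf 175 1 2) (.lf 175 4 4))) (.lf 175 1 2) (.nd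 176 (.nd 176 (.lf 175 1 2) (.lf 176 1 2) (.nd 176 (.lf 176 1 2) (.lf 176 1 2) (.lf 175 4 4))) (.lf 167 1 2) (.lf 162 1 2))))) (.nd 181 (.lf 181 4 4) (.nd 172 (.nd 172 (.lf 153 1 2) (.lf 147 1 2) (.lf 172 4 4)) (.lf 151 1 2) (.lf 153 4 4)) (.nd 181 (.nd 181 (.lf 181 1 2) (.lf 178 1 2) (.nd 179 (.lf 179 1 2) (.lf 167 3 4) (.lf 168 3 4))) (.lf 171 1 2) (.lf 162 1 2)))) (.nd 172 (.lf 162 4 4) (.lf 160 4 4) (.nd 172 (.nd 172 (.lf 168 4 4) (.nd 172 (.nd 169 (.lf 169 1 2) (.lf 142 1 2) (.nd 163 (.lf 163 4 4) (.lf 141 1 2) (.lf 144 1 2))) (.lf 172 4 4) (.lf 169 4 4)) (.nd 172 (.lf 153 4 4) (.nd 172 (.lf 167 4 4) (.lf 172 1 2) (.lf 168 1 2)) (.nd 152 (.lf 152 4 4) (.lf 139 1 2) (.lf 143 4 4)))) (.lf 169 4 4) (.nd 169 (.lf 161 4 4) (.lf 156 4 4) (.nd 169 (.nd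 169 (.nd 169 (.lf 169 4 4) (.lf 164 4 4) (.lf 165 1 2)) (.lf 156 4 4) (.lf 151 4 4)) (.nd 169 (.nd 169 (.lf 154 4 4) (.lf 169 1 2) (.lf 168 4 4)) (.nd 169 (.lf 169 4 4) (.nd 165 (.lf 165 4 4) (.lf 147 1 2) (.lf 157 4 4)) (.lf 167 4 4)) (.nd 167 (.lf 157 1 2) (.lf 167 4 4) (.lf 153 4 4))) (.lf 169 4 4))))) (.nd 177 (.lf 140 4 4) (.nd 168 (.lf 142 4 4) (.nd 168 (.lf 168 4 4) (.lf 168 4 4) (.nd 163 (.lf 162 4 4) (.lf 159 4 4) (.nd 163 (.lf 163 4 4) (.lf 162 1 2) (.lf 161 4 4)))) (.lf 139 4 4)) (.nd 177 (.lf 177 4 4) (.lf 162 4 4) (.lf 167 1 2)))) (.nd 168 (.lf 149 1 2) (.nd 148 (.lf 119 1 2) (.lf 148 1 2) (.lf 117 1 2)) (.nd 168 (.nd 168 (.nd 166 (.nd 166 (.lf 161 1 2) (.lf 157 1 2) (.nd 166 (.nd 166 (.lf 160 4 4) (.lf 159 4 4) (.lf 166 1 2)) (.lf 162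 1 2) (.lf 162 1 2))) (.lf 163 1 2) (.lf 137 1 2)) (.lf 159 1 2) (.nd 168 (.lf 155 1 2) (.nd 168 (.lf 157 1 2) (.lf 161 1 2) (.nd 168 (.nd 168 (.lf 157 1 2) (.lf 168 1 2) (.lf 154 4 4)) (.lf 158 1 2) (.lf 157 1 2))) (.lf 165 1 2))) (.lf 155 1 2) (.nd 164 (.lf 164 1 2) (.lf 149 1 2) (.lf 132 1 2)))))

def t15_88 : Tr := (.nd 262 (.nd 262 (.nd 248 (.nd 240 (.lf 234 1 3) (.lf 240 1 3) (.lf 236 1 3)) (.nd 240 (.lf 240 1 3) (.nd 240 (.nd 215 (.lf 215 1 3) (.lf 193 1 3) (.lf 188 1 3)) (.lf 191 1 3) (.nd 240 (.lf 216 1 3) (.lf 227 1 3) (.lf 240 1 3))) (.lf 215 1 3)) (.nd 248 (.nd 248 (.lf 222 1 3) (.nd 248 (.nd 248 (.lf 248 1 3) (.lf 226 1 3) (.lf 243 1 3)) (.lf 239 1 3) (.lf 244 1 3)) (.lf 219 1 3)) (.nd 238 (.lf 238 1 3) (.nd 232 (.lf 223 1 3) (.lf 219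 1 3) (.lf 232 1 3)) (.lf 230 1 3)) (.lf 220 1 3))) (.nd 262 (.lf 262 1 3) (.nd 244 (.lf 244 1 3) (.lf 225 1 3) (.nd 240 (.nd 240 (.nd 232 (.lf 232 1 5) (.lf 210 1 3) (.lf 232 1 3)) (.nd 240 (.lf 234 1 3) (.lf 240 1 3) (.lf 237 1 3)) (.lf 234 1 3)) (.lf 223 1 3) (.lf 236 1 3))) (.nd 240 (.nd 237 (.nd 237 (.lf 237 1 3) (.nd 236 (.lf 208 1 3) (.lf 236 1 3) (.lf 203 1 3)) (.lf 221 1 3)) (.lf 196 1 3) (.lf 222 1 3)) (.nd 240 (.lf 237 1 3) (.lf 221 1 3) (.lf 240 1 3)) (.nd 228 (.lf 206 1 3) (.lf 228 1 3) (.lf 227 1 3)))) (.nd 238 (.nd 219 (.nd 208 (.lf 208 1 3) (.lf 198 1 3) (.lf 199 1 3)) (.nd 215 (.lf 215 1 3) (.lf 214 1 3) (.nd 204 (.lf 190 1 3) (.lf 178 1 3) (.nd 204 (.lf 204 1 3) (.lf 177 1 3) (.lf 180 1 3)))) (.nd 219 (.lf 209 1 3) (.nd 209 (.lf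 195 1 3) (.lf 209 1 3) (.lf 183 1 3)) (.lf 219 1 3))) (.nd 237 (.nd 237 (.lf 194 1 3) (.lf 237 1 3) (.lf 224 1 3)) (.lf 237 1 3) (.lf 230 1 3)) (.nd 238 (.nd 238 (.nd 218 (.lf 218 1 3) (.lf 208 1 3) (.lf 205 1 3)) (.lf 211 1 3) (.nd 238 (.lf 238 1 3) (.lf 238 1 3) (.lf 228 1 3))) (.nd 227 (.lf 199 1 3) (.nd 221 (.nd 221 (.lf 197 1 3) (.lf 219 1 3) (.lf 221 1 3)) (.nd 219 (.lf 198 1 3) (.lf 219 1 3) (.lf 213 1 3)) (.lf 220 1 3)) (.nd 227 (.lf 198 1 3) (.nd 227 (.lf 213 1 5) (.lf 227 1 3) (.lf 227 1 3)) (.lf 201 1 3))) (.nd 221 (.lf 209 1 3) (.lf 221 1 3) (.nd 221 (.lf 211 1 3) (.lf 208 1 3) (.nd 221 (.lf 213 1 5) (.lf 220 1 3) (.lf 221 1 5))))))) (.nd 253 (.lf 223 1 3) (.nd 253 (.lf 253 1 3) (.lf 242 1 3) (.nd 229 (.nd 229 (.nd 229 (.nd 226 (.lf 226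 1 3) (.lf 214 1 3) (.lf 201 1 3)) (.nd 228 (.lf 228 1 3) (.lf 225 1 3) (.lf 226 1 3)) (.nd 229 (.lf 203 1 3) (.lf 220 1 3) (.lf 229 1 3))) (.lf 219 1 3) (.lf 220 1 3)) (.nd 229 (.nd 229 (.lf 229 1 3) (.lf 223 1 3) (.lf 224 1 3)) (.lf 215 1 3) (.lf 214 1 3)) (.lf 222 1 3))) (.nd 237 (.lf 237 1 3) (.lf 209 1 3) (.lf 195 1 3))) (.nd 259 (.nd 246 (.lf 223 1 3) (.lf 212 1 3) (.lf 246 1 3)) (.lf 259 1 3) (.lf 220 1 3)))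

def t15_91 : Tr := (.nd 96 (.nd 68 (.nd 13 (.nd 13 (.nd 7 (.lf 0 1 1) (.lf 0 1 1) (.lf 7 1 1)) (.nd 7 (.lf 7 1 1) (.lf 0 1 1) (.lf 0 1 1)) (.nd 13 (.lf 0 1 1) (.lf 13 1 1) (.lf 0 1 1))) (.lf 0 1 1) (.nd 2 (.lf 2 1 1) (.nd 2 (.lf 0 1 1) (.lf 0 1 1) (.lf 2 1 1)) (.lf 0 1 1))) (.nd 68 (.nd 68 (.lf 44 1 1) (.lf 68 1 1) (.lf 50 1 1)) (.lf 37 1 1) (.lf 58 1 1)) (.nd 58 (.nd 12 (.lf 0 1 1) (.nd 12 (.lf 9 1 1) (.lf 12 1 1) (.lf 6 1 1)) (.lf 2 1 1)) (.lf 6 1 1) (.lf 58 1 1))) (.nd 74 (.nd 66 (.lf 30 1 1) (.lf 63 1 1) (.nd 66 (.nd 66 (.lf 66 1 1) (.lf 41 8 3) (.lf 66 1 1)) (.lf 61 1 1) (.lf 30 1 1))) (.nd 41 (.lf 34 1 1) (.lf 41 1 1) (.lf 0 1 1)) (.nd 74 (.nd 65 (.lf 59 1 1) (.nd 65 (.lf 65 1 1) (.lf 45 7 3) (.lf 46 7 3)) (.lf 33 1 1)) (.nd 74 (.lf 72 7 3)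 (.nd 74 (.nd 68 (.lf 62 1 1) (.lf 46 6 3) (.lf 68 6 3)) (.nd 74 (.lf 74 1 1) (.lf 73 7 3) (.nd 61 (.lf 31 1 1) (.lf 43 7 3) (.lf 61 1 1))) (.lf 72 1 1)) (.nd 74 (.nd 58 (.lf 52 1 1) (.lf 19 7 3) (.nd 58 (.lf 43 7 3) (.lf 58 7 3) (.lf 15 6 3))) (.nd 74 (.lf 74 7 3) (.lf 46 6 3) (.nd 47 (.lf 47 6 3) (.lf 46 7 3) (.lf 41 6 3))) (.lf 42 7 3))) (.lf 61 1 1))) (.nd 96 (.nd 77 (.lf 65 1 1) (.lf 60 1 1) (.nd 77 (.lf 68 1 1) (.nd 77 (.nd 77 (.nd 77 (.lf 68 1 1) (.lf 76 5 3) (.lf 77 1 1)) (.lf 67 1 1) (.lf 76 1 1)) (.lf 70 1 1) (.nd 77 (.lf 52 1 1) (.lf 74 1 1) (.nd 77 (.lf 77 1 1) (.lf 73 6 3) (.nd 74 (.lf 73 1 1) (.lf 71 5 3) (.lf 74 5 3))))) (.lf 75 1 1))) (.nd 96 (.nd 95 (.nd 92 (.nd 87 (.lf 77 6 3) (.lf 78 6 3) (.lf 87 1 1)) (.nd 82 (.lf 82 1 1) (.lf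 73 5 3) (.lf 72 5 3)) (.lf 92 1 1)) (.nd 95 (.nd 95 (.lf 52 6 3) (.nd 95 (.nd 95 (.lf 80 6 3) (.nd 95 (.lf 71 6 3) (.lf 95 5 3) (.lf 74 6 3)) (.lf 80 6 3)) (.lf 51 6 3) (.lf 54 6 3)) (.nd 93 (.lf 89 6 3) (.lf 74 6 3) (.nd 93 (.lf 78 6 3) (.lf 80 6 3) (.lf 93 5 3)))) (.nd 92 (.lf 82 1 1) (.nd 92 (.nd 91 (.lf 90 1 1) (.nd 91 (.lf 91 1 1) (.lf 81 6 3) (.lf 67 6 3)) (.lf 89 1 1)) (.lf 91 1 1) (.lf 92 1 1)) (.lf 73 1 1)) (.nd 92 (.lf 92 1 1) (.lf 74 6 3) (.lf 62 1 1))) (.nd 93 (.lf 93 1 1) (.nd 84 (.nd 84 (.lf 69 5 3) (.lf 84 5 3) (.nd 75 (.lf 68 1 1) (.lf 75 5 3) (.lf 68 5 3))) (.lf 77 5 3) (.lf 47 5 3)) (.lf 77 5 3))) (.nd 91 (.nd 76 (.lf 55 6 3) (.lf 50 6 3) (.nd 76 (.nd 74 (.lf 74 6 3) (.lf 57 6 3) (.nd 71 (.lf 54 6 3) (.lf 42 1 1) (.lf 71 1 1)))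 (.nd 75 (.lf 74 6 3) (.nd 75 (.lf 71 5 3) (.lf 74 5 3) (.lf 75 1 1)) (.lf 70 6 3)) (.nd 76 (.lf 70 6 3) (.lf 76 5 3) (.nd 76 (.lf 76 5 3) (.lf 62 6 3) (.lf 43 6 3))))) (.lf 51 6 3) (.nd 91 (.lf 88 6 3) (.nd 91 (.lf 62 1 1) (.lf 91 1 1) (.lf 79 6 3)) (.lf 73 6 3))) (.nd 96 (.nd 73 (.lf 22 6 3) (.nd 54 (.lf 24 6 3) (.lf 54 1 1) (.lf 19 6 3)) (.lf 73 6 3)) (.nd 96 (.lf 77 5 3) (.nd 96 (.lf 73 6 3) (.lf 72 6 3) (.nd 96 (.lf 81 6 3) (.lf 82 6 3) (.nd 96 (.lf 83 6 3) (.lf 96 5 3) (.lf 82 5 3)))) (.nd 78 (.lf 72 5 3) (.lf 77 6 3) (.lf 78 5 3))) (.nd 57 (.nd 54 (.lf 19 6 3) (.lf 54 1 1) (.lf 54 1 1)) (.nd 57 (.lf 46 5 3) (.nd 50 (.lf 50 6 3) (.lf 46 6 3) (.lf 41 5 3)) (.nd 57 (.lf 42 6 3) (.lf 57 1 1) (.lf 43 6 3))) (.lf 50 6 3)))) (.nd 96 (.nd 67 (.nd 67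 (.lf 51 6 3) (.lf 50 6 3) (.lf 67 1 1)) (.nd 41 (.lf 15 1 1) (.lf 12 1 1) (.nd 41 (.lf 24 6 3) (.lf 41 1 1) (.lf 25 6 3))) (.lf 38 1 1)) (.nd 64 (.lf 34 1 1) (.nd 64 (.lf 64 1 1) (.nd 49 (.lf 34 1 1) (.lf 49 1 1) (.lf 17 1 1)) (.lf 42 1 1)) (.nd 33 (.nd 33 (.lf 33 1 1) (.lf 11 1 1) (.lf 18 1 1)) (.lf 4 1 1) (.lf 2 1 1))) (.nd 96 (.lf 76 6 3) (.lf 96 1 1) (.nd 77 (.nd 72 (.lf 72 6 3) (.lf 27 6 3) (.lf 24 6 3)) (.lf 25 6 3) (.lf 77 6 3))))))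

def t15_92 : Tr := (.nd 155 (.nd 155 (.nd 155 (.lf 133 2 2) (.nd 155 (.lf 155 2 2) (.nd 141 (.lf 141 2 2) (.lf 109 2 2) (.nd 118 (.lf 118 2 2) (.lf 94 2 2) (.lf 85 2 2))) (.lf 150 2 2)) (.nd 155 (.lf 136 2 2) (.lf 155 2 2) (.lf 144 2 2))) (.nd 153 (.nd 153 (.lf 135 2 2) (.nd 145 (.lf 145 2 2) (.lf 121 2 2) (.lf 100 2 2)) (.nd 153 (.nd 153 (.lf 120 2 2) (.lf 136 2 2) (.lf 153 2 2)) (.nd 145 (.lf 127 2 2) (.lf 145 1 2) (.lf 115 1 2)) (.lf 138 2 2))) (.nd 144 (.nd 139 (.lf 135 2 2) (.lf 121 2 2) (.nd 139 (.nd 139 (.lf 139 2 2) (.lf 137 2 2) (.nd 139 (.lf 136 2 2) (.lf 134 2 2) (.lf 139 1 2))) (.lf 128 2 2) (.lf 139 2 2))) (.lf 124 2 2) (.lf 144 1 2)) (.nd 143 (.nd 143 (.lf 140 1 2) (.lf 140 1 2) (.lf 143 2 2)) (.nd 119 (.lf 119 1 2) (.lf 110 1 2) (.lf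 98 1 2)) (.lf 140 1 2))) (.nd 155 (.nd 139 (.nd 121 (.lf 89 2 2) (.nd 121 (.nd 114 (.lf 85 2 2) (.nd 114 (.lf 110 2 2) (.lf 114 2 2) (.lf 92 2 2)) (.lf 105 2 2)) (.lf 118 2 2) (.lf 121 2 2)) (.nd 88 (.lf 82 1 2) (.lf 88 2 2) (.lf 61 2 2))) (.lf 139 2 2) (.lf 120 1 2)) (.lf 152 2 2) (.lf 155 2 2))) (.nd 145 (.nd 115 (.lf 115 2 2) (.lf 89 2 2) (.lf 74 2 2)) (.nd 100 (.lf 70 2 2) (.nd 100 (.lf 100 2 2) (.nd 85 (.lf 85 2 2) (.lf 53 2 2) (.lf 70 2 2)) (.lf 78 2 2)) (.lf 69 2 2)) (.nd 145 (.nd 129 (.lf 129 2 2) (.nd 129 (.lf 129 2 2) (.nd 119 (.lf 114 1 2) (.lf 81 1 2) (.lf 119 1 2)) (.lf 118 1 2)) (.lf 129 2 2)) (.lf 129 2 2) (.nd 145 (.nd 119 (.nd 109 (.lf 69 2 2) (.lf 109 2 2) (.lf 102 2 2)) (.lf 119 2 2) (.lf 105 1 2)) (.lf 124 2 2) (.lf 145 1 2))))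 (.nd 126 (.nd 96 (.lf 96 2 2) (.nd 44 (.lf 44 2 2) (.nd 39 (.lf 15 2 2) (.lf 0 2 2) (.lf 39 2 2)) (.lf 15 2 2)) (.lf 91 2 2)) (.nd 126 (.nd 104 (.lf 87 2 2) (.lf 77 2 2) (.lf 104 2 2)) (.lf 126 2 2) (.nd 111 (.lf 111 2 2) (.lf 79 2 2) (.lf 96 2 2))) (.nd 95 (.nd 66 (.lf 15 2 2) (.lf 66 2 2) (.lf 60 2 2)) (.nd 64 (.lf 40 2 2) (.lf 43 2 2) (.lf 64 2 2)) (.lf 95 2 2))))

def t15_94 : Tr := (.nd 99 (.nd 99 (.nd 99 (.nd 99 (.lf 92 2 1) (.nd 99 (.lf 97 2 1) (.nd 87 (.lf 67 2 1) (.lf 87 3 1) (.lf 79 2 1)) (.lf 99 3 1)) (.lf 89 2 1)) (.nd 95 (.lf 87 3 1) (.lf 95 3 1) (.lf 77 3 1)) (.lf 92 3 1)) (.nd 88 (.nd 82 (.nd 82 (.lf 37 2 1) (.nd 82 (.lf 62 2 1) (.lf 73 3 1) (.lf 82 3 1)) (.lf 66 2 1)) (.lf 65 2 1) (.nd 79 (.lf 75 2 1) (.lf 63 3 1) (.nd 79 (.lf 63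 2 1) (.lf 79 3 1) (.lf 77 2 1)))) (.nd 87 (.nd 79 (.lf 65 2 1) (.lf 68 2 1) (.nd 79 (.lf 75 3 1) (.lf 74 3 1) (.lf 79 2 1))) (.lf 87 3 1) (.lf 61 3 1)) (.nd 88 (.lf 81 3 1) (.nd 88 (.lf 85 3 1) (.nd 88 (.lf 57 3 1) (.nd 88 (.lf 87 3 1) (.lf 81 3 1) (.nd 88 (.lf 78 2 1) (.lf 57 2 1) (.nd 88 (.lf 75 2 1) (.lf 67 2 1) (.lf 88 2 1)))) (.lf 54 3 1)) (.lf 76 3 1)) (.lf 63 3 1))) (.nd 97 (.nd 97 (.lf 97 3 1) (.lf 83 3 1) (.lf 92 3 1)) (.nd 94 (.lf 86 3 1) (.lf 84 3 1) (.nd 94 (.lf 89 3 1) (.lf 88 3 1) (.nd 94 (.nd 94 (.lf 75 3 1) (.nd 93 (.lf 92 3 1) (.lf 87 3 1) (.lf 93 2 1)) (.lf 94 3 1)) (.lf 92 3 1) (.lf 91 3 1)))) (.lf 75 3 1))) (.nd 71 (.lf 63 3 1) (.nd 42 (.lf 11 3 1) (.lf 12 3 1) (.lf 42 3 1)) (.nd 71 (.lf 71 3 1) (.nd 69 (.lf 66 3 1) (.lf 65 2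 1) (.lf 69 3 1)) (.lf 71 3 1))) (.nd 68 (.nd 37 (.lf 8 3 1) (.lf 6 3 1) (.nd 37 (.nd 37 (.lf 14 3 1) (.lf 37 3 1) (.nd 22 (.lf 22 3 1) (.lf 22 3 1) (.lf 0 3 1))) (.lf 15 3 1) (.lf 22 3 1))) (.nd 38 (.lf 38 3 1) (.lf 0 3 1) (.nd 33 (.lf 33 3 1) (.lf 0 3 1) (.lf 0 3 1))) (.nd 68 (.lf 53 3 1) (.nd 46 (.lf 19 3 1) (.lf 46 3 1) (.lf 29 3 1)) (.lf 68 3 1))))

def t15_95 : Tr := (.nd 149 (.nd 143 (.nd 95 (.nd 65 (.nd 60 (.lf 60 1 2) (.lf 27 1 2) (.lf 27 1 2)) (.lf 27 1 2) (.lf 65 1 2)) (.nd 64 (.lf 64 1 2) (.lf 27 1 2) (.nd 35 (.lf 35 1 2) (.lf 27 1 2) (.lf 27 1 2))) (.lf 95 1 2)) (.nd 100 (.nd 69 (.lf 38 1 2) (.lf 69 1 2) (.nd 39 (.lf 27 1 2) (.lf 39 1 2) (.lf 34 1 2))) (.lf 72 1 2) (.lf 100 1 2)) (.nd 143 (.lf 124 1 2) (.nd 143 (.lf 122 1 2) (.nd 143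 (.lf 114 1 2) (.nd 143 (.lf 134 1 2) (.lf 143 1 2) (.lf 126 1 2)) (.lf 122 1 2)) (.lf 118 1 2)) (.lf 124 1 2))) (.nd 149 (.lf 138 1 2) (.nd 123 (.lf 94 1 2) (.lf 118 1 2) (.lf 123 1 2)) (.nd 149 (.nd 149 (.nd 149 (.nd 149 (.lf 149 1 2) (.lf 127 1 2) (.lf 122 1 2)) (.lf 125 1 2) (.lf 133 1 2)) (.lf 139 1 2) (.nd 147 (.nd 146 (.nd 146 (.lf 145 1 2) (.lf 138 1 2) (.lf 146 1 2)) (.lf 139 1 2) (.lf 139 1 2)) (.lf 147 1 2) (.lf 139 1 2))) (.lf 128 1 2) (.lf 129 1 2))) (.nd 98 (.nd 98 (.lf 79 1 2) (.lf 98 1 2) (.nd 88 (.lf 87 1 2) (.nd 65 (.nd 65 (.lf 61 1 2) (.lf 65 1 2) (.lf 44 1 2)) (.lf 34 1 2) (.lf 57 1 2)) (.lf 88 1 2))) (.nd 91 (.nd 67 (.nd 38 (.lf 27 1 2) (.lf 38 1 2) (.lf 27 1 2)) (.nd 67 (.lf 67 1 2) (.lf 67 1 2) (.lf 58 1 2)) (.lf 43 1 2)) (.nd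 39 (.lf 27 1 2) (.nd 34 (.lf 27 1 2) (.lf 34 1 2) (.lf 27 1 2)) (.lf 39 1 2)) (.nd 91 (.nd 91 (.lf 65 1 2) (.lf 91 1 2) (.nd 67 (.lf 67 1 2) (.lf 59 1 2) (.lf 63 1 2))) (.lf 61 1 2) (.lf 76 1 2))) (.nd 69 (.nd 61 (.lf 39 1 2) (.lf 61 1 2) (.lf 27 1 2)) (.nd 69 (.lf 69 1 2) (.lf 48 1 2) (.nd 65 (.lf 56 1 2) (.lf 65 1 2) (.lf 36 1 2))) (.nd 41 (.lf 41 1 2) (.nd 38 (.lf 27 1 2) (.lf 27 1 2) (.nd 38 (.lf 27 1 2) (.lf 27 1 2) (.lf 38 1 2))) (.lf 27 1 2)))))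

def t15_97 : Tr := (.nd 266 (.nd 266 (.nd 235 (.nd 218 (.lf 169 3 5) (.nd 218 (.nd 218 (.nd 218 (.lf 217 1 3) (.lf 218 3 5) (.lf 194 1 3)) (.lf 200 3 5) (.lf 199 3 5)) (.lf 194 3 5) (.lf 209 3 5)) (.lf 214 3 5)) (.nd 218 (.nd 194 (.lf 183 3 5) (.nd 194 (.nd 194 (.lf 147 1 3) (.lf 176 3 5) (.lf 194 1 3)) (.lf 185 3 5) (.lf 163 3 5)) (.lf 140 3 5)) (.lf 218 3 5) (.nd 175 (.lf 166 3 5) (.lf 172 3 5) (.nd 175 (.lf 175 3 5) (.lf 172 1 3) (.nd 173 (.lf 173 1 3) (.lf 165 3 5) (.lf 144 1 3))))) (.nd 235 (.nd 227 (.lf 213 3 5) (.nd 227 (.lf 227 3 5) (.lf 213 3 5) (.lf 217 3 5)) (.nd 216 (.lf 216 3 5) (.lf 193 3 5) (.lf 180 3 5))) (.nd 228 (.nd 219 (.lf 188 3 5) (.lf 219 3 5) (.lf 184 3 5)) (.lf 214 3 5) (.nd 228 (.nd 228 (.lf 228 3 5) (.nd 226 (.lf 219 1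 3) (.lf 226 3 5) (.lf 212 3 5)) (.lf 228 3 5)) (.lf 227 3 5) (.lf 228 3 5))) (.nd 235 (.nd 225 (.nd 210 (.lf 197 1 3) (.lf 201 3 5) (.lf 210 3 5)) (.lf 211 3 5) (.lf 225 1 3)) (.lf 226 3 5) (.nd 235 (.lf 227 3 5) (.nd 235 (.lf 232 1 3) (.lf 235 1 3) (.nd 227 (.lf 227 1 3) (.lf 222 3 5) (.lf 225 1 3))) (.nd 230 (.lf 230 3 5) (.nd 222 (.lf 206 3 5) (.lf 222 1 3) (.lf 222 3 5)) (.lf 230 3 5)))))) (.nd 250 (.nd 245 (.lf 197 3 5) (.lf 200 3 5) (.nd 245 (.lf 226 3 5) (.lf 245 3 5) (.lf 226 3 5))) (.nd 250 (.lf 235 3 5) (.lf 220 3 5) (.lf 250 3 5)) (.nd 198 (.nd 198 (.lf 190 3 5) (.lf 181 3 5) (.nd 198 (.lf 172 3 5) (.lf 198 3 5) (.lf 172 3 5))) (.lf 193 3 5) (.lf 169 3 5))) (.nd 266 (.nd 244 (.lf 225 1 3) (.nd 244 (.lf 229 1 3) (.nd 230 (.lf 178 1 3) (.lf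 225 1 3) (.lf 230 1 3)) (.lf 244 1 3)) (.lf 241 3 5)) (.nd 266 (.lf 266 1 3) (.nd 253 (.lf 223 1 3) (.lf 216 1 3) (.lf 253 1 3)) (.lf 255 1 3)) (.nd 252 (.lf 252 1 3) (.nd 233 (.lf 233 3 5) (.lf 229 3 5) (.lf 199 3 5)) (.nd 230 (.lf 211 3 5) (.nd 230 (.lf 205 1 3) (.lf 230 3 5) (.lf 211 1 3)) (.lf 209 1 3))))) (.nd 226 (.nd 226 (.nd 226 (.nd 226 (.nd 226 (.lf 219 1 3) (.nd 226 (.lf 215 1 3) (.nd 226 (.lf 226 1 3) (.lf 212 3 5) (.lf 215 1 3)) (.lf 216 1 3)) (.lf 215 1 3)) (.lf 223 1 3) (.lf 213 1 3)) (.nd 224 (.nd 224 (.nd 224 (.lf 220 1 3) (.lf 220 1 3) (.nd 224 (.lf 224 1 3) (.lf 218 3 5) (.lf 217 3 5))) (.lf 219 1 3) (.lf 215 1 3)) (.lf 221 1 3) (.lf 195 1 3)) (.lf 217 1 3)) (.lf 215 1 3) (.nd 222 (.lf 207 1 3) (.lf 190 1 3) (.lf 222 1 3))) (.nd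 207 (.nd 155 (.nd 150 (.lf 150 1 3) (.lf 98 1 3) (.lf 126 1 3)) (.lf 155 1 3) (.lf 126 1 3)) (.nd 207 (.lf 207 1 3) (.lf 177 1 3) (.nd 192 (.lf 169 1 3) (.lf 168 1 3) (.lf 192 1 3))) (.lf 202 1 3)) (.nd 206 (.lf 177 1 3) (.nd 206 (.lf 206 1 3) (.lf 191 1 3) (.lf 184 1 3)) (.lf 175 1 3))) (.nd 232 (.nd 211 (.nd 180 (.nd 180 (.lf 180 1 3) (.lf 165 1 3) (.lf 158 1 3)) (.lf 149 1 3) (.lf 151 1 3)) (.nd 211 (.lf 211 1 3) (.lf 189 1 3) (.lf 196 1 3)) (.nd 181 (.lf 181 1 3) (.lf 176 1 3) (.lf 129 1 3))) (.nd 214 (.lf 185 1 3) (.lf 200 1 3) (.nd 214 (.lf 197 3 5) (.lf 198 3 5) (.lf 214 1 3))) (.nd 232 (.nd 232 (.nd 226 (.lf 226 1 3) (.lf 207 3 5) (.lf 224 3 5)) (.lf 218 1 3) (.nd 232 (.nd 232 (.lf 232 1 3) (.lf 212 3 5) (.lf 231 1 3)) (.lf 221 1 3) (.lf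 229 1 3))) (.nd 223 (.lf 192 3 5) (.nd 223 (.lf 223 3 5) (.lf 201 3 5) (.lf 208 3 5)) (.lf 194 3 5)) (.nd 224 (.lf 172 3 5) (.lf 219 3 5) (.lf 224 3 5)))))

def t15_100 : Tr := (.nd 218 (.nd 199 (.nd 199 (.nd 199 (.nd 199 (.lf 145 1 1) (.lf 199 1 3) (.lf 188 1 1)) (.nd 170 (.lf 170 1 3) (.lf 168 1 3) (.nd 146 (.lf 146 1 3) (.lf 129 1 1) (.lf 145 1 3))) (.nd 191 (.nd 156 (.nd 156 (.nd 156 (.lf 148 1 3) (.lf 156 1 1) (.lf 148 1 3)) (.lf 119 1 3) (.lf 122 1 3)) (.lf 155 1 3) (.lf 120 1 3)) (.lf 191 1 3) (.lf 171 1 3))) (.nd 192 (.nd 177 (.lf 158 1 3) (.lf 166 1 3) (.nd 177 (.lf 176 1 3) (.lf 177 1 3) (.nd 173 (.lf 173 1 3) (.lf 173 2 3) (.lf 170 2 3)))) (.lf 174 1 1) (.nd 192 (.lf 171 1 1) (.lf 176 1 1) (.nd 192 (.lf 191 2 3) (.lf 192 1 3) (.lf 182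 1 3)))) (.nd 199 (.nd 199 (.nd 199 (.nd 195 (.lf 185 1 3) (.nd 195 (.lf 195 2 3) (.lf 194 2 3) (.lf 195 1 3)) (.nd 187 (.lf 187 1 3) (.lf 184 1 3) (.lf 181 2 3))) (.nd 199 (.nd 193 (.lf 180 1 3) (.lf 193 1 1) (.lf 156 1 3)) (.nd 199 (.lf 194 1 3) (.lf 199 1 1) (.lf 194 1 3)) (.lf 180 1 3)) (.nd 199 (.lf 199 1 3) (.nd 185 (.lf 166 1 3) (.lf 180 1 3) (.lf 185 2 3)) (.nd 199 (.lf 198 1 3) (.lf 174 1 1) (.lf 199 1 1)))) (.nd 197 (.lf 173 1 1) (.nd 197 (.lf 186 1 3) (.lf 195 1 1) (.lf 197 1 3)) (.lf 195 2 3)) (.nd 193 (.lf 189 1 1) (.lf 170 2 3) (.lf 193 1 1))) (.nd 199 (.nd 199 (.nd 199 (.lf 186 1 3) (.nd 199 (.lf 194 1 3) (.lf 199 1 1) (.lf 182 1 1)) (.lf 198 1 3)) (.lf 199 1 1) (.lf 198 1 1)) (.nd 188 (.lf 177 1 3) (.lf 188 1 3) (.lf 185 1 1)) (.lf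 185 1 3)) (.nd 198 (.lf 188 1 3) (.nd 193 (.lf 174 1 3) (.nd 193 (.nd 193 (.nd 193 (.lf 185 1 3) (.lf 193 1 1) (.lf 187 1 3)) (.lf 190 1 3) (.lf 187 1 3)) (.lf 193 1 3) (.lf 185 1 3)) (.lf 160 1 3)) (.nd 198 (.nd 197 (.lf 183 1 3) (.lf 195 1 3) (.lf 197 1 1)) (.lf 194 1 3) (.lf 198 2 3))))) (.nd 197 (.nd 145 (.lf 116 1 3) (.lf 140 1 3) (.nd 145 (.lf 128 1 3) (.lf 137 1 3) (.lf 145 1 3))) (.nd 197 (.lf 167 1 3) (.lf 182 1 3) (.lf 197 1 3)) (.nd 192 (.lf 144 1 3) (.lf 192 1 3) (.lf 147 1 3))) (.nd 181 (.nd 157 (.lf 157 1 3) (.lf 144 1 3) (.lf 141 1 3)) (.nd 165 (.lf 116 1 3) (.lf 146 1 3) (.nd 165 (.lf 141 1 3) (.lf 165 1 3) (.lf 156 1 3))) (.nd 181 (.lf 181 1 3) (.lf 174 1 3) (.nd 181 (.nd 156 (.lf 132 1 1) (.nd 156 (.lf 149 1 1) (.lf 156 1 1) (.nd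 153 (.lf 148 1 1) (.nd 153 (.lf 125 1 3) (.lf 149 1 1) (.lf 153 1 3)) (.lf 153 1 3))) (.lf 140 1 1)) (.nd 172 (.lf 172 1 1) (.lf 129 1 1) (.lf 167 1 1)) (.lf 181 1 3))))) (.nd 177 (.nd 177 (.lf 176 2 3) (.nd 177 (.nd 169 (.lf 169 1 1) (.lf 167 2 3) (.lf 157 2 3)) (.nd 177 (.nd 173 (.nd 172 (.lf 153 2 3) (.lf 139 2 3) (.nd 172 (.lf 172 2 3) (.lf 169 1 3) (.lf 164 2 3))) (.lf 167 2 3) (.nd 173 (.lf 168 1 3) (.lf 173 2 3) (.lf 165 1 3))) (.nd 167 (.nd 167 (.lf 167 2 3) (.lf 156 2 3) (.lf 164 1 1)) (.lf 159 1 3) (.lf 164 2 3)) (.nd 177 (.nd 176 (.nd 174 (.lf 154 1 1) (.lf 174 2 3) (.lf 151 1 1)) (.nd 176 (.lf 176 2 3) (.lf 174 1 1) (.lf 171 2 3)) (.lf 152 1 1)) (.nd 177 (.nd 177 (.nd 177 (.lf 170 2 3) (.lf 173 2 3) (.lf 177 1 3)) (.lf 171 1 3) (.lf 177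 1 3)) (.nd 177 (.nd 177 (.lf 135 2 3) (.lf 177 1 3) (.lf 159 2 3)) (.lf 159 2 3) (.lf 163 1 3)) (.nd 176 (.lf 161 1 3) (.lf 174 1 3) (.nd 176 (.lf 171 1 3) (.lf 168 1 3) (.lf 176 2 3)))) (.nd 174 (.nd 174 (.lf 169 2 3) (.nd 174 (.lf 167 2 3) (.lf 173 1 1) (.lf 174 1 1)) (.lf 168 1 1)) (.lf 168 1 1) (.lf 172 1 1)))) (.nd 177 (.nd 177 (.nd 177 (.lf 177 1 1) (.lf 161 2 3) (.lf 160 2 3)) (.lf 155 1 1) (.lf 150 1 1)) (.lf 153 1 1) (.lf 176 2 3))) (.lf 175 2 3)) (.nd 177 (.nd 177 (.nd 176 (.lf 176 1 1) (.lf 152 1 3) (.lf 162 1 3)) (.nd 171 (.lf 148 1 1) (.nd 165 (.lf 145 1 1) (.lf 150 1 1) (.nd 165 (.lf 165 2 3) (.lf 155 1 3) (.lf 156 1 3))) (.lf 171 1 3)) (.nd 177 (.nd 176 (.nd 172 (.nd 171 (.lf 171 1 1) (.lf 157 1 3) (.lf 169 1 3)) (.lf 168 1 3) (.lf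 172 2 3)) (.lf 162 1 3) (.lf 176 1 3)) (.nd 177 (.lf 177 1 3) (.nd 167 (.lf 167 1 1) (.lf 163 1 1) (.lf 144 2 3)) (.nd 177 (.nd 173 (.nd 167 (.lf 167 1 1) (.lf 130 1 3) (.lf 154 1 3)) (.nd 173 (.lf 168 1 3) (.lf 168 1 3) (.lf 173 1 1)) (.lf 154 1 3)) (.nd 175 (.lf 175 1 3) (.nd 173 (.lf 173 1 1) (.lf 172 1 3) (.lf 148 1 1)) (.lf 173 1 3)) (.nd 177 (.lf 159 1 3) (.lf 177 1 3) (.nd 161 (.lf 158 1 3) (.lf 155 2 3) (.lf 161 1 3))))) (.nd 173 (.lf 159 1 3) (.nd 173 (.nd 173 (.lf 160 1 3) (.nd 173 (.lf 156 1 1) (.lf 168 1 3) (.lf 173 1 1)) (.lf 172 1 3)) (.lf 173 1 1) (.lf 172 1 1)) (.nd 162 (.lf 162 1 3) (.lf 159 1 1) (.lf 151 1 3))))) (.lf 171 1 3) (.lf 170 1 3)) (.nd 172 (.nd 172 (.nd 172 (.lf 153 1 3) (.lf 160 1 3) (.nd 172 (.nd 166 (.lf 166 2 3) (.lf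 161 1 3) (.lf 151 1 3)) (.lf 172 1 3) (.lf 155 1 3))) (.lf 145 1 3) (.lf 144 1 3)) (.nd 164 (.lf 164 1 3) (.lf 154 2 3) (.lf 149 1 3)) (.nd 171 (.lf 150 2 3) (.nd 171 (.lf 165 2 3) (.lf 158 2 3) (.nd 171 (.nd 171 (.lf 166 2 3) (.lf 171 1 1) (.lf 156 2 3)) (.lf 160 2 3) (.nd 164 (.lf 138 1 3) (.lf 138 2 3) (.lf 164 2 3)))) (.nd 149 (.lf 149 2 3) (.lf 120 2 3) (.lf 118 2 3))))) (.nd 218 (.nd 180 (.nd 172 (.lf 172 2 3) (.lf 166 2 3) (.nd 121 (.lf 114 2 3) (.lf 121 2 3) (.lf 92 2 3))) (.nd 170 (.lf 170 2 3) (.lf 146 2 3) (.lf 149 2 3)) (.nd 180 (.nd 180 (.nd 180 (.lf 179 2 3) (.lf 180 2 3) (.nd 180 (.lf 180 2 3) (.nd 178 (.lf 164 2 3) (.lf 176 1 3) (.lf 178 2 3)) (.lf 180 2 3))) (.lf 171 2 3) (.lf 166 2 3)) (.nd 177 (.lf 174 1 1) (.nd 168 (.lf 165 1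 3) (.nd 168 (.nd 168 (.nd 167 (.lf 162 1 1) (.lf 167 2 3) (.lf 153 1 1)) (.lf 149 1 3) (.nd 168 (.lf 166 2 3) (.lf 168 1 1) (.lf 162 1 1))) (.lf 153 2 3) (.lf 162 2 3)) (.lf 163 2 3)) (.lf 177 1 1)) (.nd 168 (.lf 165 2 3) (.nd 165 (.lf 151 1 1) (.lf 150 1 1) (.lf 165 2 3)) (.lf 168 2 3)))) (.nd 193 (.nd 180 (.lf 152 2 3) (.nd 180 (.lf 178 2 3) (.lf 178 2 3) (.nd 180 (.nd 180 (.lf 173 2 3) (.nd 180 (.lf 161 1 3) (.nd 175 (.lf 167 2 3) (.lf 175 2 3) (.lf 173 1 3)) (.lf 180 2 3)) (.lf 171 2 3)) (.lf 172 2 3) (.lf 169 2 3))) (.lf 149 2 3)) (.nd 193 (.lf 172 2 3) (.nd 193 (.nd 193 (.nd 190 (.lf 154 1 1) (.lf 190 1 1) (.lf 176 2 3)) (.lf 188 2 3) (.nd 193 (.lf 179 1 1) (.nd 193 (.lf 186 2 3) (.lf 193 2 3) (.lf 185 1 1)) (.lf 175 1 1))) (.lf 176 2 3) (.lf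 178 2 3)) (.nd 178 (.nd 178 (.lf 176 2 3) (.nd 178 (.lf 177 1 1) (.lf 177 2 3) (.lf 178 2 3)) (.lf 170 2 3)) (.lf 163 2 3) (.lf 164 2 3))) (.lf 150 2 3)) (.nd 218 (.nd 195 (.nd 195 (.lf 150 1 1) (.lf 193 1 1) (.lf 195 1 1)) (.nd 194 (.lf 177 2 3) (.nd 168 (.lf 139 2 3) (.nd 168 (.nd 168 (.nd 168 (.lf 157 2 3) (.lf 168 1 1) (.lf 154 2 3)) (.lf 153 2 3) (.lf 161 2 3)) (.lf 161 2 3) (.lf 154 2 3)) (.lf 145 2 3)) (.nd 194 (.lf 185 2 3) (.lf 186 2 3) (.nd 194 (.lf 187 2 3) (.nd 193 (.lf 183 2 3) (.lf 184 1 1) (.lf 193 2 3)) (.lf 194 2 3)))) (.lf 183 2 3)) (.nd 218 (.nd 218 (.lf 218 2 3) (.nd 214 (.nd 168 (.lf 164 1 1) (.lf 168 1 1) (.nd 168 (.nd 163 (.lf 130 1 3) (.lf 159 1 3) (.lf 163 2 3)) (.nd 168 (.lf 168 1 3) (.lf 168 1 1) (.lf 168 1 3)) (.lf 161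 1 3))) (.lf 214 2 3) (.lf 194 1 1)) (.lf 208 2 3)) (.lf 212 2 3) (.nd 190 (.nd 190 (.lf 190 1 1) (.nd 168 (.nd 168 (.nd 168 (.lf 138 2 3) (.lf 150 2 3) (.lf 168 1 1)) (.lf 168 2 3) (.lf 163 1 3)) (.lf 143 2 3) (.lf 160 2 3)) (.lf 182 2 3)) (.lf 190 1 3) (.lf 190 2 3))) (.nd 195 (.nd 160 (.lf 151 2 3) (.nd 160 (.nd 151 (.lf 146 1 1) (.nd 151 (.lf 121 2 3) (.lf 146 1 1) (.lf 151 2 3)) (.lf 149 2 3)) (.nd 156 (.lf 156 1 1) (.lf 155 2 3) (.lf 156 1 1)) (.lf 160 1 1)) (.lf 150 1 1)) (.nd 182 (.lf 171 2 3) (.lf 163 2 3) (.nd 182 (.lf 181 2 3) (.lf 167 1 3) (.lf 182 2 3))) (.nd 195 (.lf 181 1 1) (.nd 176 (.lf 176 1 1) (.lf 145 1 1) (.lf 146 1 1)) (.nd 195 (.nd 195 (.lf 192 1 3) (.nd 192 (.lf 174 1 1) (.lf 164 1 3) (.lf 192 1 3)) (.lf 195 1 1)) (.lf 187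 2 3) (.lf 195 2 3)))))))

def t15_101 : Tr := (.nd 213 (.nd 147 (.nd 139 (.lf 139 3 2) (.lf 117 3 2) (.nd 87 (.lf 87 3 2) (.nd 58 (.nd 58 (.nd 49 (.nd 49 (.lf 43 3 2) (.lf 44 3 2) (.lf 49 3 2)) (.lf 41 3 2) (.lf 27 3 2)) (.lf 39 3 2) (.lf 58 3 2)) (.lf 50 3 2) (.lf 29 3 2)) (.lf 82 3 2))) (.nd 115 (.nd 89 (.nd 86 (.lf 29 3 2) (.nd 86 (.lf 52 3 2) (.lf 74 3 2) (.nd 86 (.lf 86 3 2) (.lf 65 3 2) (.lf 62 3 2))) (.lf 56 3 2)) (.lf 55 3 2) (.lf 89 3 2)) (.nd 109 (.lf 58 3 2) (.lf 85 3 2) (.nd 109 (.nd 109 (.lf 109 3 2) (.lf 79 3 2) (.lf 89 3 2)) (.nd 98 (.lf 70 3 2) (.nd 98 (.lf 98 3 2) (.lf 76 3 2) (.lf 83 3 2)) (.lf 83 3 2)) (.nd 83 (.nd 83 (.lf 66 3 2) (.lf 75 3 2) (.lf 83 3 2)) (.lf 54 3 2) (.lf 78 3 2)))) (.nd 115 (.nd 106 (.nd 106 (.nd 106 (.lf 106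 3 2) (.lf 88 3 2) (.nd 88 (.lf 73 3 2) (.lf 75 3 2) (.lf 88 3 2))) (.lf 95 3 2) (.nd 100 (.lf 100 3 2) (.lf 87 3 2) (.lf 78 3 2))) (.nd 84 (.lf 51 3 2) (.nd 84 (.lf 78 3 2) (.lf 78 3 2) (.nd 84 (.lf 73 3 2) (.lf 72 3 2) (.lf 84 3 2))) (.lf 74 3 2)) (.nd 98 (.lf 52 3 2) (.lf 80 3 2) (.nd 98 (.lf 74 3 2) (.nd 98 (.lf 98 3 2) (.lf 78 3 2) (.lf 80 3 2)) (.lf 80 3 2)))) (.nd 115 (.nd 115 (.lf 115 3 2) (.nd 113 (.nd 85 (.lf 77 3 2) (.lf 85 3 2) (.lf 80 3 2)) (.lf 103 3 2) (.lf 113 3 2)) (.lf 113 3 2)) (.nd 90 (.lf 90 3 2) (.lf 80 3 2) (.lf 57 3 2)) (.nd 85 (.lf 77 3 2) (.lf 73 3 2) (.lf 85 3 2))) (.nd 98 (.lf 82 3 2) (.nd 94 (.lf 77 3 2) (.lf 78 3 2) (.lf 94 3 2)) (.nd 98 (.lf 82 3 2) (.lf 98 3 2) (.nd 83 (.lf 71 3 2) (.lf 31 3 2) (.nd 83 (.lf 68 3 2)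 (.lf 83 3 2) (.lf 53 3 2))))))) (.nd 147 (.nd 127 (.nd 127 (.lf 127 3 2) (.lf 113 3 2) (.nd 109 (.lf 109 3 2) (.lf 108 3 2) (.lf 62 3 2))) (.nd 122 (.nd 108 (.lf 69 3 2) (.lf 77 3 2) (.lf 108 3 2)) (.nd 122 (.nd 117 (.lf 80 3 2) (.lf 103 3 2) (.lf 117 3 2)) (.lf 117 3 2) (.lf 122 3 2)) (.nd 108 (.lf 104 3 2) (.lf 57 3 2) (.nd 108 (.lf 94 3 2) (.lf 108 3 2) (.lf 79 3 2)))) (.nd 110 (.nd 110 (.lf 82 3 2) (.lf 110 3 2) (.nd 83 (.lf 78 3 2) (.lf 31 3 2) (.lf 83 3 2))) (.nd 84 (.lf 66 3 2) (.lf 78 3 2) (.lf 84 3 2)) (.lf 96 3 2))) (.lf 147 3 2) (.nd 136 (.lf 136 3 2) (.lf 133 3 2) (.nd 113 (.lf 105 3 2) (.lf 113 3 2) (.nd 82 (.lf 57 3 2) (.nd 82 (.lf 73 3 2) (.nd 82 (.lf 82 3 2) (.lf 75 3 2) (.lf 59 3 2)) (.lf 78 3 2)) (.lf 79 3 2)))))) (.nd 196 (.nd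 196 (.lf 165 4 2) (.nd 164 (.lf 164 3 2) (.lf 114 4 2) (.nd 161 (.lf 161 4 2) (.nd 113 (.lf 113 4 2) (.nd 83 (.lf 31 4 2) (.lf 83 4 2) (.lf 78 4 2)) (.lf 80 4 2)) (.lf 116 4 2))) (.lf 196 4 2)) (.nd 143 (.nd 113 (.nd 113 (.lf 83 3 2) (.nd 98 (.lf 75 3 2) (.lf 74 3 2) (.lf 98 3 2)) (.lf 113 3 2)) (.nd 108 (.lf 60 3 2) (.nd 108 (.lf 89 3 2) (.lf 89 3 2) (.lf 108 3 2)) (.lf 63 3 2)) (.lf 61 3 2)) (.nd 112 (.lf 81 3 2) (.nd 112 (.nd 97 (.lf 82 3 2) (.lf 97 3 2) (.lf 77 3 2)) (.lf 90 3 2) (.lf 112 3 2)) (.lf 73 3 2)) (.nd 143 (.nd 143 (.lf 143 3 2) (.lf 140 3 2) (.nd 118 (.lf 118 3 2) (.nd 104 (.lf 89 3 2) (.lf 87 3 2) (.lf 104 3 2)) (.nd 118 (.lf 76 3 2) (.lf 90 3 2) (.lf 118 3 2)))) (.lf 121 3 2) (.lf 120 3 2))) (.lf 161 3 2)) (.nd 213 (.nd 213 (.nd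 178 (.lf 178 3 2) (.lf 175 3 2) (.nd 173 (.lf 141 4 2) (.lf 173 3 2) (.nd 127 (.nd 127 (.lf 89 3 2) (.lf 127 3 2) (.lf 127 3 2)) (.nd 109 (.lf 86 3 2) (.lf 104 3 2) (.lf 109 3 2)) (.lf 109 3 2)))) (.lf 213 3 2) (.nd 181 (.nd 167 (.nd 135 (.nd 135 (.lf 112 3 2) (.lf 135 3 2) (.lf 135 3 2)) (.lf 132 3 2) (.lf 109 3 2)) (.lf 160 3 2) (.lf 167 3 2)) (.nd 181 (.lf 181 3 2) (.nd 164 (.lf 140 3 2) (.lf 164 3 2) (.nd 140 (.lf 111 3 2) (.lf 140 3 2) (.lf 117 3 2))) (.lf 144 3 2)) (.nd 150 (.lf 132 3 2) (.lf 124 3 2) (.nd 150 (.nd 150 (.nd 122 (.lf 122 3 2) (.lf 121 3 2) (.lf 101 3 2)) (.lf 140 3 2) (.lf 150 3 2)) (.nd 139 (.lf 136 3 2) (.nd 133 (.lf 101 4 2) (.lf 133 4 2) (.nd 110 (.lf 110 3 2) (.lf 103 4 2) (.lf 100 4 2))) (.lf 139 3 2)) (.lf 150 3 2)))))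 (.nd 171 (.nd 156 (.nd 156 (.nd 148 (.nd 148 (.lf 148 3 2) (.lf 142 3 2) (.nd 130 (.lf 106 3 2) (.lf 130 4 2) (.lf 117 4 2))) (.nd 134 (.lf 134 3 2) (.lf 106 4 2) (.lf 104 4 2)) (.lf 113 3 2)) (.nd 156 (.lf 145 3 2) (.nd 154 (.lf 127 4 2) (.nd 154 (.lf 120 3 2) (.lf 154 3 2) (.lf 131 3 2)) (.lf 150 4 2)) (.nd 156 (.lf 145 4 2) (.nd 121 (.lf 121 4 2) (.lf 121 3 2) (.lf 98 4 2)) (.lf 156 3 2))) (.nd 123 (.nd 122 (.lf 122 4 2) (.lf 109 4 2) (.lf 110 4 2)) (.nd 123 (.lf 89 3 2) (.lf 123 3 2) (.lf 117 3 2)) (.nd 114 (.lf 101 3 2) (.lf 114 4 2) (.lf 109 3 2)))) (.nd 139 (.lf 139 3 2) (.lf 108 3 2) (.lf 100 3 2)) (.nd 140 (.lf 135 3 2) (.lf 140 3 2) (.lf 88 3 2))) (.nd 162 (.nd 111 (.lf 111 4 2) (.lf 82 4 2) (.lf 104 4 2)) (.lf 162 4 2) (.lf 160 4 2)) (.lf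 171 3 2)) (.nd 154 (.nd 140 (.nd 113 (.nd 109 (.lf 109 3 2) (.lf 109 3 2) (.nd 108 (.lf 108 4 2) (.lf 81 4 2) (.lf 86 3 2))) (.lf 82 3 2) (.lf 113 3 2)) (.nd 140 (.nd 140 (.nd 140 (.lf 123 4 2) (.lf 140 3 2) (.lf 140 3 2)) (.lf 112 3 2) (.lf 117 3 2)) (.nd 133 (.nd 133 (.lf 122 3 2) (.lf 133 3 2) (.nd 127 (.lf 127 3 2) (.lf 105 3 2) (.lf 114 3 2))) (.nd 125 (.lf 79 3 2) (.lf 125 3 2) (.lf 107 3 2)) (.lf 111 3 2)) (.nd 125 (.lf 125 3 2) (.lf 121 3 2) (.lf 109 3 2))) (.nd 136 (.lf 112 3 2) (.lf 85 3 2) (.nd 136 (.lf 136 3 2) (.lf 110 3 2) (.lf 125 3 2)))) (.nd 126 (.nd 126 (.nd 114 (.lf 112 3 2) (.nd 114 (.lf 114 3 2) (.lf 109 4 2) (.lf 79 4 2)) (.lf 109 4 2)) (.lf 123 4 2) (.nd 126 (.lf 114 4 2) (.lf 114 4 2) (.nd 126 (.lf 110 3 2) (.nd 126 (.lf 118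 3 2) (.lf 126 4 2) (.lf 111 3 2)) (.lf 109 3 2)))) (.lf 114 3 2) (.nd 105 (.lf 105 4 2) (.nd 92 (.lf 83 3 2) (.lf 80 3 2) (.lf 92 4 2)) (.lf 82 4 2))) (.nd 154 (.nd 117 (.lf 106 4 2) (.nd 117 (.lf 109 3 2) (.lf 117 4 2) (.lf 114 4 2)) (.lf 109 4 2)) (.lf 142 4 2) (.nd 154 (.lf 154 3 2) (.nd 123 (.lf 111 3 2) (.nd 118 (.nd 118 (.lf 117 3 2) (.lf 118 3 2) (.nd 118 (.lf 118 3 2) (.lf 118 3 2) (.lf 118 4 2))) (.lf 109 3 2) (.lf 110 3 2)) (.lf 123 3 2)) (.lf 149 3 2))))))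

def t15_103 : Tr := (.nd 92 (.nd 55 (.nd 39 (.lf 11 2 1) (.nd 39 (.lf 39 2 1) (.nd 39 (.lf 38 2 1) (.nd 39 (.lf 16 2 1) (.lf 0 2 1) (.lf 39 2 1)) (.lf 34 2 1)) (.lf 20 2 1)) (.nd 17 (.lf 17 2 1) (.lf 0 2 1) (.lf 9 2 1))) (.nd 55 (.nd 42 (.nd 42 (.lf 31 2 1) (.lf 42 2 1) (.nd 42 (.lf 42 2 1) (.nd 40 (.lf 40 1 1) (.lf 28 1 1) (.lf 26 2 1)) (.lf 40 2 1))) (.nd 41 (.lf 15 2 1) (.lf 0 2 1) (.lf 41 2 1)) (.lf 38 2 1)) (.lf 48 2 1) (.nd 55 (.nd 40 (.nd 28 (.lf 28 2 1) (.nd 28 (.lf 28 1 1) (.lf 28 1 1) (.lf 21 2 1)) (.lf 0 2 1)) (.nd 40 (.nd 37 (.lf 33 2 1) (.lf 23 2 1) (.lf 37 1 1)) (.lf 28 1 1) (.lf 40 1 1)) (.lf 33 2 1)) (.nd 53 (.nd 51 (.lf 51 2 1) (.lf 43 2 1) (.lf 28 1 1)) (.lf 47 2 1) (.nd 53 (.nd 53 (.lf 47 2 1) (.lf 41 2 1) (.lf 53 1 1)) (.lf 44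 1 1) (.lf 50 1 1))) (.lf 55 2 1))) (.nd 42 (.nd 42 (.nd 42 (.lf 18 2 1) (.lf 42 2 1) (.lf 21 2 1)) (.nd 8 (.nd 8 (.lf 0 2 1) (.lf 8 2 1) (.lf 0 2 1)) (.nd 3 (.nd 3 (.lf 0 2 1) (.lf 3 2 1) (.lf 0 2 1)) (.lf 0 2 1) (.lf 0 2 1)) (.lf 0 2 1)) (.lf 30 2 1)) (.nd 28 (.lf 0 2 1) (.nd 28 (.nd 9 (.lf 0 2 1) (.lf 9 2 1) (.nd 9 (.lf 0 2 1) (.lf 9 2 1) (.lf 0 2 1))) (.lf 28 2 1) (.nd 16 (.nd 9 (.lf 9 2 1) (.lf 0 2 1) (.lf 0 2 1)) (.lf 1 2 1) (.lf 16 2 1))) (.lf 0 2 1)) (.lf 0 2 1))) (.nd 63 (.nd 63 (.nd 63 (.nd 63 (.lf 63 2 1) (.nd 49 (.lf 41 2 1) (.lf 49 2 1) (.nd 46 (.lf 46 1 1) (.lf 43 2 1) (.lf 38 2 1))) (.lf 55 2 1)) (.lf 44 2 1) (.lf 45 2 1)) (.nd 54 (.lf 54 2 1) (.lf 39 2 1) (.lf 26 2 1)) (.lf 39 2 1)) (.lf 14 2 1) (.nd 40 (.lf 11 2 1) (.lf 16 2 1) (.nd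 40 (.nd 38 (.lf 34 2 1) (.lf 38 2 1) (.nd 38 (.nd 38 (.lf 28 1 1) (.lf 28 1 1) (.nd 38 (.lf 38 2 1) (.lf 28 1 1) (.lf 29 2 1))) (.lf 28 1 1) (.lf 30 2 1))) (.lf 40 2 1) (.nd 37 (.nd 30 (.lf 28 1 1) (.lf 4 2 1) (.lf 30 2 1)) (.lf 37 2 1) (.lf 32 2 1))))) (.nd 92 (.nd 92 (.nd 92 (.nd 92 (.lf 75 2 1) (.nd 92 (.lf 66 2 1) (.nd 92 (.lf 83 2 1) (.lf 77 2 1) (.nd 92 (.lf 92 2 1) (.lf 85 2 1) (.nd 92 (.lf 92 2 1) (.lf 65 1 1) (.lf 68 1 1)))) (.lf 72 2 1)) (.lf 81 2 1)) (.lf 72 2 1) (.lf 75 2 1)) (.nd 71 (.lf 70 2 1) (.nd 71 (.lf 27 2 1) (.lf 71 2 1) (.lf 37 2 1)) (.lf 53 2 1)) (.nd 79 (.lf 79 2 1) (.lf 56 2 1) (.lf 79 2 1))) (.nd 79 (.nd 59 (.lf 13 2 1) (.lf 59 2 1) (.lf 43 2 1)) (.nd 64 (.lf 33 2 1) (.lf 29 2 1) (.nd 64 (.lf 43 2 1) (.lf 43 2 1) (.lf 64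 2 1))) (.nd 79 (.lf 72 2 1) (.lf 79 2 1) (.lf 73 2 1))) (.nd 72 (.lf 58 2 1) (.nd 61 (.lf 25 2 1) (.lf 38 2 1) (.lf 61 2 1)) (.nd 72 (.lf 58 2 1) (.lf 72 2 1) (.lf 62 2 1)))))

def t15_104 : Tr := (.nd 253 (.nd 222 (.nd 222 (.nd 222 (.nd 222 (.lf 222 2 4) (.lf 214 2 4) (.nd 208 (.nd 205 (.lf 202 2 4) (.lf 205 1 4) (.lf 197 2 4)) (.lf 208 2 4) (.lf 200 2 4))) (.nd 204 (.lf 192 2 4) (.lf 200 2 4) (.lf 204 2 4)) (.lf 203 2 4)) (.lf 198 2 4) (.nd 213 (.lf 185 2 4) (.lf 198 2 4) (.nd 213 (.lf 191 2 4) (.lf 213 2 4) (.lf 198 2 4)))) (.nd 187 (.nd 187 (.nd 187 (.nd 187 (.lf 168 2 4) (.lf 187 2 4) (.lf 187 1 4)) (.nd 187 (.nd 187 (.nd 187 (.lf 187 1 4) (.lf 184 2 4) (.lf 169 2 4)) (.lf 187 2 4) (.nd 187 (.lf 186 2 4) (.lf 187 2 4) (.lf 187 1 4))) (.lf 187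 1 4) (.nd 187 (.lf 187 1 4) (.lf 186 1 2) (.lf 187 1 4))) (.nd 183 (.lf 179 2 4) (.nd 183 (.lf 144 2 4) (.nd 183 (.lf 176 2 4) (.lf 179 2 4) (.lf 183 1 2)) (.lf 165 2 4)) (.lf 165 1 2))) (.nd 187 (.nd 183 (.lf 165 2 4) (.lf 183 2 4) (.nd 178 (.lf 163 1 2) (.lf 160 1 2) (.lf 178 2 4))) (.nd 187 (.lf 187 2 4) (.nd 186 (.nd 186 (.lf 166 1 2) (.lf 186 2 4) (.lf 186 1 2)) (.lf 186 2 4) (.lf 181 2 4)) (.lf 187 2 4)) (.nd 177 (.lf 165 1 2) (.nd 177 (.lf 177 1 2) (.lf 167 2 4) (.lf 162 2 4)) (.lf 163 2 4))) (.nd 187 (.lf 177 2 4) (.nd 187 (.lf 174 2 4) (.lf 178 2 4) (.nd 187 (.nd 185 (.lf 175 2 4) (.lf 164 1 2) (.lf 185 2 4)) (.nd 187 (.lf 187 1 4) (.nd 187 (.lf 187 1 4) (.lf 185 2 4) (.lf 187 2 4)) (.lf 185 2 4)) (.nd 183 (.lf 165 2 4) (.lf 176 1 2) (.lf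 183 2 4)))) (.nd 183 (.lf 180 2 4) (.nd 183 (.nd 172 (.lf 172 2 4) (.lf 161 1 2) (.lf 169 2 4)) (.nd 183 (.lf 182 1 2) (.nd 183 (.lf 183 2 4) (.lf 180 1 2) (.lf 182 2 4)) (.lf 164 1 2)) (.lf 181 2 4)) (.nd 183 (.lf 183 2 4) (.lf 137 2 4) (.nd 174 (.nd 163 (.lf 163 2 4) (.lf 159 1 2) (.lf 156 1 2)) (.lf 159 2 4) (.lf 174 2 4)))))) (.lf 175 2 4) (.lf 170 2 4)) (.nd 173 (.lf 166 2 4) (.nd 173 (.lf 163 2 4) (.nd 173 (.lf 173 2 4) (.lf 150 2 4) (.lf 150 2 4)) (.lf 154 2 4)) (.lf 144 2 4))) (.nd 222 (.nd 198 (.nd 198 (.nd 198 (.lf 169 2 4) (.lf 166 2 4) (.lf 198 2 4)) (.lf 179 2 4) (.nd 197 (.lf 193 2 4) (.nd 195 (.lf 159 2 4) (.nd 156 (.lf 124 2 4) (.lf 156 2 4) (.lf 156 1 2)) (.lf 195 1 2)) (.lf 197 2 4))) (.nd 170 (.lf 115 2 4) (.lf 170 2 4) (.lf 160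 2 4)) (.nd 176 (.lf 168 2 4) (.lf 143 2 4) (.lf 176 2 4))) (.nd 201 (.nd 201 (.lf 167 2 4) (.lf 201 2 4) (.lf 189 2 4)) (.lf 144 2 4) (.nd 187 (.lf 139 2 4) (.lf 144 2 4) (.lf 187 2 4))) (.nd 222 (.nd 201 (.nd 197 (.lf 166 2 4) (.nd 197 (.nd 197 (.lf 197 2 4) (.lf 194 2 4) (.nd 172 (.lf 158 2 4) (.lf 172 2 4) (.lf 168 1 2))) (.lf 173 2 4) (.nd 182 (.lf 150 2 4) (.lf 182 2 4) (.lf 167 2 4))) (.lf 167 2 4)) (.nd 200 (.lf 174 2 4) (.lf 200 2 4) (.lf 155 2 4)) (.nd 201 (.lf 190 2 4) (.nd 201 (.nd 199 (.lf 187 1 4) (.lf 199 1 4) (.lf 185 2 4)) (.lf 201 2 4) (.lf 199 2 4)) (.lf 201 2 4))) (.nd 222 (.nd 222 (.lf 206 2 4) (.lf 219 2 4) (.lf 222 2 4)) (.nd 206 (.lf 206 1 4) (.nd 187 (.nd 187 (.lf 187 1 4) (.lf 187 1 4) (.lf 180 2 4)) (.lf 187 2 4) (.lf 155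 2 4)) (.lf 192 2 4)) (.lf 214 2 4)) (.nd 207 (.nd 207 (.lf 201 2 4) (.lf 202 2 4) (.lf 207 2 4)) (.lf 193 2 4) (.lf 192 2 4)))) (.nd 253 (.nd 231 (.nd 220 (.lf 184 2 4) (.lf 220 2 4) (.nd 197 (.lf 176 2 4) (.lf 197 2 4) (.lf 179 2 4))) (.nd 217 (.lf 217 2 4) (.nd 197 (.lf 197 2 4) (.lf 168 2 4) (.lf 166 2 4)) (.lf 198 2 4)) (.nd 231 (.lf 221 2 4) (.lf 231 2 4) (.lf 217 2 4))) (.nd 238 (.nd 223 (.lf 188 2 4) (.lf 192 2 4) (.nd 223 (.lf 223 2 4) (.lf 202 2 4) (.lf 202 2 4))) (.nd 218 (.nd 218 (.lf 205 2 4) (.lf 194 2 4) (.nd 218 (.lf 198 2 4) (.lf 200 2 4) (.lf 218 2 4))) (.lf 172 2 4) (.lf 202 2 4)) (.nd 238 (.nd 231 (.nd 231 (.lf 231 2 4) (.lf 229 2 4) (.nd 229 (.lf 229 2 4) (.lf 209 2 4) (.nd 215 (.lf 215 2 4) (.lf 174 2 4) (.lf 199 2 4)))) (.nd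 209 (.lf 173 2 4) (.nd 209 (.lf 209 2 4) (.lf 195 2 4) (.lf 201 2 4)) (.lf 198 2 4)) (.lf 203 2 4)) (.nd 232 (.nd 218 (.lf 218 2 4) (.lf 198 2 4) (.lf 198 2 4)) (.nd 200 (.lf 195 2 4) (.nd 200 (.lf 199 1 2) (.lf 197 2 4) (.lf 200 2 4)) (.lf 192 2 4)) (.lf 232 2 4)) (.nd 238 (.lf 238 2 4) (.nd 232 (.lf 229 2 4) (.nd 231 (.lf 231 2 4) (.lf 212 2 4) (.lf 229 2 4)) (.lf 232 2 4)) (.lf 232 2 4)))) (.nd 253 (.nd 230 (.lf 212 2 4) (.nd 230 (.lf 186 2 4) (.lf 196 2 4) (.lf 230 2 4)) (.lf 229 2 4)) (.nd 253 (.lf 234 2 4) (.nd 231 (.lf 220 2 4) (.nd 230 (.lf 230 2 4) (.lf 227 2 4) (.nd 226 (.lf 192 2 4) (.lf 226 2 4) (.lf 212 2 4))) (.lf 231 2 4)) (.lf 253 2 4)) (.lf 238 2 4))))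

def t15_106 : Tr := (.nd 333 (.lf 333 2 5) (.nd 303 (.nd 279 (.nd 253 (.nd 250 (.nd 193 (.lf 184 2 5) (.lf 193 2 5) (.lf 163 2 5)) (.lf 250 2 5) (.lf 220 2 5)) (.lf 219 2 5) (.lf 253 2 5)) (.lf 273 2 5) (.lf 279 2 5)) (.lf 301 2 5) (.lf 303 2 5)) (.lf 318 2 5))

def t15_109 : Tr := (.nd 134 (.nd 117 (.nd 101 (.nd 96 (.lf 51 1 1) (.lf 48 1 1) (.nd 96 (.nd 96 (.lf 71 1 1) (.lf 96 1 1) (.lf 68 1 1)) (.lf 77 1 1) (.lf 77 1 1))) (.lf 49 1 1) (.lf 101 1 1)) (.nd 100 (.nd 100 (.nd 100 (.lf 100 1 1) (.lf 77 1 1) (.lf 85 1 1)) (.lf 85 1 1) (.lf 78 1 1)) (.nd 69 (.nd 69 (.lf 54 1 1) (.lf 69 1 1) (.lf 51 1 1)) (.lf 41 1 1) (.lf 45 1 1)) (.nd 63 (.lf 20 1 1) (.lf 56 1 1) (.lf 63 1 1))) (.nd 117 (.lf 109 1 1) (.lf 110 1 1) (.nd 117 (.nd 117 (.lf 107 1 1) (.nd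 113 (.nd 110 (.lf 109 1 1) (.nd 110 (.lf 109 1 1) (.nd 110 (.lf 98 1 1) (.lf 110 1 3) (.lf 110 1 3)) (.lf 106 1 1)) (.lf 110 1 1)) (.lf 109 1 1) (.lf 113 1 1)) (.lf 117 1 1)) (.nd 115 (.lf 115 1 1) (.lf 89 1 1) (.nd 107 (.lf 102 1 1) (.lf 107 1 3) (.lf 107 1 3))) (.lf 111 1 1)))) (.nd 107 (.nd 94 (.nd 74 (.lf 45 1 1) (.lf 74 1 1) (.lf 43 1 1)) (.lf 94 1 1) (.lf 75 1 1)) (.nd 97 (.lf 97 1 1) (.nd 79 (.lf 79 1 1) (.lf 49 1 1) (.lf 48 1 1)) (.lf 74 1 1)) (.nd 107 (.nd 99 (.nd 86 (.lf 62 1 1) (.lf 62 1 1) (.lf 86 1 1)) (.lf 99 1 1) (.lf 88 1 1)) (.nd 107 (.nd 107 (.nd 107 (.lf 92 1 1) (.lf 94 1 1) (.lf 107 1 3)) (.lf 94 1 1) (.lf 88 1 1)) (.lf 66 1 1) (.lf 94 1 1)) (.nd 107 (.nd 107 (.nd 107 (.lf 107 1 3) (.nd 107 (.lf 95 1 1) (.lf 81 1 1) (.lf 107 1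 3)) (.lf 72 1 1)) (.lf 107 1 3) (.lf 106 1 1)) (.nd 107 (.lf 98 1 1) (.lf 107 1 3) (.lf 101 1 1)) (.lf 102 1 1)))) (.nd 134 (.nd 128 (.nd 112 (.lf 112 1 1) (.lf 67 1 1) (.lf 91 1 1)) (.nd 128 (.nd 121 (.nd 121 (.lf 111 1 1) (.lf 121 1 1) (.lf 107 1 1)) (.lf 110 1 1) (.lf 107 1 1)) (.nd 119 (.lf 101 1 1) (.lf 95 1 1) (.lf 119 1 1)) (.nd 128 (.lf 128 1 1) (.lf 128 1 1) (.nd 119 (.lf 101 1 1) (.lf 119 1 1) (.lf 102 1 1)))) (.nd 107 (.lf 63 1 1) (.nd 107 (.lf 88 1 1) (.lf 103 1 1) (.nd 107 (.lf 94 1 1) (.lf 93 1 1) (.nd 107 (.lf 88 1 1) (.lf 98 1 1) (.lf 107 1 3)))) (.lf 73 1 1))) (.nd 134 (.nd 118 (.lf 118 1 1) (.lf 91 1 1) (.lf 94 1 1)) (.nd 134 (.lf 114 1 1) (.nd 134 (.lf 134 1 1) (.lf 118 1 1) (.lf 120 1 1)) (.nd 126 (.lf 106 1 1) (.nd 126 (.lf 112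 1 1) (.lf 108 1 1) (.lf 126 1 1)) (.lf 105 1 1))) (.lf 92 1 1)) (.nd 134 (.nd 130 (.lf 116 1 1) (.lf 130 1 1) (.lf 123 1 1)) (.nd 126 (.nd 113 (.lf 113 1 1) (.lf 100 1 1) (.lf 110 1 1)) (.lf 112 1 1) (.lf 126 1 1)) (.nd 134 (.lf 128 1 1) (.nd 134 (.lf 98 1 1) (.lf 128 1 1) (.nd 134 (.lf 109 1 1) (.lf 107 1 1) (.nd 134 (.lf 124 1 1) (.lf 126 1 1) (.lf 134 1 1)))) (.nd 132 (.nd 132 (.lf 107 1 1) (.lf 132 1 1) (.lf 111 1 1)) (.lf 132 1 1) (.lf 132 1 1))))))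

def t15_110 : Tr := (.nd 307 (.nd 307 (.lf 307 1 6) (.lf 278 1 6) (.nd 273 (.lf 273 1 2) (.lf 250 1 6) (.nd 250 (.lf 225 1 2) (.lf 250 1 2) (.nd 245 (.lf 193 1 2) (.nd 245 (.lf 245 1 6) (.nd 216 (.lf 216 1 2) (.lf 211 1 2) (.lf 187 1 2)) (.lf 238 1 2)) (.lf 220 1 2))))) (.nd 307 (.lf 307 1 2) (.lf 272 1 2) (.nd 305 (.nd 266 (.lf 250 1 2) (.lf 266 1 2) (.nd 252 (.lf 252 1 2) (.lf 246 1 2) (.nd 201 (.nd 172 (.lf 144 1 2) (.lf 172 1 2) (.lf 164 1 2)) (.nd 194 (.lf 142 1 2) (.lf 170 1 2) (.lf 194 1 2)) (.lf 201 1 2)))) (.lf 282 1 2) (.lf 305 1 2))) (.nd 306 (.lf 279 1 6) (.nd 304 (.nd 276 (.lf 255 1 2) (.lf 276 1 2) (.nd 259 (.nd 224 (.lf 224 1 2) (.lf 214 1 2) (.lf 169 1 2)) (.lf 241 1 2) (.lf 259 1 2))) (.lf 304 1 6) (.lf 278 1 2)) (.lf 306 1 2)))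

def t15_112 : Tr := (.nd 235 (.nd 210 (.nd 210 (.nd 210 (.nd 177 (.nd 177 (.lf 177 1 1) (.lf 160 1 1) (.lf 148 1 1)) (.lf 148 1 1) (.lf 163 1 1)) (.lf 210 1 1) (.nd 193 (.lf 176 1 1) (.lf 193 1 1) (.lf 166 1 1))) (.nd 195 (.lf 195 1 1) (.nd 177 (.lf 177 1 1) (.lf 157 1 1) (.lf 151 1 1)) (.lf 173 1 1)) (.nd 207 (.nd 203 (.lf 203 1 1) (.lf 191 1 5) (.nd 194 (.lf 168 1 1) (.lf 191 1 1) (.nd 194 (.lf 170 1 1) (.lf 194 1 1) (.lf 183 1 1)))) (.lf 207 1 1) (.lf 184 1 1))) (.nd 202 (.lf 202 1 1) (.nd 157 (.nd 157 (.lf 156 1 1) (.nd 122 (.lf 117 1 1) (.nd 122 (.lf 93 1 1) (.lf 122 1 1) (.lf 116 1 1)) (.lf 122 1 1)) (.lf 157 1 1)) (.lf 150 1 1) (.nd 123 (.lf 123 1 1) (.lf 93 1 1) (.lf 114 1 1))) (.lf 178 1 1)) (.lf 192 1 1)) (.nd 235 (.nd 211 (.lf 203 1 5)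 (.nd 201 (.nd 186 (.lf 186 1 5) (.nd 186 (.lf 186 1 5) (.lf 186 1 5) (.nd 186 (.lf 150 1 1) (.lf 186 1 5) (.lf 169 1 1))) (.lf 186 1 5)) (.lf 193 1 5) (.lf 201 1 1)) (.nd 211 (.nd 208 (.lf 156 1 1) (.nd 203 (.lf 155 1 1) (.nd 158 (.lf 129 1 1) (.lf 129 1 1) (.lf 158 1 1)) (.nd 203 (.lf 184 1 1) (.lf 203 1 1) (.nd 184 (.lf 161 1 1) (.lf 179 1 1) (.lf 184 1 1)))) (.lf 208 1 1)) (.lf 211 1 5) (.nd 186 (.lf 178 1 1) (.lf 176 1 1) (.nd 186 (.lf 186 1 5) (.nd 185 (.lf 171 1 1) (.lf 185 1 1) (.lf 174 1 1)) (.nd 186 (.lf 177 1 1) (.lf 172 1 1) (.lf 186 1 5)))))) (.nd 228 (.lf 217 1 1) (.lf 228 1 1) (.nd 224 (.lf 224 1 5) (.nd 224 (.lf 216 1 1) (.nd 224 (.nd 183 (.lf 178 1 1) (.lf 183 1 1) (.lf 154 1 1)) (.lf 224 1 1) (.nd 208 (.lf 185 1 1) (.nd 182 (.lf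 182 1 1) (.lf 149 1 1) (.lf 152 1 1)) (.lf 208 1 1))) (.lf 201 1 1)) (.nd 215 (.lf 214 1 5) (.lf 204 1 1) (.nd 215 (.lf 203 1 1) (.nd 206 (.lf 177 1 1) (.lf 206 1 1) (.lf 177 1 1)) (.lf 215 1 5))))) (.lf 235 1 1)) (.nd 207 (.lf 181 1 1) (.nd 206 (.lf 178 1 1) (.nd 192 (.lf 184 1 1) (.lf 192 1 1) (.nd 159 (.lf 159 1 1) (.lf 151 1 1) (.nd 145 (.lf 145 1 1) (.lf 117 1 1) (.lf 137 1 1)))) (.lf 206 1 1)) (.nd 207 (.nd 163 (.nd 147 (.lf 147 1 1) (.lf 118 1 1) (.nd 110 (.lf 94 1 1) (.lf 97 1 1) (.nd 110 (.lf 103 1 1) (.lf 97 1 1) (.lf 110 1 1)))) (.nd 150 (.lf 150 1 1) (.lf 98 1 1) (.nd 145 (.lf 100 1 1) (.nd 145 (.nd 126 (.lf 126 1 1) (.lf 103 1 1) (.lf 121 1 1)) (.lf 126 1 1) (.nd 145 (.lf 120 1 1) (.lf 117 1 1) (.lf 145 1 1))) (.lf 97 1 1))) (.lf 163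 1 1)) (.lf 207 1 1) (.lf 183 1 1))))

def t15_113 : Tr := (.nd 235 (.nd 235 (.nd 235 (.nd 218 (.nd 213 (.lf 197 3 4) (.nd 209 (.lf 193 3 4) (.lf 193 3 4) (.nd 209 (.nd 208 (.lf 199 3 4) (.nd 198 (.lf 196 3 4) (.lf 197 3 4) (.lf 198 1 2)) (.lf 208 3 4)) (.lf 209 3 4) (.nd 206 (.lf 189 1 2) (.lf 190 1 2) (.lf 206 3 4)))) (.nd 213 (.lf 213 1 2) (.nd 213 (.lf 213 1 2) (.lf 206 3 4) (.lf 212 3 4)) (.lf 203 3 4))) (.nd 218 (.lf 189 3 4) (.lf 218 3 4) (.lf 208 3 4)) (.lf 206 3 4)) (.nd 235 (.lf 235 3 4) (.nd 223 (.lf 209 1 2) (.lf 223 3 4) (.nd 211 (.lf 208 1 2) (.nd 210 (.nd 210 (.lf 205 3 4) (.lf 210 3 4) (.nd 210 (.lf 210 3 4) (.lf 209 1 2) (.lf 196 1 2))) (.lf 207 3 4) (.lf 193 3 4)) (.lf 211 1 2))) (.nd 233 (.lf 222 1 2) (.nd 233 (.lf 233 1 2) (.lf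 230 1 2) (.nd 232 (.nd 232 (.lf 231 1 2) (.lf 231 3 4) (.lf 232 3 4)) (.lf 228 3 4) (.lf 230 1 2))) (.lf 220 1 2))) (.nd 225 (.lf 217 3 4) (.nd 204 (.lf 198 3 4) (.lf 180 3 4) (.nd 204 (.nd 204 (.lf 192 3 4) (.lf 204 1 2) (.lf 157 1 2)) (.nd 202 (.lf 179 1 2) (.nd 202 (.lf 202 3 4) (.lf 193 1 2) (.lf 186 1 2)) (.lf 177 1 2)) (.lf 198 3 4))) (.lf 225 3 4))) (.nd 219 (.lf 217 3 4) (.lf 219 3 4) (.lf 195 3 4)) (.nd 222 (.lf 211 3 4) (.nd 210 (.nd 210 (.lf 197 3 4) (.lf 196 3 4) (.lf 210 3 4)) (.lf 185 3 4) (.lf 190 3 4)) (.nd 222 (.nd 222 (.lf 213 1 2) (.nd 222 (.lf 213 1 2) (.nd 222 (.lf 212 3 4) (.lf 222 1 2) (.lf 214 1 2)) (.lf 213 1 2)) (.nd 213 (.nd 207 (.lf 192 3 4) (.nd 194 (.lf 184 1 2) (.lf 182 3 4) (.lf 194 3 4)) (.lf 207 3 4)) (.nd 213 (.lf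 213 1 2) (.nd 213 (.lf 213 3 4) (.lf 213 1 2) (.lf 213 1 2)) (.lf 213 1 2)) (.nd 211 (.nd 211 (.lf 210 1 2) (.lf 211 3 4) (.lf 209 1 2)) (.lf 197 3 4) (.lf 195 3 4)))) (.nd 213 (.lf 192 3 4) (.lf 202 3 4) (.nd 213 (.nd 207 (.lf 207 1 2) (.lf 184 3 4) (.lf 202 3 4)) (.nd 213 (.lf 206 3 4) (.lf 213 1 2) (.lf 190 3 4)) (.lf 213 3 4))) (.nd 213 (.lf 194 3 4) (.nd 213 (.lf 196 3 4) (.nd 213 (.lf 213 3 4) (.lf 213 3 4) (.nd 213 (.lf 198 3 4) (.lf 199 3 4) (.lf 213 1 2))) (.lf 193 3 4)) (.nd 213 (.lf 208 3 4) (.lf 192 3 4) (.lf 213 3 4)))))) (.nd 219 (.nd 193 (.nd 193 (.lf 174 3 4) (.nd 193 (.nd 182 (.nd 175 (.lf 147 1 2) (.lf 174 3 4) (.nd 175 (.lf 175 3 4) (.lf 149 1 2) (.lf 146 1 2))) (.lf 172 3 4) (.lf 182 3 4)) (.lf 171 3 4) (.lf 193 3 4)) (.lf 171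 3 4)) (.lf 163 3 4) (.lf 166 3 4)) (.nd 219 (.nd 219 (.nd 197 (.lf 188 1 2) (.nd 195 (.nd 195 (.lf 191 3 4) (.lf 195 1 2) (.lf 195 3 4)) (.lf 172 1 2) (.lf 191 1 2)) (.nd 197 (.lf 179 3 4) (.lf 188 3 4) (.nd 197 (.lf 195 1 2) (.lf 197 1 2) (.lf 195 3 4)))) (.nd 219 (.nd 199 (.lf 175 3 4) (.lf 182 3 4) (.nd 199 (.lf 199 3 4) (.lf 192 3 4) (.lf 189 2 4))) (.nd 219 (.nd 209 (.lf 198 3 4) (.nd 209 (.nd 209 (.lf 199 3 4) (.lf 200 3 4) (.lf 209 1 2)) (.lf 208 3 4) (.lf 197 3 4)) (.lf 195 3 4)) (.nd 219 (.lf 216 3 4) (.nd 214 (.nd 197 (.lf 178 3 4) (.lf 192 3 4) (.lf 197 1 2)) (.lf 214 3 4) (.lf 206 3 4)) (.lf 219 3 4)) (.lf 207 3 4)) (.lf 214 3 4)) (.lf 203 3 4)) (.nd 216 (.nd 212 (.nd 212 (.nd 212 (.lf 207 2 4) (.lf 195 2 4) (.lf 212 1 2)) (.lf 189 1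 2) (.lf 203 1 2)) (.nd 204 (.lf 180 2 4) (.nd 204 (.lf 197 2 4) (.lf 195 3 4) (.nd 204 (.lf 196 2 4) (.nd 200 (.lf 197 2 4) (.lf 191 1 2) (.lf 200 2 4)) (.lf 204 2 4))) (.lf 188 2 4)) (.nd 199 (.lf 196 1 2) (.lf 168 2 4) (.lf 199 1 2))) (.nd 216 (.lf 205 3 4) (.lf 216 3 4) (.lf 205 3 4)) (.nd 201 (.lf 201 1 2) (.nd 201 (.lf 191 3 4) (.lf 201 1 2) (.nd 197 (.lf 172 3 4) (.lf 185 1 2) (.lf 197 3 4))) (.lf 194 3 4))) (.nd 208 (.nd 206 (.lf 191 3 4) (.nd 206 (.lf 160 3 4) (.lf 190 3 4) (.lf 206 2 4)) (.nd 205 (.lf 205 3 4) (.nd 202 (.lf 182 3 4) (.lf 185 3 4) (.lf 202 1 2)) (.lf 204 3 4))) (.nd 203 (.nd 203 (.lf 203 2 4) (.lf 191 3 4) (.lf 187 1 2)) (.nd 201 (.lf 165 2 4) (.nd 201 (.lf 201 3 4) (.nd 193 (.lf 189 3 4) (.lf 179 1 2) (.lf 193 3 4)) (.lf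 190 2 4)) (.lf 178 1 2)) (.lf 193 2 4)) (.nd 208 (.nd 208 (.lf 208 3 4) (.lf 193 3 4) (.lf 188 3 4)) (.lf 189 3 4) (.nd 207 (.nd 187 (.lf 187 3 4) (.lf 167 2 4) (.lf 167 2 4)) (.nd 207 (.lf 203 3 4) (.lf 202 3 4) (.lf 207 2 4)) (.nd 189 (.lf 160 2 4) (.nd 189 (.lf 168 2 4) (.nd 189 (.lf 189 3 4) (.lf 163 1 2) (.lf 164 1 2)) (.lf 171 2 4)) (.lf 163 2 4)))))) (.nd 187 (.lf 170 3 4) (.nd 187 (.lf 176 1 2) (.lf 187 3 4) (.nd 186 (.lf 186 1 2) (.nd 179 (.lf 173 3 4) (.lf 172 1 2) (.lf 179 3 4)) (.lf 176 3 4))) (.lf 170 3 4))) (.nd 197 (.nd 197 (.lf 189 3 4) (.lf 197 3 4) (.nd 180 (.lf 180 3 4) (.lf 152 3 4) (.lf 176 3 4))) (.nd 168 (.lf 139 3 4) (.nd 168 (.nd 149 (.nd 149 (.lf 136 3 4) (.lf 149 3 4) (.nd 135 (.nd 135 (.nd 135 (.lf 135 3 4) (.lf 135 3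 4) (.lf 135 3 4)) (.lf 135 3 4) (.lf 135 3 4)) (.lf 106 3 4) (.lf 104 3 4))) (.lf 145 3 4) (.lf 135 3 4)) (.lf 168 3 4) (.lf 159 3 4)) (.lf 162 3 4)) (.lf 192 3 4)))

def t15_115 : Tr := (.nd 292 (.lf 292 1 3) (.nd 277 (.nd 277 (.nd 277 (.lf 277 1 3) (.lf 261 1 3) (.nd 262 (.nd 242 (.lf 242 1 3) (.nd 221 (.lf 221 1 3) (.lf 189 1 3) (.lf 189 1 3)) (.nd 222 (.lf 208 1 3) (.lf 222 1 3) (.lf 215 1 3))) (.nd 262 (.lf 218 1 3) (.nd 228 (.lf 228 1 3) (.lf 215 1 3) (.nd 220 (.lf 189 1 3) (.lf 192 1 3) (.lf 220 1 3))) (.lf 262 1 3)) (.lf 261 1 3))) (.nd 261 (.lf 249 1 3) (.lf 261 1 3) (.nd 252 (.lf 229 1 3) (.nd 216 (.lf 203 1 3) (.lf 204 1 3) (.lf 216 1 3)) (.lf 252 1 3))) (.nd 264 (.nd 234 (.nd 234 (.nd 219 (.lf 194 1 3) (.lf 219 1 3) (.lf 190 1 3)) (.nd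 234 (.lf 234 1 3) (.lf 225 1 3) (.lf 207 1 3)) (.nd 220 (.lf 212 1 3) (.lf 192 1 3) (.lf 220 1 3))) (.nd 220 (.nd 220 (.lf 220 1 3) (.lf 200 1 3) (.nd 215 (.lf 215 1 3) (.lf 187 1 3) (.lf 200 1 3))) (.lf 211 1 3) (.lf 175 1 3)) (.nd 224 (.lf 224 1 3) (.lf 207 1 3) (.lf 194 1 3))) (.nd 250 (.lf 204 1 3) (.nd 234 (.lf 234 1 3) (.lf 203 1 3) (.lf 206 1 3)) (.lf 250 1 3)) (.lf 264 1 3))) (.nd 245 (.nd 205 (.lf 198 1 3) (.nd 205 (.nd 205 (.lf 182 1 3) (.lf 205 1 3) (.lf 182 1 3)) (.lf 186 1 3) (.nd 195 (.lf 195 1 3) (.lf 172 1 3) (.nd 194 (.lf 142 1 3) (.lf 172 1 3) (.lf 194 1 3)))) (.lf 176 1 3)) (.lf 245 1 3) (.nd 231 (.nd 202 (.nd 202 (.lf 202 1 3) (.lf 180 1 3) (.lf 180 1 3)) (.lf 171 1 3) (.lf 172 1 3)) (.nd 231 (.lf 231 1 3) (.lf 229 1 3) (.nd 231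 (.lf 231 1 3) (.nd 215 (.lf 197 1 3) (.lf 215 1 3) (.lf 191 1 3)) (.nd 228 (.nd 219 (.lf 215 1 3) (.lf 219 1 3) (.lf 197 1 3)) (.lf 219 1 3) (.lf 228 1 3)))) (.lf 207 1 3))) (.nd 254 (.nd 221 (.nd 207 (.lf 207 1 3) (.lf 171 1 3) (.lf 176 1 3)) (.nd 221 (.lf 221 1 3) (.lf 199 1 3) (.nd 214 (.nd 212 (.lf 211 1 3) (.lf 212 1 3) (.lf 206 1 3)) (.nd 214 (.lf 210 1 3) (.lf 206 1 3) (.lf 214 1 3)) (.lf 209 1 3))) (.nd 176 (.lf 167 1 3) (.lf 146 1 3) (.lf 176 1 3))) (.lf 254 1 3) (.lf 230 1 3))) (.nd 286 (.lf 234 1 3) (.nd 264 (.nd 230 (.lf 203 1 3) (.nd 200 (.lf 163 1 3) (.nd 171 (.lf 148 1 3) (.lf 171 1 3) (.lf 134 1 3)) (.lf 200 1 3)) (.lf 230 1 3)) (.lf 236 1 3) (.lf 264 1 3)) (.lf 286 1 3)))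

def t15_118 : Tr := (.nd 100 (.nd 92 (.nd 92 (.lf 92 1 1) (.nd 85 (.lf 65 1 1) (.lf 78 1 1) (.nd 85 (.lf 63 1 1) (.lf 35 1 1) (.lf 85 1 1))) (.lf 81 1 1)) (.nd 91 (.nd 39 (.lf 34 1 1) (.lf 39 1 1) (.lf 10 1 1)) (.lf 91 1 1) (.nd 69 (.lf 41 1 1) (.nd 38 (.lf 38 1 1) (.nd 5 (.lf 5 1 1) (.lf 0 1 1) (.lf 0 1 1)) (.lf 8 1 1)) (.lf 69 1 1))) (.nd 69 (.lf 69 1 1) (.nd 38 (.nd 35 (.lf 8 1 1) (.lf 0 1 1) (.lf 35 1 1)) (.lf 9 1 1) (.lf 38 1 1)) (.nd 61 (.lf 10 1 1) (.lf 38 1 1) (.lf 61 1 1)))) (.nd 83 (.nd 55 (.lf 34 1 1) (.lf 54 1 1) (.lf 55 1 1)) (.nd 83 (.nd 83 (.nd 76 (.lf 51 1 1) (.nd 76 (.lf 76 2 3) (.lf 72 1 1) (.nd 76 (.lf 36 1 1) (.lf 62 1 1) (.nd 76 (.lf 58 1 1) (.lf 76 2 3) (.lf 70 1 1)))) (.lf 64 1 1)) (.lf 83 1 1) (.lf 75 1 1)) (.lf 69 1 1) (.lf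 70 1 1)) (.nd 79 (.lf 79 1 1) (.lf 65 1 1) (.nd 64 (.lf 33 1 1) (.lf 64 1 1) (.lf 25 1 1)))) (.nd 100 (.nd 74 (.nd 44 (.lf 9 1 1) (.lf 44 1 1) (.lf 39 1 1)) (.lf 72 1 1) (.nd 74 (.lf 42 1 1) (.lf 74 1 1) (.lf 70 1 1))) (.lf 100 1 1) (.lf 74 1 1)))

def t15_119 : Tr := (.nd 174 (.nd 144 (.nd 120 (.nd 114 (.lf 114 2 2) (.lf 90 2 2) (.lf 63 2 2)) (.lf 94 2 2) (.lf 120 2 2)) (.nd 144 (.lf 92 2 2) (.nd 122 (.nd 94 (.lf 65 2 2) (.lf 94 2 2) (.nd 65 (.lf 35 2 2) (.lf 34 2 2) (.lf 65 2 2))) (.nd 122 (.lf 105 2 2) (.lf 122 2 2) (.lf 120 2 2)) (.nd 91 (.lf 61 2 2) (.lf 58 2 2) (.lf 91 2 2))) (.nd 144 (.lf 129 2 2) (.nd 114 (.lf 112 2 2) (.lf 90 2 2) (.lf 114 2 2)) (.lf 144 2 2))) (.nd 142 (.nd 135 (.nd 118 (.lf 87 2 2) (.lf 118 2 2) (.lf 110 2 2)) (.lf 134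 2 2) (.lf 135 2 2)) (.lf 142 2 2) (.lf 132 2 2))) (.nd 174 (.nd 150 (.lf 142 2 2) (.nd 150 (.lf 150 2 2) (.nd 145 (.lf 119 2 2) (.lf 93 2 2) (.lf 145 2 2)) (.lf 129 2 2)) (.nd 146 (.lf 123 2 2) (.lf 146 2 2) (.nd 105 (.lf 87 2 2) (.lf 105 2 2) (.lf 87 2 2)))) (.nd 174 (.nd 160 (.lf 155 2 2) (.nd 158 (.lf 155 2 2) (.nd 149 (.nd 136 (.lf 126 2 2) (.lf 136 2 2) (.lf 89 2 2)) (.lf 138 2 2) (.lf 149 2 2)) (.lf 158 2 2)) (.lf 160 2 2)) (.nd 172 (.lf 172 2 2) (.nd 172 (.nd 168 (.lf 168 2 2) (.nd 167 (.nd 167 (.lf 167 2 2) (.lf 167 2 2) (.lf 159 1 2)) (.lf 162 2 2) (.lf 150 2 2)) (.lf 153 2 2)) (.lf 172 2 2) (.lf 167 2 2)) (.lf 166 2 2)) (.nd 174 (.nd 174 (.lf 152 2 2) (.lf 148 2 2) (.lf 174 2 2)) (.lf 148 2 2) (.lf 159 2 2))) (.nd 148 (.nd 148 (.lf 148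 2 2) (.nd 137 (.lf 118 2 2) (.lf 137 2 2) (.lf 118 2 2)) (.lf 122 2 2)) (.lf 131 2 2) (.lf 143 2 2))) (.nd 159 (.nd 135 (.lf 115 2 2) (.lf 110 2 2) (.lf 135 2 2)) (.nd 136 (.nd 136 (.lf 119 2 2) (.nd 126 (.lf 89 2 2) (.lf 126 2 2) (.lf 112 2 2)) (.nd 136 (.nd 136 (.lf 136 2 2) (.lf 106 2 2) (.lf 132 2 2)) (.nd 136 (.lf 124 2 2) (.lf 134 2 2) (.lf 136 2 2)) (.lf 123 2 2))) (.nd 117 (.lf 86 2 2) (.lf 78 2 2) (.lf 117 2 2)) (.nd 118 (.nd 113 (.lf 65 2 2) (.lf 68 2 2) (.lf 113 2 2)) (.lf 118 2 2) (.lf 66 2 2))) (.lf 159 2 2)))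

def t15_121 : Tr := (.nd 94 (.nd 39 (.nd 39 (.nd 33 (.nd 7 (.lf 7 5 1) (.lf 5 4 1) (.lf 2 4 1)) (.nd 25 (.lf 0 4 1) (.nd 25 (.nd 25 (.nd 19 (.lf 4 4 1) (.lf 14 4 1) (.lf 19 5 1)) (.lf 8 4 1) (.lf 25 4 1)) (.lf 7 4 1) (.lf 6 4 1)) (.lf 0 4 1)) (.lf 33 5 1)) (.nd 33 (.lf 24 4 1) (.lf 33 4 1) (.lf 2 4 1)) (.nd 39 (.nd 39 (.nd 38 (.lf 29 5 1) (.lf 19 5 1) (.nd 38 (.nd 37 (.lf 36 5 1) (.lf 34 4 1) (.lf 37 5 1)) (.lf 37 5 1) (.lf 38 5 1))) (.nd 39 (.nd 37 (.lf 25 4 1) (.lf 36 5 1) (.nd 37 (.lf 37 5 1) (.lf 24 4 1) (.lf 0 4 1))) (.lf 38 4 1) (.lf 39 5 1)) (.lf 37 5 1)) (.nd 24 (.nd 18 (.lf 0 5 1) (.lf 14 5 1) (.nd 18 (.lf 18 4 1) (.lf 5 5 1) (.lf 3 5 1))) (.lf 24 5 1) (.lf 0 5 1)) (.nd 25 (.lf 0 5 1) (.nd 25 (.lf 13 5 1) (.lf 7 5 1) (.lf 25 4 1)) (.lf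 0 5 1)))) (.nd 7 (.nd 1 (.nd 1 (.nd 0 (.lf 0 4 1) (.lf 0 4 1) (.lf 0 5 1)) (.lf 0 5 1) (.lf 1 5 1)) (.lf 0 5 1) (.nd 0 (.lf 0 4 1) (.lf 0 5 1) (.nd 0 (.lf 0 4 1) (.lf 0 5 1) (.lf 0 4 1)))) (.nd 7 (.lf 2 4 1) (.nd 3 (.lf 3 4 1) (.lf 2 5 1) (.lf 0 4 1)) (.nd 7 (.nd 7 (.nd 7 (.nd 3 (.lf 0 4 1) (.lf 3 5 1) (.lf 0 5 1)) (.lf 7 4 1) (.nd 6 (.lf 5 5 1) (.lf 0 4 1) (.nd 6 (.lf 0 4 1) (.lf 0 4 1) (.lf 6 5 1)))) (.nd 6 (.lf 0 5 1) (.nd 6 (.lf 6 5 1) (.nd 0 (.lf 0 5 1) (.lf 0 4 1) (.lf 0 5 1)) (.lf 3 5 1)) (.lf 0 5 1)) (.lf 6 5 1)) (.lf 0 5 1) (.lf 0 5 1))) (.lf 0 5 1)) (.nd 28 (.nd 28 (.lf 0 5 1) (.lf 28 5 1) (.lf 13 5 1)) (.lf 0 5 1) (.lf 28 5 1))) (.nd 94 (.nd 84 (.nd 63 (.lf 33 4 1) (.lf 36 4 1) (.nd 63 (.lf 63 4 1) (.nd 42 (.lf 26 5 1) (.lf 24 5 1) (.nd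 42 (.lf 33 5 1) (.lf 36 4 1) (.lf 42 4 1))) (.lf 56 5 1))) (.nd 84 (.nd 77 (.lf 77 5 1) (.nd 76 (.nd 76 (.lf 56 5 1) (.lf 58 5 1) (.lf 76 4 1)) (.lf 67 5 1) (.lf 52 5 1)) (.lf 30 5 1)) (.nd 84 (.nd 84 (.lf 73 5 1) (.lf 63 5 1) (.nd 84 (.lf 84 5 1) (.nd 82 (.lf 48 5 1) (.lf 74 5 1) (.nd 82 (.lf 68 5 1) (.lf 72 4 1) (.lf 82 5 1))) (.nd 84 (.nd 75 (.lf 75 4 1) (.lf 72 5 1) (.lf 72 4 1)) (.lf 82 5 1) (.nd 84 (.lf 69 4 1) (.lf 69 4 1) (.lf 84 5 1))))) (.lf 83 4 1) (.nd 79 (.lf 68 4 1) (.nd 79 (.lf 79 4 1) (.nd 69 (.lf 69 4 1) (.lf 53 4 1) (.lf 67 5 1)) (.lf 71 4 1)) (.lf 71 5 1))) (.nd 77 (.lf 50 5 1) (.nd 77 (.lf 77 4 1) (.lf 59 5 1) (.lf 66 5 1)) (.lf 52 5 1))) (.lf 59 4 1)) (.nd 94 (.nd 70 (.lf 58 4 1) (.lf 56 5 1) (.nd 70 (.lf 70 4 1) (.lf 55 5 1)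 (.lf 58 5 1))) (.nd 94 (.nd 94 (.nd 94 (.lf 94 4 1) (.nd 94 (.lf 87 5 1) (.lf 94 5 1) (.lf 78 4 1)) (.lf 93 4 1)) (.nd 94 (.lf 83 5 1) (.lf 82 5 1) (.nd 94 (.lf 91 5 1) (.nd 82 (.lf 66 5 1) (.lf 82 4 1) (.lf 67 5 1)) (.nd 94 (.nd 94 (.lf 94 5 1) (.lf 94 4 1) (.lf 71 5 1)) (.lf 93 5 1) (.lf 89 4 1)))) (.nd 85 (.lf 76 5 1) (.lf 82 5 1) (.nd 85 (.lf 67 4 1) (.lf 70 4 1) (.lf 85 5 1)))) (.nd 85 (.lf 66 4 1) (.lf 83 4 1) (.nd 85 (.lf 80 4 1) (.lf 60 4 1) (.nd 85 (.lf 85 5 1) (.lf 71 5 1) (.lf 66 4 1)))) (.lf 94 4 1)) (.nd 76 (.nd 76 (.lf 76 5 1) (.lf 27 5 1) (.nd 67 (.lf 52 5 1) (.lf 67 5 1) (.nd 58 (.lf 58 5 1) (.lf 57 5 1) (.lf 51 4 1)))) (.nd 73 (.nd 73 (.nd 73 (.nd 73 (.lf 56 4 1) (.lf 58 4 1) (.lf 73 5 1)) (.lf 70 5 1) (.lf 73 4 1)) (.lf 68 4 1)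 (.lf 64 4 1)) (.lf 61 4 1) (.lf 55 5 1)) (.nd 74 (.nd 74 (.nd 74 (.lf 74 4 1) (.lf 61 4 1) (.lf 71 5 1)) (.lf 63 4 1) (.lf 64 4 1)) (.lf 55 4 1) (.lf 56 4 1)))) (.nd 63 (.lf 55 4 1) (.nd 31 (.nd 25 (.lf 25 4 1) (.lf 0 4 1) (.lf 1 4 1)) (.lf 31 4 1) (.lf 5 4 1)) (.lf 63 4 1))) (.nd 84 (.nd 32 (.lf 1 5 1) (.lf 2 5 1) (.lf 32 5 1)) (.nd 84 (.nd 79 (.lf 53 5 1) (.lf 79 5 1) (.nd 76 (.lf 76 5 1) (.lf 51 5 1) (.lf 25 5 1))) (.lf 64 5 1) (.nd 84 (.nd 84 (.nd 84 (.lf 59 5 1) (.nd 84 (.nd 83 (.lf 79 5 1) (.nd 83 (.lf 83 5 1) (.lf 57 3 1) (.lf 59 3 1)) (.lf 83 5 1)) (.lf 84 5 1) (.lf 84 5 1)) (.lf 76 5 1)) (.nd 84 (.lf 80 5 1) (.lf 84 5 1) (.lf 63 5 1)) (.nd 84 (.nd 84 (.lf 73 5 1) (.nd 84 (.lf 84 5 1) (.lf 60 3 1) (.lf 84 3 1)) (.lf 77 5 1)) (.lf 77 5 1)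 (.lf 66 5 1))) (.lf 59 5 1) (.lf 56 5 1))) (.nd 38 (.lf 6 5 1) (.nd 38 (.nd 32 (.lf 27 5 1) (.nd 23 (.nd 20 (.lf 4 4 1) (.lf 0 4 1) (.nd 20 (.lf 11 5 1) (.lf 20 5 1) (.lf 0 4 1))) (.lf 3 4 1) (.nd 23 (.lf 1 5 1) (.lf 23 4 1) (.lf 13 4 1))) (.nd 32 (.lf 25 5 1) (.lf 0 5 1) (.lf 32 4 1))) (.lf 35 5 1) (.nd 38 (.lf 30 5 1) (.nd 38 (.nd 38 (.lf 37 5 1) (.lf 35 4 1) (.lf 38 4 1)) (.lf 27 4 1) (.lf 30 4 1)) (.lf 33 5 1))) (.lf 28 5 1))))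

def t15_122 : Tr := (.nd 157 (.nd 126 (.nd 95 (.lf 95 1 2) (.nd 74 (.nd 60 (.lf 27 1 2) (.lf 27 1 2) (.nd 60 (.lf 60 1 2) (.lf 48 1 2) (.lf 41 1 2))) (.lf 27 1 2) (.lf 74 1 2)) (.nd 71 (.nd 71 (.lf 71 1 2) (.lf 52 1 2) (.lf 71 1 2)) (.lf 49 1 2) (.lf 43 1 2))) (.nd 97 (.lf 97 1 2) (.nd 46 (.lf 27 1 2) (.nd 46 (.lf 27 1 2) (.lf 46 1 2) (.lf 36 1 2)) (.lf 39 1 2)) (.nd 91 (.lf 91 1 2) (.nd 43 (.lf 43 1 2) (.lf 27 1 2) (.lf 27 1 2)) (.lf 48 1 2))) (.nd 126 (.lf 104 1 2) (.lf 126 1 2) (.lf 111 1 2))) (.nd 157 (.lf 135 1 2) (.lf 142 1 2) (.nd 157 (.lf 137 1 2) (.nd 157 (.nd 157 (.lf 135 1 2) (.lf 139 1 2) (.lf 157 1 2)) (.lf 143 1 2) (.lf 133 1 2)) (.nd 154 (.lf 141 1 2) (.lf 115 1 2) (.lf 154 1 2)))) (.nd 127 (.nd 122 (.lf 122 1 2) (.lf 77 1 2) (.nd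 74 (.lf 74 1 2) (.lf 41 1 2) (.nd 44 (.lf 44 1 2) (.lf 27 1 2) (.lf 39 1 2)))) (.lf 75 1 2) (.nd 127 (.lf 97 1 2) (.nd 112 (.lf 112 1 2) (.lf 89 1 2) (.lf 88 1 2)) (.nd 127 (.lf 127 1 2) (.lf 103 1 2) (.lf 101 1 2)))))

def t15_124 : Tr := (.nd 177 (.nd 148 (.nd 148 (.lf 144 1 3) (.nd 127 (.nd 125 (.nd 108 (.lf 80 1 3) (.nd 108 (.lf 93 1 3) (.lf 86 1 3) (.lf 108 1 3)) (.lf 80 1 3)) (.lf 125 1 3) (.lf 109 1 3)) (.nd 110 (.nd 110 (.lf 110 1 3) (.lf 83 1 3) (.lf 82 1 3)) (.lf 95 1 3) (.lf 100 1 3)) (.lf 127 1 3)) (.lf 148 1 3)) (.nd 140 (.lf 140 1 3) (.nd 118 (.lf 86 1 3) (.lf 118 1 3) (.lf 91 1 3)) (.lf 89 1 3)) (.lf 120 1 3)) (.nd 170 (.nd 146 (.lf 146 1 3) (.nd 117 (.lf 84 1 3) (.lf 117 1 3) (.lf 87 1 3)) (.lf 122 1 3)) (.nd 170 (.lf 155 1 3) (.lf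 140 1 3) (.nd 170 (.lf 146 1 3) (.lf 170 1 3) (.lf 144 1 3))) (.nd 118 (.nd 113 (.lf 89 1 3) (.lf 80 1 3) (.nd 113 (.lf 98 1 3) (.lf 113 1 3) (.lf 83 1 3))) (.lf 89 1 3) (.nd 118 (.lf 101 1 3) (.lf 118 1 3) (.nd 110 (.lf 109 1 3) (.lf 87 1 3) (.lf 110 1 3))))) (.nd 177 (.nd 167 (.nd 167 (.lf 162 1 3) (.lf 167 1 3) (.lf 154 1 3)) (.nd 144 (.lf 144 1 3) (.lf 136 1 3) (.lf 113 1 3)) (.nd 166 (.lf 114 1 3) (.lf 144 1 3) (.nd 166 (.nd 166 (.lf 135 1 3) (.lf 142 1 3) (.lf 166 1 3)) (.lf 151 1 3) (.lf 136 1 3)))) (.nd 177 (.lf 154 1 3) (.nd 177 (.lf 177 1 3) (.lf 177 1 3) (.nd 177 (.lf 160 1 3) (.lf 165 1 3) (.lf 177 1 3))) (.lf 154 1 3)) (.nd 158 (.lf 153 1 3) (.lf 158 1 3) (.lf 144 1 3))))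

def t15_127 : Tr := (.nd 197 (.nd 197 (.nd 181 (.nd 169 (.lf 149 1 1) (.lf 150 1 1) (.lf 169 1 1)) (.nd 181 (.nd 181 (.lf 180 1 1) (.nd 181 (.nd 181 (.nd 179 (.lf 173 1 1) (.lf 155 2 3) (.lf 179 2 3)) (.lf 181 1 1) (.nd 181 (.lf 181 1 1) (.nd 179 (.lf 176 2 3) (.lf 176 1 1) (.lf 179 1 1)) (.lf 174 1 1))) (.lf 181 1 1) (.lf 177 1 1)) (.lf 181 1 1)) (.lf 169 1 1) (.lf 173 1 1)) (.nd 172 (.lf 149 1 1) (.nd 136 (.lf 123 1 1) (.lf 124 1 1) (.lf 136 1 1)) (.lf 172 1 1))) (.nd 184 (.nd 170 (.lf 124 1 1) (.nd 154 (.lf 123 1 1) (.lf 126 1 1) (.lf 154 1 1)) (.lf 170 1 1)) (.nd 184 (.nd 184 (.lf 170 1 1) (.lf 165 1 1) (.lf 184 1 1)) (.nd 184 (.nd 181 (.nd 181 (.nd 181 (.lf 161 1 1) (.lf 181 2 3) (.lf 181 1 1)) (.lf 166 1 1) (.lf 181 1 1)) (.lf 168 1 1) (.lf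 180 2 3)) (.lf 184 1 1) (.lf 184 1 1)) (.nd 181 (.lf 161 1 1) (.lf 155 1 1) (.nd 181 (.lf 168 2 3) (.lf 181 1 1) (.lf 181 1 1)))) (.nd 154 (.nd 154 (.nd 140 (.lf 112 2 3) (.lf 140 2 3) (.lf 132 2 3)) (.nd 139 (.nd 114 (.lf 114 2 3) (.lf 106 1 1) (.lf 109 2 3)) (.lf 139 1 1) (.lf 110 2 3)) (.nd 154 (.lf 145 1 1) (.nd 127 (.nd 127 (.lf 116 1 1) (.nd 125 (.lf 122 1 1) (.lf 125 2 3) (.lf 98 2 3)) (.lf 127 1 1)) (.lf 94 1 1) (.lf 124 1 1)) (.lf 154 1 1))) (.nd 140 (.nd 140 (.lf 120 1 1) (.nd 135 (.lf 107 1 1) (.lf 120 1 1) (.lf 135 1 1)) (.lf 140 1 1)) (.lf 131 1 1) (.lf 95 1 1)) (.nd 144 (.lf 127 1 1) (.lf 114 1 1) (.lf 144 1 1)))) (.nd 197 (.nd 197 (.lf 183 1 1) (.nd 197 (.nd 197 (.lf 177 1 1) (.lf 183 1 1) (.nd 197 (.lf 194 1 1) (.nd 197 (.nd 197 (.lf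 183 1 1) (.lf 196 2 3) (.lf 197 1 1)) (.nd 195 (.lf 195 1 1) (.lf 185 2 3) (.lf 195 2 3)) (.lf 196 1 1)) (.lf 188 1 1))) (.lf 186 1 1) (.lf 192 1 1)) (.lf 186 1 1)) (.nd 181 (.lf 169 2 3) (.nd 181 (.lf 157 1 1) (.lf 166 1 1) (.lf 181 2 3)) (.lf 167 1 1)) (.nd 182 (.lf 181 1 1) (.nd 162 (.lf 162 1 1) (.nd 141 (.lf 141 2 3) (.nd 109 (.lf 109 1 1) (.lf 104 1 1) (.lf 109 2 3)) (.lf 109 1 1)) (.nd 142 (.lf 142 1 1) (.lf 135 1 1) (.nd 128 (.lf 115 2 3) (.lf 114 2 3) (.lf 128 1 1)))) (.nd 182 (.nd 148 (.lf 135 1 1) (.nd 140 (.lf 140 1 1) (.lf 109 1 1) (.lf 112 1 1)) (.lf 148 1 1)) (.lf 182 1 1) (.lf 138 1 1))))) (.nd 165 (.nd 151 (.lf 127 1 1) (.nd 122 (.lf 92 1 1) (.nd 122 (.lf 100 1 1) (.lf 122 1 1) (.lf 100 1 1)) (.lf 91 1 1)) (.nd 151 (.lf 151 1 1)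 (.nd 149 (.lf 145 2 3) (.lf 149 1 1) (.lf 145 1 1)) (.nd 151 (.nd 148 (.nd 139 (.lf 139 1 1) (.lf 117 1 1) (.lf 135 1 1)) (.lf 139 1 1) (.lf 148 1 1)) (.lf 151 1 1) (.nd 135 (.lf 117 1 1) (.lf 135 1 1) (.nd 111 (.lf 103 2 3) (.nd 111 (.lf 111 1 1) (.lf 110 2 3) (.lf 108 1 1)) (.lf 105 2 3)))))) (.nd 125 (.nd 125 (.nd 125 (.lf 125 1 1) (.lf 102 1 1) (.lf 102 1 1)) (.lf 106 1 1) (.nd 115 (.lf 115 1 1) (.lf 92 1 1) (.nd 114 (.lf 92 1 1) (.lf 114 1 1) (.lf 62 1 1)))) (.lf 96 1 1) (.lf 118 1 1)) (.nd 165 (.lf 165 1 1) (.nd 160 (.lf 155 1 1) (.nd 160 (.nd 160 (.lf 156 1 1) (.nd 159 (.lf 147 2 3) (.lf 141 1 1) (.lf 159 2 3)) (.lf 160 1 1)) (.nd 160 (.lf 140 2 3) (.lf 132 2 3) (.lf 160 1 1)) (.nd 151 (.nd 151 (.nd 151 (.lf 121 1 1) (.lf 148 2 3) (.lf 151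 1 1)) (.lf 119 2 3) (.lf 122 2 3)) (.nd 148 (.nd 148 (.lf 131 1 1) (.lf 148 2 3) (.lf 142 1 1)) (.lf 142 1 1) (.lf 142 2 3)) (.lf 120 2 3))) (.lf 156 1 1)) (.nd 150 (.nd 130 (.nd 130 (.lf 130 1 1) (.nd 119 (.lf 112 2 3) (.lf 119 1 1) (.lf 115 2 3)) (.lf 115 1 1)) (.lf 123 1 1) (.lf 93 1 1)) (.lf 121 1 1) (.lf 150 1 1)))) (.nd 174 (.nd 141 (.nd 96 (.nd 87 (.lf 64 1 1) (.lf 54 1 1) (.lf 87 1 1)) (.lf 66 1 1) (.lf 96 1 1)) (.nd 127 (.lf 96 1 1) (.nd 127 (.nd 118 (.lf 115 1 1) (.lf 118 1 1) (.lf 114 2 3)) (.lf 120 1 1) (.lf 127 1 1)) (.lf 91 1 1)) (.nd 141 (.lf 141 1 1) (.lf 119 1 1) (.nd 134 (.nd 132 (.lf 126 1 1) (.lf 131 1 1) (.lf 132 1 1)) (.nd 134 (.nd 130 (.lf 130 1 1) (.nd 128 (.lf 116 2 3) (.lf 128 2 3) (.lf 110 1 1)) (.lf 125 1 1)) (.nd 126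 (.lf 98 2 3) (.nd 126 (.nd 117 (.lf 117 2 3) (.lf 115 1 1) (.lf 116 1 1)) (.lf 111 2 3) (.lf 126 2 3)) (.nd 120 (.lf 98 2 3) (.nd 120 (.lf 120 1 1) (.lf 117 2 3) (.lf 90 1 1)) (.lf 98 2 3))) (.nd 134 (.lf 109 2 3) (.lf 134 1 1) (.lf 101 2 3))) (.lf 129 1 1)))) (.nd 174 (.lf 174 1 1) (.lf 159 1 1) (.nd 156 (.lf 156 1 1) (.nd 149 (.nd 149 (.lf 149 1 1) (.lf 149 1 1) (.lf 119 2 3)) (.lf 119 1 1) (.lf 118 1 1)) (.lf 152 1 1))) (.nd 150 (.lf 128 1 1) (.lf 150 1 1) (.nd 122 (.lf 112 1 1) (.nd 67 (.nd 67 (.lf 67 1 1) (.lf 61 1 1) (.lf 61 1 1)) (.lf 54 1 1) (.lf 56 1 1)) (.lf 122 1 1)))))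

def t15_128 : Tr := (.nd 217 (.nd 185 (.nd 157 (.nd 142 (.lf 142 3 2) (.lf 136 3 2) (.nd 113 (.lf 113 3 2) (.lf 84 3 2) (.nd 88 (.lf 56 3 2) (.lf 82 3 2) (.lf 88 2 2)))) (.nd 128 (.nd 106 (.nd 106 (.lf 97 3 2) (.nd 102 (.lf 102 2 2) (.lf 88 3 2) (.lf 88 3 2)) (.lf 106 3 2)) (.lf 88 2 2) (.lf 85 3 2)) (.nd 128 (.lf 116 3 2) (.lf 128 2 2) (.nd 91 (.nd 91 (.lf 88 3 2) (.lf 83 2 2) (.lf 91 3 2)) (.lf 83 3 2) (.lf 80 3 2))) (.nd 116 (.lf 87 2 2) (.nd 116 (.lf 116 2 2) (.lf 107 2 2) (.lf 97 2 2)) (.lf 108 2 2))) (.nd 157 (.nd 157 (.nd 157 (.nd 157 (.lf 142 2 2) (.lf 157 3 2) (.lf 149 2 2)) (.lf 141 2 2) (.lf 140 2 2)) (.lf 145 3 2) (.lf 145 3 2)) (.nd 154 (.nd 150 (.lf 135 3 2) (.lf 136 3 2) (.lf 150 3 2)) (.nd 154 (.nd 154 (.nd 154 (.lf 154 3 2) (.lf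 147 3 2) (.lf 146 3 2)) (.lf 149 3 2) (.lf 146 3 2)) (.lf 141 3 2) (.lf 140 3 2)) (.lf 126 3 2)) (.nd 145 (.lf 143 2 2) (.lf 140 3 2) (.nd 145 (.lf 110 3 2) (.lf 140 3 2) (.lf 145 2 2))))) (.nd 173 (.nd 173 (.lf 173 2 2) (.nd 156 (.lf 140 2 2) (.nd 146 (.lf 136 2 2) (.nd 146 (.lf 145 2 2) (.lf 144 2 2) (.nd 146 (.nd 146 (.lf 145 3 2) (.lf 146 3 2) (.lf 124 2 2)) (.lf 137 3 2) (.lf 136 3 2))) (.lf 135 2 2)) (.lf 156 2 2)) (.nd 164 (.nd 156 (.lf 110 2 2) (.lf 138 2 2) (.lf 156 2 2)) (.nd 164 (.nd 145 (.nd 145 (.lf 145 2 2) (.lf 145 2 2) (.lf 145 2 2)) (.lf 136 2 2) (.nd 143 (.lf 106 2 2) (.lf 136 2 2) (.nd 143 (.lf 143 3 2) (.lf 143 2 2) (.lf 128 2 2)))) (.lf 164 2 2) (.lf 153 2 2)) (.lf 142 2 2))) (.nd 144 (.nd 144 (.lf 87 2 2) (.nd 144 (.lf 132 2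 2) (.lf 144 2 2) (.lf 110 2 2)) (.lf 114 2 2)) (.nd 113 (.lf 113 2 2) (.lf 113 2 2) (.nd 106 (.lf 106 2 2) (.lf 86 2 2) (.lf 77 2 2))) (.nd 140 (.lf 140 2 2) (.nd 139 (.lf 139 3 2) (.lf 117 2 2) (.lf 112 3 2)) (.nd 140 (.lf 140 2 2) (.lf 131 2 2) (.lf 111 2 2)))) (.nd 164 (.nd 143 (.lf 113 2 2) (.nd 113 (.nd 113 (.nd 113 (.lf 94 2 2) (.lf 113 2 2) (.nd 111 (.lf 111 2 2) (.lf 102 2 2) (.lf 111 3 2))) (.lf 107 2 2) (.nd 113 (.lf 110 2 2) (.lf 111 2 2) (.nd 113 (.lf 113 3 2) (.lf 87 3 2) (.lf 96 2 2)))) (.lf 87 2 2) (.lf 90 2 2)) (.nd 143 (.nd 137 (.nd 137 (.lf 137 3 2) (.lf 121 2 2) (.lf 117 2 2)) (.lf 120 2 2) (.lf 137 2 2)) (.lf 134 2 2) (.lf 143 2 2))) (.nd 164 (.nd 156 (.lf 128 2 2) (.nd 156 (.lf 141 2 2) (.nd 156 (.lf 153 2 2) (.lf 156 2 2) (.lf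 142 2 2)) (.lf 134 2 2)) (.lf 141 2 2)) (.lf 141 2 2) (.nd 164 (.nd 164 (.lf 164 3 2) (.lf 155 3 2) (.lf 164 2 2)) (.lf 137 2 2) (.lf 147 2 2))) (.nd 116 (.lf 116 2 2) (.lf 109 2 2) (.lf 87 2 2)))) (.nd 185 (.nd 185 (.nd 154 (.lf 154 2 2) (.nd 149 (.nd 149 (.lf 149 2 2) (.nd 148 (.lf 148 2 2) (.lf 121 2 2) (.lf 124 2 2)) (.nd 149 (.lf 149 2 2) (.lf 149 3 2) (.lf 149 2 2))) (.lf 141 2 2) (.nd 140 (.nd 140 (.lf 125 2 2) (.lf 118 2 2) (.lf 140 2 2)) (.lf 109 2 2) (.lf 111 2 2))) (.lf 142 2 2)) (.lf 185 2 2) (.lf 180 2 2)) (.lf 173 3 2) (.nd 148 (.nd 135 (.lf 88 3 2) (.lf 135 3 2) (.nd 125 (.nd 114 (.lf 114 3 2) (.lf 107 2 2) (.lf 110 2 2)) (.lf 125 3 2) (.lf 110 3 2))) (.nd 148 (.nd 148 (.lf 115 3 2) (.nd 148 (.nd 142 (.lf 142 3 2) (.lf 117 3 2) (.lf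 118 3 2)) (.lf 139 2 2) (.lf 148 2 2)) (.lf 127 3 2)) (.nd 140 (.lf 140 2 2) (.lf 137 2 2) (.lf 115 2 2)) (.lf 145 3 2)) (.nd 137 (.nd 137 (.lf 117 3 2) (.lf 124 3 2) (.nd 137 (.lf 137 3 2) (.lf 124 3 2) (.lf 116 3 2))) (.lf 108 3 2) (.lf 100 3 2))))) (.nd 202 (.nd 187 (.nd 170 (.lf 170 2 2) (.lf 131 2 2) (.lf 139 2 2)) (.nd 187 (.nd 153 (.nd 145 (.lf 145 3 2) (.lf 132 2 2) (.lf 140 2 2)) (.nd 148 (.lf 120 2 2) (.lf 148 2 2) (.nd 148 (.lf 140 2 2) (.nd 148 (.lf 144 2 2) (.lf 148 3 2) (.lf 103 3 2)) (.lf 148 2 2))) (.nd 153 (.lf 141 3 2) (.lf 140 3 2) (.lf 153 3 2))) (.nd 187 (.nd 185 (.nd 138 (.lf 138 2 2) (.lf 129 3 2) (.lf 134 2 2)) (.lf 181 3 2) (.nd 185 (.lf 185 2 2) (.lf 151 2 2) (.lf 162 2 2))) (.lf 176 2 2) (.nd 187 (.lf 176 3 2) (.lf 187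 2 2) (.nd 152 (.lf 152 2 2) (.lf 152 3 2) (.lf 129 3 2)))) (.nd 179 (.lf 179 2 2) (.lf 144 2 2) (.nd 165 (.lf 135 3 2) (.lf 137 3 2) (.lf 165 2 2)))) (.nd 171 (.nd 166 (.lf 118 2 2) (.lf 166 2 2) (.lf 121 2 2)) (.lf 119 2 2) (.lf 171 2 2))) (.lf 202 2 2) (.nd 193 (.lf 193 3 2) (.nd 142 (.nd 135 (.lf 111 3 2) (.lf 83 3 2) (.lf 135 3 2)) (.nd 113 (.lf 85 3 2) (.nd 105 (.lf 83 3 2) (.lf 105 3 2) (.lf 54 3 2)) (.lf 113 3 2)) (.nd 142 (.nd 132 (.lf 132 3 2) (.lf 131 3 2) (.nd 109 (.lf 109 3 2) (.lf 78 3 2) (.lf 101 3 2))) (.lf 123 3 2) (.lf 142 3 2))) (.nd 191 (.nd 144 (.lf 144 3 2) (.nd 113 (.lf 83 3 2) (.lf 82 3 2) (.lf 113 3 2)) (.lf 116 3 2)) (.lf 191 3 2) (.lf 139 3 2)))) (.nd 217 (.nd 200 (.nd 181 (.lf 155 2 2) (.lf 163 2 2) (.nd 181 (.lf 181 2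 2) (.nd 170 (.lf 167 2 2) (.lf 170 2 2) (.nd 164 (.lf 164 3 2) (.lf 132 3 2) (.nd 141 (.lf 141 2 2) (.lf 131 3 2) (.lf 134 3 2)))) (.nd 181 (.lf 181 2 2) (.lf 171 2 2) (.nd 153 (.lf 153 2 2) (.lf 132 2 2) (.lf 152 2 2))))) (.nd 200 (.nd 200 (.nd 186 (.lf 186 3 2) (.nd 159 (.lf 155 3 2) (.lf 127 3 2) (.nd 159 (.lf 147 3 2) (.lf 155 3 2) (.lf 159 3 2))) (.lf 157 3 2)) (.lf 200 3 2) (.lf 181 2 2)) (.nd 175 (.nd 175 (.lf 167 2 2) (.lf 175 2 2) (.nd 164 (.lf 164 2 2) (.nd 156 (.lf 136 2 2) (.lf 156 2 2) (.lf 116 2 2)) (.lf 139 2 2))) (.nd 162 (.lf 162 2 2) (.lf 115 2 2) (.nd 152 (.lf 152 2 2) (.lf 141 2 2) (.nd 137 (.lf 135 2 2) (.lf 137 2 2) (.lf 113 2 2)))) (.lf 164 2 2)) (.nd 195 (.lf 195 2 2) (.nd 149 (.nd 149 (.lf 149 2 2) (.lf 127 3 2) (.lf 148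 3 2)) (.lf 141 2 2) (.nd 140 (.lf 140 2 2) (.lf 109 2 2) (.lf 111 2 2))) (.nd 162 (.lf 142 2 2) (.lf 148 2 2) (.nd 162 (.nd 161 (.lf 161 2 2) (.lf 152 2 2) (.lf 152 3 2)) (.lf 128 3 2) (.lf 162 2 2))))) (.nd 198 (.lf 198 2 2) (.lf 191 2 2) (.nd 166 (.nd 166 (.lf 166 2 2) (.lf 166 2 2) (.lf 143 2 2)) (.lf 140 2 2) (.lf 163 2 2)))) (.nd 217 (.nd 212 (.lf 212 2 2) (.lf 197 3 2) (.lf 191 3 2)) (.lf 217 3 2) (.nd 209 (.lf 209 2 2) (.lf 208 2 2) (.nd 209 (.lf 193 2 2) (.lf 209 3 2) (.lf 202 3 2)))) (.nd 206 (.nd 192 (.nd 192 (.lf 192 3 2) (.nd 143 (.nd 140 (.lf 85 3 2) (.lf 140 3 2) (.lf 130 3 2)) (.lf 143 2 2) (.lf 140 2 2)) (.lf 166 2 2)) (.lf 169 2 2) (.lf 191 3 2)) (.nd 204 (.lf 172 3 2) (.nd 158 (.lf 140 2 2) (.nd 140 (.lf 117 2 2) (.lf 140 2 2) (.lf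 135 2 2)) (.lf 158 2 2)) (.lf 204 2 2)) (.lf 206 2 2))))

def t15_130 : Tr := (.nd 140 (.nd 140 (.nd 123 (.lf 105 1 1) (.lf 122 1 1) (.nd 123 (.nd 123 (.lf 117 1 1) (.nd 123 (.nd 123 (.lf 114 2 1) (.lf 123 1 1) (.lf 119 2 1)) (.lf 119 2 1) (.lf 115 1 1)) (.lf 107 1 1)) (.nd 123 (.lf 107 1 1) (.lf 113 1 1) (.nd 123 (.nd 123 (.lf 115 2 1) (.lf 114 2 1) (.nd 123 (.lf 115 1 1) (.lf 123 2 1) (.lf 123 2 1))) (.lf 118 1 1) (.lf 115 1 1))) (.lf 123 1 1))) (.nd 130 (.nd 93 (.lf 90 1 1) (.lf 93 1 1) (.nd 92 (.nd 92 (.lf 84 1 1) (.lf 82 1 1) (.nd 92 (.lf 91 1 1) (.lf 92 1 1) (.nd 89 (.lf 89 2 1) (.lf 86 2 1) (.lf 89 1 1)))) (.lf 90 1 1) (.lf 89 1 1))) (.lf 130 1 1) (.nd 116 (.lf 116 1 1) (.lf 92 1 1) (.lf 96 1 1))) (.nd 140 (.nd 140 (.nd 128 (.lf 103 1 1) (.nd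 120 (.lf 120 1 1) (.lf 114 2 1) (.nd 114 (.lf 109 2 1) (.lf 114 2 1) (.lf 114 1 1))) (.nd 128 (.lf 128 1 1) (.lf 111 1 1) (.lf 122 1 1))) (.lf 138 1 1) (.nd 140 (.nd 140 (.lf 140 2 1) (.lf 130 1 1) (.lf 131 1 1)) (.lf 135 1 1) (.lf 130 1 1))) (.nd 127 (.lf 113 1 1) (.nd 123 (.lf 119 1 1) (.lf 121 1 1) (.nd 123 (.lf 111 1 1) (.nd 123 (.lf 101 2 1) (.lf 109 2 1) (.nd 123 (.lf 123 1 1) (.lf 118 2 1) (.lf 105 1 1))) (.lf 109 1 1))) (.lf 127 1 1)) (.nd 140 (.nd 140 (.lf 130 1 1) (.lf 134 1 1) (.nd 140 (.lf 135 1 1) (.nd 140 (.nd 139 (.lf 139 2 1) (.lf 139 1 1) (.lf 137 1 1)) (.lf 139 1 1) (.lf 140 1 1)) (.lf 135 1 1))) (.lf 110 1 1) (.lf 136 1 1)))) (.nd 121 (.nd 82 (.lf 82 1 1) (.lf 66 1 1) (.nd 69 (.lf 12 1 1) (.lf 55 1 1) (.lf 69 1 1))) (.nd 121 (.nd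 121 (.lf 98 1 1) (.nd 121 (.lf 121 1 1) (.lf 102 1 1) (.lf 99 1 1)) (.lf 106 1 1)) (.lf 99 1 1) (.nd 106 (.lf 86 1 1) (.lf 106 1 1) (.lf 91 1 1))) (.nd 90 (.lf 90 1 1) (.lf 67 1 1) (.nd 41 (.nd 41 (.lf 22 1 1) (.lf 31 1 1) (.lf 41 1 1)) (.lf 12 1 1) (.lf 34 1 1)))) (.nd 122 (.nd 70 (.nd 70 (.nd 70 (.lf 70 1 1) (.lf 44 1 1) (.lf 44 1 1)) (.lf 62 1 1) (.lf 53 1 1)) (.nd 65 (.lf 65 1 1) (.lf 41 1 1) (.lf 13 1 1)) (.nd 41 (.lf 35 1 1) (.lf 41 1 1) (.lf 12 1 1))) (.nd 117 (.lf 117 1 1) (.nd 69 (.lf 39 1 1) (.lf 36 1 1) (.lf 69 1 1)) (.nd 72 (.lf 43 1 1) (.lf 72 1 1) (.lf 43 1 1))) (.nd 122 (.nd 107 (.lf 83 1 1) (.lf 84 1 1) (.lf 107 1 1)) (.lf 92 1 1) (.lf 122 1 1))))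

def t15_131 : Tr := (.nd 272 (.nd 227 (.lf 227 2 4) (.nd 170 (.nd 170 (.nd 161 (.lf 152 2 4) (.nd 161 (.lf 161 2 4) (.lf 131 2 4) (.lf 130 2 4)) (.lf 140 2 4)) (.lf 170 2 4) (.lf 161 2 4)) (.nd 161 (.lf 109 2 4) (.lf 161 2 4) (.lf 138 2 4)) (.lf 140 2 4)) (.nd 224 (.lf 224 2 4) (.nd 165 (.lf 165 2 4) (.nd 135 (.lf 102 2 4) (.lf 135 2 4) (.lf 130 2 4)) (.lf 134 2 4)) (.nd 170 (.nd 139 (.lf 108 2 4) (.lf 139 2 4) (.lf 109 2 4)) (.lf 142 2 4) (.lf 170 2 4)))) (.nd 266 (.lf 251 2 4) (.lf 266 2 4) (.nd 223 (.lf 223 1 4) (.nd 194 (.lf 184 1 4) (.nd 176 (.nd 161 (.lf 133 1 4) (.lf 158 1 4) (.lf 161 1 4)) (.lf 176 1 4) (.lf 154 1 4)) (.lf 194 1 4)) (.lf 214 1 4))) (.nd 272 (.lf 253 2 4) (.lf 272 2 4) (.nd 196 (.nd 196 (.lf 196 2 4) (.lf 165 2 4) (.nd 186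 (.lf 186 2 4) (.lf 161 2 4) (.nd 165 (.nd 165 (.lf 144 2 4) (.lf 158 2 4) (.lf 165 2 4)) (.lf 135 2 4) (.lf 138 2 4)))) (.nd 186 (.lf 186 2 4) (.nd 140 (.nd 140 (.lf 140 2 4) (.nd 134 (.lf 125 2 4) (.lf 134 2 4) (.lf 129 2 4)) (.lf 137 2 4)) (.lf 130 2 4) (.lf 108 2 4)) (.nd 134 (.lf 134 2 4) (.lf 103 2 4) (.lf 104 2 4))) (.nd 141 (.lf 130 2 4) (.lf 141 2 4) (.lf 109 2 4)))))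

def t15_133 : Tr := (.nd 311 (.nd 280 (.nd 249 (.nd 228 (.lf 171 2 5) (.lf 228 2 5) (.nd 214 (.lf 214 2 5) (.lf 171 2 5) (.nd 166 (.lf 155 2 5) (.nd 166 (.lf 166 2 5) (.lf 155 2 5) (.lf 155 2 5)) (.lf 155 2 5)))) (.nd 225 (.nd 197 (.lf 197 2 5) (.lf 155 2 5) (.lf 187 2 5)) (.lf 225 2 5) (.lf 203 2 5)) (.nd 249 (.lf 231 2 5) (.lf 234 2 5) (.nd 249 (.nd 238 (.nd 233 (.lf 233 2 5) (.lf 182 2 5) (.lf 214 2 5)) (.lf 238 2 5) (.lf 219 2 5)) (.lf 249 2 5) (.lf 241 2 5)))) (.nd 251 (.nd 245 (.nd 197 (.lf 166 2 5) (.lf 197 2 5) (.lf 167 2 5)) (.lf 202 2 5) (.lf 245 2 5)) (.lf 251 2 5) (.lf 200 2 5)) (.nd 280 (.nd 258 (.nd 247 (.lf 247 2 5) (.lf 211 2 5) (.lf 224 2 5)) (.lf 258 2 5) (.nd 244 (.nd 244 (.lf 231 2 5) (.nd 240 (.lf 208 2 5) (.lf 240 2 5) (.lf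 225 2 5)) (.lf 244 2 5)) (.lf 225 2 5) (.lf 224 2 5))) (.nd 280 (.lf 265 2 5) (.nd 280 (.nd 258 (.lf 247 2 5) (.lf 258 2 5) (.nd 257 (.nd 253 (.lf 253 2 5) (.lf 219 2 5) (.lf 239 2 5)) (.lf 254 2 5) (.lf 257 2 5))) (.lf 261 2 5) (.lf 280 2 5)) (.nd 257 (.nd 257 (.lf 223 2 5) (.lf 213 2 5) (.lf 257 2 5)) (.lf 239 2 5) (.lf 256 2 5))) (.nd 265 (.nd 265 (.lf 265 2 5) (.nd 259 (.lf 259 2 5) (.nd 240 (.lf 222 2 5) (.lf 219 2 5) (.lf 240 2 5)) (.nd 245 (.lf 245 2 5) (.lf 225 2 5) (.lf 225 2 5))) (.nd 258 (.lf 230 2 5) (.nd 236 (.lf 236 2 5) (.lf 200 2 5) (.lf 225 2 5)) (.lf 258 2 5))) (.nd 245 (.lf 229 2 5) (.lf 199 2 5) (.nd 245 (.lf 232 2 5) (.lf 245 2 5) (.lf 221 2 5))) (.nd 250 (.lf 250 2 5) (.lf 219 2 5) (.lf 215 2 5))))) (.lf 311 2 5) (.nd 281 (.lf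 281 2 5) (.nd 276 (.lf 276 2 5) (.lf 231 2 5) (.nd 228 (.nd 195 (.nd 166 (.lf 166 2 5) (.lf 155 2 5) (.lf 155 2 5)) (.lf 158 2 5) (.nd 195 (.nd 195 (.lf 174 2 5) (.nd 195 (.lf 175 2 5) (.lf 195 2 5) (.lf 178 2 5)) (.lf 182 2 5)) (.lf 175 2 5) (.lf 182 2 5))) (.nd 198 (.lf 155 2 5) (.lf 193 2 5) (.lf 198 2 5)) (.lf 228 2 5))) (.lf 229 2 5)))

def t15_136 : Tr := (.nd 200 (.nd 149 (.nd 149 (.nd 149 (.lf 149 1 1) (.lf 123 1 1) (.lf 123 1 1)) (.lf 132 1 1) (.lf 141 1 1)) (.nd 120 (.lf 120 1 1) (.nd 114 (.lf 114 1 1) (.lf 92 1 1) (.lf 63 1 1)) (.lf 91 1 1)) (.nd 144 (.nd 144 (.nd 144 (.lf 120 1 1) (.lf 144 1 1) (.lf 113 1 1)) (.lf 129 1 1) (.lf 114 1 1)) (.lf 92 1 1) (.lf 120 1 1))) (.nd 200 (.nd 171 (.lf 171 1 1) (.nd 147 (.lf 141 1 1) (.nd 147 (.nd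 138 (.lf 130 1 1) (.lf 138 1 1) (.lf 116 1 1)) (.lf 147 1 1) (.lf 130 1 1)) (.lf 121 1 1)) (.lf 169 1 1)) (.nd 185 (.nd 162 (.lf 137 1 1) (.lf 142 1 1) (.nd 162 (.lf 148 1 1) (.lf 162 1 1) (.lf 149 1 1))) (.nd 185 (.nd 175 (.lf 144 1 1) (.lf 154 1 1) (.lf 175 1 1)) (.lf 169 1 1) (.lf 185 1 1)) (.nd 163 (.lf 163 1 1) (.lf 145 1 1) (.lf 144 1 1))) (.nd 200 (.lf 177 1 1) (.nd 175 (.lf 158 1 1) (.lf 175 1 1) (.lf 170 1 1)) (.lf 200 1 1))) (.nd 175 (.nd 175 (.lf 168 1 1) (.lf 168 1 1) (.nd 175 (.lf 155 1 1) (.nd 175 (.nd 175 (.nd 175 (.lf 167 1 1) (.lf 163 1 1) (.lf 175 1 1)) (.lf 168 1 1) (.lf 163 1 1)) (.lf 152 1 1) (.lf 153 1 1)) (.nd 172 (.nd 172 (.lf 159 1 1) (.lf 168 1 1) (.lf 172 1 1)) (.lf 166 1 1) (.lf 164 1 1)))) (.lf 153 1 1) (.nd 148 (.nd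 118 (.lf 66 1 1) (.nd 113 (.lf 113 1 1) (.lf 65 1 1) (.lf 68 1 1)) (.lf 118 1 1)) (.lf 148 1 1) (.lf 115 1 1))))

def t15_137 : Tr := (.nd 232 (.lf 187 1 2) (.nd 184 (.nd 153 (.nd 124 (.lf 124 1 2) (.nd 118 (.lf 75 1 2) (.nd 70 (.lf 70 1 2) (.lf 54 1 2) (.lf 54 1 2)) (.lf 118 1 2)) (.nd 73 (.lf 66 1 2) (.nd 73 (.lf 73 1 2) (.lf 54 1 2) (.lf 63 1 2)) (.lf 54 1 2))) (.nd 122 (.lf 122 1 2) (.nd 98 (.nd 98 (.lf 79 1 2) (.lf 98 1 2) (.lf 98 1 2)) (.lf 70 1 2) (.lf 76 1 2)) (.nd 101 (.nd 87 (.nd 87 (.lf 87 1 2) (.lf 68 1 2) (.lf 75 1 2)) (.lf 54 1 2) (.lf 54 1 2)) (.lf 101 1 2) (.lf 54 1 2))) (.lf 153 1 2)) (.nd 154 (.nd 149 (.lf 104 1 2) (.lf 149 1 2) (.nd 101 (.nd 71 (.lf 54 1 2) (.lf 71 1 2) (.lf 66 1 2)) (.lf 68 1 2) (.lf 101 1 2))) (.lf 154 1 2) (.lf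 102 1 2)) (.lf 184 1 2)) (.lf 232 1 2))

def t15_139 : Tr := (.nd 247 (.nd 233 (.nd 211 (.nd 180 (.lf 150 1 1) (.lf 180 1 1) (.lf 147 1 1)) (.nd 211 (.lf 211 1 1) (.lf 209 1 1) (.nd 209 (.lf 209 1 1) (.lf 204 1 1) (.lf 186 1 1))) (.nd 183 (.lf 154 1 1) (.nd 183 (.nd 183 (.nd 183 (.lf 169 1 1) (.lf 178 1 1) (.lf 183 1 1)) (.lf 180 1 1) (.lf 160 1 1)) (.lf 177 1 1) (.lf 170 1 1)) (.lf 154 1 1))) (.nd 181 (.lf 176 1 1) (.nd 181 (.lf 173 1 1) (.nd 181 (.lf 181 1 1) (.lf 155 1 1) (.lf 155 1 1)) (.nd 164 (.lf 164 1 1) (.lf 136 1 1) (.nd 160 (.lf 160 1 1) (.nd 145 (.lf 114 1 1) (.lf 106 1 1) (.lf 145 1 1)) (.lf 146 1 1)))) (.lf 152 1 1)) (.nd 233 (.nd 218 (.lf 218 1 1) (.nd 195 (.lf 177 1 1) (.lf 176 1 1) (.lf 195 1 1)) (.lf 194 1 1)) (.nd 233 (.nd 209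 (.lf 209 1 1) (.nd 201 (.lf 196 1 1) (.nd 175 (.lf 146 1 1) (.lf 168 1 1) (.lf 175 1 1)) (.lf 201 1 1)) (.lf 205 1 1)) (.lf 207 1 1) (.lf 233 1 1)) (.lf 203 1 1))) (.nd 224 (.nd 224 (.nd 211 (.lf 197 1 1) (.lf 175 1 1) (.nd 211 (.lf 208 1 1) (.lf 211 1 1) (.nd 211 (.lf 192 1 1) (.lf 197 1 1) (.lf 211 1 1)))) (.nd 210 (.nd 196 (.lf 177 1 1) (.lf 176 1 1) (.nd 196 (.lf 192 1 1) (.lf 196 1 1) (.lf 183 1 1))) (.nd 199 (.lf 176 1 1) (.nd 199 (.lf 189 1 1) (.lf 199 1 1) (.lf 179 1 1)) (.lf 163 1 1)) (.nd 210 (.lf 210 1 1) (.nd 200 (.lf 186 1 1) (.lf 200 1 1) (.lf 190 1 1)) (.lf 196 1 1))) (.nd 224 (.nd 209 (.nd 189 (.lf 189 1 1) (.lf 169 1 1) (.lf 168 1 1)) (.lf 199 1 1) (.nd 209 (.lf 165 1 1) (.lf 209 1 1) (.lf 175 1 1))) (.lf 208 1 1) (.nd 224 (.lf 224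 1 1) (.nd 210 (.lf 210 1 1) (.lf 206 1 1) (.lf 199 1 1)) (.lf 213 1 1)))) (.nd 201 (.nd 168 (.lf 154 1 1) (.lf 123 1 1) (.nd 168 (.lf 161 1 1) (.lf 146 1 1) (.lf 168 1 1))) (.nd 177 (.lf 155 1 1) (.nd 149 (.lf 139 1 1) (.nd 149 (.nd 149 (.lf 149 1 1) (.lf 125 1 1) (.lf 131 1 1)) (.lf 139 1 1) (.lf 118 1 1)) (.lf 94 1 1)) (.lf 177 1 1)) (.nd 201 (.nd 201 (.nd 201 (.lf 198 1 1) (.lf 185 1 1) (.lf 201 1 1)) (.lf 193 1 1) (.lf 185 1 1)) (.lf 183 1 1) (.lf 186 1 1))) (.nd 192 (.nd 178 (.lf 178 1 1) (.lf 149 1 1) (.lf 154 1 1)) (.nd 192 (.nd 187 (.nd 187 (.lf 187 1 1) (.lf 178 1 1) (.nd 187 (.lf 187 1 1) (.lf 159 1 1) (.lf 167 1 1))) (.lf 173 1 1) (.nd 183 (.lf 171 1 1) (.nd 183 (.lf 173 1 1) (.lf 159 1 1) (.lf 183 1 1)) (.nd 179 (.lf 142 1 1) (.lf 156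 1 1) (.nd 179 (.lf 176 1 1) (.lf 176 1 1) (.lf 179 1 1))))) (.nd 192 (.nd 192 (.lf 192 1 1) (.lf 170 1 1) (.lf 177 1 1)) (.lf 177 1 1) (.lf 164 1 1)) (.lf 177 1 1)) (.lf 152 1 1))) (.nd 247 (.nd 241 (.nd 214 (.nd 204 (.lf 204 1 1) (.lf 181 1 1) (.nd 186 (.lf 155 1 1) (.lf 156 1 1) (.lf 186 1 1))) (.nd 201 (.nd 201 (.nd 190 (.lf 190 1 1) (.lf 173 1 1) (.lf 163 1 1)) (.lf 201 1 1) (.lf 197 1 1)) (.nd 181 (.nd 181 (.lf 181 1 1) (.lf 159 1 1) (.lf 166 1 1)) (.lf 152 1 1) (.lf 150 1 1)) (.nd 182 (.lf 177 1 1) (.lf 182 1 1) (.lf 130 1 1))) (.lf 214 1 1)) (.nd 224 (.nd 224 (.lf 224 1 1) (.lf 217 1 1) (.nd 216 (.lf 189 1 1) (.lf 216 1 1) (.nd 202 (.lf 182 1 1) (.lf 202 1 1) (.lf 183 1 1)))) (.nd 207 (.nd 207 (.nd 185 (.lf 171 1 1) (.lf 185 1 1) (.lf 174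 1 1)) (.nd 192 (.lf 177 1 1) (.lf 172 1 1) (.lf 192 1 1)) (.lf 207 1 1)) (.lf 170 1 1) (.lf 176 1 1)) (.nd 208 (.lf 156 1 1) (.nd 203 (.lf 203 1 1) (.lf 155 1 1) (.lf 158 1 1)) (.nd 208 (.lf 208 1 1) (.nd 191 (.lf 170 1 1) (.lf 191 1 1) (.lf 169 1 1)) (.lf 178 1 1)))) (.lf 241 1 1)) (.nd 242 (.lf 222 1 1) (.nd 242 (.nd 240 (.lf 240 1 1) (.lf 240 1 1) (.nd 240 (.lf 240 1 1) (.lf 240 1 1) (.nd 223 (.lf 206 1 5) (.lf 223 1 5) (.nd 220 (.lf 190 1 5) (.lf 187 1 5) (.lf 220 1 5))))) (.lf 242 1 1) (.lf 241 1 1)) (.lf 233 1 1)) (.lf 247 1 1)))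

def t15_140 : Tr := (.nd 190 (.nd 190 (.nd 190 (.nd 180 (.lf 180 1 2) (.lf 166 1 2) (.lf 180 1 2)) (.nd 190 (.nd 186 (.lf 186 1 2) (.lf 177 1 2) (.lf 176 1 2)) (.lf 178 1 2) (.lf 190 1 2)) (.lf 181 1 2)) (.nd 179 (.lf 148 1 2) (.nd 158 (.nd 146 (.lf 124 1 2) (.lf 146 1 2) (.lf 118 1 2)) (.lf 137 1 2) (.lf 158 1 2)) (.lf 179 1 2)) (.nd 173 (.lf 173 1 2) (.nd 169 (.lf 169 1 2) (.lf 164 1 2) (.lf 148 1 2)) (.lf 150 1 2))) (.nd 167 (.nd 167 (.lf 157 1 2) (.lf 150 1 2) (.lf 167 1 2)) (.nd 149 (.nd 97 (.lf 92 1 2) (.lf 97 1 2) (.lf 68 1 2)) (.lf 149 1 2) (.lf 144 1 2)) (.nd 148 (.nd 109 (.lf 96 1 2) (.lf 93 1 2) (.lf 109 1 2)) (.lf 117 1 2) (.nd 148 (.lf 126 1 2) (.nd 148 (.lf 133 1 2) (.nd 148 (.lf 129 1 2) (.lf 148 1 2) (.lf 126 1 2)) (.lf 125 1 2))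 (.lf 133 1 2)))) (.nd 166 (.nd 166 (.lf 152 1 2) (.lf 166 1 2) (.lf 153 1 2)) (.nd 141 (.lf 141 1 2) (.nd 123 (.lf 118 1 2) (.nd 71 (.lf 71 1 2) (.lf 42 1 2) (.nd 66 (.nd 66 (.lf 36 1 2) (.nd 66 (.lf 66 1 2) (.lf 35 1 2) (.lf 42 1 2)) (.lf 51 1 2)) (.lf 27 1 2) (.lf 42 1 2))) (.lf 123 1 2)) (.nd 122 (.lf 91 1 2) (.nd 93 (.lf 93 1 2) (.lf 42 1 2) (.nd 87 (.lf 39 1 2) (.lf 44 1 2) (.lf 87 1 2))) (.nd 122 (.nd 107 (.lf 107 1 2) (.lf 87 1 2) (.lf 92 1 2)) (.nd 100 (.lf 86 1 2) (.lf 89 1 2) (.lf 100 1 2)) (.lf 122 1 2)))) (.lf 146 1 2)))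

def t15_142 : Tr := (.nd 206 (.nd 206 (.nd 191 (.lf 167 1 3) (.lf 168 1 3) (.nd 191 (.lf 174 1 3) (.lf 180 1 3) (.lf 191 1 3))) (.nd 176 (.nd 152 (.nd 146 (.lf 122 1 3) (.lf 95 1 3) (.lf 146 1 3)) (.lf 126 1 3) (.nd 152 (.nd 152 (.lf 152 1 3) (.lf 122 1 3) (.lf 127 1 3)) (.lf 143 1 3) (.lf 135 1 3))) (.nd 176 (.lf 176 1 3) (.lf 124 1 3) (.nd 154 (.lf 154 1 3) (.lf 123 1 3) (.lf 126 1 3))) (.lf 174 1 3)) (.nd 206 (.lf 180 1 3) (.nd 182 (.lf 182 1 3) (.nd 178 (.lf 137 1 3) (.lf 155 1 3) (.lf 178 1 3)) (.lf 174 1 3)) (.nd 206 (.lf 192 1 3) (.lf 205 1 3) (.nd 206 (.lf 206 1 3) (.lf 180 1 3) (.lf 191 1 3))))) (.nd 154 (.lf 149 1 3) (.lf 125 1 3) (.nd 154 (.lf 146 1 3) (.lf 137 1 3) (.lf 154 1 3))) (.nd 201 (.nd 153 (.lf 123 1 3) (.nd 120 (.lf 91 1 3)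 (.lf 120 1 3) (.lf 83 1 3)) (.nd 153 (.nd 131 (.lf 110 1 3) (.lf 131 1 3) (.lf 98 1 3)) (.nd 128 (.lf 123 1 3) (.lf 112 1 3) (.nd 128 (.nd 128 (.lf 108 1 3) (.lf 128 1 3) (.lf 114 1 3)) (.nd 128 (.lf 108 1 3) (.lf 128 1 3) (.lf 99 1 3)) (.lf 126 1 3))) (.lf 153 1 3))) (.nd 156 (.nd 127 (.lf 101 1 3) (.lf 104 1 3) (.lf 127 1 3)) (.lf 156 1 3) (.nd 127 (.lf 127 1 3) (.lf 97 1 3) (.lf 96 1 3))) (.nd 201 (.nd 182 (.nd 159 (.lf 141 1 3) (.lf 154 1 3) (.nd 159 (.lf 159 1 3) (.lf 151 1 3) (.lf 150 1 3))) (.nd 177 (.nd 177 (.nd 177 (.lf 177 1 3) (.lf 177 1 3) (.lf 177 1 3)) (.lf 173 1 3) (.lf 164 1 3)) (.lf 163 1 3) (.lf 171 1 3)) (.nd 182 (.lf 157 1 3) (.lf 182 1 3) (.lf 158 1 3))) (.nd 182 (.nd 182 (.nd 165 (.lf 150 1 3) (.lf 165 1 3) (.lf 145 1 3)) (.lf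 182 1 3) (.lf 146 1 3)) (.lf 170 1 3) (.lf 173 1 3)) (.nd 201 (.lf 201 1 3) (.nd 176 (.lf 176 1 3) (.lf 150 1 3) (.lf 151 1 3)) (.nd 173 (.lf 162 1 3) (.lf 173 1 3) (.nd 162 (.lf 127 1 3) (.lf 148 1 3) (.lf 162 1 3)))))))

def t15_145 : Tr := (.nd 154 (.nd 127 (.nd 122 (.nd 77 (.lf 48 1 1) (.lf 48 1 1) (.lf 77 1 1)) (.lf 74 1 1) (.nd 122 (.lf 103 1 1) (.lf 103 1 1) (.nd 122 (.lf 97 1 1) (.lf 122 1 1) (.lf 94 1 1)))) (.nd 75 (.lf 75 1 1) (.nd 46 (.lf 46 1 1) (.lf 40 1 1) (.lf 17 1 1)) (.nd 70 (.lf 18 1 1) (.lf 46 1 1) (.nd 70 (.lf 55 1 1) (.lf 40 1 1) (.lf 70 1 1)))) (.nd 127 (.nd 110 (.lf 89 1 1) (.lf 88 1 1) (.nd 110 (.lf 101 1 1) (.lf 95 1 1) (.nd 110 (.lf 102 1 1) (.nd 110 (.lf 108 1 1) (.lf 100 1 1) (.nd 110 (.lf 110 1 1) (.lf 100 3 3) (.lf 109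 1 1))) (.lf 103 1 1)))) (.nd 127 (.nd 103 (.nd 103 (.lf 82 1 1) (.lf 98 1 1) (.lf 103 1 1)) (.nd 95 (.lf 95 1 1) (.lf 90 1 1) (.lf 69 1 1)) (.nd 99 (.lf 58 1 1) (.lf 99 1 1) (.lf 76 1 1))) (.nd 101 (.nd 96 (.nd 83 (.nd 83 (.lf 83 1 1) (.nd 79 (.lf 64 1 1) (.lf 79 3 3) (.lf 74 1 1)) (.lf 68 1 1)) (.lf 70 1 1) (.lf 43 1 1)) (.lf 67 1 1) (.lf 96 1 1)) (.lf 84 1 1) (.lf 101 1 1)) (.lf 127 1 1)) (.nd 97 (.lf 95 1 1) (.nd 97 (.lf 45 1 1) (.nd 97 (.lf 97 1 1) (.lf 67 1 1) (.lf 82 1 1)) (.lf 75 1 1)) (.lf 73 1 1)))) (.nd 126 (.nd 89 (.nd 46 (.lf 46 1 1) (.nd 39 (.lf 39 1 1) (.lf 15 1 1) (.lf 0 1 1)) (.lf 17 1 1)) (.nd 82 (.lf 43 1 1) (.nd 48 (.lf 20 1 1) (.lf 48 1 1) (.lf 17 1 1)) (.nd 82 (.lf 72 1 1) (.nd 82 (.lf 70 1 1) (.nd 82 (.lf 70 1 1) (.lf 62 1 1)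 (.nd 82 (.lf 82 3 3) (.lf 72 3 3) (.lf 82 1 1))) (.lf 66 1 1)) (.lf 72 1 1))) (.nd 89 (.nd 89 (.nd 89 (.lf 87 1 1) (.nd 89 (.lf 87 1 1) (.nd 87 (.lf 87 1 1) (.lf 87 1 1) (.nd 86 (.lf 86 1 1) (.lf 72 3 3) (.lf 72 3 3))) (.lf 89 3 3)) (.nd 85 (.lf 81 1 1) (.nd 85 (.lf 85 3 3) (.lf 75 1 1) (.lf 70 1 1)) (.lf 73 1 1))) (.lf 76 1 1) (.lf 77 1 1)) (.lf 86 1 1) (.lf 71 1 1))) (.nd 126 (.nd 126 (.nd 126 (.lf 126 1 1) (.lf 104 1 1) (.lf 107 1 1)) (.lf 103 1 1) (.nd 111 (.lf 88 1 1) (.lf 111 1 1) (.nd 111 (.lf 108 1 1) (.lf 111 1 1) (.lf 102 1 1)))) (.nd 111 (.nd 111 (.lf 111 1 1) (.lf 105 1 1) (.lf 104 1 1)) (.lf 91 1 1) (.lf 96 1 1)) (.nd 104 (.lf 93 1 1) (.lf 104 1 1) (.lf 90 1 1))) (.nd 95 (.nd 71 (.lf 49 1 1) (.lf 43 1 1) (.lf 71 1 1)) (.nd 95 (.lf 80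 1 1) (.lf 95 1 1) (.lf 77 1 1)) (.nd 67 (.nd 67 (.lf 40 1 1) (.lf 62 1 1) (.nd 67 (.nd 67 (.nd 67 (.lf 67 1 1) (.nd 67 (.lf 63 1 1) (.lf 62 1 1) (.lf 67 3 3)) (.lf 65 1 1)) (.lf 60 1 1) (.lf 66 1 1)) (.lf 53 1 1) (.lf 50 1 1))) (.lf 60 1 1) (.nd 17 (.lf 8 1 1) (.lf 17 1 1) (.lf 0 1 1))))) (.nd 154 (.nd 136 (.lf 110 1 1) (.nd 136 (.nd 134 (.nd 112 (.lf 97 1 1) (.lf 93 1 1) (.lf 112 1 1)) (.lf 134 1 1) (.lf 118 1 1)) (.lf 136 1 1) (.nd 135 (.lf 132 1 1) (.nd 134 (.lf 120 1 1) (.nd 129 (.nd 129 (.lf 116 3 3) (.nd 120 (.lf 120 1 1) (.lf 115 3 3) (.lf 118 3 3)) (.lf 129 1 1)) (.lf 108 1 1) (.lf 110 1 1)) (.lf 134 1 1)) (.lf 135 1 1))) (.nd 111 (.nd 96 (.lf 63 1 1) (.lf 96 1 1) (.nd 79 (.lf 79 1 1) (.lf 44 1 1) (.lf 61 1 1))) (.nd 111 (.lf 107 1 1) (.nd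 111 (.lf 111 1 1) (.nd 110 (.lf 110 3 3) (.lf 81 3 3) (.lf 105 1 1)) (.lf 103 1 1)) (.lf 106 1 1)) (.lf 88 1 1))) (.nd 154 (.nd 146 (.nd 143 (.nd 143 (.lf 133 1 1) (.nd 143 (.lf 143 1 1) (.lf 117 1 1) (.lf 114 1 1)) (.lf 115 1 1)) (.nd 135 (.nd 135 (.lf 135 1 1) (.lf 86 1 1) (.lf 110 1 1)) (.lf 135 1 1) (.lf 110 1 1)) (.nd 135 (.nd 135 (.lf 135 1 1) (.lf 133 1 1) (.lf 128 1 1)) (.lf 129 1 1) (.lf 131 1 1))) (.lf 133 1 1) (.nd 146 (.lf 139 1 1) (.nd 146 (.lf 135 1 1) (.nd 146 (.lf 132 3 3) (.lf 135 1 1) (.nd 146 (.lf 142 1 1) (.lf 124 1 1) (.lf 146 1 1))) (.lf 136 1 1)) (.lf 135 1 1))) (.nd 154 (.lf 115 1 1) (.nd 154 (.nd 128 (.lf 128 3 3) (.lf 111 3 3) (.lf 116 1 1)) (.lf 135 1 1) (.lf 154 1 1)) (.nd 141 (.nd 141 (.nd 134 (.nd 127 (.lf 127 1 1) (.lf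 123 3 3) (.lf 127 1 1)) (.lf 127 1 1) (.lf 134 1 1)) (.lf 130 1 1) (.lf 141 1 1)) (.lf 107 1 1) (.lf 118 1 1))) (.nd 137 (.lf 132 1 1) (.nd 137 (.lf 135 1 1) (.lf 124 1 1) (.lf 137 1 1)) (.lf 118 1 1))) (.nd 135 (.lf 135 1 1) (.nd 108 (.lf 108 1 1) (.lf 98 1 1) (.nd 95 (.lf 95 1 1) (.lf 75 1 1) (.lf 76 1 1))) (.nd 121 (.nd 101 (.lf 70 1 1) (.lf 101 1 1) (.lf 64 1 1)) (.nd 102 (.lf 97 1 1) (.nd 102 (.lf 102 1 1) (.lf 85 1 1) (.lf 72 1 1)) (.lf 50 1 1)) (.lf 121 1 1)))))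

def t15_146 : Tr := (.nd 248 (.nd 237 (.nd 216 (.nd 216 (.nd 216 (.nd 216 (.lf 211 1 2) (.lf 216 1 2) (.lf 212 2 2)) (.lf 216 1 2) (.nd 216 (.nd 205 (.lf 205 1 2) (.lf 204 1 2) (.lf 197 2 2)) (.nd 216 (.lf 204 2 2) (.lf 186 2 2) (.lf 216 1 2)) (.lf 207 1 2))) (.nd 213 (.nd 213 (.lf 209 2 2) (.lf 213 2 2) (.nd 199 (.lf 199 2 2) (.nd 180 (.lf 171 1 2) (.lf 174 2 2) (.lf 180 2 2)) (.lf 199 1 2))) (.nd 175 (.lf 173 2 2) (.lf 172 1 2) (.lf 175 1 2)) (.nd 194 (.lf 193 1 2) (.lf 194 1 2) (.lf 175 2 2))) (.nd 216 (.lf 196 1 2) (.lf 216 2 2) (.lf 194 1 2))) (.nd 189 (.lf 171 1 2) (.nd 189 (.lf 151 1 2) (.nd 189 (.lf 189 1 2) (.lf 173 1 2) (.lf 188 1 2)) (.nd 189 (.lf 153 1 2) (.lf 150 1 2) (.lf 189 1 2))) (.lf 171 1 2)) (.nd 186 (.nd 186 (.lf 186 2 2) (.lf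 142 1 2) (.lf 178 1 2)) (.lf 174 2 2) (.nd 174 (.lf 146 2 2) (.nd 174 (.lf 145 2 2) (.lf 148 2 2) (.nd 174 (.nd 153 (.nd 151 (.lf 151 2 2) (.lf 143 1 2) (.lf 128 1 2)) (.lf 106 1 2) (.lf 153 1 2)) (.lf 174 2 2) (.lf 159 2 2))) (.lf 159 1 2)))) (.nd 222 (.nd 200 (.lf 171 1 2) (.lf 200 1 2) (.nd 193 (.lf 169 1 2) (.lf 141 1 2) (.lf 193 1 2))) (.nd 211 (.nd 167 (.lf 166 1 2) (.nd 167 (.lf 145 2 2) (.lf 140 2 2) (.nd 167 (.lf 161 1 2) (.lf 167 2 2) (.lf 159 1 2))) (.lf 145 2 2)) (.nd 174 (.lf 174 1 2) (.lf 171 2 2) (.lf 171 1 2)) (.nd 211 (.nd 196 (.nd 171 (.lf 167 2 2) (.lf 156 2 2) (.nd 171 (.lf 171 1 2) (.lf 170 2 2) (.lf 170 2 2))) (.nd 168 (.lf 168 2 2) (.lf 163 1 2) (.lf 142 1 2)) (.lf 196 1 2)) (.lf 211 2 2) (.lf 208 1 2))) (.nd 222 (.lf 222 2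 2) (.lf 174 2 2) (.nd 210 (.lf 176 2 2) (.lf 210 2 2) (.lf 171 2 2)))) (.nd 237 (.nd 213 (.lf 197 1 2) (.lf 213 1 2) (.nd 189 (.lf 176 1 2) (.lf 170 1 2) (.lf 189 1 2))) (.nd 237 (.nd 211 (.lf 206 1 2) (.lf 211 1 2) (.nd 203 (.lf 190 1 2) (.lf 198 1 2) (.nd 203 (.nd 203 (.lf 203 1 2) (.lf 203 1 2) (.nd 203 (.lf 203 1 2) (.lf 203 1 2) (.lf 203 1 2))) (.lf 203 1 2) (.lf 203 1 2)))) (.lf 237 1 2) (.nd 225 (.lf 225 1 2) (.lf 202 1 2) (.nd 223 (.lf 168 1 2) (.lf 223 1 2) (.lf 193 1 2)))) (.nd 229 (.nd 177 (.lf 148 1 2) (.lf 172 1 2) (.lf 177 1 2)) (.lf 229 1 2) (.lf 205 1 2)))) (.nd 248 (.nd 231 (.lf 228 2 2) (.nd 231 (.lf 231 2 2) (.nd 213 (.lf 213 1 2) (.nd 180 (.lf 173 1 2) (.lf 165 2 2) (.nd 180 (.lf 172 1 2) (.nd 180 (.lf 168 2 2) (.lf 180 1 2) (.lf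 168 2 2)) (.lf 175 1 2))) (.lf 201 1 2)) (.lf 216 1 2)) (.nd 222 (.lf 202 2 2) (.nd 222 (.lf 222 2 2) (.lf 211 2 2) (.nd 218 (.lf 186 2 2) (.nd 218 (.lf 218 2 2) (.lf 195 1 2) (.lf 218 2 2)) (.lf 203 2 2))) (.nd 198 (.lf 198 2 2) (.lf 151 2 2) (.nd 197 (.lf 197 1 2) (.lf 173 2 2) (.nd 188 (.lf 165 2 2) (.lf 164 2 2) (.lf 188 2 2)))))) (.nd 239 (.nd 233 (.nd 201 (.nd 197 (.nd 197 (.nd 191 (.lf 190 1 2) (.lf 191 1 2) (.lf 168 1 2)) (.nd 197 (.lf 163 1 2) (.lf 159 2 2) (.lf 197 1 2)) (.nd 182 (.lf 159 1 2) (.lf 177 1 2) (.lf 182 1 2))) (.lf 172 1 2) (.lf 194 1 2)) (.lf 197 2 2) (.nd 201 (.lf 201 1 2) (.lf 162 2 2) (.nd 201 (.lf 157 2 2) (.lf 162 2 2) (.nd 201 (.lf 186 2 2) (.lf 193 2 2) (.lf 201 1 2))))) (.lf 224 1 2) (.lf 233 2 2)) (.nd 239 (.nd 194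 (.nd 185 (.lf 170 1 2) (.lf 163 2 2) (.nd 185 (.lf 173 1 2) (.lf 185 2 2) (.lf 182 1 2))) (.nd 185 (.lf 172 1 2) (.lf 162 2 2) (.lf 185 2 2)) (.nd 194 (.lf 176 1 2) (.nd 194 (.lf 194 2 2) (.lf 187 1 2) (.lf 194 2 2)) (.lf 186 1 2))) (.nd 208 (.lf 198 1 2) (.nd 193 (.lf 193 2 2) (.lf 193 2 2) (.lf 170 1 2)) (.lf 208 1 2)) (.lf 239 1 2)) (.nd 239 (.nd 208 (.nd 202 (.lf 173 1 2) (.nd 199 (.lf 199 1 2) (.lf 195 1 2) (.lf 195 2 2)) (.nd 202 (.lf 172 1 2) (.nd 202 (.lf 202 2 2) (.lf 201 1 2) (.lf 166 2 2)) (.lf 175 1 2))) (.nd 202 (.lf 193 1 2) (.nd 202 (.nd 202 (.lf 194 1 2) (.nd 202 (.lf 195 2 2) (.lf 201 2 2) (.lf 202 1 2)) (.lf 189 1 2)) (.lf 202 1 2) (.nd 202 (.lf 174 2 2) (.nd 193 (.lf 173 2 2) (.lf 176 2 2) (.lf 193 1 2)) (.nd 202 (.lf 188 2 2)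 (.lf 183 2 2) (.lf 202 1 2)))) (.lf 185 1 2)) (.nd 208 (.nd 208 (.lf 200 1 2) (.lf 200 2 2) (.nd 208 (.lf 199 2 2) (.lf 202 2 2) (.lf 208 1 2))) (.lf 202 1 2) (.nd 202 (.nd 202 (.lf 202 1 2) (.lf 201 2 2) (.lf 171 2 2)) (.lf 200 1 2) (.lf 202 1 2)))) (.nd 230 (.nd 219 (.lf 206 1 2) (.nd 219 (.lf 186 1 2) (.lf 202 1 2) (.lf 219 1 2)) (.lf 200 1 2)) (.nd 230 (.lf 230 1 2) (.nd 224 (.nd 202 (.lf 168 2 2) (.lf 199 2 2) (.nd 202 (.lf 198 1 2) (.lf 202 2 2) (.lf 191 2 2))) (.lf 224 1 2) (.lf 222 2 2)) (.lf 224 1 2)) (.lf 207 1 2)) (.nd 239 (.nd 226 (.nd 221 (.lf 192 2 2) (.nd 192 (.lf 189 1 2) (.lf 164 2 2) (.lf 192 2 2)) (.lf 221 2 2)) (.nd 226 (.lf 214 1 2) (.lf 202 1 2) (.lf 226 1 2)) (.lf 222 1 2)) (.lf 239 1 2) (.nd 213 (.nd 211 (.lf 187 1 2) (.lf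 207 1 2) (.nd 211 (.lf 194 1 2) (.lf 211 1 2) (.nd 207 (.lf 196 2 2) (.lf 207 1 2) (.lf 206 1 2)))) (.nd 213 (.lf 200 1 2) (.lf 202 1 2) (.nd 213 (.nd 208 (.lf 206 1 2) (.lf 193 2 2) (.lf 208 1 2)) (.lf 212 2 2) (.lf 213 1 2))) (.lf 213 1 2))))) (.nd 248 (.lf 229 2 2) (.lf 228 2 2) (.nd 248 (.lf 237 2 2) (.nd 228 (.lf 213 2 2) (.lf 212 2 2) (.nd 228 (.lf 224 1 2) (.nd 221 (.lf 221 1 2) (.lf 199 1 2) (.nd 195 (.nd 195 (.lf 195 2 2) (.lf 186 1 2) (.lf 190 1 2)) (.nd 195 (.lf 195 1 2) (.lf 169 2 2) (.lf 182 2 2)) (.nd 186 (.lf 186 2 2) (.lf 186 1 2) (.lf 150 2 2)))) (.lf 228 1 2))) (.lf 248 2 2)))) (.nd 226 (.nd 226 (.nd 197 (.lf 171 1 2) (.nd 197 (.nd 197 (.lf 175 1 2) (.lf 170 1 2) (.nd 197 (.lf 170 1 2) (.lf 197 1 2) (.lf 167 1 2))) (.nd 197 (.lf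 169 1 2) (.lf 197 1 2) (.lf 174 1 2)) (.lf 174 1 2)) (.nd 194 (.lf 145 1 2) (.nd 194 (.lf 179 1 2) (.nd 194 (.lf 181 1 2) (.lf 178 1 2) (.lf 194 1 2)) (.lf 168 1 2)) (.lf 172 1 2))) (.nd 222 (.nd 170 (.nd 170 (.nd 164 (.lf 163 1 2) (.lf 141 1 2) (.lf 164 1 2)) (.nd 155 (.lf 155 1 2) (.lf 150 1 2) (.lf 132 1 2)) (.nd 170 (.lf 170 1 2) (.lf 151 1 2) (.lf 136 1 2))) (.lf 167 1 2) (.lf 145 1 2)) (.nd 199 (.nd 199 (.lf 192 1 2) (.lf 199 1 2) (.nd 195 (.lf 195 1 2) (.lf 178 1 2) (.lf 174 1 2))) (.lf 171 1 2) (.lf 174 1 2)) (.lf 222 1 2)) (.nd 226 (.lf 213 1 2) (.lf 215 1 2) (.nd 226 (.nd 226 (.nd 196 (.lf 194 1 2) (.nd 196 (.nd 196 (.lf 196 2 2) (.lf 193 1 2) (.lf 196 1 2)) (.lf 174 1 2) (.lf 171 2 2)) (.lf 194 1 2)) (.lf 226 2 2) (.lf 211 1 2)) (.lf 203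 1 2) (.lf 201 1 2)))) (.nd 213 (.nd 206 (.nd 206 (.nd 206 (.nd 206 (.lf 200 1 2) (.lf 181 1 2) (.lf 206 1 2)) (.lf 185 1 2) (.lf 173 1 2)) (.nd 189 (.lf 173 1 2) (.nd 189 (.lf 189 1 2) (.nd 184 (.lf 181 2 2) (.lf 175 1 2) (.lf 184 2 2)) (.nd 175 (.lf 156 2 2) (.lf 165 1 2) (.lf 175 1 2))) (.lf 175 1 2)) (.nd 175 (.nd 174 (.nd 174 (.nd 174 (.lf 160 2 2) (.lf 158 2 2) (.lf 174 1 2)) (.lf 166 1 2) (.lf 167 1 2)) (.lf 167 1 2) (.lf 159 1 2)) (.lf 170 1 2) (.nd 175 (.nd 175 (.lf 175 2 2) (.lf 167 1 2) (.lf 175 1 2)) (.lf 167 1 2) (.lf 147 1 2)))) (.nd 195 (.lf 166 1 2) (.lf 158 1 2) (.nd 195 (.nd 182 (.nd 182 (.lf 182 1 2) (.lf 175 1 2) (.lf 176 1 2)) (.lf 167 1 2) (.lf 162 1 2)) (.nd 195 (.lf 174 1 2) (.nd 195 (.lf 195 1 2) (.lf 178 1 2) (.lf 175 1 2))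 (.nd 182 (.lf 159 1 2) (.lf 182 1 2) (.lf 166 1 2))) (.lf 175 1 2))) (.nd 183 (.lf 146 1 2) (.nd 182 (.lf 148 1 2) (.nd 182 (.lf 174 1 2) (.lf 182 2 2) (.lf 174 1 2)) (.lf 145 1 2)) (.nd 183 (.lf 183 1 2) (.lf 168 1 2) (.lf 172 1 2)))) (.nd 212 (.nd 212 (.lf 207 1 2) (.nd 200 (.lf 194 1 2) (.lf 200 1 2) (.lf 182 1 2)) (.nd 212 (.nd 212 (.lf 212 1 2) (.nd 202 (.lf 202 1 2) (.lf 201 1 2) (.lf 195 1 2)) (.lf 211 1 2)) (.lf 190 1 2) (.lf 204 1 2))) (.nd 202 (.nd 195 (.nd 195 (.lf 192 2 2) (.lf 195 1 2) (.lf 192 2 2)) (.lf 183 2 2) (.lf 184 2 2)) (.nd 199 (.nd 187 (.lf 177 1 2) (.nd 187 (.lf 174 1 2) (.lf 180 1 2) (.nd 187 (.lf 185 2 2) (.lf 187 1 2) (.lf 181 2 2))) (.lf 174 1 2)) (.nd 199 (.nd 183 (.nd 183 (.lf 178 1 2) (.lf 183 2 2) (.lf 148 1 2)) (.nd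 168 (.lf 168 1 2) (.lf 163 2 2) (.lf 158 2 2)) (.lf 161 2 2)) (.nd 189 (.lf 175 2 2) (.lf 177 2 2) (.lf 189 1 2)) (.nd 199 (.lf 199 2 2) (.lf 186 1 2) (.lf 193 1 2))) (.nd 175 (.lf 149 1 2) (.nd 174 (.lf 174 1 2) (.lf 173 1 2) (.lf 161 2 2)) (.lf 175 1 2))) (.nd 202 (.lf 178 1 2) (.nd 202 (.lf 177 1 2) (.lf 180 1 2) (.lf 202 2 2)) (.nd 191 (.lf 191 2 2) (.lf 183 2 2) (.lf 162 2 2)))) (.nd 194 (.nd 194 (.nd 194 (.lf 194 2 2) (.nd 194 (.lf 181 2 2) (.lf 194 2 2) (.lf 179 2 2)) (.nd 186 (.lf 171 1 2) (.nd 186 (.lf 186 2 2) (.lf 186 1 2) (.lf 183 1 2)) (.lf 180 1 2))) (.nd 175 (.lf 175 1 2) (.lf 172 1 2) (.lf 175 2 2)) (.lf 173 1 2)) (.nd 188 (.nd 188 (.lf 167 2 2) (.nd 188 (.lf 180 2 2) (.lf 188 2 2) (.lf 179 2 2)) (.lf 184 2 2)) (.lf 180 2 2) (.lf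 160 2 2)) (.nd 186 (.nd 186 (.nd 186 (.lf 168 1 2) (.lf 184 2 2) (.lf 186 1 2)) (.lf 186 2 2) (.lf 178 2 2)) (.lf 158 2 2) (.lf 186 2 2)))) (.nd 213 (.nd 213 (.nd 213 (.nd 197 (.nd 197 (.nd 196 (.lf 195 1 2) (.lf 178 2 2) (.lf 196 2 2)) (.lf 197 1 2) (.lf 176 1 2)) (.nd 196 (.nd 193 (.lf 191 2 2) (.lf 193 1 2) (.lf 176 2 2)) (.lf 196 1 2) (.lf 151 2 2)) (.lf 194 2 2)) (.nd 211 (.lf 180 2 2) (.lf 211 2 2) (.nd 186 (.lf 165 1 2) (.lf 186 1 2) (.lf 171 1 2))) (.nd 213 (.lf 212 1 2) (.lf 211 1 2) (.nd 213 (.lf 212 1 2) (.lf 213 1 2) (.lf 206 2 2)))) (.nd 203 (.lf 200 1 2) (.nd 202 (.lf 171 1 2) (.nd 202 (.lf 195 2 2) (.lf 199 1 2) (.lf 202 1 2)) (.lf 199 1 2)) (.nd 203 (.lf 203 2 2) (.lf 197 1 2) (.nd 188 (.lf 166 1 2) (.lf 184 2 2) (.lf 188 2 2))))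 (.nd 197 (.lf 197 1 2) (.nd 197 (.lf 192 2 2) (.nd 197 (.lf 179 2 2) (.lf 180 2 2) (.nd 197 (.lf 188 2 2) (.lf 197 1 2) (.lf 195 2 2))) (.lf 197 2 2)) (.nd 197 (.lf 190 2 2) (.nd 196 (.lf 196 2 2) (.nd 196 (.lf 191 2 2) (.lf 176 2 2) (.lf 196 1 2)) (.lf 154 2 2)) (.nd 197 (.lf 169 1 2) (.nd 197 (.lf 195 2 2) (.lf 197 1 2) (.lf 191 1 2)) (.lf 196 1 2))))) (.nd 192 (.nd 192 (.lf 159 2 2) (.lf 192 1 2) (.nd 175 (.lf 152 2 2) (.lf 175 1 2) (.lf 158 2 2))) (.lf 179 1 2) (.lf 173 1 2)) (.nd 180 (.lf 172 1 2) (.nd 180 (.lf 179 2 2) (.lf 158 2 2) (.lf 180 1 2)) (.lf 171 1 2)))) (.nd 212 (.nd 186 (.nd 174 (.lf 145 1 2) (.lf 174 1 2) (.lf 166 1 2)) (.nd 172 (.lf 143 1 2) (.nd 172 (.lf 155 1 2) (.lf 172 1 2) (.lf 146 1 2)) (.lf 146 1 2)) (.nd 186 (.nd 159 (.lf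 145 1 2) (.lf 145 1 2) (.nd 159 (.nd 154 (.lf 150 2 2) (.lf 151 1 2) (.nd 154 (.lf 149 2 2) (.lf 148 1 2) (.lf 154 1 2))) (.lf 158 1 2) (.nd 159 (.lf 158 1 2) (.lf 155 2 2) (.lf 159 1 2)))) (.nd 186 (.lf 160 2 2) (.lf 186 1 2) (.lf 186 1 2)) (.lf 149 1 2))) (.nd 212 (.nd 202 (.nd 191 (.lf 189 2 2) (.lf 188 2 2) (.lf 191 1 2)) (.nd 202 (.lf 195 1 2) (.nd 202 (.lf 202 1 2) (.nd 202 (.lf 202 2 2) (.lf 181 1 2) (.lf 189 1 2)) (.nd 201 (.lf 188 1 2) (.lf 193 1 2) (.lf 201 1 2))) (.lf 193 1 2)) (.nd 200 (.lf 199 1 2) (.lf 198 1 2) (.nd 200 (.lf 197 2 2) (.nd 195 (.lf 166 2 2) (.lf 195 2 2) (.lf 170 1 2)) (.lf 200 1 2)))) (.nd 212 (.lf 184 1 2) (.lf 202 1 2) (.nd 212 (.lf 199 1 2) (.lf 198 1 2) (.lf 212 1 2))) (.nd 194 (.nd 183 (.lf 175 2 2) (.lf 183 2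 2) (.lf 175 1 2)) (.nd 194 (.lf 190 1 2) (.lf 167 1 2) (.nd 194 (.lf 194 1 2) (.lf 177 1 2) (.lf 190 2 2))) (.nd 191 (.nd 191 (.lf 167 1 2) (.lf 170 1 2) (.lf 191 2 2)) (.lf 186 1 2) (.lf 163 2 2)))) (.nd 194 (.lf 171 1 2) (.lf 181 1 2) (.nd 194 (.lf 172 1 2) (.lf 143 1 2) (.lf 194 1 2))))))

def t15_148 : Tr := (.nd 216 (.nd 216 (.lf 215 2 1) (.nd 192 (.nd 142 (.nd 135 (.lf 83 2 1) (.nd 135 (.lf 135 2 1) (.lf 105 2 1) (.lf 120 2 1)) (.lf 111 2 1)) (.lf 113 2 1) (.nd 142 (.nd 123 (.lf 123 2 1) (.lf 118 2 1) (.lf 109 2 1)) (.lf 142 2 1) (.nd 129 (.nd 116 (.lf 109 2 1) (.lf 79 2 1) (.nd 116 (.lf 111 1 1) (.lf 101 2 1) (.lf 116 2 1))) (.lf 109 2 1) (.nd 129 (.lf 119 2 1) (.lf 129 1 1) (.nd 120 (.lf 120 1 1) (.lf 105 2 1) (.lf 118 2 1)))))) (.lf 192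 2 1) (.lf 188 1 1)) (.nd 216 (.nd 197 (.nd 168 (.nd 158 (.lf 136 2 1) (.lf 107 2 1) (.lf 158 2 1)) (.lf 135 2 1) (.nd 168 (.lf 168 2 1) (.nd 162 (.lf 162 2 1) (.lf 152 2 1) (.lf 133 2 1)) (.lf 154 2 1))) (.lf 172 1 1) (.nd 197 (.lf 197 2 1) (.lf 171 1 1) (.nd 174 (.nd 145 (.lf 115 1 1) (.lf 114 1 1) (.lf 145 1 1)) (.lf 145 1 1) (.lf 174 1 1)))) (.nd 216 (.nd 191 (.lf 141 2 1) (.lf 191 2 1) (.nd 188 (.lf 188 2 1) (.nd 143 (.lf 114 2 1) (.nd 143 (.lf 137 2 1) (.lf 127 2 1) (.lf 143 2 1)) (.lf 114 2 1)) (.lf 135 2 1))) (.lf 192 2 1) (.lf 216 2 1)) (.nd 198 (.lf 192 2 1) (.nd 197 (.nd 167 (.lf 115 2 1) (.lf 167 2 1) (.nd 162 (.lf 117 2 1) (.lf 114 2 1) (.lf 162 2 1))) (.lf 166 2 1) (.lf 197 2 1)) (.lf 198 2 1)))) (.nd 198 (.nd 190 (.nd 190 (.nd 166 (.lf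 163 1 1) (.nd 166 (.lf 145 2 1) (.lf 166 2 1) (.lf 142 2 1)) (.lf 140 1 1)) (.nd 190 (.lf 146 2 1) (.nd 189 (.lf 189 1 1) (.lf 145 2 1) (.lf 148 2 1)) (.lf 190 1 1)) (.nd 187 (.lf 141 1 1) (.nd 187 (.nd 187 (.lf 187 1 1) (.lf 177 2 1) (.nd 172 (.lf 142 2 1) (.lf 172 2 1) (.lf 141 2 1))) (.nd 152 (.lf 146 2 1) (.lf 139 1 1) (.nd 152 (.lf 152 2 1) (.lf 151 1 1) (.lf 147 2 1))) (.lf 169 1 1)) (.nd 171 (.nd 171 (.lf 171 1 1) (.lf 147 2 1) (.lf 151 2 1)) (.lf 145 1 1) (.lf 140 1 1)))) (.nd 185 (.lf 181 1 1) (.nd 158 (.lf 158 1 1) (.nd 141 (.lf 141 1 1) (.lf 140 1 1) (.lf 140 2 1)) (.lf 141 2 1)) (.nd 185 (.nd 140 (.lf 140 2 1) (.lf 137 2 1) (.lf 140 1 1)) (.lf 161 2 1) (.lf 185 1 1))) (.lf 188 2 1)) (.nd 198 (.nd 173 (.lf 149 1 1) (.lf 144 1 1) (.nd 173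 (.lf 165 1 1) (.lf 173 1 1) (.nd 168 (.nd 168 (.lf 136 2 1) (.lf 163 2 1) (.lf 168 1 1)) (.nd 150 (.nd 150 (.lf 113 2 1) (.lf 150 1 1) (.lf 116 1 1)) (.lf 144 2 1) (.nd 150 (.lf 150 2 1) (.lf 136 1 1) (.lf 128 1 1))) (.lf 162 2 1)))) (.nd 147 (.nd 118 (.lf 110 1 1) (.lf 107 1 1) (.lf 118 1 1)) (.lf 140 1 1) (.lf 147 1 1)) (.lf 198 1 1)) (.nd 175 (.nd 175 (.nd 170 (.lf 142 1 1) (.lf 162 1 1) (.lf 170 1 1)) (.lf 175 1 1) (.nd 166 (.lf 137 1 1) (.lf 166 1 1) (.nd 164 (.lf 140 1 1) (.lf 164 1 1) (.lf 141 1 1)))) (.lf 146 1 1) (.nd 175 (.nd 118 (.lf 107 1 1) (.lf 118 1 1) (.lf 109 1 1)) (.lf 144 1 1) (.lf 175 1 1)))) (.nd 204 (.nd 202 (.lf 175 2 1) (.nd 170 (.nd 140 (.nd 135 (.lf 90 2 1) (.lf 135 2 1) (.nd 87 (.lf 57 2 1) (.lf 54 2 1) (.lf 87 2 1))) (.lf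 140 2 1) (.lf 88 2 1)) (.lf 170 2 1) (.lf 137 2 1)) (.lf 202 2 1)) (.nd 147 (.lf 147 1 1) (.nd 142 (.lf 136 2 1) (.nd 113 (.lf 84 2 1) (.lf 113 2 1) (.nd 113 (.lf 104 2 1) (.nd 108 (.lf 100 2 1) (.lf 108 2 1) (.lf 80 2 1)) (.lf 113 2 1))) (.lf 142 2 1)) (.nd 147 (.lf 142 2 1) (.lf 147 1 1) (.lf 114 2 1))) (.nd 204 (.lf 204 1 1) (.nd 175 (.lf 175 1 1) (.nd 145 (.nd 145 (.lf 115 1 1) (.lf 130 1 1) (.lf 145 1 1)) (.nd 140 (.lf 107 1 1) (.lf 107 1 1) (.lf 140 1 1)) (.lf 107 1 1)) (.lf 142 1 1)) (.lf 178 1 1))))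

def t15_149 : Tr := (.nd 236 (.nd 236 (.nd 236 (.nd 203 (.nd 203 (.lf 203 1 2) (.lf 186 1 2) (.lf 174 1 2)) (.lf 174 1 2) (.lf 189 1 2)) (.lf 236 1 2) (.nd 219 (.lf 219 1 2) (.lf 192 1 2) (.lf 202 1 2))) (.nd 221 (.lf 199 1 2) (.lf 221 1 2) (.nd 203 (.lf 177 1 2) (.lf 203 1 2) (.lf 183 1 2))) (.nd 233 (.lf 233 1 2) (.nd 210 (.nd 209 (.nd 189 (.lf 175 1 2) (.lf 189 1 2) (.lf 168 1 2)) (.lf 209 1 2) (.lf 205 1 2)) (.lf 189 1 2) (.lf 210 1 2)) (.nd 229 (.lf 229 1 2) (.lf 226 1 2) (.nd 220 (.lf 217 1 2) (.nd 220 (.lf 196 1 2) (.lf 220 1 2) (.lf 209 1 2)) (.lf 194 1 2))))) (.nd 228 (.lf 204 1 2) (.lf 228 1 2) (.nd 183 (.nd 149 (.lf 149 1 2) (.lf 119 1 2) (.lf 140 1 2)) (.nd 183 (.lf 182 1 2) (.nd 148 (.lf 148 1 2) (.lf 143 1 2) (.nd 148 (.lf 142 1 2)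 (.lf 119 1 2) (.lf 148 1 2))) (.lf 183 1 2)) (.lf 176 1 2))) (.lf 218 1 2))

def t15_151 : Tr := (.nd 177 (.nd 177 (.nd 158 (.nd 154 (.lf 140 1 3) (.lf 154 1 3) (.lf 139 1 3)) (.nd 158 (.lf 144 1 3) (.lf 158 1 3) (.lf 145 1 3)) (.nd 144 (.lf 131 1 3) (.lf 126 1 3) (.lf 144 1 3))) (.nd 168 (.nd 146 (.lf 136 1 3) (.lf 113 1 3) (.lf 146 1 3)) (.nd 160 (.lf 144 1 3) (.lf 160 1 3) (.nd 114 (.lf 109 1 3) (.lf 85 1 3) (.lf 114 1 3))) (.nd 168 (.nd 163 (.lf 163 1 3) (.lf 155 1 3) (.lf 137 1 3)) (.lf 162 1 3) (.nd 168 (.lf 150 1 3) (.lf 145 1 3) (.lf 168 1 3)))) (.nd 177 (.nd 177 (.nd 177 (.lf 177 1 3) (.nd 176 (.lf 162 1 3) (.lf 176 1 3) (.lf 171 1 3)) (.lf 176 1 3)) (.nd 175 (.nd 175 (.lf 165 1 3) (.lf 166 1 3) (.lf 175 1 3)) (.lf 160 1 3) (.lf 165 1 3))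 (.nd 177 (.lf 156 1 3) (.lf 177 1 3) (.lf 157 1 3))) (.nd 156 (.lf 119 1 3) (.lf 156 1 3) (.nd 147 (.nd 147 (.nd 147 (.lf 142 1 3) (.lf 125 1 3) (.lf 147 1 3)) (.lf 143 1 3) (.lf 147 1 3)) (.lf 121 1 3) (.lf 118 1 3))) (.nd 155 (.nd 141 (.nd 141 (.lf 130 1 3) (.lf 115 1 3) (.lf 141 1 3)) (.lf 90 1 3) (.lf 135 1 3)) (.lf 155 1 3) (.lf 139 1 3)))) (.nd 148 (.nd 148 (.lf 139 1 3) (.nd 148 (.lf 124 1 3) (.lf 129 1 3) (.lf 148 1 3)) (.lf 143 1 3)) (.nd 148 (.nd 117 (.lf 117 1 3) (.lf 91 1 3) (.lf 86 1 3)) (.lf 91 1 3) (.nd 148 (.lf 114 1 3) (.lf 136 1 3) (.nd 148 (.lf 127 1 3) (.lf 124 1 3) (.lf 148 1 3)))) (.nd 119 (.lf 117 1 3) (.lf 119 1 3) (.nd 110 (.lf 90 1 3) (.lf 81 1 3) (.lf 110 1 3)))) (.nd 171 (.nd 149 (.lf 117 1 3) (.nd 122 (.lf 91 1 3) (.lf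 94 1 3) (.lf 122 1 3)) (.nd 149 (.lf 149 1 3) (.lf 146 1 3) (.lf 138 1 3))) (.nd 171 (.nd 145 (.nd 145 (.lf 145 1 3) (.lf 128 1 3) (.lf 137 1 3)) (.lf 116 1 3) (.nd 140 (.lf 88 1 3) (.lf 118 1 3) (.lf 140 1 3))) (.nd 171 (.nd 171 (.lf 161 1 3) (.lf 169 1 3) (.nd 171 (.nd 171 (.lf 171 1 3) (.lf 149 1 3) (.lf 144 1 3)) (.lf 147 1 3) (.lf 155 1 3))) (.nd 141 (.lf 141 1 3) (.lf 138 1 3) (.lf 133 1 3)) (.lf 151 1 3)) (.nd 160 (.lf 145 1 3) (.lf 132 1 3) (.nd 160 (.lf 145 1 3) (.lf 160 1 3) (.lf 138 1 3)))) (.lf 120 1 3)))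

def t15_154 : Tr := (.nd 201 (.nd 177 (.lf 177 1 1) (.nd 177 (.lf 175 1 3) (.lf 172 1 1) (.nd 177 (.nd 173 (.lf 157 1 3) (.lf 173 1 1) (.lf 167 1 3)) (.lf 177 1 1) (.nd 176 (.lf 176 1 3) (.lf 153 1 1) (.lf 159 1 3)))) (.nd 148 (.nd 138 (.lf 92 1 1) (.lf 86 1 1) (.lf 138 1 1)) (.lf 93 1 1) (.lf 148 1 1))) (.nd 156 (.nd 122 (.lf 113 1 1) (.lf 92 1 1) (.lf 122 1 1)) (.nd 149 (.lf 117 1 1) (.lf 122 1 1) (.nd 149 (.lf 146 1 1) (.lf 146 1 3) (.lf 149 1 3))) (.nd 156 (.nd 121 (.lf 116 1 1) (.nd 121 (.lf 121 1 3) (.lf 88 1 1) (.lf 118 1 1)) (.nd 121 (.lf 115 1 3) (.lf 121 1 3) (.lf 92 1 3))) (.nd 155 (.lf 152 1 3) (.nd 155 (.nd 148 (.lf 140 1 1) (.nd 148 (.lf 148 1 1) (.lf 146 1 3) (.lf 147 1 3)) (.lf 141 1 1)) (.nd 155 (.lf 155 1 3) (.lf 140 1 1) (.lf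 146 1 1)) (.lf 152 1 1)) (.lf 149 1 3)) (.nd 156 (.lf 141 1 1) (.nd 156 (.lf 149 1 1) (.lf 148 1 1) (.nd 156 (.nd 148 (.lf 148 1 1) (.lf 128 1 3) (.lf 144 1 3)) (.lf 156 1 1) (.lf 156 1 1))) (.nd 148 (.nd 148 (.lf 148 1 1) (.lf 141 1 1) (.lf 127 1 1)) (.lf 121 1 1) (.lf 118 1 1))))) (.nd 201 (.nd 191 (.lf 191 1 1) (.lf 175 1 1) (.nd 157 (.lf 152 1 1) (.nd 157 (.lf 147 1 1) (.nd 157 (.lf 110 1 1) (.lf 157 1 1) (.lf 143 2 3)) (.lf 145 2 3)) (.lf 133 1 1))) (.nd 201 (.nd 183 (.nd 168 (.nd 161 (.lf 161 1 1) (.lf 104 1 1) (.nd 129 (.lf 99 1 1) (.lf 104 1 1) (.nd 129 (.lf 128 1 1) (.nd 129 (.lf 129 2 3) (.lf 115 1 3) (.lf 116 1 3)) (.lf 128 1 1)))) (.lf 168 1 1) (.lf 165 1 1)) (.nd 183 (.lf 183 1 1) (.nd 183 (.lf 182 1 1) (.lf 175 2 3) (.lf 183 1 1)) (.nd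 179 (.lf 159 1 1) (.lf 172 1 3) (.lf 179 1 1))) (.lf 182 1 1)) (.nd 190 (.nd 190 (.lf 185 1 1) (.lf 184 1 1) (.nd 190 (.lf 190 1 1) (.lf 172 1 3) (.lf 173 1 1))) (.lf 162 1 1) (.lf 186 1 1)) (.nd 201 (.nd 197 (.lf 186 1 1) (.nd 197 (.lf 188 1 1) (.nd 197 (.lf 197 1 1) (.lf 184 1 1) (.lf 187 1 1)) (.lf 179 1 1)) (.lf 180 1 1)) (.nd 201 (.nd 201 (.nd 201 (.lf 191 1 1) (.lf 201 1 1) (.nd 191 (.lf 167 1 1) (.lf 191 2 3) (.lf 189 1 1))) (.lf 190 1 1) (.lf 184 1 1)) (.nd 178 (.lf 175 1 3) (.lf 163 1 1) (.nd 178 (.lf 178 2 3) (.lf 177 1 3) (.lf 172 1 3))) (.nd 185 (.nd 175 (.lf 172 2 3) (.lf 175 1 1) (.lf 172 1 1)) (.lf 173 1 1) (.lf 185 1 1))) (.lf 189 1 1))) (.nd 188 (.nd 188 (.lf 179 1 1) (.lf 180 1 1) (.nd 188 (.lf 176 2 3) (.lf 176 2 3) (.lf 188 1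 1))) (.lf 171 1 1) (.nd 170 (.lf 170 1 1) (.nd 139 (.lf 118 1 1) (.lf 122 1 1) (.lf 139 1 1)) (.lf 141 1 1)))))

def t15_157 : Tr := (.nd 118 (.nd 118 (.nd 118 (.lf 102 1 1) (.nd 94 (.nd 66 (.lf 37 1 1) (.lf 66 1 1) (.lf 61 1 1)) (.lf 94 1 1) (.lf 94 1 1)) (.nd 118 (.nd 112 (.lf 112 1 1) (.nd 103 (.lf 103 1 1) (.lf 97 2 1) (.lf 92 2 1)) (.lf 95 2 1)) (.nd 112 (.lf 102 1 1) (.lf 111 2 1) (.lf 112 1 1)) (.nd 118 (.nd 112 (.lf 98 1 1) (.nd 106 (.lf 100 1 1) (.lf 106 2 1) (.lf 106 1 1)) (.lf 112 1 1)) (.nd 118 (.lf 114 1 1) (.lf 118 2 1) (.lf 116 1 1)) (.lf 118 1 1)))) (.nd 111 (.nd 111 (.lf 89 1 1) (.lf 61 1 1) (.nd 111 (.nd 111 (.lf 82 1 1) (.nd 111 (.lf 108 2 1) (.lf 111 1 1) (.lf 99 1 1)) (.lf 89 1 1)) (.lf 83 1 1) (.lf 98 1 1))) (.nd 91 (.nd 91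 (.lf 70 1 1) (.nd 78 (.lf 78 1 1) (.nd 74 (.lf 56 2 1) (.lf 48 2 1) (.lf 74 1 1)) (.lf 58 1 1)) (.nd 91 (.lf 91 1 1) (.lf 68 1 1) (.lf 67 1 1))) (.lf 60 1 1) (.lf 81 1 1)) (.nd 104 (.lf 101 1 1) (.nd 104 (.lf 104 2 1) (.lf 98 1 1) (.lf 90 1 1)) (.lf 104 1 1))) (.lf 107 1 1)) (.nd 117 (.nd 95 (.nd 67 (.nd 38 (.lf 8 1 1) (.lf 38 1 1) (.lf 7 1 1)) (.lf 67 1 1) (.lf 38 1 1)) (.nd 64 (.nd 31 (.lf 2 1 1) (.lf 0 1 1) (.lf 31 1 1)) (.nd 34 (.lf 29 1 1) (.lf 34 1 1) (.lf 0 1 1)) (.lf 64 1 1)) (.lf 95 1 1)) (.nd 65 (.lf 60 1 1) (.lf 65 1 1) (.lf 36 1 1)) (.nd 117 (.nd 117 (.lf 117 1 1) (.lf 93 1 1) (.lf 86 1 1)) (.lf 87 1 1) (.nd 102 (.lf 78 1 1) (.lf 102 1 1) (.lf 79 1 1)))) (.nd 95 (.nd 64 (.nd 35 (.lf 28 1 1) (.lf 33 1 1) (.nd 35 (.lf 29 1 1) (.lf 30 1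 1) (.nd 35 (.lf 30 1 1) (.nd 35 (.lf 33 1 1) (.lf 34 1 1) (.nd 35 (.nd 24 (.lf 24 2 1) (.lf 17 1 1) (.lf 19 1 1)) (.lf 35 1 1) (.lf 33 1 1))) (.lf 25 1 1)))) (.nd 64 (.lf 55 1 1) (.nd 64 (.lf 57 1 1) (.lf 41 1 1) (.lf 64 1 1)) (.lf 60 1 1)) (.nd 61 (.lf 34 1 1) (.lf 7 1 1) (.nd 61 (.lf 30 1 1) (.lf 52 1 1) (.nd 61 (.nd 61 (.lf 61 2 1) (.lf 50 1 1) (.lf 56 1 1)) (.lf 43 1 1) (.lf 40 1 1))))) (.nd 87 (.lf 36 1 1) (.lf 64 1 1) (.nd 87 (.lf 61 1 1) (.lf 87 1 1) (.lf 76 1 1))) (.nd 95 (.nd 74 (.lf 72 1 1) (.lf 74 1 1) (.lf 63 1 1)) (.lf 91 1 1) (.lf 95 1 1))))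

def t15_158 : Tr := (.nd 301 (.nd 291 (.nd 291 (.lf 274 1 2) (.lf 291 2 4) (.lf 279 1 2)) (.lf 277 1 2) (.nd 273 (.lf 273 2 4) (.nd 260 (.lf 260 2 4) (.nd 251 (.lf 246 1 4) (.nd 199 (.nd 199 (.lf 187 2 4) (.lf 199 1 4) (.lf 199 1 4)) (.lf 199 1 4) (.lf 199 1 4)) (.lf 251 1 4)) (.lf 248 1 4)) (.lf 250 2 4))) (.nd 298 (.nd 298 (.lf 274 2 4) (.lf 298 1 2) (.nd 262 (.lf 225 2 4) (.nd 262 (.nd 251 (.lf 247 1 4) (.lf 244 1 4) (.lf 251 2 4)) (.lf 247 2 4) (.lf 262 2 4)) (.nd 253 (.nd 253 (.lf 253 2 4) (.lf 253 2 4) (.nd 213 (.lf 213 1 2) (.lf 184 1 2) (.nd 191 (.nd 191 (.lf 191 1 2) (.lf 182 1 2) (.lf 187 2 4)) (.lf 182 1 2) (.lf 182 1 2)))) (.lf 227 2 4) (.nd 224 (.lf 194 2 4) (.nd 224 (.lf 199 2 4) (.lf 202 2 4) (.lf 224 2 4)) (.lf 191 2 4))))) (.lf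 291 1 2) (.nd 296 (.lf 262 1 2) (.lf 296 1 2) (.lf 248 1 2))) (.nd 301 (.nd 301 (.lf 282 1 2) (.lf 301 1 4) (.lf 293 1 4)) (.nd 293 (.lf 280 1 4) (.nd 253 (.nd 224 (.lf 216 1 4) (.lf 196 1 4) (.lf 224 1 4)) (.lf 246 1 4) (.lf 253 1 4)) (.nd 293 (.lf 293 1 4) (.lf 281 1 2) (.lf 278 1 4))) (.lf 284 1 4)))

def t15_163 : Tr := (.nd 159 (.nd 137 (.lf 136 1 1) (.nd 137 (.nd 123 (.lf 71 1 1) (.lf 123 1 1) (.nd 118 (.lf 118 1 1) (.lf 73 1 1) (.nd 70 (.lf 70 1 1) (.lf 37 1 1) (.lf 40 1 1)))) (.lf 122 1 1) (.lf 137 1 1)) (.lf 118 1 1)) (.nd 159 (.nd 145 (.nd 122 (.nd 89 (.lf 44 1 1) (.lf 75 1 1) (.lf 89 1 1)) (.lf 122 1 1) (.lf 98 1 1)) (.nd 145 (.nd 129 (.nd 120 (.lf 97 1 1) (.lf 84 1 1) (.lf 120 1 1)) (.lf 117 1 1) (.lf 129 1 1)) (.lf 132 1 1) (.nd 145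 (.lf 145 1 1) (.lf 129 1 1) (.lf 130 1 1))) (.lf 113 1 1)) (.nd 154 (.lf 154 1 1) (.lf 102 1 1) (.lf 132 1 1)) (.nd 159 (.nd 159 (.lf 156 1 1) (.nd 159 (.lf 156 1 1) (.nd 159 (.lf 155 1 1) (.lf 159 1 1) (.nd 159 (.lf 159 1 1) (.lf 150 1 1) (.lf 159 1 1))) (.nd 159 (.lf 141 1 1) (.lf 159 1 1) (.lf 159 1 1))) (.nd 159 (.lf 145 1 1) (.lf 147 1 1) (.nd 159 (.lf 131 1 1) (.lf 117 1 1) (.lf 159 1 1)))) (.lf 156 1 1) (.nd 156 (.nd 156 (.lf 154 1 1) (.nd 156 (.lf 155 1 1) (.lf 154 1 1) (.lf 156 1 3)) (.lf 156 1 1)) (.lf 145 1 1) (.lf 135 1 1)))) (.nd 159 (.nd 148 (.lf 148 1 1) (.nd 143 (.lf 99 1 1) (.lf 96 1 1) (.nd 143 (.lf 125 1 1) (.lf 143 1 1) (.lf 125 1 1))) (.lf 97 1 1)) (.nd 140 (.nd 116 (.lf 116 1 1) (.nd 68 (.lf 68 1 1) (.lf 61 1 1) (.lf 39 1 1))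 (.lf 98 1 1)) (.nd 140 (.nd 140 (.lf 133 1 1) (.nd 140 (.lf 116 1 3) (.lf 129 1 1) (.nd 140 (.lf 129 1 1) (.lf 140 1 3) (.lf 135 1 1))) (.lf 125 1 1)) (.lf 133 1 1) (.lf 126 1 1)) (.lf 109 1 1)) (.nd 159 (.nd 159 (.lf 154 1 1) (.lf 153 1 1) (.nd 159 (.nd 159 (.lf 154 1 1) (.lf 149 1 1) (.nd 159 (.lf 156 1 1) (.lf 153 1 1) (.lf 159 1 1))) (.lf 156 1 1) (.lf 137 1 1))) (.nd 151 (.nd 151 (.lf 141 1 1) (.lf 140 1 1) (.nd 151 (.lf 151 1 1) (.lf 129 1 1) (.lf 128 1 1))) (.lf 124 1 1) (.nd 131 (.lf 119 1 1) (.lf 131 1 1) (.lf 108 1 1))) (.nd 150 (.lf 129 1 1) (.lf 132 1 1) (.nd 150 (.nd 150 (.lf 133 1 1) (.lf 134 1 1) (.lf 150 1 1)) (.nd 140 (.lf 108 1 1) (.lf 134 1 1) (.nd 140 (.lf 129 1 1) (.lf 124 1 1) (.nd 140 (.lf 140 1 1) (.lf 129 1 1) (.nd 126 (.lf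 120 1 3) (.lf 126 1 1) (.lf 123 1 3))))) (.lf 131 1 1))))))

def t15_164 : Tr := (.nd 240 (.nd 226 (.lf 206 1 2) (.nd 226 (.lf 215 1 2) (.nd 222 (.lf 222 1 2) (.nd 207 (.lf 207 1 2) (.lf 168 1 2) (.nd 176 (.lf 176 1 2) (.lf 159 1 2) (.nd 143 (.lf 129 1 2) (.lf 143 1 2) (.nd 98 (.lf 68 1 2) (.lf 98 1 2) (.lf 89 1 2))))) (.lf 190 1 2)) (.lf 226 1 2)) (.lf 207 1 2)) (.nd 221 (.nd 221 (.lf 221 1 2) (.nd 205 (.nd 194 (.nd 158 (.lf 158 1 2) (.nd 145 (.lf 145 1 2) (.lf 117 1 2) (.nd 114 (.lf 98 1 2) (.lf 98 1 2) (.lf 114 1 2))) (.lf 140 1 2)) (.lf 143 1 2) (.lf 194 1 2)) (.lf 185 1 2) (.lf 205 1 2)) (.lf 216 1 2)) (.lf 200 1 2) (.lf 203 1 2)) (.lf 240 1 2))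

def t15_166 : Tr := (.nd 174 (.nd 126 (.nd 96 (.lf 96 1 1) (.nd 44 (.lf 44 1 1) (.lf 39 1 1) (.lf 15 1 1)) (.lf 91 1 1)) (.nd 126 (.nd 104 (.lf 83 1 1) (.lf 71 1 1) (.lf 104 1 1)) (.lf 126 1 1) (.lf 101 1 1)) (.nd 93 (.nd 64 (.lf 15 1 1) (.lf 64 1 1) (.lf 41 1 1)) (.nd 56 (.nd 40 (.lf 12 1 1) (.lf 18 1 1) (.lf 40 1 1)) (.nd 43 (.lf 29 1 1) (.lf 43 1 1) (.lf 1 1 1)) (.lf 56 1 1)) (.nd 93 (.lf 80 1 1) (.nd 93 (.lf 80 1 1) (.lf 72 1 1) (.nd 93 (.lf 73 1 1) (.lf 93 1 1) (.lf 76 1 1))) (.lf 73 1 1)))) (.nd 174 (.nd 174 (.lf 146 1 1) (.nd 149 (.nd 149 (.lf 135 1 1) (.lf 121 1 1) (.lf 149 1 1)) (.lf 124 1 1) (.lf 127 1 1)) (.nd 174 (.nd 151 (.lf 145 1 1) (.lf 151 1 1) (.lf 141 1 1)) (.nd 148 (.lf 148 1 1) (.lf 146 1 1) (.lf 146 1 1)) (.nd 174 (.nd 174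 (.lf 144 1 1) (.lf 174 1 1) (.lf 152 1 1)) (.lf 173 1 1) (.nd 157 (.nd 157 (.lf 142 1 1) (.lf 139 1 1) (.lf 157 1 1)) (.lf 157 1 1) (.lf 155 1 1))))) (.nd 155 (.lf 146 1 1) (.lf 143 1 1) (.nd 155 (.lf 119 1 1) (.nd 155 (.nd 155 (.lf 133 1 1) (.lf 132 1 1) (.nd 155 (.lf 145 1 1) (.lf 139 1 1) (.nd 155 (.lf 155 1 1) (.lf 140 1 1) (.lf 155 1 1)))) (.lf 141 1 1) (.lf 141 1 1)) (.lf 138 1 1))) (.nd 155 (.nd 155 (.nd 155 (.lf 146 1 1) (.lf 152 1 1) (.nd 155 (.lf 141 1 1) (.lf 155 1 1) (.lf 155 1 1))) (.lf 130 1 1) (.lf 131 1 1)) (.nd 150 (.lf 142 1 1) (.nd 150 (.lf 146 1 1) (.nd 150 (.lf 150 1 1) (.lf 149 1 1) (.lf 146 1 1)) (.lf 137 1 1)) (.lf 144 1 1)) (.lf 133 1 1))) (.nd 129 (.nd 100 (.lf 70 1 1) (.lf 100 1 1) (.nd 69 (.lf 69 1 1) (.lf 40 1 1) (.lf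 38 1 1))) (.nd 129 (.nd 113 (.lf 113 1 1) (.lf 103 1 1) (.nd 112 (.lf 111 1 1) (.lf 112 1 1) (.lf 69 1 1))) (.lf 129 1 1) (.lf 123 1 1)) (.nd 100 (.lf 77 1 1) (.nd 74 (.nd 43 (.lf 12 1 1) (.lf 43 1 1) (.lf 14 1 1)) (.lf 44 1 1) (.nd 74 (.lf 52 1 1) (.lf 74 1 1) (.lf 59 1 1))) (.lf 100 1 1))))

def t15_167 : Tr := (.nd 152 (.nd 95 (.nd 65 (.lf 56 1 2) (.nd 44 (.lf 44 1 2) (.lf 27 1 2) (.lf 33 1 2)) (.nd 65 (.lf 60 1 2) (.lf 52 1 2) (.nd 65 (.lf 51 1 2) (.lf 65 1 2) (.lf 52 1 2)))) (.nd 86 (.nd 86 (.nd 86 (.lf 86 1 2) (.lf 60 1 2) (.lf 62 1 2)) (.lf 71 1 2) (.nd 56 (.lf 32 1 2) (.lf 56 1 2) (.lf 54 1 2))) (.lf 34 1 2) (.nd 63 (.nd 63 (.lf 63 1 2) (.nd 62 (.lf 40 1 2) (.lf 57 1 2) (.nd 62 (.lf 62 1 2) (.lf 38 1 2) (.lf 37 1 2))) (.lf 53 1 2)) (.lf 33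 1 2) (.lf 38 1 2))) (.nd 95 (.lf 95 1 2) (.nd 86 (.lf 65 1 2) (.lf 86 1 2) (.lf 77 1 2)) (.nd 86 (.lf 86 1 2) (.nd 60 (.lf 29 1 2) (.lf 60 1 2) (.lf 52 1 2)) (.lf 82 1 2)))) (.nd 152 (.nd 118 (.nd 118 (.lf 118 1 2) (.lf 110 1 2) (.nd 101 (.lf 96 1 2) (.lf 84 1 2) (.nd 101 (.lf 83 1 2) (.lf 101 1 2) (.lf 87 1 2)))) (.nd 113 (.lf 113 1 2) (.nd 91 (.lf 63 1 2) (.lf 60 1 2) (.lf 91 1 2)) (.lf 61 1 2)) (.lf 89 1 2)) (.lf 140 1 2) (.nd 152 (.lf 131 1 2) (.lf 128 1 2) (.nd 152 (.lf 138 1 2) (.nd 144 (.nd 144 (.lf 141 1 2) (.nd 125 (.lf 125 1 2) (.lf 101 1 2) (.lf 87 1 2)) (.lf 144 1 2)) (.lf 133 1 2) (.lf 124 1 2)) (.lf 152 1 2)))) (.nd 143 (.nd 90 (.nd 59 (.lf 30 1 2) (.lf 28 1 2) (.lf 59 1 2)) (.lf 60 1 2) (.lf 90 1 2)) (.nd 143 (.lf 119 1 2) (.nd 143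 (.lf 114 1 2) (.nd 143 (.lf 142 1 2) (.lf 143 1 2) (.nd 134 (.lf 110 4 4) (.lf 134 1 2) (.lf 117 1 2))) (.lf 117 1 2)) (.nd 126 (.nd 126 (.nd 114 (.lf 114 1 2) (.lf 112 1 2) (.lf 107 4 4)) (.nd 126 (.lf 106 4 4) (.lf 109 1 2) (.lf 126 1 2)) (.nd 126 (.lf 107 1 2) (.lf 85 1 2) (.lf 126 1 2))) (.lf 119 1 2) (.lf 111 1 2))) (.lf 95 1 2)))

def t15_169 : Tr := (.nd 231 (.nd 209 (.nd 195 (.lf 175 1 3) (.lf 176 1 3) (.nd 195 (.lf 195 1 3) (.lf 191 1 3) (.lf 182 1 3))) (.nd 209 (.nd 199 (.lf 199 1 3) (.lf 185 1 3) (.lf 189 1 3)) (.nd 209 (.nd 206 (.lf 206 1 3) (.lf 199 1 3) (.lf 198 1 3)) (.nd 209 (.lf 203 1 3) (.nd 209 (.nd 209 (.lf 199 1 3) (.lf 194 1 3) (.lf 209 1 3)) (.lf 207 1 3) (.nd 208 (.nd 208 (.lf 202 1 3) (.lf 205 1 3) (.lf 208 1 3)) (.lf 200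 1 3) (.lf 207 1 3))) (.lf 207 1 3)) (.nd 207 (.lf 194 1 3) (.lf 207 1 3) (.lf 194 1 3))) (.lf 195 1 3)) (.nd 198 (.nd 162 (.nd 150 (.lf 150 1 3) (.lf 98 1 3) (.nd 145 (.lf 100 1 3) (.lf 145 1 3) (.lf 97 1 3))) (.lf 162 1 3) (.lf 149 1 3)) (.nd 198 (.lf 188 1 3) (.lf 178 1 3) (.lf 198 1 3)) (.lf 175 1 3))) (.nd 216 (.nd 201 (.nd 201 (.nd 180 (.lf 171 1 3) (.nd 172 (.lf 120 1 3) (.lf 150 1 3) (.nd 172 (.lf 142 1 3) (.nd 172 (.lf 146 1 3) (.lf 148 1 3) (.lf 172 1 3)) (.lf 153 1 3))) (.nd 180 (.nd 180 (.lf 157 1 3) (.lf 158 1 3) (.lf 180 1 3)) (.lf 176 1 3) (.nd 180 (.lf 180 1 3) (.lf 180 1 3) (.lf 174 1 3)))) (.lf 201 1 3) (.nd 180 (.lf 180 1 3) (.nd 170 (.lf 153 1 3) (.lf 132 1 3) (.lf 170 1 3)) (.lf 165 1 3))) (.nd 166 (.lf 157 1 3) (.lf 121 1 3)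 (.nd 166 (.lf 146 1 3) (.nd 161 (.lf 161 1 3) (.lf 133 1 3) (.lf 146 1 3)) (.lf 166 1 3))) (.nd 170 (.lf 153 1 3) (.lf 140 1 3) (.lf 170 1 3))) (.nd 196 (.lf 150 1 3) (.nd 180 (.lf 180 1 3) (.lf 149 1 3) (.nd 152 (.lf 123 1 3) (.lf 152 1 3) (.lf 123 1 3))) (.nd 196 (.lf 196 1 3) (.lf 183 1 3) (.lf 172 1 3))) (.nd 216 (.nd 209 (.lf 187 1 3) (.lf 181 1 3) (.nd 209 (.lf 209 1 3) (.nd 207 (.lf 197 1 3) (.lf 207 1 3) (.lf 187 1 3)) (.lf 207 1 3))) (.nd 210 (.lf 196 1 3) (.lf 191 1 3) (.nd 210 (.lf 204 1 3) (.lf 210 1 3) (.lf 209 1 3))) (.nd 216 (.lf 210 1 3) (.nd 216 (.nd 208 (.nd 208 (.lf 187 1 3) (.lf 208 1 3) (.lf 207 1 3)) (.lf 192 1 3) (.lf 207 1 3)) (.lf 194 1 3) (.lf 216 1 3)) (.lf 210 1 3)))) (.nd 231 (.nd 216 (.nd 216 (.lf 192 1 3) (.lf 216 1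 3) (.lf 183 1 3)) (.lf 193 1 3) (.lf 216 1 3)) (.nd 208 (.nd 207 (.lf 206 1 3) (.nd 204 (.lf 189 1 3) (.lf 191 1 3) (.nd 204 (.lf 183 1 3) (.lf 184 1 3) (.lf 204 1 3))) (.lf 207 1 3)) (.nd 190 (.nd 189 (.nd 189 (.lf 130 1 3) (.lf 189 1 3) (.lf 135 1 3)) (.lf 135 1 3) (.lf 189 1 3)) (.nd 190 (.lf 168 1 3) (.lf 161 1 3) (.nd 190 (.lf 185 1 3) (.lf 190 1 3) (.lf 154 1 3))) (.lf 188 1 3)) (.nd 208 (.nd 174 (.lf 174 1 3) (.lf 161 1 3) (.nd 166 (.lf 138 1 3) (.lf 166 1 3) (.lf 135 1 3))) (.nd 208 (.lf 208 1 3) (.lf 191 1 3) (.lf 189 1 3)) (.lf 164 1 3))) (.nd 231 (.nd 209 (.lf 198 1 3) (.nd 208 (.lf 205 1 3) (.lf 204 1 3) (.nd 208 (.nd 208 (.nd 208 (.lf 208 1 3) (.lf 196 1 3) (.lf 196 1 3)) (.lf 167 1 3) (.lf 170 1 3)) (.lf 205 1 3) (.lf 168 1 3))) (.lf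 209 1 3)) (.nd 231 (.lf 218 1 3) (.nd 231 (.lf 203 1 3) (.lf 209 1 3) (.nd 231 (.nd 231 (.nd 231 (.lf 229 1 3) (.lf 231 1 3) (.lf 221 1 3)) (.lf 222 1 3) (.nd 229 (.lf 209 1 3) (.lf 229 1 3) (.lf 223 1 3))) (.lf 214 1 3) (.lf 220 1 3))) (.nd 212 (.lf 209 1 3) (.lf 212 1 3) (.lf 204 1 3))) (.lf 212 1 3))))

def t15_170 : Tr := (.nd 348 (.lf 348 1 4) (.nd 329 (.lf 329 3 6) (.lf 324 3 6) (.nd 277 (.lf 277 3 6) (.lf 248 3 6) (.nd 272 (.lf 220 3 6) (.nd 248 (.lf 222 3 6) (.lf 248 3 6) (.nd 219 (.nd 189 (.lf 177 3 6) (.nd 189 (.lf 177 3 6) (.lf 189 3 6) (.lf 177 3 6)) (.lf 184 3 6)) (.lf 186 3 6) (.lf 219 3 6))) (.lf 272 3 6)))) (.lf 328 3 6))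

def t15_172 : Tr := (.nd 129 (.nd 118 (.nd 118 (.nd 108 (.lf 61 4 3) (.nd 98 (.lf 98 4 3) (.nd 92 (.lf 89 4 3) (.lf 87 4 3) (.lf 92 1 1)) (.lf 83 4 3)) (.lf 108 4 3)) (.nd 98 (.nd 81 (.lf 60 4 3) (.lf 57 4 3) (.lf 81 4 3)) (.lf 83 4 3) (.nd 98 (.nd 88 (.lf 76 4 3) (.lf 79 4 3) (.nd 88 (.lf 76 4 3) (.nd 88 (.lf 86 1 1) (.lf 87 4 3) (.lf 88 4 3)) (.lf 80 4 3))) (.nd 98 (.lf 89 4 3) (.nd 88 (.lf 74 4 3) (.nd 73 (.lf 64 4 3) (.lf 60 1 1) (.lf 73 4 3)) (.lf 88 1 1)) (.nd 98 (.lf 93 4 3) (.lf 98 1 1) (.lf 90 4 3))) (.nd 88 (.lf 82 4 3) (.nd 88 (.lf 81 1 1) (.nd 88 (.lf 68 1 1) (.nd 88 (.lf 70 1 1) (.lf 88 4 3) (.lf 67 1 1)) (.lf 62 4 3)) (.lf 81 1 1)) (.lf 77 4 3)))) (.nd 118 (.nd 115 (.lf 96 4 3) (.lf 115 1 1) (.lf 113 4 3)) (.nd 118 (.nd 116 (.nd 116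 (.lf 93 4 3) (.lf 102 1 1) (.nd 116 (.lf 112 1 1) (.lf 101 1 1) (.lf 116 4 3))) (.lf 101 4 3) (.lf 111 1 1)) (.lf 118 1 1) (.lf 116 1 1)) (.lf 107 1 1))) (.nd 95 (.nd 95 (.nd 95 (.nd 89 (.lf 89 1 1) (.lf 87 4 3) (.lf 70 4 3)) (.nd 95 (.lf 84 1 1) (.nd 95 (.lf 75 4 3) (.lf 95 1 1) (.lf 94 1 1)) (.lf 92 1 1)) (.lf 81 1 1)) (.lf 87 4 3) (.lf 86 4 3)) (.nd 77 (.lf 77 1 1) (.lf 63 1 1) (.nd 48 (.lf 48 1 1) (.nd 17 (.lf 0 1 1) (.lf 0 1 1) (.lf 17 1 1)) (.lf 18 1 1))) (.lf 74 1 1)) (.nd 82 (.nd 70 (.nd 65 (.lf 65 1 1) (.lf 17 1 1) (.lf 20 1 1)) (.lf 70 1 1) (.lf 18 1 1)) (.lf 82 1 1) (.nd 69 (.lf 38 1 1) (.lf 69 1 1) (.lf 40 1 1)))) (.nd 115 (.nd 95 (.lf 95 1 1) (.lf 66 1 1) (.nd 64 (.lf 64 1 1) (.lf 40 1 1) (.lf 43 1 1))) (.nd 96 (.lf 96 1 1) (.lf 44 1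 1) (.nd 91 (.lf 91 1 1) (.lf 43 1 1) (.lf 46 1 1))) (.nd 115 (.lf 102 1 1) (.nd 115 (.nd 113 (.nd 113 (.lf 108 1 1) (.nd 113 (.lf 109 1 1) (.nd 113 (.lf 107 4 3) (.lf 113 1 1) (.lf 106 4 3)) (.lf 109 1 1)) (.lf 104 1 1)) (.lf 84 1 1) (.lf 110 1 1)) (.nd 115 (.nd 115 (.lf 108 1 1) (.lf 104 1 1) (.nd 115 (.lf 105 1 1) (.nd 115 (.lf 104 1 1) (.lf 101 4 3) (.lf 115 1 1)) (.lf 104 1 1))) (.lf 102 1 1) (.lf 112 1 1)) (.lf 106 1 1)) (.nd 111 (.lf 96 1 1) (.lf 111 1 1) (.lf 79 1 1)))) (.nd 129 (.nd 129 (.nd 127 (.lf 114 1 1) (.nd 114 (.lf 113 4 3) (.lf 114 4 3) (.lf 102 1 1)) (.nd 127 (.lf 118 1 1) (.nd 127 (.lf 121 1 1) (.lf 127 1 1) (.lf 105 4 3)) (.lf 119 1 1))) (.nd 126 (.nd 119 (.lf 98 1 1) (.nd 119 (.lf 100 1 1) (.lf 119 4 3) (.lf 94 1 1)) (.lf 100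 4 3)) (.nd 118 (.lf 88 4 3) (.lf 118 4 3) (.nd 116 (.nd 112 (.lf 112 4 3) (.lf 106 1 1) (.lf 109 4 3)) (.lf 116 4 3) (.lf 108 4 3))) (.nd 126 (.lf 118 1 1) (.nd 126 (.nd 125 (.lf 114 1 1) (.nd 125 (.nd 123 (.lf 109 1 1) (.lf 123 4 3) (.lf 114 1 1)) (.nd 125 (.lf 119 4 3) (.lf 125 1 1) (.lf 123 4 3)) (.lf 125 1 1)) (.lf 98 1 1)) (.nd 126 (.lf 114 3 3) (.lf 126 1 1) (.lf 115 3 3)) (.lf 125 1 1)) (.lf 109 1 1))) (.nd 129 (.nd 127 (.nd 127 (.lf 116 4 3) (.nd 127 (.lf 121 1 1) (.lf 119 1 1) (.nd 127 (.lf 126 1 1) (.nd 123 (.lf 121 4 3) (.lf 123 1 1) (.lf 119 1 1)) (.nd 127 (.lf 95 1 1) (.lf 127 4 3) (.lf 125 1 1)))) (.lf 102 4 3)) (.nd 125 (.lf 92 1 1) (.nd 125 (.lf 121 1 1) (.lf 125 4 3) (.lf 121 1 1)) (.lf 95 1 1)) (.lf 93 1 1)) (.nd 123 (.lf 98 1 1)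 (.lf 112 1 1) (.nd 123 (.lf 122 1 1) (.nd 122 (.lf 122 4 3) (.nd 122 (.lf 122 1 1) (.lf 98 4 3) (.lf 122 4 3)) (.lf 121 1 1)) (.nd 123 (.lf 114 1 1) (.nd 123 (.lf 122 1 1) (.nd 123 (.lf 123 1 1) (.lf 123 1 1) (.lf 122 4 3)) (.lf 123 1 1)) (.lf 109 1 1)))) (.nd 129 (.nd 128 (.lf 127 1 1) (.nd 128 (.lf 128 4 3) (.lf 122 1 1) (.lf 125 1 1)) (.lf 120 1 1)) (.nd 129 (.nd 114 (.nd 114 (.lf 108 4 3) (.lf 114 1 1) (.lf 105 4 3)) (.lf 94 1 1) (.lf 80 4 3)) (.nd 129 (.nd 129 (.lf 104 1 1) (.lf 123 4 3) (.lf 129 4 3)) (.lf 127 1 1) (.nd 129 (.lf 129 1 1) (.lf 129 1 1) (.nd 129 (.lf 125 1 1) (.lf 125 4 3) (.lf 129 4 3)))) (.lf 119 4 3)) (.lf 127 4 3)))) (.nd 115 (.nd 115 (.nd 115 (.lf 115 4 3) (.lf 115 4 3) (.nd 110 (.lf 106 4 3) (.lf 109 4 3) (.nd 110 (.lf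 109 1 1) (.lf 110 4 3) (.lf 108 4 3)))) (.lf 89 4 3) (.lf 86 4 3)) (.lf 87 4 3) (.nd 115 (.lf 109 4 3) (.nd 115 (.lf 100 4 3) (.nd 115 (.nd 115 (.lf 110 1 1) (.lf 115 4 3) (.lf 109 1 1)) (.lf 113 4 3) (.lf 107 4 3)) (.lf 101 4 3)) (.lf 114 1 1))) (.nd 119 (.lf 109 4 3) (.nd 119 (.lf 116 4 3) (.nd 119 (.lf 115 4 3) (.nd 119 (.nd 119 (.lf 119 1 1) (.lf 114 4 3) (.lf 115 1 1)) (.lf 100 4 3) (.nd 99 (.lf 86 1 1) (.lf 99 4 3) (.lf 90 4 3))) (.nd 119 (.nd 116 (.lf 116 1 1) (.nd 110 (.lf 88 1 1) (.lf 110 4 3) (.lf 91 1 1)) (.lf 89 1 1)) (.lf 116 4 3) (.lf 119 4 3))) (.nd 117 (.lf 103 4 3) (.lf 108 4 3) (.nd 117 (.nd 117 (.lf 117 4 3) (.nd 116 (.lf 101 4 3) (.lf 115 4 3) (.lf 116 1 1)) (.lf 117 4 3)) (.lf 117 4 3) (.lf 116 4 3)))) (.nd 105 (.lf 86 4 3) (.lf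 83 4 3) (.nd 105 (.nd 105 (.lf 96 4 3) (.lf 105 1 1) (.lf 99 4 3)) (.lf 89 4 3) (.lf 92 4 3))))))

def t15_173 : Tr := (.nd 178 (.nd 155 (.nd 131 (.nd 97 (.nd 92 (.lf 40 2 2) (.lf 68 2 2) (.lf 92 2 2)) (.nd 97 (.lf 80 2 2) (.nd 89 (.nd 89 (.lf 82 2 2) (.nd 89 (.lf 65 2 2) (.lf 73 2 2) (.lf 89 2 2)) (.lf 78 2 2)) (.lf 66 2 2) (.nd 81 (.lf 36 2 2) (.lf 66 2 2) (.lf 81 1 2))) (.nd 97 (.lf 71 2 2) (.lf 97 2 2) (.lf 71 2 2))) (.lf 68 2 2)) (.nd 131 (.lf 125 2 2) (.nd 131 (.nd 131 (.nd 131 (.nd 131 (.lf 131 2 2) (.nd 131 (.lf 131 2 2) (.lf 131 2 2) (.lf 131 2 2)) (.lf 131 2 2)) (.lf 131 2 2) (.lf 129 2 2)) (.lf 120 1 2) (.nd 123 (.lf 122 1 2) (.lf 123 2 2) (.lf 119 1 2))) (.lf 121 2 2) (.lf 118 2 2)) (.lf 117 2 2)) (.nd 125 (.nd 125 (.lf 122 2 2) (.nd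 119 (.lf 119 1 2) (.lf 116 2 2) (.nd 119 (.lf 119 2 2) (.lf 94 2 2) (.lf 97 2 2))) (.lf 125 2 2)) (.lf 99 2 2) (.lf 96 2 2))) (.nd 148 (.lf 117 2 2) (.lf 109 2 2) (.nd 148 (.lf 127 2 2) (.nd 148 (.nd 148 (.lf 126 2 2) (.lf 133 2 2) (.nd 148 (.lf 133 2 2) (.lf 148 2 2) (.lf 148 2 2))) (.lf 132 2 2) (.lf 124 2 2)) (.lf 128 2 2))) (.nd 155 (.nd 155 (.lf 139 2 2) (.nd 155 (.nd 155 (.nd 155 (.lf 141 2 2) (.lf 153 2 2) (.lf 155 2 2)) (.lf 153 2 2) (.lf 155 2 2)) (.lf 144 2 2) (.lf 141 2 2)) (.lf 133 2 2)) (.nd 149 (.nd 145 (.lf 128 1 2) (.nd 145 (.lf 131 2 2) (.lf 129 2 2) (.lf 145 1 2)) (.lf 131 1 2)) (.nd 146 (.lf 123 1 2) (.lf 124 1 2) (.nd 146 (.lf 132 1 2) (.lf 146 2 2) (.lf 133 1 2))) (.nd 149 (.nd 149 (.lf 137 2 2) (.nd 149 (.nd 149 (.lf 116 2 2)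 (.nd 149 (.lf 149 1 2) (.lf 115 2 2) (.lf 118 2 2)) (.lf 146 2 2)) (.lf 146 2 2) (.lf 149 2 2)) (.nd 148 (.lf 148 2 2) (.lf 138 1 2) (.lf 147 1 2))) (.nd 149 (.nd 148 (.nd 148 (.lf 113 2 2) (.nd 143 (.lf 132 1 2) (.lf 143 1 2) (.lf 138 2 2)) (.lf 148 2 2)) (.lf 145 2 2) (.lf 143 2 2)) (.nd 146 (.lf 146 1 2) (.lf 142 2 2) (.lf 144 2 2)) (.lf 149 2 2)) (.lf 148 2 2))) (.nd 155 (.lf 143 2 2) (.nd 155 (.nd 141 (.lf 125 1 2) (.nd 141 (.nd 136 (.lf 118 2 2) (.lf 136 2 2) (.lf 116 1 2)) (.lf 141 2 2) (.nd 141 (.lf 141 2 2) (.lf 127 1 2) (.lf 128 1 2))) (.lf 135 2 2)) (.nd 155 (.lf 155 1 2) (.lf 149 2 2) (.lf 153 2 2)) (.lf 154 2 2)) (.lf 133 2 2)))) (.nd 156 (.nd 142 (.nd 142 (.nd 132 (.lf 106 2 2) (.nd 132 (.lf 131 2 2) (.nd 117 (.lf 117 1 2) (.lf 91 1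 2) (.nd 89 (.lf 89 2 2) (.lf 81 1 2) (.lf 87 1 2))) (.lf 132 2 2)) (.nd 107 (.lf 107 2 2) (.lf 84 2 2) (.nd 92 (.nd 75 (.lf 40 2 2) (.lf 57 2 2) (.lf 75 2 2)) (.lf 59 2 2) (.lf 92 2 2)))) (.nd 142 (.lf 118 1 2) (.lf 142 2 2) (.lf 123 1 2)) (.lf 123 1 2)) (.nd 118 (.nd 118 (.lf 118 2 2) (.lf 73 2 2) (.lf 70 2 2)) (.lf 71 2 2) (.nd 106 (.nd 106 (.lf 84 2 2) (.lf 106 2 2) (.lf 85 2 2)) (.nd 81 (.nd 81 (.nd 81 (.lf 81 1 2) (.lf 81 1 2) (.lf 78 2 2)) (.nd 81 (.lf 81 1 2) (.lf 81 1 2) (.lf 65 2 2)) (.nd 81 (.lf 72 2 2) (.lf 54 2 2) (.lf 81 1 2))) (.nd 81 (.lf 81 1 2) (.nd 81 (.lf 81 1 2) (.lf 79 2 2) (.lf 63 2 2)) (.lf 80 2 2)) (.lf 81 1 2)) (.nd 87 (.lf 69 2 2) (.lf 87 1 2) (.nd 87 (.lf 41 2 2) (.nd 87 (.lf 63 2 2) (.lf 78 2 2) (.lf 87 1 2)) (.lf 71 2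 2))))) (.nd 122 (.nd 91 (.nd 67 (.lf 39 2 2) (.lf 67 2 2) (.lf 45 2 2)) (.lf 91 2 2) (.lf 63 2 2)) (.lf 85 2 2) (.lf 122 2 2))) (.nd 121 (.nd 116 (.nd 97 (.lf 92 2 2) (.lf 45 2 2) (.lf 97 2 2)) (.lf 96 2 2) (.nd 116 (.nd 81 (.lf 80 2 2) (.lf 81 1 2) (.nd 81 (.lf 81 1 2) (.lf 58 2 2) (.lf 66 2 2))) (.lf 116 2 2) (.lf 105 2 2))) (.lf 119 2 2) (.nd 121 (.nd 116 (.lf 116 2 2) (.nd 116 (.lf 92 1 2) (.lf 116 2 2) (.lf 97 1 2)) (.nd 81 (.lf 81 1 2) (.nd 81 (.lf 59 2 2) (.lf 31 2 2) (.lf 81 1 2)) (.lf 59 2 2))) (.nd 115 (.lf 95 1 2) (.lf 115 1 2) (.nd 115 (.lf 102 1 2) (.nd 115 (.lf 110 1 2) (.lf 115 2 2) (.lf 90 1 2)) (.lf 115 2 2))) (.nd 121 (.lf 110 2 2) (.lf 108 2 2) (.nd 121 (.lf 118 2 2) (.nd 121 (.lf 116 2 2) (.lf 121 2 2) (.lf 115 2 2)) (.lf 117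 2 2))))) (.nd 156 (.nd 156 (.nd 114 (.lf 90 2 2) (.lf 85 2 2) (.nd 114 (.lf 114 2 2) (.lf 106 2 2) (.nd 93 (.lf 93 2 2) (.lf 69 2 2) (.lf 90 2 2)))) (.nd 140 (.lf 140 2 2) (.lf 113 2 2) (.lf 116 2 2)) (.lf 156 2 2)) (.nd 156 (.nd 152 (.lf 145 2 2) (.lf 138 2 2) (.nd 152 (.lf 142 2 2) (.lf 132 2 2) (.lf 152 2 2))) (.nd 148 (.lf 135 2 2) (.lf 134 2 2) (.nd 148 (.lf 148 2 2) (.lf 135 2 2) (.lf 135 2 2))) (.nd 156 (.lf 156 2 2) (.nd 154 (.lf 154 2 2) (.nd 154 (.nd 131 (.lf 131 2 2) (.lf 131 2 2) (.lf 108 1 2)) (.lf 154 2 2) (.lf 136 1 2)) (.nd 153 (.lf 147 2 2) (.lf 153 2 2) (.nd 144 (.nd 144 (.lf 132 1 2) (.lf 144 1 2) (.lf 138 2 2)) (.lf 142 2 2) (.lf 131 2 2)))) (.nd 150 (.lf 150 2 2) (.lf 135 2 2) (.lf 132 2 2)))) (.nd 150 (.nd 125 (.nd 95 (.lf 95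 2 2) (.lf 87 2 2) (.lf 82 2 2)) (.lf 85 2 2) (.nd 125 (.lf 125 2 2) (.lf 122 1 2) (.lf 110 2 2))) (.nd 126 (.lf 89 2 2) (.nd 113 (.lf 56 2 2) (.nd 99 (.nd 99 (.lf 87 2 2) (.lf 99 2 2) (.lf 80 2 2)) (.lf 51 2 2) (.lf 56 2 2)) (.lf 113 2 2)) (.nd 126 (.lf 116 2 2) (.nd 126 (.lf 123 2 2) (.lf 126 2 2) (.lf 93 1 2)) (.lf 119 2 2))) (.lf 150 2 2)))) (.nd 178 (.nd 153 (.nd 153 (.nd 147 (.nd 147 (.nd 144 (.lf 141 2 2) (.lf 134 1 2) (.lf 144 1 2)) (.lf 124 1 2) (.lf 147 1 2)) (.lf 146 2 2) (.lf 134 2 2)) (.nd 153 (.lf 137 2 2) (.nd 153 (.lf 148 1 2) (.nd 153 (.lf 149 2 2) (.lf 153 2 2) (.lf 131 2 2)) (.lf 151 1 2)) (.nd 135 (.lf 105 2 2) (.nd 133 (.lf 129 1 2) (.lf 127 2 2) (.lf 133 2 2)) (.lf 135 2 2))) (.nd 145 (.lf 145 2 2) (.nd 138 (.lf 122 2 2) (.nd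 135 (.lf 105 2 2) (.lf 104 2 2) (.lf 135 2 2)) (.lf 138 2 2)) (.lf 145 2 2))) (.nd 153 (.nd 153 (.lf 153 2 2) (.lf 136 2 2) (.lf 144 2 2)) (.lf 125 2 2) (.lf 111 2 2)) (.nd 139 (.nd 124 (.lf 118 2 2) (.lf 82 2 2) (.nd 124 (.lf 77 2 2) (.lf 82 2 2) (.nd 124 (.lf 124 2 2) (.lf 123 1 2) (.lf 106 2 2)))) (.nd 139 (.lf 135 2 2) (.lf 139 2 2) (.nd 139 (.lf 139 2 2) (.lf 130 2 2) (.lf 120 2 2))) (.lf 122 2 2))) (.nd 175 (.nd 175 (.nd 175 (.nd 161 (.lf 147 2 2) (.lf 160 2 2) (.lf 161 2 2)) (.nd 175 (.lf 165 2 2) (.lf 166 2 2) (.nd 175 (.lf 175 2 2) (.lf 165 2 2) (.lf 163 2 2))) (.nd 161 (.nd 161 (.lf 132 2 2) (.lf 151 2 2) (.lf 161 2 2)) (.lf 156 2 2) (.lf 149 2 2))) (.lf 156 2 2) (.lf 160 2 2)) (.nd 136 (.lf 115 2 2) (.lf 111 2 2) (.lf 136 2 2)) (.nd 162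 (.nd 128 (.nd 113 (.lf 83 2 2) (.lf 70 2 2) (.lf 113 2 2)) (.lf 113 2 2) (.lf 128 2 2)) (.nd 162 (.lf 162 2 2) (.nd 151 (.nd 151 (.lf 150 2 2) (.lf 108 2 2) (.lf 151 2 2)) (.lf 139 2 2) (.lf 148 2 2)) (.lf 159 2 2)) (.nd 139 (.lf 139 2 2) (.lf 89 2 2) (.nd 106 (.lf 69 2 2) (.lf 77 2 2) (.lf 106 2 2))))) (.nd 178 (.nd 154 (.nd 129 (.nd 127 (.nd 121 (.nd 121 (.lf 121 1 2) (.lf 83 2 2) (.lf 86 2 2)) (.lf 121 2 2) (.lf 84 2 2)) (.lf 127 1 2) (.lf 120 2 2)) (.nd 129 (.lf 125 2 2) (.lf 125 2 2) (.nd 129 (.lf 121 2 2) (.lf 129 1 2) (.lf 119 2 2))) (.lf 124 2 2)) (.nd 153 (.nd 153 (.lf 153 2 2) (.lf 142 2 2) (.lf 140 2 2)) (.lf 146 2 2) (.lf 153 2 2)) (.nd 154 (.nd 137 (.lf 115 2 2) (.lf 137 2 2) (.lf 127 1 2)) (.lf 148 2 2) (.lf 154 2 2))) (.nd 164 (.nd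 156 (.nd 156 (.lf 131 2 2) (.lf 107 2 2) (.lf 156 2 2)) (.lf 131 2 2) (.nd 156 (.lf 156 2 2) (.lf 145 2 2) (.lf 145 2 2))) (.nd 164 (.nd 154 (.lf 154 2 2) (.lf 148 2 2) (.lf 146 2 2)) (.lf 136 2 2) (.nd 164 (.nd 164 (.lf 155 2 2) (.nd 160 (.lf 155 2 2) (.lf 160 2 2) (.lf 144 2 2)) (.lf 164 2 2)) (.lf 135 2 2) (.lf 138 2 2))) (.nd 156 (.lf 152 2 2) (.nd 146 (.lf 145 2 2) (.nd 146 (.lf 145 2 2) (.nd 131 (.lf 111 2 2) (.lf 128 1 2) (.lf 131 2 2)) (.lf 146 2 2)) (.lf 142 2 2)) (.nd 156 (.nd 144 (.lf 141 1 2) (.lf 144 2 2) (.lf 131 2 2)) (.nd 154 (.lf 132 2 2) (.lf 131 2 2) (.lf 154 2 2)) (.nd 156 (.lf 146 2 2) (.lf 147 2 2) (.lf 156 2 2))))) (.nd 178 (.lf 161 2 2) (.lf 156 2 2) (.nd 178 (.lf 178 2 2) (.lf 156 2 2) (.lf 157 2 2))))))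

def t15_175 : Tr := (.nd 90 (.nd 66 (.nd 37 (.lf 4 3 1) (.lf 37 3 1) (.lf 7 3 1)) (.nd 42 (.lf 11 3 1) (.lf 11 3 1) (.nd 42 (.lf 28 3 1) (.lf 42 3 1) (.nd 40 (.lf 40 3 1) (.lf 17 3 1) (.lf 37 3 1)))) (.nd 66 (.lf 66 3 1) (.nd 57 (.lf 57 3 1) (.nd 49 (.lf 30 3 1) (.lf 49 3 1) (.nd 48 (.nd 48 (.lf 48 2 1) (.lf 43 3 1) (.lf 44 3 1)) (.lf 37 2 1) (.lf 34 2 1))) (.nd 57 (.lf 57 2 1) (.nd 54 (.lf 32 3 1) (.lf 44 2 1) (.lf 54 2 1)) (.lf 34 2 1))) (.nd 66 (.nd 66 (.lf 58 2 1) (.nd 66 (.nd 56 (.lf 48 2 1) (.lf 56 3 1) (.lf 36 2 1)) (.lf 66 2 1) (.nd 66 (.nd 66 (.lf 53 3 1) (.nd 66 (.lf 63 3 1) (.lf 66 2 1) (.lf 48 2 1)) (.lf 50 3 1)) (.lf 66 3 1) (.lf 66 2 1))) (.lf 61 2 1)) (.nd 60 (.nd 31 (.nd 5 (.lf 0 3 1) (.lf 3 2 1) (.lf 5 2 1)) (.lf 17 3 1) (.nd 31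 (.lf 0 2 1) (.nd 31 (.lf 31 3 1) (.lf 5 2 1) (.lf 20 2 1)) (.lf 30 2 1))) (.lf 35 3 1) (.lf 60 3 1)) (.lf 57 3 1)))) (.nd 90 (.nd 90 (.lf 64 3 1) (.nd 66 (.lf 66 3 1) (.lf 62 3 1) (.lf 58 3 1)) (.lf 90 3 1)) (.nd 75 (.nd 75 (.lf 64 3 1) (.nd 75 (.lf 65 3 1) (.lf 66 3 1) (.lf 75 3 1)) (.lf 58 3 1)) (.lf 51 3 1) (.lf 52 3 1)) (.nd 60 (.nd 36 (.lf 10 3 1) (.lf 36 3 1) (.lf 30 3 1)) (.lf 60 3 1) (.nd 58 (.lf 58 3 1) (.lf 48 3 1) (.lf 51 3 1)))) (.nd 38 (.nd 33 (.nd 33 (.lf 18 3 1) (.lf 33 3 1) (.lf 3 3 1)) (.lf 9 3 1) (.lf 0 3 1)) (.lf 9 3 1) (.nd 38 (.lf 38 3 1) (.nd 30 (.lf 29 3 1) (.lf 7 3 1) (.lf 30 3 1)) (.lf 21 3 1))))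

def t15_176 : Tr := (.nd 209 (.nd 209 (.nd 195 (.nd 187 (.lf 181 1 2) (.lf 183 1 2) (.nd 187 (.lf 187 1 2) (.lf 185 1 2) (.lf 180 1 2))) (.nd 195 (.nd 185 (.lf 179 1 2) (.nd 185 (.lf 175 1 2) (.nd 185 (.lf 185 1 2) (.lf 178 1 2) (.lf 176 1 2)) (.nd 185 (.lf 185 1 2) (.lf 166 1 2) (.lf 172 1 2))) (.lf 177 1 2)) (.nd 195 (.lf 169 1 2) (.lf 166 1 2) (.lf 195 1 2)) (.lf 167 1 2)) (.nd 187 (.lf 187 1 2) (.lf 162 1 2) (.nd 187 (.lf 162 1 2) (.lf 187 1 2) (.lf 138 1 2)))) (.nd 185 (.lf 184 1 2) (.lf 166 1 2) (.nd 185 (.nd 174 (.lf 168 1 2) (.lf 146 1 2) (.nd 174 (.nd 174 (.lf 174 1 2) (.lf 160 1 4) (.lf 174 1 2)) (.lf 145 1 2) (.lf 148 1 2))) (.lf 185 1 2) (.lf 179 1 2))) (.nd 209 (.nd 209 (.nd 187 (.lf 187 1 2) (.nd 178 (.lf 178 1 2) (.lf 140 1 2) (.lf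 156 1 2)) (.lf 169 1 2)) (.nd 209 (.lf 187 1 2) (.nd 198 (.lf 198 1 2) (.nd 194 (.lf 194 1 4) (.lf 193 1 2) (.lf 189 1 2)) (.lf 176 1 2)) (.lf 209 1 2)) (.lf 188 1 2)) (.nd 187 (.nd 187 (.lf 168 1 2) (.lf 184 1 2) (.lf 187 1 2)) (.lf 184 1 2) (.lf 175 1 2)) (.nd 191 (.lf 191 1 2) (.nd 187 (.lf 170 1 2) (.nd 187 (.nd 179 (.lf 179 1 4) (.lf 179 1 2) (.lf 157 1 2)) (.lf 181 1 2) (.lf 187 1 2)) (.lf 183 1 2)) (.lf 172 1 2)))) (.nd 206 (.nd 206 (.nd 187 (.lf 179 1 2) (.lf 187 1 2) (.lf 185 1 2)) (.nd 206 (.nd 192 (.lf 180 1 2) (.lf 187 1 2) (.nd 192 (.lf 192 1 2) (.lf 182 1 2) (.lf 163 1 2))) (.nd 206 (.lf 197 1 2) (.nd 196 (.lf 183 1 2) (.nd 196 (.lf 196 1 2) (.lf 182 1 2) (.lf 189 1 2)) (.lf 188 1 2)) (.lf 206 1 2)) (.nd 192 (.lf 178 1 2) (.nd 192 (.lf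 192 1 2) (.lf 178 1 2) (.lf 181 1 2)) (.nd 191 (.lf 165 1 2) (.lf 191 1 2) (.lf 186 1 2)))) (.nd 191 (.lf 180 1 2) (.lf 168 1 2) (.nd 191 (.lf 176 1 2) (.lf 191 1 2) (.lf 184 1 2)))) (.nd 193 (.nd 170 (.lf 120 1 2) (.nd 170 (.nd 148 (.lf 115 1 2) (.lf 148 1 2) (.lf 127 1 2)) (.lf 170 1 2) (.lf 145 1 2)) (.lf 137 1 2)) (.nd 193 (.lf 193 1 2) (.nd 190 (.nd 186 (.lf 173 1 2) (.lf 186 1 2) (.lf 178 1 2)) (.nd 190 (.lf 179 1 2) (.lf 190 1 2) (.lf 179 1 2)) (.lf 179 1 2)) (.lf 182 1 2)) (.nd 159 (.lf 159 1 2) (.lf 144 1 2) (.nd 144 (.lf 114 1 2) (.lf 144 1 2) (.nd 101 (.lf 82 1 2) (.lf 101 1 2) (.lf 84 1 2))))) (.nd 167 (.lf 142 1 2) (.lf 146 1 2) (.lf 167 1 2))) (.nd 189 (.lf 170 1 2) (.nd 184 (.lf 156 1 2) (.nd 184 (.lf 175 1 2) (.lf 167 1 2) (.lf 184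 1 2)) (.lf 142 1 2)) (.nd 189 (.nd 187 (.lf 165 1 2) (.lf 177 1 2) (.nd 187 (.lf 184 1 2) (.nd 187 (.lf 175 1 4) (.nd 187 (.nd 187 (.lf 187 1 2) (.nd 187 (.lf 187 1 2) (.lf 187 1 2) (.lf 187 1 2)) (.lf 187 1 2)) (.lf 185 1 2) (.lf 181 1 2)) (.nd 184 (.lf 184 1 2) (.lf 177 1 4) (.lf 172 1 4))) (.nd 187 (.nd 187 (.lf 160 1 4) (.lf 172 1 4) (.lf 187 1 2)) (.lf 182 1 2) (.lf 174 1 4)))) (.lf 176 1 2) (.nd 189 (.lf 188 1 2) (.lf 189 1 2) (.lf 168 1 2)))))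

def t15_178 : Tr := (.nd 304 (.nd 304 (.nd 271 (.nd 245 (.nd 232 (.lf 232 3 5) (.lf 219 3 5) (.nd 220 (.lf 168 3 5) (.lf 215 3 5) (.lf 220 3 5))) (.nd 245 (.lf 245 2 5) (.lf 215 2 5) (.nd 214 (.lf 183 2 5) (.nd 179 (.lf 179 2 5) (.nd 174 (.lf 159 2 5) (.lf 164 1 3) (.lf 174 2 5)) (.lf 155 2 5)) (.lf 214 2 5))) (.nd 227 (.nd 209 (.nd 209 (.lf 197 1 3) (.lf 209 3 5) (.lf 202 3 5)) (.nd 193 (.lf 164 3 5) (.lf 162 3 5) (.lf 193 3 5)) (.lf 194 3 5)) (.nd 219 (.lf 189 2 5) (.lf 188 2 5) (.lf 219 2 5)) (.lf 227 3 5))) (.nd 266 (.nd 266 (.nd 261 (.lf 246 3 5) (.lf 261 3 5) (.lf 229 3 5)) (.lf 252 3 5) (.nd 266 (.lf 266 1 3) (.nd 251 (.nd 243 (.lf 235 2 5) (.lf 238 2 5) (.lf 243 3 5)) (.nd 251 (.lf 209 3 5) (.lf 251 3 5) (.lf 223 3 5)) (.lf 237 3 5)) (.nd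 260 (.lf 260 3 5) (.lf 234 2 5) (.lf 234 3 5)))) (.lf 245 3 5) (.lf 246 3 5)) (.nd 271 (.nd 225 (.nd 211 (.lf 211 2 5) (.lf 160 2 5) (.lf 205 2 5)) (.nd 225 (.lf 218 2 5) (.lf 225 1 3) (.lf 225 2 5)) (.nd 209 (.lf 188 2 5) (.lf 185 2 5) (.lf 209 2 5))) (.lf 271 2 5) (.lf 241 2 5))) (.nd 304 (.lf 271 3 5) (.lf 272 3 5) (.nd 304 (.lf 281 3 5) (.nd 280 (.lf 266 3 5) (.nd 243 (.lf 228 1 3) (.lf 240 3 5) (.nd 243 (.lf 220 3 5) (.lf 243 3 5) (.lf 225 3 5))) (.lf 280 3 5)) (.lf 304 3 5))) (.nd 276 (.nd 247 (.lf 214 2 5) (.nd 237 (.nd 186 (.lf 186 2 5) (.nd 179 (.lf 155 2 5) (.nd 179 (.lf 179 2 5) (.lf 155 2 5) (.lf 164 2 5)) (.lf 155 2 5)) (.lf 157 2 5)) (.lf 227 2 5) (.lf 237 2 5)) (.lf 247 2 5)) (.lf 276 2 5) (.lf 267 2 5))) (.nd 269 (.nd 235 (.nd 235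 (.nd 224 (.nd 196 (.nd 181 (.nd 181 (.nd 172 (.lf 172 1 3) (.lf 163 2 5) (.lf 166 2 5)) (.lf 181 1 3) (.lf 159 1 3)) (.lf 156 1 3) (.lf 163 1 3)) (.lf 196 1 3) (.lf 179 1 3)) (.nd 224 (.lf 220 1 3) (.lf 203 1 3) (.lf 224 1 3)) (.nd 216 (.nd 194 (.lf 194 1 3) (.lf 167 1 3) (.lf 162 1 3)) (.lf 165 1 3) (.nd 216 (.lf 216 1 3) (.lf 187 3 5) (.lf 216 1 3)))) (.nd 235 (.nd 222 (.lf 222 1 3) (.lf 193 1 3) (.lf 198 1 3)) (.nd 235 (.lf 215 2 5) (.nd 235 (.lf 235 2 5) (.lf 225 2 5) (.lf 213 3 5)) (.lf 231 1 3)) (.nd 194 (.lf 194 1 3) (.lf 189 1 3) (.lf 165 1 3))) (.nd 234 (.nd 224 (.lf 224 3 5) (.nd 219 (.lf 219 1 3) (.lf 195 1 3) (.lf 210 3 5)) (.nd 206 (.lf 189 3 5) (.lf 206 3 5) (.nd 185 (.lf 184 3 5) (.lf 184 3 5) (.lf 185 1 3)))) (.nd 229 (.lf 220 1 3)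 (.lf 229 1 3) (.nd 222 (.lf 201 3 5) (.lf 210 3 5) (.lf 222 3 5))) (.nd 234 (.lf 220 1 3) (.nd 231 (.lf 185 3 5) (.lf 220 1 3) (.lf 231 3 5)) (.lf 234 3 5)))) (.nd 221 (.nd 195 (.lf 195 3 5) (.lf 187 3 5) (.lf 166 3 5)) (.lf 192 3 5) (.nd 221 (.lf 221 3 5) (.nd 219 (.lf 215 2 5) (.lf 219 3 5) (.lf 216 3 5)) (.nd 206 (.nd 203 (.lf 192 1 3) (.lf 185 3 5) (.lf 203 3 5)) (.nd 205 (.lf 187 3 5) (.lf 205 3 5) (.lf 186 2 5)) (.lf 206 3 5)))) (.nd 218 (.lf 187 3 5) (.lf 188 3 5) (.nd 218 (.lf 196 3 5) (.lf 218 3 5) (.lf 196 3 5)))) (.nd 221 (.nd 194 (.nd 194 (.nd 190 (.lf 175 3 5) (.lf 176 3 5) (.nd 190 (.nd 190 (.lf 184 1 3) (.lf 190 3 5) (.lf 185 1 3)) (.lf 182 3 5) (.lf 188 3 5))) (.nd 182 (.lf 182 3 5) (.lf 160 3 5) (.lf 163 1 3)) (.nd 194 (.lf 190 3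 5) (.lf 194 1 3) (.lf 188 3 5))) (.lf 162 3 5) (.lf 190 3 5)) (.nd 221 (.lf 211 3 5) (.nd 221 (.nd 221 (.nd 220 (.nd 190 (.lf 189 2 5) (.lf 190 2 5) (.lf 187 1 3)) (.lf 220 3 5) (.lf 208 1 3)) (.lf 221 3 5) (.lf 221 3 5)) (.lf 198 3 5) (.nd 198 (.lf 198 3 5) (.lf 183 3 5) (.lf 185 3 5))) (.nd 202 (.lf 197 3 5) (.lf 202 3 5) (.nd 179 (.lf 179 3 5) (.lf 170 3 5) (.nd 173 (.lf 158 3 5) (.nd 173 (.lf 166 3 5) (.lf 161 2 5) (.lf 173 3 5)) (.lf 157 3 5))))) (.nd 192 (.nd 192 (.lf 171 3 5) (.nd 192 (.lf 184 3 5) (.lf 192 3 5) (.lf 183 3 5)) (.lf 188 3 5)) (.lf 184 3 5) (.lf 164 3 5))) (.nd 269 (.nd 246 (.lf 217 3 5) (.nd 246 (.lf 238 3 5) (.lf 229 3 5) (.lf 246 3 5)) (.lf 241 3 5)) (.nd 254 (.lf 233 3 5) (.nd 246 (.lf 219 3 5) (.lf 222 3 5) (.lf 246 3 5))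 (.nd 254 (.lf 239 3 5) (.nd 254 (.nd 246 (.lf 221 1 3) (.lf 218 1 3) (.lf 246 1 3)) (.nd 254 (.lf 225 1 3) (.lf 225 1 3) (.lf 254 1 3)) (.nd 247 (.lf 237 3 5) (.lf 247 3 5) (.lf 246 3 5))) (.nd 246 (.lf 236 3 5) (.lf 246 3 5) (.lf 227 3 5)))) (.nd 269 (.nd 252 (.nd 240 (.lf 239 3 5) (.lf 213 3 5) (.nd 240 (.lf 239 3 5) (.lf 240 3 5) (.lf 238 3 5))) (.nd 248 (.lf 248 3 5) (.lf 225 3 5) (.lf 211 3 5)) (.lf 252 3 5)) (.nd 251 (.lf 234 3 5) (.nd 251 (.lf 219 3 5) (.lf 239 3 5) (.lf 251 3 5)) (.lf 242 3 5)) (.nd 269 (.nd 239 (.lf 239 1 3) (.lf 239 1 3) (.nd 239 (.nd 239 (.lf 239 1 3) (.lf 210 3 5) (.lf 239 3 5)) (.nd 239 (.lf 233 1 3) (.lf 213 1 3) (.nd 239 (.lf 239 3 5) (.lf 238 1 3) (.lf 238 1 3))) (.lf 237 3 5))) (.nd 248 (.nd 239 (.nd 239 (.lf 239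 1 3) (.lf 239 3 5) (.lf 239 3 5)) (.lf 215 1 3) (.lf 220 1 3)) (.lf 248 3 5) (.lf 218 1 3)) (.nd 269 (.lf 265 1 3) (.lf 269 3 5) (.nd 255 (.lf 255 3 5) (.nd 238 (.lf 217 1 3) (.lf 238 3 5) (.lf 227 3 5)) (.lf 238 3 5))))))) (.nd 264 (.nd 249 (.nd 249 (.lf 215 3 5) (.lf 249 3 5) (.nd 218 (.lf 211 1 3) (.lf 218 3 5) (.nd 211 (.lf 211 3 5) (.lf 183 3 5) (.lf 184 3 5)))) (.nd 192 (.lf 192 3 5) (.lf 183 3 5) (.lf 162 3 5)) (.nd 246 (.lf 187 3 5) (.lf 192 3 5) (.lf 246 3 5))) (.nd 264 (.nd 237 (.nd 230 (.lf 214 3 5) (.nd 230 (.nd 217 (.lf 209 3 5) (.nd 217 (.lf 199 1 3) (.lf 199 1 3) (.lf 217 3 5)) (.lf 196 3 5)) (.nd 230 (.lf 230 3 5) (.lf 215 3 5) (.lf 198 3 5)) (.nd 226 (.lf 197 1 3) (.lf 226 1 3) (.lf 221 1 3))) (.lf 215 3 5)) (.nd 214 (.nd 196 (.lf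 193 3 5) (.lf 196 3 5) (.lf 188 2 5)) (.nd 214 (.lf 184 2 5) (.nd 214 (.lf 199 2 5) (.lf 192 2 5) (.lf 214 2 5)) (.lf 183 2 5)) (.nd 201 (.lf 189 3 5) (.lf 188 3 5) (.nd 201 (.lf 197 3 5) (.lf 200 3 5) (.nd 201 (.lf 201 3 5) (.nd 200 (.lf 177 3 5) (.lf 177 2 5) (.lf 200 3 5)) (.lf 199 3 5))))) (.nd 237 (.nd 210 (.lf 158 2 5) (.nd 200 (.lf 200 1 3) (.lf 157 2 5) (.lf 160 2 5)) (.nd 210 (.lf 180 2 5) (.lf 210 2 5) (.lf 195 2 5))) (.nd 237 (.nd 237 (.nd 219 (.nd 219 (.lf 219 1 3) (.lf 195 1 3) (.lf 218 2 5)) (.nd 218 (.lf 183 3 5) (.lf 218 2 5) (.lf 213 3 5)) (.lf 217 3 5)) (.lf 231 2 5) (.lf 237 2 5)) (.nd 219 (.lf 219 2 5) (.lf 199 2 5) (.lf 210 2 5)) (.lf 218 2 5)) (.nd 194 (.lf 178 2 5) (.nd 194 (.nd 194 (.lf 186 2 5) (.lf 194 1 3) (.lf 194 2 5))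 (.lf 187 2 5) (.lf 194 2 5)) (.lf 180 2 5)))) (.nd 245 (.nd 245 (.nd 236 (.lf 215 2 5) (.lf 236 2 5) (.lf 223 1 3)) (.nd 232 (.nd 228 (.lf 222 2 5) (.lf 228 2 5) (.nd 223 (.lf 209 2 5) (.lf 217 2 5) (.lf 223 3 5))) (.lf 210 2 5) (.lf 232 2 5)) (.nd 245 (.lf 242 2 5) (.nd 245 (.lf 245 2 5) (.nd 238 (.lf 238 2 5) (.nd 237 (.lf 216 1 3) (.lf 237 3 5) (.lf 221 1 3)) (.lf 217 1 3)) (.nd 231 (.lf 226 2 5) (.lf 231 2 5) (.lf 230 3 5))) (.lf 237 2 5))) (.nd 216 (.nd 216 (.nd 202 (.lf 202 2 5) (.lf 182 2 5) (.nd 200 (.lf 180 2 5) (.nd 200 (.lf 200 3 5) (.lf 195 2 5) (.lf 186 2 5)) (.lf 179 2 5))) (.lf 216 2 5) (.lf 210 2 5)) (.nd 206 (.lf 205 2 5) (.lf 155 2 5) (.nd 206 (.lf 180 2 5) (.lf 195 2 5) (.lf 206 2 5))) (.lf 198 2 5)) (.nd 236 (.lf 215 2 5) (.nd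 236 (.lf 236 2 5) (.lf 221 2 5) (.lf 206 2 5)) (.lf 184 2 5))) (.nd 264 (.nd 264 (.nd 249 (.lf 235 3 5) (.lf 249 3 5) (.lf 230 3 5)) (.nd 249 (.lf 231 3 5) (.nd 249 (.lf 249 3 5) (.nd 236 (.lf 236 3 5) (.lf 226 3 5) (.lf 212 2 5)) (.lf 249 3 5)) (.nd 235 (.lf 210 3 5) (.lf 235 2 5) (.lf 206 3 5))) (.nd 264 (.lf 264 2 5) (.nd 247 (.lf 235 2 5) (.nd 247 (.lf 247 2 5) (.lf 223 3 5) (.lf 229 3 5)) (.lf 233 3 5)) (.nd 246 (.lf 241 2 5) (.lf 232 3 5) (.lf 246 3 5)))) (.nd 239 (.lf 236 3 5) (.lf 189 3 5) (.nd 239 (.lf 239 2 5) (.nd 199 (.nd 199 (.lf 155 2 5) (.lf 199 3 5) (.lf 180 2 5)) (.lf 179 2 5) (.lf 187 3 5)) (.lf 226 3 5))) (.nd 237 (.nd 207 (.nd 207 (.nd 207 (.lf 191 3 5) (.nd 207 (.lf 201 3 5) (.lf 207 2 5) (.lf 204 2 5)) (.lf 190 3 5)) (.lf 200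 3 5) (.lf 185 3 5)) (.lf 160 3 5) (.lf 205 3 5)) (.nd 237 (.lf 219 3 5) (.lf 237 2 5) (.nd 219 (.lf 205 2 5) (.nd 219 (.lf 219 3 5) (.lf 219 3 5) (.lf 214 2 5)) (.lf 197 2 5))) (.nd 209 (.lf 188 3 5) (.lf 192 3 5) (.lf 209 3 5))))) (.nd 247 (.nd 218 (.lf 163 3 5) (.nd 218 (.nd 208 (.lf 208 3 5) (.lf 183 3 5) (.lf 187 3 5)) (.lf 218 3 5) (.lf 187 3 5)) (.nd 208 (.lf 208 3 5) (.lf 162 3 5) (.lf 156 3 5))) (.nd 232 (.lf 232 3 5) (.lf 191 3 5) (.nd 211 (.nd 209 (.lf 183 3 5) (.lf 209 3 5) (.lf 178 2 5)) (.lf 191 2 5) (.lf 211 3 5))) (.nd 247 (.lf 242 3 5) (.nd 215 (.nd 184 (.lf 184 2 5) (.lf 155 2 5) (.lf 167 1 3)) (.nd 195 (.lf 175 2 5) (.lf 195 1 3) (.lf 186 1 3)) (.nd 215 (.lf 215 2 5) (.nd 210 (.lf 179 2 5) (.lf 210 2 5) (.lf 201 2 5)) (.lf 211 2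 5))) (.lf 247 1 3)))))

end Pool.Agent.helper93.Circ
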