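import Pool.Agent.helper93.Circ.Check15B
import Pool.Agent.helper93.Circ.Check15C

/-!
# Energy certificate: conclusion
-/

namespace Pool.Agent.helper93.Circ

open Tr

theorem t15_good : ∀ x, ¬ 3 ∣ x → Good 1 48 t15.en x (t15.en x) :=
  root_sound 1 48 425 (.lf 0 0 0) t15_b t15_c trivial (Nat.zero_le _) t15_mx_b t15_mx_c
    t15_chk_b t15_chk_c

end Pool.Agent.helper93.Circ
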