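import Mathlib

/-!
# Energy certificates for the backward circuit game (MP_08f931_nt): soundness of the checker

A ternary tree encodes a partition of the residues prime to `3` into classes modulo powers of `3`
(digits read from the lowest one); every leaf carries an energy `e` and a move `(k, l)`; every
inner node carries a bound `m` for the energies below it.
-/

namespace Pool.Agent.helper93.Circ

inductive Tr where
  | lf (e k l : ℕ) : Tr
  | nd (m : ℕ) (a b c : Tr) : Tr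

namespace Tr

/-- bound for the energies in the tree -/
def mx : Tr → ℕ
  | lf e _ _ => e
  | nd m _ _ _ => m

/-- energy of the leaf which contains `x` -/
def en : Tr → ℕ → ℕ
  | lf e _ _, _ => e
  | nd _ a b c, x =>
    bif Nat.beq (x % 3) 0 then a.en (x / 3) else bif Nat.beq (x % 3) 1 then b.en (x / 3)
    else c.en (x / 3)

/-- bound for the energies of all `y ≡ x` modulo `3 ^ j` -/
def get : Tr → ℕ → ℕ → ℕ
  | lf e _ _, _, _ => e
  | nd m _ _ _, 0, _ => m
  | nd _ a b c, j + 1, x =>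
    bif Nat.beq (x % 3) 0 then a.get j (x / 3) else bif Nat.beq (x % 3) 1 then b.get j (x / 3)
    else c.get j (x / 3)

/-- the test at one leaf: level `i`, residue `r` -/
def chkLeaf (S lam : ℕ) (root : Tr) (e k l i r : ℕ) : Bool :=
  Nat.ble 1 k && Nat.ble 1 l && Nat.ble (k + 1) i && Nat.beq ((2 ^ l * r + 1) % 3 ^ k) 0 &&
    !(Nat.beq ((2 ^ k * ((2 ^ l * r + 1) / 3 ^ k) - 1) % 3) 0) &&
    Nat.ble (53 * S * l + root.get (i - k) (2 ^ k * ((2 ^ l * r + 1) / 3 ^ k) - 1)) (e + 31 * S * k + lam)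

/-- the test of a subtree: level `i`, residue `r` -/
def chk (S lam : ℕ) (root : Tr) : Tr → ℕ → ℕ → Bool
  | lf e k l, i, r => chkLeaf S lam root e k l i r
  | nd m a b c, i, r =>
    Nat.ble a.mx m && Nat.ble b.mx m && Nat.ble c.mx m && chk S lam root a (i + 1) r &&
      chk S lam root b (i + 1) (r + 3 ^ i) && chk S lam root c (i + 1) (r + 2 * 3 ^ i)

/-- all bounds in the tree are correct -/
def Ok : Tr → Prop
  | lf _ _ _ => True
  | nd m a b c => a.mx ≤ m ∧ b.mx ≤ m ∧ c.mx ≤ m ∧ Ok a ∧ Ok b ∧ Ok c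

theorem en_le_mx : ∀ (t : Tr), Ok t → ∀ x, t.en x ≤ t.mx
  | lf _ _ _, _, _ => le_refl _
  | nd m a b c, h, x => by
    obtain ⟨h1, h2, h3, h4, h5, h6⟩ := h
    simp only [en, mx]
    cases hb : Nat.beq (x % 3) 0 with
    | true => simpa using (en_le_mx a h4 _).trans h1
    | false =>
      cases hc : Nat.beq (x % 3) 1 with
      | true => simpa using (en_le_mx b h5 _).trans h2
      | false => simpa using (en_le_mx c h6 _).trans h3

theorem en_le_get : ∀ (t : Tr), Ok t → ∀ j x y, x % 3 ^ j = y % 3 ^ j → t.en y ≤ t.get j x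
  | lf _ _ _, _, _, _, _, _ => le_refl _
  | nd m a b c, h, 0, x, y, _ => en_le_mx (nd m a b c) h y
  | nd m a b c, h, j + 1, x, y, hxy => by
    obtain ⟨h1, h2, h3, h4, h5, h6⟩ := h
    have hmod : x % 3 = y % 3 := by
      have h7 : 3 ∣ 3 ^ (j + 1) := dvd_pow_self 3 (by omega)
      rw [← Nat.mod_mod_of_dvd x h7, hxy, Nat.mod_mod_of_dvd y h7]
    have hdiv : x / 3 % 3 ^ j = y / 3 % 3 ^ j := by
      have h8 : ∀ z : ℕ, z / 3 % 3 ^ j = z % 3 ^ (j + 1) / 3 := by
        intro z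
        rw [pow_succ', Nat.mod_mul_right_div_self]
      rw [h8, h8, hxy]
    simp only [en, get]
    rw [hmod]
    cases hb : Nat.beq (y % 3) 0 with
    | true => simpa using en_le_get a h4 j _ _ hdiv
    | false =>
      cases hc : Nat.beq (y % 3) 1 with
      | true => simpa using en_le_get b h5 j _ _ hdiv
      | false => simpa using en_le_get c h6 j _ _ hdiv

theorem chk_ok (S lam : ℕ) (root : Tr) : ∀ (t : Tr) (i r : ℕ), chk S lam root t i r = true → Ok t
  | lf _ _ _, _, _, _ => trivial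
  | nd m a b c, i, r, h => by
    simp only [chk, Bool.and_eq_true, Nat.ble_eq] at h
    obtain ⟨⟨⟨⟨⟨h1, h2⟩, h3⟩, h4⟩, h5⟩, h6⟩ := h
    exact ⟨h1, h2, h3, chk_ok S lam root a _ _ h4, chk_ok S lam root b _ _ h5,
      chk_ok S lam root c _ _ h6⟩

/-- what the energies give for `a`: `en` is the energy function -/
def Good (S lam : ℕ) (E : ℕ → ℕ) (x e : ℕ) : Prop :=
  ∃ k l h : ℕ, 1 ≤ k ∧ 1 ≤ l ∧ 3 ^ k * h = 2 ^ l * x + 1 ∧ ¬ 3 ∣ (2 ^ k * h - 1) ∧
    53 * S * l + E (2 ^ k * h - 1) ≤ e + 31 * S * k + lam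

theorem chkLeaf_sound (S lam : ℕ) (root : Tr) (hroot : Ok root) (e k l i r x z : ℕ)
    (hx : x = r + 3 ^ i * z) (h : chkLeaf S lam root e k l i r = true) :
    Good S lam root.en x e := by
  simp only [chkLeaf, Bool.and_eq_true, Nat.ble_eq, Nat.beq_eq, Bool.not_eq_true'] at h
  obtain ⟨⟨⟨⟨⟨hk, hl⟩, hki⟩, hmod⟩, hm3⟩, hc⟩ := h
  set q := (2 ^ l * r + 1) / 3 ^ k with hq
  have hq1 : 3 ^ k * q = 2 ^ l * r + 1 := Nat.mul_div_cancel' (Nat.dvd_of_mod_eq_zero hmod)
  have hi : 3 ^ i = 3 ^ k * 3 ^ (i - k) := by rw [← pow_add]; congr 1; omega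
  have hqpos : 1 ≤ q := by
    rcases Nat.eq_zero_or_pos q with h0 | h0
    · rw [h0] at hq1; omega
    · exact h0
  set w := 2 ^ k * (2 ^ l * z) with hw
  have hval : 2 ^ k * (q + 3 ^ (i - k) * (2 ^ l * z)) - 1 = (2 ^ k * q - 1) + 3 ^ (i - k) * w := by
    have h1 : 1 ≤ 2 ^ k * q := Nat.mul_pos (by positivity) hqpos
    have h2 : 2 ^ k * (q + 3 ^ (i - k) * (2 ^ l * z)) = 2 ^ k * q + 3 ^ (i - k) * w := by
      rw [hw]; ring
    omega
  refine ⟨k, l, q + 3 ^ (i - k) * (2 ^ l * z), hk, hl, ?_, ?_, ?_⟩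
  · rw [mul_add, hq1, hx, hi]; ring
  · rw [hval]
    intro hd
    have h3 : 3 ∣ 3 ^ (i - k) * w := Dvd.dvd.mul_right (dvd_pow_self 3 (by omega)) w
    have h5 : (2 ^ k * q - 1) % 3 = 0 := Nat.mod_eq_zero_of_dvd ((Nat.dvd_add_left h3).1 hd)
    rw [h5] at hm3
    exact absurd hm3 (by decide)
  · rw [hval]
    have h4 : root.en ((2 ^ k * q - 1) + 3 ^ (i - k) * w) ≤ root.get (i - k) (2 ^ k * q - 1) := by
      apply en_le_get root hroot
      rw [Nat.add_mul_mod_self_left]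
    omega

theorem chk_sound (S lam : ℕ) (root : Tr) (hroot : Ok root) : ∀ (t : Tr) (i r : ℕ),
    chk S lam root t i r = true → ∀ z, Good S lam root.en (r + 3 ^ i * z) (t.en z)
  | lf e k l, i, r, h, z => chkLeaf_sound S lam root hroot e k l i r _ z rfl h
  | nd m a b c, i, r, h, z => by
    simp only [chk, Bool.and_eq_true, Nat.ble_eq] at h
    obtain ⟨⟨⟨⟨⟨_, _⟩, _⟩, h4⟩, h5⟩, h6⟩ := h
    have hz : z = 3 * (z / 3) + z % 3 := (Nat.div_add_mod z 3).symm
    simp only [en]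
    have hlt : z % 3 < 3 := Nat.mod_lt _ (by norm_num)
    rcases (by omega : z % 3 = 0 ∨ z % 3 = 1 ∨ z % 3 = 2) with h0 | h0 | h0
    · have he : r + 3 ^ i * z = r + 3 ^ (i + 1) * (z / 3) := by
        conv_lhs => rw [hz, h0]
        ring
      rw [he, h0]
      exact chk_sound S lam root hroot a (i + 1) r h4 (z / 3)
    · have he : r + 3 ^ i * z = (r + 3 ^ i) + 3 ^ (i + 1) * (z / 3) := by
        conv_lhs => rw [hz, h0]
        ring
      rw [he, h0]
      exact chk_sound S lam root hroot b (i + 1) _ h5 (z / 3)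
    · have he : r + 3 ^ i * z = (r + 2 * 3 ^ i) + 3 ^ (i + 1) * (z / 3) := by
        conv_lhs => rw [hz, h0]
        ring
      rw [he, h0]
      exact chk_sound S lam root hroot c (i + 1) _ h6 (z / 3)

/-- Soundness: `root = nd m a b c`, only the classes `1`, `2` modulo `3` are tested. -/
theorem root_sound (S lam m : ℕ) (a b c : Tr) (ha : Ok a) (ham : a.mx ≤ m) (hbm : b.mx ≤ m)
    (hcm : c.mx ≤ m) (hb : chk S lam (nd m a b c) b 1 1 = true)
    (hc : chk S lam (nd m a b c) c 1 2 = true) :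
    ∀ x, ¬ 3 ∣ x → Good S lam (nd m a b c).en x ((nd m a b c).en x) := by
  have hroot : Ok (nd m a b c) :=
    ⟨ham, hbm, hcm, ha, chk_ok _ _ _ _ _ _ hb, chk_ok _ _ _ _ _ _ hc⟩
  intro x hx
  have hz : x = 3 * (x / 3) + x % 3 := (Nat.div_add_mod x 3).symm
  have hne : x % 3 ≠ 0 := fun h => hx (Nat.dvd_of_mod_eq_zero h)
  have hlt : x % 3 < 3 := Nat.mod_lt _ (by norm_num)
  rcases (by omega : x % 3 = 1 ∨ x % 3 = 2) with h0 | h0
  · have h1 := chk_sound S lam _ hroot b 1 1 hb (x / 3)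
    have he : 1 + 3 ^ 1 * (x / 3) = x := by omega
    rw [he] at h1
    have h2 : (nd m a b c).en x = b.en (x / 3) := by
      simp only [en]; rw [h0]; rfl
    rw [h2]; exact h1
  · have h1 := chk_sound S lam _ hroot c 1 2 hc (x / 3)
    have he : 2 + 3 ^ 1 * (x / 3) = x := by omega
    rw [he] at h1
    have h2 : (nd m a b c).en x = c.en (x / 3) := by
      simp only [en]; rw [h0]; rfl
    rw [h2]; exact h1

end Tr

end Pool.Agent.helper93.Circ
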