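import Pool.Agent.helper41.Coll.Back
import Pool.Agent.helper41.Coll.Exist
import Pool.Agent.helper93.Circ.Tree

/-!
# From an energy certificate to integers with many circuits (definitions of helper41)
-/

namespace Pool.Agent.helper93.Circ

open Pool.Agent.helper41.Coll

theorem log3_ge : 84 * Real.log 2 ≤ 53 * Real.log 3 := by
  have h1 : (2 : ℝ) ^ 84 ≤ 3 ^ 53 := by norm_num
  have h2 := Real.log_le_log (by positivity) h1
  rw [Real.log_pow, Real.log_pow] at h2
  exact_mod_cast h2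

/-- potential along one backward circuit -/
theorem potential {S lam : ℕ} {k l h a ea eb : ℕ} (ha : 1 ≤ a) (hb : 1 ≤ 2 ^ k * h - 1)
    (hg : 3 ^ k * (2 ^ k * h - 1) < 2 ^ (k + l) * a)
    (he : 53 * S * l + eb ≤ ea + 31 * S * k + lam) :
    53 * S * Real.log ((2 ^ k * h - 1 : ℕ) : ℝ) + Real.log 2 * eb ≤
      53 * S * Real.log a + Real.log 2 * (ea + lam) := by
  set b := 2 ^ k * h - 1 with hbdef
  have hb' : (0 : ℝ) < b := by exact_mod_cast hb
  have ha' : (0 : ℝ) < a := by exact_mod_cast ha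
  have h1 : (3 : ℝ) ^ k * b ≤ 2 ^ (k + l) * a := by exact_mod_cast hg.le
  have h2 := Real.log_le_log (by positivity) h1
  rw [Real.log_mul (by positivity) hb'.ne', Real.log_mul (by positivity) ha'.ne', Real.log_pow,
    Real.log_pow] at h2
  have h3 := log3_ge
  have hS : (0 : ℝ) ≤ S := Nat.cast_nonneg S
  have hkS : (0 : ℝ) ≤ S * k := by positivity
  have h4 : (53 : ℝ) * S * l + eb ≤ ea + 31 * S * k + lam := by exact_mod_cast he
  have hlog2 : 0 < Real.log 2 := Real.log_pos (by norm_num)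
  have h5 := mul_le_mul_of_nonneg_left h4 hlog2.le
  have h6 := mul_le_mul_of_nonneg_left h3 hkS
  have h7 := mul_le_mul_of_nonneg_left h2 (by positivity : (0 : ℝ) ≤ 53 * S)
  push_cast at h7
  nlinarith

theorem exists_seq {S lam : ℕ} (E : ℕ → ℕ) (hE : ∀ x, ¬ 3 ∣ x → Tr.Good S lam E x (E x))
    (m c : ℕ) (hm : 1 < m) (hodd : Odd m) (h3 : ¬ 3 ∣ m) (hc : Circuits m c) :
    ∀ j : ℕ, ∃ a : ℕ, 1 < a ∧ Odd a ∧ ¬ 3 ∣ a ∧ Circuits a (c + j) ∧ (∃ i, f^[i] a = m) ∧
      53 * S * Real.log a + Real.log 2 * E a ≤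
        53 * S * Real.log m + Real.log 2 * (E m + lam * j) := by
  intro j
  induction j with
  | zero => exact ⟨m, hm, hodd, h3, hc, ⟨0, rfl⟩, by simp⟩
  | succ j ih =>
    obtain ⟨a, ha1, ha, ha3, hca, ⟨i, hi⟩, hpot⟩ := ih
    obtain ⟨k, l, h, hk, hl, hh, h3', he⟩ := hE a ha3
    obtain ⟨hcirc, hb1, hbo, hg⟩ := back a k l h ha1 ha hk hl hh
    refine ⟨2 ^ k * h - 1, hb1, hbo, h3', Circuits.step hb1.ne' hcirc hca, ?_, ?_⟩
    · obtain ⟨k', l', -, -, -, -, -, h7⟩ := hcirc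
      exact ⟨i + (k' + l'), by rw [Function.iterate_add_apply, h7, hi]⟩
    · have h4 := potential ha1.le hb1.le hg he
      push_cast
      nlinarith

/-- **Main theorem, abstract form.** -/
theorem many_circuits {S lam : ℕ} (hS : 0 < S) (E : ℕ → ℕ)
    (hE : ∀ x, ¬ 3 ∣ x → Tr.Good S lam E x (E x)) (c₀ : ℝ) (hc0 : 0 ≤ c₀)
    (hc : c₀ * lam * Real.log 2 < 53 * S)
    (m c : ℕ) (hm : 1 < m) (hodd : Odd m) (h3 : ¬ 3 ∣ m) (hcm : Circuits m c) :
    {n : ℕ | (∃ i, f^[i] n = m) ∧ ∃ c' : ℕ, HasC n c' ∧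
      c₀ * Real.log n ≤ (c' : ℝ)}.Infinite := by
  have hS' : (0 : ℝ) < S := by exact_mod_cast hS
  choose g hg using exists_seq E hE m c hm hodd h3 hcm
  set d : ℝ := 53 * S - c₀ * lam * Real.log 2 with hd
  have hdpos : 0 < d := by rw [hd]; linarith
  obtain ⟨J, hJ⟩ := exists_nat_gt (c₀ * (53 * S * Real.log m + Real.log 2 * E m) / d)
  refine Set.infinite_of_injective_forall_mem (f := fun j : ℕ => g (J + j)) ?_ ?_
  · intro i j hij
    have h1 := (hg (J + i)).2.2.2.1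
    have h2 := (hg (J + j)).2.2.2.1
    have h4 : g (J + i) = g (J + j) := hij
    rw [h4] at h1
    have := circuits_unique h1 h2
    omega
  · intro j
    obtain ⟨h1, h2, _, h5, h6, h7⟩ := hg (J + j)
    refine ⟨h6, c + (J + j), ⟨0, by simp, h2, h5⟩, ?_⟩
    have hlog2 : 0 < Real.log 2 := Real.log_pos (by norm_num)
    have h8 : 0 ≤ Real.log 2 * E (g (J + j)) := by positivity
    have h9 : 53 * S * Real.log (g (J + j)) ≤
        53 * S * Real.log m + Real.log 2 * (E m + lam * (J + j : ℕ)) := by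
      linarith
    have h10 := mul_le_mul_of_nonneg_left h9 hc0
    have h11 : c₀ * (53 * S * Real.log m + Real.log 2 * E m) < d * (J + j : ℕ) := by
      rw [div_lt_iff₀ hdpos] at hJ
      have : (J : ℝ) ≤ (J + j : ℕ) := by push_cast; linarith [(Nat.cast_nonneg j : (0 : ℝ) ≤ j)]
      nlinarith
    have h12 : 53 * S * (c₀ * Real.log (g (J + j))) ≤ 53 * S * (J + j : ℕ) := by
      calc 53 * S * (c₀ * Real.log (g (J + j))) = c₀ * (53 * S * Real.log (g (J + j))) := by ring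
        _ ≤ c₀ * (53 * S * Real.log m + Real.log 2 * (E m + lam * (J + j : ℕ))) := h10
        _ = c₀ * (53 * S * Real.log m + Real.log 2 * E m) +
            c₀ * lam * Real.log 2 * (J + j : ℕ) := by ring
        _ ≤ d * (J + j : ℕ) + c₀ * lam * Real.log 2 * (J + j : ℕ) := by linarith
        _ = 53 * S * (J + j : ℕ) := by rw [hd]; ring
    have h13 : c₀ * Real.log (g (J + j)) ≤ (J + j : ℕ) :=
      le_of_mul_le_mul_left h12 (by positivity)
    have h14 : ((c + (J + j) : ℕ) : ℝ) = c + ((J + j : ℕ) : ℝ) := by push_cast; ring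
    have h15 : (0 : ℝ) ≤ (c : ℝ) := Nat.cast_nonneg _
    rw [h14]
    linarith

end Pool.Agent.helper93.Circ
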